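import Pool.Agent.H88.Herm5

set_option autoImplicit false

namespace Pool.Agent.H88.Herm

open Filter Topology Finset Polynomial MSeq

theorem absmono {u : ℕ → ℝ} (h : IsMultSeq u) (h0 : ∀ k, 0 ≤ u k) (hm : ∀ k, u k ≤ u (k + 1))
    (j : ℕ) : 0 ≤ (fwdDiff 1)^[j] u 0 := by
  classical
  by_cases hz : ∃ m, u m ≠ 0
  swap
  · push Not at hz
    have : u = fun _ => 0 := funext hz
    rw [this, fwdDiff_iter_eq_sum_shift]; simp
  obtain ⟨m, hm1, hm'⟩ : ∃ m, u m ≠ 0 ∧ ∀ i < m, u i = 0 :=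
    ⟨Nat.find hz, Nat.find_spec hz, fun i hi => not_not.1 (Nat.find_min hz hi)⟩
  have p1 : ∀ k i, u (i + k) ≤ (Ls 1)^[k] u i ∧ (Ls 1)^[k] u i ≤ (Ls 1)^[k] u (i + 1) := by
    intro k
    induction k with
    | zero => intro i; simpa using hm i
    | succ k ih =>
      intro i
      simp only [Function.iterate_succ_apply', Ls]
      have := (ih (i + 1)).1
      rw [show i + 1 + k = i + (k + 1) by omega] at this
      constructor <;> linarith [(h0 _).trans (ih i).1, (ih i).2, (ih (i + 1)).2]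
  obtain ⟨ρ, r, -, -, r2, r3⟩ := main0 h h0 ((h0 m).lt_of_ne' hm1) hm' (t := 1) (Or.inl rfl)
    (fun k _ => mul_nonneg ((h0 _).trans (p1 _ 0).1) (by
      rw [Function.iterate_succ_apply', Ls]; linarith [(p1 k 0).2]))
    ⟨m, (((h0 m).lt_of_ne' hm1).trans_le (by simpa using (p1 m 0).1)).ne'⟩
  have H : ∀ n, (fwdDiff 1)^[n] u 0 = n.factorial * ρ n := by
    intro n
    induction n using Nat.strong_induction_on with
    | _ n ih =>
      have h1 := shift_eq_sum_fwdDiff_iter 1 u n 0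
      have h2 := r3 n
      rw [zero_add, smul_eq_mul, mul_one, sum_range_succ] at h1
      rw [div_eq_iff (by positivity), Nat.sum_antidiagonal_eq_sum_range_succ_mk, sum_mul,
        sum_range_succ] at h2
      have h3 : ∑ k ∈ range n, n.choose k • (fwdDiff 1)^[k] u 0 =
          ∑ k ∈ range n, ρ k * (1 / (n - k).factorial) * n.factorial := by
        refine sum_congr rfl (fun k hk => ?_)
        rw [ih k (mem_range.1 hk), ← Nat.choose_mul_factorial_mul_factorial (mem_range.1 hk).le]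
        push_cast; field_simp; simp [mul_comm]
      rw [h3] at h1
      simp at h1 h2
      linarith
  rw [H]
  exact mul_nonneg (by positivity) (r2 j)

theorem logconv {g : ℝ → ℝ} (H : ∀ j t, 0 ≤ (fwdDiff 1)^[j] g t) (t : ℝ) :
    g t ^ 2 ≤ g (t - 1) * g (t + 1) := by
  obtain ⟨Λ, hΛ⟩ : ∃ Λ : ℝ[X] →ₗ[ℝ] ℝ, ∀ k : ℕ, Λ (X ^ k) = g (t + 1 - k) :=
    ⟨lsum (fun k => LinearMap.id.smulRight (g (t + 1 - k))), fun k => by
      simp [lsum_apply, X_pow_eq_monomial, sum_monomial_index]⟩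
  have h1 : ∀ j i : ℕ, Λ (X ^ i * (1 - X) ^ j) = (fwdDiff 1)^[j] g (t + 1 - (i + j)) := by
    intro j
    induction j with
    | zero => intro i; simp [hΛ]
    | succ j ih =>
      intro i
      have e : (X ^ i * (1 - X) ^ (j + 1) : ℝ[X]) =
          X ^ i * (1 - X) ^ j - X ^ (i + 1) * (1 - X) ^ j := by ring
      rw [e, map_sub, ih, ih, Function.iterate_succ_apply', fwdDiff]
      push_cast
      congr 2 <;> ring
  have h2 : ∀ n ν, 0 ≤ Λ (bernsteinPolynomial ℝ n ν) := fun n ν => by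
    rw [bernsteinPolynomial, mul_assoc, ← nsmul_eq_mul, map_nsmul, h1]
    exact nsmul_nonneg (H _ _) _
  have h3 : ∀ c : ℝ, 0 ≤ g (t + 1) * (c * c) + (-2 * g t) * c + g (t - 1) := by
    intro c
    have h4 : ∀ n : ℕ, 0 ≤ g (t + 1) * (c * c) + (-2 * g t) * c + g (t - 1) +
        (g t - g (t - 1)) * (1 / ((n:ℝ) + 1)) := by
      intro n
      have s0 := congrArg Λ (bernsteinPolynomial.sum ℝ (n + 1))
      have s1 := congrArg Λ (bernsteinPolynomial.sum_smul ℝ (n + 1))
      have s2 := congrArg Λ (bernsteinPolynomial.sum_mul_smul ℝ (n + 1))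
      have a0 := hΛ 0
      have a1 := hΛ 1
      have a2 := hΛ 2
      rw [pow_zero] at a0
      rw [pow_one] at a1
      simp only [map_sum, map_nsmul, a0, a1, a2] at s0 s1 s2
      simp only [nsmul_eq_mul] at s1 s2
      have s3 : 0 ≤ ∑ ν ∈ range (n + 1 + 1),
          ((ν:ℝ) - c * (n + 1)) ^ 2 * Λ (bernsteinPolynomial ℝ (n + 1) ν) :=
        sum_nonneg (fun ν _ => mul_nonneg (sq_nonneg _) (h2 _ _))
      have s4 : ∀ ν : ℕ, ((ν:ℝ) - c * (n + 1)) ^ 2 * Λ (bernsteinPolynomial ℝ (n + 1) ν) =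
          ((ν * (ν - 1) : ℕ) : ℝ) * Λ (bernsteinPolynomial ℝ (n + 1) ν) +
          (1 - 2 * c * (n + 1)) * (ν * Λ (bernsteinPolynomial ℝ (n + 1) ν)) +
          (c * (n + 1)) ^ 2 * Λ (bernsteinPolynomial ℝ (n + 1) ν) := by
        intro ν
        rcases ν with _ | ν
        · simp
        · push_cast; ring
      simp only [s4, sum_add_distrib, ← mul_sum, s0, s1, s2] at s3
      norm_num at s3
      rw [show t + 1 - 2 = t - 1 by ring] at s3
      refine nonneg_of_mul_nonneg_right (a := ((n:ℝ) + 1) ^ 2) (s3.trans_eq ?_) (by positivity)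
      field_simp
      ring
    have h5 := ((tendsto_one_div_add_atTop_nhds_zero_nat (𝕜 := ℝ)).const_mul
      (g t - g (t - 1))).const_add (g (t + 1) * (c * c) + (-2 * g t) * c + g (t - 1))
    simpa using ge_of_tendsto' h5 h4
  have := discrim_le_zero h3
  rw [discrim] at this
  nlinarith

theorem affine1 {h : ℝ → ℝ} (hm : Monotone h) (H : ∀ x v, 0 ≤ v → 2 * h x = h (x - v) + h (x + v))
    (x : ℝ) : h x = h 0 + (h 1 - h 0) * x := by
  have h1 : ∀ x y, 2 * h ((x + y) / 2) = h x + h y := by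
    intro x y
    rcases le_total x y with c | c
    · rw [H _ ((y - x) / 2) (by linarith)]; congr 2 <;> ring
    · rw [H _ ((x - y) / 2) (by linarith), add_comm]; congr 2 <;> ring
  let A : ℝ →+ ℝ := AddMonoidHom.mk' (fun x => h x - h 0) (fun x y => by
    have := h1 (x + y) 0
    rw [add_zero, h1] at this
    linarith)
  have := map_real_smul A (MeasureTheory.Measure.AddMonoidHom.continuous_of_measurable A (hm.measurable.sub_const _)) x 1
  simp [A] at this
  linarith

theorem fd_neg (j : ℕ) : ∀ h : ℕ → ℝ → ℝ, (∀ i x, 0 < x → HasDerivAt (h i) (h (i + 1) x) x) →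
    (∀ x, 0 < x → h j x < 0) → (fwdDiff 1)^[j] (fun k : ℕ => h 0 (k + 1)) 0 < 0 := by
  induction j with
  | zero => intro h _ h2; simpa using h2 1 one_pos
  | succ j ih =>
    intro h h1 h2
    have h3 : StrictAntiOn (h j) (Set.Ioi 0) := strictAntiOn_of_deriv_neg (convex_Ioi 0)
      (fun x hx => (h1 j x hx).continuousAt.continuousWithinAt) (fun x hx => by
        rw [interior_Ioi] at hx
        rw [(h1 j x hx).deriv]; exact h2 x hx)
    have := ih (fun i x => h i (x + 1) - h i x) (fun i x hx =>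
      ((h1 i (x + 1) (by linarith)).comp_add_const x 1).sub (h1 i x hx))
      (fun x hx => sub_neg.2 (h3 hx (show 0 < x + 1 by linarith) (lt_add_one x)))
    rw [Function.iterate_succ_apply]
    convert this using 2
    ext k
    simp [fwdDiff]

theorem nat_of_ms {c a : ℝ} (hc : 0 < c) (ha : 0 ≤ a)
    (h : IsMultSeq (fun k => c * ((k:ℝ) + 1) ^ a)) : ∃ m : ℕ, a = m := by
  by_contra H
  push Not at H
  have h1 := absmono h (fun k => by positivity) (fun k => by
    push_cast; gcongr; linarith) (⌊a⌋₊ + 2)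
  refine h1.not_gt ?_
  have h2 := fd_neg (⌊a⌋₊ + 2) (fun i x => c * (∏ l ∈ range i, (a - l)) * x ^ (a - i))
    (fun i x hx => by
      refine ((Real.hasDerivAt_rpow_const (Or.inl hx.ne')).const_mul _).congr_deriv ?_
      rw [prod_range_succ]; push_cast
      rw [show a - (i + 1) = a - i - 1 by ring]; ring)
    (fun x hx => by
      refine mul_neg_of_neg_of_pos (mul_neg_of_pos_of_neg hc ?_) (by positivity)
      rw [prod_range_succ]
      refine mul_neg_of_pos_of_neg (prod_pos (fun l hl => ?_)) ?_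
      · have h3 : (l:ℝ) ≤ ⌊a⌋₊ := by exact_mod_cast Nat.lt_succ_iff.1 (mem_range.1 hl)
        exact sub_pos.2 (h3.trans_lt ((Nat.floor_le ha).lt_of_ne' (H _)))
      · push_cast; linarith [Nat.lt_floor_add_one a])
  simpa using h2

theorem quad {a b c : ℝ} (h : RealRooted (C a + C b * X + C c * X ^ 2)) : 4 * a * c ≤ b ^ 2 := by
  by_contra H
  have hc : c ≠ 0 := by rintro rfl; exact H (by nlinarith [sq_nonneg b])
  obtain ⟨s, hs, hs2⟩ : ∃ s : ℝ, 0 < s ∧ s ^ 2 = 4 * a * c - b ^ 2 :=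
    ⟨√(4 * a * c - b ^ 2), Real.sqrt_pos.2 (by linarith), Real.sq_sqrt (by linarith)⟩
  rcases h with h | h
  · have := congrArg (fun p => coeff p 2) h
    simp at this
    exact hc this
  have h1 := h (((-b / (2 * c) : ℝ) : ℂ) + ((s / (2 * c) : ℝ) : ℂ) * Complex.I) (by
    have h2 : (s:ℂ) ^ 2 = 4 * a * c - b ^ 2 := by exact_mod_cast hs2
    have h3 : (c:ℂ) ≠ 0 := by exact_mod_cast hc
    simp only [map_add, map_mul, aeval_C, aeval_X, map_pow, Complex.coe_algebraMap]
    push_cast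
    field_simp
    linear_combination (s:ℂ) ^ 2 * Complex.I_sq - h2)
  simp only [Complex.add_im, Complex.ofReal_im, Complex.mul_im, Complex.ofReal_re, Complex.I_im,
    mul_one, Complex.I_re, mul_zero, add_zero, zero_add] at h1
  exact div_ne_zero hs.ne' (by simpa using hc) h1

theorem diag3 (u : ℕ → ℝ) : diag u ((X + C 1) ^ 3) =
    C (u 0) + C (3 * u 1) * X + C (3 * u 2) * X ^ 2 + C (u 3) * X ^ 3 := by
  ext k
  simp only [coeff_diag, coeff_X_add_C_pow, coeff_add, coeff_C_mul, coeff_X_pow, coeff_X, coeff_C]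
  rcases k with _ | _ | _ | _ | k
  iterate 4 simp [mul_comm]
  rw [Nat.choose_eq_zero_of_lt (by omega)]; simp

theorem ms_tur {u : ℕ → ℝ} (h : IsMultSeq u) (k : ℕ) : u k * u (k + 2) ≤ u (k + 1) ^ 2 := by
  have h1 := ms_shift h k _ (rr_pow 2)
  have e : diag (fun j => u (j + k)) ((X + C 1) ^ 2) =
      C (u k) + C (2 * u (k + 1)) * X + C (u (k + 2)) * X ^ 2 := by
    ext j
    simp only [coeff_diag, coeff_X_add_C_pow, coeff_add, coeff_C_mul, coeff_X_pow, coeff_X, coeff_C]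
    rcases j with _ | _ | _ | j
    iterate 3 simp [mul_comm, add_comm k]
    rw [Nat.choose_eq_zero_of_lt (by omega)]; simp
  rw [e] at h1
  linarith [quad h1]

theorem ms_geo (a : ℝ) {s : ℝ} (hs : s ≠ 0) : IsMultSeq (fun k => a * s ^ k) := by
  simpa using ms_sign (ms_pow 0) a hs

theorem ms_tri {a r : ℝ} (ha : 0 < a) (hr : a ≤ r) : ∃ γ : ℕ → ℝ, IsMultSeq γ ∧ (∀ k, 0 ≤ γ k) ∧
    γ 0 = a ∧ γ 1 = r ∧ γ 2 = a := by
  rcases hr.eq_or_lt with rfl | hr
  · exact ⟨fun k => a * 1 ^ k, ms_geo a one_ne_zero, fun k => by positivity, by simp⟩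
  obtain ⟨c, hc, hc2⟩ : ∃ c : ℝ, 0 < c ∧ c ^ 2 = r ^ 2 - a ^ 2 :=
    ⟨√(r ^ 2 - a ^ 2), Real.sqrt_pos.2 (by nlinarith), Real.sq_sqrt (by nlinarith)⟩
  have h1 : 0 < r - c := by
    by_contra h; nlinarith
  refine ⟨fun k => a * c / (r - c) * ((r - c) / a) ^ k * (k + (r - c) / c),
    ms_sign (ms_add (by positivity)) _ (by positivity), fun k => by positivity, ?_, ?_, ?_⟩
  · simp; field_simp
  · simp; field_simp; ring
  · simp; field_simp; linear_combination (-1) * hc2

def w3 (k : ℕ) : ℝ := k.descFactorial 3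

theorem ms_w3 : IsMultSeq w3 := by
  intro p hp
  have e : diag w3 p = X ^ 3 * derivative^[3] p := by
    ext k
    rw [coeff_diag, coeff_X_pow_mul', w3]
    split_ifs with h
    · rw [coeff_iterate_derivative, Nat.sub_add_cancel h, nsmul_eq_mul]
    · rw [Nat.descFactorial_of_lt (by omega)]; simp
  rw [e]
  exact rr_of_splits ((Splits.X.pow 3).mul (splits_of_rr (rr_iter hp 3)))

theorem bdry {G c : ℝ} {M : ℕ} (hc : 0 ≤ c) (H : ∀ (a : ℝ) (w : ℕ → ℝ), 0 < a → IsMultSeq w →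
    (∀ k, 0 ≤ w k) → IsMultSeq (fun k => if w k = 0 then G else c * (a * w k) ^ M)) :
    G = c * 0 ^ M := by
  have h3 := H 1 w3 one_pos ms_w3 (fun k => by unfold w3; positivity)
  have h1 := fun a ha => H a (fun k => k) ha ms_id (fun k => by positivity)
  rcases hc.eq_or_lt with rfl | hc
  · have := h3 _ (rr_pow 3)
    rw [diag3] at this
    simp only [w3] at this
    norm_num [-map_mul] at this
    nlinarith [quad this]
  have g0 : 0 ≤ G := by
    have := ms_two (h1 1 one_pos) 0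
    norm_num at this
    exact nonneg_of_mul_nonneg_left this (by positivity)
  rcases M with _ | M
  · have a1 := ms_tur h3 1
    have a2 := ms_tur h3 2
    simp only [w3] at a1 a2
    norm_num [Nat.descFactorial] at a1 a2 ⊢
    have a3 : G ≠ 0 := by
      rintro rfl
      have := (ms_shift (h1 1 one_pos) 0) _ (rr_pow 3)
      rw [diag3] at this
      norm_num [-map_mul] at this
      have e : (C (3 * c) * X + C (3 * c) * X ^ 2 + C c * X ^ 3 : ℝ[X]) =
          X * (C (3 * c) + C (3 * c) * X + C c * X ^ 2) := by ring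
      rw [e] at this
      have h4 : RealRooted (C (3 * c) + C (3 * c) * X + C c * X ^ 2) := by
        rcases this with h | h
        · left; exact (mul_eq_zero.1 h).resolve_left X_ne_zero
        · right; intro z hz; exact h z (by rw [map_mul, hz, mul_zero])
      nlinarith [quad h4]
    have a4 := g0.lt_of_ne' a3
    refine le_antisymm ?_ ?_ <;> nlinarith
  · rw [zero_pow (Nat.succ_ne_zero _), mul_zero]
    refine le_antisymm ?_ g0
    have h4 : ∀ a : ℝ, 0 < a → G ≤ c * a ^ (M + 1) := by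
      intro a ha
      have := ms_tur (h1 a ha) 0
      norm_num at this
      have a1 : a ^ (M + 1) ≤ (a * 2) ^ (M + 1) := by gcongr; linarith
      have a2 : 0 < c * a ^ (M + 1) := by positivity
      refine le_of_mul_le_mul_right ?_ a2
      nlinarith [mul_le_mul_of_nonneg_left a1 (mul_nonneg g0 hc.le)]
    have h5 := ((tendsto_one_div_add_atTop_nhds_zero_nat (𝕜 := ℝ)).pow (M + 1)).const_mul c
    rw [zero_pow (Nat.succ_ne_zero _), mul_zero] at h5
    exact ge_of_tendsto' h5 (fun n => h4 _ (by positivity))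

def Adm (Ψ : ℝ × ℝ → ℝ) : Prop := ∀ α β : ℕ → ℝ, IsMultSeq α → IsMultSeq β → (∀ k, 0 ≤ α k) →
  (∀ k, 0 ≤ β k) → IsMultSeq (fun k => Ψ (α k, β k))

theorem Adm.line {Ψ : ℝ × ℝ → ℝ} (h : Adm Ψ) (p q v w : ℝ) :
    IsMultSeq (fun k => Ψ (Real.exp (p + k * v), Real.exp (q + k * w))) := by
  have := h _ _ (ms_geo (Real.exp p) (Real.exp_pos v).ne') (ms_geo (Real.exp q) (Real.exp_pos w).ne')
    (fun k => by positivity) (fun k => by positivity)
  simpa only [Real.exp_add, Real.exp_nat_mul] using this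

theorem Adm.open {Ψ : ℝ × ℝ → ℝ} (h : Adm Ψ) (h0 : ∀ p q, 0 ≤ Ψ (Real.exp p, Real.exp q)) :
    ∃ (c : ℝ) (m n : ℕ), 0 ≤ c ∧ ∀ x y, 0 < x → 0 < y → Ψ (x, y) = c * x ^ m * y ^ n := by
  obtain ⟨ψ, hψ⟩ : ∃ ψ : ℝ → ℝ → ℝ, ∀ p q, Ψ (Real.exp p, Real.exp q) = ψ p q := ⟨_, fun _ _ => rfl⟩
  have hl := h.line
  simp only [hψ] at h0 hl
  have back : ∀ x y, 0 < x → 0 < y → Ψ (x, y) = ψ (Real.log x) (Real.log y) := fun x y hx hy => by
    rw [← hψ, Real.exp_log hx, Real.exp_log hy]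
  have mono : ∀ p q p' q', p ≤ p' → q ≤ q' → ψ p q ≤ ψ p' q' := by
    intro p q p' q' h1 h2
    obtain ⟨α, a1, a2, a3, a4, a5⟩ := ms_tri (Real.exp_pos p) (Real.exp_le_exp.2 h1)
    obtain ⟨β, b1, b2, b3, b4, b5⟩ := ms_tri (Real.exp_pos q) (Real.exp_le_exp.2 h2)
    have := ms_tur (h α β a1 b1 a2 b2) 0
    simp only [zero_add, a3, a4, a5, b3, b4, b5, hψ] at this
    exact abs_le_of_sq_le_sq' (by linarith) (h0 _ _) |>.2
  have mid : ∀ p q v w, 0 ≤ v → 0 ≤ w → ψ p q ^ 2 = ψ (p - v) (q - w) * ψ (p + v) (q + w) := by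
    intro p q v w hv hw
    refine le_antisymm ?_ ?_
    · have := logconv (g := fun τ => ψ (p + τ * v) (q + τ * w)) (fun j t => by
        have h1 := absmono (hl (p + t * v) (q + t * w) v w) (fun k => h0 _ _)
          (fun k => mono _ _ _ _ (by push_cast; nlinarith) (by push_cast; nlinarith)) j
        rw [fwdDiff_iter_eq_sum_shift] at h1 ⊢
        convert h1 using 4 <;> simp <;> ring) 0
      simpa [sub_eq_add_neg] using this
    · have := ms_tur (hl (p - v) (q - w) v w) 0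
      norm_num at this
      rwa [show p - v + 2 * v = p + v by ring, show q - w + 2 * w = q + w by ring] at this
  by_cases hz : ∀ p q, ψ p q = 0
  · exact ⟨0, 0, 0, le_rfl, fun x y hx hy => by simp [back x y hx hy, hz]⟩
  push Not at hz
  obtain ⟨p0, q0, hz⟩ := hz
  have pos : ∀ p q, 0 < ψ p q := by
    intro p q
    have h1 := mid p0 q0 (|p0 - p| + |q0 - q|) (|p0 - p| + |q0 - q|) (by positivity) (by positivity)
    refine lt_of_lt_of_le ((h0 _ _).lt_of_ne' (fun h2 => hz ?_)) (mono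
      (p0 - (|p0 - p| + |q0 - q|)) (q0 - (|p0 - p| + |q0 - q|)) p q
      (by linarith [le_abs_self (p0 - p), abs_nonneg (q0 - q)])
      (by linarith [le_abs_self (q0 - q), abs_nonneg (p0 - p)]))
    rw [h2, zero_mul] at h1
    exact pow_eq_zero_iff (by norm_num) |>.1 h1
  obtain ⟨f, hf⟩ : ∃ f : ℝ → ℝ → ℝ, ∀ p q, f p q = Real.log (ψ p q) := ⟨_, fun _ _ => rfl⟩
  have fm : ∀ p q p' q', p ≤ p' → q ≤ q' → f p q ≤ f p' q' := fun p q p' q' h1 h2 => by
    rw [hf, hf]; exact Real.log_le_log (pos _ _) (mono _ _ _ _ h1 h2)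
  have fd : ∀ p q v w, 0 ≤ v → 0 ≤ w → 2 * f p q = f (p - v) (q - w) + f (p + v) (q + w) := by
    intro p q v w hv hw
    rw [hf, hf, hf, ← Real.log_mul (pos _ _).ne' (pos _ _).ne', ← mid p q v w hv hw, Real.log_pow]
    norm_num
  have f1 := fun q => affine1 (h := fun p => f p q) (fun _ _ h => fm _ _ _ _ h le_rfl)
    (fun x v hv => by simpa using fd x q v 0 hv le_rfl)
  have f2 := fun p => affine1 (h := fun q => f p q) (fun _ _ h => fm _ _ _ _ le_rfl h)
    (fun x v hv => by simpa using fd p x 0 v le_rfl hv)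
  have f3 : f 1 1 - f 1 0 = f 0 1 - f 0 0 := by
    have := fd 0 0 1 1 zero_le_one zero_le_one
    norm_num at this
    linarith [f1 (-1) (-1), f2 0 (-1), f2 1 (-1)]
  have f4 : ∀ x y, 0 < x → 0 < y → Ψ (x, y) =
      ψ 0 0 * x ^ (f 1 0 - f 0 0) * y ^ (f 0 1 - f 0 0) := by
    intro x y hx hy
    rw [back x y hx hy, Real.rpow_def_of_pos hx, Real.rpow_def_of_pos hy, ← Real.exp_log (pos 0 0),
      ← Real.exp_log (pos (Real.log x) _), ← hf, ← hf, ← Real.exp_add, ← Real.exp_add, f1, f2 0, f2 1,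
      f3]
    congr 1; ring
  obtain ⟨m, hm⟩ := nat_of_ms (pos 0 0) (sub_nonneg.2 (fm 0 0 1 0 zero_le_one le_rfl)) (by
    have := h _ _ (ms_add one_pos) (ms_pow 0) (fun k => by positivity) (fun k => by positivity)
    convert this using 2 with k
    rw [f4 _ _ (by positivity) (by positivity)]; simp)
  obtain ⟨n, hn⟩ := nat_of_ms (pos 0 0) (sub_nonneg.2 (fm 0 0 0 1 le_rfl zero_le_one)) (by
    have := h _ _ (ms_pow 0) (ms_add one_pos) (fun k => by positivity) (fun k => by positivity)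
    convert this using 2 with k
    rw [f4 _ _ (by positivity) (by positivity)]; simp)
  exact ⟨ψ 0 0, m, n, h0 _ _, fun x y hx hy => by
    rw [f4 x y hx hy, hm, hn, Real.rpow_natCast, Real.rpow_natCast]⟩

theorem Adm.closed {Ψ : ℝ × ℝ → ℝ} (h : Adm Ψ) (h0 : ∀ p q, 0 ≤ Ψ (Real.exp p, Real.exp q)) :
    ∃ (c : ℝ) (m n : ℕ), ∀ x y, 0 ≤ x → 0 ≤ y → Ψ (x, y) = c * x ^ m * y ^ n := by
  obtain ⟨c, m, n, hc, H⟩ := h.open h0
  have hw : ∀ {a : ℝ} {w : ℕ → ℝ}, IsMultSeq w → IsMultSeq (fun k => a * w k) :=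
    fun {a w} hw => by simpa using ms_sign hw a one_ne_zero
  have hk : ∀ y : ℝ, IsMultSeq (fun _ => y) := fun y => by simpa using ms_geo y one_ne_zero
  refine ⟨c, m, n, fun x y hx hy => ?_⟩
  rcases hx.eq_or_lt with rfl | hx <;> rcases hy.eq_or_lt with rfl | hy
  · rw [mul_assoc, ← pow_add]
    refine bdry hc (fun a w ha h1 h2 => ?_)
    convert h _ _ (hw (a := a) h1) (hw (a := a) h1) (fun k => mul_nonneg ha.le (h2 k))
      (fun k => mul_nonneg ha.le (h2 k)) using 2 with k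
    split_ifs with h3
    · simp [h3]
    · have := mul_pos ha ((h2 k).lt_of_ne' h3)
      rw [H _ _ this this, pow_add, mul_assoc c]
  · rw [mul_right_comm]
    refine bdry (by positivity) (fun a w ha h1 h2 => ?_)
    convert h _ _ (hw (a := a) h1) (hk y) (fun k => mul_nonneg ha.le (h2 k))
      (fun k => hy.le) using 2 with k
    split_ifs with h3
    · simp [h3]
    · rw [H _ _ (mul_pos ha ((h2 k).lt_of_ne' h3)) hy, mul_right_comm]
  · refine bdry (by positivity) (fun a w ha h1 h2 => ?_)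
    convert h _ _ (hk x) (hw (a := a) h1) (fun k => hx.le)
      (fun k => mul_nonneg ha.le (h2 k)) using 2 with k
    split_ifs with h3
    · simp [h3]
    · rw [H _ _ hx (mul_pos ha ((h2 k).lt_of_ne' h3))]
  · exact H x y hx hy

theorem ms_npow {α : ℕ → ℝ} (h : IsMultSeq α) (m : ℕ) : IsMultSeq (fun k => α k ^ m) := by
  induction m with
  | zero => simpa using ms_pow 0
  | succ m ih => simpa only [pow_succ] using ih.mul h

theorem adm_iff (Ψ : ℝ × ℝ → ℝ) : Adm Ψ ↔
    ∃ (c : ℝ) (m n : ℕ), ∀ x y, 0 ≤ x → 0 ≤ y → Ψ (x, y) = c * x ^ m * y ^ n := by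
  refine ⟨fun h => ?_, fun ⟨c, m, n, H⟩ α β a b ha hb => ?_⟩
  · by_cases h0 : ∀ p q, 0 ≤ Ψ (Real.exp p, Real.exp q)
    · exact h.closed h0
    push Not at h0
    obtain ⟨p0, q0, h0⟩ := h0
    obtain ⟨c, m, n, H⟩ := Adm.closed (Ψ := fun z => -Ψ z) (fun α β a b ha hb => by
      simpa using ms_sign (h α β a b ha hb) (-1) one_ne_zero) (fun p q => by
        have := ms_two (h.line p0 q0 ((p - p0) / 2) ((q - q0) / 2)) 0
        norm_num at this
        rw [show p0 + 2 * ((p - p0) / 2) = p by ring, show q0 + 2 * ((q - q0) / 2) = q by ring] at this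
        by_contra h1
        nlinarith [mul_neg_of_neg_of_pos h0 (show 0 < Ψ (Real.exp p, Real.exp q) by linarith)])
    exact ⟨-c, m, n, fun x y hx hy => by linarith [H x y hx hy]⟩
  · have := ms_sign ((ms_npow a m).mul (ms_npow b n)) c one_ne_zero
    convert this using 2 with k
    rw [H _ _ (ha k) (hb k)]; ring

end Pool.Agent.H88.Herm
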