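import Mathlib

/-! A Kruskal-type construction of an `(m+1)`-Lipschitz retraction. -/

namespace Pool.Agent.H88.Pex

open Finset

variable {X : Type*} [MetricSpace X] [Fintype X] [DecidableEq X]

def sz (φ : X → X) (z : X) : ℕ := (univ.filter fun x => φ x = z).card

structure Inv (S : Finset X) (m : ℕ) (φ : X → X) (δ : ℝ) : Prop where
  d0 : 0 ≤ δ
  fix : ∀ s ∈ S, φ s = s
  j1 : ∀ x y, φ x = φ y → dist x y + δ ≤ sz φ (φ x) * δ
  j3 : ∀ x y, φ x ∉ S → φ y ≠ φ x → δ ≤ dist x y
  j4 : ∀ x y, φ x ∈ S → φ y ∈ S → dist (φ x) (φ y) ≤ (m + 1) * dist x y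

omit [MetricSpace X] in
lemma sz_add {S : Finset X} {m : ℕ} (hm : Sᶜ.card ≤ m) {φ : X → X} (fix : ∀ s ∈ S, φ s = s)
    {a b : X} (hab : a ≠ b) : sz φ a + sz φ b ≤ m + 2 := by
  unfold sz
  rw [← card_union_of_disjoint (disjoint_filter.2 fun x _ h1 h2 => hab (h1.symm.trans h2))]
  refine (card_le_card (t := insert a (insert b Sᶜ)) fun x hx => ?_).trans ?_
  · by_cases hs : x ∈ S
    · have := fix x hs
      simp only [mem_union, mem_filter, mem_univ, true_and, this] at hx
      rcases hx with h | h <;> simp [h]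
    · simp [hs]
  · have := card_insert_le a (insert b Sᶜ)
    have := card_insert_le b Sᶜ
    omega

theorem kruskal {S : Finset X} (hS : S.Nonempty) {m : ℕ} (hm : Sᶜ.card ≤ m) (k : ℕ) :
    ∀ (φ : X → X) (δ : ℝ), Inv S m φ δ → (univ.image φ).card ≤ k →
      ∃ R : X → X, (∀ s ∈ S, R s = s) ∧ (∀ x, R x ∈ S) ∧
        ∀ x y, dist (R x) (R y) ≤ (m + 1) * dist x y := by
  induction k with
  | zero =>
    intro φ δ _ hk
    obtain ⟨s, -⟩ := hS
    have := card_pos.2 ⟨φ s, mem_image_of_mem φ (mem_univ s)⟩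
    omega
  | succ k ih =>
    intro φ δ h hk
    by_cases hall : ∀ x, φ x ∈ S
    · exact ⟨φ, h.fix, hall, fun x y => h.j4 x y (hall x) (hall y)⟩
    push Not at hall
    obtain ⟨x1, hx1⟩ := hall
    obtain ⟨s, hs⟩ := hS
    obtain ⟨⟨x0, y0⟩, h0, hmin⟩ := exists_min_image
      (univ.filter fun q : X × X => φ q.1 ∉ S ∧ φ q.2 ≠ φ q.1) (fun q => dist q.1 q.2)
      ⟨(x1, s), by
        simp only [mem_filter, mem_univ, true_and]
        exact ⟨hx1, fun e => hx1 (by rw [← e, h.fix s hs]; exact hs)⟩⟩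
    simp only [mem_filter, mem_univ, true_and] at h0 hmin
    obtain ⟨a1, a2⟩ := h0
    set δ' := dist x0 y0 with hδ'
    have hδ : δ ≤ δ' := h.j3 x0 y0 a1 a2
    have hm' : ∀ x y, φ x ∉ S → φ y ≠ φ x → δ' ≤ dist x y := fun x y b1 b2 => hmin (x, y) ⟨b1, b2⟩
    let ψ : X → X := fun x => if φ x = φ x0 then φ y0 else φ x
    have p1 : ∀ x, φ x = φ x0 → ψ x = φ y0 := fun x hx => if_pos hx
    have p2 : ∀ x, φ x ≠ φ x0 → ψ x = φ x := fun x hx => if_neg hx
    have hfix : ∀ s ∈ S, ψ s = s := fun s hs => by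
      rw [p2 s fun e => a1 (by rw [← e, h.fix s hs]; exact hs), h.fix s hs]
    have j1' : ∀ x y, φ x = φ y → dist x y + δ' ≤ sz φ (φ x) * δ' := by
      intro x y e
      have b1 := h.j1 x y e
      have b2 : (1 : ℝ) ≤ sz φ (φ x) := by
        exact_mod_cast card_pos.2 ⟨x, by simp⟩
      nlinarith
    have hsz0 : sz ψ (φ y0) = sz φ (φ x0) + sz φ (φ y0) := by
      unfold sz
      rw [← card_union_of_disjoint (disjoint_filter.2 fun x _ h1 h2 => a2 (h2.symm.trans h1))]
      congr 1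
      ext x
      simp only [mem_filter, mem_univ, true_and, mem_union]
      by_cases hx : φ x = φ x0
      · simp [p1 x hx, hx]
      · simp [p2 x hx, hx]
    have hsz : ∀ x, sz φ (φ x) ≤ sz ψ (ψ x) := fun x => card_le_card fun y hy => by
      simp only [mem_filter, mem_univ, true_and] at hy ⊢
      simp only [ψ, hy]
    have d0' : 0 ≤ δ' := dist_nonneg
    have cross : ∀ x y, φ x = φ x0 → φ y = φ y0 → dist x y + δ' ≤ sz ψ (φ y0) * δ' := by
      intro x y e1 e2
      have b1 := j1' x x0 e1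
      have b2 := j1' y0 y e2.symm
      have b3 := dist_triangle4 x x0 y0 y
      rw [e1] at b1
      rw [hsz0]; push_cast; linarith
    have j1'' : ∀ x y, ψ x = ψ y → dist x y + δ' ≤ sz ψ (ψ x) * δ' := by
      intro x y e
      by_cases e0 : φ x = φ y
      · exact (j1' x y e0).trans (mul_le_mul_of_nonneg_right (by exact_mod_cast hsz x) d0')
      by_cases hx : φ x = φ x0
      · have hy : φ y ≠ φ x0 := fun h => e0 (hx.trans h.symm)
        rw [p1 x hx, p2 y hy] at e
        rw [p1 x hx]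
        exact cross x y hx e.symm
      · by_cases hy : φ y = φ x0
        · rw [p2 x hx, p1 y hy] at e
          rw [p2 x hx, e, dist_comm]
          exact cross y x hy e
        · rw [p2 x hx, p2 y hy] at e
          exact absurd e e0
    have new : ∀ x y, φ x = φ x0 → ψ x ∈ S → ψ y ∈ S →
        dist (ψ x) (ψ y) ≤ (m + 1) * dist x y := by
      intro x y hx b1 b2
      by_cases e : ψ x = ψ y
      · rw [e, dist_self]; positivity
      have b3 : φ y ≠ φ x := fun h => e (by simp only [ψ, h])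
      have b4 := hm' x y (hx ▸ a1) b3
      have b5 := j1'' x (ψ x) (hfix _ b1).symm
      have b6 := j1'' y (ψ y) (hfix _ b2).symm
      have b7 : (sz ψ (ψ x) : ℝ) + sz ψ (ψ y) ≤ m + 2 := by exact_mod_cast sz_add hm hfix e
      have b8 := dist_triangle4 (ψ x) x y (ψ y)
      rw [dist_comm (ψ x) x] at b8
      have b9 := mul_le_mul_of_nonneg_right b7 d0'
      have b10 := mul_le_mul_of_nonneg_left b4 (Nat.cast_nonneg (α := ℝ) m)
      linarith
    refine ih ψ δ' ⟨d0', hfix, j1'', fun x y b1 b2 => hm' x y ?_ fun h => b2 (by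
      simp only [ψ, h]), fun x y b1 b2 => ?_⟩ ?_
    · by_cases hx : φ x = φ x0
      · exact hx ▸ a1
      · rwa [p2 x hx] at b1
    · by_cases hx : φ x = φ x0
      · exact new x y hx b1 b2
      by_cases hy : φ y = φ x0
      · rw [dist_comm, dist_comm x]; exact new y x hy b2 b1
      · rw [p2 x hx] at b1 ⊢
        rw [p2 y hy] at b2 ⊢
        exact h.j4 x y b1 b2
    · have : univ.image ψ ⊆ (univ.image φ).erase (φ x0) := by
        intro z hz
        obtain ⟨x, -, rfl⟩ := mem_image.1 hz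
        by_cases hx : φ x = φ x0
        · rw [p1 x hx]; exact mem_erase.2 ⟨a2, mem_image_of_mem φ (mem_univ _)⟩
        · rw [p2 x hx]; exact mem_erase.2 ⟨hx, mem_image_of_mem φ (mem_univ _)⟩
      have h1 := card_le_card this
      rw [card_erase_of_mem (mem_image_of_mem φ (mem_univ _))] at h1
      omega

theorem retract {S : Finset X} (hS : S.Nonempty) {m : ℕ} (hm : Sᶜ.card ≤ m) :
    ∃ R : X → X, (∀ s ∈ S, R s = s) ∧ (∀ x, R x ∈ S) ∧
      ∀ x y, dist (R x) (R y) ≤ (m + 1) * dist x y :=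
  kruskal hS hm _ id 0 ⟨le_rfl, fun _ _ => rfl, fun x y (e : x = y) => by simp [e],
    fun _ _ _ _ => dist_nonneg, fun x y _ _ => le_mul_of_one_le_left dist_nonneg (by
      linarith [(Nat.cast_nonneg m : (0 : ℝ) ≤ m)])⟩ le_rfl

end Pool.Agent.H88.Pex
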