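import Mathlib

namespace Pool.Agent.H88.Pex

open Filter Topology
open scoped ENNReal

/-- `ν` is a `p`-norm on `Z` which is complete for the metric `ν (x - y) ^ p`. -/
structure IsPBanach (𝕜 : Type) [RCLike 𝕜] (p : ℝ) {Z : Type} [AddCommGroup Z] [Module 𝕜 Z]
    (ν : Z → ℝ) : Prop where
  nonneg : ∀ x, 0 ≤ ν x
  pos : ∀ x, x ≠ 0 → 0 < ν x
  smul : ∀ (a : 𝕜) x, ν (a • x) = ‖a‖ * ν x
  tri : ∀ x y, ν (x + y) ^ p ≤ ν x ^ p + ν y ^ p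
  complete : ∀ u : ℕ → Z, (∀ ε > 0, ∃ K, ∀ i ≥ K, ∀ j ≥ K, ν (u i - u j) ^ p < ε) →
    ∃ z, Tendsto (fun i => ν (u i - z) ^ p) atTop (𝓝 0)

/-- `Lip f = sup_{x ≠ y} ν (f x - f y) / ρ(x, y)`. -/
noncomputable def lip {N Z : Type} [MetricSpace N] [AddCommGroup Z] (ν : Z → ℝ) (f : N → Z) :
    ℝ≥0∞ :=
  ⨆ (x : N) (y : N) (_ : x ≠ y), ENNReal.ofReal (ν (f x - f y) / dist x y)

/-- Every Lipschitz map from `N` to a `p`-Banach space extends along `ι : N → M` with the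
Lipschitz constant multiplied by at most `C`. -/
def Ext (𝕜 : Type) [RCLike 𝕜] (p : ℝ) {N M : Type} [MetricSpace N] [MetricSpace M] (ι : N → M)
    (C : ℝ≥0∞) : Prop :=
  ∀ (Z : Type) [AddCommGroup Z] [Module 𝕜 Z] (ν : Z → ℝ), IsPBanach 𝕜 p ν →
    ∀ f : N → Z, lip ν f < ⊤ → ∃ g : M → Z, (∀ x, g (ι x) = f x) ∧ lip ν g ≤ C * lip ν f

/-- The `p`-trace `t_p(N, M)`, `N` being identified with `ι(N) ⊆ M`. -/
noncomputable def tr (𝕜 : Type) [RCLike 𝕜] (p : ℝ) {N M : Type} [MetricSpace N] [MetricSpace M]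
    (ι : N → M) : ℝ≥0∞ :=
  sInf {C | 0 < C ∧ Ext 𝕜 p ι C}

/-- The absolute `p`-extendability constant `ae_p(N)`. -/
noncomputable def ae (𝕜 : Type) [RCLike 𝕜] (p : ℝ) (N : Type) [MetricSpace N] : ℝ≥0∞ :=
  ⨆ (M : Type) (_ : MetricSpace M) (ι : N → M) (_ : Isometry ι), tr 𝕜 p ι

/-- `ae_p(n)`. -/
noncomputable def aeN (p : ℝ) (n : ℕ) : ℝ≥0∞ :=
  ⨆ (N : Type) (_ : MetricSpace N) (_ : Nonempty N) (_ : ENat.card N ≤ n), ae ℝ p N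

/-- The limit as `p → 0+`. -/
noncomputable def lim0 (F : ℝ → ℝ≥0∞) : ℝ≥0∞ := limUnder (𝓝[>] 0) F

/-- `S(n, m)`. -/
noncomputable def SS (n m : ℕ) : ℝ≥0∞ :=
  ⨆ (N : Type) (M : Type) (_ : MetricSpace N) (_ : MetricSpace M) (ι : N → M) (_ : Isometry ι)
    (_ : Nonempty N) (_ : ENat.card N ≤ n) (_ : (Set.range ι)ᶜ.encard ≤ m),
    lim0 fun p => tr ℝ p ι

/-- Every closed ball of radius `2r` is covered by `n` closed balls of radius `r`. -/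
def Doubling (N : Type) [MetricSpace N] (n : ℕ) : Prop :=
  ∀ (x : N) (r : ℝ), 0 < r → ∃ s : Finset N, s.card ≤ n ∧
    Metric.closedBall x (2 * r) ⊆ ⋃ y ∈ s, Metric.closedBall y r

/-- `sup { lim_{p → 0} ae_p(N) / ae_1(N) : λ_N ≤ n }`. -/
noncomputable def supQ (𝕜 : Type) [RCLike 𝕜] (n : ℕ) : ℝ≥0∞ :=
  ⨆ (N : Type) (_ : MetricSpace N) (_ : Doubling N n) (_ : ae 𝕜 1 N < ⊤),
    lim0 fun p => ae 𝕜 p N / ae 𝕜 1 N

end Pool.Agent.H88.Pex
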