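import Mathlib
import Pool.Agent.H88.PexDefs
import Pool.Agent.H88.Pex1

/-! Upper bounds and monotonicity for the `p`-trace. -/

namespace Pool.Agent.H88.Pex

open Filter Topology
open scoped ENNReal

variable {𝕜 : Type} [RCLike 𝕜] {p : ℝ}

lemma IsPBanach.zero {Z : Type} [AddCommGroup Z] [Module 𝕜 Z] {ν : Z → ℝ}
    (h : IsPBanach 𝕜 p ν) : ν 0 = 0 := by
  have := h.smul 0 0
  simpa using this

lemma lip_le {N Z : Type} [MetricSpace N] [AddCommGroup Z] {ν : Z → ℝ} {f : N → Z} {c : ℝ}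
    (h : ∀ x y, ν (f x - f y) ≤ c * dist x y) : lip ν f ≤ ENNReal.ofReal c :=
  iSup_le fun x => iSup_le fun y => iSup_le fun hxy => ENNReal.ofReal_le_ofReal
    ((div_le_iff₀ (dist_pos.2 hxy)).2 (h x y))

lemma le_of_lip {N Z : Type} [MetricSpace N] [AddCommGroup Z] {ν : Z → ℝ} (h0 : ν 0 = 0)
    {f : N → Z} {c : ℝ} (hc : 0 ≤ c) (h : lip ν f ≤ ENNReal.ofReal c) (x y : N) :
    ν (f x - f y) ≤ c * dist x y := by
  by_cases hxy : x = y
  · simp [hxy, h0]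
  · have : ENNReal.ofReal (ν (f x - f y) / dist x y) ≤ ENNReal.ofReal c :=
      le_trans (le_iSup₂_of_le (f := fun x y => ⨆ (_ : x ≠ y),
        ENNReal.ofReal (ν (f x - f y) / dist x y)) x y (le_iSup_of_le (f := fun _ : x ≠ y =>
        ENNReal.ofReal (ν (f x - f y) / dist x y)) hxy le_rfl)) h
    exact (div_le_iff₀ (dist_pos.2 hxy)).1 ((ENNReal.ofReal_le_ofReal_iff hc).1 this)

variable {N M : Type} [MetricSpace N] [MetricSpace M]

lemma tr_le_of {ι : N → M} {c : ℝ} (hc : 0 < c)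
    (h : ∀ (Z : Type) [AddCommGroup Z] [Module 𝕜 Z] (ν : Z → ℝ), IsPBanach 𝕜 p ν →
      ∀ (f : N → Z) (L : ℝ), 0 ≤ L → (∀ x y, ν (f x - f y) ≤ L * dist x y) →
        ∃ g : M → Z, (∀ x, g (ι x) = f x) ∧ ∀ x y, ν (g x - g y) ≤ c * L * dist x y) :
    tr 𝕜 p ι ≤ ENNReal.ofReal c := by
  refine sInf_le ⟨ENNReal.ofReal_pos.2 hc, fun Z _ _ ν hν f hf => ?_⟩
  obtain ⟨g, h1, h2⟩ := h Z ν hν f (lip ν f).toReal ENNReal.toReal_nonneg
    (le_of_lip hν.zero ENNReal.toReal_nonneg (ENNReal.ofReal_toReal hf.ne).ge)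
  refine ⟨g, h1, (lip_le h2).trans_eq ?_⟩
  rw [ENNReal.ofReal_mul hc.le, ENNReal.ofReal_toReal hf.ne]

theorem tr_le_basso {ι : N → M} (hι : Isometry ι) [Nonempty N] {n m : ℕ} (hn : ENat.card N ≤ n)
    (hm : (Set.range ι)ᶜ.encard ≤ m) : tr 𝕜 p ι ≤ (m + 1 : ℝ≥0∞) := by
  classical
  have : Finite N := ENat.card_lt_top.1 (hn.trans_lt (ENat.natCast_lt_top n))
  have hf : (Set.range ι)ᶜ.Finite := Set.finite_of_encard_le_coe hm
  have : Finite M := by
    rw [← Set.finite_univ_iff, ← Set.union_compl_self (Set.range ι)]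
    exact (Set.finite_range ι).union hf
  have := Fintype.ofFinite M
  obtain ⟨R, h1, h2, h3⟩ := retract (S := (Set.range ι).toFinset) (m := m)
    ⟨ι (Classical.arbitrary N), by simp⟩ (by
      rw [← Set.toFinset_compl]
      rw [Set.encard_eq_coe_toFinset_card] at hm
      exact_mod_cast hm)
  choose r hr using fun x => Set.mem_toFinset.1 (h2 x)
  have := tr_le_of (𝕜 := 𝕜) (p := p) (ι := ι) (c := m + 1) (by positivity)
    fun Z _ _ ν hν f L hL hf => ⟨fun x => f (r x), fun x =>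
      congrArg f (hι.injective ((hr _).trans (h1 _ (by simp)))), fun x y => by
      refine (hf _ _).trans ?_
      rw [← hι.dist_eq, hr, hr, mul_comm _ L, mul_assoc]
      exact mul_le_mul_of_nonneg_left (h3 x y) hL⟩
  rwa [ENNReal.ofReal_add (by positivity) zero_le_one, ENNReal.ofReal_natCast,
    ENNReal.ofReal_one] at this

lemma IsPBanach.mono {Z : Type} [AddCommGroup Z] [Module 𝕜 Z] {ν : Z → ℝ}
    (h : IsPBanach 𝕜 p ν) {q : ℝ} (hq : 0 < q) (hqp : q ≤ p) : IsPBanach 𝕜 q ν := by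
  have hp : 0 < p := hq.trans_le hqp
  have e : ∀ x, ν x ^ q = (ν x ^ p) ^ (q / p) := fun x => by
    rw [← Real.rpow_mul (h.nonneg x), mul_div_cancel₀ _ hp.ne']
  have n : ∀ x, 0 ≤ ν x ^ p := fun x => Real.rpow_nonneg (h.nonneg x) _
  have hθ : 0 < q / p := div_pos hq hp
  refine ⟨h.nonneg, h.pos, h.smul, fun x y => ?_, fun u hu => ?_⟩
  · rw [e, e, e]
    exact (Real.rpow_le_rpow (n _) (h.tri x y) hθ.le).trans
      (Real.rpow_add_le_add_rpow (n _) (n _) hθ.le ((div_le_one hp).2 hqp))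
  · obtain ⟨z, hz⟩ := h.complete u fun ε hε => by
      obtain ⟨K, hK⟩ := hu (ε ^ (q / p)) (Real.rpow_pos_of_pos hε _)
      refine ⟨K, fun i hi j hj => ?_⟩
      have := hK i hi j hj
      rw [e] at this
      exact (Real.rpow_lt_rpow_iff (n _) hε.le hθ).1 this
    refine ⟨z, ?_⟩
    have := hz.rpow_const (Or.inr hθ.le)
    rw [Real.zero_rpow hθ.ne'] at this
    simpa only [e] using this

lemma tr_anti (ι : N → M) : AntitoneOn (fun p => tr 𝕜 p ι) (Set.Ioo 0 1) :=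
  fun _ hq _ _ hqp => sInf_le_sInf fun _ hC =>
    ⟨hC.1, fun Z _ _ ν hν => hC.2 Z ν (hν.mono hq.1 hqp)⟩

lemma tr_tendsto (ι : N → M) :
    Tendsto (fun p => tr 𝕜 p ι) (𝓝[>] 0) (𝓝 (lim0 fun p => tr 𝕜 p ι)) := by
  have := AntitoneOn.tendsto_nhdsWithin_Ioo_right (Set.nonempty_Ioo.2 zero_lt_one)
    (tr_anti (𝕜 := 𝕜) ι) (OrderTop.bddAbove _)
  rw [lim0, this.limUnder_eq]
  exact this

end Pool.Agent.H88.Pex
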