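import Mathlib
import Pool.Agent.H88.Pex2

/-! The `p`-norm generated by a finite weighted family of vectors. -/

namespace Pool.Agent.H88.Am

open Pool.Agent.H88.Pex Filter Topology Finset

variable {p : ℝ} {ι Y : Type} [Fintype ι] [NormedAddCommGroup Y] [NormedSpace ℝ Y]

lemma psum_le {Z α : Type} [AddCommGroup Z] [Module ℝ Z] {ν : Z → ℝ} (h : IsPBanach ℝ p ν)
    (hp : 0 < p) (s : Finset α) (u : α → Z) : ν (∑ x ∈ s, u x) ^ p ≤ ∑ x ∈ s, ν (u x) ^ p := by
  classical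
  induction s using Finset.induction_on with
  | empty => simp [h.zero, hp.ne']
  | insert a s ha ih =>
    rw [sum_insert ha, sum_insert ha]
    exact (h.tri _ _).trans (by linarith)

lemma rsum_le {α : Type} (hp : 0 < p) (hp1 : p ≤ 1) (s : Finset α) {u : α → ℝ}
    (hu : ∀ x, 0 ≤ u x) : (∑ x ∈ s, u x) ^ p ≤ ∑ x ∈ s, u x ^ p := by
  classical
  induction s using Finset.induction_on with
  | empty => simp [hp.ne']
  | insert a s ha ih =>
    rw [sum_insert ha, sum_insert ha]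
    exact (Real.rpow_add_le_add_rpow (hu _) (sum_nonneg fun x _ => hu x) hp.le hp1).trans
      (by linarith)

noncomputable def cost (p : ℝ) (ρ a : ι → ℝ) : ℝ := ∑ i, |a i| ^ p * ρ i

noncomputable def G (p : ℝ) (ρ : ι → ℝ) (v : ι → Y) (μ : Y) : ℝ :=
  sInf (cost p ρ '' {a | ∑ i, a i • v i = μ})

structure Gen (p : ℝ) (ρ : ι → ℝ) (v : ι → Y) (S : Y → ι → ℝ) : Prop where
  p0 : 0 < p
  p1 : p ≤ 1
  le : ∀ i, ‖v i‖ ^ p ≤ ρ i
  cont : Continuous S
  zero : S 0 = 0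
  rep : ∀ μ, ∑ i, S μ i • v i = μ

namespace Gen

variable {ρ : ι → ℝ} {v : ι → Y} {S : Y → ι → ℝ} (h : Gen p ρ v S)
include h

lemma rho (i : ι) : 0 ≤ ρ i := le_trans (by positivity) (h.le i)

lemma norm_le (a : ι → ℝ) : ‖∑ i, a i • v i‖ ^ p ≤ cost p ρ a := by
  refine (Real.rpow_le_rpow (norm_nonneg _) (norm_sum_le _ _) h.p0.le).trans
    ((rsum_le h.p0 h.p1 _ fun _ => norm_nonneg _).trans (sum_le_sum fun i _ => ?_))
  rw [norm_smul, Real.mul_rpow (norm_nonneg _) (norm_nonneg _), Real.norm_eq_abs]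
  exact mul_le_mul_of_nonneg_left (h.le i) (by positivity)

lemma G_le {a : ι → ℝ} {μ : Y} (ha : ∑ i, a i • v i = μ) : G p ρ v μ ≤ cost p ρ a :=
  csInf_le ⟨0, by
    rintro _ ⟨b, -, rfl⟩
    exact le_trans (by positivity) (h.norm_le b)⟩ ⟨a, ha, rfl⟩

lemma le_G {μ : Y} {c : ℝ} (hc : ∀ a, ∑ i, a i • v i = μ → c ≤ cost p ρ a) : c ≤ G p ρ v μ :=
  le_csInf ⟨_, S μ, h.rep μ, rfl⟩ (by
    rintro _ ⟨b, hb, rfl⟩
    exact hc b hb)

lemma norm_le_G (μ : Y) : ‖μ‖ ^ p ≤ G p ρ v μ := h.le_G fun a ha => ha ▸ h.norm_le a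

lemma G_nonneg (μ : Y) : 0 ≤ G p ρ v μ := le_trans (by positivity) (h.norm_le_G μ)

lemma G_add (μ μ' : Y) : G p ρ v (μ + μ') ≤ G p ρ v μ + G p ρ v μ' := by
  rw [← sub_le_iff_le_add']
  refine h.le_G fun b hb => ?_
  rw [sub_le_comm]
  refine h.le_G fun a ha => ?_
  rw [sub_le_iff_le_add]
  refine (h.G_le (a := a + b) (by simp [add_smul, sum_add_distrib, ha, hb])).trans ?_
  simp only [cost, ← sum_add_distrib, ← add_mul]
  refine sum_le_sum fun i _ => mul_le_mul_of_nonneg_right ?_ (h.rho i)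
  exact (Real.rpow_le_rpow (abs_nonneg _) (abs_add_le _ _) h.p0.le).trans
    (Real.rpow_add_le_add_rpow (abs_nonneg _) (abs_nonneg _) h.p0.le h.p1)

lemma G_smul_le {c : ℝ} (hc : c ≠ 0) (μ : Y) : G p ρ v (c • μ) ≤ |c| ^ p * G p ρ v μ := by
  rw [← div_le_iff₀' (by positivity)]
  refine h.le_G fun a ha => ?_
  rw [div_le_iff₀' (by positivity)]
  refine (h.G_le (a := c • a) (by simp [← ha, smul_sum, mul_smul])).trans_eq ?_
  simp only [cost, mul_sum, Pi.smul_apply, smul_eq_mul, abs_mul]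
  refine sum_congr rfl fun i _ => ?_
  rw [Real.mul_rpow (abs_nonneg _) (abs_nonneg _), mul_assoc]

lemma G_zero : G p ρ v 0 = 0 :=
  le_antisymm ((h.G_le (a := 0) (by simp)).trans_eq (by simp [cost, h.p0.ne'])) (h.G_nonneg 0)

lemma G_smul (c : ℝ) (μ : Y) : G p ρ v (c • μ) = |c| ^ p * G p ρ v μ := by
  by_cases hc : c = 0
  · simp [hc, h.G_zero, h.p0.ne']
  refine le_antisymm (h.G_smul_le hc μ) ?_
  have := h.G_smul_le (inv_ne_zero hc) (c • μ)
  rw [inv_smul_smul₀ hc, abs_inv, Real.inv_rpow (abs_nonneg _),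
    le_inv_mul_iff₀ (by positivity)] at this
  exact this

lemma G_gen (i : ι) : G p ρ v (v i) ≤ ρ i := by
  classical
  refine (h.G_le (a := Pi.single i 1) (by simp [Pi.single_apply])).trans_eq ?_
  rw [cost, sum_eq_single i] <;> simp +contextual [h.p0.ne']

lemma pow (μ : Y) : (G p ρ v μ ^ p⁻¹) ^ p = G p ρ v μ :=
  Real.rpow_inv_rpow (h.G_nonneg μ) h.p0.ne'

theorem banach [CompleteSpace Y] : IsPBanach ℝ p fun μ => G p ρ v μ ^ p⁻¹ := by
  have hp := h.p0
  refine ⟨fun μ => Real.rpow_nonneg (h.G_nonneg μ) _, fun μ hμ => Real.rpow_pos_of_pos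
    (lt_of_lt_of_le (Real.rpow_pos_of_pos (norm_pos_iff.2 hμ) _) (h.norm_le_G μ)) _,
    fun c μ => ?_, fun μ μ' => ?_, fun u hu => ?_⟩
  · rw [h.G_smul, Real.mul_rpow (by positivity) (h.G_nonneg μ),
      Real.rpow_rpow_inv (abs_nonneg _) hp.ne', Real.norm_eq_abs]
  · simp only [h.pow]
    exact h.G_add μ μ'
  · simp only [h.pow] at hu ⊢
    have hc : CauchySeq u := by
      refine Metric.cauchySeq_iff.2 fun ε hε => ?_
      obtain ⟨K, hK⟩ := hu (ε ^ p) (Real.rpow_pos_of_pos hε _)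
      refine ⟨K, fun i hi j hj => ?_⟩
      rw [dist_eq_norm, ← Real.rpow_lt_rpow_iff (norm_nonneg _) hε.le hp]
      exact (h.norm_le_G _).trans_lt (hK i hi j hj)
    obtain ⟨z, hz⟩ := cauchySeq_tendsto_of_complete hc
    refine ⟨z, ?_⟩
    have hco : Continuous fun μ => cost p ρ (S μ) := by
      have := Real.continuous_rpow_const hp.le
      have := h.cont
      unfold cost
      fun_prop
    have := (hco.tendsto 0).comp (tendsto_sub_nhds_zero_iff.2 hz)
    have e : cost p ρ (S 0) = 0 := by simp [h.zero, cost, hp.ne']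
    rw [e] at this
    exact squeeze_zero (fun _ => h.G_nonneg _) (fun _ => h.G_le (h.rep _)) this

end Gen

end Pool.Agent.H88.Am
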