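import Mathlib
import Pool.Agent.H88.Am1

/-! A lower bound for flows between leaves grouped in clusters. -/

namespace Pool.Agent.H88.Am

open Finset

variable {p : ℝ}

lemma scalar (hp : 0 < p) (hp1 : p ≤ 1) {E D n u v : ℝ} (hE : 0 < E) (hn : 0 < n)
    (hD : E * n ^ (p - 1) * 4 ^ (p⁻¹ - 1) ≤ D - E) (hu : 0 ≤ u) (hv : 0 ≤ v) (h : 1 ≤ u + v) :
    E + 3 / 4 * E * n ^ (p - 1) * min v n ≤ E * u ^ p + D * v ^ p := by
  have h1 : 1 ≤ u ^ p + v ^ p :=
    (Real.one_le_rpow h hp.le).trans (Real.rpow_add_le_add_rpow hu hv hp.le hp1)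
  have hN : 0 < n ^ (p - 1) := by positivity
  have hT : (0 : ℝ) < 4 ^ (p⁻¹ - 1) := by positivity
  have hu' : 0 ≤ u ^ p := by positivity
  have hv' : 0 ≤ v ^ p := by positivity
  have hDE : 0 ≤ D - E := le_trans (by positivity) hD
  have hm : 0 ≤ min v n := le_min hv hn.le
  by_cases h4 : 4 ≤ v ^ p
  · have h2 : n ^ (p - 1) * min v n ≤ v ^ p := by
      rcases hm.eq_or_lt with h0 | h0
      · rw [← h0, mul_zero]; exact hv'
      refine le_trans ?_ (Real.rpow_le_rpow hm (min_le_left _ _) hp.le)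
      have := Real.rpow_le_rpow_of_nonpos h0 (min_le_right v n) (sub_nonpos.2 hp1)
      rw [Real.rpow_sub_one h0.ne', le_div_iff₀ h0] at this
      exact this
    nlinarith [mul_le_mul_of_nonneg_left h2 hE.le, mul_nonneg hDE hv', mul_nonneg hE.le hu',
      mul_le_mul_of_nonneg_left h4 hE.le]
  · have h2 : v ≤ 4 ^ (p⁻¹ - 1) * v ^ p := by
      rcases hv.eq_or_lt with h0 | h0
      · rw [← h0]; positivity
      have h3 : 0 ≤ p⁻¹ - 1 := sub_nonneg.2 ((one_le_inv₀ hp).2 hp1)
      have := Real.rpow_le_rpow hv' (not_le.1 h4).le h3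
      rw [Real.rpow_sub_one (by positivity), Real.rpow_rpow_inv hv hp.ne',
        div_le_iff₀ (by positivity)] at this
      exact this
    have h3 : E * n ^ (p - 1) * min v n ≤ (D - E) * v ^ p :=
      calc E * n ^ (p - 1) * min v n ≤ E * n ^ (p - 1) * (4 ^ (p⁻¹ - 1) * v ^ p) :=
            mul_le_mul_of_nonneg_left ((min_le_left _ _).trans h2) (by positivity)
        _ ≤ _ := by rw [← mul_assoc]; exact mul_le_mul_of_nonneg_right hD hv'
    nlinarith [mul_le_mul_of_nonneg_left h1 hE.le, mul_nonneg (mul_pos hE hN).le hm]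

lemma sum_min {J : Type} [Fintype J] {v : J → ℝ} {n : ℝ} (hn : 0 ≤ n) (hv : ∀ j, 0 ≤ v j)
    (h : n ≤ ∑ j, v j) : n ≤ ∑ j, min (v j) n := by
  by_cases h1 : ∀ j, v j ≤ n
  · simpa only [min_eq_left (h1 _)] using h
  · push Not at h1
    obtain ⟨j, hj⟩ := h1
    exact le_trans (min_eq_right hj.le).ge
      (single_le_sum (f := fun j => min (v j) n) (fun j _ => le_min (hv j) hn) (mem_univ j))

variable {K J : Type} [Fintype K] [Fintype J] [DecidableEq K] [DecidableEq J]

def ee (x : Option K × J) (l : K × J) : ℝ := if x = (some l.1, l.2) then 1 else 0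

def vv (z : (Option K × J) × (Option K × J)) : K × J → ℝ := ee z.1 - ee z.2

def rr (E D : ℝ) (z : (Option K × J) × (Option K × J)) : ℝ := if z.1.1 = z.2.1 then E else D

def ss (j : J) (μ : K × J → ℝ) (z : (Option K × J) × (Option K × J)) : ℝ :=
  if z.2 = (none, j) then z.1.1.elim 0 fun i => μ (i, z.1.2) else 0

lemma gen (hp : 0 < p) (hp1 : p ≤ 1) {E D : ℝ} (hE : 1 ≤ E) (hD : 1 ≤ D) (j : J) :
    Gen p (rr (K := K) E D) vv (ss j) := by
  refine ⟨hp, hp1, fun z => ?_, continuous_pi fun z => ?_, ?_, fun μ => ?_⟩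
  · have : ‖vv z‖ ≤ 1 := (pi_norm_le_iff_of_nonneg zero_le_one).2 fun l => by
      simp only [vv, ee, Pi.sub_apply]
      split_ifs <;> simp
    refine (Real.rpow_le_one (norm_nonneg _) this hp.le).trans ?_
    unfold rr
    split_ifs <;> assumption
  · obtain ⟨⟨_ | i, j'⟩, y⟩ := z <;> simp only [ss, Option.elim] <;> split_ifs <;> fun_prop
  · funext ⟨⟨i, j'⟩, y⟩
    cases i <;> simp [ss]
  · funext l
    simp only [Fintype.sum_prod_type (α₂ := Option K × J), ss, vv, ite_smul, zero_smul,
      sum_ite_eq', mem_univ, if_true]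
    simp [ee]

theorem flow (hp : 0 < p) (hp1 : p ≤ 1) {E D : ℝ} (hE : 0 < E) [Nonempty J]
    (hD : E * (Fintype.card J : ℝ) ^ (p - 1) * 4 ^ (p⁻¹ - 1) ≤ D - E)
    {a : (Option K × J) × (Option K × J) → ℝ} (ha : ∑ z, a z • vv z = 1) :
    E * (Fintype.card K * Fintype.card J + 3 / 4 * Fintype.card K * (Fintype.card J : ℝ) ^ p) ≤
      cost p (rr E D) a := by
  set n : ℝ := (Fintype.card J : ℝ) with hn
  have n0 : 0 < n := by rw [hn]; exact_mod_cast Fintype.card_pos
  have D0 : 0 ≤ D := by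
    have : 0 ≤ D - E := le_trans (by positivity) hD
    linarith
  have r0 : ∀ z : (Option K × J) × (Option K × J), 0 ≤ rr E D z := fun z => by
    unfold rr; split_ifs <;> positivity
  let w : Option K × J → Option K × J → ℝ := fun x y => max (a (x, y)) 0 + max (-a (y, x)) 0
  have w0 : ∀ x y, 0 ≤ w x y := fun x y => by positivity
  have hdiv : ∀ i j, ∑ y, w (some i, j) y = 1 + ∑ y, w y (some i, j) := by
    intro i j
    have h1 := congrFun ha (i, j)
    simp only [Finset.sum_apply, Pi.smul_apply, vv, ee, Pi.sub_apply, smul_eq_mul, mul_sub,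
      sum_sub_distrib, Fintype.sum_prod_type (α₂ := Option K × J), mul_ite, mul_one, mul_zero,
      sum_ite_eq', mem_univ, if_true, Pi.one_apply] at h1
    rw [sum_comm] at h1
    simp only [sum_ite_eq', mem_univ, if_true] at h1
    rw [← h1, ← sum_sub_distrib, ← sum_add_distrib]
    refine sum_congr rfl fun y _ => ?_
    simp only [w]
    linarith [max_zero_sub_max_neg_zero_eq_self (a ((some i, j), y)),
      max_zero_sub_max_neg_zero_eq_self (a (y, (some i, j)))]
  have hc : ∑ x, ∑ y, w x y ^ p * rr E D (x, y) ≤ cost p (rr E D) a := by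
    have e : ∀ t : ℝ, |t| ^ p = max t 0 ^ p + max (-t) 0 ^ p := fun t => by
      rcases le_total t 0 with h | h
      · simp [h, abs_of_nonpos h, hp.ne']
      · simp [h, abs_of_nonneg h, hp.ne']
    simp only [cost, e, add_mul, sum_add_distrib, Fintype.sum_prod_type (α₂ := Option K × J)]
    rw [sum_comm (f := fun x y => max (-a (x, y)) 0 ^ p * rr E D (x, y)), ← sum_add_distrib]
    refine sum_le_sum fun x _ => ?_
    rw [← sum_add_distrib]
    refine sum_le_sum fun y _ => ?_
    have : rr E D (y, x) = rr E D (x, y) := by simp only [rr, eq_comm]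
    rw [this, ← add_mul]
    exact mul_le_mul_of_nonneg_right (Real.rpow_add_le_add_rpow (by positivity) (by positivity)
      hp.le hp1) (r0 _)
  refine le_trans ?_ hc
  rw [Fintype.sum_prod_type, Fintype.sum_option]
  refine le_add_of_nonneg_of_le (sum_nonneg fun j _ => sum_nonneg fun y _ =>
    mul_nonneg (Real.rpow_nonneg (w0 _ _) _) (r0 _)) ?_
  have key : ∀ i : K, E * (n + 3 / 4 * n ^ p) ≤
      ∑ j, ∑ y, w (some i, j) y ^ p * rr E D ((some i, j), y) := by
    intro i
    let u : J → ℝ := fun j => ∑ y with y.1 = some i, w (some i, j) y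
    let v : J → ℝ := fun j => ∑ y with ¬y.1 = some i, w (some i, j) y
    have u0 : ∀ j, 0 ≤ u j := fun j => sum_nonneg fun _ _ => w0 _ _
    have v0 : ∀ j, 0 ≤ v j := fun j => sum_nonneg fun _ _ => w0 _ _
    have huv : ∀ j, u j + v j = 1 + ∑ y, w y (some i, j) := fun j => by
      rw [← hdiv, sum_filter_add_sum_filter_not]
    have hf : ∀ g : Option K × J → ℝ, ∑ y with y.1 = some i, g y = ∑ j, g (some i, j) := by
      intro g
      simp [sum_filter, Fintype.sum_prod_type, sum_comm (γ := Option K)]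
    have hv : n ≤ ∑ j, v j := by
      have h1 : ∑ j, (u j + v j) = ∑ j, (1 + ∑ y, w y (some i, j)) :=
        sum_congr rfl fun j _ => huv j
      have h2 : ∑ j, u j ≤ ∑ j, ∑ y, w y (some i, j) := by
        simp only [u, hf]
        rw [sum_comm]
        refine sum_le_sum fun j _ => ?_
        rw [← hf fun y => w y (some i, j)]
        exact sum_le_sum_of_subset_of_nonneg (filter_subset _ _) fun _ _ _ => w0 _ _
      simp only [sum_add_distrib, sum_const, card_univ, nsmul_eq_mul, mul_one] at h1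
      linarith
    have h3 : ∀ j, E + 3 / 4 * E * n ^ (p - 1) * min (v j) n ≤
        ∑ y, w (some i, j) y ^ p * rr E D ((some i, j), y) := by
      intro j
      refine (scalar hp hp1 hE n0 hD (u0 j) (v0 j) ?_).trans ?_
      · rw [huv]
        exact le_add_of_nonneg_right (sum_nonneg fun _ _ => w0 _ _)
      rw [← sum_filter_add_sum_filter_not univ (fun y => y.1 = some i)]
      refine add_le_add ?_ ?_
      · refine (mul_le_mul_of_nonneg_left (rsum_le hp hp1 _ (w0 _)) hE.le).trans_eq ?_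
        rw [mul_sum]
        refine sum_congr rfl fun y hy => ?_
        rw [rr, if_pos (mem_filter.1 hy).2.symm, mul_comm]
      · refine (mul_le_mul_of_nonneg_left (rsum_le hp hp1 _ (w0 _)) D0).trans_eq ?_
        rw [mul_sum]
        refine sum_congr rfl fun y hy => ?_
        rw [rr, if_neg (Ne.symm (mem_filter.1 hy).2), mul_comm]
    refine le_trans ?_ (sum_le_sum fun j _ => h3 j)
    rw [sum_add_distrib, ← mul_sum, sum_const, card_univ, nsmul_eq_mul, ← hn]
    have h4 := mul_le_mul_of_nonneg_left (sum_min n0.le v0 hv)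
      (show 0 ≤ 3 / 4 * E * n ^ (p - 1) by positivity)
    have h5 : n ^ (p - 1) * n = n ^ p := by
      rw [Real.rpow_sub_one n0.ne', div_mul_cancel₀ _ n0.ne']
    have h6 : 3 / 4 * E * n ^ (p - 1) * n = 3 / 4 * E * n ^ p := by rw [← h5]; ring
    linarith
  refine le_trans (le_of_eq ?_) (sum_le_sum fun i _ => key i)
  rw [sum_const, card_univ, nsmul_eq_mul]
  ring

end Pool.Agent.H88.Am
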