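import Mathlib
import Pool.Agent.H88.PexDefs

namespace Pool.Agent.H88.Am

open Pool.Agent.H88.Pex
open scoped ENNReal

/-- `d ≥ 0` and `d ^ q` is a metric. -/
structure IsQMetric (q : ℝ) {M : Type} (d : M → M → ℝ) : Prop where
  nonneg : ∀ x y, 0 ≤ d x y
  eq_zero : ∀ x y, d x y = 0 ↔ x = y
  symm : ∀ x y, d x y = d y x
  tri : ∀ x y z, d x z ^ q ≤ d x y ^ q + d y z ^ q

/-- The norm of `∑_{x ∈ N} a x δ(x)` in `F_p(S)`, for `N ⊆ S ⊆ M` and base point `o`. -/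
noncomputable def fn (p : ℝ) {M : Type} (d : M → M → ℝ) (o : M) (S : Set M) (N : Finset M)
    (a : M → ℝ) : ℝ≥0∞ :=
  ⨆ (Y : Type) (_ : AddCommGroup Y) (_ : Module ℝ Y) (ν : Y → ℝ) (_ : IsPBanach ℝ p ν)
    (f : M → Y) (_ : f o = 0) (_ : ∀ x ∈ S, ∀ y ∈ S, ν (f x - f y) ≤ d x y),
    ENNReal.ofReal (ν (∑ x ∈ N, a x • f x))

/-- `am_p(N, M)`. -/
noncomputable def am (p : ℝ) {M : Type} (d : M → M → ℝ) (o : M) (N : Finset M) : ℝ≥0∞ :=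
  ⨆ (a : M → ℝ) (_ : ∃ x ∈ N, x ≠ o ∧ a x ≠ 0), fn p d o N N a / fn p d o Set.univ N a

/-- `A_p^q(n)`. -/
noncomputable def A (p q : ℝ) (n : ℕ) : ℝ≥0∞ :=
  ⨆ (M : Type) (_ : Finite M) (d : M → M → ℝ) (_ : IsQMetric q d) (o : M) (N : Finset M)
    (_ : o ∈ N) (_ : N.card = n + 1), am p d o N

end Pool.Agent.H88.Am
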