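import Mathlib
import Pool.Agent.H88.Am2
import Pool.Agent.H88.AmDefs

/-! The two-level tree. -/

namespace Pool.Agent.H88.Am

open Finset Pool.Agent.H88.Pex Filter Topology
open scoped ENNReal

variable {p q : ℝ}

def star {α : Type} [DecidableEq α] (W : α → ℝ) (x y : α) : ℝ := if x = y then 0 else W x + W y

lemma star_nonneg {α : Type} [DecidableEq α] {W : α → ℝ} (h : ∀ x, 0 ≤ W x) (x y : α) :
    0 ≤ star W x y := by
  unfold star
  split_ifs
  exacts [le_rfl, add_nonneg (h x) (h y)]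

lemma star_tri {α : Type} [DecidableEq α] {W : α → ℝ} (h : ∀ x, 0 ≤ W x) (x y z : α) :
    star W x z ≤ star W x y + star W y z := by
  have := h x
  have := h y
  have := h z
  unfold star
  split_ifs <;> subst_vars <;> first | linarith | contradiction

lemma star_symm {α : Type} [DecidableEq α] (W : α → ℝ) (x y : α) : star W x y = star W y x := by
  simp only [star, eq_comm, add_comm]

variable {K J : Type} [Fintype K] [Fintype J] [DecidableEq K] [DecidableEq J]

def sg (b : ℝ) (x y : Option K × Option J) : ℝ :=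
  star (fun x => x.2.elim 0 fun _ => 1) x y + star (fun i => i.elim 0 fun _ => b) x.1 y.1

omit [Fintype K] [Fintype J] [DecidableEq K] [DecidableEq J] in
lemma w0 (x : Option K × Option J) : (0 : ℝ) ≤ x.2.elim 0 fun _ => 1 := by
  obtain ⟨_, _ | _⟩ := x <;> simp

omit [Fintype K] [DecidableEq K] in
lemma z0 {b : ℝ} (hb : 0 < b) (i : Option K) : (0 : ℝ) ≤ i.elim 0 fun _ => b := by
  cases i <;> simp [hb.le]

omit [Fintype K] [Fintype J] in
lemma sg_nonneg {b : ℝ} (hb : 0 < b) (x y : Option K × Option J) : 0 ≤ sg b x y :=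
  add_nonneg (star_nonneg w0 _ _) (star_nonneg (z0 hb) _ _)

omit [Fintype K] [Fintype J] in
lemma qmetric (hq : 0 < q) {b : ℝ} (hb : 0 < b) :
    IsQMetric q fun x y : Option K × Option J => sg b x y ^ q⁻¹ := by
  refine ⟨fun x y => Real.rpow_nonneg (sg_nonneg hb x y) _, fun x y => ?_, fun x y => ?_,
    fun x y z => ?_⟩
  · rw [Real.rpow_eq_zero (sg_nonneg hb x y) (inv_ne_zero hq.ne')]
    refine ⟨fun h => ?_, fun h => by simp [h, sg, star]⟩
    by_contra hxy
    obtain ⟨_ | i, _ | j⟩ := x <;> obtain ⟨_ | i', _ | j'⟩ := y <;>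
      simp only [sg, star, if_neg hxy, Option.elim] at h <;> (try split_ifs at h) <;>
      first | linarith | simp_all
  · simp only [sg]
    rw [star_symm, star_symm _ x.1]
  · simp only [Real.rpow_inv_rpow (sg_nonneg hb _ _) hq.ne']
    have := star_tri w0 x y z
    have := star_tri (z0 hb) x.1 y.1 z.1
    simp only [sg]
    linarith

def emb : Option K × J ↪ Option K × Option J :=
  ⟨fun x => (x.1, some x.2), fun x y h => by
    simp only [Prod.mk.injEq, Option.some.injEq] at h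
    exact Prod.ext h.1 h.2⟩

def NN : Finset (Option K × Option J) := univ.map emb

def aa (x : Option K × Option J) : ℝ := x.1.elim 0 fun _ => 1

omit [DecidableEq K] [DecidableEq J] in
lemma sum_aa {Y : Type} [AddCommGroup Y] [Module ℝ Y] (f : Option K × Option J → Y) :
    ∑ x ∈ NN, aa x • f x = ∑ i : K, ∑ j : J, f (some i, some j) := by
  simp [Fintype.sum_prod_type, aa, emb, NN]

lemma upper (hp : 0 < p) {b : ℝ} (hb : 0 < b) (j : J) :
    fn p (fun x y => sg b x y ^ q⁻¹) (none, some j) Set.univ NN (aa (K := K)) ≤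
      ENNReal.ofReal ((Fintype.card K * (Fintype.card J + (Fintype.card J : ℝ) ^ p *
        b ^ (q⁻¹ * p)) + (Fintype.card K * Fintype.card J : ℝ) ^ p) ^ p⁻¹) := by
  simp only [fn, iSup_le_iff]
  intro Y _ _ ν hν f f0 hf
  refine ENNReal.ofReal_le_ofReal ?_
  rw [Real.le_rpow_inv_iff_of_pos (hν.nonneg _) (by positivity) hp, sum_aa]
  have h1 : ∀ x y, ν (f x - f y) ^ p ≤ sg b x y ^ (q⁻¹ * p) := fun x y => by
    rw [Real.rpow_mul (sg_nonneg hb _ _)]
    exact Real.rpow_le_rpow (hν.nonneg _) (hf x trivial y trivial) hp.le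
  have h2 : ∀ (c : ℝ) x y, 0 ≤ c → ν (c • (f x - f y)) ^ p ≤ c ^ p * sg b x y ^ (q⁻¹ * p) := by
    intro c x y hc
    rw [hν.smul, Real.mul_rpow (norm_nonneg _) (hν.nonneg _), Real.norm_of_nonneg hc]
    exact mul_le_mul_of_nonneg_left (h1 x y) (by positivity)
  have e : ∑ i : K, ∑ j : J, f (some i, some j) = ∑ i : K, (∑ j : J,
      (f (some i, some j) - f (some i, none)) + (Fintype.card J : ℝ) •
        (f (some i, none) - f (none, none))) + (Fintype.card K * Fintype.card J : ℝ) •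
        (f (none, none) - f (none, some j)) := by
    simp only [f0, sum_sub_distrib, sum_add_distrib, sum_const, card_univ, smul_sub,
      ← Nat.cast_smul_eq_nsmul ℝ, mul_smul, smul_zero]
    abel
  rw [e]
  refine (hν.tri _ _).trans (add_le_add ((psum_le hν hp _ _).trans ?_)
    ((h2 _ _ _ (by positivity)).trans_eq (by simp [sg, star])))
  rw [← nsmul_eq_mul, ← card_univ (α := K), ← sum_const]
  refine sum_le_sum fun i _ => (hν.tri _ _).trans (add_le_add ((psum_le hν hp _ _).trans ?_)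
    ((h2 _ _ _ (by positivity)).trans_eq (by simp [sg, star])))
  refine (sum_le_sum fun j _ => h1 _ _).trans_eq ?_
  simp [sg, star]

lemma lower' (hp : 0 < p) (hp1 : p ≤ 1) (hq : 0 < q) {b : ℝ} (hb : 0 < b) (j : J)
    (hD : 2 ^ (q⁻¹ * p) * (Fintype.card J : ℝ) ^ (p - 1) * 4 ^ (p⁻¹ - 1) ≤
      (2 + b) ^ (q⁻¹ * p) - 2 ^ (q⁻¹ * p)) :
    ENNReal.ofReal ((2 ^ (q⁻¹ * p) * (Fintype.card K * Fintype.card J +
      3 / 4 * Fintype.card K * (Fintype.card J : ℝ) ^ p)) ^ p⁻¹) ≤
    fn (M := Option K × Option J) p (fun x y => sg b x y ^ q⁻¹) (none, some j)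
      (NN (K := K) (J := J)) NN aa := by
  have hs : 0 < q⁻¹ * p := by positivity
  have : Nonempty J := ⟨j⟩
  have hg := gen (K := K) hp hp1 (Real.one_le_rpow one_le_two hs.le)
    (Real.one_le_rpow (show 1 ≤ 2 + b by linarith) hs.le) j
  let f : Option K × Option J → K × J → ℝ := fun x => x.2.elim 0 fun j => ee (x.1, j)
  have f0 : f (none, some j) = 0 := by
    funext l
    simp [f, ee]
  have hf : ∀ x ∈ ((NN (K := K) (J := J)) : Set (Option K × Option J)),
      ∀ y ∈ ((NN (K := K) (J := J)) : Set (Option K × Option J)),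
      G p (rr (2 ^ (q⁻¹ * p)) ((2 + b) ^ (q⁻¹ * p))) vv (f x - f y) ^ p⁻¹ ≤ sg b x y ^ q⁻¹ := by
    intro x hx y hy
    obtain ⟨x, -, rfl⟩ := mem_map.1 hx
    obtain ⟨y, -, rfl⟩ := mem_map.1 hy
    rw [Real.rpow_inv_le_iff_of_pos (hg.G_nonneg _) (Real.rpow_nonneg (sg_nonneg hb _ _) _) hp,
      ← Real.rpow_mul (sg_nonneg hb _ _)]
    by_cases hxy : x = y
    · rw [hxy, sub_self, hg.G_zero]
      exact Real.rpow_nonneg (sg_nonneg hb _ _) _
    refine (hg.G_gen (x, y)).trans ?_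
    have h1 : sg b (emb x) (emb y) = 2 + star (fun i => i.elim 0 fun _ => b) x.1 y.1 := by
      rw [sg, star, if_neg (emb.injective.ne hxy)]
      simp only [emb, Function.Embedding.coeFn_mk, Option.elim]
      ring
    rw [h1, rr, star]
    split_ifs with h
    · simp
    · refine Real.rpow_le_rpow (by positivity) ?_ hs.le
      obtain ⟨_ | i, _⟩ := x <;> obtain ⟨_ | i', _⟩ := y <;> simp_all [hb.le]
  rw [fn]
  refine le_iSup_of_le (K × J → ℝ) (le_iSup_of_le inferInstance (le_iSup_of_le inferInstance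
    (le_iSup_of_le _ (le_iSup_of_le hg.banach (le_iSup_of_le f (le_iSup_of_le f0 ?_))))))
  refine le_trans (ENNReal.ofReal_le_ofReal ?_) (le_iSup (fun _ => ENNReal.ofReal
    (G p (rr (2 ^ (q⁻¹ * p)) ((2 + b) ^ (q⁻¹ * p))) vv
      (∑ x ∈ NN, aa x • f x) ^ p⁻¹)) hf)
  refine Real.rpow_le_rpow (by positivity) (hg.le_G fun a ha => flow hp hp1 (by positivity) hD ?_)
    (by positivity)
  rw [ha, sum_aa]
  funext l
  simp [f, ee, Finset.sum_apply, Prod.ext_iff, ite_and]

lemma exists_nat (hp1 : p < 1) {ε : ℝ} (hε : 0 < ε) :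
    ∃ n : ℕ, ((n + 1 : ℕ) : ℝ) ^ (p - 1) < ε := by
  have := ((tendsto_rpow_neg_atTop (sub_pos.2 hp1)).comp tendsto_natCast_atTop_atTop).comp
    (tendsto_add_atTop_nat 1)
  obtain ⟨n, hn⟩ := (this.eventually (gt_mem_nhds hε)).exists
  exact ⟨n, by simpa using hn⟩

theorem main (hp : 0 < p) (hp1 : p < 1) (hq : 0 < q) :
    ENNReal.ofReal (2 ^ (1 / q)) < ⨆ n, A p q n := by
  have hs : 0 < q⁻¹ * p := by positivity
  set b : ℝ := (1 / 4) ^ (q⁻¹ * p)⁻¹ with hb
  have b0 : 0 < b := by positivity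
  have b1 : b ^ (q⁻¹ * p) = 1 / 4 := Real.rpow_inv_rpow (by norm_num) hs.ne'
  have hE : (0 : ℝ) < 2 ^ (q⁻¹ * p) := by positivity
  have hDE : 0 < (2 + b) ^ (q⁻¹ * p) - 2 ^ (q⁻¹ * p) :=
    sub_pos.2 (Real.rpow_lt_rpow zero_le_two (by linarith) hs)
  obtain ⟨n, hn⟩ := exists_nat hp1 (div_pos hDE (show 0 < 2 ^ (q⁻¹ * p) * 4 ^ (p⁻¹ - 1) by
    positivity))
  obtain ⟨k, hk⟩ := exists_nat hp1 one_half_pos
  have h1 := upper (K := Fin (k + 1)) (q := q) hp b0 (0 : Fin (n + 1))
  have h2 := lower' (K := Fin (k + 1)) hp hp1.le hq b0 (0 : Fin (n + 1)) (by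
    rw [lt_div_iff₀ (by positivity)] at hn
    rw [Fintype.card_fin]
    linarith)
  have h3 := ENNReal.div_le_div h2 h1
  simp only [Fintype.card_fin, b1] at h3
  set N : ℝ := ((n + 1 : ℕ) : ℝ)
  set L : ℝ := ((k + 1 : ℕ) : ℝ)
  have N0 : 0 < N := by positivity
  have L0 : 0 < L := by positivity
  have hA : am p (fun x y => sg b x y ^ q⁻¹) ((none, some 0) : Option (Fin (k + 1)) ×
      Option (Fin (n + 1))) NN ≤ ⨆ n, A p q n := by
    obtain ⟨m, hm⟩ := Nat.exists_eq_add_one_of_ne_zero (n := (NN (K := Fin (k + 1))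
      (J := Fin (n + 1))).card) (by simp [NN])
    refine le_iSup_of_le m ?_
    rw [A]
    refine le_iSup_of_le (Option (Fin (k + 1)) × Option (Fin (n + 1)))
      (le_iSup_of_le inferInstance (le_iSup_of_le _ (le_iSup_of_le
      (qmetric hq b0) (le_iSup_of_le (none, some 0) (le_iSup_of_le NN
      (le_iSup_of_le (mem_map.2 ⟨(none, 0), mem_univ _, rfl⟩) ?_))))))
    exact le_iSup_of_le hm le_rfl
  refine lt_of_lt_of_le ?_ ((h3.trans ?_).trans hA)
  · rw [← ENNReal.ofReal_div_of_pos (by positivity),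
      ENNReal.ofReal_lt_ofReal_iff (by positivity), Real.mul_rpow hE.le (by positivity),
      ← Real.rpow_mul zero_le_two, mul_inv_cancel_right₀ hp.ne', one_div, mul_div_assoc]
    refine lt_mul_of_one_lt_right (by positivity) ((one_lt_div (by positivity)).2
      (Real.rpow_lt_rpow (by positivity) ?_ (by positivity)))
    rw [Real.rpow_sub_one L0.ne', div_lt_iff₀ L0] at hk
    rw [Real.mul_rpow L0.le N0.le]
    have := mul_lt_mul_of_pos_right hk (Real.rpow_pos_of_pos N0 p)
    linarith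
  · rw [am]
    refine le_iSup_of_le aa (le_iSup (fun _ => fn (M := Option (Fin (k + 1)) ×
      Option (Fin (n + 1))) p (fun x y => sg b x y ^ q⁻¹) (none, some 0) (NN (K := Fin (k + 1)) (J := Fin (n + 1))) NN aa / fn p (fun x y => sg b x y ^ q⁻¹)
      (none, some 0) Set.univ NN aa) ?_)
    exact ⟨(some 0, some 0), mem_map.2 ⟨(some 0, 0), mem_univ _, rfl⟩, by simp, by simp [aa]⟩

end Pool.Agent.H88.Am
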