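import Mathlib

set_option autoImplicit false

namespace Pool.Agent.H88.Annular

/-- The open unit disc, as a type. -/
abbrev Disc : Type := Metric.ball (0 : ℂ) 1

/-- A continuous function on the disc is holomorphic. -/
def IsHol (f : C(Disc, ℂ)) : Prop :=
  ∃ F : ℂ → ℂ, DifferentiableOn ℂ F (Metric.ball 0 1) ∧ ∀ z : Disc, F z = f z

/-- Strongly annular: `limsup_{r → 1⁻} min_{|z| = r} |f z| = ∞`. -/
def StronglyAnnular (f : C(Disc, ℂ)) : Prop :=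
  ∀ M r₀ : ℝ, r₀ < 1 → ∃ r : ℝ, r₀ < r ∧ 0 < r ∧ r < 1 ∧ ∀ z : Disc, ‖(z : ℂ)‖ = r → M ≤ ‖f z‖

end Pool.Agent.H88.Annular
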