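import Pool.Agent.H88.PS
import Pool.Agent.H88.AnnularDefs

set_option autoImplicit false

namespace Pool.Agent.H88.Annular

open Filter Complex Topology Metric Pool.Agent.H88.PS

lemma geom30 (k : ℕ) : ∑ j ∈ Finset.range k, (30 : ℝ) ^ j ≤ 30 ^ k / 29 := by
  induction k with
  | zero => simp
  | succ k ih => rw [Finset.sum_range_succ, pow_succ]; linarith

lemma gap_le {p : ℕ → ℕ} (hp : ∀ k, 10 * p k ≤ p (k + 1)) (k l : ℕ) :
    10 * (l + 1) * p k ≤ p (l + (k + 1)) := by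
  induction l with
  | zero => simpa using hp k
  | succ l ih =>
    have := hp (l + (k + 1))
    rw [show l + 1 + (k + 1) = l + (k + 1) + 1 by ring]
    nlinarith

lemma gap_big {p : ℕ → ℕ} (hp0 : ∀ k, 0 < p k) (hp : ∀ k, 10 * p k ≤ p (k + 1)) {b : ℕ → ℂ}
    {f : ℂ → ℂ} (hf : ∀ z : ℂ, ‖z‖ < 1 → HasSum (fun k => b k * z ^ p k) (f z))
    (hb : ∀ M : ℝ, ∃ k, M * 30 ^ k ≤ ‖b k‖) (M : ℝ) (hM : 0 < M) :
    ∃ r : ℝ, 0 < r ∧ r < 1 ∧ ∀ z : ℂ, ‖z‖ = r → M ≤ ‖f z‖ := by
  obtain ⟨i, hi⟩ := hb (8 * M)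
  have hpi : (1 : ℝ) ≤ p i := by exact_mod_cast hp0 i
  set ρ : ℝ := 1 - 1 / (2 * p i) with hρ
  have hinv : 1 / (2 * (p i : ℝ)) ≤ 1 / 2 := by gcongr; linarith
  have hinv0 : 0 < 1 / (2 * (p i : ℝ)) := by positivity
  have hρ0 : 0 < ρ := by linarith
  have hρ1 : ρ < 1 := by linarith
  have hρp : 1 / 2 ≤ ρ ^ p i := by
    have := one_add_mul_le_pow (a := -(1 / (2 * (p i : ℝ)))) (by linarith) (p i)
    rw [hρ, sub_eq_add_neg]
    refine le_trans (le_of_eq ?_) this
    field_simp; norm_num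
  set t : ℕ → ℝ := fun k => ‖b k‖ * ρ ^ p k / 30 ^ k with ht
  have hti : 4 * M ≤ t i := by
    simp only [ht]
    rw [le_div_iff₀ (by positivity)]
    have : 0 < M * 30 ^ i := by positivity
    nlinarith
  have hρn : ‖(ρ : ℂ)‖ = ρ := by rw [norm_real, Real.norm_eq_abs, abs_of_pos hρ0]
  have htz : Tendsto t atTop (𝓝 0) := by
    have h1 := (hf ρ (by rwa [hρn])).summable.tendsto_atTop_zero.norm
    simp only [norm_mul, norm_pow, hρn, norm_zero] at h1
    refine squeeze_zero (fun k => by simp only [ht]; positivity) (fun k => ?_) h1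
    exact div_le_self (by positivity) (one_le_pow₀ (by norm_num))
  obtain ⟨N, hN⟩ := eventually_atTop.1 (htz.eventually_lt_const (show 0 < t i by linarith))
  obtain ⟨k, -, hk⟩ := Finset.exists_max_image (Finset.range (N + i + 1)) t ⟨i, by simp⟩
  have hmax : ∀ j, t j ≤ t k := by
    intro j
    rcases lt_or_ge j (N + i + 1) with h | h
    · exact hk j (Finset.mem_range.2 h)
    · exact (hN j (by omega)).le.trans (hk i (by simp))
  have hpk : (0 : ℝ) < p k := by exact_mod_cast hp0 k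
  set s : ℝ := Real.exp (-(1 / p k)) with hs
  have hs0 : 0 < s := Real.exp_pos _
  have hs1 : s ≤ 1 := Real.exp_le_one_iff.2 (by simp)
  refine ⟨ρ * s, by positivity, by nlinarith, fun z hz => ?_⟩
  have hz1 : ‖z‖ < 1 := by rw [hz]; nlinarith
  have hterm : ∀ j, ‖b j * z ^ p j‖ = t j * 30 ^ j * Real.exp (-(p j / p k)) := by
    intro j
    rw [norm_mul, norm_pow, hz, mul_pow, hs, ← Real.exp_nat_mul]
    simp only [ht]
    field_simp
  have hT : 0 ≤ t k := by simp only [ht]; positivity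
  have hsum := (hf z hz1).summable.sum_add_tsum_nat_add (k + 1)
  rw [(hf z hz1).tsum_eq, Finset.sum_range_succ] at hsum
  have h1 : ‖∑ j ∈ Finset.range k, b j * z ^ p j‖ ≤ t k * (30 ^ k / 29) := by
    refine (norm_sum_le _ _).trans (le_trans ?_ (mul_le_mul_of_nonneg_left (geom30 k) hT))
    rw [Finset.mul_sum]
    apply Finset.sum_le_sum
    intro j _
    rw [hterm]
    have h2 : Real.exp (-(p j / p k : ℝ)) ≤ 1 := Real.exp_le_one_iff.2 (by
      have : (0 : ℝ) ≤ p j / p k := by positivity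
      linarith)
    have h3 : 0 ≤ t j := by simp only [ht]; positivity
    calc t j * 30 ^ j * Real.exp (-(p j / p k : ℝ)) ≤ t j * 30 ^ j * 1 := by gcongr
      _ ≤ t k * 30 ^ j := by rw [mul_one]; gcongr; exact hmax j
  have h2 : ‖∑' l, b (l + (k + 1)) * z ^ p (l + (k + 1))‖ ≤ t k * 30 ^ k / 32 * (1 - 1 / 32)⁻¹ := by
    apply tsum_of_norm_bounded
      ((hasSum_geometric_of_lt_one (r := 1 / 32) (by norm_num) (by norm_num)).mul_left _)
    intro l
    rw [hterm]
    have h3 : 0 ≤ t (l + (k + 1)) := by simp only [ht]; positivity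
    have h4 : Real.exp (-(p (l + (k + 1)) / p k : ℝ)) ≤ (1 / 1024) ^ (l + 1) := by
      have h5 : (10 : ℝ) * (l + 1) * p k ≤ p (l + (k + 1)) := by exact_mod_cast gap_le hp k l
      have h6 : Real.exp (-10) ≤ 1 / 1024 := by
        rw [Real.exp_neg, ← one_div]
        apply one_div_le_one_div_of_le (by norm_num)
        have h7 : (2 : ℝ) ≤ Real.exp 1 := by linarith [Real.add_one_le_exp 1]
        have h8 : Real.exp 10 = Real.exp 1 ^ 10 := by rw [← Real.exp_nat_mul]; norm_num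
        rw [h8]
        calc (1024 : ℝ) = 2 ^ 10 := by norm_num
          _ ≤ _ := by gcongr
      calc Real.exp (-(p (l + (k + 1)) / p k : ℝ)) ≤ Real.exp (((l + 1 : ℕ) : ℝ) * (-10)) := by
            rw [Real.exp_le_exp, neg_le, le_div_iff₀ hpk]; push_cast; linarith
        _ = Real.exp (-10) ^ (l + 1) := Real.exp_nat_mul _ _
        _ ≤ _ := by gcongr
    calc t (l + (k + 1)) * 30 ^ (l + (k + 1)) * Real.exp (-(p (l + (k + 1)) / p k : ℝ))
        ≤ t k * 30 ^ (l + (k + 1)) * (1 / 1024) ^ (l + 1) := by gcongr; exact hmax _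
      _ = t k * 30 ^ k * (30 / 1024) ^ (l + 1) := by
          rw [show l + (k + 1) = k + (l + 1) by ring, pow_add, div_pow, div_pow]; ring
      _ ≤ t k * 30 ^ k * (1 / 32) ^ (l + 1) := by gcongr ?_ * ?_ ^ _; norm_num
      _ = t k * 30 ^ k / 32 * (1 / 32) ^ l := by ring
  have h3 : t k * 30 ^ k / 3 ≤ ‖b k * z ^ p k‖ := by
    rw [hterm, div_self hpk.ne', Real.exp_neg, div_eq_mul_inv]
    gcongr
    exact (Real.exp_one_lt_d9.trans (by norm_num)).le
  have h4 : ‖b k * z ^ p k‖ ≤ ‖f z‖ + ‖∑ j ∈ Finset.range k, b j * z ^ p j‖ +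
      ‖∑' l, b (l + (k + 1)) * z ^ p (l + (k + 1))‖ := by
    have : b k * z ^ p k = f z - ∑ j ∈ Finset.range k, b j * z ^ p j -
      ∑' l, b (l + (k + 1)) * z ^ p (l + (k + 1)) := by rw [← hsum]; ring
    rw [this]
    exact (norm_sub_le _ _).trans (by gcongr; exact norm_sub_le _ _)
  have h5 : t k ≤ t k * 30 ^ k := le_mul_of_one_le_right hT (one_le_pow₀ (by norm_num))
  have h6 := hmax i
  rw [← mul_div_assoc] at h1
  generalize t k * 30 ^ k = T at *
  norm_num at h2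
  linarith

/-- extension by zero -/
noncomputable def ext (f : C(Disc, ℂ)) : ℂ → ℂ := Function.extend Subtype.val f 0

lemma ext_apply (f : C(Disc, ℂ)) (z : Disc) : ext f z = f z :=
  Subtype.val_injective.extend_apply _ _ _

lemma ext_apply' (f : C(Disc, ℂ)) {z : ℂ} (hz : ‖z‖ < 1) :
    ext f z = f ⟨z, mem_ball_zero_iff.2 hz⟩ := ext_apply f ⟨z, mem_ball_zero_iff.2 hz⟩

lemma isHol_iff (f : C(Disc, ℂ)) : IsHol f ↔ DifferentiableOn ℂ (ext f) (ball 0 1) := by
  constructor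
  · rintro ⟨F, hF, h⟩
    refine hF.congr fun z hz => ?_
    rw [ext_apply f ⟨z, hz⟩, ← h]
  · intro h
    exact ⟨_, h, ext_apply f⟩

lemma ext_add (f g : C(Disc, ℂ)) (z : ℂ) (hz : ‖z‖ < 1) : ext (f + g) z = (ext f + ext g) z := by
  simp [ext_apply' _ hz]

lemma ext_smul (c : ℂ) (f : C(Disc, ℂ)) (z : ℂ) (hz : ‖z‖ < 1) :
    ext (c • f) z = (c • ext f) z := by
  simp [ext_apply' _ hz]

/-- holomorphic functions -/
def Hol : Submodule ℂ C(Disc, ℂ) where
  carrier := {f | DifferentiableOn ℂ (ext f) (ball 0 1)}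
  add_mem' := fun {f g} hf hg =>
    (DifferentiableOn.add hf hg).congr fun z hz => ext_add f g z (mem_ball_zero_iff.1 hz)
  zero_mem' := (differentiableOn_const 0).congr fun z hz => by
    simp [ext_apply' _ (mem_ball_zero_iff.1 hz)]
  smul_mem' := fun c f hf =>
    (DifferentiableOn.const_smul hf c).congr fun z hz => ext_smul c f z (mem_ball_zero_iff.1 hz)

lemma cf_add {f g : C(Disc, ℂ)} (hf : f ∈ Hol) (hg : g ∈ Hol) (n : ℕ) :
    coef (ext (f + g)) n = coef (ext f) n + coef (ext g) n := by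
  rw [coef_congr one_pos (ext_add f g), coef_add one_pos hf hg]

lemma cf_smul (c : ℂ) {f : C(Disc, ℂ)} (hf : f ∈ Hol) (n : ℕ) :
    coef (ext (c • f)) n = c * coef (ext f) n := by
  rw [coef_congr one_pos (ext_smul c f), coef_smul one_pos hf]

lemma cf_zero (n : ℕ) : coef (ext 0) n = 0 := by
  have := cf_smul 0 Hol.zero_mem n
  simpa using this

/-- the gap subspace -/
def Gap (q : ℕ) : Submodule ℂ C(Disc, ℂ) where
  carrier := {f | f ∈ Hol ∧ (∀ m, (∀ k, m ≠ q ^ k) → coef (ext f) m = 0) ∧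
    ∀ j k, j.unpair.1 = k.unpair.1 →
      coef (ext f) (q ^ j) / 60 ^ j = coef (ext f) (q ^ k) / 60 ^ k}
  add_mem' := by
    rintro f g ⟨hf, hf1, hf2⟩ ⟨hg, hg1, hg2⟩
    refine ⟨Hol.add_mem hf hg, fun m hm => ?_, fun j k h => ?_⟩
    · rw [cf_add hf hg, hf1 m hm, hg1 m hm, add_zero]
    · rw [cf_add hf hg, cf_add hf hg, add_div, add_div, hf2 j k h, hg2 j k h]
  zero_mem' := ⟨Hol.zero_mem, fun m _ => cf_zero m, fun j k _ => by simp [cf_zero]⟩
  smul_mem' := by
    rintro c f ⟨hf, hf1, hf2⟩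
    refine ⟨Hol.smul_mem c hf, fun m hm => ?_, fun j k h => ?_⟩
    · rw [cf_smul c hf, hf1 m hm, mul_zero]
    · rw [cf_smul c hf, cf_smul c hf, mul_div_assoc, mul_div_assoc, hf2 j k h]

lemma gap_of_tendsto (q : ℕ) {ι : Type*} {φ : Filter ι} [φ.NeBot] {F : ι → C(Disc, ℂ)}
    {f : C(Disc, ℂ)} (hF : ∀ᶠ i in φ, F i ∈ Gap q)
    (h : TendstoLocallyUniformlyOn (fun i => ext (F i)) (ext f) φ (ball 0 1)) : f ∈ Gap q := by
  have hd : ∀ᶠ i in φ, DifferentiableOn ℂ (ext (F i)) (ball 0 1) := hF.mono fun i hi => hi.1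
  have hc := tendsto_coef one_pos h hd
  refine ⟨h.differentiableOn hd isOpen_ball, fun m hm => ?_, fun j k hjk => ?_⟩
  · exact tendsto_nhds_unique_of_eventuallyEq (hc m) tendsto_const_nhds
      (hF.mono fun i hi => hi.2.1 m hm)
  · exact tendsto_nhds_unique_of_eventuallyEq ((hc _).div_const _) ((hc _).div_const _)
      (hF.mono fun i hi => hi.2.2 j k hjk)

lemma isClosed_gap (q : ℕ) : IsClosed (Gap q : Set C(Disc, ℂ)) := by
  rw [isClosed_iff_clusterPt]
  intro f hf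
  have : (𝓝 f ⊓ 𝓟 (Gap q : Set C(Disc, ℂ))).NeBot := hf
  apply gap_of_tendsto q (φ := 𝓝 f ⊓ 𝓟 (Gap q : Set C(Disc, ℂ))) (F := id)
    (eventually_inf_principal.2 (Eventually.of_forall fun _ h => h))
  have h1 : Tendsto id (𝓝 f ⊓ 𝓟 (Gap q : Set C(Disc, ℂ))) (𝓝 f) := tendsto_id.mono_left inf_le_left
  have : LocallyCompactSpace Disc := isOpen_ball.locallyCompactSpace
  rw [ContinuousMap.tendsto_iff_tendstoLocallyUniformly] at h1
  rw [tendstoLocallyUniformlyOn_iff_tendstoLocallyUniformly_comp_coe]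
  convert h1 using 1
  · ext g z; exact ext_apply g z
  · ext z; exact ext_apply f z

lemma gap_hasSum {q : ℕ} (hq : 10 ≤ q) {f : C(Disc, ℂ)} (hf : f ∈ Gap q) (z : ℂ) (hz : ‖z‖ < 1) :
    HasSum (fun k => coef (ext f) (q ^ k) * z ^ q ^ k) (ext f z) := by
  have h1 := hasSum_coef hf.1 hz
  have hinj : Function.Injective fun k => q ^ k := Nat.pow_right_injective (by omega)
  rw [← hinj.hasSum_iff] at h1
  · exact h1
  · intro m hm
    rw [hf.2.1 m (fun k hk => hm ⟨k, hk.symm⟩), zero_mul]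

lemma gap_annular {q : ℕ} (hq : 10 ≤ q) {f : C(Disc, ℂ)} (hf : f ∈ Gap q) (h0 : f ≠ 0) :
    StronglyAnnular f := by
  obtain ⟨j, hj⟩ : ∃ j, coef (ext f) (q ^ j) ≠ 0 := by
    by_contra hc
    push Not at hc
    apply h0
    ext z
    have h1 := gap_hasSum hq hf z (mem_ball_zero_iff.1 z.2)
    simp only [hc, zero_mul] at h1
    rw [← ext_apply, h1.unique hasSum_zero]; rfl
  have hb : ∀ M : ℝ, ∃ k, M * 30 ^ k ≤ ‖coef (ext f) (q ^ k)‖ := by
    intro M
    have hc : 0 < ‖coef (ext f) (q ^ j) / 60 ^ j‖ := norm_pos_iff.2 (div_ne_zero hj (by simp))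
    obtain ⟨l, hl⟩ := exists_nat_gt (M / ‖coef (ext f) (q ^ j) / 60 ^ j‖)
    refine ⟨Nat.pair j.unpair.1 l, ?_⟩
    rw [hf.2.2 j (Nat.pair j.unpair.1 l) (by simp)] at hc hl
    have h1 := Nat.right_le_pair j.unpair.1 l
    generalize Nat.pair j.unpair.1 l = k at *
    rw [div_lt_iff₀ hc, norm_div, norm_pow, Complex.norm_ofNat, ← mul_div_assoc,
      lt_div_iff₀ (by positivity)] at hl
    have h2 : (l : ℝ) ≤ 2 ^ k := by exact_mod_cast h1.trans (Nat.lt_two_pow_self).le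
    have h3 : (60 : ℝ) ^ k = 2 ^ k * 30 ^ k := by rw [← mul_pow]; norm_num
    rw [h3] at hl
    have h4 : (0 : ℝ) < 2 ^ k := by positivity
    have h5 : 2 ^ k * (M * 30 ^ k) ≤ 2 ^ k * ‖coef (ext f) (q ^ k)‖ := by
      nlinarith [norm_nonneg (coef (ext f) (q ^ k))]
    exact le_of_mul_le_mul_left h5 h4
  intro M r₀ hr₀
  obtain ⟨C, hC⟩ := (isCompact_closedBall (0 : ℂ) r₀).exists_bound_of_continuousOn
    (hf.1.continuousOn.mono (closedBall_subset_ball hr₀))
  obtain ⟨r, hr0, hr1, hr⟩ := gap_big (p := fun k => q ^ k) (fun k => by positivity)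
    (fun k => by rw [pow_succ]; nlinarith [Nat.zero_le (q ^ k)]) (gap_hasSum hq hf) hb
    (max 1 (max M (C + 1))) (lt_max_of_lt_left one_pos)
  refine ⟨r, ?_, hr0, hr1, fun z hz => ?_⟩
  · by_contra hc
    have hn : ‖(r : ℂ)‖ = r := by rw [norm_real, Real.norm_eq_abs, abs_of_pos hr0]
    have h1 := hr r hn
    have h2 := hC r (by rw [mem_closedBall_zero_iff, hn]; exact not_lt.1 hc)
    have h3 : C + 1 ≤ max 1 (max M (C + 1)) := le_max_of_le_right (le_max_right _ _)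
    linarith
  · rw [← ext_apply]
    exact le_trans (le_max_of_le_right (le_max_left _ _)) (hr z hz)

/-- coefficients of the basis elements -/
noncomputable def ea (q n : ℕ) : ℕ → ℂ :=
  Function.extend (fun k => q ^ k) (fun k => if k.unpair.1 = n then 60 ^ k else 0) 0

lemma ea_pow {q : ℕ} (hq : 10 ≤ q) (n k : ℕ) :
    ea q n (q ^ k) = if k.unpair.1 = n then 60 ^ k else 0 :=
  (Nat.pow_right_injective (by omega : 2 ≤ q)).extend_apply _ _ k

lemma ea_zero {q n m : ℕ} (hm : ∀ k, m ≠ q ^ k) : ea q n m = 0 := by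
  unfold ea
  rw [Function.extend_apply']
  · rfl
  · rintro ⟨k, hk⟩; exact hm k hk.symm

lemma norm_ea_le {q : ℕ} (hq : 10 ≤ q) (n m : ℕ) : ‖ea q n m‖ ≤ (m : ℝ) ^ 2 := by
  by_cases hm : ∀ k, m ≠ q ^ k
  · rw [ea_zero hm, norm_zero]; positivity
  · push Not at hm
    obtain ⟨k, rfl⟩ := hm
    rw [ea_pow hq]
    split_ifs
    · rw [norm_pow, Complex.norm_ofNat]
      push_cast
      rw [← pow_mul, mul_comm, pow_mul]
      have : (10 : ℝ) ≤ q := by exact_mod_cast hq
      gcongr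
      nlinarith
    · rw [norm_zero]; positivity

lemma summable_ea {q : ℕ} (hq : 10 ≤ q) (n : ℕ) (r : ℝ) (h0 : 0 ≤ r) (h1 : r < 1) :
    Summable fun m => ‖ea q n m‖ * r ^ m := by
  refine Summable.of_nonneg_of_le (fun m => by positivity) (fun m => ?_)
    (summable_pow_mul_geometric_of_norm_lt_one 2 (r := r) (by rwa [Real.norm_of_nonneg h0]))
  gcongr
  exact norm_ea_le hq n m

/-- the basis elements -/
noncomputable def ee {q : ℕ} (hq : 10 ≤ q) (n : ℕ) : C(Disc, ℂ) :=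
  ⟨fun z => ps (ea q n) z,
    continuousOn_iff_continuous_domRestrict.1 (differentiableOn_ps (summable_ea hq n)).continuousOn⟩

lemma coef_ee {q : ℕ} (hq : 10 ≤ q) (n m : ℕ) : coef (ext (ee hq n)) m = ea q n m := by
  rw [← coef_ps one_pos (summable_ea hq n) m]
  exact coef_congr one_pos (fun z hz => ext_apply' _ hz) m

lemma ee_mem {q : ℕ} (hq : 10 ≤ q) (n : ℕ) : ee hq n ∈ Gap q := by
  refine ⟨(differentiableOn_ps (summable_ea hq n)).congr fun z hz => ext_apply _ ⟨z, hz⟩,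
    fun m hm => ?_, fun j k h => ?_⟩
  · rw [coef_ee, ea_zero hm]
  · rw [coef_ee, coef_ee, ea_pow hq, ea_pow hq, h]
    split_ifs <;> simp

lemma not_finite {q : ℕ} (hq : 10 ≤ q) (M : Submodule ℂ C(Disc, ℂ)) (hM : M ≤ Hol)
    (he : ∀ n, ee hq n ∈ M) : ¬ FiniteDimensional ℂ M := by
  intro hfin
  let L : M →ₗ[ℂ] (ℕ → ℂ) :=
    { toFun := fun f n => coef (ext f) (q ^ Nat.pair n 0) / 60 ^ Nat.pair n 0
      map_add' := fun f g => by
        ext n
        simp only [Submodule.coe_add, Pi.add_apply]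
        rw [cf_add (hM f.2) (hM g.2), add_div]
      map_smul' := fun c f => by
        ext n
        simp only [Submodule.coe_smul, Pi.smul_apply, RingHom.id_apply, smul_eq_mul]
        rw [cf_smul c (hM f.2), mul_div_assoc] }
  have hL : L ∘ (fun n => (⟨ee hq n, he n⟩ : M)) = fun n => Pi.single n 1 := by
    ext n m
    simp only [L, Function.comp_apply, LinearMap.coe_mk, AddHom.coe_mk, coef_ee, ea_pow hq,
      Nat.unpair_pair, Pi.single_apply]
    split_ifs <;> simp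
  have hli : LinearIndependent ℂ (fun n => (⟨ee hq n, he n⟩ : M)) := by
    apply LinearIndependent.of_comp L
    rw [hL]
    exact Pi.linearIndependent_single_one ℕ ℂ
  exact Module.Finite.not_linearIndependent_of_infinite _ hli

end Pool.Agent.H88.Annular
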