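import Mathlib
import Pool.Agent.H88.PexDefs

namespace Pool.Agent.H88.Fp

open Pool.Agent.H88.Pex

/-- `F_p(K; M)`: the closed linear span of `δ(K)`. -/
def cspan (𝕜 : Type) [RCLike 𝕜] {M X : Type} [AddCommGroup X] [Module 𝕜 X] (ν : X → ℝ)
    (δ : M → X) (K : Set M) : Set X :=
  {μ | ∀ ε > 0, ∃ m ∈ Submodule.span 𝕜 (δ '' K), ν (μ - m) < ε}

/-- `(X, ν, δ)` is the Lipschitz free `p`-space over `(M, o)`. -/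
structure IsFree (𝕜 : Type) [RCLike 𝕜] (p : ℝ) {M X : Type} [MetricSpace M] (o : M)
    [AddCommGroup X] [Module 𝕜 X] (ν : X → ℝ) (δ : M → X) : Prop where
  banach : IsPBanach 𝕜 p ν
  zero : δ o = 0
  iso : ∀ x y, ν (δ x - δ y) = dist x y
  dense : ∀ μ, μ ∈ cspan 𝕜 ν δ Set.univ
  lift : ∀ (Y : Type) [AddCommGroup Y] [Module 𝕜 Y] (η : Y → ℝ), IsPBanach 𝕜 p η →
    ∀ (f : M → Y) (L : ℝ), f o = 0 → 0 ≤ L → (∀ x y, η (f x - f y) ≤ L * dist x y) →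
      ∃ T : X →ₗ[𝕜] Y, (∀ x, T (δ x) = f x) ∧ ∀ μ, η (T μ) ≤ L * ν μ

/-- Kalton's property of `W`. -/
def Kalton (𝕜 : Type) [RCLike 𝕜] {M X : Type} [MetricSpace M] [AddCommGroup X] [Module 𝕜 X]
    (ν : X → ℝ) (δ : M → X) (W : Set X) : Prop :=
  ∀ ε > 0, ∀ r > 0, ∃ E : Finset M, ∀ w ∈ W,
    ∃ v ∈ cspan 𝕜 ν δ {x | ∃ y ∈ E, dist x y ≤ r}, ν (w - v) ≤ ε

/-- The sequence `x` is equivalent to the canonical basis of `ℓ_p`. -/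
def LpSeq (𝕜 : Type) [RCLike 𝕜] (p : ℝ) {X : Type} [AddCommGroup X] [Module 𝕜 X] (ν : X → ℝ)
    (x : ℕ → X) : Prop :=
  ∃ c C : ℝ, 0 < c ∧ c ≤ C ∧ ∀ (s : Finset ℕ) (a : ℕ → 𝕜),
    c * (∑ n ∈ s, ‖a n‖ ^ p) ^ (1 / p) ≤ ν (∑ n ∈ s, a n • x n) ∧
      ν (∑ n ∈ s, a n • x n) ≤ C * (∑ n ∈ s, ‖a n‖ ^ p) ^ (1 / p)

/-- The Schur `p`-property. -/
def SchurP (𝕜 : Type) [RCLike 𝕜] (p : ℝ) {X : Type} [AddCommGroup X] [Module 𝕜 X]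
    (ν : X → ℝ) : Prop :=
  ∀ A : Set X, A.Infinite → (∃ R, ∀ x ∈ A, ν x ≤ R) →
    (∃ r > 0, ∀ x ∈ A, ∀ y ∈ A, x ≠ y → r ≤ ν (x - y)) →
      ∃ x : ℕ → X, (∀ n, x n ∈ A) ∧ LpSeq 𝕜 p ν x

end Pool.Agent.H88.Fp
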