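import Mathlib
import Pool.Agent.H88.Pex2
import Pool.Agent.H88.FpDefs

/-! Free `p`-spaces as complete normed groups, with group norm `ν ^ p`. -/

namespace Pool.Agent.H88.Fp

open Pool.Agent.H88.Pex Filter Topology Submodule

variable {𝕜 : Type} [RCLike 𝕜] {p : ℝ}

noncomputable abbrev nacg {X : Type} [AddCommGroup X] [Module 𝕜 X] {ν : X → ℝ}
    (h : IsPBanach 𝕜 p ν) (hp : 0 < p) : NormedAddCommGroup X :=
  AddGroupNorm.toNormedAddCommGroup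
    { toFun := fun x => ν x ^ p
      map_zero' := by simp [h.zero, hp.ne']
      add_le' := h.tri
      neg' := fun x => by simpa using congrArg (· ^ p) (h.smul (-1) x)
      eq_zero_of_map_eq_zero' := fun x hx => by
        by_contra h0
        exact (Real.rpow_pos_of_pos (h.pos x h0) p).ne' hx }

def PS (𝕜 : Type) [RCLike 𝕜] (p : ℝ) (Y : Type) [NormedAddCommGroup Y] [Module 𝕜 Y] : Prop :=
  ∀ (c : 𝕜) (y : Y), ‖c • y‖ = ‖c‖ ^ p * ‖y‖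

section
variable {Y : Type} [NormedAddCommGroup Y] [Module 𝕜 Y]

lemma PS.banach [CompleteSpace Y] (h : PS 𝕜 p Y) (hp : 0 < p) :
    IsPBanach 𝕜 p fun y : Y => ‖y‖ ^ p⁻¹ := by
  have e : ∀ y : Y, (‖y‖ ^ p⁻¹) ^ p = ‖y‖ := fun y => Real.rpow_inv_rpow (norm_nonneg _) hp.ne'
  refine ⟨fun y => by positivity, fun y hy => by positivity, fun c y => ?_, fun x y => ?_,
    fun u hu => ?_⟩
  · rw [h, Real.mul_rpow (by positivity) (norm_nonneg _),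
      Real.rpow_rpow_inv (norm_nonneg _) hp.ne']
  · simp only [e]
    exact norm_add_le _ _
  · simp only [e] at hu ⊢
    obtain ⟨z, hz⟩ := cauchySeq_tendsto_of_complete (u := u) (Metric.cauchySeq_iff.2
      fun ε hε => by simpa only [dist_eq_norm] using hu ε hε)
    exact ⟨z, tendsto_iff_norm_sub_tendsto_zero.1 hz⟩

lemma PS.cont (h : PS 𝕜 p Y) : ContinuousConstSMul 𝕜 Y :=
  ⟨fun c => AddMonoidHomClass.continuous_of_bound (DistribSMul.toAddMonoidHom Y c) (‖c‖ ^ p)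
    fun y => (h c y).le⟩

lemma PS.cont' (h : PS 𝕜 p Y) (hp : 0 < p) (y : Y) : Continuous fun c : 𝕜 => c • y := by
  refine continuous_iff_continuousAt.2 fun c => tendsto_iff_norm_sub_tendsto_zero.2 ?_
  simp only [← sub_smul, h _ y]
  have : Continuous fun d : 𝕜 => ‖d - c‖ ^ p * ‖y‖ := by
    have := Real.continuous_rpow_const hp.le
    fun_prop
  simpa [hp.ne'] using this.tendsto c

lemma PS.wt (h : PS 𝕜 p Y) (a b : 𝕜) (u v : Y) :
    ‖a • u - b • v‖ ≤ ‖a‖ ^ p * ‖u - v‖ + ‖a - b‖ ^ p * ‖v‖ := by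
  rw [← h, ← h]
  refine le_trans (le_of_eq ?_) (norm_add_le _ _)
  congr 1
  module

end

structure Fr (𝕜 : Type) [RCLike 𝕜] (p : ℝ) {M X : Type} [MetricSpace M] (o : M)
    [NormedAddCommGroup X] [Module 𝕜 X] (δ : M → X) : Prop where
  p0 : 0 < p
  ps : PS 𝕜 p X
  complete : CompleteSpace X
  zero : δ o = 0
  iso : ∀ x y, ‖δ x - δ y‖ = dist x y ^ p
  dense : ∀ μ, μ ∈ closure (span 𝕜 (δ '' Set.univ) : Set X)
  lift : ∀ (Y : Type) [NormedAddCommGroup Y] [Module 𝕜 Y] [CompleteSpace Y], PS 𝕜 p Y →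
    ∀ (f : M → Y) (L : ℝ), f o = 0 → 0 ≤ L → (∀ x y, ‖f x - f y‖ ≤ L * dist x y ^ p) →
      ∃ T : X →ₗ[𝕜] Y, (∀ x, T (δ x) = f x) ∧ ∀ μ, ‖T μ‖ ≤ L * ‖μ‖
  func : ∀ (f : M → 𝕜) (L : ℝ), f o = 0 → 0 ≤ L → (∀ x y, ‖f x - f y‖ ≤ L * dist x y) →
      ∃ T : X →ₗ[𝕜] 𝕜, (∀ x, T (δ x) = f x) ∧ ∀ μ, ‖T μ‖ ≤ L * ‖μ‖ ^ p⁻¹

variable {M X : Type} [MetricSpace M] {o : M} [NormedAddCommGroup X] [Module 𝕜 X] {δ : M → X}
  {ν : X → ℝ}

lemma nu_eq (h : IsPBanach 𝕜 p ν) (hp : 0 < p) (hν : ∀ x, ‖x‖ = ν x ^ p) (x : X) :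
    ν x = ‖x‖ ^ p⁻¹ := by
  rw [hν, Real.rpow_rpow_inv (h.nonneg x) hp.ne']

omit [MetricSpace M] in
lemma mem_cspan (h : IsPBanach 𝕜 p ν) (hp : 0 < p) (hν : ∀ x, ‖x‖ = ν x ^ p) {K : Set M}
    {μ : X} : μ ∈ cspan 𝕜 ν δ K ↔ μ ∈ closure (span 𝕜 (δ '' K) : Set X) := by
  rw [Metric.mem_closure_iff]
  refine ⟨fun H ε hε => ?_, fun H ε hε => ?_⟩
  · obtain ⟨m, hm, h1⟩ := H (ε ^ p⁻¹) (by positivity)
    refine ⟨m, hm, ?_⟩
    rw [dist_eq_norm, hν]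
    exact (Real.lt_rpow_inv_iff_of_pos (h.nonneg _) hε.le hp).1 h1
  · obtain ⟨m, hm, h1⟩ := H (ε ^ p) (by positivity)
    rw [dist_eq_norm, hν] at h1
    exact ⟨m, hm, (Real.rpow_lt_rpow_iff (h.nonneg _) hε.le hp).1 h1⟩

lemma IsFree.fr (h : IsFree 𝕜 p o ν δ) (hp : 0 < p) (hp1 : p ≤ 1) (hν : ∀ x, ‖x‖ = ν x ^ p) :
    Fr 𝕜 p o δ := by
  have hB := h.banach
  refine ⟨hp, fun c y => ?_, Metric.complete_of_cauchySeq_tendsto fun u hu => ?_, h.zero,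
    fun x y => by rw [hν, h.iso], fun μ => (mem_cspan hB hp hν).1 (h.dense μ),
    fun Y _ _ _ hY f L f0 hL hf => ?_, fun f L f0 hL hf => ?_⟩
  · rw [hν, hν, hB.smul, Real.mul_rpow (norm_nonneg _) (hB.nonneg _)]
  · obtain ⟨z, hz⟩ := hB.complete u fun ε hε => by
      simpa only [dist_eq_norm, hν] using Metric.cauchySeq_iff.1 hu ε hε
    exact ⟨z, tendsto_iff_norm_sub_tendsto_zero.2 (by simpa only [hν] using hz)⟩
  · obtain ⟨T, h1, h2⟩ := h.lift Y _ (hY.banach hp) f (L ^ p⁻¹) f0 (by positivity) fun x y => by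
      refine (Real.rpow_le_rpow (norm_nonneg _) (hf x y) (by positivity)).trans_eq ?_
      rw [Real.mul_rpow hL (by positivity), Real.rpow_rpow_inv dist_nonneg hp.ne']
    refine ⟨T, h1, fun μ => ?_⟩
    have := h2 μ
    rw [nu_eq hB hp hν, ← Real.mul_rpow hL (norm_nonneg _)] at this
    exact (Real.rpow_le_rpow_iff (norm_nonneg _) (by positivity) (by positivity)).1 this
  · have h1 : IsPBanach 𝕜 1 fun y : 𝕜 => ‖y‖ ^ (1 : ℝ)⁻¹ :=
      PS.banach (fun c y => by simp) one_pos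
    simp only [inv_one, Real.rpow_one] at h1
    simpa only [nu_eq hB hp hν] using h.lift 𝕜 _ (h1.mono hp hp1) f L f0 hL hf

omit [MetricSpace M] in
lemma map_mem {Y : Type} [NormedAddCommGroup Y] [Module 𝕜 Y] {T : X →ₗ[𝕜] Y}
    (hT : Continuous T) {S : Submodule 𝕜 Y} {K : Set M} (hK : ∀ x ∈ K, T (δ x) ∈ S) {μ : X}
    (hμ : μ ∈ closure (span 𝕜 (δ '' K) : Set X)) : T μ ∈ closure (S : Set Y) := by
  refine map_mem_closure hT hμ fun m hm => ?_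
  have : span 𝕜 (δ '' K) ≤ S.comap T := span_le.2 (by
    rintro _ ⟨x, hx, rfl⟩
    exact hK x hx)
  exact this hm

omit [MetricSpace M] in
lemma map_zero' {Y : Type} [NormedAddCommGroup Y] [Module 𝕜 Y] {T : X →ₗ[𝕜] Y}
    (hT : Continuous T) {K : Set M} (hK : ∀ x ∈ K, T (δ x) = 0) {μ : X}
    (hμ : μ ∈ closure (span 𝕜 (δ '' K) : Set X)) : T μ = 0 := by
  simpa using map_mem (S := ⊥) hT hK hμ

lemma Fr.ext (h : Fr 𝕜 p o δ) {Y : Type} [NormedAddCommGroup Y] [Module 𝕜 Y] {T S : X →ₗ[𝕜] Y}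
    (hT : Continuous T) (hS : Continuous S) (e : ∀ x, T (δ x) = S (δ x)) (μ : X) : T μ = S μ :=
  sub_eq_zero.1 (map_zero' (T := T - S) (hT.sub hS) (fun x _ => sub_eq_zero.2 (e x)) (h.dense μ))

lemma cont_of {Y : Type} [NormedAddCommGroup Y] [Module 𝕜 Y] {T : X →ₗ[𝕜] Y} {C : ℝ}
    (h : ∀ μ, ‖T μ‖ ≤ C * ‖μ‖) : Continuous T :=
  AddMonoidHomClass.continuous_of_bound T C h

end Pool.Agent.H88.Fp
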