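import Mathlib
import Pool.Agent.H88.Fp1

/-! Costs of flows, and transport duality with few edges. -/

namespace Pool.Agent.H88.Nb

open Finset
open Finsupp hiding sum_le_sum sum_nonneg mul_sum sum_comm sum_congr sum_mul

variable {p : ℝ} {α M : Type}

noncomputable def cst (p : ℝ) (ω : α → ℝ) (u : α →₀ ℝ) : ℝ := u.sum fun e a => |a| ^ p * ω e

lemma cst_eq (hp : 0 < p) (ω : α → ℝ) {u : α →₀ ℝ} {s : Finset α} (h : u.support ⊆ s) :
    cst p ω u = ∑ e ∈ s, |u e| ^ p * ω e :=
  sum_of_support_subset _ h _ (by simp [hp.ne'])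

lemma cst_mono {ω ω' : α → ℝ} {u : α →₀ ℝ} (h : ∀ e ∈ u.support, ω e ≤ ω' e) :
    cst p ω u ≤ cst p ω' u :=
  sum_le_sum fun e he => mul_le_mul_of_nonneg_left (h e he) (by positivity)

lemma cst_nonneg {ω : α → ℝ} (h : ∀ e, 0 ≤ ω e) (u : α →₀ ℝ) : 0 ≤ cst p ω u :=
  sum_nonneg fun e _ => mul_nonneg (by positivity) (h e)

lemma cst_add (hp : 0 < p) (hp1 : p ≤ 1) {ω : α → ℝ} (h : ∀ e, 0 ≤ ω e) (u v : α →₀ ℝ) :
    cst p ω (u + v) ≤ cst p ω u + cst p ω v := by
  classical
  rw [cst_eq hp ω support_add, cst_eq hp ω (subset_union_left (s₂ := v.support)),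
    cst_eq hp ω (subset_union_right (s₁ := u.support)), ← sum_add_distrib]
  refine sum_le_sum fun e _ => ?_
  rw [← add_mul]
  exact mul_le_mul_of_nonneg_right ((Real.rpow_le_rpow (abs_nonneg _) (abs_add_le _ _) hp.le).trans
    (Real.rpow_add_le_add_rpow (abs_nonneg _) (abs_nonneg _) hp.le hp1)) (h e)

lemma cst_smul (hp : 0 < p) (ω : α → ℝ) (c : ℝ) (u : α →₀ ℝ) :
    cst p ω (c • u) = |c| ^ p * cst p ω u := by
  rw [cst_eq hp ω support_smul, cst_eq hp ω subset_rfl, mul_sum]
  refine sum_congr rfl fun e _ => ?_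
  rw [Finsupp.smul_apply, smul_eq_mul, abs_mul, Real.mul_rpow (abs_nonneg _) (abs_nonneg _),
    mul_assoc]

lemma cst_neg (hp : 0 < p) (ω : α → ℝ) (u : α →₀ ℝ) : cst p ω (-u) = cst p ω u := by
  simpa using cst_smul hp ω (-1) u

lemma cst_sub (hp : 0 < p) (hp1 : p ≤ 1) {ω : α → ℝ} (h : ∀ e, 0 ≤ ω e) (u v : α →₀ ℝ) :
    cst p ω (u - v) ≤ cst p ω u + cst p ω v := by
  simpa [cst_neg hp, sub_eq_add_neg] using cst_add hp hp1 h u (-v)

lemma cst_zero (ω : α → ℝ) : cst p ω 0 = 0 := by simp [cst]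

lemma cst_sum (hp : 0 < p) (hp1 : p ≤ 1) {ω : α → ℝ} (h : ∀ e, 0 ≤ ω e) {ι : Type}
    (s : Finset ι) (u : ι → α →₀ ℝ) : cst p ω (∑ i ∈ s, u i) ≤ ∑ i ∈ s, cst p ω (u i) :=
  le_sum_of_subadditive _ (cst_zero ω).le (cst_add hp hp1 h) s u

lemma cst_single (hp : 0 < p) (ω : α → ℝ) (e : α) (a : ℝ) :
    cst p ω (single e a) = |a| ^ p * ω e := sum_single_index (by simp [hp.ne'])

lemma cst_filter (hp : 0 < p) (ω : α → ℝ) (P : α → Prop) [DecidablePred P] (u : α →₀ ℝ) :
    cst p ω (u.filter P) = cst p (fun e => if P e then ω e else 0) u := by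
  rw [cst_eq hp ω (s := u.support) (by simp), cst_eq hp _ subset_rfl]
  refine sum_congr rfl fun e _ => ?_
  by_cases h : P e <;> simp [h, hp.ne']

lemma cst_wsum {ι : Type} (s : Finset ι) (ω : ι → α → ℝ) (u : α →₀ ℝ) :
    ∑ i ∈ s, cst p (ω i) u = cst p (fun e => ∑ i ∈ s, ω i e) u := by
  simp only [cst, Finsupp.sum, mul_sum]
  exact sum_comm

lemma cst_wadd (ω ω' : α → ℝ) (u : α →₀ ℝ) :
    cst p ω u + cst p ω' u = cst p (fun e => ω e + ω' e) u := by
  simp only [cst, Finsupp.sum, mul_add, sum_add_distrib]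

lemma cst_wmul (c : ℝ) (ω : α → ℝ) (u : α →₀ ℝ) :
    c * cst p ω u = cst p (fun e => c * ω e) u := by
  simp only [cst, Finsupp.sum, mul_sum, mul_left_comm]

lemma le_cst {V : Type} [AddCommGroup V] [Module ℝ V] {q : V → ℝ} (q0 : q 0 ≤ 0)
    (qa : ∀ x y, q (x + y) ≤ q x + q y) (qs : ∀ (c : ℝ) x, q (c • x) = |c| ^ p * q x)
    (Φ : (α →₀ ℝ) →ₗ[ℝ] V) {ω : α → ℝ} {u : α →₀ ℝ} (h : ∀ e ∈ u.support, q (Φ (single e 1)) ≤ ω e) :
    q (Φ u) ≤ cst p ω u := by
  conv_lhs => rw [← sum_single u, Finsupp.sum, map_sum]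
  refine (le_sum_of_subadditive q q0 qa _ _).trans (sum_le_sum fun e he => ?_)
  rw [← smul_single_one, map_smul, qs]
  exact mul_le_mul_of_nonneg_left (h e he) (by positivity)

noncomputable def bd : (M × M →₀ ℝ) →ₗ[ℝ] (M →₀ ℝ) :=
  linearCombination ℝ fun e => single e.1 1 - single e.2 1

lemma bd_single (e : M × M) (a : ℝ) : bd (single e a) = a • (single e.1 1 - single e.2 1) := by
  simp [bd]

lemma reduce (hp : 0 < p) (hp1 : p ≤ 1) {ω : α → ℝ} (hω : ∀ e, 0 ≤ ω e) {f t : α →₀ ℝ}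
    (ht : t ≠ 0) (hs : t.support ⊆ f.support) :
    ∃ c : ℝ, (f + c • t).support ⊂ f.support ∧ cst p ω (f + c • t) ≤ cst p ω f := by
  classical
  let D : (α →₀ ℝ) → ℝ := fun t => ∑ e ∈ f.support, |f e| ^ p * ω e * (t e / f e)
  have key : ∀ t : α →₀ ℝ, t.support ⊆ f.support → D t ≤ 0 → (∃ e ∈ f.support, t e / f e < 0) →
      ∃ c : ℝ, (f + c • t).support ⊂ f.support ∧ cst p ω (f + c • t) ≤ cst p ω f := by
    rintro t hs hD ⟨e1, h1, h2⟩
    obtain ⟨e0, h3, h4⟩ := exists_min_image _ (fun e => t e / f e) ⟨e1, h1⟩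
    have h5 : 0 < -(t e0 / f e0) := by linarith [h4 e1 h1]
    have sub : (f + (-(t e0 / f e0))⁻¹ • t).support ⊆ f.support :=
      support_add.trans (union_subset subset_rfl (support_smul.trans hs))
    have e : ∀ e ∈ f.support, (f + (-(t e0 / f e0))⁻¹ • t) e =
        f e * (1 + (-(t e0 / f e0))⁻¹ * (t e / f e)) := fun e he => by
      have := mem_support_iff.1 he
      simp only [Finsupp.add_apply, Finsupp.smul_apply, smul_eq_mul]
      field_simp
    refine ⟨_, ssubset_iff_of_subset sub |>.2 ⟨e0, h3, notMem_support_iff.2 ?_⟩, ?_⟩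
    · rw [e e0 h3, inv_neg, neg_mul, inv_mul_cancel₀ (by linarith), add_neg_cancel, mul_zero]
    rw [cst_eq hp ω sub, cst_eq hp ω subset_rfl]
    refine le_trans (sum_le_sum fun a ha => ?_) (le_trans (le_of_eq ?_) (add_le_of_nonpos_right
      (mul_nonpos_of_nonneg_of_nonpos (show 0 ≤ p * (-(t e0 / f e0))⁻¹ by positivity) hD)))
      (b := ∑ a ∈ f.support, |f a| ^ p * (1 + p * ((-(t e0 / f e0))⁻¹ * (t a / f a))) * ω a)
    · have h6 : -1 ≤ (-(t e0 / f e0))⁻¹ * (t a / f a) := by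
        rw [le_inv_mul_iff₀ h5]
        linarith [h4 a ha]
      rw [e a ha, abs_mul, abs_of_nonneg (a := 1 + _) (by linarith),
        Real.mul_rpow (abs_nonneg _) (by linarith)]
      exact mul_le_mul_of_nonneg_right (mul_le_mul_of_nonneg_left
        (rpow_one_add_le_one_add_mul_self h6 hp.le hp1) (by positivity)) (hω a)
    · simp only [D, mul_sum, ← sum_add_distrib]
      exact sum_congr rfl fun a _ => by ring
  have neg : D (-t) = -D t := by simp [D, neg_div]
  have pos : ∀ t : α →₀ ℝ, D t < 0 → ∃ e ∈ f.support, t e / f e < 0 := fun t h => by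
    by_contra hc
    push Not at hc
    exact h.not_ge (sum_nonneg fun e he => mul_nonneg (mul_nonneg (by positivity) (hω e)) (hc e he))
  have back : (∃ c : ℝ, (f + c • -t).support ⊂ f.support ∧ cst p ω (f + c • -t) ≤ cst p ω f) →
      ∃ c : ℝ, (f + c • t).support ⊂ f.support ∧ cst p ω (f + c • t) ≤ cst p ω f :=
    fun ⟨c, h⟩ => ⟨-c, by simpa using h⟩
  rcases lt_trichotomy (D t) 0 with h | h | h
  · exact key t hs h.le (pos t h)
  · obtain ⟨e, he⟩ := support_nonempty_iff.2 ht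
    rcases lt_or_gt_of_ne (div_ne_zero (mem_support_iff.1 he) (mem_support_iff.1 (hs he))) with
      h1 | h1
    · exact key t hs h.le ⟨e, hs he, h1⟩
    · exact back (key (-t) (by simpa) (by linarith) ⟨e, hs he, by simpa [neg_div]⟩)
  · exact back (key (-t) (by simpa) (by linarith) (pos _ (by linarith)))

lemma bd_const (u : M × M →₀ ℝ) (c : ℝ) : linearCombination ℝ (fun _ => c) (bd u) = 0 := by
  induction u using Finsupp.induction_linear with
  | zero => simp
  | add a b ha hb => simp [ha, hb]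
  | single e a => simp [bd_single]

lemma few [Fintype M] {ω : M × M → ℝ} (hω : ∀ e, 0 ≤ ω e) (k : ℕ) : ∀ f : M × M →₀ ℝ,
    f.support.card ≤ k → ∃ g : M × M →₀ ℝ, bd g = bd f ∧ cst 1 ω g ≤ cst 1 ω f ∧
      g.support.card ≤ Fintype.card M := by
  classical
  induction k with
  | zero => exact fun f hf => ⟨f, rfl, le_rfl, by omega⟩
  | succ k ih =>
    intro f hf
    by_cases h : f.support.card ≤ Fintype.card M
    · exact ⟨f, rfl, le_rfl, h⟩
    have : ¬LinearIndependent ℝ fun e : f.support => bd (single e.1 (1 : ℝ)) := fun li =>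
      h (by simpa only [Fintype.card_coe, Module.finrank_finsupp_self] using
        li.fintype_card_le_finrank)
    obtain ⟨t, h1, e, h2⟩ := Fintype.not_linearIndependent_iff.1 this
    obtain ⟨c, c1, c2⟩ := reduce one_pos le_rfl hω (f := f) (t := ∑ e : f.support, single e.1 (t e))
      (fun h => h2 (by simpa [single_apply, Subtype.val_inj] using DFunLike.congr_fun h e.1))
      (support_finsetSum.trans fun e he => by
        obtain ⟨a, -, ha⟩ := mem_biUnion.1 he
        exact mem_singleton.1 (support_single_subset ha) ▸ a.2)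
    obtain ⟨g, g1, g2, g3⟩ := ih _ (Nat.le_of_lt_succ ((card_lt_card c1).trans_le hf))
    refine ⟨g, ?_, g2.trans c2, g3⟩
    have : bd (∑ e : f.support, single e.1 (t e)) = 0 := by simpa [bd_single] using h1
    rw [g1, map_add, map_smul, this, smul_zero, add_zero]

variable [MetricSpace M]

def Lip (L : ℝ) (f : M → ℝ) : Prop := ∀ x y, f x ≤ f y + L * dist x y

lemma dual (s : M × M →₀ ℝ) {L L' : ℝ} (h : ∀ f, Lip 1 f → linearCombination ℝ f (bd s) ≤ L)
    (hL : L < L') : ∃ g, bd g = bd s ∧ cst 1 (fun e => dist e.1 e.2) g < L' := by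
  have h0 : 0 ≤ L := by simpa [bd_const] using h (fun _ => 0) fun x y => by simp
  by_contra hc
  push Not at hc
  obtain ⟨x, hx⟩ : ∃ x, bd s x ≠ 0 := by
    by_contra h1
    push Not at h1
    have := hc 0 (by ext x; simp [h1])
    rw [cst_zero] at this
    linarith
  obtain ⟨Λ, h1, h2⟩ := exists_extension_of_le_sublinear
    (((L' / bd s x) • lapply x ∘ₗ bd).toPMap ((Submodule.span ℝ {bd s}).comap bd))
    (cst 1 fun e => dist e.1 e.2)
    (fun c hc u => by simpa [abs_of_pos hc] using cst_smul one_pos _ c u)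
    (cst_add one_pos le_rfl fun _ => dist_nonneg) (by
      rintro ⟨u, hu⟩
      obtain ⟨c, e⟩ := Submodule.mem_span_singleton.1 hu
      have e1 : (L' / bd s x) * bd u x = c * L' := by
        rw [← e, Finsupp.smul_apply, smul_eq_mul]
        field_simp
      refine le_trans (le_of_eq e1) ?_
      rcases le_or_gt c 0 with h | h
      · exact (mul_nonpos_of_nonpos_of_nonneg h (by linarith)).trans
          (cst_nonneg (fun _ => dist_nonneg) _)
      · have := hc (c⁻¹ • u) (by rw [map_smul, ← e, inv_smul_smul₀ h.ne'])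
        rwa [cst_smul one_pos, Real.rpow_one, abs_of_pos (inv_pos.2 h), le_inv_mul_iff₀ h] at this)
  have k : ∀ u, bd u = 0 → Λ u = 0 := fun u hu => by
    simpa [hu] using h1 ⟨u, by simp [hu]⟩
  have e : ∀ a b, Λ (single (a, b) 1) = Λ (single (a, x) 1) - Λ (single (b, x) 1) := fun a b => by
    have := k (single (a, b) 1 - (single (a, x) 1 - single (b, x) 1)) (by simp [bd_single])
    rwa [map_sub, map_sub, sub_eq_zero] at this
  have e2 : ∀ u, linearCombination ℝ (fun a => Λ (single (a, x) 1)) (bd u) = Λ u := fun u => by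
    induction u using Finsupp.induction_linear with
    | zero => simp
    | add a b ha hb => simp [ha, hb]
    | single z a => rw [← smul_single_one, map_smul, map_smul, map_smul, e]; simp [bd_single]
  have := h (fun a => Λ (single (a, x) 1)) fun a b => by
    have := h2 (single (a, b) 1)
    rw [e, cst_single one_pos] at this
    simp at this
    linarith
  have h3 : Λ s = L' / bd s x * bd s x := h1 ⟨s, Submodule.mem_span_singleton_self _⟩
  rw [e2, h3, div_mul_cancel₀ _ hx] at this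
  linarith

end Pool.Agent.H88.Nb
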