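import Mathlib
import Pool.Agent.H88.Nb1

/-! Elements of a free `p`-space that are small in the Lipschitz-free norm add up as in `ℓ_p`. -/

namespace Pool.Agent.H88.Nb

open Finset
open Finsupp hiding sum_le_sum sum_nonneg mul_sum sum_comm sum_congr sum_mul

variable {p : ℝ} {M F : Type} [MetricSpace M]

noncomputable def cost (p : ℝ) (u : M × M →₀ ℝ) : ℝ := cst p (fun e => dist e.1 e.2 ^ p) u

noncomputable def wt (u : M × M →₀ ℝ) (e : M × M) : ℝ := |u e| * dist e.1 e.2

lemma wt_nonneg (u : M × M →₀ ℝ) (e : M × M) : 0 ≤ wt u e := by unfold wt; positivity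

lemma cost_eq (u : M × M →₀ ℝ) : cost p u = ∑ e ∈ u.support, wt u e ^ p :=
  sum_congr rfl fun _ _ => (Real.mul_rpow (abs_nonneg _) dist_nonneg).symm

lemma cost_nonneg (u : M × M →₀ ℝ) : 0 ≤ cost p u := cst_nonneg (fun _ => by positivity) u

lemma cost_filter (hp : 0 < p) (P : M × M → Prop) [DecidablePred P] (u : M × M →₀ ℝ) :
    cost p (u.filter P) = ∑ e ∈ u.support, if P e then wt u e ^ p else 0 := by
  rw [cost, cst_filter hp]
  refine sum_congr rfl fun e _ => ?_
  split_ifs with h <;> simp [h, wt, Real.mul_rpow]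

lemma cost_one (u : M × M →₀ ℝ) : cost 1 u = cst 1 (fun e => dist e.1 e.2) u := by simp [cost]

omit [MetricSpace M] in
lemma card_bd (w : M × M →₀ ℝ) : (bd w).support.card ≤ 2 * w.support.card := by
  classical
  have : (bd w).support ⊆ w.support.image Prod.fst ∪ w.support.image Prod.snd := fun x hx => by
    by_contra h
    simp only [mem_union, mem_image, not_or, not_exists, not_and] at h
    refine mem_support_iff.1 hx ?_
    rw [bd, linearCombination_apply, Finsupp.sum, Finsupp.finsetSum_apply]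
    exact sum_eq_zero fun e he => by simp [h.1 e he, h.2 e he]
  have := (card_le_card this).trans (card_union_le _ _)
  have := card_image_le (s := w.support) (f := Prod.fst)
  have := card_image_le (s := w.support) (f := Prod.snd)
  omega

lemma card_big (hp : 0 < p) (w : M × M →₀ ℝ) {τ : ℝ} (hτ : 0 < τ) :
    ((w.filter fun e => τ ≤ wt w e).support.card : ℝ) ≤ cost p w / τ ^ p := by
  rw [le_div_iff₀ (by positivity), support_filter, cost_eq, ← nsmul_eq_mul, ← sum_const]
  exact (sum_le_sum fun e he => Real.rpow_le_rpow hτ.le (mem_filter.1 he).2 hp.le).trans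
    (sum_le_sum_of_subset_of_nonneg (filter_subset _ _) fun e _ _ =>
      Real.rpow_nonneg (wt_nonneg _ _) _)

lemma le_split (hp1 : p < 1) {a τ : ℝ} (ha : 0 ≤ a) (h : a ≤ τ) :
    a ≤ τ ^ (1 - p) * a ^ p := by
  refine le_trans (le_of_eq ?_) (mul_le_mul_of_nonneg_right
    (Real.rpow_le_rpow ha h (by linarith : 0 ≤ 1 - p)) (by positivity))
  rw [← Real.rpow_add' ha (by simp)]
  simp

lemma Lip.neg {L : ℝ} {f : M → ℝ} (h : Lip L f) : Lip L (-f) := fun x y => by
  have := h y x
  rw [dist_comm] at this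
  simp only [Pi.neg_apply]
  linarith

lemma Lip.abs {L : ℝ} {f : M → ℝ} (h : Lip L f) (x y : M) : |f x - f y| ≤ L * dist x y :=
  abs_sub_le_iff.2 ⟨by linarith [h x y], by linarith [h y x, dist_comm x y ▸ h y x]⟩

omit [MetricSpace M] in
lemma pair (hp : 0 < p) (hp1 : p ≤ 1) (f : M → ℝ) (u : M × M →₀ ℝ) :
    |linearCombination ℝ f (bd u)| ^ p ≤ cst p (fun e => |f e.1 - f e.2| ^ p) u :=
  le_cst (q := fun t : ℝ => |t| ^ p) (by simp [hp.ne']) (fun x y =>
    (Real.rpow_le_rpow (abs_nonneg _) (abs_add_le _ _) hp.le).trans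
      (Real.rpow_add_le_add_rpow (abs_nonneg _) (abs_nonneg _) hp.le hp1))
    (fun c x => by rw [smul_eq_mul, abs_mul, Real.mul_rpow (abs_nonneg _) (abs_nonneg _)])
    (linearCombination ℝ f ∘ₗ bd) fun e _ => by simp [bd_single]

lemma Lip.pair (hp : 0 < p) (hp1 : p ≤ 1) {L : ℝ} (hL : 0 ≤ L) {f : M → ℝ} (h : Lip L f)
    (u : M × M →₀ ℝ) : |linearCombination ℝ f (bd u)| ^ p ≤ L ^ p * cost p u := by
  rw [cost, cst_wmul]
  refine (Nb.pair hp hp1 f u).trans (cst_mono fun e _ => ?_)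
  rw [← Real.mul_rpow hL dist_nonneg]
  exact Real.rpow_le_rpow (abs_nonneg _) (h.abs e.1 e.2) hp.le

variable [NormedAddCommGroup F] [Module ℝ F]

structure FI (p : ℝ) (ι : (M →₀ ℝ) →ₗ[ℝ] F) : Prop where
  p0 : 0 < p
  p1 : p < 1
  ps : ∀ (c : ℝ) (y : F), ‖c • y‖ = |c| ^ p * ‖y‖
  le : ∀ x y, ‖ι (single x 1 - single y 1)‖ ≤ dist x y ^ p
  opt : ∀ u, ∀ ε > 0, ∃ w, bd w = bd u ∧ cost p w ≤ ‖ι (bd u)‖ + ε

variable {ι : (M →₀ ℝ) →ₗ[ℝ] F}

lemma FI.cost (h : FI p ι) (u : M × M →₀ ℝ) : ‖ι (bd u)‖ ≤ cost p u :=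
  le_cst (q := norm) norm_zero.le norm_add_le h.ps (ι ∘ₗ bd) fun e _ => by
    simpa [bd_single] using h.le e.1 e.2

lemma FI.key (h : FI p ι) (s : M × M →₀ ℝ) {m L l : ℝ} (hm : (bd s).support.card ≤ m)
    (hL : ∀ f, Lip 1 f → linearCombination ℝ f (bd s) ≤ L) (hl : 0 < l) :
    ‖ι (bd s)‖ ≤ m * l ^ p + l ^ (p - 1) * L := by
  classical
  have h0 : 0 ≤ L := by simpa [bd_const] using hL (fun _ => 0) fun x y => by simp
  rcases (bd s).support.eq_empty_or_nonempty with h1 | ⟨o, ho⟩
  · have : 0 ≤ m := le_trans (by positivity) hm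
    rw [support_eq_empty.1 h1, map_zero, norm_zero]
    positivity
  obtain ⟨μ, hμ⟩ : ∃ μ : (bd s).support →₀ ℝ, mapDomain Subtype.val μ = bd s :=
    ⟨_, mapDomain_comapDomain _ Subtype.val_injective _ fun x hx => ⟨⟨x, hx⟩, rfl⟩⟩
  have star : ∀ μ : (bd s).support →₀ ℝ, bd (mapDomain (·, ⟨o, ho⟩) μ) =
      μ - linearCombination ℝ (fun _ => (1 : ℝ)) μ • single ⟨o, ho⟩ 1 := fun μ => by
    induction μ using Finsupp.induction_linear with
    | zero => simp
    | add a b ha hb => rw [mapDomain_add, map_add, ha, hb, map_add, add_smul]; abel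
    | single e a => simp [bd_single, smul_sub]
  have e1 : bd (mapDomain (·, ⟨o, ho⟩) μ) = μ := by
    have := bd_const s 1
    rw [← hμ, linearCombination_mapDomain] at this
    rw [star, show linearCombination ℝ (fun _ => (1 : ℝ)) μ = 0 from this, zero_smul, sub_zero]
  refine le_of_forall_pos_le_add fun ε hε => ?_
  obtain ⟨g, g1, g2⟩ := dual (mapDomain (·, ⟨o, ho⟩) μ) (L := L) (L' := L + l ^ (1 - p) * ε)
    (fun f hf => by
      obtain ⟨f', a, b⟩ := (LipschitzOnWith.of_le_add (s := ((bd s).support : Set M))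
        (f := fun x => if hx : x ∈ (bd s).support then f ⟨x, hx⟩ else 0) fun x hx y hy => by
          simpa only [dif_pos (mem_coe.1 hx), dif_pos (mem_coe.1 hy), one_mul] using!
            hf ⟨x, hx⟩ ⟨y, hy⟩).extend_real
      have := hL f' a.le_add_mul
      rw [← hμ, linearCombination_mapDomain] at this
      rw [e1]
      convert this using 3
      ext x
      simpa only [dif_pos x.2] using! b x.2) (lt_add_of_pos_right _ (by positivity))
  obtain ⟨g, g3, g4, g5⟩ := few (ω := fun e => dist e.1 e.2) (fun _ => dist_nonneg) _ g le_rfl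
  have a := le_cst (q := norm) norm_zero.le norm_add_le h.ps
    (ι ∘ₗ lmapDomain ℝ ℝ Subtype.val ∘ₗ bd) (ω := fun e => dist e.1 e.2 ^ p) (u := g) fun e _ => by
      simpa [bd_single, mapDomain_sub] using! h.le e.1 e.2
  simp only [LinearMap.comp_apply, g3, g1, e1, lmapDomain_apply, hμ] at a
  refine a.trans ((cost_eq g).trans_le ((sum_le_sum (g := fun e => l ^ p + l ^ (p - 1) * wt g e)
    fun e _ => ?_).trans ?_))
  · have := wt_nonneg g e
    rcases le_total (wt g e) l with b | b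
    · exact (Real.rpow_le_rpow this b h.p0.le).trans (le_add_of_nonneg_right (by positivity))
    · refine le_trans ?_ (le_add_of_nonneg_left (by positivity))
      rw [show wt g e ^ p = wt g e ^ (p - 1) * wt g e by
        rw [← Real.rpow_add_one (hl.trans_le b).ne', sub_add_cancel]]
      exact mul_le_mul_of_nonneg_right (Real.rpow_le_rpow_of_nonpos hl b (by linarith [h.p1])) this
  · have b : ∑ e ∈ g.support, wt g e ≤ L + l ^ (1 - p) * ε := by
      simpa [← cost_one, cost_eq] using (g4.trans g2.le)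
    have c : l ^ (p - 1) * l ^ (1 - p) = 1 := by rw [← Real.rpow_add hl]; simp
    rw [sum_add_distrib, ← mul_sum, sum_const, nsmul_eq_mul, add_assoc]
    refine add_le_add (mul_le_mul_of_nonneg_right (le_trans (by simpa using g5) hm)
      (by positivity)) ((mul_le_mul_of_nonneg_left b (by positivity)).trans ?_)
    rw [mul_add, ← mul_assoc, c, one_mul]

lemma FI.add (h : FI p ι) (u : M × M →₀ ℝ) {R ε : ℝ} (hR : 0 ≤ R) (hε : 0 < ε) :
    ∃ θ > 0, ∀ v, ‖ι (bd v)‖ ≤ R → (∀ f, Lip 1 f → |linearCombination ℝ f (bd v)| ≤ θ) →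
      ‖ι (bd u)‖ + ‖ι (bd v)‖ ≤ ‖ι (bd (u + v))‖ + 9 * ε := by
  classical
  have p0 := h.p0
  have p1 : 0 < 1 - p := by linarith [h.p1]
  obtain ⟨A, hA, hA'⟩ : ∃ A > 0, A = ‖ι (bd u)‖ + R + ε := ⟨_, by positivity, rfl⟩
  obtain ⟨β, hβ, hβ'⟩ : ∃ β > (0 : ℝ), β ^ p * ((bd u).support.card + 2 * A) = ε :=
    ⟨(ε / ((bd u).support.card + 2 * A)) ^ p⁻¹, by positivity, by
      rw [Real.rpow_inv_rpow (by positivity) p0.ne', div_mul_cancel₀ _ (by positivity)]⟩
  obtain ⟨g, hg, g1, g2⟩ : ∃ g > (0 : ℝ), g ≤ 1 ∧ g ^ (1 - p) * A ≤ ε * β ^ (1 - p) :=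
    ⟨min 1 ((ε * β ^ (1 - p) / A) ^ (1 - p)⁻¹), by positivity, min_le_left _ _, by
      rw [← le_div_iff₀ hA]
      refine (Real.rpow_le_rpow (by positivity) (min_le_right _ _) p1.le).trans ?_
      rw [Real.rpow_inv_rpow (by positivity) p1.ne']⟩
  obtain ⟨N, hN⟩ := exists_nat_gt (A / (ε * β ^ (1 - p)))
  refine ⟨ε * β ^ (1 - p) * (g ^ N) ^ (1 - p), by positivity, fun v hv hθ => ?_⟩
  obtain ⟨w, w1, w2⟩ := h.opt (u + v) ε hε
  have w3 : Nb.cost p w ≤ A := by
    rw [map_add, map_add] at w2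
    linarith [norm_add_le (ι (bd u)) (ι (bd v))]
  let c : ℕ → ℝ := fun i => Nb.cost p (w.filter fun e => ¬g ^ i ≤ wt w e)
  have c1 : ∀ i, c i ≤ A := fun i => by
    refine le_trans ?_ w3
    simp only [c, cost_filter p0, cost_eq w]
    refine sum_le_sum fun e _ => ?_
    split_ifs
    exacts [Real.rpow_nonneg (wt_nonneg _ _) _, le_rfl]
  have N0 : 0 < N := (Nat.cast_pos (α := ℝ)).1 (lt_trans (by positivity) hN)
  obtain ⟨i, hi, c2⟩ := exists_le_of_sum_le (s := range N) (by simpa using N0.ne')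
    (f := fun i => c i - c (i + 1)) (g := fun _ => ε * β ^ (1 - p)) (by
      rw [sum_range_sub', sum_const, card_range, nsmul_eq_mul]
      rw [div_lt_iff₀ (by positivity)] at hN
      linarith [c1 0, (cost_nonneg _ : 0 ≤ c N)])
  have hτ : 0 < g ^ i := by positivity
  have s1 : Nb.cost 1 (w.filter fun e => ¬g ^ i ≤ wt w e) ≤
      (g ^ i) ^ (1 - p) * (c i - c (i + 1) + g ^ (1 - p) * Nb.cost p w) := by
    simp only [c, cost_filter p0, cost_filter one_pos, cost_eq w, mul_sum, ← sum_sub_distrib,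
      ← sum_add_distrib, Real.rpow_one]
    refine sum_le_sum fun e _ => ?_
    have := wt_nonneg w e
    have m : g ^ (i + 1) ≤ g ^ i := pow_le_pow_of_le_one hg.le g1 (Nat.le_succ i)
    by_cases a : g ^ i ≤ wt w e
    · simp only [a, m.trans a, not_true, if_false]
      positivity
    by_cases b : g ^ (i + 1) ≤ wt w e
    · simp only [a, b, not_true, not_false_eq_true, if_false, if_true, sub_zero, mul_add]
      exact (le_split h.p1 this (not_le.1 a).le).trans (le_add_of_nonneg_right (by positivity))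
    · simp only [a, b, not_false_eq_true, if_true, sub_self, zero_add]
      rw [← mul_assoc, ← Real.mul_rpow hτ.le hg.le, ← pow_succ]
      exact le_split h.p1 this (not_le.1 b).le
  have e : bd (u - w.filter fun e => g ^ i ≤ wt w e) =
      bd (w.filter fun e => ¬g ^ i ≤ wt w e) - bd v := by
    rw [← filter_add_filter_not w fun e => g ^ i ≤ wt w e, map_add, map_add] at w1
    rw [map_sub, eq_sub_of_add_eq w1.symm]
    abel
  have k := h.key (u - w.filter fun e => g ^ i ≤ wt w e) (l := β * g ^ i)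
    (m := (bd u).support.card + 2 * (A / (g ^ i) ^ p))
    (L := (g ^ i) ^ (1 - p) * (3 * (ε * β ^ (1 - p)))) (by
      have a := card_bd (w.filter fun e => g ^ i ≤ wt w e)
      have b := (card_big p0 w hτ).trans (div_le_div_of_nonneg_right w3 (by positivity))
      rw [map_sub]
      refine (Nat.cast_le.2 (((card_le_card support_sub).trans (card_union_le _ _)).trans
        (Nat.add_le_add_left a _))).trans ?_
      push_cast
      linarith) (fun f hf => by
      have a := hf.pair one_pos le_rfl zero_le_one (w.filter fun e => ¬g ^ i ≤ wt w e)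
      have b := (abs_le.1 (hθ f hf)).1
      have d : (g ^ N) ^ (1 - p) ≤ (g ^ i) ^ (1 - p) := Real.rpow_le_rpow (by positivity)
        (pow_le_pow_of_le_one hg.le g1 (mem_range.1 hi).le) p1.le
      have d' := mul_le_mul_of_nonneg_left d (show 0 ≤ ε * β ^ (1 - p) by positivity)
      have d'' := mul_le_mul_of_nonneg_left (add_le_add c2 ((mul_le_mul_of_nonneg_left w3
        (by positivity)).trans g2)) (show 0 ≤ (g ^ i) ^ (1 - p) by positivity)
      simp only [Real.rpow_one, one_mul] at a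
      rw [e, map_sub]
      linarith [le_abs_self (linearCombination ℝ f (bd (w.filter fun e => ¬g ^ i ≤ wt w e)))])
    (by positivity)
  have k2 : ‖ι (bd (u - w.filter fun e => g ^ i ≤ wt w e))‖ ≤ 4 * ε := by
    refine k.trans ?_
    have a : (β * g ^ i) ^ (p - 1) * ((g ^ i) ^ (1 - p) * (3 * (ε * β ^ (1 - p)))) = 3 * ε := by
      rw [Real.mul_rpow hβ.le hτ.le, ← neg_sub 1 p, Real.rpow_neg hβ.le, Real.rpow_neg hτ.le]
      field_simp
    have b : (g ^ i) ^ p ≤ 1 := Real.rpow_le_one hτ.le (pow_le_one₀ hg.le g1) p0.le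
    have d : (((bd u).support.card : ℝ) + 2 * (A / (g ^ i) ^ p)) * (β ^ p * (g ^ i) ^ p) =
        β ^ p * ((bd u).support.card * (g ^ i) ^ p + 2 * A) := by field_simp
    rw [a, Real.mul_rpow hβ.le hτ.le, d]
    have := mul_le_mul_of_nonneg_left (add_le_add_left (mul_le_of_le_one_right
      (Nat.cast_nonneg (bd u).support.card) b) (2 * A)) (show 0 ≤ β ^ p by positivity)
    linarith
  have a := h.cost (w.filter fun e => g ^ i ≤ wt w e)
  have b := h.cost (w.filter fun e => ¬g ^ i ≤ wt w e)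
  have d : Nb.cost p (w.filter fun e => g ^ i ≤ wt w e) +
      Nb.cost p (w.filter fun e => ¬g ^ i ≤ wt w e) = Nb.cost p w := by
    simp only [cost_filter p0, cost_eq w, ← sum_add_distrib]
    exact sum_congr rfl fun e _ => by split_ifs <;> simp_all
  have k3 := k2
  rw [e, map_sub] at k3
  rw [map_sub, map_sub] at k2
  linarith [norm_sub_norm_le (ι (bd u)) (ι (bd (w.filter fun e => g ^ i ≤ wt w e))),
    norm_sub_norm_le (ι (bd v)) (ι (bd (w.filter fun e => ¬g ^ i ≤ wt w e))),
    norm_sub_rev (ι (bd v)) (ι (bd (w.filter fun e => ¬g ^ i ≤ wt w e)))]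

end Pool.Agent.H88.Nb
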