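import Mathlib
import Pool.Agent.H88.Nb2

/-! Separated sequences can be tested by Lipschitz functions with disjoint supports. -/

namespace Pool.Agent.H88.Nb

open Finset Filter Topology
open Finsupp hiding sum_le_sum sum_nonneg mul_sum sum_comm sum_congr sum_mul

variable {p : ℝ} {M : Type} [MetricSpace M]

lemma Lip.sub {L K : ℝ} {f g : M → ℝ} (h : Lip L f) (k : Lip K g) : Lip (L + K) (f - g) :=
  fun x y => by
    have := k.neg x y
    simp only [Pi.neg_apply, Pi.sub_apply] at this ⊢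
    linarith [h x y]

lemma Lip.mono {L K : ℝ} {f : M → ℝ} (h : Lip L f) (k : L ≤ K) : Lip K f := fun x y =>
  (h x y).trans (add_le_add_right (mul_le_mul_of_nonneg_right k dist_nonneg) _)

lemma Lip.max {L : ℝ} {f g : M → ℝ} (h : Lip L f) (k : Lip L g) :
    Lip L fun x => max (f x) (g x) := fun x y =>
  max_le ((h x y).trans (add_le_add_left (le_max_left _ _) _))
    ((k x y).trans (add_le_add_left (le_max_right _ _) _))

lemma Lip.min {L : ℝ} {f g : M → ℝ} (h : Lip L f) (k : Lip L g) :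
    Lip L fun x => min (f x) (g x) := fun x y => by
  rw [← min_add_add_right]
  exact min_le_min (h x y) (k x y)

lemma Lip.smul {L : ℝ} {f : M → ℝ} (h : Lip L f) (c : ℝ) : Lip (|c| * L) (c • f) := fun x y => by
  have := mul_le_mul_of_nonneg_left (h.abs x y) (abs_nonneg c)
  rw [← abs_mul, mul_sub, ← mul_assoc] at this
  simp only [Pi.smul_apply, smul_eq_mul]
  linarith [(abs_le.1 this).2]

omit [MetricSpace M] in
lemma lc_sub (f g : M → ℝ) (μ : M →₀ ℝ) :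
    linearCombination ℝ (f - g) μ = linearCombination ℝ f μ - linearCombination ℝ g μ := by
  simp [linearCombination_apply, Finsupp.sum, mul_sub]

lemma disj (hp : 0 < p) (hp1 : p ≤ 1) (J : Finset ℕ) {f : ℕ → M → ℝ} {L : ℝ} (hL : 0 ≤ L)
    (h : ∀ j ∈ J, Lip L (f j)) (hd : ∀ a ∈ J, ∀ b ∈ J, ∀ x, f a x ≠ 0 → f b x ≠ 0 → a = b)
    (u : M × M →₀ ℝ) : ∑ j ∈ J, |linearCombination ℝ (f j) (bd u)| ^ p ≤ 2 * L ^ p * cost p u := by
  classical
  refine (sum_le_sum fun j _ => pair hp hp1 (f j) u).trans ?_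
  rw [cst_wsum, cost, cst_wmul]
  refine cst_mono fun e _ => ?_
  have c : ∀ x, (J.filter fun j => f j x ≠ 0).card ≤ 1 := fun x => card_le_one.2 fun a ha b hb =>
    hd a (mem_filter.1 ha).1 b (mem_filter.1 hb).1 x (mem_filter.1 ha).2 (mem_filter.1 hb).2
  rw [← sum_filter_of_ne (p := fun j => f j e.1 ≠ 0 ∨ f j e.2 ≠ 0) fun j _ hj => by
    by_contra hc
    push Not at hc
    simp [hc, hp.ne'] at hj, mul_assoc, ← Real.mul_rpow hL dist_nonneg]
  refine (sum_le_card_nsmul _ _ _ fun j hj => Real.rpow_le_rpow (abs_nonneg _)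
    ((h j (mem_filter.1 hj).1).abs e.1 e.2) hp.le).trans ?_
  rw [nsmul_eq_mul, filter_or]
  exact mul_le_mul_of_nonneg_right (by
    exact_mod_cast (card_union_le _ _).trans (add_le_add (c _) (c _))) (by positivity)

lemma ulim {t : ℕ → ℝ} {B : ℝ} (h : ∀ᶠ n in hyperfilter ℕ, |t n| ≤ B) :
    ∃ c, Tendsto t (hyperfilter ℕ) (𝓝 c) := by
  obtain ⟨c, -, hc⟩ := (isCompact_Icc (a := -B) (b := B)).ultrafilter_le_nhds
    ((hyperfilter ℕ).map t) (le_principal_iff.2 (h.mono fun n hn => abs_le.1 hn))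
  exact ⟨c, hc⟩

def LipS (M : Type) [MetricSpace M] : Submodule ℝ (M → ℝ) where
  carrier := {f | ∃ L, 0 ≤ L ∧ Lip L f}
  add_mem' := fun ⟨L, a, b⟩ ⟨K, c, d⟩ => ⟨L + K, by positivity, by simpa using b.sub d.neg⟩
  zero_mem' := ⟨0, le_rfl, fun x y => by simp⟩
  smul_mem' := fun c _ ⟨L, a, b⟩ => ⟨_, by positivity, b.smul c⟩

lemma section_lip {I : Type} [Fintype I] (Λ : LipS M →ₗ[ℝ] I → ℝ) :
    ∃ (σ : (I → ℝ) →ₗ[ℝ] LipS M) (C : ℝ), 0 < C ∧ (∀ f, Λ (σ (Λ f)) = Λ f) ∧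
      ∀ w, Lip (C * ‖w‖) (σ w).1 := by
  classical
  obtain ⟨s, hs⟩ := Λ.rangeRestrict.exists_rightInverse_of_surjective Λ.range_rangeRestrict
  obtain ⟨σ, hσ⟩ := s.exists_extend
  choose L L0 hL using fun i => (σ fun j => if i = j then 1 else 0).2
  refine ⟨σ, ∑ i, L i + 1, add_pos_of_nonneg_of_pos (sum_nonneg fun i _ => L0 i) one_pos,
    fun f => ?_, fun w x y => ?_⟩
  · rw [show σ (Λ f) = s ⟨Λ f, f, rfl⟩ from LinearMap.congr_fun hσ ⟨Λ f, f, rfl⟩]
    exact congrArg Subtype.val (LinearMap.congr_fun hs ⟨Λ f, f, rfl⟩)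
  · have := sum_le_sum fun i (_ : i ∈ univ) => ((hL i).smul (w i)).mono
      (mul_le_mul_of_nonneg_right (norm_le_pi_norm w i) (L0 i)) x y
    rw [σ.pi_apply_eq_sum_univ w]
    simp only [sum_add_distrib, ← sum_mul, ← mul_sum] at this
    simp only [Submodule.coe_sum, Finset.sum_apply, Submodule.coe_smul]
    nlinarith [mul_nonneg (norm_nonneg w) (dist_nonneg (x := x) (y := y))]

lemma rho {I : Type} [Fintype I] [Nonempty I] (s : ℕ → I → M) (μ : ℕ → M →₀ ℝ) (o : M)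
    {R θ : ℝ} (hθ : 0 < θ) (hR0 : 0 < R)
    (hR : ∀ n L f, 0 ≤ L → Lip L f → |linearCombination ℝ f (μ n)| ≤ L * R)
    (hs : ∀ a b, a ≠ b → ∃ f, Lip 1 f ∧ f o = 0 ∧
      θ < |linearCombination ℝ f (μ a) - linearCombination ℝ f (μ b)|) :
    ∃ ρ : M → ℝ, Lip 1 ρ ∧ (∀ x, ∀ᶠ b in hyperfilter ℕ, ∀ i, ρ x ≤ 2 * dist x (s b i)) ∧
      ∀ᶠ a in hyperfilter ℕ, ∃ φ, Lip 3 φ ∧ (∀ x, |φ x| ≤ 3 * ρ x) ∧
        θ / 4 < |linearCombination ℝ φ (μ a)| := by
  classical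
  let s' : ℕ → I → M := fun n i =>
    if ∃ B, ∀ᶠ n in hyperfilter ℕ, dist (s n i) o ≤ B then s n i else o
  have hB : ∀ i, ∃ B, ∀ᶠ n in hyperfilter ℕ, dist (s' n i) o ≤ B := fun i => by
    by_cases h : ∃ B, ∀ᶠ n in hyperfilter ℕ, dist (s n i) o ≤ B
    · simpa only [s', if_pos h] using h
    · exact ⟨0, by simp only [s', if_neg h]; simp⟩
  choose B hB using hB
  have hΛ : ∀ (f : LipS M) i, ∃ c, Tendsto (fun n => f.1 (s' n i)) (hyperfilter ℕ) (𝓝 c) :=
    fun ⟨f, L, a, b⟩ i => ulim (B := |f o| + L * B i) ((hB i).mono fun n hn => by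
      linarith [abs_sub_abs_le_abs_sub (f (s' n i)) (f o), b.abs (s' n i) o,
        mul_le_mul_of_nonneg_left hn a])
  obtain ⟨Λ, hΛ⟩ : ∃ Λ : LipS M →ₗ[ℝ] I → ℝ,
      ∀ f i, Tendsto (fun n => f.1 (s' n i)) (hyperfilter ℕ) (𝓝 (Λ f i)) := by
    choose Λ hΛ using hΛ
    exact ⟨⟨⟨Λ, fun f g => funext fun i => tendsto_nhds_unique (hΛ _ i) ((hΛ f i).add (hΛ g i))⟩,
      fun c f => funext fun i => tendsto_nhds_unique (hΛ _ i) ((hΛ f i).const_mul c)⟩, hΛ⟩
  let D : M → LipS M := fun x => ⟨dist x, 1, zero_le_one, fun y z => by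
    rw [one_mul, dist_comm y]; exact dist_triangle _ _ _⟩
  choose m hm using fun x => Finite.exists_min fun i => Λ (D x) i
  refine ⟨fun x => Λ (D x) (m x), fun x y => (hm x (m y)).trans (le_of_tendsto_of_tendsto'
    (hΛ (D x) (m y)) ((hΛ (D y) (m y)).add_const _) fun n => by
      simpa [D, add_comm] using dist_triangle x y _), fun x => eventually_all.2 fun i => ?_, ?_⟩
  · by_cases h : ∃ B, ∀ᶠ n in hyperfilter ℕ, dist (s n i) o ≤ B
    · rcases le_or_gt (Λ (D x) (m x)) 0 with a | a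
      · exact .of_forall fun n => a.trans (by positivity)
      · filter_upwards [(hΛ (D x) i).eventually_const_lt (u := Λ (D x) (m x) / 2)
          (lt_of_lt_of_le (half_lt_self a) (hm x i))] with n hn
        simp only [s', if_pos h, D] at hn
        linarith
    · filter_upwards [Ultrafilter.eventually_not.2 (not_exists.1 h (Λ (D x) (m x) + dist x o))]
        with n hn
      linarith [dist_triangle_left (s n i) o x, dist_nonneg (x := x) (y := s n i), not_le.1 hn]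
  obtain ⟨σ, C, C0, σ1, σ2⟩ := section_lip Λ
  by_contra hc
  have hb := Ultrafilter.eventually_not.2 hc
  obtain ⟨t, t1, t2, t3⟩ := Metric.finite_approx_of_totallyBounded
    (s := {v | ∃ f : LipS M, Lip 1 f.1 ∧ f.1 o = 0 ∧ Λ f = v})
    ((isCompact_univ_pi fun i => isCompact_Icc (a := -B i) (b := B i)).totallyBounded.subset (by
      rintro _ ⟨f, a, b, rfl⟩ i -
      exact abs_le.1 (le_of_tendsto (hΛ f i).abs ((hB i).mono fun n hn => by
        have := a.abs (s' n i) o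
        rw [b, sub_zero, one_mul] at this
        exact this.trans hn)))) (min (θ / 8 / R) 1 / C) (by positivity)
  have t4 : ∀ v ∈ t, ∃ f : LipS M, Lip 1 f.1 ∧ f.1 o = 0 ∧ Λ f = v := t1
  choose! g g1 g2 g3 using t4
  choose c hc using fun v : t => ulim (B := 1 * R) (.of_forall fun n =>
    hR n 1 (g v).1 zero_le_one (g1 v v.2))
  have := t2.to_subtype
  have := hb.and (eventually_all.2 fun v : t => Metric.tendsto_nhds.1 (hc v) (θ / 8) (by positivity))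
  obtain ⟨a, ⟨a1, a2⟩, b, ⟨b1, b2⟩, hab⟩ := (frequently_cofinite_iff_infinite.1
    (this.frequently.filter_mono hyperfilter_le_cofinite)).nontrivial
  obtain ⟨f, f1, f2, f3⟩ := hs a b hab
  obtain ⟨v, hv, h⟩ := Set.mem_iUnion₂.1 (t3 ⟨⟨f, 1, zero_le_one, f1⟩, f1, f2, rfl⟩)
  rw [Metric.mem_ball, dist_eq_norm, ← g3 v hv, ← map_sub, lt_div_iff₀' C0, lt_min_iff] at h
  obtain ⟨f', hf'⟩ : ∃ f' : LipS M, f' = ⟨f, 1, zero_le_one, f1⟩ - g v := ⟨_, rfl⟩
  rw [← hf'] at h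
  have l1 : Lip 3 (f' - σ (Λ f')).1 :=
    ((hf' ▸ f1.sub (g1 v hv) : Lip (1 + 1) f'.1).sub (σ2 _)).mono (by linarith [h.2])
  have l2 : ∀ x, |(f' - σ (Λ f')).1 x| ≤ 3 * Λ (D x) (m x) := fun x => by
    have := ((hΛ (f' - σ (Λ f')) (m x)).const_sub ((f' - σ (Λ f')).1 x)).abs
    rw [map_sub, σ1, sub_self (Λ f'), Pi.zero_apply, sub_zero] at this
    exact le_of_tendsto_of_tendsto' this ((hΛ (D x) (m x)).const_mul 3) fun n => l1.abs _ _
  have k : ∀ n, (¬∃ φ, Lip 3 φ ∧ (∀ x, |φ x| ≤ 3 * Λ (D x) (m x)) ∧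
      θ / 4 < |linearCombination ℝ φ (μ n)|) → dist (linearCombination ℝ (g v).1 (μ n))
      (c ⟨v, hv⟩) < θ / 8 → |linearCombination ℝ f (μ n) - c ⟨v, hv⟩| ≤ θ / 2 := fun n x y => by
    have x1 := abs_le.1 (not_lt.1 fun z => x ⟨_, l1, l2, z⟩)
    have x2 := abs_le.1 ((hR n _ _ (by positivity) (σ2 (Λ f'))).trans ((le_div_iff₀ hR0).1 h.1.le))
    have x3 := abs_lt.1 y
    rw [Submodule.coe_sub, lc_sub, hf', Submodule.coe_sub, lc_sub, ← hf'] at x1
    exact abs_le.2 ⟨by linarith, by linarith⟩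
  have x := abs_le.1 (k a a1 (a2 ⟨v, hv⟩))
  have y := abs_le.1 (k b b1 (b2 ⟨v, hv⟩))
  exact f3.not_ge (abs_le.2 ⟨by linarith, by linarith⟩)

end Pool.Agent.H88.Nb
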