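import Mathlib
import Pool.Agent.H88.Nb3

/-! Linearization of Lipschitz functions on a separable Banach space by averaging. -/

namespace Pool.Agent.H88.Ap

open Pool.Agent.H88.Nb Finset Filter Topology intervalIntegral

variable {E : Type} [NormedAddCommGroup E] [NormedSpace ℝ E]

lemma cont (f : LipS E) (v x : E) : Continuous fun t : ℝ => f.1 (v + t • x) := by
  obtain ⟨L, -, h⟩ := f.2
  exact (LipschitzWith.of_le_add_mul' L h).continuous.comp (by fun_prop)

lemma i01 {g : ℝ → ℝ} {c : ℝ} (h : ∀ t ∈ Set.Icc (0 : ℝ) 2, |g t| ≤ c) :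
    |∫ t in (0 : ℝ)..1, g t| ≤ c := by
  simpa using norm_integral_le_of_norm_le_const (a := 0) (b := 1) (C := c) (f := g) fun s hs => by
    rw [Set.uIoc_of_le zero_le_one] at hs
    exact h s ⟨hs.1.le, by linarith [hs.2]⟩

noncomputable def avg (x : E) : LipS E →ₗ[ℝ] LipS E where
  toFun f := ⟨fun v => ∫ t in (0 : ℝ)..1, f.1 (v + t • x), by
    obtain ⟨L, a, h⟩ := f.2
    refine ⟨L, a, fun v w => sub_le_iff_le_add'.1 ?_⟩
    rw [← integral_sub ((cont f v x).intervalIntegrable _ _) ((cont f w x).intervalIntegrable _ _)]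
    refine (le_abs_self _).trans (i01 fun t _ => ?_)
    simpa using h.abs (v + t • x) (w + t • x)⟩
  map_add' f g := Subtype.ext (funext fun v =>
    integral_add ((cont f v x).intervalIntegrable _ _) ((cont g v x).intervalIntegrable _ _))
  map_smul' c f := Subtype.ext (funext fun _ => integral_const_mul _ _)

def tr (v : E) : LipS E →ₗ[ℝ] LipS E where
  toFun f := ⟨fun z => f.1 (z + v), by
    obtain ⟨L, a, h⟩ := f.2
    exact ⟨L, a, fun z w => by simpa using h (z + v) (w + v)⟩⟩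
  map_add' _ _ := rfl
  map_smul' _ _ := rfl

lemma avg_tr (x v : E) (f : LipS E) : avg x (tr v f) = tr v (avg x f) :=
  Subtype.ext (funext fun z => by simp [avg, tr, add_right_comm])

lemma avg_diff (x z : E) (f : LipS E) {c s : ℝ} (s0 : 0 ≤ s) (s1 : s ≤ 1)
    (h : ∀ t ∈ Set.Icc (0 : ℝ) 2, |f.1 (z + t • x)| ≤ c) :
    |(avg x (tr (s • x) f - f)).1 z| ≤ 2 * s * c := by
  have i := fun a b => (cont f z x).intervalIntegrable (μ := MeasureTheory.volume) a b
  have e : (avg x (tr (s • x) f - f)).1 z = (∫ t in (0 : ℝ)..1, (fun t => f.1 (z + t • x)) (t + s)) -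
      ∫ t in (0 : ℝ)..1, f.1 (z + t • x) := by
    rw [map_sub]
    simp [avg, tr, add_smul, add_assoc]
  rw [e, integral_comp_add_right fun t => f.1 (z + t • x),
    integral_interval_sub_interval_comm' (i _ _) (i _ _) (i _ _)]
  have a := norm_integral_le_of_norm_le_const (a := 1) (b := 1 + s) (C := c)
    (f := fun t => f.1 (z + t • x)) fun t ht => by
      rw [Set.uIoc_of_le (by linarith)] at ht
      exact h t ⟨by linarith [ht.1], by linarith [ht.2]⟩
  have b := norm_integral_le_of_norm_le_const (a := 0) (b := 0 + s) (C := c)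
    (f := fun t => f.1 (z + t • x)) fun t ht => by
      rw [Set.uIoc_of_le (by linarith)] at ht
      exact h t ⟨by linarith [ht.1], by linarith [ht.2]⟩
  rw [add_sub_cancel_left, abs_of_nonneg s0] at a b
  refine (abs_sub _ _).trans ?_
  rw [Real.norm_eq_abs] at a b
  linarith

noncomputable def pk (x : ℕ → E) : ℕ → LipS E →ₗ[ℝ] ℝ
  | 0 => LinearMap.proj 0 ∘ₗ (LipS E).subtype
  | k + 1 => pk x k ∘ₗ avg (x k)

def Bd (x : ℕ → E) (k : ℕ) (f : LipS E) (c : ℝ) : Prop :=
  ∀ t : ℕ → ℝ, (∀ i, t i ∈ Set.Icc (0 : ℝ) 2) → |f.1 (∑ i ∈ range k, t i • x i)| ≤ c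

variable {x : ℕ → E} {k : ℕ} {f : LipS E} {c : ℝ}

lemma Bd.step (h : Bd x (k + 1) f c) {t : ℕ → ℝ} (ht : ∀ i, t i ∈ Set.Icc (0 : ℝ) 2) (s : ℝ)
    (hs : s ∈ Set.Icc (0 : ℝ) 2) : |f.1 (∑ i ∈ range k, t i • x i + s • x k)| ≤ c := by
  have := h (Function.update t k s) fun i => by
    by_cases hi : i = k <;> simp [hi, ht, hs, -Set.mem_Icc]
  rwa [sum_range_succ, Function.update_self, sum_congr rfl fun i hi => by
    rw [Function.update_of_ne (mem_range.1 hi).ne]] at this

lemma Bd.avg (h : Bd x (k + 1) f c) : Bd x k (avg (x k) f) c := fun _ ht => i01 (h.step ht)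

lemma Bd.le (h : Bd x k f c) : |pk x k f| ≤ c := by
  induction k generalizing f with
  | zero => simpa using! h 0 (by simp)
  | succ k ih => exact ih h.avg

lemma Bd.diff (h : Bd x k f c) {n : ℕ} (hn : n < k) {s : ℝ} (s0 : 0 ≤ s) (s1 : s ≤ 1) :
    |pk x k (tr (s • x n) f - f)| ≤ 2 * s * c := by
  induction k generalizing f with
  | zero => omega
  | succ k ih =>
    rcases Nat.lt_succ_iff_lt_or_eq.1 hn with a | rfl
    · have := ih h.avg a
      rwa [← avg_tr, ← map_sub] at this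
    · exact Bd.le (k := n) fun t ht => avg_diff _ _ _ s0 s1 (h.step ht)

lemma pk_const (h : ∀ z, f.1 z = c) : pk x k f = c := by
  induction k generalizing f with
  | zero => exact h 0
  | succ k ih => exact ih fun z => by simp [avg, h]

theorem lin [CompleteSpace E] (u : ℕ → E) (hu : DenseRange u) :
    ∃ (H : Set E) (Λ : LipS E →ₗ[ℝ] E →L[ℝ] ℝ), IsCompact H ∧ H.Nonempty ∧
      (∀ f L y, Lip L f.1 → |Λ f y| ≤ L * ‖y‖) ∧
      (∀ n, ∃ C > (0 : ℝ), ∀ f c, (∀ z ∈ H, |f.1 z| ≤ c) → |Λ f (u n)| ≤ C * c) ∧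
      ∀ f (ψ : E →L[ℝ] ℝ), f.1 = ⇑ψ → Λ f = ψ := by
  obtain ⟨x, s, s0, x1, x2⟩ : ∃ (x : ℕ → E) (s : ℕ → ℝ), (∀ n, 0 < s n) ∧
      (∀ n, ‖x n‖ ≤ (1 / 2) ^ n) ∧ ∀ n, u n = s n • x n :=
    ⟨fun n => ((1 / 2) ^ n / (‖u n‖ + 1)) • u n, fun n => ((1 / 2) ^ n / (‖u n‖ + 1))⁻¹,
      fun n => by positivity, fun n => by
        rw [norm_smul, Real.norm_of_nonneg (by positivity), div_mul_eq_mul_div,
          div_le_iff₀ (by positivity)]
        exact mul_le_mul_of_nonneg_left (by linarith) (by positivity),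
      fun n => (inv_smul_smul₀ (by positivity) _).symm⟩
  have b : ∀ (f : LipS E) L y y' (k : ℕ), Lip L f.1 → |k * pk x k (tr ((k : ℝ)⁻¹ • y) f - f) -
      k * pk x k (tr ((k : ℝ)⁻¹ • y') f - f)| ≤ L * ‖y - y'‖ := fun f L y y' k h => by
    rcases k.eq_zero_or_pos with rfl | k0
    · simpa [dist_eq_norm] using (abs_nonneg _).trans (h.abs y y')
    have k1 : (0 : ℝ) < k := Nat.cast_pos.2 k0
    rw [← mul_sub, ← map_sub, sub_sub_sub_cancel_right, abs_mul, abs_of_pos k1, ← le_div_iff₀' k1]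
    refine Bd.le fun t _ => (h.abs _ _).trans_eq ?_
    rw [dist_add_left, dist_eq_norm, ← smul_sub, norm_smul, Real.norm_of_nonneg (by positivity)]
    ring
  have t0 : ∀ f : LipS E, tr 0 f = f := fun f => Subtype.ext (funext fun z => by simp [tr])
  have hΛ : ∀ (f : LipS E) y, ∃ c, Tendsto (fun k : ℕ => k * pk x k (tr ((k : ℝ)⁻¹ • y) f - f))
      (hyperfilter ℕ) (𝓝 c) := fun f y => by
    obtain ⟨L, -, h⟩ := f.2
    exact ulim (B := L * ‖y‖) (.of_forall fun k => by simpa [t0] using b f L y 0 k h)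
  choose Λ hΛ using hΛ
  have l0 : ∀ f, Λ f 0 = 0 := fun f => tendsto_nhds_unique (hΛ f 0) (by simp [t0])
  have l1 : ∀ f L y y', Lip L f.1 → |Λ f y - Λ f y'| ≤ L * ‖y - y'‖ := fun f L y y' h =>
    le_of_tendsto' ((hΛ f y).sub (hΛ f y')).abs fun k => b f L y y' k h
  have l2 : ∀ f, Continuous (Λ f) := fun f => by
    obtain ⟨L, -, h⟩ := f.2
    exact (LipschitzWith.of_dist_le' (K := L) fun y y' => by
      simpa [dist_eq_norm] using l1 f L y y' h).continuous
  have d : ∀ n, ∀ᶠ k : ℕ in hyperfilter ℕ, ∀ f c, Bd x k f c →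
      |k * pk x k (tr ((k : ℝ)⁻¹ • u n) f - f)| ≤ 2 * s n * c := fun n => by
    refine Eventually.filter_mono (hyperfilter_le_cofinite.trans Nat.cofinite_eq_atTop.le) ?_
    filter_upwards [eventually_gt_atTop n, tendsto_natCast_atTop_atTop.eventually_ge_atTop (s n)]
      with k k0 k2 f c h
    have k1 : (0 : ℝ) < k := (s0 n).trans_le k2
    rw [abs_mul, abs_of_pos k1, ← le_div_iff₀' k1, x2, smul_smul]
    refine (h.diff k0 (mul_pos (inv_pos.2 k1) (s0 n)).le
      ((inv_mul_le_one₀ k1).2 k2)).trans_eq (by ring)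
  have l3 : ∀ f y y', Λ f (y + y') = Λ f y + Λ f y' := fun f y y' => by
    refine hu.induction_on y' (isClosed_eq ((l2 f).comp (by fun_prop))
      (continuous_const.add (l2 f))) fun n => ?_
    obtain ⟨L, -, h⟩ := f.2
    have z : Tendsto (fun k : ℕ => 2 * s n * (L * ‖(k : ℝ)⁻¹ • y‖)) (hyperfilter ℕ) (𝓝 0) := by
      simpa using ((((tendsto_inv_atTop_nhds_zero_nat (𝕜 := ℝ)).smul_const y).norm.const_mul
        L).const_mul (2 * s n)).mono_left (hyperfilter_le_cofinite.trans Nat.cofinite_eq_atTop.le)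
    have := le_of_tendsto_of_tendsto (((hΛ f (y + u n)).sub (hΛ f y)).sub (hΛ f (u n))).abs z
      ((d n).mono fun k hk => le_trans (le_of_eq ?_) (hk (tr ((k : ℝ)⁻¹ • y) f - f) _ fun t _ =>
        (h.abs _ _).trans_eq (by simp)))
    · linarith [abs_le.1 this]
    · have : tr ((k : ℝ)⁻¹ • (y + u n)) f = tr ((k : ℝ)⁻¹ • u n) (tr ((k : ℝ)⁻¹ • y) f) :=
        Subtype.ext (funext fun z => by simp [tr, add_comm, add_left_comm])
      simp only [this, map_sub]
      congr 1
      ring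
  refine ⟨(fun t : ℕ → ℝ => ∑' i, t i • x i) '' Set.univ.pi fun _ => Set.Icc 0 2,
    ⟨⟨fun f => (AddMonoidHom.mk' (Λ f) (l3 f)).toRealLinearMap (l2 f), fun f g => ?_⟩,
      fun c f => ?_⟩, (isCompact_univ_pi fun _ => isCompact_Icc).image_of_continuousOn
      (continuousOn_tsum (fun i => by fun_prop) (summable_geometric_two.mul_left 2)
        fun i t ht => ?_), ⟨_, 0, fun _ _ => by simp, rfl⟩, fun f L y h => by simpa [l0] using l1 f L y 0 h,
    fun n => ⟨2 * s n, by have := s0 n; positivity, fun f c h => le_of_tendsto (hΛ f (u n)).abs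
      ((d n).mono fun k hk => hk f c fun t ht => h _ ⟨fun i => if i < k then t i else 0,
        fun i _ => by by_cases a : i < k <;> simp [a, (ht i).1, (ht i).2], ?_⟩)⟩, fun f ψ h => ?_⟩
  · ext y
    exact tendsto_nhds_unique (hΛ (f + g) y) (((hΛ f y).add (hΛ g y)).congr fun k => by
      simp only [map_add, map_sub]; ring)
  · ext y
    exact tendsto_nhds_unique (hΛ (c • f) y) (((hΛ f y).const_mul c).congr fun k => by
      simp only [map_smul, map_sub, smul_eq_mul]; ring)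
  · rw [norm_smul, Real.norm_of_nonneg (ht i trivial).1]
    exact mul_le_mul (ht i trivial).2 (x1 i) (norm_nonneg _) zero_le_two
  · exact (tsum_eq_sum (s := range k) fun i hi => by simp [mem_range.not.1 hi]).trans
      (sum_congr rfl fun i hi => by simp [mem_range.1 hi])
  · ext y
    refine tendsto_nhds_unique (hΛ f y) (tendsto_const_nhds.congr' (Eventually.filter_mono
      (hyperfilter_le_cofinite.trans Nat.cofinite_eq_atTop.le) ?_))
    filter_upwards [eventually_ne_atTop 0] with k hk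
    rw [pk_const (c := (k : ℝ)⁻¹ * ψ y) fun z => by simp [tr, h]]
    field_simp

end Pool.Agent.H88.Ap
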