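import Mathlib
import Pool.Agent.H88.Fp1

/-! The intersection property. -/

namespace Pool.Agent.H88.Fp

open Pool.Agent.H88.Pex Filter Topology Submodule Metric

variable {M : Type} [MetricSpace M]

def Lp (L : ℝ) (f : M → ℝ) : Prop := ∀ x y, |f x - f y| ≤ L * dist x y

lemma Lp.mono {L L' : ℝ} {f : M → ℝ} (h : Lp L f) (hL : L ≤ L') : Lp L' f :=
  fun x y => (h x y).trans (mul_le_mul_of_nonneg_right hL dist_nonneg)

lemma lp_inf (K : Set M) : Lp 1 fun x => infDist x K := fun x y => by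
  simpa [Real.dist_eq] using (lipschitz_infDist_pt K).dist_le_mul x y

def tc (t s : ℝ) : ℝ := max (min t s) (-s)

lemma tc_abs {s : ℝ} (hs : 0 ≤ s) (t : ℝ) : |tc t s| ≤ s :=
  abs_le.2 ⟨le_max_right _ _, max_le (min_le_right _ _) (by linarith)⟩

lemma tc_sub {s : ℝ} (hs : 0 ≤ s) (t : ℝ) : |t - tc t s| ≤ max (|t| - s) 0 := by
  unfold tc
  rcases le_total t s with h | h <;> rcases le_total t (-s) with h' | h' <;>
    rcases abs_cases t with h2 | h2 <;>
    simp only [abs_le, max_def, min_def] <;> split_ifs <;> constructor <;> linarith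

lemma Lp.tc {L : ℝ} {f φ : M → ℝ} (hL : 0 ≤ L) (h : Lp L f) (hφ : Lp 1 φ) :
    Lp L fun x => tc (f x) (L * φ x) := fun x y => by
  have : |L * φ x - L * φ y| ≤ L * dist x y := by
    rw [← mul_sub, abs_mul, abs_of_nonneg hL]
    exact mul_le_mul_of_nonneg_left (by simpa using hφ x y) hL
  refine (abs_max_sub_max_le_max _ _ _ _).trans (max_le ((abs_min_sub_min_le_max _ _ _ _).trans
    (max_le (h x y) this)) ?_)
  rwa [neg_sub_neg, abs_sub_comm]

theorem core [CompleteSpace M] {ι : Type} {K : ι → Set M} (hK : ∀ i, IsClosed (K i)) {o : M}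
    (ho : ∀ i, o ∈ K i) (J : (M → ℝ) → Prop) (zero : J 0)
    (add : ∀ f g L, 0 ≤ L → Lp L f → (∀ x ∈ ⋂ i, K i, f x = 0) → J f → J (g - f) → J g)
    (lim : ∀ (α : Type) (l : Filter α) [l.NeBot] (g : α → M → ℝ) f L, 0 ≤ L →
      (∀ i, Lp L (g i) ∧ (∀ x ∈ ⋂ i, K i, g i x = 0) ∧ J (g i)) →
      (∀ x, Tendsto (fun i => g i x) l (𝓝 (f x))) → J f)
    (base : ∀ i f, (∀ x ∈ K i, f x = 0) → J f) : J fun x => infDist x (⋂ i, K i) := by
  let S : Set (M → ℝ) := {φ | Lp 1 φ ∧ (∀ x, 0 ≤ φ x) ∧ (∀ x ∈ ⋂ i, K i, φ x = 0) ∧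
    ∀ f L, 0 ≤ L → Lp L f → (∀ x, |f x| ≤ L * φ x) → J f}
  have S0 : (0 : M → ℝ) ∈ S := ⟨fun x y => by simp, fun _ => le_rfl, fun _ _ => rfl,
    fun f L _ _ hf => by
      rwa [show f = 0 from funext fun x => by simpa using hf x]⟩
  have van : ∀ φ ∈ S, ∀ (f : M → ℝ) (L : ℝ), ∀ x ∈ ⋂ i, K i, tc (f x) (L * φ x) = 0 := by
    intro φ hφ f L x hx
    simp [hφ.2.2.1 x hx, tc]
  have Smax : ∀ φ ∈ S, ∀ ψ ∈ S, φ ⊔ ψ ∈ S := by
    intro φ hφ ψ hψ
    refine ⟨fun x y => (abs_max_sub_max_le_max _ _ _ _).trans (max_le (hφ.1 x y) (hψ.1 x y)),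
      fun x => le_max_of_le_left (hφ.2.1 x), fun x hx => by
        simp [hφ.2.2.1 x hx, hψ.2.2.1 x hx], fun f L hL h1 h2 => ?_⟩
    have h3 := h1.tc hL hφ.1
    refine add _ f L hL h3 (van φ hφ f L) (hφ.2.2.2 _ L hL h3 fun x =>
      tc_abs (mul_nonneg hL (hφ.2.1 x)) _) (hψ.2.2.2 _ (2 * L) (by positivity) (fun x y => ?_)
      fun x => (tc_sub (mul_nonneg hL (hφ.2.1 x)) _).trans ?_)
    · simp only [Pi.sub_apply]
      rw [sub_sub_sub_comm]
      exact (abs_sub _ _).trans (by linarith [h1 x y, h3 x y])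
    · have a1 := mul_nonneg hL (hφ.2.1 x)
      have a2 := mul_nonneg hL (hψ.2.1 x)
      have a3 := h2 x
      rw [Pi.sup_apply, mul_max_of_nonneg _ _ hL, le_max_iff] at a3
      refine max_le ?_ (by linarith)
      rcases a3 with a3 | a3 <;> linarith
  have : Nonempty S := ⟨⟨0, S0⟩⟩
  have : IsDirectedOrder S := ⟨fun a b => ⟨⟨_, Smax _ a.2 _ b.2⟩, (le_sup_left : a.1 ≤ _),
    (le_sup_right : b.1 ≤ _)⟩⟩
  have bd : ∀ x, BddAbove (Set.range fun φ : S => φ.1 x) := fun x => ⟨dist x o, by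
    rintro _ ⟨φ, rfl⟩
    have := φ.2.1 x o
    rw [φ.2.2.2.1 o (Set.mem_iInter.2 ho), sub_zero, one_mul] at this
    exact (le_abs_self _).trans this⟩
  let h : M → ℝ := fun x => ⨆ φ : S, φ.1 x
  have le_h : ∀ φ ∈ S, ∀ x, φ x ≤ h x := fun φ hφ x => le_ciSup (bd x) ⟨φ, hφ⟩
  have h0 : ∀ x, 0 ≤ h x := le_h 0 S0
  have h1 : ∀ x y, h x ≤ h y + dist x y := fun x y => ciSup_le fun φ => by
    linarith [le_h _ φ.2 y, φ.2.1 x y, le_abs_self (φ.1 x - φ.1 y)]
  have hS : h ∈ S := by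
    refine ⟨fun x y => abs_le.2 ⟨by linarith [h1 y x, dist_comm x y], by linarith [h1 x y]⟩, h0,
      fun x hx => le_antisymm (ciSup_le fun φ => (φ.2.2.2.1 x hx).le) (h0 x),
      fun f L hL h2 h3 => ?_⟩
    refine lim S atTop (fun φ x => tc (f x) (L * φ.1 x)) f L hL (fun φ => ⟨h2.tc hL φ.2.1,
      van _ φ.2 f L, φ.2.2.2.2 _ L hL (h2.tc hL φ.2.1) fun x =>
        tc_abs (mul_nonneg hL (φ.2.2.1 x)) _⟩) fun x => ?_
    have t := (tendsto_atTop_ciSup (f := fun φ : S => φ.1 x)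
      (fun a b hab => (show a.1 ≤ b.1 from hab) x) (bd x)).const_mul L
    have e : tc (f x) (L * h x) = f x := by
      have := abs_le.1 (h3 x)
      rw [tc, min_eq_left this.2, max_eq_left this.1]
    conv_rhs => rw [← e]
    exact (tendsto_const_nhds.min t).max t.neg
  have step : ∀ y, ∃ z, dist y z ≤ 3 / 2 * h y ∧ h z ≤ 1 / 4 * h y := by
    intro y
    by_contra hc
    push Not at hc
    have hy := hc y (by simpa using h0 y)
    have b : ∀ z, max 0 (3 / 2 * h y - dist y z) ≤ 6 * h z := fun z => by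
      refine max_le (by linarith [h0 z]) ?_
      by_cases hz : dist y z ≤ 3 / 2 * h y
      · linarith [hc z hz, dist_nonneg (x := y) (y := z)]
      · linarith [h0 z]
    have hψ : (fun z => max 0 (3 / 2 * h y - dist y z)) ∈ S := by
      refine ⟨fun a b => (abs_max_sub_max_le_max _ _ _ _).trans (max_le (by simp) ?_),
        fun _ => le_max_left _ _, fun x hx => le_antisymm ((b x).trans_eq (by
          rw [hS.2.2.1 x hx, mul_zero])) (le_max_left _ _), fun f L hL h2 h3 =>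
        hS.2.2.2 f (6 * L) (by positivity) (h2.mono (by linarith)) fun x => (h3 x).trans ?_⟩
      · rw [sub_sub_sub_cancel_left, abs_sub_comm, one_mul, dist_comm y, dist_comm y]
        exact abs_dist_sub_le _ _ _
      · nlinarith [mul_le_mul_of_nonneg_left (b x) hL]
    have := (le_max_right _ _).trans (le_h _ hψ y)
    rw [dist_self] at this
    linarith
  choose nx n1 n2 using step
  refine hS.2.2.2 _ 2 zero_le_two ((lp_inf _).mono one_le_two) fun x => ?_
  rw [abs_of_nonneg infDist_nonneg]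
  have u1 : ∀ k, h (nx^[k] x) ≤ h x * (1 / 4) ^ k := by
    intro k
    induction k with
    | zero => simp
    | succ k ih =>
      rw [Function.iterate_succ_apply', pow_succ]
      linarith [n2 (nx^[k] x)]
  have u2 : ∀ k, dist (nx^[k] x) (nx^[k + 1] x) ≤ 3 / 2 * h x * (1 / 4) ^ k := fun k => by
    rw [Function.iterate_succ_apply']
    linarith [n1 (nx^[k] x), u1 k]
  obtain ⟨z, hz⟩ := cauchySeq_tendsto_of_complete
    (cauchySeq_of_le_geometric _ _ (by norm_num) u2)
  have u3 := dist_le_of_le_geometric_of_tendsto₀ _ _ (by norm_num) u2 hz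
  have u4 : h z ≤ 0 := by
    have t1 := (tendsto_pow_atTop_nhds_zero_of_lt_one (show (0 : ℝ) ≤ 1 / 4 by norm_num)
      (by norm_num)).const_mul (h x)
    have t2 := t1.add (tendsto_iff_dist_tendsto_zero.1 hz)
    rw [mul_zero, add_zero] at t2
    exact ge_of_tendsto' t2 fun k => by linarith [h1 z (nx^[k] x), u1 k, dist_comm z (nx^[k] x)]
  have u5 : z ∈ ⋂ i, K i := Set.mem_iInter.2 fun i => by
    have hi : (fun x => infDist x (K i)) ∈ S := ⟨lp_inf _, fun _ => infDist_nonneg,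
      fun x hx => infDist_zero_of_mem (Set.mem_iInter.1 hx i), fun f L _ _ h3 =>
        base i f fun x hx => by simpa [infDist_zero_of_mem hx] using h3 x⟩
    exact ((hK i).mem_iff_infDist_zero ⟨o, ho i⟩).2
      (le_antisymm ((le_h _ hi z).trans u4) infDist_nonneg)
  refine (infDist_le_dist_of_mem u5).trans (u3.trans_eq ?_)
  ring

variable {𝕜 : Type} [RCLike 𝕜] {p : ℝ} {X : Type} {o : M} [NormedAddCommGroup X] [Module 𝕜 X]
  {δ : M → X}

lemma PS.quot (h : PS 𝕜 p X) (hp : 0 < p) (Z : Submodule 𝕜 X) [IsClosed (Z : Set X)] :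
    PS 𝕜 p (X ⧸ Z) := by
  have le : ∀ (c : 𝕜) (q : X ⧸ Z), c ≠ 0 → ‖c • q‖ ≤ ‖c‖ ^ p * ‖q‖ := by
    intro c q hc
    rw [← div_le_iff₀' (by positivity)]
    refine le_of_forall_pos_le_add fun ε hε => ?_
    obtain ⟨m, rfl, hm⟩ := Submodule.Quotient.norm_mk_lt q hε
    rw [div_le_iff₀' (by positivity), ← Submodule.Quotient.mk_smul]
    refine (Submodule.Quotient.norm_mk_le _ _).trans ((h c m).trans_le ?_)
    gcongr
  intro c q
  by_cases hc : c = 0
  · simp [hc, hp.ne']
  refine le_antisymm (le c q hc) ?_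
  have := le _ (c • q) (inv_ne_zero hc)
  rwa [inv_smul_smul₀ hc, norm_inv, Real.inv_rpow (norm_nonneg _),
    le_inv_mul_iff₀ (by positivity)] at this

theorem Fr.inter [CompleteSpace M] (h : Fr 𝕜 p o δ) {ι : Type} {K : ι → Set M}
    (hK : ∀ i, IsClosed (K i)) {μ : X} (hμ : ∀ i, μ ∈ closure (span 𝕜 (δ '' K i) : Set X)) :
    μ ∈ closure (span 𝕜 (δ '' ⋂ i, K i) : Set X) := by
  have := h.ps.cont
  have := h.complete
  have hp := h.p0
  let Z := (span 𝕜 (δ '' ⋂ i, K i)).topologicalClosure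
  have : IsClosed (Z : Set X) := isClosed_topologicalClosure _
  have hQ := h.ps.quot hp Z
  have := hQ.cont
  let K' := fun i => insert o (K i)
  have ho : o ∈ ⋂ i, K' i := Set.mem_iInter.2 fun i => Set.mem_insert _ _
  let d : M → ℝ := fun x => infDist x (⋂ i, K' i)
  let q : M → X ⧸ Z := fun x => Z.mkQ (δ x)
  have q0 : ∀ x ∈ ⋂ i, K' i, q x = 0 := by
    intro x hx
    by_cases hxo : x = o
    · simp [q, hxo, h.zero]
    · refine (Submodule.Quotient.mk_eq_zero _).2 (le_topologicalClosure _ (subset_span ⟨x,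
        Set.mem_iInter.2 fun i => (Set.mem_iInter.1 hx i).resolve_left hxo, rfl⟩))
  have q1 : ∀ x y, ‖q x - q y‖ ≤ dist x y ^ p := fun x y => by
    rw [← h.iso, ← map_sub]
    exact Submodule.Quotient.norm_mk_le _ _
  have q2 : ∀ x, ‖q x‖ ≤ d x ^ p := fun x => by
    rw [← Real.rpow_inv_le_iff_of_pos (norm_nonneg _) infDist_nonneg hp, le_infDist ⟨o, ho⟩]
    intro y hy
    rw [Real.rpow_inv_le_iff_of_pos (norm_nonneg _) dist_nonneg hp]
    simpa [q0 y hy] using q1 x y
  let w : (M → ℝ) → M → X ⧸ Z := fun f x => ((f x / d x : ℝ) : 𝕜) • q x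
  have hT : ∀ f L, 0 ≤ L → Lp L f → (∀ x ∈ ⋂ i, K' i, f x = 0) → ∃ T : X →ₗ[𝕜] X ⧸ Z,
      (∀ x, T (δ x) = w f x) ∧ ∀ m, ‖T m‖ ≤ (L ^ p + (2 * L) ^ p) * ‖m‖ := by
    intro f L hL h1 h2
    have d0 : ∀ x, 0 ≤ d x := fun _ => infDist_nonneg
    have a1 : ∀ x, |f x| ≤ L * d x := fun x => by
      refine le_of_forall_pos_le_add fun ε hε => ?_
      obtain ⟨y, hy, h3⟩ := (infDist_lt_iff ⟨o, ho⟩).1 (lt_add_of_pos_right (d x)
        (show 0 < ε / (L + 1) by positivity))
      have := h1 x y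
      rw [h2 y hy, sub_zero] at this
      have h4 : L * (ε / (L + 1)) ≤ ε := by
        rw [← mul_div_assoc, div_le_iff₀ (by positivity)]
        linarith
      nlinarith [mul_le_mul_of_nonneg_left h3.le hL]
    have a2 : ∀ x, |f x / d x| ≤ L := fun x => by
      rw [abs_div, abs_of_nonneg (d0 x)]
      exact div_le_of_le_mul₀ (d0 x) hL (a1 x)
    have a3 : ∀ x, f x / d x * d x = f x := fun x => by
      rcases (d0 x).eq_or_lt with h3 | h3
      · have := a1 x
        rw [← h3] at this ⊢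
        simpa [eq_comm] using this
      · exact div_mul_cancel₀ _ h3.ne'
    refine h.lift _ hQ _ _ (by simp [w, q0 o ho]) (by positivity) fun x y =>
      (hQ.wt _ _ _ _).trans ?_
    rw [← RCLike.ofReal_sub, RCLike.norm_ofReal, RCLike.norm_ofReal, add_mul]
    refine add_le_add (mul_le_mul (Real.rpow_le_rpow (abs_nonneg _) (a2 x) hp.le) (q1 x y)
      (norm_nonneg _) (by positivity)) ((mul_le_mul_of_nonneg_left (q2 y) (by positivity)).trans ?_)
    rw [← Real.mul_rpow (abs_nonneg _) (d0 y), ← Real.mul_rpow (by positivity) dist_nonneg]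
    refine Real.rpow_le_rpow (mul_nonneg (abs_nonneg _) (d0 y)) ?_ hp.le
    have e : (f x / d x - f y / d y) * d y = (f x - f y) - f x / d x * (d x - d y) := by
      rw [sub_mul, mul_sub, a3, a3]; ring
    rw [← abs_of_nonneg (d0 y), ← abs_mul, abs_of_nonneg (d0 y), e]
    refine (abs_sub _ _).trans ?_
    rw [abs_mul]
    have := mul_le_mul (a2 x) (lp_inf (⋂ i, K' i) x y) (abs_nonneg _) hL
    linarith [h1 x y]
  have key := core (K := K') (fun i => isClosed_singleton.union (hK i))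
    (fun i => Set.mem_insert _ _)
    (fun f => ∀ T : X →ₗ[𝕜] X ⧸ Z, Continuous T → (∀ x, T (δ x) = w f x) → T μ = 0)
    (fun T hc e => map_zero' hc (fun x _ => by simp [e, w]) (h.dense μ)) ?_ ?_ ?_ Z.mkQ
    (cont_of (C := 1) fun m => by simpa using Submodule.Quotient.norm_mk_le Z m) fun x => ?_
  · exact (Submodule.Quotient.mk_eq_zero _).1 key
  · intro f g L hL h1 h2 j1 j2 T hc e
    obtain ⟨S, s1, s2⟩ := hT f L hL h1 h2
    have := j2 (T - S) (hc.sub (cont_of s2)) fun x => by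
      simp [e, s1, w, sub_div, sub_smul]
    rwa [LinearMap.sub_apply, j1 S (cont_of s2) s1, sub_zero] at this
  · intro α l _ g f L hL hg hf T hc e
    choose S s1 s2 using fun i => hT (g i) L hL (hg i).1 (hg i).2.1
    have t : ∀ m ∈ span 𝕜 (δ '' Set.univ), Tendsto (fun i => S i m) l (𝓝 (T m)) := by
      intro m hm
      induction hm using span_induction with
      | mem x hx =>
        obtain ⟨x, -, rfl⟩ := hx
        simp only [s1, e, w]
        exact (((hQ.cont' hp _).comp RCLike.continuous_ofReal).tendsto _).comp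
          ((hf x).div_const _)
      | zero => simp
      | add x y _ _ hx hy => simpa using hx.add hy
      | smul a x _ hx => simpa using hx.const_smul a
    have hcl : IsClosed {m | ‖T m‖ ≤ (L ^ p + (2 * L) ^ p) * ‖m - μ‖} :=
      isClosed_le (by fun_prop) (by fun_prop)
    simpa using hcl.closure_subset_iff.2 (fun m hm => le_of_tendsto' (t m hm).norm fun i => by
      simpa [(hg i).2.2 (S i) (cont_of (s2 i)) (s1 i)] using s2 i (m - μ)) (h.dense μ)
  · intro i f hf T hc e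
    exact map_zero' hc (fun x hx => by simp [e, w, hf x (Set.mem_insert_of_mem _ hx)]) (hμ i)
  · by_cases hx : d x = 0
    · have := q2 x
      rw [hx, Real.zero_rpow hp.ne', norm_le_zero_iff] at this
      simp only [w, this, smul_zero]
      exact this
    · simp only [w]
      rw [div_self hx]
      simp [q]

end Pool.Agent.H88.Fp
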