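import Mathlib
import Pool.Agent.H88.Fp2

/-! Sets failing Kalton's property contain `ℓ_p`-sequences. -/

namespace Pool.Agent.H88.Fp

open Pool.Agent.H88.Pex Filter Topology Submodule Metric Finset

def Bd (μ : ℕ → ℕ → ℝ) (c : ℝ) : Prop := ∀ m (s : Finset ℕ), m ∉ s → ∑ n ∈ s, μ m n ≤ c

lemma rosen {η : ℝ} (hη : 0 ≤ η) (k : ℕ) : ∀ μ, Bd μ (k * η) →
    ∃ φ : ℕ → ℕ, φ.Injective ∧ Bd (fun a b => μ (φ a) (φ b)) η := by
  induction k with
  | zero => exact fun μ h => ⟨id, fun _ _ e => e, fun m s hm => (h m s hm).trans (by simpa)⟩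
  | succ k ih =>
    intro μ h
    have inj : ∀ i, (Nat.pair i).Injective := fun i a b e => (Nat.pair_eq_pair.1 e).2
    by_cases hc : ∃ i, Bd (fun a b => μ (Nat.pair i a) (Nat.pair i b)) η
    · obtain ⟨i, hi⟩ := hc
      exact ⟨_, inj i, hi⟩
    simp only [Bd, not_exists, not_forall, not_le] at hc
    choose a s h1 h2 using hc
    have hφ : (fun i => Nat.pair i (a i)).Injective := fun i j e => (Nat.pair_eq_pair.1 e).1
    obtain ⟨ψ, h3, h4⟩ := ih (fun i j => μ (Nat.pair i (a i)) (Nat.pair j (a j))) fun m t hm => by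
      have := h (Nat.pair m (a m)) (t.image (fun i => Nat.pair i (a i)) ∪ (s m).image (Nat.pair m))
        (by simp [hm, h1])
      rw [sum_union (by
        simp only [disjoint_left, mem_image, not_exists, not_and]
        rintro _ ⟨i, hi, rfl⟩ j _ e
        exact hm ((Nat.pair_eq_pair.1 e).1 ▸ hi)), sum_image hφ.injOn,
        sum_image (inj m).injOn] at this
      push_cast at this
      linarith [h2 m]
    exact ⟨_, hφ.comp h3, h4⟩

variable {𝕜 : Type} [RCLike 𝕜] {p : ℝ} {M X : Type} [MetricSpace M] {o : M}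
  [NormedAddCommGroup X] [Module 𝕜 X] {δ : M → X}

lemma Fr.wt (h : Fr 𝕜 p o δ) {D L : ℝ} (hD : ∀ x, dist x o ≤ D) (hL : 0 ≤ L) {g : M → ℝ}
    (g1 : ∀ x, |g x| ≤ 1) (g2 : Lp L g) (x y : M) :
    ‖(g x : 𝕜) • δ x - (g y : 𝕜) • δ y‖ ≤ (1 + (L * D) ^ p) * dist x y ^ p := by
  have hp := h.p0
  have D0 : 0 ≤ D := dist_nonneg.trans (hD o)
  refine (h.ps.wt _ _ _ _).trans ?_
  rw [← RCLike.ofReal_sub, RCLike.norm_ofReal, RCLike.norm_ofReal, add_mul, h.iso,
    ← sub_zero (δ y), ← h.zero, h.iso, ← Real.mul_rpow (abs_nonneg _) dist_nonneg,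
    ← Real.mul_rpow (abs_nonneg _) dist_nonneg, ← Real.mul_rpow (by positivity) dist_nonneg,
    one_mul]
  refine add_le_add (Real.rpow_le_rpow (by positivity) ?_ hp.le)
    (Real.rpow_le_rpow (by positivity) ?_ hp.le)
  · exact mul_le_of_le_one_left dist_nonneg (g1 x)
  · rw [mul_right_comm]
    exact mul_le_mul (g2 x y) (hD y) dist_nonneg (by positivity)

lemma Fr.weight (h : Fr 𝕜 p o δ) {D L : ℝ} (hD : ∀ x, dist x o ≤ D) (hL : 0 ≤ L) {g : M → ℝ}
    (g1 : ∀ x, |g x| ≤ 1) (g2 : Lp L g) : ∃ T : X →ₗ[𝕜] X, (∀ x, T (δ x) = (g x : 𝕜) • δ x) ∧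
      ∀ μ, ‖T μ‖ ≤ (1 + (L * D) ^ p) * ‖μ‖ := by
  have := h.complete
  have D0 : 0 ≤ D := dist_nonneg.trans (hD o)
  exact h.lift X h.ps _ _ (by simp [h.zero]) (by positivity) (h.wt hD hL g1 g2)

lemma Fr.wsum (h : Fr 𝕜 p o δ) {D L : ℝ} (hD : ∀ x, dist x o ≤ D) (hL : 0 ≤ L) {g : ℕ → M → ℝ}
    (g1 : ∀ n x, |g n x| ≤ 1) (g2 : ∀ n, Lp L (g n))
    (g3 : ∀ x n m, g n x ≠ 0 → g m x ≠ 0 → n = m) {T : ℕ → X →ₗ[𝕜] X}
    (hT : ∀ n, Continuous (T n)) (e : ∀ n x, T n (δ x) = (g n x : 𝕜) • δ x) (s : Finset ℕ)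
    (μ : X) : ∑ n ∈ s, ‖T n μ‖ ≤ 2 * (1 + (L * D) ^ p) * ‖μ‖ := by
  have := h.complete
  have D0 : 0 ≤ D := dist_nonneg.trans (hD o)
  have hY : PS 𝕜 p (PiLp 1 fun _ : s => X) := fun c y => by
    simp only [PiLp.norm_eq_of_L1, PiLp.smul_apply, h.ps _ _, mul_sum]
  obtain ⟨G, G1, G2⟩ := h.lift _ hY (fun x => WithLp.toLp 1 fun n : s => (g n x : 𝕜) • δ x)
    (2 * (1 + (L * D) ^ p)) (by ext; simp [h.zero]) (by positivity) fun x y => by
      simp only [PiLp.norm_eq_of_L1, PiLp.sub_apply]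
      rw [sum_coe_sort s fun n => ‖(g n x : 𝕜) • δ x - (g n y : 𝕜) • δ y‖,
        ← sum_subset (s₁ := s.filter (g · x ≠ 0) ∪ s.filter (g · y ≠ 0))
          (union_subset (filter_subset _ _) (filter_subset _ _)) (fun n hn hn' => by
            simp only [mem_union, mem_filter, hn, true_and, not_or, not_not] at hn'
            simp [hn'.1, hn'.2])]
      refine (sum_le_card_nsmul _ _ _ fun n _ => h.wt hD hL (g1 n) (g2 n) x y).trans ?_
      have c : ∀ x, (s.filter (g · x ≠ 0)).card ≤ 1 := fun x => card_le_one.2 fun a ha b hb =>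
        g3 x a b (mem_filter.1 ha).2 (mem_filter.1 hb).2
      have c2 : ((s.filter (g · x ≠ 0) ∪ s.filter (g · y ≠ 0)).card : ℝ) ≤ 2 := by
        exact_mod_cast (card_union_le _ _).trans (add_le_add (c x) (c y))
      rw [nsmul_eq_mul, mul_assoc]
      gcongr
  refine le_trans (le_of_eq ?_) (G2 μ)
  rw [PiLp.norm_eq_of_L1, ← sum_coe_sort s]
  refine sum_congr rfl fun n _ => congrArg _ (h.ext (hT n) (S := (PiLp.projₗ 1 _ n).comp G)
    ?_ (fun x => by simp [e, G1]) μ)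
  exact (PiLp.continuous_apply 1 _ n).comp (cont_of G2)

theorem Fr.kalton (h : Fr 𝕜 p o δ) {D : ℝ} (hD : ∀ x, dist x o ≤ D) {W : Set X} {ε r : ℝ}
    (hε : 0 < ε) (hr : 0 < r) {R : ℝ} (hR : ∀ w ∈ W, ‖w‖ ≤ R)
    (hW : ∀ E : Finset M, ∃ w ∈ W, ∀ v ∈ span 𝕜 (δ '' {x | ∃ y ∈ E, dist x y ≤ r}),
      ε < ‖w - v‖) : ∃ x : ℕ → X, (∀ n, x n ∈ W) ∧ ∃ c > 0, ∀ (s : Finset ℕ) (a : ℕ → 𝕜),
        c * ∑ n ∈ s, ‖a n‖ ^ p ≤ ‖∑ n ∈ s, a n • x n‖ := by
  classical
  have D0 : 0 ≤ D := dist_nonneg.trans (hD o)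
  set C := 1 + (2 / r * D) ^ p with hC
  have C0 : 0 < C := by positivity
  choose w w1 w2 using hW
  have hu : ∀ E : Finset M, ∃ F : Finset M, ∃ u ∈ span 𝕜 (δ '' F),
      ‖w E - u‖ < ε / 2 / (1 + C) := by
    intro E
    obtain ⟨u, h1, h2⟩ := Metric.mem_closure_iff.1 (h.dense (w E)) _
      (show 0 < ε / 2 / (1 + C) by positivity)
    obtain ⟨t, h3, h4⟩ := mem_span_finite_of_mem_span h1
    obtain ⟨F, -, h5⟩ := subset_set_image_iff.1 h3
    exact ⟨F, u, by rwa [← coe_image, h5], by rwa [← dist_eq_norm]⟩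
  choose F u u1 u2 using hu
  obtain ⟨E, E0, E1⟩ : ∃ E : ℕ → Finset M, E 0 = {o} ∧ ∀ n, E (n + 1) = E n ∪ F (E n) :=
    ⟨fun n => Nat.rec {o} (fun _ E => E ∪ F E) n, rfl, fun _ => rfl⟩
  have E2 : Monotone E := monotone_nat_of_le_succ fun n => by rw [E1]; exact subset_union_left
  have E3 : ∀ n : ℕ, Set.Nonempty (SetLike.coe (E n)) := fun n =>
    ⟨o, E2 (Nat.zero_le n) (by simp [E0])⟩
  let α : ℕ → M → ℝ := fun n x => 2 / r * infDist x (E n)
  have α0 : ∀ n x, 0 ≤ α n x := fun n x => mul_nonneg (by positivity) infDist_nonneg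
  have α1 : ∀ n, Lp (2 / r) (α n) := fun n x y => by
    rw [← mul_sub, abs_mul, abs_of_pos (by positivity)]
    exact mul_le_mul_of_nonneg_left (by simpa using lp_inf (E n) x y) (by positivity)
  let g : ℕ → M → ℝ := fun n x => max 0 (min (α n x - 1) (1 - α (n + 1) x))
  have g1 : ∀ n x, |g n x| ≤ 1 := fun n x => by
    rw [abs_of_nonneg (le_max_left _ _)]
    exact max_le zero_le_one ((min_le_right _ _).trans (by linarith [α0 (n + 1) x]))
  have g2 : ∀ n, Lp (2 / r) (g n) := fun n x y => by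
    refine (abs_max_sub_max_le_max _ _ _ _).trans (max_le (by simp; positivity)
      ((abs_min_sub_min_le_max _ _ _ _).trans (max_le ?_ ?_)))
    · rw [sub_sub_sub_cancel_right]; exact α1 n x y
    · rw [sub_sub_sub_cancel_left, abs_sub_comm]; exact α1 _ x y
  have g4 : ∀ x n m, g n x ≠ 0 → g m x ≠ 0 → m ≤ n := by
    intro x n m hn hm
    by_contra hc
    have a1 := lt_min_iff.1 (not_le.1 fun e => hn (max_eq_left e))
    have a2 := lt_min_iff.1 (not_le.1 fun e => hm (max_eq_left e))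
    have : α m x ≤ α (n + 1) x := mul_le_mul_of_nonneg_left (infDist_le_infDist_of_subset
      (E2 (by omega)) (E3 _)) (by positivity)
    linarith [a1.2, a2.1]
  choose T T1 T2 using fun n => h.weight hD (by positivity) (g1 n) (g2 n)
  have big : ∀ n, ε / 2 ≤ ‖T n (w (E n))‖ := by
    intro n
    have hv : span 𝕜 (δ '' F (E n)) ≤ (span 𝕜 (δ '' {x | ∃ y ∈ E n, dist x y ≤ r})).comap
        (LinearMap.id - T n : X →ₗ[𝕜] X) := span_le.2 (by
      rintro _ ⟨x, hx, rfl⟩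
      change δ x - T n (δ x) ∈ span 𝕜 (δ '' {x | ∃ y ∈ E n, dist x y ≤ r})
      rw [T1]
      by_cases hc : ∃ y ∈ E n, dist x y ≤ r
      · exact sub_mem (subset_span ⟨x, hc, rfl⟩) (smul_mem _ _ (subset_span ⟨x, hc, rfl⟩))
      · push Not at hc
        have b1 : α (n + 1) x = 0 := by
          simp only [α]
          rw [infDist_zero_of_mem (by rw [E1]; exact mem_union_right _ hx), mul_zero]
        have b2 : 2 / r * r ≤ α n x := mul_le_mul_of_nonneg_left ((le_infDist (E3 n)).2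
          fun y hy => (hc y hy).le) (by positivity)
        rw [div_mul_cancel₀ _ hr.ne'] at b2
        have : g n x = 1 := by
          simp only [g, b1, sub_zero]
          rw [min_eq_right (by linarith), max_eq_right zero_le_one]
        simp [this])
    have b1 := w2 _ _ (hv (u1 (E n)))
    have b2 : w (E n) - (LinearMap.id - T n : X →ₗ[𝕜] X) (u (E n)) =
        (w (E n) - u (E n)) + T n (w (E n)) - T n (w (E n) - u (E n)) := by
      simp only [LinearMap.sub_apply, LinearMap.id_apply, map_sub]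
      abel
    rw [b2] at b1
    have b3 := b1.trans_le ((norm_sub_le _ _).trans (add_le_add (norm_add_le _ _) (T2 n _)))
    have b4 := u2 (E n)
    rw [lt_div_iff₀ (by positivity)] at b4
    linarith
  have sm := fun (φ : ℕ → ℕ) (hφ : φ.Injective) => h.wsum hD (by positivity) (fun n => g1 (φ n))
    (fun n => g2 (φ n)) (fun x n m a b => hφ (le_antisymm (g4 x _ _ b a) (g4 x _ _ a b)))
    (fun n => cont_of (T2 (φ n))) fun n => T1 (φ n)
  obtain ⟨k, hk⟩ := exists_nat_ge (2 * C * R / (ε / 4))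
  obtain ⟨φ, hφ, hb⟩ := rosen (show 0 ≤ ε / 4 by positivity) k (fun m n => ‖T n (w (E m))‖)
    fun m s _ => (sm id (fun _ _ e => e) s _).trans
      ((mul_le_mul_of_nonneg_left (hR _ (w1 _)) (by positivity)).trans
        ((div_le_iff₀ (by positivity)).1 hk))
  refine ⟨fun n => w (E (φ n)), fun n => w1 _, ε / 4 / (2 * C), by positivity, fun s a => ?_⟩
  rw [div_mul_eq_mul_div, div_le_iff₀' (by positivity)]
  refine le_trans ?_ (sm φ hφ s _)
  have c1 : ∀ j ∈ s, ‖a j‖ ^ p * (ε / 2) - ∑ i ∈ s, (if i = j then 0 else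
      ‖a i‖ ^ p * ‖T (φ j) (w (E (φ i)))‖) ≤ ‖T (φ j) (∑ n ∈ s, a n • w (E (φ n)))‖ := by
    intro j hj
    rw [map_sum, ← add_sum_erase _ _ hj, ← add_sum_erase _ _ hj, if_pos rfl, zero_add]
    refine le_trans (sub_le_sub ?_ ((norm_sum_le _ _).trans (le_of_eq ?_)))
      (norm_sub_le_norm_add (T (φ j) (a j • w (E (φ j))))
        (∑ x ∈ s.erase j, T (φ j) (a x • w (E (φ x)))))
    · rw [map_smul, h.ps]
      exact mul_le_mul_of_nonneg_left (big _) (by positivity)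
    · exact sum_congr rfl fun i hi => by rw [if_neg (ne_of_mem_erase hi), map_smul, h.ps]
  refine le_trans ?_ (sum_le_sum c1)
  rw [sum_sub_distrib, sum_comm, ← sum_sub_distrib, mul_sum]
  refine sum_le_sum fun i hi => ?_
  have c2 := mul_le_mul_of_nonneg_left (hb i (s.erase i) (notMem_erase i s))
    (show 0 ≤ ‖a i‖ ^ p by positivity)
  rw [← add_sum_erase _ _ hi, if_pos rfl, zero_add, sum_congr rfl fun j hj =>
    if_neg (ne_of_mem_erase hj).symm, ← mul_sum]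
  linarith

end Pool.Agent.H88.Fp
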