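import Mathlib
import Pool.Agent.H88.Fp3

/-! Complete discrete spaces, and the statements for the `p`-norm itself. -/

namespace Pool.Agent.H88.Fp

open Pool.Agent.H88.Pex Filter Topology Submodule Metric Finset

variable {𝕜 : Type} [RCLike 𝕜] {p : ℝ} {M X : Type} [MetricSpace M] {o : M}
  [NormedAddCommGroup X] [Module 𝕜 X] {δ : M → X} {ν : X → ℝ}

lemma fin_supp [CompleteSpace M] [DiscreteTopology M] {C : ℕ → Set M} (hC : Antitone C)
    (h : ∀ ε > 0, ∃ n, ∃ E : Finset M, ∀ x ∈ C n, ∃ y ∈ E, dist x y < ε) : ∃ n, (C n).Finite := by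
  by_contra hc
  push Not at hc
  have : (⨅ n, cofinite ⊓ 𝓟 (C n)).NeBot := iInf_neBot_of_directed'
    (Antitone.directed_ge fun a b hab => inf_le_inf_left _ (principal_mono.2 (hC hab)))
    fun n => cofinite_inf_principal_neBot_iff.2 (hc n)
  let U := Ultrafilter.of (⨅ n, cofinite ⊓ 𝓟 (C n))
  have hU : ∀ n, (U : Filter M) ≤ cofinite ⊓ 𝓟 (C n) := fun n =>
    (Ultrafilter.of_le _).trans (iInf_le _ n)
  obtain ⟨x, hx⟩ := CompleteSpace.complete (f := (U : Filter M))
      (Metric.cauchy_iff.2 ⟨U.neBot, fun ε hε => by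
    obtain ⟨n, E, hE⟩ := h (ε / 2) (by positivity)
    obtain ⟨y, -, hy⟩ := (Ultrafilter.finite_biUnion_mem_iff (f := U) (s := fun y => ball y (ε / 2))
      E.finite_toSet).1 (mem_of_superset (le_principal_iff.1 ((hU n).trans inf_le_right))
        fun x hx => by simpa using hE x hx)
    exact ⟨ball y (ε / 2), hy, fun a ha b hb => by
      linarith [dist_triangle_right a b y, mem_ball.1 ha, mem_ball.1 hb]⟩⟩)
  rw [nhds_discrete, le_pure_iff] at hx
  exact Ultrafilter.compl_notMem_iff.2 hx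
    ((hU 0).trans inf_le_left (Set.finite_singleton x).compl_mem_cofinite)

lemma Fr.compact [DiscreteTopology M] (h : Fr 𝕜 p o δ) {T : X →ₗ[𝕜] X} (hT : Continuous T)
    {g : M → ℝ} (e : ∀ x, T (δ x) = (g x : 𝕜) • δ x) (hg : {x | g x ≠ 0}.Finite) (R : ℝ) :
    ∃ K, IsCompact K ∧ ∀ w, ‖w‖ ≤ R → T w ∈ K := by
  classical
  have hp := h.p0
  have hc : ∀ y, ∃ (c : X →ₗ[𝕜] 𝕜) (L : ℝ), 0 ≤ L ∧
      (∀ x, c (δ x) = if x = y ∧ y ≠ o then (g y : 𝕜) else 0) ∧ ∀ μ, ‖c μ‖ ≤ L * ‖μ‖ ^ p⁻¹ := by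
    intro y
    obtain ⟨ρ, h0, h1⟩ := Metric.isOpen_iff.1 (isOpen_discrete {y}) y rfl
    have h2 : ∀ x, x ≠ y → ‖(g y : 𝕜)‖ ≤ ‖(g y : 𝕜)‖ / ρ * dist x y := fun x hx => by
      rw [div_mul_eq_mul_div, le_div_iff₀ h0]
      exact mul_le_mul_of_nonneg_left (not_lt.1 fun e => hx (h1 e)) (norm_nonneg _)
    obtain ⟨c, c1, c2⟩ := h.func (fun x => if x = y ∧ y ≠ o then (g y : 𝕜) else 0)
      (‖(g y : 𝕜)‖ / ρ) (if_neg fun e => e.2 e.1.symm) (by positivity) fun a b => by
        split_ifs with ha hb hb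
        · simp only [sub_self, norm_zero]; positivity
        · rw [sub_zero, ha.1, dist_comm]
          exact h2 b fun e => hb ⟨e, ha.2⟩
        · rw [zero_sub, norm_neg, hb.1]
          exact h2 a fun e => ha ⟨e, hb.2⟩
        · simp only [sub_self, norm_zero]; positivity
    exact ⟨c, _, by positivity, c1, c2⟩
  choose c L L0 c1 c2 using hc
  have cc : ∀ y, Continuous (c y) := fun y => continuous_of_continuousAt_zero (c y) (by
    rw [ContinuousAt, map_zero]
    refine squeeze_zero_norm (c2 y) ?_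
    have : Continuous fun μ : X => L y * ‖μ‖ ^ p⁻¹ := by
      have := Real.continuous_rpow_const (inv_nonneg.2 hp.le)
      fun_prop
    simpa [hp.ne'] using this.tendsto 0)
  let Φ : (M → 𝕜) → X := fun a => ∑ y ∈ hg.toFinset, a y • δ y
  have hΦ : Continuous Φ :=
    continuous_finsetSum _ fun y _ => (h.ps.cont' hp _).comp (continuous_apply y)
  refine ⟨_, (isCompact_univ_pi fun y => isCompact_closedBall (0 : 𝕜) (L y * R ^ p⁻¹)).image hΦ,
    fun w hw => ⟨fun y => c y w, fun y _ => mem_closedBall_zero_iff.2 ((c2 y w).trans ?_), ?_⟩⟩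
  · have := L0 y
    gcongr
  · have := h.ext (S := ∑ y ∈ hg.toFinset, (c y).smulRight (δ y)) hT (by
      simp only [LinearMap.coe_sum, Finset.sum_fn]
      exact hΦ.comp (continuous_pi cc)) (fun x => by
      simp only [e, LinearMap.sum_apply, LinearMap.smulRight_apply, c1]
      rw [sum_eq_single x (fun y _ hy => by simp [hy.symm]) (fun hx => by
        simp [show g x = 0 by simpa using hx])]
      by_cases hx : x = o <;> simp [hx, h.zero]) w
    simp [this, Φ]

theorem Fr.discrete [CompleteSpace M] [DiscreteTopology M] (h : Fr 𝕜 p o δ) {D : ℝ}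
    (hD : ∀ x, dist x o ≤ D) {A : Set X} (hA : A.Infinite) {R ε : ℝ} (hR : ∀ w ∈ A, ‖w‖ ≤ R)
    (hε : 0 < ε) (hK : ∀ ε > 0, ∀ r > 0, ∃ E : Finset M, ∀ w ∈ A,
      ∃ v ∈ closure (span 𝕜 (δ '' {x | ∃ y ∈ E, dist x y ≤ r}) : Set X), ‖w - v‖ ≤ ε) :
    ∃ x ∈ A, ∃ y ∈ A, x ≠ y ∧ ‖x - y‖ < 4 * ε := by
  classical
  have D0 : 0 ≤ D := dist_nonneg.trans (hD o)
  let C : ℕ → ℝ := fun k => 1 + (k * D) ^ p
  have C0 : ∀ k, 0 < C k := fun k => by positivity
  choose E hE using fun k : ℕ => hK (ε / 2 ^ (k + 1) / (C k + C (k + 1)))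
    (div_pos (by positivity) (add_pos (C0 _) (C0 _))) (1 / (k + 1)) (by positivity)
  let α : ℕ → M → ℝ := fun k x => infDist x (insert o (E k : Set M))
  obtain ⟨P, P0, P1⟩ : ∃ P : ℕ → M → ℝ, P 0 = 1 ∧
      ∀ k x, P (k + 1) x = min (P k x) (max 0 (2 - (k + 1) * α k x)) :=
    ⟨fun n => Nat.rec 1 (fun k P x => min (P x) (max 0 (2 - (k + 1) * α k x))) n, rfl,
      fun _ _ => rfl⟩
  have P2 : ∀ k x, 0 ≤ P k x ∧ P k x ≤ 1 := by
    intro k x
    induction k with
    | zero => simp [P0]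
    | succ k ih => rw [P1]; exact ⟨le_min ih.1 (le_max_left _ _), (min_le_left _ _).trans ih.2⟩
  have P3 : ∀ k : ℕ, Lp k (P k) := by
    intro k
    induction k with
    | zero => intro x y; simp [P0]
    | succ k ih =>
      intro x y
      rw [P1, P1]
      refine (abs_min_sub_min_le_max _ _ _ _).trans (max_le (ih.mono (by simp) x y)
        ((abs_max_sub_max_le_max _ _ _ _).trans (max_le (by simp; positivity) ?_)))
      rw [sub_sub_sub_cancel_left, ← mul_sub, abs_mul, abs_sub_comm, abs_of_pos (by positivity)]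
      push_cast
      exact mul_le_mul_of_nonneg_left (by simpa using lp_inf _ x y) (by positivity)
  choose T T1 T2 using fun k => h.weight hD (Nat.cast_nonneg k)
    (fun x => (abs_of_nonneg (P2 k x).1).trans_le (P2 k x).2) (P3 k)
  have hT : ∀ n, ∀ w ∈ A, ‖w - T n w‖ ≤ ε - ε / 2 ^ n := by
    intro n w hw
    induction n with
    | zero =>
      rw [h.ext (cont_of (T2 0)) (S := LinearMap.id) continuous_id (fun x => by simp [T1, P0]) w]
      simp
    | succ k ih =>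
      obtain ⟨v, hv, h1⟩ := hE k w hw
      have h2 : (T k - T (k + 1)) v = 0 := map_zero' ((cont_of (T2 _)).sub (cont_of (T2 _)))
        (fun x hx => by
          obtain ⟨y, hy, hx⟩ := hx
          have a1 : α k x ≤ 1 / (k + 1) :=
            (infDist_le_dist_of_mem (Set.mem_insert_of_mem _ hy)).trans hx
          rw [le_div_iff₀' (by positivity)] at a1
          rw [LinearMap.sub_apply, T1, T1, P1, min_eq_left (le_max_of_le_right
            (by linarith [(P2 k x).2])), sub_self]) hv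
      have h3 : w - T (k + 1) w = w - T k w + (T k (w - v) - T (k + 1) (w - v)) := by
        rw [LinearMap.sub_apply, sub_eq_zero] at h2
        simp only [map_sub, h2]
        abel
      rw [le_div_iff₀' (add_pos (C0 _) (C0 _)), add_mul] at h1
      have h4 : ε / 2 ^ k = 2 * (ε / 2 ^ (k + 1)) := by rw [pow_succ]; field_simp
      rw [h3]
      linarith [norm_add_le (w - T k w) (T k (w - v) - T (k + 1) (w - v)),
        norm_sub_le (T k (w - v)) (T (k + 1) (w - v)), T2 k (w - v), T2 (k + 1) (w - v)]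
  obtain ⟨n, hn⟩ := fin_supp (C := fun n => {x | P n x ≠ 0})
    (antitone_nat_of_succ_le fun n x hx e => hx (by
      rw [P1, e, min_eq_left (le_max_left _ _)])) fun η hη => by
      obtain ⟨k, hk⟩ := exists_nat_gt (2 / η)
      refine ⟨k + 1, insert o (E k), fun x hx => ?_⟩
      have a1 : α k x < η := by
        by_contra hc
        rw [div_lt_iff₀ hη] at hk
        refine hx ?_
        rw [P1, max_eq_left (by nlinarith), min_eq_right (P2 k x).1]
      simpa using (infDist_lt_iff (Set.insert_nonempty _ _)).1 a1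
  obtain ⟨K, hK1, hK2⟩ := h.compact (cont_of (T2 n)) (T1 n) hn R
  obtain ⟨t, ht, h1⟩ := Metric.totallyBounded_iff.1 hK1.totallyBounded ε hε
  choose! z z1 z2 using fun w hw => Set.mem_iUnion₂.1 (h1 (hK2 w (hR w hw)))
  obtain ⟨x, hx, y, hy, h2, h3⟩ := hA.exists_ne_map_eq_of_mapsTo z1 ht
  refine ⟨x, hx, y, hy, h2, ?_⟩
  have a1 := mem_ball.1 (z2 x hx)
  have a2 := mem_ball.1 (z2 y hy)
  have a3 := hT n x hx
  have a4 := hT n y hy
  have : 0 ≤ ε / 2 ^ n := by positivity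
  rw [← dist_eq_norm] at a3 a4 ⊢
  rw [h3] at a1
  linarith [dist_triangle4 x (T n x) (T n y) y, dist_triangle_right (T n x) (T n y) (z y),
    dist_comm y (T n y)]

theorem kalton_nu (h : IsFree 𝕜 p o ν δ) (hp : 0 < p) (hp1 : p ≤ 1) (hν : ∀ x, ‖x‖ = ν x ^ p)
    (hM : Bornology.IsBounded (Set.univ : Set M)) {W : Set X} (hW : ∃ R, ∀ w ∈ W, ν w ≤ R)
    (hK : ¬Kalton 𝕜 ν δ W) : ∃ x : ℕ → X, (∀ n, x n ∈ W) ∧ LpSeq 𝕜 p ν x := by
  have hB := h.banach
  have hF := h.fr hp hp1 hν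
  obtain ⟨D, hD⟩ := hM.subset_closedBall o
  obtain ⟨R, hR⟩ := hW
  simp only [Kalton, not_forall, not_exists, not_and, not_le] at hK
  obtain ⟨ε, hε, r, hr, hK⟩ := hK
  have hR' : ∀ w ∈ W, ‖w‖ ≤ |R| ^ p := fun w hw => by
    rw [hν]
    exact Real.rpow_le_rpow (hB.nonneg _) ((hR w hw).trans (le_abs_self _)) hp.le
  obtain ⟨x, h1, c, h2, h3⟩ := hF.kalton (fun x => hD trivial) (Real.rpow_pos_of_pos hε p) hr hR'
    fun E => by
      obtain ⟨w, hw, h1⟩ := hK E
      refine ⟨w, hw, fun v hv => ?_⟩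
      rw [hν]
      exact Real.rpow_lt_rpow hε.le (h1 v ((mem_cspan hB hp hν).2 (subset_closure hv))) hp
  refine ⟨x, h1, c ^ p⁻¹, max (c ^ p⁻¹) |R|, by positivity, le_max_left _ _, fun s a => ?_⟩
  have S0 : 0 ≤ ∑ n ∈ s, ‖a n‖ ^ p := sum_nonneg fun _ _ => by positivity
  rw [nu_eq hB hp hν, one_div, ← Real.mul_rpow h2.le S0]
  refine ⟨Real.rpow_le_rpow (by positivity) (h3 s a) (by positivity), le_trans ?_
    (mul_le_mul_of_nonneg_right (le_max_right _ _) (by positivity))⟩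
  rw [← Real.rpow_rpow_inv (abs_nonneg R) hp.ne', ← Real.mul_rpow (by positivity) S0, mul_sum]
  refine Real.rpow_le_rpow (norm_nonneg _) ((norm_sum_le _ _).trans (sum_le_sum fun n _ => ?_))
    (by positivity)
  rw [hF.ps, mul_comm]
  exact mul_le_mul_of_nonneg_right (hR' _ (h1 n)) (by positivity)

theorem schur_nu [CompleteSpace M] [DiscreteTopology M] (h : IsFree 𝕜 p o ν δ) (hp : 0 < p)
    (hp1 : p ≤ 1) (hν : ∀ x, ‖x‖ = ν x ^ p) (hM : Bornology.IsBounded (Set.univ : Set M)) :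
    SchurP 𝕜 p ν := by
  rintro A hA ⟨R, hR⟩ ⟨r, hr, hs⟩
  refine kalton_nu h hp hp1 hν hM ⟨R, hR⟩ fun hK => ?_
  have hB := h.banach
  obtain ⟨D, hD⟩ := hM.subset_closedBall o
  obtain ⟨x, hx, y, hy, h1, h2⟩ := (h.fr hp hp1 hν).discrete (fun x => hD trivial) hA
    (R := |R| ^ p) (ε := r ^ p / 4) (fun w hw => by
      rw [hν]
      exact Real.rpow_le_rpow (hB.nonneg _) ((hR w hw).trans (le_abs_self _)) hp.le)
    (by positivity) fun ε hε ρ hρ => by
      obtain ⟨E, hE⟩ := hK (ε ^ p⁻¹) (by positivity) ρ hρ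
      refine ⟨E, fun w hw => ?_⟩
      obtain ⟨v, hv, h1⟩ := hE w hw
      refine ⟨v, (mem_cspan hB hp hν).1 hv, ?_⟩
      rw [hν]
      exact (Real.le_rpow_inv_iff_of_pos (hB.nonneg _) hε.le hp).1 h1
  have := Real.rpow_le_rpow hr.le (hs x hx y hy h1) hp.le
  rw [hν] at h2
  linarith

end Pool.Agent.H88.Fp
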