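import Mathlib

namespace Pool.Agent.H88.Fp

open Filter Topology

/-- `C` is (sequentially) compact for the distance `ν (x - y)`. -/
def Cpt {X : Type} [AddCommGroup X] (ν : X → ℝ) (C : Set X) : Prop :=
  ∀ u : ℕ → X, (∀ n, u n ∈ C) →
    ∃ z ∈ C, ∃ φ : ℕ → ℕ, StrictMono φ ∧ Tendsto (fun n => ν (u (φ n) - z)) atTop (𝓝 0)

/-- The metric approximation property. -/
def MAP {X : Type} [AddCommGroup X] [Module ℝ X] (ν : X → ℝ) : Prop :=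
  ∀ C : Set X, Cpt ν C → ∀ ε > 0, ∃ T : X →ₗ[ℝ] X, FiniteDimensional ℝ (LinearMap.range T) ∧
    (∀ x, ν (T x) ≤ ν x) ∧ ∀ x ∈ C, ν (T x - x) ≤ ε

end Pool.Agent.H88.Fp
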