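import Mathlib
import Pool.Agent.H88.Fp4
import Pool.Agent.H88.FpDefs2

/-! The metric approximation property over countable proper spaces. -/

namespace Pool.Agent.H88.Fp

open Pool.Agent.H88.Pex Filter Topology Submodule Metric

variable {p : ℝ} {M X : Type} [MetricSpace M] {o : M}
  [NormedAddCommGroup X] [Module ℝ X] {δ : M → X} {ν : X → ℝ}

def Q (δ : M → X) (c : ℝ) (E : Finset M) (A : Set M) : Prop :=
  ∃ (T : X →ₗ[ℝ] X) (V : Submodule ℝ X), (∀ μ, ‖T μ‖ ≤ c * ‖μ‖) ∧ (∀ x ∈ E, T (δ x) = δ x) ∧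
    V.FG ∧ (∀ x, ∃ a : ℝ, T (δ x) - a • δ x ∈ V) ∧ ∀ x ∈ A, T (δ x) ∈ V

def P (δ : M → X) (A : Set M) : Prop := ∀ c > 1, ∀ E, Q δ c E A

omit [MetricSpace M] in
lemma Q.union {c : ℝ} (hc : 0 ≤ c) {E : Finset M} {A B : Set M} (hA : Q δ (√c) E A)
    (hB : Q δ (√c) E B) : Q δ c E (A ∪ B) := by
  obtain ⟨T, V, t1, t2, t3, t4, t5⟩ := hA
  obtain ⟨S, W, s1, s2, s3, s4, s5⟩ := hB
  have key : ∀ x (a : ℝ), T (δ x) - a • δ x ∈ V → ∀ y, a • S (δ x) - y ∈ W →
      S (T (δ x)) - y ∈ W ⊔ V.map S := fun x a h1 y h2 => by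
    have := add_mem_sup h2 (mem_map_of_mem (f := S) h1)
    rwa [map_sub, map_smul, show a • S (δ x) - y + (S (T (δ x)) - a • S (δ x)) =
      S (T (δ x)) - y by abel] at this
  refine ⟨S.comp T, W ⊔ V.map S, fun μ => (s1 _).trans ((mul_le_mul_of_nonneg_left (t1 μ)
    (Real.sqrt_nonneg c)).trans_eq ?_), fun x hx => by simp [t2 x hx, s2 x hx],
    s3.sup (t3.map S), fun x => ?_, ?_⟩
  · rw [← mul_assoc, Real.mul_self_sqrt hc]
  · obtain ⟨a, ha⟩ := t4 x
    obtain ⟨b, hb⟩ := s4 x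
    exact ⟨a * b, key x a ha _ (by simpa [smul_sub, mul_smul] using W.smul_mem a hb)⟩
  · rintro x (hx | hx)
    · exact mem_sup_right (mem_map_of_mem (t5 x hx))
    · obtain ⟨a, ha⟩ := t4 x
      simpa using key x a ha 0 (by simpa using W.smul_mem a (s5 x hx))

omit [MetricSpace M] in
lemma Q.mono {c : ℝ} {E : Finset M} {A B : Set M} (h : A ⊆ B) (hB : Q δ c E B) : Q δ c E A := by
  obtain ⟨T, V, t1, t2, t3, t4, t5⟩ := hB
  exact ⟨T, V, t1, t2, t3, t4, fun x hx => t5 x (h hx)⟩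

lemma P.compact {K : Set M} (hK : IsCompact K) (h : ∀ x ∈ K, ∃ t ∈ 𝓝 x, P δ t) : P δ K := by
  refine hK.induction_on (fun c hc E => ⟨LinearMap.id, ⊥, fun μ =>
    le_mul_of_one_le_left (norm_nonneg _) hc.le, fun _ _ => rfl, fg_bot,
    fun x => ⟨1, by simp⟩, by simp⟩) (fun s t hst ht c hc E => (ht c hc E).mono hst)
    (fun s t hs ht c hc E => ?_) fun x hx => ?_
  · exact (hs _ (Real.lt_sqrt_of_sq_lt (by simpa)) E).union (by linarith)
      (ht _ (Real.lt_sqrt_of_sq_lt (by simpa)) E)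
  · obtain ⟨t, h1, h2⟩ := h x hx
    exact ⟨t, mem_nhdsWithin_of_mem_nhds h1, h2⟩

lemma Fr.cut (h : Fr ℝ p o δ) {c : ℝ} (a : M) {η : ℝ} (hη : 0 ≤ η) (hc : 1 + η ^ p ≤ c)
    {g : ℝ → ℝ} (hg : ∀ s t, |g s - g t| ≤ η * |s - t|) {E : Finset M}
    (hE : ∀ x, x = o ∨ x ∈ E → x ≠ a → 1 ≤ g (Real.log (dist x a))) :
    Q δ c E {x | x = a ∨ g (Real.log (dist x a)) ≤ 0} := by
  have := h.complete
  have hp := h.p0
  let θ : M → ℝ := fun x => max 0 (min 1 (g (Real.log (dist x a))))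
  have θ1 : ∀ x, |θ x| ≤ 1 := fun x => by
    rw [abs_of_nonneg (le_max_left _ _)]
    exact max_le zero_le_one (min_le_left _ _)
  have fx : ∀ x, x = o ∨ x ∈ E → θ x • (δ x - δ a) + δ a = δ x := fun x hx => by
    by_cases hxa : x = a
    · simp [hxa]
    · simp [θ, hE x hx hxa]
  have key : ∀ x y, dist y a ≤ dist x a → ‖θ x • (δ x - δ a) + δ a - (θ y • (δ y - δ a) + δ a)‖ ≤
      (1 + η ^ p) * dist x y ^ p := by
    intro x y hxy
    rw [add_sub_add_right_eq_sub]
    refine (h.ps.wt _ _ _ _).trans ?_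
    rw [sub_sub_sub_cancel_right, h.iso, h.iso, add_mul, Real.norm_eq_abs, Real.norm_eq_abs,
      ← Real.mul_rpow (abs_nonneg _) dist_nonneg, ← Real.mul_rpow (abs_nonneg _) dist_nonneg,
      ← Real.mul_rpow hη dist_nonneg, one_mul]
    refine add_le_add (Real.rpow_le_rpow (by positivity)
      (mul_le_of_le_one_left dist_nonneg (θ1 x)) hp.le) (Real.rpow_le_rpow (by positivity) ?_ hp.le)
    rcases (dist_nonneg (x := y) (y := a)).eq_or_lt with h0 | h0
    · rw [← h0, mul_zero]; positivity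
    have a1 : |θ x - θ y| ≤ η * |Real.log (dist x a) - Real.log (dist y a)| :=
      (abs_max_sub_max_le_max _ _ _ _).trans (max_le (by simp; positivity)
        ((abs_min_sub_min_le_max _ _ _ _).trans (max_le (by simp; positivity) (hg _ _))))
    rw [abs_of_nonneg (sub_nonneg.2 (Real.log_le_log h0 hxy)),
      ← Real.log_div (h0.trans_le hxy).ne' h0.ne'] at a1
    have a2 := Real.log_le_sub_one_of_pos (div_pos (h0.trans_le hxy) h0)
    rw [div_sub_one h0.ne', le_div_iff₀ h0] at a2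
    calc |θ x - θ y| * dist y a ≤ η * Real.log (dist x a / dist y a) * dist y a := by gcongr
      _ ≤ _ := by
        rw [mul_assoc]
        exact mul_le_mul_of_nonneg_left (by linarith [dist_triangle x y a]) hη
  obtain ⟨T, t1, t2⟩ := h.lift X h.ps (fun x => θ x • (δ x - δ a) + δ a) (1 + η ^ p)
    (by rw [fx o (Or.inl rfl), h.zero]) (by positivity) fun x y => by
      rcases le_total (dist y a) (dist x a) with hxy | hxy
      · exact key x y hxy
      · rw [norm_sub_rev, dist_comm]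
        exact key y x hxy
  have m := mem_span_singleton_self (R := ℝ) (δ a)
  refine ⟨T, span ℝ {δ a}, fun μ => (t2 μ).trans (by gcongr), fun x hx => by
    rw [t1, fx x (Or.inr hx)], fg_span_singleton _, fun x => ⟨θ x, ?_⟩, ?_⟩
  · rw [t1, show θ x • (δ x - δ a) + δ a - θ x • δ x = (1 - θ x) • δ a by module]
    exact smul_mem _ _ m
  · rintro x (rfl | hx)
    · simp [t1]
    · have : θ x = 0 := max_eq_left (min_le_of_right_le hx)
      simp [t1, this]

lemma eta (hp : 0 < p) {c : ℝ} (hc : 1 < c) : ∃ η > 0, 1 + η ^ p ≤ √c := by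
  have : 1 < √c := Real.lt_sqrt_of_sq_lt (by simpa)
  refine ⟨(√c - 1) ^ p⁻¹, Real.rpow_pos_of_pos (by linarith) _, ?_⟩
  rw [Real.rpow_inv_rpow (by linarith) hp.ne']
  linarith

theorem Fr.P_univ [ProperSpace M] [Countable M] (h : Fr ℝ p o δ) : P δ Set.univ := by
  classical
  have hU : ∀ x, ∃ t ∈ 𝓝 x, P δ t := by
    by_contra hc
    push Not at hc
    have hcl : IsClosed {x | ∀ t ∈ 𝓝 x, ¬P δ t} := by
      rw [← isOpen_compl_iff, isOpen_iff_mem_nhds]
      intro x hx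
      simp only [Set.mem_compl_iff, Set.mem_ofPred_eq, not_forall, not_not] at hx
      obtain ⟨t, h1, h2⟩ := hx
      filter_upwards [eventually_mem_nhds_iff.2 h1] with y hy e using e t hy h2
    have hp : Perfect {x | ∀ t ∈ 𝓝 x, ¬P δ t} := ⟨hcl, fun a ha => accPt_iff_nhds.2 fun U hU => by
      by_contra hc
      push Not at hc
      obtain ⟨ρ, h0, h1⟩ := Metric.nhds_basis_closedBall.mem_iff.1 hU
      refine ha _ (closedBall_mem_nhds a h0) fun c hc1 E => ?_
      obtain ⟨η, η0, η1⟩ := eta h.p0 hc1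
      obtain ⟨r, r0, r1⟩ := Metric.isOpen_iff.1
        ((insert o E).erase a).finite_toSet.isClosed.isOpen_compl a (by simp)
      have q1 := h.cut a η0.le η1 (g := fun t => 1 + η * (t - Real.log r)) (fun s t => by
        rw [add_sub_add_left_eq_sub, ← mul_sub, sub_sub_sub_cancel_right, abs_mul,
          abs_of_pos η0]) (E := E) fun x hx hxa => le_add_of_nonneg_right (mul_nonneg η0.le
          (sub_nonneg.2 (Real.log_le_log r0 (not_lt.1 fun e => r1 e (by simpa [hxa] using hx)))))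
      have q2 : P δ (closedBall a ρ \ ball a (Real.exp (Real.log r - η⁻¹))) :=
        P.compact ((isCompact_closedBall a ρ).diff isOpen_ball) fun x hx => by
          by_contra e
          push Not at e
          exact hx.2 (hc x ⟨h1 hx.1, e⟩ ▸ mem_ball_self (Real.exp_pos _))
      refine (q1.union (by linarith) (q2 _ (Real.lt_sqrt_of_sq_lt (by simpa)) E)).mono
        fun x hx => ?_
      by_cases e : x ∈ ball a (Real.exp (Real.log r - η⁻¹))
      · refine Or.inl (or_iff_not_imp_left.2 fun hxa => ?_)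
        have := mul_le_mul_of_nonneg_left ((Real.log_le_iff_le_exp (dist_pos.2 hxa)).2
          (mem_ball.1 e).le) η0.le
        rw [mul_sub, mul_inv_cancel₀ η0.ne'] at this
        linarith
      · exact Or.inr ⟨hx, e⟩⟩
    obtain ⟨f, -, -, hf⟩ := hp.exists_nat_bool_injection hc
    have := hf.countable
    obtain ⟨g, hg⟩ := exists_surjective_nat (ℕ → Bool)
    obtain ⟨n, hn⟩ := hg fun n => !g n n
    simpa using congrFun hn n
  intro c hc E
  obtain ⟨η, η0, η1⟩ := eta h.p0 hc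
  obtain ⟨R, hR⟩ := E.finite_toSet.isBounded.subset_closedBall o
  have q1 := h.cut o η0.le η1 (g := fun t => 1 - η * (t - Real.log R)) (fun s t => by
    rw [sub_sub_sub_cancel_left, ← mul_sub, sub_sub_sub_cancel_right, abs_mul,
      abs_of_pos η0, abs_sub_comm]) (E := E) fun x hx hxa => by
    have := mul_nonneg η0.le (sub_nonneg.2 (Real.log_le_log (dist_pos.2 hxa)
      (hR (hx.resolve_left hxa))))
    linarith
  have q2 : P δ (closedBall o (Real.exp (Real.log R + η⁻¹))) :=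
    P.compact (isCompact_closedBall _ _) fun x _ => hU x
  refine (q1.union (by linarith) (q2 _ (Real.lt_sqrt_of_sq_lt (by simpa)) E)).mono
    fun x _ => or_iff_not_imp_right.2 fun e => Or.inr ?_
  have e' := not_le.1 (mt mem_closedBall.2 e)
  have := mul_le_mul_of_nonneg_left ((Real.le_log_iff_exp_le ((Real.exp_pos _).trans e')).2
    e'.le) η0.le
  rw [mul_add, mul_inv_cancel₀ η0.ne'] at this
  linarith

lemma PS.csmul (h : PS ℝ p X) (hp : 0 < p) : ContinuousSMul ℝ X := by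
  refine ⟨continuous_iff_continuousAt.2 fun z => tendsto_iff_norm_sub_tendsto_zero.2
    (squeeze_zero (fun _ => norm_nonneg _) (fun w => h.wt _ _ _ _) ?_)⟩
  have : Continuous fun w : ℝ × X => ‖w.1‖ ^ p * ‖w.2 - z.2‖ + ‖w.1 - z.1‖ ^ p * ‖z.2‖ := by
    have := Real.continuous_rpow_const hp.le
    fun_prop
  simpa [hp.ne'] using this.tendsto z

theorem Fr.map [ProperSpace M] [Countable M] (h : Fr ℝ p o δ) {C : Set X} (hC : IsCompact C)
    {ε : ℝ} (hε : 0 < ε) : ∃ T : X →ₗ[ℝ] X, FiniteDimensional ℝ (LinearMap.range T) ∧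
      (∀ x, ‖T x‖ ≤ ‖x‖) ∧ ∀ x ∈ C, ‖T x - x‖ ≤ ε := by
  classical
  have hp := h.p0
  have := h.ps.csmul hp
  obtain ⟨t, h1, h2, h3⟩ := hC.elim_finite_subcover_image
    (b := (span ℝ (δ '' Set.univ) : Set X)) (c := fun m => ball m (ε / 3))
    (fun _ _ => isOpen_ball) fun x _ => by
      obtain ⟨m, h1, h2⟩ := Metric.mem_closure_iff.1 (h.dense x) (ε / 3) (by positivity)
      exact Set.mem_biUnion h1 h2
  have h4 : ∀ m ∈ t, ∃ E : Finset M, m ∈ span ℝ (δ '' E) := fun m hm => by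
    obtain ⟨s, h3, h4⟩ := mem_span_finite_of_mem_span (h1 hm)
    obtain ⟨F, -, h5⟩ := Finset.subset_set_image_iff.1 h3
    exact ⟨F, by rwa [← Finset.coe_image, h5]⟩
  choose! E hE using h4
  have h5 : ∀ᶠ a in 𝓝[<] (1 : ℝ), ∀ m ∈ t, ‖a • m - m‖ < ε / 3 :=
    (eventually_all_finite h2).2 fun m _ => (Filter.Tendsto.eventually_lt_const (v := 0)
      (by positivity) (by
      simpa using (((h.ps.cont' hp m).sub (continuous_const (y := m))).norm.tendsto 1))).filter_mono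
      nhdsWithin_le_nhds
  obtain ⟨a, a1, a2, a3⟩ := (h5.and (Ioo_mem_nhdsLT zero_lt_one)).exists
  have a4 : 0 < a ^ p := by positivity
  obtain ⟨T, V, t1, t2, t3, -, t5⟩ := h.P_univ (a ^ p)⁻¹
    ((one_lt_inv₀ a4).2 (Real.rpow_lt_one a2.le a3 hp)) (h2.toFinset.biUnion E)
  have : FiniteDimensional ℝ V := Module.Finite.iff_fg.2 t3
  have t6 : ∀ x, ‖(a • T) x‖ ≤ ‖x‖ := fun x => by
    rw [LinearMap.smul_apply, h.ps, Real.norm_of_nonneg a2.le, ← le_inv_mul_iff₀ a4]
    exact t1 x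
  refine ⟨a • T, finiteDimensional_of_le (S₂ := V) ?_, t6, fun x hx => ?_⟩
  · rintro _ ⟨x, rfl⟩
    exact V.smul_mem a (V.closed_of_finiteDimensional.closure_subset
      (map_mem (cont_of t1) t5 (h.dense x)))
  · obtain ⟨m, hm, h6⟩ := Set.mem_iUnion₂.1 (h3 hx)
    have h7 : T m = m := sub_eq_zero.1 (map_zero' (T := T - LinearMap.id)
      ((cont_of t1).sub continuous_id) (fun y hy => sub_eq_zero.2 (t2 y
        (Finset.mem_biUnion.2 ⟨m, h2.mem_toFinset.2 hm, hy⟩))) (subset_closure (hE m hm)))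
    rw [show (a • T) x - x = (a • T) (x - m) + (a • m - m) - (x - m) by
      simp only [LinearMap.smul_apply, map_sub, h7]; abel]
    rw [mem_ball, dist_eq_norm] at h6
    linarith [norm_sub_le ((a • T) (x - m) + (a • m - m)) (x - m),
      norm_add_le ((a • T) (x - m)) (a • m - m), t6 (x - m), a1 m hm]

theorem map_nu [ProperSpace M] [Countable M] (h : IsFree ℝ p o ν δ) (hp : 0 < p) (hp1 : p ≤ 1)
    (hν : ∀ x, ‖x‖ = ν x ^ p) : MAP ν := by
  intro C hC ε hε
  have hB := h.banach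
  obtain ⟨T, h1, h2, h3⟩ := (h.fr hp hp1 hν).map (C := C) (IsSeqCompact.isCompact fun u hu => by
    obtain ⟨z, hz, φ, h1, h2⟩ := hC u hu
    refine ⟨z, hz, φ, h1, tendsto_iff_norm_sub_tendsto_zero.2 ?_⟩
    simpa [hν, hp.ne'] using h2.rpow_const (Or.inr hp.le)) (Real.rpow_pos_of_pos hε p)
  refine ⟨T, h1, fun x => ?_, fun x hx => ?_⟩
  · rw [← Real.rpow_le_rpow_iff (hB.nonneg _) (hB.nonneg _) hp, ← hν, ← hν]
    exact h2 x
  · rw [← Real.rpow_le_rpow_iff (hB.nonneg _) hε.le hp, ← hν]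
    exact h3 x hx

end Pool.Agent.H88.Fp
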