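import Mathlib
import Pool.Agent.H88.Ap1
import Pool.Agent.H88.Fp5

/-! The approximation property passes to Banach spaces with a Lipschitz lifting. -/

namespace Pool.Agent.H88.Ap

open Pool.Agent.H88.Nb Pool.Agent.H88.Fp Filter Topology Metric

lemma mcs {M : Type} [MetricSpace M] {H : Set M} (hH : H.Nonempty) {h : M → ℝ} {L η : ℝ}
    (hL : 0 ≤ L) (hh : ∀ z ∈ H, ∀ w ∈ H, h z ≤ h w + L * (dist z w + η)) :
    ∃ f, Lip L f ∧ ∀ z ∈ H, |h z - f z| ≤ L * η := by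
  have := hH.to_subtype
  obtain ⟨o, ho⟩ := hH
  have b : ∀ x : M, BddBelow (Set.range fun w : H => h w + L * dist x w) := fun x =>
    ⟨h o - L * (dist o x + η), by
      rintro _ ⟨w, rfl⟩
      simp only
      nlinarith [hh o ho w w.2, dist_triangle o x w]⟩
  refine ⟨fun x => ⨅ w : H, (h w + L * dist x w), fun x y => sub_le_iff_le_add.1
    (le_ciInf fun w => ?_), fun z hz => ?_⟩
  · nlinarith [ciInf_le (b x) w, dist_triangle x y w]
  · have a := ciInf_le (b z) ⟨z, hz⟩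
    have c : h z - L * η ≤ ⨅ w : H, (h w + L * dist z w) := le_ciInf fun w => by
      linarith [hh z hz w w.2]
    simp only [dist_self, mul_zero, add_zero] at a ⊢
    exact abs_le.2 ⟨by linarith, by linarith⟩

lemma cpt_union {F : Type} [NormedAddCommGroup F] {K : ℕ → Set F} (hK : ∀ j, IsCompact (K j))
    {r : ℕ → ℝ} (hr : Tendsto r atTop (𝓝 0)) (h : ∀ j, ∀ x ∈ K j, ‖x‖ ≤ r j) :
    IsCompact (insert 0 (⋃ j, K j)) := by
  refine isCompact_iff_ultrafilter_le_nhds'.2 fun U hU => ?_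
  by_cases a : (U : Filter F) ≤ 𝓝 0
  · exact ⟨0, Or.inl rfl, a⟩
  obtain ⟨ε, e0, e1⟩ : ∃ ε > 0, ball (0 : F) ε ∉ U := by
    by_contra hc
    push Not at hc
    exact a (nhds_basis_ball.ge_iff.2 hc)
  obtain ⟨J, hJ⟩ := eventually_atTop.1 (hr.eventually_lt_const e0)
  obtain ⟨x, x1, x2⟩ := ((Set.finite_Iio J).isCompact_biUnion fun j _ => hK j).ultrafilter_le_nhds'
    U (mem_of_superset (inter_mem hU (Ultrafilter.compl_mem_iff_notMem.2 e1)) (by
      rintro x ⟨rfl | hx, x2⟩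
      · exact absurd (mem_ball_self e0) x2
      obtain ⟨j, hj⟩ := Set.mem_iUnion.1 hx
      exact Set.mem_biUnion (not_le.1 fun c => x2 (mem_ball_zero_iff.2
        ((h j x hj).trans_lt (hJ j c)))) hj))
  exact ⟨x, Or.inr (Set.iUnion₂_subset_iUnion _ _ x1), x2⟩

variable {E : Type} [NormedAddCommGroup E] [NormedSpace ℝ E]

lemma nets {K : Set E} (hK : IsCompact K) : ∃ (Y : ℕ → Set E) (B : ℝ), 0 < B ∧
    (∀ j, (Y j).Finite) ∧ (∀ j, ∀ y ∈ Y j, ‖y‖ ≤ B * (1 / 2) ^ j) ∧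
    ∀ (R : E →L[ℝ] E) ε, (∀ j, ∀ y ∈ Y j, ‖R y‖ ≤ ε) → ∀ x ∈ K, ‖R x‖ ≤ 2 * ε := by
  obtain ⟨B, B0, hB⟩ := hK.isBounded.exists_pos_norm_le
  have hN : ∀ j : ℕ, ∃ N : Set E, N.Finite ∧ (j = 0 → N = {0}) ∧
      ∀ x ∈ K, ∃ n ∈ N, ‖x - n‖ ≤ B * (1 / 4) ^ j := fun j => by
    rcases j with _ | j
    · exact ⟨{0}, by simp, by simp, by simpa using hB⟩
    obtain ⟨N, -, a, b⟩ := hK.finite_cover_balls (e := B * (1 / 4) ^ (j + 1)) (by positivity)
    refine ⟨N, a, by simp, fun x hx => ?_⟩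
    obtain ⟨n, c, d⟩ := Set.mem_iUnion₂.1 (b hx)
    exact ⟨n, c, (mem_ball_iff_norm.1 d).le⟩
  choose N N1 N2 N3 using hN
  have e : ∀ j : ℕ, (2 : ℝ) ^ j * (1 / 2) ^ j = 1 := fun j => by simp
  refine ⟨fun j => {y ∈ Set.image2 (fun a b => (2 : ℝ) ^ j • (a - b)) (N (j + 1)) (N j) |
    ‖y‖ ≤ 2 * B * (1 / 2) ^ j}, 2 * B, by positivity, fun j =>
    ((N1 _).image2 _ (N1 _)).subset (Set.sep_subset _ _), fun j y hy => hy.2, fun R ε h x hx => ?_⟩
  choose n n1 n2 using fun j => N3 j x hx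
  have s : ∀ j, ‖R (n (j + 1)) - R (n j)‖ ≤ (1 / 2) ^ j * ε := fun j => by
    have := h j ((2 : ℝ) ^ j • (n (j + 1) - n j)) ⟨⟨_, n1 _, _, n1 _, rfl⟩, by
      have a := norm_sub_le_norm_sub_add_norm_sub (n (j + 1)) x (n j)
      have b := n2 (j + 1)
      have c : ((1 : ℝ) / 4) ^ j = (1 / 2) ^ j * (1 / 2) ^ j := by rw [← mul_pow]; norm_num
      have d : 0 < B * (1 / 4) ^ j := by positivity
      rw [norm_sub_rev, pow_succ] at b
      rw [norm_smul, Real.norm_of_nonneg (by positivity)]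
      refine (mul_le_mul_of_nonneg_left (show _ ≤ 2 * B * (1 / 4) ^ j by linarith [n2 j])
        (by positivity)).trans_eq ?_
      rw [c]
      linear_combination 2 * B * (1 / 2) ^ j * e j⟩
    rw [map_smul, norm_smul, Real.norm_of_nonneg (by positivity), map_sub] at this
    have := mul_le_mul_of_nonneg_left this (show (0 : ℝ) ≤ (1 / 2) ^ j by positivity)
    rwa [← mul_assoc, mul_comm _ (2 ^ j : ℝ), e, one_mul] at this
  have e0 : 0 ≤ ε := by simpa using (norm_nonneg _).trans (s 0)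
  have t : ∀ j, ‖R (n j)‖ ≤ (2 - 2 * (1 / 2) ^ j) * ε := fun j => by
    induction j with
    | zero => simp [show n 0 = 0 by simpa [N2 0 rfl] using n1 0]
    | succ j ih =>
      rw [pow_succ]
      linarith [s j, norm_le_insert' (R (n (j + 1))) (R (n j))]
  have l : Tendsto n atTop (𝓝 x) := tendsto_iff_norm_sub_tendsto_zero.2 (squeeze_zero
    (fun _ => norm_nonneg _) (fun j => (norm_sub_rev _ _).trans_le (n2 j)) (by
      simpa using (tendsto_pow_atTop_nhds_zero_of_lt_one (r := (1 : ℝ) / 4) (by norm_num)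
        (by norm_num)).const_mul B))
  exact le_of_tendsto' ((R.continuous.tendsto x).comp l).norm fun j => (t j).trans
    (mul_le_mul_of_nonneg_right (sub_le_self _ (by positivity)) e0)

theorem transfer [CompleteSpace E] [TopologicalSpace.SeparableSpace E] {p : ℝ} (hp : 0 < p)
    {F : Type} [NormedAddCommGroup F] [Module ℝ F] (ps : PS ℝ p F) (β : F →ₗ[ℝ] E)
    (hβ : ∀ μ, ‖β μ‖ ≤ ‖μ‖ ^ p⁻¹) (j : E → F) (hj : ∀ a b, ‖j a - j b‖ ≤ ‖a - b‖ ^ p)
    (hβj : ∀ a, β (j a) = a) {K : Set E} (hK : IsCompact K) :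
    ∃ C : Set F, IsCompact C ∧ ∀ (T : F →ₗ[ℝ] F) (L ε : ℝ), 0 < ε → 0 ≤ L →
      FiniteDimensional ℝ (LinearMap.range T) → (∀ μ, ‖T μ‖ ≤ L * ‖μ‖) →
      (∀ μ ∈ C, ‖T μ - μ‖ ≤ ε ^ p) → ∃ S : E →L[ℝ] E,
        FiniteDimensional ℝ (LinearMap.range S.toLinearMap) ∧ ∀ x ∈ K, ‖S x - x‖ ≤ 4 * ε := by
  have := ps.csmul hp
  obtain ⟨Y, B, B0, Y1, Y2, Y3⟩ := nets hK
  obtain ⟨D, D1, D2⟩ := TopologicalSpace.exists_countable_dense E
  obtain ⟨u, hu⟩ := (D1.union (Set.countable_iUnion fun i => (Y1 i).countable)).exists_eq_range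
    (D2.nonempty.mono Set.subset_union_left)
  obtain ⟨H, Λ, H1, H2, a, b, c⟩ := lin u (hu ▸ D2.mono Set.subset_union_left : Dense _)
  have hη : ∀ i, ∃ η > (0 : ℝ), ∀ y ∈ Y i, ∀ f c, 0 ≤ c → (∀ z ∈ H, |f.1 z| ≤ c * η) →
      |Λ f y| ≤ c * (B * (1 / 2) ^ i) := fun i => by
    refine (((Y1 i).eventually_all (l := 𝓝[>] (0 : ℝ))).2 fun y hy => ?_).and
      self_mem_nhdsWithin |>.exists.imp fun η h => ⟨h.2, h.1⟩
    obtain ⟨n, rfl⟩ : y ∈ Set.range u := hu ▸ Or.inr (Set.mem_iUnion.2 ⟨i, hy⟩)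
    obtain ⟨C, C0, hC⟩ := b n
    filter_upwards [Ioo_mem_nhdsGT (show 0 < B * (1 / 2) ^ i / C by positivity)] with η h f c c0 k
    exact (hC f _ k).trans (by nlinarith [(lt_div_iff₀ C0).1 h.2])
  choose η η0 hη using hη
  have jc : Continuous j := continuous_iff_continuousAt.2 fun z =>
    tendsto_iff_norm_sub_tendsto_zero.2 (squeeze_zero (fun _ => norm_nonneg _) (fun w => hj w z) (by
      have : Continuous fun w : E => ‖w - z‖ ^ p := by
        have := Real.continuous_rpow_const hp.le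
        fun_prop
      simpa [hp.ne'] using this.tendsto z))
  refine ⟨_, cpt_union (K := fun i => (fun z : E × E =>
    (B * (1 / 2) ^ i / (‖z.1 - z.2‖ + η i)) • (j z.1 - j z.2)) '' H ×ˢ H)
    (fun i => (H1.prod H1).image (Continuous.smul (continuous_const.div (by fun_prop) fun z =>
      (add_pos_of_nonneg_of_pos (norm_nonneg _) (η0 i)).ne') (by fun_prop)))
    (r := fun i => (B * (1 / 2) ^ i) ^ p) ?_ ?_, fun T L ε e0 L0 hT T1 T2 => ?_⟩
  · simpa [hp.ne'] using ((tendsto_pow_atTop_nhds_zero_of_lt_one (r := (1 : ℝ) / 2) (by norm_num)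
      (by norm_num)).const_mul B).rpow_const (Or.inr hp.le)
  · rintro i _ ⟨z, -, rfl⟩
    have := η0 i
    rw [ps, Real.norm_of_nonneg (by positivity)]
    refine (mul_le_mul_of_nonneg_left (hj _ _) (by positivity)).trans ?_
    rw [← Real.mul_rpow (by positivity) (norm_nonneg _)]
    refine Real.rpow_le_rpow (by positivity) ?_ hp.le
    rw [div_mul_eq_mul_div, div_le_iff₀ (by positivity)]
    exact mul_le_mul_of_nonneg_left (by linarith) (by positivity)
  have g1 : ∀ z w, ‖β (T (j z)) - β (T (j w))‖ ≤ L ^ p⁻¹ * dist z w := fun z w => by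
    rw [← map_sub, ← map_sub, dist_eq_norm, ← Real.rpow_rpow_inv (norm_nonneg (z - w)) hp.ne',
      ← Real.mul_rpow L0 (by positivity)]
    exact (hβ _).trans (Real.rpow_le_rpow (norm_nonneg _) ((T1 _).trans
      (mul_le_mul_of_nonneg_left (hj _ _) L0)) (by positivity))
  have lip : ∀ {V : Type} [NormedAddCommGroup V] [NormedSpace ℝ V] (g : E → V) (A : ℝ)
      (ψ : V →L[ℝ] ℝ), 0 ≤ A → (∀ z w, ‖g z - g w‖ ≤ A * dist z w) →
      (fun z => ψ (g z)) ∈ LipS E := fun g A ψ A0 h => ⟨‖ψ‖ * A, by positivity, fun z w => by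
    have := (ψ.le_opNorm (g z - g w)).trans (mul_le_mul_of_nonneg_left (h z w) (norm_nonneg _))
    rw [map_sub, ← mul_assoc] at this
    linarith [(abs_le.1 this).2]⟩
  let W := (LinearMap.range T).map β
  let e := Module.finBasis ℝ W
  let g : E → W := fun z => ⟨β (T (j z)), _, ⟨_, rfl⟩, rfl⟩
  let φ : Fin (Module.finrank ℝ W) → LipS E := fun i =>
    ⟨_, lip g _ (e.coord i).toContinuousLinearMap (by positivity) g1⟩
  refine ⟨∑ i, (Λ (φ i)).smulRight (e i), Submodule.finiteDimensional_of_le (S₂ := W) ?_,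
    fun x hx => (Y3 (∑ i, (Λ (φ i)).smulRight (e i : E) - 1) (2 * ε) (fun i y hy => ?_) x
      hx).trans_eq (by ring)⟩
  · rintro _ ⟨y, rfl⟩
    simpa using W.sum_mem fun i _ => W.smul_mem _ (e i).2
  obtain ⟨ψ, ψ1, ψ2⟩ := exists_dual_vector'' ℝ ((∑ i, (Λ (φ i)).smulRight (e i : E) - 1) y)
  let ψ' : LipS E := ⟨_, lip id 1 ψ zero_le_one fun z w => by simp [dist_eq_norm]⟩
  have h1 : ∀ z, (∑ i, ψ (e i) • φ i - ψ').1 z = ψ (β (T (j z)) - z) := fun z => by
    have := congrArg (fun w : W => ψ w) (e.sum_repr (g z))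
    simp only [Submodule.coe_sum, Submodule.coe_smul, map_sum, map_smul, smul_eq_mul] at this
    simp [φ, ψ', mul_comm, this, g]
  have h2 : Λ (∑ i, ψ (e i) • φ i - ψ') y = ‖(∑ i, (Λ (φ i)).smulRight (e i : E) - 1) y‖ := by
    rw [map_sub, c ψ' ψ rfl]
    simpa [mul_comm] using ψ2
  have r0 : 0 < B * (1 / 2) ^ i := by positivity
  obtain ⟨f, f1, f2⟩ := mcs H2 (h := (∑ i, ψ (e i) • φ i - ψ').1) (L := ε / (B * (1 / 2) ^ i))
    (η := η i) (by positivity) fun z hz w hw => by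
      have d := add_pos_of_nonneg_of_pos (norm_nonneg (z - w)) (η0 i)
      have k := (hβ _).trans (Real.rpow_le_rpow (norm_nonneg _) (T2 _ (Or.inr
        (Set.mem_iUnion.2 ⟨i, (z, w), ⟨hz, hw⟩, rfl⟩))) (by positivity))
      rw [Real.rpow_rpow_inv e0.le hp.ne', map_smul, ← smul_sub, map_smul, norm_smul,
        Real.norm_of_nonneg (by positivity), div_mul_eq_mul_div, div_le_iff₀ d,
        ← le_div_iff₀' r0, mul_div_right_comm] at k
      have m := (ψ.le_opNorm _).trans ((mul_le_of_le_one_left (norm_nonneg _) ψ1).trans k)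
      simp only [map_sub, hβj] at m
      rw [h1, h1, dist_eq_norm, map_sub, map_sub]
      linarith [(abs_le.1 m).2]
  have k1 := (a ⟨f, _, by positivity, f1⟩ _ y f1).trans
    (mul_le_mul_of_nonneg_left (Y2 i y hy) (by positivity))
  have k2 := hη i y hy (∑ i, ψ (e i) • φ i - ψ' - ⟨f, _, by positivity, f1⟩) _ (by positivity) f2
  rw [div_mul_cancel₀ _ r0.ne'] at k1 k2
  rw [map_sub, sub_apply, h2] at k2
  linarith [(abs_le.1 k1).2, (abs_le.1 k2).2]

end Pool.Agent.H88.Ap
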