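import Mathlib
import Pool.Agent.H88.FpDefs2

namespace Pool.Agent.H88.Fp

/-- The approximation property. -/
def AP {X : Type} [AddCommGroup X] [Module ℝ X] (ν : X → ℝ) : Prop :=
  ∀ C : Set X, Cpt ν C → ∀ ε > 0, ∃ T : X →ₗ[ℝ] X, FiniteDimensional ℝ (LinearMap.range T) ∧
    (∃ L, ∀ x, ν (T x) ≤ L * ν x) ∧ ∀ x ∈ C, ν (T x - x) < ε

end Pool.Agent.H88.Fp
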