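import Mathlib
import Pool.Agent.H88.Fp5
import Pool.Agent.H88.Am1

/-! Quotients of `ℓ_p` of the dyadic tree have the Schur `p`-property. -/

namespace Pool.Agent.H88.Fp

open Pool.Agent.H88.Pex Filter Topology Finset

variable {𝕜 : Type} [RCLike 𝕜] {p θ C : ℝ} {X : Type} [NormedAddCommGroup X] [Module 𝕜 X]

noncomputable def W (p : ℝ) (l : ℕ) (b : ℕ → 𝕜) : ℝ := ∑ i ∈ range (2 ^ l), ‖b i‖ ^ p

noncomputable def lev (m : ℕ → ℕ → X) (l : ℕ) : (ℕ → 𝕜) →ₗ[𝕜] X :=
  ∑ i ∈ range (2 ^ l), (LinearMap.proj i).smulRight (m l i)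

def up (θ : ℝ) (c : ℕ → 𝕜) : ℕ → 𝕜 := fun i => θ * c (i / 2)

lemma lev_apply (m : ℕ → ℕ → X) (l : ℕ) (b : ℕ → 𝕜) :
    lev m l b = ∑ i ∈ range (2 ^ l), b i • m l i := by
  simp [lev, LinearMap.sum_apply]

lemma sum_two {α : Type} [AddCommMonoid α] (f : ℕ → α) (n : ℕ) :
    ∑ i ∈ range (2 * n), f i = ∑ i ∈ range n, (f (2 * i) + f (2 * i + 1)) := by
  induction n with
  | zero => simp
  | succ n ih =>
    rw [mul_add, mul_one, sum_range_succ, sum_range_succ, ih, sum_range_succ, add_assoc]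

lemma W_nonneg (l : ℕ) (b : ℕ → 𝕜) : 0 ≤ W p l b := sum_nonneg fun _ _ => by positivity

lemma W_zero (hp : 0 < p) (l : ℕ) : W p l (0 : ℕ → 𝕜) = 0 := by simp [W, hp.ne']

lemma W_add (hp : 0 < p) (hp1 : p ≤ 1) (l : ℕ) (a b : ℕ → 𝕜) :
    W p l (a + b) ≤ W p l a + W p l b := by
  simp only [W, ← sum_add_distrib]
  exact sum_le_sum fun i _ => (Real.rpow_le_rpow (norm_nonneg _) (norm_add_le _ _) hp.le).trans
    (Real.rpow_add_le_add_rpow (norm_nonneg _) (norm_nonneg _) hp.le hp1)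

lemma W_smul (l : ℕ) (c : 𝕜) (b : ℕ → 𝕜) : W p l (c • b) = ‖c‖ ^ p * W p l b := by
  simp only [W, mul_sum, Pi.smul_apply, norm_smul]
  exact sum_congr rfl fun i _ => Real.mul_rpow (norm_nonneg _) (norm_nonneg _)

lemma W_neg (l : ℕ) (b : ℕ → 𝕜) : W p l (-b) = W p l b := by simp [W]

lemma W_sum (hp : 0 < p) (hp1 : p ≤ 1) (l : ℕ) (s : Finset ℕ) (b : ℕ → ℕ → 𝕜) :
    W p l (∑ k ∈ s, b k) ≤ ∑ k ∈ s, W p l (b k) :=
  le_sum_of_subadditive _ (W_zero hp l).le (W_add hp hp1 l) s b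

lemma W_up (hp : 0 < p) (hθ : 0 < θ) {c : ℕ → ℕ → 𝕜} (h0 : c 0 = 0) (l : ℕ) :
    W p l (up θ (c l)) = 2 * θ ^ p * W p (l - 1) (c l) := by
  cases l with
  | zero => simp [h0, W, up, hp.ne']
  | succ l =>
    simp only [W, up, pow_succ', sum_two, Nat.add_sub_cancel, mul_sum]
    refine sum_congr rfl fun i _ => ?_
    rw [show 2 * i / 2 = i by omega, show (2 * i + 1) / 2 = i by omega, norm_mul,
      RCLike.norm_ofReal, abs_of_pos hθ, Real.mul_rpow hθ.le (norm_nonneg _)]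
    ring

lemma blocks {φ : ℕ → ℕ} (hφ : Monotone φ) {f : ℕ → ℝ} (hf : ∀ l, 0 ≤ f l) {n M : ℕ}
    (hM : φ n ≤ M) : ∑ k ∈ range n, ∑ l ∈ Ico (φ k) (φ (k + 1)), f l ≤ ∑ l ∈ range M, f l := by
  have : ∀ n, ∑ k ∈ range n, ∑ l ∈ Ico (φ k) (φ (k + 1)), f l = ∑ l ∈ Ico (φ 0) (φ n), f l := by
    intro n
    induction n with
    | zero => simp
    | succ n ih =>
      rw [sum_range_succ, ih, sum_Ico_consecutive _ (hφ n.zero_le) (hφ n.le_succ)]
  rw [this]
  exact sum_le_sum_of_subset_of_nonneg (fun l hl => mem_range.2 ((mem_Ico.1 hl).2.trans_le hM))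
    fun _ _ _ => hf _

lemma tele' {m : ℕ → ℕ → X} (rel : ∀ l i, i < 2 ^ l →
    m l i = (θ : 𝕜) • (m (l + 1) (2 * i) + m (l + 1) (2 * i + 1)))
    {c : ℕ → ℕ → 𝕜} (h0 : c 0 = 0) (u : ℕ → ℕ → 𝕜) {a b : ℕ} (hab : a ≤ b) :
    ∑ l ∈ Ico a b, lev m l (u l + c (l + 1) - up θ (c l)) =
      ∑ l ∈ Ico a b, lev m l (u l) + (lev m (b - 1) (c b) - lev m (a - 1) (c a)) := by
  rw [← sum_Ico_sub (fun l => lev m (l - 1) (c l)) hab, ← sum_add_distrib]
  refine sum_congr rfl fun l _ => ?_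
  have : lev m l (up θ (c l)) = lev m (l - 1) (c l) := by
    cases l with
    | zero => simp [h0, lev_apply, up]
    | succ l =>
      simp only [lev_apply, up, pow_succ', sum_two, Nat.add_sub_cancel]
      refine sum_congr rfl fun i hi => ?_
      rw [show 2 * i / 2 = i by omega, show (2 * i + 1) / 2 = i by omega,
        rel l i (mem_range.1 hi)]
      module
  rw [map_sub, map_add, this, Nat.add_sub_cancel, add_sub_assoc]

structure Tree (𝕜 : Type) [RCLike 𝕜] (p θ C : ℝ) {X : Type} [NormedAddCommGroup X] [Module 𝕜 X]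
    (m : ℕ → ℕ → X) : Prop where
  p0 : 0 < p
  p1 : p ≤ 1
  ps : PS 𝕜 p X
  t0 : 0 < θ
  rho : 1 < 2 * θ ^ p
  c1 : 1 ≤ C
  le : ∀ l i, i < 2 ^ l → ‖m l i‖ ≤ 1
  rel : ∀ l i, i < 2 ^ l → m l i = (θ : 𝕜) • (m (l + 1) (2 * i) + m (l + 1) (2 * i + 1))
  dense : ∀ x, ∀ η > 0, ∃ (N : ℕ) (b : ℕ → ℕ → 𝕜), ‖x - ∑ l ∈ range N, lev m l (b l)‖ < η
  low : ∀ (N : ℕ) (u : ℕ → ℕ → 𝕜), (∀ l, N ≤ l → u l = 0) → ∀ η > 0, ∃ N' ≥ N,
    ∃ c : ℕ → ℕ → 𝕜, c 0 = 0 ∧ c N' = 0 ∧ ∑ l ∈ range N', W p l (u l + c (l + 1) - up θ (c l)) ≤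
      C * ‖∑ l ∈ range N, lev m l (u l)‖ + η

namespace Tree

variable {m : ℕ → ℕ → X} (h : Tree 𝕜 p θ C m)
include h

lemma lev_le (l : ℕ) (b : ℕ → 𝕜) : ‖lev m l b‖ ≤ W p l b := by
  rw [lev_apply]
  refine (norm_sum_le _ _).trans (sum_le_sum fun i hi => ?_)
  rw [h.ps]
  exact mul_le_of_le_one_right (by positivity) (h.le l i (mem_range.1 hi))

lemma sum_le (s : Finset ℕ) (b : ℕ → ℕ → 𝕜) :
    ‖∑ l ∈ s, lev m l (b l)‖ ≤ ∑ l ∈ s, W p l (b l) :=
  (norm_sum_le _ _).trans (sum_le_sum fun l _ => h.lev_le l _)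

lemma tele {c : ℕ → ℕ → 𝕜} (h0 : c 0 = 0) (u : ℕ → ℕ → 𝕜) {a b : ℕ} (hab : a ≤ b) :
    ∑ l ∈ Ico a b, lev m l (u l + c (l + 1) - up θ (c l)) =
      ∑ l ∈ Ico a b, lev m l (u l) + (lev m (b - 1) (c b) - lev m (a - 1) (c a)) :=
  tele' h.rel h0 u hab

lemma cbd {c : ℕ → ℕ → 𝕜} (h0 : c 0 = 0) {N : ℕ} (hN : c N = 0) (u : ℕ → ℕ → 𝕜) :
    (2 * θ ^ p - 1) * ∑ l ∈ range N, W p (l - 1) (c l) ≤
      ∑ l ∈ range N, W p l (u l + c (l + 1) - up θ (c l)) + ∑ l ∈ range N, W p l (u l) := by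
  have e := (sum_range_succ (fun l => W p (l - 1) (c l)) N).symm.trans (sum_range_succ' _ N)
  simp only [h0, hN, W_zero h.p0, add_zero, Nat.add_sub_cancel] at e
  rw [sub_mul, one_mul, sub_le_iff_le_add, mul_sum]
  conv_rhs => rw [e, ← sum_add_distrib, ← sum_add_distrib]
  refine sum_le_sum fun l _ => ?_
  rw [← W_up h.p0 h.t0 h0, show up θ (c l) = -(u l + c (l + 1) - up θ (c l)) + u l + c (l + 1) by
    abel]
  refine (W_add h.p0 h.p1 _ _ _).trans (add_le_add_left ((W_add h.p0 h.p1 _ _ _).trans_eq ?_) _)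
  rw [W_neg]
  congr 2
  abel

lemma rep (x : X) {η : ℝ} (hη : 0 < η) : ∃ (N : ℕ) (b : ℕ → ℕ → 𝕜), (∀ l, N ≤ l → b l = 0) ∧
    ‖x - ∑ l ∈ range N, lev m l (b l)‖ < η ∧
    ∑ l ∈ range N, W p l (b l) ≤ C * (‖x‖ + η) + η := by
  obtain ⟨N, b, h1⟩ := h.dense x η hη
  obtain ⟨N', h2, c, c0, c1, h3⟩ := h.low N (fun l => if l < N then b l else 0)
    (fun l hl => if_neg (by omega)) η hη
  have e : ∑ l ∈ range N, lev m l (if l < N then b l else 0) = ∑ l ∈ range N, lev m l (b l) :=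
    sum_congr rfl fun l hl => by rw [if_pos (mem_range.1 hl)]
  have e2 := h.tele c0 (fun l => if l < N then b l else 0) N'.zero_le
  rw [c0, c1, map_zero, map_zero, sub_self, add_zero, ← range_eq_Ico,
    ← sum_subset (f := fun l => lev m l (if l < N then b l else 0)) (range_mono h2)
      (fun l _ hl => by simp [mt mem_range.2 hl]), e] at e2
  rw [e] at h3
  refine ⟨N', fun l => if l < N' then (if l < N then b l else 0) + c (l + 1) - up θ (c l) else 0,
    fun l hl => if_neg (by omega), ?_, ?_⟩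
  · beta_reduce
    rwa [sum_congr rfl fun l hl => by rw [if_pos (mem_range.1 hl)], e2]
  · beta_reduce
    rw [sum_congr rfl fun l hl => by rw [if_pos (mem_range.1 hl)]]
    refine h3.trans (add_le_add_left (mul_le_mul_of_nonneg_left ?_ (by linarith [h.c1])) _)
    linarith [norm_sub_norm_le (∑ l ∈ range N, lev m l (b l)) x,
      norm_sub_rev (∑ l ∈ range N, lev m l (b l)) x]

lemma skip {e : ℕ → ℕ} {g : ℕ} (he : ∀ k, e k + g ≤ e (k + 1)) {b : ℕ → ℕ → 𝕜}
    {B : ℕ → ℕ → ℕ → 𝕜} {R ε : ℝ} (hb : ∑ l ∈ range (e 0), W p l (b l) ≤ R)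
    (hB : ∀ k, ∑ l ∈ Ico (e k + g) (e (k + 1)), W p l (B k l) ≤ R)
    (hZ : ∀ k, ε ≤ ‖∑ l ∈ Ico (e k + g) (e (k + 1)), lev m l (B k l)‖)
    (g1 : 2 ≤ g * (2 * θ ^ p - 1)) (g2 : 8 * R ≤ ε * (g * (2 * θ ^ p - 1))) (n : ℕ) (a : ℕ → 𝕜) :
    ε / 4 * ∑ k ∈ range n, ‖a k‖ ^ p ≤ C * ‖∑ k ∈ range n, a k • (∑ l ∈ range (e 0),
      lev m l (b l) + ∑ l ∈ Ico (e k + g) (e (k + 1)), lev m l (B k l))‖ := by
  have em : Monotone e := monotone_nat_of_le_succ fun k => le_of_add_le_left (he k)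
  let u : ℕ → ℕ → 𝕜 := fun l => ∑ k ∈ range n, a k • ((if l ∈ range (e 0) then b l else 0) +
    if l ∈ Ico (e k + g) (e (k + 1)) then B k l else 0)
  have hu : ∀ s : Finset ℕ, ∑ l ∈ s, lev m l (u l) = ∑ k ∈ range n, a k •
      (∑ l ∈ s ∩ range (e 0), lev m l (b l) +
        ∑ l ∈ s ∩ Ico (e k + g) (e (k + 1)), lev m l (B k l)) := fun s => by
    simp only [u, map_sum, map_smul, map_add, apply_ite (lev m _), map_zero]
    rw [sum_comm]
    simp only [← smul_sum, sum_add_distrib, sum_ite_mem]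
  refine le_of_forall_pos_le_add fun η hη => ?_
  obtain ⟨N, hN, c, c0, c1, h1⟩ := h.low (e (n + 1)) u (fun l hl => sum_eq_zero fun k hk => by
    have := em (Nat.zero_le (n + 1))
    have := em (show k + 1 ≤ n + 1 by linarith [mem_range.1 hk])
    rw [if_neg (by simp; omega), if_neg (by simp; omega), add_zero, smul_zero]) η hη
  rw [hu, inter_eq_right.2 (range_mono (em (Nat.zero_le _))),
    sum_congr (s₁ := range n) rfl fun k hk => by
    rw [inter_eq_right.2 fun l hl => mem_range.2 ((mem_Ico.1 hl).2.trans_le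
      (em (show k + 1 ≤ n + 1 by linarith [mem_range.1 hk])))]] at h1
  refine le_trans ?_ h1
  have h2 := h.cbd c0 c1 u
  set S := ∑ k ∈ range n, ‖a k‖ ^ p
  set Wt := ∑ l ∈ range N, W p l (u l + c (l + 1) - up θ (c l))
  set Ct := ∑ l ∈ range N, W p (l - 1) (c l)
  have h3 : ∑ l ∈ range N, W p l (u l) ≤ S * (2 * R) := by
    refine (sum_le_sum fun l _ => W_sum h.p0 h.p1 l _ _).trans ?_
    rw [sum_comm, sum_mul]
    refine sum_le_sum fun k _ => ?_
    simp only [W_smul, ← mul_sum]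
    refine mul_le_mul_of_nonneg_left ((sum_le_sum fun l _ => W_add h.p0 h.p1 l _ _).trans ?_)
      (by positivity)
    simp only [apply_ite (W p _), W_zero h.p0, sum_add_distrib, sum_ite_mem]
    linarith [hB k, sum_le_sum_of_subset_of_nonneg (f := fun l => W p l (b l))
      (inter_subset_right (s₁ := range N) (s₂ := range (e 0))) fun _ _ _ => W_nonneg _ _,
      sum_le_sum_of_subset_of_nonneg (f := fun l => W p l (B k l))
      (inter_subset_right (s₁ := range N) (s₂ := Ico (e k + g) (e (k + 1))))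
      fun _ _ _ => W_nonneg _ _]
  have h4 : ∀ j ∈ range g, S * ε ≤ Wt + (∑ k ∈ range n, W p (e (k + 1) + j - 1) (c (e (k + 1) + j))
      + ∑ k ∈ range n, W p (e k + j - 1) (c (e k + j))) := by
    intro j hj
    rw [mem_range] at hj
    refine le_trans ?_ (add_le_add_left (blocks (φ := fun k => e k + j)
      (fun a b hab => Nat.add_le_add_right (em hab) j) (fun l => W_nonneg _ _) (n := n)
      (by linarith [he n])) _)
    rw [sum_mul, ← sum_add_distrib, ← sum_add_distrib]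
    refine sum_le_sum fun k hk => ?_
    have t := h.tele c0 u (Nat.add_le_add_right (em k.le_succ) j)
    rw [hu, sum_eq_single_of_mem k hk fun i _ hik => by
      have := em (Nat.zero_le k)
      rw [sum_eq_zero fun l hl => by simp at hl; omega, sum_eq_zero fun l hl => by
        simp only [mem_inter, mem_Ico] at hl
        rcases lt_or_gt_of_ne hik with h | h
        · linarith [em (show i + 1 ≤ k from h)]
        · linarith [em (show k + 1 ≤ i from h)], add_zero, smul_zero],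
      sum_eq_zero (s := _ ∩ range (e 0)) fun l hl => by
        have := em (Nat.zero_le k)
        simp at hl; omega, zero_add, inter_eq_right.2 (Ico_subset_Ico (by omega)
          (Nat.le_add_right _ _)),
      ← sub_eq_iff_eq_add] at t
    refine (mul_le_mul_of_nonneg_left (hZ k) (by positivity)).trans ?_
    rw [← h.ps, ← t]
    exact (norm_sub_le _ _).trans (add_le_add (h.sum_le _ _) ((norm_sub_le _ _).trans
      (add_le_add (h.lev_le _ _) (h.lev_le _ _))))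
  have h5 : ∀ φ : ℕ → ℕ, (∀ k, φ k + g ≤ φ (k + 1)) → φ n ≤ N →
      ∑ j ∈ range g, ∑ k ∈ range n, W p (φ k + j - 1) (c (φ k + j)) ≤ Ct := by
    intro φ h1 h2
    rw [sum_comm]
    refine le_trans (sum_le_sum fun k _ => ?_) (blocks (monotone_nat_of_le_succ fun k =>
      le_of_add_le_left (h1 k)) (fun l => W_nonneg _ _) h2)
    rw [sum_Ico_eq_sum_range]
    exact sum_le_sum_of_subset_of_nonneg (range_mono (by have := h1 k; omega))
      fun _ _ _ => W_nonneg _ _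
  have h6 := sum_le_sum h4
  simp only [sum_add_distrib, sum_const, card_range, nsmul_eq_mul] at h6
  have h7 := h5 _ he ((em n.le_succ).trans hN)
  have h8 := h5 (fun k => e (k + 1)) (fun k => he _) hN
  have S0 : 0 ≤ S := sum_nonneg fun _ _ => by positivity
  have W0 : 0 ≤ Wt := sum_nonneg fun _ _ => W_nonneg _ _
  have r0 := sub_pos.2 h.rho
  set G := g * (2 * θ ^ p - 1) with hG
  have h9 : G * (S * ε) ≤ G * Wt + 2 * (Wt + S * (2 * R)) := by
    have := mul_le_mul_of_nonneg_left (show g * (S * ε) ≤ g * Wt + 2 * Ct by linarith) r0.le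
    rw [hG]
    nlinarith
  refine le_of_mul_le_mul_left ?_ (show 0 < G by linarith)
  nlinarith [mul_le_mul_of_nonneg_left g2 S0, mul_le_mul_of_nonneg_left g1 W0]

theorem schur {A : Set X} (hA : A.Infinite) {R r : ℝ} (hR : ∀ x ∈ A, ‖x‖ ≤ R) (hr : 0 < r)
    (hs : ∀ x ∈ A, ∀ y ∈ A, x ≠ y → r ≤ ‖x - y‖) : ∃ x : ℕ → X, (∀ n, x n ∈ A) ∧ ∃ c > 0,
      ∀ (s : Finset ℕ) (a : ℕ → 𝕜), c * ∑ n ∈ s, ‖a n‖ ^ p ≤ ‖∑ n ∈ s, a n • x n‖ := by
  have hp := h.p0
  have C0 : 0 < C := by linarith [h.c1]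
  set η := r / (96 * C) with hη
  have η0 : 0 < η := by positivity
  have η1 : 3 * η ≤ r / 4 := by
    rw [hη, ← mul_div_assoc, div_le_div_iff₀ (by positivity) (by positivity)]
    nlinarith [h.c1]
  let x : ℕ → X := fun n => hA.natEmbedding A n
  have xA : ∀ n, x n ∈ A := fun n => (hA.natEmbedding A n).2
  choose N B B0 B1 B2 using fun n => h.rep (x n) η0
  set R' := C * (R + η) + η
  have B3 : ∀ n (s : Finset ℕ), ∑ l ∈ s, W p l (B n l) ≤ R' := fun n s => by
    refine le_trans ?_ ((B2 n).trans (add_le_add_left (mul_le_mul_of_nonneg_left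
      (add_le_add_left (hR _ (xA n)) _) C0.le) _))
    rw [← sum_filter_ne_zero]
    refine sum_le_sum_of_subset_of_nonneg (fun l hl => mem_range.2 (not_le.1 fun e =>
      (mem_filter.1 hl).2 ?_)) fun _ _ _ => W_nonneg _ _
    rw [B0 n l e, W_zero hp]
  have hl : ∀ l i, i < 2 ^ l → ∃ z, Tendsto (fun n => B n l i) (hyperfilter ℕ) (𝓝 z) := by
    intro l i hi
    obtain ⟨z, -, hz⟩ := (isCompact_closedBall (0 : 𝕜) (R' ^ p⁻¹)).ultrafilter_le_nhds
      ((hyperfilter ℕ).map fun n => B n l i) (le_principal_iff.2 (mem_map.2 (univ_mem' fun n => by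
        have := (single_le_sum (f := fun i => ‖B n l i‖ ^ p) (fun _ _ => by positivity)
          (mem_range.2 hi)).trans ((sum_singleton _ l).symm.trans_le (B3 n {l}))
        simpa using (Real.le_rpow_inv_iff_of_pos (norm_nonneg _) (le_trans (by positivity) this)
          hp).2 this)))
    exact ⟨z, hz⟩
  choose! b hb using hl
  have hc := Real.continuous_rpow_const hp.le
  have b1 : ∀ s : Finset ℕ, ∑ l ∈ s, W p l (b l) ≤ R' := fun s =>
    le_of_tendsto' (tendsto_finsetSum s fun l _ => tendsto_finsetSum _ fun i hi =>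
      (hc.tendsto _).comp (hb l i (mem_range.1 hi)).norm) fun n => B3 n s
  obtain ⟨t, ht⟩ := summable_iff_vanishing_norm.1 (summable_of_sum_le (fun l => W_nonneg l _) b1)
    η η0
  set t0 := t.sup id + 1
  set y := ∑ l ∈ range t0, lev m l (b l)
  have b2 : ∀ s, ∃ n, ∑ l ∈ range s, W p l (B n l - b l) < η ∧ r / 2 ≤ ‖x n - y‖ := by
    intro s
    refine (Eventually.and (f := hyperfilter ℕ) (Tendsto.eventually_lt_const (v := 0) η0 ?_)
      (hyperfilter_le_cofinite (Set.Subsingleton.finite fun i hi j hj => ?_))).exists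
    · simpa [hp.ne', W] using tendsto_finsetSum (range s) fun l _ => tendsto_finsetSum _
        fun i hi => (hc.tendsto _).comp ((hb l i (mem_range.1 hi)).sub_const (b l i)).norm
    · by_contra hij
      have := hs _ (xA i) _ (xA j) fun e => hij ((hA.natEmbedding A).injective (Subtype.ext e))
      simp only [Set.mem_compl_iff, Set.mem_ofPred_eq, not_le] at hi hj
      linarith [norm_sub_le_norm_sub_add_norm_sub (x i) y (x j), norm_sub_rev y (x j)]
  choose nx n1 n2 using b2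
  have r0 := sub_pos.2 h.rho
  obtain ⟨g, hg⟩ := exists_nat_ge (max 2 (8 * R' / (r / 4)) / (2 * θ ^ p - 1))
  rw [div_le_iff₀ r0, max_le_iff, div_le_iff₀' (by positivity)] at hg
  obtain ⟨e, e0, e1⟩ : ∃ e : ℕ → ℕ, e 0 = t0 ∧ ∀ k, e (k + 1) = max (N (nx (e k + g))) (e k + g) :=
    ⟨fun k => Nat.rec t0 (fun _ e => max (N (nx (e + g))) (e + g)) k, rfl, fun _ => rfl⟩
  have he : ∀ k, e k + g ≤ e (k + 1) := fun k => e1 k ▸ le_max_right _ _
  have em : Monotone e := monotone_nat_of_le_succ fun k => le_of_add_le_left (he k)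
  have ap : ∀ k, ‖x (nx (e k + g)) - (y + ∑ l ∈ Ico (e k + g) (e (k + 1)),
      lev m l (B (nx (e k + g)) l))‖ ≤ 3 * η := by
    intro k
    have a1 := B1 (nx (e k + g))
    rw [sum_subset (range_mono (e1 k ▸ le_max_left _ _ : _ ≤ e (k + 1))) (fun l _ hl => by
      rw [B0 _ l (not_lt.1 (mt mem_range.2 hl)), map_zero]),
      ← sum_range_add_sum_Ico _ (he k)] at a1
    have a2 := (h.sum_le _ _).trans_lt (n1 (e k + g))
    have a3 := (h.sum_le _ _).trans_lt ((le_abs_self _).trans_lt (ht (Ico t0 (e k + g))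
      (disjoint_left.2 fun l hl hl' => by
        have : l ≤ t.sup id := le_sup (f := id) hl'
        have := (mem_Ico.1 hl).1
        omega)))
    simp only [map_sub, sum_sub_distrib] at a2
    rw [← sum_range_add_sum_Ico (fun l => lev m l (b l)) (e0 ▸ (em k.zero_le).trans
      (Nat.le_add_right _ g) : t0 ≤ e k + g)] at a2
    refine le_trans (le_of_eq (congrArg _ ?_)) ((norm_add₃_le.trans
      (add_le_add (add_le_add a1.le a2.le) a3.le)).trans_eq (by ring))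
    abel
  refine ⟨fun k => x (nx (e k + g)), fun k => xA _, r / (32 * C), by positivity, fun s a => ?_⟩
  have key := h.skip he (b := b) (B := fun k => B (nx (e k + g))) (ε := r / 4)
    (b1 _) (fun k => B3 _ _) (fun k => by
      linarith [ap k, n2 (e k + g), norm_sub_le_norm_sub_add_norm_sub (x (nx (e k + g)))
        (y + ∑ l ∈ Ico (e k + g) (e (k + 1)), lev m l (B (nx (e k + g)) l)) y,
        congrArg norm (add_sub_cancel_left y
          (∑ l ∈ Ico (e k + g) (e (k + 1)), lev m l (B (nx (e k + g)) l)))])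
    hg.1 hg.2 (s.sup id + 1) fun k => if k ∈ s then a k else 0
  have sub : s ⊆ range (s.sup id + 1) := fun k hk =>
    mem_range.2 (Nat.lt_succ_of_le (le_sup (f := id) hk))
  simp only [apply_ite (fun z : 𝕜 => ‖z‖ ^ p), norm_zero, Real.zero_rpow hp.ne', ite_smul,
    zero_smul, sum_ite_mem, inter_eq_right.2 sub, e0] at key
  have a4 : ‖∑ k ∈ s, a k • x (nx (e k + g)) - ∑ k ∈ s, a k • (y + ∑ l ∈ Ico (e k + g)
      (e (k + 1)), lev m l (B (nx (e k + g)) l))‖ ≤ 3 * η * ∑ k ∈ s, ‖a k‖ ^ p := by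
    rw [← sum_sub_distrib, mul_sum]
    refine (norm_sum_le _ _).trans (sum_le_sum fun k _ => ?_)
    rw [← smul_sub, h.ps, mul_comm]
    exact mul_le_mul_of_nonneg_right (ap k) (by positivity)
  rw [norm_sub_rev] at a4
  have a5 := mul_le_mul_of_nonneg_left ((norm_sub_norm_le _ _).trans a4) C0.le
  have a6 : C * (3 * η * ∑ k ∈ s, ‖a k‖ ^ p) = r / 32 * ∑ k ∈ s, ‖a k‖ ^ p := by
    rw [hη]; field_simp; ring
  rw [div_mul_eq_mul_div, div_le_iff₀ (by positivity)]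
  linarith

end Tree

lemma schurP_of {ν : X → ℝ} (hB : IsPBanach 𝕜 p ν) (hν : ∀ x, ‖x‖ = ν x ^ p)
    {m : ℕ → ℕ → X} (h : Tree 𝕜 p θ C m) : SchurP 𝕜 p ν := by
  rintro A hA ⟨R, hR⟩ ⟨r, hr, hs⟩
  have hp := h.p0
  have hR' : ∀ w ∈ A, ‖w‖ ≤ |R| ^ p := fun w hw => by
    rw [hν]
    exact Real.rpow_le_rpow (hB.nonneg _) ((hR w hw).trans (le_abs_self _)) hp.le
  obtain ⟨x, h1, c, h2, h3⟩ := h.schur hA hR' (Real.rpow_pos_of_pos hr p) fun x hx y hy hxy => by
    rw [hν]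
    exact Real.rpow_le_rpow hr.le (hs x hx y hy hxy) hp.le
  refine ⟨x, h1, c ^ p⁻¹, max (c ^ p⁻¹) |R|, by positivity, le_max_left _ _, fun s a => ?_⟩
  have S0 : 0 ≤ ∑ n ∈ s, ‖a n‖ ^ p := sum_nonneg fun _ _ => by positivity
  rw [nu_eq hB hp hν, one_div, ← Real.mul_rpow h2.le S0]
  refine ⟨Real.rpow_le_rpow (by positivity) (h3 s a) (by positivity), le_trans ?_
    (mul_le_mul_of_nonneg_right (le_max_right _ _) (by positivity))⟩
  rw [← Real.rpow_rpow_inv (abs_nonneg R) hp.ne', ← Real.mul_rpow (by positivity) S0, mul_sum]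
  refine Real.rpow_le_rpow (norm_nonneg _) ((norm_sum_le _ _).trans (sum_le_sum fun n _ => ?_))
    (by positivity)
  rw [h.ps, mul_comm]
  exact mul_le_mul_of_nonneg_right (hR' _ (h1 n)) (by positivity)

end Pool.Agent.H88.Fp
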