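import Mathlib
import Pool.Agent.H88.Tq1

/-! Construction of the tree quotients. -/

namespace Pool.Agent.H88.Fp

open Pool.Agent.H88.Pex Filter Topology Finset UniformSpace

variable {𝕜 : Type} [RCLike 𝕜] {p θ : ℝ}

theorem exists_compl {V : Type} [AddCommGroup V] [Module 𝕜 V] (q : V → ℝ) (q0 : q 0 = 0)
    (qa : ∀ u v, q (u + v) ≤ q u + q v) (qs : ∀ (c : 𝕜) v, q (c • v) = ‖c‖ ^ p * q v) :
    ∃ (X : Type) (_ : NormedAddCommGroup X) (_ : Module 𝕜 X) (j : V →ₗ[𝕜] X), CompleteSpace X ∧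
      PS 𝕜 p X ∧ DenseRange j ∧ (∀ v, ‖j v‖ = q v) ∧
      ∀ (Y : Type) [NormedAddCommGroup Y] [Module 𝕜 Y] [CompleteSpace Y] [ContinuousConstSMul 𝕜 Y]
        (T : V →ₗ[𝕜] Y) (ω : ℝ → ℝ), Continuous ω → ω 0 = 0 → (∀ v, ‖T v‖ ≤ ω (q v)) →
        ∃ S : X →ₗ[𝕜] Y, (∀ v, S (j v) = T v) ∧ ∀ x, ‖S x‖ ≤ ω ‖x‖ := by
  let : SeminormedAddCommGroup V := AddGroupSeminorm.toSeminormedAddCommGroup
    { toFun := q, map_zero' := q0, add_le' := qa
      neg' := fun v => by simpa using qs (-1) v }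
  have hq : ∀ v : V, ‖v‖ = q v := fun _ => rfl
  have : UniformContinuousConstSMul 𝕜 V := ⟨fun c =>
    AddMonoidHomClass.uniformContinuous_of_bound (DistribSMul.toAddMonoidHom V c) (‖c‖ ^ p)
      fun v => (qs c v).le⟩
  refine ⟨Completion V, inferInstance, inferInstance, ⟨⟨(↑), Completion.coe_add⟩,
    Completion.coe_smul⟩, inferInstance, fun c x => ?_, Completion.denseRange_coe,
    Completion.norm_coe, fun Y _ _ _ _ T ω h1 h2 h3 => ?_⟩
  · induction x using Completion.induction_on with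
    | hp => exact isClosed_eq (by fun_prop) (by fun_prop)
    | ih v => rw [← Completion.coe_smul, Completion.norm_coe, Completion.norm_coe, hq, hq, qs]
  · have hT : Continuous T.toAddMonoidHom := continuous_of_continuousAt_zero _ (by
      rw [ContinuousAt, map_zero]
      refine squeeze_zero_norm h3 ?_
      exact (h1.comp (continuous_norm (E := V))).tendsto' 0 0 (by simp [h2]))
    have e := T.toAddMonoidHom.extension_coe hT
    have c := T.toAddMonoidHom.continuous_extension hT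
    refine ⟨⟨(T.toAddMonoidHom.extension hT).toAddHom, fun a x => ?_⟩, e, fun x => ?_⟩
    · induction x using Completion.induction_on with
      | hp => exact isClosed_eq (c.comp (continuous_const_smul a)) (c.const_smul a)
      | ih v => simp [← Completion.coe_smul, e]
    · induction x using Completion.induction_on with
      | hp => exact isClosed_le c.norm (by fun_prop)
      | ih v => simpa [e, hq] using h3 v

def Adm (p θ : ℝ) (u : ℕ → ℕ → 𝕜) (t : ℝ) : Prop :=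
  ∀ᶠ N in atTop, (∀ l, N ≤ l → u l = 0) ∧ ∃ c : ℕ → ℕ → 𝕜, c 0 = 0 ∧ c N = 0 ∧
    ∑ l ∈ range N, W p l (u l + c (l + 1) - up θ (c l)) ≤ t

lemma adm_of (hp : 0 < p) {u c : ℕ → ℕ → 𝕜} {N : ℕ} (hu : ∀ l, N ≤ l → u l = 0) (c0 : c 0 = 0)
    (c1 : ∀ l, N ≤ l → c l = 0) :
    Adm p θ u (∑ l ∈ range N, W p l (u l + c (l + 1) - up θ (c l))) := by
  filter_upwards [eventually_ge_atTop N] with M hM
  refine ⟨fun l hl => hu l (hM.trans hl), c, c0, c1 M hM, (sum_subset (range_mono hM)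
    fun l _ hl => ?_).ge⟩
  have := not_lt.1 (mt mem_range.2 hl)
  simp [hu l this, c1 l this, c1 (l + 1) (by omega), W, up, hp.ne']

lemma fin_zero (u : ℕ →₀ ℕ → 𝕜) : ∃ N, ∀ l, N ≤ l → u l = 0 :=
  ⟨u.support.sup id + 1, fun l hl => Finsupp.notMem_support_iff.1 fun h => by
    have : l ≤ u.support.sup id := le_sup (f := id) h
    omega⟩

theorem exists_tree (hp : 0 < p) (hp1 : p ≤ 1) (hθ : 0 < θ) (hρ : 1 < 2 * θ ^ p) :
    ∃ (X : Type) (_ : NormedAddCommGroup X) (_ : Module 𝕜 X) (m : ℕ → ℕ → X), CompleteSpace X ∧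
      Tree 𝕜 p θ 1 m ∧ m 0 0 ≠ 0 ∧ ∀ ψ : ℕ → ℕ → 𝕜, (∀ l i, ‖ψ l i‖ ≤ 1) →
        (∀ l i, i < 2 ^ l → ψ l i = (θ : 𝕜) • (ψ (l + 1) (2 * i) + ψ (l + 1) (2 * i + 1))) →
        ∃ φ : X →ₗ[𝕜] 𝕜, (∀ l (b : ℕ → 𝕜), φ (lev m l b) = lev ψ l b) ∧ ∀ x, ‖φ x‖ ≤ ‖x‖ ^ p⁻¹ := by
  let q : (ℕ →₀ ℕ → 𝕜) → ℝ := fun u => sInf {t | Adm p θ u t}
  have a0 : ∀ (u : ℕ →₀ ℕ → 𝕜) t, Adm p θ u t → 0 ≤ t := fun u t ht => by
    obtain ⟨N, -, c, -, -, h⟩ := ht.exists
    exact (sum_nonneg fun _ _ => W_nonneg _ _).trans h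
  have q_le : ∀ (u : ℕ →₀ ℕ → 𝕜) t, Adm p θ u t → q u ≤ t := fun u t ht =>
    csInf_le ⟨0, a0 u⟩ ht
  have ne : ∀ u : ℕ →₀ ℕ → 𝕜, {t | Adm p θ u t}.Nonempty := fun u => by
    obtain ⟨N, hN⟩ := fin_zero u
    exact ⟨_, adm_of hp (c := 0) hN rfl fun _ _ => rfl⟩
  have le_q : ∀ (u : ℕ →₀ ℕ → 𝕜) s, (∀ t, Adm p θ u t → s ≤ t) → s ≤ q u := fun u s h =>
    le_csInf (ne u) h
  have q0 : ∀ u, 0 ≤ q u := fun u => le_q u 0 (a0 u)
  have qz : q 0 = 0 := le_antisymm ((q_le 0 _ (adm_of hp (c := 0) (N := 0) (fun _ _ => rfl) rfl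
    fun _ _ => rfl)).trans_eq (by simp)) (q0 0)
  have qs : ∀ (a : 𝕜) u, a ≠ 0 → q (a • u) ≤ ‖a‖ ^ p * q u := fun a u ha => by
    rw [← div_le_iff₀' (by positivity)]
    refine le_q _ _ fun t ht => ?_
    rw [div_le_iff₀' (by positivity)]
    refine q_le _ _ (ht.mono fun N ⟨h0, c, h1, h2, h3⟩ => ⟨fun l hl => by simp [h0 l hl], a • c,
      by simp [h1], by simp [h2], le_trans (le_of_eq ?_)
        (mul_le_mul_of_nonneg_left h3 (by positivity))⟩)
    rw [mul_sum]
    refine sum_congr rfl fun l _ => ?_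
    rw [← W_smul]
    congr 1
    ext i
    simp [up]
    ring
  obtain ⟨X, _, _, j, h1, h2, h3, h4, h5⟩ := exists_compl (𝕜 := 𝕜) (p := p) q qz
    (fun u v => by
      rw [← sub_le_iff_le_add']
      refine le_q _ _ fun t ht => ?_
      rw [sub_le_comm]
      refine le_q _ _ fun s hs => ?_
      rw [sub_le_iff_le_add]
      refine q_le _ _ ((hs.and ht).mono fun N ⟨⟨a0, a, a1, a2, a3⟩, b0, b, b1, b2, b3⟩ =>
        ⟨fun l hl => by simp [a0 l hl, b0 l hl], a + b, by simp [a1, b1], by simp [a2, b2],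
          le_trans ?_ (add_le_add a3 b3)⟩)
      rw [← sum_add_distrib]
      refine sum_le_sum fun l _ => le_trans (le_of_eq ?_) (W_add hp hp1 _ _ _)
      congr 1
      ext i
      simp [up]
      ring)
    (fun a u => by
      by_cases ha : a = 0
      · simp [ha, qz, hp.ne']
      refine le_antisymm (qs a u ha) ?_
      have := qs _ (a • u) (inv_ne_zero ha)
      rwa [inv_smul_smul₀ ha, norm_inv, Real.inv_rpow (norm_nonneg _),
        le_inv_mul_iff₀ (by positivity)] at this)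
  let m : ℕ → ℕ → X := fun l i => j (Finsupp.single l (Pi.single i 1))
  have s1 : ∀ l b, ‖j (Finsupp.single l b)‖ ≤ W p l b := fun l b => by
    rw [h4]
    refine (q_le _ _ (adm_of hp (c := 0) (N := l + 1) (fun k hk => Finsupp.single_eq_of_ne
      (by omega)) rfl fun _ _ => rfl)).trans_eq ?_
    rw [sum_eq_single_of_mem l (by simp) fun k _ hk => by simp [hk, W, up, hp.ne']]
    simp [W, up]
  have s2 : ∀ l b, lev m l b = j (Finsupp.single l b) := fun l b => by
    rw [lev_apply, ← sub_eq_zero, ← norm_le_zero_iff]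
    simp only [m, ← map_smul, ← map_sum, ← map_sub, Finsupp.smul_single,
      ← Finsupp.single_finsetSum, ← Finsupp.single_sub]
    refine (s1 _ _).trans_eq (sum_eq_zero fun i hi => ?_)
    simp [Pi.single_apply, hi, hp.ne']
  have s3 : ∀ (N : ℕ) (u : ℕ →₀ ℕ → 𝕜), (∀ l, N ≤ l → u l = 0) →
      ∑ l ∈ range N, lev m l (u l) = j u := fun N u hu => by
    simp only [s2, ← map_sum]
    congr 1
    ext1 l
    by_cases hl : l < N
    · simp [Finsupp.single_apply, hl]
    · simp [Finsupp.single_apply, hl, hu l (not_lt.1 hl)]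
  refine ⟨X, inferInstance, inferInstance, m, h1, ⟨hp, hp1, h2, hθ, hρ, le_rfl, fun l i hi => ?_,
    fun l i hi => ?_, fun x η hη => ?_, fun N u hu η hη => ?_⟩, fun h0 => ?_, fun ψ ψ1 ψ2 => ?_⟩
  · refine (s1 _ _).trans_eq ?_
    rw [W, sum_eq_single_of_mem i (mem_range.2 hi) fun k _ hk => by simp [hk, hp.ne']]
    simp
  · rw [← sub_eq_zero, ← norm_le_zero_iff]
    simp only [m, ← map_smul, ← map_add, ← map_sub, h4]
    refine (q_le _ _ (adm_of hp (c := fun k => if k = l + 1 then -Pi.single i 1 else 0)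
      (N := l + 2) (fun k hk => ?_) (by simp) fun k hk => if_neg (by omega))).trans_eq
      (sum_eq_zero fun k _ => sum_eq_zero fun a _ => ?_)
    · simp [show k ≠ l by omega, show k ≠ l + 1 by omega]
    · rw [Real.rpow_eq_zero (norm_nonneg _) hp.ne', norm_eq_zero]
      by_cases h1 : k = l
      · simp [h1, up]
      by_cases h2 : k = l + 1
      · subst h2
        simp [Pi.single_apply, up]
        split_ifs <;> first | omega | simp [RCLike.real_smul_eq_coe_mul]
      · simp [h1, h2, up]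
  · obtain ⟨v, hv⟩ := h3.exists_dist_lt x hη
    obtain ⟨N, hN⟩ := fin_zero v
    exact ⟨N, v, by rwa [s3 N v hN, ← dist_eq_norm]⟩
  · let v : ℕ →₀ ℕ → 𝕜 := Finsupp.onFinset (range N) u fun l hl =>
      mem_range.2 (not_le.1 fun e => hl (hu l e))
    have e := s3 N v hu
    obtain ⟨t, ht, h6⟩ := exists_lt_of_csInf_lt (ne v) (lt_add_of_pos_right (q v) hη)
    obtain ⟨M, ⟨-, c, c0, c1, c2⟩, hM⟩ := (ht.and (eventually_ge_atTop N)).exists
    exact ⟨M, hM, c, c0, c1, c2.trans (by rw [one_mul, ← h4, ← e] at *; exact h6.le)⟩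
  · have := h4 (Finsupp.single 0 (Pi.single 0 1))
    rw [show j _ = 0 from h0, norm_zero] at this
    refine zero_lt_one.not_ge (this ▸ le_q _ _ fun t ht => ?_)
    obtain ⟨N, ⟨-, c, c0, c1, c2⟩, hN⟩ := (ht.and (eventually_ge_atTop 1)).exists
    obtain ⟨N, rfl⟩ := Nat.exists_eq_add_of_le' hN
    refine le_trans ?_ c2
    have k1 : ∀ k, W p 0 (c 1) ≤ ∑ l ∈ range k, W p (l + 1) (c (l + 2) - up θ (c (l + 1))) +
        W p k (c (k + 1)) := by
      intro k
      induction k with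
      | zero => simp
      | succ k ih =>
        have b1 := W_up hp hθ c0 (k + 1)
        have b2 := W_add hp hp1 (k + 1) (-(c (k + 2) - up θ (c (k + 1)))) (c (k + 2))
        rw [W_neg, neg_sub, sub_add_cancel, b1, Nat.add_sub_cancel] at b2
        rw [sum_range_succ]
        nlinarith [W_nonneg (p := p) k (c (k + 1))]
    have k2 := W_add hp hp1 0 (Pi.single 0 1 + c 1) (-c 1)
    have k3 := k1 N
    rw [c1, W_zero hp] at k3
    rw [W_neg, add_neg_cancel_right] at k2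
    have k4 : up θ (0 : ℕ → 𝕜) = 0 := by ext; simp [up]
    have k5 : W p 0 (Pi.single 0 1 : ℕ → 𝕜) = 1 := by simp [W]
    simp only [sum_range_succ', c0, k4, Finsupp.single_eq_same, sub_zero, zero_add,
      Finsupp.single_eq_of_ne (Nat.succ_ne_zero _)]
    linarith
  · obtain ⟨φ, f1, f2⟩ := h5 𝕜 (Finsupp.lsum 𝕜 (lev ψ)) (fun t => t ^ p⁻¹)
      (Real.continuous_rpow_const (by positivity)) (Real.zero_rpow (by positivity)) fun u => by
      rw [Real.le_rpow_inv_iff_of_pos (norm_nonneg _) (q0 u) hp]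
      refine le_q _ _ fun t ht => ?_
      obtain ⟨N, h0, c, c0, c1, c2⟩ := ht.exists
      have e := tele' ψ2 c0 u N.zero_le
      rw [c0, c1, map_zero, map_zero, sub_self, add_zero, ← range_eq_Ico] at e
      rw [Finsupp.lsum_apply, Finsupp.sum_of_support_subset _ (s := range N) (fun l hl =>
        mem_range.2 (not_le.1 fun e => Finsupp.mem_support_iff.1 hl (h0 l e))) _ (by simp), ← e]
      refine le_trans ((Real.rpow_le_rpow (norm_nonneg _) (norm_sum_le _ _) hp.le).trans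
        ((Am.rsum_le hp hp1 _ fun _ => norm_nonneg _).trans (sum_le_sum fun l _ => ?_))) c2
      rw [lev_apply]
      refine (Real.rpow_le_rpow (norm_nonneg _) (norm_sum_le _ _) hp.le).trans
        ((Am.rsum_le hp hp1 _ fun _ => norm_nonneg _).trans (sum_le_sum fun i _ =>
          Real.rpow_le_rpow (norm_nonneg _) ?_ hp.le))
      rw [norm_smul]
      exact mul_le_of_le_one_right (norm_nonneg _) (ψ1 l i)
    exact ⟨φ, fun l b => by simp [s2, f1], f2⟩

end Pool.Agent.H88.Fp
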