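import Mathlib
import Pool.Agent.H88.Ap2
import Pool.Agent.H88.Tq2
import Pool.Agent.H88.FpDefs4
import Pool.Agent.H60.APb

/-! Existence of free `p`-spaces, and failure of the approximation property. -/

namespace Pool.Agent.H88.Ap

open Pool.Agent.H88.Nb Pool.Agent.H88.Fp Pool.Agent.H88.Pex Filter Topology Finsupp

variable {p : ℝ}

theorem exists_free (hp : 0 < p) (hp1 : p ≤ 1) {M : Type} [MetricSpace M] (o : M) :
    ∃ (X : Type) (_ : AddCommGroup X) (_ : Module ℝ X) (ν : X → ℝ) (δ : M → X),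
      IsFree ℝ p o ν δ := by
  let π : (M →₀ ℝ) →ₗ[ℝ] (M →₀ ℝ) :=
    LinearMap.id - (linearCombination ℝ fun _ => (1 : ℝ)).smulRight (single o 1)
  have star : ∀ μ : M →₀ ℝ, bd (mapDomain (·, o) μ) = π μ := fun μ => by
    induction μ using Finsupp.induction_linear with
    | zero => simp
    | add a b ha hb => rw [mapDomain_add, map_add, ha, hb, map_add]
    | single e a => simp [bd_single, smul_sub, π]
  let q : (M →₀ ℝ) → ℝ := fun μ => sInf (cost p '' {w | bd w = π μ})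
  have q_le : ∀ μ w, bd w = π μ → q μ ≤ cost p w := fun μ w h =>
    csInf_le ⟨0, by rintro _ ⟨w, -, rfl⟩; exact cost_nonneg w⟩ ⟨w, h, rfl⟩
  have le_q : ∀ μ a, (∀ w, bd w = π μ → a ≤ cost p w) → a ≤ q μ := fun μ a h =>
    le_csInf ⟨_, _, star μ, rfl⟩ (by rintro _ ⟨w, k, rfl⟩; exact h w k)
  have q0 : ∀ μ, π μ = 0 → q μ = 0 := fun μ h => le_antisymm
    ((q_le μ 0 (by simp [h])).trans_eq (cst_zero _)) (le_q _ _ fun w _ => cost_nonneg w)
  have qs : ∀ (c : ℝ) μ, c ≠ 0 → q (c • μ) ≤ ‖c‖ ^ p * q μ := fun c μ hc => by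
    rw [← div_le_iff₀' (by positivity)]
    refine le_q _ _ fun w hw => ?_
    rw [div_le_iff₀' (by positivity)]
    exact (q_le _ (c • w) (by simp [hw])).trans_eq (cst_smul hp _ _ _)
  obtain ⟨X, _, _, j, h1, h2, h3, h4, h5⟩ := exists_compl (𝕜 := ℝ) (p := p) q (q0 0 (map_zero _))
    (fun u v => by
      rw [← sub_le_iff_le_add']
      refine le_q _ _ fun t ht => ?_
      rw [sub_le_comm]
      refine le_q _ _ fun s hs => ?_
      rw [sub_le_iff_le_add]
      exact (q_le _ (s + t) (by simp [hs, ht])).trans (cst_add hp hp1 (fun _ => by positivity) _ _))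
    (fun a u => by
      by_cases ha : a = 0
      · simp [ha, q0, hp.ne']
      refine le_antisymm (qs a u ha) ?_
      have := qs _ (a • u) (inv_ne_zero ha)
      rwa [inv_smul_smul₀ ha, norm_inv, Real.inv_rpow (norm_nonneg _),
        le_inv_mul_iff₀ (by positivity)] at this)
  refine ⟨X, inferInstance, inferInstance, fun x => ‖x‖ ^ p⁻¹, fun x => j (single x 1),
    h2.banach hp, norm_eq_zero.1 ((h4 _).trans (q0 _ (by simp [π]))), fun x y => ?_, fun μ =>
    (mem_cspan (h2.banach hp) hp fun x => (Real.rpow_inv_rpow (norm_nonneg _) hp.ne').symm).2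
    (closure_mono ?_ (h3 μ)), fun Y _ _ η hY f L f0 L0 hf => ?_⟩
  · rw [← map_sub, h4, ← Real.rpow_rpow_inv (dist_nonneg (x := x) (y := y)) hp.ne']
    congr 1
    refine le_antisymm ((q_le _ (single (x, y) 1) (by simp [π, bd_single])).trans_eq
      (by simp [cost, cst_single hp])) (le_q _ _ fun w hw => ?_)
    simpa [hw, π] using Lip.pair hp hp1 zero_le_one (f := dist x) (fun a b => by
      rw [one_mul, dist_comm a]; exact dist_triangle _ _ _) w
  · rintro _ ⟨μ, rfl⟩
    induction μ using Finsupp.induction_linear with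
    | zero => simp
    | add a b ha hb => exact map_add j a b ▸ add_mem ha hb
    | single e a =>
      rw [← smul_single_one, map_smul]
      exact Submodule.smul_mem _ _ (Submodule.subset_span ⟨e, trivial, rfl⟩)
  let := nacg hY hp
  have e : ∀ y : Y, ‖y‖ = η y ^ p := fun _ => rfl
  have ps : PS ℝ p Y := fun c y => by
    rw [e, e, hY.smul, Real.mul_rpow (norm_nonneg _) (hY.nonneg _)]
  have := ps.cont
  have : CompleteSpace Y := Metric.complete_of_cauchySeq_tendsto fun u hu => by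
    obtain ⟨z, hz⟩ := hY.complete u fun ε hε => by
      simpa only [dist_eq_norm, e] using Metric.cauchySeq_iff.1 hu ε hε
    exact ⟨z, tendsto_iff_norm_sub_tendsto_zero.2 (by simpa only [e] using hz)⟩
  have k : ∀ μ w, bd w = π μ → ‖linearCombination ℝ f μ‖ ≤ L ^ p * cost p w := fun μ w hw => by
    have := le_cst (q := norm) norm_zero.le norm_add_le ps (linearCombination ℝ f ∘ₗ bd)
      (ω := fun e => L ^ p * dist e.1 e.2 ^ p) (u := w) fun z _ => by
        rw [← Real.mul_rpow L0 dist_nonneg, e]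
        exact Real.rpow_le_rpow (hY.nonneg _) (by simpa [bd_single] using hf z.1 z.2) hp.le
    simpa [hw, π, f0, ← cst_wmul] using! this
  obtain ⟨S, a, b⟩ := h5 Y (linearCombination ℝ f) (fun t => L ^ p * t) (by fun_prop) (by simp)
    fun μ => by
      rcases L0.eq_or_lt with rfl | L1
      · simpa [hp.ne'] using k μ _ (star μ)
      rw [← div_le_iff₀' (by positivity)]
      exact le_q _ _ fun w hw => (div_le_iff₀' (by positivity)).2 (k μ w hw)
  refine ⟨S, fun x => by simp [a], fun μ => ?_⟩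
  rw [← Real.rpow_le_rpow_iff (hY.nonneg _) (by positivity) hp, Real.mul_rpow L0 (by positivity),
    Real.rpow_inv_rpow (norm_nonneg _) hp.ne']
  exact b μ

theorem davie : ∃ (E : Type) (_ : NormedAddCommGroup E) (_ : NormedSpace ℝ E), CompleteSpace E ∧
    TopologicalSpace.SeparableSpace E ∧ ∃ K : Set E, IsCompact K ∧ ∀ T : E →L[ℝ] E,
      FiniteDimensional ℝ (LinearMap.range T.toLinearMap) → ∃ x ∈ K, 1 / 10 < ‖T x - x‖ := by
  obtain ⟨D⟩ := H60.AP.exists_data
  exact ⟨H60.AP.E D ℝ, inferInstance, inferInstance, inferInstance,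
    ((Set.countable_range _).isSeparable.span (R := ℝ)).closure.separableSpace, H60.AP.not_AP D⟩

theorem not_ap {E : Type} [NormedAddCommGroup E] [NormedSpace ℝ E] [CompleteSpace E]
    [TopologicalSpace.SeparableSpace E] {K : Set E} (hK : IsCompact K) (hE : ∀ T : E →L[ℝ] E,
      FiniteDimensional ℝ (LinearMap.range T.toLinearMap) → ∃ x ∈ K, 1 / 10 < ‖T x - x‖)
    (hp : 0 < p) {F : Type} [NormedAddCommGroup F] [Module ℝ F] {ν : F → ℝ} (hF : IsPBanach ℝ p ν)
    (hν : ∀ x, ‖x‖ = ν x ^ p) (β : F →ₗ[ℝ] E) (hβ : ∀ μ, ‖β μ‖ ≤ ν μ) (j : E → F)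
    (hj : ∀ a b, ‖j a - j b‖ ≤ ‖a - b‖ ^ p) (hβj : ∀ a, β (j a) = a) : ¬AP ν := fun h => by
  obtain ⟨C, c1, c2⟩ := transfer hp (fun c y => by
    rw [hν, hν, hF.smul, Real.mul_rpow (norm_nonneg _) (hF.nonneg _)]) β
    (fun μ => nu_eq hF hp hν μ ▸ hβ μ) j hj hβj hK
  obtain ⟨T, t1, ⟨L, t2⟩, t3⟩ := h C (fun u hu => by
    obtain ⟨z, a, φ, b, c⟩ := c1.tendsto_subseq hu
    refine ⟨z, a, φ, b, ?_⟩
    simpa [nu_eq hF hp hν, hp.ne'] using (tendsto_iff_norm_sub_tendsto_zero.1 c).rpow_const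
      (Or.inr (inv_pos.2 hp).le)) (1 / 40) (by norm_num)
  obtain ⟨S, s1, s2⟩ := c2 T (|L| ^ p) (1 / 40) (by norm_num) (by positivity) t1 (fun μ => by
    rw [hν, hν, ← Real.mul_rpow (abs_nonneg _) (hF.nonneg _)]
    exact Real.rpow_le_rpow (hF.nonneg _) ((t2 μ).trans (mul_le_mul_of_nonneg_right
      (le_abs_self _) (hF.nonneg _))) hp.le) fun μ hμ =>
    hν _ ▸ Real.rpow_le_rpow (hF.nonneg _) (t3 μ hμ).le hp.le
  obtain ⟨x, x1, x2⟩ := hE S s1
  linarith [s2 x x1]

lemma banach (hp : 0 < p) (hp1 : p ≤ 1) (E : Type) [NormedAddCommGroup E] [NormedSpace ℝ E]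
    [CompleteSpace E] : IsPBanach ℝ p (norm : E → ℝ) := by
  have h1 : IsPBanach ℝ 1 fun y : E => ‖y‖ ^ (1 : ℝ)⁻¹ :=
    PS.banach (fun c y => by simp [norm_smul]) one_pos
  simp only [inv_one, Real.rpow_one] at h1
  exact h1.mono hp hp1

end Pool.Agent.H88.Ap
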