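import Mathlib

set_option autoImplicit false

namespace Pool.Agent.H88.BFS

variable {E : Type} [NormedAddCommGroup E] [NormedSpace ℂ E]

/-- `E`, embedded by `ι` into the functions on the integers, is a normed ideal of functions. -/
def IsBFS (ι : E →ₗ[ℂ] (ℤ → ℂ)) : Prop :=
  Function.Injective ι ∧
    ∀ (f : E) (g : ℤ → ℂ), (∀ n, ‖g n‖ ≤ ‖ι f n‖) → ∃ h : E, ι h = g ∧ ‖h‖ ≤ ‖f‖

/-- `E` is invariant under all translations. -/
def Invariant (ι : E →ₗ[ℂ] (ℤ → ℂ)) : Prop :=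
  ∀ (t : ℤ) (f : E), ∃ h : E, ι h = fun s => ι f (s + t)

/-- A function with non-negative real values. -/
def Nonneg (g : ℤ → ℂ) : Prop := ∀ n, 0 ≤ (g n).re ∧ (g n).im = 0

/-- Positive operators. -/
def Positive (ι : E →ₗ[ℂ] (ℤ → ℂ)) (P : E →ₗ[ℂ] E) : Prop :=
  ∀ f, Nonneg (ι f) → Nonneg (ι (P f))

/-- Regular operators, the complex linear combinations of positive operators. -/
def Regular (ι : E →ₗ[ℂ] (ℤ → ℂ)) (T : E →ₗ[ℂ] E) : Prop :=
  T ∈ Submodule.span ℂ {P | Positive ι P}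

/-- `T` commutes with all translations. -/
def Commutes (ι : E →ₗ[ℂ] (ℤ → ℂ)) (T : E → E) : Prop :=
  ∀ (t : ℤ) (f h : E), (ι h = fun s => ι f (s + t)) → ι (T h) = fun s => ι (T f) (s + t)

end Pool.Agent.H88.BFS
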