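import Pool.Agent.H88.LpDyn2
import Pool.Agent.H88.BFSDefs

set_option autoImplicit false

open Filter Topology Set
open scoped ComplexConjugate

namespace Pool.Agent.H88.BFS

open Pool.Agent.H88.LpDyn

/-- square-summable families -/
noncomputable abbrev L (I : Type) : Type := lp (fun _ : I => ℂ) 2

lemma sum_sq_le {I : Type} (x : L I) (s : Finset I) : ∑ i ∈ s, ‖x i‖ ^ 2 ≤ ‖x‖ ^ 2 := by
  simpa using lp.sum_rpow_le_norm_rpow two_pos' x s

lemma mem_of {I : Type} {f : I → ℂ} {C : ℝ} (h : ∀ s : Finset I, ∑ i ∈ s, ‖f i‖ ^ 2 ≤ C) :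
    Memℓp f 2 := memℓp_gen' (C := C) (by simpa using h)

lemma parseval (N : ℕ) [NeZero N] (x : ZMod N → ℂ) :
    ∑ i, ‖∑ j, ZMod.stdAddChar (i * j) * x j‖ ^ 2 = N * ∑ j, ‖x j‖ ^ 2 := by
  have h : ∀ z : ℂ, ((‖z‖ ^ 2 : ℝ) : ℂ) = z * conj z := fun z => by
    rw [Complex.mul_conj, Complex.normSq_eq_norm_sq]
  apply Complex.ofReal_injective
  push_cast [-Complex.ofReal_pow]
  simp only [h, map_sum, map_mul, Finset.sum_mul_sum, ← AddChar.map_neg_eq_conj]
  rw [Finset.sum_comm, Finset.mul_sum]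
  refine Finset.sum_congr rfl fun j _ => ?_
  rw [Finset.sum_comm]
  have e : ∀ l, ∑ i, ZMod.stdAddChar (i * j) * x j * (ZMod.stdAddChar (-(i * l)) * conj (x l))
      = (if j - l = 0 then (N : ℂ) else 0) * (x j * conj (x l)) := by
    intro l
    have := AddChar.sum_mulShift (j - l) (ZMod.isPrimitive_stdAddChar N)
    rw [ZMod.card] at this
    rw [show (if j - l = 0 then (N : ℂ) else 0) = ((if j - l = 0 then N else 0 : ℕ) : ℂ) by
      split_ifs <;> simp, ← this, Finset.sum_mul]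
    refine Finset.sum_congr rfl fun i _ => ?_
    rw [mul_sub, sub_eq_add_neg, AddChar.map_add_eq_mul]; ring
  simp only [e, sub_eq_zero, ite_mul, zero_mul]
  rw [Finset.sum_ite_eq]; simp

/-- the blocks -/
abbrev J : Type := Σ k : ℕ, ZMod ((k + 1) ^ 2)

lemma blocks (F : J → ℝ) (hF : ∀ s, 0 ≤ F s) (s : Finset J) :
    ∑ i ∈ s, F i ≤ ∑ k ∈ s.image Sigma.fst, ∑ j, F ⟨k, j⟩ := by
  rw [← Finset.sum_sigma]
  exact Finset.sum_le_sum_of_subset_of_nonneg
    (fun i hi => Finset.mem_sigma.2 ⟨Finset.mem_image_of_mem _ hi, Finset.mem_univ _⟩)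
    fun i _ _ => hF i

/-- the block Fourier transform -/
noncomputable def Hf (x : J → ℂ) (s : J) : ℂ :=
  ((s.1 + 1 : ℕ) : ℂ)⁻¹ * ∑ j, ZMod.stdAddChar (s.2 * j) * x ⟨s.1, j⟩

lemma Hf_le (x : L J) (s : Finset J) : ∑ i ∈ s, ‖Hf x i‖ ^ 2 ≤ ‖x‖ ^ 2 := by
  refine (blocks (fun i => ‖Hf x i‖ ^ 2) (fun _ => by positivity) s).trans ?_
  refine le_trans (le_of_eq ?_) (sum_sq_le x ((s.image Sigma.fst).sigma fun _ => Finset.univ))
  rw [Finset.sum_sigma]
  refine Finset.sum_congr rfl fun k _ => ?_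
  simp only [Hf, norm_mul, mul_pow, norm_inv, Complex.norm_natCast]
  rw [← Finset.mul_sum, parseval ((k + 1) ^ 2) fun j => x ⟨k, j⟩]
  push_cast
  field_simp

/-- the block Fourier transform as an operator -/
noncomputable def H : L J →L[ℂ] L J :=
  LinearMap.mkContinuous
    { toFun := fun x => ⟨Hf x, mem_of (Hf_le x)⟩
      map_add' := fun x y => by
        ext s
        show Hf (x + y) s = Hf x s + Hf y s
        simp [Hf, mul_add, Finset.sum_add_distrib]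
      map_smul' := fun c x => by
        ext s
        show Hf (c • x) s = c * Hf x s
        simp [Hf, Finset.mul_sum, mul_left_comm] } 1
    (fun x => by
      rw [one_mul]
      exact lp.norm_le_of_forall_sum_le two_pos' (norm_nonneg _) (by simpa using Hf_le x))

lemma H_apply (x : L J) (s : J) : H x s = Hf x s := rfl

lemma dom (T : L ℤ →ₗ[ℂ] L ℤ) (hT : T ∈ Submodule.span ℂ
      {P : L ℤ →ₗ[ℂ] L ℤ | ∀ f : L ℤ, Nonneg f → Nonneg (P f)}) (f : L ℤ) (hf : Nonneg f) :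
    ∃ y : L ℤ, ∀ (m : ℤ) (F : Finset ℤ),
      ∑ n ∈ F, (f n).re * ‖T (lp.single 2 n 1) m‖ ≤ (y m).re := by
  induction hT using Submodule.span_induction with
  | mem P hP =>
    refine ⟨P f, fun m F => ?_⟩
    have h1 : Nonneg (f - ∑ n ∈ F, f n • lp.single 2 n (1 : ℂ) : L ℤ) := by
      intro k
      rw [lp.coeFn_sub, Pi.sub_apply, lp.coeFn_sum, Finset.sum_apply]
      simp only [lp.coeFn_smul, Pi.smul_apply, lp.single_apply, Pi.single_apply, smul_eq_mul,
        mul_ite, mul_one, mul_zero, Finset.sum_ite_eq]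
      split_ifs
      · simp
      · simpa using hf k
    have h2 := (hP _ h1 m).1
    rw [map_sub, map_sum, lp.coeFn_sub, Pi.sub_apply, lp.coeFn_sum, Finset.sum_apply,
      Complex.sub_re, Complex.re_sum] at h2
    refine le_trans (le_of_eq (Finset.sum_congr rfl fun n _ => ?_)) (sub_nonneg.1 h2)
    have h3 := hP (lp.single 2 n 1) (fun k => by
      simp only [lp.single_apply, Pi.single_apply]; split_ifs <;> simp) m
    rw [map_smul, lp.coeFn_smul, Pi.smul_apply, smul_eq_mul, Complex.mul_re, h3.2, mul_zero,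
      sub_zero, ← Complex.abs_re_eq_norm.2 h3.2, abs_of_nonneg h3.1]
  | zero => exact ⟨0, by simp⟩
  | add P Q _ _ hP hQ =>
    obtain ⟨y, hy⟩ := hP
    obtain ⟨z, hz⟩ := hQ
    refine ⟨y + z, fun m F => ?_⟩
    rw [lp.coeFn_add, Pi.add_apply, Complex.add_re]
    refine le_trans ?_ (add_le_add (hy m F) (hz m F))
    rw [← Finset.sum_add_distrib]
    refine Finset.sum_le_sum fun n _ => ?_
    rw [← mul_add, LinearMap.add_apply, lp.coeFn_add, Pi.add_apply]
    exact mul_le_mul_of_nonneg_left (norm_add_le _ _) (hf n).1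
  | smul c P _ hP =>
    obtain ⟨y, hy⟩ := hP
    refine ⟨(‖c‖ : ℂ) • y, fun m F => ?_⟩
    rw [lp.coeFn_smul, Pi.smul_apply, smul_eq_mul, Complex.re_ofReal_mul]
    refine le_trans (le_of_eq ?_) (mul_le_mul_of_nonneg_left (hy m F) (norm_nonneg c))
    rw [Finset.mul_sum]
    refine Finset.sum_congr rfl fun n _ => ?_
    rw [LinearMap.smul_apply, lp.coeFn_smul, Pi.smul_apply, norm_smul]; ring

lemma exists_nonreg : ∃ T : L ℤ →L[ℂ] L ℤ, (T : L ℤ →ₗ[ℂ] L ℤ) ∉ Submodule.span ℂ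
    {P : L ℤ →ₗ[ℂ] L ℤ | ∀ f : L ℤ, Nonneg f → Nonneg (P f)} := by
  classical
  have : Infinite J := Infinite.of_injective (fun k : ℕ => (⟨k, 0⟩ : J))
    fun _ _ h => congrArg Sigma.fst h
  obtain ⟨e⟩ : Nonempty (J ≃ ℤ) := nonempty_equiv_of_countable
  refine ⟨(cmp ℂ two_pos' e.symm e.symm.injective).comp (H.comp (cmp ℂ two_pos' e e.injective)),
    fun h => ?_⟩
  have hs : Summable fun k : ℕ => ((((k + 1 : ℕ) : ℝ)) ^ 2)⁻¹ :=
    (summable_nat_add_iff (f := fun k : ℕ => ((k : ℝ) ^ 2)⁻¹) 1).2 (by simp)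
  have hmem : Memℓp (fun s : J => ((((((s.1 + 1 : ℕ) : ℝ)) ^ 2)⁻¹ : ℝ) : ℂ)) 2 := by
    refine mem_of (C := ∑' k : ℕ, ((((k + 1 : ℕ) : ℝ)) ^ 2)⁻¹) fun s => ?_
    refine (blocks (fun s : J => ‖((((((s.1 + 1 : ℕ) : ℝ)) ^ 2)⁻¹ : ℝ) : ℂ)‖ ^ 2)
      (fun _ => by positivity) s).trans ?_
    refine le_trans (le_of_eq (Finset.sum_congr rfl fun k _ => ?_))
      (hs.sum_le_tsum _ fun _ _ => by positivity)
    dsimp only
    rw [Finset.sum_const, Finset.card_univ, ZMod.card, nsmul_eq_mul, Complex.norm_real,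
      Real.norm_eq_abs, sq_abs]
    push_cast
    field_simp
  obtain ⟨f, hf⟩ : ∃ f : L ℤ, ∀ s : J, f (e s) = ((((((s.1 + 1 : ℕ) : ℝ)) ^ 2)⁻¹ : ℝ) : ℂ) :=
    ⟨cmp ℂ two_pos' e.symm e.symm.injective ⟨_, hmem⟩, fun s => by
      rw [cmp_apply, e.symm_apply_apply]⟩
  obtain ⟨y, hy⟩ := dom _ h f (fun n => by
    obtain ⟨s, rfl⟩ := e.surjective n
    rw [hf, Complex.ofReal_re, Complex.ofReal_im]
    exact ⟨by positivity, rfl⟩)
  have key : ∀ s : J, (((s.1 + 1 : ℕ) : ℝ))⁻¹ ≤ ‖y (e s)‖ := by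
    rintro ⟨k, i⟩
    refine le_trans (le_of_eq ?_) ((hy (e ⟨k, i⟩)
      (Finset.univ.image fun j => e ⟨k, j⟩)).trans (Complex.re_le_norm _))
    rw [Finset.sum_image fun a _ b _ h => eq_of_heq (Sigma.mk.inj (e.injective h)).2]
    have e1 : ∀ j, ‖(((cmp ℂ two_pos' e.symm e.symm.injective).comp
        (H.comp (cmp ℂ two_pos' e e.injective)) : L ℤ →L[ℂ] L ℤ) : L ℤ →ₗ[ℂ] L ℤ)
        (lp.single 2 (e ⟨k, j⟩) 1) (e ⟨k, i⟩)‖ = (((k + 1 : ℕ) : ℝ))⁻¹ := by
      intro j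
      rw [ContinuousLinearMap.coe_coe, ContinuousLinearMap.comp_apply, cmp_apply,
        e.symm_apply_apply, ContinuousLinearMap.comp_apply, H_apply]
      simp only [cmp_apply, Hf, lp.single_apply, Pi.single_apply, e.apply_eq_iff_eq,
        Sigma.mk.injEq, heq_eq_eq, true_and, mul_ite, mul_one, mul_zero, Finset.sum_ite_eq',
        Finset.mem_univ, if_true, norm_mul, norm_inv, Complex.norm_natCast, AddChar.norm_apply]
    simp only [e1, hf, Complex.ofReal_re]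
    rw [Finset.sum_const, Finset.card_univ, ZMod.card, nsmul_eq_mul]
    push_cast
    field_simp
  obtain ⟨K, hK⟩ := exists_nat_gt (‖y‖ ^ 2)
  have h1 := sum_sq_le y (((Finset.range K).sigma fun _ => Finset.univ).image e)
  rw [Finset.sum_image fun a _ b _ h => e.injective h, Finset.sum_sigma] at h1
  have h2 : ∑ k ∈ Finset.range K, (1 : ℝ)
      ≤ ∑ k ∈ Finset.range K, ∑ j : ZMod ((k + 1) ^ 2), ‖y (e ⟨k, j⟩)‖ ^ 2 := by
    refine Finset.sum_le_sum fun k _ => ?_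
    refine le_trans (le_of_eq ?_) (Finset.sum_le_sum (f := fun _ => (((k + 1 : ℕ) : ℝ))⁻¹ ^ 2)
      fun j _ => pow_le_pow_left₀ (by positivity) (key ⟨k, j⟩) 2)
    rw [Finset.sum_const, Finset.card_univ, ZMod.card, nsmul_eq_mul]
    push_cast
    field_simp
  simp at h2
  linarith

end Pool.Agent.H88.BFS
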