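import Pool.Agent.H88.BFS1

set_option autoImplicit false

open Filter Topology Set

namespace Pool.Agent.H88.BFS

open Pool.Agent.H88.LpDyn

/-- the weight -/
noncomputable def w (n : ℤ) : ℝ := 1 + |(n : ℝ)|

lemma w_pos (n : ℤ) : 0 < w n := by unfold w; positivity

lemma w_ne (n : ℤ) : (w n : ℂ) ≠ 0 := by exact_mod_cast (w_pos n).ne'

lemma w_add (m n : ℤ) : w m ≤ w n + w (m - n) := by
  unfold w
  have := abs_add_le (n : ℝ) ((m : ℝ) - n)
  push_cast
  rw [add_sub_cancel] at this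
  linarith

/-- the embedding -/
noncomputable def io : L ℤ →ₗ[ℂ] (ℤ → ℂ) where
  toFun x n := x n / w n
  map_add' x y := by ext n; simp [add_div]
  map_smul' c x := by ext n; simp [mul_div_assoc]

lemma io_apply (x : L ℤ) (n : ℤ) : io x n = x n / w n := rfl

lemma norm_io (x : L ℤ) (n : ℤ) : ‖io x n‖ = ‖x n‖ / w n := by
  rw [io_apply, norm_div, Complex.norm_real, Real.norm_eq_abs, abs_of_pos (w_pos n)]

lemma io_inj : Function.Injective io := by
  intro x y h
  ext n
  exact (div_left_inj' (w_ne n)).1 (congrFun h n)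

lemma isBFS : IsBFS io := by
  refine ⟨io_inj, fun f g h => ?_⟩
  have h1 : ∀ n, ‖(w n : ℂ) * g n‖ ≤ ‖f n‖ := by
    intro n
    have := h n
    rw [norm_io, le_div_iff₀ (w_pos n)] at this
    rw [norm_mul, Complex.norm_real, Real.norm_eq_abs, abs_of_pos (w_pos n), mul_comm]
    exact this
  refine ⟨⟨fun n => w n * g n, (lp.memℓp f).mono' h1⟩, ?_, lp.norm_mono (by norm_num) h1⟩
  ext n
  exact mul_div_cancel_left₀ _ (w_ne n)

lemma invariant : Invariant io := by
  intro t f
  have hw : ∀ n : ℤ, ‖((w n : ℂ) / w (n + t))‖ ≤ 1 + w (-t) := by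
    intro n
    rw [norm_div, Complex.norm_real, Complex.norm_real, Real.norm_eq_abs, Real.norm_eq_abs,
      abs_of_pos (w_pos _), abs_of_pos (w_pos _), div_le_iff₀ (w_pos _)]
    have h1 := w_add n (n + t)
    rw [show n - (n + t) = -t by ring] at h1
    have h2 : 1 ≤ w (n + t) := by unfold w; linarith [abs_nonneg ((n + t : ℤ) : ℝ)]
    nlinarith [w_pos (-t)]
  refine ⟨wcmp two_pos' (fun n => n + t) (add_left_injective t) _ _ hw f, ?_⟩
  ext n
  rw [io_apply, io_apply, wcmp_apply]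
  have := w_ne n
  field_simp

lemma nonneg_io (f : L ℤ) : Nonneg (io f) ↔ Nonneg f := by
  refine forall_congr' fun n => ?_
  rw [io_apply, Complex.div_ofReal_re, Complex.div_ofReal_im, div_eq_zero_iff,
    or_iff_left (w_pos n).ne', le_div_iff₀ (w_pos n), zero_mul]

lemma summable_io (x : L ℤ) : Summable fun n => ‖io x n‖ := by
  have h1 : Summable fun n => ‖x n‖ ^ 2 := by simpa using (lp.memℓp x).summable two_pos'
  have h0 : Summable fun k : ℕ => ((((k + 1 : ℕ) : ℝ)) ^ 2)⁻¹ :=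
    (summable_nat_add_iff (f := fun k : ℕ => ((k : ℝ) ^ 2)⁻¹) 1).2 (by simp)
  have h2 : Summable fun n : ℤ => (w n ^ 2)⁻¹ := by
    refine Summable.of_nat_of_neg ?_ ?_ <;> simpa [w, add_comm] using h0
  refine Summable.of_nonneg_of_le (fun _ => norm_nonneg _) (fun n => ?_) (h1.add h2)
  rw [norm_io, div_eq_mul_inv, ← inv_pow]
  nlinarith [sq_nonneg (‖x n‖ - (w n)⁻¹), sq_nonneg ‖x n‖, sq_nonneg (w n)⁻¹]

lemma young (u : ℤ → ℝ) (hu : Summable u) (y : L ℤ) :
    ∃ Z : L ℤ, ∀ m, HasSum (fun n => u n * ‖y (m - n)‖) (Z m).re := by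
  obtain ⟨y', hy'⟩ : ∃ y' : L ℤ, ∀ n, y' n = ‖y n‖ :=
    ⟨⟨fun n => ‖y n‖, (lp.memℓp y).mono' fun n => by simp⟩, fun _ => rfl⟩
  have hs : Summable fun n : ℤ =>
      (u n : ℂ) • cmp ℂ two_pos' (fun m : ℤ => m - n) (sub_left_injective) y' := by
    refine Summable.of_norm_bounded (hu.norm.mul_right ‖y'‖) fun n => ?_
    rw [norm_smul, Complex.norm_real]
    exact mul_le_mul_of_nonneg_left (norm_cmp_le _ _ _ _) (norm_nonneg _)
  obtain ⟨Z, hZ⟩ := hs
  refine ⟨Z, fun m => ?_⟩
  have := (Complex.reCLM.comp ((lp.evalCLM ℂ (fun _ : ℤ => ℂ) 2 m).restrictScalars ℝ)).hasSum hZ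
  convert this using 1
  swap
  · rfl
  ext n
  show _ = (((u n : ℂ) • cmp ℂ two_pos' (fun m : ℤ => m - n) (sub_left_injective) y') m).re
  rw [lp.coeFn_smul, Pi.smul_apply, cmp_apply, hy', smul_eq_mul, Complex.re_ofReal_mul,
    Complex.ofReal_re]

lemma summable_conv (a x : L ℤ) (m : ℤ) : Summable fun n => io x n * io a (m - n) := by
  refine Summable.of_norm_bounded ((summable_io x).mul_right ‖a‖) fun n => ?_
  rw [norm_mul]
  refine mul_le_mul_of_nonneg_left ?_ (norm_nonneg _)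
  rw [norm_io, div_le_iff₀ (w_pos _)]
  have h1 := lp.norm_apply_le_norm (by norm_num) a (m - n)
  have h2 : 1 ≤ w (m - n) := by unfold w; linarith [abs_nonneg ((m - n : ℤ) : ℝ)]
  nlinarith [norm_nonneg a]

lemma mem_conv (a x : L ℤ) : Memℓp (fun m => (w m : ℂ) * ∑' n, io x n * io a (m - n)) 2 := by
  obtain ⟨Z1, h1⟩ := young _ (summable_io a) x
  obtain ⟨Z2, h2⟩ := young _ (summable_io x) a
  refine (lp.memℓp (Z1 + Z2)).mono' fun m => ?_
  have h3 := (Equiv.subLeft m).hasSum_iff.2 (h1 m)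
  rw [← tsum_mul_left]
  refine (tsum_of_norm_bounded (h3.add (h2 m)) fun n => ?_).trans ?_
  · simp only [Function.comp_apply, Equiv.subLeft_apply, sub_sub_cancel, norm_mul, norm_io,
      Complex.norm_real, Real.norm_eq_abs, abs_of_pos (w_pos m)]
    have e1 := w_add m n
    have e2 := w_pos n
    have e3 := w_pos (m - n)
    calc w m * (‖x n‖ / w n * (‖a (m - n)‖ / w (m - n)))
        ≤ (w n + w (m - n)) * (‖x n‖ / w n * (‖a (m - n)‖ / w (m - n))) := by gcongr
      _ = _ := by field_simp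
  · rw [← Complex.add_re]
    exact Complex.re_le_norm _

/-- convolution -/
noncomputable def conv : L ℤ →ₗ[ℂ] L ℤ →ₗ[ℂ] L ℤ :=
  LinearMap.mk₂ ℂ
    (fun a x => (⟨fun m => (w m : ℂ) * ∑' n, io x n * io a (m - n), mem_conv a x⟩ : L ℤ))
    (fun a b x => by
      ext m
      show (w m : ℂ) * ∑' n, io x n * io (a + b) (m - n)
        = w m * ∑' n, io x n * io a (m - n) + w m * ∑' n, io x n * io b (m - n)
      rw [← mul_add, ← (summable_conv a x m).tsum_add (summable_conv b x m)]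
      simp [mul_add])
    (fun c a x => by
      ext m
      show (w m : ℂ) * ∑' n, io x n * io (c • a) (m - n) = c * (w m * ∑' n, io x n * io a (m - n))
      rw [mul_left_comm, ← tsum_mul_left (a := c)]
      simp [mul_left_comm])
    (fun a x y => by
      ext m
      show (w m : ℂ) * ∑' n, io (x + y) n * io a (m - n)
        = w m * ∑' n, io x n * io a (m - n) + w m * ∑' n, io y n * io a (m - n)
      rw [← mul_add, ← (summable_conv a x m).tsum_add (summable_conv a y m)]
      simp [add_mul])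
    (fun c a x => by
      ext m
      show (w m : ℂ) * ∑' n, io (c • x) n * io a (m - n) = c * (w m * ∑' n, io x n * io a (m - n))
      rw [mul_left_comm, ← tsum_mul_left (a := c)]
      simp [mul_assoc])

lemma io_conv (a x : L ℤ) (m : ℤ) : io (conv a x) m = ∑' n, io x n * io a (m - n) :=
  mul_div_cancel_left₀ _ (w_ne m)

lemma conv_pos (a : L ℤ) (ha : Nonneg a) : Positive io (conv a) := by
  intro x hx m
  have ha' := (nonneg_io a).2 ha
  rw [io_conv, Complex.re_tsum (summable_conv a x m), Complex.im_tsum (summable_conv a x m)]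
  constructor
  · refine tsum_nonneg fun n => ?_
    rw [Complex.mul_re, (hx n).2, zero_mul, sub_zero]
    exact mul_nonneg (hx n).1 (ha' _).1
  · simp [Complex.mul_im, (hx _).2, (ha' _).2]

lemma conv_reg (a : L ℤ) : Regular io (conv a) := by
  have mk : ∀ φ : ℂ → ℝ, (∀ z, |φ z| ≤ ‖z‖) → ∃ b : L ℤ, (∀ n, b n = max (φ (a n)) 0) ∧
      Regular io (conv b) := by
    intro φ hφ
    obtain ⟨b, hb⟩ : ∃ b : L ℤ, ∀ n, b n = max (φ (a n)) 0 :=
      ⟨⟨fun n => ((max (φ (a n)) 0 : ℝ) : ℂ), (lp.memℓp a).mono' fun n => by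
        rw [Complex.norm_real, Real.norm_eq_abs, abs_of_nonneg (le_max_right _ _)]
        exact max_le ((le_abs_self _).trans (hφ _)) (norm_nonneg _)⟩, fun _ => rfl⟩
    refine ⟨b, hb, Submodule.subset_span (conv_pos b fun n => ?_)⟩
    rw [hb, Complex.ofReal_re, Complex.ofReal_im]
    exact ⟨le_max_right _ _, rfl⟩
  obtain ⟨b1, h1, r1⟩ := mk (fun z => z.re) Complex.abs_re_le_norm
  obtain ⟨b2, h2, r2⟩ := mk (fun z => -z.re) fun z => by rw [abs_neg]; exact Complex.abs_re_le_norm z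
  obtain ⟨b3, h3, r3⟩ := mk (fun z => z.im) Complex.abs_im_le_norm
  obtain ⟨b4, h4, r4⟩ := mk (fun z => -z.im) fun z => by rw [abs_neg]; exact Complex.abs_im_le_norm z
  have e : a = b1 - b2 + Complex.I • (b3 - b4) := by
    ext n
    simp only [lp.coeFn_add, lp.coeFn_sub, lp.coeFn_smul, Pi.add_apply, Pi.sub_apply, Pi.smul_apply,
      h1, h2, h3, h4, smul_eq_mul, ← Complex.ofReal_sub, max_zero_sub_max_neg_zero_eq_self]
    rw [mul_comm, Complex.re_add_im]
  rw [e, map_add, map_sub, map_smul, map_sub]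
  exact Submodule.add_mem _ (Submodule.sub_mem _ r1 r2)
    (Submodule.smul_mem _ _ (Submodule.sub_mem _ r3 r4))

lemma comm_reg (T : L ℤ →L[ℂ] L ℤ) (hT : Commutes io T) : Regular io (T : L ℤ →ₗ[ℂ] L ℤ) := by
  suffices h : (T : L ℤ →ₗ[ℂ] L ℤ) = conv (T (lp.single 2 0 1)) by rw [h]; exact conv_reg _
  ext1 x
  apply io_inj
  ext m
  rw [io_conv]
  have h1 := (((lp.evalCLM ℂ (fun _ : ℤ => ℂ) 2 m).comp T).hasSum
    (lp.hasSum_single (by norm_num) x)).div_const (w m : ℂ)
  refine (h1.tsum_eq).symm.trans (tsum_congr fun n => ?_)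
  have h2 := hT (-n) (lp.single 2 0 1) (lp.single 2 n (w n)) (by
    ext s
    simp only [io_apply, lp.single_apply, Pi.single_apply, add_neg_eq_zero]
    split_ifs with h
    · subst h
      rw [div_self (w_ne s), add_neg_cancel]; simp [w]
    · simp)
  have h3 : (lp.single 2 n (x n) : L ℤ) = io x n • lp.single 2 n (w n : ℂ) := by
    rw [← lp.single_smul, smul_eq_mul, io_apply, div_mul_cancel₀ _ (w_ne n)]
  show io (T (lp.single 2 n (x n))) m = _
  rw [h3, map_smul, map_smul, h2, sub_eq_add_neg]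
  rfl

end Pool.Agent.H88.BFS
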