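import Mathlib

set_option autoImplicit false
open Filter Topology Set Cardinal

namespace Pool.Agent.H88.Baire

theorem exists_rec {ι α : Type*} [Preorder ι] [WellFoundedLT ι] (F : (i : ι) → (Iio i → α) → α) :
    ∃ x : ι → α, ∀ i, x i = F i fun j => x j :=
  ⟨(wellFounded_lt (α := ι)).fix fun i IH => F i fun j => IH j j.2,
    fun i => WellFounded.fix_eq _ _ i⟩

variable {X : Type} [AddCommGroup X] [Module ℂ X]

theorem avoid {κ : Type} [Countable κ] (M : κ → Submodule ℂ X) (φ : ℝ → X)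
    (hφ : ∀ k, LinearIndependent ℂ fun t => (M k).mkQ (φ t)) (s : Set X) (hs : #s < 𝔠) :
    ∃ y, ∀ k, y ∉ M k ⊔ Submodule.span ℂ s := by
  by_contra! h
  have h1 : ∀ k, #{t : ℝ | φ t ∈ M k ⊔ Submodule.span ℂ s} ≤ #s := by
    intro k
    have h2 : ∀ t : {t : ℝ | φ t ∈ M k ⊔ Submodule.span ℂ s},
        (M k).mkQ (φ t) ∈ Submodule.span ℂ ((M k).mkQ '' s) := fun t => by
      rw [← Submodule.map_span]
      obtain ⟨a, ha, b, hb, e⟩ := Submodule.mem_sup.1 t.2
      refine ⟨b, hb, ?_⟩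
      rw [← e, map_add, Submodule.mkQ_apply _ a, (Submodule.Quotient.mk_eq_zero _).2 ha, zero_add]
    have h3 : LinearIndependent ℂ fun t : {t : ℝ | φ t ∈ M k ⊔ Submodule.span ℂ s} =>
        (⟨_, h2 t⟩ : Submodule.span ℂ ((M k).mkQ '' s)) :=
      LinearIndependent.of_comp (Submodule.subtype _) ((hφ k).comp _ Subtype.val_injective)
    exact h3.cardinal_le_rank.trans ((rank_span_le _).trans mk_image_le)
  have h2 : (⋃ k, {t : ℝ | φ t ∈ M k ⊔ Submodule.span ℂ s}) = Set.univ :=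
    eq_univ_of_forall fun t => mem_iUnion.2 (h (φ t))
  have h3 := mk_iUnion_le fun k => {t : ℝ | φ t ∈ M k ⊔ Submodule.span ℂ s}
  rw [h2, mk_univ, mk_real] at h3
  exact absurd (h3.trans_lt (mul_lt_of_lt aleph0_le_continuum
    (mk_le_aleph0.trans_lt aleph0_lt_continuum) ((ciSup_le' h1).trans_lt hs))) (lt_irrefl _)

variable [TopologicalSpace X] [IsTopologicalAddGroup X] [ContinuousSMul ℂ X] [BaireSpace X]

theorem line {κ : Type} [Countable κ] (V : κ → Submodule ℂ X) {y : X} (hy : ∀ k, y ∉ V k)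
    {W : Set X} (hW : IsOpen W) (hW' : W.Nonempty) {U : ℕ → Set X} (hU : ∀ n, IsOpen (U n))
    (hU' : ∀ n, Dense (U n)) : ∃ p ∈ W, (∀ n, p ∈ U n) ∧ ∀ k, p ∉ V k := by
  have hb := TopologicalSpace.isBasis_countableBasis ℝ
  have h1 : Dense (⋂ n, ⋂ o ∈ TopologicalSpace.countableBasis ℝ,
      ⋃ t ∈ o, {x : X | x + (t:ℂ) • y ∈ U n}) := by
    refine dense_iInter_of_Gδ (fun n => IsGδ.biInter_of_isOpen
      (TopologicalSpace.countable_countableBasis ℝ) fun o _ => ?_) fun n =>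
      dense_biInter_of_isOpen (fun o _ => ?_) (TopologicalSpace.countable_countableBasis ℝ)
        fun o ho => ?_
    · exact isOpen_biUnion fun t _ => (hU n).preimage (by fun_prop)
    · exact isOpen_biUnion fun t _ => (hU n).preimage (by fun_prop)
    · obtain ⟨t, ht⟩ := TopologicalSpace.nonempty_of_mem_countableBasis ho
      exact ((hU' n).preimage (Homeomorph.addRight ((t:ℂ) • y)).isOpenMap).mono
        (subset_biUnion_of_mem (u := fun t : ℝ => {x : X | x + (t:ℂ) • y ∈ U n}) ht)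
  obtain ⟨x, hx, hx'⟩ := h1.inter_open_nonempty W hW hW'
  simp only [mem_iInter, mem_iUnion, mem_ofPred_eq] at hx'
  have hc : Continuous fun t : ℝ => x + (t:ℂ) • y := by fun_prop
  have h2 : Dense (⋂ n, {t : ℝ | x + (t:ℂ) • y ∈ U n}) :=
    dense_iInter_of_isOpen (fun n => (hU n).preimage hc) fun n => hb.dense_iff.2 fun o ho _ => by
      obtain ⟨t, h1, h2⟩ := hx' n o ho
      exact ⟨t, h1, h2⟩
  have h3 : (⋃ k, {t : ℝ | x + (t:ℂ) • y ∈ V k}).Countable :=
    countable_iUnion fun k => Set.Subsingleton.countable fun t ht t' ht' => by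
      by_contra hne
      have h4 := (V k).sub_mem ht ht'
      rw [add_sub_add_left_eq_sub, ← sub_smul] at h4
      exact hy k (((V k).smul_mem_iff (sub_ne_zero.2 (by exact_mod_cast hne))).1 h4)
  have h4 : Dense (⋂ t ∈ ⋃ k, {t : ℝ | x + (t:ℂ) • y ∈ V k}, ({t}ᶜ : Set ℝ)) :=
    dense_biInter_of_isOpen (fun _ _ => isOpen_compl_singleton) h3 fun t _ => dense_compl_singleton t
  obtain ⟨t, ht, ht1, ht2⟩ := (Dense.inter_of_Gδ
    (IsGδ.iInter_of_isOpen fun n => (hU n).preimage hc)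
    (IsGδ.biInter_of_isOpen h3 fun _ _ => isOpen_compl_singleton) h2 h4).inter_open_nonempty _
    (hW.preimage hc) ⟨0, by simpa using hx⟩
  exact ⟨_, ht, fun n => mem_iInter.1 ht1 n, fun k hk => mem_iInter₂.1 ht2 t (mem_iUnion.2 ⟨k, hk⟩) rfl⟩

theorem main [SecondCountableTopology X] {κ : Type} [Countable κ] (M : κ → Submodule ℂ X)
    (φ : ℝ → X) (hφ : ∀ k, LinearIndependent ℂ fun t => (M k).mkQ (φ t)) :
    ∃ E : Submodule ℂ X, Dense (E : Set X) ∧ BaireSpace E ∧ ∀ k, ∀ y ∈ E, y ∈ M k → y = 0 := by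
  classical
  obtain ⟨b, hb⟩ := TopologicalSpace.exists_seq_basis X
  have hop : ∀ U : Set X, IsOpen U → ∃ A : Set ℕ, U = ⋃ i ∈ A, b i := fun U hU => by
    refine ⟨{i | b i ⊆ U}, Subset.antisymm (fun x hx => ?_) (iUnion₂_subset fun i hi => hi)⟩
    obtain ⟨_, ⟨i, rfl⟩, h1, h2⟩ := hb.exists_subset_of_mem_open hx hU
    exact mem_biUnion (s := {i | b i ⊆ U}) h2 h1
  obtain ⟨e⟩ : Nonempty ((𝔠 : Cardinal.{0}).ord.ToType ≃ (Set ℕ × (ℕ → Set ℕ))) :=
    Cardinal.eq.1 (by simp)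
  have step' : ∀ (A : Set ℕ × (ℕ → Set ℕ)) (s : Set X), ∃ p : X, #s < 𝔠 →
      ((⋃ i ∈ A.1, b i).Nonempty → (∀ n, Dense (⋃ i ∈ A.2 n, b i)) →
      p ∈ ⋃ i ∈ A.1, b i ∧ ∀ n, p ∈ ⋃ i ∈ A.2 n, b i) ∧ ∀ k, p ∉ M k ⊔ Submodule.span ℂ s := by
    intro A s
    by_cases h : #s < 𝔠
    · by_cases h' : (⋃ i ∈ A.1, b i).Nonempty ∧ ∀ n, Dense (⋃ i ∈ A.2 n, b i)
      · obtain ⟨y, hy⟩ := avoid M φ hφ s h
        obtain ⟨p, h1, h2, h3⟩ := line _ hy
          (isOpen_biUnion fun i _ => hb.isOpen (mem_range_self i)) h'.1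
          (fun n => isOpen_biUnion fun i _ => hb.isOpen (mem_range_self i)) h'.2
        exact ⟨p, fun _ => ⟨fun _ _ => ⟨h1, h2⟩, h3⟩⟩
      · obtain ⟨y, hy⟩ := avoid M φ hφ s h
        exact ⟨y, fun _ => ⟨fun h1 h2 => absurd ⟨h1, h2⟩ h', hy⟩⟩
    · exact ⟨0, fun h1 => absurd h1 h⟩
  choose F hF using step'
  obtain ⟨x, hx⟩ := exists_rec fun i (f : Iio i → X) => F (e i) (range f)
  have hx' := fun i => hF (e i) (range fun j : Iio i => x j)
    (mk_range_le.trans_lt (mk_Iio_toType_ord_lt i))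
  simp only [← hx] at hx'
  have hit : ∀ W : Set X, IsOpen W → W.Nonempty → ∀ U : ℕ → Set X, (∀ n, IsOpen (U n)) →
      (∀ n, Dense (U n)) → ∃ p ∈ Submodule.span ℂ (range x), p ∈ W ∧ ∀ n, p ∈ U n := by
    intro W hW hW' U hU hU'
    obtain ⟨A, rfl⟩ := hop W hW
    choose B hB using fun n => hop _ (hU n)
    obtain ⟨i, hi⟩ := e.surjective (A, B)
    have h1 := (hx' i).1
    simp only [hi, ← hB] at h1
    exact ⟨x i, Submodule.subset_span (mem_range_self i), h1 hW' hU'⟩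
  have hd : Dense (Submodule.span ℂ (range x) : Set X) := dense_iff_inter_open.2 fun W hW hW' => by
    obtain ⟨p, h1, h2, -⟩ := hit W hW hW' (fun _ => Set.univ) (fun _ => isOpen_univ) fun _ => dense_univ
    exact ⟨p, h2, h1⟩
  refine ⟨_, hd, ⟨fun V hV hV' => dense_iff_inter_open.2 fun W hW hW' => ?_⟩, fun k y hy hk => ?_⟩
  · obtain ⟨W, hW1, rfl⟩ := isOpen_induced_iff.1 hW
    choose U hU hU' using fun n => isOpen_induced_iff.1 (hV n)
    obtain ⟨w, hw⟩ := hW'
    obtain ⟨p, h1, h2, h3⟩ := hit W hW1 ⟨w, hw⟩ U hU fun n =>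
      (hd.denseRange_val.dense_image continuous_subtype_val (hV' n)).mono (by
        rw [← hU' n]
        exact image_preimage_subset _ _)
    exact ⟨⟨p, h1⟩, h2, mem_iInter.2 fun n => hU' n ▸ h3 n⟩
  · have key : ∀ s : Finset (𝔠 : Cardinal.{0}).ord.ToType,
        ∀ y ∈ Submodule.span ℂ (x '' s), y ∈ M k → y = 0 := by
      intro s
      induction s using Finset.induction_on_max with
      | empty => intro y hy _; simpa using hy
      | insert a s ha ih =>
        intro y hy hk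
        rw [Finset.coe_insert, image_insert_eq, Submodule.mem_span_insert] at hy
        obtain ⟨c, z, hz, rfl⟩ := hy
        by_cases hc : c = 0
        · rw [hc, zero_smul, zero_add] at hk ⊢
          exact ih z hz hk
        · refine absurd ((Submodule.smul_mem_iff _ hc).1 ?_) ((hx' a).2 k)
          rw [← add_sub_cancel_right (c • x a) z]
          refine Submodule.sub_mem _ (Submodule.mem_sup_left hk) (Submodule.mem_sup_right
            (Submodule.span_mono ?_ hz))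
          rintro _ ⟨j, hj, rfl⟩
          exact ⟨⟨j, ha j hj⟩, rfl⟩
    obtain ⟨c, rfl⟩ := Finsupp.mem_span_range_iff_exists_finsupp.1 hy
    exact key c.support _ (Submodule.sum_mem _ fun i hi => Submodule.smul_mem _ _
      (Submodule.subset_span ⟨i, hi, rfl⟩)) hk

end Pool.Agent.H88.Baire
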