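import Mathlib

set_option autoImplicit false

namespace Pool.Agent.H88.Baire

open Classical in
noncomputable def ext0 {S : Set ℂ} (g : C(S, ℂ)) (z : ℂ) : ℂ := if h : z ∈ S then g ⟨z, h⟩ else 0

theorem ext0_add {S : Set ℂ} (g h : C(S, ℂ)) : ext0 (g + h) = ext0 g + ext0 h := by
  funext z
  by_cases hz : z ∈ S <;> simp [ext0, hz]

theorem ext0_smul {S : Set ℂ} (c : ℂ) (g : C(S, ℂ)) : ext0 (c • g) = c • ext0 g := by
  funext z
  by_cases hz : z ∈ S <;> simp [ext0, hz]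

theorem ext0_zero {S : Set ℂ} : ext0 (0 : C(S, ℂ)) = fun _ => 0 := by
  funext z
  simp [ext0]

def AInf (G : Set ℂ) : Submodule ℂ (ℕ → C(closure G, ℂ)) where
  carrier := {F | ∀ j, ∀ z ∈ G, HasDerivAt (ext0 (F j)) (ext0 (F (j + 1)) z) z}
  add_mem' := fun h h' j z hz => by
    simp only [Pi.add_apply, ext0_add]
    exact (h j z hz).add (h' j z hz)
  zero_mem' := fun j z _ => by
    simp only [Pi.zero_apply, ext0_zero]
    exact hasDerivAt_const z 0
  smul_mem' := fun c _ h j z hz => by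
    simp only [Pi.smul_apply, ext0_smul]
    exact (h j z hz).const_smul c

def NonExt (G : Set ℂ) (f : ℂ → ℂ) : Prop :=
  ¬ ∃ (Ω : Set ℂ) (H : ℂ → ℂ), IsOpen Ω ∧ IsConnected Ω ∧ G ⊂ Ω ∧ DifferentiableOn ℂ H Ω ∧
    ∀ z ∈ G, H z = f z

def HasBaireDenseSubspace (X : Type) [AddCommGroup X] [Module ℂ X] [TopologicalSpace X]
    (P : X → Prop) : Prop :=
  ∃ E : Submodule ℂ X, Dense (E : Set X) ∧ BaireSpace E ∧ ∀ x ∈ E, x ≠ 0 → P x

end Pool.Agent.H88.Baire
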