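import Pool.Agent.H88.Baire1
import Pool.Agent.H88.BaireDefs

set_option autoImplicit false
open Filter Topology Set Metric

namespace Pool.Agent.H88.Baire

variable {G : Set ℂ}

theorem ext0_of_mem {S : Set ℂ} (g : C(S, ℂ)) {z : ℂ} (hz : z ∈ S) : ext0 g z = g ⟨z, hz⟩ :=
  dif_pos hz

theorem AInf_closed (hG : IsOpen G) : IsClosed (AInf G : Set (ℕ → C(closure G, ℂ))) := by
  refine isClosed_of_closure_subset fun F hF j z hz => ?_
  obtain ⟨l, hl, h1, h2⟩ : ∃ l : Filter (ℕ → C(closure G, ℂ)), l.NeBot ∧ (∀ᶠ f in l, f ∈ AInf G)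
      ∧ Tendsto id l (𝓝 F) :=
    ⟨𝓝[AInf G] F, mem_closure_iff_nhdsWithin_neBot.1 hF, self_mem_nhdsWithin, nhdsWithin_le_nhds⟩
  have : LocallyCompactSpace (closure G) := isClosed_closure.locallyCompactSpace
  have h3 : ∀ j, TendstoLocallyUniformlyOn (fun f : ℕ → C(closure G, ℂ) => ext0 (f j))
      (ext0 (F j)) l G := by
    intro j
    have h4 := ContinuousMap.tendsto_iff_tendstoLocallyUniformly.1 (tendsto_pi_nhds.1 h2 j)
    refine TendstoLocallyUniformlyOn.mono ?_ (subset_closure (s := G))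
    rw [tendstoLocallyUniformlyOn_iff_tendstoLocallyUniformly_comp_coe]
    convert h4 using 2 <;> simp [ext0, funext_iff]
  exact hasDerivAt_of_tendstoLocallyUniformlyOn hG (h3 (j + 1)) (h1.mono fun f hf => hf j)
    (fun x hx => (h3 j).tendsto_at hx) hz

theorem closer {a w : ℂ} (ha : a ∈ G) (hw : w ∉ closure G) :
    ∃ w' ∉ closure G, ‖a - w'‖ < ‖a - w‖ := by
  have h0 : 0 < ‖a - w‖ := norm_pos_iff.2 (sub_ne_zero.2 fun h => hw (h ▸ subset_closure ha))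
  have h1 : Tendsto (fun s : ℝ => w + s * (a - w)) (𝓝[>] 0) (𝓝 w) := by
    have : Continuous fun s : ℝ => w + s * (a - w) := by fun_prop
    simpa using (this.tendsto 0).mono_left (nhdsWithin_le_nhds (s := Ioi 0))
  obtain ⟨s, h2, h3⟩ := ((h1.eventually (isClosed_closure.isOpen_compl.mem_nhds hw)).and
    (Ioo_mem_nhdsGT one_pos)).exists
  refine ⟨_, h2, ?_⟩
  rw [show a - (w + s * (a - w)) = ((1 - s : ℝ) : ℂ) * (a - w) by push_cast; ring, norm_mul,
    Complex.norm_real, Real.norm_of_nonneg (by linarith [h3.2])]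
  nlinarith [h3.1]

noncomputable def TT (a : ℂ) (R : ℝ) (l : ℕ) (w : ℂ) (ε : ℝ) : ℝ := ε * R ^ l / ‖a - w‖ ^ (l + 1)

theorem small (c : ℝ) {η : ℝ} (hη : 0 < η) : ∀ᶠ ε in 𝓝[>] (0:ℝ), ε * c ≤ η := by
  have : Tendsto (fun ε : ℝ => ε * c) (𝓝[>] 0) (𝓝 0) := by
    have : Continuous fun ε : ℝ => ε * c := by fun_prop
    simpa using (this.tendsto 0).mono_left (nhdsWithin_le_nhds (s := Ioi 0))
  exact this.eventually (ge_mem_nhds hη)

theorem step {a w0 : ℂ} {R : ℝ} (ha : a ∈ G) (hw0 : w0 ∉ closure G) (hR : ‖a - w0‖ < R)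
    {β : Type} [Finite β] (w' : β → ℂ) (hw' : ∀ i, w' i ∉ closure G) (ε' : β → ℝ) (a' : β → ℂ)
    (R' : β → ℝ) (l' : β → ℕ) (n : ℕ) {η : ℝ} (hη : 0 < η) :
    ∃ w ∉ closure G, ∃ (ε : ℝ) (l : ℕ), 0 < ε ∧
      (∀ j ≤ n, ε * (j.factorial / infDist w (closure G) ^ (j + 1)) ≤ η) ∧
      (∀ i, TT (a' i) (R' i) (l' i) w ε ≤ η) ∧ 1 ≤ η * TT a R l w ε ∧
      ∀ i, TT a R l (w' i) (ε' i) ≤ η * TT a R l w ε := by
  obtain ⟨i0, hi0⟩ := Finite.exists_min fun i : Option β => ‖a - i.elim w0 w'‖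
  obtain ⟨w, hw, h1⟩ := closer ha (w := i0.elim w0 w') (by cases i0 <;> simp [hw0, hw'])
  have h2 : ‖a - w‖ < R := (h1.trans_le (hi0 none)).trans hR
  have h3 : ∀ i, ‖a - w‖ < ‖a - w' i‖ := fun i => h1.trans_le (hi0 (some i))
  have h0 : 0 < ‖a - w‖ := norm_pos_iff.2 (sub_ne_zero.2 fun h => hw (h ▸ subset_closure ha))
  obtain ⟨ε, ⟨e1, e2⟩, e0⟩ := ((((Set.finite_le_nat n).eventually_all.2 fun j _ =>
    small (j.factorial / infDist w (closure G) ^ (j + 1)) hη).and (eventually_all.2 fun i =>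
    small (R' i ^ l' i / ‖a' i - w‖ ^ (l' i + 1)) hη)).and self_mem_nhdsWithin).exists
  have e0' : 0 < ε := e0
  have l1 : ∀ᶠ l : ℕ in atTop, 1 ≤ η * TT a R l w ε := by
    have := (tendsto_pow_atTop_atTop_of_one_lt ((one_lt_div h0).2 h2)).const_mul_atTop
      (show 0 < η * ε / ‖a - w‖ by positivity)
    refine (this.eventually_ge_atTop 1).mono fun l hl => hl.trans (le_of_eq ?_)
    rw [TT, div_pow]
    field_simp
    ring
  have l2 : ∀ i, ∀ᶠ l : ℕ in atTop, TT a R l (w' i) (ε' i) ≤ η * TT a R l w ε := by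
    intro i
    have h4 := h0.trans (h3 i)
    have := (tendsto_pow_atTop_nhds_zero_of_lt_one (div_pos h0 h4).le
      ((div_lt_one h4).2 (h3 i))).const_mul (ε' i / ‖a - w' i‖)
    rw [mul_zero] at this
    refine (this.eventually (ge_mem_nhds (show 0 < η * ε / ‖a - w‖ by positivity))).mono
      fun l hl => ?_
    have h5 := mul_le_mul_of_nonneg_right hl
      (show 0 ≤ (R / ‖a - w‖) ^ l by have := h0.trans h2; positivity)
    refine (le_of_eq ?_).trans (h5.trans (le_of_eq ?_)) <;>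
    · simp only [TT, div_pow]
      field_simp
      ring
  obtain ⟨l, h4, h5⟩ := (l1.and (eventually_all.2 l2)).exists
  exact ⟨w, hw, ε, l, e0', e1, fun i => by rw [TT, mul_div_assoc]; exact e2 i, h4, h5⟩

theorem seq (a : ℕ → ℂ) (R : ℕ → ℝ) (ha : ∀ n, a n ∈ G)
    (hR : ∀ n, ∃ w ∉ closure G, ‖a n - w‖ < R n) :
    ∃ (w : ℕ → ℂ) (ε : ℕ → ℝ) (l : ℕ → ℕ), (∀ n, w n ∉ closure G) ∧ (∀ n, 0 < ε n) ∧
      (∀ n, ∀ j ≤ n, ε n * (j.factorial / infDist (w n) (closure G) ^ (j + 1)) ≤ (1 / 8) ^ n) ∧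
      (∀ n, 1 ≤ (1 / 4) ^ n * TT (a n) (R n) (l n) (w n) (ε n)) ∧
      ∀ n m, m ≠ n → TT (a n) (R n) (l n) (w m) (ε m)
        ≤ (1 / 4) ^ n * TT (a n) (R n) (l n) (w n) (ε n) * (1 / 2) ^ m := by
  choose w0 h1 h2 using hR
  have st : ∀ (n : ℕ) (f : Iio n → {w : ℂ // w ∉ closure G} × ℝ × ℕ),
      ∃ p : {w : ℂ // w ∉ closure G} × ℝ × ℕ, 0 < p.2.1 ∧
      (∀ j ≤ n, p.2.1 * (j.factorial / infDist p.1.1 (closure G) ^ (j + 1)) ≤ (1 / 8) ^ n) ∧
      (∀ i : Iio n, TT (a i) (R i) (f i).2.2 p.1 p.2.1 ≤ (1 / 8) ^ n) ∧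
      1 ≤ (1 / 8) ^ n * TT (a n) (R n) p.2.2 p.1 p.2.1 ∧
      ∀ i, TT (a n) (R n) p.2.2 (f i).1 (f i).2.1
        ≤ (1 / 8) ^ n * TT (a n) (R n) p.2.2 p.1 p.2.1 := fun n f => by
    obtain ⟨w, hw, ε, l, h⟩ := step (ha n) (h1 n) (h2 n) (fun i => (f i).1) (fun i => (f i).1.2)
      (fun i => (f i).2.1) (fun i => a i) (fun i => R i) (fun i => (f i).2.2) n
      (show (0:ℝ) < (1 / 8) ^ n by positivity)
    exact ⟨(⟨w, hw⟩, ε, l), h⟩
  choose F hF using st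
  obtain ⟨x, hx⟩ := exists_rec F
  have hx' := fun n => hF n fun j => x j
  simp only [← hx] at hx'
  have p1 : ∀ n : ℕ, (1 / 8 : ℝ) ^ n = (1 / 4) ^ n * (1 / 2) ^ n := fun n => by
    rw [← mul_pow]
    norm_num
  have p2 : ∀ n, 1 ≤ (1 / 4) ^ n * TT (a n) (R n) (x n).2.2 (x n).1 (x n).2.1 := fun n => by
    have h3 := (hx' n).2.2.2.1
    have h4 : (1 / 2 : ℝ) ^ n ≤ 1 := pow_le_one₀ (by norm_num) (by norm_num)
    have h5 : (0:ℝ) < (1 / 2) ^ n := by positivity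
    rw [p1, mul_right_comm] at h3
    nlinarith
  refine ⟨fun n => (x n).1, fun n => (x n).2.1, fun n => (x n).2.2, fun n => (x n).1.2,
    fun n => (hx' n).1, fun n => (hx' n).2.1, p2, fun n m hm => ?_⟩
  rcases lt_or_gt_of_ne hm with h | h
  · refine ((hx' n).2.2.2.2 ⟨m, h⟩).trans ?_
    rw [p1, mul_right_comm]
    exact mul_le_mul_of_nonneg_left (pow_le_pow_of_le_one (by norm_num) (by norm_num) h.le)
      (zero_le_one.trans (p2 n))
  · refine ((hx' m).2.2.1 ⟨n, h⟩).trans ?_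
    exact (pow_le_pow_left₀ (by norm_num) (by norm_num) m).trans
      (le_mul_of_one_le_left (by positivity) (p2 n))

theorem expo (θ : ℝ → ℝ) (hθ : StrictMono θ) (h1 : ∀ t, 1 / 2 ≤ θ t) (g : ℝ → ℂ) (B : ℝ)
    (s : Finset ℝ) (h : ∃ᶠ n in atTop, ‖∑ i ∈ s, g i * θ i ^ n‖ ≤ B * (1 / 4) ^ n) :
    ∀ i ∈ s, g i = 0 := by
  classical
  induction s using Finset.induction_on_max with
  | empty => simp
  | insert a s ha ih =>
    have hn : a ∉ s := fun h => lt_irrefl _ (ha a h)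
    have h0 : ∀ t, 0 < θ t := fun t => lt_of_lt_of_le (by norm_num) (h1 t)
    simp only [Finset.sum_insert hn] at h
    have h2 : Tendsto (fun n : ℕ => g a + ∑ i ∈ s, g i * ((θ i / θ a : ℝ) : ℂ) ^ n) atTop
        (𝓝 (g a + ∑ i ∈ s, g i * 0)) :=
      (tendsto_finsetSum _ fun i hi => (tendsto_pow_atTop_nhds_zero_of_norm_lt_one (by
        rw [Complex.norm_real, Real.norm_of_nonneg (div_pos (h0 i) (h0 a)).le, div_lt_one (h0 a)]
        exact hθ (ha i hi))).const_mul _).const_add _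
    have h3 : Tendsto (fun n : ℕ => |B| * (1 / 2 : ℝ) ^ n) atTop (𝓝 (|B| * 0)) :=
      (tendsto_pow_atTop_nhds_zero_of_lt_one (by norm_num) (by norm_num)).const_mul _
    have h4 : g a = 0 := by
      have h5 := le_of_tendsto_of_tendsto_of_frequently h2.norm h3 (h.mono fun n hn => by
        have e : g a + ∑ i ∈ s, g i * ((θ i / θ a : ℝ) : ℂ) ^ n
            = (g a * θ a ^ n + ∑ i ∈ s, g i * θ i ^ n) / θ a ^ n := by
          have : (θ a : ℂ) ≠ 0 := by exact_mod_cast (h0 a).ne'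
          rw [add_div, Finset.sum_div, mul_div_cancel_right₀ _ (pow_ne_zero _ this)]
          simp [div_pow, mul_div_assoc]
        show ‖_‖ ≤ _
        rw [e, norm_div, norm_pow, Complex.norm_real, Real.norm_of_nonneg (h0 a).le,
          div_le_iff₀ (pow_pos (h0 a) _), mul_assoc, ← mul_pow]
        refine hn.trans (mul_le_mul (le_abs_self _) (pow_le_pow_left₀ (by norm_num) ?_ n)
          (by positivity) (abs_nonneg _))
        linarith [h1 a])
      simpa using h5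
    simp only [h4, zero_mul, zero_add] at h
    intro i hi
    rcases Finset.mem_insert.1 hi with rfl | hi
    · exact h4
    · exact ih h i hi

end Pool.Agent.H88.Baire
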