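import Pool.Agent.H88.Baire2

set_option autoImplicit false
open Filter Topology Set Metric

namespace Pool.Agent.H88.Baire

variable {G : Set ℂ}

noncomputable def yy (w : ℂ) (j : ℕ) (z : ℂ) : ℂ := (-1) ^ j * j.factorial / (z - w) ^ (j + 1)

theorem yy_norm (w : ℂ) (j : ℕ) (z : ℂ) : ‖yy w j z‖ = j.factorial / ‖z - w‖ ^ (j + 1) := by
  simp [yy]

theorem yy_deriv {w z : ℂ} (h : z - w ≠ 0) (j : ℕ) : HasDerivAt (yy w j) (yy w (j + 1) z) z := by
  have h1 := ((((hasDerivAt_id z).sub_const w).fun_pow (j + 1)).fun_inv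
    (pow_ne_zero _ h)).const_mul ((-1) ^ j * j.factorial : ℂ)
  refine HasDerivAt.congr_deriv h1 ?_
  simp only [yy, Nat.factorial_succ, id, Nat.add_sub_cancel]
  push_cast
  field_simp
  ring

def MM (a : closure G) (R : ℝ) : Submodule ℂ (AInf G) where
  carrier := {F | ∃ C : ℝ, ∀ l, ‖F.1 l a * (R ^ l / l.factorial)‖ ≤ C}
  add_mem' := fun ⟨C, h⟩ ⟨D, h'⟩ => ⟨C + D, fun l => by
    simp only [Submodule.coe_add, Pi.add_apply, ContinuousMap.add_apply, add_mul]
    exact (norm_add_le _ _).trans (add_le_add (h l) (h' l))⟩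
  zero_mem' := ⟨0, fun l => by simp⟩
  smul_mem' := fun c _ ⟨C, h⟩ => ⟨‖c‖ * C, fun l => by
    simp only [Submodule.coe_smul, Pi.smul_apply, ContinuousMap.smul_apply, smul_eq_mul, mul_assoc]
    rw [norm_mul]
    exact mul_le_mul_of_nonneg_left (h l) (norm_nonneg _)⟩

theorem family (hG : IsOpen G) (hc : IsConnected G) (a : ℕ → closure G) (R : ℕ → ℝ)
    (ha : ∀ n, (a n : ℂ) ∈ G) (hR : ∀ n, ∃ w ∉ closure G, ‖a n - w‖ < R n) :
    ∃ φ : ℝ → AInf G, ∀ k,
      LinearIndependent ℂ fun t => (MM (a k) (R k)).mkQ (φ t) := by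
  obtain ⟨w, ε, l, hw, hε, h1, h2, h3⟩ := seq (fun n => a (Nat.unpair n).1)
    (fun n => R (Nat.unpair n).1) (fun n => ha _) fun n => hR _
  obtain ⟨θ, θ1, θ2, θ3⟩ : ∃ θ : ℝ → ℝ, StrictMono θ ∧ (∀ t, 1 / 2 ≤ θ t) ∧ ∀ t, θ t ≤ 1 :=
    ⟨fun t => 3 / 4 + Real.arctan t / 8, fun s t h => by
      simp only
      linarith [Real.arctan_strictMono h], fun t => by
      linarith [Real.neg_pi_div_two_lt_arctan t, Real.pi_le_four], fun t => by
      linarith [Real.arctan_lt_pi_div_two t, Real.pi_le_four]⟩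
  have d0 : ∀ m, 0 < infDist (w m) (closure G) := fun m =>
    (isClosed_closure.notMem_iff_infDist_pos hc.nonempty.closure).1 (hw m)
  have ne : ∀ m, ∀ z ∈ closure G, z - w m ≠ 0 := fun m z hz =>
    sub_ne_zero.2 fun h => hw m (h ▸ hz)
  have sb : ∀ j : ℕ, Summable fun m => ε m * (j.factorial / infDist (w m) (closure G) ^ (j + 1)) :=
    fun j => Summable.of_norm_bounded_eventually_nat
      (summable_geometric_of_lt_one (by norm_num) (show (1 / 8 : ℝ) < 1 by norm_num)) (by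
        filter_upwards [eventually_ge_atTop j] with m hm
        rw [Real.norm_of_nonneg (by have := hε m; have := d0 m; positivity)]
        exact h1 m j hm)
  have bd : ∀ (t : ℝ) (j m : ℕ), ∀ z ∈ closure G, ‖θ t ^ m * (ε m * yy (w m) j z)‖
      ≤ ε m * (j.factorial / infDist (w m) (closure G) ^ (j + 1)) := by
    intro t j m z hz
    have h4 : infDist (w m) (closure G) ≤ ‖z - w m‖ := by
      rw [← dist_eq_norm, dist_comm]
      exact infDist_le_dist_of_mem hz
    have h5 := hε m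
    have h6 := d0 m
    rw [norm_mul, norm_mul, norm_pow, Complex.norm_real, Complex.norm_real, yy_norm,
      Real.norm_of_nonneg (by linarith [θ2 t]), Real.norm_of_nonneg h5.le]
    refine (mul_le_of_le_one_left (by positivity) (pow_le_one₀ (by linarith [θ2 t]) (θ3 t))).trans ?_
    gcongr
  let P : ℝ → ℕ → C(closure G, ℂ) := fun t j =>
    ⟨fun z => ∑' m, θ t ^ m * (ε m * yy (w m) j z), continuous_tsum (fun m =>
      continuous_const.mul (continuous_const.mul (continuous_const.div (by fun_prop)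
        fun z => pow_ne_zero _ (ne m z z.2)))) (sb j) fun m z => bd t j m z z.2⟩
  have hP : ∀ t, P t ∈ AInf G := fun t j z hz => by
    have h4 := hasDerivAt_tsum_of_isPreconnected (sb (j + 1)) hG hc.isPreconnected
      (g := fun m z => θ t ^ m * (ε m * yy (w m) j z))
      (fun m y hy => ((yy_deriv (ne m y (subset_closure hy)) j).const_mul _).const_mul _)
      (fun m y hy => bd t (j + 1) m y (subset_closure hy)) hz
      (Summable.of_norm_bounded (sb j) fun m => bd t j m z (subset_closure hz)) hz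
    rw [ext0_of_mem _ (subset_closure hz)]
    refine h4.congr_of_eventuallyEq ?_
    filter_upwards [hG.mem_nhds hz] with y hy
    exact ext0_of_mem _ (subset_closure hy)
  refine ⟨fun t => ⟨P t, hP t⟩, fun k => linearIndependent_iff'.2 fun s g h => ?_⟩
  simp only [← map_smul, ← map_sum] at h
  obtain ⟨C, hC⟩ := (Submodule.Quotient.mk_eq_zero _).1 h
  obtain ⟨S, hS⟩ : ∃ S : ℕ → ℂ, ∀ m, S m = ∑ i ∈ s, g i * θ i ^ m := ⟨_, fun _ => rfl⟩
  obtain ⟨D, hD⟩ : ∃ D : ℝ, ∀ m, ‖S m‖ ≤ D := ⟨∑ i ∈ s, ‖g i‖, fun m => by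
    rw [hS]
    refine (norm_sum_le _ _).trans (Finset.sum_le_sum fun i _ => ?_)
    rw [norm_mul, norm_pow, Complex.norm_real, Real.norm_of_nonneg (by linarith [θ2 i])]
    exact mul_le_of_le_one_right (norm_nonneg _) (pow_le_one₀ (by linarith [θ2 i]) (θ3 i))⟩
  have D0 : 0 ≤ D := (norm_nonneg _).trans (hD 0)
  have C0 : 0 ≤ C := (norm_nonneg _).trans (hC 0)
  have R0 : 0 ≤ R k := by
    obtain ⟨_, _, h⟩ := hR k
    exact (norm_nonneg _).trans h.le
  refine expo θ θ1 θ2 g (C + 2 * D) s (frequently_atTop.2 fun N =>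
    ⟨Nat.pair k N, Nat.right_le_pair _ _, ?_⟩)
  have h4 := h2 (Nat.pair k N)
  have h5 := h3 (Nat.pair k N)
  simp only [Nat.unpair_pair] at h4 h5
  generalize Nat.pair k N = n at h4 h5 ⊢
  have h6 : HasSum (fun m => S m * (ε m * yy (w m) (l n) (a k) * (R k ^ l n / (l n).factorial)))
      ((∑ i ∈ s, g i • (⟨P i, hP i⟩ : AInf G)).1 (l n) (a k) * (R k ^ l n / (l n).factorial)) := by
    have h7 := (hasSum_sum (s := s) fun i _ => (Summable.of_norm_bounded (sb (l n))
      fun m => bd i (l n) m _ (a k).2).hasSum.mul_left (g i)).mul_right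
      (R k ^ l n / (l n).factorial : ℂ)
    simp only [← mul_assoc (g _), ← Finset.sum_mul, ← hS, mul_assoc (S _)] at h7
    simp only [Submodule.coe_sum, Submodule.coe_smul, Finset.sum_apply, ContinuousMap.sum_apply,
      Pi.smul_apply, ContinuousMap.smul_apply, smul_eq_mul]
    exact h7
  have h7 : ∀ m, ‖ε m * yy (w m) (l n) (a k) * (R k ^ l n / (l n).factorial)‖
      = TT (a k) (R k) (l n) (w m) (ε m) := fun m => by
    have : ((l n).factorial : ℝ) ≠ 0 := by positivity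
    rw [norm_mul, norm_mul, yy_norm, norm_div, norm_pow, Complex.norm_real, Complex.norm_real,
      Real.norm_of_nonneg (hε m).le, Real.norm_of_nonneg R0, Complex.norm_natCast, TT]
    field_simp
  have h8 := hC (l n)
  rw [← h6.tsum_eq, h6.summable.tsum_eq_add_tsum_ite n] at h8
  have h9 := h7 n
  generalize TT (a k) (R k) (l n) (w n) (ε n) = T at h4 h5 h9
  have h10 := tsum_of_norm_bounded (hasSum_geometric_two.mul_left (D * ((1 / 4) ^ n * T)))
    (f := fun m => if m = n then 0 else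
      S m * (ε m * yy (w m) (l n) (a k) * (R k ^ l n / (l n).factorial))) fun m => by
      split_ifs with hm
      · rw [norm_zero]
        have := zero_le_one.trans h4
        positivity
      · rw [norm_mul, h7, mul_assoc D]
        exact mul_le_mul (hD m) (h5 m hm) (h7 m ▸ norm_nonneg _) D0
  rw [← sub_neg_eq_add] at h8
  have h11 := (norm_sub_norm_le _ _).trans h8
  rw [norm_neg, norm_mul, h9] at h11
  have q0 : (0:ℝ) < (1 / 4) ^ n := by positivity
  have T0 : 0 < T := (mul_pos_iff_of_pos_left q0).1 (zero_lt_one.trans_le h4)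
  rw [← hS]
  refine le_of_mul_le_mul_right ?_ T0
  nlinarith [mul_le_mul_of_nonneg_left h4 C0]

theorem ext_mem (hG : IsOpen G) (F : AInf G) {H : ℂ → ℂ} (h : ∀ z ∈ G, H z = ext0 (F.1 0) z)
    (a : closure G) (ha : (a:ℂ) ∈ G) {R : ℝ} (hR : 0 < R) {Ω : Set ℂ}
    (hH : DifferentiableOn ℂ H Ω) (hΩ : closedBall (a:ℂ) R ⊆ Ω) : F ∈ MM a R := by
  have h1 : ∀ l, ∀ z ∈ G, iteratedDeriv l H z = ext0 (F.1 l) z := by
    intro l
    induction l with
    | zero => exact h
    | succ l ih =>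
      intro z hz
      rw [iteratedDeriv_succ, ← (F.2 l z hz).deriv]
      exact Filter.EventuallyEq.deriv_eq (Filter.eventuallyEq_of_mem (hG.mem_nhds hz) ih)
  obtain ⟨C, hC⟩ := (isCompact_sphere (a:ℂ) R).exists_bound_of_continuousOn
    (hH.continuousOn.mono (sphere_subset_closedBall.trans hΩ))
  refine ⟨C, fun l => ?_⟩
  have h2 := Complex.norm_iteratedDeriv_le_of_forall_mem_sphere_norm_le l hR
    (hH.mono hΩ |>.diffContOnCl_ball subset_rfl) hC
  rw [h1 l a ha, ext0_of_mem _ a.2, le_div_iff₀ (by positivity)] at h2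
  rw [norm_mul, norm_div, norm_pow, Complex.norm_real, Real.norm_of_nonneg hR.le,
    Complex.norm_natCast, ← mul_div_assoc, div_le_iff₀ (by positivity), mul_comm C]
  exact h2

theorem valdivia (hG : IsOpen G) (hc : IsConnected G) (hr : interior (closure G) = G) :
    ∃ E : Submodule ℂ (AInf G), Dense (E : Set (AInf G)) ∧ BaireSpace E ∧
      ∀ F ∈ E, F ≠ 0 → NonExt G (ext0 (F.1 0)) := by
  have : LocallyCompactSpace (closure G) := isClosed_closure.locallyCompactSpace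
  have : TopologicalSpace.IsCompletelyPseudoMetrizableSpace (AInf G) :=
    (AInf_closed hG).isClosedEmbedding_subtypeVal.IsCompletelyPseudoMetrizableSpace
  have : SecondCountableTopology (AInf G) := TopologicalSpace.Subtype.secondCountableTopology _
  have key : ∀ Ω : Set ℂ, IsOpen Ω → IsConnected Ω → G ⊂ Ω → ∃ ζ r, 0 < r ∧ ball ζ r ⊆ Ω ∧
      ∃ a ∈ G, ∃ w ∉ closure G, ‖a - ζ‖ < r / 4 ∧ ‖w - ζ‖ < r / 4 := by
    intro Ω h1 h2 h3
    obtain ⟨ζ, ⟨h4, h5⟩, h6⟩ := not_subset.1 fun h => h3.2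
      (h2.isPreconnected.subset_of_closure_inter_subset hG (hc.nonempty.mono
        (subset_inter h3.1 subset_rfl)) h)
    obtain ⟨r, hr0, h7⟩ := Metric.isOpen_iff.1 h1 ζ h5
    obtain ⟨a, ha, h8⟩ := Metric.mem_closure_iff.1 h4 (r / 4) (by positivity)
    obtain ⟨w, h9, hw⟩ := not_subset.1 fun h : ball ζ (r / 4) ⊆ closure G =>
      h6 (hr ▸ mem_interior.2 ⟨_, h, isOpen_ball, mem_ball_self (by positivity)⟩)
    exact ⟨ζ, r, hr0, h7, a, ha, w, hw, by rwa [← dist_eq_norm, dist_comm],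
      mem_ball_iff_norm.1 h9⟩
  by_cases hV : Nonempty {p : ℂ × ℝ // p.1 ∈ G ∧ ∃ w ∉ closure G, ‖p.1 - w‖ < p.2}
  · obtain ⟨u, hu⟩ := TopologicalSpace.exists_dense_seq
      {p : ℂ × ℝ // p.1 ∈ G ∧ ∃ w ∉ closure G, ‖p.1 - w‖ < p.2}
    obtain ⟨φ, hφ⟩ := family hG hc (fun n => ⟨(u n).1.1, subset_closure (u n).2.1⟩)
      (fun n => (u n).1.2) (fun n => (u n).2.1) fun n => (u n).2.2
    obtain ⟨E, h1, h2, h3⟩ := main _ φ hφ
    refine ⟨E, h1, h2, fun F hF h0 ⟨Ω, H, o1, o2, o3, o4, o5⟩ => ?_⟩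
    obtain ⟨ζ, r, hr0, h7, a, ha, w, hw, h8, h9⟩ := key Ω o1 o2 o3
    obtain ⟨k, hk⟩ := hu.exists_mem_open (s := {p | ‖p.1.1 - ζ‖ + p.1.2 < r})
      (isOpen_lt (by fun_prop) continuous_const)
      ⟨⟨(a, r / 2), ha, w, hw, by
        have := norm_sub_le_norm_sub_add_norm_sub a ζ w
        rw [norm_sub_rev ζ] at this
        simp only
        linarith⟩, by simp only [mem_ofPred_eq]; linarith⟩
    obtain ⟨_, _, h10⟩ := (u k).2.2
    refine h0 (h3 k F hF (ext_mem hG F o5 _ (u k).2.1 ((norm_nonneg _).trans_lt h10) o4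
      (subset_trans (fun z hz => ?_) h7)))
    have h11 := norm_sub_le_norm_sub_add_norm_sub z (u k).1.1 ζ
    have h12 := mem_closedBall_iff_norm.1 hz
    simp only [mem_ofPred_eq] at hk h12
    rw [mem_ball_iff_norm]
    linarith
  · obtain ⟨E, h1, h2, -⟩ := main (X := AInf G) (κ := Empty) (fun _ => ⊥) 0 fun k => k.elim
    refine ⟨E, h1, h2, fun F _ _ ⟨Ω, H, o1, o2, o3, _⟩ => ?_⟩
    obtain ⟨ζ, r, -, -, a, ha, w, hw, -⟩ := key Ω o1 o2 o3
    exact hV ⟨⟨(a, ‖a - w‖ + 1), ha, w, hw, lt_add_one _⟩⟩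

end Pool.Agent.H88.Baire
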