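import Mathlib

set_option autoImplicit false
open MeasureTheory Filter Topology Metric Set
open scoped ENNReal

namespace Pool.Agent.H88.Berg

theorem mom {s : ℝ} (hs : 0 < s) (k : ℕ) :
    ∫ z in ball (0:ℂ) s, ‖z‖ ^ (2 * k) = Real.pi * s ^ (2 * k + 2) / (k + 1) := by
  have h1 := integral_fun_norm_addHaar (volume : Measure ℂ)
    (fun y : ℝ => (Iio s).indicator (fun y => y ^ (2 * k)) y)
  have h2 : ∫ z in ball (0:ℂ) s, ‖z‖ ^ (2 * k)
      = ∫ z : ℂ, (Iio s).indicator (fun y : ℝ => y ^ (2 * k)) ‖z‖ := by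
    rw [← integral_indicator measurableSet_ball]
    congr 1
    funext z
    by_cases hz : ‖z‖ < s
    · rw [indicator_of_mem (by simpa using hz), indicator_of_mem (by simpa using hz)]
    · rw [indicator_of_notMem (by simpa using hz), indicator_of_notMem (by simpa using hz)]
  have h3 : ∫ y in Ioi (0:ℝ), y ^ (Module.finrank ℝ ℂ - 1) •
      (Iio s).indicator (fun y : ℝ => y ^ (2 * k)) y = s ^ (2 * k + 2) / (2 * k + 2) := by
    have e : (fun y : ℝ => y ^ (Module.finrank ℝ ℂ - 1) •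
        (Iio s).indicator (fun y : ℝ => y ^ (2 * k)) y)
        = (Iio s).indicator (fun y : ℝ => y ^ (2 * k + 1)) := by
      funext y
      by_cases hy : y ∈ Iio s
      · rw [indicator_of_mem hy, indicator_of_mem hy, Complex.finrank_real_complex]
        simp only [smul_eq_mul]
        ring
      · rw [indicator_of_notMem hy, indicator_of_notMem hy, smul_zero]
    rw [e, setIntegral_indicator measurableSet_Iio, Ioi_inter_Iio,
      ← integral_Ioc_eq_integral_Ioo, ← intervalIntegral.integral_of_le hs.le, integral_pow]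
    push_cast
    rw [zero_pow (by omega), sub_zero]
    ring_nf
  rw [h2, h1, h3, Complex.finrank_real_complex, measureReal_def, Complex.volume_ball]
  simp only [ENNReal.ofReal_one, one_pow, one_mul, ENNReal.coe_toReal, NNReal.coe_real_pi,
    nsmul_eq_mul, smul_eq_mul]
  push_cast
  field_simp

theorem rot {E : Type*} [NormedAddCommGroup E] [NormedSpace ℝ E] (s : ℝ) (u : ℂ) (hu : ‖u‖ = 1)
    (F : ℂ → E) : ∫ z in ball (0:ℂ) s, F (u * z) = ∫ z in ball (0:ℂ) s, F z := by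
  let a : Circle := ⟨u, by simpa [Submonoid.unitSphere] using hu⟩
  have hp : MeasurePreserving (rotation a) volume volume := (rotation a).measurePreserving
  have hemb : MeasurableEmbedding (rotation a) := (rotation a).toHomeomorph.measurableEmbedding
  have h1 := hp.setIntegral_preimage_emb hemb F (ball 0 s)
  have h2 : (rotation a) ⁻¹' ball (0:ℂ) s = ball 0 s := by
    ext z
    rw [mem_preimage, mem_ball_zero_iff, mem_ball_zero_iff, LinearIsometryEquiv.norm_map]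
  rw [h2] at h1
  exact h1

theorem orth (s : ℝ) (φ : ℂ → ℝ) (hr : ∀ u z : ℂ, ‖u‖ = 1 → φ (u * z) = φ z) {n m : ℕ}
    (hnm : n ≠ m) : ∫ z in ball (0:ℂ) s, z ^ n * (starRingEnd ℂ z) ^ m * (φ z : ℂ) = 0 := by
  obtain ⟨θ, hθ⟩ : ∃ θ : ℝ, θ = Real.pi / ((n:ℝ) - m) := ⟨_, rfl⟩
  have hd : (n:ℝ) - m ≠ 0 := sub_ne_zero.2 (by exact_mod_cast hnm)
  have hu : ‖Complex.exp (θ * Complex.I)‖ = 1 := Complex.norm_exp_ofReal_mul_I θ
  have h1 := rot s _ hu (fun z => z ^ n * (starRingEnd ℂ z) ^ m * (φ z : ℂ))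
  have h2 : Complex.exp (θ * Complex.I) ^ n * (starRingEnd ℂ (Complex.exp (θ * Complex.I))) ^ m
      = -1 := by
    rw [← Complex.exp_conj, ← Complex.exp_nat_mul, ← Complex.exp_nat_mul, ← Complex.exp_add,
      ← Complex.exp_pi_mul_I]
    congr 1
    have h3 : (Real.pi : ℝ) = ((n:ℝ) - m) * θ := by
      rw [hθ]
      field_simp
    rw [h3]
    simp only [map_mul, Complex.conj_ofReal, Complex.conj_I]
    push_cast
    ring
  have h3 : ∀ z : ℂ, (Complex.exp (θ * Complex.I) * z) ^ n *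
      (starRingEnd ℂ (Complex.exp (θ * Complex.I) * z)) ^ m *
      (φ (Complex.exp (θ * Complex.I) * z) : ℂ)
      = -(z ^ n * (starRingEnd ℂ z) ^ m * (φ z : ℂ)) := by
    intro z
    rw [hr _ _ hu, map_mul, mul_pow, mul_pow]
    linear_combination (z ^ n * (starRingEnd ℂ z) ^ m * (φ z : ℂ)) * h2
  simp_rw [h3] at h1
  rw [integral_neg] at h1
  linear_combination (-1 / 2 : ℂ) * h1

theorem intgC {s : ℝ} {φ : ℂ → ℝ} (hφ : IntegrableOn φ (ball (0:ℂ) s)) {h : ℂ → ℂ}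
    (hm : AEStronglyMeasurable h (volume.restrict (ball (0:ℂ) s))) (C : ℝ)
    (hC : ∀ z ∈ ball (0:ℂ) s, ‖h z‖ ≤ C) :
    IntegrableOn (fun z => h z * (φ z : ℂ)) (ball (0:ℂ) s) :=
  Integrable.bdd_mul (c := C) hφ.ofReal hm
    ((ae_restrict_iff' measurableSet_ball).2 (Eventually.of_forall hC))

theorem intgR {s : ℝ} {φ : ℂ → ℝ} (hφ : IntegrableOn φ (ball (0:ℂ) s)) {h : ℂ → ℝ}
    (hm : AEStronglyMeasurable h (volume.restrict (ball (0:ℂ) s))) (C : ℝ)
    (hC : ∀ z ∈ ball (0:ℂ) s, ‖h z‖ ≤ C) :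
    IntegrableOn (fun z => h z * φ z) (ball (0:ℂ) s) :=
  Integrable.bdd_mul (c := C) hφ hm
    ((ae_restrict_iff' measurableSet_ball).2 (Eventually.of_forall hC))

theorem intgRc {s : ℝ} {φ : ℂ → ℝ} (hφ : IntegrableOn φ (ball (0:ℂ) s)) {h : ℂ → ℝ}
    (hc : Continuous h) : IntegrableOn (fun z => h z * φ z) (ball (0:ℂ) s) := by
  obtain ⟨C, hC⟩ := (isCompact_closedBall (0:ℂ) s).exists_bound_of_continuousOn hc.continuousOn
  exact intgR hφ hc.aestronglyMeasurable C fun z hz => hC z (ball_subset_closedBall hz)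

theorem intgCc {s : ℝ} {φ : ℂ → ℝ} (hφ : IntegrableOn φ (ball (0:ℂ) s)) {h : ℂ → ℂ}
    (hc : Continuous h) : IntegrableOn (fun z => h z * (φ z : ℂ)) (ball (0:ℂ) s) := by
  obtain ⟨C, hC⟩ := (isCompact_closedBall (0:ℂ) s).exists_bound_of_continuousOn hc.continuousOn
  exact intgC hφ hc.aestronglyMeasurable C fun z hz => hC z (ball_subset_closedBall hz)

theorem parseval {s : ℝ} {φ : ℂ → ℝ} (hr : ∀ u z : ℂ, ‖u‖ = 1 → φ (u * z) = φ z)
    (hφ : IntegrableOn φ (ball (0:ℂ) s)) (b : ℕ → ℂ) (N : ℕ) :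
    ∫ z in ball (0:ℂ) s, ‖∑ n ∈ Finset.range N, b n * z ^ n‖ ^ 2 * φ z
      = ∑ n ∈ Finset.range N, ‖b n‖ ^ 2 * ∫ z in ball (0:ℂ) s, ‖z‖ ^ (2 * n) * φ z := by
  apply Complex.ofReal_injective
  rw [← integral_complex_ofReal]
  have h1 : ∀ z : ℂ, ((‖∑ n ∈ Finset.range N, b n * z ^ n‖ ^ 2 * φ z : ℝ) : ℂ)
      = ∑ n ∈ Finset.range N, ∑ m ∈ Finset.range N,
        b n * starRingEnd ℂ (b m) * (z ^ n * (starRingEnd ℂ z) ^ m * (φ z : ℂ)) := by
    intro z
    push_cast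
    rw [← Complex.mul_conj', map_sum, Finset.sum_mul_sum, Finset.sum_mul]
    refine Finset.sum_congr rfl fun n _ => ?_
    rw [Finset.sum_mul]
    refine Finset.sum_congr rfl fun m _ => ?_
    rw [map_mul, map_pow]
    ring
  simp_rw [h1]
  have h2 : ∀ n m : ℕ, IntegrableOn (fun z : ℂ =>
      b n * starRingEnd ℂ (b m) * (z ^ n * (starRingEnd ℂ z) ^ m * (φ z : ℂ))) (ball 0 s) :=
    fun n m => (intgCc hφ (by fun_prop)).const_mul _
  rw [integral_finsetSum _ fun n _ => integrable_finsetSum _ fun m _ => h2 n m]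
  push_cast
  refine Finset.sum_congr rfl fun n hn => ?_
  rw [integral_finsetSum _ fun m _ => h2 n m, Finset.sum_eq_single_of_mem n hn]
  · rw [integral_const_mul, Complex.mul_conj', ← integral_complex_ofReal]
    congr 2
    funext z
    rw [← mul_pow, Complex.mul_conj']
    push_cast
    ring
  · intro m _ hm
    rw [integral_const_mul, orth s φ hr hm.symm, mul_zero]

theorem bessel {φ : ℂ → ℝ} (hr : ∀ u z : ℂ, ‖u‖ = 1 → φ (u * z) = φ z)
    (hφ : IntegrableOn φ (ball (0:ℂ) 1)) (h0 : ∀ z, 0 ≤ φ z) {g : ℂ → ℂ} (hg : Measurable g) (M : ℝ)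
    (hM : ∀ z ∈ ball (0:ℂ) 1, ‖g z‖ ≤ M) (N : ℕ) :
    ∑ n ∈ Finset.range N, ‖∫ z in ball (0:ℂ) 1, g z * (starRingEnd ℂ z) ^ n * (φ z : ℂ)‖ ^ 2
      ≤ ((∫ z in ball (0:ℂ) 1, φ z) + 1) * ∫ z in ball (0:ℂ) 1, ‖g z‖ ^ 2 * φ z := by
  obtain ⟨a, ha⟩ : ∃ a : ℕ → ℂ,
      ∀ n, a n = ∫ z in ball (0:ℂ) 1, g z * (starRingEnd ℂ z) ^ n * (φ z : ℂ) := ⟨_, fun _ => rfl⟩
  simp_rw [← ha]
  obtain ⟨A, hA⟩ : ∃ A, A = ∑ n ∈ Finset.range N, ‖a n‖ ^ 2 := ⟨_, rfl⟩
  obtain ⟨Φ, hΦ⟩ : ∃ Φ, Φ = ∫ z in ball (0:ℂ) 1, φ z := ⟨_, rfl⟩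
  rw [← hA, ← hΦ]
  have hΦ0 : 0 ≤ Φ := hΦ ▸ integral_nonneg h0
  have hA0 : 0 ≤ A := hA ▸ Finset.sum_nonneg fun _ _ => sq_nonneg _
  have hM0 : 0 ≤ M := (norm_nonneg _).trans (hM 0 (by simp))
  have hi : ∀ n : ℕ, IntegrableOn (fun z => g z * (starRingEnd ℂ z) ^ n * (φ z : ℂ)) (ball 0 1) := by
    intro n
    refine intgC hφ (hg.mul (by fun_prop)).aestronglyMeasurable M fun z hz => ?_
    rw [norm_mul, norm_pow, Complex.norm_conj]
    have h1 : ‖z‖ ≤ 1 := (mem_ball_zero_iff.1 hz).le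
    exact (mul_le_of_le_one_right (norm_nonneg _) (pow_le_one₀ (norm_nonneg _) h1)).trans (hM z hz)
  have h1 : (A : ℂ) = ∫ z in ball (0:ℂ) 1,
      g z * starRingEnd ℂ (∑ n ∈ Finset.range N, a n * z ^ n) * (φ z : ℂ) := by
    have e : ∀ z : ℂ, g z * starRingEnd ℂ (∑ n ∈ Finset.range N, a n * z ^ n) * (φ z : ℂ)
        = ∑ n ∈ Finset.range N, starRingEnd ℂ (a n) * (g z * (starRingEnd ℂ z) ^ n * (φ z : ℂ)) := by
      intro z
      rw [map_sum, Finset.mul_sum, Finset.sum_mul]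
      refine Finset.sum_congr rfl fun n _ => ?_
      rw [map_mul, map_pow]
      ring
    simp_rw [e]
    rw [integral_finsetSum _ fun n _ => (hi n).const_mul _, hA]
    push_cast
    refine Finset.sum_congr rfl fun n _ => ?_
    rw [integral_const_mul, ← ha, mul_comm, Complex.mul_conj']
  have hi2 : IntegrableOn (fun z => ‖g z‖ ^ 2 * φ z) (ball 0 1) := by
    refine intgR hφ (hg.norm.pow_const 2).aestronglyMeasurable (M ^ 2) fun z hz => ?_
    rw [norm_pow, norm_norm]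
    exact pow_le_pow_left₀ (norm_nonneg _) (hM z hz) 2
  have hi3 : IntegrableOn (fun z : ℂ => ‖∑ n ∈ Finset.range N, a n * z ^ n‖ ^ 2 * φ z) (ball 0 1) :=
    intgRc hφ (by fun_prop)
  have h3 : ∫ z in ball (0:ℂ) 1, ‖∑ n ∈ Finset.range N, a n * z ^ n‖ ^ 2 * φ z ≤ A * Φ := by
    rw [parseval hr hφ, hA, Finset.sum_mul]
    refine Finset.sum_le_sum fun n _ => mul_le_mul_of_nonneg_left ?_ (sq_nonneg _)
    rw [hΦ]
    refine setIntegral_mono_on (intgRc hφ (by fun_prop)) hφ measurableSet_ball fun z hz => ?_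
    exact mul_le_of_le_one_left (h0 z)
      (pow_le_one₀ (norm_nonneg _) (mem_ball_zero_iff.1 hz).le)
  have h2 : A ≤ ∫ z in ball (0:ℂ) 1, ((Φ + 1) / 2 * (‖g z‖ ^ 2 * φ z)
      + 1 / (2 * (Φ + 1)) * (‖∑ n ∈ Finset.range N, a n * z ^ n‖ ^ 2 * φ z)) := by
    have h4 : A = ‖(A : ℂ)‖ := by rw [Complex.norm_real, Real.norm_of_nonneg hA0]
    rw [h4, h1]
    refine norm_integral_le_of_norm_le ((hi2.const_mul _).add (hi3.const_mul _))
      (Eventually.of_forall fun z => ?_)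
    rw [norm_mul, norm_mul, Complex.norm_conj, Complex.norm_real, Real.norm_of_nonneg (h0 z)]
    generalize ‖g z‖ = x
    generalize ‖∑ n ∈ Finset.range N, a n * z ^ n‖ = y
    have h5 : x * y ≤ (Φ + 1) / 2 * x ^ 2 + 1 / (2 * (Φ + 1)) * y ^ 2 := by
      have h6 : (Φ + 1) / 2 * x ^ 2 + 1 / (2 * (Φ + 1)) * y ^ 2 - x * y
          = ((Φ + 1) * x - y) ^ 2 / (2 * (Φ + 1)) := by
        field_simp
        ring
      have h7 : 0 ≤ ((Φ + 1) * x - y) ^ 2 / (2 * (Φ + 1)) := by positivity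
      linarith
    have := mul_le_mul_of_nonneg_right h5 (h0 z)
    linarith
  rw [integral_add (hi2.const_mul _) (hi3.const_mul _), integral_const_mul, integral_const_mul] at h2
  have h5 : 1 / (2 * (Φ + 1)) * (A * Φ) ≤ A / 2 := by
    rw [div_mul_eq_mul_div, one_mul, div_le_div_iff₀ (by positivity) (by norm_num)]
    nlinarith
  have h6 := mul_le_mul_of_nonneg_left h3 (show 0 ≤ 1 / (2 * (Φ + 1)) by positivity)
  linarith

theorem intg_one (s : ℝ) : IntegrableOn (fun _ : ℂ => (1:ℝ)) (ball (0:ℂ) s) :=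
  integrableOn_const measure_ball_lt_top.ne

theorem intg_cont (s : ℝ) {h : ℂ → ℝ} (hc : Continuous h) : IntegrableOn h (ball (0:ℂ) s) := by
  simpa using intgRc (intg_one s) hc

theorem mom_w (n : ℕ) : ∫ z in ball (0:ℂ) 1, ‖z‖ ^ (2 * n) * (1 - ‖z‖ ^ 2)
    = Real.pi / ((n + 1) * (n + 2)) := by
  have e : ∀ z : ℂ, ‖z‖ ^ (2 * n) * (1 - ‖z‖ ^ 2) = ‖z‖ ^ (2 * n) - ‖z‖ ^ (2 * (n + 1)) := by
    intro z
    ring
  simp_rw [e]
  rw [integral_sub (intg_cont 1 (by fun_prop)) (intg_cont 1 (by fun_prop)), mom one_pos,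
    mom one_pos]
  push_cast
  field_simp
  ring

theorem lp_bound (b : ℕ → ℂ) (F : ℂ → ℂ) (hF : ∀ z ∈ ball (0:ℂ) 1, HasSum (fun n => b n * z ^ n) (F z))
    (K : ℝ) (hK : ∀ N, ∑ n ∈ Finset.range N, ‖b n‖ ^ 2 * (Real.pi / ((n + 1) * (n + 2))) ≤ K) :
    ∫⁻ z in ball (0:ℂ) 1, ENNReal.ofReal (‖F z‖ ^ 2 * (1 - ‖z‖ ^ 2)) ≤ ENNReal.ofReal K := by
  have h1 : ∫⁻ z in ball (0:ℂ) 1, ENNReal.ofReal (‖F z‖ ^ 2 * (1 - ‖z‖ ^ 2))
      = ∫⁻ z in ball (0:ℂ) 1, liminf (fun N =>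
        ENNReal.ofReal (‖∑ n ∈ Finset.range N, b n * z ^ n‖ ^ 2 * (1 - ‖z‖ ^ 2))) atTop := by
    refine setLIntegral_congr_fun measurableSet_ball fun z hz => ?_
    refine (Tendsto.liminf_eq ?_).symm
    exact ENNReal.tendsto_ofReal (((hF z hz).tendsto_sum_nat.norm.pow 2).mul_const _)
  rw [h1]
  refine (lintegral_liminf_le fun N => ?_).trans ?_
  · exact ENNReal.measurable_ofReal.comp (Continuous.measurable (by fun_prop))
  · refine liminf_le_of_frequently_le' (Frequently.of_forall fun N => ?_)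
    rw [← ofReal_integral_eq_lintegral_ofReal (intg_cont 1 (by fun_prop))]
    · refine ENNReal.ofReal_le_ofReal ?_
      rw [parseval (φ := fun z => 1 - ‖z‖ ^ 2) (fun u z hu => by simp [hu])
        (intg_cont 1 (by fun_prop))]
      simp_rw [mom_w]
      exact hK N
    · refine (ae_restrict_iff' measurableSet_ball).2 (Eventually.of_forall fun z hz => ?_)
      have h2 : ‖z‖ ^ 2 ≤ 1 := pow_le_one₀ (norm_nonneg _) (mem_ball_zero_iff.1 hz).le
      exact mul_nonneg (sq_nonneg _) (by linarith)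

end Pool.Agent.H88.Berg
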