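import Pool.Agent.H88.Berg1

set_option autoImplicit false
open MeasureTheory Filter Topology Metric Set
open scoped ENNReal

namespace Pool.Agent.H88.Berg

noncomputable def ww (z : ℂ) : ℝ := (1 - ‖z‖ ^ 2) / ‖1 - z‖ ^ 2

theorem one_sub_ne {z : ℂ} (hz : ‖z‖ < 1) : 1 - z ≠ 0 := by
  intro h
  have : z = 1 := by linear_combination -h
  rw [this, norm_one] at hz
  exact lt_irrefl _ hz

theorem ker_hasSum {z x : ℂ} (hz : ‖z‖ < 1) (hx : ‖x‖ ≤ 1) :
    HasSum (fun n : ℕ => (1 - (n + 2) * x ^ (n + 1) + (n + 1) * x ^ (n + 2)) * z ^ n)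
      ((1 - x) ^ 2 / ((1 - z * x) ^ 2 * (1 - z))) := by
  have hy : ‖z * x‖ < 1 := by
    rw [norm_mul]
    exact lt_of_le_of_lt (mul_le_of_le_one_right (norm_nonneg _) hx) hz
  have h1 := hasSum_geometric_of_norm_lt_one hz
  have h2 := hasSum_geometric_of_norm_lt_one hy
  have h3 := hasSum_coe_mul_geometric_of_norm_lt_one hy
  have h4 := (h1.sub ((h3.add (h2.mul_left 2)).mul_left x)).add ((h3.add h2).mul_left (x ^ 2))
  have e1 : (fun n : ℕ => (1 - (n + 2) * x ^ (n + 1) + (n + 1) * x ^ (n + 2)) * z ^ n)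
      = fun n : ℕ => z ^ n - x * (n * (z * x) ^ n + 2 * (z * x) ^ n)
        + x ^ 2 * (n * (z * x) ^ n + (z * x) ^ n) := by
    funext n
    rw [mul_pow]
    ring
  have e2 : (1 - x) ^ 2 / ((1 - z * x) ^ 2 * (1 - z))
      = (1 - z)⁻¹ - x * (z * x / (1 - z * x) ^ 2 + 2 * (1 - z * x)⁻¹)
        + x ^ 2 * (z * x / (1 - z * x) ^ 2 + (1 - z * x)⁻¹) := by
    have h5 := mul_inv_cancel₀ (one_sub_ne hz)
    have h6 := mul_inv_cancel₀ (one_sub_ne hy)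
    simp only [div_eq_mul_inv, mul_inv, ← inv_pow]
    generalize (1 - z)⁻¹ = p at *
    generalize (1 - z * x)⁻¹ = q at *
    linear_combination (-(2 * x * q ^ 2 - x ^ 2 * z * q ^ 2 - x ^ 2 * q ^ 2)) * h5
      + (p * (1 + q * (1 - z * x)) - 2 * x * q + x ^ 2 * q) * h6
  rw [e1, e2]
  exact h4

theorem tele (N : ℕ) : ∑ n ∈ Finset.range N, 1 / (((n:ℝ) + 1) * (n + 2)) ≤ 1 := by
  have : ∑ n ∈ Finset.range N, 1 / (((n:ℝ) + 1) * (n + 2)) = 1 - 1 / ((N:ℝ) + 1) := by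
    induction N with
    | zero => simp
    | succ N ih =>
      rw [Finset.sum_range_succ, ih]
      push_cast
      field_simp
      ring
  rw [this]
  have : (0:ℝ) ≤ 1 / ((N:ℝ) + 1) := by positivity
  linarith

theorem coef_bound (a : ℕ → ℂ) (A : ℝ) (hA : ∀ N, ∑ n ∈ Finset.range N, ‖a n‖ ^ 2 ≤ A) (N : ℕ) :
    ∑ n ∈ Finset.range N, ‖a 0 - (n + 2) * a (n + 1) + (n + 1) * a (n + 2)‖ ^ 2
      * (Real.pi / ((n + 1) * (n + 2))) ≤ 12 * Real.pi * A := by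
  have h0 : ‖a 0‖ ^ 2 ≤ A := by simpa using hA 1
  have h1 : ∑ n ∈ Finset.range N, ‖a (n + 1)‖ ^ 2 ≤ A := by
    have := hA (N + 1)
    rw [Finset.sum_range_succ'] at this
    linarith [sq_nonneg ‖a 0‖]
  have h2 : ∑ n ∈ Finset.range N, ‖a (n + 2)‖ ^ 2 ≤ A := by
    have := hA (N + 2)
    rw [Finset.sum_range_succ', Finset.sum_range_succ'] at this
    linarith [sq_nonneg ‖a 0‖, sq_nonneg ‖a (0 + 1)‖]
  have h3 : ∀ n : ℕ, ‖a 0 - (n + 2) * a (n + 1) + (n + 1) * a (n + 2)‖ ^ 2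
      * (Real.pi / ((n + 1) * (n + 2))) ≤ 3 * Real.pi * (‖a 0‖ ^ 2 * (1 / (((n:ℝ) + 1) * (n + 2)))
        + 2 * ‖a (n + 1)‖ ^ 2 + ‖a (n + 2)‖ ^ 2) := by
    intro n
    have e1 : ‖((n:ℂ) + 2)‖ = (n:ℝ) + 2 := by
      have : ((n:ℂ) + 2) = ((n + 2 : ℕ) : ℂ) := by push_cast; ring
      rw [this, Complex.norm_natCast]
      push_cast
      ring
    have e2 : ‖((n:ℂ) + 1)‖ = (n:ℝ) + 1 := by
      have : ((n:ℂ) + 1) = ((n + 1 : ℕ) : ℂ) := by push_cast; ring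
      rw [this, Complex.norm_natCast]
      push_cast
      ring
    have h4 : ‖a 0 - (n + 2) * a (n + 1) + (n + 1) * a (n + 2)‖
        ≤ ‖a 0‖ + (n + 2) * ‖a (n + 1)‖ + (n + 1) * ‖a (n + 2)‖ := by
      refine (norm_add_le _ _).trans ?_
      rw [norm_mul, e2]
      refine add_le_add ((norm_sub_le _ _).trans ?_) le_rfl
      rw [norm_mul, e1]
    have h5 := pow_le_pow_left₀ (norm_nonneg _) h4 2
    generalize ‖a 0 - (n + 2) * a (n + 1) + (n + 1) * a (n + 2)‖ = t at *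
    generalize ‖a 0‖ = p at *
    generalize ‖a (n + 1)‖ = q at *
    generalize ‖a (n + 2)‖ = r at *
    have hn : (0:ℝ) ≤ n := Nat.cast_nonneg n
    generalize (n:ℝ) = x at *
    have h6 : t ^ 2 ≤ 3 * (p ^ 2 + 2 * q ^ 2 * ((x + 1) * (x + 2)) + r ^ 2 * ((x + 1) * (x + 2))) := by
      have h7 : (p + (x + 2) * q + (x + 1) * r) ^ 2
          ≤ 3 * (p ^ 2 + ((x + 2) * q) ^ 2 + ((x + 1) * r) ^ 2) := by
        nlinarith [sq_nonneg (p - (x + 2) * q), sq_nonneg (p - (x + 1) * r),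
          sq_nonneg ((x + 2) * q - (x + 1) * r)]
      have h8 : ((x + 2) * q) ^ 2 ≤ 2 * q ^ 2 * ((x + 1) * (x + 2)) := by
        have : 0 ≤ q ^ 2 * (x * (x + 2)) := by positivity
        nlinarith
      have h9 : ((x + 1) * r) ^ 2 ≤ r ^ 2 * ((x + 1) * (x + 2)) := by
        have : 0 ≤ r ^ 2 * (x + 1) := by positivity
        nlinarith
      linarith
    have h10 := mul_le_mul_of_nonneg_right h6
      (show 0 ≤ Real.pi / ((x + 1) * (x + 2)) by have := Real.pi_pos; positivity)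
    refine h10.trans (le_of_eq ?_)
    field_simp
  refine (Finset.sum_le_sum fun n _ => h3 n).trans ?_
  rw [← Finset.mul_sum, Finset.sum_add_distrib, Finset.sum_add_distrib, ← Finset.mul_sum,
    ← Finset.mul_sum]
  have h4 := mul_le_of_le_one_right (sq_nonneg ‖a 0‖) (tele N)
  have := Real.pi_pos
  nlinarith

theorem upper {φ : ℂ → ℝ} (hr : ∀ u z : ℂ, ‖u‖ = 1 → φ (u * z) = φ z)
    (hφ : IntegrableOn φ (ball (0:ℂ) 1)) (h0 : ∀ z, 0 ≤ φ z) {f : ℂ → ℂ} (hf : Measurable f) (M : ℝ)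
    (hM : ∀ z, ‖f z‖ ≤ M) :
    ∫⁻ z in ball (0:ℂ) 1, ‖∫ ζ in ball (0:ℂ) 1,
        f ζ * ((‖1 - ζ‖ ^ 4 * φ ζ : ℝ) : ℂ) / (1 - z * starRingEnd ℂ ζ) ^ 2‖ₑ ^ 2
          * ENNReal.ofReal (ww z)
      ≤ ENNReal.ofReal (12 * Real.pi * ((∫ z in ball (0:ℂ) 1, φ z) + 1)) *
        ∫⁻ ζ in ball (0:ℂ) 1, ‖f ζ‖ₑ ^ 2 * ENNReal.ofReal (‖1 - ζ‖ ^ 4 * φ ζ) := by
  have hM0 : 0 ≤ M := (norm_nonneg _).trans (hM 0)
  obtain ⟨g, hg⟩ : ∃ g : ℂ → ℂ, g = fun ζ => f ζ * (1 - ζ) ^ 2 := ⟨_, rfl⟩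
  have hgm : Measurable g := by
    rw [hg]
    exact hf.mul (by fun_prop)
  have hgb : ∀ ζ ∈ ball (0:ℂ) 1, ‖g ζ‖ ≤ M * 4 := by
    intro ζ hζ
    rw [hg]
    simp only [norm_mul, norm_pow]
    have h1 : ‖1 - ζ‖ ≤ 2 := by
      have := norm_sub_le 1 ζ
      rw [norm_one] at this
      linarith [mem_ball_zero_iff.1 hζ]
    have h2 : ‖1 - ζ‖ ^ 2 ≤ 2 ^ 2 := pow_le_pow_left₀ (norm_nonneg _) h1 2
    exact mul_le_mul (hM ζ) (by linarith) (sq_nonneg _) hM0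
  obtain ⟨a, ha⟩ : ∃ a : ℕ → ℂ,
      ∀ n, a n = ∫ z in ball (0:ℂ) 1, g z * (starRingEnd ℂ z) ^ n * (φ z : ℂ) := ⟨_, fun _ => rfl⟩
  have hb := bessel hr hφ h0 hgm _ hgb
  simp_rw [← ha] at hb
  have hi : ∀ n : ℕ, IntegrableOn (fun z => g z * (starRingEnd ℂ z) ^ n * (φ z : ℂ)) (ball 0 1) := by
    intro n
    refine intgC hφ (hgm.mul (by fun_prop)).aestronglyMeasurable (M * 4) fun z hz => ?_
    rw [norm_mul, norm_pow, Complex.norm_conj]
    have h1 : ‖z‖ ≤ 1 := (mem_ball_zero_iff.1 hz).le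
    exact (mul_le_of_le_one_right (norm_nonneg _) (pow_le_one₀ (norm_nonneg _) h1)).trans (hgb z hz)
  have hsum : ∀ z ∈ ball (0:ℂ) 1,
      HasSum (fun n : ℕ => (a 0 - (n + 2) * a (n + 1) + (n + 1) * a (n + 2)) * z ^ n)
        ((∫ ζ in ball (0:ℂ) 1,
          f ζ * ((‖1 - ζ‖ ^ 4 * φ ζ : ℝ) : ℂ) / (1 - z * starRingEnd ℂ ζ) ^ 2) / (1 - z)) := by
    intro z hz
    have hz' := mem_ball_zero_iff.1 hz
    have hsb : Summable fun n : ℕ => ((n:ℝ) * ‖z‖ ^ n + 2 * ‖z‖ ^ n) := by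
      have h1 : ‖‖z‖‖ < 1 := by simpa using hz'
      exact (hasSum_coe_mul_geometric_of_norm_lt_one h1).summable.add
        ((summable_geometric_of_norm_lt_one h1).mul_left 2)
    have h1 := hasSum_integral_of_dominated_convergence (μ := volume.restrict (ball (0:ℂ) 1))
      (F := fun (n : ℕ) ζ => g ζ * ((1 - (n + 2) * (starRingEnd ℂ ζ) ^ (n + 1)
        + (n + 1) * (starRingEnd ℂ ζ) ^ (n + 2)) * z ^ n) * (φ ζ : ℂ))
      (f := fun ζ => g ζ * ((1 - starRingEnd ℂ ζ) ^ 2 / ((1 - z * starRingEnd ℂ ζ) ^ 2 * (1 - z)))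
        * (φ ζ : ℂ))
      (fun (n : ℕ) ζ => (M * 4 * 2 * ((n:ℝ) * ‖z‖ ^ n + 2 * ‖z‖ ^ n)) * φ ζ)
      (fun n => (hgm.mul (by fun_prop)).aestronglyMeasurable.mul hφ.ofReal.aestronglyMeasurable)
      (fun n => (ae_restrict_iff' measurableSet_ball).2 (Eventually.of_forall fun ζ hζ => by
        have h2 : ‖ζ‖ ≤ 1 := (mem_ball_zero_iff.1 hζ).le
        rw [norm_mul, norm_mul, norm_mul, Complex.norm_real, Real.norm_of_nonneg (h0 ζ), norm_pow]
        refine mul_le_mul_of_nonneg_right ?_ (h0 ζ)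
        have h3 : ∀ k : ℕ, ‖(starRingEnd ℂ ζ) ^ k‖ ≤ 1 := fun k => by
          rw [norm_pow, Complex.norm_conj]
          exact pow_le_one₀ (norm_nonneg _) h2
        have e1 : ‖((n:ℂ) + 2)‖ ≤ (n:ℝ) + 2 := (norm_add_le _ _).trans (by simp)
        have e2 : ‖((n:ℂ) + 1)‖ ≤ (n:ℝ) + 1 := (norm_add_le _ _).trans (by simp)
        have h4 : ‖1 - ((n:ℂ) + 2) * (starRingEnd ℂ ζ) ^ (n + 1)
            + (n + 1) * (starRingEnd ℂ ζ) ^ (n + 2)‖ ≤ 2 * ((n:ℝ) + 2) := by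
          refine (norm_add_le _ _).trans ?_
          have h5 := norm_sub_le 1 (((n:ℂ) + 2) * (starRingEnd ℂ ζ) ^ (n + 1))
          rw [norm_mul, norm_one] at h5
          rw [norm_mul]
          have h6 := mul_le_of_le_one_right (norm_nonneg ((n:ℂ) + 2)) (h3 (n + 1))
          have h7 := mul_le_of_le_one_right (norm_nonneg ((n:ℂ) + 1)) (h3 (n + 2))
          linarith
        calc ‖g ζ‖ * (‖1 - ((n:ℂ) + 2) * (starRingEnd ℂ ζ) ^ (n + 1)
            + (n + 1) * (starRingEnd ℂ ζ) ^ (n + 2)‖ * ‖z‖ ^ n)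
            ≤ (M * 4) * ((2 * ((n:ℝ) + 2)) * ‖z‖ ^ n) := by
              gcongr
              exact hgb ζ hζ
          _ = _ := by ring))
      (Eventually.of_forall fun ζ => (hsb.mul_left _).mul_right _)
      (by
        simp_rw [tsum_mul_right]
        exact hφ.const_mul _)
      ((ae_restrict_iff' measurableSet_ball).2 (Eventually.of_forall fun ζ hζ =>
        ((ker_hasSum hz' (by
          rw [Complex.norm_conj]
          exact (mem_ball_zero_iff.1 hζ).le)).mul_left _).mul_right _))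
    have e1 : ∀ n : ℕ, ∫ ζ in ball (0:ℂ) 1, g ζ * ((1 - (n + 2) * (starRingEnd ℂ ζ) ^ (n + 1)
        + (n + 1) * (starRingEnd ℂ ζ) ^ (n + 2)) * z ^ n) * (φ ζ : ℂ)
        = (a 0 - (n + 2) * a (n + 1) + (n + 1) * a (n + 2)) * z ^ n := by
      intro n
      rw [ha, ha, ha, ← integral_const_mul, ← integral_const_mul,
        ← integral_sub (hi 0) ((hi _).const_mul _),
        ← integral_add (by exact (hi 0).sub ((hi _).const_mul _)) ((hi _).const_mul _),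
        ← integral_mul_const]
      congr 1
      funext ζ
      ring
    have e2 : ∫ ζ in ball (0:ℂ) 1, g ζ * ((1 - starRingEnd ℂ ζ) ^ 2
        / ((1 - z * starRingEnd ℂ ζ) ^ 2 * (1 - z))) * (φ ζ : ℂ)
        = (∫ ζ in ball (0:ℂ) 1,
          f ζ * ((‖1 - ζ‖ ^ 4 * φ ζ : ℝ) : ℂ) / (1 - z * starRingEnd ℂ ζ) ^ 2) / (1 - z) := by
      rw [← integral_div]
      congr 1
      funext ζ
      have h2 : ((‖1 - ζ‖ : ℝ) : ℂ) ^ 2 = (1 - ζ) * (1 - starRingEnd ℂ ζ) := by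
        rw [← Complex.mul_conj', map_sub, map_one]
      have h3 : ((‖1 - ζ‖ ^ 4 * φ ζ : ℝ) : ℂ) = ((1 - ζ) * (1 - starRingEnd ℂ ζ)) ^ 2 * φ ζ := by
        rw [← h2]
        push_cast
        ring
      rw [h3, hg]
      simp only [div_eq_mul_inv, mul_inv]
      ring
    simp_rw [e1, e2] at h1
    exact h1
  have h2 := lp_bound _ _ hsum _ (coef_bound a _ hb)
  have hi2 : IntegrableOn (fun z => ‖g z‖ ^ 2 * φ z) (ball 0 1) := by
    refine intgR hφ (hgm.norm.pow_const 2).aestronglyMeasurable ((M * 4) ^ 2) fun z hz => ?_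
    rw [norm_pow, norm_norm]
    exact pow_le_pow_left₀ (norm_nonneg _) (hgb z hz) 2
  have h3 : ∫⁻ ζ in ball (0:ℂ) 1, ‖f ζ‖ₑ ^ 2 * ENNReal.ofReal (‖1 - ζ‖ ^ 4 * φ ζ)
      = ENNReal.ofReal (∫ z in ball (0:ℂ) 1, ‖g z‖ ^ 2 * φ z) := by
    rw [ofReal_integral_eq_lintegral_ofReal hi2
      (Eventually.of_forall fun z => mul_nonneg (sq_nonneg _) (h0 z))]
    refine lintegral_congr fun ζ => ?_
    rw [← ofReal_norm, ← ENNReal.ofReal_pow (norm_nonneg _),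
      ← ENNReal.ofReal_mul (sq_nonneg _), hg]
    congr 1
    simp only [norm_mul, norm_pow]
    ring
  have hΦ0 : 0 ≤ ∫ z in ball (0:ℂ) 1, φ z := integral_nonneg h0
  have := Real.pi_pos
  rw [h3, ← ENNReal.ofReal_mul (by positivity), mul_assoc (12 * Real.pi)]
  refine le_trans (le_of_eq ?_) h2
  refine lintegral_congr fun z => ?_
  rw [← ofReal_norm, ← ENNReal.ofReal_pow (norm_nonneg _),
    ← ENNReal.ofReal_mul (sq_nonneg _), norm_div, ww]
  congr 1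
  ring

theorem ww_int : ∫⁻ z in ball (0:ℂ) 1, ENNReal.ofReal (ww z) ≤ ENNReal.ofReal Real.pi := by
  have h1 := lp_bound (fun _ => 1) (fun z => (1 - z)⁻¹) (fun z hz => by
    simpa using hasSum_geometric_of_norm_lt_one (mem_ball_zero_iff.1 hz)) Real.pi (fun N => by
      have h2 := mul_le_of_le_one_right Real.pi_pos.le (tele N)
      rw [Finset.mul_sum] at h2
      refine le_trans (le_of_eq ?_) h2
      refine Finset.sum_congr rfl fun n _ => ?_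
      rw [norm_one]
      ring)
  refine le_trans (le_of_eq ?_) h1
  refine lintegral_congr fun z => ?_
  rw [norm_inv, ww]
  congr 1
  ring

end Pool.Agent.H88.Berg
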