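import Pool.Agent.H88.Berg2

set_option autoImplicit false
open MeasureTheory Filter Topology Metric Set
open scoped ENNReal

namespace Pool.Agent.H88.Berg

theorem pseudo {z ζ : ℂ} (hz : ‖z‖ ≤ 1) (hζ : ‖ζ‖ ≤ 1) : ‖ζ - z‖ ≤ ‖1 - z * starRingEnd ℂ ζ‖ := by
  have h1 : ‖1 - z * starRingEnd ℂ ζ‖ ^ 2 - ‖ζ - z‖ ^ 2 = (1 - ‖z‖ ^ 2) * (1 - ‖ζ‖ ^ 2) := by
    simp only [Complex.sq_norm, Complex.normSq_apply, Complex.sub_re, Complex.sub_im,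
      Complex.mul_re, Complex.mul_im, Complex.one_re, Complex.one_im, Complex.conj_re,
      Complex.conj_im]
    ring
  have h2 : ‖z‖ ^ 2 ≤ 1 := pow_le_one₀ (norm_nonneg _) hz
  have h3 : ‖ζ‖ ^ 2 ≤ 1 := pow_le_one₀ (norm_nonneg _) hζ
  have h4 : 0 ≤ (1 - ‖z‖ ^ 2) * (1 - ‖ζ‖ ^ 2) := mul_nonneg (by linarith) (by linarith)
  exact (pow_le_pow_iff_left₀ (norm_nonneg _) (norm_nonneg _) two_ne_zero).1 (by linarith)

theorem den_ge {z ζ : ℂ} (hζ : ‖ζ‖ ≤ 1) : 1 - ‖z‖ ≤ ‖1 - z * starRingEnd ℂ ζ‖ := by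
  have h1 := norm_sub_norm_le 1 (z * starRingEnd ℂ ζ)
  rw [norm_one, norm_mul, Complex.norm_conj] at h1
  have h2 := mul_le_of_le_one_right (norm_nonneg z) hζ
  linarith

theorem pt_low {z ζ : ℂ} (hz : ‖z‖ < 1) (hζ : ‖ζ‖ ≤ 1) (n : ℕ) :
    ‖1 - z‖ ^ 4 / 32 * ‖∑ k ∈ Finset.range n, (starRingEnd ℂ z) ^ k * ζ ^ k‖ ^ 2
      ≤ ‖1 - ζ‖ ^ 4 * (‖1 - z * starRingEnd ℂ ζ‖ ^ 2)⁻¹ + 4 := by
  have hd0 : 0 < ‖1 - z * starRingEnd ℂ ζ‖ := lt_of_lt_of_le (by linarith) (den_ge hζ)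
  have hy : ‖starRingEnd ℂ z * ζ‖ ≤ 1 := by
    rw [norm_mul, Complex.norm_conj]
    exact mul_le_one₀ hz.le (norm_nonneg _) hζ
  have he : ‖1 - starRingEnd ℂ z * ζ‖ = ‖1 - z * starRingEnd ℂ ζ‖ := by
    rw [← Complex.norm_conj]
    simp
  have hd2 : ‖1 - z * starRingEnd ℂ ζ‖ ≤ 2 := by
    rw [← he]
    have := norm_sub_le 1 (starRingEnd ℂ z * ζ)
    rw [norm_one] at this
    linarith
  have h1 : ‖∑ k ∈ Finset.range n, (starRingEnd ℂ z) ^ k * ζ ^ k‖ * ‖1 - z * starRingEnd ℂ ζ‖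
      ≤ 2 := by
    simp_rw [← mul_pow]
    rw [← he, ← norm_mul, mul_comm, mul_neg_geom_sum]
    have := norm_sub_le 1 ((starRingEnd ℂ z * ζ) ^ n)
    rw [norm_one, norm_pow] at this
    linarith [pow_le_one₀ (n := n) (norm_nonneg _) hy]
  have h2 : ‖1 - z‖ ≤ ‖1 - ζ‖ + ‖1 - z * starRingEnd ℂ ζ‖ := by
    have h3 : 1 - z = (1 - ζ) + (ζ - z) := by ring
    have h4 := norm_add_le (1 - ζ) (ζ - z)
    rw [← h3] at h4
    linarith [pseudo hz.le hζ]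
  have h5 := pow_le_pow_left₀ (norm_nonneg _) h2 4
  have hp0 := norm_nonneg (∑ k ∈ Finset.range n, (starRingEnd ℂ z) ^ k * ζ ^ k)
  have ha0 := norm_nonneg (1 - ζ)
  have hb0 : 0 ≤ ‖1 - z‖ ^ 4 := by positivity
  generalize ‖∑ k ∈ Finset.range n, (starRingEnd ℂ z) ^ k * ζ ^ k‖ = p at *
  generalize ‖1 - z * starRingEnd ℂ ζ‖ = d at *
  generalize ‖1 - ζ‖ = a at *
  generalize ‖1 - z‖ ^ 4 = b at *
  have h6 : (a + d) ^ 4 ≤ 8 * (a ^ 4 + d ^ 4) := by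
    nlinarith [sq_nonneg (a - d), sq_nonneg (a ^ 2 - d ^ 2), sq_nonneg (a + d),
      mul_nonneg (sq_nonneg (a - d)) (sq_nonneg (a + d)),
      mul_nonneg (sq_nonneg (a - d)) (add_nonneg (sq_nonneg a) (sq_nonneg d))]
  have h7 : p ^ 2 ≤ 4 * (d ^ 2)⁻¹ := by
    rw [← div_eq_mul_inv, le_div_iff₀ (by positivity), ← mul_pow]
    have := pow_le_pow_left₀ (by positivity) h1 2
    linarith
  have h8 : d ^ 2 ≤ 4 := by nlinarith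
  calc b / 32 * p ^ 2 ≤ (8 * (a ^ 4 + d ^ 4)) / 32 * (4 * (d ^ 2)⁻¹) := by
        gcongr
        linarith
    _ = a ^ 4 * (d ^ 2)⁻¹ + d ^ 2 := by
        field_simp
        ring
    _ ≤ _ := by linarith

theorem intg_t {φ : ℂ → ℝ} (hφ : IntegrableOn φ (ball (0:ℂ) 1)) {s : ℝ} (hs : s ≤ 1) {z : ℂ}
    (hz : ‖z‖ < 1) : IntegrableOn
      (fun ζ => ‖1 - ζ‖ ^ 4 * (‖1 - z * starRingEnd ℂ ζ‖ ^ 2)⁻¹ * φ ζ) (ball (0:ℂ) s) := by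
  refine intgR (hφ.mono_set (ball_subset_ball hs)) (Measurable.aestronglyMeasurable (by fun_prop))
    (2 ^ 4 * ((1 - ‖z‖) ^ 2)⁻¹) fun ζ hζ => ?_
  have h1 : ‖ζ‖ ≤ 1 := (mem_ball_zero_iff.1 hζ).le.trans hs
  have h2 : ‖1 - ζ‖ ≤ 2 := by
    have := norm_sub_le 1 ζ
    rw [norm_one] at this
    linarith
  have h3 := den_ge (z := z) h1
  have h4 : 0 < 1 - ‖z‖ := by linarith
  rw [Real.norm_of_nonneg (by positivity)]
  gcongr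

theorem t_low {φ : ℂ → ℝ} (hr : ∀ u z : ℂ, ‖u‖ = 1 → φ (u * z) = φ z)
    (hφ : IntegrableOn φ (ball (0:ℂ) 1)) (h0 : ∀ z, 0 ≤ φ z) {n : ℕ} {c : ℝ} (hc : 0 ≤ c)
    (hn : ∀ z ∈ ball (0:ℂ) 1, c * ((n + 1) * ‖z‖ ^ (2 * n)) ≤ φ z) {s : ℝ} (hs0 : 0 < s)
    (hs1 : s ≤ 1) (hs : 1 / 2 ≤ s ^ (4 * n + 2)) {z : ℂ} (hz : ‖z‖ < 1) :
    ‖1 - z‖ ^ 4 * (∑ k ∈ Finset.range n, ‖z‖ ^ (2 * k)) * (c / 64)
      ≤ (∫ ζ in ball (0:ℂ) s, ‖1 - ζ‖ ^ 4 * (‖1 - z * starRingEnd ℂ ζ‖ ^ 2)⁻¹ * φ ζ)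
        + 4 * ∫ ζ in ball (0:ℂ) 1, φ ζ := by
  have hφs : IntegrableOn φ (ball (0:ℂ) s) := hφ.mono_set (ball_subset_ball hs1)
  have h1 : ∫ ζ in ball (0:ℂ) s, ‖1 - z‖ ^ 4 / 32 *
      (‖∑ k ∈ Finset.range n, (starRingEnd ℂ z) ^ k * ζ ^ k‖ ^ 2 * φ ζ)
      ≤ ∫ ζ in ball (0:ℂ) s, (‖1 - ζ‖ ^ 4 * (‖1 - z * starRingEnd ℂ ζ‖ ^ 2)⁻¹ * φ ζ + 4 * φ ζ) := by
    refine setIntegral_mono_on ((intgRc hφs (by fun_prop)).const_mul _)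
      ((intg_t hφ hs1 hz).add (hφs.const_mul _)) measurableSet_ball fun ζ hζ => ?_
    have := mul_le_mul_of_nonneg_right (pt_low hz ((mem_ball_zero_iff.1 hζ).le.trans hs1) n) (h0 ζ)
    linarith
  rw [integral_add (intg_t hφ hs1 hz) (hφs.const_mul _), integral_const_mul, integral_const_mul,
    parseval hr hφs] at h1
  have h2 : ∫ ζ in ball (0:ℂ) s, φ ζ ≤ ∫ ζ in ball (0:ℂ) 1, φ ζ :=
    setIntegral_mono_set hφ (Eventually.of_forall h0) (ball_subset_ball hs1).eventuallyLE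
  have h3 : (∑ k ∈ Finset.range n, ‖z‖ ^ (2 * k)) * (c / 2) ≤ ∑ k ∈ Finset.range n,
      ‖(starRingEnd ℂ z) ^ k‖ ^ 2 * ∫ ζ in ball (0:ℂ) s, ‖ζ‖ ^ (2 * k) * φ ζ := by
    rw [Finset.sum_mul]
    refine Finset.sum_le_sum fun k hk => ?_
    rw [norm_pow, Complex.norm_conj, ← pow_mul, mul_comm k 2]
    refine mul_le_mul_of_nonneg_left ?_ (by positivity)
    have h4 : ∫ ζ in ball (0:ℂ) s, c * (n + 1) * ‖ζ‖ ^ (2 * (2 * n))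
        ≤ ∫ ζ in ball (0:ℂ) s, ‖ζ‖ ^ (2 * k) * φ ζ := by
      refine setIntegral_mono_on (intg_cont s (by fun_prop)) (intgRc hφs (by fun_prop))
        measurableSet_ball fun ζ hζ => ?_
      have h5 : ‖ζ‖ ≤ 1 := (mem_ball_zero_iff.1 hζ).le.trans hs1
      have h6 : ‖ζ‖ ^ (2 * n) ≤ ‖ζ‖ ^ (2 * k) :=
        pow_le_pow_of_le_one (norm_nonneg _) h5 (by have := Finset.mem_range.1 hk; omega)
      calc c * (n + 1) * ‖ζ‖ ^ (2 * (2 * n))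
          = ‖ζ‖ ^ (2 * n) * (c * ((n + 1) * ‖ζ‖ ^ (2 * n))) := by ring
        _ ≤ ‖ζ‖ ^ (2 * k) * φ ζ :=
          mul_le_mul h6 (hn ζ (ball_subset_ball hs1 hζ)) (by positivity) (by positivity)
    refine le_trans ?_ h4
    rw [integral_const_mul, mom hs0, show 2 * (2 * n) + 2 = 4 * n + 2 by ring]
    push_cast
    have h7 : (0:ℝ) ≤ n := Nat.cast_nonneg n
    have h8 := Real.pi_gt_three
    have h9 : 1 / 2 ≤ ((n:ℝ) + 1) * (Real.pi * s ^ (4 * n + 2) / (2 * n + 1)) := by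
      rw [← mul_div_assoc, le_div_iff₀ (by positivity)]
      have h10 : 3 / 2 ≤ Real.pi * s ^ (4 * n + 2) := by nlinarith
      nlinarith
    have := mul_le_mul_of_nonneg_left h9 hc
    linarith
  have h4 := mul_le_mul_of_nonneg_left h3 (show 0 ≤ ‖1 - z‖ ^ 4 / 32 by positivity)
  linarith

theorem psi_int (n : ℕ) : Real.pi / 2 * (∑ k ∈ Finset.range n, 1 / ((k:ℝ) + 1) - 1)
    ≤ ∫ z in ball (0:ℂ) 1,
      ‖1 - z‖ ^ 6 * ((∑ k ∈ Finset.range n, ‖z‖ ^ (2 * k)) ^ 2 * (1 - ‖z‖ ^ 2)) := by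
  have h1 := rot 1 (-1) (by simp)
    (fun z : ℂ => ‖1 - z‖ ^ 6 * ((∑ k ∈ Finset.range n, ‖z‖ ^ (2 * k)) ^ 2 * (1 - ‖z‖ ^ 2)))
  simp only [neg_mul, one_mul, sub_neg_eq_add, norm_neg] at h1
  have h2 : ∫ z in ball (0:ℂ) 1, (∑ k ∈ Finset.range n, ‖z‖ ^ (2 * k)) ^ 2 * (1 - ‖z‖ ^ 2)
      ≤ ∫ z in ball (0:ℂ) 1,
        (‖1 - z‖ ^ 6 * ((∑ k ∈ Finset.range n, ‖z‖ ^ (2 * k)) ^ 2 * (1 - ‖z‖ ^ 2))
        + ‖1 + z‖ ^ 6 * ((∑ k ∈ Finset.range n, ‖z‖ ^ (2 * k)) ^ 2 * (1 - ‖z‖ ^ 2))) := by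
    refine setIntegral_mono_on (intg_cont 1 (by fun_prop)) (intg_cont 1 (by fun_prop))
      measurableSet_ball fun z hz => ?_
    have h3 : ‖z‖ ^ 2 ≤ 1 := pow_le_one₀ (norm_nonneg _) (mem_ball_zero_iff.1 hz).le
    have h4 : 0 ≤ (∑ k ∈ Finset.range n, ‖z‖ ^ (2 * k)) ^ 2 * (1 - ‖z‖ ^ 2) :=
      mul_nonneg (sq_nonneg _) (by linarith)
    rw [← add_mul]
    refine le_mul_of_one_le_left h4 ?_
    have h5 := norm_add_le (1 - z) (1 + z)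
    rw [show (1 - z) + (1 + z) = 2 by ring, Complex.norm_ofNat] at h5
    rcases le_total 1 ‖1 - z‖ with h6 | h6
    · have := one_le_pow₀ (n := 6) h6
      have : 0 ≤ ‖1 + z‖ ^ 6 := by positivity
      linarith
    · have := one_le_pow₀ (n := 6) (show 1 ≤ ‖1 + z‖ by linarith)
      have : 0 ≤ ‖1 - z‖ ^ 6 := by positivity
      linarith
  rw [integral_add (intg_cont 1 (by fun_prop)) (intg_cont 1 (by fun_prop)), h1] at h2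
  have h3 : ∀ z : ℂ, (∑ k ∈ Finset.range n, ‖z‖ ^ (2 * k)) ^ 2 * (1 - ‖z‖ ^ 2)
      = ∑ k ∈ Finset.range n, (‖z‖ ^ (2 * k) - ‖z‖ ^ (2 * (k + n))) := by
    intro z
    have h4 := mul_neg_geom_sum (‖z‖ ^ 2) n
    simp_rw [← pow_mul] at h4
    rw [sq, mul_assoc, mul_comm _ (1 - ‖z‖ ^ 2), h4, Finset.sum_mul]
    refine Finset.sum_congr rfl fun k _ => ?_
    ring
  have h4 : ∫ z in ball (0:ℂ) 1, (∑ k ∈ Finset.range n, ‖z‖ ^ (2 * k)) ^ 2 * (1 - ‖z‖ ^ 2)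
      = Real.pi * (∑ k ∈ Finset.range n, 1 / ((k:ℝ) + 1)
        - ∑ k ∈ Finset.range n, 1 / ((k:ℝ) + n + 1)) := by
    simp_rw [h3]
    rw [integral_finsetSum _ fun k _ => intg_cont 1 (by fun_prop), ← Finset.sum_sub_distrib,
      Finset.mul_sum]
    refine Finset.sum_congr rfl fun k _ => ?_
    rw [integral_sub (intg_cont 1 (by fun_prop)) (intg_cont 1 (by fun_prop)), mom one_pos,
      mom one_pos]
    push_cast
    ring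
  have h5 : ∑ k ∈ Finset.range n, 1 / ((k:ℝ) + n + 1) ≤ 1 := by
    have h6 : ∑ k ∈ Finset.range n, 1 / ((k:ℝ) + n + 1) ≤ ∑ _k ∈ Finset.range n, 1 / ((n:ℝ) + 1) := by
      refine Finset.sum_le_sum fun k _ => ?_
      have : (0:ℝ) ≤ k := Nat.cast_nonneg k
      gcongr
      linarith
    rw [Finset.sum_const, Finset.card_range, nsmul_eq_mul, mul_one_div] at h6
    refine h6.trans ?_
    rw [div_le_one (by positivity)]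
    linarith
  have := Real.pi_pos
  rw [h4] at h2
  nlinarith

theorem lower {φ : ℂ → ℝ} (hr : ∀ u z : ℂ, ‖u‖ = 1 → φ (u * z) = φ z)
    (hφ : IntegrableOn φ (ball (0:ℂ) 1)) (h0 : ∀ z, 0 ≤ φ z)
    (hbig : ∀ K : ℝ, ∃ (n : ℕ) (c : ℝ), 0 ≤ c ∧
      (∀ z ∈ ball (0:ℂ) 1, c * ((n + 1) * ‖z‖ ^ (2 * n)) ≤ φ z) ∧
      K ≤ c ^ 2 * (∑ k ∈ Finset.range n, 1 / ((k:ℝ) + 1) - 1))
    (B : ℝ) (hB0 : 0 ≤ B) (hB : ∀ s : ℝ, 0 < s → s < 1 → ∫⁻ z in ball (0:ℂ) 1, ENNReal.ofReal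
      (∫ ζ in ball (0:ℂ) s, ‖1 - ζ‖ ^ 4 * (‖1 - z * starRingEnd ℂ ζ‖ ^ 2)⁻¹ * φ ζ) ^ 2
        * ENNReal.ofReal (ww z) ≤ ENNReal.ofReal B) : False := by
  obtain ⟨Φ, hΦ⟩ : ∃ Φ, Φ = ∫ z in ball (0:ℂ) 1, φ z := ⟨_, rfl⟩
  obtain ⟨n, c, hc, hn, hK⟩ := hbig (4096 * (2 * B + 32 * Φ ^ 2 * Real.pi + 1))
  obtain ⟨s, hs0, hs1, hs⟩ : ∃ s : ℝ, 0 < s ∧ s < 1 ∧ 1 / 2 ≤ s ^ (4 * n + 2) := by
    have h1 : Tendsto (fun s : ℝ => s ^ (4 * n + 2)) (𝓝[<] 1) (𝓝 1) := by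
      have := ((continuous_pow (4 * n + 2)).tendsto (1:ℝ)).mono_left
        (nhdsWithin_le_nhds (s := Iio 1))
      simpa using this
    have h2 := h1.eventually (le_mem_nhds (show (1 / 2 : ℝ) < 1 by norm_num))
    obtain ⟨s, h3, h4⟩ := (h2.and (Ioo_mem_nhdsLT (show (0:ℝ) < 1 by norm_num))).exists
    exact ⟨s, h4.1, h4.2, h3⟩
  have hpi := Real.pi_gt_three
  have h1 : ∫⁻ z in ball (0:ℂ) 1, ENNReal.ofReal ((c / 64) ^ 2 *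
      (‖1 - z‖ ^ 6 * ((∑ k ∈ Finset.range n, ‖z‖ ^ (2 * k)) ^ 2 * (1 - ‖z‖ ^ 2))))
      ≤ ∫⁻ z in ball (0:ℂ) 1, (2 * (ENNReal.ofReal
      (∫ ζ in ball (0:ℂ) s, ‖1 - ζ‖ ^ 4 * (‖1 - z * starRingEnd ℂ ζ‖ ^ 2)⁻¹ * φ ζ) ^ 2
        * ENNReal.ofReal (ww z)) + ENNReal.ofReal (32 * Φ ^ 2) * ENNReal.ofReal (ww z)) := by
    refine setLIntegral_mono' measurableSet_ball fun z hz => ?_
    have hz' := mem_ball_zero_iff.1 hz
    have h2 := t_low hr hφ h0 hc hn hs0 hs1.le hs hz'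
    rw [← hΦ] at h2
    have h3 : 0 ≤ ∫ ζ in ball (0:ℂ) s, ‖1 - ζ‖ ^ 4 * (‖1 - z * starRingEnd ℂ ζ‖ ^ 2)⁻¹ * φ ζ :=
      integral_nonneg fun ζ => mul_nonneg (by positivity) (h0 ζ)
    have h4 : 0 ≤ ww z := by
      have : ‖z‖ ^ 2 ≤ 1 := pow_le_one₀ (norm_nonneg _) hz'.le
      exact div_nonneg (by linarith) (sq_nonneg _)
    have h5 : (c / 64) ^ 2 *
        (‖1 - z‖ ^ 6 * ((∑ k ∈ Finset.range n, ‖z‖ ^ (2 * k)) ^ 2 * (1 - ‖z‖ ^ 2)))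
        = (‖1 - z‖ ^ 4 * (∑ k ∈ Finset.range n, ‖z‖ ^ (2 * k)) * (c / 64)) ^ 2 * ww z := by
      have := norm_ne_zero_iff.2 (one_sub_ne hz')
      unfold ww
      field_simp
    have h6 := pow_le_pow_left₀ (by positivity) h2 2
    rw [h5, ← ENNReal.ofReal_pow h3, ← ENNReal.ofReal_mul (sq_nonneg _),
      ← ENNReal.ofReal_mul (by positivity), ← ENNReal.ofReal_ofNat 2,
      ← ENNReal.ofReal_mul (by norm_num), ← ENNReal.ofReal_add (by positivity) (by positivity)]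
    refine ENNReal.ofReal_le_ofReal ?_
    generalize (∫ ζ in ball (0:ℂ) s, ‖1 - ζ‖ ^ 4 * (‖1 - z * starRingEnd ℂ ζ‖ ^ 2)⁻¹ * φ ζ) = t at *
    have h7 : (t + 4 * Φ) ^ 2 ≤ 2 * t ^ 2 + 32 * Φ ^ 2 := by nlinarith [sq_nonneg (t - 4 * Φ)]
    have := mul_le_mul_of_nonneg_right (h6.trans h7) h4
    linarith
  have hwm : Measurable fun z => ENNReal.ofReal (ww z) := by
    unfold ww
    fun_prop
  rw [lintegral_add_right _ (hwm.const_mul _), lintegral_const_mul' _ _ (by simp),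
    lintegral_const_mul _ hwm, ← ofReal_integral_eq_lintegral_ofReal (intg_cont 1 (by fun_prop)),
    integral_const_mul] at h1
  · have h2 := h1.trans (add_le_add (mul_le_mul_right (hB s hs0 hs1) 2)
      (mul_le_mul_right ww_int _))
    rw [← ENNReal.ofReal_mul (by positivity), ← ENNReal.ofReal_ofNat 2,
      ← ENNReal.ofReal_mul (by norm_num), ← ENNReal.ofReal_add (by positivity) (by positivity),
      ENNReal.ofReal_le_ofReal_iff (by positivity)] at h2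
    have h3 := mul_le_mul_of_nonneg_left (psi_int n) (sq_nonneg (c / 64))
    have h4 : 0 ≤ 2 * B + 32 * Φ ^ 2 * Real.pi := by positivity
    generalize (∑ k ∈ Finset.range n, 1 / ((k:ℝ) + 1) - 1) = H at *
    have h5 : (c / 64) ^ 2 * (Real.pi / 2 * H) = Real.pi / 2 * (c ^ 2 * H) / 4096 := by ring
    have h6 : 1 * (c ^ 2 * H) ≤ Real.pi / 2 * (c ^ 2 * H) :=
      mul_le_mul_of_nonneg_right (by linarith) (by linarith)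
    linarith
  · refine (ae_restrict_iff' measurableSet_ball).2 (Eventually.of_forall fun z hz => ?_)
    have : ‖z‖ ^ 2 ≤ 1 := pow_le_one₀ (norm_nonneg _) (mem_ball_zero_iff.1 hz).le
    exact mul_nonneg (sq_nonneg _) (mul_nonneg (by positivity)
      (mul_nonneg (sq_nonneg _) (by linarith)))

end Pool.Agent.H88.Berg
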