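import Pool.Agent.H88.Berg3

set_option autoImplicit false
open MeasureTheory Filter Topology Metric Set
open scoped ENNReal

namespace Pool.Agent.H88.Berg

noncomputable def trm (N : ℕ → ℕ) (i : ℕ) (z : ℂ) : ℝ :=
  (1 / 2) ^ i * ((N i + 1) * ‖z‖ ^ (2 * N i))

noncomputable def st (N : ℕ → ℕ) (z : ℂ) : ℝ := ∑' i, trm N i z

theorem np_le {x : ℝ} (h0 : 0 ≤ x) (h1 : x < 1) (n : ℕ) : (n + 1) * x ^ n ≤ (1 - x)⁻¹ := by
  have h2 : ∑ _k ∈ Finset.range (n + 1), x ^ n ≤ ∑ k ∈ Finset.range (n + 1), x ^ k :=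
    Finset.sum_le_sum fun k hk =>
      pow_le_pow_of_le_one h0 h1.le (by have := Finset.mem_range.1 hk; omega)
  have h3 := sum_le_hasSum (Finset.range (n + 1)) (fun k _ => pow_nonneg h0 k)
    (hasSum_geometric_of_lt_one h0 h1)
  rw [Finset.sum_const, Finset.card_range, nsmul_eq_mul] at h2
  push_cast at h2
  linarith

theorem trm_nonneg (N : ℕ → ℕ) (i : ℕ) (z : ℂ) : 0 ≤ trm N i z := by
  unfold trm
  positivity

theorem trm_cont (N : ℕ → ℕ) (i : ℕ) : Continuous (trm N i) := by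
  unfold trm
  fun_prop

theorem trm_le (N : ℕ → ℕ) (i : ℕ) {z : ℂ} {r : ℝ} (hz : ‖z‖ ≤ r) (hr : r < 1) :
    trm N i z ≤ (1 / 2) ^ i * (1 - r ^ 2)⁻¹ := by
  have h0 : 0 ≤ r := (norm_nonneg _).trans hz
  unfold trm
  refine mul_le_mul_of_nonneg_left ?_ (by positivity)
  refine le_trans ?_ (np_le (sq_nonneg r) (by nlinarith) (N i))
  rw [← pow_mul]
  gcongr

theorem trm_summable (N : ℕ → ℕ) {z : ℂ} (hz : ‖z‖ < 1) : Summable fun i => trm N i z :=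
  Summable.of_nonneg_of_le (fun i => trm_nonneg N i z) (fun i => trm_le N i le_rfl hz)
    (summable_geometric_two.mul_right _)

theorem st_nonneg (N : ℕ → ℕ) (z : ℂ) : 0 ≤ st N z := tsum_nonneg fun i => trm_nonneg N i z

theorem trm_le_st (N : ℕ → ℕ) (i : ℕ) {z : ℂ} (hz : ‖z‖ < 1) : trm N i z ≤ st N z :=
  (trm_summable N hz).le_tsum i fun j _ => trm_nonneg N j z

theorem st_radial (N : ℕ → ℕ) (u z : ℂ) (hu : ‖u‖ = 1) : st N (u * z) = st N z := by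
  simp [st, trm, hu]

theorem st_cont (N : ℕ → ℕ) : ContinuousOn (st N) (ball 0 1) := by
  intro z hz
  obtain ⟨r, hr0, hr1⟩ := exists_between (mem_ball_zero_iff.1 hz)
  have h1 : ContinuousOn (st N) (ball 0 r) :=
    continuousOn_tsum (fun i => (trm_cont N i).continuousOn)
      (summable_geometric_two.mul_right (1 - r ^ 2)⁻¹) fun i x hx => by
        rw [Real.norm_of_nonneg (trm_nonneg N i x)]
        exact trm_le N i (mem_ball_zero_iff.1 hx).le hr1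
  exact (h1.continuousAt (isOpen_ball.mem_nhds (mem_ball_zero_iff.2 hr0))).continuousWithinAt

theorem st_int (N : ℕ → ℕ) : IntegrableOn (st N) (ball 0 1) := by
  refine ⟨(st_cont N).aestronglyMeasurable measurableSet_ball, ?_⟩
  rw [hasFiniteIntegral_iff_ofReal (Eventually.of_forall (st_nonneg N))]
  have h1 : ∫⁻ z in ball (0:ℂ) 1, ENNReal.ofReal (st N z)
      = ∫⁻ z in ball (0:ℂ) 1, ∑' i, ENNReal.ofReal (trm N i z) :=
    setLIntegral_congr_fun measurableSet_ball fun z hz =>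
      ENNReal.ofReal_tsum_of_nonneg (fun i => trm_nonneg N i z)
        (trm_summable N (mem_ball_zero_iff.1 hz))
  rw [h1, lintegral_tsum (f := fun i z => ENNReal.ofReal (trm N i z)) fun i =>
    (ENNReal.measurable_ofReal.comp (trm_cont N i).measurable).aemeasurable]
  have h2 : ∀ i, ∫⁻ z in ball (0:ℂ) 1, ENNReal.ofReal (trm N i z)
      = ENNReal.ofReal ((1 / 2) ^ i * Real.pi) := by
    intro i
    rw [← ofReal_integral_eq_lintegral_ofReal (intg_cont 1 (trm_cont N i))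
      (Eventually.of_forall (trm_nonneg N i))]
    unfold trm
    rw [integral_const_mul, integral_const_mul, mom one_pos]
    congr 2
    field_simp
    simp
  have := Real.pi_pos
  simp_rw [h2]
  rw [← ENNReal.ofReal_tsum_of_nonneg (fun i => by positivity)
    (summable_geometric_two.mul_right _)]
  exact ENNReal.ofReal_lt_top

theorem exists_N : ∃ N : ℕ → ℕ, N 0 = 0 ∧ ∀ K : ℝ, ∃ (n : ℕ) (c : ℝ), 0 ≤ c ∧
    (∀ z ∈ ball (0:ℂ) 1, c * ((n + 1) * ‖z‖ ^ (2 * n)) ≤ st N z) ∧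
    K ≤ c ^ 2 * (∑ k ∈ Finset.range n, 1 / ((k:ℝ) + 1) - 1) := by
  have h1 : ∀ i : ℕ, ∃ n, (8:ℝ) ^ i + 1 ≤ ∑ k ∈ Finset.range n, 1 / ((k:ℝ) + 1) := fun i =>
    (Real.tendsto_sum_range_one_div_nat_succ_atTop.eventually_ge_atTop _).exists
  choose N hN using h1
  refine ⟨fun i => if i = 0 then 0 else N i, rfl, fun K => ?_⟩
  obtain ⟨i, hi⟩ := pow_unbounded_of_one_lt K (show (1:ℝ) < 2 by norm_num)
  refine ⟨N (i + 1), (1 / 2) ^ (i + 1), by positivity, fun z hz => ?_, ?_⟩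
  · exact trm_le_st (fun i => if i = 0 then 0 else N i) (i + 1) (mem_ball_zero_iff.1 hz)
  · have h2 := hN (i + 1)
    have h3 : (((1:ℝ) / 2) ^ (i + 1)) ^ 2 * 8 ^ (i + 1) = 2 * 2 ^ i := by
      rw [← pow_mul, mul_comm (i + 1) 2, pow_mul, ← mul_pow, pow_succ]
      norm_num
      ring
    have h4 : (((1:ℝ) / 2) ^ (i + 1)) ^ 2 * 8 ^ (i + 1) ≤ (((1:ℝ) / 2) ^ (i + 1)) ^ 2 *
        (∑ k ∈ Finset.range (N (i + 1)), 1 / ((k:ℝ) + 1) - 1) :=
      mul_le_mul_of_nonneg_left (by linarith) (sq_nonneg _)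
    have h5 : (0:ℝ) < 2 ^ i := by positivity
    linarith

theorem circ_mem {z : ℂ} {r : ℝ} (hr : 0 < r) (θ : ℝ) :
    z + (r:ℂ) * Complex.exp ((θ:ℂ) * Complex.I) ∈ closedBall z r := by
  have := circleMap_mem_closedBall z hr.le θ
  exact this

theorem sub_mean_norm {g : ℂ → ℂ} (hg : Differentiable ℂ g) (z : ℂ) (r : ℝ) :
    ‖g z‖ ≤ (2 * Real.pi)⁻¹ *
      ∫ θ in (0:ℝ)..2 * Real.pi, ‖g (z + (r:ℂ) * Complex.exp ((θ:ℂ) * Complex.I))‖ := by
  have h1 := (hg.diffContOnCl (s := ball z |r|)).circleAverage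
  rw [Real.circleAverage_def] at h1
  have hpi := Real.pi_pos
  rw [← h1, norm_smul, Real.norm_of_nonneg (by positivity)]
  exact mul_le_mul_of_nonneg_left
    (intervalIntegral.norm_integral_le_integral_norm (by positivity)) (by positivity)

theorem sig_cont (N : ℕ → ℕ) : ContinuousOn (fun z => ‖1 - z‖ ^ 4 * st N z) (ball 0 1) :=
  ContinuousOn.mul (by fun_prop) (st_cont N)

theorem sig_sub (N : ℕ → ℕ) (z : ℂ) (r : ℝ) (hr : 0 < r) (hsub : closedBall z r ⊆ ball (0:ℂ) 1) :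
    ‖1 - z‖ ^ 4 * st N z ≤ (2 * Real.pi)⁻¹ * ∫ θ in (0:ℝ)..2 * Real.pi,
      ‖1 - (z + (r:ℂ) * Complex.exp ((θ:ℂ) * Complex.I))‖ ^ 4
        * st N (z + (r:ℂ) * Complex.exp ((θ:ℂ) * Complex.I)) := by
  have hpi := Real.pi_pos
  have hz : ‖z‖ < 1 := mem_ball_zero_iff.1 (hsub (mem_closedBall_self hr.le))
  have hγ : Continuous fun θ : ℝ => z + (r:ℂ) * Complex.exp ((θ:ℂ) * Complex.I) := by fun_prop
  have hterm : ∀ i, ‖1 - z‖ ^ 4 * trm N i z ≤ (2 * Real.pi)⁻¹ * ∫ θ in (0:ℝ)..2 * Real.pi,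
      ‖1 - (z + (r:ℂ) * Complex.exp ((θ:ℂ) * Complex.I))‖ ^ 4
        * trm N i (z + (r:ℂ) * Complex.exp ((θ:ℂ) * Complex.I)) := by
    intro i
    have e : ∀ y : ℂ, ‖1 - y‖ ^ 4 * trm N i y
        = ‖(((1 / 2) ^ i * (N i + 1) : ℝ) : ℂ) * ((1 - y) ^ 4 * y ^ (2 * N i))‖ := by
      intro y
      rw [norm_mul, norm_mul, norm_pow, norm_pow, Complex.norm_real,
        Real.norm_of_nonneg (by positivity), trm]
      ring
    simp_rw [e]
    exact sub_mean_norm (g := fun y => (((1 / 2) ^ i * (N i + 1) : ℝ) : ℂ) *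
      ((1 - y) ^ 4 * y ^ (2 * N i))) (by fun_prop) z r
  rw [st, ← tsum_mul_left]
  refine Summable.tsum_le_of_sum_range_le ((trm_summable N hz).mul_left _) fun m => ?_
  refine (Finset.sum_le_sum fun i _ => hterm i).trans ?_
  rw [← Finset.mul_sum]
  refine mul_le_mul_of_nonneg_left ?_ (by positivity)
  have hc : ∀ i, Continuous fun θ : ℝ => ‖1 - (z + (r:ℂ) * Complex.exp ((θ:ℂ) * Complex.I))‖ ^ 4
      * trm N i (z + (r:ℂ) * Complex.exp ((θ:ℂ) * Complex.I)) := fun i =>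
    Continuous.mul (by fun_prop) ((trm_cont N i).comp hγ)
  rw [← intervalIntegral.integral_finsetSum fun i _ => (hc i).intervalIntegrable _ _]
  refine intervalIntegral.integral_mono_on (by positivity)
    ((continuous_finsetSum _ fun i _ => hc i).intervalIntegrable _ _)
    (((sig_cont N).comp_continuous hγ fun θ => hsub (circ_mem hr θ)).intervalIntegrable _ _)
    fun θ _ => ?_
  rw [← Finset.mul_sum]
  refine mul_le_mul_of_nonneg_left ?_ (by positivity)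
  exact (trm_summable N (mem_ball_zero_iff.1 (hsub (circ_mem hr θ)))).sum_le_tsum _
    fun i _ => trm_nonneg N i _

theorem ww_eq {y : ℂ} (hy : ‖y‖ < 1) : ww y = ((1 + y) / (1 - y)).re := by
  have h1 := one_sub_ne hy
  have h2 : Complex.normSq (1 - y) ≠ 0 := by simpa using h1
  rw [ww, Complex.div_re, Complex.sq_norm, Complex.sq_norm]
  field_simp
  simp [Complex.normSq_apply]
  ring

theorem ww_cont : ContinuousOn ww (ball 0 1) := by
  unfold ww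
  refine ContinuousOn.div (by fun_prop) (by fun_prop) fun z hz => ?_
  exact pow_ne_zero _ (norm_ne_zero_iff.2 (one_sub_ne (mem_ball_zero_iff.1 hz)))

theorem ww_pos {z : ℂ} (hz : z ∈ ball (0:ℂ) 1) : 0 < ww z := by
  have h1 := mem_ball_zero_iff.1 hz
  have h2 : ‖z‖ ^ 2 < 1 := pow_lt_one₀ (norm_nonneg _) h1 two_ne_zero
  exact div_pos (by linarith) (pow_pos (norm_pos_iff.2 (one_sub_ne h1)) 2)

theorem ww_sub (z : ℂ) (r : ℝ) (hr : 0 < r) (hsub : closedBall z r ⊆ ball (0:ℂ) 1) :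
    ww z ≤ (2 * Real.pi)⁻¹ * ∫ θ in (0:ℝ)..2 * Real.pi,
      ww (z + (r:ℂ) * Complex.exp ((θ:ℂ) * Complex.I)) := by
  have hz : ‖z‖ < 1 := mem_ball_zero_iff.1 (hsub (mem_closedBall_self hr.le))
  have hd : DifferentiableOn ℂ (fun y : ℂ => (1 + y) / (1 - y)) (closedBall z r) :=
    DifferentiableOn.div (by fun_prop) (by fun_prop)
      fun y hy => one_sub_ne (mem_ball_zero_iff.1 (hsub hy))
  have h1 : DiffContOnCl ℂ (fun y : ℂ => (1 + y) / (1 - y)) (ball z |r|) := by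
    rw [abs_of_pos hr]
    exact hd.diffContOnCl_ball subset_rfl
  have h2 := h1.circleAverage
  rw [Real.circleAverage_def] at h2
  have hγ : Continuous fun θ : ℝ => z + (r:ℂ) * Complex.exp ((θ:ℂ) * Complex.I) := by fun_prop
  have h3 : IntervalIntegrable (fun θ : ℝ => (1 + circleMap z r θ) / (1 - circleMap z r θ))
      volume 0 (2 * Real.pi) :=
    (hd.continuousOn.comp_continuous hγ fun θ => circ_mem hr θ).intervalIntegrable _ _
  have h4 := Complex.reCLM.intervalIntegral_comp_comm h3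
  refine le_of_eq ?_
  rw [ww_eq hz]
  have h5 := congrArg Complex.re h2
  rw [Complex.smul_re, smul_eq_mul] at h5
  rw [← h5]
  congr 1
  refine h4.symm.trans ?_
  refine intervalIntegral.integral_congr fun θ _ => ?_
  exact (ww_eq (mem_ball_zero_iff.1 (hsub (circ_mem hr θ)))).symm

theorem sig_int (N : ℕ → ℕ) : IntegrableOn (fun z => ‖1 - z‖ ^ 4 * st N z) (ball 0 1) :=
  intgRc (st_int N) (by fun_prop)

theorem ww_integrable : IntegrableOn ww (ball 0 1) := by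
  refine ⟨ww_cont.aestronglyMeasurable measurableSet_ball, ?_⟩
  rw [hasFiniteIntegral_iff_ofReal ((ae_restrict_iff' measurableSet_ball).2
    (Eventually.of_forall fun z hz => (ww_pos hz).le))]
  exact ww_int.trans_lt ENNReal.ofReal_lt_top

theorem test_rhs (N : ℕ → ℕ) (s : ℝ) :
    ∫⁻ ζ in ball (0:ℂ) 1, ‖(ball (0:ℂ) s).indicator (fun _ => (1:ℂ)) ζ‖ₑ ^ 2
      * ENNReal.ofReal (‖1 - ζ‖ ^ 4 * st N ζ)
      ≤ ENNReal.ofReal (∫ ζ in ball (0:ℂ) 1, ‖1 - ζ‖ ^ 4 * st N ζ) := by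
  rw [ofReal_integral_eq_lintegral_ofReal (sig_int N)
    (Eventually.of_forall fun z => mul_nonneg (by positivity) (st_nonneg N z))]
  refine lintegral_mono fun ζ => mul_le_of_le_one_left' ?_
  by_cases h : ζ ∈ ball (0:ℂ) s
  · simp [indicator_of_mem h]
  · simp [indicator_of_notMem h]

theorem no_bound {N : ℕ → ℕ} (hbig : ∀ K : ℝ, ∃ (n : ℕ) (c : ℝ), 0 ≤ c ∧
      (∀ z ∈ ball (0:ℂ) 1, c * ((n + 1) * ‖z‖ ^ (2 * n)) ≤ st N z) ∧
      K ≤ c ^ 2 * (∑ k ∈ Finset.range n, 1 / ((k:ℝ) + 1) - 1)) (C : NNReal)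
    (T : (ℂ → ℂ) → ℂ → ℝ≥0∞)
    (hT : ∀ s : ℝ, 0 < s → s < 1 → ∀ z ∈ ball (0:ℂ) 1, ENNReal.ofReal
      (∫ ζ in ball (0:ℂ) s, ‖1 - ζ‖ ^ 4 * (‖1 - z * starRingEnd ℂ ζ‖ ^ 2)⁻¹ * st N ζ)
        ≤ T ((ball (0:ℂ) s).indicator fun _ => (1:ℂ)) z)
    (hC : ∀ f : ℂ → ℂ, Measurable f → (∃ M : ℝ, ∀ z, ‖f z‖ ≤ M) →
      (∃ s : ℝ, s < 1 ∧ ∀ z : ℂ, s < ‖z‖ → f z = 0) →
      ∫⁻ z in ball (0:ℂ) 1, T f z ^ 2 * ENNReal.ofReal (ww z)
        ≤ (C : ℝ≥0∞) * ∫⁻ ζ in ball (0:ℂ) 1, ‖f ζ‖ₑ ^ 2 * ENNReal.ofReal (‖1 - ζ‖ ^ 4 * st N ζ)) :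
    False := by
  have h0 : 0 ≤ ∫ ζ in ball (0:ℂ) 1, ‖1 - ζ‖ ^ 4 * st N ζ :=
    integral_nonneg fun z => mul_nonneg (by positivity) (st_nonneg N z)
  refine lower (st_radial N) (st_int N) (st_nonneg N) hbig
    (C * ∫ ζ in ball (0:ℂ) 1, ‖1 - ζ‖ ^ 4 * st N ζ) (by positivity) fun s hs0 hs1 => ?_
  have h1 := hC ((ball (0:ℂ) s).indicator fun _ => (1:ℂ))
    (measurable_const.indicator measurableSet_ball)
    ⟨1, fun z => by
      by_cases h : z ∈ ball (0:ℂ) s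
      · simp [indicator_of_mem h]
      · simp [indicator_of_notMem h]⟩
    ⟨s, hs1, fun z hz => indicator_of_notMem (by simpa using hz.le) _⟩
  rw [ENNReal.ofReal_mul C.coe_nonneg, ENNReal.ofReal_coe_nnreal]
  refine le_trans ?_ (h1.trans (mul_le_mul_right (test_rhs N s) _))
  refine setLIntegral_mono' measurableSet_ball fun z hz => ?_
  have := hT s hs0 hs1 z hz
  gcongr

theorem T_lin (N : ℕ → ℕ) (s : ℝ) (hs1 : s < 1) (z : ℂ) (hz : z ∈ ball (0:ℂ) 1) :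
    ENNReal.ofReal
      (∫ ζ in ball (0:ℂ) s, ‖1 - ζ‖ ^ 4 * (‖1 - z * starRingEnd ℂ ζ‖ ^ 2)⁻¹ * st N ζ)
      ≤ ∫⁻ ζ in ball (0:ℂ) 1, ‖(ball (0:ℂ) s).indicator (fun _ => (1:ℂ)) ζ‖ₑ
        * ENNReal.ofReal (‖1 - ζ‖ ^ 4 * st N ζ) / ‖1 - z * starRingEnd ℂ ζ‖ₑ ^ 2 := by
  have hz' := mem_ball_zero_iff.1 hz
  rw [ofReal_integral_eq_lintegral_ofReal (intg_t (st_int N) hs1.le hz')
    (Eventually.of_forall fun ζ => mul_nonneg (by positivity) (st_nonneg N ζ))]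
  refine le_trans ?_ (lintegral_mono_set (ball_subset_ball hs1.le))
  refine setLIntegral_mono' measurableSet_ball fun ζ hζ => le_of_eq ?_
  have h1 : 0 < ‖1 - z * starRingEnd ℂ ζ‖ :=
    lt_of_lt_of_le (by linarith) (den_ge ((mem_ball_zero_iff.1 hζ).le.trans hs1.le))
  rw [indicator_of_mem hζ, enorm_one, one_mul, ← ofReal_norm, ← ENNReal.ofReal_pow h1.le,
    ← ENNReal.ofReal_div_of_pos (by positivity)]
  congr 1
  ring

theorem T_boch (N : ℕ → ℕ) (s : ℝ) (hs1 : s < 1) (z : ℂ) :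
    ENNReal.ofReal
      (∫ ζ in ball (0:ℂ) s, ‖1 - ζ‖ ^ 4 * (‖1 - z * starRingEnd ℂ ζ‖ ^ 2)⁻¹ * st N ζ)
      ≤ ‖∫ ζ in ball (0:ℂ) 1, (ball (0:ℂ) s).indicator (fun _ => (1:ℂ)) ζ
        * ((‖1 - ζ‖ ^ 4 * st N ζ : ℝ) : ℂ) / ((‖1 - z * starRingEnd ℂ ζ‖ ^ 2 : ℝ) : ℂ)‖ₑ := by
  have e : (fun ζ => (ball (0:ℂ) s).indicator (fun _ => (1:ℂ)) ζ
        * ((‖1 - ζ‖ ^ 4 * st N ζ : ℝ) : ℂ) / ((‖1 - z * starRingEnd ℂ ζ‖ ^ 2 : ℝ) : ℂ))
      = (ball (0:ℂ) s).indicator fun ζ =>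
        ((‖1 - ζ‖ ^ 4 * (‖1 - z * starRingEnd ℂ ζ‖ ^ 2)⁻¹ * st N ζ : ℝ) : ℂ) := by
    funext ζ
    by_cases h : ζ ∈ ball (0:ℂ) s
    · rw [indicator_of_mem h, indicator_of_mem h]
      push_cast
      ring
    · rw [indicator_of_notMem h, indicator_of_notMem h]
      simp
  rw [e, setIntegral_indicator measurableSet_ball,
    inter_eq_right.2 (ball_subset_ball hs1.le), integral_complex_ofReal, ← ofReal_norm,
    Complex.norm_real]
  exact ENNReal.ofReal_le_ofReal (le_abs_self _)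

theorem upper' (N : ℕ → ℕ) : ∃ C : NNReal, ∀ f : ℂ → ℂ, Measurable f → (∃ M : ℝ, ∀ z, ‖f z‖ ≤ M) →
    ∫⁻ z in ball (0:ℂ) 1, ‖∫ ζ in ball (0:ℂ) 1,
        f ζ * ((‖1 - ζ‖ ^ 4 * st N ζ : ℝ) : ℂ) / (1 - z * starRingEnd ℂ ζ) ^ 2‖ₑ ^ 2
          * ENNReal.ofReal (ww z)
      ≤ (C : ℝ≥0∞) * ∫⁻ ζ in ball (0:ℂ) 1, ‖f ζ‖ₑ ^ 2 * ENNReal.ofReal (‖1 - ζ‖ ^ 4 * st N ζ) :=
  ⟨(12 * Real.pi * ((∫ z in ball (0:ℂ) 1, st N z) + 1)).toNNReal, fun _ hf ⟨M, hM⟩ =>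
    upper (st_radial N) (st_int N) (st_nonneg N) hf M hM⟩

theorem sig_pos {N : ℕ → ℕ} (hN : N 0 = 0) {z : ℂ} (hz : z ∈ ball (0:ℂ) 1) :
    0 < ‖1 - z‖ ^ 4 * st N z := by
  have h1 := mem_ball_zero_iff.1 hz
  have h2 := trm_le_st N 0 h1
  simp only [trm, hN] at h2
  norm_num at h2
  exact mul_pos (pow_pos (norm_pos_iff.2 (one_sub_ne h1)) 4) (by linarith)

end Pool.Agent.H88.Berg
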