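import Mathlib

set_option autoImplicit false

open Filter Topology Set MeasureTheory

namespace Pool.Agent.H88.BernMix

lemma mix_ext {S : Type*} [m : MeasurableSpace S] (P : Measure S) [IsProbabilityMeasure P]
    {s : Set (Set S)} (hs : m = MeasurableSpace.generateFrom s) (hpi : IsPiSystem s)
    (φ : ℕ → S → S) (hφ : ∀ n, MeasurePreserving (φ n) P P) (C : ℕ → Set S)
    (hC : ∀ n, MeasurableSet (C n)) (c : ℝ) (hc : ∀ n, P.real (C n) = c)
    (hb : ∀ X ∈ s, Tendsto (fun n => P.real (φ n ⁻¹' X ∩ C n)) atTop (𝓝 (P.real X * c))) :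
    ∀ X, MeasurableSet X → Tendsto (fun n => P.real (φ n ⁻¹' X ∩ C n)) atTop (𝓝 (P.real X * c)) := by
  intro X hX
  induction X, hX using MeasurableSpace.induction_on_inter hs hpi with
  | empty => simp
  | basic t ht => exact hb t ht
  | compl t htm ih =>
    have e : ∀ n, P.real (φ n ⁻¹' tᶜ ∩ C n) = c - P.real (φ n ⁻¹' t ∩ C n) := by
      intro n
      have := measureReal_inter_add_sdiff (μ := P) (s := C n) ((hφ n).measurable htm)
      rw [hc, inter_comm] at this
      rw [preimage_compl, inter_comm, ← sdiff_eq]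
      linarith
    simp only [e]
    rw [probReal_compl_eq_one_sub htm, sub_mul, one_mul]
    exact ih.const_sub c
  | iUnion f hd hm ih =>
    have hr : ∀ g : ℕ → Set S, Pairwise (Function.onFun Disjoint g) → (∀ i, MeasurableSet (g i)) →
        P.real (⋃ i, g i) = ∑' i, P.real (g i) := by
      intro g h1 h2
      rw [Measure.real, measure_iUnion h1 h2, ENNReal.tsum_toReal_eq fun _ => measure_ne_top _ _]
      rfl
    have e : ∀ n, P.real (φ n ⁻¹' (⋃ i, f i) ∩ C n) = ∑' i, P.real (φ n ⁻¹' f i ∩ C n) := by
      intro n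
      rw [preimage_iUnion, iUnion_inter]
      exact hr _ (fun i j hij => ((hd hij).preimage _).mono inter_subset_left inter_subset_left)
        fun i => ((hφ n).measurable (hm i)).inter (hC n)
    simp only [e]
    rw [hr f hd hm, ← tsum_mul_right]
    refine tendsto_tsum_of_dominated_convergence (summable_measure_toReal (μ := P) hm hd) ih
      (Eventually.of_forall fun n i => ?_)
    rw [Real.norm_eq_abs, abs_of_nonneg measureReal_nonneg]
    refine (measureReal_mono inter_subset_left).trans (le_of_eq ?_)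
    exact (hφ n).measureReal_preimage (hm i).nullMeasurableSet

variable {X : Type*} [MeasurableSpace X] (μ : Measure X) [IsProbabilityMeasure μ]

/-- the shift -/
def sh (x : ℤ → X) : ℤ → X := fun i => x (i + 1)

omit [MeasurableSpace X] in
lemma sh_iter (n : ℕ) (x : ℤ → X) (i : ℤ) : sh^[n] x i = x (i + n) := by
  induction n generalizing i with
  | zero => simp
  | succ n ih => rw [Function.iterate_succ_apply', sh, ih]; push_cast; ring_nf

omit [MeasurableSpace X] in
lemma sh_pre (n : ℕ) (s : Finset ℤ) (t : ℤ → Set X) :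
    sh^[n] ⁻¹' (Set.pi s t)
      = Set.pi ((s.image fun i : ℤ => i + (n : ℤ) : Finset ℤ) : Set ℤ) fun i => t (i - n) := by
  ext x
  simp only [mem_preimage, Set.mem_pi, sh_iter, Finset.coe_image, forall_mem_image,
    add_sub_cancel_right]

lemma sh_meas : Measurable (sh : (ℤ → X) → ℤ → X) :=
  measurable_pi_lambda _ fun _ => measurable_pi_apply _

lemma sh_mp : MeasurePreserving sh (Measure.infinitePi fun _ : ℤ => μ)
    (Measure.infinitePi fun _ : ℤ => μ) := by
  refine ⟨sh_meas, Measure.eq_infinitePi _ fun s t ht => ?_⟩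
  rw [Measure.map_apply sh_meas (MeasurableSet.pi s.countable_toSet fun i _ => ht i)]
  have := sh_pre 1 s t
  rw [Function.iterate_one] at this
  rw [this, Measure.infinitePi_pi _ fun i _ => ht _,
    Finset.prod_image fun a _ b _ h => add_right_cancel h]
  simp

theorem sh_mixing (A B : Set (ℤ → X)) (hA : MeasurableSet A) (hB : MeasurableSet B) :
    Tendsto (fun n => (Measure.infinitePi fun _ : ℤ => μ).real (sh^[n] ⁻¹' A ∩ B)) atTop
      (𝓝 ((Measure.infinitePi fun _ : ℤ => μ).real A * (Measure.infinitePi fun _ : ℤ => μ).real B)) := by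
  classical
  have hgen := (generateFrom_squareCylinders (α := fun _ : ℤ => X)).symm
  have hpi := isPiSystem_squareCylinders (α := fun _ : ℤ => X)
    (C := fun _ => {s | MeasurableSet s}) (fun _ => MeasurableSpace.isPiSystem_measurableSet)
    (fun _ => MeasurableSet.univ)
  have step := mix_ext (Measure.infinitePi fun _ : ℤ => μ) hgen hpi (fun _ => id)
    (fun _ => MeasurePreserving.id _) (fun n => sh^[n] ⁻¹' A) (fun n => (sh_meas.iterate n) hA)
    ((Measure.infinitePi fun _ : ℤ => μ).real A)
    (fun n => ((sh_mp μ).iterate n).measureReal_preimage hA.nullMeasurableSet) ?_ B hB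
  · simpa [inter_comm, mul_comm] using step
  rintro _ ⟨s, t, ht, rfl⟩
  have hBm : MeasurableSet (Set.pi (s : Set ℤ) t) :=
    MeasurableSet.pi s.countable_toSet fun i _ => ht i trivial
  have step2 := mix_ext (Measure.infinitePi fun _ : ℤ => μ) hgen hpi (fun n => sh^[n])
    (fun n => (sh_mp μ).iterate n) (fun _ => Set.pi (s : Set ℤ) t) (fun _ => hBm) _
    (fun _ => rfl) ?_ A hA
  · simpa [inter_comm, mul_comm] using step2
  rintro _ ⟨s', t', ht', rfl⟩
  refine tendsto_const_nhds.congr' ?_
  obtain ⟨N, hN⟩ : ∃ N : ℕ, ∀ i ∈ s', ∀ j ∈ s, j - i < N := by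
    obtain ⟨b, hb⟩ := ((s' ×ˢ s).image fun q : ℤ × ℤ => q.2 - q.1).bddAbove
    refine ⟨b.toNat + 1, fun i hi j hj => ?_⟩
    have := hb (Finset.mem_coe.2 (Finset.mem_image_of_mem _
      (Finset.mk_mem_product hi hj)))
    simp only at this
    omega
  filter_upwards [eventually_ge_atTop N] with n hn
  have hdis : Disjoint (s'.image fun i : ℤ => i + (n : ℤ)) s := by
    rw [Finset.disjoint_left]
    intro j hj hjs
    obtain ⟨i, hi, rfl⟩ := Finset.mem_image.1 hj
    have := hN i hi _ hjs
    omega
  have e : sh^[n] ⁻¹' (Set.pi s' t') ∩ Set.pi s t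
      = Set.pi (((s'.image fun i : ℤ => i + (n : ℤ)) ∪ s : Finset ℤ) : Set ℤ)
        fun i => if i ∈ s then t i else t' (i - n) := by
    rw [sh_pre, Finset.coe_union, Set.union_pi]
    congr 1
    · refine Set.pi_congr rfl fun i hi => ?_
      rw [if_neg (Finset.disjoint_left.1 hdis hi)]
    · exact Set.pi_congr rfl fun i hi => by rw [if_pos (Finset.mem_coe.1 hi)]
  rw [e, Measure.real, Measure.real, Measure.real, ← ENNReal.toReal_mul,
    Measure.infinitePi_pi _ fun i _ => ht' i trivial, Measure.infinitePi_pi _ fun i _ => ht i trivial,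
    Measure.infinitePi_pi, Finset.prod_union hdis,
    Finset.prod_image fun a _ b _ h => add_right_cancel h]
  · congr 2
    · refine Finset.prod_congr rfl fun i hi => ?_
      rw [if_neg (Finset.disjoint_left.1 hdis (Finset.mem_image_of_mem _ hi)), add_sub_cancel_right]
    · exact Finset.prod_congr rfl fun i hi => by rw [if_pos hi]
  · intro i _
    split_ifs
    · exact ht i trivial
    · exact ht' _ trivial

lemma sh_image (B : Set (ℤ → X)) (hB : MeasurableSet B) : MeasurableSet (sh '' B) := by
  have : sh '' B = (fun (x : ℤ → X) i => x (i - 1)) ⁻¹' B := by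
    refine congrFun (Set.image_eq_preimage_of_inverse ?_ ?_) B
    · intro x; ext i; simp [sh]
    · intro x; ext i; simp [sh]
  rw [this]
  exact (measurable_pi_lambda _ fun _ => measurable_pi_apply _) hB

end Pool.Agent.H88.BernMix
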