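import Mathlib

set_option autoImplicit false

namespace Pool.Agent.H88.Blaschke

open Filter Complex Topology Metric

lemma normSq_id (a w : ℂ) : ‖1 - (starRingEnd ℂ) a * w‖ ^ 2 - ‖a - w‖ ^ 2 =
    (1 - ‖a‖ ^ 2) * (1 - ‖w‖ ^ 2) := by
  simp only [Complex.sq_norm, normSq_apply, sub_re, one_re, mul_re, conj_re, conj_im, sub_im,
    one_im, mul_im]
  ring

lemma den_ne {a w : ℂ} (ha : ‖a‖ < 1) (hw : ‖w‖ < 1) : 1 - (starRingEnd ℂ) a * w ≠ 0 := by
  intro h
  have h1 : (starRingEnd ℂ) a * w = 1 := by linear_combination -h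
  have h2 := congrArg norm h1
  rw [norm_mul, Complex.norm_conj, norm_one] at h2
  nlinarith [norm_nonneg a, norm_nonneg w]

lemma norm_mob_lt {a w : ℂ} (ha : ‖a‖ < 1) (hw : ‖w‖ < 1) :
    ‖(a - w) / (1 - (starRingEnd ℂ) a * w)‖ < 1 := by
  have h0 := norm_pos_iff.2 (den_ne ha hw)
  rw [norm_div, div_lt_one h0]
  have h1 := normSq_id a w
  have h2 : 0 < (1 - ‖a‖ ^ 2) * (1 - ‖w‖ ^ 2) := by
    apply mul_pos <;> nlinarith [norm_nonneg a, norm_nonneg w]
  exact lt_of_pow_lt_pow_left₀ 2 (norm_nonneg _) (by linarith)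

lemma schwarz_pick {f : ℂ → ℂ} (hf : DifferentiableOn ℂ f (ball 0 1))
    (hb : ∀ z, ‖z‖ < 1 → ‖f z‖ ≤ 1) {a : ℂ} (ha : ‖a‖ < 1) (h0 : f a = 0) {z : ℂ} (hz : ‖z‖ < 1) :
    ‖f z‖ ≤ ‖(a - z) / (1 - (starRingEnd ℂ) a * z)‖ := by
  have hd : DifferentiableOn ℂ (fun w => f ((a - w) / (1 - (starRingEnd ℂ) a * w))) (ball 0 1) := by
    apply hf.comp
    · exact DifferentiableOn.div (by fun_prop) (by fun_prop)
        fun w hw => den_ne ha (mem_ball_zero_iff.1 hw)
    · intro w hw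
      exact mem_ball_zero_iff.2 (norm_mob_lt ha (mem_ball_zero_iff.1 hw))
  have h1 := Complex.norm_le_norm_of_mapsTo_ball hd (fun w hw => by
    rw [mem_closedBall_zero_iff]
    exact hb _ (norm_mob_lt ha (mem_ball_zero_iff.1 hw))) (by simpa using h0) (norm_mob_lt ha hz)
  have h2 := den_ne ha hz
  have h3 := den_ne ha (norm_mob_lt ha hz)
  have h4 : (a - (a - z) / (1 - (starRingEnd ℂ) a * z)) /
      (1 - (starRingEnd ℂ) a * ((a - z) / (1 - (starRingEnd ℂ) a * z))) = z := by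
    rw [div_eq_iff h3]
    have h5 := div_mul_cancel₀ (a - z) h2
    generalize (a - z) / (1 - (starRingEnd ℂ) a * z) = w at *
    linear_combination -h5
  rwa [h4] at h1

lemma exists_div {f : ℂ → ℂ} (hf : DifferentiableOn ℂ f (ball 0 1))
    (hb : ∀ z, ‖z‖ < 1 → ‖f z‖ ≤ 1) {a : ℂ} (ha : ‖a‖ < 1) (h0 : f a = 0) :
    ∃ g : ℂ → ℂ, DifferentiableOn ℂ g (ball 0 1) ∧ (∀ z, ‖z‖ < 1 → ‖g z‖ ≤ 1) ∧
      ∀ z, ‖z‖ < 1 → f z = g z * ((a - z) / (1 - (starRingEnd ℂ) a * z)) := by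
  have hn : ball (0 : ℂ) 1 ∈ 𝓝 a := isOpen_ball.mem_nhds (mem_ball_zero_iff.2 ha)
  have hd : DifferentiableOn ℂ (fun z => -dslope f a z * (1 - (starRingEnd ℂ) a * z)) (ball 0 1) :=
    ((differentiableOn_dslope hn).2 hf).neg.mul (by fun_prop)
  have he : ∀ z, ‖z‖ < 1 → f z = -dslope f a z * (1 - (starRingEnd ℂ) a * z) *
      ((a - z) / (1 - (starRingEnd ℂ) a * z)) := by
    intro z hz
    have h1 := sub_smul_dslope f a z
    rw [h0, sub_zero, smul_eq_mul] at h1
    have h2 := den_ne ha hz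
    have h5 := div_mul_cancel₀ (a - z) h2
    generalize (a - z) / (1 - (starRingEnd ℂ) a * z) = w at *
    linear_combination -h1 + dslope f a z * h5
  have hne : ∀ z, ‖z‖ < 1 → z ≠ a → ‖-dslope f a z * (1 - (starRingEnd ℂ) a * z)‖ ≤ 1 := by
    intro z hz hza
    have h1 := schwarz_pick hf hb ha h0 hz
    rw [he z hz, norm_mul] at h1
    have h2 : 0 < ‖(a - z) / (1 - (starRingEnd ℂ) a * z)‖ :=
      norm_pos_iff.2 (div_ne_zero (sub_ne_zero.2 hza.symm) (den_ne ha hz))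
    nlinarith
  refine ⟨_, hd, fun z hz => ?_, he⟩
  by_cases hza : z = a
  · subst hza
    have h1 : Tendsto (fun w => ‖-dslope f z w * (1 - (starRingEnd ℂ) z * w)‖) (𝓝[≠] z)
        (𝓝 ‖-dslope f z z * (1 - (starRingEnd ℂ) z * z)‖) :=
      ((hd.continuousOn.continuousAt hn).norm.tendsto).mono_left nhdsWithin_le_nhds
    refine le_of_tendsto h1 ?_
    filter_upwards [self_mem_nhdsWithin, mem_nhdsWithin_of_mem_nhds hn] with w hw hw'
    exact hne w (mem_ball_zero_iff.1 hw') hw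
  · exact hne z hz hza

lemma norm_le_prod (F : Finset ℂ) : ∀ f : ℂ → ℂ, DifferentiableOn ℂ f (ball 0 1) →
    (∀ z, ‖z‖ < 1 → ‖f z‖ ≤ 1) → (∀ a ∈ F, ‖a‖ < 1 ∧ f a = 0) → ‖f 0‖ ≤ ∏ a ∈ F, ‖a‖ := by
  classical
  induction F using Finset.induction_on with
  | empty => intro f _ hb _; simpa using hb 0 (by simp)
  | insert a F haF ih =>
    intro f hf hb hz
    obtain ⟨ha, h0⟩ := hz a (Finset.mem_insert_self _ _)
    obtain ⟨g, hg, hgb, hge⟩ := exists_div hf hb ha h0
    have h1 := ih g hg hgb (by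
      intro b hbF
      obtain ⟨hb1, hb0⟩ := hz b (Finset.mem_insert_of_mem hbF)
      refine ⟨hb1, ?_⟩
      rw [hge b hb1] at hb0
      have hab : a ≠ b := fun h => haF (h ▸ hbF)
      exact (mul_eq_zero.1 hb0).resolve_right (div_ne_zero (sub_ne_zero.2 hab) (den_ne ha hb1)))
    rw [Finset.prod_insert haF, hge 0 (by simp), norm_mul, mul_comm]
    simp only [sub_zero, mul_zero, div_one]
    gcongr

/-- The zeros of a bounded analytic function satisfy the Blaschke condition. -/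
lemma summable_zeros {f : ℂ → ℂ} (hf : DifferentiableOn ℂ f (ball 0 1))
    (hb : ∀ z, ‖z‖ < 1 → ‖f z‖ ≤ 1) (h0 : f 0 ≠ 0) :
    Summable fun a : {a : ℂ | ‖a‖ < 1 ∧ f a = 0} => 1 - ‖(a : ℂ)‖ := by
  apply summable_of_sum_le (c := -Real.log ‖f 0‖) (fun a => sub_nonneg.2 a.2.1.le)
  intro u
  have h1 := norm_le_prod (u.map (Function.Embedding.subtype _)) f hf hb (by
    intro a ha
    obtain ⟨b, -, rfl⟩ := Finset.mem_map.1 ha
    exact b.2)
  rw [Finset.prod_map] at h1
  have h2 : ∏ a ∈ u, ‖(a : ℂ)‖ ≤ Real.exp (-∑ a ∈ u, (1 - ‖(a : ℂ)‖)) := by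
    rw [← Finset.sum_neg_distrib, Real.exp_sum]
    apply Finset.prod_le_prod (fun _ _ => norm_nonneg _)
    intro a _
    linarith [Real.add_one_le_exp (-(1 - ‖(a : ℂ)‖))]
  have h3 := (Real.log_le_iff_le_exp (norm_pos_iff.2 h0)).2 (h1.trans h2)
  linarith

/-- division by a function with simple zeros -/
lemma exists_quot {U : Set ℂ} (hU : IsOpen U) {A B : ℂ → ℂ} (hA : DifferentiableOn ℂ A U)
    (hB : DifferentiableOn ℂ B U) (h0 : ∀ u ∈ U, B u = 0 → A u = 0 ∧ deriv B u ≠ 0) :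
    ∃ q : ℂ → ℂ, DifferentiableOn ℂ q U ∧ ∀ u ∈ U, A u = q u * B u := by
  classical
  refine ⟨fun u => if B u = 0 then deriv A u / deriv B u else A u / B u, fun u hu => ?_,
    fun u hu => ?_⟩
  · have hn := hU.mem_nhds hu
    apply DifferentiableAt.differentiableWithinAt
    by_cases hb : B u = 0
    · obtain ⟨ha, hd⟩ := h0 u hu hb
      have dA := ((differentiableOn_dslope (f := A) hn).2 hA).differentiableAt hn
      have dB := ((differentiableOn_dslope (f := B) hn).2 hB).differentiableAt hn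
      have hd' : dslope B u u ≠ 0 := by rwa [dslope_same]
      refine (dA.div dB hd').congr_of_eventuallyEq ?_
      filter_upwards [dB.continuousAt.eventually_ne hd'] with w hw
      by_cases hwu : w = u
      · subst hwu
        simp [hb]
      · have h1 := sub_smul_dslope A u w
        have h2 := sub_smul_dslope B u w
        rw [ha, sub_zero, smul_eq_mul] at h1
        rw [hb, sub_zero, smul_eq_mul] at h2
        have h3 : w - u ≠ 0 := sub_ne_zero.2 hwu
        have h4 : B w ≠ 0 := by rw [← h2]; exact mul_ne_zero h3 hw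
        simp only [h4, if_false, Pi.div_apply]
        rw [← h1, ← h2, mul_div_mul_left _ _ h3]
    · refine ((hA.differentiableAt hn).div (hB.differentiableAt hn) hb).congr_of_eventuallyEq ?_
      filter_upwards [(hB.differentiableAt hn).continuousAt.eventually_ne hb] with w hw
      simp [hw]
  · by_cases hb : B u = 0
    · simp [hb, (h0 u hu hb).1]
    · simp only [hb, if_false]
      field_simp

end Pool.Agent.H88.Blaschke
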