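import Mathlib

set_option autoImplicit false

namespace Pool.Agent.H88.Bloch

def InC (f : ℂ → ℂ) (a : ℕ → ℂ) : Prop :=
  (∀ z : ℂ, ‖z‖ < 1 → HasSum (fun n => a n * z ^ n) (f z)) ∧ a 0 = 1 ∧
    (∀ z : ℂ, ‖z‖ < 1 → 0 < (f z).re) ∧
    ∃ C : ℝ, ∀ z : ℂ, ‖z‖ < 1 → (1 - ‖z‖ ^ 2) * ‖deriv f z‖ ≤ C

noncomputable def SN (a : ℕ → ℂ) (N : ℕ) : ℝ := ∑ n ∈ Finset.Icc 1 N, ‖a n‖ ^ 2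

end Pool.Agent.H88.Bloch
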