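import Pool.Agent.H88.H2
import Pool.Agent.H88.BlochDefs

set_option autoImplicit false
open MeasureTheory Filter Topology Metric Set Complex

namespace Pool.Agent.H88.Bloch

open Pool.Agent.H88.PS Pool.Agent.H88.H2

variable {A B : ℕ → ℂ} {F G : ℂ → ℂ}

theorem euler (h : Rep A F) : Rep (fun n => n * A n) fun z => z * deriv F z := by
  intro z hz
  obtain ⟨s, h1, h2⟩ := exists_between hz
  have h0 : 0 ≤ s := (norm_nonneg _).trans h1.le
  have h3 := (hasSum_deriv_of_summable_norm (F := fun n w => A n * w ^ n) (h.summ h0 h2)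
    (U := ball 0 s) (fun n => by fun_prop) isOpen_ball (fun n w hw => by
      rw [norm_mul, norm_pow]
      gcongr
      exact (mem_ball_zero_iff.1 hw).le) (mem_ball_zero_iff.2 h1)).mul_left z
  have e : deriv (fun w => ∑' n, A n * w ^ n) z = deriv F z :=
    Filter.EventuallyEq.deriv_eq (by
      filter_upwards [isOpen_ball.mem_nhds (mem_ball_zero_iff.2 hz)] with w hw
      exact (h w (mem_ball_zero_iff.1 hw)).tsum_eq)
  rw [e] at h3
  refine (congrArg (fun f => HasSum f _) ?_).mp h3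
  funext n
  cases n with
  | zero => simp
  | succ n =>
    simp only [deriv_const_mul_field', deriv_pow_field, Nat.add_sub_cancel]
    ring

theorem polar (h : Rep A F) (h' : Rep B G) {r : ℝ} (h0 : 0 ≤ r) (h1 : r < 1) :
    HasSum (fun n => (A n * starRingEnd ℂ (B n)).re * (r ^ 2) ^ n)
      (av fun θ => (F (r * exp (θ * I)) * starRingEnd ℂ (G (r * exp (θ * I)))).re) := by
  have hs : Rep (fun n => A n + B n) fun z => F z + G z := fun z hz => by
    simpa only [add_mul] using (h z hz).add (h' z hz)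
  have h2 := (((hs.parseval h0 h1).sub (h.parseval h0 h1)).sub (h'.parseval h0 h1)).mul_left (1 / 2)
  have c1 := h.cont h0 h1
  have c2 := h'.cont h0 h1
  have e : ∀ x y : ℂ, ‖x + y‖ ^ 2 = ‖x‖ ^ 2 + (‖y‖ ^ 2 + 2 * (x * starRingEnd ℂ y).re) := by
    intro x y
    rw [Complex.sq_norm, Complex.sq_norm, Complex.sq_norm, normSq_add, add_assoc]
  obtain ⟨u, hu⟩ : ∃ u : ℝ → ℂ, ∀ θ : ℝ, F (r * exp (θ * I)) = u θ := ⟨_, fun _ => rfl⟩
  obtain ⟨v, hv⟩ : ∃ v : ℝ → ℂ, ∀ θ : ℝ, G (r * exp (θ * I)) = v θ := ⟨_, fun _ => rfl⟩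
  simp only [e, hu, hv] at h2 c1 c2 ⊢
  rw [av_add (by fun_prop) (by fun_prop), av_add (by fun_prop) (by fun_prop), av_mul] at h2
  refine (congrArg₂ HasSum ?_ ?_).mp h2
  · funext n
    ring
  · ring

theorem mono_bd (hG : DifferentiableOn ℂ G (ball 0 1)) {b b' : ℝ → ℝ}
    (hb : ∀ t ∈ Ico (0:ℝ) 1, HasDerivAt b (b' t) t) (h : ∀ t ∈ Ioo (0:ℝ) 1, (deriv G t).re ≤ b' t)
    {t : ℝ} (ht : t ∈ Ico (0:ℝ) 1) : (G t).re - b t ≤ (G 0).re - b 0 := by
  have h1 : ∀ t ∈ Ico (0:ℝ) 1, HasDerivAt (fun t : ℝ => (G t).re - b t) ((deriv G t).re - b' t) t :=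
    fun t ht => (hG.differentiableAt (isOpen_ball.mem_nhds (by
      rw [mem_ball_zero_iff, norm_real, Real.norm_of_nonneg ht.1]
      exact ht.2))).hasDerivAt.real_of_complex.sub (hb t ht)
  have h2 := antitoneOn_of_deriv_nonpos (convex_Ico (0:ℝ) 1)
    (fun t ht => (h1 t ht).continuousAt.continuousWithinAt)
    (fun t ht => (h1 t (interior_subset ht)).differentiableAt.differentiableWithinAt) fun t ht => by
      rw [(h1 t (interior_subset ht)).deriv]
      rw [interior_Ico] at ht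
      linarith [h t ht]
  simpa using h2 (left_mem_Ico.2 one_pos) ht ht.1

theorem rep_re (h : Rep A F) {t : ℝ} (h0 : 0 ≤ t) (h1 : t < 1) :
    HasSum (fun n => (A n).re * t ^ n) (F t).re := by
  have := hasSum_re (h t (by rwa [norm_real, Real.norm_of_nonneg h0]))
  simpa only [← ofReal_pow, re_mul_ofReal] using this

theorem cube {f : ℂ → ℂ} {a : ℕ → ℂ} (h : Rep a f) (a0 : a 0 = 1)
    (hp : ∀ z : ℂ, ‖z‖ < 1 → 0 < (f z).re) {C : ℝ}
    (hC : ∀ z : ℂ, ‖z‖ < 1 → (1 - ‖z‖ ^ 2) * ‖deriv f z‖ ≤ C) {r : ℝ} (h0 : 0 ≤ r) (h1 : r < 1) :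
    av (fun θ => (f (r * exp (θ * I))).re ^ 3) ≤ 1 - 2 * C ^ 2 * Real.log (1 - r ^ 2) := by
  have h2 := h.mul h
  have hg : Rep (fun n => cv a a n * starRingEnd ℂ (a n)) (ps fun n => cv a a n * starRingEnd ℂ (a n)) :=
    fun z hz => hasSum_ps (fun s s0 s1 => by
      have s2 : √s < 1 := (Real.sqrt_lt' one_pos).2 (by simpa using s1)
      have s3 := h.summ (Real.sqrt_nonneg s) s2
      refine Summable.of_nonneg_of_le (fun n => by positivity) (fun n => ?_)
        ((h2.summ (Real.sqrt_nonneg s) s2).mul_right (∑' n, ‖a n‖ * √s ^ n))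
      rw [norm_mul, RCLike.norm_conj, show s ^ n = √s ^ n * √s ^ n by
        rw [← mul_pow, Real.mul_self_sqrt s0], mul_mul_mul_comm]
      exact mul_le_mul_of_nonneg_left (s3.le_tsum n fun _ _ => by positivity) (by positivity)) hz
  obtain ⟨g, hg⟩ : ∃ g, Rep (fun n => cv a a n * starRingEnd ℂ (a n)) g := ⟨_, hg⟩
  have d2 : ∀ t ∈ Ioo (0:ℝ) 1, (deriv (fun z => z * deriv g z) t).re ≤ 2 * C ^ 2 / (1 - t) ^ 2 := by
    intro t ht
    have s0 := Real.sqrt_nonneg t
    have s1 : √t < 1 := (Real.sqrt_lt' one_pos).2 (by simpa using ht.2)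
    have h3 := polar (euler h2) (euler h) s0 s1
    have h4 := rep_re (euler (euler hg)) ht.1.le ht.2
    rw [Real.sq_sqrt ht.1.le] at h3
    have e : (fun n : ℕ => (n * cv a a n * starRingEnd ℂ (n * a n)).re * t ^ n)
        = fun n : ℕ => ((n:ℂ) * (n * (cv a a n * starRingEnd ℂ (a n)))).re * t ^ n := by
      funext n
      rw [map_mul, map_natCast]
      congr 2
      ring
    rw [e] at h3
    have h5 := h4.unique h3
    rw [re_ofReal_mul] at h5
    refine le_of_mul_le_mul_left ?_ ht.1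
    have c1 := h.cont s0 s1
    have c2 := (euler h).cont s0 s1
    have c3 := (euler h2).cont s0 s1
    have h6 := av_mono (v := fun θ => t * (2 * C ^ 2 / (1 - t) ^ 2) * (f (√t * exp (θ * I))).re)
      (continuous_re.comp (c3.mul (continuous_conj.comp c2)))
      (continuous_const.mul (continuous_re.comp c1)) fun θ => by
        have h7 : ‖(√t : ℂ) * exp (θ * I)‖ = √t := norm_re s0 θ
        simp only [Function.comp, Pi.mul_apply]
        generalize (√t : ℂ) * exp (θ * I) = z at h7 ⊢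
        have hz : ‖z‖ < 1 := h7 ▸ s1
        have h8 := (h.diff.differentiableAt (isOpen_ball.mem_nhds (mem_ball_zero_iff.2 hz))).hasDerivAt
        have h9 := hC z hz
        rw [h7, Real.sq_sqrt ht.1.le] at h9
        rw [(h8.fun_mul h8).deriv, show z * (deriv f z * f z + f z * deriv f z)
          * starRingEnd ℂ (z * deriv f z) = ((2 * ‖z * deriv f z‖ ^ 2 : ℝ) : ℂ) * f z by
            push_cast
            rw [← mul_conj']
            ring, re_ofReal_mul, norm_mul, mul_pow, h7, Real.sq_sqrt ht.1.le]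
        refine mul_le_mul_of_nonneg_right ?_ (hp z hz).le
        have h10 : 0 < 1 - t := by linarith [ht.2]
        have h11 : ‖deriv f z‖ ^ 2 ≤ C ^ 2 / (1 - t) ^ 2 := by
          rw [le_div_iff₀ (by positivity), ← mul_pow, mul_comm]
          exact pow_le_pow_left₀ (by positivity) h9 2
        rw [mul_div_assoc]
        nlinarith [ht.1]
    rw [av_mul, h.mean s0 s1, a0, one_re, mul_one] at h6
    exact h5.trans_le h6
  have d1 : ∀ t ∈ Ioo (0:ℝ) 1, (deriv g t).re ≤ 2 * C ^ 2 / (1 - t) := by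
    intro t ht
    have h3 := mono_bd (euler hg).diff (b := fun t => 2 * C ^ 2 / (1 - t))
      (fun t ht => by
        have := (hasDerivAt_const t (2 * C ^ 2)).fun_div ((hasDerivAt_id t).const_sub 1)
          (show 1 - t ≠ 0 by linarith [ht.2])
        simpa using this) d2 (Ioo_subset_Ico_self ht)
    have h4 : 0 < 1 - t := by linarith [ht.2]
    simp only [re_ofReal_mul, zero_mul, zero_re, sub_zero, div_one] at h3
    refine le_of_mul_le_mul_left ?_ ht.1
    have e : t * (2 * C ^ 2 / (1 - t)) = 2 * C ^ 2 / (1 - t) - 2 * C ^ 2 := by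
      field_simp
      ring
    linarith
  have r2 : r ^ 2 < 1 := pow_lt_one₀ h0 h1 two_ne_zero
  have d0 := mono_bd hg.diff (b := fun t => -(2 * C ^ 2) * Real.log (1 - t))
    (fun t ht => by
      have := (((hasDerivAt_id t).const_sub 1).log (show 1 - t ≠ 0 by linarith [ht.2])).const_mul
        (-(2 * C ^ 2))
      refine this.congr_deriv ?_
      simp only [id]
      ring) d1 ⟨sq_nonneg r, r2⟩
  have c00 : cv a a 0 = 1 := by simp [cv, a0]
  rw [← hg.zero, c00, a0, (rep_re hg (sq_nonneg r) r2).unique (polar h2 h h0 h1)] at d0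
  have h3 := (h2.mul h).mean h0 h1
  have c1 := h.cont h0 h1
  have e : (fun θ : ℝ => (f (r * exp (θ * I))).re ^ 3) = fun θ : ℝ =>
      1 / 4 * (f (r * exp (θ * I)) * f (r * exp (θ * I)) * f (r * exp (θ * I))).re
      + 3 / 4 * (f (r * exp (θ * I)) * f (r * exp (θ * I))
        * starRingEnd ℂ (f (r * exp (θ * I)))).re := by
    funext θ
    simp
    ring
  have h4 : Real.log (1 - r ^ 2) ≤ 0 := Real.log_nonpos (by linarith) (by linarith [sq_nonneg r])
  obtain ⟨u, hu⟩ : ∃ u : ℝ → ℂ, ∀ θ : ℝ, f (r * exp (θ * I)) = u θ := ⟨_, fun _ => rfl⟩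
  simp only [hu] at e c1 h3 d0 ⊢
  rw [e, av_add (by fun_prop) (by fun_prop), av_mul, av_mul, h3]
  simp [cv, a0] at d0 ⊢
  nlinarith [mul_nonneg (sq_nonneg C) (neg_nonneg.2 h4)]

theorem upper {f : ℂ → ℂ} {a : ℕ → ℂ} (h : InC f a) :
    SN a =O[atTop] fun N : ℕ => √(Real.log N) := by
  obtain ⟨h, a0, hp, C, hC⟩ := h
  refine Asymptotics.IsBigO.of_bound (2 * (2 + 4 * C ^ 2)) ?_
  filter_upwards [eventually_ge_atTop 3] with N hN
  have N3 : (3:ℝ) ≤ N := by exact_mod_cast hN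
  have l1 : 1 ≤ Real.log N := by
    rw [Real.le_log_iff_exp_le (by linarith)]
    linarith [Real.exp_one_lt_three]
  obtain ⟨t, ht⟩ : ∃ t : ℝ, t = 1 / (2 * N) := ⟨_, rfl⟩
  have t0 : 0 < t := by rw [ht]; positivity
  have t1 : t * N = 1 / 2 := by rw [ht]; field_simp
  have t2 : t < 1 := by nlinarith
  have s0 := Real.sqrt_nonneg (1 - t)
  have s1 : √(1 - t) < 1 := (Real.sqrt_lt' one_pos).2 (by simpa using t0)
  have s2 : √(1 - t) ^ 2 = 1 - t := Real.sq_sqrt (by linarith)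
  have h1 := cube h a0 hp hC s0 s1
  have h2 := Rep.parseval h s0 s1
  have h3 := (Rep.mul h h).mean s0 s1
  have h4 := Rep.mean h s0 s1
  have c1 := Rep.cont h s0 s1
  have hz : ∀ θ : ℝ, 0 < (f (√(1 - t) * exp (θ * I))).re := fun θ => hp _ (by rwa [norm_re s0])
  rw [s2] at h1 h2
  generalize √(1 - t) = r at *
  obtain ⟨m, hm⟩ : ∃ m, m = √(Real.log N) := ⟨_, rfl⟩
  have m1 : 1 ≤ m := hm ▸ Real.one_le_sqrt.2 l1
  have m2 : m ^ 2 = Real.log N := hm ▸ Real.sq_sqrt (by linarith)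
  obtain ⟨u, hu⟩ : ∃ u : ℝ → ℂ, ∀ θ : ℝ, f (r * exp (θ * I)) = u θ := ⟨_, fun _ => rfl⟩
  simp only [hu] at h1 h2 h3 h4 c1 hz
  have h5 := av_mono (u := fun θ => ‖u θ‖ ^ 2 + (u θ * u θ).re)
    (v := fun θ => m * (u θ).re + m⁻¹ * (u θ).re ^ 3)
    (by fun_prop) (by fun_prop) fun θ => by
      have h6 := hz θ
      generalize u θ = w at h6 ⊢
      rw [Complex.sq_norm, normSq_apply, mul_re, ← sub_nonneg]
      have : m * w.re + m⁻¹ * w.re ^ 3 - (w.re * w.re + w.im * w.im + (w.re * w.re - w.im * w.im))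
          = m⁻¹ * w.re * (m - w.re) ^ 2 := by
        field_simp
        ring
      rw [this]
      positivity
  rw [av_add (by fun_prop) (by fun_prop), av_add (by fun_prop) (by fun_prop), av_mul, av_mul, h3,
    h4] at h5
  have h6 : SN a N * (1 / 2) ≤ av fun θ => ‖u θ‖ ^ 2 := by
    refine le_trans ?_ (sum_le_hasSum (Finset.Icc 1 N) (fun n _ => by
      have : 0 ≤ 1 - t := by linarith
      positivity) h2)
    rw [SN, Finset.sum_mul]
    refine Finset.sum_le_sum fun n hn => mul_le_mul_of_nonneg_left ?_ (sq_nonneg _)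
    have h7 := one_add_mul_le_pow (show -2 ≤ -t by linarith) n
    have h8 : (n:ℝ) ≤ N := by exact_mod_cast (Finset.mem_Icc.1 hn).2
    rw [← sub_eq_add_neg] at h7
    nlinarith
  have h7 : -Real.log t ≤ 2 * m ^ 2 := by
    rw [ht, one_div, Real.log_inv, neg_neg, Real.log_mul (by norm_num) (by positivity), m2]
    linarith [Real.log_le_log (show (0:ℝ) < 2 by norm_num) (show (2:ℝ) ≤ N by linarith)]
  have h8 : m⁻¹ * av (fun θ => (u θ).re ^ 3) ≤ (1 + 4 * C ^ 2) * m := by
    rw [inv_mul_le_iff₀ (by linarith)]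
    rw [sub_sub_cancel] at h1
    nlinarith [mul_le_mul_of_nonneg_left h7 (sq_nonneg C)]
  have S0 : 0 ≤ SN a N := Finset.sum_nonneg fun _ _ => sq_nonneg _
  rw [Real.norm_of_nonneg S0, Real.norm_of_nonneg (Real.sqrt_nonneg _), ← hm]
  simp [cv, a0] at h5
  linarith

end Pool.Agent.H88.Bloch
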