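import Pool.Agent.H88.Bloch1

set_option autoImplicit false
open MeasureTheory Filter Topology Metric Set Complex Polynomial

namespace Pool.Agent.H88.Bloch

open Pool.Agent.H88.PS Pool.Agent.H88.H2

noncomputable def ee (θ : ℝ) : ℂ := exp (θ * I)

theorem ee_norm (θ : ℝ) : ‖ee θ‖ = 1 := norm_exp_ofReal_mul_I θ

@[fun_prop] theorem ee_cont : Continuous ee := by
  unfold ee
  fun_prop

theorem poly_hasSum (p : ℂ[X]) (z : ℂ) : HasSum (fun n => p.coeff n * z ^ n) (p.eval z) := by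
  rw [eval_eq_sum_range]
  exact hasSum_sum_of_ne_finset_zero fun n hn => by
    rw [coeff_eq_zero_of_natDegree_lt (by simpa using hn), zero_mul]

theorem rep_poly (p : ℂ[X]) (w : ℂ) :
    Rep (fun n => p.coeff n * (2 * w) ^ n) fun z => p.eval (2 * w * z) := fun z _ => by
  simpa only [mul_pow, mul_assoc] using poly_hasSum p (2 * w * z)

theorem half (w : ℂ) (θ : ℝ) : 2 * w * (((1 / 2 : ℝ) : ℂ) * exp (θ * I)) = w * ee θ := by
  rw [ee]
  push_cast
  ring

theorem ppar (p : ℂ[X]) {w : ℂ} (hw : ‖w‖ = 1) :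
    HasSum (fun n => ‖p.coeff n‖ ^ 2) (av fun θ => ‖p.eval (w * ee θ)‖ ^ 2) := by
  have h := (rep_poly p w).parseval (r := 1 / 2) (by norm_num) (by norm_num)
  simp only [half] at h
  refine (congrArg (fun f => HasSum f _) ?_).mp h
  funext n
  rw [norm_mul, norm_pow, norm_mul, hw, mul_pow, mul_assoc, ← pow_mul, mul_comm n 2, pow_mul,
    ← mul_pow]
  norm_num

theorem ppar1 (p : ℂ[X]) : HasSum (fun n => ‖p.coeff n‖ ^ 2) (av fun θ => ‖p.eval (ee θ)‖ ^ 2) := by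
  simpa using ppar p (w := 1) norm_one

theorem pmean (p : ℂ[X]) : av (fun θ => (p.eval (ee θ)).re) = (p.coeff 0).re := by
  have h := (rep_poly p 1).mean (r := 1 / 2) (by norm_num) (by norm_num)
  simp only [half] at h
  simpa using h

theorem maxp {F : ℂ → ℂ} (hF : Differentiable ℂ F) {C : ℝ} (h : ∀ z, ‖z‖ = 1 → ‖F z‖ ≤ C) {z : ℂ}
    (hz : ‖z‖ ≤ 1) : ‖F z‖ ≤ C :=
  norm_le_of_forall_mem_frontier_norm_le (U := ball 0 1) isBounded_ball hF.diffContOnCl
    (fun w hw => h w (by simpa [frontier_ball] using hw)) (by simpa [closure_ball] using hz)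

theorem refl_eval {p : ℂ[X]} {N : ℕ} (hp : p.natDegree ≤ N) {z : ℂ} (hz : z ≠ 0) :
    (reflect N p).eval z = z ^ N * p.eval z⁻¹ := by
  let := invertibleOfNonzero (inv_ne_zero hz)
  have h := eval₂_reflect_mul_pow (RingHom.id ℂ) z⁻¹ N p hp
  rw [invOf_eq_inv, inv_inv, eval₂_id, eval₂_id] at h
  rw [← h, inv_pow]
  field_simp

theorem pout {p : ℂ[X]} {N : ℕ} (hp : p.natDegree ≤ N) {C : ℝ}
    (h : ∀ z, ‖z‖ = 1 → ‖p.eval z‖ ≤ C) {z : ℂ} {s : ℝ} (hs : 1 ≤ s) (hz : ‖z‖ ≤ s) :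
    ‖p.eval z‖ ≤ C * s ^ N := by
  have C0 : 0 ≤ C := (norm_nonneg _).trans (h 1 norm_one)
  rcases le_total ‖z‖ 1 with h1 | h1
  · exact (maxp p.differentiable h h1).trans (le_mul_of_one_le_right C0 (one_le_pow₀ hs))
  have z0 : z ≠ 0 := norm_pos_iff.1 (by linarith)
  have h2 := maxp (reflect N p).differentiable (C := C) (fun w hw => by
    rw [refl_eval hp (norm_pos_iff.1 (by linarith)), norm_mul, norm_pow, hw, one_pow, one_mul]
    exact h _ (by rw [norm_inv, hw, inv_one])) (z := z⁻¹)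
    (by rw [norm_inv]; exact inv_le_one_of_one_le₀ h1)
  rw [refl_eval hp (inv_ne_zero z0), inv_inv, norm_mul, norm_pow, norm_inv, inv_pow,
    inv_mul_le_iff₀ (by positivity), mul_comm] at h2
  exact h2.trans (by gcongr)

theorem bern {p : ℂ[X]} {N : ℕ} (hN : 0 < N) (hp : p.natDegree ≤ N) {C : ℝ}
    (h : ∀ z, ‖z‖ = 1 → ‖p.eval z‖ ≤ C) {z : ℂ} (hz : ‖z‖ ≤ 1) :
    ‖p.derivative.eval z‖ ≤ 3 * N * C := by
  have C0 : 0 ≤ C := (norm_nonneg _).trans (h 1 norm_one)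
  have N0 : (0:ℝ) < N := by exact_mod_cast hN
  have h1 := norm_deriv_le_of_forall_mem_sphere_norm_le (c := z) (R := 1 / N) (C := C * 3)
    (by positivity) p.differentiable.diffContOnCl fun w hw => by
      refine (pout hp h (s := 1 + 1 / N) (by simp) ?_).trans (mul_le_mul_of_nonneg_left ?_ C0)
      · have := norm_add_le z (w - z)
        rw [add_sub_cancel, mem_sphere_iff_norm.1 hw] at this
        linarith
      · refine (pow_le_pow_left₀ (by positivity) (add_comm (1:ℝ) _ ▸ Real.add_one_le_exp (1 / N))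
          N).trans ?_
        rw [← Real.exp_nat_mul, mul_one_div_cancel N0.ne']
        exact Real.exp_one_lt_three.le
  rw [Polynomial.deriv] at h1
  exact h1.trans (le_of_eq (by field_simp))

theorem plip {p : ℂ[X]} {C : ℝ} {s : ℝ} (h : ∀ z, ‖z‖ ≤ s → ‖p.derivative.eval z‖ ≤ C) {z w : ℂ}
    (hz : ‖z‖ ≤ s) (hw : ‖w‖ ≤ s) : ‖p.eval z - p.eval w‖ ≤ C * ‖z - w‖ :=
  (convex_closedBall (0:ℂ) s).norm_image_sub_le_of_norm_deriv_le
    (fun _ _ => p.differentiableAt) (fun x hx => by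
      rw [Polynomial.deriv]
      exact h x (mem_closedBall_zero_iff.1 hx))
    (mem_closedBall_zero_iff.2 hw) (mem_closedBall_zero_iff.2 hz)

theorem conv {p : ℂ[X]} {d : ℕ} (hp : p.natDegree ≤ d) {ψ : ℝ → ℝ} (hψ : Continuous ψ) :
    ∃ B : ℂ[X], B.natDegree ≤ 2 * d ∧ ∀ z : ℂ, ‖z‖ = 1 → B.eval z
      = z ^ d * (av fun t => ψ t * ‖p.eval (z⁻¹ * ee t)‖ ^ 2 : ℝ) := by
  refine ⟨∑ j ∈ Finset.range (d + 1), ∑ l ∈ Finset.range (d + 1),
    C (((2 * Real.pi)⁻¹ : ℝ) * ∫ t in (0:ℝ)..2 * Real.pi,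
      ψ t * (p.coeff j * ee t ^ j) * starRingEnd ℂ (p.coeff l * ee t ^ l)) * X ^ (d - j + l),
    natDegree_sum_le_of_forall_le _ _ fun j _ => natDegree_sum_le_of_forall_le _ _ fun l hl =>
      (natDegree_C_mul_X_pow_le _ _).trans (by have := Finset.mem_range.1 hl; omega),
    fun z hz => ?_⟩
  have z0 : z ≠ 0 := norm_pos_iff.1 (by linarith)
  have zc : starRingEnd ℂ z⁻¹ = z := by rw [inv_eq_conj hz, conj_conj]
  simp only [eval_finsetSum, eval_mul, eval_C, eval_pow, eval_X, av, ofReal_mul,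
    ← intervalIntegral.integral_ofReal, mul_assoc, ← intervalIntegral.integral_mul_const,
    ← Finset.mul_sum]
  rw [mul_left_comm, ← intervalIntegral.integral_const_mul]
  congr 1
  rw [Finset.sum_congr rfl fun j _ => (intervalIntegral.integral_finsetSum fun l _ =>
    Continuous.intervalIntegrable (by fun_prop) _ _).symm,
    ← intervalIntegral.integral_finsetSum fun l _ => Continuous.intervalIntegrable (by fun_prop) _ _]
  congr 1
  funext t
  rw [ofReal_pow, ← mul_conj', eval_eq_sum_range' (Nat.lt_succ_of_le hp), map_sum,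
    Finset.sum_mul_sum]
  simp only [Finset.mul_sum]
  refine Finset.sum_congr rfl fun j hj => Finset.sum_congr rfl fun l _ => ?_
  rw [pow_add, pow_sub₀ _ z0 (Nat.lt_succ_iff.1 (Finset.mem_range.1 hj)), ← inv_pow]
  simp only [map_mul, map_pow, zc, mul_pow]
  ring

theorem kernel {n : ℕ} (hn : 0 < n) : ∃ (D : ℂ[X]) (κ : ℝ), D.natDegree ≤ 2 * n ∧ 0 < κ ∧
    ∀ w : ℂ, ‖w‖ = 1 → (av fun t => ‖D.eval (w * ee t)‖ ^ 2) = κ ∧
      (av fun t => ‖1 - w * ee t‖ * ‖D.eval (w * ee t)‖ ^ 2) ≤ 3 / n * κ := by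
  obtain ⟨G, hG⟩ : ∃ G : ℂ[X], G = ∑ j ∈ Finset.range n, X ^ j := ⟨_, rfl⟩
  have n0 : (0:ℝ) < n := by exact_mod_cast hn
  have g1 : G.natDegree ≤ n - 1 := hG ▸ natDegree_sum_le_of_forall_le _ _ fun j hj =>
    (natDegree_X_pow_le _).trans (by have := Finset.mem_range.1 hj; omega)
  have g2 : (G ^ 2).natDegree < 2 * n := natDegree_pow_le.trans_lt (by omega)
  have g3 : HasSum (fun k => ‖G.coeff k‖ ^ 2) n := by
    have : HasSum (fun k => ‖G.coeff k‖ ^ 2) (∑ k ∈ Finset.range n, ‖G.coeff k‖ ^ 2) :=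
      hasSum_sum_of_ne_finset_zero fun k hk => by
        rw [coeff_eq_zero_of_natDegree_lt (by simp at hk; omega)]
        simp
    rwa [Finset.sum_congr rfl (g := fun _ => 1) fun k hk => by
      simp [hG, coeff_X_pow, hk], Finset.sum_const, Finset.card_range, nsmul_eq_mul, mul_one] at this
  have k1 : (n:ℝ) ^ 3 / 2 ≤ ∑' k, ‖(G ^ 2).coeff k‖ ^ 2 := by
    have h1 : (n:ℝ) ^ 2 ≤ ∑ k ∈ Finset.range (2 * n), ‖(G ^ 2).coeff k‖ := by
      have h2 := eval_eq_sum_range' g2 1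
      simp only [one_pow, mul_one] at h2
      refine le_trans (le_of_eq ?_) (norm_sum_le _ _)
      rw [← h2, hG]
      simp [eval_finsetSum]
    have h2 := (pow_le_pow_left₀ (by positivity) h1 2).trans sq_sum_le_card_mul_sum_sq
    have h3 := (ppar1 (G ^ 2)).summable.sum_le_tsum (Finset.range (2 * n)) fun _ _ => sq_nonneg _
    rw [Finset.card_range] at h2
    push_cast at h2
    refine le_of_mul_le_mul_left ?_ (show 0 < 2 * (n:ℝ) by positivity)
    nlinarith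
  refine ⟨G ^ 2, _, g2.le, lt_of_lt_of_le (by positivity) k1, fun w hw =>
    ⟨(ppar _ hw).tsum_eq.symm, ?_⟩⟩
  have h1 := av_mono (u := fun t => ‖1 - w * ee t‖ * ‖(G ^ 2).eval (w * ee t)‖ ^ 2)
    (v := fun t => 3 / (2 * n) * ‖(G ^ 2).eval (w * ee t)‖ ^ 2 + 2 * n / 3 * ‖G.eval (w * ee t)‖ ^ 2)
    (by fun_prop) (by fun_prop) fun t => by
      have h1 : ‖w * ee t‖ = 1 := by rw [norm_mul, hw, ee_norm, mul_one]
      generalize w * ee t = ζ at h1 ⊢
      have h2 : ‖1 - ζ‖ * ‖G.eval ζ‖ ≤ 2 := by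
        rw [← norm_mul, hG, eval_finsetSum]
        simp only [eval_pow, eval_X]
        rw [mul_neg_geom_sum]
        refine (norm_sub_le _ _).trans ?_
        rw [norm_pow, h1]
        norm_num
      rw [eval_pow, norm_pow]
      have h3 := pow_le_pow_left₀ (by positivity) h2 2
      have h4 : ‖1 - ζ‖ ≤ 3 / (2 * n) + n / 6 * ‖1 - ζ‖ ^ 2 := by
        rw [← sub_nonneg, show 3 / (2 * n) + n / 6 * ‖1 - ζ‖ ^ 2 - ‖1 - ζ‖
          = n / 6 * (‖1 - ζ‖ - 3 / n) ^ 2 by field_simp; ring]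
        positivity
      have h5 := mul_le_mul_of_nonneg_right h4 (sq_nonneg (‖G.eval ζ‖ ^ 2))
      have h6 := mul_le_mul_of_nonneg_left h3 (show 0 ≤ n / 6 * ‖G.eval ζ‖ ^ 2 by positivity)
      nlinarith
  rw [av_add (by fun_prop) (by fun_prop), av_mul, av_mul, (ppar _ hw).unique g3,
    ← (ppar _ hw).tsum_eq] at h1
  refine h1.trans ?_
  generalize ∑' k, ‖(G ^ 2).coeff k‖ ^ 2 = κ at k1 ⊢
  have h2 := mul_le_mul_of_nonneg_left k1 (show 0 ≤ 3 / (2 * (n:ℝ)) by positivity)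
  rw [show 3 / (2 * (n:ℝ)) * (n ^ 3 / 2) = 3 / 4 * n ^ 2 by field_simp; ring] at h2
  rw [show 3 / (n:ℝ) * κ = 3 / (2 * n) * κ + 3 / (2 * n) * κ by field_simp; ring]
  nlinarith

end Pool.Agent.H88.Bloch
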