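import Pool.Agent.H88.Bloch2

set_option autoImplicit false
open MeasureTheory Filter Topology Metric Set Complex Polynomial

namespace Pool.Agent.H88.Bloch

open Pool.Agent.H88.PS Pool.Agent.H88.H2

theorem bfun {f : ℂ[X]} {L : ℕ} (hL : 0 < L) (h1 : ∀ z, ‖z‖ = 1 → 0 ≤ (f.eval z).re)
    (h2 : ∀ z, ‖z‖ ≤ 1 → ‖f.derivative.eval z‖ ≤ 7 * L) :
    ∃ (B : ℂ[X]) (b : ℂ → ℝ), B.natDegree ≤ 72 * L ∧ ∀ z, ‖z‖ = 1 →
      B.eval z = z ^ (36 * L) * b z ∧ b z ≤ 1 ∧ (f.eval z).re * b z ≤ 13 / 6 ∧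
        1 / ((f.eval z).re + 13 / 6) ≤ b z := by
  obtain ⟨D, κ, d1, k0, hD⟩ := kernel (n := 18 * L) (by omega)
  have L0 : (0:ℝ) < L := by exact_mod_cast hL
  have p0 : ∀ t, 0 < 1 + (f.eval (ee t)).re := fun t => by linarith [h1 _ (ee_norm t)]
  have c0 : Continuous fun t => 1 / (1 + (f.eval (ee t)).re) :=
    continuous_const.div (by fun_prop) fun t => (p0 t).ne'
  obtain ⟨B, b1, b2⟩ := conv (d := 36 * L) (d1.trans (by omega)) c0
  refine ⟨C ((κ⁻¹ : ℝ) : ℂ) * B, fun z => κ⁻¹ * av fun t => 1 / (1 + (f.eval (ee t)).re)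
    * ‖D.eval (z⁻¹ * ee t)‖ ^ 2, (natDegree_C_mul_le _ _).trans (b1.trans (by omega)),
    fun z hz => ?_⟩
  obtain ⟨k1, k2⟩ := hD z⁻¹ (by rw [norm_inv, hz, inv_one])
  have z0 : z ≠ 0 := norm_pos_iff.1 (by linarith)
  have lip : ∀ t, |(f.eval z).re - (f.eval (ee t)).re| ≤ 7 * L * ‖1 - z⁻¹ * ee t‖ := fun t => by
    rw [← sub_re]
    refine (abs_re_le_norm _).trans ((plip h2 hz.le (ee_norm t).le).trans (le_of_eq ?_))
    rw [show z - ee t = z * (1 - z⁻¹ * ee t) by field_simp, norm_mul, hz, one_mul]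
  have u0 := h1 z hz
  have k3 : 7 * L * (av fun t => ‖1 - z⁻¹ * ee t‖ * ‖D.eval (z⁻¹ * ee t)‖ ^ 2) ≤ 7 / 6 * κ := by
    refine (mul_le_mul_of_nonneg_left k2 (by positivity)).trans (le_of_eq ?_)
    push_cast
    field_simp
    ring
  have c1 : Continuous fun t => ‖D.eval (z⁻¹ * ee t)‖ ^ 2 := by fun_prop
  have c2 : Continuous fun t => ‖1 - z⁻¹ * ee t‖ := by fun_prop
  have c3 : Continuous fun t => (f.eval (ee t)).re := by fun_prop
  have q0 : ∀ t, 0 ≤ ‖D.eval (z⁻¹ * ee t)‖ ^ 2 := fun t => sq_nonneg _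
  have v0 : ∀ t, 0 ≤ (f.eval (ee t)).re := fun t => h1 _ (ee_norm t)
  refine ⟨by rw [eval_mul, eval_C, b2 z hz]; push_cast; ring, ?_⟩
  generalize (f.eval z).re = u at lip u0 ⊢
  obtain ⟨K, hK⟩ : ∃ K : ℝ → ℝ, ∀ t, ‖D.eval (z⁻¹ * ee t)‖ ^ 2 = K t := ⟨_, fun _ => rfl⟩
  obtain ⟨m, hm⟩ : ∃ m : ℝ → ℝ, ∀ t, ‖1 - z⁻¹ * ee t‖ = m t := ⟨_, fun _ => rfl⟩
  obtain ⟨v, hv⟩ : ∃ v : ℝ → ℝ, ∀ t, (f.eval (ee t)).re = v t := ⟨_, fun _ => rfl⟩
  simp only [hK, hm, hv] at *
  refine ⟨?_, ?_, ?_⟩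
  · rw [inv_mul_le_iff₀ k0, mul_one, ← k1]
    exact av_mono (by fun_prop) c1 fun t =>
      mul_le_of_le_one_left (q0 t) ((div_le_one (p0 t)).2 (by linarith [v0 t]))
  · rw [mul_left_comm, inv_mul_le_iff₀ k0, ← av_mul]
    refine (av_mono (v := fun t => K t + 7 * L * (m t * K t)) (by fun_prop) (by fun_prop)
      fun t => ?_).trans ?_
    · rw [← mul_assoc, show K t + 7 * L * (m t * K t) = (1 + 7 * L * m t) * K t by ring]
      refine mul_le_mul_of_nonneg_right ?_ (q0 t)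
      rw [mul_one_div, div_le_iff₀ (p0 t)]
      have h3 := abs_le.1 (lip t)
      nlinarith [v0 t, mul_nonneg ((abs_nonneg _).trans (lip t)) (v0 t)]
    · rw [av_add c1 (by fun_prop), av_mul, k1]
      linarith
  · have y0 : 0 < u + 13 / 6 := by linarith
    rw [le_inv_mul_iff₀ k0]
    refine le_trans ?_ (av_mono (u := fun t => (2 / (u + 13 / 6) - (1 + u) / (u + 13 / 6) ^ 2) * K t
      + -(1 / (u + 13 / 6) ^ 2) * (7 * L * (m t * K t))) (by fun_prop) (by fun_prop) fun t => ?_)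
    · rw [av_add (by fun_prop) (by fun_prop), av_mul, av_mul, av_mul, k1]
      have h3 := mul_le_mul_of_nonneg_left k3 (show 0 ≤ 1 / (u + 13 / 6) ^ 2 by positivity)
      have e : κ * (1 / (u + 13 / 6)) = (2 / (u + 13 / 6) - (1 + u) / (u + 13 / 6) ^ 2) * κ
          - 1 / (u + 13 / 6) ^ 2 * (7 / 6 * κ) := by
        field_simp
        ring
      linarith
    · rw [show (2 / (u + 13 / 6) - (1 + u) / (u + 13 / 6) ^ 2) * K t
        + -(1 / (u + 13 / 6) ^ 2) * (7 * L * (m t * K t))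
        = (2 * (u + 13 / 6) - (1 + u + 7 * L * m t)) / (u + 13 / 6) ^ 2 * K t by field_simp; ring]
      refine mul_le_mul_of_nonneg_right ?_ (q0 t)
      rw [div_le_div_iff₀ (by positivity) (p0 t)]
      have h3 := abs_le.1 (lip t)
      nlinarith [sq_nonneg (u + 13 / 6 - (1 + v t)), mul_le_mul_of_nonneg_right h3.1 (p0 t).le]

theorem step {f : ℂ[X]} {L : ℕ} (hL : 0 < L) (h0 : f.natDegree ≤ L) (a0 : f.coeff 0 = 1)
    (h1 : ∀ z, ‖z‖ = 1 → 0 ≤ (f.eval z).re)
    (h2 : ∀ z, ‖z‖ ≤ 1 → ‖f.derivative.eval z‖ ≤ 7 * L) :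
    ∃ P : ℂ[X], X ^ (L + 1) ∣ P ∧ P.natDegree ≤ 80 * L ∧
      (∀ z, ‖z‖ = 1 → ‖P.eval z‖ ≤ 13 / 6 ∧ ‖P.eval z‖ ≤ (f.eval z).re) ∧
      1 ≤ (av fun t => ‖P.eval (ee t)‖ ^ 2) * ((av fun t => ‖f.eval (ee t)‖ ^ 2) + 10) := by
  obtain ⟨B, b, b1, hb⟩ := bfun hL h1 h2
  obtain ⟨U, u1, u2⟩ : ∃ U : ℂ[X], U.natDegree ≤ 2 * L ∧ ∀ z, ‖z‖ = 1 →
      U.eval z = z ^ L * (f.eval z).re := by
    have h3 : (f.map (starRingEnd ℂ)).natDegree ≤ L := natDegree_map_le.trans h0
    refine ⟨C (1 / 2) * (X ^ L * f + reflect L (f.map (starRingEnd ℂ))),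
      (natDegree_C_mul_le _ _).trans (natDegree_add_le_of_degree_le
        (natDegree_mul_le.trans (add_le_add (natDegree_X_pow_le _) h0 |>.trans (by omega)))
        (natDegree_reflect_le.trans (max_le (by omega) (by omega)))), fun z hz => ?_⟩
    rw [eval_mul, eval_C, eval_add, eval_mul, eval_pow, eval_X,
      refl_eval h3 (norm_pos_iff.1 (by linarith)), inv_eq_conj hz, eval_map_apply,
      re_eq_add_conj]
    ring
  have hP : ∀ z, ‖z‖ = 1 → ‖(X ^ (L + 1) * (U * B)).eval z‖ = (f.eval z).re * b z := fun z hz => by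
    have b0 : 0 ≤ b z := le_trans (by have := h1 z hz; positivity) (hb z hz).2.2.2
    rw [eval_mul, eval_mul, u2 z hz, (hb z hz).1]
    simp [hz, abs_of_nonneg (h1 z hz), abs_of_nonneg b0]
  refine ⟨X ^ (L + 1) * (U * B), dvd_mul_right _ _, natDegree_mul_le.trans
    ((add_le_add (natDegree_X_pow_le _) (natDegree_mul_le.trans (add_le_add u1 b1))).trans
    (by omega)), fun z hz => ?_, ?_⟩
  · rw [hP z hz]
    exact ⟨(hb z hz).2.2.1, mul_le_of_le_one_right (h1 z hz) (hb z hz).2.1⟩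
  generalize X ^ (L + 1) * (U * B) = P at hP ⊢
  obtain ⟨M, hM⟩ : ∃ M, M = (av fun t => ‖f.eval (ee t)‖ ^ 2) + 10 := ⟨_, rfl⟩
  have M0 : 0 < M := by
    have := (ppar1 f).nonneg fun _ => sq_nonneg _
    linarith
  have h3 := av_mono (u := fun t => (f.eval (ee t)).re)
    (v := fun t => M / 2 * ‖P.eval (ee t)‖ ^ 2 + 1 / (2 * M) * (‖f.eval (ee t)‖ ^ 2
      + (13 / 3 * (f.eval (ee t)).re + 5))) (by fun_prop) (by fun_prop) fun t => by
      have h4 := hP _ (ee_norm t)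
      have h5 := (hb _ (ee_norm t)).2.2.2
      have h6 := h1 _ (ee_norm t)
      have h7 := pow_le_pow_left₀ h6 (re_le_norm _) 2
      generalize (f.eval (ee t)).re = u at *
      rw [div_le_iff₀ (by linarith)] at h5
      have h8 : u ≤ ‖P.eval (ee t)‖ * (u + 13 / 6) := by
        rw [h4]
        nlinarith
      have h9 : ‖P.eval (ee t)‖ * (u + 13 / 6)
          ≤ M / 2 * ‖P.eval (ee t)‖ ^ 2 + 1 / (2 * M) * (u + 13 / 6) ^ 2 := by
        rw [← sub_nonneg, show M / 2 * ‖P.eval (ee t)‖ ^ 2 + 1 / (2 * M) * (u + 13 / 6) ^ 2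
          - ‖P.eval (ee t)‖ * (u + 13 / 6) = 1 / (2 * M) * (M * ‖P.eval (ee t)‖ - (u + 13 / 6)) ^ 2
          by field_simp; ring]
        positivity
      refine h8.trans (h9.trans (add_le_add le_rfl (mul_le_mul_of_nonneg_left ?_ (by positivity))))
      nlinarith
  rw [av_add (by fun_prop) (by fun_prop), av_mul, av_mul, av_add (by fun_prop) (by fun_prop),
    av_add (by fun_prop) (by fun_prop), av_mul, av_const, pmean, a0, one_re] at h3
  have h4 : 1 / (2 * M) * ((av fun t => ‖f.eval (ee t)‖ ^ 2) + (13 / 3 * 1 + 5)) ≤ 1 / 2 := by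
    rw [one_div_mul_eq_div, div_le_iff₀ (by positivity)]
    linarith
  rw [← hM]
  linarith

theorem geo {r : ℝ} (h0 : 0 ≤ r) (h1 : r ≤ 1) (a m : ℕ) :
    (1 - r) * m * r ^ (a + m) ≤ r ^ a - r ^ (a + m) := by
  induction m with
  | zero => simp
  | succ m ih =>
    have h2 : r ^ (a + (m + 1)) ≤ r ^ (a + m) := pow_le_pow_of_le_one h0 h1 (by omega)
    have h3 := mul_le_mul_of_nonneg_left h2 (show 0 ≤ (1 - r) * (m + 1) by
      have := sub_nonneg.2 h1
      positivity)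
    rw [← add_assoc, pow_succ] at *
    push_cast
    nlinarith

structure Inv (k : ℕ) (f : ℂ[X]) : Prop where
  deg : f.natDegree ≤ 80 ^ k
  zero : f.coeff 0 = 1
  pos : ∀ z, ‖z‖ = 1 → 0 ≤ (f.eval z).re
  lip : ∀ z, ‖z‖ ≤ 1 → ‖f.derivative.eval z‖ ≤ 7 * (80 ^ k : ℕ)
  blo : ∀ z, ‖z‖ ≤ 1 → (1 - ‖z‖) * ‖f.derivative.eval z‖ ≤ 1040 * (1 - ‖z‖ ^ (80 ^ k / 80))
  big : (k:ℝ) ≤ ((av fun t => ‖f.eval (ee t)‖ ^ 2) + 10) ^ 2
  bdd : ∀ n, ‖f.coeff n‖ ≤ 3

theorem Inv.next {k : ℕ} {f : ℂ[X]} (h : Inv k f) :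
    ∃ g, Inv (k + 1) g ∧ ∀ n ≤ 80 ^ k, g.coeff n = f.coeff n := by
  obtain ⟨P, p1, p2, p3, p4⟩ := step (by positivity) h.deg h.zero h.pos h.lip
  obtain ⟨L, hL⟩ : ∃ L, L = 80 ^ k := ⟨_, rfl⟩
  have L0 : 0 < L := by rw [hL]; positivity
  have e : 80 ^ (k + 1) = 80 * L := by rw [pow_succ, mul_comm, hL]
  have hd := h.deg
  have hl := h.lip
  have hb := h.blo
  rw [← hL] at p1 p2 hd hl hb ⊢
  have c1 : ∀ n ≤ L, P.coeff n = 0 := fun n hn => X_pow_dvd_iff.1 p1 n (by omega)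
  have c2 : ∀ n, L < n → f.coeff n = 0 := fun n hn => coeff_eq_zero_of_natDegree_lt (by omega)
  have d1 : ∀ z, ‖z‖ ≤ 1 → ‖P.derivative.eval z‖ ≤ 520 * L := fun z hz =>
    (bern (by omega) p2 (fun z hz => (p3 z hz).1) hz).trans (le_of_eq (by push_cast; ring))
  have d2 : ∀ z, ‖z‖ ≤ 1 → ‖P.derivative.eval z‖ ≤ 520 * L * ‖z‖ ^ L := fun z hz => by
    obtain ⟨Q, hQ⟩ := pow_sub_one_dvd_derivative_of_pow_dvd p1
    have h1 : ∀ w, ‖P.derivative.eval w‖ = ‖Q.eval w‖ * ‖w‖ ^ L := fun w => by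
      simp [hQ, mul_comm]
    rw [h1]
    exact mul_le_mul_of_nonneg_right (maxp Q.differentiable
      (fun w hw => by simpa [h1, hw] using d1 w hw.le) hz) (by positivity)
  refine ⟨f + P, ⟨natDegree_add_le_of_degree_le (by omega) (by omega), by
    rw [coeff_add, h.zero, c1 0 (by omega), add_zero], fun z hz => ?_, fun z hz => ?_,
    fun z hz => ?_, ?_, fun n => ?_⟩, fun n hn => by rw [coeff_add, c1 n hn, add_zero]⟩
  · rw [eval_add, add_re]
    linarith [(abs_le.1 ((abs_re_le_norm _).trans (p3 z hz).2)).1]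
  · rw [derivative_add, eval_add, e]
    refine (norm_add_le _ _).trans ?_
    have : (0:ℝ) ≤ L := by positivity
    push_cast
    linarith [hl z hz, d1 z hz]
  · rw [derivative_add, eval_add, e, Nat.mul_div_cancel_left _ (by norm_num)]
    have h1 := geo (norm_nonneg z) hz (L / 80) (L - L / 80)
    rw [Nat.add_sub_cancel' (Nat.div_le_self _ _)] at h1
    have h2 : (L:ℝ) ≤ 2 * (L - L / 80 : ℕ) := by exact_mod_cast (by omega)
    have h3 := sub_nonneg.2 hz
    have h4 := mul_le_mul_of_nonneg_left ((norm_add_le _ _).trans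
      (add_le_add (le_refl ‖f.derivative.eval z‖) (d2 z hz))) h3
    have h5 := mul_le_mul_of_nonneg_left h2 (mul_nonneg h3 (pow_nonneg (norm_nonneg z) L))
    nlinarith [hb z hz]
  · have h1 := (ppar1 f).add (ppar1 P)
    have h2 : (fun n => ‖f.coeff n‖ ^ 2 + ‖P.coeff n‖ ^ 2) = fun n => ‖(f + P).coeff n‖ ^ 2 := by
      funext n
      rcases le_or_gt n L with h3 | h3
      · simp [c1 n h3]
      · simp [c2 n h3]
    rw [h2] at h1
    rw [(ppar1 (f + P)).unique h1]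
    have h3 := h.big
    push_cast
    nlinarith [sq_nonneg (av fun t => ‖P.eval (ee t)‖ ^ 2)]
  · rcases le_or_gt n L with h3 | h3
    · rw [coeff_add, c1 n h3, add_zero]
      exact h.bdd n
    · rw [coeff_add, c2 n h3, zero_add]
      have h1 := le_hasSum (ppar1 P) n fun _ _ => sq_nonneg _
      have h2 := av_mono (u := fun t => ‖P.eval (ee t)‖ ^ 2) (v := fun _ => (13 / 6) ^ 2)
        (by fun_prop) continuous_const fun t =>
          pow_le_pow_left₀ (norm_nonneg _) (p3 _ (ee_norm t)).1 2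
      rw [av_const] at h2
      nlinarith [norm_nonneg (P.coeff n)]

theorem inv0 : Inv 0 1 :=
  ⟨by simp, by simp, by simp, by simp, by simp, by simp only [Nat.cast_zero]; positivity, fun n => by
    rw [coeff_one]
    split_ifs <;> simp⟩

theorem lower : ∃ (f : ℂ → ℂ) (a : ℕ → ℂ), InC f a ∧ ∀ k : ℕ, √k - 11 ≤ SN a (80 ^ k) := by
  choose F h1 h2 using fun (k : ℕ) (f : {f // Inv k f}) => f.2.next
  obtain ⟨f, hf, hs⟩ : ∃ f : ℕ → ℂ[X], (∀ k, Inv k (f k)) ∧
      ∀ k, ∀ n ≤ 80 ^ k, (f (k + 1)).coeff n = (f k).coeff n := by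
    let g : ∀ k, {f // Inv k f} := fun k => Nat.rec ⟨1, inv0⟩ (fun k p => ⟨F k p, h1 k p⟩) k
    exact ⟨fun k => (g k).1, fun k => (g k).2, fun k => h2 k (g k)⟩
  have stab : ∀ k n, n ≤ 80 ^ k → ∀ j, k ≤ j → (f j).coeff n = (f k).coeff n := by
    intro k n hn j hj
    induction j, hj using Nat.le_induction with
    | base => rfl
    | succ j hj ih => rw [hs j n (hn.trans (Nat.pow_le_pow_right (by norm_num) hj)), ih]
  have big : ∀ n, n ≤ 80 ^ n := fun n => (Nat.lt_pow_self (by norm_num)).le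
  have lim : ∀ k n, n ≤ 80 ^ k → (f n).coeff n = (f k).coeff n := fun k n hn => by
    rw [← stab n n (big n) (max k n) (le_max_right _ _), stab k n hn _ (le_max_left _ _)]
  have hr : Rep (fun n => (f n).coeff n) (ps fun n => (f n).coeff n) :=
    rep_bdd fun n => (hf n).bdd n
  have cv : ∀ z : ℂ, ‖z‖ < 1 →
      Tendsto (fun k => (f k).eval z) atTop (𝓝 (ps (fun n => (f n).coeff n) z)) := fun z hz => by
    simp only [← (poly_hasSum _ z).tsum_eq]
    refine tendsto_tsum_of_dominated_convergence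
      ((summable_geometric_of_lt_one (norm_nonneg z) hz).mul_left 3) (fun n => ?_)
      (Eventually.of_forall fun k n => ?_)
    · refine tendsto_const_nhds.congr' ?_
      filter_upwards [eventually_ge_atTop n] with k hk
      rw [stab n n (big n) k hk]
    · rw [norm_mul, norm_pow]
      exact mul_le_mul_of_nonneg_right ((hf k).bdd n) (by positivity)
  generalize ps (fun n => (f n).coeff n) = g at hr cv
  have g0 : g 0 = 1 := by rw [← hr.zero, (hf 0).zero]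
  have pos : ∀ z : ℂ, ‖z‖ < 1 → 0 ≤ (g z).re := fun z hz =>
    ge_of_tendsto' ((continuous_re.tendsto _).comp (cv z hz)) fun k => by
      have := maxp (F := fun z => exp (-(f k).eval z)) (f k).differentiable.neg.cexp (C := 1)
        (fun w hw => by simpa [norm_exp] using (hf k).pos w hw) hz.le
      simpa [norm_exp] using this
  refine ⟨g, _, ⟨hr, (hf 0).zero, fun z hz => (pos z hz).lt_of_ne fun h => ?_, 4160,
    fun z hz => ?_⟩, fun k => ?_⟩
  · have h3 := norm_eqOn_of_isPreconnected_of_isMaxOn (f := fun z => exp (-g z))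
      (convex_ball (0:ℂ) 1).isPreconnected isOpen_ball hr.diff.neg.cexp (mem_ball_zero_iff.2 hz)
      (fun w hw => by simpa [norm_exp, ← h] using pos w (mem_ball_zero_iff.1 hw))
      (mem_ball_self one_pos)
    simp [norm_exp, ← h, g0] at h3
  · have h3 : 0 < 1 - ‖z‖ := by linarith
    have h4 : ‖deriv g z‖ ≤ 2080 / (1 - ‖z‖) := by
      refine norm_deriv_le_of_lip' (by positivity) ?_
      filter_upwards [isOpen_ball.mem_nhds (show z ∈ ball (0:ℂ) ((1 + ‖z‖) / 2) by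
        rw [mem_ball_zero_iff]; linarith)] with w hw
      rw [mem_ball_zero_iff] at hw
      refine le_of_tendsto' ((cv w (by linarith)).sub (cv z hz)).norm fun k =>
        plip (s := (1 + ‖z‖) / 2) (fun y hy => ?_) hw.le (by linarith)
      have h5 := (hf k).blo y (by linarith)
      have h6 : 0 ≤ ‖y‖ ^ (80 ^ k / 80) := by positivity
      rw [le_div_iff₀ h3]
      nlinarith [norm_nonneg ((f k).derivative.eval y)]
    rw [le_div_iff₀ h3] at h4
    nlinarith [norm_nonneg (deriv g z), norm_nonneg z, mul_nonneg (norm_nonneg (deriv g z)) h3.le]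
  · have h3 : HasSum (fun n => ‖(f k).coeff n‖ ^ 2)
        (∑ n ∈ Finset.range (80 ^ k + 1), ‖(f k).coeff n‖ ^ 2) :=
      hasSum_sum_of_ne_finset_zero fun n hn => by
        rw [coeff_eq_zero_of_natDegree_lt ((hf k).deg.trans_lt (by simpa using hn))]
        simp
    have h4 := (hf k).big
    rw [(ppar1 _).unique h3, Finset.range_eq_Ico, Finset.sum_eq_sum_Ico_succ_bot (by positivity),
      (hf k).zero] at h4
    have h5 : SN (fun n => (f n).coeff n) (80 ^ k)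
        = ∑ n ∈ Finset.Ico (0 + 1) (80 ^ k + 1), ‖(f k).coeff n‖ ^ 2 :=
      Finset.sum_congr rfl fun n hn => by
        beta_reduce
        rw [lim k n (by simp at hn; omega)]
    rw [← h5] at h4
    have h6 : 0 ≤ SN (fun n => (f n).coeff n) (80 ^ k) := Finset.sum_nonneg fun _ _ => sq_nonneg _
    have h7 := Real.sqrt_le_sqrt h4
    rw [Real.sqrt_sq (by positivity), norm_one] at h7
    linarith

theorem sharp : ∃ (f : ℂ → ℂ) (a : ℕ → ℂ), InC f a ∧
    (fun N : ℕ => √(Real.log N)) =O[atTop] SN a := by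
  obtain ⟨f, a, h1, h2⟩ := lower
  refine ⟨f, a, h1, Asymptotics.IsBigO.of_bound 26 ?_⟩
  filter_upwards [eventually_ge_atTop (80 ^ 484)] with N hN
  have N0 : N ≠ 0 := (lt_of_lt_of_le (by positivity) hN).ne'
  have k1 : 484 ≤ Nat.log 80 N := (Nat.le_log_iff_pow_le (by norm_num) N0).2 hN
  have k2 := Nat.pow_log_le_self 80 N0
  have k3 := Nat.lt_pow_succ_log_self (show 1 < 80 by norm_num) N
  generalize Nat.log 80 N = k at k1 k2 k3
  have k4 : (484:ℝ) ≤ k := by exact_mod_cast k1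
  have h3 : SN a (80 ^ k) ≤ SN a N := Finset.sum_le_sum_of_subset_of_nonneg
    (Finset.Icc_subset_Icc_right k2) fun _ _ _ => sq_nonneg _
  have h4 : 22 ≤ √(k:ℝ) := Real.le_sqrt_of_sq_le (by linarith)
  have h5 : Real.log N ≤ (k + 1) * 80 := by
    refine (Real.log_le_log (by positivity) (show (N:ℝ) ≤ 80 ^ (k + 1) by
      exact_mod_cast k3.le)).trans ?_
    rw [Real.log_pow]
    push_cast
    exact mul_le_mul_of_nonneg_left (Real.log_le_self (by norm_num)) (by positivity)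
  have h6 : √(Real.log N) ≤ 13 * √(k:ℝ) := Real.sqrt_le_iff.2 ⟨by positivity, by
    rw [mul_pow, Real.sq_sqrt (by positivity)]
    linarith⟩
  have h7 := h2 k
  rw [Real.norm_of_nonneg (Real.sqrt_nonneg _), Real.norm_of_nonneg (by linarith)]
  linarith

end Pool.Agent.H88.Bloch
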