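import Mathlib

namespace Pool.Agent.H88.Cert

open scoped ComplexConjugate ComplexOrder

/-- A kernel: a positive semidefinite function on `X × X`. -/
def IsKer {X : Type} (K : X → X → ℂ) : Prop :=
  ∀ (n : ℕ) (x : Fin n → X) (c : Fin n → ℂ), 0 ≤ ∑ i, ∑ j, c i * conj (c j) * K (x i) (x j)

/-- A complete Pick kernel. -/
def IsCP {X : Type} (s : X → X → ℂ) : Prop :=
  IsKer s ∧ (∀ z w, s z w ≠ 0) ∧ ∃ (δ : X → ℂ) (F : X → X → ℂ), (∀ z, δ z ≠ 0) ∧ IsKer F ∧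
    (∀ z, (F z z).re < 1) ∧ ∀ z w, s z w = δ z * conj (δ w) / (1 - F z w)

/-- `s` is a certificate for `k`. -/
def IsCert {X : Type} (k s : X → X → ℂ) : Prop :=
  IsCP s ∧ ∃ h : X → X → ℂ, IsKer h ∧ ∀ z w, k z w = (1 - h z w) * s z w

/-- `s` is a minimum certificate for `k`. -/
def IsMinCert {X : Type} (k s : X → X → ℂ) : Prop :=
  IsCert k s ∧ ∀ t : X → X → ℂ, IsCert k t → IsKer fun z w => t z w / s z w

/-- The disc of radius `1/√2`. -/
abbrev XD : Type := {z : ℂ // ‖z‖ < 1 / √2}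

/-- The Bergman kernel `(1 - z w̄)^(-2)` on `XD`. -/
noncomputable def berg (z w : XD) : ℂ := ((1 - z.1 * conj w.1) ^ 2)⁻¹

/-- The kernel `(1 - 2 z w̄)^(-1)` on `XD`. -/
noncomputable def sz (z w : XD) : ℂ := (1 - 2 * z.1 * conj w.1)⁻¹

end Pool.Agent.H88.Cert
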