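import Mathlib
import Pool.Agent.H88.CertDefs

/-! Kernels: Schur products, feature maps, lurking contractions, a vector Parseval bound. -/

namespace Pool.Agent.H88.Cert

open scoped ComplexConjugate ComplexOrder InnerProductSpace
open Complex MeasureTheory Filter Topology

variable {X : Type}

lemma IsKer.herm {K : X → X → ℂ} (h : IsKer K) (x y : X) : K y x = conj (K x y) := by
  have h0 := (Complex.le_def.1 (h 1 ![x] ![1])).2
  have h1 := (Complex.le_def.1 (h 1 ![y] ![1])).2
  have h2 := (Complex.le_def.1 (h 2 ![x, y] ![1, 1])).2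
  have h3 := (Complex.le_def.1 (h 2 ![x, y] ![1, I])).2
  simp [Fin.sum_univ_two] at h0 h1 h2 h3
  apply Complex.ext
  · simp; linarith
  · simp; linarith

lemma IsKer.psd {K : X → X → ℂ} (h : IsKer K) {n : ℕ} (x : Fin n → X) :
    (Matrix.of fun i j => K (x i) (x j)).PosSemidef := by
  rw [Matrix.posSemidef_iff_dotProduct_mulVec]
  refine ⟨?_, fun v => ?_⟩
  · ext i j
    simp [Matrix.conjTranspose_apply, h.herm (x j) (x i)]
  · refine (h n x fun i => conj (v i)).trans_eq ?_
    simp only [dotProduct, Matrix.mulVec, Finset.mul_sum, Matrix.of_apply, Pi.star_apply,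
      conj_conj, RCLike.star_def]
    exact Finset.sum_congr rfl fun i _ => Finset.sum_congr rfl fun j _ => by ring

lemma IsKer.mul {K K' : X → X → ℂ} (h : IsKer K) (h' : IsKer K') :
    IsKer fun z w => K z w * K' z w := by
  intro n x c
  refine (((h.psd x).hadamard (h'.psd x)).dotProduct_mulVec_nonneg
    (fun i => conj (c i))).trans_eq ?_
  simp only [dotProduct, Matrix.mulVec, Finset.mul_sum, Matrix.of_apply, Pi.star_apply,
    conj_conj, RCLike.star_def, Matrix.hadamard_apply]
  exact Finset.sum_congr rfl fun i _ => Finset.sum_congr rfl fun j _ => by ring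

lemma IsKer.add {K K' : X → X → ℂ} (h : IsKer K) (h' : IsKer K') :
    IsKer fun z w => K z w + K' z w := by
  intro n x c
  simp only [mul_add, Finset.sum_add_distrib]
  exact add_nonneg (h n x c) (h' n x c)

lemma isKer_dyad (a : X → ℂ) : IsKer fun z w => a z * conj (a w) := by
  intro n x c
  have : ∑ i, ∑ j, c i * conj (c j) * (a (x i) * conj (a (x j))) =
      (∑ i, c i * a (x i)) * conj (∑ i, c i * a (x i)) := by
    rw [map_sum, Finset.sum_mul_sum]
    exact Finset.sum_congr rfl fun i _ => Finset.sum_congr rfl fun j _ => by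
      rw [map_mul]; ring
  rw [this, mul_conj]
  exact_mod_cast normSq_nonneg _

lemma isKer_hasSum {K : X → X → ℂ} {T : ℕ → X → X → ℂ} (h : ∀ n, IsKer (T n))
    (hs : ∀ z w, HasSum (fun n => T n z w) (K z w)) : IsKer K := by
  intro n x c
  exact HasSum.nonneg (fun k => h k n x c)
    (hasSum_sum fun i _ => hasSum_sum fun j _ => (hs (x i) (x j)).mul_left _)

lemma IsKer.finset {K : X → X → ℂ} (h : IsKer K) (s : Finset X) (c : X → ℂ) :
    0 ≤ ∑ x ∈ s, ∑ y ∈ s, c x * conj (c y) * K x y := by
  refine (h s.card (fun i => s.equivFin.symm i) fun i => c (s.equivFin.symm i)).trans_eq ?_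
  rw [← Finset.sum_coe_sort s, ← s.equivFin.symm.sum_comp]
  refine Finset.sum_congr rfl fun i _ => ?_
  rw [← Finset.sum_coe_sort s, ← s.equivFin.symm.sum_comp]

theorem feat {F : X → X → ℂ} (h : IsKer F) :
    ∃ (E : Type) (_ : NormedAddCommGroup E) (_ : InnerProductSpace ℂ E) (_ : CompleteSpace E)
      (u : X → E), ∀ z w, F z w = ⟪u w, u z⟫_ℂ := by
  let core : PreInnerProductSpace.Core ℂ (X →₀ ℂ) :=
    { inner := fun f g => f.sum fun y a => g.sum fun x b => conj a * b * F x y
      conj_inner_symm := fun f g => by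
        rw [Finsupp.sum_comm]
        simp only [map_finsuppSum]
        congr! 6
        rw [map_mul, map_mul, conj_conj, ← h.herm]; ring
      re_inner_nonneg := fun f => by
        have := (Complex.le_def.1 (h.finset f.support f)).1
        rw [Finset.sum_comm] at this
        refine this.trans_eq ?_
        simp only [Finsupp.sum, RCLike.re_to_complex]
        congr 1
        exact Finset.sum_congr rfl fun i _ => Finset.sum_congr rfl fun j _ => by ring
      add_left := fun _ _ _ => by
        rw [Finsupp.sum_add_index'] <;> simp [← Finsupp.sum_add, add_mul]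
      smul_left := fun _ _ _ => by
        rw [Finsupp.sum_smul_index] <;> simp [Finsupp.mul_sum, ← mul_assoc] }
  let : SeminormedAddCommGroup (X →₀ ℂ) :=
    InnerProductSpace.Core.toSeminormedAddCommGroup (𝕜 := ℂ)
  let : InnerProductSpace ℂ (X →₀ ℂ) := .ofCore _
  refine ⟨UniformSpace.Completion (X →₀ ℂ), inferInstance, inferInstance, inferInstance,
    fun x => ((Finsupp.single x 1 : X →₀ ℂ) : UniformSpace.Completion (X →₀ ℂ)), fun z w => ?_⟩
  rw [UniformSpace.Completion.inner_coe]
  show _ = (Finsupp.single w (1 : ℂ)).sum fun y a => (Finsupp.single z (1 : ℂ)).sum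
    fun x b => conj a * b * F x y
  simp

variable {H K : Type*} [NormedAddCommGroup H] [InnerProductSpace ℂ H] [NormedAddCommGroup K]
  [InnerProductSpace ℂ K]

theorem lurk [CompleteSpace H] [CompleteSpace K] {A : Type*} [AddCommGroup A] [Module ℂ A]
    (L : A →ₗ[ℂ] H) (R : A →ₗ[ℂ] K) (h : ∀ a, ‖R a‖ ≤ ‖L a‖) :
    ∃ V : H →L[ℂ] K, (∀ x, ‖V x‖ ≤ ‖x‖) ∧ ∀ a, V (L a) = R a := by
  let M := (LinearMap.range L).topologicalClosure
  have hm : ∀ a, L a ∈ M := fun a => Submodule.le_topologicalClosure _ ⟨a, rfl⟩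
  let e : A →ₗ[ℂ] M := L.codRestrict M hm
  have hd : DenseRange e := by
    intro x
    rw [closure_subtype, ← Set.range_comp]
    exact x.2
  have hn : ∀ a, ‖R a‖ ≤ 1 * ‖e a‖ := fun a => by rw [one_mul]; exact h a
  refine ⟨(R.extendOfNorm e).comp M.orthogonalProjectionOnto, fun x => ?_, fun a => ?_⟩
  · have := LinearMap.norm_extendOfNorm_apply_le hd 1 hn (M.orthogonalProjectionOnto x)
    rw [one_mul] at this
    exact this.trans (M.norm_orthogonalProjectionOnto_apply_le x)
  · rw [ContinuousLinearMap.comp_apply,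
      show L a = ((e a : M) : H) from rfl, Submodule.orthogonalProjectionOnto_mem_subspace_eq_self]
    exact LinearMap.extendOfNorm_eq hd ⟨1, hn⟩ a

lemma norm_comb {ι : Type*} (s : Finset ι) (c : ι → ℂ) (Φ : ι → H) :
    ((‖∑ x ∈ s, c x • Φ x‖ ^ 2 : ℝ) : ℂ) =
      ∑ x ∈ s, ∑ y ∈ s, c x * conj (c y) * ⟪Φ y, Φ x⟫_ℂ := by
  rw [ofReal_pow, show ((‖∑ x ∈ s, c x • Φ x‖ : ℝ) : ℂ) ^ 2 =
    ⟪∑ x ∈ s, c x • Φ x, ∑ x ∈ s, c x • Φ x⟫_ℂ from
    (inner_self_eq_norm_sq_to_K (𝕜 := ℂ) (∑ x ∈ s, c x • Φ x)).symm,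
    inner_sum]
  refine Finset.sum_congr rfl fun x _ => ?_
  rw [sum_inner]
  refine Finset.sum_congr rfl fun y _ => ?_
  rw [inner_smul_left, inner_smul_right]; ring

lemma norm_four (k : ℤ) (t : UnitAddCircle) : ‖fourier k t‖ = 1 := by
  rw [fourier_apply]; exact Circle.norm_coe _

lemma pars_fin (a : ℕ → H) (N : ℕ) :
    ∫ t : UnitAddCircle, ‖∑ n ∈ Finset.range N, fourier (n : ℤ) t • a n‖ ^ 2
      ∂AddCircle.haarAddCircle = ∑ n ∈ Finset.range N, ‖a n‖ ^ 2 := by
  apply ofReal_injective
  rw [← integral_complex_ofReal]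
  have hi : ∀ m n : ℕ, Integrable (fun t : UnitAddCircle =>
      fourier (m : ℤ) t * conj (fourier (n : ℤ) t) * ⟪a n, a m⟫_ℂ) AddCircle.haarAddCircle :=
    fun m n => Continuous.integrable_of_hasCompactSupport (by fun_prop)
      (HasCompactSupport.of_compactSpace _)
  have e : ∀ t : UnitAddCircle,
      ((‖∑ n ∈ Finset.range N, fourier (n : ℤ) t • a n‖ ^ 2 : ℝ) : ℂ) = _ :=
    fun t => norm_comb (Finset.range N) (fun n => fourier (n : ℤ) t) a
  rw [integral_congr_ae (Eventually.of_forall e),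
    integral_finsetSum _ fun m _ => integrable_finsetSum _ fun n _ => hi m n, ofReal_sum]
  refine Finset.sum_congr rfl fun m hm => ?_
  rw [integral_finsetSum _ fun n _ => hi m n, Finset.sum_eq_single m]
  · simp only [mul_conj', norm_four]
    simp
  · intro n _ hn
    have := congrFun (fourierCoeff_fourier (T := 1) (m : ℤ)) n
    rw [Pi.single_eq_of_ne (by exact_mod_cast hn), fourierCoeff] at this
    rw [integral_mul_const]
    simp only [fourier_neg, smul_eq_mul] at this
    simp only [mul_comm (fourier (m : ℤ) _), this, zero_mul]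
  · exact fun h => absurd hm h

lemma pars [CompleteSpace H] {a : ℕ → H} (ha : Summable fun n => ‖a n‖) {B : ℝ}
    (hB : ∀ N, ∑ n ∈ Finset.range N, ‖a n‖ ^ 2 ≤ B) :
    Integrable (fun t : UnitAddCircle => ‖∑' n : ℕ, fourier (n : ℤ) t • a n‖ ^ 2)
      AddCircle.haarAddCircle ∧
    ∫ t : UnitAddCircle, ‖∑' n : ℕ, fourier (n : ℤ) t • a n‖ ^ 2 ∂AddCircle.haarAddCircle ≤ B := by
  have hn : ∀ (n : ℕ) (t : UnitAddCircle), ‖fourier (n : ℤ) t • a n‖ = ‖a n‖ := fun n t => by
    rw [norm_smul, norm_four, one_mul]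
  have hc : Continuous fun t : UnitAddCircle => ∑' n : ℕ, fourier (n : ℤ) t • a n :=
    continuous_tsum (fun n => by fun_prop) ha fun n t => (hn n t).le
  refine ⟨Continuous.integrable_of_hasCompactSupport (by fun_prop)
    (HasCompactSupport.of_compactSpace _), ?_⟩
  have := tendsto_integral_of_dominated_convergence (μ := AddCircle.haarAddCircle)
    (F := fun N (t : UnitAddCircle) => ‖∑ n ∈ Finset.range N, fourier (n : ℤ) t • a n‖ ^ 2)
    (f := fun t => ‖∑' n : ℕ, fourier (n : ℤ) t • a n‖ ^ 2)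
    (fun _ => (∑' n, ‖a n‖) ^ 2) (fun N => Continuous.aestronglyMeasurable (by fun_prop))
    (integrable_const _) (fun N => Eventually.of_forall fun t => by
      rw [Real.norm_of_nonneg (by positivity)]
      refine pow_le_pow_left₀ (norm_nonneg _) ((norm_sum_le _ _).trans ?_) 2
      simp only [hn]
      exact ha.sum_le_tsum _ fun _ _ => norm_nonneg _)
    (Eventually.of_forall fun t => ((Summable.of_norm (by simpa only [hn] using ha)
      ).hasSum.tendsto_sum_nat.norm).pow 2)
  simp only [pars_fin] at this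
  exact le_of_tendsto' this hB

end Pool.Agent.H88.Cert
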