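import Mathlib
import Pool.Agent.H88.Cert1

/-! The kernel `(1 - 2 z w̄)⁻¹` is the minimum certificate of the Bergman kernel on `XD`. -/

namespace Pool.Agent.H88.Cert

open scoped ComplexConjugate ComplexOrder InnerProductSpace
open Complex MeasureTheory Filter Topology

noncomputable def wt (z : ℂ) (n : ℕ) : ℂ := (√(n + 1) : ℝ) * z ^ n

lemma wt_mul (z w : ℂ) (n : ℕ) : wt z n * conj (wt w n) = (n + 1) * (z * conj w) ^ n := by
  have : ((√(n + 1) : ℝ) : ℂ) * (√(n + 1) : ℝ) = n + 1 := by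
    rw [← ofReal_mul, Real.mul_self_sqrt (by positivity)]; simp
  simp only [wt, map_mul, conj_ofReal, map_pow, mul_pow]
  linear_combination (z ^ n * conj w ^ n) * this

lemma wt_sq (z : ℂ) (n : ℕ) : ‖wt z n‖ ^ 2 = (n + 1) * (‖z‖ ^ 2) ^ n := by
  rw [wt, norm_mul, norm_real, Real.norm_of_nonneg (Real.sqrt_nonneg _), mul_pow,
    Real.sq_sqrt (by positivity), norm_pow, ← pow_mul, ← pow_mul, mul_comm n 2]

lemma hasSum_b {𝕜 : Type*} [RCLike 𝕜] {x : 𝕜} (hx : ‖x‖ < 1) :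
    HasSum (fun n : ℕ => ((n : 𝕜) + 1) * x ^ n) ((1 - x) ^ 2)⁻¹ := by
  simpa using hasSum_choose_mul_geometric_of_norm_lt_one 1 hx

lemma XD_sq (z : XD) : ‖z.1‖ ^ 2 < 1 / 2 := by
  have := pow_lt_pow_left₀ z.2 (norm_nonneg _) two_ne_zero
  rwa [div_pow, Real.sq_sqrt zero_le_two, one_pow] at this

lemma XD_mul (z w : XD) : ‖z.1 * conj w.1‖ < 1 / 2 := by
  rw [norm_mul, RCLike.norm_conj]
  nlinarith [XD_sq z, XD_sq w, sq_nonneg (‖z.1‖ - ‖w.1‖)]

variable {E : Type*} [NormedAddCommGroup E] [InnerProductSpace ℂ E]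

noncomputable def Psi (v : E) (z : XD) : lp (fun _ : ℕ => E) 2 :=
  ⟨fun n => wt z n • v, memℓp_gen (by
    have := (hasSum_b (x := ‖z.1‖ ^ 2) (by
      rw [Real.norm_of_nonneg (sq_nonneg _)]; linarith [XD_sq z])).summable.mul_right (‖v‖ ^ 2)
    refine this.congr fun n => ?_
    rw [ENNReal.toReal_ofNat, Real.rpow_two, norm_smul, mul_pow, wt_sq])⟩

lemma Psi_apply (v : E) (z : XD) (n : ℕ) : Psi v z n = wt z n • v := rfl

lemma inner_Psi (u v : E) (z w : XD) : ⟪Psi v w, Psi u z⟫_ℂ = ⟪v, u⟫_ℂ * berg z w := by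
  refine (lp.hasSum_inner (Psi v w) (Psi u z)).unique ?_
  have := (hasSum_b (x := z.1 * conj w.1) (by linarith [XD_mul z w])).mul_left ⟪v, u⟫_ℂ
  have e : (fun n => ⟪Psi v w n, Psi u z n⟫_ℂ) =
      fun n : ℕ => ⟪v, u⟫_ℂ * (((n : ℂ) + 1) * (z.1 * conj w.1) ^ n) := by
    funext n
    rw [Psi_apply, Psi_apply, inner_smul_left, inner_smul_right, ← wt_mul]; ring
  rw [e]
  exact this

lemma exists_pq (a b : ℂ) : ∃ p q : ℂ, ‖p‖ ^ 2 + ‖q‖ ^ 2 = 1 ∧ p * a + q * b = 0 := by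
  by_cases h : ‖a‖ ^ 2 + ‖b‖ ^ 2 = 0
  · have ha : a = 0 := by
      rw [← norm_eq_zero, ← sq_eq_zero_iff]; nlinarith [sq_nonneg ‖a‖, sq_nonneg ‖b‖]
    exact ⟨1, 0, by simp, by simp [ha]⟩
  · have hp : 0 < ‖a‖ ^ 2 + ‖b‖ ^ 2 := lt_of_le_of_ne (by positivity) (Ne.symm h)
    refine ⟨b / (√(‖a‖ ^ 2 + ‖b‖ ^ 2) : ℝ), -a / (√(‖a‖ ^ 2 + ‖b‖ ^ 2) : ℝ), ?_, by ring⟩
    rw [norm_div, norm_div, norm_neg, norm_real, Real.norm_of_nonneg (Real.sqrt_nonneg _),
      div_pow, div_pow, Real.sq_sqrt hp.le]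
    field_simp
    ring

def z0 : XD := ⟨0, by simp⟩

theorem extract [CompleteSpace E] {δ : XD → ℂ} (hδ : ∀ z, δ z ≠ 0) {u : XD → E}
    {h : XD → XD → ℂ} (hh : IsKer h)
    (he : ∀ z w, (1 - ⟪u w, u z⟫_ℂ) * berg z w = (1 - h z w) * (δ z * conj (δ w))) :
    ∃ (p q : ℂ) (y : lp (fun _ : ℕ => E) 2), ‖p‖ ^ 2 + ‖q‖ ^ 2 = 1 ∧ ‖y‖ ≤ 1 ∧
      ∀ z : XD, p + q * ((√2 : ℝ) * z.1) = ⟪y, Psi (u z) z⟫_ℂ := by
  let A := LinearMap.ker (Finsupp.linearCombination ℂ δ)
  let Φ : XD → lp (fun _ : ℕ => E) 2 := fun z => Psi (u z) z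
  let β : XD → lp (fun _ : ℕ => ℂ) 2 := fun z => Psi 1 z
  obtain ⟨V, hV1, hV2⟩ := lurk ((Finsupp.linearCombination ℂ Φ) ∘ₗ A.subtype)
    ((Finsupp.linearCombination ℂ β) ∘ₗ A.subtype) (fun a => by
      have ha : ∑ x ∈ a.1.support, a.1 x * δ x = 0 := a.2
      have h1 := norm_comb a.1.support a.1 Φ
      have h2 := norm_comb a.1.support a.1 β
      have h3 := hh.finset a.1.support fun x => a.1 x * δ x
      have h4 : ∑ x ∈ a.1.support, ∑ y ∈ a.1.support, a.1 x * δ x * conj (a.1 y * δ y) = 0 := by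
        rw [← Finset.sum_mul_sum, ha, zero_mul]
      have h5 : ((‖∑ x ∈ a.1.support, a.1 x • Φ x‖ ^ 2 - ‖∑ x ∈ a.1.support, a.1 x • β x‖ ^ 2 : ℝ)
          : ℂ) = ∑ x ∈ a.1.support, ∑ y ∈ a.1.support,
            a.1 x * δ x * conj (a.1 y * δ y) * h x y := by
        rw [ofReal_sub, h1, h2, ← sub_zero (∑ x ∈ a.1.support, ∑ y ∈ a.1.support,
          a.1 x * δ x * conj (a.1 y * δ y) * h x y), ← h4]
        simp only [← Finset.sum_sub_distrib]
        refine Finset.sum_congr rfl fun x _ => Finset.sum_congr rfl fun y _ => ?_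
        simp only [Φ, β, inner_Psi, map_mul, RCLike.inner_apply, map_one, mul_one]
        linear_combination (-(a.1 x * conj (a.1 y))) * he x y
      rw [← h5, zero_le_real, sub_nonneg] at h3
      exact (pow_le_pow_iff_left₀ (norm_nonneg _) (norm_nonneg _) two_ne_zero).1 h3)
  set γ := (δ z0)⁻¹ • (β z0 - V (Φ z0)) with hγ
  have hβ : ∀ x, β x = V (Φ x) + δ x • γ := by
    intro x
    have hm : Finsupp.single x 1 - Finsupp.single z0 (δ x * (δ z0)⁻¹) ∈ A := by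
      rw [LinearMap.mem_ker, map_sub, Finsupp.linearCombination_single,
        Finsupp.linearCombination_single, smul_eq_mul, smul_eq_mul, mul_assoc,
        inv_mul_cancel₀ (hδ z0), one_mul, mul_one, sub_self]
    have := hV2 ⟨_, hm⟩
    simp only [LinearMap.comp_apply, Submodule.subtype_apply, map_sub,
      Finsupp.linearCombination_single, one_smul, map_smul] at this
    rw [hγ, smul_smul, smul_sub, ← sub_eq_zero]
    rw [← sub_eq_zero] at this
    rw [← neg_eq_zero, ← this]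
    abel
  obtain ⟨p, q, hpq, h0⟩ := exists_pq (γ 0) (γ 1)
  let e : lp (fun _ : ℕ => ℂ) 2 := lp.single 2 0 (conj p) + lp.single 2 1 (conj q)
  have hin : ∀ x : lp (fun _ : ℕ => ℂ) 2, ⟪e, x⟫_ℂ = p * x 0 + q * x 1 := fun x => by
    simp only [e, inner_add_left, lp.inner_single_left, RCLike.inner_apply, conj_conj]
    ring
  have he1 : ‖e‖ ≤ 1 := by
    have h1 := inner_self_eq_norm_sq_to_K (𝕜 := ℂ) e
    rw [hin] at h1
    have h2 : e 0 = conj p := by simp [e, lp.single_apply]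
    have h3 : e 1 = conj q := by simp [e, lp.single_apply]
    rw [h2, h3, mul_conj', mul_conj'] at h1
    have h4 : ‖p‖ ^ 2 + ‖q‖ ^ 2 = ‖e‖ ^ 2 := by
      apply ofReal_injective
      push_cast
      exact h1
    nlinarith [norm_nonneg e]
  refine ⟨p, q, ContinuousLinearMap.adjoint V e, hpq, ?_, fun z => ?_⟩
  · have h1 : ‖V‖ ≤ 1 := V.opNorm_le_bound zero_le_one fun x => by simpa using hV1 x
    have h2 := (ContinuousLinearMap.adjoint V).le_opNorm e
    rw [LinearIsometryEquiv.norm_map] at h2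
    nlinarith [norm_nonneg e, norm_nonneg V]
  · rw [ContinuousLinearMap.adjoint_inner_left]
    have h1 := congrArg (fun x => ⟪e, x⟫_ℂ) (hβ z)
    simp only [inner_add_right, inner_smul_right] at h1
    rw [hin γ, h0, mul_zero, add_zero, hin] at h1
    rw [← h1]
    simp only [β, Psi_apply, wt]
    norm_num

lemma two_pow (n : ℕ) (hn : 2 ≤ n) : ((n : ℝ) + 1) * (1 / 2) ^ n ≤ 3 / 4 := by
  induction n, hn using Nat.le_induction with
  | base => norm_num
  | succ n hn ih =>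
    have : (2 : ℝ) ≤ n := by exact_mod_cast hn
    have h0 : (0 : ℝ) ≤ (1 / 2) ^ n := by positivity
    rw [pow_succ]; push_cast; nlinarith

theorem rigid [CompleteSpace E] {u : XD → E} (hu : ∀ z, ‖u z‖ ≤ 1) {p q : ℂ}
    {y : lp (fun _ : ℕ => E) 2} (hpq : ‖p‖ ^ 2 + ‖q‖ ^ 2 = 1) (hy : ‖y‖ ≤ 1)
    (h : ∀ z : XD, p + q * ((√2 : ℝ) * z.1) = ⟪y, Psi (u z) z⟫_ℂ) :
    ‖y 0‖ ^ 2 + ‖y 1‖ ^ 2 = 1 ∧ ∀ n, 2 ≤ n → y n = 0 := by
  have hs : HasSum (fun n => ‖y n‖ ^ 2) (‖y‖ ^ 2) := by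
    simpa using lp.hasSum_norm (p := 2) (by simp) y
  have hy2 : ‖y‖ ^ 2 ≤ 1 := pow_le_one₀ (norm_nonneg _) hy
  set B := 3 / 4 * ‖y‖ ^ 2 + (‖y 0‖ ^ 2 + ‖y 1‖ ^ 2) / 4 with hB
  have hd : HasSum (fun n => if n < 2 then ‖y n‖ ^ 2 / 4 else 0)
      ((‖y 0‖ ^ 2 + ‖y 1‖ ^ 2) / 4) := by
    have := hasSum_sum_of_ne_finset_zero (f := fun n => if n < 2 then ‖y n‖ ^ 2 / 4 else 0)
      (s := Finset.range 2) (L := SummationFilter.unconditional ℕ)
      fun n hn => if_neg (by simpa using hn)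
    simpa [Finset.sum_range_succ, add_div] using this
  have key : ∀ ρ : ℝ, |ρ| < 1 / √2 → ∃ G : UnitAddCircle → ℝ,
      Integrable G AddCircle.haarAddCircle ∧ ∫ t, G t ∂AddCircle.haarAddCircle ≤ B ∧
      ∀ t, ‖p + q * ((√2 : ℝ) * (ρ * conj (fourier 1 t)))‖ ^ 2 ≤ G t := by
    intro ρ hρ
    have hρ2 : ‖(ρ : ℂ)‖ ^ 2 < 1 / 2 := XD_sq ⟨ρ, by rwa [norm_real]⟩
    have hsum : Summable fun n => ‖wt ρ n • y n‖ := by
      have := (hasSum_b (x := ‖(ρ : ℂ)‖) (by
        rw [norm_norm]; nlinarith [norm_nonneg (ρ : ℂ)])).summable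
      refine Summable.of_nonneg_of_le (fun _ => norm_nonneg _) (fun n => ?_) this
      rw [norm_smul, wt, norm_mul, norm_pow, norm_real, Real.norm_of_nonneg (Real.sqrt_nonneg _)]
      refine (mul_le_of_le_one_right (by positivity)
        ((lp.norm_apply_le_norm two_ne_zero y n).trans hy)).trans ?_
      gcongr
      rw [Real.sqrt_le_left (by positivity)]
      nlinarith [(Nat.cast_nonneg n : (0 : ℝ) ≤ n)]
    obtain ⟨a1, a2⟩ := pars hsum (B := B) fun N => by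
      refine le_trans (Finset.sum_le_sum fun n _ => ?_) (sum_le_hasSum (Finset.range N)
        (fun n _ => by split_ifs <;> positivity) ((hs.mul_left (3 / 4)).add hd))
      rw [norm_smul, mul_pow, wt_sq]
      have b1 : ((n : ℝ) + 1) * (‖(ρ : ℂ)‖ ^ 2) ^ n ≤ (n + 1) * (1 / 2) ^ n := by gcongr
      have b2 := mul_le_mul_of_nonneg_right b1 (sq_nonneg ‖y n‖)
      split_ifs with hn
      · interval_cases n <;> norm_num at b2 ⊢ <;> linarith
      · nlinarith [two_pow n (not_lt.1 hn), sq_nonneg ‖y n‖]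
    refine ⟨_, a1, a2, fun t => pow_le_pow_left₀ (norm_nonneg _) ?_ 2⟩
    let z : XD := ⟨ρ * conj (fourier 1 t), by
      rwa [norm_mul, RCLike.norm_conj, norm_four, mul_one, norm_real]⟩
    have h1 := lp.hasSum_inner (𝕜 := ℂ) y (Psi (u z) z)
    have h2 := (Summable.of_norm (f := fun n : ℕ => fourier (n : ℤ) t • wt ρ n • y n) (by
      simpa only [norm_smul (fourier _ t), norm_four, one_mul] using hsum)).hasSum
    have h3 := h2.mapL (innerSL ℂ (u z))
    have h4 := h3.star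
    have e : (fun n : ℕ => star (innerSL ℂ (u z) (fourier (n : ℤ) t • wt ρ n • y n))) =
        fun n => ⟪y n, Psi (u z) z n⟫_ℂ := by
      funext n
      have : fourier (n : ℤ) t = fourier 1 t ^ n := by
        simp [fourier_apply, ← Circle.coe_pow, AddCircle.toCircle_nsmul]
      rw [innerSL_apply_apply, RCLike.star_def, inner_conj_symm, Psi_apply, inner_smul_left,
        inner_smul_left, inner_smul_right, this]
      simp only [wt, z, map_mul, map_pow, conj_ofReal, mul_pow]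
      ring
    rw [e] at h4
    have h5 := h z
    rw [h1.unique h4] at h5
    rw [show p + q * ((√2 : ℝ) * (ρ * conj (fourier 1 t))) = _ from h5, norm_star,
      innerSL_apply_apply]
    exact (norm_inner_le_norm _ _).trans (mul_le_of_le_one_left (norm_nonneg _) (hu z))
  have key2 : ∀ ρ : ℝ, |ρ| < 1 / √2 → ‖p‖ ^ 2 + 2 * ρ ^ 2 * ‖q‖ ^ 2 ≤ B := by
    intro ρ hρ
    obtain ⟨G, a1, a2, a3⟩ := key ρ hρ
    obtain ⟨G', b1, b2, b3⟩ := key (-ρ) (by rwa [abs_neg])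
    have := integral_mono (integrable_const (2 * (‖p‖ ^ 2 + 2 * ρ ^ 2 * ‖q‖ ^ 2))) (a1.add b1)
      fun t => by
        have c1 := parallelogram_law_with_norm ℂ p (q * ((√2 : ℝ) * (ρ * conj (fourier 1 t))))
        have c2 : ‖q * ((√2 : ℝ) * (ρ * conj (fourier 1 t)))‖ ^ 2 = 2 * ρ ^ 2 * ‖q‖ ^ 2 := by
          rw [norm_mul, norm_mul, norm_mul, RCLike.norm_conj, norm_four, norm_real, norm_real,
            Real.norm_of_nonneg (Real.sqrt_nonneg _), mul_one, mul_pow, mul_pow,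
            Real.sq_sqrt zero_le_two, Real.norm_eq_abs, sq_abs]
          ring
        have c3 := b3 t
        rw [ofReal_neg, neg_mul, mul_neg, mul_neg, ← sub_eq_add_neg] at c3
        simp only [Pi.add_apply]
        nlinarith [a3 t]
    rw [integral_add' a1 b1] at this
    simp at this
    linarith
  have h1B : 1 ≤ B := by
    have ht : Tendsto (fun ρ : ℝ => ‖p‖ ^ 2 + 2 * ρ ^ 2 * ‖q‖ ^ 2) (𝓝[<] (1 / √2))
        (𝓝 (‖p‖ ^ 2 + 2 * (1 / √2) ^ 2 * ‖q‖ ^ 2)) :=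
      (Continuous.tendsto (by fun_prop) _).mono_left nhdsWithin_le_nhds
    rw [div_pow, Real.sq_sqrt zero_le_two] at ht
    have := le_of_tendsto ht (by
      filter_upwards [Ioo_mem_nhdsLT (show (0 : ℝ) < 1 / √2 by positivity)] with ρ hρ
      exact key2 ρ (by rw [abs_of_pos hρ.1]; exact hρ.2))
    linarith
  have h2 := sum_le_hasSum (Finset.range 2) (fun _ _ => sq_nonneg _) hs
  simp only [Finset.sum_range_succ, Finset.range_zero, Finset.sum_empty, zero_add] at h2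
  refine ⟨by linarith, fun n hn => ?_⟩
  have h3 := sum_le_hasSum (insert n (Finset.range 2)) (fun _ _ => sq_nonneg _) hs
  rw [Finset.sum_insert (by simp; omega)] at h3
  simp only [Finset.sum_range_succ, Finset.range_zero, Finset.sum_empty, zero_add] at h3
  rw [← norm_eq_zero, ← sq_eq_zero_iff]
  nlinarith [sq_nonneg ‖y n‖]

end Pool.Agent.H88.Cert
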