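import Mathlib
import Pool.Agent.H88.Cert2

/-! The kernel `(1 - 2 z w̄)⁻¹` is the minimum certificate: conclusion. -/

namespace Pool.Agent.H88.Cert

open scoped ComplexConjugate ComplexOrder InnerProductSpace
open Complex MeasureTheory Filter Topology

variable {E : Type*} [NormedAddCommGroup E] [InnerProductSpace ℂ E]

lemma lorentz {p q : ℂ} {y0 y1 : E} {κ : ℝ} (hκ : 0 < κ) (h0 : ‖y0‖ ^ 2 = κ + ‖p‖ ^ 2)
    (h1 : ‖y1‖ ^ 2 = ‖q‖ ^ 2 - κ) (hc : ⟪y1, y0⟫_ℂ = conj p * q) (σ : ℂ) (ω : E) :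
    κ * (‖σ‖ ^ 2 - ‖ω‖ ^ 2) ≤ ‖σ * q - ⟪y1, ω⟫_ℂ‖ ^ 2 - ‖σ * p - ⟪y0, ω⟫_ℂ‖ ^ 2 := by
  obtain ⟨A, hA⟩ : ∃ A, ⟪y1, ω⟫_ℂ = σ * q - A := ⟨σ * q - ⟪y1, ω⟫_ℂ, by ring⟩
  obtain ⟨B, hB⟩ : ∃ B, ⟪y0, ω⟫_ℂ = σ * p - B := ⟨σ * p - ⟪y0, ω⟫_ℂ, by ring⟩
  rw [hA, hB, sub_sub_cancel, sub_sub_cancel]
  have n0 : ⟪y0, y0⟫_ℂ = κ + p * conj p := by
    have := congrArg (fun x : ℝ => (x : ℂ)) h0
    push_cast at this
    rw [inner_self_eq_norm_sq_to_K, mul_conj']; exact this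
  have n1 : ⟪y1, y1⟫_ℂ = q * conj q - κ := by
    have := congrArg (fun x : ℝ => (x : ℂ)) h1
    push_cast at this
    rw [inner_self_eq_norm_sq_to_K, mul_conj']; exact this
  have hc' : ⟪y0, y1⟫_ℂ = p * conj q := by rw [← inner_conj_symm, hc]; simp
  have hA' : ⟪ω, y1⟫_ℂ = conj σ * conj q - conj A := by rw [← inner_conj_symm, hA]; simp
  have hB' : ⟪ω, y0⟫_ℂ = conj σ * conj p - conj B := by rw [← inner_conj_symm, hB]; simp
  set σ' := κ * σ - A * conj q + B * conj p with hσ'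
  set ω' := (κ : ℂ) • ω - A • y1 + B • y0 with hω'
  have e1 : ⟪y1, ω'⟫_ℂ = σ' * q := by
    simp only [hω', hσ', inner_add_right, inner_sub_right, inner_smul_right, hA, n1, hc]
    ring
  have e2 : ⟪ω', ω'⟫_ℂ = σ' * conj σ' - κ * (κ * (σ * conj σ - ⟪ω, ω⟫_ℂ) - A * conj A +
      B * conj B) := by
    simp only [hω', hσ', inner_add_right, inner_sub_right, inner_smul_right, inner_add_left,
      inner_sub_left, inner_smul_left, hA, hB, hA', hB', n0, n1, hc, hc', map_add, map_sub,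
      map_mul, conj_ofReal, conj_conj]
    ring
  rw [inner_self_eq_norm_sq_to_K, inner_self_eq_norm_sq_to_K, mul_conj', mul_conj', mul_conj',
    mul_conj'] at e2
  have e3 : ‖ω'‖ ^ 2 = ‖σ'‖ ^ 2 - κ * (κ * (‖σ‖ ^ 2 - ‖ω‖ ^ 2) - ‖A‖ ^ 2 + ‖B‖ ^ 2) := by
    apply ofReal_injective
    push_cast
    exact e2
  have e4 := norm_inner_le_norm (𝕜 := ℂ) y1 ω'
  rw [e1, norm_mul] at e4
  have hq : ‖y1‖ < ‖q‖ := lt_of_pow_lt_pow_left₀ 2 (norm_nonneg _) (by linarith)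
  have hq0 : 0 < ‖q‖ := (norm_nonneg _).trans_lt hq
  have e5 : ‖σ'‖ ≤ ‖ω'‖ := by
    refine le_of_mul_le_mul_right (e4.trans ?_) hq0
    rw [mul_comm]
    exact mul_le_mul_of_nonneg_left hq.le (norm_nonneg _)
  have e6 := pow_le_pow_left₀ (norm_nonneg _) e5 2
  by_contra hcon
  push Not at hcon
  nlinarith

lemma s2 : ((√2 : ℝ) : ℂ) * (√2 : ℝ) = 2 := by
  rw [← ofReal_mul, Real.mul_self_sqrt zero_le_two]; simp

theorem struct [CompleteSpace E] {u : XD → E} (hu : ∀ z, ‖u z‖ < 1) {p q : ℂ}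
    {y : lp (fun _ : ℕ => E) 2} (hpq : ‖p‖ ^ 2 + ‖q‖ ^ 2 = 1) (hy : ‖y‖ ≤ 1)
    (h : ∀ z : XD, p + q * ((√2 : ℝ) * z.1) = ⟪y, Psi (u z) z⟫_ℂ) :
    ∃ κ : ℝ, 0 < κ ∧ ‖y 0‖ ^ 2 = κ + ‖p‖ ^ 2 ∧ ‖y 1‖ ^ 2 = ‖q‖ ^ 2 - κ ∧
      ⟪y 1, y 0⟫_ℂ = conj p * q ∧
      ∀ z : XD, p - ⟪y 0, u z⟫_ℂ = -((√2 : ℝ) * z.1) * (q - ⟪y 1, u z⟫_ℂ) := by
  obtain ⟨h1, h2⟩ := rigid (fun z => (hu z).le) hpq hy h
  have h3 : ∀ z : XD, p - ⟪y 0, u z⟫_ℂ = -((√2 : ℝ) * z.1) * (q - ⟪y 1, u z⟫_ℂ) := by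
    intro z
    have a1 := (lp.hasSum_inner (𝕜 := ℂ) y (Psi (u z) z)).unique
      (hasSum_sum_of_ne_finset_zero (s := Finset.range 2) fun n hn => by
        rw [h2 n (by simp at hn; omega), inner_zero_left])
    rw [← h z] at a1
    simp only [Finset.sum_range_succ, Finset.range_zero, Finset.sum_empty, zero_add, Psi_apply,
      inner_smul_right, wt] at a1
    norm_num at a1
    linear_combination a1
  have h2p : (0 : ℝ) < √2 := by positivity
  have hs : ((√2 : ℝ) : ℂ) ≠ 0 := ofReal_ne_zero.2 h2p.ne'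
  have h4 : ∀ ζ : ℂ, ‖ζ‖ < 1 → ∃ v : E, ‖v‖ < 1 ∧ p - ⟪y 0, v⟫_ℂ = -ζ * (q - ⟪y 1, v⟫_ℂ) := by
    intro ζ hζ
    let z : XD := ⟨ζ / (√2 : ℝ), by
      rw [norm_div, norm_real, Real.norm_of_nonneg h2p.le]; gcongr⟩
    refine ⟨u z, hu z, ?_⟩
    rw [h3 z, mul_div_cancel₀ _ hs]
  have hκ : 0 < ‖y 0‖ ^ 2 - ‖p‖ ^ 2 := by
    obtain ⟨v, a1, a2⟩ := h4 0 (by simp)
    rw [neg_zero, zero_mul, sub_eq_zero] at a2
    have a3 := norm_inner_le_norm (𝕜 := ℂ) (y 0) v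
    rw [← a2] at a3
    rcases (norm_nonneg (y 0)).eq_or_lt with a4 | a4
    · exfalso
      obtain ⟨w, b1, b2⟩ := h4 (1 / 2) (by norm_num)
      have b3 : y 0 = 0 := norm_eq_zero.1 a4.symm
      have b4 : p = 0 := by rw [a2, b3, inner_zero_left]
      rw [b3, b4, inner_zero_left] at b2
      have b5 : q = ⟪y 1, w⟫_ℂ := by linear_combination 2 * b2
      have b6 := norm_inner_le_norm (𝕜 := ℂ) (y 1) w
      rw [← b5] at b6
      rw [b4, norm_zero] at hpq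
      rw [b3, norm_zero] at h1
      have b7 : ‖q‖ = 1 := by nlinarith [norm_nonneg q]
      have b8 : ‖y 1‖ = 1 := by nlinarith [norm_nonneg (y 1)]
      rw [b7, b8] at b6
      linarith
    · have : ‖p‖ < ‖y 0‖ := a3.trans_lt (mul_lt_of_lt_one_right a4 a1)
      nlinarith [norm_nonneg p]
  refine ⟨_, hκ, by ring, by linarith, ?_, h3⟩
  set κ := ‖y 0‖ ^ 2 - ‖p‖ ^ 2 with hκd
  set D := ⟪y 1, y 0⟫_ℂ - conj p * q with hD
  obtain ⟨c, c1, c2⟩ := Complex.exists_norm_eq_mul_self D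
  have h5 : ∀ t : ℝ, 0 ≤ t → t < 1 → 2 * t * ‖D‖ ≤ κ * (1 - t ^ 2) := by
    intro t t0 t1
    set ζ : ℂ := -(t * c) with hζ
    have hn : ‖ζ‖ = t := by
      rw [hζ, norm_neg, norm_mul, c1, norm_real, Real.norm_of_nonneg t0, mul_one]
    obtain ⟨v, a1, a2⟩ := h4 ζ (by rwa [hn])
    have a3 : p + q * ζ = ⟪y 0 + conj ζ • y 1, v⟫_ℂ := by
      rw [inner_add_left, inner_smul_left, conj_conj]; linear_combination a2
    have a4 : ‖p + q * ζ‖ ≤ ‖y 0 + conj ζ • y 1‖ := by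
      rw [a3]
      exact (norm_inner_le_norm _ _).trans (mul_le_of_le_one_right (norm_nonneg _) a1.le)
    have a5 := pow_le_pow_left₀ (norm_nonneg _) a4 2
    rw [norm_add_sq (𝕜 := ℂ), norm_add_sq (𝕜 := ℂ), inner_re_symm (y 0), inner_smul_left,
      conj_conj, norm_smul, RCLike.norm_conj, norm_mul, hn, RCLike.inner_apply] at a5
    have a6 : ζ * ⟪y 1, y 0⟫_ℂ = q * ζ * conj p - ((t * ‖D‖ : ℝ) : ℂ) := by
      push_cast
      rw [c2, hD, hζ]; ring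
    rw [a6] at a5
    simp only [RCLike.re_to_complex, sub_re, ofReal_re] at a5
    nlinarith
  have ht : Tendsto (fun t : ℝ => κ * (1 - t ^ 2) - 2 * t * ‖D‖) (𝓝[<] 1)
      (𝓝 (κ * (1 - 1 ^ 2) - 2 * 1 * ‖D‖)) :=
    (Continuous.tendsto (by fun_prop) _).mono_left nhdsWithin_le_nhds
  have := ge_of_tendsto ht (by
    filter_upwards [Ioo_mem_nhdsLT (show (0 : ℝ) < 1 by norm_num)] with t ht
    exact sub_nonneg.2 (h5 t ht.1.le ht.2))
  rw [← sub_eq_zero, ← hD, ← norm_le_zero_iff]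
  linarith

lemma berg_ne (z w : XD) : 1 - z.1 * conj w.1 ≠ 0 := fun h => by
  have := XD_mul z w
  rw [← sub_eq_zero.1 h, norm_one] at this
  linarith

lemma sz_ne (z w : XD) : 1 - 2 * z.1 * conj w.1 ≠ 0 := fun h => by
  have := XD_mul z w
  have h2 : z.1 * conj w.1 = 1 / 2 := by linear_combination (-1 / 2) * h
  rw [h2] at this
  norm_num at this

theorem minimal (t : XD → XD → ℂ) (ht : IsCert berg t) : IsKer fun z w => t z w / sz z w := by
  obtain ⟨⟨t1, t2, δ, F, hδ, hF, hF1, ht⟩, h, hh, hb⟩ := ht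
  obtain ⟨E, _, _, _, u, hu⟩ := feat hF
  have hne : ∀ z w, 1 - F z w ≠ 0 := fun z w e => t2 z w (by rw [ht, e, div_zero])
  have hu1 : ∀ z, ‖u z‖ < 1 := fun z => by
    have := hF1 z
    rw [hu, ← RCLike.re_to_complex, inner_self_eq_norm_sq] at this
    exact lt_of_pow_lt_pow_left₀ 2 zero_le_one (by linarith)
  obtain ⟨p, q, y, a1, a2, a3⟩ := extract hδ (u := u) hh fun z w => by
    rw [← hu, hb, ht]
    have := hne z w
    field_simp
  obtain ⟨κ, hκ, b1, b2, b3, b4⟩ := struct hu1 a1 a2 a3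
  let α : XD → ℂ := fun z => q - ⟪y 1, u z⟫_ℂ
  let β : XD → ℂ := fun z => p - ⟪y 0, u z⟫_ℂ
  have hα : ∀ z, α z ≠ 0 := fun z e => by
    have c1 := norm_inner_le_norm (𝕜 := ℂ) (y 1) (u z)
    rw [← sub_eq_zero.1 e] at c1
    have hq : ‖y 1‖ < ‖q‖ := lt_of_pow_lt_pow_left₀ 2 (norm_nonneg _) (by linarith)
    linarith [mul_le_of_le_one_right (norm_nonneg (y 1)) (hu1 z).le]
  have hP : IsKer fun z w => α z * conj (α w) - β z * conj (β w) - κ * (1 - F z w) := by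
    intro n x c
    have c1 := lorentz hκ b1 b2 b3 (∑ i, c i) (∑ i, c i • u (x i))
    have dy : ∀ a : Fin n → ℂ, ((‖∑ i, c i * a i‖ ^ 2 : ℝ) : ℂ) =
        ∑ i, ∑ j, c i * conj (c j) * (a i * conj (a j)) := fun a => by
      have := norm_comb Finset.univ c a
      simpa only [smul_eq_mul, RCLike.inner_apply] using this
    have d1 : (∑ i, c i) * q - ⟪y 1, ∑ i, c i • u (x i)⟫_ℂ = ∑ i, c i * α (x i) := by
      simp only [α, inner_sum, inner_smul_right, Finset.sum_mul, mul_sub, Finset.sum_sub_distrib]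
    have d2 : (∑ i, c i) * p - ⟪y 0, ∑ i, c i • u (x i)⟫_ℂ = ∑ i, c i * β (x i) := by
      simp only [β, inner_sum, inner_smul_right, Finset.sum_mul, mul_sub, Finset.sum_sub_distrib]
    have d3 := dy fun _ => 1
    simp only [mul_one, map_one] at d3
    rw [d1, d2, ← sub_nonneg, ← zero_le_real] at c1
    refine c1.trans_eq ?_
    rw [ofReal_sub, ofReal_sub, ofReal_mul, ofReal_sub, dy, dy, d3, norm_comb]
    simp only [Finset.mul_sum, ← Finset.sum_sub_distrib]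
    refine Finset.sum_congr rfl fun i _ => Finset.sum_congr rfl fun j _ => ?_
    rw [hu]; ring
  have hk := ((isKer_dyad fun z => (√κ : ℝ) * δ z).add (hP.mul t1)).mul
    (isKer_dyad fun z => (α z)⁻¹)
  have e : (fun z w => t z w / sz z w) = fun z w =>
      ((√κ : ℝ) * δ z * conj ((√κ : ℝ) * δ w) +
        (α z * conj (α w) - β z * conj (β w) - κ * (1 - F z w)) * t z w) *
        ((α z)⁻¹ * conj (α w)⁻¹) := by
    funext z w
    have c1 : ((√κ : ℝ) : ℂ) * (√κ : ℝ) = κ := by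
      rw [← ofReal_mul, Real.mul_self_sqrt hκ.le]
    have c2 : β z = -((√2 : ℝ) * z.1) * α z := b4 z
    have c3 : β w = -((√2 : ℝ) * w.1) * α w := b4 w
    have c4 : t z w * (1 - F z w) = δ z * conj (δ w) := by
      rw [ht, div_mul_cancel₀ _ (hne z w)]
    have c5 := hα z
    have c6 : conj (α w) ≠ 0 := (map_ne_zero _).2 (hα w)
    rw [sz, div_inv_eq_mul, c2, c3]
    simp only [map_mul, map_neg, conj_ofReal, map_inv₀]
    field_simp
    linear_combination (-(δ z * conj (δ w))) * c1 + κ * c4 +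
      (t z w * z.1 * conj w.1 * α z * conj (α w)) * s2
  rw [e]
  exact hk

theorem cert : IsCert berg sz := by
  refine ⟨⟨?_, fun z w => inv_ne_zero (sz_ne z w), fun _ => 1,
    fun z w => 2 * z.1 * conj w.1, fun _ => one_ne_zero, ?_, fun z => ?_, fun z w => ?_⟩,
    fun z w => z.1 ^ 2 * conj (w.1 ^ 2) * berg z w, ?_, fun z w => ?_⟩
  · refine isKer_hasSum (fun n => isKer_dyad fun z : XD => ((√2 : ℝ) * z.1) ^ n) fun z w => ?_
    have := hasSum_geometric_of_norm_lt_one (ξ := 2 * z.1 * conj w.1) (by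
      rw [mul_assoc, norm_mul]
      have := XD_mul z w
      simp only [Complex.norm_ofNat]
      linarith)
    have e : (fun n : ℕ => ((√2 : ℝ) * z.1) ^ n * conj (((√2 : ℝ) * w.1) ^ n)) =
        fun n => (2 * z.1 * conj w.1) ^ n := by
      funext n
      rw [map_pow, ← mul_pow, map_mul, conj_ofReal]
      congr 1
      linear_combination (z.1 * conj w.1) * s2
    rw [e]
    exact this
  · have e : (fun z w : XD => 2 * z.1 * conj w.1) =
        fun z w : XD => ((√2 : ℝ) * z.1) * conj ((√2 : ℝ) * w.1) := by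
      funext z w
      rw [map_mul, conj_ofReal]
      linear_combination (-(z.1 * conj w.1)) * s2
    rw [e]
    exact isKer_dyad fun z : XD => (√2 : ℝ) * z.1
  · have := XD_sq z
    show (2 * z.1 * conj z.1).re < 1
    rw [mul_assoc, mul_conj', ← ofReal_pow, ← ofReal_ofNat, ← ofReal_mul, ofReal_re]
    linarith
  · simp [sz]
  · refine (isKer_dyad fun z : XD => z.1 ^ 2).mul ?_
    refine isKer_hasSum (fun n => isKer_dyad fun z : XD => wt z.1 n) fun z w => ?_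
    simp only [wt_mul]
    exact hasSum_b (by linarith [XD_mul z w])
  · have h1 := berg_ne z w
    have h2 := sz_ne z w
    simp only [berg, sz, map_pow]
    rw [eq_mul_inv_iff_mul_eq₀ h2]
    field_simp
    ring

end Pool.Agent.H88.Cert
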