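import Pool.Agent.H88.CortexDefs

set_option autoImplicit false

namespace Pool.Agent.H88.Cortex

open Filter Topology Metric Set

universe u v

lemma permanence_of {A : Type v} [NormedRing A] [NormedAlgebra ℂ A]
    (h : ∀ x : A, (∃ C : ℝ, ∀ y : A, ‖y‖ ≤ C * ‖x * y‖ ∧ ‖y‖ ≤ C * ‖y * x‖) → IsUnit x) :
    SpectralPermanence.{u, v} A := by
  intro B _ _ _ ι hι x
  have key : ∀ a : A, IsUnit a ↔ IsUnit (ι a) := by
    intro a
    refine ⟨fun ha => ha.map ι, fun ha => h a ?_⟩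
    let L : A →L[ℂ] B := ⟨ι.toLinearMap, hι.continuous⟩
    obtain ⟨K, hK⟩ := L.antilipschitz_of_isEmbedding hι.isEmbedding
    obtain ⟨b, hb⟩ := ha.exists_left_inv
    have h1 : ∀ y, ‖y‖ ≤ K * ‖ι y‖ := fun y => ZeroHomClass.bound_of_antilipschitz L hK y
    have h2 : ∀ y z : A, ι z = ι a * ι y → ‖y‖ ≤ K * (‖b‖ * ‖L‖) * ‖z‖ := by
      intro y z hz
      refine (h1 y).trans ?_
      have h3 : ι y = b * ι z := by rw [hz, ← mul_assoc, hb, one_mul]
      have h4 : ‖ι z‖ ≤ ‖L‖ * ‖z‖ := L.le_opNorm z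
      rw [h3, mul_assoc, mul_assoc]
      gcongr
      exact (norm_mul_le _ _).trans (by gcongr)
    exact ⟨K * (‖b‖ * ‖L‖), fun y => ⟨h2 y _ (map_mul ι _ _),
      h2 y _ (by rw [map_mul, mul_comm])⟩⟩
  ext c
  rw [spectrum.mem_iff, spectrum.mem_iff, key, map_sub, AlgHom.commutes]

abbrev D : Type := closedBall (0 : ℂ) 1
abbrev J : Type := Icc (0 : ℝ) 1

/-- slices -/
noncomputable def sl (f : C(D × J, ℂ)) (t : J) : ℂ → ℂ :=
  Function.extend Subtype.val (fun w : D => f (w, t)) 0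

lemma sl_apply (f : C(D × J, ℂ)) (t : J) (w : D) : sl f t w = f (w, t) :=
  Subtype.val_injective.extend_apply _ _ _

lemma sl_apply' (f : C(D × J, ℂ)) (t : J) {w : ℂ} (hw : w ∈ closedBall (0 : ℂ) 1) :
    sl f t w = f (⟨w, hw⟩, t) := sl_apply f t ⟨w, hw⟩

lemma sl_cont (f : C(D × J, ℂ)) (t : J) : ContinuousOn (sl f t) (closedBall 0 1) := by
  rw [continuousOn_iff_continuous_domRestrict]
  have : (closedBall (0 : ℂ) 1).domRestrict (sl f t) = fun w : D => f (w, t) :=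
    funext fun w => sl_apply f t w
  rw [this]; fun_prop

def z0 : D := ⟨0, by simp⟩
def t0 : J := ⟨0, by simp⟩

lemma mem_of {f : C(D × J, ℂ)} (F : J → ℂ → ℂ) (hF : ∀ t, DifferentiableOn ℂ (F t) (ball 0 1))
    (h : ∀ t (w : D), f (w, t) = F t w) (t : J) : DifferentiableOn ℂ (sl f t) (ball 0 1) :=
  (hF t).congr fun w hw => by rw [sl_apply' f t (ball_subset_closedBall hw), h]

/-- the cone algebra -/
def cone : Subalgebra ℂ C(D × J, ℂ) where
  carrier := {f | (∀ t, DifferentiableOn ℂ (sl f t) (ball 0 1)) ∧ ∀ w, f (w, t0) = f (z0, t0)}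
  mul_mem' := fun {f g} hf hg => ⟨mem_of (fun t => sl f t * sl g t)
    (fun t => (hf.1 t).mul (hg.1 t)) fun t w => by simp [sl_apply],
    fun w => by simp [hf.2 w, hg.2 w]⟩
  add_mem' := fun {f g} hf hg => ⟨mem_of (fun t => sl f t + sl g t)
    (fun t => (hf.1 t).add (hg.1 t)) fun t w => by simp [sl_apply],
    fun w => by simp [hf.2 w, hg.2 w]⟩
  algebraMap_mem' := fun c => ⟨mem_of (fun _ _ => c) (fun _ => differentiableOn_const c)
    fun t w => by simp, fun w => by simp⟩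

lemma isClosed_cone : IsClosed (cone : Set C(D × J, ℂ)) := by
  apply IsSeqClosed.isClosed
  intro F f hF hf
  refine ⟨fun t => ?_, fun w => ?_⟩
  · have h1 : TendstoUniformlyOn (fun n => sl (F n) t) (sl f t) atTop (ball 0 1) := by
      rw [Metric.tendstoUniformlyOn_iff]
      intro ε hε
      filter_upwards [Metric.tendsto_nhds.1 hf ε hε] with n hn w hw
      rw [sl_apply' _ _ (ball_subset_closedBall hw), sl_apply' _ _ (ball_subset_closedBall hw),
        dist_comm]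
      exact (ContinuousMap.dist_apply_le_dist _).trans_lt hn
    exact h1.tendstoLocallyUniformlyOn.differentiableOn
      (Eventually.of_forall fun n => (hF n).1 t) isOpen_ball
  · have h1 := ((continuous_eval_const (w, t0)).tendsto f).comp hf
    have h2 := ((continuous_eval_const (z0, t0)).tendsto f).comp hf
    exact tendsto_nhds_unique h1 (h2.congr fun n => ((hF n).2 w).symm)

instance : CompleteSpace cone := isClosed_cone.completeSpace_coe

lemma max_mod {F : ℂ → ℂ} (hd : DifferentiableOn ℂ F (ball 0 1))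
    (hc : ContinuousOn F (closedBall 0 1)) {C : ℝ} (h : ∀ w : ℂ, ‖w‖ = 1 → ‖F w‖ ≤ C) {w : ℂ}
    (hw : w ∈ closedBall (0 : ℂ) 1) : ‖F w‖ ≤ C := by
  apply Complex.norm_le_of_forall_mem_frontier_norm_le (U := ball 0 1) isBounded_ball
    ⟨hd, by rwa [closure_ball 0 one_ne_zero]⟩
  · intro z hz
    rw [frontier_ball 0 one_ne_zero] at hz
    exact h z (by simpa using hz)
  · rwa [closure_ball 0 one_ne_zero]

lemma ne_zero_of_boundary {f : C(D × J, ℂ)} (hf : f ∈ cone)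
    (h : ∀ p : D × J, ‖(p.1 : ℂ)‖ = 1 → f p ≠ 0) (p : D × J) : f p ≠ 0 := by
  have hK : IsCompact {p : D × J | ‖(p.1 : ℂ)‖ = 1} :=
    (isClosed_eq (by fun_prop) continuous_const).isCompact
  obtain ⟨m, hm0, hm⟩ := hK.exists_forall_le' (f := fun p => ‖f p‖) (by fun_prop) (a := 0)
    fun p hp => norm_pos_iff.2 (h p hp)
  have h1 : ∀ t, (∀ w, f (w, t) ≠ 0) → ∀ w, m ≤ ‖f (w, t)‖ := by
    intro t ht w
    have hne : ∀ z ∈ closedBall (0 : ℂ) 1, sl f t z ≠ 0 := fun z hz => by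
      rw [sl_apply' f t hz]; exact ht _
    have h2 := max_mod (F := fun z => (sl f t z)⁻¹)
      ((hf.1 t).inv fun z hz => hne z (ball_subset_closedBall hz)) ((sl_cont f t).inv₀ hne)
      (C := m⁻¹) (fun z hz => by
        rw [norm_inv, sl_apply' f t (mem_closedBall_zero_iff.2 hz.le)]
        exact inv_anti₀ hm0 (hm _ hz)) w.2
    rw [norm_inv, sl_apply] at h2
    exact (inv_le_inv₀ (norm_pos_iff.2 (ht w)) hm0).1 h2
  have hcl : IsClosed {t : J | ∀ w, f (w, t) ≠ 0} := by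
    have : {t : J | ∀ w, f (w, t) ≠ 0} = ⋂ w, {t : J | m ≤ ‖f (w, t)‖} := by
      ext t
      simp only [mem_ofPred_eq, mem_iInter]
      exact ⟨h1 t, fun h2 w => norm_pos_iff.1 (hm0.trans_le (h2 w))⟩
    rw [this]
    exact isClosed_iInter fun w => isClosed_le continuous_const (by fun_prop)
  have hop : IsOpen {t : J | ∀ w, f (w, t) ≠ 0} := by
    rw [← isClosed_compl_iff]
    have : {t : J | ∀ w, f (w, t) ≠ 0}ᶜ = Prod.snd '' {p : D × J | f p = 0} := by
      ext t; simp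
    rw [this]
    exact ((isClosed_eq f.continuous continuous_const).isCompact.image continuous_snd).isClosed
  have huniv := IsClopen.eq_univ ⟨hcl, hop⟩ ⟨t0, fun w => by
    rw [hf.2 w, ← hf.2 ⟨1, by simp⟩]; exact h _ (by simp)⟩
  exact (huniv.ge (mem_univ p.2)) p.1

lemma isUnit_of_ne {f : cone} (h : ∀ p, (f : C(D × J, ℂ)) p ≠ 0) : IsUnit f := by
  let g : C(D × J, ℂ) := ⟨fun p => ((f : C(D × J, ℂ)) p)⁻¹, Continuous.inv₀ (by fun_prop) h⟩
  have hg : g ∈ cone := ⟨mem_of (fun t z => (sl f t z)⁻¹) (fun t => (f.2.1 t).inv fun z hz => by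
    rw [sl_apply' _ t (ball_subset_closedBall hz)]; exact h _) fun t w => by simp [g, sl_apply],
    fun w => by simp [g, f.2.2 w]⟩
  refine IsUnit.of_mul_eq_one ⟨g, hg⟩ ?_
  ext p
  simp [g, h p]

lemma peak {X : Type*} [TopologicalSpace X] [CompactSpace X] (f y : C(X, ℂ))
    (hy : ∀ x, ‖y x‖ ≤ 1) (h : ∀ x, ‖y x‖ = 1 → f x = 0) {ε : ℝ} (hε : 0 < ε) :
    ∃ n, ‖f * y ^ n‖ ≤ ε := by
  have hK : IsCompact {x | ε ≤ ‖f x‖} := (isClosed_le continuous_const (by fun_prop)).isCompact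
  obtain ⟨c, hc0, hc⟩ := hK.exists_forall_le' (f := fun x => 1 - ‖y x‖) (by fun_prop) (a := 0)
    fun x hx => sub_pos.2 (lt_of_le_of_ne (hy x) fun h1 => by
      have h2 : ε ≤ ‖f x‖ := hx
      rw [h x h1, norm_zero] at h2; linarith)
  have h1 : Tendsto (fun n : ℕ => ‖f‖ * (max 0 (1 - c)) ^ n) atTop (𝓝 (‖f‖ * 0)) :=
    (tendsto_pow_atTop_nhds_zero_of_lt_one (le_max_left _ _)
      (max_lt one_pos (by linarith))).const_mul _
  rw [mul_zero] at h1
  obtain ⟨n, hn⟩ := (h1.eventually_le_const hε).exists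
  refine ⟨n, (ContinuousMap.norm_le _ hε.le).2 fun x => ?_⟩
  rw [ContinuousMap.mul_apply, ContinuousMap.pow_apply, norm_mul, norm_pow]
  rcases le_total ε ‖f x‖ with h2 | h2
  · refine le_trans ?_ hn
    gcongr
    · exact f.norm_coe_le_norm x
    · exact le_max_of_le_right (by linarith [hc x h2])
  · exact (mul_le_of_le_one_right (norm_nonneg _) (pow_le_one₀ (norm_nonneg _) (hy x))).trans h2

lemma exists_peak {f : C(D × J, ℂ)} (hf : f ∈ cone) (p : D × J) (hp : ‖(p.1 : ℂ)‖ = 1)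
    (h0 : f p = 0) : ∃ y ∈ cone, y p = 1 ∧ (∀ x, ‖y x‖ ≤ 1) ∧ ∀ x, ‖y x‖ = 1 → f x = 0 := by
  obtain ⟨ζ, s⟩ := p
  by_cases hs : (s : ℝ) = 0
  · have hs' : s = t0 := Subtype.ext hs
    refine ⟨⟨fun x => ((1 - (x.2 : ℝ) : ℝ) : ℂ), by fun_prop⟩,
      ⟨mem_of (fun t _ => ((1 - (t : ℝ) : ℝ) : ℂ)) (fun _ => differentiableOn_const _)
        fun _ _ => rfl, fun _ => rfl⟩, by simp [hs], fun x => ?_, fun x hx => ?_⟩
    · rw [ContinuousMap.coe_mk, Complex.norm_real, Real.norm_of_nonneg (by linarith [x.2.2.2])]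
      linarith [x.2.2.1]
    · rw [ContinuousMap.coe_mk, Complex.norm_real,
        Real.norm_of_nonneg (by linarith [x.2.2.2])] at hx
      have : x = (x.1, t0) := Prod.ext rfl (Subtype.ext (show (x.2 : ℝ) = 0 by linarith))
      rw [this, hf.2, ← hf.2 ζ, ← hs', h0]
  · have hs0 : 0 < (s : ℝ) := lt_of_le_of_ne s.2.1 (Ne.symm hs)
    have hg : ∀ t : ℝ, 0 ≤ max 0 (1 - |t - s| / s) ∧ max 0 (1 - |t - s| / s) ≤ 1 := fun t =>
      ⟨le_max_left _ _, max_le zero_le_one (by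
        have : 0 ≤ |t - s| / s := by positivity
        linarith)⟩
    have hζ : (starRingEnd ℂ) ζ * ζ = 1 := by
      rw [Complex.conj_mul', show ‖(ζ : ℂ)‖ = 1 from hp]; simp
    have hb : ∀ w : D, ‖(1 + (starRingEnd ℂ) ζ * w) / 2‖ ≤ 1 ∧
        (‖(1 + (starRingEnd ℂ) ζ * w) / 2‖ = 1 → w = ζ) := by
      intro w
      have h1 : ‖(starRingEnd ℂ) ζ * w‖ ≤ 1 := by
        rw [norm_mul, Complex.norm_conj, show ‖(ζ : ℂ)‖ = 1 from hp, one_mul]
        exact mem_closedBall_zero_iff.1 w.2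
      rw [norm_div, Complex.norm_two]
      refine ⟨by linarith [norm_add_le 1 ((starRingEnd ℂ) ζ * w), norm_one (α := ℂ)], fun h => ?_⟩
      have h2 : (starRingEnd ℂ) ζ * w = 1 := by
        generalize (starRingEnd ℂ) ζ * w = v at *
        have h3 : ‖1 + v‖ ^ 2 = 4 := by rw [div_eq_one_iff_eq (by norm_num)] at h; rw [h]; norm_num
        have h4 : ‖v‖ ^ 2 ≤ 1 := by nlinarith [norm_nonneg v]
        simp only [Complex.sq_norm, Complex.normSq_apply, Complex.add_re, Complex.one_re,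
          Complex.add_im, Complex.one_im] at h3 h4
        apply Complex.ext
        · simp only [Complex.one_re]; nlinarith [sq_nonneg (v.re - 1), sq_nonneg v.im]
        · simp only [Complex.one_im]; nlinarith [sq_nonneg (v.re - 1), sq_nonneg v.im]
      apply Subtype.ext
      linear_combination (ζ : ℂ) * h2 - (w : ℂ) * hζ
    refine ⟨⟨fun x => ((max 0 (1 - |(x.2 : ℝ) - s| / s) : ℝ) : ℂ) *
      ((1 + (starRingEnd ℂ) ζ * x.1) / 2), by fun_prop⟩,
      ⟨mem_of (fun t w => ((max 0 (1 - |(t : ℝ) - s| / s) : ℝ) : ℂ) *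
        ((1 + (starRingEnd ℂ) ζ * w) / 2)) (fun _ => by fun_prop) fun _ _ => rfl, fun w => ?_⟩,
      by simp [hζ], fun x => ?_, fun x hx => ?_⟩
    · simp [t0, abs_of_pos hs0, hs]
    · rw [ContinuousMap.coe_mk, norm_mul, Complex.norm_real, Real.norm_of_nonneg (hg _).1]
      exact mul_le_one₀ (hg _).2 (norm_nonneg _) (hb _).1
    · rw [ContinuousMap.coe_mk, norm_mul, Complex.norm_real, Real.norm_of_nonneg (hg _).1] at hx
      have h1 := hg x.2
      have h2 := hb x.1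
      have h3 := norm_nonneg ((1 + (starRingEnd ℂ) ζ * x.1) / 2)
      have h4 : x.1 = ζ := h2.2 (by nlinarith)
      have h5 : max 0 (1 - |(x.2 : ℝ) - s| / s) = 1 := by nlinarith
      have h6 : |(x.2 : ℝ) - s| / s = 0 := by
        rcases max_cases 0 (1 - |(x.2 : ℝ) - s| / s) with h | h <;> linarith [h.1]
      have h7 : x.2 = s := Subtype.ext (by
        rw [div_eq_zero_iff, abs_eq_zero, sub_eq_zero] at h6
        exact h6.resolve_right hs)
      rw [show x = (ζ, s) from Prod.ext h4 h7, h0]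

lemma norm_one_cone : ‖(1 : cone)‖ = 1 :=
  haveI : Nonempty (D × J) := ⟨(z0, t0)⟩
  norm_one (α := C(D × J, ℂ))

theorem permanence : SpectralPermanence.{u, 0} cone := by
  refine permanence_of (A := cone) ?_
  rintro f ⟨C, hC⟩
  apply isUnit_of_ne (ne_zero_of_boundary f.2 fun p hp h0 => ?_)
  obtain ⟨y, hy, h1, h2, h3⟩ := exists_peak f.2 p hp h0
  obtain ⟨n, hn⟩ := peak f y h2 h3 (ε := 1 / (2 * (|C| + 1))) (by positivity)
  have h4 := (hC (⟨y, hy⟩ ^ n)).1
  have h5 : 1 ≤ ‖(⟨y, hy⟩ : cone) ^ n‖ := by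
    have := (y ^ n).norm_coe_le_norm p
    rw [ContinuousMap.pow_apply, h1, one_pow, norm_one] at this
    exact this
  have h6 : ‖f * (⟨y, hy⟩ : cone) ^ n‖ ≤ 1 / (2 * (|C| + 1)) := hn
  have h7 : C * ‖f * (⟨y, hy⟩ : cone) ^ n‖ ≤ (|C| + 1) * (1 / (2 * (|C| + 1))) := by
    gcongr
    linarith [le_abs_self C]
  have h8 : (|C| + 1) * (1 / (2 * (|C| + 1))) = 1 / 2 := by field_simp
  linarith

abbrev S : Type := sphere (0 : ℂ) 1

/-- inclusion of the Shilov boundary -/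
def inc : C(S × J, D × J) :=
  ⟨fun p => (⟨p.1, sphere_subset_closedBall p.1.2⟩, p.2), by fun_prop⟩

/-- restriction to the Shilov boundary -/
noncomputable def res : cone →ₐ[ℂ] C(S × J, ℂ) :=
  (ContinuousMap.compRightAlgHom ℂ ℂ inc).comp cone.val

lemma res_apply (f : cone) (p : S × J) : res f p = (f : C(D × J, ℂ)) (inc p) := rfl

lemma isometry_res : Isometry res := by
  refine AddMonoidHomClass.isometry_of_norm (E := cone) res fun f => ?_
  apply le_antisymm
  · exact (ContinuousMap.norm_le _ (norm_nonneg _)).2 fun p =>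
      (f : C(D × J, ℂ)).norm_coe_le_norm _
  · refine (ContinuousMap.norm_le (f : C(D × J, ℂ)) (norm_nonneg _)).2 fun p => ?_
    rw [show p = (p.1, p.2) from rfl, ← sl_apply]
    refine max_mod (f.2.1 p.2) (sl_cont _ _) (fun w hw => ?_) p.1.2
    rw [sl_apply' _ _ (mem_closedBall_zero_iff.2 hw.le)]
    exact (res f).norm_coe_le_norm (⟨w, by simpa using hw⟩, p.2)

/-- the character -/
noncomputable def phi : cone →ₐ[ℂ] ℂ :=
  (ContinuousMap.evalAlgHom ℂ ℂ (z0, (⟨1, by simp⟩ : J))).comp cone.val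

theorem not_extend : ¬ ∃ ψ : C(S × J, ℂ) →ₐ[ℂ] ℂ, ∀ x : cone, ψ (res x) = phi x := by
  rintro ⟨ψ, hψ⟩
  let a : cone := ⟨⟨fun x => (x.2 : ℝ) * (x.1 : ℂ), by fun_prop⟩,
    mem_of (fun t w => (t : ℝ) * w) (fun _ => by fun_prop) fun _ _ => rfl, fun w => by simp [t0]⟩
  let b : cone := ⟨⟨fun x => ((1 - (x.2 : ℝ) : ℝ) : ℂ), by fun_prop⟩,
    mem_of (fun t _ => ((1 - (t : ℝ) : ℝ) : ℂ)) (fun _ => differentiableOn_const _)
      fun _ _ => rfl, fun _ => rfl⟩
  let c : C(S × J, ℂ) := ⟨fun p => (starRingEnd ℂ) p.1, by fun_prop⟩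
  have h1 : c * res a + res b = 1 := by
    ext p
    have hζ : (starRingEnd ℂ) p.1 * p.1 = 1 := by
      rw [Complex.conj_mul', mem_sphere_zero_iff_norm.1 p.1.2]; simp
    simp only [ContinuousMap.add_apply, ContinuousMap.mul_apply, res_apply, a, b, c, inc,
      ContinuousMap.coe_mk, ContinuousMap.one_apply]
    push_cast
    linear_combination ((p.2 : ℝ) : ℂ) * hζ
  have h2 := congrArg ψ h1
  have ha : phi a = 0 := by simp [phi, a, z0]
  have hb : phi b = 0 := by simp [phi, b]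
  rw [map_add, map_mul, hψ, hψ, ha, hb, map_one] at h2
  simp at h2

end Pool.Agent.H88.Cortex
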