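import Mathlib

set_option autoImplicit false

namespace Pool.Agent.H88.Cortex

universe u v

/-- Spectral permanence: spectra do not change under any unital embedding of `A` as a closed
subalgebra of a commutative Banach algebra `B`. -/
def SpectralPermanence (A : Type v) [Ring A] [Algebra ℂ A] [TopologicalSpace A] : Prop :=
  ∀ (B : Type u) [NormedCommRing B] [NormedAlgebra ℂ B] [CompleteSpace B] (ι : A →ₐ[ℂ] B),
    Topology.IsClosedEmbedding ι → ∀ x : A, spectrum ℂ x = spectrum ℂ (ι x)

/-- The character `φ` lies in the cortex: it extends to a character of every commutative Banach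
algebra `B` in which `A` sits as a closed subalgebra. -/
def InCortex (A : Type v) [Ring A] [Algebra ℂ A] [TopologicalSpace A] (φ : A →ₐ[ℂ] ℂ) : Prop :=
  ∀ (B : Type u) [NormedCommRing B] [NormedAlgebra ℂ B] [CompleteSpace B] (ι : A →ₐ[ℂ] B),
    Topology.IsClosedEmbedding ι → ∃ ψ : B →ₐ[ℂ] ℂ, ∀ x : A, ψ (ι x) = φ x

end Pool.Agent.H88.Cortex
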