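import Pool.Agent.H88.CpDefs

namespace Pool.Agent.H88.Cp
open Filter Topology
set_option linter.unusedSectionVars false

variable {K : Type*} [TopologicalSpace K] [CompactSpace K]

noncomputable def ph (h : ℕ → C(K, ℝ)) : List Bool → C(K, ℝ)
  | [] => 1
  | b :: s => ph h s * (if b then h s.length else 1 - h s.length)

noncomputable def aa (h : ℕ → C(K, ℝ)) (μ : WeakDual ℝ C(K, ℝ)) (s : List Bool) : ℝ :=
  max (μ (ph h s)) 0

noncomputable def mm (h : ℕ → C(K, ℝ)) (μ : WeakDual ℝ C(K, ℝ)) : List Bool → ℝ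
  | [] => aa h μ []
  | b :: s => mm h μ s * (aa h μ (b :: s) / (aa h μ (true :: s) + aa h μ (false :: s)))

noncomputable def pt [Nonempty K] (h : ℕ → C(K, ℝ)) (s : List Bool) : K :=
  Classical.epsilon (fun x => 0 < ph h s x)

noncomputable def VV [Nonempty K] (h : ℕ → C(K, ℝ)) (μ : WeakDual ℝ C(K, ℝ)) :
    ℕ → List Bool → (C(K, ℝ) →L[ℝ] ℝ)
  | 0, s => mm h μ s • ContinuousMap.evalCLM ℝ (pt h s)
  | n + 1, s => VV h μ n (true :: s) + VV h μ n (false :: s)

variable {h : ℕ → C(K, ℝ)}

theorem ph_nonneg (hh : ∀ n x, 0 ≤ h n x ∧ h n x ≤ 1) (s : List Bool) (x : K) : 0 ≤ ph h s x := by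
  induction s with
  | nil => simp [ph]
  | cons b s ih =>
    have := hh s.length x
    cases b
    · simp only [ph, ContinuousMap.mul_apply]
      apply mul_nonneg ih
      simp; linarith
    · simp only [ph, ContinuousMap.mul_apply]
      apply mul_nonneg ih
      simp; linarith

theorem ph_add (s : List Bool) : ph h (true :: s) + ph h (false :: s) = ph h s := by
  simp only [ph]
  simp
  ring

theorem ph_pos (hh : ∀ n x, 0 ≤ h n x ∧ h n x ≤ 1) {b : Bool} {s : List Bool} {x : K}
    (hx : 0 < ph h (b :: s) x) : 0 < ph h s x := by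
  rcases (ph_nonneg hh s x).lt_or_eq with h1 | h1
  · exact h1
  · simp only [ph, ContinuousMap.mul_apply] at hx
    rw [← h1] at hx
    simp at hx

theorem ph_sep {x y : K} (t : List Bool) (n : ℕ) (hn : n < t.length) (hx : h n x = 0)
    (hy : h n y = 1) : ph h t x * ph h t y = 0 := by
  induction t with
  | nil => simp at hn
  | cons b s ih =>
    simp only [ph, ContinuousMap.mul_apply]
    rcases Nat.lt_succ_iff_lt_or_eq.mp hn with h1 | h1
    · have := ih h1
      calc _ = (ph h s x * ph h s y) * ((if b then h s.length else 1 - h s.length) x *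
          (if b then h s.length else 1 - h s.length) y) := by ring
        _ = 0 := by rw [this, zero_mul]
    · subst h1
      cases b
      · simp [hy]
      · simp [hx]

theorem aa_nonneg (μ : WeakDual ℝ C(K, ℝ)) (s : List Bool) : 0 ≤ aa h μ s := le_max_right _ _

theorem aa_le (μ : WeakDual ℝ C(K, ℝ)) (s : List Bool) :
    aa h μ s ≤ aa h μ (true :: s) + aa h μ (false :: s) := by
  unfold aa
  apply max_le
  · rw [← ph_add s, map_add]
    exact add_le_add (le_max_left _ _) (le_max_left _ _)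
  · exact add_nonneg (le_max_right _ _) (le_max_right _ _)

theorem mm_bd (μ : WeakDual ℝ C(K, ℝ)) (s : List Bool) :
    0 ≤ mm h μ s ∧ mm h μ s ≤ aa h μ s := by
  induction s with
  | nil => exact ⟨aa_nonneg μ [], le_rfl⟩
  | cons b s ih =>
    have h1 := aa_nonneg (h := h) μ (true :: s)
    have h2 := aa_nonneg (h := h) μ (false :: s)
    have h3 := aa_nonneg (h := h) μ (b :: s)
    have h4 := aa_le (h := h) μ s
    simp only [mm]
    refine ⟨mul_nonneg ih.1 (div_nonneg h3 (add_nonneg h1 h2)), ?_⟩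
    rcases (add_nonneg h1 h2).lt_or_eq with h5 | h5
    · rw [← mul_div_assoc, div_le_iff₀ h5]
      nlinarith [ih.1, ih.2]
    · rw [← h5]; simpa using h3

theorem mm_add (μ : WeakDual ℝ C(K, ℝ)) (s : List Bool) :
    mm h μ (true :: s) + mm h μ (false :: s) = mm h μ s := by
  have h1 := aa_nonneg (h := h) μ (true :: s)
  have h2 := aa_nonneg (h := h) μ (false :: s)
  have h4 := aa_le (h := h) μ s
  have h6 := mm_bd (h := h) μ s
  simp only [mm]
  rcases (add_nonneg h1 h2).lt_or_eq with h5 | h5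
  · field_simp
  · have : mm h μ s = 0 := by linarith [h6.1, h6.2]
    rw [this]; simp

theorem aa_cont (s : List Bool) : Continuous fun μ : WeakDual ℝ C(K, ℝ) => aa h μ s :=
  (WeakDual.eval_continuous _).max continuous_const

theorem mm_cont (s : List Bool) : Continuous fun μ : WeakDual ℝ C(K, ℝ) => mm h μ s := by
  induction s with
  | nil => exact aa_cont []
  | cons b s ih =>
    rw [continuous_iff_continuousAt]
    intro μ
    have h1 := aa_nonneg (h := h) μ (true :: s)
    have h2 := aa_nonneg (h := h) μ (false :: s)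
    rcases (add_nonneg h1 h2).lt_or_eq with h5 | h5
    · simp only [mm]
      exact ih.continuousAt.mul ((aa_cont _).continuousAt.div
        ((aa_cont _).continuousAt.add (aa_cont _).continuousAt) h5.ne')
    · have h6 : aa h μ (b :: s) = 0 := by cases b <;> linarith
      have h7 : mm h μ (b :: s) = 0 := by
        have := mm_bd (h := h) μ (b :: s)
        linarith [this.1, this.2]
      unfold ContinuousAt
      simp only []
      rw [h7]
      have h8 := (aa_cont (h := h) (b :: s)).tendsto μ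
      rw [h6] at h8
      exact squeeze_zero (fun ν => (mm_bd ν _).1) (fun ν => (mm_bd ν _).2) h8

variable [Nonempty K]

theorem pt_pos {s : List Bool} {x : K} (hx : 0 < ph h s x) : 0 < ph h s (pt h s) :=
  Classical.epsilon_spec (p := fun x => 0 < ph h s x) ⟨x, hx⟩

theorem VV_zero (μ : WeakDual ℝ C(K, ℝ)) (s : List Bool) (f : C(K, ℝ)) :
    VV h μ 0 s f = mm h μ s * f (pt h s) := by
  simp [VV]

theorem VV_succ (μ : WeakDual ℝ C(K, ℝ)) (n : ℕ) (s : List Bool) (f : C(K, ℝ)) :
    VV h μ (n + 1) s f = VV h μ n (true :: s) f + VV h μ n (false :: s) f := by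
  simp [VV]

theorem VV_cont (n : ℕ) (s : List Bool) (f : C(K, ℝ)) :
    Continuous fun μ : WeakDual ℝ C(K, ℝ) => VV h μ n s f := by
  induction n generalizing s with
  | zero => simp only [VV_zero]; exact (mm_cont s).mul continuous_const
  | succ n ih => simp only [VV_succ]; exact (ih _).add (ih _)

theorem ex_pos (hh : ∀ n x, 0 ≤ h n x ∧ h n x ≤ 1) {μ : WeakDual ℝ C(K, ℝ)} {s : List Bool}
    (hm : μ (ph h s) ≠ 0) : 0 < ph h s (pt h s) := by
  by_contra hc
  apply hm
  have : ph h s = 0 := by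
    ext x
    rcases (ph_nonneg hh s x).lt_or_eq with h1 | h1
    · exact absurd (pt_pos h1) hc
    · simpa using h1.symm
  rw [this, map_zero]

theorem VV_bd (hh : ∀ n x, 0 ≤ h n x ∧ h n x ≤ 1) (μ : WeakDual ℝ C(K, ℝ)) (f : C(K, ℝ))
    (lo hi : ℝ) (n : ℕ) (s : List Bool) (hf : ∀ x, 0 < ph h s x → lo ≤ f x ∧ f x ≤ hi) :
    lo * mm h μ s ≤ VV h μ n s f ∧ VV h μ n s f ≤ hi * mm h μ s := by
  induction n generalizing s with
  | zero =>
    rw [VV_zero]
    have h1 := mm_bd (h := h) μ s
    by_cases h2 : μ (ph h s) = 0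
    · have : mm h μ s = 0 := by
        have h3 : aa h μ s = 0 := by simp [aa, h2]
        linarith [h1.1, h1.2]
      rw [this]; simp
    · have h3 := hf _ (ex_pos hh h2)
      constructor <;> nlinarith [h1.1, h3.1, h3.2]
  | succ n ih =>
    rw [VV_succ, ← mm_add μ s]
    have h1 := ih (true :: s) (fun x hx => hf x (ph_pos hh hx))
    have h2 := ih (false :: s) (fun x hx => hf x (ph_pos hh hx))
    constructor <;> linarith [h1.1, h1.2, h2.1, h2.2]

/-- small oscillation on the pieces of depth `≥ N` -/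
def Osc (h : ℕ → C(K, ℝ)) (f : C(K, ℝ)) (N : ℕ) (ε : ℝ) : Prop :=
  ∀ t : List Bool, N ≤ t.length → ∀ x y, 0 < ph h t x → 0 < ph h t y → |f x - f y| ≤ ε

theorem VV_cauchy (hh : ∀ n x, 0 ≤ h n x ∧ h n x ≤ 1) (μ : WeakDual ℝ C(K, ℝ)) {f : C(K, ℝ)}
    {N : ℕ} {ε : ℝ} (ho : Osc h f N ε) (k n : ℕ) (s : List Bool) (hs : N ≤ s.length + n) :
    |VV h μ (n + k) s f - VV h μ n s f| ≤ ε * mm h μ s := by
  induction n generalizing s with
  | zero =>
    have := VV_bd hh μ f (f (pt h s) - ε) (f (pt h s) + ε) k s (fun x hx => by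
      have := ho s (by simpa using hs) x _ hx (pt_pos hx)
      rw [abs_le] at this
      constructor <;> linarith [this.1, this.2])
    rw [zero_add, VV_zero, abs_le]
    constructor <;> linarith [this.1, this.2]
  | succ n ih =>
    have e : n + 1 + k = (n + k) + 1 := by ring
    rw [e, VV_succ, VV_succ, ← mm_add μ s]
    have h1 := ih (true :: s) (by simp; omega)
    have h2 := ih (false :: s) (by simp; omega)
    rw [abs_le] at *
    constructor <;> linarith [h1.1, h1.2, h2.1, h2.2]

theorem VV_upper (hh : ∀ n x, 0 ≤ h n x ∧ h n x ≤ 1) (μ : WeakDual ℝ C(K, ℝ)) {f : C(K, ℝ)}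
    (hf : 0 ≤ f) {N : ℕ} {ε : ℝ} (hε : 0 ≤ ε) (ho : Osc h f N ε) (n : ℕ) (s : List Bool)
    (hs : N ≤ s.length + n) :
    ∃ g : C(K, ℝ), (∀ x, 0 ≤ g x ∧ g x ≤ (f x + ε) * ph h s x) ∧ VV h μ n s f ≤ μ g := by
  induction n generalizing s with
  | zero =>
    have h1 := mm_bd (h := h) μ s
    rw [VV_zero]
    have hf' : ∀ x, 0 ≤ f x := fun x => hf x
    by_cases h2 : 0 < μ (ph h s)
    · refine ⟨f (pt h s) • ph h s, fun x => ?_, ?_⟩
      · simp only [ContinuousMap.smul_apply, smul_eq_mul]
        refine ⟨mul_nonneg (hf' _) (ph_nonneg hh s x), ?_⟩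
        rcases (ph_nonneg hh s x).lt_or_eq with h3 | h3
        · have := ho s (by simpa using hs) x _ h3 (pt_pos h3)
          rw [abs_le] at this
          exact mul_le_mul_of_nonneg_right (by linarith [this.1]) h3.le
        · rw [← h3]; simp
      · rw [map_smul, smul_eq_mul]
        have h3 : aa h μ s = μ (ph h s) := max_eq_left h2.le
        nlinarith [h1.2, hf' (pt h s)]
    · refine ⟨0, fun x => ?_, ?_⟩
      · simp only [ContinuousMap.zero_apply, le_refl, true_and]
        exact mul_nonneg (add_nonneg (hf' x) hε) (ph_nonneg hh s x)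
      · have h3 : aa h μ s = 0 := max_eq_right (not_lt.mp h2)
        have : mm h μ s = 0 := by linarith [h1.1, h1.2]
        rw [this]; simp
  | succ n ih =>
    obtain ⟨g1, h1, h1'⟩ := ih (true :: s) (by simp; omega)
    obtain ⟨g2, h2, h2'⟩ := ih (false :: s) (by simp; omega)
    refine ⟨g1 + g2, fun x => ?_, ?_⟩
    · have h3 : ph h (true :: s) x + ph h (false :: s) x = ph h s x := by
        rw [← ph_add s]; simp
      simp only [ContinuousMap.add_apply]
      rw [← h3]
      constructor <;> linarith [(h1 x).1, (h1 x).2, (h2 x).1, (h2 x).2]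
    · rw [VV_succ, map_add]; linarith

theorem le_pos (μ : WeakDual ℝ C(K, ℝ)) {f g : C(K, ℝ)} (h0 : 0 ≤ g) (h1 : g ≤ f) :
    μ g ≤ pos μ f := by
  apply le_csSup
  · refine ⟨‖WeakDual.toStrongDual μ‖ * ‖f‖, ?_⟩
    rintro r ⟨g, a, b, rfl⟩
    have h2 := (WeakDual.toStrongDual μ).le_opNorm g
    have h3 : ‖g‖ ≤ ‖f‖ := by
      rw [ContinuousMap.norm_le _ (norm_nonneg _)]
      intro x
      have := f.norm_coe_le_norm x
      have a' : 0 ≤ g x := a x
      have b' : g x ≤ f x := b x
      rw [Real.norm_eq_abs] at *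
      rw [abs_of_nonneg a']
      linarith [le_abs_self (f x)]
    have h4 : μ g ≤ ‖WeakDual.toStrongDual μ g‖ := le_abs_self _
    nlinarith [norm_nonneg (WeakDual.toStrongDual μ)]
  · exact ⟨g, h0, h1, rfl⟩

theorem exists_comp (hh : ∀ n x, 0 ≤ h n x ∧ h n x ≤ 1)
    (ho : ∀ (f : C(K, ℝ)) (ε : ℝ), 0 < ε → ∃ N, Osc h f N ε) :
    ∃ ξ : WeakDual ℝ C(K, ℝ) → WeakDual ℝ C(K, ℝ), Continuous ξ ∧ ∀ μ, IsComp μ (ξ μ) := by
  have hc : ∀ (μ : WeakDual ℝ C(K, ℝ)) (f : C(K, ℝ)), CauchySeq fun n => VV h μ n [] f := by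
    intro μ f
    rw [Metric.cauchySeq_iff']
    intro η hη
    have h1 := (mm_bd (h := h) μ []).1
    obtain ⟨N, hN⟩ := ho f (η / (mm h μ [] + 1)) (by positivity)
    refine ⟨N, fun n hn => ?_⟩
    obtain ⟨k, rfl⟩ := Nat.exists_eq_add_of_le hn
    rw [Real.dist_eq]
    refine (VV_cauchy hh μ hN k N [] (by simp)).trans_lt ?_
    rw [div_mul_eq_mul_div, div_lt_iff₀ (by positivity)]
    nlinarith
  choose L hL using fun μ f => cauchySeq_tendsto_of_complete (hc μ f)
  let ξ : WeakDual ℝ C(K, ℝ) → WeakDual ℝ C(K, ℝ) := fun μ =>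
    StrongDual.toWeakDual (continuousLinearMapOfTendsto (fun n => VV h μ n [])
      (f := L μ) (l := atTop) (tendsto_pi_nhds.mpr (hL μ)))
  have hξ : ∀ μ f, ξ μ f = L μ f := fun μ f => rfl
  have hb : ∀ μ f lo hi, (∀ x, lo ≤ f x ∧ f x ≤ hi) →
      lo * mm h μ [] ≤ L μ f ∧ L μ f ≤ hi * mm h μ [] := fun μ f lo hi hf =>
    ⟨ge_of_tendsto' (hL μ f) fun n => (VV_bd hh μ f lo hi n [] fun x _ => hf x).1,
     le_of_tendsto' (hL μ f) fun n => (VV_bd hh μ f lo hi n [] fun x _ => hf x).2⟩
  have happ : ∀ μ f N ε, Osc h f N ε → |L μ f - VV h μ N [] f| ≤ ε * mm h μ [] := by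
    intro μ f N ε hN
    have h1 : Tendsto (fun k => |VV h μ (N + k) [] f - VV h μ N [] f|) atTop
        (𝓝 |L μ f - VV h μ N [] f|) := by
      apply Tendsto.abs
      apply Tendsto.sub_const
      have := (hL μ f).comp (tendsto_add_atTop_nat N)
      refine this.congr fun k => ?_
      simp [add_comm]
    exact le_of_tendsto' h1 fun k => VV_cauchy hh μ hN k N [] (by simp)
  refine ⟨ξ, ?_, fun μ => ?_⟩
  · apply WeakDual.continuous_of_continuous_eval
    intro f
    simp only [hξ]
    rw [continuous_iff_continuousAt]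
    intro μ
    rw [ContinuousAt, Metric.tendsto_nhds]
    intro η hη
    have h1 := (mm_bd (h := h) μ []).1
    obtain ⟨N, hN⟩ := ho f (η / 3 / (mm h μ [] + 1)) (by positivity)
    have h2 := (Metric.tendsto_nhds.mp ((VV_cont (h := h) N [] f).tendsto μ)) (η / 3)
      (by positivity)
    have h3 := ((mm_cont (h := h) []).tendsto μ).eventually
      (gt_mem_nhds (show mm h μ [] < mm h μ [] + 1 by linarith))
    filter_upwards [h2, h3] with ν a b
    have h4 := happ μ f N _ hN
    have h5 := happ ν f N _ hN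
    have h6 : η / 3 / (mm h μ [] + 1) * mm h μ [] ≤ η / 3 := by
      rw [div_mul_eq_mul_div, div_le_iff₀ (by positivity)]; nlinarith
    have h7 : η / 3 / (mm h μ [] + 1) * mm h ν [] ≤ η / 3 := by
      rw [div_mul_eq_mul_div, div_le_iff₀ (by positivity)]; nlinarith
    rw [Real.dist_eq] at *
    rw [abs_lt] at a ⊢
    rw [abs_le] at h4 h5
    constructor <;> linarith [a.1, a.2, h4.1, h4.2, h5.1, h5.2]
  · have hm : mm h μ [] = max (μ 1) 0 := rfl
    by_cases h0 : 0 < μ 1
    · left
      refine ⟨h0, fun f hf => ⟨?_, ?_⟩, ?_⟩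
      · have := (hb μ f 0 ‖f‖ fun x => ⟨hf x, (le_abs_self _).trans (f.norm_coe_le_norm x)⟩).1
        simpa [hξ] using this
      · rw [hξ]
        apply le_of_forall_pos_le_add
        intro η hη
        have c0 := norm_nonneg (WeakDual.toStrongDual μ)
        set c := ‖WeakDual.toStrongDual μ‖ with hc'
        obtain ⟨N, hN⟩ := ho f (η / (c + 1)) (by positivity)
        apply le_of_tendsto (hL μ f)
        filter_upwards [eventually_ge_atTop N] with n hn
        obtain ⟨g, hg, hg'⟩ := VV_upper hh μ hf (by positivity) hN n [] (by simpa using hn)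
        have h1 : μ (g ⊓ f) ≤ pos μ f :=
          le_pos μ (le_inf (fun x => (hg x).1) hf) inf_le_right
        have h2 : ‖g - g ⊓ f‖ ≤ η / (c + 1) := by
          rw [ContinuousMap.norm_le _ (by positivity)]
          intro x
          have h3 := (hg x).2
          simp only [ph, ContinuousMap.one_apply, mul_one] at h3
          have h4 : 0 < η / (c + 1) := by positivity
          simp only [ContinuousMap.sub_apply, ContinuousMap.inf_apply, Real.norm_eq_abs]
          rw [abs_le]
          rcases le_total (g x) (f x) with h5 | h5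
          · rw [min_eq_left h5]; constructor <;> linarith
          · rw [min_eq_right h5]; constructor <;> linarith
        have h3 := (WeakDual.toStrongDual μ).le_opNorm (g - g ⊓ f)
        have h4 : μ (g - g ⊓ f) ≤ ‖WeakDual.toStrongDual μ (g - g ⊓ f)‖ := le_abs_self _
        have h5 : c * ‖g - g ⊓ f‖ ≤ η := by
          calc _ ≤ c * (η / (c + 1)) := mul_le_mul_of_nonneg_left h2 c0
            _ ≤ η := by rw [← mul_div_assoc, div_le_iff₀ (by positivity)]; nlinarith
        rw [map_sub] at h4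
        linarith
      · have := hb μ 1 1 1 fun x => by simp
        rw [hm, max_eq_left h0.le] at this
        rw [hξ]; linarith [this.1, this.2]
    · right
      refine ⟨not_lt.mp h0, ?_⟩
      apply DFunLike.ext
      intro f
      have := hb μ f (-‖f‖) ‖f‖ fun x => abs_le.mp (f.norm_coe_le_norm x)
      rw [hm, max_eq_right (not_lt.mp h0)] at this
      rw [hξ]
      show _ = (0 : ℝ)
      linarith [this.1, this.2]

end Pool.Agent.H88.Cp
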