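import Mathlib

namespace Pool.Agent.H88.Cp
open Filter Topology Set
set_option linter.unusedSectionVars false

variable {K : Type*} [TopologicalSpace K] [CompactSpace K] [T2Space K]

def RR (D : Set C(K, ℝ)) (x y : K) : Prop := ∀ f ∈ D, f x = f y

theorem urys {a b : K} (hab : a ≠ b) : ∃ f : C(K, ℝ), f a ≠ f b := by
  obtain ⟨f, h1, h2, -⟩ := exists_continuous_zero_one_of_isClosed (isClosed_singleton (x := a))
    (isClosed_singleton (x := b)) (disjoint_singleton.mpr hab)
  refine ⟨f, ?_⟩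
  rw [h1 (mem_singleton a), h2 (mem_singleton b)]
  simp

theorem step1 (T : K × K → C(K, ℝ)) (hT : ∀ a b, a ≠ b → ContinuousAt T (a, b))
    (D : Set C(K, ℝ)) (hD : D.Countable) :
    ∃ E : Set C(K, ℝ), E.Countable ∧ ∀ a b, ¬ RR D a b → T (a, b) ∈ closure E := by
  have := hD.to_subtype
  let W : D × ℕ → Set (K × K) := fun i => {p | 1 / ((i.2 : ℝ) + 1) ≤ |i.1.1 p.1 - i.1.1 p.2|}
  have h1 : ∀ i, IsCompact (T '' W i) := by
    intro i
    apply IsCompact.image_of_continuousOn
    · apply IsClosed.isCompact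
      apply isClosed_le continuous_const
      fun_prop
    · rintro ⟨a, b⟩ hp
      apply ContinuousAt.continuousWithinAt
      apply hT
      rintro rfl
      simp only [W, mem_ofPred_eq, sub_self, abs_zero] at hp
      have : (0 : ℝ) < 1 / ((i.2 : ℝ) + 1) := by positivity
      linarith
  obtain ⟨E, hE, hE'⟩ := TopologicalSpace.IsSeparable.iUnion fun i => (h1 i).isSeparable
  refine ⟨E, hE, fun a b hab => hE' ?_⟩
  simp only [RR, not_forall] at hab
  obtain ⟨f, hf, hab⟩ := hab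
  obtain ⟨k, hk⟩ := exists_nat_one_div_lt (abs_pos.mpr (sub_ne_zero.mpr hab))
  exact mem_iUnion.mpr ⟨(⟨f, hf⟩, k), (a, b), hk.le, rfl⟩

theorem step2 (D : Set C(K, ℝ)) (hD : D.Countable) :
    ∃ E : Set C(K, ℝ), E.Countable ∧ ∀ x, IsOpen {y | RR D x y} → (∃ y, RR D x y ∧ y ≠ x) →
      ∃ y z, RR D x y ∧ RR D x z ∧ ¬ RR E y z := by
  have := hD.to_subtype
  let e : K → (D → ℝ) := fun x f => f.1 x
  have he : Continuous e := continuous_pi fun f => f.1.continuous
  have hR : ∀ x y, RR D x y ↔ e y = e x := by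
    intro x y
    constructor
    · intro h; funext f; exact (h f.1 f.2).symm
    · intro h f hf; exact (congrFun h ⟨f, hf⟩).symm
  let P : Set (D → ℝ) := {p | IsOpen (e ⁻¹' {p}) ∧ ∃ y z, e y = p ∧ e z = p ∧ y ≠ z}
  have hP : P.Countable := by
    obtain ⟨t, -, h2, h3⟩ := TopologicalSpace.countable_cover_nhdsWithin (s := P)
      (f := fun p => {p}) (fun p hp => by
        have h1 : IsClosed (e '' (e ⁻¹' {p})ᶜ) :=
          (hp.1.isClosed_compl.isCompact.image he).isClosed
        rw [mem_nhdsWithin]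
        refine ⟨_, h1.isOpen_compl, ?_, ?_⟩
        · rintro ⟨x, hx, hx'⟩
          exact hx hx'
        · rintro q ⟨hq, -, y, -, hy, -⟩
          by_contra hc
          exact hq ⟨y, fun h => hc (hy ▸ h), hy⟩)
    refine h2.mono fun p hp => ?_
    have := h3 hp
    simp only [mem_iUnion, mem_singleton_iff] at this
    obtain ⟨q, hq, rfl⟩ := this
    exact hq
  have h4 : ∀ p : P, ∃ f : C(K, ℝ), ∃ y z, e y = p ∧ e z = p ∧ f y ≠ f z := by
    rintro ⟨p, -, y, z, h1, h2, h3⟩
    obtain ⟨f, hf⟩ := urys h3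
    exact ⟨f, y, z, h1, h2, hf⟩
  choose F hF using h4
  have := hP.to_subtype
  refine ⟨range F, countable_range F, fun x hx ⟨y, hy, hy'⟩ => ?_⟩
  have h5 : e x ∈ P := by
    refine ⟨?_, y, x, (hR x y).mp hy, rfl, hy'⟩
    convert hx using 1
    ext y
    simp [hR]
  obtain ⟨y, z, h1, h2, h3⟩ := hF ⟨_, h5⟩
  exact ⟨y, z, (hR _ _).mpr h1, (hR _ _).mpr h2, fun h => h3 (h _ ⟨_, rfl⟩)⟩

theorem countable_sep (T : K × K → C(K, ℝ)) (hT : ∀ a b, a ≠ b → ContinuousAt T (a, b))
    (hs : ∀ a b, a ≠ b → T (a, b) a ≠ T (a, b) b) :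
    ∃ D : Set C(K, ℝ), D.Countable ∧ ∀ a b, RR D a b → a = b := by
  have step : ∀ D : {D : Set C(K, ℝ) // D.Countable}, ∃ E : {D : Set C(K, ℝ) // D.Countable},
      D.1 ⊆ E.1 ∧ (∀ a b, ¬ RR D.1 a b → T (a, b) ∈ closure E.1) ∧
      ∀ x, IsOpen {y | RR D.1 x y} → (∃ y, RR D.1 x y ∧ y ≠ x) →
        ∃ y z, RR D.1 x y ∧ RR D.1 x z ∧ ¬ RR E.1 y z := by
    rintro ⟨D, hD⟩
    obtain ⟨E1, h1, h1'⟩ := step1 T hT D hD
    obtain ⟨E2, h2, h2'⟩ := step2 D hD
    refine ⟨⟨D ∪ E1 ∪ E2, (hD.union h1).union h2⟩, fun f hf => Or.inl (Or.inl hf),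
      fun a b hab => closure_mono (fun f hf => Or.inl (Or.inr hf)) (h1' a b hab),
      fun x hx hy => ?_⟩
    obtain ⟨y, z, a1, a2, a3⟩ := h2' x hx hy
    exact ⟨y, z, a1, a2, fun h => a3 fun f hf => h f (Or.inr hf)⟩
  choose F hF1 hF2 hF3 using step
  let d : ℕ → {D : Set C(K, ℝ) // D.Countable} := fun n => F^[n] ⟨∅, countable_empty⟩
  have hd : ∀ n, d (n + 1) = F (d n) := fun n => Function.iterate_succ_apply' F n _
  have hmono : Monotone fun n => (d n).1 :=
    monotone_nat_of_le_succ fun n => by simp only [hd]; exact hF1 _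
  set D : Set C(K, ℝ) := ⋃ n, (d n).1 with hD
  have hsub : ∀ n, (d n).1 ⊆ D := fun n => subset_iUnion (fun n => (d n).1) n
  have hR : ∀ x y, RR D x y ↔ ∀ n, RR (d n).1 x y := by
    intro x y
    constructor
    · intro h n f hf; exact h f (hsub n hf)
    · intro h f hf
      obtain ⟨n, hn⟩ := mem_iUnion.mp hf
      exact h n f hn
  have s1 : ∀ a b, a ≠ b → RR D a b → ∀ᶠ p in 𝓝 (a, b), RR D p.1 p.2 := by
    intro a b hab hr
    by_contra hc
    rw [Filter.not_eventually] at hc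
    have h1 : T (a, b) ∈ closure D := by
      apply isClosed_closure.mem_of_frequently_of_tendsto _ (hT a b hab)
      refine hc.mono fun p hp => ?_
      rw [hR, not_forall] at hp
      obtain ⟨n, hn⟩ := hp
      have := hF2 _ _ _ hn
      rw [← hd] at this
      exact closure_mono (hsub _) this
    have h2 : closure D ⊆ {f : C(K, ℝ) | f a = f b} :=
      closure_minimal (fun f hf => hr f hf)
        (isClosed_eq (continuous_eval_const a) (continuous_eval_const b))
    exact hs a b hab (h2 h1)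
  refine ⟨D, countable_iUnion fun n => (d n).2, fun a b hr => ?_⟩
  by_contra hab
  have s2 : IsOpen {y | RR D a y} := by
    rw [isOpen_iff_eventually]
    intro x hx
    obtain ⟨y, hy, hxy⟩ : ∃ y, RR D a y ∧ x ≠ y := by
      by_cases h : x = a
      · exact ⟨b, hr, h ▸ hab⟩
      · exact ⟨a, fun f _ => rfl, h⟩
    have h1 := s1 x y hxy fun f hf => (hx f hf).symm.trans (hy f hf)
    have h2 : Tendsto (fun z => (z, y)) (𝓝 x) (𝓝 (x, y)) :=
      (continuous_id.prodMk continuous_const).tendsto x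
    filter_upwards [h2.eventually h1] with z hz
    exact fun f hf => (hy f hf).trans (hz f hf).symm
  have hcl : ∀ E : Set C(K, ℝ), IsClosed {y | RR E a y} := by
    intro E
    have : {y | RR E a y} = ⋂ f ∈ E, {y | f a = f y} := by
      ext y; simp [RR]
    rw [this]
    exact isClosed_biInter fun f _ => isClosed_eq continuous_const f.continuous
  have s3 : ∃ n, {y | RR (d n).1 a y} ⊆ {y | RR D a y} := by
    apply exists_subset_nhds_of_compactSpace _ (fun n => hcl _)
    · intro y hy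
      exact s2.mem_nhds ((hR a y).mpr fun n => mem_iInter.mp hy n)
    · apply directed_of_isDirected_le
      intro m n hmn y hy f hf
      exact hy f (hmono hmn hf)
  obtain ⟨n, hn⟩ := s3
  have h1 : {y | RR (d n).1 a y} = {y | RR D a y} :=
    hn.antisymm fun y hy => (hR a y).mp hy n
  obtain ⟨y, z, a1, a2, a3⟩ := hF3 (d n) a (h1 ▸ s2) ⟨b, (hR a b).mp hr n, Ne.symm hab⟩
  apply a3
  rw [← hd]
  intro f hf
  exact (hn a1 f (hsub _ hf)).symm.trans (hn a2 f (hsub _ hf))

end Pool.Agent.H88.Cp
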