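import Pool.Agent.H88.Cp1
import Pool.Agent.H88.Cp2

namespace Pool.Agent.H88.Cp
open Filter Topology Set
set_option linter.unusedSectionVars false

variable {K : Type*} [TopologicalSpace K] [CompactSpace K] [T2Space K]

theorem osc_of_sep (D : Set C(K, ℝ)) (hD : D.Countable) (hs : ∀ a b, RR D a b → a = b) :
    ∃ h : ℕ → C(K, ℝ), (∀ n x, 0 ≤ h n x ∧ h n x ≤ 1) ∧
      ∀ (f : C(K, ℝ)) (ε : ℝ), 0 < ε → ∃ N, Osc h f N ε := by
  have := (hD.insert 0).to_subtype
  have : Nonempty ↥(insert (0 : C(K, ℝ)) D) := ⟨⟨0, Or.inl rfl⟩⟩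
  obtain ⟨e, he⟩ := exists_surjective_nat (↥(insert (0 : C(K, ℝ)) D) × ℚ × ℚ)
  let r : ℕ → K → ℝ := fun n x => ((e n).1.1 x - (e n).2.1) / ((e n).2.2 - (e n).2.1)
  have hr : ∀ n, Continuous (r n) := fun n => by
    simp only [r]; fun_prop
  let h : ℕ → C(K, ℝ) := fun n => ⟨fun x => min 1 (max 0 (r n x)),
    continuous_const.min (continuous_const.max (hr n))⟩
  have hh : ∀ n x, 0 ≤ h n x ∧ h n x ≤ 1 := fun n x =>
    ⟨le_min zero_le_one (le_max_left _ _), min_le_left _ _⟩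
  refine ⟨h, hh, fun f ε hε => ?_⟩
  have hc : IsCompact {p : K × K | ε ≤ |f p.1 - f p.2|} := by
    apply IsClosed.isCompact
    apply isClosed_le continuous_const
    fun_prop
  obtain ⟨t, ht⟩ := hc.elim_finite_subcover (fun n => {p : K × K | r n p.1 < 0 ∧ 1 < r n p.2})
    (fun n => (isOpen_lt ((hr n).comp continuous_fst) continuous_const).inter
      (isOpen_lt continuous_const ((hr n).comp continuous_snd))) (by
      rintro ⟨x, y⟩ hp
      have hxy : ¬ RR D x y := fun h => by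
        have := hs x y h
        subst this
        simp at hp
        linarith
      simp only [RR, not_forall] at hxy
      obtain ⟨g, hg, hxy⟩ := hxy
      rw [mem_iUnion]
      rcases lt_or_gt_of_ne hxy with h1 | h1
      · obtain ⟨p, a1, a2⟩ := exists_rat_btwn h1
        obtain ⟨q, a3, a4⟩ := exists_rat_btwn a2
        obtain ⟨n, hn⟩ := he (⟨g, Or.inr hg⟩, p, q)
        refine ⟨n, ?_, ?_⟩
        · simp only [r, hn]
          exact div_neg_of_neg_of_pos (by linarith) (by linarith)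
        · simp only [r, hn]
          rw [lt_div_iff₀ (by linarith)]; linarith
      · obtain ⟨p, a1, a2⟩ := exists_rat_btwn h1
        obtain ⟨q, a3, a4⟩ := exists_rat_btwn a1
        obtain ⟨n, hn⟩ := he (⟨g, Or.inr hg⟩, p, q)
        refine ⟨n, ?_, ?_⟩
        · simp only [r, hn]
          exact div_neg_of_pos_of_neg (by linarith) (by linarith)
        · simp only [r, hn]
          rw [lt_div_iff_of_neg (by linarith)]; linarith)
  refine ⟨t.sup id + 1, fun s hs x y hx hy => ?_⟩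
  by_contra hc
  have h1 := ht (show (x, y) ∈ {p : K × K | ε ≤ |f p.1 - f p.2|} from (not_le.mp hc).le)
  simp only [mem_iUnion] at h1
  obtain ⟨n, hn, h2, h3⟩ := h1
  have h4 : n ≤ t.sup id := Finset.le_sup (f := id) hn
  have h5 := ph_sep (h := h) (x := x) (y := y) s n (by omega)
    (by simp only [h, ContinuousMap.coe_mk]; rw [max_eq_left h2.le]; simp)
    (by simp only [h, ContinuousMap.coe_mk]; exact min_eq_left (le_max_of_le_right h3.le))
  have := mul_pos hx hy
  linarith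

noncomputable def m3 (a b c : K) : WeakDual ℝ C(K, ℝ) :=
  StrongDual.toWeakDual ((1 / 3 : ℝ) • (ContinuousMap.evalCLM ℝ a + ContinuousMap.evalCLM ℝ b -
    ContinuousMap.evalCLM ℝ c))

theorem m3_apply (a b c : K) (f : C(K, ℝ)) : m3 a b c f = 1 / 3 * (f a + f b - f c) := rfl

theorem m3_norm (a b c : K) : ‖WeakDual.toStrongDual (m3 a b c)‖ ≤ 1 := by
  apply ContinuousLinearMap.opNorm_le_bound _ zero_le_one
  intro f
  rw [WeakDual.toStrongDual_apply, m3_apply, Real.norm_eq_abs, abs_le]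
  have h1 := abs_le.mp (f.norm_coe_le_norm a)
  have h2 := abs_le.mp (f.norm_coe_le_norm b)
  have h3 := abs_le.mp (f.norm_coe_le_norm c)
  constructor <;> linarith [h1.1, h1.2, h2.1, h2.2, h3.1, h3.2]

theorem van {μ ν : WeakDual ℝ C(K, ℝ)} (h : ∀ f : C(K, ℝ), 0 ≤ f → 0 ≤ ν f ∧ ν f ≤ pos μ f)
    (g : C(K, ℝ)) (hg : ∀ k : C(K, ℝ), 0 ≤ k → k ≤ |g| → μ k ≤ 0) : ν g = 0 := by
  have h1 : pos μ |g| ≤ 0 := by
    refine csSup_le ⟨μ 0, ⟨0, le_rfl, abs_nonneg g, rfl⟩⟩ ?_
    rintro r ⟨k, a, b, rfl⟩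
    exact hg k a b
  have h2 := (h _ (abs_nonneg g)).2
  have h3 := (h (|g| - g) (sub_nonneg.mpr (le_abs_self g))).1
  have h4 := (h (|g| - -g) (sub_nonneg.mpr (neg_le_abs g))).1
  rw [map_sub] at h3 h4
  rw [map_neg] at h4
  linarith

theorem sep_of_ball (H : HasComp {μ : WeakDual ℝ C(K, ℝ) | ‖WeakDual.toStrongDual μ‖ ≤ 1}) :
    ∃ D : Set C(K, ℝ), D.Countable ∧ ∀ a b, RR D a b → a = b := by
  classical
  obtain ⟨ξ, hξ, hc⟩ := H
  let ν : K → K → K → WeakDual ℝ C(K, ℝ) := fun a b c => ξ ⟨m3 a b c, m3_norm a b c⟩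
  have hν : ∀ a b c, (∀ f : C(K, ℝ), 0 ≤ f → 0 ≤ ν a b c f ∧ ν a b c f ≤ pos (m3 a b c) f) ∧
      ν a b c 1 = 1 / 3 := by
    intro a b c
    rcases hc ⟨m3 a b c, m3_norm a b c⟩ with h | h
    · refine ⟨h.2.1, h.2.2.trans ?_⟩
      simp [m3_apply]
    · have := h.1
      simp [m3_apply] at this
      linarith
  have hcont : ∀ f : C(K, ℝ), Continuous fun p : (K × K) × K => 3 * ν p.1.1 p.1.2 p.2 f := by
    intro f
    apply continuous_const.mul
    apply (WeakDual.eval_continuous f).comp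
    apply hξ.comp
    apply Continuous.subtype_mk
    apply WeakDual.continuous_of_continuous_eval
    intro g
    simp only [m3_apply]
    fun_prop
  let S : C(K, ℝ) → C(K × K, C(K, ℝ)) := fun f => ContinuousMap.curry ⟨_, hcont f⟩
  have hS : ∀ f a b c, S f (a, b) c = 3 * ν a b c f := fun f a b c => rfl
  let Q : C(K, ℝ) → K × K → C(K, ℝ) := fun f p =>
    (f p.2 - f p.1)⁻¹ • (S f p - f p.1 • (1 : C(K, ℝ)))
  have hQ : ∀ f a b c, Q f (a, b) c = (f b - f a)⁻¹ * (3 * ν a b c f - f a) := by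
    intro f a b c
    simp [Q, hS]
  have v0 : ∀ a b c (g : C(K, ℝ)), (g a = 0 ∨ c = a) → (g b = 0 ∨ c = b) → a ≠ b →
      ν a b c g = 0 := by
    intro a b c g h1 h2 hab
    apply van (hν a b c).1
    intro k k0 k1
    have e1 : ∀ x, 0 ≤ k x := fun x => k0 x
    have e2 : ∀ x, g x = 0 → k x = 0 := fun x hx => by
      have : k x ≤ |g x| := k1 x
      rw [hx, abs_zero] at this
      exact le_antisymm this (e1 x)
    rw [m3_apply]
    rcases h1 with h1 | h1 <;> rcases h2 with h2 | h2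
    · rw [e2 a h1, e2 b h2]; linarith [e1 c]
    · rw [e2 a h1, h2]; linarith
    · rw [e2 b h2, h1]; linarith
    · exact absurd (h1.symm.trans h2) hab
  have hind : ∀ (f f' : C(K, ℝ)) a b, f a ≠ f b → f' a ≠ f' b → Q f (a, b) = Q f' (a, b) := by
    intro f f' a b h1 h2
    ext c
    have h3 := sub_ne_zero.mpr h1.symm
    have h4 := sub_ne_zero.mpr h2.symm
    have := v0 a b c ((f b - f a)⁻¹ • (f - f a • (1 : C(K, ℝ))) -
      (f' b - f' a)⁻¹ • (f' - f' a • (1 : C(K, ℝ)))) (Or.inl (by simp))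
      (Or.inl (by simp [h3, h4])) (fun h => h1 (by rw [h]))
    simp only [map_sub, map_smul, (hν a b c).2, smul_eq_mul] at this
    rw [hQ, hQ]
    linarith
  have hu : ∀ p : K × K, ∃ f : C(K, ℝ), p.1 ≠ p.2 → f p.1 ≠ f p.2 := by
    intro p
    by_cases h : p.1 = p.2
    · exact ⟨0, fun h' => absurd h h'⟩
    · obtain ⟨f, hf⟩ := urys h
      exact ⟨f, fun _ => hf⟩
  choose u hu using hu
  apply countable_sep (fun p => Q (u p) p)
  · intro a b hab
    have h1 := hu (a, b) hab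
    have h2 : ContinuousAt (Q (u (a, b))) (a, b) := by
      have a1 : ContinuousAt (fun p : K × K => (u (a, b) p.2 - u (a, b) p.1)⁻¹) (a, b) := by
        have a0 : ContinuousAt (fun p : K × K => u (a, b) p.2 - u (a, b) p.1) (a, b) := by
          fun_prop
        exact a0.inv₀ (sub_ne_zero.mpr h1.symm)
      have a2 : ContinuousAt (fun p : K × K => S (u (a, b)) p - u (a, b) p.1 • (1 : C(K, ℝ)))
          (a, b) := by
        fun_prop
      exact a1.smul a2
    apply h2.congr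
    have h3 : ∀ᶠ p : K × K in 𝓝 (a, b), u (a, b) p.1 ≠ u (a, b) p.2 :=
      (isOpen_ne_fun (by fun_prop) (by fun_prop)).mem_nhds h1
    filter_upwards [h3] with p hp
    exact hind _ _ p.1 p.2 hp (hu p fun h => hp (by rw [h]))
  · intro a b hab
    have h1 : u (a, b) a ≠ u (a, b) b := hu (a, b) hab
    have h3 := sub_ne_zero.mpr h1.symm
    set f := u (a, b)
    have h4 := v0 a b a (f - f b • (1 : C(K, ℝ))) (Or.inr rfl) (Or.inl (by simp)) hab
    have h5 := v0 a b b (f - f a • (1 : C(K, ℝ))) (Or.inl (by simp)) (Or.inr rfl) hab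
    simp only [map_sub, map_smul, (hν a b _).2, smul_eq_mul] at h4 h5
    rw [hQ, hQ]
    intro h
    have := mul_left_cancel₀ (inv_ne_zero h3) h
    apply h1
    linarith

theorem metr_of_sep (D : Set C(K, ℝ)) (hD : D.Countable) (hs : ∀ a b, RR D a b → a = b) :
    TopologicalSpace.MetrizableSpace K := by
  have := hD.to_subtype
  let e : K → (D → ℝ) := fun x f => f.1 x
  have he : Continuous e := continuous_pi fun f => f.1.continuous
  have hi : Function.Injective e := fun a b h => hs a b fun f hf => congrFun h ⟨f, hf⟩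
  exact (he.isClosedEmbedding hi).isEmbedding.metrizableSpace

theorem main (H : HasComp {μ : WeakDual ℝ C(K, ℝ) | ‖WeakDual.toStrongDual μ‖ ≤ 1}) :
    HasComp (univ : Set (WeakDual ℝ C(K, ℝ))) ∧ TopologicalSpace.MetrizableSpace K := by
  obtain ⟨D, hD, hs⟩ := sep_of_ball H
  refine ⟨?_, metr_of_sep D hD hs⟩
  rcases isEmpty_or_nonempty K with hK | hK
  · refine ⟨fun _ => 0, continuous_const, fun μ => Or.inr ⟨?_, rfl⟩⟩
    have : (1 : C(K, ℝ)) = 0 := by ext x; exact isEmptyElim x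
    rw [this, map_zero]
  · obtain ⟨h, hh, ho⟩ := osc_of_sep D hD hs
    obtain ⟨ξ, h1, h2⟩ := exists_comp hh ho
    exact ⟨fun μ => ξ μ.1, h1.comp continuous_subtype_val, fun μ => h2 μ.1⟩

end Pool.Agent.H88.Cp
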