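import Mathlib

namespace Pool.Agent.H88.Cp

variable {K : Type*} [TopologicalSpace K] [CompactSpace K]

/-- Value of the positive part of `μ` at a function `f ≥ 0`:
`μ⁺(f) = sup {μ(g) : 0 ≤ g ≤ f}`. -/
noncomputable def pos (μ : WeakDual ℝ C(K, ℝ)) (f : C(K, ℝ)) : ℝ :=
  sSup {r | ∃ g : C(K, ℝ), 0 ≤ g ∧ g ≤ f ∧ r = μ g}

/-- `ν` is a compensation of `μ`. -/
def IsComp (μ ν : WeakDual ℝ C(K, ℝ)) : Prop :=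
  (0 < μ 1 ∧ (∀ f : C(K, ℝ), 0 ≤ f → 0 ≤ ν f ∧ ν f ≤ pos μ f) ∧ ν 1 = μ 1) ∨ (μ 1 ≤ 0 ∧ ν = 0)

/-- There is an `M`-compensation function (weak*-to-weak* continuous). -/
def HasComp (M : Set (WeakDual ℝ C(K, ℝ))) : Prop :=
  ∃ ξ : M → WeakDual ℝ C(K, ℝ), Continuous ξ ∧ ∀ μ : M, IsComp μ.1 (ξ μ)

end Pool.Agent.H88.Cp
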