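import Pool.Agent.H88.H2

set_option autoImplicit false
open MeasureTheory Filter Topology Metric Set Complex

namespace Pool.Agent.H88.DBR

open Pool.Agent.H88.PS Pool.Agent.H88.H2

noncomputable def ww (k n : ℕ) : ℝ := if 2 ^ k ∣ n then (1 / 2) ^ k else 0

noncomputable def Phi (n : ℕ) : ℝ := ∑' k, ww k n - if n = 0 then 1 else 0

theorem ww_nonneg (k n : ℕ) : 0 ≤ ww k n := by
  unfold ww
  split_ifs <;> positivity

theorem ww_le (k n : ℕ) : ww k n ≤ (1 / 2) ^ k := by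
  unfold ww
  split_ifs
  · exact le_rfl
  · positivity

theorem ww_summable (n : ℕ) : Summable fun k => ww k n :=
  Summable.of_nonneg_of_le (fun k => ww_nonneg k n) (fun k => ww_le k n) summable_geometric_two

theorem Phi_abs (n : ℕ) : |Phi n| ≤ 2 := by
  have h1 : 0 ≤ ∑' k, ww k n := tsum_nonneg fun k => ww_nonneg k n
  have h2 := hasSum_le (fun k => ww_le k n) (ww_summable n).hasSum hasSum_geometric_two
  unfold Phi
  split_ifs <;> rw [abs_le] <;> constructor <;> linarith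

theorem Phi_per {d v : ℕ} (h0 : 0 < d) (h1 : d < 2 ^ v) (w : ℕ) : Phi (d + 2 ^ v * w) = Phi d := by
  unfold Phi
  rw [if_neg (by omega), if_neg (by omega)]
  congr 2
  funext k
  have : 2 ^ k ∣ d + 2 ^ v * w ↔ 2 ^ k ∣ d := by
    rcases le_or_gt k v with h | h
    · exact Nat.dvd_add_left ((pow_dvd_pow 2 h).mul_right w)
    · have h2 : 2 ^ v ∣ 2 ^ k := pow_dvd_pow 2 h.le
      refine iff_of_false (fun h3 => ?_) fun h3 => ?_
      · have h4 := (Nat.dvd_add_left (dvd_mul_right _ w)).1 (h2.trans h3)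
        exact absurd (Nat.le_of_dvd h0 h4) (by omega)
      · exact absurd (Nat.le_of_dvd h0 (h2.trans h3)) (by omega)
  simp only [ww, this]

theorem Phi_odd (a w : ℕ) : Phi (2 ^ a * (2 * w + 1)) = ∑ k ∈ Finset.range (a + 1), (1 / 2) ^ k := by
  have h : ∀ k, 2 ^ k ∣ 2 ^ a * (2 * w + 1) ↔ k ≤ a := by
    intro k
    rw [(Nat.Coprime.pow_left k (by simp : Nat.Coprime 2 (2 * w + 1))).dvd_mul_right]
    exact Nat.pow_dvd_pow_iff_le_right (by norm_num)
  unfold Phi
  rw [if_neg (by positivity), sub_zero, tsum_eq_sum (s := Finset.range (a + 1))]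
  · refine Finset.sum_congr rfl fun k hk => ?_
    rw [ww, if_pos ((h k).2 (Nat.lt_succ_iff.1 (Finset.mem_range.1 hk)))]
  · intro k hk
    rw [ww, if_neg]
    rw [h]
    simpa using hk

noncomputable def ph : ℂ → ℂ := ps fun n => (Phi n : ℂ)

theorem rep_ph : Rep (fun n => (Phi n : ℂ)) ph :=
  rep_bdd (C := 2) fun n => by rw [norm_real]; exact Phi_abs n

theorem rep_geo {m : ℕ} (hm : 0 < m) :
    Rep (fun n => if m ∣ n then 1 else 0) fun z => (1 - z ^ m)⁻¹ := by
  intro z hz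
  have h1 : ‖z ^ m‖ < 1 := by
    rw [norm_pow]
    exact pow_lt_one₀ (norm_nonneg _) hz hm.ne'
  refine ((mul_right_injective₀ hm.ne').hasSum_iff ?_).1 ?_
  · intro n hn
    show (if m ∣ n then (1:ℂ) else 0) * z ^ n = 0
    rw [if_neg, zero_mul]
    rintro ⟨c, rfl⟩
    exact hn ⟨c, rfl⟩
  · refine (congrArg (fun f => HasSum f _) ?_).mp (hasSum_geometric_of_norm_lt_one h1)
    funext n
    simp [pow_mul]

theorem ph_hasSum {z : ℂ} (hz : ‖z‖ < 1) :
    HasSum (fun k : ℕ => (((1 / 2) ^ k : ℝ) : ℂ) * (1 - z ^ 2 ^ k)⁻¹) (ph z + 1) := by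
  have h1 : Summable fun p : ℕ × ℕ => (ww p.1 p.2 : ℂ) * z ^ p.2 := by
    refine Summable.of_norm_bounded (summable_geometric_two.mul_of_nonneg
      (summable_geometric_of_lt_one (norm_nonneg z) hz) (fun _ => by positivity)
      fun _ => by positivity) fun p => ?_
    rw [norm_mul, norm_pow, norm_real, Real.norm_of_nonneg (ww_nonneg _ _)]
    exact mul_le_mul_of_nonneg_right (ww_le _ _) (by positivity)
  have h2 := h1.hasSum.prod_fiberwise
    (g := fun k : ℕ => (((1 / 2) ^ k : ℝ) : ℂ) * (1 - z ^ 2 ^ k)⁻¹) fun k => by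
      refine (congrArg (fun f => HasSum f _) ?_).mp
        ((rep_geo (m := 2 ^ k) (by positivity) z hz).mul_left (((1 / 2) ^ k : ℝ) : ℂ))
      funext n
      by_cases h : 2 ^ k ∣ n <;> simp [ww, h]
  have h3 := ((Equiv.prodComm ℕ ℕ).hasSum_iff.2 h1.hasSum).prod_fiberwise
    (g := fun n : ℕ => ((∑' k, ww k n : ℝ) : ℂ) * z ^ n) fun n =>
      (hasSum_ofReal.2 (ww_summable n).hasSum).mul_right _
  have h4 := (rep_ph z hz).add (hasSum_ite_eq 0 (1:ℂ))
  have e : (fun n : ℕ => (Phi n : ℂ) * z ^ n + if n = 0 then 1 else 0)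
      = fun n : ℕ => ((∑' k, ww k n : ℝ) : ℂ) * z ^ n := by
    funext n
    unfold Phi
    split_ifs with h
    · subst h
      simp
    · simp
  rw [e] at h4
  rw [← h3.unique h4]
  exact h2

theorem re_inv {w : ℂ} (h : 1 - w ≠ 0) :
    ((1 - w)⁻¹).re - 1 / 2 = (1 - ‖w‖ ^ 2) / (2 * normSq (1 - w)) := by
  have h1 : normSq (1 - w) ≠ 0 := by simpa using h
  rw [inv_re, Complex.sq_norm]
  field_simp
  simp [normSq_apply]
  ring

noncomputable def PP (k : ℕ) (z : ℂ) : ℝ := (1 / 2) ^ k * (((1 - z ^ 2 ^ k)⁻¹).re - 1 / 2)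

theorem PP_nonneg (k : ℕ) {z : ℂ} (hz : ‖z‖ < 1) : 0 ≤ PP k z := by
  have h1 : ‖z ^ 2 ^ k‖ < 1 := by
    rw [norm_pow]
    exact pow_lt_one₀ (norm_nonneg _) hz (by positivity)
  have h2 : 1 - z ^ 2 ^ k ≠ 0 := fun h => by
    rw [← sub_eq_zero.1 h, norm_one] at h1
    exact lt_irrefl _ h1
  have h3 : ‖z ^ 2 ^ k‖ ^ 2 ≤ 1 := pow_le_one₀ (norm_nonneg _) h1.le
  rw [PP, re_inv h2]
  exact mul_nonneg (by positivity) (div_nonneg (by linarith)
    (mul_nonneg (by norm_num) (normSq_nonneg _)))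

theorem PP_hasSum {z : ℂ} (hz : ‖z‖ < 1) : HasSum (fun k => PP k z) (ph z).re := by
  have h1 := (hasSum_re (ph_hasSum hz)).sub (hasSum_geometric_two.mul_right (1 / 2))
  have e : (ph z + 1).re - 2 * (1 / 2) = (ph z).re := by simp
  rw [e] at h1
  refine (congrArg (fun f => HasSum f _) ?_).mp h1
  funext k
  rw [re_ofReal_mul, PP]
  ring

theorem ph_re {z : ℂ} (hz : ‖z‖ < 1) : 0 ≤ (ph z).re :=
  (PP_hasSum hz).nonneg fun k => PP_nonneg k hz

theorem ph_zero : ph 0 = 1 := by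
  rw [← rep_ph.zero, Phi]
  simp only [ww, dvd_zero, if_true, tsum_geometric_two]
  norm_num

theorem PP_cont (k : ℕ) {r : ℝ} (h0 : 0 ≤ r) (h1 : r < 1) :
    Continuous fun θ : ℝ => PP k (r * exp (θ * I)) := by
  have := (rep_geo (m := 2 ^ k) (by positivity)).cont h0 h1
  unfold PP
  exact continuous_const.mul ((continuous_re.comp this).sub continuous_const)

theorem head_av (K : ℕ) {r : ℝ} (h0 : 0 ≤ r) (h1 : r < 1) :
    av (fun θ => ∑ k ∈ Finset.range K, PP k (r * exp (θ * I))) = 1 - (1 / 2) ^ K := by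
  induction K with
  | zero => simp [av_const]
  | succ K ih =>
    simp_rw [Finset.sum_range_succ]
    rw [av_add (continuous_finsetSum _ fun k _ => PP_cont k h0 h1) (PP_cont K h0 h1), ih]
    have c := (rep_geo (m := 2 ^ K) (by positivity)).cont h0 h1
    have h2 := (rep_geo (m := 2 ^ K) (by positivity)).mean h0 h1
    unfold PP
    simp_rw [sub_eq_add_neg (re _)]
    rw [av_mul, av_add (by exact continuous_re.comp c) continuous_const, av_const]
    simp only [dvd_zero, if_true, one_re] at h2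
    rw [h2]
    ring

theorem head_lim (K : ℕ) : Tendsto (fun r : ℝ =>
    av fun θ => min 1 (2 * ∑ k ∈ Finset.range K, PP k (r * exp (θ * I)))) (𝓝[<] 1) (𝓝 0) := by
  have hc : {θ : ℝ | ∃ k : ℕ, exp (θ * I) ^ 2 ^ k = 1}.Countable := by
    refine (countable_range fun p : ℕ × ℤ => (p.2 * (2 * Real.pi) / 2 ^ p.1 : ℝ)).mono ?_
    rintro θ ⟨k, hk⟩
    rw [← exp_nat_mul, exp_eq_one_iff] at hk
    obtain ⟨n, hn⟩ := hk
    refine ⟨(k, n), ?_⟩
    have h1 := congrArg im hn
    simp only [div_eq_iff (show (2:ℝ) ^ k ≠ 0 by positivity)]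
    simp at h1
    rw [← ofReal_ofNat, ← ofReal_pow, ofReal_re] at h1
    linarith
  have h1 := intervalIntegral.tendsto_integral_filter_of_dominated_convergence (μ := volume)
    (a := 0) (b := 2 * Real.pi) (l := 𝓝[<] (1:ℝ))
    (F := fun (r : ℝ) (θ : ℝ) => min 1 (2 * ∑ k ∈ Finset.range K, PP k (r * exp (θ * I))))
    (f := fun _ => (0:ℝ)) (fun _ => 1) (by
      filter_upwards [Ioo_mem_nhdsLT (show (0:ℝ) < 1 by norm_num)] with r hr
      exact (continuous_const.min (continuous_const.mul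
        (continuous_finsetSum _ fun k _ => PP_cont k hr.1.le hr.2))).aestronglyMeasurable)
    (by
      filter_upwards [Ioo_mem_nhdsLT (show (0:ℝ) < 1 by norm_num)] with r hr
      refine Eventually.of_forall fun θ _ => ?_
      have : 0 ≤ ∑ k ∈ Finset.range K, PP k (r * exp (θ * I)) :=
        Finset.sum_nonneg fun k _ => PP_nonneg k (by rw [norm_re hr.1.le]; exact hr.2)
      rw [Real.norm_of_nonneg (le_min zero_le_one (by linarith))]
      exact min_le_left _ _)
    intervalIntegrable_const (by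
      filter_upwards [hc.ae_notMem volume] with θ hθ _
      have h2 : ∀ k : ℕ, 1 - exp (θ * I) ^ 2 ^ k ≠ 0 := fun k h => hθ ⟨k, (sub_eq_zero.1 h).symm⟩
      have h3 : ∀ k : ℕ, ContinuousAt (fun r : ℝ => PP k (r * exp (θ * I))) 1 := by
        intro k
        unfold PP
        refine continuousAt_const.mul ((continuous_re.continuousAt.comp
          (ContinuousAt.inv₀ (by fun_prop) (by simpa using h2 k))).sub continuousAt_const)
      have h4 : ContinuousAt (fun r : ℝ =>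
          min 1 (2 * ∑ k ∈ Finset.range K, PP k (r * exp (θ * I)))) 1 :=
        continuousAt_const.min (continuousAt_const.mul
          (tendsto_finsetSum _ fun k _ => h3 k))
      have h5 : ∀ k : ℕ, PP k (exp (θ * I)) = 0 := fun k => by
        rw [PP, re_inv (h2 k), norm_pow, norm_exp_ofReal_mul_I]
        simp
      simpa [h5] using h4.tendsto.mono_left (nhdsWithin_le_nhds (s := Iio 1)))
  have h2 := h1.const_mul (2 * Real.pi)⁻¹
  simpa [av] using h2

noncomputable def aa (z : ℂ) : ℂ := (ph z + 1)⁻¹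

noncomputable def bb (z : ℂ) : ℂ := aa z * ph z

theorem one_le_ns {z : ℂ} (hz : ‖z‖ < 1) :
    normSq (ph z + 1) = 1 + 2 * (ph z).re + normSq (ph z) := by
  simp [normSq_apply]
  ring

theorem ns_pos {z : ℂ} (hz : ‖z‖ < 1) : 0 < normSq (ph z + 1) := by
  rw [one_le_ns hz]
  linarith [ph_re hz, normSq_nonneg (ph z)]

theorem aa_diff : DifferentiableOn ℂ aa (ball 0 1) :=
  (rep_ph.diff.add_const 1).inv fun _ hz => normSq_pos.1 (ns_pos (mem_ball_zero_iff.1 hz))

noncomputable def dd (z : ℂ) : ℝ := 1 - ‖aa z‖ ^ 2 - ‖bb z‖ ^ 2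

theorem dd_eq {z : ℂ} (hz : ‖z‖ < 1) : dd z = 2 * (ph z).re / normSq (ph z + 1) := by
  have h1 := ns_pos hz
  rw [dd, bb, aa, Complex.sq_norm, Complex.sq_norm, normSq_mul, normSq_inv]
  field_simp
  rw [one_le_ns hz]
  ring

theorem dd_nonneg {z : ℂ} (hz : ‖z‖ < 1) : 0 ≤ dd z := by
  rw [dd_eq hz]
  exact div_nonneg (by linarith [ph_re hz]) (ns_pos hz).le

theorem dd_le_one (z : ℂ) : dd z ≤ 1 := by
  unfold dd
  linarith [sq_nonneg ‖aa z‖, sq_nonneg ‖bb z‖]

theorem dd_le {z : ℂ} (hz : ‖z‖ < 1) : dd z ≤ 2 * (ph z).re := by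
  rw [dd_eq hz]
  refine div_le_self (by linarith [ph_re hz]) ?_
  rw [one_le_ns hz]
  linarith [ph_re hz, normSq_nonneg (ph z)]

theorem aa_le {z : ℂ} (hz : ‖z‖ < 1) : ‖aa z‖ ≤ 1 := by
  have := dd_nonneg hz
  unfold dd at this
  nlinarith [sq_nonneg ‖bb z‖, norm_nonneg (aa z)]

theorem bb_le {z : ℂ} (hz : ‖z‖ < 1) : ‖bb z‖ ≤ 1 := by
  have := dd_nonneg hz
  unfold dd at this
  nlinarith [sq_nonneg ‖aa z‖, norm_nonneg (bb z)]

theorem aa_re {z : ℂ} (hz : ‖z‖ < 1) : 0 ≤ (aa z).re := by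
  rw [aa, inv_re]
  exact div_nonneg (by simp; linarith [ph_re hz]) (normSq_nonneg _)

theorem bb_re {z : ℂ} (hz : ‖z‖ < 1) : 0 ≤ (bb z).re := by
  rw [bb, aa, mul_comm, ← div_eq_mul_inv, div_re, ← add_div]
  refine div_nonneg ?_ (normSq_nonneg _)
  simp
  nlinarith [ph_re hz, mul_self_nonneg (ph z).re, mul_self_nonneg (ph z).im]

theorem aa_zero : aa 0 = 1 / 2 := by
  rw [aa, ph_zero]
  norm_num

theorem bb_zero : bb 0 = 1 / 2 := by rw [bb, aa_zero, ph_zero, mul_one]

theorem rep_aa : Rep (coef aa) aa := rep_coef aa_diff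

theorem rep_bb : Rep (cv (coef aa) fun n => (Phi n : ℂ)) bb := rep_aa.mul rep_ph

theorem dd_cont {r : ℝ} (h0 : 0 ≤ r) (h1 : r < 1) :
    Continuous fun θ : ℝ => dd (r * exp (θ * I)) :=
  (continuous_const.sub ((rep_aa.cont h0 h1).norm.pow 2)).sub ((rep_bb.cont h0 h1).norm.pow 2)

theorem dd_lim : Tendsto (fun r : ℝ => av fun θ => dd (r * exp (θ * I))) (𝓝[<] 1) (𝓝 0) := by
  rw [Metric.tendsto_nhds]
  intro ε hε
  obtain ⟨K, hK⟩ := exists_pow_lt_of_lt_one (show 0 < ε / 4 by positivity)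
    (show (1 / 2 : ℝ) < 1 by norm_num)
  filter_upwards [(head_lim K).eventually (gt_mem_nhds (show 0 < ε / 2 by positivity)),
    Ioo_mem_nhdsLT (show (0:ℝ) < 1 by norm_num)] with r h1 hr
  have hz : ∀ θ : ℝ, ‖(r:ℂ) * exp (θ * I)‖ < 1 := fun θ => by rw [norm_re hr.1.le]; exact hr.2
  have c1 : Continuous fun θ : ℝ => ∑ k ∈ Finset.range K, PP k (r * exp (θ * I)) :=
    continuous_finsetSum _ fun k _ => PP_cont k hr.1.le hr.2
  have c2 : Continuous fun θ : ℝ => (ph (r * exp (θ * I))).re :=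
    continuous_re.comp (rep_ph.cont hr.1.le hr.2)
  have h2 : 0 ≤ av fun θ => dd (r * exp (θ * I)) := by
    rw [← av_const 0]
    exact av_mono continuous_const (dd_cont hr.1.le hr.2) fun θ => dd_nonneg (hz θ)
  have h3 := av_mono (dd_cont hr.1.le hr.2)
    (v := fun θ => min 1 (2 * ∑ k ∈ Finset.range K, PP k (r * exp (θ * I)))
      + (2 * (ph (r * exp (θ * I))).re + -2 * ∑ k ∈ Finset.range K, PP k (r * exp (θ * I))))
    (by fun_prop) fun θ => by
      have h4 := sum_le_hasSum (Finset.range K) (fun k _ => PP_nonneg k (hz θ)) (PP_hasSum (hz θ))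
      have h5 := dd_le (hz θ)
      have h6 := dd_le_one (r * exp (θ * I))
      rcases min_cases 1 (2 * ∑ k ∈ Finset.range K, PP k (r * exp (θ * I))) with h | h <;>
        linarith [h.1]
  rw [av_add (by fun_prop) (by fun_prop), av_add (by fun_prop) (by fun_prop), av_mul, av_mul,
    head_av K hr.1.le hr.2, rep_ph.mean hr.1.le hr.2, rep_ph.zero, ph_zero, one_re] at h3
  rw [Real.dist_eq, sub_zero, abs_of_nonneg h2]
  linarith

theorem isom (g : ℕ → ℂ) (hg : Summable fun n => ‖g n‖ ^ 2) :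
    ∑' n, ‖cv (coef aa) g n‖ ^ 2 + ∑' n, ‖cv (cv (coef aa) fun n => (Phi n : ℂ)) g n‖ ^ 2
      = ∑' n, ‖g n‖ ^ 2 := by
  have hG := rep_l2 hg
  have h1 := (tendsto_l2 (rep_aa.contr (fun _ => aa_le) hg).1).add
    (tendsto_l2 (rep_bb.contr (fun _ => bb_le) hg).1)
  have h2 : Tendsto (fun r : ℝ => av fun θ => dd (r * exp (θ * I)) * ‖ps g (r * exp (θ * I))‖ ^ 2)
      (𝓝[<] 1) (𝓝 0) := by
    rw [Metric.tendsto_nhds]
    intro ε hε
    obtain ⟨N, hN⟩ := ((tendsto_sum_nat_add fun n => ‖g n‖ ^ 2).eventually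
      (gt_mem_nhds (show 0 < ε / 4 by positivity))).exists
    obtain ⟨C, hC⟩ : ∃ C, C = ∑ n ∈ Finset.range N, ‖g n‖ := ⟨_, rfl⟩
    have hT : Rep (fun n => g (n + N)) (ps fun n => g (n + N)) :=
      rep_l2 ((summable_nat_add_iff N).2 hg)
    filter_upwards [dd_lim.eventually (gt_mem_nhds (show 0 < ε / (4 * (C ^ 2 + 1)) by positivity)),
      Ioo_mem_nhdsLT (show (0:ℝ) < 1 by norm_num)] with r h3 hr
    have hz : ∀ θ : ℝ, ‖(r:ℂ) * exp (θ * I)‖ < 1 := fun θ => by rw [norm_re hr.1.le]; exact hr.2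
    have c1 := dd_cont hr.1.le hr.2
    have c2 := hG.cont hr.1.le hr.2
    have c3 := hT.cont hr.1.le hr.2
    have h4 : 0 ≤ av fun θ => dd (r * exp (θ * I)) * ‖ps g (r * exp (θ * I))‖ ^ 2 := by
      rw [← av_const 0]
      exact av_mono continuous_const (c1.mul (c2.norm.pow 2))
        fun θ => mul_nonneg (dd_nonneg (hz θ)) (sq_nonneg _)
    have h5 := av_mono (c1.mul (c2.norm.pow 2)) (v := fun θ => 2 * C ^ 2 * dd (r * exp (θ * I))
      + 2 * ‖ps (fun n => g (n + N)) (r * exp (θ * I))‖ ^ 2)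
      ((continuous_const.mul c1).add (continuous_const.mul (c3.norm.pow 2))) fun θ => by
        have h6 := hz θ
        simp only [Pi.mul_apply, Pi.pow_apply]
        generalize (r:ℂ) * exp (θ * I) = z at h6 ⊢
        have h7 : ‖ps g z‖ ≤ C + ‖ps (fun n => g (n + N)) z‖ := by
          rw [ps, ← (hG z h6).summable.sum_add_tsum_nat_add N]
          refine (norm_add_le _ _).trans (add_le_add ?_ ?_)
          · rw [hC]
            refine (norm_sum_le _ _).trans (Finset.sum_le_sum fun n _ => ?_)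
            rw [norm_mul, norm_pow]
            exact mul_le_of_le_one_right (norm_nonneg _) (pow_le_one₀ (norm_nonneg _) h6.le)
          · simp_rw [pow_add, ← mul_assoc]
            rw [tsum_mul_right, norm_mul, norm_pow]
            exact mul_le_of_le_one_right (norm_nonneg _) (pow_le_one₀ (norm_nonneg _) h6.le)
        have h8 := pow_le_pow_left₀ (norm_nonneg _) h7 2
        have h9 := dd_nonneg h6
        have h10 := dd_le_one z
        generalize ‖ps (fun n => g (n + N)) z‖ = t at *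
        have h11 : ‖ps g z‖ ^ 2 ≤ 2 * C ^ 2 + 2 * t ^ 2 := by nlinarith [sq_nonneg (C - t)]
        nlinarith [mul_le_mul_of_nonneg_left h11 h9, sq_nonneg t]
    rw [av_add (by fun_prop) (by fun_prop), av_mul, av_mul] at h5
    have h6 := hT.av_le ((summable_nat_add_iff N).2 hg) hr.1.le hr.2
    have h7 : 2 * C ^ 2 * av (fun θ => dd (r * exp (θ * I))) ≤ ε / 2 := by
      refine (mul_le_mul_of_nonneg_left h3.le (by positivity)).trans ?_
      rw [← mul_div_assoc, div_le_div_iff₀ (by positivity) (by norm_num)]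
      nlinarith
    rw [Real.dist_eq, sub_zero, abs_of_nonneg h4]
    have h8 : (av fun θ => dd (r * exp (θ * I)) * ‖ps g (r * exp (θ * I))‖ ^ 2)
        ≤ 2 * C ^ 2 * av (fun θ => dd (r * exp (θ * I)))
          + 2 * av fun θ => ‖ps (fun n => g (n + N)) (r * exp (θ * I))‖ ^ 2 := h5
    linarith
  have h3 := (tendsto_l2 hg).sub h2
  rw [sub_zero] at h3
  refine tendsto_nhds_unique (h1.congr' ?_) h3
  filter_upwards [Ioo_mem_nhdsLT (show (0:ℝ) < 1 by norm_num)] with r hr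
  have c1 := dd_cont hr.1.le hr.2
  have c2 := hG.cont hr.1.le hr.2
  have c3 := (rep_aa.mul hG).cont hr.1.le hr.2
  have c4 := (rep_bb.mul hG).cont hr.1.le hr.2
  rw [((rep_aa.mul hG).parseval hr.1.le hr.2).tsum_eq,
    ((rep_bb.mul hG).parseval hr.1.le hr.2).tsum_eq, (hG.parseval hr.1.le hr.2).tsum_eq,
    eq_sub_iff_add_eq, ← av_add (by exact c3.norm.pow 2) (by exact c4.norm.pow 2),
    ← av_add (by exact (c3.norm.pow 2).add (c4.norm.pow 2)) (by exact c1.mul (c2.norm.pow 2))]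
  congr 1
  funext θ
  simp only [Pi.add_apply, Pi.mul_apply, Pi.pow_apply, norm_mul, dd]
  ring

end Pool.Agent.H88.DBR
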