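import Pool.Agent.H88.DBR1

set_option autoImplicit false
open MeasureTheory Filter Topology Metric Set Complex

namespace Pool.Agent.H88.DBR

open Pool.Agent.H88.PS Pool.Agent.H88.H2

noncomputable def KK (j x : ℕ) : ℝ := if j ≤ x then Phi (x - j) else 0

theorem KK_abs (j x : ℕ) : |KK j x| ≤ 2 := by
  unfold KK
  split_ifs
  · exact Phi_abs _
  · simp

theorem pair (m N : ℕ) : ∃ x y, N ≤ x ∧ x < y ∧ (∀ j < m, KK j x = KK j y) ∧
    KK m x - KK m y = (1 / 2) ^ (m + 1) := by
  have h0 : m < 2 ^ m := Nat.lt_two_pow_self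
  refine ⟨m + 2 ^ m * (2 * (2 * N + 1)), m + 2 ^ m * (2 * (2 * N + 1) + 1), by nlinarith,
    by nlinarith, fun j hj => ?_, ?_⟩
  · rw [KK, KK, if_pos (by omega), if_pos (by omega), Nat.sub_add_comm hj.le,
      Nat.sub_add_comm hj.le, Phi_per (by omega) (by omega), Phi_per (by omega) (by omega)]
  · rw [KK, KK, if_pos (by omega), if_pos (by omega), Nat.add_sub_cancel_left,
      Nat.add_sub_cancel_left, Phi_odd, ← mul_assoc, ← pow_succ, Phi_odd,
      Finset.sum_range_succ _ (m + 1)]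
    ring

theorem sum_pt (u : ℕ → ℝ) (x M : ℕ) :
    ∑ t ∈ Finset.range M, u t * (if t = x then 1 else 0) = if x < M then u x else 0 := by
  simp [Finset.sum_ite_eq']

theorem inner_blk (m N : ℕ) (c : ℝ) (L : ℕ) : ∃ (h : ℕ → ℝ) (N' : ℕ), N < N' ∧
    (∀ x, x < N → h x = 0) ∧ (∀ x, N' ≤ x → h x = 0) ∧
    (∀ M, ∑ x ∈ Finset.range M, h x ^ 2 ≤ 2 * L * c ^ 2) ∧
    (∀ M, N' ≤ M → ∑ x ∈ Finset.range M, KK m x * h x = L * c * (1 / 2) ^ (m + 1)) ∧
    (∀ j < m, ∀ M, N' ≤ M → ∑ x ∈ Finset.range M, KK j x * h x = 0) ∧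
    (∀ j < m, ∀ M, |∑ x ∈ Finset.range M, KK j x * h x| ≤ 2 * |c|) := by
  induction L with
  | zero => exact ⟨0, N + 1, by omega, by simp, by simp, by simp, by simp, by simp, by simp⟩
  | succ L ih =>
    obtain ⟨h, N', h1, h2, h3, h4, h5, h6, h7⟩ := ih
    obtain ⟨x, y, hx, hxy, hj, hm⟩ := pair m N'
    have e : ∀ (u : ℕ → ℝ) (M : ℕ), ∑ t ∈ Finset.range M,
        u t * (h t + c * ((if t = x then 1 else 0) - if t = y then 1 else 0))
        = ∑ t ∈ Finset.range M, u t * h t
          + c * ((if x < M then u x else 0) - if y < M then u y else 0) := by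
      intro u M
      rw [← sum_pt, ← sum_pt, ← Finset.sum_sub_distrib, Finset.mul_sum, ← Finset.sum_add_distrib]
      exact Finset.sum_congr rfl fun t _ => by ring
    refine ⟨fun t => h t + c * ((if t = x then 1 else 0) - if t = y then 1 else 0), y + 1,
      by omega, fun t ht => ?_, fun t ht => ?_, fun M => ?_, fun M hM => ?_, fun j hj' M hM => ?_,
      fun j hj' M => ?_⟩
    · simp only []
      rw [h2 t ht, if_neg (by omega), if_neg (by omega)]
      simp
    · simp only []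
      rw [h3 t (by omega), if_neg (by omega), if_neg (by omega)]
      simp
    · have e2 : ∀ t, (h t + c * ((if t = x then 1 else 0) - if t = y then 1 else 0)) ^ 2
          = h t ^ 2 + (c ^ 2 * (if t = x then 1 else 0) + c ^ 2 * if t = y then 1 else 0) := by
        intro t
        by_cases h8 : t = x
        · rw [h3 t (by omega), if_pos h8, if_neg (by omega)]
          ring
        · by_cases h9 : t = y
          · rw [h3 t (by omega), if_pos h9, if_neg h8]
            ring
          · rw [if_neg h8, if_neg h9]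
            ring
      simp only [e2, Finset.sum_add_distrib]
      rw [sum_pt (fun _ => c ^ 2), sum_pt (fun _ => c ^ 2)]
      have := h4 M
      have h8 := sq_nonneg c
      push_cast
      split_ifs <;> linarith
    · rw [e, h5 M (by omega), if_pos (by omega), if_pos (by omega), hm]
      push_cast
      ring
    · rw [e, h6 j hj' M (by omega), if_pos (by omega), if_pos (by omega), hj j hj']
      ring
    · rw [e]
      by_cases h8 : x < M
      · rw [h6 j hj' M (by omega), if_pos h8, zero_add, abs_mul, mul_comm]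
        refine mul_le_mul_of_nonneg_right ?_ (abs_nonneg _)
        split_ifs
        · rw [hj j hj']
          simp
        · rw [sub_zero]
          exact KK_abs _ _
      · rw [if_neg h8, if_neg (by omega)]
        simpa using h7 j hj' M

theorem blk (m N : ℕ) (A : ℝ) : ∃ (h : ℕ → ℝ) (N' : ℕ), N < N' ∧
    (∀ x, x < N → h x = 0) ∧ (∀ x, N' ≤ x → h x = 0) ∧
    (∀ M, ∑ x ∈ Finset.range M, h x ^ 2 ≤ (1 / 2) ^ m) ∧
    (∀ M, N' ≤ M → ∑ x ∈ Finset.range M, KK m x * h x = -A) ∧
    (∀ j < m, ∀ M, N' ≤ M → ∑ x ∈ Finset.range M, KK j x * h x = 0) ∧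
    (∀ j < m, ∀ M, |∑ x ∈ Finset.range M, KK j x * h x| ≤ (1 / 2) ^ m) := by
  obtain ⟨B, hB⟩ : ∃ B : ℝ, B = -A * 2 ^ (m + 1) := ⟨_, rfl⟩
  obtain ⟨L, hL⟩ := exists_nat_gt ((2 * B ^ 2 + 2 * |B|) * 2 ^ m)
  have h0 : (0:ℝ) < L := lt_of_le_of_lt (by positivity) hL
  have hp : (0:ℝ) < 2 ^ m := by positivity
  obtain ⟨h, N', h1, h2, h3, h4, h5, h6, h7⟩ := inner_blk m N (B / L) L
  refine ⟨h, N', h1, h2, h3, fun M => (h4 M).trans ?_, fun M hM => ?_, h6,
    fun j hj M => (h7 j hj M).trans ?_⟩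
  · rw [show 2 * L * (B / L) ^ 2 = 2 * B ^ 2 / L by field_simp, one_div_pow,
      div_le_div_iff₀ h0 hp]
    nlinarith [mul_nonneg (abs_nonneg B) hp.le]
  · rw [h5 M hM, hB, one_div_pow]
    field_simp
  · rw [abs_div, abs_of_pos h0, ← mul_div_assoc, one_div_pow, div_le_div_iff₀ h0 hp]
    nlinarith [mul_nonneg (sq_nonneg B) hp.le]

theorem build : ∃ f : ℕ → ℝ, f 0 = 1 ∧ (Summable fun n => f n ^ 2) ∧
    ∀ j, Tendsto (fun M => ∑ x ∈ Finset.range M, KK j x * f x) atTop (𝓝 0) := by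
  choose H T h1 h2 h3 h4 h5 h6 h7 using blk
  obtain ⟨s, s0, ss⟩ : ∃ s : ℕ → (ℕ → ℝ) × ℕ, s 0 = (fun x => if x = 0 then 1 else 0, 1) ∧
      ∀ m, s (m + 1) = (fun x => (s m).1 x + H m (s m).2
        (∑ x ∈ Finset.range (s m).2, KK m x * (s m).1 x) x,
        T m (s m).2 (∑ x ∈ Finset.range (s m).2, KK m x * (s m).1 x)) :=
    ⟨fun m => Nat.rec (fun x => if x = 0 then 1 else 0, 1) (fun m p => (fun x => p.1 x + H m p.2
        (∑ x ∈ Finset.range p.2, KK m x * p.1 x) x,
        T m p.2 (∑ x ∈ Finset.range p.2, KK m x * p.1 x))) m, rfl, fun _ => rfl⟩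
  obtain ⟨A, hA⟩ : ∃ A : ℕ → ℝ, ∀ m, A m = ∑ x ∈ Finset.range (s m).2, KK m x * (s m).1 x :=
    ⟨_, fun _ => rfl⟩
  simp_rw [← hA] at ss
  have e1 : ∀ m x, (s (m + 1)).1 x = (s m).1 x + H m (s m).2 (A m) x := fun m x => by rw [ss]
  have e2 : ∀ m, (s (m + 1)).2 = T m (s m).2 (A m) := fun m => by rw [ss]
  have mono : StrictMono fun m => (s m).2 :=
    strictMono_nat_of_lt_succ fun m => by rw [e2]; exact h1 _ _ _
  have big : ∀ m, m < (s m).2 := by
    intro m
    induction m with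
    | zero => rw [s0]; exact one_pos
    | succ m ih => exact lt_of_le_of_lt ih (mono (Nat.lt_succ_self m))
  have stab : ∀ m x, x < (s m).2 → ∀ k, m ≤ k → (s k).1 x = (s m).1 x := by
    intro m x hx k hk
    induction k, hk using Nat.le_induction with
    | base => rfl
    | succ k hk ih => rw [e1, ih, h2 _ _ _ x (hx.trans_le (mono.monotone hk)), add_zero]
  have lim : ∀ m x, x < (s m).2 → (s x).1 x = (s m).1 x := fun m x hx => by
    rw [← stab x x (big x) (max m x) (le_max_right _ _), stab m x hx _ (le_max_left _ _)]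
  have i0 : ∀ m x, (s m).2 ≤ x → (s m).1 x = 0 := by
    intro m
    induction m with
    | zero =>
      intro x hx
      rw [s0] at hx ⊢
      exact if_neg (by simp only at hx; omega)
    | succ m ih =>
      intro x hx
      rw [e1, ih x ((mono (Nat.lt_succ_self m)).le.trans hx), h3 _ _ _ x (e2 m ▸ hx), add_zero]
  have i1 : ∀ m M, ∑ x ∈ Finset.range M, (s m).1 x ^ 2 ≤ 3 - 2 * (1 / 2) ^ m := by
    intro m
    induction m with
    | zero =>
      intro M
      rw [s0]
      simp only [ite_pow, one_pow, ne_eq, OfNat.ofNat_ne_zero, not_false_eq_true, zero_pow,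
        Finset.sum_ite_eq', pow_zero]
      split_ifs <;> norm_num
    | succ m ih =>
      intro M
      have e : ∀ x, (s (m + 1)).1 x ^ 2 = (s m).1 x ^ 2 + H m (s m).2 (A m) x ^ 2 := by
        intro x
        rw [e1]
        rcases lt_or_ge x (s m).2 with h | h
        · rw [h2 _ _ _ x h]
          ring
        · rw [i0 m x h]
          ring
      simp_rw [e, Finset.sum_add_distrib]
      have := h4 m (s m).2 (A m) M
      have := ih M
      rw [pow_succ]
      linarith
  have e3 : ∀ j m M, ∑ x ∈ Finset.range M, KK j x * (s (m + 1)).1 x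
      = ∑ x ∈ Finset.range M, KK j x * (s m).1 x
        + ∑ x ∈ Finset.range M, KK j x * H m (s m).2 (A m) x := fun j m M => by
    simp_rw [e1, mul_add, Finset.sum_add_distrib]
  have i2 : ∀ m, ∀ j < m, ∀ M, (s m).2 ≤ M → ∑ x ∈ Finset.range M, KK j x * (s m).1 x = 0 := by
    intro m
    induction m with
    | zero => intro j hj; omega
    | succ m ih =>
      intro j hj M hM
      have hM' : (s m).2 ≤ M := (mono (Nat.lt_succ_self m)).le.trans hM
      rw [e3]
      rcases Nat.lt_succ_iff_lt_or_eq.1 hj with h | rfl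
      · rw [ih j h M hM', h6 _ _ _ j h M (e2 m ▸ hM), add_zero]
      · rw [h5 _ _ _ M (e2 j ▸ hM), hA, ← Finset.sum_subset (Finset.range_mono hM')
          fun x _ hx => by rw [i0 j x (by simpa using hx), mul_zero], add_neg_cancel]
  have i3 : ∀ j m, j < m → ∀ M, (s m).2 ≤ M → ∀ k, m ≤ k →
      |∑ x ∈ Finset.range M, KK j x * (s k).1 x| ≤ (1 / 2) ^ m := by
    intro j m hj M hM k hk
    induction k, hk using Nat.le_induction with
    | base =>
      rw [i2 m j hj M hM, abs_zero]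
      positivity
    | succ k hk ih =>
      rw [e3]
      rcases le_total (s k).2 M with h | h
      · rw [i2 k j (by omega) M h, zero_add]
        exact (h7 _ _ _ j (by omega) M).trans
          (pow_le_pow_of_le_one (by norm_num) (by norm_num) hk)
      · rw [Finset.sum_eq_zero (s := Finset.range M) (f := fun x => KK j x * H k (s k).2 (A k) x)
          fun x hx => by rw [h2 _ _ _ x ((Finset.mem_range.1 hx).trans_le h), mul_zero], add_zero]
        exact ih
  refine ⟨fun x => (s x).1 x, by simp only [s0]; rfl, ?_, fun j => ?_⟩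
  · refine summable_of_sum_range_le (c := 3) (fun _ => sq_nonneg _) fun M => ?_
    rw [Finset.sum_congr (g := fun x => (s M).1 x ^ 2) rfl fun x hx => by
      beta_reduce
      rw [lim M x ((Finset.mem_range.1 hx).trans (big M))]]
    have : (0:ℝ) ≤ (1 / 2) ^ M := by positivity
    linarith [i1 M M]
  · rw [Metric.tendsto_atTop]
    intro ε hε
    obtain ⟨K, hK⟩ := exists_pow_lt_of_lt_one hε (show (1 / 2 : ℝ) < 1 by norm_num)
    refine ⟨(s (K + j + 1)).2, fun M hM => ?_⟩
    rw [Real.dist_eq, sub_zero, Finset.sum_congr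
      (g := fun x => KK j x * (s (M + (K + j + 1))).1 x) rfl fun x hx => by
      beta_reduce
      rw [lim (M + (K + j + 1)) x ((Finset.mem_range.1 hx).trans
        ((Nat.le_add_right _ _).trans_lt (big _)))]]
    exact ((i3 j _ (by omega) M hM _ (Nat.le_add_left _ _)).trans
      (pow_le_pow_of_le_one (by norm_num) (by norm_num) (by omega))).trans_lt hK

theorem KK_sum (f : ℕ → ℝ) (m N : ℕ) :
    ∑ x ∈ Finset.range (m + N), KK m x * f x = ∑ n ∈ Finset.range N, Phi n * f (m + n) := by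
  rw [Finset.sum_range_add, Finset.sum_eq_zero fun x hx => by
    rw [KK, if_neg (by simpa using hx), zero_mul], zero_add]
  exact Finset.sum_congr rfl fun n _ => by rw [KK, if_pos (by omega), Nat.add_sub_cancel_left]

theorem final (f : ℕ → ℂ) (hf : Summable fun n => ‖f n‖ ^ 2)
    (H : ∀ g : ℕ → ℂ, (Summable fun n => ‖g n‖ ^ 2) →
      ∑' n, ‖f n + cv (cv (coef aa) fun n => (Phi n : ℂ)) g n‖ ^ 2 - ∑' n, ‖g n‖ ^ 2
        ≤ ∑' n, ‖f n‖ ^ 2) : f = 0 := by
  refine rep_bb.outer (fun _ => bb_le) (fun _ => bb_re) bb_zero f hf fun j => ?_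
  obtain ⟨β, hβ⟩ : ∃ β, β = ∑' n, cv (coef aa) (fun n => (Phi n : ℂ)) n * starRingEnd ℂ (f (n + j)) :=
    ⟨_, rfl⟩
  let F : L2 := ⟨f, mem_l2 hf⟩
  let g : L2 := lp.single 2 j (starRingEnd ℂ β)
  let X : L2 := rep_bb.op (fun _ => bb_le) g
  have h1 := H g (l2_hasSum g).summable
  have h2 : ∑' n, ‖f n + cv (cv (coef aa) fun n => (Phi n : ℂ)) g n‖ ^ 2 = ‖F + X‖ ^ 2 :=
    (l2_hasSum (F + X)).tsum_eq
  have h3 : ∑' n, ‖f n‖ ^ 2 = ‖F‖ ^ 2 := (l2_hasSum F).tsum_eq
  have h4 : ‖g‖ = ‖β‖ := by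
    rw [lp.norm_single (by norm_num), RCLike.norm_conj]
  have h5 : inner ℂ F X = β * starRingEnd ℂ β := by
    rw [inner_eq]
    change ∑' n, cv _ (Pi.single j (starRingEnd ℂ β)) n * starRingEnd ℂ (f n) = _
    simp_rw [cv_single]
    rw [tsum_shift (fun n => _ * starRingEnd ℂ β) (fun n => starRingEnd ℂ (f n)) j]
    simp_rw [mul_right_comm _ (starRingEnd ℂ β)]
    rw [tsum_mul_right, ← hβ]
  rw [h2, h3, (l2_hasSum g).tsum_eq, h4, norm_add_sq (𝕜 := ℂ), h5, mul_conj, normSq_eq_norm_sq] at h1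
  simp only [RCLike.re_to_complex, ofReal_re] at h1
  rw [← hβ, ← norm_eq_zero]
  exact pow_eq_zero_iff two_ne_zero |>.1 (le_antisymm (by linarith [sq_nonneg ‖X‖]) (sq_nonneg _))

end Pool.Agent.H88.DBR
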