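import Pool.Agent.H88.DjrbDefs

set_option autoImplicit false

namespace Pool.Agent.H88.Djrb

open MeasureTheory Set Filter Topology

structure Hyp (ω : ℝ → ℝ) : Prop where
  pos : ∀ t, 0 ≤ t → 0 < ω t
  anti : AntitoneOn ω (Ici 0)
  cont : ContinuousOn ω (Ici 0)
  int : ∀ k : ℕ, IntegrableOn (fun t => ω t * t ^ k) (Ioi 0)

variable {ω : ℝ → ℝ}

lemma Hyp.intT (h : Hyp ω) (k : ℕ) {r : ℝ} (hr : 0 ≤ r) :
    IntegrableOn (fun t => ω t * t ^ k) (Ioi r) := (h.int k).mono_set (Ioi_subset_Ioi hr)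

lemma Hyp.intJ (h : Hyp ω) (k : ℕ) {r : ℝ} (hr : 0 < r) :
    IntegrableOn (fun t => ω t * (t ^ k)⁻¹) (Ioi r) := by
  refine Integrable.mono' ((h.intT 0 hr.le).mul_const (r ^ k)⁻¹) ?_ ?_
  · apply ContinuousOn.aestronglyMeasurable _ measurableSet_Ioi
    refine (h.cont.mono fun t ht => (hr.trans ht).le).mul (ContinuousOn.inv₀ (by fun_prop) ?_)
    exact fun t ht => pow_ne_zero _ (hr.trans ht).ne'
  · refine (ae_restrict_iff' measurableSet_Ioi).2 (Eventually.of_forall fun t ht => ?_)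
    have ht0 : 0 < t := hr.trans ht
    have := h.pos t ht0.le
    rw [Real.norm_of_nonneg (by positivity), pow_zero, mul_one]
    gcongr
    exact le_of_lt ht

lemma Hyp.intL (h : Hyp ω) {r : ℝ} (hr : 0 < r) :
    IntegrableOn (fun t => ω t * t⁻¹) (Ioi r) := by simpa using h.intJ 1 hr

lemma Hyp.II_int (h : Hyp ω) (k : ℕ) {a b : ℝ} (ha : 0 ≤ a) (hb : a ≤ b) :
    IntervalIntegrable (fun t => ω t * t ^ k) volume a b := by
  apply ContinuousOn.intervalIntegrable_of_Icc hb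
  exact (h.cont.mono fun t ht => ha.trans ht.1).mul (by fun_prop)

lemma Hyp.T_nonneg (h : Hyp ω) (k : ℕ) {r : ℝ} (hr : 0 ≤ r) : 0 ≤ ∫ t in Ioi r, ω t * t ^ k :=
  setIntegral_nonneg measurableSet_Ioi fun t ht => by
    have ht0 : 0 ≤ t := hr.trans (le_of_lt ht)
    have := h.pos t ht0
    positivity

lemma Hyp.split (h : Hyp ω) (k : ℕ) {r : ℝ} (hr : 0 ≤ r) :
    Delta ω (k + 1) = (k + 1) * (II ω (k + 1) r + ∫ t in Ioi r, ω t * t ^ k) := by
  simp only [Delta, II, Nat.add_sub_cancel]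
  rw [intervalIntegral.integral_interval_add_Ioi (h.int k) (h.intT k hr)]
  push_cast; rfl

lemma Hyp.II_lower (h : Hyp ω) (k : ℕ) {r : ℝ} (hr : 0 ≤ r) :
    ω r * r ^ (k + 1) ≤ (k + 1) * II ω (k + 1) r := by
  have h1 : ∫ t in (0 : ℝ)..r, ω r * t ^ k ≤ II ω (k + 1) r := by
    apply intervalIntegral.integral_mono_on hr (by apply Continuous.intervalIntegrable; fun_prop)
      (h.II_int k le_rfl hr)
    intro t ht
    have := ht.1
    gcongr
    exact h.anti ht.1 hr ht.2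
  rw [intervalIntegral.integral_const_mul, integral_pow] at h1
  have h2 : (0 : ℝ) < k + 1 := by positivity
  calc ω r * r ^ (k + 1) = (k + 1) * (ω r * ((r ^ (k + 1) - 0 ^ (k + 1)) / (k + 1))) := by
        field_simp; simp
    _ ≤ _ := by gcongr

lemma Hyp.II_upper (h : Hyp ω) (k : ℕ) {r : ℝ} (hr : 0 ≤ r) :
    0 ≤ II ω (k + 1) r ∧ II ω (k + 1) r ≤ ω 0 * r ^ (k + 1) := by
  constructor
  · apply intervalIntegral.integral_nonneg hr
    intro t ht
    have := h.pos t ht.1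
    have := ht.1
    positivity
  · have h1 : II ω (k + 1) r ≤ ∫ _ in (0 : ℝ)..r, ω 0 * r ^ k := by
      apply intervalIntegral.integral_mono_on hr (h.II_int k le_rfl hr) (by simp)
      intro t ht
      have := ht.1
      have := h.pos 0 le_rfl
      gcongr
      · exact h.anti (le_refl (0 : ℝ)) ht.1 ht.1
      · exact ht.2
    rw [intervalIntegral.integral_const, smul_eq_mul] at h1
    calc _ ≤ _ := h1
      _ = _ := by ring

lemma Hyp.Delta_lower (h : Hyp ω) (k : ℕ) {r : ℝ} (hr : 0 ≤ r) :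
    ω r * r ^ (k + 1) ≤ Delta ω (k + 1) := by
  rw [h.split k hr]
  have h1 := h.II_lower k hr
  have h2 := h.T_nonneg k hr
  have h3 : (0 : ℝ) < k + 1 := by positivity
  nlinarith

lemma Hyp.Delta_pos (h : Hyp ω) (k : ℕ) : 0 < Delta ω (k + 1) := by
  have := h.Delta_lower k zero_le_one
  have := h.pos 1 zero_le_one
  simp only [one_pow, mul_one] at *
  linarith

lemma Hyp.L_part (h : Hyp ω) {r : ℝ} (hr : 0 < r) :
    ∫ t in r..2 * r, ω t * t⁻¹ ≤ LL ω r := by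
  rw [LL, ← intervalIntegral.integral_interval_add_Ioi (b := 2 * r) (h.intL hr)
    (h.intL (by linarith))]
  have : 0 ≤ ∫ t in Ioi (2 * r), ω t * t⁻¹ := setIntegral_nonneg measurableSet_Ioi fun t ht => by
    have ht0 : 0 ≤ t := le_trans (by linarith) (le_of_lt ht)
    have := h.pos t ht0
    positivity
  linarith

lemma Hyp.L_ii (h : Hyp ω) {r : ℝ} (hr : 0 < r) :
    IntervalIntegrable (fun t => ω t * t⁻¹) volume r (2 * r) := by
  apply ContinuousOn.intervalIntegrable_of_Icc (by linarith)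
  exact (h.cont.mono fun t ht => (hr.le.trans ht.1)).mul
    (ContinuousOn.inv₀ (by fun_prop) fun t ht => (hr.trans_le ht.1).ne')

lemma Hyp.L_lower (h : Hyp ω) {r : ℝ} (hr : 0 < r) : ω (2 * r) / 2 ≤ LL ω r := by
  refine le_trans ?_ (h.L_part hr)
  have h1 : ∫ _ in r..2 * r, ω (2 * r) * (2 * r)⁻¹ ≤ ∫ t in r..2 * r, ω t * t⁻¹ := by
    apply intervalIntegral.integral_mono_on (by linarith) (by simp) (h.L_ii hr)
    intro t ht
    have ht0 : 0 < t := hr.trans_le ht.1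
    have := h.pos t ht0.le
    gcongr
    · exact h.anti ht0.le (show 0 ≤ 2 * r by linarith) ht.2
    · exact ht.2
  rw [intervalIntegral.integral_const, smul_eq_mul] at h1
  refine le_trans (le_of_eq ?_) h1
  field_simp; ring

lemma Hyp.L_pos (h : Hyp ω) {r : ℝ} (hr : 0 < r) : 0 < LL ω r := by
  have := h.L_lower hr
  have := h.pos (2 * r) (by linarith)
  linarith

lemma Hyp.J_bound (h : Hyp ω) (k : ℕ) {r : ℝ} (hr : 0 < r) :
    0 ≤ JJ ω k r ∧ r ^ k * JJ ω k r ≤ LL ω r := by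
  constructor
  · exact setIntegral_nonneg measurableSet_Ioi fun t ht => by
      have ht0 : 0 ≤ t := hr.le.trans (le_of_lt ht)
      have := h.pos t ht0
      positivity
  · rw [JJ, ← integral_const_mul]
    apply setIntegral_mono_on ((h.intJ (k + 1) hr).const_mul _) (h.intL hr) measurableSet_Ioi
    intro t ht
    have ht0 : 0 < t := hr.trans ht
    have := h.pos t ht0.le
    have h1 : r ^ k ≤ t ^ k := pow_le_pow_left₀ hr.le (le_of_lt ht) k
    calc r ^ k * (ω t * (t ^ (k + 1))⁻¹) ≤ t ^ k * (ω t * (t ^ (k + 1))⁻¹) := by gcongr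
      _ = ω t * t⁻¹ := by field_simp; ring

lemma Hyp.ratio (h : Hyp ω) {t₀ : ℝ} (hd : ∀ t, t₀ < t → DifferentiableAt ℝ ω t)
    (ha : AntitoneOn (fun t => t * deriv ω t / ω t) (Ioi t₀)) {c s : ℝ} (hc0 : 0 < c) (hc1 : c ≤ 1)
    (hs0 : 0 < s) (hs : t₀ < c * s) {t : ℝ} (ht : s ≤ t) :
    ω t * ω (c * s) ≤ ω s * ω (c * t) := by
  have hder : ∀ x, s ≤ x → HasDerivAt (fun x => Real.log (ω x) - Real.log (ω (c * x)))
      (deriv ω x / ω x - deriv ω (c * x) * (c * 1) / ω (c * x)) x := by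
    intro x hx
    have hx0 : 0 < x := hs0.trans_le hx
    have h1 : t₀ < c * x := by nlinarith
    have h2 : t₀ < x := by nlinarith
    exact ((hd x h2).hasDerivAt.log (h.pos x hx0.le).ne').sub
      (((hd _ h1).hasDerivAt.comp x ((hasDerivAt_id x).const_mul c)).log
        (h.pos _ (by positivity)).ne')
  have hanti : AntitoneOn (fun x => Real.log (ω x) - Real.log (ω (c * x))) (Ici s) := by
    apply antitoneOn_of_deriv_nonpos (convex_Ici s)
      (fun x hx => (hder x hx).continuousAt.continuousWithinAt)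
      (fun x hx => (hder x (interior_subset hx)).differentiableAt.differentiableWithinAt)
    intro x hx
    have hx' : s ≤ x := interior_subset hx
    have hx0 : 0 < x := hs0.trans_le hx'
    have h1 : t₀ < c * x := by nlinarith
    have h2 : t₀ < x := by nlinarith
    have h3 := ha h1 h2 (by nlinarith)
    rw [(hder x hx').deriv]
    simp only at h3
    apply le_of_mul_le_mul_left _ hx0
    calc x * (deriv ω x / ω x - deriv ω (c * x) * (c * 1) / ω (c * x))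
        = x * deriv ω x / ω x - c * x * deriv ω (c * x) / ω (c * x) := by ring
      _ ≤ x * 0 := by linarith
  have h1 := hanti (le_refl s) ht ht
  have p1 := h.pos t (by linarith)
  have p2 := h.pos s (by linarith)
  have p3 := h.pos (c * s) (by positivity)
  have p4 := h.pos (c * t) (by nlinarith)
  rw [← Real.log_le_log_iff (by positivity) (by positivity), Real.log_mul p1.ne' p3.ne',
    Real.log_mul p2.ne' p4.ne']
  simp only at h1
  linarith

lemma Hyp.T_bound (h : Hyp ω) {t₀ : ℝ} (hd : ∀ t, t₀ < t → DifferentiableAt ℝ ω t)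
    (ha : AntitoneOn (fun t => t * deriv ω t / ω t) (Ioi t₀)) (k : ℕ) {r₀ r : ℝ} (hr₀ : 0 < r₀)
    (ht₀ : t₀ < 2 * r₀) (hr : r₀ ≤ r) :
    ∫ t in Ioi r, ω t * t ^ k ≤ r ^ (k + 1) * LL ω r *
      (2 ^ (k + 1) + 2 * Delta ω (k + 1) / (ω (2 * r₀) * r₀ ^ (k + 1))) := by
  have hr0 : 0 < r := hr₀.trans_le hr
  rw [← intervalIntegral.integral_interval_add_Ioi (b := 2 * r) (h.intT k hr0.le)
    (h.intT k (by linarith))]
  have h1 : ∫ t in r..2 * r, ω t * t ^ k ≤ (2 * r) ^ (k + 1) * LL ω r := by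
    refine le_trans ?_ (mul_le_mul_of_nonneg_left (h.L_part hr0) (by positivity))
    rw [← intervalIntegral.integral_const_mul]
    apply intervalIntegral.integral_mono_on (by linarith) (h.II_int k hr0.le (by linarith))
      ((h.L_ii hr0).const_mul _)
    intro t ht
    have ht0 : 0 < t := hr0.trans_le ht.1
    have := h.pos t ht0.le
    calc ω t * t ^ k = t ^ (k + 1) * (ω t * t⁻¹) := by field_simp; ring
      _ ≤ _ := by gcongr; exact ht.2
  set c : ℝ := r₀ / r with hc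
  have hc0 : 0 < c := by positivity
  have hc1 : c ≤ 1 := (div_le_one hr0).2 hr
  have hcr : c * (2 * r) = 2 * r₀ := by rw [hc]; field_simp
  have hp := h.pos (2 * r₀) (by linarith)
  have hp2 := h.pos (2 * r) (by linarith)
  have hint : IntegrableOn (fun t => ω (c * t) * (c * t) ^ k) (Ioi (2 * r)) :=
    (integrableOn_Ioi_comp_mul_left_iff (fun t => ω t * t ^ k) _ hc0).2
      (h.intT k (by positivity))
  have h2 : ∫ t in Ioi (2 * r), ω t * t ^ k ≤
      ∫ t in Ioi (2 * r), ω (2 * r) / (ω (2 * r₀) * c ^ k) * (ω (c * t) * (c * t) ^ k) := by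
    apply setIntegral_mono_on (h.intT k (by linarith)) (hint.const_mul _) measurableSet_Ioi
    intro t ht
    have ht0 : 0 < t := lt_trans (by linarith) ht
    have h3 := h.ratio hd ha hc0 hc1 (s := 2 * r) (by linarith) (by linarith) (le_of_lt ht)
    rw [hcr] at h3
    calc ω t * t ^ k = (ω t * ω (2 * r₀)) * (t ^ k / ω (2 * r₀)) := by field_simp
      _ ≤ (ω (2 * r) * ω (c * t)) * (t ^ k / ω (2 * r₀)) := by gcongr
      _ = _ := by rw [mul_pow]; field_simp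
  rw [integral_const_mul, integral_comp_mul_left_Ioi (fun t => ω t * t ^ k) _ hc0, hcr,
    smul_eq_mul] at h2
  have h3 : ∫ t in Ioi (2 * r₀), ω t * t ^ k ≤ Delta ω (k + 1) := by
    rw [h.split k (show 0 ≤ 2 * r₀ by linarith)]
    have h4 := (h.II_upper k (show 0 ≤ 2 * r₀ by linarith)).1
    have h5 := h.T_nonneg k (show 0 ≤ 2 * r₀ by linarith)
    have h6 : (0 : ℝ) ≤ k := Nat.cast_nonneg k
    nlinarith
  have h4 : ω (2 * r) ≤ 2 * LL ω r := by linarith [h.L_lower hr0]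
  have hL := h.L_pos hr0
  have h5 : ω (2 * r) / (ω (2 * r₀) * c ^ k) * (c⁻¹ * ∫ t in Ioi (2 * r₀), ω t * t ^ k) ≤
      2 * LL ω r / (ω (2 * r₀) * c ^ k) * (c⁻¹ * Delta ω (k + 1)) := by
    have := h.T_nonneg k (show 0 ≤ 2 * r₀ by linarith)
    gcongr
  have h6 : 2 * LL ω r / (ω (2 * r₀) * c ^ k) * (c⁻¹ * Delta ω (k + 1)) =
      r ^ (k + 1) * LL ω r * (2 * Delta ω (k + 1) / (ω (2 * r₀) * r₀ ^ (k + 1))) := by
    rw [hc, div_pow]; field_simp; ring
  rw [mul_pow] at h1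
  nlinarith

lemma norm_conj_zpow {σ : ℤ} (hσ : σ = 1 ∨ σ = -1) {a : ℂ} (ha : a ≠ 0) {m : ℝ} (hm : 1 ≤ m)
    (hm2 : 1 ≤ m * ‖a‖ ^ 2) (k : ℕ) : ‖(starRingEnd ℂ) a ^ (σ * k)‖ ≤ m ^ k * ‖a‖ ^ k := by
  have h0 := norm_pos_iff.2 ha
  rw [norm_zpow, Complex.norm_conj, ← mul_pow]
  rcases hσ with rfl | rfl
  · rw [one_mul, zpow_natCast]
    gcongr
    nlinarith
  · rw [neg_one_mul, zpow_neg, zpow_natCast, ← inv_pow]
    gcongr
    rw [inv_le_iff_one_le_mul₀ h0]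
    nlinarith

lemma Hyp.term_bound (h : Hyp ω) {σ : ℤ} (hσ : σ = 1 ∨ σ = -1) {a : ℂ} (ha : a ≠ 0) {R : ℝ}
    (hR : 0 < R) : ∃ C : ℝ, ∀ k, ∀ z : ℂ, ‖z‖ ≤ R → ‖term σ ω z a (k + 1)‖ ≤ C * (1 / 2) ^ k := by
  have h0 := norm_pos_iff.2 ha
  obtain ⟨m, hm, hm2⟩ : ∃ m : ℝ, 1 ≤ m ∧ 1 ≤ m * ‖a‖ ^ 2 := by
    refine ⟨max 1 (‖a‖ ^ 2)⁻¹, le_max_left _ _, ?_⟩
    calc 1 = (‖a‖ ^ 2)⁻¹ * ‖a‖ ^ 2 := by field_simp
      _ ≤ _ := by gcongr; exact le_max_right _ _
  refine ⟨(ω 0 + LL ω ‖a‖) / ω (2 * m * R) / 2, fun k z hz => ?_⟩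
  have hD := h.Delta_lower k (r := 2 * m * R) (by positivity)
  have hp := h.pos (2 * m * R) (by positivity)
  have hp0 := h.pos 0 le_rfl
  have hL := h.L_pos h0
  obtain ⟨hI0, hI⟩ := h.II_upper k h0.le
  obtain ⟨hJ0, hJ⟩ := h.J_bound (k + 1) h0
  have hmk : 1 ≤ m ^ (k + 1) := one_le_pow₀ hm
  have h1 : ‖(a ^ (k + 1))⁻¹ * II ω (k + 1) ‖a‖ -
      (starRingEnd ℂ) a ^ (σ * (k + 1 : ℕ)) * JJ ω (k + 1) ‖a‖‖ ≤ (ω 0 + LL ω ‖a‖) * m ^ (k + 1) := by
    refine (norm_sub_le _ _).trans ?_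
    rw [norm_mul, norm_mul, norm_inv, norm_pow, Complex.norm_real, Complex.norm_real,
      Real.norm_of_nonneg hI0, Real.norm_of_nonneg hJ0]
    have h2 : (‖a‖ ^ (k + 1))⁻¹ * II ω (k + 1) ‖a‖ ≤ ω 0 := by
      rw [inv_mul_le_iff₀ (by positivity)]; linarith
    have h3 : ‖(starRingEnd ℂ) a ^ (σ * (k + 1 : ℕ))‖ * JJ ω (k + 1) ‖a‖ ≤
        m ^ (k + 1) * LL ω ‖a‖ := by
      calc _ ≤ m ^ (k + 1) * ‖a‖ ^ (k + 1) * JJ ω (k + 1) ‖a‖ := by
            gcongr; exact norm_conj_zpow hσ ha hm hm2 _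
        _ ≤ _ := by rw [mul_assoc]; gcongr
    nlinarith
  rw [term, norm_div, norm_mul, norm_pow, Complex.norm_real,
    Real.norm_of_nonneg (h.Delta_pos k).le]
  calc _ ≤ (ω 0 + LL ω ‖a‖) * m ^ (k + 1) * R ^ (k + 1) / (ω (2 * m * R) * (2 * m * R) ^ (k + 1)) := by
        gcongr
    _ = _ := by rw [mul_pow, mul_pow, div_pow]; field_simp; ring

lemma Hyp.summable_term (h : Hyp ω) {σ : ℤ} (hσ : σ = 1 ∨ σ = -1) {a : ℂ} (ha : a ≠ 0) (z : ℂ) :
    Summable fun k => term σ ω z a (k + 1) := by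
  obtain ⟨C, hC⟩ := h.term_bound hσ ha (R := ‖z‖ + 1) (by positivity)
  exact Summable.of_norm_bounded (summable_geometric_two.mul_left C)
    fun k => hC k z (by linarith)

lemma Hyp.contA (h : Hyp ω) {σ : ℤ} (hσ : σ = 1 ∨ σ = -1) {a : ℂ} (ha : a ≠ 0) {R : ℝ}
    (hR : 0 < R) : ContinuousOn (fun z => AA σ ω z a) (Metric.closedBall 0 R) := by
  obtain ⟨C, hC⟩ := h.term_bound hσ ha hR
  have h1 : ContinuousOn (fun z => ∑' k, term σ ω z a (k + 1)) (Metric.closedBall 0 R) :=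
    continuousOn_tsum (fun k => by unfold term; fun_prop) (summable_geometric_two.mul_left C)
      fun k z hz => hC k z (mem_closedBall_zero_iff.1 hz)
  unfold AA WW
  fun_prop

lemma Hyp.A_bound (h : Hyp ω) {σ : ℤ} (hσ : σ = 1 ∨ σ = -1) {t₀ : ℝ}
    (hd : ∀ t, t₀ < t → DifferentiableAt ℝ ω t)
    (ha : AntitoneOn (fun t => t * deriv ω t / ω t) (Ioi t₀)) {R : ℝ} (hR : 1 ≤ R)
    (ht₀ : t₀ < 4 * R) {a z : ℂ} (haR : 2 * R ≤ ‖a‖) (hz : ‖z‖ ≤ R) :
    ∃ g : ℂ, AA σ ω z a = Complex.exp g ∧ ‖g‖ ≤ (1 + 4 / ω (4 * R)) * LL ω ‖a‖ := by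
  have h0 : 0 < ‖a‖ := by linarith
  have ha0 : a ≠ 0 := norm_pos_iff.1 h0
  have hza : ‖z / a‖ < 1 := by rw [norm_div, div_lt_one h0]; linarith
  have hne : 1 - z / a ≠ 0 := by
    intro h1
    have : z / a = 1 := by linear_combination -h1
    rw [this] at hza; simp at hza
  refine ⟨Complex.log (1 - z / a) - WW σ ω z a, ?_, ?_⟩
  · rw [AA, sub_eq_add_neg (Complex.log _), Complex.exp_add, Complex.exp_log hne]
  have h1 := (h.summable_term hσ ha0 z).hasSum.sub (Complex.hasSum_taylorSeries_neg_log' hza)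
  have hp := h.pos (4 * R) (by linarith)
  have hL := h.L_pos h0
  have h2 := HasSum.norm_le_of_bounded h1
    (hasSum_geometric_two.mul_left (2 / ω (4 * R) * LL ω ‖a‖)) (fun k => ?_)
  · have h3 : Complex.log (1 - z / a) - WW σ ω z a =
        (∑' k, term σ ω z a (k + 1) - -Complex.log (1 - z / a)) - LL ω ‖a‖ := by
      rw [WW]; ring
    rw [h3]
    refine (norm_sub_le _ _).trans ?_
    rw [Complex.norm_real, Real.norm_of_nonneg hL.le]
    calc _ ≤ 2 / ω (4 * R) * LL ω ‖a‖ * 2 + LL ω ‖a‖ := by gcongr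
      _ = _ := by ring
  have hD := h.Delta_pos k
  have hDl := h.Delta_lower k (r := 4 * R) (by linarith)
  have hT := h.T_bound hd ha k (r₀ := 2 * R) (by linarith) (by linarith) haR
  have hT0 := h.T_nonneg k h0.le
  obtain ⟨hJ0, hJ⟩ := h.J_bound (k + 1) h0
  have hsp := h.split k h0.le
  rw [show 2 * (2 * R) = 4 * R by ring] at hT
  generalize ∫ t in Ioi ‖a‖, ω t * t ^ k = T at *
  have e1 : term σ ω z a (k + 1) - (z / a) ^ (k + 1) / (k + 1) =
      -(((a ^ (k + 1))⁻¹ * T + (starRingEnd ℂ) a ^ (σ * (k + 1 : ℕ)) * JJ ω (k + 1) ‖a‖) *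
        z ^ (k + 1) / Delta ω (k + 1)) := by
    have h3 : (Delta ω (k + 1) : ℂ) ≠ 0 := by exact_mod_cast hD.ne'
    have h4 : (Delta ω (k + 1) : ℂ) = (k + 1) * (II ω (k + 1) ‖a‖ + T) := by exact_mod_cast hsp
    have h5 : (k + 1 : ℂ) ≠ 0 := by exact_mod_cast k.succ_ne_zero
    have h6 : (z / a) ^ (k + 1) / (k + 1) =
        (a ^ (k + 1))⁻¹ * (II ω (k + 1) ‖a‖ + T) * z ^ (k + 1) / Delta ω (k + 1) := by
      rw [div_eq_div_iff h5 h3, h4, div_pow]; ring
    rw [h6, term]; ring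
  rw [e1, norm_neg, norm_div, norm_mul, norm_pow, Complex.norm_real, Real.norm_of_nonneg hD.le]
  have h3 : ‖(a ^ (k + 1))⁻¹ * T + (starRingEnd ℂ) a ^ (σ * (k + 1 : ℕ)) * JJ ω (k + 1) ‖a‖‖ ≤
      LL ω ‖a‖ * (2 * 2 ^ (k + 1) + 2 * Delta ω (k + 1) / (ω (4 * R) * (2 * R) ^ (k + 1))) := by
    refine (norm_add_le _ _).trans ?_
    rw [norm_mul, norm_mul, norm_inv, norm_pow, Complex.norm_real, Complex.norm_real,
      Real.norm_of_nonneg hT0, Real.norm_of_nonneg hJ0]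
    have h4 : (‖a‖ ^ (k + 1))⁻¹ * T ≤ LL ω ‖a‖ *
        (2 ^ (k + 1) + 2 * Delta ω (k + 1) / (ω (4 * R) * (2 * R) ^ (k + 1))) := by
      rw [inv_mul_le_iff₀ (by positivity), ← mul_assoc]; exact hT
    have h5 : ‖(starRingEnd ℂ) a ^ (σ * (k + 1 : ℕ))‖ * JJ ω (k + 1) ‖a‖ ≤ LL ω ‖a‖ := by
      refine le_trans ?_ hJ
      have := norm_conj_zpow hσ ha0 le_rfl (by nlinarith) (k + 1)
      rw [one_pow, one_mul] at this
      gcongr
    have h6 : (1 : ℝ) ≤ 2 ^ (k + 1) := one_le_pow₀ one_le_two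
    nlinarith
  calc _ ≤ LL ω ‖a‖ * (2 * 2 ^ (k + 1) + 2 * Delta ω (k + 1) / (ω (4 * R) * (2 * R) ^ (k + 1))) *
        R ^ (k + 1) / Delta ω (k + 1) := by gcongr
    _ = LL ω ‖a‖ * (2 * (2 * R) ^ (k + 1) / Delta ω (k + 1) +
        1 / ω (4 * R) * (1 / 2) ^ k) := by
        rw [mul_pow, div_pow]; field_simp; ring
    _ ≤ LL ω ‖a‖ * (2 * (2 * R) ^ (k + 1) / (ω (4 * R) * (4 * R) ^ (k + 1)) +
        1 / ω (4 * R) * (1 / 2) ^ k) := by gcongr
    _ = _ := by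
        rw [show 4 * R = 2 * (2 * R) by ring, mul_pow 2 (2 * R), div_pow]; field_simp; ring

theorem Hyp.main (h : Hyp ω) {σ : ℤ} (hσ : σ = 1 ∨ σ = -1) {t₀ : ℝ}
    (hd : ∀ t, t₀ < t → DifferentiableAt ℝ ω t)
    (ha : AntitoneOn (fun t => t * deriv ω t / ω t) (Ioi t₀)) {a : ℕ → ℂ} (ha0 : ∀ k, a k ≠ 0)
    (hs : Summable fun k => LL ω ‖a k‖) :
    ∃ P : ℂ → ℂ, (∀ K : Set ℂ, IsCompact K →
      TendstoUniformlyOn (fun n z => ∏ k ∈ Finset.range n, AA σ ω z (a k)) P atTop K) ∧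
      ∀ z, z ∉ range a → P z ≠ 0 := by
  have key : ∀ R : ℝ, 0 < R → ∃ u : ℕ → ℝ, Summable u ∧
      ∀ᶠ n in atTop, ∀ z ∈ Metric.closedBall (0 : ℂ) R, ‖AA σ ω z (a n) - 1‖ ≤ u n := by
    intro R hR
    obtain ⟨R', h1, h2, h3⟩ : ∃ R' : ℝ, 1 ≤ R' ∧ R ≤ R' ∧ t₀ < 4 * R' :=
      ⟨max 1 (max R (|t₀| + 1)), le_max_left _ _, le_max_of_le_right (le_max_left _ _), by
        have : |t₀| + 1 ≤ max 1 (max R (|t₀| + 1)) := le_max_of_le_right (le_max_right _ _)
        linarith [le_abs_self t₀, abs_nonneg t₀]⟩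
    have hp := h.pos (4 * R') (by linarith)
    refine ⟨fun n => 2 * ((1 + 4 / ω (4 * R')) * LL ω ‖a n‖), (hs.mul_left _).mul_left _, ?_⟩
    have e1 := hs.tendsto_atTop_zero.eventually_lt_const (show 0 < ω (4 * R') / 2 by positivity)
    have e2 := (hs.mul_left (1 + 4 / ω (4 * R'))).tendsto_atTop_zero.eventually_lt_const one_pos
    filter_upwards [e1, e2] with n hn1 hn2 z hz
    have h4 : 2 * R' ≤ ‖a n‖ := by
      by_contra hc
      have h0 := norm_pos_iff.2 (ha0 n)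
      have h5 := h.L_lower h0
      have h6 : ω (4 * R') ≤ ω (2 * ‖a n‖) :=
        h.anti (show 0 ≤ 2 * ‖a n‖ by linarith) (show 0 ≤ 4 * R' by linarith) (by linarith)
      linarith
    obtain ⟨g, hg, hgb⟩ := h.A_bound hσ hd ha h1 h3 h4 ((mem_closedBall_zero_iff.1 hz).trans h2)
    rw [hg]
    exact (Complex.norm_exp_sub_one_le (hgb.trans hn2.le)).trans (by gcongr)
  refine ⟨fun z => ∏' k, (1 + (AA σ ω z (a k) - 1)), fun K hK => ?_, fun z hz => ?_⟩
  · obtain ⟨R, hR, hKR⟩ := hK.isBounded.subset_closedBall_lt 0 0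
    obtain ⟨u, hu, hb⟩ := key R hR
    have := (hu.hasProdUniformlyOn_nat_one_add (f := fun n z => AA σ ω z (a n) - 1)
      (isCompact_closedBall 0 R) hb
      fun n => (h.contA hσ (ha0 n) hR).sub continuousOn_const).tendstoUniformlyOn_finsetRange
    simpa using this.mono hKR
  · apply tprod_one_add_ne_zero_of_summable
    · intro k
      rw [add_sub_cancel, AA]
      refine mul_ne_zero (fun h1 => hz ⟨k, ?_⟩) (Complex.exp_ne_zero _)
      have := ha0 k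
      field_simp at h1
      linear_combination h1
    · obtain ⟨u, hu, hb⟩ := key (‖z‖ + 1) (by positivity)
      refine Summable.of_norm_bounded_eventually_nat hu ?_
      filter_upwards [hb] with n hn
      rw [norm_norm]
      exact hn z (by simp)

end Pool.Agent.H88.Djrb
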