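import Mathlib

set_option autoImplicit false

namespace Pool.Agent.H88.Djrb

open MeasureTheory Set

/-- `Δ_k = k ∫_0^∞ ω(t) t^(k-1) dt` (used for `k ≥ 1`). -/
noncomputable def Delta (ω : ℝ → ℝ) (k : ℕ) : ℝ := k * ∫ t in Ioi (0 : ℝ), ω t * t ^ (k - 1)

/-- `L(r) = ∫_r^∞ ω(t) t⁻¹ dt`. -/
noncomputable def LL (ω : ℝ → ℝ) (r : ℝ) : ℝ := ∫ t in Ioi r, ω t * t⁻¹

/-- `I_k(r) = ∫_0^r ω(t) t^(k-1) dt` (used for `k ≥ 1`). -/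
noncomputable def II (ω : ℝ → ℝ) (k : ℕ) (r : ℝ) : ℝ := ∫ t in (0 : ℝ)..r, ω t * t ^ (k - 1)

/-- `J_k(r) = ∫_r^∞ ω(t) t^(-k-1) dt`. -/
noncomputable def JJ (ω : ℝ → ℝ) (k : ℕ) (r : ℝ) : ℝ := ∫ t in Ioi r, ω t * (t ^ (k + 1))⁻¹

/-- The `k`-th term `(a^(-k) I_k(|a|) - conj(a)^(σ k) J_k(|a|)) z^k / Δ_k` of the series in `W`. -/
noncomputable def term (σ : ℤ) (ω : ℝ → ℝ) (z a : ℂ) (k : ℕ) : ℂ :=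
  ((a ^ k)⁻¹ * II ω k ‖a‖ - (starRingEnd ℂ) a ^ (σ * k) * JJ ω k ‖a‖) * z ^ k / Delta ω k

/-- `W_ω(z; a) = L(|a|) - ∑_{k ≥ 1} term k`. -/
noncomputable def WW (σ : ℤ) (ω : ℝ → ℝ) (z a : ℂ) : ℂ :=
  LL ω ‖a‖ - ∑' k : ℕ, term σ ω z a (k + 1)

/-- `A_ω(z; a) = (1 - z/a) exp(-W_ω(z; a))`. -/
noncomputable def AA (σ : ℤ) (ω : ℝ → ℝ) (z a : ℂ) : ℂ :=
  (1 - z / a) * Complex.exp (-WW σ ω z a)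

end Pool.Agent.H88.Djrb
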