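import Mathlib

set_option autoImplicit false
open MeasureTheory Filter Topology Metric Set Complex

namespace Pool.Agent.H88.Fatou

theorem abel (b w : ℕ → ℂ) (M B V : ℝ) (hM : ∀ N, ‖∑ k ∈ Finset.range N, b k‖ ≤ M)
    (N : ℕ) (hB : ‖w (N - 1)‖ ≤ B) (hV : ∑ k ∈ Finset.range (N - 1), ‖w (k + 1) - w k‖ ≤ V) :
    ‖∑ k ∈ Finset.range N, w k * b k‖ ≤ M * (B + V) := by
  have hM0 : 0 ≤ M := (norm_nonneg _).trans (hM 0)
  have h1 := Finset.sum_range_by_parts w b N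
  simp only [smul_eq_mul] at h1
  rw [h1]
  refine (norm_sub_le _ _).trans ?_
  have h2 : ‖w (N - 1) * ∑ k ∈ Finset.range N, b k‖ ≤ B * M := by
    rw [norm_mul]
    exact mul_le_mul hB (hM N) (norm_nonneg _) ((norm_nonneg _).trans hB)
  have h3 : ‖∑ i ∈ Finset.range (N - 1), (w (i + 1) - w i) * ∑ k ∈ Finset.range (i + 1), b k‖
      ≤ V * M := by
    refine (norm_sum_le _ _).trans ?_
    refine le_trans ?_ (mul_le_mul_of_nonneg_right hV hM0)
    rw [Finset.sum_mul]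
    refine Finset.sum_le_sum fun i _ => ?_
    rw [norm_mul]
    exact mul_le_mul_of_nonneg_left (hM _) (norm_nonneg _)
  linarith

theorem abel_r (b : ℕ → ℂ) (M : ℝ) (hM : ∀ N, ‖∑ k ∈ Finset.range N, b k‖ ≤ M) {r : ℝ}
    (h0 : 0 ≤ r) (h1 : r ≤ 1) (N : ℕ) : ‖∑ k ∈ Finset.range N, (r:ℂ) ^ k * b k‖ ≤ M := by
  have h2 := abel b (fun k => (r:ℂ) ^ k) M (r ^ (N - 1)) (1 - r ^ (N - 1)) hM N
    (by rw [norm_pow, norm_real, Real.norm_of_nonneg h0]) (by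
      have e : ∀ k : ℕ, ‖(r:ℂ) ^ (k + 1) - (r:ℂ) ^ k‖ = r ^ k - r ^ (k + 1) := by
        intro k
        rw [norm_sub_rev, ← ofReal_pow, ← ofReal_pow, ← ofReal_sub, norm_real,
          Real.norm_of_nonneg]
        exact sub_nonneg.2 (pow_le_pow_of_le_one h0 h1 (by omega))
      simp_rw [e]
      rw [Finset.sum_range_sub']
      simp)
  simpa using h2

noncomputable def phi (δ x : ℝ) : ℂ := ∫ t in (0:ℝ)..δ, (1 - (t:ℂ) / δ) * exp (I * (x * t : ℝ))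

theorem norm_tent {δ t : ℝ} (hδ : 0 < δ) (ht : t ∈ uIoc 0 δ) : ‖1 - (t:ℂ) / δ‖ ≤ 1 := by
  rw [uIoc_of_le hδ.le] at ht
  have e : 1 - (t:ℂ) / δ = ((1 - t / δ : ℝ) : ℂ) := by push_cast; ring
  have h1 : t / δ ≤ 1 := (div_le_one hδ).2 ht.2
  have h2 : 0 ≤ t / δ := div_nonneg ht.1.le hδ.le
  rw [e, norm_real, Real.norm_of_nonneg (by linarith)]
  linarith

theorem phi_le {δ : ℝ} (hδ : 0 < δ) (x : ℝ) : ‖phi δ x‖ ≤ δ := by
  have := intervalIntegral.norm_integral_le_of_norm_le_const (a := 0) (b := δ) (C := 1)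
    (f := fun t : ℝ => (1 - (t:ℂ) / δ) * exp (I * (x * t : ℝ))) fun t ht => by
      rw [norm_mul, norm_exp_I_mul_ofReal, mul_one]
      exact norm_tent hδ ht
  rw [sub_zero, abs_of_pos hδ, one_mul] at this
  exact this

theorem dphi_le {δ : ℝ} (hδ : 0 < δ) (x : ℝ) : ‖phi δ (x + 1) - phi δ x‖ ≤ δ ^ 2 := by
  unfold phi
  rw [← intervalIntegral.integral_sub (Continuous.intervalIntegrable (by fun_prop) _ _)
    (Continuous.intervalIntegrable (by fun_prop) _ _)]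
  have := intervalIntegral.norm_integral_le_of_norm_le_const (a := 0) (b := δ) (C := δ)
    (f := fun t : ℝ => (1 - (t:ℂ) / δ) * exp (I * ((x + 1) * t : ℝ))
      - (1 - (t:ℂ) / δ) * exp (I * (x * t : ℝ))) fun t ht => by
      have e : (1 - (t:ℂ) / δ) * exp (I * ((x + 1) * t : ℝ))
          - (1 - (t:ℂ) / δ) * exp (I * (x * t : ℝ))
          = (1 - (t:ℂ) / δ) * exp (I * (x * t : ℝ)) * (exp (I * t) - 1) := by
        rw [show I * (((x + 1) * t : ℝ) : ℂ) = I * ((x * t : ℝ) : ℂ) + I * t by push_cast; ring,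
          exp_add]
        ring
      have h1 := norm_tent hδ ht
      rw [uIoc_of_le hδ.le] at ht
      have h2 : ‖exp (I * t) - 1‖ ≤ δ := by
        refine Real.norm_exp_I_mul_ofReal_sub_one_le.trans ?_
        rw [Real.norm_of_nonneg ht.1.le]
        exact ht.2
      rw [e, norm_mul, norm_mul, norm_exp_I_mul_ofReal, mul_one]
      calc ‖1 - (t:ℂ) / δ‖ * ‖exp (I * t) - 1‖ ≤ 1 * δ := by gcongr
        _ = δ := one_mul _
  rw [sub_zero, abs_of_pos hδ, ← sq] at this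
  exact this

theorem phi_eq {δ : ℝ} (hδ : 0 < δ) {x : ℝ} (hx : x ≠ 0) :
    phi δ x = I / x + (1 - exp (I * (x * δ : ℝ))) / (δ * x ^ 2) := by
  have hδ' : (δ:ℂ) ≠ 0 := by exact_mod_cast hδ.ne'
  have hx' : (x:ℂ) ≠ 0 := by exact_mod_cast hx
  have hd : ∀ t : ℝ, HasDerivAt (fun t : ℝ => (-I / x * (1 - (t:ℂ) / δ) - 1 / (δ * x ^ 2))
      * exp (I * x * t)) ((1 - (t:ℂ) / δ) * exp (I * (x * t : ℝ))) t := by
    intro t
    have h1 : HasDerivAt (fun z : ℂ => (-I / x * (1 - z / δ) - 1 / (δ * x ^ 2)) * exp (I * x * z))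
        ((-I / x * (0 - 1 / δ) - 0) * exp (I * x * t)
          + (-I / x * (1 - (t:ℂ) / δ) - 1 / (δ * x ^ 2)) * (exp (I * x * t) * (I * x * 1))) (t:ℂ) :=
      HasDerivAt.mul ((((hasDerivAt_const _ _).sub ((hasDerivAt_id _).div_const _)).const_mul
        _).sub (hasDerivAt_const _ _)) (((hasDerivAt_id _).const_mul _).cexp)
    have h2 := h1.comp_ofReal
    refine h2.congr_deriv ?_
    rw [show I * ((x * t : ℝ) : ℂ) = I * x * t by push_cast; ring]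
    field_simp
    linear_combination (-(x:ℂ) * (δ - t)) * I_mul_I
  unfold phi
  rw [intervalIntegral.integral_eq_sub_of_hasDerivAt (fun t _ => hd t)
    (Continuous.intervalIntegrable (by fun_prop) _ _)]
  rw [show I * ((x * δ : ℝ) : ℂ) = I * x * δ by push_cast; ring]
  simp only [ofReal_zero, mul_zero, exp_zero]
  field_simp
  ring

theorem dphi_le' {δ : ℝ} (hδ : 0 < δ) {x : ℝ} (hx : 1 ≤ |x|) (hy : 1 ≤ |x + 1|) :
    ‖phi δ (x + 1) - phi δ x‖ ≤ 6 / (|x| * |x + 1|) := by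
  have hx0 : x ≠ 0 := abs_pos.1 (by linarith)
  have hy0 : x + 1 ≠ 0 := abs_pos.1 (by linarith)
  have hδ' : (δ:ℂ) ≠ 0 := by exact_mod_cast hδ.ne'
  have hx' : (x:ℂ) ≠ 0 := by exact_mod_cast hx0
  have hy' : (x:ℂ) + 1 ≠ 0 := by exact_mod_cast hy0
  rw [phi_eq hδ hx0, phi_eq hδ hy0]
  have e : I / ((x + 1 : ℝ) : ℂ) + (1 - exp (I * ((x + 1) * δ : ℝ))) / (δ * ((x + 1 : ℝ) : ℂ) ^ 2)
      - (I / x + (1 - exp (I * (x * δ : ℝ))) / (δ * x ^ 2))
      = -I / ((x * (x + 1) : ℝ) : ℂ)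
        - exp (I * (x * δ : ℝ)) * (exp (I * δ) - 1) / ((δ * (x + 1) ^ 2 : ℝ) : ℂ)
        + (exp (I * (x * δ : ℝ)) - 1) * ((2 * x + 1 : ℝ) : ℂ)
          / ((δ * x ^ 2 * (x + 1) ^ 2 : ℝ) : ℂ) := by
    rw [show I * (((x + 1) * δ : ℝ) : ℂ) = I * ((x * δ : ℝ) : ℂ) + I * δ by push_cast; ring,
      exp_add]
    generalize exp (I * ((x * δ : ℝ) : ℂ)) = A
    generalize exp (I * δ) = B
    push_cast
    field_simp
    ring
  rw [e]
  have h1 : ‖-I / ((x * (x + 1) : ℝ) : ℂ)‖ = 1 / (|x| * |x + 1|) := by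
    rw [norm_div, norm_neg, norm_I, norm_real, Real.norm_eq_abs, abs_mul]
  have h2 : ‖exp (I * (x * δ : ℝ)) * (exp (I * δ) - 1) / ((δ * (x + 1) ^ 2 : ℝ) : ℂ)‖
      ≤ 2 / (|x| * |x + 1|) := by
    rw [norm_div, norm_mul, norm_exp_I_mul_ofReal, one_mul, norm_real,
      Real.norm_of_nonneg (by positivity), div_le_div_iff₀ (by positivity) (by positivity),
      ← sq_abs (x + 1)]
    have h3 : ‖exp (I * δ) - 1‖ ≤ δ :=
      Real.norm_exp_I_mul_ofReal_sub_one_le.trans (Real.norm_of_nonneg hδ.le).le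
    have h4 : |x| ≤ 2 * |x + 1| := by
      have := abs_sub (x + 1) 1
      rw [add_sub_cancel_right, abs_one] at this
      linarith
    calc ‖exp (I * δ) - 1‖ * (|x| * |x + 1|) ≤ δ * (2 * |x + 1| * |x + 1|) := by gcongr
      _ = _ := by ring
  have h3 : ‖(exp (I * (x * δ : ℝ)) - 1) * ((2 * x + 1 : ℝ) : ℂ)
      / ((δ * x ^ 2 * (x + 1) ^ 2 : ℝ) : ℂ)‖ ≤ 3 / (|x| * |x + 1|) := by
    rw [norm_div, norm_mul, norm_real, norm_real, Real.norm_eq_abs,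
      Real.norm_of_nonneg (by positivity), div_le_div_iff₀ (by positivity) (by positivity),
      ← sq_abs (x + 1), ← sq_abs x]
    have h3 : ‖exp (I * (x * δ : ℝ)) - 1‖ ≤ |x| * δ := by
      refine Real.norm_exp_I_mul_ofReal_sub_one_le.trans ?_
      rw [Real.norm_eq_abs, abs_mul, abs_of_pos hδ]
    have h4 : |2 * x + 1| ≤ 3 * |x + 1| := by
      have := abs_sub (2 * (x + 1)) 1
      rw [show 2 * (x + 1) - 1 = 2 * x + 1 by ring, abs_one, abs_mul, abs_two] at this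
      linarith
    calc ‖exp (I * (x * δ : ℝ)) - 1‖ * |2 * x + 1| * (|x| * |x + 1|)
        ≤ (|x| * δ) * (3 * |x + 1|) * (|x| * |x + 1|) := by gcongr
      _ = _ := by ring
  refine (norm_add_le _ _).trans ((add_le_add (norm_sub_le _ _) le_rfl).trans ?_)
  rw [h1]
  have : 6 / (|x| * |x + 1|) = 1 / (|x| * |x + 1|) + 2 / (|x| * |x + 1|) + 3 / (|x| * |x + 1|) := by
    ring
  linarith

noncomputable def gg (δ x : ℝ) : ℝ := δ ^ 2 * x / (1 + δ * |x|)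

theorem gg_abs {δ : ℝ} (hδ : 0 < δ) (x : ℝ) : |gg δ x| ≤ δ := by
  unfold gg
  rw [abs_div, abs_mul, abs_of_pos (show 0 < 1 + δ * |x| by positivity),
    abs_of_pos (show 0 < δ ^ 2 by positivity), div_le_iff₀ (by positivity)]
  nlinarith

theorem dphi_int {δ : ℝ} (hδ : 0 < δ) (hδ7 : δ ≤ 7) (m : ℤ) :
    ‖phi δ (m + 1) - phi δ m‖ ≤ 81 * (gg δ (m + 1) - gg δ m) := by
  have h1 : gg δ (m + 1) - gg δ m = δ ^ 2 / ((1 + δ * |(m:ℝ)|) * (1 + δ * |(m:ℝ) + 1|)) := by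
    unfold gg
    have p1 : 0 < 1 + δ * |(m:ℝ)| := by positivity
    have p2 : 0 < 1 + δ * |(m:ℝ) + 1| := by positivity
    rw [div_sub_div _ _ p2.ne' p1.ne', div_eq_div_iff (by positivity) (by positivity)]
    rcases le_or_gt 0 m with h | h
    · have h' : (0:ℝ) ≤ m := by exact_mod_cast h
      rw [abs_of_nonneg h', abs_of_nonneg (by linarith)]
      ring
    · have h' : (m:ℝ) + 1 ≤ 0 := by exact_mod_cast h
      rw [abs_of_nonpos h', abs_of_nonpos (by linarith)]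
      ring
  have h2 : |(m:ℝ) + 1| ≤ |(m:ℝ)| + 1 := by simpa using abs_add_le (m:ℝ) 1
  have h3 : |(m:ℝ)| ≤ |(m:ℝ) + 1| + 1 := by
    have := abs_sub ((m:ℝ) + 1) 1
    rwa [add_sub_cancel_right, abs_one] at this
  have p1 := abs_nonneg (m:ℝ)
  have p2 := abs_nonneg ((m:ℝ) + 1)
  rw [h1, ← mul_div_assoc, le_div_iff₀ (by positivity)]
  by_cases hc : δ * |(m:ℝ)| ≤ 1 ∨ δ * |(m:ℝ) + 1| ≤ 1
  · have h4 : δ * |(m:ℝ)| ≤ 8 ∧ δ * |(m:ℝ) + 1| ≤ 8 := by
      rcases hc with hc | hc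
      · exact ⟨by linarith, by nlinarith⟩
      · exact ⟨by nlinarith, by linarith⟩
    calc ‖phi δ (m + 1) - phi δ m‖ * ((1 + δ * |(m:ℝ)|) * (1 + δ * |(m:ℝ) + 1|))
        ≤ δ ^ 2 * (9 * 9) := by
          gcongr
          · exact dphi_le hδ _
          · linarith [h4.1]
          · linarith [h4.2]
      _ = _ := by ring
  · push Not at hc
    have hm0 : m ≠ 0 := by
      rintro rfl
      simp at hc
      linarith [hc.1]
    have hm1 : m + 1 ≠ 0 := by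
      intro h
      have : (m:ℝ) + 1 = 0 := by exact_mod_cast h
      rw [this] at hc
      simp at hc
      linarith [hc.2]
    have h5 : 1 ≤ |(m:ℝ)| := by exact_mod_cast Int.one_le_abs hm0
    have h6 : 1 ≤ |(m:ℝ) + 1| := by exact_mod_cast Int.one_le_abs hm1
    calc ‖phi δ (m + 1) - phi δ m‖ * ((1 + δ * |(m:ℝ)|) * (1 + δ * |(m:ℝ) + 1|))
        ≤ 6 / (|(m:ℝ)| * |(m:ℝ) + 1|) * ((2 * (δ * |(m:ℝ)|)) * (2 * (δ * |(m:ℝ) + 1|))) := by
          gcongr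
          · exact dphi_le' hδ h5 h6
          · linarith [hc.1]
          · linarith [hc.2]
      _ = 24 * δ ^ 2 := by field_simp; ring
      _ ≤ _ := by nlinarith

theorem phi_bv {δ : ℝ} (hδ : 0 < δ) (hδ7 : δ ≤ 7) {s : ℝ} (hs : s = 1 ∨ s = -1) (n N : ℕ) :
    ∑ k ∈ Finset.range N, ‖phi δ (s * (((k + 1 : ℕ) : ℝ) - n)) - phi δ (s * ((k:ℝ) - n))‖
      ≤ 162 * δ := by
  have key : ∀ k : ℕ, ‖phi δ (s * (((k + 1 : ℕ) : ℝ) - n)) - phi δ (s * ((k:ℝ) - n))‖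
      ≤ 81 * s * gg δ (s * (((k + 1 : ℕ) : ℝ) - n)) - 81 * s * gg δ (s * ((k:ℝ) - n)) := by
    intro k
    rcases hs with rfl | rfl
    · have := dphi_int hδ hδ7 ((k:ℤ) - n)
      push_cast at this ⊢
      rw [one_mul, one_mul, show (k:ℝ) + 1 - n = k - n + 1 by ring]
      linarith
    · have := dphi_int hδ hδ7 ((n:ℤ) - k - 1)
      push_cast at this ⊢
      rw [norm_sub_rev, show -1 * ((k:ℝ) + 1 - n) = n - k - 1 by ring,
        show -1 * ((k:ℝ) - n) = n - k - 1 + 1 by ring]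
      linarith
  refine (Finset.sum_le_sum fun k _ => key k).trans ?_
  rw [Finset.sum_range_sub (fun k : ℕ => 81 * s * gg δ (s * ((k:ℝ) - n)))]
  have h1 := abs_le.1 (gg_abs hδ (s * ((N:ℝ) - n)))
  have h2 := abs_le.1 (gg_abs hδ (s * (((0:ℕ):ℝ) - n)))
  rcases hs with rfl | rfl <;> linarith [h1.1, h1.2, h2.1, h2.2]

theorem tent_bound (b : ℕ → ℂ) (M : ℝ) (hM : ∀ N, ‖∑ k ∈ Finset.range N, b k‖ ≤ M)
    (hb : Summable fun k => ‖b k‖) {δ : ℝ} (hδ : 0 < δ) (hδ7 : δ ≤ 7) {s : ℝ}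
    (hs : s = 1 ∨ s = -1) (n : ℕ) :
    ‖∫ t in (0:ℝ)..δ, (1 - (t:ℂ) / δ) * ∑' k, b k * exp (I * (s * ((k:ℝ) - n) * t : ℝ))‖
      ≤ 163 * M * δ := by
  have h1 := intervalIntegral.hasSum_integral_of_dominated_convergence (μ := volume)
    (a := 0) (b := δ)
    (F := fun (k : ℕ) (t : ℝ) => (1 - (t:ℂ) / δ) * (b k * exp (I * (s * ((k:ℝ) - n) * t : ℝ))))
    (f := fun t : ℝ => (1 - (t:ℂ) / δ) * ∑' k, b k * exp (I * (s * ((k:ℝ) - n) * t : ℝ)))
    (fun k _ => ‖b k‖) (fun k => Continuous.aestronglyMeasurable (by fun_prop))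
    (fun k => Eventually.of_forall fun t ht => by
      rw [norm_mul, norm_mul, norm_exp_I_mul_ofReal, mul_one]
      exact mul_le_of_le_one_left (norm_nonneg _) (norm_tent hδ ht))
    (Eventually.of_forall fun _ _ => hb) intervalIntegrable_const
    (Eventually.of_forall fun t _ => HasSum.mul_left _ (Summable.hasSum (Summable.of_norm (by
      simpa only [norm_mul, norm_exp_I_mul_ofReal, mul_one] using hb))))
  have h2 : ∀ k : ℕ, ∫ t in (0:ℝ)..δ,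
      (1 - (t:ℂ) / δ) * (b k * exp (I * (s * ((k:ℝ) - n) * t : ℝ)))
      = phi δ (s * ((k:ℝ) - n)) * b k := by
    intro k
    unfold phi
    rw [← intervalIntegral.integral_mul_const]
    congr 1
    funext t
    ring
  simp_rw [h2] at h1
  refine le_of_tendsto' h1.tendsto_sum_nat.norm fun N => ?_
  have h3 := abel b (fun k => phi δ (s * ((k:ℝ) - n))) M δ (162 * δ) hM N (phi_le hδ _)
    (phi_bv hδ hδ7 hs n _)
  linarith

end Pool.Agent.H88.Fatou
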