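import Pool.Agent.H88.Fatou1

set_option autoImplicit false
open MeasureTheory Filter Topology Metric Set Complex

namespace Pool.Agent.H88.Fatou

noncomputable def tent (δ t : ℝ) : ℝ := max (1 - t / δ) 0

theorem tent_nonneg (δ t : ℝ) : 0 ≤ tent δ t := le_max_right _ _

theorem tent_le {δ t : ℝ} (hδ : 0 < δ) (ht : 0 ≤ t) : tent δ t ≤ 1 :=
  max_le (by have := div_nonneg ht hδ.le; linarith) zero_le_one

theorem tent_of_le {δ t : ℝ} (hδ : 0 < δ) (ht : t ≤ δ) : tent δ t = 1 - t / δ :=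
  max_eq_left (by have := (div_le_one hδ).2 ht; linarith)

theorem tent_of_ge {δ t : ℝ} (hδ : 0 < δ) (ht : δ ≤ t) : tent δ t = 0 :=
  max_eq_right (by have := (one_le_div hδ).2 ht; linarith)

theorem tent_cont (δ : ℝ) : Continuous (tent δ) := by
  unfold tent
  fun_prop

theorem tent_int {G : ℝ → ℂ} (hG : Continuous G) {δ l : ℝ} (hδ : 0 < δ) (hl : δ ≤ l) :
    ∫ t in (0:ℝ)..l, (tent δ t : ℂ) * G t = ∫ t in (0:ℝ)..δ, (1 - (t:ℂ) / δ) * G t := by
  have hc : Continuous fun t => (tent δ t : ℂ) * G t :=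
    (continuous_ofReal.comp (tent_cont δ)).mul hG
  rw [← intervalIntegral.integral_add_adjacent_intervals (b := δ) (hc.intervalIntegrable _ _)
    (hc.intervalIntegrable _ _)]
  have h1 : ∫ t in δ..l, (tent δ t : ℂ) * G t = 0 := by
    rw [intervalIntegral.integral_congr (g := fun _ => 0), intervalIntegral.integral_zero]
    intro t ht
    rw [uIcc_of_le hl] at ht
    simp only [tent_of_ge hδ ht.1, ofReal_zero, zero_mul]
  rw [h1, add_zero]
  refine intervalIntegral.integral_congr fun t ht => ?_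
  rw [uIcc_of_le hδ.le] at ht
  simp only [tent_of_le hδ ht.2]
  push_cast
  rfl

noncomputable def UU (δ α β θ : ℝ) : ℝ :=
  if β - α < 3 * δ then tent (β - α) (θ - α) + tent (β - α) (β - θ)
  else 2 * tent (2 * δ) (θ - α) - tent δ (θ - α) + (2 * tent (2 * δ) (β - θ) - tent δ (β - θ))

theorem UU_abs {δ α β θ : ℝ} (hδ : 0 < δ) (h1 : α < θ) (h2 : θ < β) : |UU δ α β θ| ≤ 6 := by
  have a1 := tent_nonneg (β - α) (θ - α)
  have a2 := tent_nonneg (β - α) (β - θ)
  have a3 := tent_nonneg (2 * δ) (θ - α)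
  have a4 := tent_nonneg δ (θ - α)
  have a5 := tent_nonneg (2 * δ) (β - θ)
  have a6 := tent_nonneg δ (β - θ)
  have b1 := tent_le (δ := β - α) (t := θ - α) (by linarith) (by linarith)
  have b2 := tent_le (δ := β - α) (t := β - θ) (by linarith) (by linarith)
  have b3 := tent_le (δ := 2 * δ) (t := θ - α) (by linarith) (by linarith)
  have b4 := tent_le (δ := δ) (t := θ - α) (by linarith) (by linarith)
  have b5 := tent_le (δ := 2 * δ) (t := β - θ) (by linarith) (by linarith)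
  have b6 := tent_le (δ := δ) (t := β - θ) (by linarith) (by linarith)
  unfold UU
  split_ifs <;> rw [abs_le] <;> constructor <;> linarith

theorem UU_one {δ α β θ : ℝ} (hδ : 0 < δ) (h1 : α < θ) (h2 : θ < β)
    (h : θ - α < δ ∨ β - θ < δ) : UU δ α β θ = 1 := by
  unfold UU
  split_ifs with hc
  · rw [tent_of_le (by linarith) (by linarith), tent_of_le (by linarith) (by linarith)]
    have : β - α ≠ 0 := by linarith
    field_simp
    ring
  · rcases h with h | h
    · rw [tent_of_le (by linarith) (by linarith), tent_of_le hδ h.le,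
        tent_of_ge (by linarith) (by linarith), tent_of_ge hδ (by linarith)]
      field_simp
      ring
    · rw [tent_of_ge (by linarith) (by linarith), tent_of_ge hδ (by linarith),
        tent_of_le (by linarith) (by linarith), tent_of_le hδ h.le]
      field_simp
      ring

theorem UU_int {G : ℝ → ℂ} (hG : Continuous G) {δ α β K : ℝ} (hδ : 0 < δ) (hαβ : α < β)
    (hK : 0 ≤ K)
    (hL : ∀ d, 0 < d → d ≤ β - α → ‖∫ t in (0:ℝ)..d, (1 - (t:ℂ) / d) * G (α + t)‖ ≤ K * d)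
    (hR : ∀ d, 0 < d → d ≤ β - α → ‖∫ t in (0:ℝ)..d, (1 - (t:ℂ) / d) * G (β - t)‖ ≤ K * d) :
    ‖∫ θ in α..β, (UU δ α β θ : ℂ) * G θ‖ ≤ 10 * K * min (β - α) (3 * δ) := by
  have hL' : ∀ d, 0 < d → d ≤ β - α → ‖∫ θ in α..β, (tent d (θ - α) : ℂ) * G θ‖ ≤ K * d := by
    intro d h1 h2
    have e := intervalIntegral.integral_comp_add_left (a := 0) (b := β - α)
      (fun θ => (tent d (θ - α) : ℂ) * G θ) α
    simp only [add_zero, add_sub_cancel, add_sub_cancel_left] at e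
    rw [← e, tent_int (G := fun t => G (α + t)) (by fun_prop) h1 h2]
    exact hL d h1 h2
  have hR' : ∀ d, 0 < d → d ≤ β - α → ‖∫ θ in α..β, (tent d (β - θ) : ℂ) * G θ‖ ≤ K * d := by
    intro d h1 h2
    have e := intervalIntegral.integral_comp_sub_left (a := 0) (b := β - α)
      (fun θ => (tent d (β - θ) : ℂ) * G θ) β
    simp only [sub_zero, sub_sub_cancel] at e
    rw [← e, tent_int (G := fun t => G (β - t)) (by fun_prop) h1 h2]
    exact hR d h1 h2
  have iL : ∀ d, IntervalIntegrable (fun θ => (tent d (θ - α) : ℂ) * G θ) volume α β := fun d =>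
    ((continuous_ofReal.comp ((tent_cont d).comp (by fun_prop))).mul hG).intervalIntegrable _ _
  have iR : ∀ d, IntervalIntegrable (fun θ => (tent d (β - θ) : ℂ) * G θ) volume α β := fun d =>
    ((continuous_ofReal.comp ((tent_cont d).comp (by fun_prop))).mul hG).intervalIntegrable _ _
  unfold UU
  by_cases hc : β - α < 3 * δ
  · simp only [if_pos hc]
    push_cast
    simp only [add_mul]
    rw [intervalIntegral.integral_add (iL _) (iR _), min_eq_left hc.le]
    have h1 := hL' _ (by linarith) le_rfl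
    have h2 := hR' _ (by linarith) le_rfl
    have h3 : 0 ≤ K * (β - α) := mul_nonneg hK (by linarith)
    refine (norm_add_le _ _).trans ?_
    linarith
  · simp only [if_neg hc]
    push_cast
    simp only [add_mul, sub_mul, mul_assoc]
    rw [intervalIntegral.integral_add (((iL _).const_mul _).sub (iL _))
      (((iR _).const_mul _).sub (iR _)), intervalIntegral.integral_sub ((iL _).const_mul _) (iL _),
      intervalIntegral.integral_sub ((iR _).const_mul _) (iR _), min_eq_right (not_lt.1 hc),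
      intervalIntegral.integral_const_mul, intervalIntegral.integral_const_mul]
    have h1 := hL' (2 * δ) (by linarith) (by linarith)
    have h2 := hR' (2 * δ) (by linarith) (by linarith)
    have h3 := hL' δ hδ (by linarith)
    have h4 := hR' δ hδ (by linarith)
    have h5 : 0 ≤ K * δ := mul_nonneg hK hδ.le
    refine (norm_add_le _ _).trans ((add_le_add (norm_sub_le _ _) (norm_sub_le _ _)).trans ?_)
    rw [norm_mul, norm_mul, Complex.norm_ofNat]
    linarith

def Gap (S : Set ℝ) (a b : ℝ) : Set (ℝ × ℝ) :=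
  {p | p.1 ∈ S ∧ p.2 ∈ S ∧ a ≤ p.1 ∧ p.1 < p.2 ∧ p.2 ≤ b ∧ ∀ e ∈ S, e ≤ p.1 ∨ p.2 ≤ e}

theorem gap_disj (S : Set ℝ) (a b : ℝ) : (Gap S a b).PairwiseDisjoint fun p => Ioo p.1 p.2 := by
  intro p hp q hq hpq
  rw [Function.onFun, Set.disjoint_left]
  intro θ h1 h2
  refine hpq (Prod.ext (le_antisymm ?_ ?_) (le_antisymm ?_ ?_))
  · exact (hq.2.2.2.2.2 _ hp.1).resolve_right (by linarith [h1.1, h2.2])
  · exact (hp.2.2.2.2.2 _ hq.1).resolve_right (by linarith [h2.1, h1.2])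
  · exact (hp.2.2.2.2.2 _ hq.2.1).resolve_left (by linarith [h1.1, h2.2])
  · exact (hq.2.2.2.2.2 _ hp.2.1).resolve_left (by linarith [h2.1, h1.2])

theorem gap_count (S : Set ℝ) (a b : ℝ) : (Gap S a b).Countable :=
  (gap_disj S a b).countable_of_isOpen (fun _ _ => isOpen_Ioo)
    fun _ hp => nonempty_Ioo.2 hp.2.2.2.1

theorem gap_pair (S : Set ℝ) (a b : ℝ) :
    Pairwise (Function.onFun Disjoint fun p : Gap S a b => Ioo p.1.1 p.1.2) :=
  fun p q hpq => gap_disj S a b p.2 q.2 fun h => hpq (Subtype.ext h)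

theorem gap_sub (S : Set ℝ) (a b : ℝ) : (⋃ p : Gap S a b, Ioo p.1.1 p.1.2) ⊆ Ioc a b := by
  intro θ hθ
  obtain ⟨p, hp⟩ := mem_iUnion.1 hθ
  exact ⟨lt_of_le_of_lt p.2.2.2.1 hp.1, hp.2.le.trans p.2.2.2.2.2.1⟩

theorem gap_small (S : Set ℝ) (a b : ℝ) {ε : ℝ} (hε : 0 < ε) :
    (∀ δ, 0 < δ → Summable fun p : Gap S a b => min (p.1.2 - p.1.1) (3 * δ)) ∧
    ∃ δ, 0 < δ ∧ ∑' p : Gap S a b, min (p.1.2 - p.1.1) (3 * δ) ≤ ε := by
  have := (gap_count S a b).to_subtype
  have h1 := hasSum_integral_iUnion (μ := volume) (f := fun _ : ℝ => (1:ℝ))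
    (s := fun p : Gap S a b => Ioo p.1.1 p.1.2) (fun _ => measurableSet_Ioo) (gap_pair S a b)
    ((integrableOn_const measure_Ioc_lt_top.ne).mono_set (gap_sub S a b))
  have hl : ∀ p : Gap S a b, 0 < p.1.2 - p.1.1 := fun p => sub_pos.2 p.2.2.2.2.1
  have h2 : Summable fun p : Gap S a b => p.1.2 - p.1.1 := by
    refine h1.summable.congr fun p => ?_
    simp [(hl p).le]
  refine ⟨fun δ hδ => Summable.of_nonneg_of_le (fun p => le_min (hl p).le (by positivity))
    (fun p => min_le_left _ _) h2, ?_⟩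
  have h3 := tendsto_tsum_of_dominated_convergence (𝓕 := 𝓝[>] (0:ℝ))
    (f := fun (δ : ℝ) (p : Gap S a b) => min (p.1.2 - p.1.1) (3 * δ)) (g := fun _ => (0:ℝ)) h2
    (fun p => by
      have h4 : ContinuousAt (fun δ : ℝ => min (p.1.2 - p.1.1) (3 * δ)) 0 := by fun_prop
      have h5 := h4.tendsto.mono_left (nhdsWithin_le_nhds (s := Ioi 0))
      simpa [min_eq_right (hl p).le] using h5)
    (by
      filter_upwards [self_mem_nhdsWithin] with δ hδ p
      have : 0 < δ := hδ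
      rw [Real.norm_of_nonneg (le_min (hl p).le (by positivity))]
      exact min_le_left _ _)
  rw [tsum_zero] at h3
  obtain ⟨δ, h4, h5⟩ := ((h3.eventually (ge_mem_nhds hε)).and self_mem_nhdsWithin).exists
  exact ⟨δ, h5, h4⟩

theorem exists_weight (S : Set ℝ) (hS : IsClosed S) (hlo : ∀ θ, ∃ e ∈ S, e ≤ θ)
    (hhi : ∀ θ, ∃ e ∈ S, θ ≤ e) {a b : ℝ} (ha : a ∈ S) (hb : b ∈ S) {δ : ℝ} (hδ : 0 < δ) :
    ∃ v : ℝ → ℝ, Measurable v ∧ (∀ θ, |v θ| ≤ 6) ∧
      (∀ θ, θ ∉ S → v θ ≠ 1 → ∀ e ∈ S, δ ≤ |θ - e|) ∧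
      ∀ (G : ℝ → ℂ) (K : ℝ), Continuous G → 0 ≤ K →
        (∀ α ∈ S, ∀ d, 0 < d → d ≤ b - a →
          ‖∫ t in (0:ℝ)..d, (1 - (t:ℂ) / d) * G (α + t)‖ ≤ K * d) →
        (∀ β ∈ S, ∀ d, 0 < d → d ≤ b - a →
          ‖∫ t in (0:ℝ)..d, (1 - (t:ℂ) / d) * G (β - t)‖ ≤ K * d) →
        ‖∫ θ in Ioc a b, (v θ : ℂ) * G θ‖
          ≤ 10 * K * ∑' p : Gap S a b, min (p.1.2 - p.1.1) (3 * δ) := by
  classical
  have := (gap_count S a b).to_subtype
  obtain ⟨α, hα⟩ : ∃ α : ℝ → ℝ, ∀ θ, IsGreatest (S ∩ Iic θ) (α θ) :=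
    ⟨fun θ => sSup (S ∩ Iic θ), fun θ => (hS.inter isClosed_Iic).isGreatest_csSup
      (by obtain ⟨e, h1, h2⟩ := hlo θ; exact ⟨e, h1, h2⟩) (bddAbove_Iic.inter_of_right)⟩
  obtain ⟨β, hβ⟩ : ∃ β : ℝ → ℝ, ∀ θ, IsLeast (S ∩ Ici θ) (β θ) :=
    ⟨fun θ => sInf (S ∩ Ici θ), fun θ => (hS.inter isClosed_Ici).isLeast_csInf
      (by obtain ⟨e, h1, h2⟩ := hhi θ; exact ⟨e, h1, h2⟩) (bddBelow_Ici.inter_of_right)⟩
  have hαm : Measurable α := Monotone.measurable fun x y hxy =>
    (hα y).2 ⟨(hα x).1.1, le_trans (hα x).1.2 hxy⟩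
  have hβm : Measurable β := Monotone.measurable fun x y hxy =>
    (hβ x).2 ⟨(hβ y).1.1, le_trans hxy (hβ y).1.2⟩
  have hα' : ∀ θ, θ ∉ S → α θ < θ := fun θ h =>
    lt_of_le_of_ne (hα θ).1.2 fun e => h (e ▸ (hα θ).1.1)
  have hβ' : ∀ θ, θ ∉ S → θ < β θ := fun θ h =>
    lt_of_le_of_ne (hβ θ).1.2 fun e => h (e ▸ (hβ θ).1.1)
  have hvm : Measurable fun θ => if θ ∈ S then 0 else UU δ (α θ) (β θ) θ := by
    refine Measurable.ite hS.measurableSet measurable_const ?_
    unfold UU tent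
    refine Measurable.ite (measurableSet_lt (by fun_prop) measurable_const) ?_ ?_ <;> fun_prop
  have hvb : ∀ θ, |if θ ∈ S then 0 else UU δ (α θ) (β θ) θ| ≤ 6 := by
    intro θ
    split_ifs with h
    · simp
    · exact UU_abs hδ (hα' θ h) (hβ' θ h)
  refine ⟨fun θ => if θ ∈ S then 0 else UU δ (α θ) (β θ) θ, hvm, hvb, ?_, ?_⟩
  · intro θ h1 h2 e he
    simp only [if_neg h1] at h2
    have h3 : ¬ (θ - α θ < δ ∨ β θ - θ < δ) := fun h => h2 (UU_one hδ (hα' θ h1) (hβ' θ h1) h)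
    push Not at h3
    rcases le_total e θ with h4 | h4
    · have := (hα θ).2 ⟨he, h4⟩
      rw [abs_of_nonneg (by linarith)]
      linarith [h3.1]
    · have := (hβ θ).2 ⟨he, h4⟩
      rw [abs_of_nonpos (by linarith)]
      linarith [h3.2]
  · intro G K hG hK hL hR
    have hi : IntegrableOn (fun θ => ((if θ ∈ S then 0 else UU δ (α θ) (β θ) θ : ℝ) : ℂ) * G θ)
        (Ioc a b) := by
      refine Integrable.bdd_mul (c := 6) (hG.integrableOn_Icc.mono_set Ioc_subset_Icc_self)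
        (measurable_ofReal.comp hvm).aestronglyMeasurable (Eventually.of_forall fun θ => ?_)
      rw [norm_real, Real.norm_eq_abs]
      exact hvb θ
    rw [setIntegral_eq_of_subset_of_forall_sdiff_eq_zero measurableSet_Ioc (gap_sub S a b)]
    · have h1 := hasSum_integral_iUnion (fun _ => measurableSet_Ioo) (gap_pair S a b)
        (hi.mono_set (gap_sub S a b))
      rw [← tsum_mul_left]
      refine h1.norm_le_of_bounded (((gap_small S a b one_pos).1 δ hδ).mul_left _).hasSum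
        fun p => ?_
      obtain ⟨⟨x, y⟩, h2, h3, h4, h5, h6, h7⟩ := p
      have h8 : ∫ θ in Ioo x y, ((if θ ∈ S then 0 else UU δ (α θ) (β θ) θ : ℝ) : ℂ) * G θ
          = ∫ θ in x..y, (UU δ x y θ : ℂ) * G θ := by
        rw [intervalIntegral.integral_of_le (le_of_lt h5), integral_Ioc_eq_integral_Ioo]
        refine setIntegral_congr_fun measurableSet_Ioo fun θ hθ => ?_
        have h9 : θ ∉ S := fun h => by
          rcases h7 θ h with h' | h'
          · exact absurd hθ.1 (not_lt.2 h')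
          · exact absurd hθ.2 (not_lt.2 h')
        have h10 : α θ = x := (hα θ).unique ⟨⟨h2, hθ.1.le⟩, fun e he =>
          (h7 e he.1).resolve_right (not_le.2 (lt_of_le_of_lt he.2 hθ.2))⟩
        have h11 : β θ = y := (hβ θ).unique ⟨⟨h3, hθ.2.le⟩, fun e he =>
          (h7 e he.1).resolve_left (not_le.2 (lt_of_lt_of_le hθ.1 he.2))⟩
        simp only [if_neg h9, h10, h11]
      simp only at h4 h5 h6 ⊢
      rw [h8]
      exact UU_int hG hδ h5 hK (fun d h9 h10 => hL x h2 d h9 (by linarith))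
        (fun d h9 h10 => hR y h3 d h9 (by linarith))
    · intro θ hθ
      have h1 : θ ∈ S := by
        by_contra h
        refine hθ.2 (mem_iUnion.2 ⟨⟨(α θ, β θ), (hα θ).1.1, (hβ θ).1.1, (hα θ).2 ⟨ha, hθ.1.1.le⟩,
          (hα' θ h).trans (hβ' θ h), (hβ θ).2 ⟨hb, hθ.1.2⟩, fun e he => ?_⟩, hα' θ h, hβ' θ h⟩)
        rcases le_total e θ with h4 | h4
        · exact Or.inl ((hα θ).2 ⟨he, h4⟩)
        · exact Or.inr ((hβ θ).2 ⟨he, h4⟩)
      simp [h1]

end Pool.Agent.H88.Fatou
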