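import Pool.Agent.H88.Fatou2

set_option autoImplicit false
open MeasureTheory Filter Topology Metric Set Complex

namespace Pool.Agent.H88.Fatou

noncomputable def FF (a : ℕ → ℂ) (r θ : ℝ) : ℂ := ∑' k, a k * ((r:ℂ) * exp (θ * I)) ^ k

theorem norm_term (a : ℕ → ℂ) {r : ℝ} (h0 : 0 ≤ r) (θ : ℝ) (k : ℕ) :
    ‖a k * ((r:ℂ) * exp (θ * I)) ^ k‖ = ‖a k‖ * r ^ k := by
  rw [norm_mul, norm_pow, norm_mul, norm_exp_ofReal_mul_I, mul_one, norm_real,
    Real.norm_of_nonneg h0]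

theorem sum_r {a : ℕ → ℂ} {C : ℝ} (hC : ∀ k, ‖a k‖ ≤ C) {r : ℝ} (h0 : 0 ≤ r) (h1 : r < 1) :
    Summable fun k => ‖a k‖ * r ^ k :=
  Summable.of_nonneg_of_le (fun k => by positivity)
    (fun k => mul_le_mul_of_nonneg_right (hC k) (by positivity))
    ((summable_geometric_of_lt_one h0 h1).mul_left C)

theorem FF_cont {a : ℕ → ℂ} {C : ℝ} (hC : ∀ k, ‖a k‖ ≤ C) {r : ℝ} (h0 : 0 ≤ r) (h1 : r < 1) :
    Continuous (FF a r) :=
  continuous_tsum (fun k => by fun_prop) (sum_r hC h0 h1) fun k θ => (norm_term a h0 θ k).le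

theorem FF_coef {a : ℕ → ℂ} {C : ℝ} (hC : ∀ k, ‖a k‖ ≤ C) {r : ℝ} (h0 : 0 ≤ r) (h1 : r < 1)
    (c : ℝ) (n : ℕ) : ∫ θ in c..c + 2 * Real.pi, exp (-(n * θ) * I) * FF a r θ
      = 2 * Real.pi * (a n * r ^ n) := by
  have hn : ∀ θ : ℝ, ‖exp (-(n * θ) * I)‖ = 1 := fun θ => by
    rw [← norm_exp_ofReal_mul_I (-(n * θ))]
    push_cast
    rfl
  have h2 := intervalIntegral.hasSum_integral_of_dominated_convergence (μ := volume)
    (a := c) (b := c + 2 * Real.pi)
    (F := fun (k : ℕ) (θ : ℝ) => exp (-(n * θ) * I) * (a k * ((r:ℂ) * exp (θ * I)) ^ k))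
    (f := fun θ : ℝ => exp (-(n * θ) * I) * FF a r θ)
    (fun k _ => ‖a k‖ * r ^ k) (fun k => Continuous.aestronglyMeasurable (by fun_prop))
    (fun k => Eventually.of_forall fun t _ => by
      rw [norm_mul, hn, one_mul, norm_term a h0])
    (Eventually.of_forall fun _ _ => sum_r hC h0 h1) intervalIntegrable_const
    (Eventually.of_forall fun t _ => HasSum.mul_left _ (Summable.hasSum (Summable.of_norm (by
      simpa only [norm_term a h0] using sum_r hC h0 h1))))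
  have h3 : ∀ k : ℕ, ∫ θ in c..c + 2 * Real.pi,
      exp (-(n * θ) * I) * (a k * ((r:ℂ) * exp (θ * I)) ^ k)
      = if k = n then 2 * Real.pi * (a n * r ^ n) else 0 := by
    intro k
    have e : ∀ θ : ℝ, exp (-(n * θ) * I) * (a k * ((r:ℂ) * exp (θ * I)) ^ k)
        = a k * r ^ k * exp ((((k:ℂ) - n) * I) * θ) := by
      intro θ
      rw [mul_pow, ← exp_nat_mul, show (((k:ℂ) - n) * I) * θ = -(n * θ) * I + k * (θ * I) by ring,
        exp_add]
      ring
    simp_rw [e]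
    rw [intervalIntegral.integral_const_mul]
    split_ifs with hk
    · subst hk
      simp
      ring
    · have h4 : ((k:ℂ) - n) * I ≠ 0 :=
        mul_ne_zero (sub_ne_zero.2 (by exact_mod_cast hk)) I_ne_zero
      rw [integral_exp_mul_complex h4]
      have h5 : exp ((((k:ℂ) - n) * I) * ((c + 2 * Real.pi : ℝ) : ℂ))
          = exp ((((k:ℂ) - n) * I) * c) := by
        have h6 := exp_int_mul_two_pi_mul_I ((k:ℤ) - n)
        rw [show (((k:ℂ) - n) * I) * ((c + 2 * Real.pi : ℝ) : ℂ)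
          = (((k:ℂ) - n) * I) * c + (((k:ℤ) - n : ℤ) : ℂ) * (2 * Real.pi * I) by push_cast; ring,
          exp_add, h6, mul_one]
      rw [h5, sub_self, zero_div, mul_zero]
  simp_rw [h3] at h2
  exact h2.unique (hasSum_ite_eq n _)

theorem bessel {H : ℝ → ℂ} (hH : Measurable H) (c B : ℝ)
    (hB : ∀ θ ∈ Ioc c (c + 2 * Real.pi), ‖H θ‖ ≤ B) (T : Finset ℕ) :
    ∑ n ∈ T, ‖∫ θ in c..c + 2 * Real.pi, exp (-(n * θ) * I) * H θ‖ ^ 2
      ≤ (2 * Real.pi * B) ^ 2 := by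
  have hpi := Real.pi_pos
  have hab : c < c + 2 * Real.pi := by linarith
  have hL2 : MemLp H 2 (volume.restrict (Ioc c (c + 2 * Real.pi))) :=
    MemLp.of_bound hH.aestronglyMeasurable B
      ((ae_restrict_iff' measurableSet_Ioc).2 (Eventually.of_forall hB))
  have h1 := hasSum_sq_fourierCoeffOn hab hL2
  have h2 : ∀ n : ℕ, ‖fourierCoeffOn hab H n‖ ^ 2 * (2 * Real.pi) ^ 2
      = ‖∫ θ in c..c + 2 * Real.pi, exp (-(n * θ) * I) * H θ‖ ^ 2 := by
    intro n
    have e : ∀ x : ℝ, fourier (-(n:ℤ)) (x : AddCircle (c + 2 * Real.pi - c)) • H x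
        = exp (-(n * x) * I) * H x := by
      intro x
      rw [fourier_coe_apply, smul_eq_mul]
      congr 2
      have : (Real.pi : ℂ) ≠ 0 := by exact_mod_cast hpi.ne'
      push_cast
      rw [add_sub_cancel_left]
      field_simp
    rw [fourierCoeffOn_eq_integral]
    simp_rw [e]
    rw [norm_smul, add_sub_cancel_left, Real.norm_of_nonneg (by positivity)]
    generalize ‖∫ θ in c..c + 2 * Real.pi, exp (-(n * θ) * I) * H θ‖ = y
    field_simp
  have h3 : ∑ n ∈ T, ‖fourierCoeffOn hab H n‖ ^ 2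
      ≤ (c + 2 * Real.pi - c)⁻¹ • ∫ x in c..c + 2 * Real.pi, ‖H x‖ ^ 2 := by
    have h4 := sum_le_hasSum (T.map ⟨fun n : ℕ => (n:ℤ), Nat.cast_injective⟩)
      (fun _ _ => sq_nonneg _) h1
    rwa [Finset.sum_map] at h4
  have h5 : ‖∫ x in c..c + 2 * Real.pi, ‖H x‖ ^ 2‖ ≤ B ^ 2 * |c + 2 * Real.pi - c| :=
    intervalIntegral.norm_integral_le_of_norm_le_const fun x hx => by
      rw [uIoc_of_le hab.le] at hx
      rw [norm_pow, norm_norm]
      exact pow_le_pow_left₀ (norm_nonneg _) (hB x hx) 2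
  rw [add_sub_cancel_left, abs_of_pos (by positivity)] at h5
  rw [add_sub_cancel_left, smul_eq_mul] at h3
  have h6 : (2 * Real.pi)⁻¹ * ∫ x in c..c + 2 * Real.pi, ‖H x‖ ^ 2 ≤ B ^ 2 := by
    rw [inv_mul_le_iff₀ (by positivity)]
    have := le_abs_self (∫ x in c..c + 2 * Real.pi, ‖H x‖ ^ 2)
    rw [Real.norm_eq_abs] at h5
    linarith
  simp_rw [← h2]
  rw [← Finset.sum_mul, mul_pow _ B, mul_comm _ (B ^ 2)]
  exact mul_le_mul_of_nonneg_right (h3.trans h6) (sq_nonneg _)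

theorem FF_tent {a : ℕ → ℂ} {C M : ℝ} (hC : ∀ k, ‖a k‖ ≤ C) {r : ℝ} (h0 : 0 ≤ r) (h1 : r < 1)
    {α : ℝ} (hM : ∀ N, ‖∑ k ∈ Finset.range N, a k * exp (α * I) ^ k‖ ≤ M) (n : ℕ) {s : ℝ}
    (hs : s = 1 ∨ s = -1) {d : ℝ} (hd : 0 < d) (hd7 : d ≤ 7) :
    ‖∫ t in (0:ℝ)..d, (1 - (t:ℂ) / d) *
      (exp (-(n * ((α + s * t : ℝ) : ℂ)) * I) * FF a r (α + s * t))‖ ≤ 163 * M * d := by
  have h2 := tent_bound (fun k => (r:ℂ) ^ k * (a k * exp (α * I) ^ k)) M (abel_r _ M hM h0 h1.le)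
    ((sum_r hC h0 h1).congr fun k => by
      rw [norm_mul, norm_mul, norm_pow, norm_pow, norm_exp_ofReal_mul_I, norm_real,
        Real.norm_of_nonneg h0]
      ring) hd hd7 hs n
  have e : ∀ t : ℝ, (1 - (t:ℂ) / d) *
      (exp (-(n * ((α + s * t : ℝ) : ℂ)) * I) * FF a r (α + s * t))
      = exp ((-(n * α) : ℝ) * I) * ((1 - (t:ℂ) / d) * ∑' k, (r:ℂ) ^ k * (a k * exp (α * I) ^ k)
        * exp (I * (s * ((k:ℝ) - n) * t : ℝ))) := by
    intro t
    rw [mul_left_comm (exp ((-(n * α) : ℝ) * I)), FF]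
    congr 1
    rw [← tsum_mul_left, ← tsum_mul_left]
    congr 1
    funext k
    rw [mul_pow, ← exp_nat_mul, ← exp_nat_mul]
    have h3 : exp (-(n * ((α + s * t : ℝ) : ℂ)) * I) * exp (k * (((α + s * t : ℝ) : ℂ) * I))
        = exp ((-(n * α) : ℝ) * I) * exp (k * (α * I)) * exp (I * (s * ((k:ℝ) - n) * t : ℝ)) := by
      rw [← exp_add, ← exp_add, ← exp_add]
      congr 1
      push_cast
      ring
    linear_combination (a k * (r:ℂ) ^ k) * h3
  simp_rw [e]
  rw [intervalIntegral.integral_const_mul, norm_mul, norm_exp_ofReal_mul_I, one_mul]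
  exact h2

theorem coef_tendsto (a : ℕ → ℂ) (S : Set ℝ) (hS : IsClosed S) (c : ℝ)
    (hper : ∀ k : ℤ, c + k * (2 * Real.pi) ∈ S) (M : ℝ)
    (hM : ∀ α ∈ S, ∀ N, ‖∑ k ∈ Finset.range N, a k * exp (α * I) ^ k‖ ≤ M)
    (hreg : ∀ θ, θ ∉ S → ∃ ρ B : ℝ, 0 < ρ ∧ ∀ w ∈ ball (exp (θ * I)) ρ, ‖w‖ < 1 →
      ‖∑' k, a k * w ^ k‖ ≤ B) : Tendsto a atTop (𝓝 0) := by
  have hpi := Real.pi_gt_three
  have hpi' := Real.pi_lt_d2
  have hc : c ∈ S := by simpa using hper 0
  have hc' : c + 2 * Real.pi ∈ S := by simpa using hper 1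
  have hM0 : 0 ≤ M := (norm_nonneg _).trans (hM c hc 0)
  have hC : ∀ k, ‖a k‖ ≤ 2 * M := by
    intro k
    have h1 := norm_sub_le (∑ j ∈ Finset.range (k + 1), a j * exp (c * I) ^ j)
      (∑ j ∈ Finset.range k, a j * exp (c * I) ^ j)
    rw [Finset.sum_range_succ_sub_sum, norm_mul, norm_pow, norm_exp_ofReal_mul_I, one_pow,
      mul_one] at h1
    linarith [hM c hc (k + 1), hM c hc k]
  have hlo : ∀ θ, ∃ e ∈ S, e ≤ θ := fun θ => ⟨_, hper ⌊(θ - c) / (2 * Real.pi)⌋, by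
    have := (le_div_iff₀ (by positivity)).1 (Int.floor_le ((θ - c) / (2 * Real.pi)))
    linarith⟩
  have hhi : ∀ θ, ∃ e ∈ S, θ ≤ e := fun θ => ⟨_, hper ⌈(θ - c) / (2 * Real.pi)⌉, by
    have := (div_le_iff₀ (by positivity)).1 (Int.le_ceil ((θ - c) / (2 * Real.pi)))
    linarith⟩
  rw [Metric.tendsto_atTop]
  by_contra hcon
  push Not at hcon
  obtain ⟨η, hη, hfreq⟩ := hcon
  have hinf : {n | η ≤ ‖a n‖}.Infinite := by
    refine Set.infinite_of_forall_exists_gt fun N => ?_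
    obtain ⟨n, h1, h2⟩ := hfreq (N + 1)
    exact ⟨n, by simpa using h2, by omega⟩
  obtain ⟨-, δ, hδ, hsmall⟩ := gap_small S c (c + 2 * Real.pi)
    (show 0 < η / (1630 * M + 1) by positivity)
  obtain ⟨v, hvm, hvb, hv1, hv⟩ := exists_weight S hS hlo hhi hc hc' hδ
  have hK : IsCompact (Icc c (c + 2 * Real.pi) ∩ ⋂ e ∈ S, {θ | δ ≤ |θ - e|}) :=
    isCompact_Icc.inter_right (isClosed_biInter fun e _ => isClosed_le continuous_const (by fun_prop))
  obtain ⟨B, hB⟩ : ∃ B : ℝ, ∀ᶠ r in 𝓝[<] (1:ℝ),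
      ∀ θ ∈ Icc c (c + 2 * Real.pi) ∩ ⋂ e ∈ S, {θ | δ ≤ |θ - e|}, ‖FF a r θ‖ ≤ B := by
    refine hK.induction_on (p := fun K => ∃ B : ℝ, ∀ᶠ r in 𝓝[<] (1:ℝ), ∀ θ ∈ K, ‖FF a r θ‖ ≤ B)
      ⟨0, Eventually.of_forall fun _ _ h => h.elim⟩
      (fun s t hst ⟨B, hB⟩ => ⟨B, hB.mono fun r hr θ hθ => hr θ (hst hθ)⟩)
      (fun s t ⟨B, hB⟩ ⟨B', hB'⟩ => ⟨max B B', (hB.and hB').mono fun r hr θ hθ =>
        hθ.elim (fun h => (hr.1 θ h).trans (le_max_left _ _))
          fun h => (hr.2 θ h).trans (le_max_right _ _)⟩) ?_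
    intro θ hθ
    have h1 : θ ∉ S := fun h => by
      have := mem_iInter₂.1 hθ.2 θ h
      simp only [mem_ofPred_eq, sub_self, abs_zero] at this
      linarith
    obtain ⟨ρ, B, hρ, hB⟩ := hreg θ h1
    have h2 : ContinuousAt (fun p : ℝ × ℝ => (p.1 : ℂ) * exp (p.2 * I)) (1, θ) := by fun_prop
    have h3 := h2.eventually (isOpen_ball.mem_nhds
      (show ((1:ℝ):ℂ) * exp (θ * I) ∈ ball (exp (θ * I)) ρ by simpa using hρ))
    rw [nhds_prod_eq] at h3
    obtain ⟨p, hp, q, hq, hpq⟩ := eventually_prod_iff.1 h3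
    refine ⟨{x | q x}, nhdsWithin_le_nhds hq, B, ?_⟩
    filter_upwards [nhdsWithin_le_nhds hp, Ioo_mem_nhdsLT (show (0:ℝ) < 1 by norm_num)]
      with r hr hr' x hx
    refine hB _ (hpq hr hx) ?_
    rw [norm_mul, norm_exp_ofReal_mul_I, mul_one, norm_real, Real.norm_of_nonneg hr'.1.le]
    exact hr'.2
  obtain ⟨m, hm⟩ := exists_nat_gt ((2 * Real.pi * (7 * (M + |B|))) ^ 2 / (2 * η) ^ 2)
  obtain ⟨T, hT, hTc⟩ := hinf.exists_subset_card_eq m
  have hr1 : ∀ᶠ r in 𝓝[<] (1:ℝ), ∀ n ∈ T, 1 / 2 ≤ r ^ n := by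
    rw [eventually_all_finset]
    intro n _
    have h1 : Tendsto (fun s : ℝ => s ^ n) (𝓝[<] 1) (𝓝 1) := by
      have := ((continuous_pow n).tendsto (1:ℝ)).mono_left (nhdsWithin_le_nhds (s := Iio 1))
      simpa using this
    exact h1.eventually (le_mem_nhds (by norm_num))
  obtain ⟨r, ⟨hr2, hr3⟩, hr0, hr4⟩ :=
    ((hB.and hr1).and (Ioo_mem_nhdsLT (show (0:ℝ) < 1 by norm_num))).exists
  have hFc := FF_cont hC hr0.le hr4
  have hbes := bessel (H := fun θ => (1 - v θ : ℝ) * FF a r θ)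
    ((measurable_ofReal.comp (measurable_const.sub hvm)).mul hFc.measurable) c (7 * (M + |B|))
    (fun θ hθ => by
      have h1 : |1 - v θ| ≤ 7 := by
        have := abs_le.1 (hvb θ)
        rw [abs_le]
        constructor <;> linarith [this.1, this.2]
      have hB0 := abs_nonneg B
      rw [norm_mul, norm_real, Real.norm_eq_abs]
      by_cases h2 : v θ = 1
      · rw [h2, sub_self, abs_zero, zero_mul]
        positivity
      refine mul_le_mul h1 ?_ (norm_nonneg _) (by norm_num)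
      by_cases h3 : θ ∈ S
      · have h4 : HasSum (fun k => a k * ((r:ℂ) * exp (θ * I)) ^ k) (FF a r θ) :=
          Summable.hasSum (Summable.of_norm (by
            simpa only [norm_term a hr0.le] using sum_r hC hr0.le hr4))
        refine le_trans (le_of_tendsto' h4.tendsto_sum_nat.norm fun N => ?_)
          (le_add_of_nonneg_right hB0)
        refine le_trans (le_of_eq ?_) (abel_r _ M (hM θ h3) hr0.le hr4.le N)
        congr 1
        refine Finset.sum_congr rfl fun k _ => ?_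
        ring
      · have h4 := hr2 θ ⟨Ioc_subset_Icc_self hθ, mem_iInter₂.2 fun e he => hv1 θ h3 h2 e he⟩
        linarith [le_abs_self B]) T
  have hlow : ∀ n ∈ T, (2 * η) ^ 2 ≤
      ‖∫ θ in c..c + 2 * Real.pi, exp (-(n * θ) * I) * ((1 - v θ : ℝ) * FF a r θ)‖ ^ 2 := by
    intro n hn
    refine pow_le_pow_left₀ (by positivity) ?_ 2
    have hG : Continuous fun θ : ℝ => exp (-(n * θ) * I) * FF a r θ := by fun_prop
    have h1 := hv _ (163 * M) hG (by positivity)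
      (fun α hα d h1 h2 => by
        have := FF_tent hC hr0.le hr4 (hM α hα) n (Or.inl rfl) h1 (by linarith)
        simpa only [one_mul] using this)
      (fun α hα d h1 h2 => by
        have := FF_tent hC hr0.le hr4 (hM α hα) n (Or.inr rfl) h1 (by linarith)
        simpa only [neg_one_mul, ← sub_eq_add_neg] using this)
    rw [← intervalIntegral.integral_of_le (by linarith)] at h1
    have h2 : 10 * (163 * M) * ∑' p : Gap S c (c + 2 * Real.pi), min (p.1.2 - p.1.1) (3 * δ)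
        ≤ η := by
      refine (mul_le_mul_of_nonneg_left hsmall (by positivity)).trans ?_
      rw [← mul_div_assoc, div_le_iff₀ (by positivity)]
      nlinarith
    have hi : IntervalIntegrable (fun θ : ℝ => (v θ : ℂ) * (exp (-(n * θ) * I) * FF a r θ))
        volume c (c + 2 * Real.pi) := by
      rw [intervalIntegrable_iff_integrableOn_Ioc_of_le (by linarith)]
      refine Integrable.bdd_mul (c := 6) (hG.integrableOn_Icc.mono_set Ioc_subset_Icc_self)
        (measurable_ofReal.comp hvm).aestronglyMeasurable (Eventually.of_forall fun θ => ?_)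
      rw [norm_real, Real.norm_eq_abs]
      exact hvb θ
    have h3 : ∫ θ in c..c + 2 * Real.pi, exp (-(n * θ) * I) * ((1 - v θ : ℝ) * FF a r θ)
        = 2 * Real.pi * (a n * r ^ n)
          - ∫ θ in c..c + 2 * Real.pi, (v θ : ℂ) * (exp (-(n * θ) * I) * FF a r θ) := by
      rw [← FF_coef hC hr0.le hr4 c n,
        ← intervalIntegral.integral_sub (hG.intervalIntegrable _ _) hi]
      congr 1
      funext θ
      push_cast
      ring
    have h4 : ‖(2 * Real.pi : ℂ) * (a n * r ^ n)‖ = 2 * Real.pi * (‖a n‖ * r ^ n) := by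
      rw [norm_mul, norm_mul, norm_mul, norm_pow, norm_real, norm_real,
        Real.norm_of_nonneg hr0.le, Real.norm_of_nonneg (by linarith), Complex.norm_ofNat]
    have h5 : η ≤ ‖a n‖ := hT hn
    have h6 : η * (1 / 2) ≤ ‖a n‖ * r ^ n := mul_le_mul h5 (hr3 n hn) (by norm_num) (norm_nonneg _)
    rw [h3]
    refine le_trans ?_ (norm_sub_norm_le _ _)
    rw [h4]
    nlinarith
  have hfin := (Finset.card_nsmul_le_sum T _ _ hlow).trans hbes
  rw [hTc, nsmul_eq_mul] at hfin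
  rw [div_lt_iff₀ (by positivity)] at hm
  linarith

end Pool.Agent.H88.Fatou
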