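import Pool.Agent.H88.Fatou3

set_option autoImplicit false
open MeasureTheory Filter Topology Metric Set Complex

namespace Pool.Agent.H88.Fatou

theorem newman {s : ℂ} {R : ℝ} (hR : 0 < R) (hs : ‖s‖ = R) :
    ‖1 + s ^ 2 / R ^ 2‖ = 2 * |s.re| / R := by
  have h1 : s * starRingEnd ℂ s = (R:ℂ) ^ 2 := by rw [mul_conj', hs]
  have hR' : (R:ℂ) ≠ 0 := by exact_mod_cast hR.ne'
  have h2 : 1 + s ^ 2 / R ^ 2 = s * ((2 * s.re : ℝ) : ℂ) / R ^ 2 := by
    rw [← add_conj s]
    field_simp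
    linear_combination -h1
  rw [h2, norm_div, norm_mul, hs, norm_real, norm_pow, norm_real, Real.norm_of_nonneg hR.le,
    Real.norm_eq_abs, abs_mul, abs_two]
  field_simp

theorem lemA {y : ℝ} (h0 : 0 < y) (h1 : y ≤ 1) : y * (1 - Real.exp (-y))⁻¹ ≤ 2 := by
  have h2 : Real.exp (-y) < 1 := Real.exp_lt_one_iff.2 (by linarith)
  have h3 : Real.exp (-y) * (y + 1) ≤ 1 := by
    rw [Real.exp_neg, inv_mul_le_iff₀ (Real.exp_pos _), mul_one]
    exact Real.add_one_le_exp y
  rw [← div_eq_mul_inv, div_le_iff₀ (by linarith)]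
  nlinarith

theorem lemB {y : ℝ} {j : ℕ} (hj : 0 < j) : y * Real.exp (-y) ^ j ≤ 1 / j := by
  have h1 : (0:ℝ) < j := by exact_mod_cast hj
  rw [le_div_iff₀ h1, ← Real.exp_nat_mul, mul_neg, Real.exp_neg, mul_right_comm,
    mul_inv_le_iff₀ (Real.exp_pos _), one_mul]
  have := Real.add_one_le_exp (j * y)
  linarith

theorem riesz (a : ℕ → ℂ) (ha : Tendsto a atTop (𝓝 0)) {z : ℂ} (hz : ‖z‖ = 1) {ρ : ℝ} (hρ : 0 < ρ)
    {g : ℂ → ℂ} (hg : DifferentiableOn ℂ g (ball z ρ))
    (hgf : ∀ w ∈ ball z ρ, ‖w‖ < 1 → g w = ∑' n, a n * w ^ n) :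
    Tendsto (fun N => ∑ n ∈ Finset.range N, a n * z ^ n) atTop (𝓝 (g z)) := by
  obtain ⟨R, hR0, hR1, hR2⟩ : ∃ R : ℝ, 0 < R ∧ R ≤ 1 ∧ R ≤ ρ / 4 :=
    ⟨min 1 (ρ / 4), by positivity, min_le_left _ _, min_le_right _ _⟩
  have hw : ∀ s ∈ closedBall (0:ℂ) R, z * exp (-s) ∈ closedBall z (ρ / 2) := by
    intro s hs
    have h1 := mem_closedBall_zero_iff.1 hs
    rw [mem_closedBall, dist_eq_norm, ← mul_sub_one, norm_mul, hz, one_mul]
    have h2 := norm_exp_sub_one_le (x := -s) (by rw [norm_neg]; linarith)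
    rw [norm_neg] at h2
    linarith
  have hsub : closedBall z (ρ / 2) ⊆ ball z ρ := closedBall_subset_ball (by linarith)
  obtain ⟨Bg, hBg⟩ := (isCompact_closedBall z (ρ / 2)).exists_bound_of_continuousOn
    (hg.continuousOn.mono hsub)
  have hBg0 : 0 ≤ Bg := (norm_nonneg _).trans (hBg z (mem_closedBall_self (by linarith)))
  obtain ⟨C, hC⟩ : ∃ C, ∀ k, ‖a k‖ ≤ C := by
    obtain ⟨C, hC⟩ := ha.norm.bddAbove_range
    exact ⟨C, fun k => hC ⟨k, rfl⟩⟩
  have hC0 : 0 ≤ C := (norm_nonneg _).trans (hC 0)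
  have key : ∀ ε : ℝ, 0 < ε → ∀ m N : ℕ, m < N → (∀ k, m ≤ k → ‖a k‖ ≤ ε) →
      ‖g z - ∑ n ∈ Finset.range N, a n * z ^ n‖
        ≤ 2 / R * (2 * ε + (Bg + m * C) / ((N - m : ℕ) : ℝ)) := by
    intro ε hε m N hmN hm
    have hd : DifferentiableOn ℂ (fun s => (g (z * exp (-s))
        - ∑ n ∈ Finset.range N, a n * (z * exp (-s)) ^ n) * exp (N * s) * (1 + s ^ 2 / R ^ 2))
        (closedBall 0 R) := by
      refine DifferentiableOn.mul (DifferentiableOn.mul (DifferentiableOn.sub ?_ (by fun_prop))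
        (by fun_prop)) (by fun_prop)
      exact hg.comp (by fun_prop) fun s hs => hsub (hw s hs)
    have h1 := norm_le_of_forall_mem_frontier_norm_le isBounded_ball
      (hd.diffContOnCl_ball subset_rfl)
      (C := 2 / R * (2 * ε + (Bg + m * C) / ((N - m : ℕ) : ℝ))) (z := 0) ?_
      (subset_closure (mem_ball_self hR0))
    · simpa using h1
    intro s hs
    rw [frontier_ball _ hR0.ne', mem_sphere_zero_iff_norm] at hs
    have hsm : s ∈ closedBall (0:ℂ) R := mem_closedBall_zero_iff.2 hs.le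
    have hx1 : |s.re| ≤ 1 := (abs_re_le_norm s).trans (by linarith)
    have hnw : ‖z * exp (-s)‖ = Real.exp (-s.re) := by
      rw [norm_mul, hz, one_mul, norm_exp, neg_re]
    have hne : ‖exp (N * s)‖ = Real.exp s.re ^ N := by
      rw [exp_nat_mul, norm_pow, norm_exp]
    have hpos : 0 ≤ (Bg + m * C) / ((N - m : ℕ) : ℝ) := by positivity
    rw [norm_mul, newman hR0 hs, show 2 * |s.re| / R = 2 / R * |s.re| by ring, mul_left_comm]
    refine mul_le_mul_of_nonneg_left ?_ (by positivity)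
    rcases lt_trichotomy s.re 0 with hx | hx | hx
    · obtain ⟨y, hy⟩ : ∃ y, y = -s.re := ⟨_, rfl⟩
      have hy0 : 0 < y := by linarith
      have hy' : s.re = -y := by linarith
      rw [hy', abs_neg, abs_of_pos hy0] at hx1
      rw [hy'] at hne hnw
      have hq0 := Real.exp_pos (-y)
      have hq1 : Real.exp (-y) < 1 := Real.exp_lt_one_iff.2 (by linarith)
      have h2 : ‖(∑ n ∈ Finset.range N, a n * (z * exp (-s)) ^ n) * exp (N * s)‖
          ≤ m * C * Real.exp (-y) ^ (N - m) + ε * (1 - Real.exp (-y))⁻¹ := by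
        rw [Finset.sum_mul]
        refine (norm_sum_le _ _).trans ?_
        have h3 : ∀ k ∈ Finset.range N, ‖a k * (z * exp (-s)) ^ k * exp (N * s)‖
            ≤ (if k < m then C * Real.exp (-y) ^ (N - m) else 0)
              + ε * Real.exp (-y) ^ (N - 1 - k) := by
          intro k hk
          have hk' := Finset.mem_range.1 hk
          have h4 : Real.exp (- -y) ^ k * Real.exp (-y) ^ N = Real.exp (-y) ^ (N - k) := by
            rw [show N = k + (N - k) by omega, pow_add, ← mul_assoc, ← mul_pow, ← Real.exp_add]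
            simp
          rw [norm_mul, norm_mul, norm_pow, hnw, hne, mul_assoc, h4]
          split_ifs with h5
          · have h6 : Real.exp (-y) ^ (N - k) ≤ Real.exp (-y) ^ (N - m) :=
              pow_le_pow_of_le_one hq0.le hq1.le (by omega)
            have h7 := mul_le_mul (hC k) h6 (by positivity) hC0
            have h8 : 0 ≤ ε * Real.exp (-y) ^ (N - 1 - k) := by positivity
            linarith
          · have h6 : Real.exp (-y) ^ (N - k) ≤ Real.exp (-y) ^ (N - 1 - k) :=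
              pow_le_pow_of_le_one hq0.le hq1.le (by omega)
            rw [zero_add]
            exact mul_le_mul (hm k (not_lt.1 h5)) h6 (by positivity) hε.le
        refine (Finset.sum_le_sum h3).trans ?_
        rw [Finset.sum_add_distrib, ← Finset.mul_sum,
          Finset.sum_range_reflect (fun j => Real.exp (-y) ^ j) N]
        refine add_le_add ?_ (mul_le_mul_of_nonneg_left (sum_le_hasSum _ (fun _ _ => by positivity)
          (hasSum_geometric_of_lt_one hq0.le hq1)) hε.le)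
        rw [← Finset.sum_filter, Finset.sum_const, nsmul_eq_mul, mul_assoc]
        refine mul_le_mul_of_nonneg_right ?_ (by positivity)
        have h4 : ((Finset.range N).filter fun k => k < m) ⊆ Finset.range m := fun k hk =>
          Finset.mem_range.2 (Finset.mem_filter.1 hk).2
        have h5 := Finset.card_le_card h4
        rw [Finset.card_range] at h5
        exact_mod_cast h5
      have h3 : ‖g (z * exp (-s)) * exp (N * s)‖ ≤ Bg * Real.exp (-y) ^ (N - m) := by
        rw [norm_mul, hne]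
        exact mul_le_mul (hBg _ (hw s hsm)) (pow_le_pow_of_le_one hq0.le hq1.le (by omega))
          (by positivity) hBg0
      have h4 := lemA hy0 hx1
      have h5 := lemB (y := y) (show 0 < N - m by omega)
      rw [hy', abs_neg, abs_of_pos hy0, sub_mul]
      calc _ ≤ (Bg * Real.exp (-y) ^ (N - m) + (m * C * Real.exp (-y) ^ (N - m)
              + ε * (1 - Real.exp (-y))⁻¹)) * y :=
            mul_le_mul_of_nonneg_right ((norm_sub_le _ _).trans (add_le_add h3 h2)) hy0.le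
        _ = ε * (y * (1 - Real.exp (-y))⁻¹) + (Bg + m * C) * (y * Real.exp (-y) ^ (N - m)) := by
            ring
        _ ≤ ε * 2 + (Bg + m * C) * (1 / ((N - m : ℕ) : ℝ)) := by gcongr
        _ = _ := by ring
    · rw [hx, abs_zero, mul_zero]
      positivity
    · rw [abs_of_pos hx] at hx1 ⊢
      have hq0 := Real.exp_pos (-s.re)
      have hq1 : Real.exp (-s.re) < 1 := Real.exp_lt_one_iff.2 (by linarith)
      have hsum : Summable fun n => a n * (z * exp (-s)) ^ n := by
        refine Summable.of_norm ?_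
        simp_rw [norm_mul (a _), norm_pow, hnw]
        exact sum_r hC hq0.le hq1
      have h2 : ‖g (z * exp (-s)) - ∑ n ∈ Finset.range N, a n * (z * exp (-s)) ^ n‖
          ≤ ε * Real.exp (-s.re) ^ N * (1 - Real.exp (-s.re))⁻¹ := by
        rw [hgf _ (hsub (hw s hsm)) (by rw [hnw]; exact hq1), ← hsum.sum_add_tsum_nat_add N,
          add_sub_cancel_left]
        refine tsum_of_norm_bounded ((hasSum_geometric_of_lt_one hq0.le hq1).mul_left _) fun k => ?_
        rw [norm_mul, norm_pow, hnw, pow_add, mul_comm (_ ^ k), ← mul_assoc]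
        have := hm (k + N) (by omega)
        gcongr
      have h4 := lemA hx hx1
      have h5 : Real.exp (-s.re) ^ N * Real.exp s.re ^ N = 1 := by
        rw [← mul_pow, ← Real.exp_add]
        simp
      rw [norm_mul, hne]
      calc _ ≤ (ε * Real.exp (-s.re) ^ N * (1 - Real.exp (-s.re))⁻¹) * Real.exp s.re ^ N * s.re := by
            gcongr
        _ = ε * (s.re * (1 - Real.exp (-s.re))⁻¹) * (Real.exp (-s.re) ^ N * Real.exp s.re ^ N) := by
            ring
        _ ≤ ε * 2 * 1 := by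
            rw [h5]
            gcongr
        _ ≤ _ := by linarith
  rw [Metric.tendsto_atTop]
  intro η hη
  obtain ⟨m, hm⟩ := (Metric.tendsto_atTop.1 ha) (η * R / 8) (by positivity)
  have h1 : Tendsto (fun N : ℕ => (Bg + m * C) / ((N - m : ℕ) : ℝ)) atTop (𝓝 0) :=
    (tendsto_const_div_atTop_nhds_zero_nat (Bg + m * C)).comp (tendsto_sub_atTop_nat m)
  obtain ⟨N0, hN0⟩ := eventually_atTop.1
    (h1.eventually (gt_mem_nhds (show 0 < η * R / 4 by positivity)))
  refine ⟨max N0 (m + 1), fun N hN => ?_⟩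
  have h2 := key (η * R / 8) (by positivity) m N (by omega) fun k hk => by
    simpa using (hm k hk).le
  have h3 := hN0 N (by omega)
  rw [dist_comm, dist_eq_norm]
  refine h2.trans_lt ?_
  rw [div_mul_eq_mul_div, div_lt_iff₀ hR0]
  linarith

theorem main (a : ℕ → ℂ) (E : Set ℂ)
    (hE : E = {ξ : ℂ | ‖ξ‖ = 1 ∧ ¬ ∃ r : ℝ, 0 < r ∧ ∃ g : ℂ → ℂ,
          DifferentiableOn ℂ g (Metric.ball ξ r) ∧
          ∀ w ∈ Metric.ball ξ r, ‖w‖ < 1 → g w = ∑' n, a n * w ^ n})
    (hM : ∃ M : ℝ, ∀ ξ ∈ E, ∀ N : ℕ, ‖∑ n ∈ Finset.range (N + 1), a n * ξ ^ n‖ ≤ M)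
    (hne : ∃ c : ℝ, exp (c * I) ∈ E) (z : ℂ) (hz : ‖z‖ = 1) (hzE : z ∉ E) :
    ∃ L : ℂ, Tendsto (fun N : ℕ => ∑ n ∈ Finset.range N, a n * z ^ n) atTop (𝓝 L) ∧
      ∃ r : ℝ, 0 < r ∧ ∃ g : ℂ → ℂ, DifferentiableOn ℂ g (Metric.ball z r) ∧
        (∀ w ∈ Metric.ball z r, ‖w‖ < 1 → g w = ∑' n, a n * w ^ n) ∧ g z = L := by
  obtain ⟨M, hM⟩ := hM
  obtain ⟨c, hc⟩ := hne
  have hreg : ∀ ξ : ℂ, ‖ξ‖ = 1 → ξ ∉ E → ∃ r : ℝ, 0 < r ∧ ∃ g : ℂ → ℂ,
      DifferentiableOn ℂ g (Metric.ball ξ r) ∧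
      ∀ w ∈ Metric.ball ξ r, ‖w‖ < 1 → g w = ∑' n, a n * w ^ n := by
    intro ξ h1 h2
    by_contra h3
    exact h2 (hE ▸ ⟨h1, h3⟩)
  have ha : Tendsto a atTop (𝓝 0) := by
    refine coef_tendsto a {θ : ℝ | exp (θ * I) ∈ E} ?_ c (fun k => ?_) M ?_ ?_
    · rw [← isOpen_compl_iff, isOpen_iff_mem_nhds]
      intro θ hθ
      obtain ⟨r, hr, g, hg, hgf⟩ := hreg _ (norm_exp_ofReal_mul_I θ) hθ
      have h1 : ContinuousAt (fun x : ℝ => exp (x * I)) θ := by fun_prop
      filter_upwards [h1.eventually (ball_mem_nhds _ hr)] with x hx hxE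
      obtain ⟨r', hr', hsub⟩ := Metric.isOpen_iff.1 isOpen_ball _ hx
      rw [hE] at hxE
      exact hxE.2 ⟨r', hr', g, hg.mono hsub, fun w hw => hgf w (hsub hw)⟩
    · have h1 := exp_int_mul_two_pi_mul_I k
      rw [mem_ofPred_eq, show ((c + k * (2 * Real.pi) : ℝ) : ℂ) * I
        = c * I + k * (2 * Real.pi * I) by push_cast; ring, exp_add, h1, mul_one]
      exact hc
    · intro α hα N
      cases N with
      | zero => simpa using (norm_nonneg _).trans (hM _ hα 0)
      | succ N => exact hM _ hα N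
    · intro θ hθ
      obtain ⟨r, hr, g, hg, hgf⟩ := hreg _ (norm_exp_ofReal_mul_I θ) hθ
      have hsub : closedBall (exp (θ * I)) (r / 2) ⊆ ball _ r :=
        closedBall_subset_ball (by linarith)
      obtain ⟨B, hB⟩ := (isCompact_closedBall _ (r / 2)).exists_bound_of_continuousOn
        (hg.continuousOn.mono hsub)
      refine ⟨r / 2, B, by linarith, fun w hw hw1 => ?_⟩
      rw [← hgf w (hsub (ball_subset_closedBall hw)) hw1]
      exact hB w (ball_subset_closedBall hw)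
  obtain ⟨r, hr, g, hg, hgf⟩ := hreg z hz hzE
  exact ⟨g z, riesz a ha hz hr hg hgf, r, hr, g, hg, hgf, rfl⟩

end Pool.Agent.H88.Fatou
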