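import Pool.Agent.H88.PS
import Pool.Agent.H88.Berg1

set_option autoImplicit false
open MeasureTheory Filter Topology Metric Set Complex

namespace Pool.Agent.H88.Force

open Pool.Agent.H88.PS Pool.Agent.H88.Berg

theorem area_mean {G : ℂ → ℂ} {R s : ℝ} (hG : DifferentiableOn ℂ G (ball 0 R)) (h0 : 0 < s)
    (h1 : s < R) : ∫ z in ball (0:ℂ) s, G z = (Real.pi * s ^ 2 : ℝ) * G 0 := by
  have hi : ∀ n, IntegrableOn (fun z : ℂ => coef G n * z ^ n) (ball 0 s) := fun n =>
    ((by fun_prop : Continuous fun z : ℂ => coef G n * z ^ n).continuousOn.integrableOn_compact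
      (isCompact_closedBall 0 s)).mono_set ball_subset_closedBall
  have h2 := hasSum_integral_of_summable_integral_norm hi (Summable.of_nonneg_of_le
    (fun n => integral_nonneg fun _ => norm_nonneg _) (fun n => by
      refine (Real.le_norm_self _).trans (norm_setIntegral_le_of_norm_le_const measure_ball_lt_top
        (C := ‖coef G n‖ * s ^ n) fun z hz => ?_)
      rw [norm_norm, norm_mul, norm_pow]
      gcongr
      exact (mem_ball_zero_iff.1 hz).le)
    ((summable_norm_coef hG h0.le h1).mul_right _))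
  rw [setIntegral_congr_fun measurableSet_ball fun z hz =>
    (hasSum_coef hG ((mem_ball_zero_iff.1 hz).trans h1)).tsum_eq] at h2
  rw [h2.unique (hasSum_single 0 fun n hn => by
    have := orth s (fun _ => 1) (fun _ _ _ => rfl) hn
    simp only [pow_zero, mul_one, ofReal_one] at this
    rw [integral_const_mul, this, mul_zero])]
  simp [coef, Measure.real, h0.le, mul_comm]

def HH : Set ℂ := {z | 0 < z.im}

theorem HH_open : IsOpen HH := isOpen_lt continuous_const continuous_im

structure Nice (f : ℂ → ℂ) : Prop where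
  diff : DifferentiableOn ℂ f HH
  inj : InjOn f HH
  maps : MapsTo f HH (ball 0 1)

noncomputable def en (f : ℂ → ℂ) (U : Set ℂ) : ℝ := volume.real (f '' (U ∩ HH))

variable {f : ℂ → ℂ}

theorem Nice.fin (h : Nice f) (U : Set ℂ) : volume (f '' (U ∩ HH)) ≠ ⊤ :=
  ((measure_mono (h.maps.mono_left inter_subset_right).image_subset).trans_lt measure_ball_lt_top).ne

theorem Nice.meas (h : Nice f) {U : Set ℂ} (hU : MeasurableSet U) : MeasurableSet (f '' (U ∩ HH)) :=
  (hU.inter HH_open.measurableSet).image_of_continuousOn_injOn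
    (h.diff.continuousOn.mono inter_subset_right) (h.inj.mono inter_subset_right)

theorem Nice.deriv_le (h : Nice f) {w : ℂ} {ρ : ℝ} (h0 : 0 < ρ) {U : Set ℂ}
    (hU : ball w ρ ⊆ U ∩ HH) : ‖deriv f w‖ ≤ √(en f U) / ρ := by
  have hH : ball w ρ ⊆ HH := hU.trans inter_subset_right
  have hd : DifferentiableOn ℂ (deriv f) HH := h.diff.deriv HH_open
  have s0 : 0 < 3 / 4 * ρ := by positivity
  have s1 : 3 / 4 * ρ < ρ := by linarith
  have hG : DifferentiableOn ℂ (fun z => deriv f (w + z) ^ 2) (ball 0 ρ) :=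
    (hd.comp (by fun_prop) fun z hz => hH (by simpa using hz)).pow 2
  have h1 := area_mean hG s0 s1
  have h2 := lintegral_abs_det_fderiv_eq_addHaar_image volume (s := ball w (3 / 4 * ρ))
    measurableSet_ball (f := f)
    (f' := fun z => (ContinuousLinearMap.toSpanSingleton ℂ (deriv f z)).restrictScalars ℝ)
    (fun z hz => ((h.diff.differentiableAt (HH_open.mem_nhds
      (hH (ball_subset_ball s1.le hz)))).hasDerivAt.hasFDerivAt.restrictScalars ℝ).hasFDerivWithinAt)
    (h.inj.mono ((ball_subset_ball s1.le).trans hH))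
  have h3 : ∀ a : ℂ, |((ContinuousLinearMap.toSpanSingleton ℂ a).restrictScalars ℝ).det|
      = ‖a ^ 2‖ := fun a => by
    rw [ContinuousLinearMap.det, ← LinearMap.det_toMatrix basisOneI, Matrix.det_fin_two, norm_pow,
      Complex.sq_norm, ← abs_of_nonneg (normSq_nonneg a)]
    simp [LinearMap.toMatrix_apply, normSq_apply]
  simp only [h3] at h2
  have h4 := (measurePreserving_add_left volume w).setLIntegral_comp_preimage_emb
    (Homeomorph.addLeft w).measurableEmbedding (fun z => ENNReal.ofReal ‖deriv f z ^ 2‖)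
    (ball w (3 / 4 * ρ))
  rw [h2, show (fun x => w + x) ⁻¹' ball w (3 / 4 * ρ) = ball 0 (3 / 4 * ρ) by ext; simp] at h4
  have h5 := norm_integral_le_lintegral_norm (μ := volume.restrict (ball 0 (3 / 4 * ρ)))
    fun z => deriv f (w + z) ^ 2
  rw [h4, h1, add_zero, norm_mul, norm_pow, norm_real, Real.norm_of_nonneg (by positivity)] at h5
  have h6 : (volume (f '' ball w (3 / 4 * ρ))).toReal ≤ en f U :=
    ENNReal.toReal_mono (h.fin U) (measure_mono (image_mono ((ball_subset_ball s1.le).trans hU)))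
  rw [le_div_iff₀ h0]
  refine Real.le_sqrt_of_sq_le ?_
  nlinarith [Real.pi_gt_three, sq_nonneg (‖deriv f w‖ * ρ)]

theorem Nice.lip (h : Nice f) {S U : Set ℂ} (hS : Convex ℝ S) {ρ : ℝ} (h0 : 0 < ρ)
    (hU : ∀ w ∈ S, ball w ρ ⊆ U ∩ HH) {a b : ℂ} (ha : a ∈ S) (hb : b ∈ S) :
    ‖f a - f b‖ ≤ √(en f U) / ρ * ‖a - b‖ :=
  hS.norm_image_sub_le_of_norm_deriv_le (fun w hw => h.diff.differentiableAt
    (HH_open.mem_nhds (hU w hw (mem_ball_self h0)).2)) (fun w hw => h.deriv_le h0 (hU w hw)) hb ha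

theorem Nice.en_mono (h : Nice f) {U V : Set ℂ} (hU : U ⊆ V) : en f U ≤ en f V :=
  ENNReal.toReal_mono (h.fin V) (measure_mono (image_mono (inter_subset_inter_left _ hU)))

theorem Nice.en_add (h : Nice f) {U V W : Set ℂ} (hV : MeasurableSet V) (hd : Disjoint U V)
    (h1 : U ⊆ W) (h2 : V ⊆ W) : en f U + en f V ≤ en f W := by
  rw [en, en, ← measureReal_union (disjoint_image_image fun a ha b hb e =>
    Set.disjoint_left.1 hd ha.1 (h.inj ha.2 hb.2 e ▸ hb.1)) (h.meas hV) (h.fin U)
    (h.fin V), ← image_union, ← union_inter_distrib_right]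
  exact h.en_mono (union_subset h1 h2)

theorem Nice.en_lim (h : Nice f) : Tendsto (fun n : ℕ => en f (ball 0 (2 * (1 / 2) ^ n))) atTop (𝓝 0) := by
  have h1 := tendsto_measure_iInter_atTop (μ := volume)
    (s := fun n : ℕ => f '' (ball 0 (2 * (1 / 2) ^ n) ∩ HH))
    (fun n => (h.meas measurableSet_ball).nullMeasurableSet)
    (fun n m hnm => image_mono (inter_subset_inter_left _ (ball_subset_ball (by
      have := pow_le_pow_of_le_one (show (0:ℝ) ≤ 1 / 2 by norm_num) (by norm_num) hnm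
      linarith)))) ⟨0, h.fin _⟩
  have h2 : ⋂ n : ℕ, f '' (ball 0 (2 * (1 / 2) ^ n) ∩ HH) = ∅ := by
    refine eq_empty_of_forall_notMem fun w hw => ?_
    obtain ⟨z, hz, rfl⟩ := mem_iInter.1 hw 0
    have z0 : 0 < ‖z‖ / 2 := half_pos (norm_pos_iff.2 fun h0 => by simpa [h0, HH] using hz.2)
    obtain ⟨n, hn⟩ := exists_pow_lt_of_lt_one z0 (show (1 / 2 : ℝ) < 1 by norm_num)
    obtain ⟨y, hy, e⟩ := mem_iInter.1 hw n
    rw [h.inj hy.2 hz.2 e] at hy
    linarith [mem_ball_zero_iff.1 hy.1]
  rw [h2, measure_empty] at h1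
  exact (ENNReal.tendsto_toReal ENNReal.zero_ne_top).comp h1

end Pool.Agent.H88.Force
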