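import Pool.Agent.H88.Force1

set_option autoImplicit false
open MeasureTheory Filter Topology Metric Set Complex

namespace Pool.Agent.H88.Force

noncomputable def TT : ℕ → ℝ → ℝ → Finset ℝ
  | 0, x, _ => {x}
  | m + 1, x, y => TT m (x - y / 2) (y / 4) ∪ TT m (x + y / 2) (y / 4)

theorem TT_card (m : ℕ) : ∀ x y, (TT m x y).card ≤ 2 ^ m := by
  induction m with
  | zero => intro x y; simp [TT]
  | succ m ih =>
    intro x y
    refine (Finset.card_union_le _ _).trans ?_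
    rw [pow_succ]
    linarith [ih (x - y / 2) (y / 4), ih (x + y / 2) (y / 4)]

theorem TT_near (m : ℕ) : ∀ x y, 0 < y → ∀ t ∈ TT m x y, |t - x| ≤ 2 / 3 * y := by
  induction m with
  | zero =>
    intro x y hy t ht
    rw [Finset.mem_singleton.1 ht, sub_self, abs_zero]
    positivity
  | succ m ih =>
    intro x y hy t ht
    rcases Finset.mem_union.1 ht with h | h <;>
    · have := abs_le.1 (ih _ _ (by positivity) t h)
      rw [abs_le]
      constructor <;> linarith [this.1, this.2]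

theorem TT_far {m : ℕ} {y t : ℝ} (hy : 0 < y) (ht : t ∈ TT (m + 1) 0 y) : y / 3 ≤ |t| := by
  rcases Finset.mem_union.1 ht with h | h
  · have := abs_le.1 (TT_near _ _ _ (by positivity) t h)
    linarith [neg_le_abs t, this.2]
  · have := abs_le.1 (TT_near _ _ _ (by positivity) t h)
    linarith [le_abs_self t, this.1]

noncomputable def pt (x y : ℝ) : ℂ := x + y * I

variable {f : ℂ → ℂ}

theorem Nice.step (h : Nice f) {x y d : ℝ} (hy : 0 < y) (hd : |d| = y / 2) :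
    ‖f (pt (x + d) (y / 4)) - f (pt x y)‖ ≤ 15 * √(en f (ball x (2 * y))) := by
  have h1 : ‖pt (x + d) (y / 4) - pt x y‖ ≤ 15 / 16 * y := by
    refine (pow_le_pow_iff_left₀ (norm_nonneg _) (by positivity) two_ne_zero).1 ?_
    have h2 : d ^ 2 = (y / 2) ^ 2 := by rw [← hd, sq_abs]
    rw [Complex.sq_norm, normSq_apply]
    simp [pt]
    nlinarith
  have h2 := h.lip (convex_closedBall (pt x y) (15 / 16 * y)) (U := ball x (2 * y))
    (show 0 < y / 16 by positivity) (fun w hw z hz => by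
      have h3 : ‖z - pt x y‖ < y := by
        linarith [norm_sub_le_norm_sub_add_norm_sub z w (pt x y), mem_ball_iff_norm.1 hz,
          mem_closedBall_iff_norm.1 hw]
      have h4 := (abs_le.1 (abs_im_le_norm (z - pt x y))).1
      have h5 : ‖pt x y - x‖ = y := by simp [pt, abs_of_pos hy]
      refine ⟨mem_ball_iff_norm.2 ?_, ?_⟩
      · linarith [norm_sub_le_norm_sub_add_norm_sub z (pt x y) x]
      · simp [pt] at h4 h3
        change 0 < z.im
        linarith) (mem_closedBall_iff_norm.2 h1) (mem_closedBall_self (by positivity))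
  refine h2.trans ((mul_le_mul_of_nonneg_left h1 (by positivity)).trans (le_of_eq ?_))
  field_simp

theorem Nice.greedy (h : Nice f) (m : ℕ) : ∀ x y, 0 < y → ∃ t ∈ TT m x y,
    ‖f (pt t (y / 4 ^ m)) - f (pt x y)‖ ≤ 60 * √(en f (ball x (2 * y))) := by
  induction m with
  | zero => exact fun x y _ => ⟨x, by simp [TT], by simp⟩
  | succ m ih =>
    intro x y hy
    have sub : ∀ d : ℝ, |d| = y / 2 → ball ((x + d : ℝ) : ℂ) (2 * (y / 4)) ⊆ ball (x:ℂ) (2 * y) :=
      fun d hd => ball_subset_ball' (by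
        rw [dist_eq_norm, ← ofReal_sub, norm_real, add_sub_cancel_left, Real.norm_eq_abs, hd]
        linarith)
    have key : ∀ d : ℝ, |d| = y / 2 → TT m (x + d) (y / 4) ⊆ TT (m + 1) x y →
        2 * en f (ball ((x + d : ℝ) : ℂ) (2 * (y / 4))) ≤ en f (ball x (2 * y)) →
        ∃ t ∈ TT (m + 1) x y,
          ‖f (pt t (y / 4 ^ (m + 1))) - f (pt x y)‖ ≤ 60 * √(en f (ball x (2 * y))) := by
      intro d hd h1 h2
      obtain ⟨t, ht, h3⟩ := ih (x + d) (y / 4) (by positivity)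
      refine ⟨t, h1 ht, ?_⟩
      have h4 : √(en f (ball ((x + d : ℝ) : ℂ) (2 * (y / 4)))) ≤ 3 / 4 * √(en f (ball x (2 * y))) := by
        have h5 : 0 ≤ en f (ball x (2 * y)) := measureReal_nonneg
        refine Real.sqrt_le_iff.2 ⟨by positivity, ?_⟩
        rw [mul_pow, Real.sq_sqrt h5]
        linarith
      rw [div_div, ← pow_succ'] at h3
      linarith [norm_sub_le_norm_sub_add_norm_sub (f (pt t (y / 4 ^ (m + 1))))
        (f (pt (x + d) (y / 4))) (f (pt x y)), h.step (x := x) hy hd]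
    have a1 : |-(y / 2)| = y / 2 := by rw [abs_neg, abs_of_pos (half_pos hy)]
    have a2 : |y / 2| = y / 2 := abs_of_pos (half_pos hy)
    have h1 := h.en_add measurableSet_ball (ball_disjoint_ball (by
      rw [dist_eq_norm, ← ofReal_sub, norm_real, Real.norm_eq_abs, abs_sub_comm,
        abs_of_pos (by linarith)]
      linarith)) (sub _ a1) (sub _ a2)
    rcases le_total (en f (ball ((x + -(y / 2) : ℝ) : ℂ) (2 * (y / 4))))
      (en f (ball ((x + y / 2 : ℝ) : ℂ) (2 * (y / 4)))) with h2 | h2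
    · exact key _ a1 (by rw [← sub_eq_add_neg]; exact Finset.subset_union_left) (by linarith)
    · exact key _ a2 Finset.subset_union_right (by linarith)

def KK : Set ℂ := {w | ∃ n, ∃ t ∈ TT (n + 1) 0 ((1 / 2) ^ n), w = pt t ((1 / 2) ^ n / 4 ^ (n + 1))}

theorem KK_sub : KK ⊆ HH := by
  rintro _ ⟨n, t, -, rfl⟩
  simp only [HH, pt, mem_ofPred_eq, add_im, ofReal_im, mul_im, ofReal_re, I_im, I_re]
  positivity

theorem half_lim : Tendsto (fun n : ℕ => (1 / 2 : ℝ) ^ n) atTop (𝓝 0) :=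
  tendsto_pow_atTop_nhds_zero_of_lt_one (by norm_num) (by norm_num)

theorem Nice.forcing (h : Nice f) {α : ℂ} (hα : Tendsto f (𝓝[KK] 0) (𝓝 α)) {θ : ℝ} (h0 : 0 < θ)
    (h1 : θ < Real.pi / 2) :
    Tendsto f (𝓝[{z : ℂ | z ≠ 0 ∧ θ ≤ arg z ∧ arg z ≤ Real.pi - θ}] 0) (𝓝 α) := by
  choose t ht ht' using fun n : ℕ => h.greedy (n + 1) 0 ((1 / 2) ^ n) (by positivity)
  have e0 : Tendsto (fun n : ℕ => √(en f (ball 0 (2 * (1 / 2) ^ n)))) atTop (𝓝 0) := by
    simpa using h.en_lim.sqrt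
  have h2 : Tendsto (fun n : ℕ => pt (t n) ((1 / 2) ^ n / 4 ^ (n + 1))) atTop (𝓝[KK] 0) := by
    refine tendsto_nhdsWithin_iff.2 ⟨squeeze_zero_norm (a := fun n => 2 * (1 / 2) ^ n) (fun n => ?_)
      (by simpa using half_lim.const_mul 2), Eventually.of_forall fun n => ⟨n, t n, ht n, rfl⟩⟩
    have h3 := TT_near _ _ _ (by positivity) _ (ht n)
    have h4 : ((1 / 2) ^ n / 4 ^ (n + 1) : ℝ) ≤ (1 / 2) ^ n :=
      div_le_self (by positivity) (one_le_pow₀ (by norm_num))
    have h5 : (0:ℝ) < (1 / 2) ^ n := by positivity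
    refine (norm_add_le _ _).trans ?_
    rw [norm_mul, norm_I, mul_one, norm_real, norm_real, Real.norm_eq_abs,
      Real.norm_of_nonneg (by positivity)]
    rw [sub_zero] at h3
    linarith
  have h3 : Tendsto (fun n : ℕ => f (pt 0 ((1 / 2) ^ n))) atTop (𝓝 α) := by
    have h4 := (hα.comp h2).sub (squeeze_zero_norm ht' (by simpa using e0.const_mul 60))
    simpa using h4
  have s0 : 0 < Real.sin θ := Real.sin_pos_of_pos_of_lt_pi h0 (by linarith)
  have s1 := Real.sin_le_one θ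
  rw [Metric.tendsto_nhds]
  intro ε hε
  obtain ⟨N, hN⟩ := eventually_atTop.1 ((Metric.tendsto_nhds.1 h3 (ε / 2) (half_pos hε)).and
    (e0.eventually (gt_mem_nhds (show 0 < ε * Real.sin θ / 8 by positivity))))
  filter_upwards [self_mem_nhdsWithin, mem_nhdsWithin_of_mem_nhds
    (ball_mem_nhds (0:ℂ) (show (0:ℝ) < (1 / 2) ^ N by positivity))] with z ⟨z0, z1, z2⟩ hz
  rw [mem_ball_zero_iff] at hz
  obtain ⟨n, n1, n2⟩ := exists_nat_pow_near_of_lt_one (norm_pos_iff.2 z0)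
    (hz.le.trans (pow_le_one₀ (by norm_num) (by norm_num))) (show (0:ℝ) < 1 / 2 by norm_num)
    (by norm_num)
  have nN : N ≤ n := Nat.lt_succ_iff.1
    ((pow_lt_pow_iff_right_of_lt_one₀ (by norm_num) (by norm_num)).1 (n1.trans hz))
  obtain ⟨a1, a2⟩ := hN n nN
  rw [pow_succ] at n1
  have p0 : (0:ℝ) < (1 / 2) ^ n := by positivity
  generalize (1 / 2 : ℝ) ^ n = s at *
  have h4 : Real.sin θ ≤ Real.sin (arg z) := by
    rcases le_total (arg z) (Real.pi / 2) with h5 | h5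
    · exact Real.sin_le_sin_of_le_of_le_pi_div_two (by linarith) h5 z1
    · rw [← Real.sin_pi_sub (arg z)]
      exact Real.sin_le_sin_of_le_of_le_pi_div_two (by linarith) (by linarith) (by linarith)
  rw [sin_arg, le_div_iff₀ (norm_pos_iff.2 z0)] at h4
  have h5 : ‖pt 0 s‖ = s := by simp [pt, abs_of_pos p0]
  have h6 := h.lip ((convex_halfSpace_im_ge (Real.sin θ * s / 2)).inter (convex_closedBall 0 s))
    (U := ball 0 (2 * s)) (show 0 < Real.sin θ * s / 2 by positivity) (fun w hw y hy => by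
      have h6 := mem_ball_iff_norm.1 hy
      have h7 := (abs_le.1 (abs_im_le_norm (y - w))).1
      have h8 : Real.sin θ * s / 2 ≤ w.im := hw.1
      have h9 := mem_closedBall_zero_iff.1 hw.2
      rw [sub_im] at h7
      refine ⟨mem_ball_zero_iff.2 ?_, show 0 < y.im by linarith⟩
      nlinarith [norm_le_norm_add_norm_sub' y w]) (a := z) (b := pt 0 s)
    ⟨show _ ≤ z.im by nlinarith, mem_closedBall_zero_iff.2 n2⟩
    ⟨show _ ≤ (pt 0 s).im by simp [pt]; nlinarith, mem_closedBall_zero_iff.2 h5.le⟩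
  have h7 : √(en f (ball 0 (2 * s))) / (Real.sin θ * s / 2) * ‖z - pt 0 s‖ ≤ ε / 2 := by
    refine (mul_le_mul (div_le_div_of_nonneg_right a2.le (by positivity))
      ((norm_sub_le _ _).trans (add_le_add n2 h5.le)) (norm_nonneg _) (by positivity)).trans
      (le_of_eq ?_)
    field_simp
    ring
  rw [dist_eq_norm] at a1 ⊢
  linarith [norm_sub_le_norm_sub_add_norm_sub (f z) (f (pt 0 s)) α]

theorem near (l : ℝ) : ∃ C : ℝ, 0 < C ∧ ∀ z w : ℂ, 0 < z.im → 0 < w.im →
    2 * Real.arsinh (‖z - w‖ / (2 * √(z.im * w.im))) < l →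
      ‖z - w‖ ≤ C * w.im ∧ ‖z - w‖ ≤ C * z.im := by
  refine ⟨2 * (2 * Real.sinh (l / 2)) ^ 2 + 1, by positivity, fun z w hz hw h => ?_⟩
  have h1 : ‖z - w‖ / (2 * √(z.im * w.im)) < Real.sinh (l / 2) := by
    rw [← Real.sinh_arsinh (_ / _)]
    exact Real.sinh_lt_sinh.2 (by linarith)
  rw [div_lt_iff₀ (by positivity)] at h1
  have h2 : ‖z - w‖ ^ 2 ≤ (2 * Real.sinh (l / 2)) ^ 2 * (z.im * w.im) := by
    have := pow_le_pow_left₀ (norm_nonneg _) h1.le 2
    rw [mul_pow, mul_pow, Real.sq_sqrt (by positivity)] at this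
    linarith
  have h3 := abs_le.1 (abs_im_le_norm (z - w))
  rw [sub_im] at h3
  have h4 := sq_nonneg (2 * Real.sinh (l / 2))
  generalize (2 * Real.sinh (l / 2)) ^ 2 = T at *
  have key : ∀ a b d : ℝ, 0 < a → 0 < b → a ≤ b + d → d ^ 2 ≤ T * (a * b) → d ≤ (2 * T + 1) * b := by
    intro a b d ha hb h5 h6
    by_contra! hc
    have h7 : b < d := by nlinarith
    have h8 : T * (a * b) ≤ T * (2 * d * b) := by gcongr; linarith
    nlinarith
  exact ⟨key _ _ _ hz hw (by linarith) h2, key _ _ _ hw hz (by linarith) (by rwa [mul_comm w.im])⟩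

theorem thin (l : ℝ) {c : ℝ} (hc : 0 < c) : ∃ δ : ℝ, 0 < δ ∧ ∀ r : ℝ, 0 < r → r < δ →
    (volume ((fun z : ℂ => ‖z‖) '' {z : ℂ | 0 < z.im ∧ ∃ w ∈ KK,
      2 * Real.arsinh (‖z - w‖ / (2 * √(z.im * w.im))) < l} ∩ Ioo 0 r)).toReal < c * r := by
  obtain ⟨C, C0, hC⟩ := near l
  obtain ⟨N, hN⟩ := exists_pow_lt_of_lt_one (show 0 < min (c / (16 * C)) (1 / (12 * C)) by positivity)
    (show (1 / 2 : ℝ) < 1 by norm_num)
  obtain ⟨N1, N2⟩ := lt_min_iff.1 hN
  refine ⟨(1 / 2) ^ N / 4 ^ (N + 1) / (1 + C), by positivity, fun r r0 r1 => ?_⟩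
  have q : ∀ n : ℕ, (4:ℝ) ^ (n + 1) = 2 ^ (n + 1) * 2 ^ (n + 1) := fun n => by
    rw [← mul_pow]
    norm_num
  have h1 : (fun z : ℂ => ‖z‖) '' {z : ℂ | 0 < z.im ∧ ∃ w ∈ KK,
      2 * Real.arsinh (‖z - w‖ / (2 * √(z.im * w.im))) < l} ∩ Ioo 0 r
      ⊆ ⋃ k : ℕ, ⋃ t ∈ TT (k + N + 1) 0 ((1 / 2) ^ (k + N)),
        closedBall ‖pt t ((1 / 2) ^ (k + N) / 4 ^ (k + N + 1))‖ (4 * r * C / 4 ^ (k + N + 1)) := by
    rintro _ ⟨⟨z, ⟨z0, w, hw, h1⟩, rfl⟩, -, h2⟩
    obtain ⟨h3, h4⟩ := hC z w z0 (KK_sub hw) h1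
    obtain ⟨n, t, ht, rfl⟩ := hw
    have e1 : (pt t ((1 / 2) ^ n / 4 ^ (n + 1))).im = (1 / 2) ^ n / 4 ^ (n + 1) := by
      simp only [pt, add_im, ofReal_im, mul_im, ofReal_re, I_im, I_re]
      ring
    have e2 : (pt t ((1 / 2) ^ n / 4 ^ (n + 1))).re = t := by
      simp only [pt, add_re, ofReal_im, mul_re, ofReal_re, I_im, I_re]
      ring
    have h5 := TT_far (by positivity) ht
    have h6 := abs_re_le_norm (pt t ((1 / 2) ^ n / 4 ^ (n + 1)))
    have h7 := (abs_le.1 (abs_im_le_norm (z - pt t ((1 / 2) ^ n / 4 ^ (n + 1))))).1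
    have h8 := abs_norm_sub_norm_le z (pt t ((1 / 2) ^ n / 4 ^ (n + 1)))
    rw [sub_im, e1] at h7
    rw [e1] at h3
    rw [e2] at h6
    simp only at h2
    have nN : N ≤ n := by
      by_contra! hn
      have h9 : ((1 / 2) ^ N / 4 ^ (N + 1) : ℝ) ≤ (1 / 2) ^ n / 4 ^ (n + 1) :=
        div_le_div₀ (by positivity) (pow_le_pow_of_le_one (by norm_num) (by norm_num) hn.le)
          (by positivity) (pow_le_pow_right₀ (by norm_num) (by omega))
      rw [lt_div_iff₀ (by positivity)] at r1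
      nlinarith [im_le_norm z]
    obtain ⟨k, rfl⟩ := Nat.exists_eq_add_of_le' nN
    refine mem_iUnion.2 ⟨k, mem_iUnion₂.2 ⟨t, ht, ?_⟩⟩
    have h9 : C / 4 ^ (k + N + 1) ≤ 1 / 12 := by
      rw [lt_div_iff₀ (by positivity), one_div_pow] at N2
      refine le_trans (div_le_div_of_nonneg_left C0.le (by positivity)
        (show (2:ℝ) ^ N ≤ 4 ^ (k + N + 1) from (pow_le_pow_left₀ (by norm_num) (by norm_num) N).trans
          (pow_le_pow_right₀ (by norm_num) (by omega)))) ?_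
      rw [div_eq_mul_one_div]
      linarith
    have p0 : (0:ℝ) < (1 / 2) ^ (k + N) := by positivity
    have p1 : (0:ℝ) < C / 4 ^ (k + N + 1) := by positivity
    rw [← mul_div_assoc, mul_div_right_comm] at h3
    rw [mem_closedBall, Real.dist_eq, mul_div_assoc]
    have h10 : (1 / 2 : ℝ) ^ (k + N) ≤ 4 * r := by nlinarith [(abs_le.1 h8).1]
    nlinarith
  have h2 : ∀ k : ℕ, volume (⋃ t ∈ TT (k + N + 1) 0 ((1 / 2) ^ (k + N)),
      closedBall ‖pt t ((1 / 2) ^ (k + N) / 4 ^ (k + N + 1))‖ (4 * r * C / 4 ^ (k + N + 1)))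
      ≤ ENNReal.ofReal (4 * r * C * (1 / 2) ^ N * (1 / 2) ^ k) := fun k => by
    refine (measure_biUnion_finset_le _ _).trans ?_
    simp only [Real.volume_closedBall, Finset.sum_const, nsmul_eq_mul]
    rw [← ENNReal.ofReal_natCast, ← ENNReal.ofReal_mul (by positivity)]
    refine ENNReal.ofReal_le_ofReal ((mul_le_mul_of_nonneg_right
      (show ((TT (k + N + 1) 0 ((1 / 2) ^ (k + N))).card : ℝ) ≤ 2 ^ (k + N + 1) by
        exact_mod_cast TT_card _ _ _) (by positivity)).trans (le_of_eq ?_))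
    rw [q, one_div_pow, one_div_pow]
    field_simp
    ring
  have h3 := (measure_mono h1).trans ((measure_iUnion_le _).trans (ENNReal.tsum_le_tsum h2))
  rw [← ENNReal.ofReal_tsum_of_nonneg (fun _ => by positivity) (summable_geometric_two.mul_left _),
    tsum_mul_left, tsum_geometric_two] at h3
  refine (ENNReal.toReal_le_of_le_ofReal (by positivity) h3).trans_lt ?_
  rw [lt_div_iff₀ (by positivity)] at N1
  have p0 : 0 < (1 / 2 : ℝ) ^ N * C := by positivity
  nlinarith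

end Pool.Agent.H88.Force
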