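import Mathlib

namespace Pool.Agent.H88.Fp

open Filter Topology

/-- `J : X → Y` is a Banach envelope map of `(X, ν)`. -/
structure IsEnvelope (𝕜 : Type) [RCLike 𝕜] {X Y : Type} [AddCommGroup X] [Module 𝕜 X]
    (ν : X → ℝ) [NormedAddCommGroup Y] [NormedSpace 𝕜 Y] (J : X →ₗ[𝕜] Y) : Prop where
  complete : CompleteSpace Y
  contr : ∀ x, ‖J x‖ ≤ ν x
  univ : ∀ (Z : Type) [NormedAddCommGroup Z] [NormedSpace 𝕜 Z] [CompleteSpace Z]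
    (T : X →ₗ[𝕜] Z), (∀ x, ‖T x‖ ≤ ν x) → ∃ S : Y →L[𝕜] Z, ‖S‖ ≤ 1 ∧ ∀ x, S (J x) = T x

/-- Weakly null sequences of `Y` are norm null. -/
def Schur (𝕜 : Type) [RCLike 𝕜] (Y : Type) [NormedAddCommGroup Y] [NormedSpace 𝕜 Y] : Prop :=
  ∀ y : ℕ → Y, (∀ g : Y →L[𝕜] 𝕜, Tendsto (fun n => g (y n)) atTop (𝓝 0)) →
    Tendsto (fun n => ‖y n‖) atTop (𝓝 0)

end Pool.Agent.H88.Fp
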