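import Mathlib
import Pool.Agent.H88.Ap3

/-! A `p`-Banach space that is its own free `p`-space. -/

namespace Pool.Agent.H88.Fx

open Pool.Agent.H88.Fp Pool.Agent.H88.Pex Filter Topology Finsupp

inductive Tm : Type
  | atom : Tm
  | nil : Tm
  | cons : ℝ → Tm → Tm → Tm

noncomputable def val : Tm → Tm →₀ ℝ
  | .atom => single .atom 1
  | .nil => 0
  | .cons a t r => single t a + val r

lemma val_surj (μ : Tm →₀ ℝ) : ∃ t, val t = μ := by
  induction μ using Finsupp.induction with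
  | zero => exact ⟨.nil, rfl⟩
  | single_add t a f _ _ ih =>
    obtain ⟨r, rfl⟩ := ih
    exact ⟨.cons a t r, rfl⟩

noncomputable def wt (p : ℝ) : Tm → ℝ
  | .atom => 1
  | .nil => 0
  | .cons a t r => ‖a‖ ^ p * wt p t + wt p r

def ev : Tm → ℝ
  | .atom => 1
  | .nil => 0
  | .cons a t r => a * ev t + ev r

lemma ev_val : ∀ t, linearCombination ℝ ev (val t) = ev t
  | .atom => by simp [val]
  | .nil => by simp [val, ev]
  | .cons a t r => by simp [val, ev, ev_val r]

structure Good (p : ℝ) (g : (Tm →₀ ℝ) → ℝ) : Prop where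
  add : ∀ u v, g (u + v) ≤ g u + g v
  smul : ∀ (c : ℝ) v, g (c • v) = ‖c‖ ^ p * g v
  nil : g (single .nil 1) ≤ 0
  atom : g (single .atom 1) ≤ 1
  lip : ∀ s t, g (single s 1 - single t 1) ≤ g (val s - val t)

variable {p : ℝ} {g : (Tm →₀ ℝ) → ℝ}

lemma Good.le (h : Good p g) (hp : 0 < p) : ∀ t, g (val t) ≤ wt p t
  | .atom => h.atom
  | .nil => by simpa [hp.ne'] using! (h.smul 0 0).le
  | .cons a t r => by
    have a1 := h.add (single t 1 - single .nil 1) (single .nil 1)
    have a2 := h.lip t .nil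
    rw [sub_add_cancel] at a1
    rw [show val .nil = 0 from rfl, sub_zero] at a2
    refine (h.add _ _).trans (add_le_add ?_ (h.le hp r))
    rw [← smul_single_one, h.smul]
    exact mul_le_mul_of_nonneg_left (by linarith [h.nil, h.le hp t]) (by positivity)

lemma good_ev (hp : 0 < p) (hp1 : p ≤ 1) : Good p fun μ => ‖linearCombination ℝ ev μ‖ ^ p :=
  ⟨fun u v => (Real.rpow_le_rpow (norm_nonneg _) (map_add (linearCombination ℝ ev) u v ▸
      norm_add_le _ _) hp.le).trans
      (Real.rpow_add_le_add_rpow (norm_nonneg _) (norm_nonneg _) hp.le hp1),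
    fun c v => by rw [map_smul, norm_smul, Real.mul_rpow (norm_nonneg _) (norm_nonneg _)],
    by simp [ev, hp.ne'], by simp [ev], fun s t => by simp [ev_val]⟩

lemma exists_top (hp : 0 < p) (hp1 : p ≤ 1) : ∃ q, Good p q ∧ ∀ g, Good p g → ∀ μ, g μ ≤ q μ := by
  have : Nonempty {g // Good p g} := ⟨⟨_, good_ev hp hp1⟩⟩
  have b : ∀ μ, BddAbove (Set.range fun g : {g // Good p g} => g.1 μ) := fun μ => by
    obtain ⟨t, rfl⟩ := val_surj μ
    exact ⟨_, by rintro _ ⟨g, rfl⟩; exact g.2.le hp t⟩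
  refine ⟨fun μ => ⨆ g : {g // Good p g}, g.1 μ, ⟨fun u v => ciSup_le fun g => (g.2.add u v).trans
    (add_le_add (le_ciSup (b u) g) (le_ciSup (b v) g)), fun c v => ?_, ciSup_le fun g => g.2.nil,
    ciSup_le fun g => g.2.atom, fun s t => ciSup_mono (b _) fun g => g.2.lip s t⟩,
    fun g hg μ => le_ciSup (b μ) ⟨g, hg⟩⟩
  rw [Real.mul_iSup_of_nonneg (by positivity)]
  exact iSup_congr fun g => g.2.smul c v

theorem exists_fix (hp : 0 < p) (hp1 : p ≤ 1) :
    ∃ (X : Type) (_ : NormedAddCommGroup X) (_ : Module ℝ X) (δ : X → X) (l : X →ₗ[ℝ] ℝ),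
      CompleteSpace X ∧ PS ℝ p X ∧ (∃ e, l e = 1) ∧ (∀ x, ‖l x‖ ^ p ≤ ‖x‖) ∧ δ 0 = 0 ∧
      (∀ x y, ‖δ x - δ y‖ ≤ ‖x - y‖) ∧
      (∀ μ, μ ∈ closure (Submodule.span ℝ (δ '' Set.univ) : Set X)) ∧
      ∀ (Y : Type) [NormedAddCommGroup Y] [Module ℝ Y] [CompleteSpace Y], PS ℝ p Y →
        ∀ (f : X → Y) (L : ℝ), f 0 = 0 → 0 ≤ L → (∀ x y, ‖f x - f y‖ ≤ L * ‖x - y‖) →
          ∃ T : X →ₗ[ℝ] Y, (∀ x, T (δ x) = f x) ∧ ∀ μ, ‖T μ‖ ≤ L * ‖μ‖ := by
  obtain ⟨q, hq, top⟩ := exists_top hp hp1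
  obtain ⟨X, _, _, j, h1, h2, h3, h4, h5⟩ := exists_compl (𝕜 := ℝ) (p := p) q
    (by simpa [hp.ne'] using hq.smul 0 0) hq.add hq.smul
  have d : DenseRange fun t => j (val t) := h3.mono (by
    rintro _ ⟨μ, rfl⟩
    obtain ⟨t, rfl⟩ := val_surj μ
    exact ⟨t, rfl⟩)
  have l1 : ∀ s t, ‖j (single s 1) - j (single t 1)‖ ≤ ‖j (val s) - j (val t)‖ := fun s t => by
    rw [← map_sub, ← map_sub, h4, h4]
    exact hq.lip s t
  obtain ⟨δ, d1, d2⟩ : ∃ δ : X → X, LipschitzWith 1 δ ∧ ∀ t, δ (j (val t)) = j (single t 1) := by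
    choose c hc using fun x : Set.range fun t => j (val t) => x.2
    have a : LipschitzWith 1 fun x => j (single (c x) 1) := .of_dist_le_mul fun x y => by
      simpa [Subtype.dist_eq, dist_eq_norm, hc] using l1 (c x) (c y)
    refine ⟨_, Dense.lipschitzWith_extend d a, fun t =>
      (Dense.extend_eq d a.continuous ⟨_, t, rfl⟩).trans ?_⟩
    simpa [hc, sub_eq_zero] using l1 (c ⟨_, t, rfl⟩) t
  obtain ⟨l, b1, b2⟩ := h5 ℝ (linearCombination ℝ ev) (fun t => t ^ p⁻¹)
    (Real.continuous_rpow_const (by positivity)) (by simp [hp.ne']) fun v =>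
      (Real.le_rpow_inv_iff_of_pos (norm_nonneg _) (h4 v ▸ norm_nonneg _) hp).2
        (top _ (good_ev hp hp1) v)
  have z : j (val .nil) = 0 := map_zero j
  refine ⟨X, inferInstance, inferInstance, δ, l, h1, h2, ⟨j (single .atom 1), by simp [b1, ev]⟩,
    fun x => (Real.le_rpow_inv_iff_of_pos (norm_nonneg _) (norm_nonneg _) hp).1 (b2 x),
    (z ▸ d2 .nil :).trans (norm_le_zero_iff.1 ((h4 _).trans_le hq.nil)),
    fun x y => by simpa [dist_eq_norm] using d1.dist_le_mul x y, fun μ => closure_mono ?_ (h3 μ),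
    fun Y _ _ _ hY f L f0 L0 hf => ?_⟩
  · rintro _ ⟨μ, rfl⟩
    induction μ using Finsupp.induction_linear with
    | zero => simp
    | add a b ha hb => exact map_add j a b ▸ add_mem ha hb
    | single e a =>
      rw [← smul_single_one, map_smul]
      exact Submodule.smul_mem _ _ (Submodule.subset_span ⟨_, trivial, d2 e⟩)
  have := hY.cont
  have k : ∀ ε > 0, ∀ μ, ‖linearCombination ℝ (fun t => f (j (val t))) μ‖ / (L + ε) ≤ q μ := by
    intro ε hε μ
    have L1 : 0 < L + ε := by positivity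
    have a : ∀ s t, ‖f (j (val s)) - f (j (val t))‖ / (L + ε) ≤ q (val s - val t) := fun s t => by
      rw [div_le_iff₀' L1, ← h4, map_sub]
      exact (hf _ _).trans (mul_le_mul_of_nonneg_right (by linarith) (norm_nonneg _))
    refine (le_max_right _ _).trans (top (fun μ => max (q μ)
      (‖linearCombination ℝ (fun t => f (j (val t))) μ‖ / (L + ε))) ⟨fun u v => max_le
      ((hq.add u v).trans (add_le_add (le_max_left _ _) (le_max_left _ _))) (le_trans ?_
      (add_le_add (le_max_right _ _) (le_max_right _ _))), fun c v => ?_, max_le hq.nil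
      (by simp [z, f0]), max_le hq.atom ?_, fun s t => le_max_of_le_left (max_le (hq.lip s t)
      (by simpa using a s t))⟩ μ)
    · rw [map_add, ← add_div]
      exact div_le_div_of_nonneg_right (norm_add_le _ _) L1.le
    · rw [hq.smul, map_smul, hY, mul_max_of_nonneg _ _ (by positivity), mul_div_assoc]
    · simpa [z, f0, val] using (a .atom .nil).trans (by simpa [val] using hq.atom)
  obtain ⟨T, t1, t2⟩ := h5 Y (linearCombination ℝ fun t => f (j (val t))) (fun t => L * t)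
    (by fun_prop) (by simp) fun μ => le_of_forall_pos_le_add fun ε hε => by
      have a : 0 ≤ q μ := h4 μ ▸ norm_nonneg _
      have b := (div_le_iff₀' (by positivity)).1 (k (ε / (q μ + 1)) (by positivity) μ)
      have c : ε / (q μ + 1) * q μ ≤ ε := by
        rw [div_mul_eq_mul_div, div_le_iff₀ (by positivity)]
        nlinarith
      linarith
  refine ⟨T, fun x => d.induction_on x (isClosed_eq ((cont_of t2).comp d1.continuous)
    (LipschitzWith.of_dist_le' (K := L) fun x y => by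
      simpa [dist_eq_norm] using hf x y).continuous) fun t => by simp [d2, t1], t2⟩

end Pool.Agent.H88.Fx
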