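import Pool.Agent.H88.Gw1

namespace Pool.Agent.H88.Gw
open Filter Topology Set Submodule BoundedContinuousFunction

theorem hb {V E : Type} [AddCommGroup V] [Module ℝ V] [NormedAddCommGroup E] [NormedSpace ℝ E]
    (J : V →ₗ[ℝ] E) (inj : Function.Injective J) (Φ : V →ₗ[ℝ] ℝ) (h : ∀ c, Φ c ≤ ‖J c‖) :
    ∃ g : E →L[ℝ] ℝ, (∀ z, |g z| ≤ ‖z‖) ∧ ∀ c, g (J c) = Φ c := by
  obtain ⟨g, g1, g2⟩ := exists_extension_of_le_sublinear
    ⟨LinearMap.range J, Φ ∘ₗ (LinearEquiv.ofInjective J inj).symm.toLinearMap⟩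
    (fun u => ‖u‖) (fun c hc u => by rw [norm_smul, Real.norm_eq_abs, abs_of_pos hc])
    norm_add_le (fun u => by
      obtain ⟨f, rfl⟩ := (LinearEquiv.ofInjective J inj).surjective u
      simpa using h f)
  have g3 : ∀ z, |g z| ≤ ‖z‖ := fun z => by
    have := g2 (-z)
    rw [map_neg, norm_neg] at this
    exact abs_le.mpr ⟨by linarith, g2 z⟩
  exact ⟨g.mkContinuous 1 fun z => by simpa using g3 z, g3,
    fun c => by simpa using g1 (LinearEquiv.ofInjective J inj c)⟩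

variable {K : Type} [TopologicalSpace K] [CompactSpace K] [T2Space K]
  {F : Type} [NormedAddCommGroup F] [NormedSpace ℝ F] [FiniteDimensional ℝ F]

theorem sel (E : Submodule ℝ F) (κ : K → E →L[ℝ] ℝ) (hc : ∀ x, Continuous fun k => κ k x)
    (h : ∀ k x, |κ k x| ≤ ‖x‖) {δ : ℝ} (hδ : 0 < δ) : ∃ s : C(K, F →L[ℝ] ℝ),
      ∀ k, (∀ y, |s k y| ≤ ‖y‖) ∧ ∀ x : E, |s k x - κ k x| ≤ δ * ‖x‖ := by
  have hc' : Continuous κ := continuous_clm_apply.mpr hc
  refine exists_continuous_forall_mem_convex_of_local_const (t := fun k => {ψ : F →L[ℝ] ℝ |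
    (∀ y, |ψ y| ≤ ‖y‖) ∧ ∀ x : E, |ψ x - κ k x| ≤ δ * ‖x‖}) (fun k => ?_) fun k => ?_
  · intro p hp q hq a b ha hb' hab
    refine ⟨fun y => ?_, fun x => ?_⟩
    · have h1 := abs_le.mp (hp.1 y)
      have h2 := abs_le.mp (hq.1 y)
      show |a * p y + b * q y| ≤ _
      obtain rfl : b = 1 - a := by linarith
      rw [abs_le]; constructor <;> nlinarith [h1.1, h1.2, h2.1, h2.2]
    · have h1 := abs_le.mp (hp.2 x)
      have h2 := abs_le.mp (hq.2 x)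
      show |a * p x + b * q x - κ k x| ≤ _
      obtain rfl : b = 1 - a := by linarith
      rw [abs_le]; constructor <;> nlinarith [h1.1, h1.2, h2.1, h2.2]
  · obtain ⟨g, g1, g2⟩ := hb E.subtype Subtype.val_injective (κ k).toLinearMap
      fun c => (le_abs_self _).trans (h k c)
    refine ⟨g, ?_⟩
    filter_upwards [(hc'.tendsto k).eventually (Metric.closedBall_mem_nhds (κ k) hδ)] with l hl
    refine ⟨g1, fun x => ?_⟩
    rw [show g x = κ k x from g2 x]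
    have hl' : ‖κ k - κ l‖ ≤ δ := (dist_eq_norm' (κ l) (κ k)).ge.trans hl
    exact ((κ k - κ l).le_opNorm x).trans (mul_le_mul_of_nonneg_right hl' (norm_nonneg _))

theorem null_disj {T I : Type} [TopologicalSpace T] (v : I → T →ᵇ ℝ) (π : T → I)
    (h1 : ∀ i, ‖v i‖ ≤ 1) (h2 : ∀ i t, π t ≠ i → v i t = 0) : Null (range v) := by
  refine ⟨by rintro _ ⟨i, rfl⟩; exact h1 i, fun φ δ hδ => ?_⟩
  have : {i | δ < |φ (v i)|}.Finite := by
    by_contra h
    obtain ⟨N, hN⟩ := exists_nat_gt (‖φ‖ / δ)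
    obtain ⟨s, s1, s2⟩ := Set.Infinite.exists_subset_card_eq h N
    have a : ‖∑ i ∈ s, (SignType.sign (φ (v i)) : ℝ) • v i‖ ≤ 1 := by
      classical
      rw [BoundedContinuousFunction.norm_le zero_le_one]
      intro t
      rw [BoundedContinuousFunction.sum_apply, Finset.sum_eq_ite (π t) fun b _ hb' => by
        simp [h2 b t hb'.symm]]
      split_ifs
      · refine (BoundedContinuousFunction.norm_coe_le_norm _ t).trans ?_
        rw [norm_smul]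
        refine mul_le_one₀ ?_ (norm_nonneg _) (h1 _)
        rcases SignType.sign (φ (v (π t))) <;> simp
      · simp
    have b := (le_abs_self _).trans
      ((φ.le_opNorm _).trans (mul_le_of_le_one_right (norm_nonneg _) a))
    have c : ∑ i ∈ s, δ ≤ φ (∑ i ∈ s, (SignType.sign (φ (v i)) : ℝ) • v i) := by
      rw [map_sum]
      refine Finset.sum_le_sum fun i hi => ?_
      rw [map_smul, smul_eq_mul, sign_mul_self]
      exact (s1 hi).le
    rw [Finset.sum_const, s2, nsmul_eq_mul] at c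
    rw [div_lt_iff₀ hδ] at hN
    linarith
  refine (this.image v).subset ?_
  rintro _ ⟨⟨i, rfl⟩, h⟩
  exact ⟨i, h, rfl⟩

def TT (K : Type) : Type :=
  {t : (Set (K × (ℕ → ℝ)) × ℝ) × K × (ℕ → ℝ) // t.2 ∈ t.1.1 ∧ ∀ m, |t.2.2 m| ≤ 1}

instance (K : Type) : TopologicalSpace (TT K) := ⊥
instance (K : Type) : DiscreteTopology (TT K) := ⟨rfl⟩

noncomputable def J0 (K : Type) [TopologicalSpace K] [CompactSpace K] :
    C(K, ℝ) →ₗᵢ[ℝ] (TT K →ᵇ ℝ) where
  toFun h := ofNormedAddCommGroupDiscrete (fun t => h t.1.2.1) ‖h‖ fun _ => h.norm_coe_le_norm _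
  map_add' _ _ := by ext; rfl
  map_smul' _ _ := by ext; rfl
  norm_map' h := le_antisymm
    ((BoundedContinuousFunction.norm_le (norm_nonneg h)).mpr fun _ => h.norm_coe_le_norm _)
    ((ContinuousMap.norm_le _ (norm_nonneg _)).mpr fun k =>
      BoundedContinuousFunction.norm_coe_le_norm (β := ℝ) (ofNormedAddCommGroupDiscrete
        (fun t : TT K => h t.1.2.1) ‖h‖ fun _ => h.norm_coe_le_norm _)
        ⟨((univ, 0), k, 0), mem_univ _, fun _ => by simp⟩)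

open Classical in
noncomputable def uu (m : ℕ) (i : Set (K × (ℕ → ℝ)) × ℝ) : TT K →ᵇ ℝ :=
  ofNormedAddCommGroupDiscrete (fun t => if t.1.1 = i then t.1.2.2 m else 0) 1 fun t => by
    split_ifs
    · exact t.2.2 m
    · simp

structure Ban where
  X : Type
  [a : NormedAddCommGroup X]
  [b : NormedSpace ℝ X]
  p : PP X

attribute [instance] Ban.a Ban.b

theorem enl [Nonempty K] (hK : PP C(K, ℝ)) : ∃ (W : Ban) (J : C(K, ℝ) →ₗᵢ[ℝ] W.X),
    (∃ u : ℝ → W.X, ∀ r s, r ≠ s → 1 ≤ ‖u r - u s‖) ∧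
    ∀ (F : Type) [NormedAddCommGroup F] [NormedSpace ℝ F] [FiniteDimensional ℝ F]
      (s : C(K, F →L[ℝ] ℝ)) (B : Set (K × (F →L[ℝ] ℝ))), (∀ k y, |s k y| ≤ ‖y‖) →
      (∀ q ∈ B, ∀ y, |q.2 y| ≤ ‖y‖) → ∃ g : F →ₗ[ℝ] W.X,
        (∀ y (h : C(K, ℝ)) (c : ℝ), (∀ k, |s k y - h k| ≤ c) → (∀ q ∈ B, |q.2 y - h q.1| ≤ c) →
          ‖g y - J h‖ ≤ c) ∧ ∀ q ∈ B, ∀ y, |q.2 y| ≤ ‖g y‖ := by
  classical
  obtain ⟨S, h1, h2⟩ := hK
  let M : ℕ → Set (TT K →ᵇ ℝ) := fun n => Nat.casesOn n (J0 K '' S) fun m => range (uu m)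
  have hu : ∀ m i (t : TT K), uu m i t = if t.1.1 = i then t.1.2.2 m else 0 := fun _ _ _ => rfl
  have hM : ∀ n, Null (M n) := fun n => by
    cases n with
    | zero => exact h1.map _
    | succ m =>
      refine null_disj (uu m) (fun t => t.1.1) (fun i => ?_) fun i t h => if_neg h
      rw [BoundedContinuousFunction.norm_le zero_le_one]
      intro t
      rw [hu]
      split_ifs
      · exact t.2.2 m
      · simp
  let Y := (span ℝ (⋃ n, M n)).topologicalClosure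
  have y1 : ∀ h, J0 K h ∈ Y := mem_clos h2 _ (subset_iUnion M 0)
  have y2 : ∀ m i, uu m i ∈ Y := fun m i =>
    le_topologicalClosure _ (subset_span (mem_iUnion.mpr ⟨m + 1, i, rfl⟩))
  let J : C(K, ℝ) →ₗᵢ[ℝ] Y := ⟨(J0 K).toLinearMap.codRestrict Y y1, fun h => (J0 K).norm_map h⟩
  refine ⟨⟨Y, pp_clos M hM⟩, J, ⟨fun r => ⟨uu 0 (univ, r), y2 _ _⟩, fun r s hrs => ?_⟩,
    fun F _ _ _ s B s1 s2 => ?_⟩
  · have := (uu (K := K) 0 (univ, r) - uu 0 (univ, s)).norm_coe_le_norm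
      ⟨((univ, r), Classical.arbitrary K, 1), mem_univ _, fun _ => by simp⟩
    simpa [hu, hrs] using this
  let b := Module.finBasis ℝ F
  obtain ⟨C, c0, c1⟩ : ∃ C : ℝ, 0 < C ∧ ∀ m, 2 * ‖b m‖ ≤ C :=
    ⟨2 * ∑ m, ‖b m‖ + 1, by positivity, fun m => by
      linarith [Finset.single_le_sum (f := fun m => ‖b m‖) (fun _ _ => norm_nonneg _)
        (Finset.mem_univ m)]⟩
  let A : Set (K × (ℕ → ℝ)) :=
    {p | ∃ q ∈ B, q.1 = p.1 ∧ ∀ m, C * p.2 m.1 = q.2 (b m) - s q.1 (b m)}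
  let g : F →ₗ[ℝ] Y := b.constr ℝ fun m =>
    J ⟨fun k => s k (b m), s.continuous.clm_apply continuous_const⟩ + C • ⟨uu m.1 (A, 0), y2 _ _⟩
  have g1 : ∀ m t, (g (b m)).1 t =
      s t.1.2.1 (b m) + C * if t.1.1 = (A, 0) then t.1.2.2 m else 0 := fun m t => by
    simp only [g, Module.Basis.constr_basis]
    rfl
  have g2 : ∀ t (ψ : F →L[ℝ] ℝ), (∀ m, (g (b m)).1 t = ψ (b m)) → ∀ y, (g y).1 t = ψ y :=
    fun t ψ h => LinearMap.congr_fun (b.ext (f₁ := (BoundedContinuousFunction.evalCLM ℝ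
      t).toLinearMap ∘ₗ Y.subtype ∘ₗ g) (f₂ := ψ.toLinearMap) h)
  refine ⟨g, fun y h c a1 a2 => ?_, fun q hq y => ?_⟩
  · refine (BoundedContinuousFunction.norm_le
      ((abs_nonneg _).trans (a1 (Classical.arbitrary K)))).mpr fun t => ?_
    show |(g y).1 t - h t.1.2.1| ≤ c
    by_cases ht : t.1.1 = (A, 0)
    · obtain ⟨q, q1, q2, q3⟩ : t.1.2 ∈ A := by
        have := t.2.1
        rwa [ht] at this
      rw [g2 t q.2 fun m => by rw [g1, if_pos ht, q3, q2]; ring, ← q2]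
      exact a2 q q1
    · rw [g2 t (s t.1.2.1) fun m => by rw [g1, if_neg ht]; ring]
      exact a1 _
  · let w : ℕ → ℝ := fun m =>
      if h : m < Module.finrank ℝ F then (q.2 (b ⟨m, h⟩) - s q.1 (b ⟨m, h⟩)) / C else 0
    have hw : ∀ m : Fin (Module.finrank ℝ F), C * w m.1 = q.2 (b m) - s q.1 (b m) := fun m => by
      simp only [w, dif_pos m.2]
      rw [mul_div_cancel₀ _ c0.ne']
    let t : TT K := ⟨((A, 0), q.1, w), ⟨q, hq, rfl, hw⟩, fun m => by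
      simp only [w]
      split_ifs with h
      · rw [abs_div, abs_of_pos c0, div_le_one c0]
        linarith [abs_sub (q.2 (b ⟨m, h⟩)) (s q.1 (b ⟨m, h⟩)), s2 q hq (b ⟨m, h⟩),
          s1 q.1 (b ⟨m, h⟩), c1 ⟨m, h⟩]
      · simp⟩
    rw [← g2 t q.2 fun m => by
      rw [g1, if_pos rfl]
      show s q.1 (b m) + C * w m.1 = _
      rw [hw]; ring]
    exact (g y).1.norm_coe_le_norm t

def Ext {Z W : Type} [NormedAddCommGroup Z] [NormedSpace ℝ Z] [NormedAddCommGroup W]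
    [NormedSpace ℝ W] (j : Z →ₗᵢ[ℝ] W) : Prop :=
  ∀ (F : Type) [NormedAddCommGroup F] [NormedSpace ℝ F] [FiniteDimensional ℝ F]
    (E : Submodule ℝ F) (e : E →ₗ[ℝ] Z) (δ : ℝ), 0 < δ → δ < 1 →
    (∀ x, (1 - δ) * ‖x‖ ≤ ‖e x‖ ∧ ‖e x‖ ≤ ‖x‖) →
    ∃ g : F →ₗ[ℝ] W, (∀ y, ‖g y‖ = ‖y‖) ∧ ∀ x : E, ‖g x - j (e x)‖ ≤ δ * ‖x‖

theorem step (Z : Ban) : ∃ (W : Ban) (j : Z.X →ₗᵢ[ℝ] W.X), Ext j ∧
    ∃ u : ℝ → W.X, ∀ r s, r ≠ s → 1 ≤ ‖u r - u s‖ := by
  obtain ⟨S, h1, h2⟩ := Z.p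
  let K : Type := {φ : WeakDual ℝ Z.X | ∀ z, |φ z| ≤ ‖z‖}
  have : CompactSpace K := by
    refine isCompact_iff_compactSpace.mp ?_
    convert WeakDual.isCompact_closedBall (0 : StrongDual ℝ Z.X) 1
    ext φ
    simp only [mem_ofPred_eq, mem_preimage, mem_closedBall_zero_iff]
    rw [ContinuousLinearMap.opNorm_le_iff zero_le_one]
    simp
  have : Nonempty K := ⟨⟨0, fun z => by
    show |(0 : ℝ)| ≤ _
    simp⟩⟩
  have dv : ∀ {G : Type} [NormedAddCommGroup G] [NormedSpace ℝ G] (y : G),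
      ∃ ψ : G →L[ℝ] ℝ, (∀ z, |ψ z| ≤ ‖z‖) ∧ ψ y = ‖y‖ := fun y => by
    obtain ⟨ψ, a, b⟩ := exists_dual_vector'' ℝ y
    exact ⟨ψ, fun z => (ψ.le_opNorm z).trans (mul_le_of_le_one_left (norm_nonneg _) a), b⟩
  let ev : Z.X →ₗᵢ[ℝ] C(K, ℝ) :=
    { toFun := fun z => ⟨fun k => k.1 z, (WeakDual.eval_continuous z).comp continuous_subtype_val⟩
      map_add' := fun _ _ => by ext k; exact map_add k.1 _ _
      map_smul' := fun _ _ => by ext k; exact map_smul k.1 _ _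
      norm_map' := fun z => by
        refine le_antisymm ((ContinuousMap.norm_le _ (norm_nonneg _)).mpr fun k => k.2 z) ?_
        obtain ⟨ψ, a, b⟩ := dv z
        refine le_trans ?_ (ContinuousMap.norm_coe_le_norm _ (⟨ψ, a⟩ : K))
        exact b.ge.trans (le_abs_self _) }
  obtain ⟨W, J, w1, w2⟩ := enl (pp_ck (ev '' S) (h1.map ev).1 (fun k δ hδ => by
    refine ((h1.2 k.1 δ hδ).image ev).subset ?_
    rintro _ ⟨⟨x, hx, rfl⟩, h⟩
    exact ⟨x, ⟨hx, h⟩, rfl⟩) fun k l hkl => by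
      by_contra! h
      exact hkl (Subtype.ext (ContinuousLinearMap.ext_on h2 fun x hx => h _ ⟨x, hx, rfl⟩)))
  refine ⟨W, J.comp ev, fun F _ _ _ E e δ d0 d1 he => ?_, w1⟩
  obtain ⟨s, hs⟩ := sel E (fun k : K => (k.1 : Z.X →L[ℝ] ℝ) ∘L LinearMap.toContinuousLinearMap e)
    (fun x => (ev (e x)).continuous) (fun k x => (k.2 _).trans (he x).2) d0
  obtain ⟨g, g1, g2⟩ := w2 F s {q | (∀ y, |q.2 y| ≤ ‖y‖) ∧ ∀ x : E, |q.2 x - q.1.1 (e x)| ≤ δ * ‖x‖}
    (fun k => (hs k).1) fun q hq => hq.1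
  refine ⟨g, fun y => le_antisymm ?_ ?_, fun x => g1 x (ev (e x)) _ (fun k => (hs k).2 x)
    fun q hq => hq.2 x⟩
  · simpa using g1 y 0 ‖y‖ (fun k => by simpa using (hs k).1 y) fun q hq => by simpa using hq.1 y
  · obtain ⟨ψ, a, b⟩ := dv y
    obtain ⟨k, k1, k2⟩ := hb e ((injective_iff_map_eq_zero e).mpr fun x hx => by
      have := (he x).1
      rw [hx, norm_zero] at this
      exact norm_le_zero_iff.mp (by nlinarith [norm_nonneg x]))
      ((1 - δ) • (ψ.toLinearMap ∘ₗ E.subtype)) fun x => le_trans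
        (mul_le_mul_of_nonneg_left ((le_abs_self _).trans (a x)) (by linarith)) (he x).1
    have := g2 (⟨k, k1⟩, ψ) ⟨a, fun x => by
      show |ψ x - k (e x)| ≤ _
      rw [k2]
      show |ψ x - (1 - δ) * ψ x| ≤ _
      rw [show ψ x - (1 - δ) * ψ x = δ * ψ x by ring, abs_mul, abs_of_pos d0]
      exact mul_le_mul_of_nonneg_left (a x) d0.le⟩ y
    exact (b.ge.trans (le_abs_self _)).trans this

end Pool.Agent.H88.Gw
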