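import Pool.Agent.H88.GbDefs
import Pool.Agent.H88.Gw2

namespace Pool.Agent.H88.Gb
open Filter Topology Set Submodule

structure Dat (ι : Type) [LinearOrder ι] where
  S : ι → Finset ι
  a : ι → ι → ℝ
  lt : ∀ β, ∀ γ ∈ S β, γ < β
  le : ∀ β, ∑ γ ∈ S β, |a β γ| ≤ 1

abbrev L (ι : Type) := lp (fun _ : ι => ℝ) ⊤

variable {ι : Type} [LinearOrder ι] [WellFoundedLT ι] (A : Dat ι)

open Classical in
noncomputable def H (D : Set ι) (x : ι → ℝ) : ι → ℝ :=
  (wellFounded_lt (α := ι)).fix fun β r =>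
    if β ∈ D then x β else ∑ γ ∈ (A.S β).attach, A.a β γ * r γ (A.lt β _ γ.2)

open Classical in
theorem H_eq (D : Set ι) (x : ι → ℝ) (β : ι) :
    H A D x β = if β ∈ D then x β else ∑ γ ∈ (A.S β).attach, A.a β γ * H A D x γ :=
  WellFounded.fix_eq _ _ _

def dl (β : ι) : (ι → ℝ) →ₗ[ℝ] ℝ where
  toFun y := y β - ∑ γ ∈ A.S β, A.a β γ * y γ
  map_add' y z := by simp only [Pi.add_apply, mul_add, Finset.sum_add_distrib]; ring
  map_smul' c y := by
    simp only [Pi.smul_apply, smul_eq_mul, RingHom.id_apply, mul_sub, Finset.mul_sum,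
      mul_left_comm]

theorem H_mem {D : Set ι} (x : ι → ℝ) {β : ι} (h : β ∈ D) : H A D x β = x β := by
  rw [H_eq, if_pos h]

theorem H_not {D : Set ι} (x : ι → ℝ) {β : ι} (h : β ∉ D) : dl A β (H A D x) = 0 := by
  show H A D x β - _ = 0
  rw [H_eq, if_neg h, Finset.sum_attach (A.S β) fun γ => A.a β γ * H A D x γ, sub_self]

theorem maxp' (y : ι → ℝ) (D : Set ι) {c : ℝ} (hc : 0 ≤ c) (β : ι)
    (h1 : ∀ γ ≤ β, γ ∈ D → |y γ| ≤ c) (h2 : ∀ γ ≤ β, γ ∉ D → dl A γ y = 0) : |y β| ≤ c := by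
  induction β using WellFoundedLT.induction with
  | ind β ih =>
    by_cases h : β ∈ D
    · exact h1 β le_rfl h
    · rw [sub_eq_zero.mp (h2 β le_rfl h)]
      refine (Finset.abs_sum_le_sum_abs _ _).trans ((Finset.sum_le_sum (g := fun γ => |A.a β γ| * c)
        fun γ hγ => ?_).trans ?_)
      · have := (A.lt β γ hγ)
        rw [abs_mul]
        exact mul_le_mul_of_nonneg_left (ih γ this (fun δ hδ => h1 δ (hδ.trans this.le))
          fun δ hδ => h2 δ (hδ.trans this.le)) (abs_nonneg _)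
      · rw [← Finset.sum_mul]
        exact mul_le_of_le_one_left hc (A.le β)

theorem maxp (y : L ι) (D : Set ι) {c : ℝ} (hc : 0 ≤ c)
    (h1 : ∀ γ ∈ D, |y γ| ≤ c) (h2 : ∀ γ ∉ D, dl A γ y = 0) : ‖y‖ ≤ c :=
  lp.norm_le_of_forall_le hc fun β => maxp' A y D hc β (fun γ _ => h1 γ) fun γ _ => h2 γ

theorem uniq (y z : ι → ℝ) (D : Set ι) (h1 : ∀ γ ∈ D, y γ = z γ)
    (h2 : ∀ γ ∉ D, dl A γ y = dl A γ z) : y = z := funext fun β =>
  sub_eq_zero.mp (abs_nonpos_iff.mp (maxp' A (y - z) D le_rfl β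
    (fun γ _ h => by simp [h1 γ h]) fun γ _ h => by rw [map_sub, h2 γ h, sub_self]))

theorem H_le (D : Set ι) (x : L ι) (β : ι) : |H A D x β| ≤ ‖x‖ :=
  maxp' A _ D (norm_nonneg _) β (fun γ _ h => by
    rw [H_mem A _ h]; exact lp.norm_apply_le_norm ENNReal.top_ne_zero x γ)
    fun γ _ h => H_not A _ h

noncomputable def HL (D : Set ι) : L ι →L[ℝ] L ι :=
  LinearMap.mkContinuous
    { toFun := fun x => ⟨H A D x, memℓp_infty ⟨‖x‖, by rintro _ ⟨β, rfl⟩; exact H_le A D x β⟩⟩
      map_add' := fun x y => lp.ext (uniq A _ (H A D x + H A D y) D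
        (fun γ h => by simp [H_mem A _ h]) fun γ h => by simp [H_not A _ h])
      map_smul' := fun c x => lp.ext (uniq A _ (c • H A D x) D
        (fun γ h => by simp [H_mem A _ h]) fun γ h => by simp [H_not A _ h]) } 1
    fun x => by
      rw [one_mul]
      exact lp.norm_le_of_forall_le (norm_nonneg _) (H_le A D x)

theorem HL_le (D : Set ι) (x : L ι) : ‖HL A D x‖ ≤ ‖x‖ :=
  lp.norm_le_of_forall_le (norm_nonneg _) (H_le A D x)

theorem HL_fix {D : Set ι} {x : L ι} (h : ∀ γ ∉ D, dl A γ x = 0) : HL A D x = x :=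
  lp.ext (uniq A (H A D x) x D (fun _ h => H_mem A _ h) fun γ h' => by rw [H_not A _ h', h γ h'])

open Classical in
noncomputable def ee (γ : ι) : L ι := HL A {γ} (lp.single ⊤ γ 1)

theorem ee_self (γ : ι) : ee A γ γ = 1 := by
  classical
  exact (H_mem A _ (mem_singleton γ)).trans (by simp)

theorem ee_not {γ β : ι} (h : β ≠ γ) : dl A β (ee A γ) = 0 := H_not A _ h

theorem ee_lt {γ β : ι} (h : β < γ) : ee A γ β = 0 :=
  abs_nonpos_iff.mp (maxp' A _ ∅ le_rfl β (fun _ _ h => absurd h (notMem_empty _))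
    fun _ hδ _ => ee_not A (hδ.trans_lt h).ne)

theorem ee_dl (γ : ι) : dl A γ (ee A γ) = 1 := by
  show ee A γ γ - _ = 1
  rw [ee_self, Finset.sum_eq_zero fun δ hδ => by rw [ee_lt A (A.lt γ δ hδ), mul_zero], sub_zero]

theorem mem_sp {x : L ι} (D : Finset ι) (h : ∀ γ ∉ D, dl A γ x = 0) :
    x ∈ span ℝ (range (ee A)) := by
  classical
  have : x = ∑ γ ∈ D, dl A γ x • ee A γ := by
    refine lp.ext (uniq A _ _ ∅ (fun _ h => absurd h (notMem_empty _)) fun β _ => ?_)
    rw [lp.coeFn_sum, map_sum, Finset.sum_eq_ite β fun γ _ hγ => by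
      rw [lp.coeFn_smul, map_smul, ee_not A hγ.symm, smul_zero]]
    split_ifs with hβ
    · rw [lp.coeFn_smul, map_smul, ee_dl, smul_eq_mul, mul_one]
    · exact h β hβ
  rw [this]
  exact sum_mem fun γ _ => smul_mem _ _ (subset_span ⟨γ, rfl⟩)

theorem sp_fin {x : L ι} (h : x ∈ span ℝ (range (ee A))) :
    ∃ D : Finset ι, ∀ γ ∉ D, dl A γ x = 0 := by
  classical
  induction h using span_induction with
  | mem x hx =>
    obtain ⟨γ, rfl⟩ := hx
    exact ⟨{γ}, fun β hβ => ee_not A (by simpa using hβ)⟩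
  | zero => exact ⟨∅, fun _ _ => map_zero _⟩
  | add x y _ _ h1 h2 =>
    obtain ⟨D, h1⟩ := h1
    obtain ⟨E, h2⟩ := h2
    refine ⟨D ∪ E, fun γ hγ => ?_⟩
    rw [Finset.mem_union, not_or] at hγ
    rw [lp.coeFn_add, map_add, h1 γ hγ.1, h2 γ hγ.2, add_zero]
  | smul c x _ h =>
    obtain ⟨D, h⟩ := h
    exact ⟨D, fun γ hγ => by rw [lp.coeFn_smul, map_smul, h γ hγ, smul_zero]⟩

noncomputable abbrev XX : Submodule ℝ (L ι) := (span ℝ (range (ee A))).topologicalClosure

noncomputable def ex (γ : ι) : XX A := ⟨ee A γ, le_topologicalClosure _ (subset_span ⟨γ, rfl⟩)⟩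

theorem ex_dense : Dense (span ℝ (range (ex A)) : Set (XX A)) := fun y => by
  rw [closure_subtype]
  refine closure_mono ?_ y.2
  have : span ℝ (range (ee A)) ≤ (span ℝ (range (ex A))).map (Submodule.subtype _) :=
    span_le.mpr (by rintro _ ⟨γ, rfl⟩; exact ⟨ex A γ, subset_span ⟨γ, rfl⟩, rfl⟩)
  exact this

theorem basis : MonoBasis (ex A) := by
  let D : WithTop ι → Set ι := fun β => {γ | (γ : WithTop ι) < β}
  have p1 : ∀ β (α : ι), (α : WithTop ι) < β → HL A (D β) (ee A α) = ee A α := fun β α h =>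
    HL_fix A fun γ hγ => ee_not A fun e => hγ (e ▸ h)
  have p2 : ∀ β (α : ι), β ≤ (α : WithTop ι) → HL A (D β) (ee A α) = 0 := fun β α h =>
    lp.ext (uniq A (H A (D β) (ee A α)) 0 (D β) (fun γ hγ => (H_mem A _ hγ).trans
      (ee_lt A (WithTop.coe_lt_coe.mp (lt_of_lt_of_le hγ h))))
      fun γ hγ => (H_not A _ hγ).trans (map_zero _).symm)
  have p3 : ∀ β, ∀ x ∈ XX A, HL A (D β) x ∈ XX A := fun β x hx => by
    refine map_mem_closure (HL A (D β)).continuous hx fun y hy => ?_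
    have : span ℝ (range (ee A)) ≤ (span ℝ (range (ee A))).comap (HL A (D β)).toLinearMap :=
      span_le.mpr (by
        rintro _ ⟨α, rfl⟩
        show HL A (D β) (ee A α) ∈ span ℝ (range (ee A))
        rcases lt_or_ge (α : WithTop ι) β with h | h
        · rw [p1 β α h]; exact subset_span ⟨α, rfl⟩
        · rw [p2 β α h]; exact zero_mem _)
    exact this hy
  let P : WithTop ι → XX A →L[ℝ] XX A := fun β =>
    (HL A (D β) ∘L (XX A).subtypeL).codRestrict _ fun x => p3 β x x.2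
  have p4 : ∀ β x, ‖P β x‖ ≤ ‖x‖ := fun β x => HL_le A _ x.1
  refine ⟨fun α h => ?_, ex_dense A, P, fun β x => Subtype.ext (HL_fix A fun γ hγ => H_not A _ hγ),
    fun β α h => Subtype.ext (p1 β α h), fun β α h => Subtype.ext (p2 β α h), ?_, fun x => ?_,
    fun β => ContinuousLinearMap.opNorm_le_bound _ zero_le_one fun x => by simpa using p4 β x⟩
  · have := ee_self A α
    rw [show ee A α = 0 from congrArg Subtype.val h] at this
    simp at this
  · ext1 x
    exact Subtype.ext (HL_fix A fun γ hγ => absurd (WithTop.coe_lt_top γ) hγ)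
  · let _ : TopologicalSpace (WithTop ι) := Preorder.topology _
    have : OrderTopology (WithTop ι) := ⟨rfl⟩
    have c1 : ∀ y ∈ span ℝ (range (ex A)), Continuous fun β => P β y := fun y hy => by
      induction hy using span_induction with
      | mem x hx =>
        obtain ⟨α, rfl⟩ := hx
        rw [continuous_iff_continuousAt]
        intro β
        rcases lt_or_ge (α : WithTop ι) β with h | h
        · refine (continuousAt_const (y := ex A α)).congr ?_
          filter_upwards [Ioi_mem_nhds h] with δ hδ using (Subtype.ext (p1 δ α hδ)).symm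
        · refine (continuousAt_const (y := (0 : XX A))).congr ?_
          obtain ⟨s, s1, s2⟩ := wellFounded_lt.has_min (Ioi (α : WithTop ι))
            ⟨⊤, WithTop.coe_lt_top α⟩
          filter_upwards [Iio_mem_nhds (h.trans_lt s1)] with δ hδ using
            (Subtype.ext (p2 δ α (not_lt.mp fun e => s2 δ e hδ))).symm
      | zero => simpa using continuous_const
      | add x y _ _ h1 h2 => simp only [map_add]; exact h1.add h2
      | smul c x _ h => simp only [map_smul]; exact h.const_smul c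
    refine continuous_of_uniform_approx_of_continuous fun u hu => ?_
    obtain ⟨ε, e0, e1⟩ := Metric.mem_uniformity_dist.mp hu
    obtain ⟨y, y1, y2⟩ := Metric.mem_closure_iff.mp (ex_dense A x) ε e0
    refine ⟨_, c1 y y1, fun β => e1 ?_⟩
    rw [dist_eq_norm] at y2 ⊢
    rw [← map_sub]
    exact (p4 β _).trans_lt y2

end Pool.Agent.H88.Gb
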