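import Pool.Agent.H88.Gb1

namespace Pool.Agent.H88.Gb
open Filter Topology Set Submodule Cardinal

variable {ι : Type} [LinearOrder ι] [WellFoundedLT ι] (A : Dat ι)

def Rich : Prop := ∀ (D : Finset ι) (q : D → ℚ), ∑ γ, |(q γ : ℝ)| ≤ 1 → ∀ D' : Finset ι,
  ∃ β ∉ D', ∀ y : ι → ℝ, dl A β y = y β - ∑ γ : D, q γ * y γ

theorem near (hA : Rich A) {E : Type} [NormedAddCommGroup E] [NormedSpace ℝ E] (f : E →ₗ[ℝ] L ι)
    {η : ℝ} (e0 : 0 < η) (e1 : η < 1 / 2) (hf : ∀ x, (1 - 2 * η) * ‖x‖ ≤ ‖f x‖ ∧ ‖f x‖ ≤ ‖x‖)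
    (D : Finset ι) (hD : ∀ x, ∀ γ ∉ D, dl A γ (f x) = 0) (χ : E →ₗ[ℝ] ℝ) (hχ : ∀ x, |χ x| ≤ ‖x‖)
    (D' : Finset ι) : ∃ β ∉ D', ∀ x, |χ x - f x β| ≤ 4 * η * ‖x‖ := by
  classical
  let J : E →ₗ[ℝ] (D → ℝ) :=
    { toFun := fun x γ => f x γ
      map_add' := fun x y => by ext γ; simp
      map_smul' := fun c x => by ext γ; simp }
  have j1 : ∀ x, ‖f x‖ ≤ ‖J x‖ := fun x => maxp A _ D (norm_nonneg _)
    (fun γ hγ => norm_le_pi_norm (J x) ⟨γ, hγ⟩) (hD x)
  obtain ⟨k, k1, k2⟩ := Gw.hb J ((injective_iff_map_eq_zero J).mpr fun x hx => by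
    have := (hf x).1.trans (j1 x)
    rw [hx, norm_zero] at this
    exact norm_le_zero_iff.mp (by nlinarith [norm_nonneg x])) ((1 - 2 * η) • χ) fun x =>
      (mul_le_mul_of_nonneg_left ((le_abs_self _).trans (hχ x)) (by linarith)).trans
        ((hf x).1.trans (j1 x))
  let a : D → ℝ := fun i => k fun j => if i = j then 1 else 0
  have ha : ∀ z, k z = ∑ i, z i * a i := fun z => LinearMap.pi_apply_eq_sum_univ k.toLinearMap z
  have a1 : ∑ i, |a i| ≤ 1 := by
    have := (le_abs_self _).trans (k1 fun i => (SignType.sign (a i) : ℝ))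
    rw [ha] at this
    simp only [sign_mul_self] at this
    refine this.trans ((pi_norm_le_iff_of_nonneg zero_le_one).mpr fun i => ?_)
    rcases SignType.sign (a i) <;> simp
  choose q hq using fun i => exists_rat_near ((1 - η) * a i)
    (show 0 < η / (Fintype.card D + 1) by positivity)
  have q1 : ∑ i, |(1 - η) * a i - q i| ≤ η := by
    refine (Finset.sum_le_card_nsmul _ _ _ fun i _ => (hq i).le).trans ?_
    rw [nsmul_eq_mul, Finset.card_univ, ← mul_div_assoc, div_le_iff₀ (by positivity)]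
    linarith
  obtain ⟨β, b1, b2⟩ := hA D q (by
    refine (Finset.sum_le_sum (g := fun i => (1 - η) * |a i| + |(1 - η) * a i - q i|)
      fun i _ => ?_).trans ?_
    · have := abs_sub ((1 - η) * a i) ((1 - η) * a i - q i)
      rwa [sub_sub_cancel, abs_mul, abs_of_pos (by linarith : 0 < 1 - η)] at this
    · rw [Finset.sum_add_distrib, ← Finset.mul_sum]
      nlinarith) (D ∪ D')
  rw [Finset.mem_union, not_or] at b1
  refine ⟨β, b1.2, fun x => ?_⟩
  have t1 := sub_eq_zero.mp ((b2 _).symm.trans (hD x β b1.1))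
  have t2 : ∑ i, J x i * a i = (1 - 2 * η) * χ x := (ha _).symm.trans (k2 x)
  have t3 : |∑ i, ((1 - η) * a i - q i) * J x i| ≤ η * ‖x‖ := by
    refine (Finset.abs_sum_le_sum_abs _ _).trans ((Finset.sum_le_sum
      (g := fun i => |(1 - η) * a i - q i| * ‖x‖) fun i _ => ?_).trans ?_)
    · rw [abs_mul]
      exact mul_le_mul_of_nonneg_left ((lp.norm_apply_le_norm ENNReal.top_ne_zero (f x) i).trans
        (hf x).2) (abs_nonneg _)
    · rw [← Finset.sum_mul]
      exact mul_le_mul_of_nonneg_right q1 (norm_nonneg _)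
  have t4 : ∑ i, ((1 - η) * a i - q i) * J x i = (1 - η) * ((1 - 2 * η) * χ x) - f x β := by
    rw [← t2, t1, Finset.mul_sum, ← Finset.sum_sub_distrib]
    exact Finset.sum_congr rfl fun i _ => by show _ = _ - q i * J x i; ring
  rw [t4, abs_le] at t3
  have t5 := abs_le.mp (hχ x)
  have t6 : 0 ≤ η * (3 - 2 * η) := by nlinarith
  have t7 := mul_nonneg (mul_nonneg e0.le e0.le) (norm_nonneg x)
  rw [abs_le]
  constructor <;> nlinarith [t3.1, t3.2, mul_le_mul_of_nonneg_left t5.1 t6,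
    mul_le_mul_of_nonneg_left t5.2 t6]

theorem gur (hA : Rich A) : Gur (XX A) := by
  classical
  intro ε hε F _ _ _ E f
  obtain ⟨η, e0, e1, e2, e3⟩ : ∃ η : ℝ, 0 < η ∧ η < 1 / 2 ∧ 7 * η ≤ ε ∧ (1 + ε)⁻¹ ≤ 1 - 2 * η := by
    have : 0 < ε / (1 + ε) := by positivity
    have t5 : ε / (1 + ε) ≤ ε := div_le_self hε.le (by linarith)
    have t6 : ε / (1 + ε) < 1 := (div_lt_one (by linarith)).mpr (by linarith)
    have t4 : (1 + ε)⁻¹ = 1 - ε / (1 + ε) := by field_simp; ring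
    exact ⟨ε / (1 + ε) / 7, by positivity, by linarith, by linarith, by linarith⟩
  let b := Module.finBasis ℝ E
  obtain ⟨C, c0, c1⟩ := b.exists_opNorm_le (F := L ι)
  choose z z1 z2 using fun i => Metric.mem_closure_iff.mp (f (b i)).2 (η / C) (by positivity)
  choose Di hD using fun i => sp_fin A (z1 i)
  let e' : E →ₗ[ℝ] L ι := b.constr ℝ z
  let u := LinearMap.toContinuousLinearMap ((XX A).subtype ∘ₗ f.toLinearMap - e')
  have a1 : ∀ x, ‖(f x).1 - e' x‖ ≤ η * ‖x‖ := fun x => by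
    have := c1 (u := u) (M := η / C) (by positivity) fun i => by
      simpa [u, e', dist_eq_norm] using (z2 i).le
    rw [mul_div_cancel₀ _ c0.ne'] at this
    exact (u.le_opNorm x).trans (mul_le_mul_of_nonneg_right this (norm_nonneg _))
  have a2 : ∀ x, (1 - η) * ‖x‖ ≤ ‖e' x‖ ∧ ‖e' x‖ ≤ (1 + η) * ‖x‖ := fun x => by
    have := abs_le.mp ((abs_norm_sub_norm_le _ _).trans (a1 x))
    rw [show ‖(f x).1‖ = ‖x‖ from f.norm_map x] at this
    constructor <;> linarith [this.1, this.2]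
  let f2 : E →ₗ[ℝ] L ι := (1 - η) • e'
  have a3 : ∀ x, (1 - 2 * η) * ‖x‖ ≤ ‖f2 x‖ ∧ ‖f2 x‖ ≤ ‖x‖ := fun x => by
    rw [LinearMap.smul_apply, norm_smul, Real.norm_eq_abs, abs_of_pos (by linarith)]
    have := norm_nonneg x
    constructor <;> nlinarith [(a2 x).1, (a2 x).2, mul_nonneg e0.le this]
  let co : L ι →ₗ[ℝ] (ι → ℝ) := ⟨⟨fun x => x, fun _ _ => rfl⟩, fun _ _ => rfl⟩
  have a4 : ∀ x, ∀ γ ∉ Finset.univ.biUnion Di, dl A γ (f2 x) = 0 := fun x γ hγ => by
    refine LinearMap.congr_fun (b.ext (f₁ := dl A γ ∘ₗ co ∘ₗ f2) (f₂ := 0) fun i => ?_) x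
    show dl A γ ((1 - η) • ⇑(e' (b i))) = 0
    rw [map_smul, show e' (b i) = z i by simp [e'], hD i γ fun h =>
      hγ (Finset.mem_biUnion.mpr ⟨i, Finset.mem_univ _, h⟩), smul_zero]
  have dv : ∀ y : F, ∃ ψ : F →L[ℝ] ℝ, (∀ z, |ψ z| ≤ ‖z‖) ∧ ψ y = ‖y‖ := fun y => by
    obtain ⟨ψ, a, b⟩ := exists_dual_vector'' ℝ y
    exact ⟨ψ, fun z => (ψ.le_opNorm z).trans (mul_le_of_le_one_left (norm_nonneg _) a), b⟩
  choose χ x1 x2 using dv
  have key : ∀ T : Finset F, ∃ (D : Finset ι) (ψ : ι → F →L[ℝ] ℝ), Finset.univ.biUnion Di ⊆ D ∧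
      (∀ γ y, |ψ γ y| ≤ ‖y‖) ∧ (∀ γ (x : E), |ψ γ x - f2 x γ| ≤ 4 * η * ‖x‖) ∧
      ∀ t ∈ T, ∃ β ∈ D, ψ β = χ t := fun T => by
    induction T using Finset.induction_on with
    | empty =>
      choose ψ p1 p2 using fun γ => Gw.hb E.subtype Subtype.val_injective
        (LinearMap.proj γ ∘ₗ co ∘ₗ f2) fun x => (le_abs_self _).trans
          ((lp.norm_apply_le_norm ENNReal.top_ne_zero (f2 x) γ).trans (a3 x).2)
      refine ⟨_, ψ, subset_rfl, p1, fun γ x => ?_, by simp⟩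
      rw [show ψ γ x = f2 x γ from p2 γ x, sub_self, abs_zero]
      positivity
    | insert t T _ ih =>
      obtain ⟨D, ψ, p1, p2, p3, p4⟩ := ih
      obtain ⟨β, b1, b2⟩ := near A hA f2 e0 e1 a3 _ a4 ((χ t).toLinearMap ∘ₗ E.subtype)
        (fun x => x1 t x) D
      refine ⟨insert β D, Function.update ψ β (χ t), p1.trans (Finset.subset_insert _ _),
        fun γ => ?_, fun γ => ?_, fun s hs => ?_⟩
      · rcases eq_or_ne γ β with rfl | h
        · rw [Function.update_self]; exact x1 t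
        · rw [Function.update_of_ne h]; exact p2 γ
      · rcases eq_or_ne γ β with rfl | h
        · rw [Function.update_self]; exact b2
        · rw [Function.update_of_ne h]; exact p3 γ
      · rcases Finset.mem_insert.mp hs with rfl | h
        · exact ⟨β, Finset.mem_insert_self _ _, Function.update_self ..⟩
        · obtain ⟨γ, g1, g2⟩ := p4 s h
          exact ⟨γ, Finset.mem_insert_of_mem g1, by
            rw [Function.update_of_ne (by rintro rfl; exact b1 g1), g2]⟩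
  have := FiniteDimensional.proper_real F
  obtain ⟨T, -, t1, t2⟩ := (isCompact_sphere (0 : F) 1).finite_cover_balls e0
  obtain ⟨D, ψ, p1, p2, p3, p4⟩ := key t1.toFinset
  let Ψ : F →ₗ[ℝ] L ι :=
    { toFun := fun y => ⟨fun γ => ψ γ y, memℓp_infty ⟨‖y‖, by rintro _ ⟨β, rfl⟩; exact p2 β y⟩⟩
      map_add' := fun x y => lp.ext (funext fun γ => map_add (ψ γ) x y)
      map_smul' := fun x y => lp.ext (funext fun γ => map_smul (ψ γ) x y) }
  refine ⟨((HL A D).toLinearMap ∘ₗ Ψ).codRestrict _ fun y =>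
    le_topologicalClosure _ (mem_sp A D fun γ hγ => H_not A _ hγ), fun y => ⟨?_, ?_⟩, fun x => ?_⟩
  · show _ ≤ ‖HL A D (Ψ y)‖
    rcases eq_or_ne y 0 with rfl | hy
    · simp
    have hy' := norm_pos_iff.mpr hy
    obtain ⟨t, ht, h1⟩ := mem_iUnion₂.mp (t2 (show ‖y‖⁻¹ • y ∈ Metric.sphere (0 : F) 1 by
      simp [norm_smul, hy'.ne']))
    obtain ⟨β, b1, b2⟩ := p4 t (t1.mem_toFinset.mpr ht)
    have h2 : |χ t y| ≤ ‖HL A D (Ψ y)‖ := by
      rw [← b2, show ψ β y = HL A D (Ψ y) β from (H_mem A (Ψ y) (D := D) b1).symm]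
      exact lp.norm_apply_le_norm ENNReal.top_ne_zero (HL A D (Ψ y)) β
    rw [mem_ball_iff_norm] at h1
    have h3 := abs_le.mp ((x1 t _).trans h1.le)
    have h4 := abs_le.mp ((abs_norm_sub_norm_le _ _).trans h1.le)
    rw [norm_smul, norm_inv, norm_norm, inv_mul_cancel₀ hy'.ne'] at h4
    rw [map_sub, map_smul, x2, smul_eq_mul] at h3
    have h5 : 1 - 2 * η ≤ ‖y‖⁻¹ * χ t y := by linarith [h3.1, h4.2]
    rw [le_inv_mul_iff₀ hy'] at h5
    nlinarith [le_abs_self (χ t y)]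
  · refine ((HL_le A D _).trans (lp.norm_le_of_forall_le (norm_nonneg y) fun γ => p2 γ y)).trans ?_
    nlinarith [norm_nonneg y]
  · show ‖HL A D (Ψ x) - (f x).1‖ ≤ _
    have t1 : ‖HL A D (Ψ x) - f2 x‖ ≤ 4 * η * ‖x‖ := by
      rw [← HL_fix A (D := D) (x := f2 x) fun γ hγ => a4 x γ fun h => hγ (p1 h), ← map_sub]
      exact (HL_le A D _).trans (lp.norm_le_of_forall_le (by positivity) fun γ => p3 γ x)
    have t2 : ‖f2 x - e' x‖ ≤ 2 * η * ‖x‖ := by
      rw [LinearMap.smul_apply, sub_smul, one_smul, sub_sub_cancel_left, norm_neg, norm_smul,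
        Real.norm_eq_abs, abs_of_pos e0]
      nlinarith [(a2 x).2, norm_nonneg x, mul_nonneg e0.le (norm_nonneg x)]
    have t3 := norm_sub_le_norm_sub_add_norm_sub (HL A D (Ψ x)) (f2 x) (f x).1
    have t4 := norm_sub_le_norm_sub_add_norm_sub (f2 x) (e' x) (f x).1
    have t5 := a1 x
    rw [norm_sub_rev] at t5
    nlinarith [norm_nonneg x]

theorem dens (h : #ι = ℵ₁) : IsLeast {c | ∃ S : Set (XX A), Dense S ∧ #S = c} ℵ₁ := by
  classical
  have hu : Uncountable ι := by rw [← aleph0_lt_mk_iff, h]; exact aleph0_lt_aleph_one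
  have low : ∀ S : Set (XX A), Dense S → ℵ₁ ≤ #S := fun S hS => by
    by_contra! hc
    have : TopologicalSpace.SeparableSpace (XX A) := ⟨S, le_aleph0_iff_set_countable.mp (lt_aleph_one_iff.mp hc), hS⟩
    have t : ∀ r s, r < s → 1 ≤ dist (ex A r) (ex A s) := fun r s hrs => by
      have := lp.norm_apply_le_norm ENNReal.top_ne_zero (ee A r - ee A s) r
      rw [dist_eq_norm]
      show 1 ≤ ‖ee A r - ee A s‖
      simpa [ee_self, ee_lt A hrs] using this
    exact not_countable (Pairwise.countable_of_isOpen_disjoint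
      (s := fun r => Metric.ball (ex A r) (1 / 2)) (fun r s hrs => Metric.ball_disjoint_ball (by
        rcases hrs.lt_or_gt with h | h
        · linarith [t r s h]
        · linarith [t s r h, dist_comm (ex A r) (ex A s)])) (fun _ => Metric.isOpen_ball)
      fun r => Metric.nonempty_ball.mpr (by norm_num))
  choose c c1 c2 using fun D : Finset ι =>
    ((D.finite_toSet.image (ex A)).isSeparable.span (R := ℝ))
  have hd : Dense (⋃ D, c D) := fun x => by
    rw [← closure_closure]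
    refine closure_mono (fun y hy => ?_) (ex_dense A x)
    rw [← image_univ] at hy
    obtain ⟨T, h1, h2⟩ := mem_span_finite_of_mem_span hy
    obtain ⟨D, -, rfl⟩ := Finset.subset_set_image_iff.mp h1
    rw [Finset.coe_image] at h2
    exact closure_mono (subset_iUnion c D) (c2 D h2)
  refine ⟨⟨_, hd, le_antisymm ((mk_iUnion_le c).trans ?_) (low _ hd)⟩, ?_⟩
  · rw [mk_finset_of_infinite, h]
    exact (mul_le_mul_right (ciSup_le' fun D => (c1 D).le_aleph0.trans
      aleph0_lt_aleph_one.le) _).trans (mul_eq_self aleph0_lt_aleph_one.le).le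
  · rintro _ ⟨S, hS, rfl⟩
    exact low S hS

theorem rich (h : #ι = ℵ₁) (h2 : ∀ i : ι, (Iio i).Countable) : ∃ A : Dat ι, Rich A := by
  classical
  have hu : Uncountable ι := by rw [← aleph0_lt_mk_iff, h]; exact aleph0_lt_aleph_one
  obtain ⟨π⟩ : Nonempty (ι ≃ ι × Finset ι × (ι →₀ ℚ)) := by
    rw [← Cardinal.eq, mk_prod, mk_prod, mk_finset_of_infinite, mk_finsupp_of_infinite, h]
    simp
  let ok : ι → Prop := fun β =>
    (∀ γ ∈ (π β).2.1, γ < β) ∧ ∑ γ ∈ (π β).2.1, |((π β).2.2 γ : ℝ)| ≤ 1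
  refine ⟨⟨fun β => if ok β then (π β).2.1 else ∅, fun β γ => (π β).2.2 γ, fun β => ?_,
    fun β => ?_⟩, fun D q hq D' => ?_⟩
  · split_ifs with h
    exacts [h.1, by simp]
  · split_ifs with h
    exacts [h.2, by simp]
  let v : ι →₀ ℚ := Finsupp.onFinset D (fun γ => if h : γ ∈ D then q ⟨γ, h⟩ else 0)
    fun γ h => by by_contra h'; exact h (dif_neg h')
  have hv : ∀ γ : D, v γ = q γ := fun γ => dif_pos γ.2
  have hc : ((fun i => π.symm (i, D, v)) ⁻¹' ⋃ γ ∈ D ∪ D', Iic γ).Countable :=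
    (Countable.biUnion (Finset.countable_toSet _) fun γ _ => by
      rw [← Iio_insert]; exact (h2 γ).insert _).preimage fun i j hij => by simpa using hij
  obtain ⟨i, hi⟩ : ∃ i, i ∉ (fun i => π.symm (i, D, v)) ⁻¹' ⋃ γ ∈ D ∪ D', Iic γ := by
    by_contra! h
    exact not_countable_univ (hc.mono fun i _ => h i)
  simp only [mem_preimage, mem_iUnion, mem_Iic, not_exists, not_le] at hi
  have ho : ok (π.symm (i, D, v)) := by
    simp only [ok, Equiv.apply_symm_apply]
    refine ⟨fun γ hγ => hi γ (Finset.mem_union_left _ hγ), ?_⟩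
    rw [← Finset.sum_coe_sort D]
    simpa only [hv] using hq
  refine ⟨π.symm (i, D, v), fun h => lt_irrefl _ (hi _ (Finset.mem_union_right _ h)), fun y => ?_⟩
  show _ - ∑ γ ∈ (if ok (π.symm (i, D, v)) then (π (π.symm (i, D, v))).2.1 else ∅),
    ((π (π.symm (i, D, v))).2.2 γ : ℝ) * y γ = _
  rw [if_pos ho, Equiv.apply_symm_apply, ← Finset.sum_coe_sort D]
  simp only [hv]

end Pool.Agent.H88.Gb
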