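import Mathlib

namespace Pool.Agent.H88.Gb

/-- Gurarii space (almost universal disposition for finite-dimensional spaces) -/
def Gur (X : Type) [NormedAddCommGroup X] [NormedSpace ℝ X] : Prop :=
  ∀ (ε : ℝ), 0 < ε → ∀ (F : Type) [NormedAddCommGroup F] [NormedSpace ℝ F] [FiniteDimensional ℝ F]
    (E : Submodule ℝ F) (e : E →ₗᵢ[ℝ] X),
    ∃ f : F →ₗ[ℝ] X, (∀ y, (1 + ε)⁻¹ * ‖y‖ ≤ ‖f y‖ ∧ ‖f y‖ ≤ (1 + ε) * ‖y‖) ∧
      ∀ x : E, ‖f x - e x‖ ≤ ε * ‖x‖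

/-- monotone transfinite Schauder basis indexed by the well-order `ι`; `WithTop ι` is `[0, λ]` -/
def MonoBasis {ι X : Type} [LinearOrder ι] [NormedAddCommGroup X] [NormedSpace ℝ X]
    (e : ι → X) : Prop :=
  (∀ α, e α ≠ 0) ∧ Dense (Submodule.span ℝ (Set.range e) : Set X) ∧
    ∃ P : WithTop ι → X →L[ℝ] X, (∀ β x, P β (P β x) = P β x) ∧
      (∀ β (α : ι), (α : WithTop ι) < β → P β (e α) = e α) ∧
      (∀ β (α : ι), β ≤ (α : WithTop ι) → P β (e α) = 0) ∧ P ⊤ = ContinuousLinearMap.id ℝ X ∧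
      (∀ x, @Continuous _ _ (Preorder.topology (WithTop ι)) _ fun β => P β x) ∧ ∀ β, ‖P β‖ ≤ 1

end Pool.Agent.H88.Gb
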