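import Pool.Agent.H88.GhDefs
import Pool.Agent.H88.Gw2

namespace Pool.Agent.H88.Gh
open Filter Topology Set Submodule Cardinal

theorem compat {Λ G : Type} (h : 𝔠 < #Λ) (d : Λ → ℕ → G) (φ : Λ → G → ℝ) :
    ∃ l m, l ≠ m ∧ ∀ i j, d l i = d m j → φ l (d l i) = φ m (d l i) := by
  classical
  obtain ⟨l0⟩ : Nonempty Λ := mk_ne_zero_iff.mp (ne_of_gt (lt_of_le_of_lt bot_le h))
  have : Nonempty Λ := ⟨l0⟩
  let Q : Set ℕ × (ℕ → ℝ) → (ℕ → G) → Λ → Prop := fun a t m =>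
    (∀ n, φ m (d m n) = a.2 n) ∧ ∀ n ∈ a.1, d m n = t n
  let β : Option ((Set ℕ × (ℕ → ℝ)) × (ℕ → ℕ)) → Type := fun o => Option.casesOn o Empty fun _ => ℕ
  let ρ : WType β → Λ := WType.elim Λ fun ⟨o, r⟩ => match o, r with
    | none, _ => l0
    | some a, r => Classical.epsilon (Q a.1 fun n => d (r n) (a.2 n))
  have hW : #(WType β) ≤ 𝔠 := WType.cardinalMk_le_of_le (by
    refine (sum_le_sum _ (fun _ => 𝔠) fun o => ?_).trans ?_
    · cases o with
      | none => simpa [β] using (one_le_aleph0.trans aleph0_le_continuum)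
      | some a => simp [β]
    · simp [mk_real, add_one_eq aleph0_le_continuum])
  obtain ⟨l, hl⟩ : ∃ l, l ∉ range ρ := by
    by_contra! hh
    exact absurd ((mk_le_of_surjective hh).trans hW) (not_le.mpr h)
  have : ∀ n, ∃ (w : WType β) (k : ℕ), (∃ w k, d l n = d (ρ w) k) → d l n = d (ρ w) k := fun n => by
    by_cases hn : ∃ w k, d l n = d (ρ w) k
    · obtain ⟨w, k, e⟩ := hn
      exact ⟨w, k, fun _ => e⟩
    · exact ⟨WType.mk none Empty.elim, 0, fun e => absurd e hn⟩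
  choose w k hw using this
  let a : Set ℕ × (ℕ → ℝ) := ({n | ∃ w k, d l n = d (ρ w) k}, fun n => φ l (d l n))
  have e : Q a (fun n => d (ρ (w n)) (k n)) (ρ (WType.mk (some (a, k)) w)) :=
    Classical.epsilon_spec (p := Q a fun n => d (ρ (w n)) (k n)) ⟨l, fun _ => rfl, hw⟩
  refine ⟨l, _, fun e => hl ⟨WType.mk (some (a, k)) w, e.symm⟩, fun i j hij => ?_⟩
  have h1 : i ∈ a.1 := ⟨_, j, hij⟩
  have h2 := e.1 i
  rw [(e.2 i h1).trans (hw i h1).symm] at h2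
  exact h2.symm

inductive G : Type
  | leaf (i : Bool ⊕ Set ℝ) : G
  | node (p : (ℕ →₀ ℝ) → ℝ) (c : ℕ → G) : G

open G

def Base (φ : G → ℝ) : Prop :=
  (∀ i, |φ (leaf i)| ≤ 1) ∧ (∀ l, |φ (leaf (.inl true)) + φ (leaf (.inr l))| ≤ 1) ∧
    (∀ l, |φ (leaf (.inl true)) - φ (leaf (.inr l))| ≤ 1) ∧
    ∀ l m, l ≠ m → |φ (leaf (.inr l)) + φ (leaf (.inr m))| ≤ 1

def Con (p : (ℕ →₀ ℝ) → ℝ) (η : ℕ → ℝ) (t : ℝ) : Prop :=
  ∀ a, |Finsupp.linearCombination ℝ η a - t| ≤ p a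

def Adm : G → (G → ℝ) → Prop
  | leaf _, _ => True
  | node p c, φ => (∀ k, Adm (c k) φ) ∧
      ((∀ ψ, Base ψ → (∀ k, Adm (c k) ψ) → ∃ t, Con p (ψ ∘ c) t) → Con p (φ ∘ c) (φ (node p c))) ∧
      (¬ (∀ ψ, Base ψ → (∀ k, Adm (c k) ψ) → ∃ t, Con p (ψ ∘ c) t) → φ (node p c) = 0)

def Val (p : (ℕ →₀ ℝ) → ℝ) (c : ℕ → G) : Prop :=
  ∀ ψ, Base ψ → (∀ k, Adm (c k) ψ) → ∃ t, Con p (ψ ∘ c) t

def Loc (p : (ℕ →₀ ℝ) → ℝ) (c : ℕ → G) (φ : G → ℝ) : Prop :=
  (Val p c → Con p (φ ∘ c) (φ (node p c))) ∧ (¬ Val p c → φ (node p c) = 0)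

def KK : Type := {φ : G → ℝ // Base φ ∧ ∀ p c, Loc p c φ}

theorem adm_of {φ : G → ℝ} (h : ∀ p c, Loc p c φ) (γ : G) : Adm γ φ := by
  induction γ with
  | leaf i => trivial
  | node p c ih => exact ⟨ih, h p c⟩

open Classical in
noncomputable def xt (D : Set G) (φ : G → ℝ) : G → ℝ
  | leaf i => φ (leaf i)
  | node p c => if node p c ∈ D then φ (node p c) else
      if Val p c then Classical.epsilon (Con p fun k => xt D φ (c k)) else 0

theorem extend (D : Set G) (φ : G → ℝ) (hb : Base φ)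
    (hD : ∀ p c, node p c ∈ D → (∀ k, c k ∈ D) ∧ Loc p c φ) :
    ∃ ψ : KK, (∀ γ ∈ D, ψ.1 γ = φ γ) ∧ ∀ i, ψ.1 (leaf i) = φ (leaf i) := by
  have h1 : ∀ γ ∈ D, xt D φ γ = φ γ := fun γ hγ => by
    cases γ with
    | leaf i => rfl
    | node p c => exact if_pos hγ
  have h2 : ∀ γ, Adm γ (xt D φ) := fun γ => by
    induction γ with
    | leaf i => trivial
    | node p c ih =>
      refine ⟨ih, ?_⟩
      show Loc p c _
      by_cases h : node p c ∈ D
      · have e : xt D φ ∘ c = φ ∘ c := funext fun k => h1 _ ((hD p c h).1 k)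
        rw [Loc, e, h1 _ h]
        exact (hD p c h).2
      · refine ⟨fun hv => ?_, fun hv => (if_neg h).trans (if_neg hv)⟩
        rw [show xt D φ (node p c) = _ from (if_neg h).trans (if_pos hv)]
        exact Classical.epsilon_spec (hv (xt D φ) hb ih)
  exact ⟨⟨xt D φ, hb, fun p c => (h2 (node p c)).2⟩, h1, fun _ => rfl⟩

def bd : G → ℝ
  | leaf _ => 1
  | node p _ => |p 0|

theorem bd_le (φ : KK) (γ : G) : |φ.1 γ| ≤ bd γ := by
  cases γ with
  | leaf i => exact φ.2.1.1 i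
  | node p c =>
    by_cases h : Val p c
    · have := (φ.2.2 p c).1 h 0
      rw [map_zero, zero_sub, abs_neg] at this
      exact this.trans (le_abs_self _)
    · rw [(φ.2.2 p c).2 h, abs_zero]; exact abs_nonneg _

abbrev L := lp (fun _ : KK => ℝ) ⊤

noncomputable def ee (γ : G) : L :=
  ⟨fun φ => φ.1 γ, memℓp_infty ⟨bd γ, by rintro _ ⟨φ, rfl⟩; exact bd_le φ γ⟩⟩

noncomputable abbrev XX : Submodule ℝ L := (span ℝ (range ee)).topologicalClosure

noncomputable def ex (γ : G) : XX := ⟨ee γ, le_topologicalClosure _ (subset_span ⟨γ, rfl⟩)⟩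

theorem ex_dense : Dense (span ℝ (range ex) : Set XX) := fun y => by
  rw [closure_subtype]
  refine closure_mono ?_ y.2
  have : span ℝ (range ee) ≤ (span ℝ (range ex)).map (Submodule.subtype _) :=
    span_le.mpr (by rintro _ ⟨γ, rfl⟩; exact ⟨ex γ, subset_span ⟨γ, rfl⟩, rfl⟩)
  exact this

noncomputable def ev (φ : KK) : XX →L[ℝ] ℝ :=
  LinearMap.mkContinuous ⟨⟨fun x => x.1 φ, fun _ _ => rfl⟩, fun _ _ => rfl⟩ 1 fun x => by
    rw [one_mul]; exact lp.norm_apply_le_norm ENNReal.top_ne_zero x.1 φ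

theorem ev_le (φ : KK) (x : XX) : |ev φ x| ≤ ‖x‖ :=
  lp.norm_apply_le_norm ENNReal.top_ne_zero x.1 φ

theorem ev_ex (φ : KK) (γ : G) : ev φ (ex γ) = φ.1 γ := rfl

instance : Nonempty KK :=
  ⟨(extend ∅ 0 (by simp [Base]) fun _ _ h => absurd h (notMem_empty _)).choose⟩

theorem le_ev {x : XX} {c : ℝ} (h : ∀ φ, |ev φ x| ≤ c) : ‖x‖ ≤ c :=
  lp.norm_le_of_forall_le ((abs_nonneg _).trans (h (Classical.arbitrary _))) h

theorem lc (ψ : XX →L[ℝ] ℝ) (c : ℕ → G) (a : ℕ →₀ ℝ) :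
    ψ (Finsupp.linearCombination ℝ (ex ∘ c) a) =
      Finsupp.linearCombination ℝ ((fun γ => ψ (ex γ)) ∘ c) a :=
  Finsupp.apply_linearCombination ℝ ψ.toLinearMap _ a

theorem dual (ψ : XX →L[ℝ] ℝ) (h : ∀ x, |ψ x| ≤ ‖x‖) : ∃ φ : KK, ev φ = ψ := by
  have k : ∀ {x c}, (∀ φ, |ev φ x| ≤ c) → |ψ x| ≤ c := fun h' => (h _).trans (le_ev h')
  refine ⟨⟨fun γ => ψ (ex γ), ⟨fun i => k fun φ => φ.2.1.1 i, fun l => ?_, fun l => ?_,
    fun l m hl => ?_⟩, fun p c => ⟨fun hv a => ?_, fun hv => ?_⟩⟩,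
    ContinuousLinearMap.ext_on ex_dense (by rintro _ ⟨γ, rfl⟩; rfl)⟩
  · rw [← map_add]; exact k fun φ => φ.2.1.2.1 l
  · rw [← map_sub]; exact k fun φ => φ.2.1.2.2.1 l
  · rw [← map_add]; exact k fun φ => φ.2.1.2.2.2 l m hl
  · rw [← lc, ← map_sub]
    exact k fun φ => by rw [map_sub, lc]; exact (φ.2.2 p c).1 hv a
  · exact abs_nonpos_iff.mp (k fun φ => by rw [ev_ex, (φ.2.2 p c).2 hv, abs_zero])

theorem agree {φ ψ : KK} {c : ℕ → G} (h : ∀ k, φ.1 (c k) = ψ.1 (c k)) {x : XX}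
    (hx : x ∈ (span ℝ (range (ex ∘ c))).topologicalClosure) : ev φ x = ev ψ x := by
  have : (span ℝ (range (ex ∘ c))).topologicalClosure ≤ LinearMap.ker (ev φ - ev ψ).toLinearMap :=
    topologicalClosure_minimal _ (span_le.mpr (by
      rintro _ ⟨k, rfl⟩; exact sub_eq_zero.mpr (h k))) (ev φ - ev ψ).isClosed_ker
  exact sub_eq_zero.mp (this hx)

def desc : G → Set G
  | leaf i => {leaf i}
  | node p c => insert (node p c) (⋃ k, desc (c k))

theorem desc_self (γ : G) : γ ∈ desc γ := by cases γ <;> simp [desc]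

theorem desc_c (γ : G) : (desc γ).Countable := by
  induction γ with
  | leaf i => exact countable_singleton _
  | node p c ih => exact (countable_iUnion ih).insert _

theorem desc_cl (γ : G) {p c} (h : node p c ∈ desc γ) (k : ℕ) : c k ∈ desc γ := by
  induction γ with
  | leaf i => simp [desc] at h
  | node q d ih =>
    rcases h with h | h
    · cases h; exact Or.inr (mem_iUnion.mpr ⟨k, desc_self _⟩)
    · obtain ⟨j, hj⟩ := mem_iUnion.mp h
      exact Or.inr (mem_iUnion.mpr ⟨j, ih j hj⟩)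

theorem supp {J : Type} [Countable J] (x : J → XX) : ∃ c : ℕ → G,
    (∀ p d, node p d ∈ range c → ∀ k, d k ∈ range c) ∧
    ∀ j, x j ∈ (span ℝ (range (ex ∘ c))).topologicalClosure := by
  choose y y1 y2 using fun j => mem_closure_iff_seq_limit.mp (ex_dense (x j))
  choose a ha using fun j n => Finsupp.mem_span_range_iff_exists_finsupp.mp (y1 j n)
  obtain ⟨c, hc⟩ := (((countable_iUnion fun j => countable_iUnion fun n =>
    (a j n).support.countable_toSet.biUnion fun γ _ => desc_c γ)).insert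
      (leaf (.inl true))).exists_eq_range (insert_nonempty _ _)
  refine ⟨c, fun p d h k => ?_, fun j => mem_closure_of_tendsto (y2 j)
    (Eventually.of_forall fun n => ?_)⟩
  · rw [← hc] at h ⊢
    simp only [mem_insert_iff, mem_iUnion, reduceCtorEq, false_or] at h
    obtain ⟨j, n, γ, h1, h2⟩ := h
    exact Or.inr (by simp only [mem_iUnion]; exact ⟨j, n, γ, h1, desc_cl γ h2 k⟩)
  · rw [← ha]
    refine sum_mem fun γ hγ => smul_mem _ _ (subset_span ?_)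
    obtain ⟨k, hk⟩ : γ ∈ range c := by
      rw [← hc]
      exact Or.inr (by simp only [mem_iUnion]; exact ⟨j, n, γ, hγ, desc_self γ⟩)
    exact ⟨k, congrArg ex hk⟩

end Pool.Agent.H88.Gh
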