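import Pool.Agent.H88.Gh1

namespace Pool.Agent.H88.Gh
open Filter Topology Set Submodule Cardinal G

noncomputable def rk : G → Ordinal.{0}
  | leaf _ => 0
  | node _ c => ⨆ k, rk (c k) + 1

theorem rk_lt (p c k) : rk (c k) < rk (node p c) := Ordinal.lt_iSup_add_one (fun k => rk (c k)) k

theorem dv {F : Type} [NormedAddCommGroup F] [NormedSpace ℝ F] (y : F) :
    ∃ ψ : F →L[ℝ] ℝ, (∀ z, |ψ z| ≤ ‖z‖) ∧ ψ y = ‖y‖ := by
  obtain ⟨ψ, a, b⟩ := exists_dual_vector'' ℝ y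
  exact ⟨ψ, fun z => (ψ.le_opNorm z).trans (mul_le_of_le_one_left (norm_nonneg _) a), b⟩

variable {F : Type} [NormedAddCommGroup F] [NormedSpace ℝ F]

theorem one (E : Submodule ℝ F) (f : E →ₗ[ℝ] XX) (hf : ∀ x, ‖f x‖ = ‖x‖) (c : ℕ → G)
    (hc : ∀ x, f x ∈ (span ℝ (range (ex ∘ c))).topologicalClosure) (v : F) :
    ∃ w : XX, ∀ x : E, ‖f x - w‖ = ‖x - v‖ := by
  classical
  let p : (ℕ →₀ ℝ) → ℝ := fun a =>
    ⨅ x : E, (‖Finsupp.linearCombination ℝ (ex ∘ c) a - f x‖ + ‖x - v‖)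
  have k : ∀ (φ : KK) (ψ : F →L[ℝ] ℝ), (∀ z, |ψ z| ≤ ‖z‖) → (∀ x : E, ψ x = ev φ (f x)) →
      Con p (φ.1 ∘ c) (ψ v) := fun φ ψ h1 h2 a => le_ciInf fun x => by
    have t1 := ev_le φ (Finsupp.linearCombination ℝ (ex ∘ c) a - f x)
    have t2 := h1 (x - v)
    rw [map_sub, lc] at t1
    rw [map_sub, h2] at t2
    exact (abs_sub_le _ _ _).trans (add_le_add t1 t2)
  have hv : Val p c := fun φ hb hφ => by
    obtain ⟨φ', h1, -⟩ := extend {γ | Adm γ φ} φ hb fun p c h => ⟨h.1, h.2⟩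
    obtain ⟨ψ, p1, p2⟩ := Gw.hb E.subtype Subtype.val_injective ((ev φ').toLinearMap ∘ₗ f)
      fun x => (le_abs_self _).trans ((ev_le _ _).trans (hf x).le)
    rw [show φ ∘ c = φ'.1 ∘ c from funext fun k => (h1 _ (hφ k)).symm]
    exact ⟨_, k φ' ψ p1 p2⟩
  refine ⟨ex (node p c), fun x => le_antisymm (le_ev fun φ => le_of_forall_pos_le_add fun ε hε => ?_)
    ?_⟩
  · obtain ⟨y, y1, y2⟩ := Metric.mem_closure_iff.mp (hc x) (ε / 2) (by positivity)
    obtain ⟨a, rfl⟩ : ∃ a, Finsupp.linearCombination ℝ (ex ∘ c) a = y := by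
      rwa [← Finsupp.range_linearCombination] at y1
    rw [dist_eq_norm] at y2
    have t1 := ((φ.2.2 p c).1 hv a).trans (ciInf_le ⟨0, by rintro _ ⟨x, rfl⟩; positivity⟩ x)
    have t2 := ev_le φ (f x - Finsupp.linearCombination ℝ (ex ∘ c) a)
    rw [map_sub, lc] at t2
    rw [norm_sub_rev] at t1
    rw [map_sub]
    exact (abs_sub_le _ _ _).trans ((add_le_add t2 t1).trans (by linarith))
  · obtain ⟨ψ, p1, p2⟩ := dv (x - v)
    obtain ⟨χ, x1, x2⟩ := Gw.hb f ((injective_iff_map_eq_zero f).mpr fun x hx => by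
      rw [← norm_eq_zero, ← hf, hx, norm_zero]) (ψ.toLinearMap ∘ₗ E.subtype)
      fun x => (le_abs_self _).trans ((p1 _).trans (hf x).ge)
    obtain ⟨φ, rfl⟩ := dual χ x1
    have u1 : ∀ δ, rk δ < rk (node p c) → Function.update φ.1 (node p c) (ψ v) δ = φ.1 δ :=
      fun δ h => Function.update_of_ne (by rintro rfl; exact lt_irrefl _ h) _ _
    obtain ⟨φ', h1, -⟩ := extend (insert (node p c) {δ | rk δ < rk (node p c)})
      (Function.update φ.1 (node p c) (ψ v)) (by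
        simpa only [Base, ne_eq, reduceCtorEq, not_false_eq_true, Function.update_of_ne]
          using φ.2.1) fun q d h => by
      rcases h with h | h
      · cases h
        refine ⟨fun k => Or.inr (rk_lt p c k), fun _ => ?_, fun h => absurd hv h⟩
        rw [Function.update_self, show Function.update φ.1 (node p c) (ψ v) ∘ c = φ.1 ∘ c from
          funext fun k => u1 _ (rk_lt p c k)]
        exact k φ ψ p1 fun x => (x2 x).symm
      · refine ⟨fun k => Or.inr ((rk_lt q d k).trans h), ?_⟩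
        rw [Loc, u1 _ h, show Function.update φ.1 (node p c) (ψ v) ∘ d = φ.1 ∘ d from
          funext fun k => u1 _ ((rk_lt q d k).trans h)]
        exact φ.2.2 q d
    have t := ev_le φ' (f x - ex (node p c))
    rw [map_sub, ev_ex, h1 _ (mem_insert _ _), Function.update_self, agree (ψ := φ) (fun k =>
      (h1 _ (Or.inr (rk_lt p c k))).trans (u1 _ (rk_lt p c k))) (hc x), x2 x] at t
    rw [← p2, map_sub]
    exact (le_abs_self _).trans t

theorem two [FiniteDimensional ℝ F] (E : Submodule ℝ F) (g : F →ₗ[ℝ] XX)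
    (hg : ∀ x ∈ E, ‖g x‖ = ‖x‖) (v : F) :
    ∃ g' : F →ₗ[ℝ] XX, (∀ x ∈ E, g' x = g x) ∧ ∀ x ∈ E ⊔ span ℝ {v}, ‖g' x‖ = ‖x‖ := by
  by_cases hv : v ∈ E
  · exact ⟨g, fun _ _ => rfl, by rwa [sup_eq_left.mpr ((span_singleton_le_iff_mem _ _).mpr hv)]⟩
  let b := Module.finBasis ℝ E
  obtain ⟨c, -, hc⟩ := supp fun j => g (b j)
  obtain ⟨w, hw⟩ := one E (g ∘ₗ E.subtype) (fun x => hg x x.2) c (fun x => by
    rw [← b.sum_repr x, map_sum]
    exact sum_mem fun j _ => by rw [map_smul]; exact smul_mem _ _ (hc j)) v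
  obtain ⟨l, l1, l2⟩ := E.exists_le_ker_of_notMem hv
  refine ⟨g + ((l v)⁻¹ • l).smulRight (w - g v), fun x hx => by simp [show l x = 0 from l2 hx],
    fun y hy => ?_⟩
  obtain ⟨x, hx, z, hz, rfl⟩ := mem_sup.mp hy
  obtain ⟨t, rfl⟩ := mem_span_singleton.mp hz
  have e : (g + ((l v)⁻¹ • l).smulRight (w - g v)) (x + t • v) = g x + t • w := by
    simp only [LinearMap.add_apply, map_add, map_smul, LinearMap.smulRight_apply,
      LinearMap.smul_apply, show l x = 0 from l2 hx, smul_eq_mul, mul_zero, zero_smul, add_zero,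
      inv_mul_cancel₀ l1, one_smul, add_sub_cancel]
  rw [e]
  rcases eq_or_ne t 0 with rfl | ht
  · simpa using hg x hx
  have := hw ⟨-t⁻¹ • x, smul_mem _ _ hx⟩
  have e1 : g x + t • w = -t • (g (-t⁻¹ • x) - w) := by
    rw [map_smul, smul_sub, smul_smul, neg_mul_neg, mul_inv_cancel₀ ht, one_smul, neg_smul,
      sub_neg_eq_add]
  have e2 : x + t • v = -t • (-t⁻¹ • x - v) := by
    rw [smul_sub, smul_smul, neg_mul_neg, mul_inv_cancel₀ ht, one_smul, neg_smul, sub_neg_eq_add]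
  rw [e1, e2, norm_smul, norm_smul]
  exact congrArg _ this

theorem ud : UD XX := by
  classical
  intro A B _ _ _ _ _ _ u i
  obtain ⟨P, hP⟩ := i.toLinearMap.exists_leftInverse_of_injective (LinearMap.ker_eq_bot.mpr i.injective)
  have hP' : ∀ a, P (i a) = a := fun a => LinearMap.congr_fun hP a
  have : ∀ s : Finset B, ∃ g : B →ₗ[ℝ] XX, (∀ a, g (i a) = u a) ∧
      ∀ x ∈ LinearMap.range i.toLinearMap ⊔ span ℝ s, ‖g x‖ = ‖x‖ := fun s => by
    induction s using Finset.induction_on with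
    | empty =>
      refine ⟨u.toLinearMap ∘ₗ P, fun a => congrArg u (hP' a), fun x hx => ?_⟩
      obtain ⟨a, rfl⟩ : x ∈ LinearMap.range i.toLinearMap := by simpa using hx
      exact (congrArg (fun a => ‖u a‖) (hP' a)).trans ((u.norm_map a).trans (i.norm_map a).symm)
    | insert v s _ ih =>
      obtain ⟨g, g1, g2⟩ := ih
      obtain ⟨g', h1, h2⟩ := two _ g g2 v
      refine ⟨g', fun a => (h1 _ (mem_sup_left ⟨a, rfl⟩)).trans (g1 a), ?_⟩
      rwa [Finset.coe_insert, span_insert, sup_comm (span ℝ {v}), ← sup_assoc]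
  obtain ⟨s, hs⟩ := Module.Finite.fg_top (R := ℝ) (M := B)
  obtain ⟨g, g1, g2⟩ := this s
  exact ⟨⟨g, fun x => g2 x (by simp [hs])⟩, g1⟩

theorem base (b : Bool ⊕ Set ℝ → ℝ) (h : Base fun γ => G.casesOn γ b fun _ _ => 0) :
    ∃ φ : KK, ∀ i, φ.1 (leaf i) = b i :=
  (extend ∅ _ h fun _ _ h => absurd h (notMem_empty _)).imp fun _ h => h.2

theorem not_hom : ¬ Hom XX := by
  classical
  intro H
  have n1 : ∀ i, ‖ex (leaf i)‖ ≤ 1 := fun i => le_ev fun φ => φ.2.1.1 i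
  have n2 : ∀ b, ‖ex (leaf (.inl b))‖ = 1 := fun b => le_antisymm (n1 _) (by
    obtain ⟨φ, h⟩ := base (Sum.elim 1 0) ⟨fun i => by cases i <;> simp, by simp, by simp, by simp⟩
    simpa [ev_ex, h] using ev_le φ (ex (leaf (.inl b))))
  obtain ⟨T, hT⟩ := H _ _ inferInstance inferInstance
    ((LinearIsometryEquiv.toSpanUnitSingleton (𝕜 := ℝ) _ (n2 false)).symm.trans
      (LinearIsometryEquiv.toSpanUnitSingleton _ (n2 true)))
  have t1 : T (ex (leaf (.inl false))) = ex (leaf (.inl true)) := by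
    have := hT (LinearIsometryEquiv.toSpanUnitSingleton (𝕜 := ℝ) _ (n2 false) 1)
    rw [LinearIsometryEquiv.trans_apply, LinearIsometryEquiv.symm_apply_apply] at this
    simpa using this
  have n3 : ∀ l, ∃ φ : KK, φ.1 (leaf (.inl true)) = 1 ∧ ev φ (T (ex (leaf (.inr l)))) = 1 := by
    intro l
    obtain ⟨φ, h⟩ := base (Sum.elim (fun b => if b then 0 else 1) fun m => if m = l then 1 else 0)
      ⟨fun i => by rcases i with i | i <;> simp <;> split_ifs <;> simp,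
        fun m => by simp; split_ifs <;> simp, fun m => by simp; split_ifs <;> simp,
        fun m n hmn => by simp; split_ifs <;> simp_all⟩
    have a : 1 + 1 ≤ ‖ex (leaf (.inl false)) + ex (leaf (.inr l))‖ :=
      le_trans (by simp [ev_ex, h]) ((le_abs_self _).trans (ev_le φ _))
    obtain ⟨ψ, p1, p2⟩ := dv (T (ex (leaf (.inl false)) + ex (leaf (.inr l))))
    obtain ⟨χ, rfl⟩ := dual ψ p1
    rw [T.norm_map, map_add, map_add, t1] at p2
    have b1 := (le_abs_self _).trans ((p1 _).trans (n1 (.inl true)))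
    have b2 := (le_abs_self _).trans ((p1 _).trans ((T.norm_map _).trans_le (n1 (.inr l))))
    exact ⟨χ, by rw [← ev_ex]; linarith, by linarith⟩
  choose φ f1 f2 using n3
  choose d d1 d2 using fun l => supp fun _ : Unit => T (ex (leaf (.inr l)))
  obtain ⟨l, m, hlm, h⟩ := compat (Λ := Set ℝ) (by rw [mk_set, mk_real]; exact cantor _) d
    fun l => (φ l).1
  have z : ∀ l m, (φ l).1 (leaf (.inr m)) = 0 := fun l m => by
    have a := abs_le.mp ((φ l).2.1.2.1 m)
    have b := abs_le.mp ((φ l).2.1.2.2.1 m)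
    rw [f1] at a b
    linarith [a.2, b.2]
  let ψ : G → ℝ := fun γ => if γ ∈ range (d l) then (φ l).1 γ else (φ m).1 γ
  have e1 : ∀ γ ∈ range (d l), ψ γ = (φ l).1 γ := fun γ h => if_pos h
  have e2 : ∀ γ ∈ range (d m), ψ γ = (φ m).1 γ := fun γ ⟨j, hj⟩ => by
    by_cases h' : γ ∈ range (d l)
    · obtain ⟨i, rfl⟩ := h'
      exact (if_pos ⟨i, rfl⟩).trans (h i j hj.symm)
    · exact if_neg h'
  have e3 : ψ (leaf (.inl true)) = 1 := by simp only [ψ, f1, ite_self]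
  have e4 : ∀ n, ψ (leaf (.inr n)) = 0 := fun n => by simp only [ψ, z, ite_self]
  have e5 : ∀ n, (∀ γ ∈ range (d n), ψ γ = (φ n).1 γ) → ∀ p c, node p c ∈ range (d n) → Loc p c ψ :=
    fun n h p c hc => by
      rw [Loc, h _ hc, show ψ ∘ c = (φ n).1 ∘ c from funext fun k => h _ (d1 n p c hc k)]
      exact (φ n).2.2 p c
  obtain ⟨χ, x1, -⟩ := extend (range (d l) ∪ range (d m)) ψ ⟨fun i => by
    simp only [ψ]
    split_ifs
    exacts [(φ l).2.1.1 i, (φ m).2.1.1 i], by simp [e3, e4], by simp [e3, e4], by simp [e4]⟩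
    fun p c hc => hc.elim (fun h => ⟨fun k => Or.inl (d1 l p c h k), e5 l e1 p c h⟩)
      fun h => ⟨fun k => Or.inr (d1 m p c h k), e5 m e2 p c h⟩
  have a := ev_le χ (T (ex (leaf (.inr l)) + ex (leaf (.inr m))))
  rw [T.norm_map, map_add, map_add,
    agree (ψ := φ l) (fun k => (x1 _ (Or.inl ⟨k, rfl⟩)).trans (e1 _ ⟨k, rfl⟩)) (d2 l ()),
    agree (ψ := φ m) (fun k => (x1 _ (Or.inr ⟨k, rfl⟩)).trans (e2 _ ⟨k, rfl⟩)) (d2 m ()),
    f2, f2] at a
  have b : ‖ex (leaf (.inr l)) + ex (leaf (.inr m))‖ ≤ 1 := le_ev fun φ => φ.2.1.2.2.2 l m hlm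
  linarith [le_abs_self (1 + 1 : ℝ)]

end Pool.Agent.H88.Gh
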