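import Pool.Agent.H88.Gh2
import Pool.Agent.H88.GhDefs2

namespace Pool.Agent.H88.Gh
open Filter Topology Set Submodule TopologicalSpace

theorem three {F : Type} [NormedAddCommGroup F] [NormedSpace ℝ F] [SeparableSpace F]
    (q : F →ₗ.[ℝ] XX) (hq : ∀ x : q.domain, ‖q x‖ = ‖x‖) (v : F) (hv : v ∉ q.domain) :
    ∃ r : F →ₗ.[ℝ] XX, q < r ∧ ∀ x : r.domain, ‖r x‖ = ‖x‖ := by
  have := UniformSpace.secondCountable_of_separable F
  obtain ⟨c, -, hc⟩ := supp fun j => q (denseSeq q.domain j)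
  let f : q.domain →ₗᵢ[ℝ] XX := ⟨q.toFun, hq⟩
  obtain ⟨w, hw⟩ := one q.domain q.toFun hq c (fun x =>
    (isClosed_topologicalClosure _).closure_subset (map_mem_closure f.continuous
      (denseRange_denseSeq q.domain x) (by rintro _ ⟨j, rfl⟩; exact hc j))) v
  refine ⟨q.supSpanSingleton v w hv, lt_of_le_of_ne (LinearPMap.left_le_sup _ _ _) fun h => hv ?_,
    fun ⟨y, hy⟩ => ?_⟩
  · rw [congrArg LinearPMap.domain h]
    exact mem_sup_right (mem_span_singleton_self v)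
  obtain ⟨x, hx, z, hz, rfl⟩ := mem_sup.mp hy
  obtain ⟨t, rfl⟩ := mem_span_singleton.mp hz
  rw [LinearPMap.supSpanSingleton_apply_mk q v w hv x hx t]
  show ‖q ⟨x, hx⟩ + t • w‖ = ‖x + t • v‖
  rcases eq_or_ne t 0 with rfl | ht
  · simpa using hq ⟨x, hx⟩
  have := hw (-t⁻¹ • ⟨x, hx⟩)
  have e1 : q ⟨x, hx⟩ + t • w = -t • (q.toFun (-t⁻¹ • ⟨x, hx⟩) - w) := by
    rw [map_smul, smul_sub, smul_smul, neg_mul_neg, mul_inv_cancel₀ ht, one_smul, neg_smul,
      sub_neg_eq_add]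
    rfl
  have e2 : x + t • v = -t • (-t⁻¹ • x - v) := by
    rw [smul_sub, smul_smul, neg_mul_neg, mul_inv_cancel₀ ht, one_smul, neg_smul, sub_neg_eq_add]
  rw [e1, e2, norm_smul, norm_smul]
  exact congrArg _ this

theorem uds : UDS XX := by
  intro A B _ _ _ _ _ _ _ _ u i
  obtain ⟨P, hP⟩ :=
    i.toLinearMap.exists_leftInverse_of_injective (LinearMap.ker_eq_bot.mpr i.injective)
  have hP' : ∀ a, P (i a) = a := fun a => LinearMap.congr_fun hP a
  obtain ⟨q, q1, q2, q3⟩ := zorn_le_nonempty₀ {q : B →ₗ.[ℝ] XX | ∀ x : q.domain, ‖q x‖ = ‖x‖}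
    (fun c hcs hc y hy => ⟨LinearPMap.sSup c hc.directedOn, fun ⟨x, hx⟩ => by
      obtain ⟨f, f1, f2⟩ := (LinearPMap.mem_domain_sSup_iff ⟨y, hy⟩ hc.directedOn).mp hx
      exact (congrArg norm (LinearPMap.sSup_apply hc.directedOn f1 ⟨x, f2⟩)).trans
        (hcs f1 ⟨x, f2⟩), fun _ => LinearPMap.le_sSup hc.directedOn⟩)
    ⟨LinearMap.range i.toLinearMap, u.toLinearMap ∘ₗ P ∘ₗ Submodule.subtype _⟩ (by
      rintro ⟨_, a, rfl⟩
      exact (congrArg (fun a => ‖u a‖) (hP' a)).trans ((u.norm_map a).trans (i.norm_map a).symm))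
  have hd : ∀ v, v ∈ q.domain := fun v => by
    by_contra hv
    obtain ⟨r, r1, r2⟩ := three q q2 v hv
    exact r1.not_ge (q3 r2 r1.le)
  refine ⟨⟨q.toFun ∘ₗ LinearMap.id.codRestrict _ hd, fun x => q2 ⟨x, hd x⟩⟩, fun a => ?_⟩
  exact (q1.2 (x := ⟨i a, a, rfl⟩) (y := ⟨i a, hd _⟩) rfl).symm.trans (congrArg u (hP' a))

theorem not_homs : ¬ HomS XX := fun H => not_hom fun E F _ _ h => by
  have := FiniteDimensional.proper_real E
  have := FiniteDimensional.proper_real F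
  exact H E F E.closed_of_finiteDimensional F.closed_of_finiteDimensional inferInstance
    inferInstance h

end Pool.Agent.H88.Gh
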