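import Mathlib

namespace Pool.Agent.H88.Gh

/-- universal disposition for finite-dimensional spaces -/
def UD (X : Type) [NormedAddCommGroup X] [NormedSpace ℝ X] : Prop :=
  ∀ (A B : Type) [NormedAddCommGroup A] [NormedSpace ℝ A] [FiniteDimensional ℝ A]
    [NormedAddCommGroup B] [NormedSpace ℝ B] [FiniteDimensional ℝ B]
    (u : A →ₗᵢ[ℝ] X) (i : A →ₗᵢ[ℝ] B), ∃ w : B →ₗᵢ[ℝ] X, ∀ a, w (i a) = u a

/-- homogeneity with respect to finite-dimensional subspaces -/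
def Hom (X : Type) [NormedAddCommGroup X] [NormedSpace ℝ X] : Prop :=
  ∀ (E F : Submodule ℝ X), FiniteDimensional ℝ E → FiniteDimensional ℝ F →
    ∀ h : E ≃ₗᵢ[ℝ] F, ∃ T : X ≃ₗᵢ[ℝ] X, ∀ x : E, T x = h x

end Pool.Agent.H88.Gh
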