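import Pool.Agent.H88.GoodSeqDefs

set_option autoImplicit false

open Filter Topology Set

namespace Pool.Agent.H88.GoodSeq

/-- gaps tend to infinity -/
def Sparse (B : Set ℕ) : Prop := ∀ G : ℕ, ∃ N0 : ℕ, ∀ n ∈ B, ∀ m ∈ B, N0 ≤ n → n < m → n + G ≤ m

lemma sparse_tendsto {B : Set ℕ} (h : Sparse B) :
    Tendsto (fun N : ℕ => ((B ∩ Set.Icc 1 N).ncard : ℝ) / N) atTop (𝓝 0) := by
  rw [Metric.tendsto_atTop]
  intro ε hε
  obtain ⟨G, hG⟩ := exists_nat_one_div_lt (half_pos hε)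
  obtain ⟨N0, hN0⟩ := h (G + 1)
  obtain ⟨N1, hN1⟩ := exists_nat_gt (((N0 : ℝ) + 1) / (ε / 2))
  refine ⟨N1 + 1, fun N hN => ?_⟩
  have hN' : (N1 : ℝ) + 1 ≤ N := by exact_mod_cast hN
  have hNpos : (0 : ℝ) < N := by linarith [Nat.cast_nonneg (α := ℝ) N1]
  have h1 : (B ∩ Set.Icc N0 N).ncard ≤ (Set.Iic (N / (G + 1))).ncard := by
    refine Set.ncard_le_ncard_of_injOn (fun n => n / (G + 1))
      (fun n hn => Nat.div_le_div_right hn.2.2) ?_ (Set.finite_Iic _)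
    have key : ∀ n ∈ B ∩ Set.Icc N0 N, ∀ m ∈ B ∩ Set.Icc N0 N, n < m → n / (G + 1) < m / (G + 1) := by
      intro n hn m hm hnm
      have := Nat.div_le_div_right (c := G + 1) (hN0 n hn.1 m hm.1 hn.2.1 hnm)
      rw [Nat.add_div_right _ (Nat.succ_pos G)] at this
      exact this
    intro n hn m hm hnm
    rcases lt_trichotomy n m with h | h | h
    · exact absurd hnm (key n hn m hm h).ne
    · exact h
    · exact absurd hnm (key m hm n hn h).ne'
  have h2 : (B ∩ Set.Icc 1 N).ncard ≤ (Set.Iio N0).ncard + (B ∩ Set.Icc N0 N).ncard := by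
    refine le_trans (Set.ncard_le_ncard ?_ ?_) (Set.ncard_union_le _ _)
    · rintro n ⟨hn, hn1, hn2⟩
      by_cases h : n < N0
      · exact Or.inl h
      · exact Or.inr ⟨hn, not_lt.1 h, hn2⟩
    · exact (Set.finite_Iio _).union ((Set.finite_Icc _ _).inter_of_right _)
  rw [Set.ncard_Iic_nat] at h1
  rw [Set.ncard_Iio_nat] at h2
  have h3 : ((B ∩ Set.Icc 1 N).ncard : ℝ) ≤ N0 + ((N / (G + 1) : ℕ) + 1 : ℝ) := by
    exact_mod_cast h2.trans (Nat.add_le_add_left h1 _)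
  have h4 : ((N / (G + 1) : ℕ) : ℝ) ≤ N / (G + 1) := by exact_mod_cast Nat.cast_div_le
  rw [Real.dist_eq, sub_zero, abs_of_nonneg (by positivity), div_lt_iff₀ hNpos]
  rw [div_lt_iff₀ (half_pos hε)] at hN1
  have h5 : (N : ℝ) / (G + 1) ≤ N * (ε / 2) := by
    rw [div_eq_mul_one_div]; gcongr
  nlinarith

lemma dens_zero {A B C : Set ℕ} (hB : Sparse B) (hC : Sparse C) (h : A ⊆ B ∪ C) :
    upperDens A = 0 := by
  refine Tendsto.limsup_eq (squeeze_zero (fun N => by positivity) (fun N => ?_)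
    (by simpa using (sparse_tendsto hB).add (sparse_tendsto hC)))
  rw [← add_div]
  gcongr
  have : (A ∩ Set.Icc 1 N).ncard ≤ (B ∩ Set.Icc 1 N).ncard + (C ∩ Set.Icc 1 N).ncard := by
    refine le_trans (Set.ncard_le_ncard ?_ ?_) (Set.ncard_union_le _ _)
    · rw [← Set.union_inter_distrib_right]; exact Set.inter_subset_inter_left _ h
    · exact ((Set.finite_Icc _ _).inter_of_right _).union ((Set.finite_Icc _ _).inter_of_right _)
  exact_mod_cast this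

open Classical in
/-- the exponent -/
noncomputable def e (n : ℕ) : ℕ := if ∃ t, t ^ 2 = n then 4 * n ^ 2 else n ^ 2

/-- the sequence -/
noncomputable def lam (n : ℕ) : ℂ := ((2 : ℂ) ^ e n)⁻¹

lemma norm_lam (n : ℕ) : ‖lam n‖ = ((2 : ℝ) ^ e n)⁻¹ := by simp [lam]

lemma sq_sparse : Sparse {n | ∃ t, t ^ 2 = n} := by
  intro G
  refine ⟨G ^ 2, ?_⟩
  rintro _ ⟨a, rfl⟩ _ ⟨b, rfl⟩ h1 h2
  have h3 : a < b := lt_of_pow_lt_pow_left₀ 2 (Nat.zero_le _) h2
  have h4 : G ≤ a := (Nat.pow_le_pow_iff_left two_ne_zero).1 h1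
  have h5 : (a + 1) ^ 2 ≤ b ^ 2 := Nat.pow_le_pow_left h3 2
  nlinarith

lemma good : Good lam := by
  intro X _ _ _ _ hX T hA
  exfalso
  have : Nontrivial X := by
    by_contra h
    rw [not_nontrivial_iff_subsingleton] at h
    exact hX inferInstance
  obtain ⟨u, hu⟩ := exists_ne (0 : X)
  have hu0 : 0 < ‖u‖ := norm_pos_iff.2 hu
  obtain ⟨x, hx⟩ := hA (Metric.ball u (‖u‖ / 2)) Metric.isOpen_ball ⟨u, by simpa using hu⟩
  refine hx.ne' (dens_zero (B := {n | lam n • T^[n] x ∈ Metric.ball u (‖u‖ / 2) ∧ ¬ ∃ t, t ^ 2 = n})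
    ?_ sq_sparse fun n hn => ?_)
  swap
  · by_cases h : ∃ t, t ^ 2 = n
    · exact Or.inr h
    · exact Or.inl ⟨hn, h⟩
  intro G
  obtain ⟨K, hK⟩ : ∃ K : ℝ, K = max ‖T‖ 1 := ⟨_, rfl⟩
  have hK1 : 1 ≤ K := hK ▸ le_max_right _ _
  have hit : ∀ (d : ℕ) (y : X), ‖T^[d] y‖ ≤ K ^ d * ‖y‖ := by
    intro d y
    induction d with
    | zero => simp
    | succ d ih =>
      rw [Function.iterate_succ_apply', pow_succ', mul_assoc]
      refine (T.le_opNorm _).trans ?_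
      gcongr
      exact hK ▸ le_max_left _ _
  obtain ⟨N0, hN0⟩ := pow_unbounded_of_one_lt (3 * K ^ G) (show (1 : ℝ) < 2 by norm_num)
  refine ⟨N0, ?_⟩
  rintro n ⟨hn, hn'⟩ m ⟨hm, hm'⟩ h1 h2
  by_contra h3
  obtain ⟨d, rfl⟩ : ∃ d, m = d + n := ⟨m - n, by omega⟩
  rw [mem_ball_iff_norm] at hn hm
  have a1 : ‖lam n • T^[n] x‖ < 3 / 2 * ‖u‖ := by
    have := norm_sub_norm_le (lam n • T^[n] x) u; linarith
  have a2 : 1 / 2 * ‖u‖ < ‖lam (d + n) • T^[d + n] x‖ := by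
    have := norm_sub_norm_le u (lam (d + n) • T^[d + n] x)
    rw [norm_sub_rev] at this; linarith
  rw [norm_smul, norm_lam, e, if_neg hn', inv_mul_lt_iff₀ (by positivity)] at a1
  rw [norm_smul, norm_lam, e, if_neg hm', lt_inv_mul_iff₀ (by positivity),
    Function.iterate_add_apply] at a2
  have a3 := hit d (T^[n] x)
  have a4 : K ^ d ≤ K ^ G := pow_le_pow_right₀ hK1 (by omega)
  have a5 : (2 : ℝ) ^ N0 * 2 ^ (n ^ 2) ≤ 2 ^ ((d + n) ^ 2) := by
    rw [← pow_add]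
    refine pow_le_pow_right₀ (by norm_num) ?_
    have : 1 ≤ d := by omega
    nlinarith
  have a6 : K ^ d * ‖T^[n] x‖ ≤ K ^ G * (2 ^ (n ^ 2) * (3 / 2 * ‖u‖)) := by gcongr
  have a7 : 3 * K ^ G * (2 ^ (n ^ 2) * ‖u‖) ≤ 2 ^ N0 * (2 ^ (n ^ 2) * ‖u‖) := by gcongr
  have a8 : (2 : ℝ) ^ N0 * 2 ^ (n ^ 2) * ‖u‖ ≤ 2 ^ ((d + n) ^ 2) * ‖u‖ := by gcongr
  nlinarith

lemma ratio (n τ : ℕ) : ‖lam n‖ / ‖lam (n + τ)‖ = 2 ^ e (n + τ) / 2 ^ e n := by
  rw [norm_lam, norm_lam]; field_simp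

lemma no_limit (τ : ℕ) (hτ : 1 ≤ τ) (L : ENNReal) :
    ¬ Tendsto (fun n => ENNReal.ofReal (‖lam n‖ / ‖lam (n + τ)‖)) atTop (𝓝 L) := by
  intro h
  have t1 : Tendsto (fun a : ℕ => a ^ 2) atTop atTop := tendsto_pow_atTop two_ne_zero
  have t2 : Tendsto (fun a : ℕ => a ^ 2 + 1) atTop atTop := (tendsto_add_atTop_nat 1).comp t1
  have h1 : L ≤ 1 := by
    refine le_of_tendsto (h.comp t1) ?_
    filter_upwards [eventually_ge_atTop τ] with a ha
    rw [Function.comp_apply, ratio, ENNReal.ofReal_le_one, div_le_one (by positivity)]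
    refine pow_le_pow_right₀ (by norm_num) ?_
    rw [e, e, if_neg (Nat.not_exists_sq' (m := a) (by omega) (by nlinarith)), if_pos ⟨a, rfl⟩]
    have : τ ≤ a ^ 2 := by nlinarith
    nlinarith
  have h2 : 2 ≤ L := by
    refine ge_of_tendsto (h.comp t2) ?_
    filter_upwards [eventually_ge_atTop τ] with a ha
    rw [Function.comp_apply, ratio, ← ENNReal.ofReal_ofNat]
    refine ENNReal.ofReal_le_ofReal ?_
    rw [le_div_iff₀ (by positivity), ← pow_succ']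
    refine pow_le_pow_right₀ (by norm_num) ?_
    rw [e, e, if_neg (Nat.not_exists_sq' (m := a) (by omega) (by nlinarith)),
      if_neg (Nat.not_exists_sq' (m := a) (by omega) (by nlinarith))]
    nlinarith
  exact absurd (h2.trans h1) (by norm_num)

end Pool.Agent.H88.GoodSeq
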