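import Mathlib

set_option autoImplicit false

open Filter

namespace Pool.Agent.H88.GoodSeq

/-- Upper density of a set of natural numbers, counted in `[1, N]`. -/
noncomputable def upperDens (B : Set ℕ) : ℝ :=
  limsup (fun N : ℕ => ((B ∩ Set.Icc 1 N).ncard : ℝ) / N) atTop

/-- Property A for a sequence of self-maps. -/
def PropA {X : Type} [TopologicalSpace X] (T : ℕ → X → X) : Prop :=
  ∀ U : Set X, IsOpen U → U.Nonempty → ∃ x, 0 < upperDens {n | T n x ∈ U}

/-- Topological multiple recurrence. -/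
def MultRec {X : Type} [TopologicalSpace X] (T : X → X) : Prop :=
  ∀ U : Set X, IsOpen U → U.Nonempty → ∀ m : ℕ, ∃ k, 1 ≤ k ∧ ∃ x, ∀ j ≤ m, T^[j * k] x ∈ U

/-- Good sequences. -/
def Good (lam : ℕ → ℂ) : Prop :=
  ∀ (X : Type) [NormedAddCommGroup X] [NormedSpace ℂ X] [CompleteSpace X]
    [TopologicalSpace.SeparableSpace X], ¬ FiniteDimensional ℂ X →
    ∀ T : X →L[ℂ] X, PropA (fun n x => lam n • T^[n] x) → MultRec T

end Pool.Agent.H88.GoodSeq
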