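import Pool.Agent.H88.Gr2
import Pool.Agent.H88.Gh3

namespace Pool.Agent.H88.Gq
open Filter Topology Set Submodule Cardinal
open Gr (Dat up Con mid separable_cube)

inductive G : Type
  | leaf : G
  | node (p : Dat × ℝ) (c : ℕ → G) : G

open G

theorem code : ∃ ι : G → ℝ, Function.Injective ι := by
  let β : Option (Dat × ℝ) → Type := fun o => Option.casesOn o Empty fun _ => ℕ
  let ρ : WType β → G := WType.elim G fun ⟨o, r⟩ => match o, r with
    | none, _ => leaf
    | some a, r => node a r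
  have hW : #(WType β) ≤ 𝔠 := WType.cardinalMk_le_of_le (by
    refine (sum_le_sum _ (fun _ => 𝔠) fun o => ?_).trans ?_
    · cases o with
      | none => simpa [β] using (one_le_aleph0.trans aleph0_le_continuum)
      | some a => simp [β]
    · simp [mk_real, add_one_eq aleph0_le_continuum, aleph0_le_continuum])
  have : Function.Surjective ρ := fun γ => by
    induction γ with
    | leaf => exact ⟨WType.mk none Empty.elim, rfl⟩
    | node p c ih =>
      choose w hw using ih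
      exact ⟨WType.mk (some p) w, congrArg (node p) (funext hw)⟩
  obtain ⟨e⟩ := (le_def G ℝ).mp (((mk_le_of_surjective this).trans hW).trans mk_real.ge)
  exact ⟨e, e.injective⟩

def V (p : Dat) (S : Set (ℕ → ℝ)) : Prop :=
  (∀ η ∈ S, ∃ t, Con p η t) ∧ ∀ η ∈ S, ∀ ρ : ℝ, |ρ| < 1 → ContinuousWithinAt (up p) S (ρ • η)

def Adm : G → (G → ℝ) → Prop
  | leaf, φ => φ leaf = 0
  | node p c, φ => (∀ k, Adm (c k) φ) ∧
      (V p.1 ((· ∘ c) '' {ψ | ∀ k, Adm (c k) ψ}) → Con p.1 (φ ∘ c) (φ (node p c))) ∧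
      (¬ V p.1 ((· ∘ c) '' {ψ | ∀ k, Adm (c k) ψ}) → φ (node p c) = 0)

def Val (p : Dat × ℝ) (c : ℕ → G) : Prop := V p.1 ((· ∘ c) '' {ψ | ∀ k, Adm (c k) ψ})

def Loc (p : Dat × ℝ) (c : ℕ → G) (φ : G → ℝ) : Prop :=
  (Val p c → Con p.1 (φ ∘ c) (φ (node p c))) ∧ (¬ Val p c → φ (node p c) = 0)

def KK : Type := {φ : G → ℝ // φ leaf = 0 ∧ ∀ p c, Loc p c φ}

theorem adm_of (φ : KK) (γ : G) : Adm γ φ.1 := by
  induction γ with
  | leaf => exact φ.2.1
  | node p c ih => exact ⟨ih, φ.2.2 p c⟩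

open Classical in
noncomputable def xt (D : Set G) (φ θ : G → ℝ) : G → ℝ
  | leaf => 0
  | node p c => if node p c ∈ D then φ (node p c) else
      if Val p c then mid p.1 (fun k => xt D φ θ (c k)) (θ (node p c)) else 0

theorem extend (D : Set G) (φ θ : G → ℝ) (hb : leaf ∈ D → φ leaf = 0)
    (hD : ∀ p c, node p c ∈ D → (∀ k, c k ∈ D) ∧ Loc p c φ) :
    ∃ ψ : KK, (∀ γ ∈ D, ψ.1 γ = φ γ) ∧ ψ.1 = xt D φ θ := by
  have h1 : ∀ γ ∈ D, xt D φ θ γ = φ γ := fun γ hγ => by
    cases γ with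
    | leaf => exact (hb hγ).symm
    | node p c => exact if_pos hγ
  have h2 : ∀ γ, Adm γ (xt D φ θ) := fun γ => by
    induction γ with
    | leaf => rfl
    | node p c ih =>
      refine ⟨ih, ?_⟩
      show Loc p c _
      by_cases h : node p c ∈ D
      · have e : xt D φ θ ∘ c = φ ∘ c := funext fun k => h1 _ ((hD p c h).1 k)
        rw [Loc, e, h1 _ h]
        exact (hD p c h).2
      · refine ⟨fun hv => ?_, fun hv => (if_neg h).trans (if_neg hv)⟩
        rw [show xt D φ θ (node p c) = _ from (if_neg h).trans (if_pos hv)]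
        exact (hv.1 _ ⟨xt D φ θ, ih, rfl⟩).choose_spec.mid _
  exact ⟨⟨xt D φ θ, rfl, fun p c => (h2 (node p c)).2⟩, h1, rfl⟩

theorem bd_le (γ : G) : ∃ b, ∀ φ : KK, |φ.1 γ| ≤ b := by
  induction γ with
  | leaf => exact ⟨0, fun φ => by rw [φ.2.1, abs_zero]⟩
  | node p c ih =>
    choose b hb using ih
    by_cases h : Val p c
    · refine ⟨(p.1 0).2 + ∑ k ∈ (p.1 0).1.support, |(p.1 0).1 k| * b k, fun φ => ?_⟩
      have := (φ.2.2 p c).1 h 0
      have e : |Finsupp.linearCombination ℝ (φ.1 ∘ c) (p.1 0).1| ≤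
          ∑ k ∈ (p.1 0).1.support, |(p.1 0).1 k| * b k :=
        (Finset.abs_sum_le_sum_abs _ _).trans (Finset.sum_le_sum fun k _ =>
          (abs_mul _ _).trans_le (mul_le_mul_of_nonneg_left (hb k φ) (abs_nonneg _)))
      rw [abs_le] at this e ⊢
      constructor <;> linarith [this.1, this.2, e.1, e.2]
    · exact ⟨0, fun φ => by rw [(φ.2.2 p c).2 h, abs_zero]⟩

abbrev L := lp (fun _ : KK => ℝ) ⊤

noncomputable def ee (γ : G) : L :=
  ⟨fun φ => φ.1 γ, memℓp_infty ⟨_, by rintro _ ⟨φ, rfl⟩; exact (bd_le γ).choose_spec φ⟩⟩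

noncomputable abbrev XX : Submodule ℝ L := (span ℝ (range ee)).topologicalClosure

noncomputable def ex (γ : G) : XX := ⟨ee γ, le_topologicalClosure _ (subset_span ⟨γ, rfl⟩)⟩

theorem ex_dense : Dense (span ℝ (range ex) : Set XX) := fun y => by
  rw [closure_subtype]
  refine closure_mono ?_ y.2
  have : span ℝ (range ee) ≤ (span ℝ (range ex)).map (Submodule.subtype _) :=
    span_le.mpr (by rintro _ ⟨γ, rfl⟩; exact ⟨ex γ, subset_span ⟨γ, rfl⟩, rfl⟩)
  exact this

noncomputable def ev (φ : KK) : XX →L[ℝ] ℝ :=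
  LinearMap.mkContinuous ⟨⟨fun x => x.1 φ, fun _ _ => rfl⟩, fun _ _ => rfl⟩ 1 fun x => by
    rw [one_mul]; exact lp.norm_apply_le_norm ENNReal.top_ne_zero x.1 φ

theorem ev_le (φ : KK) (x : XX) : |ev φ x| ≤ ‖x‖ :=
  lp.norm_apply_le_norm ENNReal.top_ne_zero x.1 φ

theorem ev_ex (φ : KK) (γ : G) : ev φ (ex γ) = φ.1 γ := rfl

instance : Nonempty KK :=
  ⟨(extend ∅ 0 0 (fun _ => rfl) fun _ _ h => absurd h (notMem_empty _)).choose⟩

theorem le_ev {x : XX} {c : ℝ} (h : ∀ φ, |ev φ x| ≤ c) : ‖x‖ ≤ c :=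
  lp.norm_le_of_forall_le ((abs_nonneg _).trans (h (Classical.arbitrary _))) h

theorem lc (ψ : XX →L[ℝ] ℝ) (c : ℕ → G) (a : ℕ →₀ ℝ) :
    ψ (Finsupp.linearCombination ℝ (ex ∘ c) a) =
      Finsupp.linearCombination ℝ ((fun γ => ψ (ex γ)) ∘ c) a :=
  Finsupp.apply_linearCombination ℝ ψ.toLinearMap _ a

theorem dual (ψ : XX →L[ℝ] ℝ) (h : ∀ x, |ψ x| ≤ ‖x‖) : ∃ φ : KK, ev φ = ψ := by
  have k : ∀ {x c}, (∀ φ, |ev φ x| ≤ c) → |ψ x| ≤ c := fun h' => (h _).trans (le_ev h')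
  refine ⟨⟨fun γ => ψ (ex γ), abs_nonpos_iff.mp (k fun φ => by rw [ev_ex, φ.2.1, abs_zero]),
    fun p c => ⟨fun hv a => ?_, fun hv => ?_⟩⟩,
    ContinuousLinearMap.ext_on ex_dense (by rintro _ ⟨γ, rfl⟩; rfl)⟩
  · rw [← lc, ← map_sub]
    exact k fun φ => by rw [map_sub, lc]; exact (φ.2.2 p c).1 hv a
  · exact abs_nonpos_iff.mp (k fun φ => by rw [ev_ex, (φ.2.2 p c).2 hv, abs_zero])

theorem scale (φ : KK) {ρ : ℝ} (h : |ρ| ≤ 1) : ∃ ψ : KK, ev ψ = ρ • ev φ ∧ ψ.1 = ρ • φ.1 := by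
  obtain ⟨ψ, e⟩ := dual (ρ • ev φ) fun x => (abs_mul _ _).trans_le
    ((mul_le_of_le_one_left (abs_nonneg _) h).trans (ev_le φ x))
  exact ⟨ψ, e, funext fun γ => congrArg (fun f : XX →L[ℝ] ℝ => f (ex γ)) e⟩

theorem tend {ι J : Type} {l : Filter ι} {F : ι → KK} {φ : KK} {c : J → G}
    (h : ∀ k, Tendsto (fun i => (F i).1 (c k)) l (𝓝 (φ.1 (c k)))) {x : XX}
    (hx : x ∈ (span ℝ (range (ex ∘ c))).topologicalClosure) :
    Tendsto (fun i => ev (F i) x) l (𝓝 (ev φ x)) := by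
  have : ∀ y ∈ span ℝ (range (ex ∘ c)), Tendsto (fun i => ev (F i) y) l (𝓝 (ev φ y)) :=
    fun y hy => by
    induction hy using span_induction with
    | mem x hx => obtain ⟨k, rfl⟩ := hx; exact h k
    | zero => simp only [map_zero]; exact tendsto_const_nhds
    | add x y _ _ h1 h2 => simp only [map_add]; exact h1.add h2
    | smul c x _ h => simp only [map_smul]; exact h.const_smul c
  rw [Metric.tendsto_nhds]
  intro ε hε
  obtain ⟨y, y1, y2⟩ := Metric.mem_closure_iff.mp hx (ε / 3) (by positivity)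
  filter_upwards [Metric.tendsto_nhds.mp (this y y1) (ε / 3) (by positivity)] with i hi
  have a := ev_le (F i) (x - y)
  have b := ev_le φ (x - y)
  rw [dist_eq_norm] at y2
  rw [map_sub, abs_le] at a b
  rw [Real.dist_eq, abs_lt] at hi ⊢
  constructor <;> linarith [a.1, a.2, b.1, b.2, hi.1, hi.2]

theorem agree {φ ψ : KK} {c : ℕ → G} (h : ∀ k, φ.1 (c k) = ψ.1 (c k)) {x : XX}
    (hx : x ∈ (span ℝ (range (ex ∘ c))).topologicalClosure) : ev φ x = ev ψ x :=
  tendsto_nhds_unique tendsto_const_nhds (tend (l := (atTop : Filter ℕ)) (F := fun _ => φ)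
    (fun k => by rw [h k]; exact tendsto_const_nhds) hx)

def desc : G → Set G
  | leaf => {leaf}
  | node p c => insert (node p c) (⋃ k, desc (c k))

theorem desc_self (γ : G) : γ ∈ desc γ := by cases γ <;> simp [desc]

theorem desc_c (γ : G) : (desc γ).Countable := by
  induction γ with
  | leaf => exact countable_singleton _
  | node p c ih => exact (countable_iUnion ih).insert _

theorem desc_cl (γ : G) {p c} (h : node p c ∈ desc γ) (k : ℕ) : c k ∈ desc γ := by
  induction γ with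
  | leaf => simp [desc] at h
  | node q d ih =>
    rcases h with h | h
    · cases h; exact Or.inr (mem_iUnion.mpr ⟨k, desc_self _⟩)
    · obtain ⟨j, hj⟩ := mem_iUnion.mp h
      exact Or.inr (mem_iUnion.mpr ⟨j, ih j hj⟩)

theorem supp {J : Type} [Countable J] (x : J → XX) : ∃ c : ℕ → G,
    (∀ p d, node p d ∈ range c → ∀ k, d k ∈ range c) ∧
    ∀ j, x j ∈ (span ℝ (range (ex ∘ c))).topologicalClosure := by
  choose y y1 y2 using fun j => mem_closure_iff_seq_limit.mp (ex_dense (x j))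
  choose a ha using fun j n => Finsupp.mem_span_range_iff_exists_finsupp.mp (y1 j n)
  obtain ⟨c, hc⟩ := (((countable_iUnion fun j => countable_iUnion fun n =>
    (a j n).support.countable_toSet.biUnion fun γ _ => desc_c γ)).insert
      leaf).exists_eq_range (insert_nonempty _ _)
  refine ⟨c, fun p d h k => ?_, fun j => mem_closure_of_tendsto (y2 j)
    (Eventually.of_forall fun n => ?_)⟩
  · rw [← hc] at h ⊢
    simp only [mem_insert_iff, mem_iUnion, reduceCtorEq, false_or] at h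
    obtain ⟨j, n, γ, h1, h2⟩ := h
    exact Or.inr (by simp only [mem_iUnion]; exact ⟨j, n, γ, h1, desc_cl γ h2 k⟩)
  · rw [← ha]
    refine sum_mem fun γ hγ => smul_mem _ _ (subset_span ?_)
    obtain ⟨k, hk⟩ : γ ∈ range c := by
      rw [← hc]
      exact Or.inr (by simp only [mem_iUnion]; exact ⟨j, n, γ, hγ, desc_self γ⟩)
    exact ⟨k, congrArg ex hk⟩

theorem val_iff (p c) : Val p c ↔ V p.1 (range fun φ : KK => φ.1 ∘ c) := by
  rw [Val]
  congr! 1
  ext η
  constructor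
  · rintro ⟨φ, hφ, rfl⟩
    obtain ⟨φ', h1, -⟩ := extend {γ | Adm γ φ} φ 0 id fun p c h => ⟨h.1, h.2⟩
    exact ⟨φ', funext fun k => h1 _ (hφ k)⟩
  · rintro ⟨φ, rfl⟩
    exact ⟨φ.1, fun k => adm_of _ _, rfl⟩

theorem total : ∃ φ : ℕ → KK, ∀ x, (∀ n, ev (φ n) x = 0) → x = 0 := by
  classical
  obtain ⟨ι, hι⟩ := code
  have := separable_cube
  choose Φ _ hΦ using fun Θ : ℝ → ℝ =>
    extend ∅ 0 (Θ ∘ ι) (fun _ => rfl) fun _ _ h => absurd h (notMem_empty _)
  refine ⟨fun n => Φ (TopologicalSpace.denseSeq _ n), fun x hx => ?_⟩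
  refine norm_le_zero_iff.mp (le_ev fun φ => ?_)
  obtain ⟨ψ, p1, p2⟩ := scale φ (ρ := 1 / 2) (by norm_num [abs_of_pos])
  have : ∀ γ, ∃ s, ∀ p c, γ = node p c → Val p c → mid p.1 (ψ.1 ∘ c) s = ψ.1 γ := fun γ => by
    cases γ with
    | leaf => exact ⟨0, by simp⟩
    | node p c =>
      by_cases h : Val p c
      · obtain ⟨s, hs⟩ := ((ψ.2.2 p c).1 h).ex_mid
        exact ⟨s, fun _ _ e _ => by cases e; exact hs⟩
      · exact ⟨0, fun _ _ e h' => by cases e; exact absurd h' h⟩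
  choose θ hθ using this
  have key : ∀ γ, Tendsto (fun Θ => (Φ Θ).1 γ) (𝓝 (Function.extend ι θ 0)) (𝓝 (ψ.1 γ)) := by
    intro γ
    induction γ with
    | leaf => simp only [fun Θ => (Φ Θ).2.1, ψ.2.1]; exact tendsto_const_nhds
    | node p c ih =>
      by_cases h : Val p c
      · have e : ∀ Θ, (Φ Θ).1 (node p c) = mid p.1 ((Φ Θ).1 ∘ c) (Θ (ι (node p c))) := fun Θ => by
          rw [hΦ]; exact (if_neg (notMem_empty _)).trans (if_pos h)
        have t1 := (h.2 _ ⟨φ.1, fun k => adm_of φ _, rfl⟩ (1 / 2) (by norm_num [abs_of_pos])).tendsto.comp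
          (tendsto_nhdsWithin_iff.mpr ⟨tendsto_pi_nhds.mpr fun k => by
            have := ih k
            rwa [p2] at this, Eventually.of_forall fun Θ => ⟨(Φ Θ).1, fun k => adm_of _ _, rfl⟩⟩)
        have t2 := (h.2 _ ⟨φ.1, fun k => adm_of φ _, rfl⟩ (-(1 / 2))
          (by norm_num [abs_of_pos])).tendsto.comp (f := fun Θ => -((Φ Θ).1 ∘ c))
          (tendsto_nhdsWithin_iff.mpr ⟨tendsto_pi_nhds.mpr fun k => by
            have := (ih k).neg
            rw [p2] at this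
            rw [neg_smul]
            exact this, Eventually.of_forall fun Θ => by
            obtain ⟨χ, -, h⟩ := scale (Φ Θ) (ρ := -1) (by simp)
            rw [neg_one_smul] at h
            exact ⟨χ.1, fun k => adm_of _ _, by rw [h]; rfl⟩⟩)
        rw [neg_smul] at t2
        rw [show (1 / 2 : ℝ) • (φ.1 ∘ c) = ψ.1 ∘ c by rw [p2]; rfl] at t1 t2
        have t3 := (continuous_apply (ι (node p c))).tendsto (Function.extend ι θ 0)
        rw [hι.extend_apply] at t3
        simp only [e, ← hθ _ p c rfl h]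
        exact (Tendsto.neg t2).add ((tendsto_const_nhds.max (tendsto_const_nhds.min t3)).mul
          (Tendsto.add t1 t2))
      · simp only [fun Θ => ((Φ Θ).2.2 p c).2 h, (ψ.2.2 p c).2 h]; exact tendsto_const_nhds
  have t := tend (c := id) key (x := x) (ex_dense x)
  by_contra h
  have h' : ev ψ x ≠ 0 := by
    rw [p1]
    intro e
    exact h (by rw [show ev φ x = 0 by simpa using e, abs_zero])
  obtain ⟨_, h1, n, rfl⟩ := mem_closure_iff_nhds.mp
    (TopologicalSpace.denseRange_denseSeq _ (Function.extend ι θ 0)) _ (t.eventually_ne h')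
  exact h1 (hx n)

end Pool.Agent.H88.Gq
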