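import Pool.Agent.H88.Gq2

namespace Pool.Agent.H88.Gq
open Filter Topology Set Submodule Cardinal G

theorem recur {α ι : Type} [LinearOrder ι] [WellFoundedLT ι] (Gd Ok Sm : Set α → Prop)
    (R : ι → Set α → Prop) (P : Set α) (h0 : Gd P) (h1 : Ok ∅)
    (h2 : ∀ i (C : ι → Set α), (∀ j, Ok (C j)) → Sm (P ∪ ⋃ j < i, C j))
    (h3 : ∀ Q, (∀ T : Finset α, ↑T ⊆ Q → ∃ U, Gd U ∧ ↑T ⊆ U ∧ U ⊆ Q) → Gd Q)
    (h4 : ∀ i U V, U ⊆ V → R i U → R i V)
    (h5 : ∀ i U, Gd U → Sm U → ∃ C, Ok C ∧ Gd (U ∪ C) ∧ R i (U ∪ C)) :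
    ∃ C : ι → Set α, (∀ j, Ok (C j)) ∧ Gd (P ∪ ⋃ j, C j) ∧ ∀ i, R i (P ∪ ⋃ j, C j) := by
  classical
  have : ∀ i U, ∃ C, Ok C ∧ (Gd U → Sm U → Gd (U ∪ C) ∧ R i (U ∪ C)) := fun i U => by
    by_cases h : Gd U ∧ Sm U
    · exact (h5 i U h.1 h.2).imp fun C hC => ⟨hC.1, fun _ _ => hC.2⟩
    · exact ⟨∅, h1, fun a b => absurd ⟨a, b⟩ h⟩
  choose s s1 s2 using this
  let C : ι → Set α := (wellFounded_lt (α := ι)).fix fun i r => s i (P ∪ ⋃ j, ⋃ h : j < i, r j h)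
  have c1 : ∀ i, C i = s i (P ∪ ⋃ j < i, C j) := fun i => WellFounded.fix_eq _ _ _
  have c2 : ∀ i, Ok (C i) := fun i => by rw [c1]; exact s1 _ _
  have key : ∀ I : ι → Prop, (∀ i j, j < i → I i → I j) →
      (∀ i, I i → Gd (P ∪ (⋃ j < i, C j) ∪ C i)) → Gd (P ∪ ⋃ j, ⋃ _ : I j, C j) := by
    intro I i1 i2
    refine h3 _ fun T => ?_
    suffices h : ↑T ⊆ P ∪ ⋃ j, ⋃ _ : I j, C j →
        ↑T ⊆ P ∨ ∃ i, I i ∧ ↑T ⊆ P ∪ (⋃ j < i, C j) ∪ C i by
      intro hT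
      rcases h hT with h | ⟨i, a, b⟩
      · exact ⟨P, h0, h, subset_union_left⟩
      · refine ⟨_, i2 i a, b, ?_⟩
        rintro x ((hx | hx) | hx)
        · exact Or.inl hx
        · obtain ⟨j, j1, j2⟩ := mem_iUnion₂.mp hx
          exact Or.inr (mem_iUnion₂.mpr ⟨j, i1 i j j1 a, j2⟩)
        · exact Or.inr (mem_iUnion₂.mpr ⟨i, a, hx⟩)
    have mono : ∀ i k, i ≤ k → P ∪ (⋃ j < i, C j) ∪ C i ⊆ P ∪ (⋃ j < k, C j) ∪ C k := by
      intro i k hik
      rcases hik.eq_or_lt with rfl | h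
      · rfl
      · rintro x ((hx | hx) | hx)
        · exact Or.inl (Or.inl hx)
        · obtain ⟨j, j1, j2⟩ := mem_iUnion₂.mp hx
          exact Or.inl (Or.inr (mem_iUnion₂.mpr ⟨j, lt_trans j1 h, j2⟩))
        · exact Or.inl (Or.inr (mem_iUnion₂.mpr ⟨i, h, hx⟩))
    induction T using Finset.induction_on with
    | empty => exact fun _ => Or.inl (by simp)
    | insert t T _ ih =>
      simp only [Finset.coe_insert, insert_subset_iff]
      rintro ⟨a, b⟩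
      rcases a with a | a
      · exact (ih b).imp (fun h => ⟨a, h⟩) fun ⟨i, x, y⟩ => ⟨i, x, Or.inl (Or.inl a), y⟩
      · obtain ⟨k, k1, k2⟩ := mem_iUnion₂.mp a
        rcases ih b with h | ⟨i, x, y⟩
        · exact Or.inr ⟨k, k1, Or.inr k2, h.trans (subset_union_left.trans subset_union_left)⟩
        · rcases le_total i k with h | h
          · exact Or.inr ⟨k, k1, Or.inr k2, y.trans (mono i k h)⟩
          · exact Or.inr ⟨i, x, mono k i h (Or.inr k2), y⟩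
  have c3 : ∀ i, Gd (P ∪ (⋃ j < i, C j) ∪ C i) ∧ R i (P ∪ (⋃ j < i, C j) ∪ C i) := fun i => by
    induction i using WellFoundedLT.induction with
    | ind i ih =>
      have := s2 i _ (key (· < i) (fun _ _ a b => a.trans b) fun j hj => (ih j hj).1) (h2 i C c2)
      rwa [← c1] at this
  refine ⟨C, c2, by simpa using key (fun _ => True) (fun _ _ _ _ => trivial) fun i _ => (c3 i).1,
    fun i => h4 i _ _ (union_subset (union_subset_union_right _
      (iUnion₂_subset fun j _ => subset_iUnion C j))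
      (subset_union_of_subset_right (subset_iUnion C i) _)) (c3 i).2⟩

def Iso (S : Set (XX × XX)) : Prop := ∀ r ∈ span ℝ S, ‖r.1‖ = ‖r.2‖

theorem Iso.inj {S} (h : Iso S) :
    Function.Injective (LinearMap.fst ℝ XX XX ∘ₗ (span ℝ S).subtype) :=
  (injective_iff_map_eq_zero _).mpr fun r hr => Subtype.ext (Prod.ext hr (by
    have := h r.1 r.2
    rw [show r.1.1 = 0 from hr, norm_zero] at this
    exact norm_eq_zero.mp this.symm))

theorem Iso.kf {S} (h : Iso S) (φ : KK) : ∃ ψ : KK, ∀ r ∈ S, ev ψ r.1 = ev φ r.2 := by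
  obtain ⟨g, g1, g2⟩ := Gw.hb _ h.inj ((ev φ).toLinearMap ∘ₗ LinearMap.snd ℝ XX XX ∘ₗ
    (span ℝ S).subtype) fun r => (le_abs_self _).trans ((ev_le _ _).trans (h r.1 r.2).ge)
  obtain ⟨ψ, rfl⟩ := dual g g1
  exact ⟨ψ, fun r hr => g2 ⟨r, subset_span hr⟩⟩

theorem Iso.swap {S} (h : Iso S) : Iso (Prod.swap '' S) := fun r hr => by
  have : r.swap ∈ span ℝ S := by
    induction hr using span_induction with
    | mem x hx => obtain ⟨y, hy, rfl⟩ := hx; exact subset_span hy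
    | zero => exact zero_mem _
    | add x y _ _ a b => exact add_mem a b
    | smul c x _ a => exact smul_mem _ c a
  exact (h _ this).symm

theorem le_of_kf {S : Set (XX × XX)} (a b : XX × XX →ₗ[ℝ] XX)
    (h : ∀ φ, ∃ ψ : KK, ∀ r ∈ S, ev ψ (a r) = ev φ (b r)) :
    ∀ r ∈ span ℝ S, ‖b r‖ ≤ ‖a r‖ := fun r hr => le_ev fun φ => by
  obtain ⟨ψ, hψ⟩ := h φ
  have : ev ψ (a r) = ev φ (b r) := LinearMap.eqOn_span (f := (ev ψ).toLinearMap ∘ₗ a)
    (g := (ev φ).toLinearMap ∘ₗ b) hψ hr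
  rw [← this]; exact ev_le _ _

theorem Iso.ins {S} (h : Iso S) {v w : XX} (h' : ∀ r ∈ span ℝ S, ‖r.2 - w‖ = ‖r.1 - v‖) :
    Iso (insert (v, w) S) := fun r hr => by
  obtain ⟨t, z, hz, rfl⟩ := mem_span_insert.mp hr
  show ‖t • v + z.1‖ = ‖t • w + z.2‖
  rcases eq_or_ne t 0 with rfl | ht
  · simpa using h z hz
  have e : ∀ x y : XX, t • x + y = -t • (-t⁻¹ • y - x) := fun x y => by
    rw [smul_sub, smul_smul, neg_mul_neg, mul_inv_cancel₀ ht, one_smul, neg_smul, sub_neg_eq_add,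
      add_comm]
  rw [e, e, norm_smul, norm_smul]
  exact congrArg _ (h' _ (smul_mem _ (-t⁻¹) hz)).symm

def Cl (D A : Set G) : Prop := ∀ p c, node p c ∈ A → ∀ k, c k ∈ D ∪ A

def Good (S : Set (XX × XX)) (D : Set G) (P : Set (G × G)) : Prop :=
  Iso (S ∪ Prod.map ex ex '' P) ∧ Cl D (Prod.fst '' P) ∧ Cl D (Prod.snd '' P) ∧ (leaf, leaf) ∈ P

theorem Good.swap {S D P} (h : Good S D P) : Good (Prod.swap '' S) D (Prod.swap '' P) := by
  refine ⟨?_, ?_, ?_, ⟨_, h.2.2.2, rfl⟩⟩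
  · have := h.1.swap
    rw [image_union, image_image] at this
    rwa [image_image]
  · rw [image_image]; exact h.2.2.1
  · rw [image_image]; exact h.2.1

theorem good_fin (S D) (Q : Set (G × G))
    (h : ∀ T : Finset (G × G), ↑T ⊆ Q → ∃ U, Good S D U ∧ ↑T ⊆ U ∧ U ⊆ Q) : Good S D Q := by
  classical
  have k : ∀ f : G × G → G, (∀ U, Good S D U → Cl D (f '' U)) → Cl D (f '' Q) := by
    rintro f hf p c ⟨g, g1, g2⟩ k
    obtain ⟨U, u1, u2, u3⟩ := h {g} (by simpa)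
    exact union_subset_union_right _ (image_mono u3) (hf U u1 p c ⟨g, by simpa using u2, g2⟩ k)
  refine ⟨fun r hr => ?_, k _ fun U h => h.2.1, k _ fun U h => h.2.2.1, ?_⟩
  · rw [span_union] at hr
    obtain ⟨a, ha, b, hb, rfl⟩ := mem_sup.mp hr
    obtain ⟨T, h1, h2⟩ := mem_span_finite_of_mem_span hb
    obtain ⟨T', t1, rfl⟩ := Finset.subset_set_image_iff.mp h1
    obtain ⟨U, u1, u2, -⟩ := h T' t1
    rw [Finset.coe_image] at h2
    exact u1.1 _ (add_mem (span_mono subset_union_left ha)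
      (span_mono ((image_mono u2).trans subset_union_right) h2))
  · obtain ⟨U, u1, -, u3⟩ := h ∅ (by simp)
    exact u3 u1.2.2.2

theorem cl_ins {D A : Set G} (h : Cl D A) {γ} (h' : ∀ p c, node p c = γ → ∀ k, c k ∈ D ∪ A) :
    Cl D (insert γ A) := fun p c hc k =>
  union_subset_union_right _ (subset_insert _ _) (hc.elim (fun e => h' p c e k) fun e => h p c e k)

theorem fwd1 {S P} {d : ℕ → G} (hd : ∀ p c, node p c ∈ range d → ∀ k, c k ∈ range d)
    (hS : S.Finite) (h2 : ∀ r ∈ S, r.2 ∈ (span ℝ (range (ex ∘ d))).topologicalClosure)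
    (h : Good S (range d) P) (hP : P.Finite) (i : ℕ) : ∃ δ, Good S (range d) (insert (d i, δ) P) := by
  have := FiniteDimensional.span_of_finite ℝ (hS.union (hP.image (Prod.map ex ex)))
  obtain ⟨c, hc⟩ := ((countable_range d).union (hP.image Prod.snd).countable).exists_eq_range
    ((range_nonempty d).mono subset_union_left)
  let e := LinearEquiv.ofInjective _ h.1.inj
  have hm : span ℝ (S ∪ Prod.map ex ex '' P) ≤
      (span ℝ (range (ex ∘ c))).topologicalClosure.comap (LinearMap.snd ℝ XX XX) := span_le.mpr (by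
    rintro r (hr | ⟨g, hg, rfl⟩)
    · refine topologicalClosure_mono (span_mono ?_) (h2 r hr)
      rw [range_comp, range_comp, ← hc]
      exact image_mono subset_union_left
    · refine le_topologicalClosure _ (subset_span ?_)
      rw [range_comp, ← hc]
      exact ⟨g.2, Or.inr ⟨g, hg, rfl⟩, rfl⟩)
  obtain ⟨p, hp⟩ := one _ (LinearMap.snd ℝ XX XX ∘ₗ (Submodule.subtype _) ∘ₗ e.symm.toLinearMap)
    (fun x => by
      obtain ⟨r, rfl⟩ := e.surjective x
      simp only [LinearMap.comp_apply, LinearEquiv.coe_coe, e.symm_apply_apply]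
      exact (h.1 r.1 r.2).symm) c (fun x => hm (e.symm x).2) (ex (d i))
  refine ⟨node p c, ?_, ?_, ?_, Or.inr h.2.2.2⟩
  · rw [image_insert_eq, union_insert]
    refine h.1.ins fun r hr => ?_
    have := hp (e ⟨r, hr⟩)
    simp only [LinearMap.comp_apply, LinearEquiv.coe_coe, e.symm_apply_apply] at this
    exact this
  · rw [image_insert_eq]
    exact cl_ins h.2.1 fun q b e k => Or.inl (hd q b ⟨i, e.symm⟩ k)
  · rw [image_insert_eq]
    exact cl_ins h.2.2.1 fun q b e k => by cases e; rw [hc]; exact ⟨k, rfl⟩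

theorem Good.kf {P} (h : Good ∅ ∅ P) (φ : KK) : ∃ ψ : KK, ∀ g ∈ P, ψ.1 g.1 = φ.1 g.2 :=
  (h.1.kf φ).imp fun _ h g hg => h _ (Or.inr ⟨g, hg, rfl⟩)

theorem add1 {P} (h : Good ∅ ∅ P) {p q c c'} (hp : p.1 = q.1) (hc : ∀ k, (c k, c' k) ∈ P)
    (hn : node p c ∉ Prod.fst '' P) (hv : Val p c ↔ Val q c') (φ : KK) :
    ∃ ψ : KK, ψ.1 (node p c) = φ.1 (node q c') ∧ ∀ g ∈ P, ψ.1 g.1 = φ.1 g.2 := by
  classical
  obtain ⟨ψ, hψ⟩ := h.kf φ
  have u1 : ∀ δ ∈ Prod.fst '' P, Function.update ψ.1 (node p c) (φ.1 (node q c')) δ = ψ.1 δ :=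
    fun δ h => Function.update_of_ne (by rintro rfl; exact hn h) _ _
  obtain ⟨χ, h1, -⟩ := extend (insert (node p c) (Prod.fst '' P))
    (Function.update ψ.1 (node p c) (φ.1 (node q c'))) 0 (fun _ => by
      rw [Function.update_of_ne (by simp)]; exact ψ.2.1) fun r d hr => by
    rcases hr with hr | hr
    · cases hr
      refine ⟨fun k => Or.inr ⟨_, hc k, rfl⟩, ?_⟩
      rw [Loc, Function.update_self, show Function.update ψ.1 (node p c) (φ.1 (node q c')) ∘ c =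
        φ.1 ∘ c' from funext fun k => (u1 _ ⟨_, hc k, rfl⟩).trans (hψ _ (hc k)), hv, hp]
      exact φ.2.2 q c'
    · have := fun k => (h.2.1 r d hr k).resolve_left (notMem_empty _)
      refine ⟨fun k => Or.inr (this k), ?_⟩
      rw [Loc, u1 _ hr, show Function.update ψ.1 (node p c) (φ.1 (node q c')) ∘ d = ψ.1 ∘ d from
        funext fun k => u1 _ (this k)]
      exact ψ.2.2 r d
  exact ⟨χ, (h1 _ (mem_insert _ _)).trans (Function.update_self ..), fun g hg =>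
    (h1 _ (Or.inr ⟨g, hg, rfl⟩)).trans ((u1 _ ⟨g, hg, rfl⟩).trans (hψ g hg))⟩

theorem add2 {P} (h : Good ∅ ∅ P) (hP : #P < 𝔠) {p c} (hc : ∀ k, c k ∈ Prod.fst '' P)
    (hn : node p c ∉ Prod.fst '' P) : ∃ δ, Good ∅ ∅ (insert (node p c, δ) P) := by
  choose g g1 g2 using hc
  have hc : ∀ k, (c k, (g k).2) ∈ P := fun k => by rw [← g2]; exact g1 k
  obtain ⟨l, hl⟩ : ∃ l : ℝ, node (p.1, l) (fun k => (g k).2) ∉ Prod.snd '' P := by
    by_contra! hh
    have := mk_le_of_injective (f := fun l : ℝ => (⟨_, hh l⟩ : Prod.snd '' P))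
      fun a b e => by simpa using e
    exact absurd ((mk_real.ge.trans this).trans mk_image_le) hP.not_ge
  have h' := h.swap
  rw [image_empty] at h'
  have hv : Val p c ↔ Val (p.1, l) fun k => (g k).2 := by
    rw [val_iff, val_iff]
    congr! 1
    refine subset_antisymm ?_ ?_ <;> rintro _ ⟨φ, rfl⟩
    · obtain ⟨ψ, hψ⟩ := h'.kf φ
      exact ⟨ψ, funext fun k => hψ _ ⟨_, hc k, rfl⟩⟩
    · obtain ⟨ψ, hψ⟩ := h.kf φ
      exact ⟨ψ, funext fun k => hψ _ (hc k)⟩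
  refine ⟨node (p.1, l) fun k => (g k).2, fun r hr => le_antisymm
    (le_of_kf (LinearMap.snd ℝ XX XX) (LinearMap.fst ℝ XX XX) (fun φ => ?_) r hr)
    (le_of_kf (LinearMap.fst ℝ XX XX) (LinearMap.snd ℝ XX XX) (fun φ => ?_) r hr), ?_, ?_,
    Or.inr h.2.2.2⟩
  · obtain ⟨ψ, a, b⟩ := add1 h' (p := (p.1, l)) (q := p) rfl (fun k => ⟨_, hc k, rfl⟩)
      (by rwa [image_image]) hv.symm φ
    refine ⟨ψ, ?_⟩
    rintro _ (hr | ⟨_, rfl | hg, rfl⟩)
    exacts [absurd hr (notMem_empty _), a, b _ ⟨_, hg, rfl⟩]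
  · obtain ⟨ψ, a, b⟩ := add1 h (p := p) (q := (p.1, l)) rfl hc hn hv φ
    refine ⟨ψ, ?_⟩
    rintro _ (hr | ⟨_, rfl | hg, rfl⟩)
    exacts [absurd hr (notMem_empty _), a, b _ hg]
  · rw [image_insert_eq]
    exact cl_ins h.2.1 fun q b e k => by cases e; exact Or.inr ⟨_, hc k, rfl⟩
  · rw [image_insert_eq]
    exact cl_ins h.2.2.1 fun q b e k => by cases e; exact Or.inr ⟨_, hc k, rfl⟩

theorem sm_un {α : Type} {P C : Set α} (hP : #P < 𝔠) (hC : C.Countable) : #(P ∪ C : Set α) < 𝔠 :=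
  (mk_union_le _ _).trans_lt (add_lt_of_lt aleph0_le_continuum hP
    (hC.le_aleph0.trans_lt aleph0_lt_continuum))

theorem fwd2 (γ : G) : ∀ P, Good ∅ ∅ P → #P < 𝔠 →
    ∃ C, C.Countable ∧ Good ∅ ∅ (P ∪ C) ∧ γ ∈ Prod.fst '' (P ∪ C) := by
  induction γ with
  | leaf => exact fun P h _ => ⟨∅, countable_empty, by simpa, _, Or.inl h.2.2.2, rfl⟩
  | node p c ih =>
    intro P h hP
    obtain ⟨C, c1, c2, c3⟩ := recur (Good ∅ ∅) Set.Countable (fun U => #U < 𝔠)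
      (fun k U => c k ∈ Prod.fst '' U) P h countable_empty (fun i C hC => sm_un hP
        (countable_iUnion fun j => countable_iUnion fun _ => hC j)) (good_fin _ _)
      (fun _ _ _ a b => image_mono a b) ih
    by_cases hn : node p c ∈ Prod.fst '' (P ∪ ⋃ j, C j)
    · exact ⟨_, countable_iUnion c1, c2, hn⟩
    · obtain ⟨δ, hδ⟩ := add2 c2 (sm_un hP (countable_iUnion c1)) c3 hn
      exact ⟨insert (node p c, δ) (⋃ j, C j), (countable_iUnion c1).insert _,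
        by rwa [union_insert], _, Or.inr (mem_insert _ _), rfl⟩

end Pool.Agent.H88.Gq
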