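import Pool.Agent.H88.Gq3

namespace Pool.Agent.H88.Gq
open Filter Topology Set Submodule Cardinal G

theorem both {S D γ} (Ok Sm : Set (G × G) → Prop) (o1 : ∀ A B, Ok A → Ok B → Ok (A ∪ B))
    (o2 : ∀ A, Ok A → Ok (Prod.swap '' A)) (o3 : ∀ A B, Sm A → Ok B → Sm (Prod.swap '' (A ∪ B)))
    (h1 : ∀ P, Good S D P → Sm P → ∃ C, Ok C ∧ Good S D (P ∪ C) ∧ γ ∈ Prod.fst '' (P ∪ C))
    (h2 : ∀ P, Good (Prod.swap '' S) D P → Sm P →
      ∃ C, Ok C ∧ Good (Prod.swap '' S) D (P ∪ C) ∧ γ ∈ Prod.fst '' (P ∪ C))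
    (P) (h : Good S D P) (hP : Sm P) :
    ∃ C, Ok C ∧ Good S D (P ∪ C) ∧ γ ∈ Prod.fst '' (P ∪ C) ∧ γ ∈ Prod.snd '' (P ∪ C) := by
  obtain ⟨C, c1, c2, c3⟩ := h1 P h hP
  obtain ⟨B, b1, b2, b3⟩ := h2 _ c2.swap (o3 _ _ hP c1)
  have e : Prod.swap '' (Prod.swap '' (P ∪ C) ∪ B) = P ∪ (C ∪ Prod.swap '' B) := by
    rw [image_union, image_image]; simp [union_assoc]
  refine ⟨C ∪ Prod.swap '' B, o1 _ _ c1 (o2 _ b1), ?_,
    image_mono (union_subset_union_right _ subset_union_left) c3, ?_⟩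
  · have := b2.swap
    rw [e, image_image] at this
    simpa using this
  · rw [← e, image_image]; exact b3

theorem all {P} (h : Good ∅ ∅ P) (hP : P.Countable) : ∃ Q, P ⊆ Q ∧ Good ∅ ∅ Q ∧
    ∀ γ, γ ∈ Prod.fst '' Q ∧ γ ∈ Prod.snd '' Q := by
  obtain ⟨ι, hι⟩ := code
  have hG : #G ≤ #((𝔠 : Cardinal.{0}).ord.ToType) := by
    rw [mk_ord_toType, ← mk_real]; exact mk_le_of_injective hι
  obtain ⟨e⟩ := (le_def _ _).mp hG
  have : Nonempty G := ⟨leaf⟩
  obtain ⟨C, -, c2, c3⟩ := recur (Good ∅ ∅) Set.Countable (fun U => #U < 𝔠)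
    (fun (i : (𝔠 : Cardinal.{0}).ord.ToType) U => Function.invFun e i ∈ Prod.fst '' U ∧
      Function.invFun e i ∈ Prod.snd '' U) P h countable_empty (fun i C hC => by
      rw [union_comm]
      refine sm_un ?_ hP
      rw [show (⋃ j < i, C j) = ⋃ j : Iio i, C j from biUnion_eq_iUnion (Iio i) fun j _ => C j]
      exact (mk_iUnion_le _).trans_lt (mul_lt_of_lt aleph0_le_continuum (mk_Iio_toType_ord_lt i)
        ((ciSup_le' fun j => (hC _).le_aleph0).trans_lt aleph0_lt_continuum))) (good_fin _ _)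
    (fun _ _ _ a b => ⟨image_mono a b.1, image_mono a b.2⟩) fun i =>
      both Set.Countable (fun U => #U < 𝔠) (fun _ _ => Countable.union) (fun _ a => a.image _)
        (fun _ _ a b => mk_image_le.trans_lt (sm_un a b)) (fwd2 _)
        (by rw [image_empty]; exact fwd2 _)
  refine ⟨_, subset_union_left, c2, fun γ => ?_⟩
  have := c3 (e γ)
  rwa [Function.leftInverse_invFun e.injective γ] at this

theorem auto {Q} (h : Good ∅ ∅ Q) (h2 : ∀ γ, γ ∈ Prod.fst '' Q ∧ γ ∈ Prod.snd '' Q) :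
    ∃ T : XX ≃ₗᵢ[ℝ] XX, ∀ g ∈ Q, T (ex g.1) = ex g.2 := by
  let R := span ℝ (∅ ∪ Prod.map ex ex '' Q)
  let a : R →ₗ[ℝ] XX := LinearMap.fst ℝ XX XX ∘ₗ R.subtype
  let b : R →ₗ[ℝ] XX := LinearMap.snd ℝ XX XX ∘ₗ R.subtype
  have k : ∀ c : R →ₗ[ℝ] XX, (∀ γ, ex γ ∈ LinearMap.range c) → DenseRange c := fun c hc =>
    ex_dense.mono (span_le.mpr (by rintro _ ⟨γ, rfl⟩; exact hc γ) : _ ≤ LinearMap.range c)
  refine ⟨(LinearEquiv.refl ℝ R).extendOfIsometry a b
    (k a fun γ => ?_) (k b fun γ => ?_) fun r => (h.1 r.1 r.2).symm, fun g hg => ?_⟩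
  · obtain ⟨g, g1, rfl⟩ := (h2 γ).1
    exact ⟨⟨_, subset_span (Or.inr ⟨g, g1, rfl⟩)⟩, rfl⟩
  · obtain ⟨g, g1, rfl⟩ := (h2 γ).2
    exact ⟨⟨_, subset_span (Or.inr ⟨g, g1, rfl⟩)⟩, rfl⟩
  · exact LinearEquiv.extendOfIsometry_eq (LinearEquiv.refl ℝ R) a b _ _ _
      ⟨_, subset_span (Or.inr ⟨g, hg, rfl⟩)⟩

theorem hom : Gh.Hom XX := by
  intro E F _ _ h
  let b := Module.finBasis ℝ E
  obtain ⟨d, d1, d2⟩ := supp (Sum.elim (fun j => (b j : XX)) fun j => (h (b j) : XX))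
  let S : Set (XX × XX) := range fun j => ((b j : XX), (h (b j) : XX))
  let m : E →ₗ[ℝ] XX × XX := E.subtype.prod (F.subtype ∘ₗ h.toLinearEquiv.toLinearMap)
  have s1 : span ℝ S = LinearMap.range m := by
    rw [LinearMap.range_eq_map, ← b.span_eq, map_span, ← range_comp]; rfl
  have z : ex leaf = 0 := norm_le_zero_iff.mp (le_ev fun φ => by rw [ev_ex, φ.2.1, abs_zero])
  have g0 : Good S (range d) {(leaf, leaf)} := by
    refine ⟨fun r hr => ?_, by simp [Cl], by simp [Cl], rfl⟩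
    rw [image_singleton, Prod.map_apply, z, union_singleton, Prod.mk_zero_zero, span_insert_zero,
      s1] at hr
    obtain ⟨x, rfl⟩ := hr
    exact (h.norm_map x).symm
  have k : ∀ {S'}, S'.Finite → (∀ r ∈ S', r.2 ∈ (span ℝ (range (ex ∘ d))).topologicalClosure) →
      ∀ i P, Good S' (range d) P → P.Finite →
      ∃ C, C.Finite ∧ Good S' (range d) (P ∪ C) ∧ d i ∈ Prod.fst '' (P ∪ C) :=
    fun a b i P c e => by
      obtain ⟨δ, hδ⟩ := fwd1 d1 a b c e i
      exact ⟨{(d i, δ)}, finite_singleton _, by rwa [union_singleton], _, Or.inr rfl, rfl⟩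
  obtain ⟨C, c1, c2, c3⟩ := recur (Good S (range d)) Set.Finite Set.Finite
    (fun (i : ℕ) U => d i ∈ Prod.fst '' U ∧ d i ∈ Prod.snd '' U) _ g0 finite_empty
    (fun i C hC => (finite_singleton _).union ((finite_lt_nat i).biUnion fun j _ => hC j))
    (good_fin _ _) (fun _ _ _ a b => ⟨image_mono a b.1, image_mono a b.2⟩) fun i =>
      both Set.Finite Set.Finite (fun _ _ => Finite.union) (fun _ a => a.image _)
        (fun _ _ a b => (a.union b).image _)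
        (k (finite_range _) (by rintro _ ⟨j, rfl⟩; exact d2 (.inr j)) i)
        (k ((finite_range _).image _) (by rintro _ ⟨_, ⟨j, rfl⟩, rfl⟩; exact d2 (.inl j)) i)
  have cl : ∀ A, Cl (range d) A → (∀ i, d i ∈ A) → Cl ∅ A := fun A a b p c hc k =>
    Or.inr ((a p c hc k).elim (by rintro ⟨i, e⟩; exact e ▸ b i) id)
  obtain ⟨Q, q1, q2, q3⟩ := all (P := {(leaf, leaf)} ∪ ⋃ j, C j) ⟨fun r hr => c2.1 r
    (span_mono (union_subset_union_left _ (empty_subset _)) hr), cl _ c2.2.1 fun i => (c3 i).1,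
    cl _ c2.2.2.1 fun i => (c3 i).2, c2.2.2.2⟩
    ((countable_singleton _).union (countable_iUnion fun j => (c1 j).countable))
  obtain ⟨T, hT⟩ := auto q2 q3
  refine ⟨T, fun x => ?_⟩
  have hx : (x : XX) ∈ (span ℝ (range (ex ∘ d))).topologicalClosure := by
    rw [← b.sum_repr x, Submodule.coe_sum]
    exact sum_mem fun j _ => smul_mem _ _ (d2 (.inl j))
  have t : ∀ y ∈ span ℝ (range (ex ∘ d)),
      (y, T y) ∈ span ℝ (S ∪ Prod.map ex ex '' ({(leaf, leaf)} ∪ ⋃ j, C j)) := fun y hy => by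
    induction hy using span_induction with
    | mem y hy =>
      obtain ⟨i, rfl⟩ := hy
      obtain ⟨g, g1, g2⟩ := (c3 i).1
      refine subset_span (Or.inr ⟨g, g1, ?_⟩)
      rw [Function.comp_apply, ← g2, hT g (q1 g1)]; rfl
    | zero => rw [map_zero]; exact zero_mem _
    | add y z _ _ a b => rw [map_add]; exact add_mem a b
    | smul c y _ a => rw [map_smul]; exact smul_mem _ c a
  refine sub_eq_zero.mp (norm_le_zero_iff.mp (le_of_forall_pos_le_add fun ε hε => ?_))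
  obtain ⟨y, y1, y2⟩ := Metric.mem_closure_iff.mp hx (ε / 2) (by positivity)
  have u : ‖(x : XX) - y‖ = ‖(h x : XX) - T y‖ :=
    c2.1 _ (sub_mem (span_mono subset_union_left (s1 ▸ ⟨x, rfl⟩ : m x ∈ span ℝ S)) (t y y1))
  rw [dist_eq_norm] at y2
  have v := norm_sub_le_norm_sub_add_norm_sub (T x) (T y) (h x : XX)
  rw [← map_sub T (x : XX) y, T.norm_map, norm_sub_rev (T y)] at v
  linarith

theorem not_uds {X : Type} [NormedAddCommGroup X] [NormedSpace ℝ X] [CompleteSpace X]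
    (φ : ℕ → X →L[ℝ] ℝ) (h2 : ∀ x, (∀ n, φ n x = 0) → x = 0) : ¬ Gh.UDS X := by
  intro H
  have : ∀ n m : ℕ, ∃ x : X, ‖x‖ ≤ 1 ∧ ‖φ n‖ - 1 / ((m : ℝ) + 1) < ‖φ n x‖ := fun n m => by
    obtain ⟨x, a, b⟩ := (φ n).exists_lt_apply_of_lt_opNorm
      (sub_lt_self _ (show 0 < 1 / ((m : ℝ) + 1) by positivity))
    exact ⟨x, a.le, b⟩
  choose x x1 x2 using this
  let A := (span ℝ (range fun p : ℕ × ℕ => x p.1 p.2)).topologicalClosure
  have : CompleteSpace A := (isClosed_topologicalClosure _).completeSpace_coe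
  have : TopologicalSpace.SeparableSpace A :=
    (((countable_range _).isSeparable.span (R := ℝ)).closure).separableSpace
  obtain ⟨w, hw⟩ := H A (A × ℝ) A.subtypeₗᵢ ⟨LinearMap.inl ℝ A ℝ, fun a => by simp⟩
  have : w (0, 1) = 0 := h2 _ fun n => abs_nonpos_iff.mp (le_of_forall_pos_le_add fun ε hε => by
    obtain ⟨m, hm⟩ := exists_nat_one_div_lt hε
    let a : A := ⟨x n m, le_topologicalClosure _ (subset_span ⟨(n, m), rfl⟩)⟩
    have e : w (a, 0) = x n m := hw a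
    have k : ∀ s : ℝ, |s| ≤ 1 → |φ n (x n m) + s * φ n (w (0, 1))| ≤ ‖φ n‖ := fun s hs => by
      have := (φ n).le_opNorm (w ((a, 0) + s • (0, 1)))
      rw [w.norm_map, map_add, map_smul, e, map_add, map_smul] at this
      refine this.trans (mul_le_of_le_one_right (norm_nonneg _) ?_)
      simpa using ⟨x1 n m, hs⟩
    have a1 := abs_le.mp (k 1 (by simp))
    have a2 := abs_le.mp (k (-1) (by simp))
    have a3 := x2 n m
    rw [Real.norm_eq_abs, lt_abs] at a3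
    rw [abs_le]
    rcases a3 with a3 | a3 <;> constructor <;> linarith [a1.1, a1.2, a2.1, a2.2])
  simpa [this] using w.norm_map (0, 1)

end Pool.Agent.H88.Gq
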