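import Pool.Agent.H88.Gr1
import Pool.Agent.H88.Gh2

namespace Pool.Agent.H88.Gr
open Filter Topology Set Submodule Cardinal G

noncomputable def rk : G → Ordinal.{0}
  | leaf => 0
  | node _ c => ⨆ k, rk (c k) + 1

theorem rk_lt (p c k) : rk (c k) < rk (node p c) := Ordinal.lt_iSup_add_one (fun k => rk (c k)) k

variable {F : Type} [NormedAddCommGroup F] [NormedSpace ℝ F]

theorem one (E : Submodule ℝ F) [FiniteDimensional ℝ E] (f : E →ₗ[ℝ] XX) (hf : ∀ x, ‖f x‖ = ‖x‖)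
    (c : ℕ → G) (hc : ∀ x, f x ∈ (span ℝ (range (ex ∘ c))).topologicalClosure) (v : F) :
    ∃ w : XX, ∀ x : E, ‖f x - w‖ = ‖x - v‖ := by
  classical
  have := FiniteDimensional.proper_real E
  have : ∀ j : ℕ, ∃ a, ‖Finsupp.linearCombination ℝ (ex ∘ c) a -
      f (TopologicalSpace.denseSeq E j.unpair.1)‖ < 1 / ((j.unpair.2 : ℝ) + 1) := fun j => by
    obtain ⟨y, y1, y2⟩ := Metric.mem_closure_iff.mp (hc (TopologicalSpace.denseSeq E j.unpair.1))
      (1 / ((j.unpair.2 : ℝ) + 1)) (by positivity)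
    obtain ⟨a, rfl⟩ : ∃ a, Finsupp.linearCombination ℝ (ex ∘ c) a = y := by
      rwa [← Finsupp.range_linearCombination] at y1
    exact ⟨a, by rwa [dist_comm, dist_eq_norm] at y2⟩
  choose a ha using this
  set x : ℕ → E := fun j => TopologicalSpace.denseSeq E j.unpair.1
  have hx : ∀ (y : E) (ε : ℝ), 0 < ε → ∃ j, ‖y - x j‖ < ε ∧
      ‖Finsupp.linearCombination ℝ (ex ∘ c) (a j) - f (x j)‖ < ε := fun y ε hε => by
    obtain ⟨n, hn⟩ := (TopologicalSpace.denseRange_denseSeq E).exists_dist_lt y hε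
    obtain ⟨m, hm⟩ := exists_nat_one_div_lt hε
    refine ⟨n.pair m, by simpa [x, dist_eq_norm] using hn, (ha _).trans ?_⟩
    rwa [Nat.unpair_pair]
  let p : Dat := fun j =>
    (a j, ‖Finsupp.linearCombination ℝ (ex ∘ c) (a j) - f (x j)‖ + ‖x j - v‖)
  have k0 : ∀ (φ : KK) j, |Finsupp.linearCombination ℝ (φ.1 ∘ c) (a j) - ev φ (f (x j))| ≤
      ‖Finsupp.linearCombination ℝ (ex ∘ c) (a j) - f (x j)‖ := fun φ j => by
    have t1 := ev_le φ (Finsupp.linearCombination ℝ (ex ∘ c) (a j) - f (x j))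
    rwa [map_sub, lc] at t1
  have k : ∀ (φ : KK) (ψ : F →L[ℝ] ℝ), (∀ z, |ψ z| ≤ ‖z‖) → (∀ x : E, ψ x = ev φ (f x)) →
      Con p (φ.1 ∘ c) (ψ v) := fun φ ψ h1 h2 j => by
    have t2 := h1 (x j - v)
    rw [map_sub, h2] at t2
    exact (abs_sub_le _ _ _).trans (add_le_add (k0 φ j) t2)
  have k1 : ∀ φ : KK, ∃ t, Con p (φ.1 ∘ c) t := fun φ => by
    obtain ⟨ψ, p1, p2⟩ := Gw.hb E.subtype Subtype.val_injective ((ev φ).toLinearMap ∘ₗ f)
      fun x => (le_abs_self _).trans ((ev_le _ _).trans (hf x).le)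
    exact ⟨_, k φ ψ p1 p2⟩
  have k2 : ∀ (φ : KK) t, Con p (φ.1 ∘ c) t → ∀ y : E, |ev φ (f y) - t| ≤ ‖y - v‖ :=
    fun φ t h y => le_of_forall_pos_le_add fun ε hε => by
      obtain ⟨j, j1, j2⟩ := hx y (ε / 4) (by positivity)
      have t1 := abs_le.mp (h j)
      have t2 := abs_le.mp (k0 φ j)
      have t3 := abs_le.mp ((ev_le φ (f (y - x j))).trans (hf _).le)
      have t4 := norm_sub_le_norm_sub_add_norm_sub (x j : F) y v
      rw [norm_sub_rev (x j : F) y, show ‖(y : F) - x j‖ = ‖y - x j‖ from rfl] at t4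
      rw [map_sub, map_sub] at t3
      simp only [p] at t1
      rw [abs_le]
      constructor <;> linarith [t1.1, t1.2, t2.1, t2.2, t3.1, t3.2]
  have k3 : ∀ (φ : KK) (y : E), up p (φ.1 ∘ c) ≤ ev φ (f y) + ‖y - v‖ := fun φ y => by
    obtain ⟨t, ht⟩ := k1 φ
    have := abs_le.mp (k2 φ _ (ht.mid 1) y)
    simp only [mid, min_self, zero_le_one, max_eq_right, one_mul] at this
    linarith [this.1]
  have k4 : ∀ (φ ψ : KK) (ρ δ R : ℝ), 0 ≤ δ → ρ < 1 → 2 * ‖v‖ ≤ (1 - ρ) * R →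
      (∀ y, |ev ψ (f y)| ≤ ρ * ‖y‖) → (∀ y, |ev φ (f y) - ev ψ (f y)| ≤ δ * ‖y‖) →
      up p (φ.1 ∘ c) - δ * R ≤ up p (ψ.1 ∘ c) := fun φ ψ ρ δ R d0 r1 hR h1 h2 =>
    le_ciInf fun j => by
      have t2 := abs_le.mp (k0 ψ j)
      have R0 : 0 ≤ R := by nlinarith [norm_nonneg v]
      show _ ≤ Finsupp.linearCombination ℝ (ψ.1 ∘ c) (a j) + (_ + _)
      rcases le_total ‖x j‖ R with h | h
      · linarith [k3 φ (x j), (abs_le.mp (h2 (x j))).2, mul_le_mul_of_nonneg_left h d0, t2.1]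
      · have t3 := k3 φ 0
        have t4 := norm_sub_norm_le (x j : F) v
        rw [show ‖(x j : F)‖ = ‖x j‖ from rfl] at t4
        simp only [map_zero, ZeroMemClass.coe_zero, zero_sub, norm_neg, zero_add] at t3
        nlinarith [(abs_le.mp (h1 (x j))).1, mul_nonneg d0 R0, t2.1,
          mul_le_mul_of_nonneg_left h (sub_pos.mpr r1).le]
  have : ∀ φ : G → ℝ, ∃ φ' : KK, (∀ k, Adm (c k) φ) → φ ∘ c = φ'.1 ∘ c := fun φ => by
    obtain ⟨φ', h1, -⟩ := extend {γ | Adm γ φ} φ 0 id fun p c h => ⟨h.1, h.2⟩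
    exact ⟨φ', fun hφ => funext fun k => (h1 _ (hφ k)).symm⟩
  choose Φ hΦ using this
  have hv : Val p c := by
    refine ⟨fun φ hφ => by rw [hΦ φ hφ]; exact k1 _, fun ψ ρ hψ hρ l l1 l2 => ?_⟩
    obtain ⟨φ, p1, p2⟩ := scale (Φ ψ) hρ.le
    have e : (ρ • ψ) ∘ c = φ.1 ∘ c := funext fun k => by
      rw [p2]; exact congrArg (ρ * ·) (congrFun (hΦ ψ hψ) k)
    have t : ∀ y, Tendsto (fun χ => ev (Φ χ) (f y)) l (𝓝 (ev φ (f y))) := fun y =>
      tend (fun k => by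
        have := l2 k
        rw [show ρ * ψ (c k) = φ.1 (c k) from congrFun e k] at this
        exact this.congr' (l1.mono fun χ h => congrFun (hΦ χ h) k)) (hc y)
    let b := Module.finBasis ℝ E
    obtain ⟨C, c0, c1⟩ := b.exists_opNorm_le (F := ℝ)
    obtain ⟨R, R0, hR⟩ : ∃ R : ℝ, 0 < R ∧ 2 * ‖v‖ ≤ (1 - (1 + |ρ|) / 2) * R := by
      have : 0 < 1 - (1 + |ρ|) / 2 := by linarith
      exact ⟨(2 * ‖v‖ + 1) / (1 - (1 + |ρ|) / 2), by positivity, by
        rw [mul_div_cancel₀ _ this.ne']; linarith⟩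
    rw [e, Metric.tendsto_nhds]
    intro ε hε
    obtain ⟨δ, d0, d1, d2⟩ : ∃ δ : ℝ, 0 < δ ∧ δ * R < ε ∧ δ ≤ (1 - |ρ|) / 2 := by
      have : 0 < 1 - |ρ| := by linarith
      refine ⟨min (ε / 2 / R) ((1 - |ρ|) / 2), by positivity, ?_, min_le_right _ _⟩
      have := min_le_left (ε / 2 / R) ((1 - |ρ|) / 2)
      rw [le_div_iff₀ R0] at this
      linarith
    filter_upwards [l1, eventually_all.mpr fun i =>
      Metric.tendsto_nhds.mp (t (b i)) (δ / C) (by positivity)] with χ x1 x2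
    let u := LinearMap.toContinuousLinearMap ((ev (Φ χ) - ev φ).toLinearMap ∘ₗ f)
    have u1 := c1 (u := u) (M := δ / C) (by positivity) fun i => (x2 i).le
    rw [mul_div_cancel₀ _ c0.ne'] at u1
    have u2 : ∀ y, |ev (Φ χ) (f y) - ev φ (f y)| ≤ δ * ‖y‖ := fun y =>
      (u.le_opNorm y).trans (mul_le_mul_of_nonneg_right u1 (norm_nonneg _))
    have u3 : ∀ y, |ev φ (f y)| ≤ |ρ| * ‖y‖ := fun y => by
      rw [p1]
      exact (abs_mul _ _).trans_le (mul_le_mul_of_nonneg_left ((ev_le _ _).trans (hf y).le)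
        (abs_nonneg _))
    have a1 := k4 (Φ χ) φ ((1 + |ρ|) / 2) δ R d0.le (by linarith) hR
      (fun y => (u3 y).trans (by nlinarith [norm_nonneg y])) u2
    have a2 := k4 φ (Φ χ) ((1 + |ρ|) / 2) δ R d0.le (by linarith) hR (fun y => by
      have := abs_sub_abs_le_abs_sub (ev (Φ χ) (f y)) (ev φ (f y))
      nlinarith [norm_nonneg y, u2 y, u3 y]) fun y => by rw [abs_sub_comm]; exact u2 y
    rw [hΦ χ x1, Real.dist_eq, abs_lt]
    constructor <;> linarith
  refine ⟨ex (node p c), fun x => le_antisymm (le_ev fun φ => ?_) ?_⟩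
  · rw [map_sub]
    exact k2 φ _ ((φ.2.2 p c).1 hv) x
  · obtain ⟨ψ, p1, p2⟩ := Gh.dv (x - v)
    obtain ⟨χ, x1, x2⟩ := Gw.hb f ((injective_iff_map_eq_zero f).mpr fun x hx => by
      rw [← norm_eq_zero, ← hf, hx, norm_zero]) (ψ.toLinearMap ∘ₗ E.subtype)
      fun x => (le_abs_self _).trans ((p1 _).trans (hf x).ge)
    obtain ⟨φ, rfl⟩ := dual χ x1
    have u1 : ∀ δ, rk δ < rk (node p c) → Function.update φ.1 (node p c) (ψ v) δ = φ.1 δ :=
      fun δ h => Function.update_of_ne (by rintro rfl; exact lt_irrefl _ h) _ _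
    obtain ⟨φ', h1, -⟩ := extend (insert (node p c) {δ | rk δ < rk (node p c)})
      (Function.update φ.1 (node p c) (ψ v)) 0 (fun _ => by
        rw [Function.update_of_ne (by simp)]; exact φ.2.1) fun q d h => by
      rcases h with h | h
      · cases h
        refine ⟨fun k => Or.inr (rk_lt p c k), fun _ => ?_, fun h => absurd hv h⟩
        rw [Function.update_self, show Function.update φ.1 (node p c) (ψ v) ∘ c = φ.1 ∘ c from
          funext fun k => u1 _ (rk_lt p c k)]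
        exact k φ ψ p1 fun x => (x2 x).symm
      · refine ⟨fun k => Or.inr ((rk_lt q d k).trans h), ?_⟩
        rw [Loc, u1 _ h, show Function.update φ.1 (node p c) (ψ v) ∘ d = φ.1 ∘ d from
          funext fun k => u1 _ ((rk_lt q d k).trans h)]
        exact φ.2.2 q d
    have t := ev_le φ' (f x - ex (node p c))
    rw [map_sub, ev_ex, h1 _ (mem_insert _ _), Function.update_self, agree (ψ := φ) (fun k =>
      (h1 _ (Or.inr (rk_lt p c k))).trans (u1 _ (rk_lt p c k))) (hc x), x2 x] at t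
    rw [← p2, map_sub]
    exact (le_abs_self _).trans t

theorem two [FiniteDimensional ℝ F] (E : Submodule ℝ F) (g : F →ₗ[ℝ] XX)
    (hg : ∀ x ∈ E, ‖g x‖ = ‖x‖) (v : F) :
    ∃ g' : F →ₗ[ℝ] XX, (∀ x ∈ E, g' x = g x) ∧ ∀ x ∈ E ⊔ span ℝ {v}, ‖g' x‖ = ‖x‖ := by
  by_cases hv : v ∈ E
  · exact ⟨g, fun _ _ => rfl, by rwa [sup_eq_left.mpr ((span_singleton_le_iff_mem _ _).mpr hv)]⟩
  let b := Module.finBasis ℝ E
  obtain ⟨c, hc⟩ := supp fun j => g (b j)
  obtain ⟨w, hw⟩ := one E (g ∘ₗ E.subtype) (fun x => hg x x.2) c (fun x => by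
    rw [← b.sum_repr x, map_sum]
    exact sum_mem fun j _ => by rw [map_smul]; exact smul_mem _ _ (hc j)) v
  obtain ⟨l, l1, l2⟩ := E.exists_le_ker_of_notMem hv
  refine ⟨g + ((l v)⁻¹ • l).smulRight (w - g v), fun x hx => by simp [show l x = 0 from l2 hx],
    fun y hy => ?_⟩
  obtain ⟨x, hx, z, hz, rfl⟩ := mem_sup.mp hy
  obtain ⟨t, rfl⟩ := mem_span_singleton.mp hz
  have e : (g + ((l v)⁻¹ • l).smulRight (w - g v)) (x + t • v) = g x + t • w := by
    simp only [LinearMap.add_apply, map_add, map_smul, LinearMap.smulRight_apply,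
      LinearMap.smul_apply, show l x = 0 from l2 hx, smul_eq_mul, mul_zero, zero_smul, add_zero,
      inv_mul_cancel₀ l1, one_smul, add_sub_cancel]
  rw [e]
  rcases eq_or_ne t 0 with rfl | ht
  · simpa using hg x hx
  have := hw ⟨-t⁻¹ • x, smul_mem _ _ hx⟩
  have e1 : g x + t • w = -t • (g (-t⁻¹ • x) - w) := by
    rw [map_smul, smul_sub, smul_smul, neg_mul_neg, mul_inv_cancel₀ ht, one_smul, neg_smul,
      sub_neg_eq_add]
  have e2 : x + t • v = -t • (-t⁻¹ • x - v) := by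
    rw [smul_sub, smul_smul, neg_mul_neg, mul_inv_cancel₀ ht, one_smul, neg_smul, sub_neg_eq_add]
  rw [e1, e2, norm_smul, norm_smul]
  exact congrArg _ this

theorem ud : Gh.UD XX := by
  classical
  intro A B _ _ _ _ _ _ u i
  obtain ⟨P, hP⟩ :=
    i.toLinearMap.exists_leftInverse_of_injective (LinearMap.ker_eq_bot.mpr i.injective)
  have hP' : ∀ a, P (i a) = a := fun a => LinearMap.congr_fun hP a
  have : ∀ s : Finset B, ∃ g : B →ₗ[ℝ] XX, (∀ a, g (i a) = u a) ∧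
      ∀ x ∈ LinearMap.range i.toLinearMap ⊔ span ℝ s, ‖g x‖ = ‖x‖ := fun s => by
    induction s using Finset.induction_on with
    | empty =>
      refine ⟨u.toLinearMap ∘ₗ P, fun a => congrArg u (hP' a), fun x hx => ?_⟩
      obtain ⟨a, rfl⟩ : x ∈ LinearMap.range i.toLinearMap := by simpa using hx
      exact (congrArg (fun a => ‖u a‖) (hP' a)).trans ((u.norm_map a).trans (i.norm_map a).symm)
    | insert v s _ ih =>
      obtain ⟨g, g1, g2⟩ := ih
      obtain ⟨g', h1, h2⟩ := two _ g g2 v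
      refine ⟨g', fun a => (h1 _ (mem_sup_left ⟨a, rfl⟩)).trans (g1 a), ?_⟩
      rwa [Finset.coe_insert, span_insert, sup_comm (span ℝ {v}), ← sup_assoc]
  obtain ⟨s, hs⟩ := Module.Finite.fg_top (R := ℝ) (M := B)
  obtain ⟨g, g1, g2⟩ := this s
  exact ⟨⟨g, fun x => g2 x (by simp [hs])⟩, g1⟩

theorem rot {X : Type} [NormedAddCommGroup X] [NormedSpace ℝ X] (φ : ℕ → X →L[ℝ] ℝ)
    (h1 : ∀ n x, |φ n x| ≤ ‖x‖) (h2 : ∀ x, (∀ n, φ n x = 0) → x = 0) :
    ∃ N : Seminorm ℝ X, (∃ a b : ℝ, 0 < a ∧ 0 < b ∧ ∀ x, a * ‖x‖ ≤ N x ∧ N x ≤ b * ‖x‖) ∧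
      ∀ x y, N (x + y) = 2 * N x → N x = N y → x = y := by
  let g : lp (fun _ : ℕ => ℝ) 2 := ⟨fun n => (1 / 2 : ℝ) ^ n, memℓp_gen (by
    refine (summable_geometric_of_lt_one (r := 1 / 4) (by norm_num) (by norm_num)).congr
      fun n => ?_
    rw [ENNReal.toReal_ofNat, Real.rpow_two, norm_pow, ← pow_mul, mul_comm, pow_mul]
    norm_num)⟩
  have hb : ∀ x n, ‖(1 / 2 : ℝ) ^ n * φ n x‖ ≤ ‖(‖x‖ • g) n‖ := fun x n => by
    show _ ≤ ‖‖x‖ * (1 / 2 : ℝ) ^ n‖
    rw [norm_mul, norm_mul, norm_norm, mul_comm]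
    exact mul_le_mul_of_nonneg_right (h1 n x) (norm_nonneg _)
  let T : X →ₗ[ℝ] lp (fun _ : ℕ => ℝ) 2 :=
    { toFun := fun x => ⟨fun n => (1 / 2 : ℝ) ^ n * φ n x, (lp.memℓp (‖x‖ • g)).mono' (hb x)⟩
      map_add' := fun x y => lp.ext (funext fun n => by simp [mul_add])
      map_smul' := fun c x => lp.ext (funext fun n => by simp [mul_left_comm]) }
  have inj : Function.Injective T := (injective_iff_map_eq_zero T).mpr fun x hx => h2 x fun n => by
    have : (1 / 2 : ℝ) ^ n * φ n x = 0 := congrArg (fun z : lp (fun _ : ℕ => ℝ) 2 => z n) hx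
    simpa using this
  let N : Seminorm ℝ X := normSeminorm ℝ X + (normSeminorm ℝ _).comp T
  have hN : ∀ x, N x = ‖x‖ + ‖T x‖ := fun _ => rfl
  refine ⟨N, ⟨1, 1 + ‖g‖, one_pos, by positivity, fun x => ?_⟩, fun x y a b => ?_⟩
  · have := lp.norm_mono two_ne_zero (x := T x) (hb x)
    rw [norm_smul, norm_norm] at this
    rw [hN]
    constructor <;> nlinarith [norm_nonneg (T x)]
  · have z : ∀ x, N x = 0 → x = 0 := fun x h => norm_le_zero_iff.mp (by
      linarith [hN x, norm_nonneg (T x)])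
    have s : SameRay ℝ (T x) (T y) := sameRay_iff_norm_add.mpr (le_antisymm (norm_add_le _ _) (by
      rw [← map_add]; linarith [hN (x + y), hN x, hN y, norm_add_le x y]))
    by_cases hx : x = 0
    · rw [hx, map_zero] at b; rw [hx, z y b.symm]
    have hy : y ≠ 0 := fun hy => hx (z x (by rw [b, hy, map_zero]))
    obtain ⟨r, t, r0, t0, e⟩ := s.exists_pos (fun h => hx (inj (h.trans (map_zero T).symm)))
      fun h => hy (inj (h.trans (map_zero T).symm))
    rw [← map_smul, ← map_smul] at e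
    have e1 := inj e
    have e2 := congrArg N e1
    rw [map_smul_eq_mul, map_smul_eq_mul, ← b, Real.norm_eq_abs, Real.norm_eq_abs, abs_of_pos r0,
      abs_of_pos t0] at e2
    obtain rfl := mul_right_cancel₀ (fun h => hx (z x h)) e2
    exact smul_right_injective X r0.ne' e1

end Pool.Agent.H88.Gr
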