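import Mathlib

namespace Pool.Agent.H88.Sick
open TopologicalSpace

universe u v

/-- `C(K)` is lattice isomorphic to a principal ideal of a separable Banach lattice. -/
def IsSick (K : Type u) [TopologicalSpace K] : Prop :=
  ∃ (E : Type v) (_ : NormedAddCommGroup E) (_ : Lattice E) (_ : HasSolidNorm E)
    (_ : IsOrderedAddMonoid E) (_ : NormedSpace ℝ E) (_ : PosSMulMono ℝ E) (_ : CompleteSpace E)
    (_ : SeparableSpace E) (x : E) (T : C(K, ℝ) →ₗ[ℝ] E),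
    0 ≤ x ∧ Function.Injective T ∧ (∀ f g, T (f ⊔ g) = T f ⊔ T g) ∧
      (∀ f g, T (f ⊓ g) = T f ⊓ T g) ∧ Set.range T = {y | ∃ r : ℝ, 0 < r ∧ |y| ≤ r • x} ∧ T 1 = x

/-- `φ` is the indicator of an ultrafilter of the Boolean algebra of clopen sets. -/
def IsUlt {K : Type u} [TopologicalSpace K] (φ : Clopens K → Bool) : Prop :=
  φ ⊤ = true ∧ φ ⊥ = false ∧ ∀ a b, φ (a ⊓ b) = (φ a && φ b) ∧ φ (a ⊔ b) = (φ a || φ b)

end Pool.Agent.H88.Sick
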