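import Pool.Agent.H88.Sick2
import Pool.Agent.H88.SickDefs

namespace Pool.Agent.H88.Sick
open Filter Topology Set MeasureTheory TopologicalSpace
open scoped CompactlySupported
set_option linter.unusedSectionVars false

variable {K : Type*} [TopologicalSpace K] [CompactSpace K] [T2Space K]

theorem upper (I : C(K, ℝ) →ₗ[ℝ] ℝ) (I0 : ∀ f, 0 ≤ f → 0 ≤ I f) (I1 : I 1 = 1)
    (D : Set C(K, ℝ)) (hD : D.Countable)
    (hu : ∀ ψ : C(K, ℝ) →ₗ[ℝ] ℝ, (∀ f, 0 ≤ f → 0 ≤ ψ f) → ψ 1 = 1 → (∀ f ∈ D, ψ f = I f) →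
      ∀ g, ψ g = I g) :
    ∃ H : Set C(K, ℝ), H.Countable ∧ ∀ g (ε : ℝ), 0 < ε → ∃ h ∈ H, g ≤ h ∧ I h < I g + ε := by
  obtain ⟨H, hH, hV⟩ := (hD.insert 1).isSeparable.span (R := ℝ)
  set V := Submodule.span ℝ (insert 1 D)
  have V1 : (1 : C(K, ℝ)) ∈ V := Submodule.subset_span (Or.inl rfl)
  refine ⟨H, hH, fun g ε hε => ?_⟩
  set c := I g + ε / 2 with hc
  have key : ∃ h0 ∈ V, I h0 = 0 ∧ ∀ x, g x - h0 x < c := by
    by_contra hn
    push Not at hn
    obtain ⟨f, u, h1, h2⟩ := geometric_hahn_banach_open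
      (s := {u : C(K, ℝ) | ∀ x, u x < c}) (t := {b | ∃ h0 ∈ V, I h0 = 0 ∧ b = g - h0})
      (fun a ha b hb s t hs ht hst x => by
        have := (convex_Iio c) (ha x) (hb x) hs ht hst
        simpa using this)
      (by
        convert ContinuousMap.isOpen_setOfPred_mapsTo (X := K) isCompact_univ (isOpen_Iio (a := c))
          using 1
        ext u
        simp [MapsTo])
      (by
        rintro _ ⟨a, ha, ha', rfl⟩ _ ⟨b, hb, hb', rfl⟩ s t _ _ hst
        refine ⟨s • a + t • b, V.add_mem (V.smul_mem _ ha) (V.smul_mem _ hb), by simp [ha', hb'], ?_⟩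
        rw [smul_sub, smul_sub, sub_add_sub_comm, ← add_smul, hst, one_smul])
      (by
        rw [Set.disjoint_left]
        rintro _ h ⟨a, ha, ha', rfl⟩
        obtain ⟨x, hx⟩ := hn a ha ha'
        exact absurd (h x) (not_lt.mpr hx))
    have a1 : ∀ h0 ∈ V, I h0 = 0 → f h0 = 0 := by
      intro h0 hv hi
      by_contra hne
      have := h2 _ ⟨((f g - u + 1) / f h0) • h0, V.smul_mem _ hv, by simp [hi], rfl⟩
      rw [map_sub, map_smul, smul_eq_mul, div_mul_cancel₀ _ hne] at this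
      linarith
    have a2 : ∀ w : C(K, ℝ), 0 ≤ w → 0 ≤ f w := by
      intro w hw
      by_contra hne
      have hne := not_le.mp hne
      have r0 : 0 ≤ (|u - (c - 1) * f 1| + 1) / (-f w) := div_nonneg (by positivity) (by linarith)
      have := h1 ((c - 1) • (1 : C(K, ℝ)) - ((|u - (c - 1) * f 1| + 1) / (-f w)) • w) (fun x => by
        have := mul_nonneg r0 (show 0 ≤ w x from hw x)
        simp only [ContinuousMap.sub_apply, ContinuousMap.smul_apply, ContinuousMap.one_apply,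
          smul_eq_mul]
        linarith)
      rw [map_sub, map_smul, map_smul, smul_eq_mul, smul_eq_mul, div_neg, neg_mul,
        div_mul_cancel₀ _ hne.ne] at this
      linarith [le_abs_self (u - (c - 1) * f 1)]
    have a3 := h2 g ⟨0, V.zero_mem, map_zero I, (sub_zero g).symm⟩
    have a4 := h1 ((c - ε / 4) • (1 : C(K, ℝ))) (fun x => by simp [hε])
    rw [map_smul, smul_eq_mul] at a4
    have a5 : 0 < f 1 := by
      rcases (a2 1 zero_le_one).lt_or_eq with h | h
      · exact h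
      · exfalso
        have := a2 (‖g‖ • (1 : C(K, ℝ)) - g) (fun x => by
          simpa using (le_abs_self _).trans (g.norm_coe_le_norm x))
        rw [map_sub, map_smul, ← h] at this
        rw [← h] at a4
        simp at this a4
        linarith
    have a6 := hu ((f 1)⁻¹ • f.toLinearMap) (fun w hw => by
        simpa using mul_nonneg (inv_nonneg.mpr a5.le) (a2 w hw))
      (by simpa using inv_mul_cancel₀ a5.ne') (fun w hw => by
        have := a1 (w - I w • (1 : C(K, ℝ)))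
          (V.sub_mem (Submodule.subset_span (Or.inr hw)) (V.smul_mem _ V1)) (by simp [I1])
        rw [map_sub, map_smul, smul_eq_mul, sub_eq_zero] at this
        show (f 1)⁻¹ * f w = I w
        rw [this]; field_simp) g
    have a7 : (f 1)⁻¹ * f g = I g := a6
    rw [inv_mul_eq_iff_eq_mul₀ a5.ne'] at a7
    nlinarith
  obtain ⟨h0, hv, hi, hg⟩ := key
  obtain ⟨h, hh, hd⟩ := Metric.mem_closure_iff.mp
    (hV (V.add_mem hv (V.smul_mem (c + ε / 8) V1))) (ε / 8) (by positivity)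
  have hx : ∀ x, |h0 x + (c + ε / 8) - h x| < ε / 8 := fun x => by
    have := (ContinuousMap.dist_apply_le_dist x).trans_lt hd
    simpa [Real.dist_eq] using this
  refine ⟨h, hh, fun x => ?_, ?_⟩
  · show g x ≤ h x
    linarith [hg x, (abs_lt.mp (hx x)).2]
  · have := I0 (h0 + (c + ε / 4) • (1 : C(K, ℝ)) - h) (fun x => by
      show 0 ≤ h0 x + (c + ε / 4) * 1 - h x
      linarith [(abs_lt.mp (hx x)).1])
    rw [map_sub, map_add, map_smul, hi, I1, smul_eq_mul] at this
    linarith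

variable [MeasurableSpace K] [BorelSpace K]

theorem riesz (ψ : C(K, ℝ) →ₗ[ℝ] ℝ) (h0 : ∀ f, 0 ≤ f → 0 ≤ ψ f) (h1 : ψ 1 = 1) :
    ∃ ν : Measure K, IsProbabilityMeasure ν ∧ ν.Regular ∧ ∀ f : C(K, ℝ), ∫ x, f x ∂ν = ψ f := by
  let Λ : C_c(K, ℝ) →ₚ[ℝ] ℝ :=
    { toFun g := ψ g.toContinuousMap
      map_add' g g' := map_add ψ g.toContinuousMap g'.toContinuousMap
      map_smul' c g := map_smul ψ c g.toContinuousMap
      monotone' g g' hg := by
        have := h0 (g'.toContinuousMap - g.toContinuousMap) (fun x => sub_nonneg.mpr (hg x))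
        rw [map_sub] at this
        exact sub_nonneg.mp this }
  have h : ∀ f : C(K, ℝ), ∫ x, f x ∂(RealRMK.rieszMeasure Λ) = ψ f := fun f =>
    RealRMK.integral_rieszMeasure Λ ⟨f, HasCompactSupport.of_compactSpace _⟩
  refine ⟨RealRMK.rieszMeasure Λ, ?_, inferInstance, h⟩
  have := h 1
  rw [isProbabilityMeasure_iff_real]
  simpa [h1] using this

universe u v

theorem analytic {K : Type u} [TopologicalSpace K] [CompactSpace K] [T2Space K]
    [MeasurableSpace K] [BorelSpace K] (hK : IsSick.{u, v} K)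
    (μ : {ν : Measure K // IsProbabilityMeasure ν ∧ ν.Regular})
    (hμ : @IsGδ _ (TopologicalSpace.induced
      (fun ν (f : C(K, ℝ)) => ∫ x, f x ∂ν.1) inferInstance) {μ}) :
    SeparableSpace (Lp ℝ 1 μ.1) ∧ AnalyticSet {F : Lp ℝ 1 μ.1 | ∃ f : C(K, ℝ), F =ᵐ[μ.1] f} := by
  obtain ⟨E, _, _, _, _, _, _, _, _, x, T, hx, hinj, hsup, hinf, hran, h1⟩ := hK
  have := μ.2.1
  have := μ.2.2
  have hint : ∀ f : C(K, ℝ), Integrable f μ.1 := fun f =>
    f.continuous.integrable_of_hasCompactSupport (HasCompactSupport.of_compactSpace _)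
  let I : C(K, ℝ) →ₗ[ℝ] ℝ :=
    { toFun f := ∫ x, f x ∂μ.1
      map_add' f g := integral_add (hint f) (hint g)
      map_smul' c g := integral_smul c g }
  have hI : ∀ f, I f = ∫ x, f x ∂μ.1 := fun f => rfl
  have I0 : ∀ f, 0 ≤ f → 0 ≤ I f := fun f hf => integral_nonneg fun x => hf x
  have I1 : I 1 = 1 := by simp [hI]
  obtain ⟨D, hD, hu⟩ : ∃ D : Set C(K, ℝ), D.Countable ∧
      ∀ ν : {ν : Measure K // IsProbabilityMeasure ν ∧ ν.Regular},
        (∀ f ∈ D, ∫ x, f x ∂ν.1 = ∫ x, f x ∂μ.1) → ν = μ := by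
    obtain ⟨𝒯, h2, h3, h4⟩ := hμ
    have h5 : ∀ U : 𝒯, ∃ J : Set C(K, ℝ), J.Finite ∧
        ∀ ν : {ν : Measure K // IsProbabilityMeasure ν ∧ ν.Regular},
          (∀ f ∈ J, ∫ x, f x ∂ν.1 = ∫ x, f x ∂μ.1) → ν ∈ U.1 := by
      rintro ⟨U, hU⟩
      obtain ⟨W, hW, rfl⟩ := h2 U hU
      have h6 : μ ∈ ⋂₀ 𝒯 := h4 ▸ mem_singleton μ
      have h7 := hW.mem_nhds (h6 _ hU)
      rw [nhds_pi, Filter.mem_pi] at h7
      obtain ⟨J, hJ, t, ht, h8⟩ := h7
      exact ⟨J, hJ, fun ν hν => h8 fun f hf => by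
        show ∫ x, f x ∂ν.1 ∈ t f
        rw [hν f hf]; exact mem_of_mem_nhds (ht f)⟩
    choose J hJ hJ' using h5
    have := h3.to_subtype
    refine ⟨⋃ U, J U, countable_iUnion fun U => (hJ U).countable, fun ν hν => ?_⟩
    have : ν ∈ ⋂₀ 𝒯 := fun U hU => hJ' ⟨U, hU⟩ ν fun f hf => hν f (mem_iUnion.mpr ⟨_, hf⟩)
    rw [← h4] at this
    exact this
  obtain ⟨H, hH, hup⟩ := upper I I0 I1 D hD (fun ψ a b c g => by
    obtain ⟨ν, p1, p2, p3⟩ := riesz ψ a b
    have := hu ⟨ν, p1, p2⟩ fun f hf => (p3 f).trans (c f hf)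
    rw [← p3, hI, ← this])
  let i : C(K, ℝ) →L[ℝ] Lp ℝ 1 μ.1 := ContinuousMap.toLp 1 μ.1 ℝ
  have hi : ∀ f g, dist (i f) (i g) = I |f - g| := by
    intro f g
    rw [dist_eq_norm, ← map_sub, L1.norm_eq_integral_norm, hI]
    apply integral_congr_ae
    filter_upwards [ContinuousMap.coeFn_toLp (p := 1) (𝕜 := ℝ) μ.1 (f - g)] with z hz
    rw [hz]; rfl
  have hap : ∀ g (ε : ℝ), 0 < ε → ∃ h ∈ H, dist (i g) (i h) < ε := by
    intro g ε hε
    obtain ⟨h, a, b, c⟩ := hup g ε hε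
    refine ⟨h, a, ?_⟩
    rw [hi, abs_sub_comm, abs_of_nonneg (sub_nonneg.mpr b), map_sub]
    linarith
  have hsep : SeparableSpace (Lp ℝ 1 μ.1) := by
    refine ⟨⟨i '' H, hH.image _, dense_closure.mp ?_⟩⟩
    refine (ContinuousMap.toLp_denseRange ℝ μ.1 ℝ (p := 1) ENNReal.one_ne_top).mono ?_
    rintro _ ⟨g, rfl⟩
    rw [Metric.mem_closure_iff]
    intro ε hε
    obtain ⟨h, a, b⟩ := hap g ε hε
    exact ⟨_, ⟨h, a, rfl⟩, b⟩
  refine ⟨hsep, ?_⟩
  have : SecondCountableTopology E := UniformSpace.secondCountable_of_separable E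
  have : SecondCountableTopology (Lp ℝ 1 μ.1) := UniformSpace.secondCountable_of_separable _
  borelize E ↥(Lp ℝ 1 μ.1)
  have hcl : ∀ a b : E, IsClosed {y : E | |y - a| ≤ b} := fun a b =>
    isClosed_le ((continuous_id.sub continuous_const).sup
      (continuous_id.sub continuous_const).neg) continuous_const
  have hm : MeasurableSet (range T) := by
    have : range T = ⋃ n : ℕ, {y : E | |y - 0| ≤ (n + 1 : ℝ) • x} := by
      rw [hran]
      ext y
      simp only [mem_ofPred_eq, mem_iUnion, sub_zero]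
      constructor
      · rintro ⟨r, r0, h⟩
        obtain ⟨n, hn⟩ := exists_nat_ge r
        refine ⟨n, h.trans ?_⟩
        have := smul_nonneg (show (0 : ℝ) ≤ n + 1 - r by linarith) hx
        rw [sub_smul] at this
        exact sub_nonneg.mp this
      · rintro ⟨n, h⟩
        exact ⟨_, by positivity, h⟩
    rw [this]
    exact MeasurableSet.iUnion fun n => (hcl _ _).measurableSet
  have := hm.standardBorel
  let J : range T → C(K, ℝ) := fun y => y.2.choose
  have hJ : ∀ y, T (J y) = y := fun y => y.2.choose_spec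
  have hball : ∀ w (r : ℝ), MeasurableSet ((fun y => i (J y)) ⁻¹' Metric.ball (i w) r) := by
    intro w r
    have : (fun y => i (J y)) ⁻¹' Metric.ball (i w) r =
        ⋃ h ∈ {h ∈ H | I h < r}, Subtype.val ⁻¹' {y : E | |y - T w| ≤ T h} := by
      ext y
      simp only [mem_preimage, Metric.mem_ball, hi, mem_iUnion, mem_ofPred_eq, ← hJ, ← map_sub,
        ← T_abs hsup]
      constructor
      · intro h
        obtain ⟨h, a, b, c⟩ := hup |J y - w| (r - I |J y - w|) (by linarith)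
        exact ⟨h, ⟨a, by linarith⟩, T_mono hsup b⟩
      · rintro ⟨h, ⟨a, b⟩, c⟩
        have := I0 _ (sub_nonneg.mpr (T_refl hinj hsup c))
        rw [map_sub] at this
        linarith
    rw [this]
    exact MeasurableSet.biUnion (hH.mono (sep_subset _ _)) fun h _ =>
      measurable_subtype_coe (hcl _ _).measurableSet
  have hF : Measurable fun y => i (J y) := by
    apply measurable_of_isOpen
    intro U hU
    have : (fun y => i (J y)) ⁻¹' U = ⋃ q : ℚ, ⋃ h ∈ {h ∈ H | Metric.ball (i h) q ⊆ U},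
        (fun y => i (J y)) ⁻¹' Metric.ball (i h) q := by
      ext y
      simp only [mem_preimage, mem_iUnion, mem_ofPred_eq]
      constructor
      · intro hy
        obtain ⟨ε, e0, he⟩ := Metric.isOpen_iff.mp hU _ hy
        obtain ⟨q, q0, q1⟩ := exists_rat_btwn (half_pos e0)
        obtain ⟨h, a, b⟩ := hap (J y) q q0
        refine ⟨q, h, ⟨a, subset_trans (Metric.ball_subset_ball' ?_) he⟩, b⟩
        rw [dist_comm]; linarith
      · rintro ⟨q, h, ⟨-, b⟩, c⟩
        exact b c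
    rw [this]
    exact MeasurableSet.iUnion fun q => MeasurableSet.biUnion (hH.mono (sep_subset _ _))
      fun h _ => hball h q
  convert MeasurableSet.univ.analyticSet_image hF using 1
  ext F
  constructor
  · rintro ⟨f, hf⟩
    refine ⟨⟨T f, f, rfl⟩, trivial, ?_⟩
    show i (J _) = F
    rw [hinj (hJ ⟨T f, f, rfl⟩)]
    exact Lp.ext ((ContinuousMap.coeFn_toLp (p := 1) (𝕜 := ℝ) μ.1 f).trans hf.symm)
  · rintro ⟨y, -, rfl⟩
    exact ⟨J y, ContinuousMap.coeFn_toLp (p := 1) (𝕜 := ℝ) μ.1 _⟩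

end Pool.Agent.H88.Sick
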