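import Pool.Agent.H88.GwDefs
import Pool.Agent.H88.Sick4

namespace Pool.Agent.H88.Gw
open Filter Topology Set MeasureTheory Submodule

variable {Z W : Type} [NormedAddCommGroup Z] [NormedSpace ℝ Z] [NormedAddCommGroup W]
  [NormedSpace ℝ W]

def Null (S : Set Z) : Prop :=
  (∀ x ∈ S, ‖x‖ ≤ 1) ∧ ∀ (φ : Z →L[ℝ] ℝ) (δ : ℝ), 0 < δ → {x | x ∈ S ∧ δ < |φ x|}.Finite

def PP (Z : Type) [NormedAddCommGroup Z] [NormedSpace ℝ Z] : Prop :=
  ∃ S : Set Z, Null S ∧ Dense (span ℝ S : Set Z)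

theorem Null.map {S : Set Z} (h : Null S) (J : Z →ₗᵢ[ℝ] W) : Null (J '' S) := by
  refine ⟨?_, fun φ δ hδ => ((h.2 (φ ∘L J.toContinuousLinearMap) δ hδ).image J).subset ?_⟩
  · rintro _ ⟨x, hx, rfl⟩
    rw [J.norm_map]; exact h.1 x hx
  · rintro _ ⟨⟨x, hx, rfl⟩, h2⟩
    exact ⟨x, ⟨hx, h2⟩, rfl⟩

theorem null_union (S : ℕ → Set Z) (h : ∀ n, Null (S n)) :
    ∃ U : Set Z, Null U ∧ span ℝ U = span ℝ (⋃ n, S n) := by
  have hp : ∀ n : ℕ, (0 : ℝ) < 1 / ((n : ℝ) + 1) := fun n => by positivity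
  have hl : ∀ n : ℕ, 1 / ((n : ℝ) + 1) ≤ 1 := fun n => by
    rw [div_le_one (by positivity)]; simp
  refine ⟨⋃ n : ℕ, (fun x => (1 / ((n : ℝ) + 1)) • x) '' S n, ⟨?_, fun φ δ hδ => ?_⟩, ?_⟩
  · rintro _ ⟨_, ⟨n, rfl⟩, x, hx, rfl⟩
    rw [norm_smul, Real.norm_eq_abs, abs_of_pos (hp n)]
    exact mul_le_one₀ (hl n) (norm_nonneg _) ((h n).1 x hx)
  · obtain ⟨N, hN⟩ := exists_nat_gt (‖φ‖ / δ)
    refine ((finite_lt_nat N).biUnion fun n _ => ((h n).2 φ δ hδ).image
      fun x => (1 / ((n : ℝ) + 1)) • x).subset ?_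
    rintro _ ⟨⟨_, ⟨n, rfl⟩, x, hx, rfl⟩, h2⟩
    rw [map_smul, smul_eq_mul, abs_mul, abs_of_pos (hp n)] at h2
    have h3 : |φ x| ≤ ‖φ‖ :=
      (φ.le_opNorm x).trans (mul_le_of_le_one_right (norm_nonneg _) ((h n).1 x hx))
    refine mem_biUnion (x := n) ?_ ⟨x, ⟨hx, h2.trans_le
      (mul_le_of_le_one_left (abs_nonneg _) (hl n))⟩, rfl⟩
    rw [div_lt_iff₀ hδ] at hN
    rw [one_div, inv_mul_eq_div, lt_div_iff₀ (by positivity)] at h2
    have : (n : ℝ) < N := by nlinarith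
    exact_mod_cast this
  · apply le_antisymm <;> rw [span_le]
    · rintro _ ⟨_, ⟨n, rfl⟩, x, hx, rfl⟩
      exact smul_mem _ _ (subset_span (mem_iUnion.mpr ⟨n, hx⟩))
    · rintro x ⟨_, ⟨n, rfl⟩, hx⟩
      have : x = ((n : ℝ) + 1) • (1 / ((n : ℝ) + 1)) • x := by
        rw [smul_smul, mul_one_div_cancel (by positivity), one_smul]
      rw [this]
      exact smul_mem _ _ (subset_span (mem_iUnion.mpr ⟨n, x, hx, rfl⟩))

theorem pp_clos (S : ℕ → Set W) (h : ∀ n, Null (S n)) :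
    PP (span ℝ (⋃ n, S n)).topologicalClosure := by
  obtain ⟨U, h1, h2⟩ := null_union S h
  rw [← h2]
  refine ⟨Subtype.val ⁻¹' U, ⟨fun x hx => h1.1 _ hx, fun φ δ hδ => ?_⟩, fun y => ?_⟩
  · obtain ⟨g, hg, -⟩ := exists_extension_norm_eq _ φ
    refine ((h1.2 g δ hδ).preimage Subtype.val_injective.injOn).subset fun x hx => ⟨hx.1, ?_⟩
    rw [hg]; exact hx.2
  · rw [closure_subtype]
    refine closure_mono ?_ y.2
    have : span ℝ U ≤ (span ℝ (Subtype.val ⁻¹' U : Set (span ℝ U).topologicalClosure)).map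
        (Submodule.subtype _) := span_le.mpr fun x hx =>
      ⟨⟨x, le_topologicalClosure _ (subset_span hx)⟩, subset_span hx, rfl⟩
    exact this

theorem mem_clos {S : Set Z} (h : Dense (span ℝ S : Set Z)) (J : Z →ₗᵢ[ℝ] W) {U : Set W}
    (hU : J '' S ⊆ U) (z : Z) : J z ∈ (span ℝ U).topologicalClosure := by
  refine map_mem_closure J.continuous (h z) fun x hx => ?_
  have : span ℝ S ≤ (span ℝ U).comap J.toLinearMap :=
    span_le.mpr fun x hx => subset_span (hU ⟨x, hx, rfl⟩)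
  exact this hx

theorem PP.wcg (h : PP Z) : WCG Z := by
  obtain ⟨S, h1, h2⟩ := h
  refine ⟨insert 0 S, ?_, h2.mono (span_mono (subset_insert _ _))⟩
  have : Tendsto (fun x : S => toWeakSpace ℝ Z x) cofinite (𝓝 (toWeakSpace ℝ Z 0)) := by
    refine (WeakBilin.tendsto_iff_forall_eval_tendsto _ fun a b hab => ?_).mpr fun φ => ?_
    · exact (SeparatingDual.eq_iff_forall_dual_eq (R := ℝ)).mpr fun g => LinearMap.congr_fun hab g
    · show Tendsto (fun x : S => φ x) cofinite (𝓝 (φ 0))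
      rw [map_zero, Metric.tendsto_nhds]
      intro δ hδ
      refine ((h1.2 φ (δ / 2) (by positivity)).preimage Subtype.val_injective.injOn).subset
        fun x hx => ⟨x.2, ?_⟩
      simp only [mem_compl_iff, mem_ofPred_eq, dist_zero_right, not_lt, Real.norm_eq_abs] at hx
      linarith
  convert this.isCompact_insert_range_of_cofinite
  rw [image_insert_eq, image_eq_range]

theorem PP.wld (h : PP Z) : WLD Z := by
  obtain ⟨S, h1, h2⟩ := h
  refine ⟨S, ⟨⟨fun φ x => φ x, fun _ _ => rfl⟩, fun _ _ => rfl⟩, fun φ ψ hφ => ?_,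
    continuous_pi fun x => WeakDual.eval_continuous _, fun φ => ?_⟩
  · exact ContinuousLinearMap.ext_on h2 fun x hx => congrFun hφ ⟨x, hx⟩
  · refine (countable_iUnion fun n : ℕ => ((h1.2 φ (1 / ((n : ℝ) + 1)) (by positivity)).preimage
      Subtype.val_injective.injOn).countable).mono fun x hx => ?_
    obtain ⟨n, hn⟩ := exists_nat_one_div_lt (abs_pos.mpr hx)
    exact mem_iUnion.mpr ⟨n, x.2, hn⟩

variable {K : Type} [TopologicalSpace K] [CompactSpace K] [T2Space K]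

theorem weak_null [Nonempty K] (a : ℕ → C(K, ℝ)) (h1 : ∀ n, ‖a n‖ ≤ 1)
    (h2 : ∀ k, Tendsto (fun n => a n k) atTop (𝓝 0)) (φ : C(K, ℝ) →L[ℝ] ℝ) (hφ : ∀ f, φ f ≤ ‖f‖) :
    Tendsto (fun n => φ (a n)) atTop (𝓝 0) := by
  let σ : C(K × Bool, ℝ) := ⟨fun p => if p.2 then 1 else -1,
    (continuous_of_discreteTopology (f := fun b : Bool => if b then (1 : ℝ) else -1)).comp
      continuous_snd⟩
  have hσ : ∀ p, |σ p| = 1 := fun p => by
    show |if p.2 then (1 : ℝ) else -1| = 1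
    split_ifs <;> simp
  let J : C(K, ℝ) →ₗ[ℝ] C(K × Bool, ℝ) :=
    { toFun := fun f => σ * f.comp ⟨Prod.fst, continuous_fst⟩
      map_add' := fun f g => by ext; simp [mul_add]
      map_smul' := fun c f => by ext; simp }
  have hJ : ∀ f p, J f p = σ p * f p.1 := fun _ _ => rfl
  have bd : ∀ u : C(K × Bool, ℝ), BddAbove (range u) := fun u =>
    (isCompact_range u.continuous).bddAbove
  have key : ∀ f, φ f ≤ ⨆ p, J f p := fun f => by
    refine (hφ f).trans ?_
    obtain ⟨k, -, hk⟩ := isCompact_univ.exists_isMaxOn univ_nonempty f.continuous.abs.continuousOn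
    refine ((ContinuousMap.norm_le _ (abs_nonneg _)).mpr fun s => hk (mem_univ s)).trans ?_
    have a1 := le_ciSup (bd (J f)) (k, true)
    have a2 := le_ciSup (bd (J f)) (k, false)
    simp only [hJ, σ, ContinuousMap.coe_mk] at a1 a2
    rw [abs_le]
    constructor <;> simp at a1 a2 <;> linarith
  have inj : Function.Injective J := fun f g h => by
    ext k
    simpa [hJ, σ] using congrArg (fun u : C(K × Bool, ℝ) => u (k, true)) h
  obtain ⟨g, g1, g2⟩ := exists_extension_of_le_sublinear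
    ⟨LinearMap.range J, φ.toLinearMap ∘ₗ (LinearEquiv.ofInjective J inj).symm.toLinearMap⟩
    (fun u => ⨆ p, u p) (fun c hc u => (Real.mul_iSup_of_nonneg hc.le _).symm)
    (fun u v => ciSup_le fun p => add_le_add (le_ciSup (bd u) p) (le_ciSup (bd v) p))
    (fun u => by
      obtain ⟨f, rfl⟩ := (LinearEquiv.ofInjective J inj).surjective u
      simpa using key f)
  have g3 : ∀ f, g (J f) = φ f := fun f => by
    simpa using g1 (LinearEquiv.ofInjective J inj f)
  let _ : MeasurableSpace (K × Bool) := borel _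
  have : BorelSpace (K × Bool) := ⟨rfl⟩
  obtain ⟨ν, n1, -, n2⟩ := Sick.riesz g (fun f hf => by
    have := (g2 (-f)).trans (ciSup_le fun p => neg_nonpos.mpr (hf p))
    rw [map_neg] at this; linarith) (by
    have a := g2 1
    have b := g2 (-1)
    rw [map_neg] at b
    simp at a b
    linarith)
  simp only [← g3, ← n2]
  have := tendsto_integral_of_dominated_convergence (μ := ν) (F := fun n p => J (a n) p)
    (f := fun _ => 0) (fun _ => 1) (fun n => (J (a n)).continuous.aestronglyMeasurable)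
    (integrable_const _) (fun n => Eventually.of_forall fun p => by
      rw [hJ, Real.norm_eq_abs, abs_mul, hσ, one_mul]
      exact ((a n).norm_coe_le_norm _).trans (h1 n))
    (Eventually.of_forall fun p => by simpa [hJ] using (h2 p.1).const_mul (σ p))
  simpa using this

theorem null_ck [Nonempty K] (S : Set C(K, ℝ)) (h1 : ∀ a ∈ S, ‖a‖ ≤ 1)
    (h2 : ∀ k δ, 0 < δ → {a | a ∈ S ∧ δ < |a k|}.Finite) : Null S := by
  refine ⟨h1, fun φ δ hδ => ?_⟩
  by_contra h
  let a := Set.Infinite.natEmbedding _ h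
  have hp : 0 < ‖φ‖ + 1 := by positivity
  have := weak_null (fun n => (a n).1) (fun n => h1 _ (a n).2.1) (fun k => by
    rw [← Nat.cofinite_eq_atTop, Metric.tendsto_nhds]
    intro η hη
    refine ((h2 k (η / 2) (by positivity)).preimage (f := fun n => (a n).1)
      (Subtype.val_injective.comp a.injective).injOn).subset fun n hn => ⟨(a n).2.1, ?_⟩
    simp only [mem_compl_iff, mem_ofPred_eq, dist_zero_right, not_lt, Real.norm_eq_abs] at hn
    linarith) ((‖φ‖ + 1)⁻¹ • φ) (fun f => by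
      show (‖φ‖ + 1)⁻¹ * φ f ≤ _
      rw [inv_mul_le_iff₀ hp]
      nlinarith [(le_abs_self _).trans (φ.le_opNorm f), norm_nonneg f])
  have h3 := (this.const_mul (‖φ‖ + 1)).abs
  simp only [smul_apply, smul_eq_mul, mul_inv_cancel_left₀ hp.ne',
    mul_zero, abs_zero] at h3
  exact absurd (ge_of_tendsto' h3 fun n => (a n).2.2.le) (not_le.mpr hδ)

theorem pp_ck [Nonempty K] (S : Set C(K, ℝ)) (h1 : ∀ a ∈ S, ‖a‖ ≤ 1)
    (h2 : ∀ k δ, 0 < δ → {a | a ∈ S ∧ δ < |a k|}.Finite)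
    (h3 : ∀ k l, k ≠ l → ∃ a ∈ S, a k ≠ a l) : PP C(K, ℝ) := by
  let M : ℕ → Set C(K, ℝ) := fun n => Nat.rec {1} (fun _ B => image2 (· * ·) S B) n
  have hM : ∀ n, (∀ a ∈ M n, ‖a‖ ≤ 1) ∧ ∀ k δ, 0 < δ → {a | a ∈ M n ∧ δ < |a k|}.Finite := by
    intro n
    induction n with
    | zero => exact ⟨fun a ha => by rw [show a = 1 from ha]; exact norm_one.le,
        fun k δ _ => (finite_singleton 1).subset fun a ha => ha.1⟩
    | succ n ih =>
      refine ⟨?_, fun k δ hδ => ((h2 k δ hδ).image2 (· * ·) (ih.2 k δ hδ)).subset ?_⟩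
      · rintro _ ⟨a, ha, b, hb, rfl⟩
        exact (norm_mul_le _ _).trans (mul_le_one₀ (h1 a ha) (norm_nonneg _) (ih.1 b hb))
      · rintro _ ⟨⟨a, ha, b, hb, rfl⟩, h⟩
        have a1 : |a k| ≤ 1 := (a.norm_coe_le_norm k).trans (h1 a ha)
        have b1 : |b k| ≤ 1 := (b.norm_coe_le_norm k).trans (ih.1 b hb)
        rw [ContinuousMap.mul_apply, abs_mul] at h
        exact ⟨a, ⟨ha, h.trans_le (mul_le_of_le_one_right (abs_nonneg _) b1)⟩, b,
          ⟨hb, h.trans_le (mul_le_of_le_one_left (abs_nonneg _) a1)⟩, rfl⟩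
  obtain ⟨U, u1, u2⟩ := null_union M fun n => null_ck _ (hM n).1 (hM n).2
  refine ⟨U, u1, ?_⟩
  have := ContinuousMap.subalgebra_topologicalClosure_eq_top_of_separatesPoints
    (Algebra.adjoin ℝ S) fun k l hkl => by
      obtain ⟨a, ha, h⟩ := h3 k l hkl
      exact ⟨a, ⟨a, Algebra.subset_adjoin ha, rfl⟩, h⟩
  intro f
  have hf : f ∈ (Algebra.adjoin ℝ S).topologicalClosure := this ▸ Algebra.mem_top
  refine closure_mono (fun x hx => ?_) hf
  have hx' : x ∈ Subalgebra.toSubmodule (Algebra.adjoin ℝ S) := hx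
  rw [Algebra.adjoin_eq_span] at hx'
  rw [u2]
  refine span_mono (fun y hy => ?_) hx'
  induction hy using Submonoid.closure_induction_left with
  | one => exact mem_iUnion.mpr ⟨0, rfl⟩
  | mul_left a ha b _ ih =>
    obtain ⟨n, hn⟩ := mem_iUnion.mp ih
    exact mem_iUnion.mpr ⟨n + 1, a, ha, b, hn, rfl⟩

end Pool.Agent.H88.Gw
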