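import Pool.Agent.H88.Gw2

namespace Pool.Agent.H88.Gw
open Filter Topology Set Submodule

section lim
variable (Z : ℕ → Ban) (j : ∀ n, (Z n).X →ₗᵢ[ℝ] (Z (n + 1)).X)

noncomputable def ff (n : ℕ) : ∀ m, (Z n).X →ₗ[ℝ] (Z m).X
  | 0 => if h : n = 0 then h ▸ LinearMap.id else 0
  | m + 1 => if h : n = m + 1 then h ▸ LinearMap.id else (j m).toLinearMap ∘ₗ ff n m

theorem ff_self (n : ℕ) (x : (Z n).X) : ff Z j n n x = x := by
  cases n <;> simp [ff]

theorem ff_succ {n m : ℕ} (h : n ≠ m + 1) (x : (Z n).X) :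
    ff Z j n (m + 1) x = j m (ff Z j n m x) := by
  simp [ff, h]

theorem ff_le (n m : ℕ) (x : (Z n).X) : ‖ff Z j n m x‖ ≤ ‖x‖ := by
  induction m with
  | zero =>
    by_cases h : n = 0
    · subst h; rw [ff_self]
    · simp [ff, h]
  | succ m ih =>
    by_cases h : n = m + 1
    · subst h; rw [ff_self]
    · rwa [ff_succ Z j h, LinearIsometry.norm_map]

theorem ff_eq {n m : ℕ} (h : n ≤ m) (x : (Z n).X) : ‖ff Z j n m x‖ = ‖x‖ := by
  induction m, h using Nat.le_induction with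
  | base => rw [ff_self]
  | succ m h ih => rwa [ff_succ Z j (by omega), LinearIsometry.norm_map]

theorem ff_j {n m : ℕ} (h : n + 1 ≤ m) (x : (Z n).X) :
    ff Z j (n + 1) m (j n x) = ff Z j n m x := by
  induction m, h using Nat.le_induction with
  | base => rw [ff_self, ff_succ Z j (by omega), ff_self]
  | succ m h ih => rw [ff_succ Z j (by omega), ff_succ Z j (by omega), ih]

theorem limit : ∃ (W : Type) (_ : NormedAddCommGroup W) (_ : NormedSpace ℝ W)
    (_ : CompleteSpace W) (J : ∀ n, (Z n).X →ₗᵢ[ℝ] W), ∀ n x, J (n + 1) (j n x) = J n x := by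
  let P := lp (fun n => (Z n).X) ⊤
  let N : Submodule ℝ P :=
    { carrier := {w | ∀ᶠ m in atTop, w m = 0}
      add_mem' := fun {a b} ha hb => by
        filter_upwards [ha, hb] with m h1 h2
        show a m + b m = 0
        rw [h1, h2, add_zero]
      zero_mem' := Eventually.of_forall fun _ => rfl
      smul_mem' := fun c a ha => by
        filter_upwards [ha] with m h1
        show c • a m = 0
        rw [h1, smul_zero] }
  let L : ∀ n, (Z n).X →ₗ[ℝ] P := fun n =>
    { toFun := fun x => ⟨fun m => ff Z j n m x, memℓp_infty ⟨‖x‖, by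
        rintro _ ⟨m, rfl⟩; exact ff_le Z j n m x⟩⟩
      map_add' := fun a b => lp.ext (funext fun m => map_add (ff Z j n m) a b)
      map_smul' := fun c a => lp.ext (funext fun m => map_smul (ff Z j n m) c a) }
  have hL : ∀ n x, ‖N.mkQ (L n x)‖ = ‖x‖ := fun n x => by
    refine le_antisymm ((Submodule.Quotient.norm_mk_le N _).trans
      (lp.norm_le_of_forall_le (norm_nonneg _) fun m => ff_le Z j n m x))
      (le_of_forall_pos_lt_add fun ε hε => ?_)
    obtain ⟨w, w1, w2⟩ := Submodule.Quotient.norm_mk_lt (N.mkQ (L n x)) hε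
    have w3 : ∀ᶠ m in atTop, (w - L n x) m = 0 := (Submodule.Quotient.eq N).mp w1
    obtain ⟨m, m1, m2⟩ := (w3.and (eventually_ge_atTop n)).exists
    have m3 : w m = ff Z j n m x := sub_eq_zero.mp m1
    rw [← ff_eq Z j m2 x, ← m3]
    exact (lp.norm_apply_le_norm ENNReal.top_ne_zero w m).trans_lt w2
  refine ⟨UniformSpace.Completion (P ⧸ N), inferInstance, inferInstance, inferInstance,
    fun n => ⟨UniformSpace.Completion.toComplₗᵢ.toLinearMap ∘ₗ N.mkQ ∘ₗ L n, fun x =>
      (UniformSpace.Completion.norm_coe _).trans (hL n x)⟩, fun n x => ?_⟩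
  refine congrArg (fun q : P ⧸ N => (q : UniformSpace.Completion (P ⧸ N)))
    ((Submodule.Quotient.eq N).mpr ?_)
  filter_upwards [eventually_ge_atTop (n + 1)] with m hm
  exact sub_eq_zero.mpr (ff_j Z j hm x)

end lim

theorem chain : ∃ (Z : ℕ → Ban) (j : ∀ n, (Z n).X →ₗᵢ[ℝ] (Z (n + 1)).X), (∀ n, Ext (j n)) ∧
    ∃ u : ℝ → (Z 1).X, ∀ r s, r ≠ s → 1 ≤ ‖u r - u s‖ := by
  choose nx jj h1 h2 using step
  have z : Ban := ⟨Unit, ∅, ⟨by simp, by simp⟩, fun x => by
    rw [Subsingleton.elim x 0]; exact subset_closure (zero_mem _)⟩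
  exact ⟨fun n => Nat.rec z (fun _ B => nx B) n, fun n => jj _, fun n => h1 _, h2 _⟩

theorem main : ∃ (E : Type) (_ : NormedAddCommGroup E) (_ : NormedSpace ℝ E), CompleteSpace E ∧
    ¬ TopologicalSpace.SeparableSpace E ∧ Gurarii E ∧ PP E := by
  obtain ⟨Z, j, h1, h2⟩ := chain
  obtain ⟨W, _, _, _, J, hJ⟩ := limit Z j
  choose S s1 s2 using fun n : ℕ => (Z n).p
  let Y := (span ℝ (⋃ n, J n '' S n)).topologicalClosure
  have y1 : ∀ n z, J n z ∈ Y := fun n => mem_clos (s2 n) _ (subset_iUnion (fun n => J n '' S n) n)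
  let I : ∀ n : ℕ, (Z n).X →ₗᵢ[ℝ] Y := fun n =>
    ⟨(J n).toLinearMap.codRestrict Y (y1 n), fun h => (J n).norm_map h⟩
  have hI : ∀ n x, I (n + 1) (j n x) = I n x := fun n x => Subtype.ext (hJ n x)
  have mono : Monotone fun n => LinearMap.range (J n).toLinearMap :=
    monotone_nat_of_le_succ fun n => by
      rintro _ ⟨x, rfl⟩
      exact ⟨j n x, hJ n x⟩
  have app : ∀ (y : Y) (η : ℝ), 0 < η → ∀ᶠ n in atTop, ∃ z, ‖y - I n z‖ ≤ η := fun y η hη => by
    obtain ⟨w, w1, w2⟩ := Metric.mem_closure_iff.mp y.2 η hη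
    have : span ℝ (⋃ n, J n '' S n) ≤ ⨆ n, LinearMap.range (J n).toLinearMap := span_le.mpr (by
      rintro _ ⟨_, ⟨n, rfl⟩, x, -, rfl⟩
      exact mem_iSup_of_mem n ⟨x, rfl⟩)
    obtain ⟨n, hn⟩ := (mem_iSup_of_directed _ mono.directed_le).mp (this w1)
    filter_upwards [eventually_ge_atTop n] with m hm
    obtain ⟨z, rfl⟩ := mono hm hn
    exact ⟨z, by rw [dist_eq_norm] at w2; exact w2.le⟩
  refine ⟨Y, inferInstance, inferInstance, (isClosed_topologicalClosure _).completeSpace_coe,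
    fun hs => ?_, fun F _ _ _ X f ε hε => ?_, pp_clos _ fun n => (s1 n).map _⟩
  · obtain ⟨u, hu⟩ := h2
    have := Pairwise.countable_of_isOpen_disjoint (s := fun r => Metric.ball (I 1 (u r)) (1 / 2))
      (fun r s hrs => Metric.ball_disjoint_ball (by
        rw [dist_eq_norm, ← map_sub, LinearIsometry.norm_map]
        exact le_trans (by norm_num) (hu r s hrs))) (fun _ => Metric.isOpen_ball)
      fun r => Metric.nonempty_ball.mpr (by norm_num)
    exact not_countable this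
  obtain ⟨P, hP⟩ := X.subtype.exists_leftInverse_of_injective X.ker_subtype
  have hP' : ∀ x : X, P x = x := fun x => LinearMap.congr_fun hP x
  obtain ⟨D, d0, d1⟩ := (LinearMap.toContinuousLinearMap P).bound
  let b := Module.finBasis ℝ X
  obtain ⟨C, c0, c1⟩ := b.exists_opNorm_le (F := Y)
  obtain ⟨η, e0, e1, e2⟩ : ∃ η : ℝ, 0 < η ∧ η < 1 / 2 ∧ 5 * η * D ≤ ε / (1 + ε) := by
    refine ⟨min (1 / 4) (ε / (1 + ε) / (5 * D)), by positivity,
      (min_le_left _ _).trans_lt (by norm_num), ?_⟩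
    have := min_le_right (1 / 4) (ε / (1 + ε) / (5 * D))
    rw [le_div_iff₀ (by positivity)] at this
    linarith
  obtain ⟨n, hn⟩ := (eventually_all.mpr fun i => app (f (b i)) (η / C) (by positivity)).exists
  choose z hz using hn
  let e' : X →ₗ[ℝ] (Z n).X := b.constr ℝ z
  have a1 : ∀ x, ‖f x - I n (e' x)‖ ≤ η * ‖x‖ := fun x => by
    have := c1 (u := LinearMap.toContinuousLinearMap (f.toLinearMap - (I n).toLinearMap ∘ₗ e'))
      (M := η / C) (by positivity) fun i => by simpa [e'] using hz i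
    rw [mul_div_cancel₀ _ c0.ne'] at this
    exact ((LinearMap.toContinuousLinearMap (f.toLinearMap - (I n).toLinearMap ∘ₗ e')).le_opNorm
      x).trans (mul_le_mul_of_nonneg_right this (norm_nonneg _))
  have a2 : ∀ x, (1 - η) * ‖x‖ ≤ ‖e' x‖ ∧ ‖e' x‖ ≤ (1 + η) * ‖x‖ := fun x => by
    have := abs_le.mp ((abs_norm_sub_norm_le _ _).trans (a1 x))
    rw [f.norm_map, (I n).norm_map] at this
    constructor <;> linarith [this.1, this.2]
  obtain ⟨g, g1, g2⟩ := h1 n F X ((1 - η) • e') (2 * η) (by positivity) (by linarith)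
    fun x => by
      rw [LinearMap.smul_apply, norm_smul, Real.norm_eq_abs, abs_of_pos (by linarith)]
      have := norm_nonneg x
      constructor <;> nlinarith [(a2 x).1, (a2 x).2, mul_nonneg e0.le this]
  let G : F →ₗ[ℝ] Y := (I (n + 1)).toLinearMap ∘ₗ g
  have a3 : ∀ y, ‖G y‖ = ‖y‖ := fun y => ((I (n + 1)).norm_map _).trans (g1 y)
  have a4 : ∀ x : X, ‖f x - G x‖ ≤ 5 * η * ‖x‖ := fun x => by
    have t1 : ‖G x - I n ((1 - η) • e' x)‖ ≤ 2 * η * ‖x‖ := by
      rw [← hI]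
      exact (((congrArg norm (map_sub (I (n + 1)) _ _)).symm.trans
        ((I (n + 1)).norm_map _)).le).trans (g2 x)
    have t2 : ‖I n (e' x) - I n ((1 - η) • e' x)‖ ≤ 2 * η * ‖x‖ := by
      rw [← map_sub, LinearIsometry.norm_map, sub_smul, one_smul, sub_sub_cancel, norm_smul,
        Real.norm_eq_abs, abs_of_pos e0]
      nlinarith [(a2 x).2, norm_nonneg x, mul_nonneg e0.le (norm_nonneg x)]
    have t3 := norm_sub_le_norm_sub_add_norm_sub (f x) (I n (e' x)) (G x)
    have t4 := norm_sub_le_norm_sub_add_norm_sub (I n (e' x)) (I n ((1 - η) • e' x)) (G x)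
    rw [norm_sub_rev] at t1
    linarith [a1 x]
  refine ⟨G + (f.toLinearMap - G ∘ₗ X.subtype) ∘ₗ P, fun y => ?_, fun x => ?_⟩
  · show _ ≤ ‖G y + (f (P y) - G (P y))‖ ∧ ‖G y + (f (P y) - G (P y))‖ ≤ _
    have t1 : ‖f (P y) - G (P y)‖ ≤ ε / (1 + ε) * ‖y‖ :=
      (a4 _).trans ((mul_le_mul_of_nonneg_left (d1 y) (by positivity)).trans (by
        rw [← mul_assoc]; exact mul_le_mul_of_nonneg_right e2 (norm_nonneg _)))
    have t2 := norm_add_le (G y) (f (P y) - G (P y))
    have t3 := norm_sub_le (G y + (f (P y) - G (P y))) (f (P y) - G (P y))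
    rw [add_sub_cancel_right] at t3
    rw [a3] at t2 t3
    have t4 : (1 + ε)⁻¹ = 1 - ε / (1 + ε) := by field_simp; ring
    have t5 : ε / (1 + ε) ≤ ε := div_le_self hε.le (by linarith)
    rw [t4]
    constructor <;> nlinarith [norm_nonneg y]
  · show G x + (f (P x) - G (P x)) = f x
    rw [hP', add_sub_cancel]

end Pool.Agent.H88.Gw
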