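import Mathlib

namespace Pool.Agent.H88.Gw

/-- Gurarii space -/
def Gurarii (E : Type) [NormedAddCommGroup E] [NormedSpace ℝ E] : Prop :=
  ∀ (Y : Type) [NormedAddCommGroup Y] [NormedSpace ℝ Y] [FiniteDimensional ℝ Y]
    (X : Submodule ℝ Y) (f : X →ₗᵢ[ℝ] E) (ε : ℝ), 0 < ε →
    ∃ g : Y →ₗ[ℝ] E, (∀ y, (1 + ε)⁻¹ * ‖y‖ ≤ ‖g y‖ ∧ ‖g y‖ ≤ (1 + ε) * ‖y‖) ∧
      ∀ x : X, g x = f x

/-- weakly compactly generated -/
def WCG (E : Type) [NormedAddCommGroup E] [NormedSpace ℝ E] : Prop :=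
  ∃ K : Set E, IsCompact (toWeakSpace ℝ E '' K) ∧ Dense (Submodule.span ℝ K : Set E)

/-- weakly Lindelöf determined -/
def WLD (E : Type) [NormedAddCommGroup E] [NormedSpace ℝ E] : Prop :=
  ∃ (Γ : Type) (T : WeakDual ℝ E →ₗ[ℝ] (Γ → ℝ)), Function.Injective T ∧ Continuous T ∧
    ∀ φ, {γ | T φ γ ≠ 0}.Countable

end Pool.Agent.H88.Gw
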