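import Pool.Agent.H88.Rad1

set_option autoImplicit false
open MeasureTheory Filter Topology Metric Set Complex Polynomial

namespace Pool.Agent.H88.Rad

noncomputable def cc (F : ℝ → ℂ) (k : ℤ) : ℂ :=
  (1 / (2 * Real.pi) : ℝ) • ∫ θ in (0:ℝ)..2 * Real.pi, exp (-(k * θ) * I) * F θ

theorem cc_eq (F : ℝ → ℂ) (k : ℤ) : fourierCoeffOn Real.two_pi_pos F k = cc F k := by
  have e : ∀ x : ℝ, fourier (-k) (x : AddCircle (2 * Real.pi - 0)) • F x
      = exp (-(k * x) * I) * F x := by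
    intro x
    rw [fourier_coe_apply, smul_eq_mul]
    congr 2
    have : (Real.pi : ℂ) ≠ 0 := by exact_mod_cast Real.pi_pos.ne'
    push_cast
    rw [sub_zero]
    field_simp
  rw [fourierCoeffOn_eq_integral]
  simp_rw [e]
  rw [sub_zero, cc]

theorem norm_e (k : ℤ) (θ : ℝ) : ‖exp (-(k * θ) * I)‖ = 1 := by
  rw [← norm_exp_ofReal_mul_I (-(k * θ))]
  push_cast
  rfl

theorem cc_le (F : ℝ → ℂ) (k : ℤ) :
    ‖cc F k‖ ≤ 1 / (2 * Real.pi) * ∫ θ in (0:ℝ)..2 * Real.pi, ‖F θ‖ := by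
  have := Real.pi_pos
  rw [cc, norm_smul, Real.norm_of_nonneg (by positivity)]
  refine mul_le_mul_of_nonneg_left ?_ (by positivity)
  refine (intervalIntegral.norm_integral_le_integral_norm (by positivity)).trans (le_of_eq ?_)
  simp_rw [norm_mul, norm_e, one_mul]

theorem int_e (k m : ℤ) : ∫ θ in (0:ℝ)..2 * Real.pi, exp (-(k * θ) * I) * exp (m * θ * I)
    = if k = m then (2 * Real.pi : ℂ) else 0 := by
  have e : ∀ θ : ℝ, exp (-(k * θ) * I) * exp (m * θ * I) = exp ((((m:ℂ) - k) * I) * θ) := by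
    intro θ
    rw [← exp_add]
    congr 1
    ring
  simp_rw [e]
  split_ifs with hk
  · subst hk
    simp
  · have h4 : ((m:ℂ) - k) * I ≠ 0 :=
      mul_ne_zero (sub_ne_zero.2 (by exact_mod_cast (Ne.symm hk))) I_ne_zero
    rw [integral_exp_mul_complex h4]
    have h6 := exp_int_mul_two_pi_mul_I (m - k)
    rw [show (((m:ℂ) - k) * I) * ((2 * Real.pi : ℝ) : ℂ)
      = ((m - k : ℤ) : ℂ) * (2 * Real.pi * I) by push_cast; ring, h6]
    simp

theorem bdd_int {F : ℝ → ℂ} (hF : Measurable F) {B : ℝ} (hB : ∀ θ, ‖F θ‖ ≤ B) {G : ℝ → ℂ}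
    (hG : Continuous G) : IntervalIntegrable (fun θ => G θ * F θ) volume 0 (2 * Real.pi) := by
  rw [intervalIntegrable_iff_integrableOn_Ioc_of_le Real.two_pi_pos.le]
  exact Integrable.mul_bdd (c := B) (hG.integrableOn_Icc.mono_set Ioc_subset_Icc_self)
    hF.aestronglyMeasurable (Eventually.of_forall hB)

theorem trig_approx {F : ℝ → ℂ} (hF : Measurable F) {B : ℝ} (hB : ∀ θ, ‖F θ‖ ≤ B) {η : ℝ}
    (hη : 0 < η) : ∃ (d : ℕ) (U : ℂ[X]),
      (∀ i, ‖U.coeff i‖ ≤ 1 / (2 * Real.pi) * ∫ θ in (0:ℝ)..2 * Real.pi, ‖F θ‖) ∧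
      volume {θ | θ ∈ Ioc 0 (2 * Real.pi) ∧
        η ≤ ‖F θ - (exp (θ * I) ^ d)⁻¹ * U.eval (exp (θ * I))‖} ≤ ENNReal.ofReal η := by
  classical
  have hpi := Real.pi_pos
  have hL2 : MemLp F 2 (volume.restrict (Ioc 0 (2 * Real.pi))) :=
    MemLp.of_bound hF.aestronglyMeasurable B (Eventually.of_forall hB)
  have h1 := hasSum_sq_fourierCoeffOn Real.two_pi_pos hL2
  simp_rw [cc_eq] at h1
  generalize (2 * Real.pi - 0)⁻¹ • ∫ x in (0:ℝ)..2 * Real.pi, ‖F x‖ ^ 2 = P at h1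
  obtain ⟨S0, hS0⟩ : ∃ S0 : Finset ℤ, P - η ^ 3 / (2 * Real.pi) < ∑ k ∈ S0, ‖cc F k‖ ^ 2 :=
    (h1.eventually (lt_mem_nhds (by
      have : 0 < η ^ 3 / (2 * Real.pi) := by positivity
      linarith))).exists
  obtain ⟨d, hd⟩ : ∃ d : ℕ, ∀ k ∈ S0, k.natAbs ≤ d :=
    ⟨S0.sup Int.natAbs, fun k hk => Finset.le_sup (f := Int.natAbs) hk⟩
  obtain ⟨S, hS⟩ : ∃ S : Finset ℤ, S = (Finset.range (2 * d + 1)).image fun j : ℕ => (j:ℤ) - d :=
    ⟨_, rfl⟩
  have hsub : S0 ⊆ S := by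
    intro k hk
    have := hd k hk
    rw [hS, Finset.mem_image]
    exact ⟨(k + d).toNat, Finset.mem_range.2 (by omega), by omega⟩
  obtain ⟨T, hT⟩ : ∃ T : ℝ → ℂ, T = fun θ : ℝ => ∑ m ∈ S, cc F m * exp (m * θ * I) := ⟨_, rfl⟩
  have hTc : Continuous T := by
    rw [hT]
    fun_prop
  have hTb : ∀ θ, ‖T θ‖ ≤ ∑ m ∈ S, ‖cc F m‖ := by
    intro θ
    rw [hT]
    refine (norm_sum_le _ _).trans (le_of_eq (Finset.sum_congr rfl fun m _ => ?_))
    rw [norm_mul, show (m:ℂ) * θ * I = ((m * θ : ℝ) : ℂ) * I by push_cast; ring,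
      norm_exp_ofReal_mul_I, mul_one]
  have hGm : Measurable fun θ => F θ - T θ := hF.sub hTc.measurable
  have hL2' : MemLp (fun θ => F θ - T θ) 2 (volume.restrict (Ioc 0 (2 * Real.pi))) :=
    MemLp.of_bound hGm.aestronglyMeasurable (B + ∑ m ∈ S, ‖cc F m‖)
      (Eventually.of_forall fun θ => (norm_sub_le _ _).trans (add_le_add (hB θ) (hTb θ)))
  have h2 := hasSum_sq_fourierCoeffOn Real.two_pi_pos hL2'
  simp_rw [cc_eq] at h2
  have h3 : ∀ k, cc (fun θ => F θ - T θ) k = if k ∈ S then 0 else cc F k := by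
    intro k
    have h4 : ∫ θ in (0:ℝ)..2 * Real.pi, exp (-(k * θ) * I) * T θ
        = if k ∈ S then cc F k * (2 * Real.pi : ℝ) else 0 := by
      rw [hT]
      simp_rw [Finset.mul_sum, mul_left_comm (exp _) (cc F _)]
      rw [intervalIntegral.integral_finsetSum fun m _ =>
        Continuous.intervalIntegrable (by fun_prop) _ _]
      simp_rw [intervalIntegral.integral_const_mul, int_e]
      simp
    have h5 : cc (fun θ => F θ - T θ) k = cc F k - (1 / (2 * Real.pi) : ℝ) •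
        ∫ θ in (0:ℝ)..2 * Real.pi, exp (-(k * θ) * I) * T θ := by
      unfold cc
      rw [← smul_sub, ← intervalIntegral.integral_sub (bdd_int hF hB (by fun_prop))
        (Continuous.intervalIntegrable (by fun_prop) _ _)]
      simp_rw [mul_sub]
    rw [h5, h4]
    split_ifs
    · have : (Real.pi : ℂ) ≠ 0 := by exact_mod_cast hpi.ne'
      rw [real_smul]
      push_cast
      field_simp
      ring
    · simp
  have h4 : HasSum (fun k => if k ∈ S then ‖cc F k‖ ^ 2 else 0) (∑ k ∈ S, ‖cc F k‖ ^ 2) := by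
    have := hasSum_sum_of_ne_finset_zero (L := SummationFilter.unconditional ℤ)
      (f := fun k => if k ∈ S then ‖cc F k‖ ^ 2 else 0) (s := S) (fun b hb => if_neg hb)
    rwa [Finset.sum_congr rfl fun i hi => if_pos hi] at this
  have h5 := h2.add h4
  have h6 : (fun k => ‖cc (fun θ => F θ - T θ) k‖ ^ 2 + if k ∈ S then ‖cc F k‖ ^ 2 else 0)
      = fun k => ‖cc F k‖ ^ 2 := by
    funext k
    rw [h3]
    split_ifs <;> simp
  rw [h6] at h5
  have h7 := h5.unique h1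
  have h8 : ∑ k ∈ S0, ‖cc F k‖ ^ 2 ≤ ∑ k ∈ S, ‖cc F k‖ ^ 2 :=
    Finset.sum_le_sum_of_subset_of_nonneg hsub fun _ _ _ => sq_nonneg _
  have h9 : ∫ x in (0:ℝ)..2 * Real.pi, ‖F x - T x‖ ^ 2 ≤ η ^ 3 := by
    rw [sub_zero, smul_eq_mul] at h7
    have h10 : (2 * Real.pi)⁻¹ * ∫ x in (0:ℝ)..2 * Real.pi, ‖F x - T x‖ ^ 2
        ≤ η ^ 3 / (2 * Real.pi) := by linarith
    rw [inv_mul_eq_div, div_le_div_iff_of_pos_right (by positivity)] at h10
    exact h10
  rw [intervalIntegral.integral_of_le Real.two_pi_pos.le] at h9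
  have h10 := mul_meas_ge_le_integral_of_nonneg (μ := volume.restrict (Ioc 0 (2 * Real.pi)))
    (f := fun x => ‖F x - T x‖ ^ 2) (Eventually.of_forall fun _ => sq_nonneg _)
    (hL2'.integrable_norm_pow two_ne_zero) (η ^ 2)
  refine ⟨d, ∑ j ∈ Finset.range (2 * d + 1), monomial j (cc F ((j:ℤ) - d)), fun i => ?_, ?_⟩
  · rw [finsetSum_coeff]
    simp_rw [coeff_monomial]
    rw [Finset.sum_ite_eq']
    split_ifs
    · exact cc_le _ _
    · rw [norm_zero]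
      exact (norm_nonneg _).trans (cc_le F 0)
  · have e : ∀ θ : ℝ, (exp (θ * I) ^ d)⁻¹ * (∑ j ∈ Finset.range (2 * d + 1),
        monomial j (cc F ((j:ℤ) - d))).eval (exp (θ * I)) = T θ := by
      intro θ
      rw [hT, hS, eval_finsetSum, Finset.mul_sum]
      simp only
      rw [Finset.sum_image fun a _ b _ h => by simpa using h]
      refine Finset.sum_congr rfl fun j _ => ?_
      rw [eval_monomial, ← exp_nat_mul, ← exp_nat_mul, ← exp_neg, mul_left_comm, ← exp_add]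
      congr 2
      push_cast
      ring
    simp_rw [e]
    have h11 : {θ | θ ∈ Ioc 0 (2 * Real.pi) ∧ η ≤ ‖F θ - T θ‖}
        ⊆ {x | η ^ 2 ≤ ‖F x - T x‖ ^ 2} ∩ Ioc 0 (2 * Real.pi) := fun θ hθ =>
      ⟨pow_le_pow_left₀ hη.le hθ.2 2, hθ.1⟩
    refine (measure_mono h11).trans ?_
    rw [← Measure.restrict_apply' measurableSet_Ioc, ← ofReal_measureReal]
    refine ENNReal.ofReal_le_ofReal ?_
    refine le_of_mul_le_mul_left (h10.trans (h9.trans (le_of_eq ?_))) (by positivity)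
    ring

theorem unif {G : ℝ × ℂ → ℂ} (hG : Continuous G) (h1 : ∀ ζ : ℂ, ‖ζ‖ = 1 → G (1, ζ) = 0) {η : ℝ}
    (hη : 0 < η) : ∃ ρ : ℝ, 0 ≤ ρ ∧ ρ < 1 ∧ ∀ r, ρ ≤ r → r ≤ 1 → ∀ ζ : ℂ, ‖ζ‖ = 1 →
      ‖G (r, ζ)‖ ≤ η := by
  have h2 := (isCompact_sphere (0:ℂ) 1).eventually_forall_of_forall_eventually (x₀ := (1:ℝ))
    (P := fun r ζ => ‖G (r, ζ)‖ ≤ η) fun ζ hζ => by
      have h3 := hG.norm.tendsto (1, ζ)
      rw [h1 ζ (mem_sphere_zero_iff_norm.1 hζ), norm_zero] at h3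
      exact h3.eventually (ge_mem_nhds hη)
  obtain ⟨δ, hδ, h3⟩ := Metric.eventually_nhds_iff.1 h2
  refine ⟨max 0 (1 - δ / 2), le_max_left _ _, max_lt one_pos (by linarith), fun r h4 h5 ζ hζ =>
    h3 ?_ ζ (mem_sphere_zero_iff_norm.2 hζ)⟩
  have := le_max_right 0 (1 - δ / 2)
  rw [Real.dist_eq, abs_lt]
  constructor <;> linarith

noncomputable def AA (Q : ℂ[X]) : ℝ := ∑ i ∈ Finset.range (Q.natDegree + 1), ‖Q.coeff i‖

theorem AA_nonneg (Q : ℂ[X]) : 0 ≤ AA Q := Finset.sum_nonneg fun _ _ => norm_nonneg _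

theorem eval_le (Q : ℂ[X]) {z : ℂ} (hz : ‖z‖ ≤ 1) : ‖Q.eval z‖ ≤ AA Q := by
  rw [eval_eq_sum_range]
  refine (norm_sum_le _ _).trans (Finset.sum_le_sum fun i _ => ?_)
  rw [norm_mul, norm_pow]
  exact mul_le_of_le_one_right (norm_nonneg _) (pow_le_one₀ (norm_nonneg _) hz)

theorem arc (Q U : ℂ[X]) (d m : ℕ) {β η : ℝ} (hβ : ∀ i, ‖U.coeff i‖ ≤ β) (hη : 0 < η) :
    ∃ (N : ℕ) (P : ℂ[X]), m ≤ N ∧ (∀ k < m, P.coeff k = 0) ∧ (∀ k, ‖P.coeff k‖ ≤ AA Q * β) ∧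
      ∀ r : ℝ, 0 ≤ r → r ≤ 1 → ∀ ζ : ℂ, ‖ζ‖ = 1 → ‖P.eval (r * ζ)
        - (ζ ^ d)⁻¹ * U.eval ζ * ((r * ζ) ^ N * Q.eval ((r * ζ) ^ N))‖ ≤ η := by
  have hA := AA_nonneg Q
  have hU := AA_nonneg U
  have hβ0 : 0 ≤ β := (norm_nonneg _).trans (hβ 0)
  obtain ⟨ρ, hρ0, hρ1, hρ⟩ := unif (G := fun p => U.eval (p.1 * p.2) - p.1 ^ d * U.eval p.2)
    (by fun_prop) (fun ζ _ => by simp) (show 0 < η / (AA Q + 1) by positivity)
  obtain ⟨n0, hn0⟩ := exists_pow_lt_of_lt_one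
    (show 0 < η / (AA Q + 1) / (2 * AA U + 1) by positivity) hρ1
  obtain ⟨n, hn1, hn2⟩ : ∃ n, m ≤ n ∧ n0 ≤ n := ⟨max m n0, le_max_left _ _, le_max_right _ _⟩
  refine ⟨d + n, ∑ i ∈ Finset.range (Q.natDegree + 1), C (Q.coeff i) * (U * X ^ (n + (d + n) * i)),
    by omega, fun k hk => ?_, fun k => ?_, fun r hr0 hr1 ζ hζ => ?_⟩
  · rw [finsetSum_coeff]
    refine Finset.sum_eq_zero fun i _ => ?_
    rw [coeff_C_mul, coeff_mul_X_pow', if_neg (by omega), mul_zero]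
  · rw [finsetSum_coeff, AA, Finset.sum_mul]
    refine (norm_sum_le _ _).trans (Finset.sum_le_sum fun i _ => ?_)
    rw [coeff_C_mul, coeff_mul_X_pow', norm_mul]
    refine mul_le_mul_of_nonneg_left ?_ (norm_nonneg _)
    split_ifs
    · exact hβ _
    · simpa using hβ0
  · have hz : ‖(r:ℂ) * ζ‖ ≤ 1 := by
      rw [norm_mul, hζ, mul_one, norm_real, Real.norm_of_nonneg hr0]
      exact hr1
    have hζ0 : ζ ≠ 0 := norm_ne_zero_iff.1 (by rw [hζ]; exact one_ne_zero)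
    have e1 : (∑ i ∈ Finset.range (Q.natDegree + 1),
        C (Q.coeff i) * (U * X ^ (n + (d + n) * i))).eval (r * ζ)
        = U.eval (r * ζ) * (r * ζ) ^ n * Q.eval ((r * ζ) ^ (d + n)) := by
      rw [eval_finsetSum, eval_eq_sum_range (p := Q), Finset.mul_sum]
      refine Finset.sum_congr rfl fun i _ => ?_
      rw [eval_mul, eval_mul, eval_C, eval_pow, eval_X, pow_add, pow_mul]
      ring
    have e2 : U.eval (r * ζ) * (r * ζ) ^ n * Q.eval ((r * ζ) ^ (d + n))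
        - (ζ ^ d)⁻¹ * U.eval ζ * ((r * ζ) ^ (d + n) * Q.eval ((r * ζ) ^ (d + n)))
        = (r * ζ) ^ n * (U.eval (r * ζ) - r ^ d * U.eval ζ) * Q.eval ((r * ζ) ^ (d + n)) := by
      generalize Q.eval ((r * ζ) ^ (d + n)) = w
      rw [pow_add, mul_pow (r:ℂ) ζ d]
      field_simp
    have h1 : ‖Q.eval ((r * ζ) ^ (d + n))‖ ≤ AA Q :=
      eval_le Q (by rw [norm_pow]; exact pow_le_one₀ (norm_nonneg _) hz)
    have h2 : ‖((r:ℂ) * ζ) ^ n * (U.eval (r * ζ) - r ^ d * U.eval ζ)‖ ≤ η / (AA Q + 1) := by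
      rw [norm_mul, norm_pow]
      rcases le_total ρ r with h | h
      · exact (mul_le_of_le_one_left (norm_nonneg _) (pow_le_one₀ (norm_nonneg _) hz)).trans
          (hρ r h hr1 ζ hζ)
      · have h3 : ‖U.eval (r * ζ) - r ^ d * U.eval ζ‖ ≤ 2 * AA U + 1 := by
          refine (norm_sub_le _ _).trans ?_
          have h4 := eval_le U hz
          have h5 := eval_le U hζ.le
          have h6 : ‖(r:ℂ) ^ d‖ ≤ 1 := by
            rw [norm_pow, norm_real, Real.norm_of_nonneg hr0]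
            exact pow_le_one₀ hr0 hr1
          rw [norm_mul]
          linarith [mul_le_of_le_one_left (norm_nonneg (U.eval ζ)) h6]
        have h4 : ‖(r:ℂ) * ζ‖ ^ n ≤ η / (AA Q + 1) / (2 * AA U + 1) := by
          rw [norm_mul, hζ, mul_one, norm_real, Real.norm_of_nonneg hr0]
          exact (pow_le_pow_left₀ hr0 h n).trans
            ((pow_le_pow_of_le_one hρ0 hρ1.le hn2).trans hn0.le)
        refine (mul_le_mul h4 h3 (norm_nonneg _) (by positivity)).trans (le_of_eq ?_)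
        field_simp
    rw [e1, e2, norm_mul]
    refine (mul_le_mul h2 h1 (norm_nonneg _) (by positivity)).trans ?_
    rw [div_mul_eq_mul_div, div_le_iff₀ (by positivity)]
    nlinarith

theorem badN {δ c Δ : ℝ} (hδ : 0 < δ) (hΔ : 0 ≤ Δ) {N : ℕ} (hN : 0 < N) :
    volume {θ : ℝ | θ ∈ Ioc c (c + Δ) ∧ Real.cos δ < Real.cos (N * θ)}
      ≤ ENNReal.ofReal (Δ * δ + 6 * δ / N) := by
  have hpi := Real.pi_gt_three
  have hN' : (0:ℝ) < N := by exact_mod_cast hN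
  have h1 : {θ : ℝ | θ ∈ Ioc c (c + Δ) ∧ Real.cos δ < Real.cos (N * θ)} ⊆
      ⋃ j ∈ Finset.Icc ⌊N * c / (2 * Real.pi)⌋ ⌈N * (c + Δ) / (2 * Real.pi)⌉,
        Ioo ((2 * Real.pi * j - δ) / N) ((2 * Real.pi * j + δ) / N) := by
    rintro θ ⟨hθ, hcos⟩
    have h2 := abs_sub_round (N * θ / (2 * Real.pi))
    obtain ⟨j, hj⟩ : ∃ j, j = round (N * θ / (2 * Real.pi)) := ⟨_, rfl⟩
    rw [← hj] at h2
    have h3 : |N * θ - j * (2 * Real.pi)| ≤ Real.pi := by
      have e : N * θ - j * (2 * Real.pi) = (N * θ / (2 * Real.pi) - j) * (2 * Real.pi) := by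
        field_simp
      rw [e, abs_mul, abs_of_pos (show 0 < 2 * Real.pi by positivity)]
      nlinarith
    have h4 : |N * θ - j * (2 * Real.pi)| < δ := by
      by_contra h
      have h5 := Real.cos_le_cos_of_nonneg_of_le_pi hδ.le h3 (not_lt.1 h)
      rw [Real.cos_abs, Real.cos_sub_int_mul_two_pi] at h5
      linarith
    have h5 : N * c / (2 * Real.pi) ≤ N * θ / (2 * Real.pi) := by
      have := hθ.1.le
      gcongr
    have h6 : N * θ / (2 * Real.pi) ≤ N * (c + Δ) / (2 * Real.pi) := by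
      have := hθ.2
      gcongr
    have h7 := Int.floor_le (N * c / (2 * Real.pi))
    have h8 := Int.le_ceil (N * (c + Δ) / (2 * Real.pi))
    obtain ⟨h9, h10⟩ := abs_le.1 h2
    obtain ⟨h11, h12⟩ := abs_lt.1 h4
    refine mem_iUnion₂.2 ⟨j, Finset.mem_Icc.2 ⟨?_, ?_⟩, ?_, ?_⟩
    · have : ((⌊N * c / (2 * Real.pi)⌋ : ℤ) : ℝ) < j + 1 := by linarith
      have : ⌊N * c / (2 * Real.pi)⌋ < j + 1 := by exact_mod_cast this
      omega
    · have : (j:ℝ) < (⌈N * (c + Δ) / (2 * Real.pi)⌉ : ℤ) + 1 := by linarith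
      have : j < ⌈N * (c + Δ) / (2 * Real.pi)⌉ + 1 := by exact_mod_cast this
      omega
    · rw [div_lt_iff₀ hN']
      linarith
    · rw [lt_div_iff₀ hN']
      linarith
  refine (measure_mono h1).trans ((measure_biUnion_finset_le _ _).trans ?_)
  have h2 : ∀ j : ℤ, volume (Ioo ((2 * Real.pi * j - δ) / N) ((2 * Real.pi * j + δ) / N))
      = ENNReal.ofReal (2 * δ / N) := by
    intro j
    rw [Real.volume_Ioo]
    congr 1
    ring
  simp_rw [h2]
  rw [Finset.sum_const, Int.card_Icc, nsmul_eq_mul, ← ENNReal.ofReal_natCast,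
    ← ENNReal.ofReal_mul (Nat.cast_nonneg _)]
  refine ENNReal.ofReal_le_ofReal ?_
  have h3 : (((⌈N * (c + Δ) / (2 * Real.pi)⌉ + 1 - ⌊N * c / (2 * Real.pi)⌋).toNat : ℕ) : ℝ)
      ≤ N * Δ / 2 + 3 := by
    have h4 := Int.ceil_lt_add_one (N * (c + Δ) / (2 * Real.pi))
    have h5 := Int.lt_floor_add_one (N * c / (2 * Real.pi))
    have h6 : N * (c + Δ) / (2 * Real.pi) - N * c / (2 * Real.pi) ≤ N * Δ / 2 := by
      rw [← sub_div, show N * (c + Δ) - N * c = N * Δ by ring]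
      gcongr
      linarith
    rcases le_total 0 (⌈N * (c + Δ) / (2 * Real.pi)⌉ + 1 - ⌊N * c / (2 * Real.pi)⌋) with h | h
    · rw [← Int.cast_natCast, Int.toNat_of_nonneg h]
      push_cast
      linarith
    · rw [Int.toNat_eq_zero.2 h]
      push_cast
      positivity
  refine (mul_le_mul_of_nonneg_right h3 (by positivity)).trans (le_of_eq ?_)
  field_simp
  ring

end Pool.Agent.H88.Rad
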