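import Pool.Agent.H88.PS
import Pool.Agent.H88.Rad2

set_option autoImplicit false
open MeasureTheory Filter Topology Metric Set Complex

namespace Pool.Agent.H88.H2

open Pool.Agent.H88.PS Pool.Agent.H88.Rad

def Rep (A : ℕ → ℂ) (F : ℂ → ℂ) : Prop := ∀ z : ℂ, ‖z‖ < 1 → HasSum (fun n => A n * z ^ n) (F z)

noncomputable def cv (a g : ℕ → ℂ) (n : ℕ) : ℂ := ∑ k ∈ Finset.range (n + 1), a k * g (n - k)

noncomputable def av (u : ℝ → ℝ) : ℝ := (2 * Real.pi)⁻¹ * ∫ θ in (0:ℝ)..2 * Real.pi, u θ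

theorem norm_re {r : ℝ} (h0 : 0 ≤ r) (θ : ℝ) : ‖(r:ℂ) * exp (θ * I)‖ = r := by
  rw [norm_mul, norm_exp_ofReal_mul_I, mul_one, norm_real, Real.norm_of_nonneg h0]

theorem av_mono {u v : ℝ → ℝ} (hu : Continuous u) (hv : Continuous v) (h : ∀ θ, u θ ≤ v θ) :
    av u ≤ av v :=
  mul_le_mul_of_nonneg_left (intervalIntegral.integral_mono_on Real.two_pi_pos.le
    (hu.intervalIntegrable _ _) (hv.intervalIntegrable _ _) fun θ _ => h θ)
    (inv_nonneg.2 Real.two_pi_pos.le)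

theorem av_add {u v : ℝ → ℝ} (hu : Continuous u) (hv : Continuous v) :
    av (fun θ => u θ + v θ) = av u + av v := by
  unfold av
  rw [intervalIntegral.integral_add (hu.intervalIntegrable _ _) (hv.intervalIntegrable _ _),
    mul_add]

theorem av_mul (c : ℝ) (u : ℝ → ℝ) : av (fun θ => c * u θ) = c * av u := by
  unfold av
  rw [intervalIntegral.integral_const_mul]
  ring

theorem av_const (c : ℝ) : av (fun _ => c) = c := by
  have := Real.pi_pos
  unfold av
  simp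
  field_simp

variable {A B : ℕ → ℂ} {F G : ℂ → ℂ}

theorem Rep.summ (h : Rep A F) {r : ℝ} (h0 : 0 ≤ r) (h1 : r < 1) :
    Summable fun n => ‖A n‖ * r ^ n := by
  obtain ⟨s, hs1, hs2⟩ := exists_between h1
  have hs : ‖(s : ℂ)‖ = s := by rw [norm_real, Real.norm_of_nonneg (by linarith)]
  exact summable_norm_of_summable (h s (by rwa [hs])).summable h0 (by rwa [hs])

theorem Rep.summ' (h : Rep A F) {z : ℂ} (hz : ‖z‖ < 1) : Summable fun n => ‖A n * z ^ n‖ := by
  simpa only [norm_mul, norm_pow] using h.summ (norm_nonneg z) hz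

theorem Rep.cont (h : Rep A F) {r : ℝ} (h0 : 0 ≤ r) (h1 : r < 1) :
    Continuous fun θ : ℝ => F (r * exp (θ * I)) := by
  have e : (fun θ : ℝ => F (r * exp (θ * I)))
      = fun θ : ℝ => ∑' n, A n * ((r:ℂ) * exp (θ * I)) ^ n :=
    funext fun θ => (h _ (by rwa [norm_re h0])).tsum_eq.symm
  rw [e]
  exact continuous_tsum (fun k => by fun_prop) (h.summ h0 h1) fun k θ => by
    rw [norm_mul, norm_pow, norm_re h0]

theorem Rep.cc_eq (h : Rep A F) {r : ℝ} (h0 : 0 ≤ r) (h1 : r < 1) (k : ℤ) :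
    cc (fun θ : ℝ => F (r * exp (θ * I))) k = if 0 ≤ k then A k.toNat * r ^ k.toNat else 0 := by
  have h2 := intervalIntegral.hasSum_integral_of_dominated_convergence (μ := volume)
    (a := 0) (b := 2 * Real.pi)
    (F := fun (n : ℕ) (θ : ℝ) => exp (-(k * θ) * I) * (A n * ((r:ℂ) * exp (θ * I)) ^ n))
    (f := fun θ : ℝ => exp (-(k * θ) * I) * F (r * exp (θ * I)))
    (fun n _ => ‖A n‖ * r ^ n) (fun n => Continuous.aestronglyMeasurable (by fun_prop))
    (fun n => Eventually.of_forall fun t _ => by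
      rw [norm_mul, norm_e, one_mul, norm_mul, norm_pow, norm_re h0])
    (Eventually.of_forall fun _ _ => h.summ h0 h1) intervalIntegrable_const
    (Eventually.of_forall fun t _ => HasSum.mul_left _ (h _ (by rwa [norm_re h0])))
  have h3 : ∀ n : ℕ, ∫ θ in (0:ℝ)..2 * Real.pi,
      exp (-(k * θ) * I) * (A n * ((r:ℂ) * exp (θ * I)) ^ n)
      = A n * r ^ n * if k = n then (2 * Real.pi : ℂ) else 0 := by
    intro n
    rw [← int_e, ← intervalIntegral.integral_const_mul]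
    congr 1
    funext θ
    rw [mul_pow, ← exp_nat_mul]
    push_cast
    ring_nf
  simp_rw [h3] at h2
  have hpi : (Real.pi : ℂ) ≠ 0 := by exact_mod_cast Real.pi_pos.ne'
  unfold cc
  split_ifs with hk
  · obtain ⟨m, rfl⟩ := Int.eq_ofNat_of_zero_le hk
    rw [h2.unique (hasSum_single m fun n hn => by
      rw [if_neg (by exact_mod_cast hn.symm), mul_zero]), if_pos rfl, real_smul, Int.toNat_natCast]
    push_cast
    field_simp
  · have e : (fun n : ℕ => A n * r ^ n * if k = n then (2 * Real.pi : ℂ) else 0) = fun _ => 0 := by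
      funext n
      rw [if_neg (by omega), mul_zero]
    rw [e] at h2
    rw [h2.unique hasSum_zero, smul_zero]

theorem Rep.mean (h : Rep A F) {r : ℝ} (h0 : 0 ≤ r) (h1 : r < 1) :
    av (fun θ => (F (r * exp (θ * I))).re) = (A 0).re := by
  have h2 := h.cc_eq h0 h1 0
  simp only [cc, le_refl, if_true, Int.toNat_zero, pow_zero, mul_one, Int.cast_zero, zero_mul,
    neg_zero, exp_zero, one_mul] at h2
  rw [← h2, smul_re, smul_eq_mul, av, one_div]
  congr 1
  exact reCLM.intervalIntegral_comp_comm ((h.cont h0 h1).intervalIntegrable _ _)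

theorem Rep.parseval (h : Rep A F) {r : ℝ} (h0 : 0 ≤ r) (h1 : r < 1) :
    HasSum (fun n => ‖A n‖ ^ 2 * (r ^ 2) ^ n) (av fun θ => ‖F (r * exp (θ * I))‖ ^ 2) := by
  have hc := h.cont h0 h1
  obtain ⟨C, hC⟩ := isCompact_Icc.exists_bound_of_continuousOn
    (hc.continuousOn (s := Icc 0 (2 * Real.pi)))
  have hL2 : MemLp (fun θ : ℝ => F (r * exp (θ * I))) 2 (volume.restrict (Ioc 0 (2 * Real.pi))) :=
    MemLp.of_bound hc.aestronglyMeasurable C ((ae_restrict_iff' measurableSet_Ioc).2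
      (Eventually.of_forall fun θ hθ => hC θ (Ioc_subset_Icc_self hθ)))
  have h2 := hasSum_sq_fourierCoeffOn Real.two_pi_pos hL2
  simp_rw [Rad.cc_eq, h.cc_eq h0 h1, sub_zero, smul_eq_mul] at h2
  have h3 := (Nat.cast_injective (R := ℤ)).hasSum_iff (f := fun k : ℤ =>
    ‖if 0 ≤ k then A k.toNat * r ^ k.toNat else 0‖ ^ 2) (fun k hk => by
      rw [if_neg, norm_zero, sq, mul_zero]
      intro h4
      exact hk ⟨k.toNat, Int.toNat_of_nonneg h4⟩) |>.2 h2
  refine (congrArg (fun f => HasSum f _) ?_).mp h3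
  funext n
  simp only [Function.comp, Nat.cast_nonneg, if_true, Int.toNat_natCast]
  rw [norm_mul, norm_pow, norm_real, Real.norm_of_nonneg h0]
  ring

theorem Rep.mul (h : Rep A F) (h' : Rep B G) : Rep (cv A B) fun z => F z * G z := by
  intro z hz
  have h1 := (summable_norm_sum_mul_range_of_summable_norm (h.summ' hz) (h'.summ' hz)).of_norm.hasSum
  rw [← tsum_mul_tsum_eq_tsum_sum_range_of_summable_norm (h.summ' hz) (h'.summ' hz),
    (h z hz).tsum_eq, (h' z hz).tsum_eq] at h1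
  refine (congrArg (fun f => HasSum f _) ?_).mp h1
  funext n
  rw [cv, Finset.sum_mul]
  refine Finset.sum_congr rfl fun k hk => ?_
  have : z ^ n = z ^ k * z ^ (n - k) := by
    rw [← pow_add, Nat.add_sub_cancel' (Nat.lt_succ_iff.1 (Finset.mem_range.1 hk))]
  rw [this]
  ring

theorem Rep.unique (h : Rep A F) (h' : Rep B G) (e : ∀ z, ‖z‖ < 1 → F z = G z) : A = B := by
  funext n
  rw [← coef_of_hasSum one_pos h n, ← coef_of_hasSum one_pos h' n]
  exact coef_congr one_pos e n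

theorem Rep.congr (h : Rep A F) (e : ∀ z, ‖z‖ < 1 → F z = G z) : Rep A G :=
  fun z hz => e z hz ▸ h z hz

theorem Rep.diff (h : Rep A F) : DifferentiableOn ℂ F (ball 0 1) :=
  (differentiableOn_ps fun _ h0 h1 => h.summ h0 h1).congr fun z hz =>
    (h z (mem_ball_zero_iff.1 hz)).tsum_eq.symm

theorem Rep.zero (h : Rep A F) : A 0 = F 0 := by
  have h1 := h 0 (by simp)
  have h2 : HasSum (fun n => A n * (0:ℂ) ^ n) (A 0 * 0 ^ 0) :=
    hasSum_single 0 fun n hn => by simp [hn]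
  simpa using h2.unique h1

theorem rep_coef (h : DifferentiableOn ℂ F (ball 0 1)) : Rep (coef F) F :=
  fun _ hz => hasSum_coef h hz

theorem rep_bdd {C : ℝ} (hC : ∀ n, ‖A n‖ ≤ C) : Rep A (ps A) := fun _ hz =>
  hasSum_ps (fun _ h0 h1 => Summable.of_nonneg_of_le (fun k => by positivity)
    (fun k => mul_le_mul_of_nonneg_right (hC k) (by positivity))
    ((summable_geometric_of_lt_one h0 h1).mul_left C)) hz

theorem rep_l2 (h : Summable fun n => ‖A n‖ ^ 2) : Rep A (ps A) := by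
  refine rep_bdd (C := 1 + ∑' n, ‖A n‖ ^ 2) fun n => ?_
  have := h.le_tsum n fun _ _ => sq_nonneg _
  nlinarith [sq_nonneg (‖A n‖ - 1), sq_nonneg ‖A n‖]

theorem rep_single (j : ℕ) : Rep (Pi.single j 1) fun z => z ^ j := by
  intro z _
  have : HasSum (fun n => (Pi.single j (1:ℂ) : ℕ → ℂ) n * z ^ n)
      ((Pi.single j (1:ℂ) : ℕ → ℂ) j * z ^ j) :=
    hasSum_single j fun n hn => by simp [hn]
  simpa using this

theorem tendsto_l2 (h : Summable fun n => ‖A n‖ ^ 2) :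
    Tendsto (fun r : ℝ => ∑' n, ‖A n‖ ^ 2 * (r ^ 2) ^ n) (𝓝[<] 1) (𝓝 (∑' n, ‖A n‖ ^ 2)) := by
  refine tendsto_tsum_of_dominated_convergence h (fun n => ?_) ?_
  · have h1 : ContinuousAt (fun r : ℝ => ‖A n‖ ^ 2 * (r ^ 2) ^ n) 1 := by fun_prop
    simpa using h1.tendsto.mono_left (nhdsWithin_le_nhds (s := Iio 1))
  · filter_upwards [Ioo_mem_nhdsLT (show (0:ℝ) < 1 by norm_num)] with r hr n
    rw [Real.norm_of_nonneg (by positivity)]
    exact mul_le_of_le_one_right (sq_nonneg _)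
      (pow_le_one₀ (sq_nonneg _) (pow_le_one₀ hr.1.le hr.2.le))

theorem Rep.l2 (h : Rep A F) {K : ℝ}
    (hK : ∀ r : ℝ, 0 < r → r < 1 → av (fun θ => ‖F (r * exp (θ * I))‖ ^ 2) ≤ K) :
    (Summable fun n => ‖A n‖ ^ 2) ∧ ∑' n, ‖A n‖ ^ 2 ≤ K := by
  have h1 : ∀ N, ∑ n ∈ Finset.range N, ‖A n‖ ^ 2 ≤ K := by
    intro N
    have h2 : ContinuousAt (fun r : ℝ => ∑ n ∈ Finset.range N, ‖A n‖ ^ 2 * (r ^ 2) ^ n) 1 := by
      fun_prop
    have h3 := h2.tendsto.mono_left (nhdsWithin_le_nhds (s := Iio 1))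
    simp only [one_pow, mul_one] at h3
    refine le_of_tendsto h3 ?_
    filter_upwards [Ioo_mem_nhdsLT (show (0:ℝ) < 1 by norm_num)] with r hr
    exact (sum_le_hasSum _ (fun _ _ => by positivity) (h.parseval hr.1.le hr.2)).trans
      (hK r hr.1 hr.2)
  have h2 := summable_of_sum_range_le (fun _ => sq_nonneg _) h1
  exact ⟨h2, h2.tsum_le_of_sum_range_le h1⟩

theorem Rep.av_le (h : Rep A F) (hA : Summable fun n => ‖A n‖ ^ 2) {r : ℝ} (h0 : 0 ≤ r)
    (h1 : r < 1) : av (fun θ => ‖F (r * exp (θ * I))‖ ^ 2) ≤ ∑' n, ‖A n‖ ^ 2 :=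
  hasSum_le (fun _ => mul_le_of_le_one_right (sq_nonneg _)
    (pow_le_one₀ (sq_nonneg _) (pow_le_one₀ h0 h1.le))) (h.parseval h0 h1) hA.hasSum

theorem Rep.contr (h : Rep A F) {M : ℝ} (hM : ∀ z, ‖z‖ < 1 → ‖F z‖ ≤ M) {g : ℕ → ℂ}
    (hg : Summable fun n => ‖g n‖ ^ 2) :
    (Summable fun n => ‖cv A g n‖ ^ 2) ∧ ∑' n, ‖cv A g n‖ ^ 2 ≤ M ^ 2 * ∑' n, ‖g n‖ ^ 2 := by
  refine (h.mul (rep_l2 hg)).l2 fun r h0 h1 => ?_
  have c1 := h.cont h0.le h1
  have c2 := (rep_l2 hg).cont h0.le h1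
  refine le_trans ?_ (mul_le_mul_of_nonneg_left ((rep_l2 hg).av_le hg h0.le h1) (sq_nonneg M))
  rw [← av_mul]
  refine av_mono ((c1.mul c2).norm.pow 2) (by fun_prop) fun θ => ?_
  rw [norm_mul, mul_pow]
  exact mul_le_mul_of_nonneg_right
    (pow_le_pow_left₀ (norm_nonneg _) (hM _ (by rwa [norm_re h0.le])) 2) (sq_nonneg _)

noncomputable abbrev L2 := lp (fun _ : ℕ => ℂ) 2

theorem mem_l2 {g : ℕ → ℂ} (hg : Summable fun n => ‖g n‖ ^ 2) :
    Memℓp (E := fun _ : ℕ => ℂ) g 2 := by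
  refine memℓp_gen ?_
  simpa using hg

theorem l2_hasSum (g : L2) : HasSum (fun n => ‖g n‖ ^ 2) (‖g‖ ^ 2) := by
  have := lp.hasSum_norm (p := 2) (by simp) g
  simpa using this

noncomputable def Rep.op (h : Rep A F) {M : ℝ} (hM : ∀ z, ‖z‖ < 1 → ‖F z‖ ≤ M) : L2 →L[ℂ] L2 :=
  LinearMap.mkContinuous
    { toFun := fun g => ⟨cv A g, mem_l2 (h.contr hM (l2_hasSum g).summable).1⟩
      map_add' := fun g g' => by
        ext n
        change cv A (g + g' : L2) n = cv A g n + cv A g' n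
        simp only [cv, lp.coeFn_add, Pi.add_apply, mul_add, Finset.sum_add_distrib]
      map_smul' := fun c g => by
        ext n
        change cv A (c • g : L2) n = c * cv A g n
        simp only [cv, lp.coeFn_smul, Pi.smul_apply, smul_eq_mul, Finset.mul_sum, mul_left_comm] }
    M fun g => by
      have hM0 : 0 ≤ M := (norm_nonneg _).trans (hM 0 (by simp))
      refine (pow_le_pow_iff_left₀ (norm_nonneg _) (by positivity) two_ne_zero).1 ?_
      rw [← (l2_hasSum _).tsum_eq, mul_pow, ← (l2_hasSum g).tsum_eq]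
      exact (h.contr hM (l2_hasSum g).summable).2

theorem cv_single (A : ℕ → ℂ) (j : ℕ) (c : ℂ) (n : ℕ) :
    cv A (Pi.single j c) n = if j ≤ n then A (n - j) * c else 0 := by
  unfold cv
  split_ifs with h
  · rw [Finset.sum_eq_single (n - j)]
    · rw [show n - (n - j) = j by omega, Pi.single_eq_same]
    · intro k hk hne
      have := Finset.mem_range.1 hk
      rw [Pi.single_eq_of_ne (by omega), mul_zero]
    · intro hk
      exact absurd (Finset.mem_range.2 (by omega)) hk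
  · refine Finset.sum_eq_zero fun k _ => ?_
    rw [Pi.single_eq_of_ne (by omega), mul_zero]

theorem inner_eq (g x : L2) : inner ℂ g x = ∑' n, x n * starRingEnd ℂ (g n) := by
  rw [lp.inner_eq_tsum]
  simp

theorem tsum_shift (u : ℕ → ℂ) (v : ℕ → ℂ) (j : ℕ) :
    ∑' n, (if j ≤ n then u (n - j) else 0) * v n = ∑' n, u n * v (n + j) := by
  rw [← (add_left_injective j).tsum_eq]
  · simp
  · intro n hn
    by_contra h
    refine hn ?_
    have : ¬ j ≤ n := fun hj => h ⟨n - j, by simp; omega⟩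
    simp [this]

theorem Rep.outer (h : Rep A F) (h1 : ∀ z, ‖z‖ < 1 → ‖F z‖ ≤ 1)
    (h2 : ∀ z, ‖z‖ < 1 → 0 ≤ (F z).re) (h3 : F 0 = 1 / 2) (g : ℕ → ℂ)
    (hg : Summable fun n => ‖g n‖ ^ 2)
    (ho : ∀ j : ℕ, ∑' n, A n * starRingEnd ℂ (g (n + j)) = 0) : g = 0 := by
  let g' : L2 := ⟨g, mem_l2 hg⟩
  have h4 : ∀ x : L2, inner ℂ g' (h.op h1 x) = 0 := by
    intro x
    have h5 := ((innerSL ℂ g').comp (h.op h1)).hasSum (lp.hasSum_single (by simp) x)
    have h6 : ∀ j, ((innerSL ℂ g').comp (h.op h1)) (lp.single 2 j (x j)) = 0 := by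
      intro j
      change inner ℂ g' (h.op h1 (lp.single 2 j (x j))) = 0
      rw [inner_eq]
      change ∑' n, cv A (Pi.single j (x j)) n * starRingEnd ℂ (g n) = 0
      simp_rw [cv_single]
      rw [tsum_shift (fun n => A n * x j) (fun n => starRingEnd ℂ (g n)) j]
      simp_rw [mul_right_comm _ (x j)]
      rw [tsum_mul_right, ho, zero_mul]
    simp_rw [h6] at h5
    exact h5.unique hasSum_zero
  funext j
  have key : ∀ ε : ℝ, 0 < ε → ‖g j‖ ^ 2 ≤ ‖g'‖ ^ 2 * (2 * ε) := by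
    intro ε hε
    have hne : ∀ z, ‖z‖ < 1 → F z + ε ≠ 0 := fun z hz hc => by
      have := congrArg re hc
      simp at this
      linarith [h2 z hz]
    have hd : DifferentiableOn ℂ (fun z => (ε:ℂ) / (F z + ε)) (ball 0 1) :=
      (differentiableOn_const _).div (h.diff.add_const _) fun z hz => hne z (mem_ball_zero_iff.1 hz)
    have hu := rep_coef hd
    have hsq : ∀ z, ‖z‖ < 1 → ‖(ε:ℂ) / (F z + ε)‖ ^ 2 ≤ ((ε:ℂ) / (F z + ε)).re := by
      intro z hz
      have h5 : 0 < normSq (F z + ε) := normSq_pos.2 (hne z hz)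
      rw [Complex.sq_norm, normSq_div, div_re]
      simp only [ofReal_re, ofReal_im, zero_mul, zero_div, add_zero, normSq_ofReal, add_re]
      gcongr
      linarith [h2 z hz]
    have hU := (hu.mul (rep_single j)).l2 (K := 2 * ε) fun r h0 hr => by
      have c1 := hu.cont h0.le hr
      refine le_trans (av_mono (v := fun θ => ((ε:ℂ) / (F (r * exp (θ * I)) + ε)).re)
        (by fun_prop) (by fun_prop) fun θ => ?_) ?_
      · rw [norm_mul, mul_pow, norm_pow, norm_re h0.le]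
        exact (mul_le_of_le_one_right (sq_nonneg _)
          (pow_le_one₀ (by positivity) (pow_le_one₀ h0.le hr.le))).trans
          (hsq _ (by rwa [norm_re h0.le]))
      · rw [hu.mean h0.le hr, hu.zero, h3, show (ε:ℂ) / (1 / 2 + ε) = ((ε / (1 / 2 + ε) : ℝ) : ℂ) by
          push_cast; rfl, ofReal_re, div_le_iff₀ (by positivity)]
        nlinarith
    let x : L2 := ⟨cv (coef fun z => (ε:ℂ) / (F z + ε)) (Pi.single j 1), mem_l2 hU.1⟩
    have h5 : cv A x = fun n => ε * ((Pi.single j (1:ℂ) : ℕ → ℂ) n - x n) := by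
      refine (h.mul (hu.mul (rep_single j))).unique
        (G := fun z => ε * (z ^ j - (ε:ℂ) / (F z + ε) * z ^ j)) (fun z hz => ?_) fun z hz => ?_
      · have := ((rep_single j z hz).sub (hu.mul (rep_single j) z hz)).mul_left (ε:ℂ)
        refine (congrArg (fun f => HasSum f _) ?_).mp this
        funext n
        change _ = ε * (_ - cv _ _ n) * z ^ n
        ring
      · have := hne z hz
        field_simp
        ring
    have h6 : h.op h1 x = (ε:ℂ) • (lp.single 2 j 1 - x) := by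
      ext n
      change cv A x n = _
      rw [h5]
      rfl
    have h7 := h4 x
    rw [h6, inner_smul_right, inner_sub_right, lp.inner_single_right, mul_eq_zero,
      sub_eq_zero] at h7
    have h8 := h7.resolve_left (by exact_mod_cast hε.ne')
    have h9 : ‖g j‖ ≤ ‖g'‖ * ‖x‖ := by
      refine le_trans (le_of_eq ?_) (norm_inner_le_norm (𝕜 := ℂ) g' x)
      rw [← h8]
      simp [g']
    have h10 : ‖x‖ ^ 2 ≤ 2 * ε := by
      rw [← (l2_hasSum x).tsum_eq]
      exact hU.2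
    calc ‖g j‖ ^ 2 ≤ (‖g'‖ * ‖x‖) ^ 2 := pow_le_pow_left₀ (norm_nonneg _) h9 2
      _ = ‖g'‖ ^ 2 * ‖x‖ ^ 2 := mul_pow _ _ _
      _ ≤ _ := mul_le_mul_of_nonneg_left h10 (sq_nonneg _)
  have h5 : ‖g j‖ ^ 2 ≤ 0 := by
    refine le_of_forall_pos_le_add fun δ hδ => ?_
    have h6 := key (δ / (2 * (‖g'‖ ^ 2 + 1))) (by positivity)
    refine h6.trans ?_
    rw [zero_add, show ‖g'‖ ^ 2 * (2 * (δ / (2 * (‖g'‖ ^ 2 + 1)))) = δ * (‖g'‖ ^ 2 / (‖g'‖ ^ 2 + 1)) by
      field_simp]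
    exact mul_le_of_le_one_right hδ.le ((div_le_one (by positivity)).2 (by linarith))
  have h6 : ‖g j‖ = 0 := pow_eq_zero_iff two_ne_zero |>.1 (le_antisymm h5 (sq_nonneg _))
  exact norm_eq_zero.1 h6

end Pool.Agent.H88.H2
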