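import Mathlib

set_option autoImplicit false

namespace Pool.Agent.H88.Hered

/-- `T` is `F`-hypercyclic. -/
def FHC {X : Type*} [TopologicalSpace X] (F : Set (Set ℕ)) (T : X → X) : Prop :=
  ∃ x, ∀ V : Set X, IsOpen V → V.Nonempty → {n | T^[n] x ∈ V} ∈ F

/-- `T` is hereditarily `F`-hypercyclic. -/
def HeredFHC {X : Type*} [TopologicalSpace X] (F : Set (Set ℕ)) (T : X → X) : Prop :=
  ∀ (I : Type) [Countable I] (V : I → Set X) (A : I → Set ℕ),
    (∀ i, IsOpen (V i) ∧ (V i).Nonempty ∧ A i ∈ F) → ∃ x, ∀ i, {n | T^[n] x ∈ V i} ∩ A i ∈ F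

/-- The Furstenberg family of all infinite subsets of the natural numbers. -/
def Inf : Set (Set ℕ) := {A | A.Infinite}

end Pool.Agent.H88.Hered
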