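import Pool.Agent.H88.LpDyn2
import Pool.Agent.H88.HeredDefs

set_option autoImplicit false

open Filter Topology Set

namespace Pool.Agent.H88.Hered

open Pool.Agent.H88.LpDyn

/-- distance to the previous square -/
def g (n : ℕ) : ℕ := n - Nat.sqrt n ^ 2

lemma g_succ (n : ℕ) : g (n + 1) ≤ g n + 1 := by
  unfold g
  have h1 : Nat.sqrt n ^ 2 ≤ Nat.sqrt (n + 1) ^ 2 :=
    Nat.pow_le_pow_left (Nat.sqrt_le_sqrt (Nat.le_succ n)) 2
  omega

lemma w_le (k : ℕ) : ‖((2 : ℂ) ^ g (k + 1) / 2 ^ g k)‖ ≤ 2 := by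
  rw [norm_div, norm_pow, norm_pow, Complex.norm_ofNat, div_le_iff₀ (by positivity), ← pow_succ']
  exact pow_le_pow_right₀ (by norm_num) (g_succ k)

/-- the weighted shift -/
noncomputable def T : E →L[ℂ] E :=
  wcmp two_pos' (fun k => k + 1) (add_left_injective 1) (fun k => (2 : ℂ) ^ g (k + 1) / 2 ^ g k) 2 w_le

lemma T_iter (n : ℕ) (x : E) (k : ℕ) : T^[n] x k = 2 ^ g (k + n) / 2 ^ g k * x (k + n) := by
  induction n generalizing k with
  | zero => simp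
  | succ n ih =>
    rw [Function.iterate_succ_apply', T, wcmp_apply, ← T, ih,
      show k + 1 + n = k + (n + 1) by ring]
    field_simp

lemma not_hered : ¬ HeredFHC Inf T := by
  intro h
  obtain ⟨x, hx⟩ := h Unit (fun _ => {x : E | 1 < ‖x 0‖}) (fun _ => Set.range fun a : ℕ => a ^ 2)
    (fun _ => ⟨isOpen_lt continuous_const (lp.evalCLM ℂ (fun _ : ℕ => ℂ) 2 0).continuous.norm,
      ⟨lp.single 2 0 2, by simp⟩,
      Set.infinite_range_of_injective (Nat.pow_left_injective two_ne_zero)⟩)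
  have hs : Summable fun k => ‖x k‖ ^ 2 := by
    simpa using (lp.memℓp x).summable two_pos'
  obtain ⟨N, hN⟩ := eventually_atTop.1 (hs.tendsto_atTop_zero.eventually (gt_mem_nhds one_pos))
  obtain ⟨n, ⟨h1, a, rfl⟩, hn⟩ := Set.Infinite.exists_gt (hx ()) N
  have h2 := hN _ hn.le
  simp only [mem_ofPred_eq, T_iter] at h1
  simp [g] at h1
  nlinarith

lemma T_mix (U V : Set E) (hU : IsOpen U) (hU' : U.Nonempty) (hV : IsOpen V) (hV' : V.Nonempty) :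
    ∃ L j : ℕ, ∀ n ≥ L, (∀ k < L, j ≤ g (k + n)) → ∃ x ∈ U, T^[n] x ∈ V := by
  obtain ⟨u, hu⟩ := hU'
  obtain ⟨v, hv⟩ := hV'
  obtain ⟨L, hL1, hL2⟩ := (((tendsto_fin u).eventually (hU.mem_nhds hu)).and
    ((tendsto_fin v).eventually (hV.mem_nhds hv))).exists
  obtain ⟨δ, hδ, hball⟩ := Metric.isOpen_iff.1 hU _ hL1
  have hlim := (tendsto_pow_atTop_nhds_zero_of_lt_one (r := (1 / 2 : ℝ)) (by norm_num)
    (by norm_num)).mul_const (∑ k ∈ Finset.range L, 2 ^ g k * ‖v k‖)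
  rw [zero_mul] at hlim
  obtain ⟨j, hj⟩ := (hlim.eventually (gt_mem_nhds hδ)).exists
  refine ⟨L, j, fun n hn hg => ⟨fin L u + ∑ k ∈ Finset.range L,
    lp.single 2 (k + n) (2 ^ g k / 2 ^ g (k + n) * v k), hball ?_, ?_⟩⟩
  · rw [mem_ball_iff_norm, add_sub_cancel_left]
    refine lt_of_le_of_lt ?_ hj
    rw [Finset.mul_sum]
    refine (norm_sum_le _ _).trans (Finset.sum_le_sum fun k hk => ?_)
    rw [lp.norm_single (by norm_num), norm_mul, norm_div, norm_pow, norm_pow, Complex.norm_ofNat,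
      one_div, inv_pow, div_eq_mul_inv, mul_comm ((2 : ℝ) ^ g k), mul_assoc]
    gcongr
    · norm_num
    · exact hg k (Finset.mem_range.1 hk)
  · have : T^[n] (fin L u + ∑ k ∈ Finset.range L,
        lp.single 2 (k + n) (2 ^ g k / 2 ^ g (k + n) * v k)) = fin L v := by
      ext k
      rw [T_iter, lp.coeFn_add, Pi.add_apply, fin_apply, if_neg (by omega), zero_add, lp.coeFn_sum,
        Finset.sum_apply, fin_apply]
      simp only [lp.single_apply, Pi.single_apply, add_left_inj]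
      rw [Finset.sum_ite_eq]
      simp only [Finset.mem_range]
      split_ifs
      · field_simp
      · simp
    rw [this]; exact hL2

lemma sparse (L j d : ℕ) (hd : L + j < d) : ∃ N, ∀ n ≥ N,
    (∀ k < L, j ≤ g (k + n)) ∨ (∀ k < L, j ≤ g (k + (n + d))) := by
  refine ⟨(d + L + j) ^ 2 + j, fun n hn => ?_⟩
  by_contra h
  push Not at h
  obtain ⟨⟨k, hk, h1⟩, k', hk', h2⟩ := h
  unfold g at h1 h2
  have e1 := Nat.sqrt_le' (k + n)
  have e2 := Nat.sqrt_le' (k' + (n + d))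
  obtain ⟨a, ha⟩ : ∃ a, a = Nat.sqrt (k + n) := ⟨_, rfl⟩
  obtain ⟨b, hb⟩ : ∃ b, b = Nat.sqrt (k' + (n + d)) := ⟨_, rfl⟩
  rw [← ha] at h1 e1
  rw [← hb] at h2 e2
  have h3 : a ^ 2 < b ^ 2 := by omega
  have h4 : a < b := lt_of_pow_lt_pow_left₀ 2 (Nat.zero_le _) h3
  have h5 : (a + 1) ^ 2 ≤ b ^ 2 := Nat.pow_le_pow_left h4 2
  have h6 : (d + L + j) ^ 2 < a ^ 2 := by omega
  have h7 : d + L + j < a := lt_of_pow_lt_pow_left₀ 2 (Nat.zero_le _) h6
  have h8 : (a + 1) ^ 2 = a ^ 2 + 2 * a + 1 := by ring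
  omega

lemma prod_fhc {Y : Type*} [TopologicalSpace Y] [PolishSpace Y] (S : Y → Y) (hS : Continuous S)
    (h : FHC Inf S) : FHC Inf (Prod.map S T) := by
  obtain ⟨y, hy⟩ := h
  have : Nonempty Y := ⟨y⟩
  refine birkhoff (hS.prodMap T.continuous) fun O W hO ⟨o, ho⟩ hW ⟨w, hw⟩ N => ?_
  obtain ⟨U', U, hU', hU, ho1, ho2, hO'⟩ := isOpen_prod_iff.1 hO o.1 o.2 ho
  obtain ⟨V', V, hV', hV, hw1, hw2, hW'⟩ := isOpen_prod_iff.1 hW w.1 w.2 hw
  obtain ⟨L, j, hL⟩ := T_mix U V hU ⟨_, ho2⟩ hV ⟨_, hw2⟩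
  obtain ⟨m, hm⟩ := Set.Infinite.nonempty (hy U' hU' ⟨_, ho1⟩)
  obtain ⟨m', hm', hmm⟩ := Set.Infinite.exists_gt (hy U' hU' ⟨_, ho1⟩) (m + (L + j))
  obtain ⟨N0, hN0⟩ := sparse L j (m' - m) (by omega)
  obtain ⟨n, hn, hnn⟩ := Set.Infinite.exists_gt (hy V' hV' ⟨_, hw1⟩) (m' + N0 + N + L)
  have fin : ∀ a, S^[a] y ∈ U' → a ≤ m' → (∀ k < L, j ≤ g (k + (n - a))) →
      ∃ n ≥ N, ∃ z ∈ O, (Prod.map S T)^[n] z ∈ W := by
    intro a ha ha' hg
    obtain ⟨x, hx, hx'⟩ := hL (n - a) (by omega) hg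
    refine ⟨n - a, by omega, (S^[a] y, x), hO' ⟨ha, hx⟩, hW' ?_⟩
    rw [Prod.map_iterate, Prod.map_apply, ← Function.iterate_add_apply,
      Nat.sub_add_cancel (by omega)]
    exact ⟨hn, hx'⟩
  rcases hN0 (n - m') (by omega) with h1 | h1
  · exact fin m' hm' le_rfl h1
  · refine fin m hm (by omega) ?_
    rwa [show n - m' + (m' - m) = n - m by omega] at h1

end Pool.Agent.H88.Hered
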