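import Pool.Agent.H88.MSeq4

set_option autoImplicit false

namespace Pool.Agent.H88.Herm

open Filter Topology Finset Polynomial MSeq

theorem logd' {q : ℂ[X]} (hq : St q) {y : ℂ} (hy : 0 < y.im) :
    q.derivative.eval y = 0 ∨ (q.derivative.eval y / q.eval y).im < 0 := by
  have h : ∀ s : Multiset ℂ, (∀ r ∈ s, r.im ≤ 0) →
      (s.map fun z => 1 / (y - z)).sum = 0 ∨ ((s.map fun z => 1 / (y - z)).sum).im < 0 := by
    intro s
    induction s using Multiset.induction_on with
    | empty => simp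
    | cons a s ih =>
      intro hs
      right
      rw [Multiset.map_cons, Multiset.sum_cons, Complex.add_im]
      have h1 := ih (fun r hr => hs r (Multiset.mem_cons_of_mem hr))
      have h2 := hs a (Multiset.mem_cons_self _ _)
      have h4 : 0 < (y - a).im := by simp only [Complex.sub_im]; linarith
      have h3 : (1 / (y - a)).im < 0 := by
        rw [one_div, Complex.inv_im]
        refine div_neg_of_neg_of_pos (by linarith) (Complex.normSq_pos.2 ?_)
        intro h; rw [h] at h4; simp at h4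
      rcases h1 with h1 | h1
      · rw [h1]; simpa using h3
      · linarith
  have h1 := h q.roots (fun r hr => by
    by_contra h1
    exact hq r (not_le.1 h1) (isRoot_of_mem_roots hr))
  rw [← (IsAlgClosed.splits q).eval_derivative_div_eval_of_ne_zero (hq y hy)] at h1
  rcases h1 with h1 | h1
  · left; exact (div_eq_zero_iff.1 h1).resolve_right (hq y hy)
  · right; exact h1

theorem st_add {q : ℂ[X]} (hq : St q) {u : ℂ} (hu : 0 ≤ u.im) : St (q + u • derivative q) := by
  intro y hy h0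
  rw [eval_add, eval_smul, smul_eq_mul] at h0
  have hq0 := hq y hy
  rcases logd' hq hy with h | h
  · rw [h] at h0; exact hq0 (by simpa using h0)
  · have hu0 : u ≠ 0 := by rintro rfl; exact hq0 (by simpa using h0)
    have e : q.derivative.eval y / q.eval y = -u⁻¹ := by
      field_simp; linear_combination h0
    rw [e, Complex.neg_im, Complex.inv_im] at h
    have := div_nonneg hu (Complex.normSq_nonneg u)
    rw [neg_div] at h
    linarith

noncomputable def Dx : Module.End ℂ ℂ[X][X] :=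
  lsum (fun j => ((monomial j : ℂ[X] →ₗ[ℂ[X]] ℂ[X][X]).restrictScalars ℂ) ∘ₗ derivative)

noncomputable def Dy : Module.End ℂ ℂ[X][X] :=
  (derivative : ℂ[X][X] →ₗ[ℂ[X]] ℂ[X][X]).restrictScalars ℂ

noncomputable def YY : Module.End ℂ ℂ[X][X] := LinearMap.mulLeft ℂ X

theorem Dx_mono (j : ℕ) (a : ℂ[X]) : Dx (monomial j a) = monomial j (derivative a) := by
  simp [Dx, lsum_apply, sum_monomial_index]

theorem Dy_app (F : ℂ[X][X]) : Dy F = derivative F := rfl

theorem YY_app (F : ℂ[X][X]) : YY F = X * F := rfl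

theorem ext_mono {M : Type*} [AddCommMonoid M] [Module ℂ M] {f g : ℂ[X][X] →ₗ[ℂ] M}
    (h : ∀ j a, f (monomial j a) = g (monomial j a)) : f = g := by
  refine LinearMap.ext (fun F => ?_)
  induction F using Polynomial.induction_on' with
  | add p q hp hq => rw [map_add, map_add, hp, hq]
  | monomial j a => exact h j a

theorem comm_xy : Commute Dx Dy := by
  refine ext_mono (fun j a => ?_)
  simp only [Module.End.mul_apply, Dy_app, Dx_mono, derivative_monomial]
  congr 1
  simp [derivative_mul]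

theorem Dx_YY : Dx * YY = YY * Dx := by
  refine ext_mono (fun j a => ?_)
  simp only [Module.End.mul_apply, YY_app, Dx_mono, X_mul_monomial]

theorem Dy_YY : Dy * YY = YY * Dy + 1 := by
  refine LinearMap.ext (fun F => ?_)
  simp [Dy_app, YY_app, add_comm]

theorem sliceX (F : ℂ[X][X]) (y : ℂ) : derivative (F.eval (C y)) = (Dx F).eval (C y) := by
  induction F using Polynomial.induction_on' with
  | add p q hp hq => simp [hp, hq]
  | monomial j a => simp [Dx_mono, derivative_mul, derivative_pow]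

theorem diagD (F : ℂ[X][X]) : derivative (F.eval X) = (Dx F).eval X + (Dy F).eval X := by
  induction F using Polynomial.induction_on' with
  | add p q hp hq => simp [hp, hq]; ring
  | monomial j a => simp [Dx_mono, Dy_app, derivative_mul, derivative_X_pow, derivative_monomial, mul_assoc]

theorem diagE (F : ℂ[X][X]) (x : ℂ) : (F.eval X).eval x = F.evalEval x x := by
  induction F using Polynomial.induction_on' with
  | add p q hp hq => simp [hp, hq, evalEval_add]
  | monomial j a => simp [evalEval]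

def St2 (F : ℂ[X][X]) : Prop := ∀ x y : ℂ, 0 < x.im → 0 < y.im → F.evalEval x y ≠ 0

theorem St2.addx {F : ℂ[X][X]} (h : St2 F) {u : ℂ} (hu : 0 ≤ u.im) : St2 (F + u • Dx F) := by
  intro x y hx hy
  have h1 : St (F.eval (C y)) := fun x hx => h x y hx hy
  have h2 := st_add h1 hu x hx
  rw [sliceX] at h2
  simpa [evalEval] using h2

theorem St2.addy {F : ℂ[X][X]} (h : St2 F) {u : ℂ} (hu : 0 ≤ u.im) : St2 (F + u • Dy F) := by
  intro x y hx hy
  have h1 : St (F.map (evalRingHom x)) := fun y hy => by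
    rw [map_evalRingHom_eval]; exact h x y hx hy
  have h2 := st_add h1 hu y hy
  rw [derivative_map, eval_add, eval_smul, map_evalRingHom_eval, map_evalRingHom_eval] at h2
  rw [evalEval_add, evalEval_smul]
  exact h2

theorem im_neg_div {e : ℝ} (he : 0 < e) {C : ℂ} (hC : 0 ≤ C.im) : 0 ≤ (-(e:ℂ) / C).im := by
  rw [div_eq_mul_inv, neg_mul, Complex.neg_im, Complex.im_ofReal_mul, Complex.inv_im, neg_div,
    mul_neg, neg_neg]
  exact mul_nonneg he.le (div_nonneg hC (Complex.normSq_nonneg _))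

theorem asano {e : ℝ} (he : 0 < e) (B C : ℂ) :
    ∃ u v : ℂ, 0 ≤ u.im ∧ 0 ≤ v.im ∧ e + B * u + C * v + u * v = 0 := by
  by_cases h1 : 0 < C.im
  · have : C ≠ 0 := by rintro rfl; simp at h1
    exact ⟨0, -(e:ℂ) / C, le_rfl, im_neg_div he h1.le, by field_simp; ring⟩
  by_cases h2 : 0 < B.im
  · have : B ≠ 0 := by rintro rfl; simp at h2
    exact ⟨-(e:ℂ) / B, 0, im_neg_div he h2.le, le_rfl, by field_simp; ring⟩
  obtain ⟨s, hs⟩ := IsAlgClosed.exists_pow_nat_eq (B * C - e) (n := 2) (by norm_num)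
  obtain ⟨t, ht, ht2⟩ : ∃ t : ℂ, 0 ≤ t.im ∧ t ^ 2 = B * C - e := by
    rcases le_total 0 s.im with h | h
    · exact ⟨s, h, hs⟩
    · exact ⟨-s, by simpa using h, by rw [← hs]; ring⟩
  refine ⟨t - C, t - B, by simp only [Complex.sub_im]; linarith,
    by simp only [Complex.sub_im]; linarith, by linear_combination ht2⟩

theorem St2.subxy {F : ℂ[X][X]} (h : St2 F) {e : ℝ} (he : 0 < e) :
    St2 (F - (e:ℂ) • Dx (Dy F)) := by
  intro x y hx hy h0
  rw [evalEval_sub, evalEval_smul, smul_eq_mul, sub_eq_zero] at h0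
  have hA := h x y hx hy
  have hD : (Dx (Dy F)).evalEval x y ≠ 0 := fun h1 => hA (by rw [h0, h1, mul_zero])
  obtain ⟨u, v, hu, hv, huv⟩ := asano he ((Dx F).evalEval x y / (Dx (Dy F)).evalEval x y)
    ((Dy F).evalEval x y / (Dx (Dy F)).evalEval x y)
  refine (h.addy hv).addx hu x y hx hy ?_
  simp only [map_add, map_smul, evalEval_add, evalEval_smul, smul_eq_mul, h0]
  field_simp at huv
  linear_combination huv

theorem St2.subyy {F : ℂ[X][X]} (h : St2 F) {e : ℝ} (he : 0 < e) :
    St2 (F - (e:ℂ) • Dy (Dy F)) := by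
  have h1 := (h.addy (u := (√e : ℝ)) (by simp)).addy (u := -(√e : ℝ)) (by simp)
  have e1 : ((√e : ℝ) : ℂ) * (√e : ℝ) = e := by
    rw [← Complex.ofReal_mul, Real.mul_self_sqrt he.le]
  convert h1 using 1
  rw [map_add, map_smul, smul_add, smul_smul, neg_mul, e1]
  simp only [neg_smul]
  abel

noncomputable def W1 (α : ℝ) : Module.End ℂ ℂ[X][X] := (-α : ℂ) • (Dx * Dy)

noncomputable def W2 (α : ℝ) : Module.End ℂ ℂ[X][X] := (-α / 2 : ℂ) • (Dy * Dy)

theorem Dy_pow {G : ℂ[X][X]} {k : ℕ} (h : G.natDegree < k) : (Dy ^ k) G = 0 := by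
  rw [Module.End.pow_apply]
  exact iterate_derivative_eq_zero h

theorem W1_pow (α : ℝ) {G : ℂ[X][X]} {k : ℕ} (h : G.natDegree < k) : (W1 α ^ k) G = 0 := by
  rw [W1, _root_.smul_pow, comm_xy.mul_pow, LinearMap.smul_apply, Module.End.mul_apply, Dy_pow h]
  simp

theorem W2_pow (α : ℝ) {G : ℂ[X][X]} {k : ℕ} (h : G.natDegree < k) : (W2 α ^ k) G = 0 := by
  rw [W2, _root_.smul_pow, (Commute.refl Dy).mul_pow, LinearMap.smul_apply, Module.End.mul_apply,
    Dy_pow h]
  simp

theorem comm12 (α : ℝ) : Commute (W2 α) (W1 α) := by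
  unfold W1 W2
  refine Commute.smul_left (Commute.smul_right ?_ _) _
  have := comm_xy.symm.mul_right (Commute.refl Dy)
  exact this.mul_left this

theorem EE_eq (n : ℕ) : (EE n).map (algebraMap ℝ ℂ) =
    (1 + C (((1 / ((n:ℝ) + 1) : ℝ)) : ℂ) * X) ^ (n + 1) := by
  have h : (1 + C (((1 / ((n:ℝ) + 1) : ℝ)) : ℂ) * X : ℂ[X]) =
      C (((1 / ((n:ℝ) + 1) : ℝ)) : ℂ) * (X + C ((n:ℂ) + 1)) := by
    rw [mul_add, ← C_mul, add_comm]
    congr 1
    have : (n:ℂ) + 1 ≠ 0 := by exact_mod_cast Nat.succ_ne_zero n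
    push_cast
    rw [one_div_mul_cancel this, C_1]
  rw [h, mul_pow, ← C_pow, EE]
  simp

theorem St2.ee {W : Module.End ℂ ℂ[X][X]}
    (hW : ∀ t : ℝ, 0 < t → ∀ G, St2 G → St2 (G + (t:ℂ) • W G)) (n : ℕ) {F : ℂ[X][X]}
    (h : St2 F) : St2 (aeval W ((EE n).map (algebraMap ℝ ℂ)) F) := by
  rw [EE_eq, map_pow]
  generalize n + 1 = m
  induction m with
  | zero => simpa using h
  | succ m ih =>
    rw [pow_succ', Module.End.mul_apply]
    have := hW (1 / ((n:ℝ) + 1)) (by positivity) _ ih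
    simpa [Algebra.algebraMap_eq_smul_one] using this

theorem ee_sum {W : Module.End ℂ ℂ[X][X]} {G : ℂ[X][X]} {N : ℕ}
    (h : ∀ k, N ≤ k → (W ^ k) G = 0) (f : ℝ[X]) :
    aeval W (f.map (algebraMap ℝ ℂ)) G = ∑ k ∈ range N, (f.coeff k : ℂ) • (W ^ k) G := by
  rw [aeval_eq_sum_range' (n := f.natDegree + 1 + N)
    (natDegree_map_le.trans_lt (by omega)), LinearMap.sum_apply]
  symm
  refine (sum_subset (range_subset_range.2 (by omega)) (fun k _ hk => ?_)).trans
    (sum_congr rfl (fun k _ => ?_))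
  · rw [h k (by simpa using hk)]; simp
  · simp

theorem hur_comb {ι : Type*} (s : Finset ι) (q : ι → ℂ[X]) (a : ℕ → ι → ℂ) (b : ι → ℂ)
    (hl : ∀ i, Tendsto (fun n => a n i) atTop (𝓝 (b i)))
    (h : ∀ n, St (∑ i ∈ s, a n i • q i) ∨ ∑ i ∈ s, a n i • q i = 0) :
    St (∑ i ∈ s, b i • q i) ∨ ∑ i ∈ s, b i • q i = 0 := by
  obtain ⟨M, hM⟩ : ∃ M, ∀ c : ι → ℂ, (∑ i ∈ s, c i • q i).natDegree < M := by
    refine ⟨s.sup (fun i => (q i).natDegree) + 1, fun c => Nat.lt_succ_of_le ?_⟩
    refine natDegree_sum_le_of_forall_le _ _ (fun i hi => (natDegree_smul_le _ _).trans ?_)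
    exact le_sup (f := fun i => (q i).natDegree) hi
  have hc : ∀ k, Tendsto (fun n => (∑ i ∈ s, a n i • q i).coeff k) atTop
      (𝓝 ((∑ i ∈ s, b i • q i).coeff k)) := by
    intro k
    simp only [finsetSum_coeff, coeff_smul, smul_eq_mul]
    exact tendsto_finsetSum _ (fun i _ => (hl i).mul_const _)
  by_cases h0 : ∃ᶠ n in atTop, ∑ i ∈ s, a n i • q i = 0
  · right
    ext k
    refine tendsto_nhds_unique_of_frequently_eq (hc k) tendsto_const_nhds (h0.mono ?_)
    intro n hn
    rw [hn]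
  obtain ⟨n0, hn0⟩ := eventually_atTop.1 (not_frequently.1 h0)
  have H := hurwitz M (fun n k => (∑ i ∈ s, a (n + n0) i • q i).coeff k) _
    (fun k => (tendsto_add_atTop_iff_nat n0).2 (hc k)) (fun n z hz => by
      rw [← eval_eq_sum_range' (hM _)]
      exact (h _).resolve_right (hn0 _ (by omega)) z hz)
  simp only [← eval_eq_sum_range' (hM _)] at H
  rcases H with H | H
  · right; exact Polynomial.funext (by simpa using H)
  · left; exact H

noncomputable def ex (W : Module.End ℂ ℂ[X][X]) (N : ℕ) : Module.End ℂ ℂ[X][X] :=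
  ∑ k ∈ range N, ((1 / (k.factorial : ℝ) : ℝ) : ℂ) • W ^ k

noncomputable def th (α : ℝ) (N : ℕ) (F : ℂ[X][X]) : ℂ[X] := (ex (W2 α) N (ex (W1 α) N F)).eval X

theorem th_st {α : ℝ} (hα : 0 < α) {N : ℕ} {F : ℂ[X][X]} (h : St2 F) (hN : F.natDegree < N) :
    St (th α N F) ∨ th α N F = 0 := by
  have e : ∀ c : ℕ → ℂ, ((∑ k ∈ range N, c k • W2 α ^ k) ((∑ k ∈ range N, c k • W1 α ^ k) F)).eval X
      = ∑ i ∈ range N ×ˢ range N, (c i.1 * c i.2) • ((W2 α ^ i.1) ((W1 α ^ i.2) F)).eval X := by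
    intro c
    simp only [LinearMap.sum_apply, LinearMap.smul_apply, map_sum, map_smul, eval_finsetSum,
      eval_smul, sum_product, smul_sum, smul_smul]
    rw [sum_comm]
    refine sum_congr rfl (fun _ _ => sum_congr rfl (fun _ _ => by rw [mul_comm]))
  rw [th, ex, ex, e]
  have hl : ∀ k, Tendsto (fun n => (((EE n).coeff k : ℝ) : ℂ)) atTop
      (𝓝 ((1 / (k.factorial : ℝ) : ℝ) : ℂ)) :=
    fun k => (Complex.continuous_ofReal.tendsto _).comp (EE_lim k)
  refine hur_comb (range N ×ˢ range N) (fun i => ((W2 α ^ i.1) ((W1 α ^ i.2) F)).eval X)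
    (fun n i => ((EE n).coeff i.1 : ℂ) * ((EE n).coeff i.2 : ℂ))
    (fun i => ((1 / (i.1.factorial : ℝ) : ℝ) : ℂ) * ((1 / (i.2.factorial : ℝ) : ℝ) : ℂ))
    (fun i => (hl i.1).mul (hl i.2)) (fun n => Or.inl ?_)
  rw [← e (fun k => ((EE n).coeff k : ℂ))]
  have h1 := St2.ee (W := W1 α) (fun t ht G hG => by
    have := hG.subxy (mul_pos ht hα)
    rwa [sub_eq_add_neg, ← neg_smul, Complex.ofReal_mul, ← mul_neg, ← smul_smul] at this) n h
  have h2 := St2.ee (W := W2 α) (fun t ht G hG => by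
    have := hG.subyy (mul_pos ht (half_pos hα))
    rwa [sub_eq_add_neg, ← neg_smul, Complex.ofReal_mul, ← mul_neg, ← smul_smul,
      Complex.ofReal_div, ← neg_div] at this) n h1
  rw [ee_sum (N := N) (fun k hk => W1_pow α (hN.trans_le hk)), ee_sum (N := N)] at h2
  · intro x hx
    rw [diagE]
    simp only [LinearMap.sum_apply, LinearMap.smul_apply]
    exact h2 x x hx hx
  · intro k hk
    rw [map_sum]
    refine sum_eq_zero (fun l _ => ?_)
    rw [map_smul, ← Module.End.mul_apply, ((comm12 α).pow_pow k l).eq, Module.End.mul_apply,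
      W2_pow α (hN.trans_le hk)]
    simp

theorem ex_Y {W Y V : Module.End ℂ ℂ[X][X]} (h : W * Y = Y * W + V) (hc : Commute W V) (N : ℕ) :
    ex W (N + 1) * Y = Y * ex W (N + 1) + V * ex W N := by
  have h1 : ∀ k : ℕ, W ^ (k + 1) * Y = Y * W ^ (k + 1) + ((k:ℂ) + 1) • (V * W ^ k) := by
    intro k
    induction k with
    | zero => simpa using h
    | succ k ih =>
      rw [pow_succ' W (k + 1), mul_assoc, ih, mul_add, ← mul_assoc, h, mul_smul_comm, ← mul_assoc,
        hc.eq, mul_assoc V, ← pow_succ', add_mul, mul_assoc Y]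
      push_cast
      rw [add_smul ((k:ℂ) + 1) 1, one_smul]
      abel
  induction N with
  | zero => simp [ex]
  | succ N ih =>
    unfold ex at ih ⊢
    rw [sum_range_succ _ (N + 1), add_mul, ih, mul_add, smul_mul_assoc, h1, mul_smul_comm,
      sum_range_succ _ N, mul_add V, smul_add, smul_smul, mul_smul_comm]
    have : ((1 / ((N + 1).factorial : ℝ) : ℝ) : ℂ) * ((N:ℂ) + 1) =
        ((1 / (N.factorial : ℝ) : ℝ) : ℂ) := by
      have h2 : (N:ℂ) + 1 ≠ 0 := by exact_mod_cast Nat.succ_ne_zero N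
      have h3 : (N.factorial : ℂ) ≠ 0 := by exact_mod_cast N.factorial_ne_zero
      rw [Nat.factorial_succ]
      push_cast
      field_simp
    rw [this]
    abel

theorem ex_succ {W : Module.End ℂ ℂ[X][X]} {N : ℕ} {G : ℂ[X][X]} (h : (W ^ N) G = 0) :
    ex W (N + 1) G = ex W N G := by
  rw [ex, sum_range_succ, LinearMap.add_apply, LinearMap.smul_apply, h, smul_zero, add_zero, ex]

theorem ex_comm {W V : Module.End ℂ ℂ[X][X]} (h : Commute V W) (N : ℕ) : Commute V (ex W N) :=
  Commute.sum_right _ _ _ (fun k _ => (h.pow_right k).smul_right _)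

noncomputable def AA {K : Type*} [Field K] (α : K) : Module.End K K[X] :=
  LinearMap.mulLeft K X - α • derivative

theorem AA_app {K : Type*} [Field K] (α : K) (q : K[X]) :
    AA α q = X * q - α • derivative q := rfl

theorem th_Y (α : ℝ) {N : ℕ} {G : ℂ[X][X]} (hG : G.natDegree < N) :
    th α (N + 1) (X * G) = AA (α:ℂ) (th α (N + 1) G) := by
  have c1 : W1 α * YY = YY * W1 α + (-α : ℂ) • Dx := by
    rw [W1, smul_mul_assoc, mul_assoc, Dy_YY, mul_add, ← mul_assoc, Dx_YY, mul_one, smul_add,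
      mul_smul_comm, mul_assoc]
  have c2 : W2 α * YY = YY * W2 α + (-α : ℂ) • Dy := by
    rw [W2, smul_mul_assoc, mul_assoc, Dy_YY, mul_add, ← mul_assoc, Dy_YY, mul_one, add_mul,
      one_mul, mul_smul_comm, mul_assoc, add_assoc, smul_add, ← two_smul ℂ Dy, smul_smul]
    congr 2; ring
  have d1 : Commute (W1 α) ((-α : ℂ) • Dx) :=
    (((Commute.refl Dx).mul_left comm_xy.symm).smul_left _).smul_right _
  have d2 : Commute (W2 α) ((-α : ℂ) • Dy) :=
    (((Commute.refl Dy).mul_left (Commute.refl Dy)).smul_left _).smul_right _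
  have d3 : Commute ((-α : ℂ) • Dx) (W2 α) :=
    ((comm_xy.mul_right comm_xy).smul_left _).smul_right _
  obtain ⟨H, hH⟩ : ∃ H, H = ex (W1 α) (N + 1) G := ⟨_, rfl⟩
  have e1 : ex (W1 α) (N + 1) (X * G) = YY H + ((-α : ℂ) • Dx) H := by
    have := LinearMap.congr_fun (ex_Y c1 d1 N) G
    rw [Module.End.mul_apply, LinearMap.add_apply, Module.End.mul_apply, Module.End.mul_apply,
      ← ex_succ (W1_pow α hG), ← hH] at this
    exact this
  have h2 : (W2 α ^ N) H = 0 := by
    rw [hH, ← Module.End.mul_apply, (ex_comm ((comm12 α).pow_left N) _).eq, Module.End.mul_apply,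
      W2_pow α hG, map_zero]
  have e2 := LinearMap.congr_fun (ex_Y c2 d2 N) H
  rw [Module.End.mul_apply, LinearMap.add_apply, Module.End.mul_apply, Module.End.mul_apply,
      ← ex_succ h2] at e2
  have e3 := LinearMap.congr_fun (ex_comm d3 (N + 1)).eq H
  rw [Module.End.mul_apply, Module.End.mul_apply] at e3
  rw [th, th, e1, map_add, e2, ← e3, ← hH, AA_app, diagD, YY_app]
  simp only [LinearMap.smul_apply, eval_add, eval_mul, eval_X, eval_smul, neg_smul, smul_add,
    eval_neg]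
  abel

theorem th_mono (α : ℝ) {N : ℕ} (a : ℂ[X]) : ∀ j ≤ N,
    th α (N + 1) (monomial j a) = (AA (α:ℂ) ^ j) a := by
  intro j
  induction j with
  | zero =>
    intro _
    have h : ∀ W : Module.End ℂ ℂ[X][X], (∀ k, 0 < k → (W ^ k) (C a) = 0) →
        ex W (N + 1) (C a) = C a := by
      intro W hW
      rw [ex, sum_range_succ', LinearMap.add_apply, LinearMap.sum_apply,
        sum_eq_zero (fun k _ => by rw [LinearMap.smul_apply, hW _ (Nat.succ_pos _), smul_zero])]
      simp
    rw [th, monomial_zero_left, h _ (fun k hk => W1_pow α (by simpa using hk)),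
      h _ (fun k hk => W2_pow α (by simpa using hk))]
    simp
  | succ j ih =>
    intro hj
    rw [← X_mul_monomial, th_Y α ((natDegree_monomial_le _).trans_lt (by omega)), ih (by omega),
      pow_succ', Module.End.mul_apply]

theorem op_st {α : ℝ} (hα : 0 < α) (m : ℕ) {r : ℝ[X]} (hr : Neg r) {q : ℂ[X]}
    (hq : St (derivative^[m] q) ∨ derivative^[m] q = 0) {N : ℕ} (hN : q.natDegree < N) :
    St (∑ j ∈ range N, ((X ^ m * r).coeff j : ℂ) • (AA (α:ℂ) ^ j) (derivative^[j] q)) ∨
      ∑ j ∈ range N, ((X ^ m * r).coeff j : ℂ) • (AA (α:ℂ) ^ j) (derivative^[j] q) = 0 := by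
  rcases hq with hq | hq
  swap
  · right
    refine sum_eq_zero (fun j _ => ?_)
    rcases lt_or_ge j m with h | h
    · rw [coeff_X_pow_mul', if_neg (by omega)]; simp
    · obtain ⟨i, rfl⟩ := Nat.exists_eq_add_of_le' h
      rw [Function.iterate_add_apply, hq]; simp
  obtain ⟨F, hF⟩ : ∃ F : ℂ[X][X], F = ∑ j ∈ range N,
    ((X ^ m * r).coeff j : ℂ) • monomial j (derivative^[j] q) := ⟨_, rfl⟩
  have e : th α (N + 1) F =
      ∑ j ∈ range N, ((X ^ m * r).coeff j : ℂ) • (AA (α:ℂ) ^ j) (derivative^[j] q) := by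
    rw [hF, th]
    simp only [map_sum, map_smul, eval_finsetSum, eval_smul]
    refine sum_congr rfl (fun j hj => ?_)
    rw [← th_mono α (N := N) _ j (mem_range.1 hj).le, th]
  rw [← e]
  refine th_st hα (fun x y hx hy => ?_) (Nat.lt_succ_of_le ?_)
  · have h1 : St ((TT y ^ m) q) := by
      rw [TT, _root_.smul_pow, LinearMap.smul_apply, Module.End.pow_apply]
      intro z hz
      rw [eval_smul, smul_eq_mul]
      exact mul_ne_zero (pow_ne_zero _ (by rintro rfl; simp at hy)) (hq z hz)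
    have h2 := h1.op hy hr x hx
    rw [← Module.End.mul_apply, ← aeval_X_pow (R := ℂ), ← map_mul, ← map_X (algebraMap ℝ ℂ),
      ← Polynomial.map_pow, ← Polynomial.map_mul, mul_comm r, op_eval q y x _ hN] at h2
    rw [hF, evalEval_finsetSum]
    convert h2 using 2 with j
    simp [evalEval, mul_assoc]
  · rw [hF]
    refine natDegree_sum_le_of_forall_le _ _ (fun j hj => (natDegree_smul_le _ _).trans ?_)
    exact (natDegree_monomial_le _).trans (mem_range.1 hj).le

theorem rr_deriv {p : ℝ[X]} (hp : RealRooted p) : RealRooted (derivative p) := by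
  have e : diag (fun k => (k:ℝ)) p = X * derivative p := by
    ext k
    rcases k with _ | k
    · simp [coeff_diag]
    · simp [coeff_diag, coeff_X_mul, coeff_derivative, mul_comm]
  rcases ms_id p hp with h | h
  · left; rw [e] at h; exact (mul_eq_zero.1 h).resolve_left X_ne_zero
  · right; intro z hz; refine h z ?_; rw [e, map_mul, hz, mul_zero]

theorem rr_iter {p : ℝ[X]} (hp : RealRooted p) (m : ℕ) : RealRooted (derivative^[m] p) := by
  induction m with
  | zero => exact hp
  | succ m ih => rw [Function.iterate_succ_apply']; exact rr_deriv ih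

theorem AA_map (α : ℝ) (j : ℕ) (q : ℝ[X]) :
    ((AA α ^ j) q).map (algebraMap ℝ ℂ) = (AA (α:ℂ) ^ j) (q.map (algebraMap ℝ ℂ)) := by
  induction j with
  | zero => simp
  | succ j ih =>
    rw [pow_succ', pow_succ', Module.End.mul_apply, Module.End.mul_apply, ← ih, AA_app, AA_app]
    simp [Polynomial.map_smul]

theorem op_rr {α : ℝ} (hα : 0 < α) (ρ : ℕ → ℝ) (m : ℕ) (r : ℕ → ℝ[X]) (hr : ∀ n, Neg (r n))
    (hl : ∀ k, Tendsto (fun n => (X ^ m * r n).coeff k) atTop (𝓝 (ρ k))) {p : ℝ[X]}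
    (hp : RealRooted p) {N : ℕ} (hN : p.natDegree < N) :
    RealRooted (∑ j ∈ range N, ρ j • (AA α ^ j) (derivative^[j] p)) := by
  obtain ⟨q, hq⟩ : ∃ q, q = p.map (algebraMap ℝ ℂ) := ⟨_, rfl⟩
  have hq1 : St (derivative^[m] q) ∨ derivative^[m] q = 0 := by
    rw [hq, iterate_derivative_map]
    rcases rr_iter hp m with h | h
    · right; rw [h]; simp
    · left
      intro y hy h0
      rw [eval_map_algebraMap] at h0
      exact hy.ne' (h y h0)
  have hN' : q.natDegree < N := by rw [hq]; exact natDegree_map_le.trans_lt hN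
  have hs := fun n => op_st hα m (hr n) hq1 hN'
  obtain ⟨Q, hQ⟩ : ∃ Q : ℕ → ℂ[X], ∀ j, (AA (α:ℂ) ^ j) (derivative^[j] q) = Q j := ⟨_, fun _ => rfl⟩
  obtain ⟨c, hc⟩ : ∃ c : ℕ → ℕ → ℝ, ∀ n j, (X ^ m * r n).coeff j = c n j := ⟨_, fun _ _ => rfl⟩
  simp only [hQ, hc] at hs hl
  have H := hur_comb (range N) Q (fun n j => (c n j : ℂ)) (fun j => (ρ j : ℂ))
    (fun j => (Complex.continuous_ofReal.tendsto _).comp (hl j)) hs
  simp only [← hQ] at H
  have e : ∑ j ∈ range N, (ρ j : ℂ) • (AA (α:ℂ) ^ j) (derivative^[j] q) =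
      (∑ j ∈ range N, ρ j • (AA α ^ j) (derivative^[j] p)).map (algebraMap ℝ ℂ) := by
    have e1 : ∀ j, (ρ j : ℂ) • (AA (α:ℂ) ^ j) (derivative^[j] q) =
        (ρ j • (AA α ^ j) (derivative^[j] p)).map (algebraMap ℝ ℂ) := by
      intro j
      rw [Polynomial.map_smul, AA_map, hq, iterate_derivative_map]
      rfl
    rw [Polynomial.map_sum]
    simp only [e1]
  rw [e] at H
  generalize ∑ j ∈ range N, ρ j • (AA α ^ j) (derivative^[j] p) = P at H ⊢
  refine rr_of P ?_
  simp only [← eval_map_algebraMap]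
  rcases H with H | H
  · right; exact H
  · left; intro z; rw [H]; simp

end Pool.Agent.H88.Herm
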