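import Pool.Agent.H88.Herm1

set_option autoImplicit false

namespace Pool.Agent.H88.Herm

open Filter Topology Finset Polynomial MSeq

noncomputable def LL (t : ℝ) : Module.End ℝ ℝ[X] := 1 + t • derivative

theorem LL_app (t : ℝ) (p : ℝ[X]) : LL t p = p + t • derivative p := rfl

noncomputable def E (t : ℝ) (p : ℝ[X]) (k : ℕ) : ℝ := ((LL t ^ k) p).eval 0

theorem E_zero (t : ℝ) (p : ℝ[X]) : E t p 0 = p.eval 0 := by simp [E]

theorem LL_X (t : ℝ) (p : ℝ[X]) (k : ℕ) : (LL t ^ (k + 1)) (X * p) =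
    X * (LL t ^ (k + 1)) p + (t * (k + 1)) • (LL t ^ k) p := by
  have h : ∀ q, LL t (X * q) = X * LL t q + t • q := by
    intro q
    simp only [LL_app, derivative_mul, derivative_X, smul_add, mul_add, mul_smul_comm, one_mul]
    abel
  induction k with
  | zero => simp [h]
  | succ k ih =>
    rw [pow_succ' _ (k + 1), Module.End.mul_apply, ih, map_add, h, map_smul, Module.End.mul_apply,
      ← Module.End.mul_apply (LL t) (LL t ^ k), ← pow_succ', add_assoc, ← add_smul]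
    push_cast
    congr 2; ring

theorem E_X (t : ℝ) (p : ℝ[X]) (k : ℕ) : E t (X * p) (k + 1) = t * (k + 1) * E t p k := by
  simp [E, LL_X]

theorem E_fac (t a : ℝ) (p : ℝ[X]) (k : ℕ) :
    E t ((1 + C a * X) * p) (k + 1) = E t p (k + 1) + a * (t * (k + 1) * E t p k) := by
  rw [← E_X, add_mul, one_mul, mul_assoc, ← smul_eq_C_mul]
  simp [E]

theorem splits_of_rr {p : ℝ[X]} (h : RealRooted p) : p.Splits := by
  rcases h with rfl | h
  · simp
  refine Splits.of_splits_map (algebraMap ℝ ℂ) (IsAlgClosed.splits _) (fun a ha => ?_)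
  have h1 := isRoot_of_mem_roots ha
  rw [IsRoot, eval_map_algebraMap] at h1
  exact ⟨a.re, Complex.ext (by simp) (by simp [h a h1])⟩

theorem rr_of_splits {p : ℝ[X]} (h : p.Splits) : RealRooted p := by
  by_cases h0 : p = 0
  · left; exact h0
  right
  intro z hz
  have h1 : z ∈ (p.map (algebraMap ℝ ℂ)).roots := by
    rw [mem_roots (by simpa using h0), IsRoot, eval_map_algebraMap]; exact hz
  rw [h.roots_map, Multiset.mem_map] at h1
  obtain ⟨x, -, rfl⟩ := h1
  simp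

theorem LL_splits (t : ℝ) {p : ℝ[X]} (h : p.Splits) : (LL t p).Splits := by
  rcases rr_of_splits h with rfl | h1
  · simp
  have h2 : St (p.map (algebraMap ℝ ℂ)) := fun y hy h0 => by
    rw [eval_map_algebraMap] at h0; exact hy.ne' (h1 y h0)
  refine splits_of_rr (rr_of _ (Or.inr (fun z hz => ?_)))
  have h3 := st_add h2 (u := t) (by simp) z hz
  rw [← eval_map_algebraMap, LL_app, Polynomial.map_add, Polynomial.map_smul, ← derivative_map]
  exact h3

theorem LL_pow_splits (t : ℝ) {p : ℝ[X]} (h : p.Splits) (k : ℕ) : ((LL t ^ k) p).Splits := by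
  induction k with
  | zero => simpa using h
  | succ k ih => rw [pow_succ', Module.End.mul_apply]; exact LL_splits t ih

noncomputable def Ph (f : ℝ[X]) (x : ℝ) : ℝ := (f.roots.map fun z => 1 / (x - z)).sum

noncomputable def Ps (f : ℝ[X]) (x : ℝ) : ℝ := (f.roots.map fun z => (1 / (x - z)) ^ 2).sum

theorem Ps_nonneg (f : ℝ[X]) (x : ℝ) : 0 ≤ Ps f x :=
  Multiset.sum_nonneg (fun y hy => by
    obtain ⟨z, -, rfl⟩ := Multiset.mem_map.1 hy
    positivity)

theorem d1 {f : ℝ[X]} (h : f.Splits) {x : ℝ} (hx : f.eval x ≠ 0) :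
    f.derivative.eval x = f.eval x * Ph f x := h.eval_derivative_eq_eval_mul_sum hx

theorem d2 {f : ℝ[X]} (h : f.Splits) {x : ℝ} (hx : f.eval x ≠ 0) :
    f.derivative.derivative.eval x = f.eval x * (Ph f x ^ 2 - Ps f x) := by
  have H : ∀ s : Multiset ℝ, (∀ z ∈ s, x - z ≠ 0) →
      (derivative (s.map (X - C ·)).prod).eval x =
        ((s.map (X - C ·)).prod).eval x * (s.map fun z => 1 / (x - z)).sum ∧
      (derivative (derivative (s.map (X - C ·)).prod)).eval x = ((s.map (X - C ·)).prod).eval x *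
        ((s.map fun z => 1 / (x - z)).sum ^ 2 - (s.map fun z => (1 / (x - z)) ^ 2).sum) := by
    intro s
    induction s using Multiset.induction_on with
    | empty => simp
    | cons a s ih =>
      intro hs
      obtain ⟨h1, h2⟩ := ih (fun r hr => hs r (Multiset.mem_cons_of_mem hr))
      have h3 := hs a (Multiset.mem_cons_self _ _)
      simp only [Multiset.map_cons, Multiset.prod_cons, Multiset.sum_cons, derivative_mul,
        derivative_add, derivative_X_sub_C, derivative_one, eval_add, eval_mul, eval_sub, eval_X,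
        eval_C, eval_one, eval_zero, h1, h2]
      constructor <;> field_simp <;> ring
  have h4 := (H f.roots (fun z hz h0 => hx (by
    rw [sub_eq_zero.1 h0]; exact isRoot_of_mem_roots hz))).2
  conv_lhs => rw [h.eq_prod_roots]
  conv_rhs => rw [h.eq_prod_roots]
  rw [derivative_C_mul, derivative_C_mul, eval_mul, eval_mul, h4, ← h.eq_prod_roots, mul_assoc,
    Ph, Ps]

theorem m1 {f : ℝ[X]} (h : f.Splits) {x : ℝ} (hx : f.eval x ≠ 0) :
    (LL (-1) f).eval x = f.eval x * (1 - Ph f x) := by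
  simp [LL_app, d1 h hx]; ring

theorem m2 {f : ℝ[X]} (h : f.Splits) {x : ℝ} (hx : f.eval x ≠ 0) :
    (LL (-1) (LL (-1) f)).eval x = f.eval x * ((1 - Ph f x) ^ 2 - Ps f x) := by
  simp [LL_app, d1 h hx, d2 h hx]; ring

theorem sum_le {s : Multiset ℝ} {f g : ℝ → ℝ} (h : ∀ z ∈ s, f z ≤ g z) :
    (s.map f).sum ≤ (s.map g).sum := Multiset.sum_map_le_sum_map f g h

structure Bar (f : ℝ[X]) (b φ : ℝ) : Prop where
  ne : f ≠ 0
  sp : f.Splits
  lt : ∀ z ∈ f.roots, z < b
  le : Ph f b ≤ φ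

theorem Bar.ev {f : ℝ[X]} {b φ : ℝ} (h : Bar f b φ) {x : ℝ} (hx : b ≤ x) : f.eval x ≠ 0 :=
  fun h0 => (h.lt x ((mem_roots h.ne).2 h0)).not_ge hx

theorem Bar.ph {f : ℝ[X]} {b φ : ℝ} (h : Bar f b φ) {x : ℝ} (hx : b ≤ x) :
    0 ≤ Ph f x ∧ Ph f x ≤ φ := by
  refine ⟨Multiset.sum_nonneg (fun y hy => ?_), (sum_le (fun z hz => ?_)).trans h.le⟩
  · obtain ⟨z, hz, rfl⟩ := Multiset.mem_map.1 hy
    have := h.lt z hz
    exact one_div_nonneg.2 (by linarith)
  · have := h.lt z hz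
    exact one_div_le_one_div_of_le (by linarith) (by linarith)

theorem Bar.step {f : ℝ[X]} {b φ δ : ℝ} (h : Bar f b φ) (hδ : 0 < δ) (h1 : φ + 1 / δ ≤ 1) :
    Bar (LL (-1) f) (b + δ) φ := by
  have h2 : 0 < 1 / δ := by positivity
  have h3 : ∀ x, b ≤ x → (LL (-1) f).eval x ≠ 0 := fun x hx => by
    rw [m1 h.sp (h.ev hx)]
    exact mul_ne_zero (h.ev hx) (by linarith [(h.ph hx).2])
  have hs := LL_splits (-1) h.sp
  have hb : b ≤ b + δ := by linarith
  refine ⟨fun h0 => h3 b le_rfl (by simp [h0]), hs, fun z hz => ?_, ?_⟩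
  · by_contra h4
    exact h3 z (by linarith) (isRoot_of_mem_roots hz)
  have h4 := d1 hs (h3 _ hb)
  have h5 : (LL (-1) f).derivative.eval (b + δ) =
      f.eval (b + δ) * (Ph f (b + δ) - Ph f (b + δ) ^ 2 + Ps f (b + δ)) := by
    simp [LL_app, d1 h.sp (h.ev hb), d2 h.sp (h.ev hb)]; ring
  rw [h5, m1 h.sp (h.ev hb), mul_assoc] at h4
  have h6 := mul_left_cancel₀ (h.ev hb) h4
  have h7 : Ph f (b + δ) + δ * Ps f (b + δ) ≤ Ph f b := by
    rw [Ph, Ps, ← Multiset.sum_map_mul_left, ← Multiset.sum_map_add]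
    refine sum_le (fun z hz => ?_)
    obtain ⟨y, hy⟩ : ∃ y, y = b - z := ⟨_, rfl⟩
    have hy0 : 0 < y := by linarith [h.lt z hz]
    rw [show b + δ - z = y + δ by linarith, ← hy]
    have : 1 / y - (1 / (y + δ) + δ * (1 / (y + δ)) ^ 2) = δ ^ 2 / (y * (y + δ) ^ 2) := by
      field_simp; ring
    have h8 : 0 ≤ δ ^ 2 / (y * (y + δ) ^ 2) := by positivity
    linarith
  have h8 := (h.ph hb).2
  have h9 := Ps_nonneg f (b + δ)
  have h10 : 1 ≤ δ * (1 - Ph f (b + δ)) := by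
    have : δ * (1 / δ) = 1 := by field_simp
    nlinarith
  have h11 := h.le
  by_contra h12
  have h13 : Ph f (b + δ) + δ * Ps f (b + δ) < Ph (LL (-1) f) (b + δ) := by linarith
  have h14 := mul_lt_mul_of_pos_left h13 (show 0 < 1 - Ph f (b + δ) by linarith)
  nlinarith

theorem Bar.iter {f : ℝ[X]} {b φ δ : ℝ} (h : Bar f b φ) (hδ : 0 < δ) (h1 : φ + 1 / δ ≤ 1)
    (k : ℕ) : Bar ((LL (-1) ^ k) f) (b + k * δ) φ := by
  induction k with
  | zero => simpa using h
  | succ k ih =>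
    rw [pow_succ', Module.End.mul_apply]
    convert ih.step hδ h1 using 1
    push_cast; ring

theorem Bar.mul {f g : ℝ[X]} {b φ ψ : ℝ} (hf : Bar f b φ) (hg : Bar g b ψ) :
    Bar (f * g) b (φ + ψ) := by
  have h0 := mul_ne_zero hf.ne hg.ne
  refine ⟨h0, hf.sp.mul hg.sp, fun z hz => ?_, ?_⟩
  · rw [roots_mul h0, Multiset.mem_add] at hz
    exact hz.elim (hf.lt z) (hg.lt z)
  · rw [Ph, roots_mul h0, Multiset.map_add, Multiset.sum_add]
    exact add_le_add hf.le hg.le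

theorem Bar.mono {f : ℝ[X]} {b φ ψ : ℝ} (hf : Bar f b φ) (h : φ ≤ ψ) : Bar f b ψ :=
  ⟨hf.ne, hf.sp, hf.lt, hf.le.trans h⟩

theorem bar_C {c : ℝ} (hc : c ≠ 0) (b : ℝ) : Bar (C c) b 0 :=
  ⟨by simpa using hc, by simp, by simp, by simp [Ph]⟩

theorem bar_X {b : ℝ} (hb : 0 < b) (m : ℕ) : Bar (X ^ m) b (m / b) := by
  refine ⟨by simp, by simp, fun z hz => ?_, ?_⟩
  · rw [roots_X_pow] at hz
    have : z = 0 := by simpa using Multiset.mem_of_mem_nsmul hz
    rwa [this]
  · simp [Ph, Multiset.map_nsmul, Multiset.sum_nsmul, div_eq_mul_inv]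

theorem bar_fac {a b : ℝ} (ha : 0 < a) (hb : 0 < 1 + a * b) :
    Bar (1 + C a * X) b (a / (1 + a * b)) := by
  have e : (1 + C a * X : ℝ[X]) = C a * (X - C (-1 / a)) := by
    rw [mul_sub, ← C_mul, mul_div_cancel₀ _ ha.ne']
    simp [add_comm]
  have h1 : b - -1 / a = (1 + a * b) / a := by field_simp; ring
  rw [e]
  refine ⟨mul_ne_zero (by simpa using ha.ne') (X_sub_C_ne_zero _), by simp, fun z hz => ?_, ?_⟩
  · rw [roots_C_mul _ ha.ne', roots_X_sub_C, Multiset.mem_singleton] at hz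
    have := div_pos hb ha
    linarith
  · rw [Ph, roots_C_mul _ ha.ne', roots_X_sub_C, Multiset.map_singleton, Multiset.sum_singleton, h1,
      one_div_div]

noncomputable def PP (A : Multiset ℝ) : ℝ[X] := (A.map fun a => 1 + C a * X).prod

theorem PP_cons (a : ℝ) (A : Multiset ℝ) : PP (a ::ₘ A) = (1 + C a * X) * PP A := by simp [PP]

theorem PP_add (A B : Multiset ℝ) : PP (A + B) = PP A * PP B := by simp [PP]

theorem bar_PP {b : ℝ} (A : Multiset ℝ) (h : ∀ a ∈ A, 0 < a ∧ 0 < 1 + a * b) :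
    Bar (PP A) b (A.map fun a => a / (1 + a * b)).sum := by
  induction A using Multiset.induction_on with
  | empty => simpa [PP] using bar_C one_ne_zero b
  | cons a A ih =>
    rw [PP_cons, Multiset.map_cons, Multiset.sum_cons]
    have := h a (Multiset.mem_cons_self _ _)
    exact (bar_fac this.1 this.2).mul (ih (fun r hr => h r (Multiset.mem_cons_of_mem hr)))

theorem E1 (p : ℝ[X]) (k : ℕ) : E (-1) p (k + 1) = (LL (-1) ((LL (-1) ^ k) p)).eval 0 := by
  rw [E, pow_succ', Module.End.mul_apply]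

theorem E2 (p : ℝ[X]) (k : ℕ) :
    E (-1) p (k + 2) = (LL (-1) (LL (-1) ((LL (-1) ^ k) p))).eval 0 := by
  rw [E1, pow_succ', Module.End.mul_apply]

theorem turan {p : ℝ[X]} (h : p.Splits) (k : ℕ) :
    E (-1) p k * E (-1) p (k + 2) ≤ E (-1) p (k + 1) ^ 2 := by
  by_cases h0 : E (-1) p k = 0
  · rw [h0, zero_mul]; positivity
  have hs := LL_pow_splits (-1) h k
  rw [E2, E1, m1 hs h0, m2 hs h0, E]
  nlinarith [mul_nonneg (sq_nonneg (((LL (-1) ^ k) p).eval 0)) (Ps_nonneg ((LL (-1) ^ k) p) 0)]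

theorem nz {p : ℝ[X]} (h : p.Splits) (h0 : E (-1) p 0 ≠ 0) (k : ℕ) :
    ¬ (E (-1) p k = 0 ∧ E (-1) p (k + 1) = 0) := by
  induction k with
  | zero => exact fun h1 => h0 h1.1
  | succ k ih =>
    rintro ⟨h1, h2⟩
    have h3 : E (-1) p k ≠ 0 := fun h3 => ih ⟨h3, h1⟩
    have hs := LL_pow_splits (-1) h k
    rw [E1, m1 hs h3] at h1
    rw [show k + 1 + 1 = k + 2 from rfl, E2, m2 hs h3] at h2
    have h4 := (mul_eq_zero.1 h1).resolve_left h3
    have h5 := (mul_eq_zero.1 h2).resolve_left h3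
    have h6 : Ps ((LL (-1) ^ k) p) 0 = 0 := by rw [h4] at h5; linarith
    have h7 : Ph ((LL (-1) ^ k) p) 0 = 0 := by
      refine Multiset.sum_eq_zero (fun y hy => ?_)
      obtain ⟨z, hz, rfl⟩ := Multiset.mem_map.1 hy
      have h8 := Multiset.single_le_sum (s := ((LL (-1) ^ k) p).roots.map
        fun z => (1 / (0 - z)) ^ 2) (fun y hy => by
          obtain ⟨z, -, rfl⟩ := Multiset.mem_map.1 hy
          positivity) _ (Multiset.mem_map_of_mem _ hz)
      rw [Ps] at h6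
      rw [h6] at h8
      exact pow_eq_zero_iff (n := 2) (by norm_num) |>.1 (le_antisymm h8 (sq_nonneg _))
    linarith

theorem drop {p : ℝ[X]} {k : ℕ} {T φ : ℝ} (hT : 0 < T) (h : Bar ((LL (-1) ^ k) p) T φ) :
    (1 - φ) * E (-1) p k ^ 2 ≤ E (-1) p (k + 1) * E (-1) p k +
      T * (E (-1) p (k + 1) ^ 2 - E (-1) p k * E (-1) p (k + 2)) := by
  by_cases h0 : E (-1) p k = 0
  · rw [h0]; simp; positivity
  rw [E1, E2, m1 h.sp h0, m2 h.sp h0, E]
  have h1 : Ph ((LL (-1) ^ k) p) 0 ≤ Ph ((LL (-1) ^ k) p) T + T * Ps ((LL (-1) ^ k) p) 0 := by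
    rw [Ph, Ph, Ps, ← Multiset.sum_map_mul_left, ← Multiset.sum_map_add]
    refine sum_le (fun z hz => ?_)
    have h2 := h.lt z hz
    have h3 : 0 < 1 / (T - z) := one_div_pos.2 (by linarith)
    rcases le_or_gt 0 z with h4 | h4
    · have : 1 / (0 - z) ≤ 0 := one_div_nonpos.2 (by linarith)
      have : 0 ≤ T * (1 / (0 - z)) ^ 2 := by positivity
      linarith
    · obtain ⟨w, rfl⟩ : ∃ w, z = -w := ⟨-z, by ring⟩
      have hw : 0 < w := by linarith
      have e : 1 / (T - -w) + T * (1 / (0 - -w)) ^ 2 - 1 / (0 - -w) = T ^ 2 / (w ^ 2 * (T + w)) := by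
        rw [sub_neg_eq_add, sub_neg_eq_add, zero_add]
        field_simp; ring
      have : 0 ≤ T ^ 2 / (w ^ 2 * (T + w)) := by positivity
      linarith
  have h2 := h.le
  nlinarith [mul_nonneg (sq_nonneg (((LL (-1) ^ k) p).eval 0)) (show 0 ≤ φ +
    T * Ps ((LL (-1) ^ k) p) 0 - Ph ((LL (-1) ^ k) p) 0 by linarith)]

end Pool.Agent.H88.Herm
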