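import Pool.Agent.H88.Herm2

set_option autoImplicit false

namespace Pool.Agent.H88.Herm

open Filter Topology Finset Polynomial MSeq

def Pat (e : ℕ → ℝ) (K N : ℕ) : Prop :=
  ∃ P : ℕ → ℕ, (∀ k < K, P k ≤ P (k + 1)) ∧ ∀ k ≤ K, P k ≤ N ∧ 0 ≤ (-1) ^ P k * e k

theorem Pat.fac {e e' : ℕ → ℝ} {K N : ℕ} (h : Pat e K N) (hT : ∀ k, e k * e (k + 2) ≤ e (k + 1) ^ 2)
    (hz : ∀ k, ¬ (e k = 0 ∧ e (k + 1) = 0)) (h0 : e 0 ≠ 0) {a : ℝ} (ha : 0 < a) (g0 : e' 0 = e 0)
    (g1 : ∀ k, e' (k + 1) = e (k + 1) - a * ((k + 1) * e k)) : Pat e' K (N + 1) := by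
  obtain ⟨P, hP, hs⟩ := h
  refine ⟨fun k => if 0 < (-1) ^ P k * e' k then P k else P k + 1, fun k hk => ?_, fun k hk => ?_⟩
  · have h1 := hP k hk
    have h2 := (hs k hk.le).2
    have h3 := (hs (k + 1) hk).2
    dsimp only
    split_ifs with c1 c2 c2
    · exact h1
    · omega
    · by_contra h4
      have h5 : P (k + 1) = P k := by omega
      rw [h5] at c2 h3
      obtain ⟨σ, hσ⟩ : ∃ σ : ℝ, σ = (-1) ^ P k := ⟨_, rfl⟩
      have hσ2 : σ * σ = 1 := by rw [hσ, ← mul_pow]; simp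
      rw [← hσ] at c1 c2 h2 h3
      have hσ0 : σ ≠ 0 := by rintro rfl; simp at hσ2
      rcases k with _ | k
      · rw [g0] at c1
        exact mul_ne_zero hσ0 h0 (le_antisymm (not_lt.1 c1) h2)
      rw [g1] at c1 c2
      have h6 := hT k
      obtain ⟨x, hx⟩ : ∃ x, x = σ * e k := ⟨_, rfl⟩
      obtain ⟨y, hy⟩ : ∃ y, y = σ * e (k + 1) := ⟨_, rfl⟩
      obtain ⟨z, hz'⟩ : ∃ z, z = σ * e (k + 1 + 1) := ⟨_, rfl⟩
      have h7 : x * z ≤ y ^ 2 := by
        have e1 : x * z = σ * σ * (e k * e (k + 2)) := by rw [hx, hz']; ring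
        have e2 : y ^ 2 = σ * σ * e (k + 1) ^ 2 := by rw [hy]; ring
        rw [e1, e2, hσ2]; linarith
      have c3 : y ≤ a * (k + 1) * x := by rw [hx, hy]; linarith
      have c4 : a * (k + 1 + 1) * y < z := by rw [hz', hy]; push_cast at c2; linarith
      rw [← hy] at h2
      have hk0 : 0 < a * (k + 1) := by positivity
      rcases le_or_gt x 0 with h8 | h8
      · have hy0 : y = 0 := le_antisymm (c3.trans (mul_nonpos_of_nonneg_of_nonpos hk0.le h8)) h2
        have hx0 : x = 0 := le_antisymm h8 (by rw [hy0] at c3; exact nonneg_of_mul_nonneg_right c3 hk0)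
        rw [hx0] at hx; rw [hy0] at hy
        exact hz k ⟨(mul_eq_zero.1 hx.symm).resolve_left hσ0, (mul_eq_zero.1 hy.symm).resolve_left hσ0⟩
      · nlinarith [mul_lt_mul_of_pos_left c4 h8, mul_le_mul_of_nonneg_left c3 h2,
          mul_nonneg (mul_nonneg ha.le h8.le) h2]
    · omega
  · have h1 := (hs k hk).1
    dsimp only
    split_ifs with c1
    · exact ⟨by omega, c1.le⟩
    · refine ⟨by omega, ?_⟩
      rw [pow_succ]; linarith

theorem Pat.mulX {e e' : ℕ → ℝ} {K N : ℕ} (h : Pat e K N) (g0 : e' 0 = 0)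
    (g1 : ∀ k, e' (k + 1) = -1 * (k + 1) * e k) : Pat e' K (N + 1) := by
  obtain ⟨P, hP, hs⟩ := h
  refine ⟨fun k => P (k - 1) + 1, fun k hk => ?_, fun k hk => ?_⟩
  · rcases k with _ | k
    · simp
    · simpa using hP k (by omega)
  · rcases k with _ | k
    · simpa [g0] using (hs 0 hk).1
    · have := hs k (by omega)
      refine ⟨by simpa using this.1, ?_⟩
      simp only [Nat.add_sub_cancel, g1, pow_succ]
      have h2 : 0 ≤ ((k:ℝ) + 1) * ((-1) ^ P k * e k) := mul_nonneg (by positivity) this.2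
      linarith

theorem walk {e : ℕ → ℝ} {K N k0 : ℕ} (h : Pat e K N) {μ : ℝ} (hμ : 0 < μ) (hμ1 : μ ≤ 1)
    (hC : ∀ k, 1 ≤ k → 0 ≤ e (k + 1) * (e (k + 1) - 2 * e k))
    (hD : ∀ k ≤ K, (μ * |e k| ≤ |e (k + 1)| ∨ μ * |e k| ≤ |e (k + 2)|) ∧
      (e (k + 1) = 0 → e k ≠ 0 → e k * e (k + 2) < 0))
    (h0 : 1 ≤ k0) (h1 : e k0 ≠ 0) (hK : k0 + 1 ≤ K) :
    ∃ k ≤ K, |e k0| * 2 ^ K * (μ / 4) ^ N ≤ 2 ^ (k0 + 1) * |e k| := by
  obtain ⟨P, hP, hs⟩ := h
  have hc := abs_pos.2 h1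
  have hν : 0 < μ / 4 := by positivity
  have hν1 : μ / 4 ≤ 1 := by linarith
  have hsg : ∀ i ≤ K, ∀ j ≤ K, e i * e j < 0 → P i ≠ P j := by
    intro i hi j hj hij hp
    have := mul_nonneg (hs i hi).2 (hs j hj).2
    rw [hp, mul_mul_mul_comm, ← mul_pow] at this
    simp at this
    linarith
  have H : ∀ j, k0 ≤ j → j + 1 ≤ K → ∃ k, j ≤ k ∧ k ≤ j + 1 ∧
      |e k0| * 2 ^ k * (μ / 4) ^ P k ≤ 2 ^ k0 * |e k| := by
    intro j hj
    induction j, hj using Nat.le_induction with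
    | base =>
      intro _
      refine ⟨k0, le_rfl, by omega, ?_⟩
      rw [mul_comm (2 ^ k0)]
      exact mul_le_of_le_one_right (by positivity) (pow_le_one₀ hν.le hν1)
    | succ j hj ih =>
      intro hjK
      obtain ⟨k, k1, k2, k3⟩ := ih (by omega)
      rcases k1.lt_or_eq with k1 | rfl
      · exact ⟨k, by omega, by omega, k3⟩
      have hj0 : 0 < |e j| := by
        have : 0 < |e k0| * 2 ^ j * (μ / 4) ^ P j := by positivity
        exact pos_of_mul_pos_right (this.trans_le k3) (by positivity)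
      have p1 := hP j (by omega)
      have p2 : P (j + 1) ≤ P (j + 2) := hP (j + 1) (by omega)
      have key : ∀ k, k ≤ j + 2 → P j + 1 ≤ P k → μ * |e j| ≤ |e k| →
          |e k0| * 2 ^ k * (μ / 4) ^ P k ≤ 2 ^ k0 * |e k| := by
        intro k hk hp he
        have a1 : (2:ℝ) ^ k ≤ 2 ^ (j + 2) := pow_le_pow_right₀ (by norm_num) hk
        have a2 : (μ / 4) ^ P k ≤ (μ / 4) ^ (P j + 1) := pow_le_pow_of_le_one hν.le hν1 hp
        calc |e k0| * 2 ^ k * (μ / 4) ^ P k ≤ |e k0| * 2 ^ (j + 2) * (μ / 4) ^ (P j + 1) := by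
              gcongr
          _ = μ * (|e k0| * 2 ^ j * (μ / 4) ^ P j) := by ring
          _ ≤ μ * (2 ^ k0 * |e j|) := by gcongr
          _ = 2 ^ k0 * (μ * |e j|) := by ring
          _ ≤ _ := by gcongr
      obtain ⟨d1, d2⟩ := hD j (by omega)
      rcases lt_trichotomy (e j * e (j + 1)) 0 with c | c | c
      · have := hsg j (by omega) (j + 1) (by omega) c
        rcases d1 with d1 | d1
        · exact ⟨j + 1, by omega, by omega, key _ (by omega) (by omega) d1⟩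
        · exact ⟨j + 2, by omega, by omega, key _ (by omega) (by omega) d1⟩
      · have c1 := (mul_eq_zero.1 c).resolve_left (abs_pos.1 hj0)
        have := hsg j (by omega) (j + 2) (by omega) (d2 c1 (abs_pos.1 hj0))
        refine ⟨j + 2, by omega, by omega, key _ (by omega) (by omega) (d1.resolve_left ?_)⟩
        rw [c1, abs_zero, not_le]; positivity
      · refine ⟨j + 1, by omega, by omega, ?_⟩
        have a1 : 2 * |e j| ≤ |e (j + 1)| := by
          have a0 := hC j (by omega)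
          have a2 : |e j| * |e (j + 1)| = e j * e (j + 1) := by rw [← abs_mul, abs_of_pos c]
          have a3 : 0 < |e (j + 1)| := abs_pos.2 (fun h => by simp [h] at c)
          have a4 := sq_abs (e (j + 1))
          by_contra a5
          nlinarith
        have a2 : (μ / 4) ^ P (j + 1) ≤ (μ / 4) ^ P j := pow_le_pow_of_le_one hν.le hν1 p1
        calc |e k0| * 2 ^ (j + 1) * (μ / 4) ^ P (j + 1) ≤ |e k0| * 2 ^ (j + 1) * (μ / 4) ^ P j := by
              gcongr
          _ = 2 * (|e k0| * 2 ^ j * (μ / 4) ^ P j) := by ring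
          _ ≤ 2 * (2 ^ k0 * |e j|) := by gcongr
          _ = 2 ^ k0 * (2 * |e j|) := by ring
          _ ≤ _ := by gcongr
  obtain ⟨k, k1, k2, k3⟩ := H (K - 1) (by omega) (by omega)
  refine ⟨k, by omega, ?_⟩
  have a1 : (2:ℝ) ^ K ≤ 2 ^ (k + 1) := pow_le_pow_right₀ (by norm_num) (by omega)
  have a2 : (μ / 4) ^ N ≤ (μ / 4) ^ P k := pow_le_pow_of_le_one hν.le hν1 (hs k (by omega)).1
  calc |e k0| * 2 ^ K * (μ / 4) ^ N ≤ |e k0| * 2 ^ (k + 1) * (μ / 4) ^ P k := by gcongr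
    _ = 2 * (|e k0| * 2 ^ k * (μ / 4) ^ P k) := by ring
    _ ≤ 2 * (2 ^ k0 * |e k|) := by gcongr
    _ = _ := by ring

theorem geo (t : ℝ) (I : ℕ) :
    ∑ i ∈ range I, (if ¬ t ≤ 1 / 2 ^ i then (1:ℝ) / 2 ^ i else 0) + 2 * min t (1 / 2 ^ I) ≤ 2 * t := by
  induction I with
  | zero => simp
  | succ I ih =>
    rw [sum_range_succ]
    have h1 : (1:ℝ) / 2 ^ (I + 1) = 1 / 2 ^ I / 2 := by rw [pow_succ, div_div]
    have h2 : (0:ℝ) < 1 / 2 ^ I := by positivity
    rw [h1]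
    split_ifs with h
    · have := min_le_min_left t (show (1:ℝ) / 2 ^ I / 2 ≤ 1 / 2 ^ I by linarith)
      linarith
    · rw [min_eq_right (not_le.1 h).le] at ih
      have := min_le_right t (1 / 2 ^ I / 2)
      linarith

theorem pigeon (S κ : ℝ) (hκ : 0 < κ) (i0 : ℕ) : ∃ I, ∀ A : Multiset ℝ, (∀ a ∈ A, 0 < a) →
    A.sum ≤ S → ∃ i, i0 ≤ i ∧ i < I ∧
      8 * i * (A.filter (fun a => ¬ a ≤ κ / 2 ^ i)).card ≤ 2 ^ i := by
  have h1 := (Real.tendsto_sum_range_one_div_nat_succ_atTop.eventually_gt_atTop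
    (16 * S / κ + ∑ i ∈ range i0, 1 / ((i:ℝ) + 1))).and (eventually_ge_atTop i0)
  obtain ⟨I, hI, hI0⟩ := h1.exists
  refine ⟨I, fun A hA hS => ?_⟩
  have h2 : ∑ i ∈ range I, ((A.filter (fun a => ¬ a ≤ κ / 2 ^ i)).card : ℝ) / 2 ^ i ≤
      2 * A.sum / κ := by
    clear hS
    induction A using Multiset.induction_on with
    | empty => simp
    | cons a A ih =>
      have ha := hA a (Multiset.mem_cons_self _ _)
      have h3 := ih (fun r hr => hA r (Multiset.mem_cons_of_mem hr))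
      have h4 := geo (a / κ) I
      have h5 : 0 ≤ min (a / κ) (1 / 2 ^ I) := by positivity
      have h6 : ∀ i : ℕ, (((a ::ₘ A).filter (fun a => ¬ a ≤ κ / 2 ^ i)).card : ℝ) / 2 ^ i =
          (if ¬ a / κ ≤ 1 / 2 ^ i then (1:ℝ) / 2 ^ i else 0) +
          ((A.filter (fun a => ¬ a ≤ κ / 2 ^ i)).card : ℝ) / 2 ^ i := by
        intro i
        have : a / κ ≤ 1 / 2 ^ i ↔ a ≤ κ / 2 ^ i := by
          rw [div_le_iff₀ hκ, one_div_mul_eq_div]
        simp only [this, Multiset.filter_cons]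
        split_ifs <;> simp [add_div, add_comm]
      simp only [h6, sum_add_distrib, Multiset.sum_cons]
      have : 2 * (a + A.sum) / κ = 2 * (a / κ) + 2 * A.sum / κ := by ring
      linarith
  by_contra H
  have h3 : ∑ i ∈ Ico i0 I, 1 / ((i:ℝ) + 1) ≤
      8 * ∑ i ∈ Ico i0 I, ((A.filter (fun a => ¬ a ≤ κ / 2 ^ i)).card : ℝ) / 2 ^ i := by
    rw [mul_sum]
    refine sum_le_sum (fun i hi => ?_)
    have h4 := not_le.1 (fun h => H ⟨i, (mem_Ico.1 hi).1, (mem_Ico.1 hi).2, h⟩)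
    have h5 : (2:ℝ) ^ i ≤ 8 * i * (A.filter (fun a => ¬ a ≤ κ / 2 ^ i)).card := by
      exact_mod_cast h4.le
    rw [← mul_div_assoc, div_le_div_iff₀ (by positivity) (by positivity)]
    have : (0:ℝ) ≤ (A.filter (fun a => ¬ a ≤ κ / 2 ^ i)).card := by positivity
    nlinarith
  have h4 : ∑ i ∈ Ico i0 I, ((A.filter (fun a => ¬ a ≤ κ / 2 ^ i)).card : ℝ) / 2 ^ i ≤
      ∑ i ∈ range I, ((A.filter (fun a => ¬ a ≤ κ / 2 ^ i)).card : ℝ) / 2 ^ i :=
    sum_le_sum_of_subset_of_nonneg (fun i hi => mem_range.2 (mem_Ico.1 hi).2)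
      (fun _ _ _ => by positivity)
  rw [← sum_range_add_sum_Ico _ hI0] at hI
  have h5 : 2 * A.sum / κ ≤ 2 * S / κ := by gcongr
  have : 16 * S / κ = 8 * (2 * S / κ) := by ring
  linarith

theorem msum_le {s t : Multiset ℝ} (h : s ≤ t) (h0 : ∀ a ∈ t, 0 < a) : s.sum ≤ t.sum := by
  obtain ⟨u, rfl⟩ := Multiset.le_iff_exists_add.1 h
  rw [Multiset.sum_add]
  exact le_add_of_nonneg_right (Multiset.sum_nonneg (fun a ha => (h0 a (by simp [ha])).le))

theorem fin_pat {c η S : ℝ} (hc : 0 < c) (hη : 0 < η) (hη1 : η < 1) (hS : 1 ≤ S) {K : ℕ}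
    (hK : 0 < K) (R B : Multiset ℝ) (hR : ∀ a ∈ R, 0 < a ∧ a ≤ η ^ 2 / 4 / K) (hR1 : R.sum ≤ 1 - η)
    (hB : ∀ a ∈ B, 0 < a ∧ a ≤ S) (m : ℕ) :
    Pat (E (-1) (X ^ m * (PP B * (C c * PP R)))) K (B.card + m) ∧
      ∀ k ≤ K, |E (-1) (X ^ m * (PP B * (C c * PP R))) k| ≤ c * (1 + S * K) ^ (B.card + m) := by
  have hK' : (1:ℝ) ≤ K := by exact_mod_cast hK
  have h1 : ∀ a ∈ R, 1 - η / 2 ≤ 1 + a * (-(K * (2 / η))) := by
    intro a ha
    have := mul_le_mul_of_nonneg_right (hR a ha).2 (show 0 ≤ K * (2 / η) by positivity)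
    have e : η ^ 2 / 4 / K * (K * (2 / η)) = η / 2 := by field_simp; ring
    linarith
  have h2 : Bar (C c * PP R) (-(K * (2 / η))) (1 - η / 2) := by
    refine ((bar_C hc.ne' _).mul (bar_PP R (fun a ha => ⟨(hR a ha).1, by linarith [h1 a ha]⟩))).mono ?_
    have : (R.map fun a => a / (1 + a * (-(K * (2 / η))))).sum ≤
        (R.map fun a => a / (1 - η / 2)).sum :=
      sum_le (fun a ha => div_le_div_of_nonneg_left (hR a ha).1.le (by linarith) (h1 a ha))
    rw [Multiset.sum_map_div, Multiset.map_id'] at this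
    refine (zero_add _).trans_le (this.trans ?_)
    rw [div_le_iff₀ (by linarith)]
    nlinarith
  have h3 : ∀ k ≤ K, 0 < E (-1) (C c * PP R) k ∧ E (-1) (C c * PP R) k ≤ c := by
    intro k
    induction k with
    | zero =>
      intro _
      have : (PP R).eval 0 = 1 := by simp [PP, eval_multiset_prod]
      simp [E_zero, this, hc]
    | succ k ih =>
      intro hk
      obtain ⟨i1, i2⟩ := ih (by omega)
      have h4 := h2.iter (δ := 2 / η) (by positivity) (by rw [one_div_div]; linarith) k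
      have h5 : -(K * (2 / η)) + k * (2 / η) ≤ 0 := by
        have : (k:ℝ) ≤ K := by exact_mod_cast (by omega : k ≤ K)
        have := mul_le_mul_of_nonneg_right this (show 0 ≤ 2 / η by positivity)
        linarith
      obtain ⟨j1, j2⟩ := h4.ph h5
      rw [E1, m1 h4.sp (h4.ev h5)]
      rw [E] at i1 i2
      exact ⟨mul_pos i1 (by linarith), by nlinarith⟩
  have hZ : 1 ≤ 1 + S * K := by nlinarith
  have step : ∀ (u v : ℕ → ℝ) (M a b : ℝ), |a| ≤ S → |b| ≤ 1 → (∀ k ≤ K, |u k| ≤ M) → v 0 = b * u 0 →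
      (∀ k, v (k + 1) = b * u (k + 1) + a * (-1 * (k + 1) * u k)) →
      ∀ k ≤ K, |v k| ≤ M * (1 + S * K) := by
    intro u v M a b ha hb hu v0 v1 k hk
    have hM : 0 ≤ M := (abs_nonneg _).trans (hu 0 (by omega))
    have hb' : ∀ k ≤ K, |b * u k| ≤ M := fun k hk => by
      rw [abs_mul]; exact (mul_le_of_le_one_left (abs_nonneg _) hb).trans (hu k hk)
    rcases k with _ | k
    · rw [v0]; exact (hb' 0 hk).trans (le_mul_of_one_le_right hM hZ)
    · rw [v1]
      refine (abs_add_le _ _).trans ?_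
      have h6 : |a * (-1 * (k + 1) * u k)| ≤ S * (K * M) := by
        rw [abs_mul, abs_mul, neg_one_mul, abs_neg, abs_of_nonneg (by positivity : (0:ℝ) ≤ k + 1)]
        have : (k:ℝ) + 1 ≤ K := by exact_mod_cast hk
        have := hu k (by omega)
        gcongr
      linarith [hb' _ hk]
  have h4 : (PP B * (C c * PP R)).Splits ∧ E (-1) (PP B * (C c * PP R)) 0 ≠ 0 ∧
      Pat (E (-1) (PP B * (C c * PP R))) K B.card ∧
      ∀ k ≤ K, |E (-1) (PP B * (C c * PP R)) k| ≤ c * (1 + S * K) ^ B.card := by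
    induction B using Multiset.induction_on with
    | empty =>
      have : PP 0 = 1 := by simp [PP]
      rw [this, one_mul]
      refine ⟨h2.sp, (h3 0 (by omega)).1.ne', ⟨fun _ => 0, by simp, fun k hk => ?_⟩, fun k hk => ?_⟩
      · simpa using (h3 k hk).1.le
      · simpa [abs_of_pos (h3 k hk).1] using (h3 k hk).2
    | cons a B ih =>
      obtain ⟨i1, i2, i3, i4⟩ := ih (fun r hr => hB r (Multiset.mem_cons_of_mem hr))
      obtain ⟨a1, a2⟩ := hB a (Multiset.mem_cons_self _ _)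
      rw [PP_cons, mul_assoc, Multiset.card_cons, pow_succ, ← mul_assoc c]
      have g0 : E (-1) ((1 + C a * X) * (PP B * (C c * PP R))) 0 =
          E (-1) (PP B * (C c * PP R)) 0 := by simp [E_zero]
      refine ⟨(bar_fac (b := 0) a1 (by simp)).sp.mul i1, by rwa [g0],
        i3.fac (turan i1) (nz i1 i2) i2 a1 g0 (fun k => by rw [E_fac]; ring), ?_⟩
      exact step _ _ _ a 1 (by rwa [abs_of_pos a1]) (by simp) i4 (by rw [g0, one_mul])
        (fun k => by rw [E_fac, one_mul])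
  induction m with
  | zero => simpa using h4.2.2
  | succ m ih =>
    rw [pow_succ', mul_assoc, ← add_assoc, pow_succ, ← mul_assoc c]
    have g0 : E (-1) (X * (X ^ m * (PP B * (C c * PP R)))) 0 = 0 := by simp [E_zero]
    exact ⟨ih.1.mulX g0 (E_X _ _), step _ _ _ 1 0 (by simpa using hS) (by simp) ih.2 (by simp [g0])
      (fun k => by rw [E_X]; ring)⟩

theorem noB {e : ℕ → ℝ} {m : ℕ} {A : ℕ → Multiset ℝ} {c : ℕ → ℝ} {S cb η : ℝ} (hS : 1 ≤ S)
    (hA : ∀ n, ∀ a ∈ A n, 0 < a) (hs : ∀ n, (A n).sum ≤ S) (hc : ∀ n, 0 < c n ∧ c n ≤ cb)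
    (hl : ∀ k, Tendsto (fun n => E (-1) (X ^ m * (C (c n) * PP (A n))) k) atTop (𝓝 (e k)))
    (hη : 0 < η) (hB : ∀ᶠ n in atTop, ((A n).filter (· ≤ η)).sum < 1 - η)
    (hC : ∀ k, 1 ≤ k → 0 ≤ e (k + 1) * (e (k + 1) - 2 * e k)) (k1 : ℕ) : e k1 = 0 := by
  by_contra hk1
  have hη1 : η < 1 := by
    obtain ⟨n, hn⟩ := hB.exists
    have := msum_le (Multiset.zero_le ((A n).filter (· ≤ η)))
      (fun a ha => hA n a (Multiset.mem_of_mem_filter ha))
    simp at this
    linarith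
  obtain ⟨T, hT⟩ : ∃ T, T = 2 * (m + S / η) / η := ⟨_, rfl⟩
  have hT0 : 0 < T := by rw [hT]; positivity
  have hD : ∀ k : ℕ, η / 2 * e k ^ 2 ≤ e (k + 1) * e k +
      (T + k * (2 / η)) * (e (k + 1) ^ 2 - e k * e (k + 2)) := by
    intro k
    refine le_of_tendsto_of_tendsto (((hl k).pow 2).const_mul _) (((hl (k + 1)).mul (hl k)).add
      ((((hl (k + 1)).pow 2).sub ((hl k).mul (hl (k + 2)))).const_mul _)) (hB.mono (fun n hn => ?_))
    have h1 : Bar (X ^ m * (C (c n) * PP (A n))) T (1 - η / 2) := by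
      refine ((bar_X hT0 m).mul ((bar_C (hc n).1.ne' _).mul (bar_PP (A n)
        (fun a ha => ⟨hA n a ha, by have := hA n a ha; positivity⟩)))).mono ?_
      have h2 : ((A n).map fun a => a / (1 + a * T)).sum ≤
          ((A n).map fun a => (if a ≤ η then a else 0) + a / (η * T)).sum := by
        refine sum_le (fun a ha => ?_)
        have a1 := hA n a ha
        split_ifs with h
        · have : a / (1 + a * T) ≤ a := div_le_self a1.le (by nlinarith [mul_pos a1 hT0])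
          have : 0 ≤ a / (η * T) := by positivity
          linarith
        · rw [zero_add]
          exact div_le_div_of_nonneg_left a1.le (by positivity) (by nlinarith [not_le.1 h])
      have h3 : ((A n).map fun a => if a ≤ η then a else 0).sum = ((A n).filter (· ≤ η)).sum := by
        generalize A n = s
        induction s using Multiset.induction_on with
        | empty => simp
        | cons a s ih => rw [Multiset.filter_cons]; split_ifs with h <;> simp [h, ih]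
      rw [Multiset.sum_map_add, h3, Multiset.sum_map_div, Multiset.map_id'] at h2
      have h4 : (A n).sum / (η * T) ≤ S / (η * T) := by have := hs n; gcongr
      have h5 : m / T + S / (η * T) = η / 2 := by rw [hT]; field_simp
      linarith
    have h2 := drop (by positivity) (h1.iter (δ := 2 / η) (by positivity)
      (by rw [one_div_div]; linarith) k)
    rwa [sub_sub_cancel] at h2
  have hD2 : ∀ k : ℕ, e (k + 1) = 0 → e k ≠ 0 → e k * e (k + 2) < 0 := by
    intro k h1 h2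
    have h3 := hD k
    rw [h1] at h3
    have h4 : 0 < η / 2 * e k ^ 2 := by positivity
    have h5 : 0 < T + k * (2 / η) := by positivity
    by_contra h6
    nlinarith [mul_nonneg h5.le (not_lt.1 h6)]
  obtain ⟨k0, hk0, hk0'⟩ : ∃ k0, 1 ≤ k0 ∧ e k0 ≠ 0 := by
    by_cases h : e (k1 + 1) = 0
    · exact ⟨k1 + 2, by omega, fun h1 => by simpa [h1] using hD2 k1 h hk1⟩
    · exact ⟨k1 + 1, by omega, h⟩
  have hc0 := abs_pos.2 hk0'
  have hcb : 0 < cb := (hc 0).1.trans_le (hc 0).2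
  obtain ⟨Z, hZ⟩ : ∃ Z, Z = 8 * (1 + 2 * T + 4 / η) / η + (1 + S) +
    2 ^ (k0 + 1) * (1 + cb) / |e k0| := ⟨_, rfl⟩
  have z1 : 0 ≤ 8 * (1 + 2 * T + 4 / η) / η := by positivity
  have z2 : 0 ≤ 2 ^ (k0 + 1) * (1 + cb) / |e k0| := by positivity
  obtain ⟨i0, hi0⟩ := eventually_atTop.1
    ((((tendsto_pow_atTop_atTop_of_one_lt (one_lt_two (α := ℝ))).eventually_ge_atTop Z).and
    ((tendsto_pow_const_div_const_pow_of_one_lt 1 (one_lt_two (α := ℝ))).eventually_lt_const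
      (show 0 < 1 / (8 * (m:ℝ) + 2) by positivity))).and (eventually_ge_atTop (k0 + 1)))
  obtain ⟨I, hI⟩ := pigeon S (η ^ 2 / 4) (by positivity) i0
  have hev : ∀ k ∈ range (2 ^ I + 1), ∀ᶠ n in atTop,
      (e k ≠ 0 → 0 < E (-1) (X ^ m * (C (c n) * PP (A n))) k * e k) ∧
      |e k| ≤ |E (-1) (X ^ m * (C (c n) * PP (A n))) k| + 1 := by
    intro k _
    refine Eventually.and ?_ (((hl k).abs.add_const 1).eventually_const_le (lt_add_one _))
    by_cases h : e k = 0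
    · simp [h]
    · exact (((hl k).mul_const (e k)).eventually_const_lt (mul_self_pos.2 h)).mono (fun n hn _ => hn)
  obtain ⟨n, hn, hn2⟩ := (hB.and ((eventually_all_finset _).2 hev)).exists
  obtain ⟨i, hi1, hi2, hi3⟩ := hI (A n) (hA n) (hs n)
  obtain ⟨⟨y1, y2⟩, y3⟩ := hi0 i hi1
  obtain ⟨B, hB'⟩ : ∃ B, B = (A n).filter (fun a => ¬ a ≤ η ^ 2 / 4 / 2 ^ i) := ⟨_, rfl⟩
  obtain ⟨K, hK⟩ : ∃ K : ℕ, K = 2 ^ i := ⟨_, rfl⟩
  have hK' : (K:ℝ) = 2 ^ i := by rw [hK]; simp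
  have hK1 : (1:ℝ) ≤ K := by rw [hK']; exact one_le_pow₀ one_le_two
  have hKI : K ≤ 2 ^ I := by rw [hK]; exact Nat.pow_le_pow_right (by norm_num) hi2.le
  obtain ⟨f1, f2⟩ := fin_pat (hc n).1 hη hη1 hS (K := K) (by rw [hK]; positivity)
    ((A n).filter (fun a => a ≤ η ^ 2 / 4 / 2 ^ i)) B
    (fun a ha => ⟨hA n a (Multiset.mem_of_mem_filter ha), by
      rw [hK']; exact (Multiset.mem_filter.1 ha).2⟩)
    ((msum_le (Multiset.monotone_filter_right _ (fun a ha => by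
      have : η ^ 2 / 4 / 2 ^ i ≤ η ^ 2 / 4 := div_le_self (by positivity) (hK' ▸ hK1)
      nlinarith)) (fun a ha => hA n a (Multiset.mem_of_mem_filter ha))).trans hn.le)
    (fun a ha => by
      rw [hB'] at ha
      have := Multiset.mem_of_mem_filter ha
      exact ⟨hA n a this, (Multiset.single_le_sum (fun b hb => (hA n b hb).le) a this).trans (hs n)⟩) m
  have e1 : PP B * (C (c n) * PP ((A n).filter (fun a => a ≤ η ^ 2 / 4 / 2 ^ i))) =
      C (c n) * PP (A n) := by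
    rw [mul_left_comm, ← PP_add, hB', add_comm, Multiset.filter_add_not]
  rw [e1] at f1 f2
  rw [← hB', ← hK] at hi3
  obtain ⟨N, hN⟩ : ∃ N, N = B.card + m := ⟨_, rfl⟩
  rw [← hN] at f1 f2
  obtain ⟨μ, hμ⟩ : ∃ μ, μ = η / (2 * (1 + 2 * (T + K * (2 / η)))) := ⟨_, rfl⟩
  have hμ0 : 0 < μ := by rw [hμ]; positivity
  have hTK : 0 < T + K * (2 / η) := by positivity
  have hμ2 : μ * (1 + 2 * (T + K * (2 / η))) = η / 2 := by rw [hμ]; field_simp
  have hμ1 : μ ≤ 1 := by nlinarith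
  have hP : Pat e K N := by
    obtain ⟨P, p1, p2⟩ := f1
    refine ⟨P, p1, fun k hk => ⟨(p2 k hk).1, ?_⟩⟩
    by_cases h : e k = 0
    · simp [h]
    have a1 := (hn2 k (mem_range.2 (by omega))).1 h
    have a2 := (p2 k hk).2
    rcases neg_one_pow_eq_or ℝ (P k) with h1 | h1 <;> rw [h1] at a2 ⊢ <;> by_contra h2 <;> nlinarith
  have hDD : ∀ k ≤ K, (μ * |e k| ≤ |e (k + 1)| ∨ μ * |e k| ≤ |e (k + 2)|) ∧
      (e (k + 1) = 0 → e k ≠ 0 → e k * e (k + 2) < 0) := by
    intro k hk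
    refine ⟨?_, hD2 k⟩
    by_contra H
    push Not at H
    obtain ⟨H1, H2⟩ := H
    have a0 : 0 < |e k| := pos_of_mul_pos_right ((abs_nonneg _).trans_lt H1) hμ0.le
    have a1 : e (k + 1) * e k < μ * e k ^ 2 := by
      have := le_abs_self (e (k + 1) * e k)
      rw [abs_mul] at this
      nlinarith [sq_abs (e k), mul_lt_mul_of_pos_right H1 a0]
    have a2 : e (k + 1) ^ 2 ≤ μ * e k ^ 2 := by
      have := pow_le_pow_left₀ (abs_nonneg _) H1.le 2
      rw [sq_abs, mul_pow, sq_abs] at this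
      nlinarith [mul_nonneg (mul_nonneg hμ0.le (sub_nonneg.2 hμ1)) (sq_nonneg (e k))]
    have a3 : -(e k * e (k + 2)) ≤ μ * e k ^ 2 := by
      have := neg_le_abs (e k * e (k + 2))
      rw [abs_mul] at this
      nlinarith [sq_abs (e k), mul_lt_mul_of_pos_left H2 a0]
    have a4 : T + k * (2 / η) ≤ T + K * (2 / η) := by
      have : (k:ℝ) ≤ K := by exact_mod_cast hk
      gcongr
    have a5 : (T + k * (2 / η)) * (e (k + 1) ^ 2 - e k * e (k + 2)) ≤
        (T + K * (2 / η)) * (2 * (μ * e k ^ 2)) :=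
      (mul_le_mul_of_nonneg_left (by linarith) (by positivity)).trans
        (mul_le_mul_of_nonneg_right a4 (by positivity))
    have a6 := hD k
    rw [← hμ2] at a6
    nlinarith
  obtain ⟨k, hk, w⟩ := walk (e := e) (K := K) (N := N) (k0 := k0) (μ := μ) hP hμ0 hμ1 hC hDD hk0 hk0'
    (y3.trans (hK ▸ Nat.lt_two_pow_self.le))
  · have w1 := (hn2 k (mem_range.2 (by omega))).2
    have w2 := f2 k hk
    have hW : 1 + S * K ≤ Z * K := by nlinarith
    have hZ1 : 1 ≤ Z * K := by nlinarith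
    have w3 : |e k| ≤ (1 + cb) * (Z * K) ^ N := by
      have a1 : c n * (1 + S * K) ^ N ≤ cb * (Z * K) ^ N := by have := (hc n).2; gcongr
      have a2 : 1 ≤ (Z * K) ^ N := one_le_pow₀ hZ1
      linarith
    have w4 : 1 ≤ μ / 4 * (Z * K) := by
      have a1 : 1 + 2 * (T + K * (2 / η)) ≤ (1 + 2 * T + 4 / η) * K := by
        have : 2 * (K * (2 / η)) = 4 / η * K := by ring
        nlinarith
      have a2 : 8 * (1 + 2 * T + 4 / η) / η ≤ Z := by linarith
      rw [div_le_iff₀ hη] at a2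
      have a3 := mul_le_mul_of_nonneg_left a1 hμ0.le
      have a4 := mul_le_mul_of_nonneg_left a2 (show 0 ≤ μ * K by positivity)
      refine le_of_mul_le_mul_left (a := η) ?_ hη
      nlinarith
    have w5 : (2:ℝ) ^ K ≤ Z * ((Z * K) ^ N * (Z * K) ^ N) := by
      have a1 : 2 ^ (k0 + 1) * (1 + cb) / |e k0| ≤ Z := by linarith
      rw [div_le_iff₀ hc0] at a1
      have a2 : 1 ≤ (μ / 4) ^ N * (Z * K) ^ N := by rw [← mul_pow]; exact one_le_pow₀ w4
      refine le_of_mul_le_mul_left ?_ hc0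
      calc |e k0| * 2 ^ K ≤ |e k0| * 2 ^ K * ((μ / 4) ^ N * (Z * K) ^ N) :=
            le_mul_of_one_le_right (by positivity) a2
        _ = |e k0| * 2 ^ K * (μ / 4) ^ N * (Z * K) ^ N := by ring
        _ ≤ 2 ^ (k0 + 1) * ((1 + cb) * (Z * K) ^ N) * (Z * K) ^ N := by
            have : 2 ^ (k0 + 1) * |e k| ≤ 2 ^ (k0 + 1) * ((1 + cb) * (Z * K) ^ N) := by gcongr
            have := w.trans this
            gcongr
        _ = 2 ^ (k0 + 1) * (1 + cb) * ((Z * K) ^ N * (Z * K) ^ N) := by ring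
        _ ≤ Z * |e k0| * ((Z * K) ^ N * (Z * K) ^ N) := by gcongr
        _ = _ := by ring
    have w6 : (2:ℝ) ^ K ≤ 2 ^ (i + 4 * i * N) := by
      refine w5.trans ?_
      have a1 : Z * K ≤ 2 ^ i * 2 ^ i := by rw [hK']; gcongr
      have hZ0 : 0 ≤ Z := by nlinarith
      calc Z * ((Z * K) ^ N * (Z * K) ^ N) ≤
            2 ^ i * ((2 ^ i * 2 ^ i) ^ N * (2 ^ i * 2 ^ i) ^ N) := by gcongr
        _ = _ := by ring
    have w7 : K ≤ i + 4 * i * N := (pow_le_pow_iff_right₀ one_lt_two).1 w6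
    rw [div_lt_div_iff₀ (by positivity) (by positivity), ← hK', pow_one, one_mul] at y2
    have w8 : i * (8 * m + 2) < K := by exact_mod_cast y2
    rw [hN] at w7
    nlinarith

end Pool.Agent.H88.Herm
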