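import Pool.Agent.H88.Herm3

set_option autoImplicit false

namespace Pool.Agent.H88.Herm

open Filter Topology Finset Polynomial MSeq

theorem bnd {S θ M : ℝ} (hS : 1 ≤ S) (hθ : 1 ≤ θ) {K : ℕ} {q : ℝ[X]}
    (hq : ∀ k ≤ K, |E 1 q k| ≤ M * θ ^ k) (B : Multiset ℝ) (hB : ∀ a ∈ B, 0 < a ∧ a ≤ S) (m : ℕ) :
    ∀ k ≤ K, |E 1 (X ^ m * (PP B * q)) k| ≤ M * (1 + S * K) ^ (B.card + m) * θ ^ k := by
  have hZ : 1 ≤ 1 + S * K := by have : 0 ≤ S * K := by positivity
                                linarith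
  have step : ∀ (u v : ℕ → ℝ) (M a b : ℝ), |a| ≤ S → |b| ≤ 1 → (∀ k ≤ K, |u k| ≤ M * θ ^ k) →
      v 0 = b * u 0 → (∀ k, v (k + 1) = b * u (k + 1) + a * (1 * (k + 1) * u k)) →
      ∀ k ≤ K, |v k| ≤ M * (1 + S * K) * θ ^ k := by
    intro u v M a b ha hb hu v0 v1 k hk
    have hM : 0 ≤ M := by simpa using (abs_nonneg _).trans (hu 0 (by omega))
    have hb' : ∀ k ≤ K, |b * u k| ≤ M * θ ^ k := fun k hk => by
      rw [abs_mul]; exact (mul_le_of_le_one_left (abs_nonneg _) hb).trans (hu k hk)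
    rcases k with _ | k
    · rw [v0]; refine (hb' 0 hk).trans ?_
      simpa using le_mul_of_one_le_right hM hZ
    · rw [v1]
      refine (abs_add_le _ _).trans ?_
      have h6 : |a * (1 * (k + 1) * u k)| ≤ S * (K * (M * θ ^ (k + 1))) := by
        rw [abs_mul, abs_mul, one_mul, abs_of_nonneg (by positivity : (0:ℝ) ≤ k + 1)]
        have : (k:ℝ) + 1 ≤ K := by exact_mod_cast hk
        have h7 : M * θ ^ k ≤ M * θ ^ (k + 1) := by gcongr; omega
        have := (hu k (by omega)).trans h7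
        gcongr
      linarith [hb' _ hk]
  have h4 : ∀ k ≤ K, |E 1 (PP B * q) k| ≤ M * (1 + S * K) ^ B.card * θ ^ k := by
    induction B using Multiset.induction_on with
    | empty => simpa [PP] using hq
    | cons a B ih =>
      obtain ⟨a1, a2⟩ := hB a (Multiset.mem_cons_self _ _)
      rw [PP_cons, mul_assoc, Multiset.card_cons, pow_succ, ← mul_assoc M]
      exact step _ _ _ a 1 (by rwa [abs_of_pos a1]) (by simp)
        (ih (fun r hr => hB r (Multiset.mem_cons_of_mem hr))) (by simp [E_zero])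
        (fun k => by rw [E_fac, one_mul (E 1 _ _)])
  induction m with
  | zero => simpa using h4
  | succ m ih =>
    rw [pow_succ', mul_assoc, ← add_assoc, pow_succ, ← mul_assoc M]
    exact step _ _ _ 1 0 (by simpa using hS) (by simp) ih (by simp [E_zero])
      (fun k => by rw [E_X]; ring)

theorem small_bnd {c : ℝ} (hc : 0 < c) (A : Multiset ℝ) (hA : ∀ a ∈ A, 0 < a) :
    ∀ k, |E 1 (PP A * C c) k| ≤ c * (1 + A.sum) ^ k := by
  induction A using Multiset.induction_on with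
  | empty =>
    intro k
    have : (LL 1 ^ k) (C c) = C c := by
      induction k with
      | zero => simp
      | succ k ih => rw [pow_succ', Module.End.mul_apply, ih, LL_app]; simp
    simp [PP, E, this, abs_of_pos hc]
  | cons a A ih =>
    have ha := hA a (Multiset.mem_cons_self _ _)
    have hA' := fun r hr => hA r (Multiset.mem_cons_of_mem hr)
    have h1 := ih hA'
    have h2 : 0 ≤ A.sum := Multiset.sum_nonneg (fun r hr => (hA' r hr).le)
    intro k
    rw [PP_cons, mul_assoc, Multiset.sum_cons]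
    rcases k with _ | k
    · simpa [E_zero] using h1 0
    rw [E_fac]
    refine (abs_add_le _ _).trans ?_
    rw [abs_mul, abs_mul, one_mul, abs_of_nonneg (by positivity : (0:ℝ) ≤ k + 1), abs_of_pos ha]
    have h3 : ∀ j : ℕ, (1 + A.sum) ^ (j + 1) + a * ((j + 1) * (1 + A.sum) ^ j) ≤
        (1 + (a + A.sum)) ^ (j + 1) := by
      intro j
      induction j with
      | zero => simp; linarith
      | succ j ih =>
        have h4 := mul_le_mul_of_nonneg_right ih (show 0 ≤ 1 + (a + A.sum) by positivity)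
        have h5 : 0 ≤ a * a * ((j + 1) * (1 + A.sum) ^ j) := by positivity
        rw [← pow_succ] at h4
        push_cast
        refine le_trans ?_ h4
        rw [pow_succ, pow_succ]
        nlinarith
    have h4 := mul_le_mul_of_nonneg_left (h3 k) hc.le
    have h5 := mul_le_mul_of_nonneg_left (h1 k) (show 0 ≤ a * (k + 1) by positivity)
    nlinarith [h1 (k + 1)]

theorem noB' {e : ℕ → ℝ} {m : ℕ} {A : ℕ → Multiset ℝ} {c : ℕ → ℝ} {S cb η : ℝ} (hS : 1 ≤ S)
    (hA : ∀ n, ∀ a ∈ A n, 0 < a) (hs : ∀ n, (A n).sum ≤ S) (hc : ∀ n, 0 < c n ∧ c n ≤ cb)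
    (hl : ∀ k, Tendsto (fun n => E 1 (X ^ m * (C (c n) * PP (A n))) k) atTop (𝓝 (e k)))
    (hη : 0 < η) (hB : ∀ᶠ n in atTop, ((A n).filter (· ≤ η)).sum < 1 - η)
    {k0 : ℕ} (h0 : 0 < e k0) (hC : ∀ k, k0 ≤ k → 2 * e k ≤ e (k + 1)) : False := by
  have hη1 : η < 1 := by
    obtain ⟨n, hn⟩ := hB.exists
    have := msum_le (Multiset.zero_le ((A n).filter (· ≤ η)))
      (fun a ha => hA n a (Multiset.mem_of_mem_filter ha))
    simp at this
    linarith
  have hcb : 0 < cb := (hc 0).1.trans_le (hc 0).2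
  obtain ⟨M, hM⟩ : ∃ M : ℕ, M = ⌈S / η⌉₊ + m := ⟨_, rfl⟩
  have h1 : ∀ K : ℕ, |e K| ≤ cb * (1 + S * K) ^ M * (2 - η) ^ K := by
    intro K
    refine le_of_tendsto (hl K).abs (hB.mono (fun n hn => ?_))
    have p1 := fun a (ha : a ∈ (A n).filter (· ≤ η)) => hA n a (Multiset.mem_of_mem_filter ha)
    have p2 := fun a (ha : a ∈ (A n).filter (fun a => ¬ a ≤ η)) =>
      hA n a (Multiset.mem_of_mem_filter ha)
    have h2 := bnd (M := cb) (θ := 2 - η) (K := K) hS (by linarith) (fun k _ =>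
      (small_bnd (hc n).1 _ p1 k).trans (by
        have := (hc n).2
        have : 0 ≤ ((A n).filter (· ≤ η)).sum := Multiset.sum_nonneg (fun a ha => (p1 a ha).le)
        gcongr; linarith)) ((A n).filter (fun a => ¬ a ≤ η)) (fun a ha => ⟨p2 a ha,
        (Multiset.single_le_sum (fun b hb => (hA n b hb).le) a
          (Multiset.mem_of_mem_filter ha)).trans (hs n)⟩) m K le_rfl
    rw [← mul_assoc (PP _), ← PP_add, add_comm (Multiset.filter _ _), Multiset.filter_add_not,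
      mul_comm (PP _)] at h2
    refine h2.trans ?_
    have h3 : ((A n).filter (fun a => ¬ a ≤ η)).card ≤ ⌈S / η⌉₊ := by
      have h4 := Multiset.card_nsmul_le_sum (s := (A n).filter (fun a => ¬ a ≤ η)) (a := η)
        (fun a ha => (not_le.1 (Multiset.mem_filter.1 ha).2).le)
      have h5 := (h4.trans (msum_le (Multiset.filter_le _ _) (hA n))).trans (hs n)
      rw [nsmul_eq_mul, ← le_div_iff₀ hη] at h5
      exact_mod_cast h5.trans (Nat.le_ceil _)
    have : 0 ≤ 2 - η := by linarith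
    have : 0 ≤ S * K := by positivity
    gcongr
    · linarith
    · omega
  have h2 : ∀ K, k0 ≤ K → e k0 * 2 ^ K ≤ 2 ^ k0 * e K := by
    intro K hK
    induction K, hK using Nat.le_induction with
    | base => rw [mul_comm]
    | succ K hK ih =>
      have := mul_le_mul_of_nonneg_left (hC K hK) (show (0:ℝ) ≤ 2 ^ k0 by positivity)
      rw [pow_succ]; linarith
  have h3 := (tendsto_pow_const_mul_const_pow_of_abs_lt_one M (r := (2 - η) / 2)
    (by rw [abs_lt]; constructor <;> linarith)).const_mul (2 ^ k0 * (cb * (2 * S) ^ M))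
  rw [mul_zero] at h3
  obtain ⟨K, k1, k2⟩ := ((h3.eventually_lt_const h0).and (eventually_ge_atTop (k0 + 1))).exists
  have hK : (1:ℝ) ≤ K := by exact_mod_cast (by omega : 1 ≤ K)
  have h4 : (1 + S * K) ^ M ≤ (2 * S * K) ^ M := by gcongr; nlinarith
  have h5 : e K ≤ cb * (2 * S * K) ^ M * (2 - η) ^ K := by
    have : 0 ≤ 2 - η := by linarith
    refine ((le_abs_self _).trans (h1 K)).trans ?_
    gcongr
  have h6 := (h2 K (by omega)).trans (mul_le_mul_of_nonneg_left h5 (by positivity))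
  rw [← le_div_iff₀ (by positivity)] at h6
  refine k1.not_ge (h6.trans_eq ?_)
  rw [div_pow, mul_pow (2 * S)]
  ring

theorem PP_c0 (A : Multiset ℝ) : (PP A).coeff 0 = 1 := by
  simp [coeff_zero_eq_eval_zero, PP, eval_multiset_prod]

theorem fac_coeff (a : ℝ) (p : ℝ[X]) (k : ℕ) :
    ((1 + C a * X) * p).coeff (k + 1) = p.coeff (k + 1) + a * p.coeff k := by
  rw [add_mul, one_mul, mul_assoc, coeff_add, coeff_C_mul, coeff_X_mul]

theorem wco {δ : ℝ} (A : Multiset ℝ) (hA : ∀ a ∈ A, 0 ≤ a ∧ a ≤ δ) : ∀ k : ℕ,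
    0 ≤ (PP A).coeff k ∧ (k + 1) * (PP A).coeff (k + 1) ≤ A.sum * (PP A).coeff k ∧
      (A.sum - k * δ) * (PP A).coeff k ≤ (k + 1) * (PP A).coeff (k + 1) := by
  induction A using Multiset.induction_on with
  | empty =>
    intro k
    rcases k with _ | k <;> simp [PP, coeff_one]
  | cons a A ih =>
    obtain ⟨a1, a2⟩ := hA a (Multiset.mem_cons_self _ _)
    have h1 := ih (fun r hr => hA r (Multiset.mem_cons_of_mem hr))
    intro k
    rw [Multiset.sum_cons]
    rcases k with _ | k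
    · obtain ⟨-, i2, i3⟩ := h1 0
      rw [PP_c0, PP_cons, fac_coeff, PP_c0] at *
      simp at i2 i3 ⊢
      constructor <;> linarith
    · obtain ⟨i1, i2, i3⟩ := h1 k
      obtain ⟨j1, j2, j3⟩ := h1 (k + 1)
      rw [PP_cons, fac_coeff, fac_coeff]
      push_cast at *
      refine ⟨by positivity, ?_, ?_⟩
      · nlinarith [mul_le_mul_of_nonneg_left i2 a1, mul_nonneg (mul_nonneg a1 a1) i1]
      · nlinarith [mul_le_mul_of_nonneg_left i3 a1,
          mul_nonneg (mul_nonneg a1 (sub_nonneg.2 a2)) i1]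

theorem wlim {A : ℕ → Multiset ℝ} {δ : ℕ → ℝ} {s : ℝ} (hA : ∀ n, ∀ a ∈ A n, 0 ≤ a ∧ a ≤ δ n)
    (hδ : Tendsto δ atTop (𝓝 0)) (hs : Tendsto (fun n => (A n).sum) atTop (𝓝 s)) (k : ℕ) :
    Tendsto (fun n => (PP (A n)).coeff k) atTop (𝓝 (s ^ k / k.factorial)) := by
  induction k with
  | zero => simp [PP_c0]
  | succ k ih =>
    have e : s ^ (k + 1) / (k + 1).factorial = s * (s ^ k / k.factorial) / (k + 1) := by
      rw [Nat.factorial_succ]; push_cast; field_simp; ring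
    have h1 := ((hs.sub (hδ.const_mul (k:ℝ))).mul ih).div_const ((k:ℝ) + 1)
    rw [mul_zero, sub_zero] at h1
    rw [e]
    refine tendsto_of_tendsto_of_tendsto_of_le_of_le h1 ((hs.mul ih).div_const ((k:ℝ) + 1))
      (fun n => ?_) (fun n => ?_)
    · rw [div_le_iff₀' (by positivity)]; exact (wco _ (hA n) k).2.2
    · rw [le_div_iff₀' (by positivity)]; exact (wco _ (hA n) k).2.1

theorem neg_PP {c : ℝ} (hc : c ≠ 0) (A : Multiset ℝ) (hA : ∀ a ∈ A, 0 ≤ a) : Neg (C c * PP A) := by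
  induction A using Multiset.induction_on with
  | empty => intro z hz; simp [PP, hc] at hz
  | cons a A ih =>
    intro z hz
    rw [PP_cons, mul_left_comm, map_mul] at hz
    rcases mul_eq_zero.1 hz with h | h
    · have ha := hA a (Multiset.mem_cons_self _ _)
      have h1 := congrArg Complex.re h
      have h2 := congrArg Complex.im h
      simp at h1 h2
      have ha0 : a ≠ 0 := by rintro rfl; simp at h1
      exact ⟨h2.resolve_left ha0, by by_contra h3; nlinarith [mul_nonneg ha (not_lt.1 h3)]⟩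
    · exact ih (fun r hr => hA r (Multiset.mem_cons_of_mem hr)) z h

theorem caseA {β b : ℕ → ℝ} {m : ℕ} {A : ℕ → Multiset ℝ} {c : ℕ → ℝ} {S : ℝ}
    (hA : ∀ n, ∀ a ∈ A n, 0 < a) (hs : ∀ n, (A n).sum ≤ S) (hc : ∀ n, 0 < c n)
    (hl : ∀ k, Tendsto (fun n => (X ^ m * (C (c n) * PP (A n))).coeff k) atTop (𝓝 (β k)))
    (hb : ∀ n k, (X ^ m * (C (c n) * PP (A n))).coeff k ≤ b k)
    (H : ∀ η, 0 < η → ∃ᶠ n in atTop, 1 - η ≤ ((A n).filter (· ≤ η)).sum) :
    ∃ (ρ : ℕ → ℝ) (r : ℕ → ℝ[X]), (∀ n, Neg (r n)) ∧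
      (∀ k, Tendsto (fun n => (X ^ m * r n).coeff k) atTop (𝓝 (ρ k))) ∧ (∀ k, 0 ≤ ρ k) ∧
      ∀ n, β n = ∑ p ∈ antidiagonal n, ρ p.1 * (1 / p.2.factorial) := by
  obtain ⟨φ, hφ, h1⟩ := extraction_forall_of_frequently
    (fun N : ℕ => H (1 / ((N:ℝ) + 1)) (by positivity))
  obtain ⟨Sm, hSm⟩ : ∃ Sm : ℕ → Multiset ℝ,
    ∀ N, Sm N = (A (φ N)).filter (· ≤ 1 / ((N:ℝ) + 1)) := ⟨_, fun _ => rfl⟩
  obtain ⟨Bg, hBg⟩ : ∃ Bg : ℕ → Multiset ℝ,
    ∀ N, Bg N = (A (φ N)).filter (fun a => ¬ a ≤ 1 / ((N:ℝ) + 1)) := ⟨_, fun _ => rfl⟩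
  have p1 : ∀ N, ∀ a ∈ Sm N, 0 ≤ a ∧ a ≤ 1 / ((N:ℝ) + 1) := fun N a ha => by
    rw [hSm, Multiset.mem_filter] at ha; exact ⟨(hA _ a ha.1).le, ha.2⟩
  have p2 : ∀ N, ∀ a ∈ Bg N, 0 ≤ a ∧ a ≤ S := fun N a ha => by
    rw [hBg, Multiset.mem_filter] at ha
    exact ⟨(hA _ a ha.1).le, (Multiset.single_le_sum (fun b hb => (hA _ b hb).le) a ha.1).trans (hs _)⟩
  obtain ⟨G, hG⟩ : ∃ G : ℕ → ℝ[X], ∀ N, G N = X ^ m * (C (c (φ N)) * PP (Bg N)) :=
    ⟨_, fun _ => rfl⟩
  have e1 : ∀ N, X ^ m * (C (c (φ N)) * PP (A (φ N))) = G N * PP (Sm N) := fun N => by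
    rw [hG, mul_assoc, mul_assoc, ← PP_add, add_comm, hSm, hBg, Multiset.filter_add_not]
  have g0 : ∀ N k, 0 ≤ (G N).coeff k := fun N k => by
    rw [hG, coeff_X_pow_mul']
    split_ifs
    · rw [coeff_C_mul]; exact mul_nonneg (hc _).le (wco _ (p2 N) _).1
    · exact le_rfl
  have g1 : ∀ N k, (G N).coeff k ≤ b k := fun N k => by
    refine le_trans ?_ (hb (φ N) k)
    rw [e1, coeff_mul]
    have := single_le_sum (f := fun p : ℕ × ℕ => (G N).coeff p.1 * (PP (Sm N)).coeff p.2)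
      (s := antidiagonal k) (fun p _ => mul_nonneg (g0 N _) (wco _ (p1 N) _).1) (a := (k, 0)) (by simp)
    simpa [PP_c0] using this
  obtain ⟨⟨s, g⟩, -, ψ, hψ, h2⟩ := ((isCompact_Icc (a := (0:ℝ)) (b := S)).prod
    (isCompact_univ_pi (fun k : ℕ => isCompact_Icc (a := (0:ℝ)) (b := b k)))).tendsto_subseq
    (x := fun N => ((Sm N).sum, fun k => (G N).coeff k)) (fun N => ⟨⟨Multiset.sum_nonneg
      (fun a ha => (p1 N a ha).1), by
        rw [hSm]; exact (msum_le (Multiset.filter_le _ _) (hA _)).trans (hs _)⟩,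
      fun k _ => ⟨g0 N k, g1 N k⟩⟩)
  have l1 : Tendsto (fun N => (Sm (ψ N)).sum) atTop (𝓝 s) := (continuous_fst.tendsto _).comp h2
  have l2 : ∀ k, Tendsto (fun N => (G (ψ N)).coeff k) atTop (𝓝 (g k)) :=
    fun k => tendsto_pi_nhds.1 ((continuous_snd.tendsto _).comp h2) k
  have l3 : Tendsto (fun N => 1 / ((ψ N : ℝ) + 1)) atTop (𝓝 0) :=
    (tendsto_one_div_add_atTop_nhds_zero_nat (𝕜 := ℝ)).comp hψ.tendsto_atTop
  have hs1 : 0 ≤ s - 1 := by
    have := le_of_tendsto_of_tendsto' (l3.const_sub 1) l1 (fun N => by rw [hSm]; exact h1 _)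
    linarith
  have l4 := wlim (A := fun N => Sm (ψ N)) (fun N => p1 (ψ N)) l3 l1
  have l5 := wlim (A := fun N => Multiset.replicate (N + 1) ((s - 1) * (1 / ((N:ℝ) + 1))))
    (δ := fun N => (s - 1) * (1 / ((N:ℝ) + 1))) (s := s - 1) (fun N a ha => by
      rw [Multiset.eq_of_mem_replicate ha]; exact ⟨by positivity, le_rfl⟩)
    (by simpa using (tendsto_one_div_add_atTop_nhds_zero_nat (𝕜 := ℝ)).const_mul (s - 1))
    (tendsto_const_nhds.congr (fun N => by
      rw [Multiset.sum_replicate, nsmul_eq_mul]; push_cast; field_simp))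
  refine ⟨fun k => ∑ p ∈ antidiagonal k, g p.1 * ((s - 1) ^ p.2 / p.2.factorial),
    fun N => C (c (φ (ψ N))) * PP (Bg (ψ N) +
      Multiset.replicate (N + 1) ((s - 1) * (1 / ((N:ℝ) + 1)))),
    fun N => neg_PP (hc _).ne' _ (fun a ha => ?_), fun k => ?_, fun k => sum_nonneg (fun p _ =>
      mul_nonneg (ge_of_tendsto' (l2 _) (fun N => g0 _ _)) (by positivity)), fun n => ?_⟩
  · rcases Multiset.mem_add.1 ha with h | h
    · exact (p2 _ a h).1
    · rw [Multiset.eq_of_mem_replicate h]; positivity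
  · simp only [PP_add, ← mul_assoc]
    simp only [mul_assoc (X ^ m), ← hG, coeff_mul]
    exact tendsto_finsetSum _ (fun p _ => (l2 _).mul (l5 _))
  · have h3 : ∀ k, β k = ∑ p ∈ antidiagonal k, g p.1 * (s ^ p.2 / p.2.factorial) := by
      intro k
      refine tendsto_nhds_unique (((hl k).comp hφ.tendsto_atTop).comp hψ.tendsto_atTop) ?_
      simp only [Function.comp_def, e1]
      simp only [coeff_mul]
      exact tendsto_finsetSum _ (fun p _ => (l2 _).mul (l4 _))
    have h4 : ∀ (t : ℝ) (j : ℕ), t ^ j / j.factorial =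
        PowerSeries.coeff j (PowerSeries.rescale t (PowerSeries.exp ℝ)) := by
      intro t j; simp [PowerSeries.coeff_rescale, div_eq_mul_inv]
    have h5 : ∀ j : ℕ, (1:ℝ) / j.factorial =
        PowerSeries.coeff j (PowerSeries.rescale 1 (PowerSeries.exp ℝ)) := by
      intro j; rw [← h4, one_pow]
    have h6 : ∀ j, g j = PowerSeries.coeff j (PowerSeries.mk g) := by simp
    rw [h3]
    simp only [h4, h5]
    conv_lhs => simp only [h6]
    conv_rhs => simp only [h6]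
    simp only [← PowerSeries.coeff_mul]
    rw [mul_assoc, PowerSeries.exp_mul_exp_eq_exp_add, sub_add_cancel]

end Pool.Agent.H88.Herm
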