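import Pool.Agent.H88.Herm4

set_option autoImplicit false

namespace Pool.Agent.H88.Herm

open Filter Topology Finset Polynomial MSeq

noncomputable def gg (α : ℝ) (n : ℕ) : ℝ[X] := (AA α ^ n) 1

theorem gg_succ (α : ℝ) (n : ℕ) : gg α (n + 1) = AA α (gg α n) := by
  rw [gg, pow_succ', Module.End.mul_apply, gg]

theorem D_AA (α : ℝ) (q : ℝ[X]) (n : ℕ) : derivative ((AA α ^ (n + 1)) q) =
    (AA α ^ (n + 1)) (derivative q) + ((n:ℝ) + 1) • (AA α ^ n) q := by
  have h : ∀ q, derivative (AA α q) = AA α (derivative q) + q := by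
    intro q
    simp only [AA_app, derivative_sub, derivative_mul, derivative_X, derivative_smul, one_mul]
    abel
  induction n with
  | zero => simp [h]
  | succ n ih =>
    rw [pow_succ' _ (n + 1), Module.End.mul_apply, h, ih, map_add, map_smul, Module.End.mul_apply,
      ← Module.End.mul_apply (AA α) (AA α ^ n), ← pow_succ', add_assoc]
    push_cast
    rw [add_smul ((n:ℝ) + 1) 1, one_smul]

theorem D_gg (α : ℝ) (n j : ℕ) :
    derivative^[j] (gg α n) = (n.descFactorial j : ℝ) • gg α (n - j) := by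
  induction j with
  | zero => simp
  | succ j ih =>
    rw [Function.iterate_succ_apply', ih, derivative_smul, Nat.descFactorial_succ]
    rcases h : n - j with _ | l
    · simp [gg]
    · rw [gg, D_AA, show n - (j + 1) = l by omega]
      simp [gg, smul_smul, mul_comm]

theorem gg_coeff (α : ℝ) (n : ℕ) : (gg α n).coeff n = 1 ∧ ∀ k, n < k → (gg α n).coeff k = 0 := by
  induction n with
  | zero => exact ⟨by simp [gg], fun k hk => by simp [gg, coeff_one, hk.ne']⟩
  | succ n ih =>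
    refine ⟨?_, fun k hk => ?_⟩
    · simp [gg_succ, AA_app, coeff_X_mul, coeff_derivative, ih.1, ih.2 (n + 1 + 1) (by omega)]
    · obtain ⟨l, rfl⟩ : ∃ l, k = l + 1 := ⟨k - 1, by omega⟩
      simp [gg_succ, AA_app, coeff_X_mul, coeff_derivative, ih.2 l (by omega),
        ih.2 (l + 1 + 1) (by omega)]

theorem rep {α : ℝ} {T : ℝ[X] →ₗ[ℝ] ℝ[X]} {γ ρ : ℕ → ℝ} (hT : ∀ n, T (gg α n) = γ n • gg α n)
    (hγ : ∀ n, γ n = ∑ j ∈ range (n + 1), (n.descFactorial j : ℝ) * ρ j) {N : ℕ} {p : ℝ[X]}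
    (hp : p.natDegree < N) : T p = ∑ j ∈ range N, ρ j • (AA α ^ j) (derivative^[j] p) := by
  have H : ∀ M ≤ N, ∀ p : ℝ[X], (∀ k, M ≤ k → p.coeff k = 0) →
      T p = ∑ j ∈ range N, ρ j • (AA α ^ j) (derivative^[j] p) := by
    intro M
    induction M with
    | zero =>
      intro _ p hp
      have : p = 0 := by ext k; simpa using hp k (by omega)
      simp [this]
    | succ M ih =>
      intro hM p hp
      have h1 := ih (by omega) (p - p.coeff M • gg α M) (fun k hk => by
        rcases hk.lt_or_eq with h | rfl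
        · simp [hp k h, (gg_coeff α M).2 k h]
        · simp [(gg_coeff α M).1])
      have h2 : T (gg α M) = ∑ j ∈ range N, ρ j • (AA α ^ j) (derivative^[j] (gg α M)) := by
        rw [hT, hγ, sum_smul]
        refine (sum_congr rfl (fun j hj => ?_)).trans (sum_subset (range_subset_range.2 hM)
          (fun j _ hj => ?_))
        · rw [D_gg, map_smul, smul_smul, mul_comm, gg, gg, ← Module.End.mul_apply, ← pow_add,
            Nat.add_sub_cancel' (Nat.lt_succ_iff.1 (mem_range.1 hj))]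
        · rw [D_gg, Nat.descFactorial_of_lt (by simpa using hj)]; simp
      simp only [map_sub, map_smul, iterate_derivative_sub, iterate_derivative_smul, smul_sub,
        sum_sub_distrib, smul_comm (ρ _) (p.coeff M), ← smul_sum] at h1
      rw [← h2] at h1
      exact sub_left_injective h1
  exact H N le_rfl p (fun k hk => coeff_eq_zero_of_natDegree_lt (hp.trans_le hk))

def Rep (α : ℝ) (d : ℕ → ℝ) (Q : ℕ → ℝ[X]) : Prop := ∀ N n : ℕ, n < N →
  ∑ j ∈ range N, (d j / j.factorial) • (AA α ^ j) (derivative^[j] (X ^ n : ℝ[X])) =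
    ∑ k ∈ range N, Q k * derivative^[k] (X ^ n : ℝ[X])

theorem Rep.zero {α : ℝ} {d : ℕ → ℝ} {Q : ℕ → ℝ[X]} (h : Rep α d Q) : Q 0 = C (d 0) := by
  have := h 1 0 (by omega)
  simp at this
  rw [← this, smul_eq_C_mul, mul_one]

theorem Rep.succ {α : ℝ} {d : ℕ → ℝ} {Q : ℕ → ℝ[X]} (h : Rep α d Q) :
    Rep α (fun j => d (j + 1)) (fun k => derivative (Q (k + 1))) := by
  intro N n hn
  have h1 := congrArg derivative (h (N + 1) (n + 1) (by omega))
  have h2 := h (N + 1) n (by omega)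
  have e : derivative (X ^ (n + 1) : ℝ[X]) = ((n:ℝ) + 1) • X ^ n := by
    rw [derivative_X_pow_succ, smul_eq_C_mul]
  have e1 : ∀ k, derivative^[k + 1] (X ^ (n + 1) : ℝ[X]) =
      ((n:ℝ) + 1) • derivative^[k] (X ^ n : ℝ[X]) := fun k => by
    rw [Function.iterate_succ_apply, e, iterate_derivative_smul]
  have e2 : ∀ k, derivative (derivative^[k] (X ^ (n + 1) : ℝ[X])) =
      ((n:ℝ) + 1) • derivative^[k] (X ^ n : ℝ[X]) := fun k => by
    rw [← e1, Function.iterate_succ_apply']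
  have e3 : ∀ j : ℕ, d (j + 1) / ((j + 1).factorial : ℝ) * ((j:ℝ) + 1) = d (j + 1) / j.factorial :=
    fun j => by rw [Nat.factorial_succ]; push_cast; field_simp
  rw [sum_range_succ', sum_range_succ'] at h1 h2
  simp only [map_add, map_sum, derivative_smul, D_AA, derivative_mul, e2, pow_zero,
    Module.End.one_apply, h.zero, derivative_C, zero_mul, zero_add, smul_add, sum_add_distrib,
    smul_smul, e3] at h1 h2
  simp only [e1, map_smul, mul_smul_comm, smul_comm _ ((n:ℝ) + 1), ← smul_sum] at h1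
  refine smul_right_injective _ (show (n:ℝ) + 1 ≠ 0 by positivity) ?_
  have h3 := congrArg (((n:ℝ) + 1) • ·) h2
  simp only [smul_add, smul_smul, mul_comm ((n:ℝ) + 1)] at h3
  linear_combination (exp := 1) h1 - h3

theorem Rep.two {α : ℝ} {d : ℕ → ℝ} {Q : ℕ → ℝ[X]} (h : Rep α d Q) :
    Q 2 = C (d 2 / 2) * X ^ 2 - C (α * (d 2 / 2 + d 1)) := by
  have h1 := h 2 1 (by omega)
  have h2 := h 3 2 (by omega)
  simp [sum_range_succ, h.zero, AA_app, pow_succ, smul_eq_C_mul] at h1 h2
  refine mul_left_cancel₀ (a := (2:ℝ[X])) two_ne_zero ?_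
  simp only [C_mul, C_add]
  rw [← h1] at h2
  linear_combination (exp := 1) -h2

theorem tur0 {f : ℝ[X]} (h : RealRooted f) : f.coeff 0 * (2 * f.coeff 2) ≤ f.coeff 1 ^ 2 ∧
    (f.coeff 0 ≠ 0 → f.coeff 1 = 0 → f.coeff 2 = 0 → ∀ j, 0 < j → f.coeff j = 0) := by
  have hs := splits_of_rr h
  by_cases h0 : f.eval 0 = 0
  · rw [coeff_zero_eq_eval_zero, h0]; simp [sq_nonneg]
  have h1 := d1 hs h0
  have h2 := d2 hs h0
  simp only [← coeff_zero_eq_eval_zero, coeff_derivative] at h0 h1 h2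
  norm_num at h1 h2
  refine ⟨?_, fun _ a1 a2 j hj => ?_⟩
  · rw [mul_comm 2, h1, h2]
    nlinarith [mul_nonneg (sq_nonneg (f.coeff 0)) (Ps_nonneg f 0)]
  · rw [a1] at h1
    have h3 := (mul_eq_zero.1 h1.symm).resolve_left h0
    rw [a2, zero_mul, h3] at h2
    have h4 : Ps f 0 = 0 := by simpa [h0] using h2
    have h5 : f.roots = 0 := by
      refine Multiset.eq_zero_of_forall_notMem (fun z hz => ?_)
      have h8 := Multiset.single_le_sum (s := f.roots.map fun z => (1 / (0 - z)) ^ 2) (fun y hy => by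
          obtain ⟨z, -, rfl⟩ := Multiset.mem_map.1 hy
          positivity) _ (Multiset.mem_map_of_mem _ hz)
      rw [Ps] at h4
      rw [h4] at h8
      have h9 : z = 0 := by simpa using le_antisymm h8 (sq_nonneg _)
      exact h0 (by rw [coeff_zero_eq_eval_zero]; exact isRoot_of_mem_roots (h9 ▸ hz))
    rw [hs.eq_prod_roots, h5]
    simp [coeff_C, hj.ne']

theorem Rep.cond {α : ℝ} (hα : 0 < α) {d : ℕ → ℝ} {Q : ℕ → ℝ[X]} (h : Rep α d Q)
    (hQ : ∀ k, RealRooted (Q k)) (s : ℕ) : 0 ≤ d (s + 2) * (d (s + 2) + 2 * d (s + 1)) := by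
  induction s generalizing d Q with
  | zero =>
    have := (tur0 (hQ 2)).1
    rw [h.two] at this
    simp [coeff_C, coeff_X_pow, -map_mul, -map_add] at this
    nlinarith
  | succ s ih => exact ih h.succ (fun k => rr_deriv (hQ _))

theorem ms_shift {γ : ℕ → ℝ} (h : IsMultSeq γ) (k : ℕ) : IsMultSeq (fun j => γ (j + k)) := by
  induction k with
  | zero => exact h
  | succ k ih => have := ih.shift; simpa only [add_assoc, add_comm 1 k] using this

theorem rr_pow (j : ℕ) : RealRooted ((X + C 1) ^ j) :=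
  rr_of_splits ((Splits.X_add_C 1).pow j)

theorem ms_two {γ : ℕ → ℝ} (h : IsMultSeq γ) (k : ℕ) : 0 ≤ γ k * γ (k + 2) := by
  have h1 : RealRooted (1 - X ^ 2) := by
    have : (1 - X ^ 2 : ℝ[X]) = -((X + C 1) * (X - C 1)) := by simp; ring
    rw [this]
    exact rr_of_splits ((Splits.X_add_C 1).mul (Splits.X_sub_C 1)).neg
  have := (tur0 (ms_shift h k _ h1)).1
  simp [coeff_diag, coeff_one, coeff_X_pow, add_comm 2 k] at this
  linarith

theorem ms_gap {γ : ℕ → ℝ} (h : IsMultSeq γ) {k : ℕ} (h0 : γ k ≠ 0) (h1 : γ (k + 1) = 0) :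
    ∀ j, k < j → γ j = 0 := by
  have h2 : γ (k + 2) = 0 := by
    have := (tur0 (ms_shift h k _ (rr_pow 2))).1
    simp [coeff_diag, coeff_X_add_C_pow, add_comm 2 k, add_comm 1 k, h1, -map_one] at this
    have h3 := ms_two h k
    exact (mul_eq_zero.1 (le_antisymm (by linarith) h3)).resolve_left h0
  intro j hj
  obtain ⟨i, rfl⟩ := Nat.exists_eq_add_of_lt hj
  have := (tur0 (ms_shift h k _ (rr_pow (i + 1)))).2
  simp only [coeff_diag, coeff_X_add_C_pow, add_comm 2 k, add_comm 1 k, h1, h2, zero_mul] at this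
  have := this (by simpa using h0) trivial trivial (i + 1) (by omega)
  simpa [show i + 1 + k = k + i + 1 by omega] using this

theorem rr_comp {p : ℝ[X]} (hp : RealRooted p) (s : ℝ) {t : ℝ} (ht : t ≠ 0) :
    RealRooted (s • p.comp (C t * X)) := by
  rcases hp with rfl | hp
  · left; simp
  by_cases hs : s = 0
  · left; simp [hs]
  right
  intro z hz
  rw [map_smul, aeval_comp] at hz
  have := hp _ ((smul_eq_zero.1 hz).resolve_left hs)
  simpa [ht] using this

theorem ms_sign {γ : ℕ → ℝ} (h : IsMultSeq γ) (s : ℝ) {t : ℝ} (ht : t ≠ 0) :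
    IsMultSeq (fun k => s * t ^ k * γ k) := by
  refine IsMultSeq.mul (fun p hp => ?_) h
  convert rr_comp hp s ht using 1
  ext k
  rw [coeff_diag, coeff_smul, comp_C_mul_X_coeff, smul_eq_mul]; ring

theorem signs {γ : ℕ → ℝ} (h : IsMultSeq γ) {m : ℕ} (hm : γ m ≠ 0) (hm' : ∀ i < m, γ i = 0) :
    ∃ s t : ℝ, s * s = 1 ∧ (t = 1 ∨ t = -1) ∧ ∀ k, 0 ≤ s * t ^ k * γ k := by
  obtain ⟨t, ht, ht1⟩ : ∃ t : ℝ, (t = 1 ∨ t = -1) ∧ 0 ≤ t * (γ m * γ (m + 1)) := by
    rcases le_total 0 (γ m * γ (m + 1)) with h | h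
    · exact ⟨1, Or.inl rfl, by linarith⟩
    · exact ⟨-1, Or.inr rfl, by linarith⟩
  have ht0 : t ≠ 0 := by rcases ht with rfl | rfl <;> norm_num
  obtain ⟨s, hs, hs1⟩ : ∃ s : ℝ, s * s = 1 ∧ 0 < s * t ^ m * γ m := by
    rcases lt_or_gt_of_ne (mul_ne_zero (pow_ne_zero m ht0) hm) with h | h
    · exact ⟨-1, by norm_num, by linarith⟩
    · exact ⟨1, by norm_num, by linarith⟩
  refine ⟨s, t, hs, ht, ?_⟩
  have hβ := ms_sign h s ht0
  obtain ⟨β, hβ'⟩ : ∃ β : ℕ → ℝ, β = fun k => s * t ^ k * γ k := ⟨_, rfl⟩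
  rw [← hβ'] at hβ
  have b0 : 0 < β m := by rw [hβ']; exact hs1
  have b1 : 0 ≤ β (m + 1) := by
    refine nonneg_of_mul_nonneg_right (a := β m) ?_ b0
    have : β m * β (m + 1) = s * s * (t ^ m) ^ 2 * (t * (γ m * γ (m + 1))) := by rw [hβ']; ring
    rw [this, hs]; positivity
  have H : ∀ j, m ≤ j → 0 ≤ β j ∧ 0 ≤ β (j + 1) ∧ (β j = 0 → ∀ i, j < i → β i = 0) := by
    intro j hj
    induction j, hj using Nat.le_induction with
    | base => exact ⟨b0.le, b1, fun h => absurd h b0.ne'⟩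
    | succ j hj ih =>
      obtain ⟨i1, i2, i3⟩ := ih
      by_cases h0 : β j = 0
      · exact ⟨i2, (i3 h0 _ (by omega)).ge, fun _ i hi => i3 h0 i (by omega)⟩
      · exact ⟨i2, nonneg_of_mul_nonneg_right (ms_two hβ j) (i1.lt_of_ne' h0),
          fun h1 i hi => ms_gap hβ h0 h1 i (by omega)⟩
  intro k
  rcases lt_or_ge k m with hk | hk
  · simp [hm' k hk]
  · have := (H k hk).1; rwa [hβ'] at this

theorem facP {P : ℝ[X]} (h : RealRooted P) (h0 : ∀ k, 0 ≤ P.coeff k) {m : ℕ}
    (hm : ∀ i < m, P.coeff i = 0) (hm' : 0 < P.coeff m) : ∃ A : Multiset ℝ, (∀ a ∈ A, 0 < a) ∧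
      P = X ^ m * (C (P.coeff m) * PP A) ∧ A.sum * P.coeff m = P.coeff (m + 1) := by
  obtain ⟨q, rfl⟩ := X_pow_dvd_iff.2 hm
  have e : ∀ k, (X ^ m * q).coeff (m + k) = q.coeff k := fun k => by
    rw [add_comm, coeff_X_pow_mul]
  have e0 : (X ^ m * q).coeff m = q.coeff 0 := e 0
  rw [e0] at hm' ⊢
  rw [e]
  have h1 : RealRooted q := Or.inr (fun z hz => h.resolve_left (fun h => by
    rw [← e0, h] at hm'; simp at hm') z (by simp [hz]))
  have h2 := neg_of h1 (fun k => e k ▸ h0 _) hm'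
  have h3 : ∀ z ∈ q.roots, z < 0 := fun z hz => by
    have := (h2 (algebraMap ℝ ℂ z) (by
      rw [aeval_algebraMap_apply, coe_aeval_eq_eval, isRoot_of_mem_roots hz, map_zero])).2
    simpa using this
  have h4 : ∀ s : Multiset ℝ, (∀ z ∈ s, z < 0) → ∃ c,
      (s.map (X - C ·)).prod = C c * PP (s.map fun z => -1 / z) := by
    intro s
    induction s using Multiset.induction_on with
    | empty => intro _; exact ⟨1, by simp [PP]⟩
    | cons a s ih =>
      intro hs
      obtain ⟨c, hc⟩ := ih (fun r hr => hs r (Multiset.mem_cons_of_mem hr))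
      have ha := (hs a (Multiset.mem_cons_self _ _)).ne
      refine ⟨-a * c, ?_⟩
      have : (X - C a : ℝ[X]) = C (-a) * (1 + C (-1 / a) * X) := by
        rw [mul_add, ← mul_assoc, ← C_mul, show -a * (-1 / a) = 1 by field_simp]
        simp; ring
      rw [Multiset.map_cons, Multiset.prod_cons, Multiset.map_cons, PP_cons, hc, this, C_mul]
      ring
  obtain ⟨c, hc⟩ := h4 _ h3
  obtain ⟨A, hA⟩ : ∃ A, A = q.roots.map fun z => -1 / z := ⟨_, rfl⟩
  have h5 := (splits_of_rr h1).eq_prod_roots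
  rw [hc, ← mul_assoc, ← C_mul, ← hA] at h5
  have h6 : q.coeff 0 = q.leadingCoeff * c := by
    conv_lhs => rw [h5, coeff_C_mul, PP_c0, mul_one]
  rw [← h6] at h5
  have h7 : ∀ a ∈ A, 0 < a := fun a ha => by
    rw [hA] at ha
    obtain ⟨z, hz, rfl⟩ := Multiset.mem_map.1 ha
    exact div_pos_of_neg_of_neg (by norm_num) (h3 z hz)
  refine ⟨A, h7, by rw [← h5], ?_⟩
  obtain ⟨-, i1, i2⟩ := wco (δ := A.sum) A (fun a ha => ⟨(h7 a ha).le,
    Multiset.single_le_sum (fun b hb => (h7 b hb).le) a ha⟩) 0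
  conv_rhs => rw [h5, coeff_C_mul]
  simp [PP_c0] at i1 i2
  rw [le_antisymm i1 i2, mul_comm]

def Ls (t : ℝ) (u : ℕ → ℝ) : ℕ → ℝ := fun i => u i + t * u (i + 1)

theorem E_lim (t : ℝ) {P : ℕ → ℝ[X]} {β : ℕ → ℝ}
    (h : ∀ k, Tendsto (fun n => (P n).coeff k) atTop (𝓝 (β k / k.factorial))) (k : ℕ) :
    Tendsto (fun n => E t (P n) k) atTop (𝓝 ((Ls t)^[k] β 0)) := by
  have H : ∀ i, Tendsto (fun n => ((LL t ^ k) (P n)).coeff i) atTop
      (𝓝 ((Ls t)^[k] β i / i.factorial)) := by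
    induction k with
    | zero => simpa using h
    | succ k ih =>
      intro i
      simp only [pow_succ', Module.End.mul_apply, LL_app, coeff_add, coeff_smul, coeff_derivative,
        smul_eq_mul, Function.iterate_succ_apply', Ls]
      convert (ih i).add (((ih (i + 1)).mul_const ((i:ℝ) + 1)).const_mul t) using 2
      rw [Nat.factorial_succ]; push_cast; field_simp
  simpa [E, ← coeff_zero_eq_eval_zero] using H 0

theorem main0 {β : ℕ → ℝ} (h : IsMultSeq β) (h0 : ∀ k, 0 ≤ β k) {m : ℕ} (hm : 0 < β m)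
    (hm' : ∀ i < m, β i = 0) {t : ℝ} (ht : t = 1 ∨ t = -1)
    (hC : ∀ k, 1 ≤ k → 0 ≤ (Ls t)^[k + 1] β 0 * ((Ls t)^[k + 1] β 0 - 2 * (Ls t)^[k] β 0))
    (hz : ∃ k, (Ls t)^[k] β 0 ≠ 0) :
    ∃ (ρ : ℕ → ℝ) (r : ℕ → ℝ[X]), (∀ n, Neg (r n)) ∧
      (∀ k, Tendsto (fun n => (X ^ m * r n).coeff k) atTop (𝓝 (ρ k))) ∧ (∀ k, 0 ≤ ρ k) ∧
      ∀ n, β n / n.factorial = ∑ p ∈ antidiagonal n, ρ p.1 * (1 / p.2.factorial) := by
  have c0 : ∀ n k, 0 ≤ (EE n).coeff k := fun n k => by rw [EE_coeff]; positivity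
  have c1 : ∀ n, 0 < (EE (n + m)).coeff m := fun n => by
    rw [EE_coeff]
    exact div_pos (by exact_mod_cast Nat.choose_pos (by omega)) (by positivity)
  have c2 : ∀ n k, (diag β (EE n)).coeff k ≤ β k := fun n k => by
    rw [coeff_diag]
    refine mul_le_of_le_one_right (h0 k) (((le_abs_self _).trans (EE_le n k)).trans ?_)
    rw [div_le_one (by positivity)]
    exact_mod_cast k.factorial_pos
  choose A hA e1 e2 using fun n => facP (h _ (EE_rr (n + m)))
    (fun k => by rw [coeff_diag]; exact mul_nonneg (h0 k) (c0 _ _)) (m := m)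
    (fun i hi => by rw [coeff_diag, hm' i hi, zero_mul]) (by rw [coeff_diag]; exact mul_pos hm (c1 n))
  obtain ⟨c, hc⟩ : ∃ c : ℕ → ℝ, ∀ n, c n = (diag β (EE (n + m))).coeff m := ⟨_, fun _ => rfl⟩
  simp only [← hc] at e1 e2
  have hc1 : ∀ n, 0 < c n ∧ c n ≤ β m := fun n => by
    rw [hc]; exact ⟨by rw [coeff_diag]; exact mul_pos hm (c1 n), c2 _ _⟩
  have hs : ∀ n, (A n).sum ≤ β (m + 1) / β m + 1 := fun n => by
    refine le_of_mul_le_mul_right ?_ (hc1 n).1
    rw [e2, hc, coeff_diag, coeff_diag]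
    have h1 : (EE (n + m)).coeff (m + 1) ≤ (EE (n + m)).coeff m := by
      rw [EE_coeff, EE_coeff, pow_succ, ← div_div]
      refine div_le_div_of_nonneg_right ?_ (by positivity) |>.trans_eq' (div_right_comm _ _ _)
      rw [div_le_iff₀ (by positivity)]
      have := Nat.choose_succ_right_eq (n + m + 1) m
      have h2 : (n + m + 1).choose (m + 1) ≤ (n + m + 1).choose m * (n + m + 1) :=
        (Nat.le_mul_of_pos_right _ (Nat.succ_pos m)).trans
          (this.le.trans (Nat.mul_le_mul_left _ (Nat.sub_le _ _)))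
      exact_mod_cast h2
    have h2 : (β (m + 1) / β m + 1) * (β m * (EE (n + m)).coeff m) =
        β (m + 1) * (EE (n + m)).coeff m + β m * (EE (n + m)).coeff m := by field_simp
    rw [h2]
    nlinarith [mul_le_mul_of_nonneg_left h1 (h0 (m + 1)), mul_pos hm (c1 n)]
  have hl : ∀ k, Tendsto (fun n => (X ^ m * (C (c n) * PP (A n))).coeff k) atTop
      (𝓝 (β k / k.factorial)) := fun k => by
    simp only [← e1, coeff_diag]
    rw [div_eq_mul_one_div]
    exact ((tendsto_add_atTop_iff_nat m).2 (EE_lim k)).const_mul _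
  have hS : 1 ≤ β (m + 1) / β m + 1 := by have := div_nonneg (h0 (m + 1)) hm.le; linarith
  refine caseA (b := β) hA hs (fun n => (hc1 n).1) hl (fun n k => by rw [← e1]; exact c2 _ _)
    (fun η hη => ?_)
  by_contra H
  have hB := (not_frequently.1 H).mono (fun n hn => not_le.1 hn)
  rcases ht with rfl | rfl
  · have p1 : ∀ k i, β (i + k) ≤ (Ls 1)^[k] β i := by
      intro k
      induction k with
      | zero => simp
      | succ k ih =>
        intro i
        rw [Function.iterate_succ_apply', Ls]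
        have := ih (i + 1)
        rw [show i + 1 + k = i + (k + 1) by omega] at this
        linarith [(h0 _).trans (ih i)]
    have p2 : ∀ k, m ≤ k → 0 < (Ls 1)^[k] β 0 := by
      intro k hk
      induction k, hk using Nat.le_induction with
      | base => simpa using hm.trans_le (by simpa using p1 m 0)
      | succ k hk ih =>
        rw [Function.iterate_succ_apply', Ls]
        linarith [(h0 _).trans (p1 k (0 + 1))]
    refine noB' hS hA hs hc1 (E_lim 1 hl) hη hB (k0 := m + 1) (p2 _ (by omega)) (fun k hk => ?_)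
    have := nonneg_of_mul_nonneg_right (hC k (by omega)) (p2 (k + 1) (by omega))
    linarith
  · obtain ⟨k, hk⟩ := hz
    exact hk (noB hS hA hs hc1 (E_lim (-1) hl) hη hB hC k)

theorem main {α : ℝ} (hα : 0 < α) {T : ℝ[X] →ₗ[ℝ] ℝ[X]} {γ : ℕ → ℝ} {Q : ℕ → ℝ[X]}
    (hT : ∀ n, T (gg α n) = γ n • gg α n) (h : IsMultSeq γ)
    (hQ : ∀ p : ℝ[X], T p = ∑ k ∈ range (p.natDegree + 1), Q k * derivative^[k] p)
    (hQ' : ∀ k, RealRooted (Q k)) {p : ℝ[X]} (hp : RealRooted p) : RealRooted (T p) := by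
  classical
  by_cases hz : ∃ m, γ m ≠ 0
  swap
  · push Not at hz
    left
    rw [rep (ρ := fun _ => 0) hT (by simp [hz]) (Nat.lt_succ_self _)]
    simp
  obtain ⟨m, hm, hm'⟩ : ∃ m, γ m ≠ 0 ∧ ∀ i < m, γ i = 0 :=
    ⟨Nat.find hz, Nat.find_spec hz, fun i hi => not_not.1 (Nat.find_min hz hi)⟩
  obtain ⟨s, t, hs, ht, h0⟩ := signs h hm hm'
  have ht2 : t * t = 1 := by rcases ht with rfl | rfl <;> norm_num
  have ht0 : t ≠ 0 := by rintro rfl; simp at ht2
  have hs0 : s ≠ 0 := by rintro rfl; simp at hs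
  obtain ⟨d, hd⟩ : ∃ d : ℕ → ℝ, ∀ k, d k = (fwdDiff 1)^[k] γ 0 := ⟨_, fun _ => rfl⟩
  have hN : ∀ n, γ n = ∑ j ∈ range (n + 1), (n.descFactorial j : ℝ) * (d j / j.factorial) := by
    intro n
    have := shift_eq_sum_fwdDiff_iter 1 γ n 0
    rw [zero_add, smul_eq_mul, mul_one] at this
    rw [this]
    refine sum_congr rfl (fun j _ => ?_)
    rw [Nat.descFactorial_eq_factorial_mul_choose, hd]
    push_cast; field_simp; simp
  have hR : Rep α d Q := fun N n hn => by
    rw [← rep hT hN (by simpa using hn), hQ, natDegree_X_pow]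
    refine sum_subset (range_subset_range.2 hn) (fun k _ hk => ?_)
    rw [iterate_derivative_eq_zero (by simpa using hk), mul_zero]
  have hL : ∀ k i, (Ls (-t))^[k] (fun k => s * t ^ k * γ k) i =
      s * t ^ i * (-1) ^ k * (fwdDiff 1)^[k] γ i := by
    intro k
    induction k with
    | zero => simp
    | succ k ih =>
      intro i
      rw [Function.iterate_succ_apply', Function.iterate_succ_apply', Ls, ih, ih, fwdDiff]
      linear_combination (-(s * t ^ i * (-1) ^ k * (fwdDiff 1)^[k] γ (i + 1))) * ht2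
  obtain ⟨ρ, r, r1, r2, -, r3⟩ := main0 (ms_sign h s ht0) h0 (m := m)
    ((h0 m).lt_of_ne' (mul_ne_zero (mul_ne_zero hs0 (pow_ne_zero _ ht0)) hm))
    (fun i hi => by simp [hm' i hi]) (t := -t) (by rcases ht with rfl | rfl <;> simp)
    (fun k hk => by
      obtain ⟨j, rfl⟩ := Nat.exists_eq_add_of_le' hk
      have := hR.cond hα hQ' j
      rw [hL, hL, ← hd, ← hd]
      have h1 : ((-1:ℝ) ^ j) ^ 2 = 1 := by rw [← pow_mul, mul_comm, pow_mul]; simp
      convert this using 1
      simp only [pow_succ (-1:ℝ), pow_zero]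
      linear_combination (d (j + 2) * (d (j + 2) + 2 * d (j + 1))) * (((-1) ^ j) ^ 2 * hs + h1))
    (by
      by_contra H
      push Not at H
      refine hm ?_
      rw [hN]
      refine sum_eq_zero (fun j _ => ?_)
      have := H j
      rw [hL, ← hd] at this
      simp [hs0] at this
      simp [this])
  have hg : ∀ n, (gg α n).comp (C t * X) = t ^ n • gg α n := by
    intro n
    induction n with
    | zero => simp [gg]
    | succ n ih =>
      have h1 := congrArg derivative ih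
      rw [derivative_comp, derivative_smul] at h1
      simp only [derivative_mul, derivative_C, derivative_X, zero_mul, zero_add, mul_one] at h1
      have h2 : (derivative (gg α n)).comp (C t * X) = t ^ (n + 1) • derivative (gg α n) := by
        rw [pow_succ', ← smul_smul, ← h1, smul_eq_C_mul, ← mul_assoc, ← C_mul, ht2, C_1, one_mul]
      rw [gg_succ, AA_app, sub_comp, mul_comp, smul_comp, h2, ih, X_comp, smul_sub, smul_comm α]
      simp only [smul_eq_C_mul, C_pow]
      ring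
  obtain ⟨T', hT'⟩ : ∃ T' : ℝ[X] →ₗ[ℝ] ℝ[X], ∀ q, T' q = s • T (q.comp (C t * X)) :=
    ⟨s • (T ∘ₗ (aeval (C t * X : ℝ[X])).toLinearMap), fun q => by simp [comp_eq_aeval]⟩
  have h1 : RealRooted (T' ((1:ℝ) • p.comp (C t * X))) := by
    rw [rep (γ := fun k => s * t ^ k * γ k) (ρ := ρ) (α := α) (fun n => by
      rw [hT', hg, map_smul, hT, smul_smul, smul_smul]) (fun n => ?_) (Nat.lt_succ_self _)]
    · exact op_rr hα ρ m r r1 r2 (rr_comp hp 1 ht0) (Nat.lt_succ_self _)
    · have := r3 n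
      rw [div_eq_iff (by positivity), Nat.sum_antidiagonal_eq_sum_range_succ_mk, sum_mul] at this
      rw [this]
      refine sum_congr rfl (fun j hj => ?_)
      rw [← Nat.factorial_mul_descFactorial (Nat.lt_succ_iff.1 (mem_range.1 hj))]
      push_cast; field_simp
  rw [hT', one_smul, comp_assoc] at h1
  simp only [mul_comp, C_comp, X_comp, ← mul_assoc, ← C_mul, ht2, C_1, one_mul, comp_X] at h1
  have h2 := rr_comp h1 s one_ne_zero
  simpa [smul_smul, hs] using h2

theorem herm_eq (n : ℕ) : ((hermite n).map (Int.castRingHom ℝ)).comp (C √2 * X) =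
    √2 ^ n • gg (1 / 2) n := by
  have h2 : √2 * √2 = (2:ℝ) := Real.mul_self_sqrt (by norm_num)
  induction n with
  | zero => simp [gg]
  | succ n ih =>
    have h1 := congrArg derivative ih
    rw [derivative_comp, derivative_smul] at h1
    simp only [derivative_mul, derivative_C, derivative_X, zero_mul, zero_add, mul_one] at h1
    have h3 : (derivative ((hermite n).map (Int.castRingHom ℝ))).comp (C √2 * X) =
        √2 ^ (n + 1) • (1 / 2 : ℝ) • derivative (gg (1 / 2) n) := by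
      rw [smul_comm, pow_succ', ← smul_smul, ← h1, smul_eq_C_mul √2, ← mul_assoc, ← C_mul, h2,
        ← smul_eq_C_mul 2, smul_smul]
      simp
    rw [hermite_succ, Polynomial.map_sub, Polynomial.map_mul, ← derivative_map, sub_comp, mul_comp,
      h3, ih, map_X, X_comp, gg_succ, AA_app, smul_sub]
    simp only [smul_eq_C_mul, C_pow]
    ring

end Pool.Agent.H88.Herm
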