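import Pool.Agent.H88.HotDefs

open Set Real

namespace Pool.Agent.H88.Hot

lemma const_of {h : ℝ → ℝ} {L : ℝ} (H : ∀ x ∈ Icc 0 L, HasDerivWithinAt h 0 (Icc 0 L) x) :
    ∀ x ∈ Icc 0 L, h x = h 0 :=
  constant_of_has_deriv_right_zero (fun x hx => (H x hx).continuousWithinAt) fun x hx =>
    (H x (Ico_subset_Icc_self hx)).mono_of_mem_nhdsWithin (Icc_mem_nhdsGE_of_mem hx)

lemma Ode.sol {k L : ℝ} {f g : ℝ → ℝ} (h : Ode (k ^ 2) L f g) (hk : 0 < k) :
    ∀ x ∈ Icc 0 L, f x = f 0 * cos (k * x) + g 0 / k * sin (k * x) ∧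
      g x = k * (g 0 / k * cos (k * x) - f 0 * sin (k * x)) := by
  have c : ∀ x, HasDerivAt (fun x => cos (k * x)) (-sin (k * x) * k) x := fun x => by
    simpa using ((hasDerivAt_id x).const_mul k).cos
  have s : ∀ x, HasDerivAt (fun x => sin (k * x)) (cos (k * x) * k) x := fun x => by
    simpa using ((hasDerivAt_id x).const_mul k).sin
  have h1 := const_of (h := fun x => k * (f x * cos (k * x)) - g x * sin (k * x)) (L := L)
    fun x hx => ((((h x hx).1.mul (c x).hasDerivWithinAt).const_mul k).sub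
        ((h x hx).2.mul (s x).hasDerivWithinAt)).congr_deriv (by ring)
  have h2 := const_of (h := fun x => k * (f x * sin (k * x)) + g x * cos (k * x)) (L := L)
    fun x hx => ((((h x hx).1.mul (s x).hasDerivWithinAt).const_mul k).add
        ((h x hx).2.mul (c x).hasDerivWithinAt)).congr_deriv (by ring)
  intro x hx
  have e1 := h1 x hx
  have e2 := h2 x hx
  simp only [mul_zero, cos_zero, sin_zero, mul_one, sub_zero, zero_add] at e1 e2
  have p := sin_sq_add_cos_sq (k * x)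
  constructor
  · field_simp
    linear_combination cos (k * x) * e1 + sin (k * x) * e2 - k * f x * p
  · field_simp
    linear_combination cos (k * x) * e2 - sin (k * x) * e1 - g x * p

lemma ode_trig (k L A B φ : ℝ) :
    Ode (k ^ 2) L (fun x => A * cos (k * x + φ) + B * sin (k * x + φ))
      fun x => k * (B * cos (k * x + φ) - A * sin (k * x + φ)) := by
  intro x _
  have l : HasDerivAt (fun x => k * x + φ) k x := by
    simpa using ((hasDerivAt_id x).const_mul k).add_const φ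
  constructor
  · exact ((l.cos.const_mul A).add (l.sin.const_mul B)).hasDerivWithinAt.congr_deriv (by ring)
  · exact (((l.cos.const_mul B).sub (l.sin.const_mul A)).const_mul k).hasDerivWithinAt.congr_deriv
      (by ring)

lemma eig_of (G : QG) (α : Fin G.nv → ℝ) (k : ℝ) (A B φ : Fin G.ne → ℝ) (u : Fin G.nv → ℝ)
    (h0 : ∃ p ∈ G.Pts, A p.1 * cos (k * p.2 + φ p.1) + B p.1 * sin (k * p.2 + φ p.1) ≠ 0)
    (h1 : ∀ e, A e * cos (φ e) + B e * sin (φ e) = u (G.src e) ∧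
      A e * cos (k * G.len e + φ e) + B e * sin (k * G.len e + φ e) = u (G.tgt e))
    (h2 : ∀ v, (∑ e, if G.src e = v then k * (B e * cos (φ e) - A e * sin (φ e)) else 0) -
      (∑ e, if G.tgt e = v then
        k * (B e * cos (k * G.len e + φ e) - A e * sin (k * G.len e + φ e)) else 0) =
        α v * u v) :
    G.IsEig α (k ^ 2) fun e x => A e * cos (k * x + φ e) + B e * sin (k * x + φ e) :=
  ⟨h0, fun e x => k * (B e * cos (k * x + φ e) - A e * sin (k * x + φ e)), u,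
    fun e => ode_trig _ _ _ _ _, by simpa using h1, by simpa using h2⟩

lemma eig_data {G : QG} (hG : ∀ e, 0 < G.len e) {α : Fin G.nv → ℝ} {k : ℝ} (hk : 0 < k)
    {f : Fin G.ne → ℝ → ℝ} (h : G.IsEig α (k ^ 2) f) :
    ∃ (u : Fin G.nv → ℝ) (B : Fin G.ne → ℝ),
      (∀ e, ∀ x ∈ Icc 0 (G.len e), f e x = u (G.src e) * cos (k * x) + B e * sin (k * x)) ∧
      (¬ ((∀ v, u v = 0) ∧ ∀ e, B e = 0)) ∧
      (∀ e, u (G.tgt e) = u (G.src e) * cos (k * G.len e) + B e * sin (k * G.len e)) ∧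
      ∀ v, k * ((∑ e, if G.src e = v then B e else 0) - ∑ e, if G.tgt e = v then
        B e * cos (k * G.len e) - u (G.src e) * sin (k * G.len e) else 0) = α v * u v := by
  obtain ⟨⟨p, hp, hp0⟩, g, u, h1, h2, h3⟩ := h
  have a : ∀ e, ∀ x ∈ Icc 0 (G.len e),
      f e x = u (G.src e) * cos (k * x) + g e 0 / k * sin (k * x) := fun e x hx => by
    rw [← (h2 e).1]
    exact ((h1 e).sol hk x hx).1
  refine ⟨u, fun e => g e 0 / k, a, fun ⟨z1, z2⟩ => hp0 ?_, fun e => ?_, fun v => ?_⟩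
  · have z3 : g p.1 0 / k = 0 := z2 p.1
    rw [a _ _ hp, z1, z3]
    simp
  · rw [← (h2 e).2]
    exact a e _ (right_mem_Icc.2 (hG e).le)
  · rw [← h3 v, mul_sub, Finset.mul_sum, Finset.mul_sum]
    congr 1 <;> refine Finset.sum_congr rfl fun e _ => ?_ <;> split_ifs
    · field_simp
    · simp
    · rw [((h1 e).sol hk _ (right_mem_Icc.2 (hG e).le)).2, (h2 e).1]
    · simp

lemma nonpos_data {G : QG} (hG : ∀ e, 0 < G.len e) {α : Fin G.nv → ℝ} (hα : ∀ v, 0 ≤ α v)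
    {lam : ℝ} (hl : lam ≤ 0) {f : Fin G.ne → ℝ → ℝ} (h : G.IsEig α lam f) :
    lam = 0 ∧ ∃ u : Fin G.nv → ℝ, (∃ v, u v ≠ 0) ∧ (∀ e, u (G.tgt e) = u (G.src e)) ∧
      ∀ v, α v * u v ^ 2 = 0 := by
  obtain ⟨⟨p, hp, hp0⟩, g, u, h1, h2, h3⟩ := h
  have d : ∀ e, ∀ x ∈ Icc 0 (G.len e), HasDerivWithinAt (fun x => f e x * g e x)
      (g e x ^ 2 - lam * f e x ^ 2) (Icc 0 (G.len e)) x := fun e x hx =>
    ((h1 e x hx).1.mul (h1 e x hx).2).congr_deriv (by ring)
  have nn : ∀ e x, 0 ≤ g e x ^ 2 - lam * f e x ^ 2 := fun e x => by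
    nlinarith [sq_nonneg (g e x), sq_nonneg (f e x)]
  have m : ∀ e, MonotoneOn (fun x => f e x * g e x) (Icc 0 (G.len e)) := fun e =>
    monotoneOn_of_hasDerivWithinAt_nonneg (convex_Icc _ _)
      (fun x hx => (d e x hx).continuousWithinAt)
      (fun x hx => (d e x (interior_subset hx)).mono interior_subset) fun x _ => nn e x
  have l0 : ∀ e, (0 : ℝ) ∈ Icc 0 (G.len e) := fun e => left_mem_Icc.2 (hG e).le
  have l1 : ∀ e, G.len e ∈ Icc 0 (G.len e) := fun e => right_mem_Icc.2 (hG e).le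
  have tot : ∑ e, (f e (G.len e) * g e (G.len e) - f e 0 * g e 0) + ∑ v, α v * u v ^ 2 = 0 := by
    have : ∀ v, α v * u v ^ 2 = ∑ e, ((if G.src e = v then f e 0 * g e 0 else 0) -
        if G.tgt e = v then f e (G.len e) * g e (G.len e) else 0) := fun v => by
      rw [sq, ← mul_assoc, ← h3 v, ← Finset.sum_sub_distrib, Finset.sum_mul]
      refine Finset.sum_congr rfl fun e _ => ?_
      rw [(h2 e).1, (h2 e).2]
      split_ifs with a b b <;> simp [*] <;> ring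
    simp only [this]
    rw [Finset.sum_comm, ← Finset.sum_add_distrib]
    simp
  have p1 : ∀ e ∈ Finset.univ, 0 ≤ f e (G.len e) * g e (G.len e) - f e 0 * g e 0 :=
    fun e _ => sub_nonneg.2 (m e (l0 e) (l1 e) (hG e).le)
  have p2 : ∀ v ∈ Finset.univ, 0 ≤ α v * u v ^ 2 := fun v _ => mul_nonneg (hα v) (sq_nonneg _)
  obtain ⟨t1, t2⟩ := (add_eq_zero_iff_of_nonneg (Finset.sum_nonneg p1)
    (Finset.sum_nonneg p2)).1 tot
  rw [Finset.sum_eq_zero_iff_of_nonneg p1] at t1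
  rw [Finset.sum_eq_zero_iff_of_nonneg p2] at t2
  have z : ∀ e, ∀ x ∈ Icc 0 (G.len e), g e x ^ 2 - lam * f e x ^ 2 = 0 := fun e x hx => by
    have c : ∀ y ∈ Icc 0 (G.len e), f e y * g e y = f e 0 * g e 0 := fun y hy => by
      have a1 := m e (l0 e) hy hy.1
      have a2 := m e hy (l1 e) hy.2
      have a3 := t1 e (Finset.mem_univ _)
      simp only at a1 a2
      linarith
    exact (uniqueDiffOn_Icc (hG e) x hx).eq_deriv _ (d e x hx)
      ((hasDerivWithinAt_const x _ _).congr c (c x hx))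
  have hl0 : lam = 0 := by
    by_contra hne
    have := z _ _ hp
    have h4 : 0 < -lam * f p.1 p.2 ^ 2 :=
      mul_pos (neg_pos.2 (lt_of_le_of_ne hl hne)) (by positivity)
    nlinarith [sq_nonneg (g p.1 p.2)]
  have cf : ∀ e, ∀ x ∈ Icc 0 (G.len e), f e x = f e 0 := fun e => const_of fun x hx => by
    have := z e x hx
    rw [hl0, zero_mul, sub_zero, sq_eq_zero_iff] at this
    exact this ▸ (h1 e x hx).1
  refine ⟨hl0, u, ⟨G.src p.1, ?_⟩, fun e => ?_, fun v => t2 v (Finset.mem_univ _)⟩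
  · rwa [← (h2 _).1, ← cf _ _ hp]
  · rw [← (h2 e).1, ← (h2 e).2, cf e _ (l1 e)]

lemma second_unique {G : QG} {α : Fin G.nv → ℝ} {a b : ℝ} (ha : G.Second α a)
    (hb : G.Second α b) : a = b := by
  obtain ⟨a1, x, x1, x2, x3⟩ := ha
  obtain ⟨b1, y, y1, y2, y3⟩ := hb
  rcases lt_trichotomy a b with h | h | h
  · have := y3 a a1 h
    have := y3 x x1 (x2.trans h)
    linarith
  · exact h
  · have := x3 b b1 h
    have := x3 y y1 (y2.trans h)
    linarith

lemma second_std {G : QG} (hG : ∀ e, 0 < G.len e) (e₀ : Fin G.ne) {k : ℝ} (hk : 0 < k)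
    (h1 : k ^ 2 ∈ G.Spec 0) (h2 : ∀ j, 0 < j → j < k → j ^ 2 ∉ G.Spec 0) :
    G.Second 0 (k ^ 2) := by
  refine ⟨h1, 0, ?_, by positivity, fun μ hμ hlt => ?_⟩
  · have := eig_of G 0 0 (fun _ => 1) 0 0 (fun _ => 1)
      ⟨(e₀, 0), left_mem_Icc.2 (hG e₀).le, by simp⟩ (by simp) (by simp)
    exact ⟨_, by simpa using this⟩
  · rcases le_or_gt μ 0 with h | h
    · obtain ⟨f, hf⟩ := hμ
      exact (nonpos_data hG (fun _ => le_rfl) h hf).1
    · refine absurd ?_ (h2 (√μ) (sqrt_pos.2 h) ((sqrt_lt' hk).2 hlt))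
      rwa [sq_sqrt h.le]

lemma same_sign {G : QG} {f : Fin G.ne → ℝ → ℝ} {p : Fin G.ne × ℝ} (h0 : f p.1 p.2 = 0)
    (h : (∀ q ∈ G.Pts, f q.1 q.2 ≤ f p.1 p.2) ∨ ∀ q ∈ G.Pts, f p.1 p.2 ≤ f q.1 q.2) :
    ∀ q ∈ G.Pts, ∀ r ∈ G.Pts, 0 ≤ f q.1 q.2 * f r.1 r.2 := by
  rw [h0] at h
  rcases h with h | h
  · exact fun q hq r hr => mul_nonneg_of_nonpos_of_nonpos (h q hq) (h r hr)
  · exact fun q hq r hr => mul_nonneg (h q hq) (h r hr)

end Pool.Agent.H88.Hot
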