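import Pool.Agent.H88.Hot1

open Set Real

namespace Pool.Agent.H88.Hot

abbrev GA : QG := ⟨4, 5, ![0, 1, 2, 1, 1], ![1, 2, 3, 2, 2], ![1, 1, 1, 3, 3]⟩

lemma GA_pos : ∀ e, 0 < GA.len e := by
  intro e
  fin_cases e <;> simp

lemma GA_good : GA.Good := by
  refine ⟨GA_pos, fun v w => ?_⟩
  have r : ∀ e, Relation.EqvGen (fun a b => ∃ e ∈ (univ : Set (Fin GA.ne)),
      GA.src e = a ∧ GA.tgt e = b) (GA.src e) (GA.tgt e) := fun e =>
    .rel _ _ ⟨e, trivial, rfl, rfl⟩
  have z : ∀ v, Relation.EqvGen (fun a b => ∃ e ∈ (univ : Set (Fin GA.ne)),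
      GA.src e = a ∧ GA.tgt e = b) 0 v := fun v => by
    fin_cases v
    · exact .refl _
    · exact r 0
    · exact .trans _ _ _ (r 0) (r 1)
    · exact .trans _ _ _ (.trans _ _ _ (r 0) (r 1)) (r 2)
  exact .trans _ _ _ (.symm _ _ (z v)) (z w)

lemma GA_bridge : ¬ GA.Conn {0}ᶜ := by
  intro h
  have : ∀ v w, Relation.EqvGen (fun a b => ∃ e ∈ ({0}ᶜ : Set (Fin GA.ne)),
      GA.src e = a ∧ GA.tgt e = b) v w → (v = 0 ↔ w = 0) := by
    intro v w h
    induction h with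
    | rel a b h =>
      obtain ⟨e, he, rfl, rfl⟩ := h
      fin_cases e <;> simp_all
    | refl => rfl
    | symm _ _ _ ih => exact ih.symm
    | trans _ _ _ _ _ i1 i2 => exact i1.trans i2
  simpa using this _ _ (h 0 1)

lemma GA_low (j : ℝ) (h0 : 0 < j) (h1 : j < π / 3) : j ^ 2 ∉ GA.Spec 0 := by
  rintro ⟨f, hf⟩
  obtain ⟨u, B, -, hn, h2, h3⟩ := eig_data GA_pos h0 hf
  have e0 := h2 0
  have e1 := h2 1
  have e2 := h2 2
  have e3 := h2 3
  have e4 := h2 4
  have v0 := h3 0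
  have v1 := h3 1
  have v2 := h3 2
  have v3 := h3 3
  simp [Fin.sum_univ_five, h0.ne'] at e0 e1 e2 e3 e4 v0 v1 v2 v3
  have hs : 0 < sin j := sin_pos_of_pos_of_lt_pi h0 (by linarith [pi_pos])
  have hS : 0 < sin (j * 3) := sin_pos_of_pos_of_lt_pi (by linarith) (by linarith)
  have hc : 1 / 2 < cos j := by
    rw [← cos_pi_div_three]
    exact cos_lt_cos_of_nonneg_of_le_pi h0.le (by linarith [pi_pos]) h1
  have p1 := sin_sq_add_cos_sq j
  have p3 := sin_sq_add_cos_sq (j * 3)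
  have c1 := cos_le_one j
  have c3 := cos_le_one (j * 3)
  have c4 := neg_one_le_cos (j * 3)
  generalize sin j = s at *
  generalize cos j = c at *
  generalize sin (j * 3) = S at *
  generalize cos (j * 3) = C at *
  have hc0 : 0 < c := by linarith
  have b1 : B 1 = (u 2 - u 1 * c) / s := by rw [eq_div_iff hs.ne']; linarith
  have b3 : B 3 = (u 2 - u 1 * C) / S := by rw [eq_div_iff hS.ne']; linarith
  have b4 : B 4 = (u 2 - u 1 * C) / S := by rw [eq_div_iff hS.ne']; linarith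
  have b1' : u 1 * s - B 1 * c = (u 1 - u 2 * c) / s := by
    rw [eq_div_iff hs.ne']; linear_combination u 1 * p1 + c * e1
  have b3' : u 1 * S - B 3 * C = (u 1 - u 2 * C) / S := by
    rw [eq_div_iff hS.ne']; linear_combination u 1 * p3 + C * e3
  have b4' : u 1 * S - B 4 * C = (u 1 - u 2 * C) / S := by
    rw [eq_div_iff hS.ne']; linear_combination u 1 * p3 + C * e4
  have a0 : u 0 * s = u 1 * (s / c) := by
    rw [e0, v0]; field_simp; ring
  have b2 : B 2 = u 2 * (s / c) := by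
    field_simp; linarith
  have q1 : (u 1 + u 2) * ((1 - c) / s + 2 * ((1 - C) / S) + s / c) = 0 := by
    linear_combination v1 + v2 - b1 - b3 - b4 - b1' - b3' - b4' - a0 - b2 + c * v0
  have q2 : (u 1 - u 2) * ((1 + c) / s - s / c + 2 * ((1 + C) / S)) = 0 := by
    linear_combination v2 - v1 + b1 + b3 + b4 - b1' - b3' - b4' + a0 - b2 - c * v0
  have r1 : 0 < (1 - c) / s + 2 * ((1 - C) / S) + s / c := by
    have : 0 ≤ 1 - c := by linarith
    have : 0 ≤ 1 - C := by linarith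
    positivity
  have r2 : 0 < (1 + c) / s - s / c + 2 * ((1 + C) / S) := by
    have : 0 ≤ 1 + C := by linarith
    have : s / c < (1 + c) / s := by
      rw [div_lt_div_iff₀ hc0 hs]
      nlinarith
    have : 0 ≤ 2 * ((1 + C) / S) := by positivity
    linarith
  have s1 := (mul_eq_zero.1 q1).resolve_right r1.ne'
  have s2 := (mul_eq_zero.1 q2).resolve_right r2.ne'
  have u1 : u 1 = 0 := by linarith
  have u2 : u 2 = 0 := by linarith
  simp only [u1, u2, zero_mul, sub_zero, zero_div] at b1 b3 b4 b2 a0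
  have u0 : u 0 = 0 := (mul_eq_zero.1 a0).resolve_right hs.ne'
  refine hn ⟨fun v => ?_, fun e => ?_⟩
  · fin_cases v <;> simp [*]
  · fin_cases e <;> simp [*]

lemma GA_eig (y : ℝ) : GA.IsEig 0 ((π / 3) ^ 2) fun e x =>
    ![2 * cos (π / 3 * y), 2 * cos (π / 3 * y), 2 * cos (π / 3 * y), 1, 1] e *
      cos (π / 3 * x + ![0, π / 3, π / 3 * 2, -(π / 3 * y), π / 3 * y] e) +
      (0 : Fin 5 → ℝ) e * sin (π / 3 * x + ![0, π / 3, π / 3 * 2, -(π / 3 * y), π / 3 * y] e) := by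
  have e2 : π / 3 + π / 3 = π - π / 3 := by ring
  have e3 : π / 3 * 2 = π - π / 3 := by ring
  have e4 : π / 3 + (π - π / 3) = π := by ring
  have e5 : π / 3 * 3 = π := by ring
  refine eig_of GA 0 (π / 3) _ _ _
    ![2 * cos (π / 3 * y), cos (π / 3 * y), -cos (π / 3 * y), -(2 * cos (π / 3 * y))] ?_ ?_ ?_
  · by_cases h : cos (π / 3 * y) = 0
    · refine ⟨(3, 3 / 2), by simp [QG.Pts]; norm_num, ?_⟩
      have : π / 3 * (3 / 2) = π / 2 := by ring
      have h2 := sin_sq_add_cos_sq (π / 3 * y)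
      simp [this, cos_add]
      intro h3
      simp [h, h3] at h2
    · exact ⟨(3, 0), by simp [QG.Pts], by simpa using h⟩
  · intro e
    fin_cases e <;> simp [e2, e3, e4, e5, cos_add] <;> ring_nf
  · intro v
    fin_cases v <;> simp [Fin.sum_univ_five, e3, e5, sin_add] <;> ring_nf <;> simp

lemma GA_second : GA.Second 0 ((π / 3) ^ 2) :=
  second_std GA_pos 0 (by positivity) ⟨_, GA_eig 0⟩ GA_low

lemma GA_inf : (GA.M 0).Infinite := by
  refine ((Icc_infinite (by norm_num : (1 : ℝ) < 3 / 2)).image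
    (f := fun y => ((3 : Fin 5), y)) fun a _ b _ h => (Prod.ext_iff.1 h).2).mono ?_
  rintro _ ⟨y, hy, rfl⟩
  refine ⟨by simp [QG.Pts]; constructor <;> linarith [hy.1, hy.2], _, _, GA_second, GA_eig y,
    Or.inl fun q _ => ?_⟩
  have c0 : 0 ≤ cos (π / 3 * y) := cos_nonneg_of_mem_Icc
    ⟨by nlinarith [pi_pos, hy.1], by nlinarith [pi_pos, hy.2]⟩
  have c1 : cos (π / 3 * y) ≤ 1 / 2 := by
    rw [← cos_pi_div_three]
    exact cos_le_cos_of_nonneg_of_le_pi (by positivity) (by nlinarith [pi_pos, hy.2])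
      (by nlinarith [pi_pos, hy.1])
  have b : ∀ t, 2 * cos (π / 3 * y) * cos t ≤ 1 := fun t => by nlinarith [cos_le_one t]
  obtain ⟨e, x⟩ := q
  fin_cases e <;> simp [b, cos_le_one]

lemma GA_ne : GA.M 0 ≠ GA.Pts := by
  intro h
  have hp : ((1 : Fin 5), (1 / 2 : ℝ)) ∈ GA.Pts := by simp [QG.Pts]; norm_num
  obtain ⟨-, lam, f, h1, h2, h3⟩ := h ▸ hp
  rw [second_unique h1 GA_second] at h2
  obtain ⟨u, B, hf, hn, h2, h4⟩ := eig_data GA_pos (by positivity) h2
  have e5 : π / 3 * 3 = π := by ring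
  have e6 : π / 3 * (1 / 2) = π / 6 := by ring
  have e7 : π / 3 * (3 / 2) = π / 2 := by ring
  have e0 := h2 0
  have e1 := h2 1
  have e2 := h2 2
  have e3 := h2 3
  have v0 := h4 0
  have v1 := h4 1
  have v3 := h4 3
  simp [Fin.sum_univ_five, pi_ne_zero, e5] at e0 e1 e2 e3 v0 v1 v3
  have s3 : √3 * √3 = 3 := mul_self_sqrt (by norm_num)
  have s0 : 0 < √3 := by positivity
  have b1 : B 1 = -√3 * u 1 := by
    refine mul_left_cancel₀ s0.ne' ?_
    linear_combination -2 * e1 + 2 * e3 + u 1 * s3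
  have z : f 1 (1 / 2) = 0 := by
    rw [hf 1 _ hp, e6, cos_pi_div_six, sin_pi_div_six, b1]
    simp
    ring
  have ss := same_sign z h3
  have m1 := ss (3, 0) (by simp [QG.Pts]) (3, 3) (by simp [QG.Pts])
  have m2 := ss (3, 3 / 2) (by simp [QG.Pts]; norm_num) (4, 3 / 2) (by simp [QG.Pts]; norm_num)
  simp only at m1 m2
  rw [hf 3 0 (by simp), hf 3 3 (by simp)] at m1
  rw [hf 3 _ (by simp; norm_num), hf 4 _ (by simp; norm_num)] at m2
  simp [e5, e7] at m1 m2
  have u1 : u 1 = 0 := by nlinarith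
  have u2 : u 2 = 0 := by rw [e3, u1, neg_zero]
  have u0 : u 0 = 0 := by rw [u1, v0] at e0; linarith
  have c1 : B 1 = 0 := by rw [b1, u1, mul_zero]
  have c2 : B 2 = 0 := by rw [u2] at v3; linarith
  have c4 : B 4 = -B 3 := by rw [c1, v0, u0] at v1; linarith
  have c3 : B 3 = 0 := by rw [c4] at m2; nlinarith
  refine hn ⟨fun v => ?_, fun e => ?_⟩
  · fin_cases v <;> simp [*]
  · fin_cases e <;> simp [*]

end Pool.Agent.H88.Hot
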