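import Pool.Agent.H88.Hot1

open Set Real

namespace Pool.Agent.H88.Hot

abbrev GB : QG := ⟨3, 6, ![0, 1, 2, 0, 1, 2], ![1, 2, 0, 1, 2, 0], fun _ => 1⟩

lemma GB_pos : ∀ e, 0 < GB.len e := fun _ => one_pos

lemma GB_good : GB.Good := by
  refine ⟨GB_pos, fun v w => ?_⟩
  have r : ∀ e, Relation.EqvGen (fun a b => ∃ e ∈ (univ : Set (Fin GB.ne)),
      GB.src e = a ∧ GB.tgt e = b) (GB.src e) (GB.tgt e) := fun e =>
    .rel _ _ ⟨e, trivial, rfl, rfl⟩
  have z : ∀ v, Relation.EqvGen (fun a b => ∃ e ∈ (univ : Set (Fin GB.ne)),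
      GB.src e = a ∧ GB.tgt e = b) 0 v := fun v => by
    fin_cases v
    · exact .refl _
    · exact r 0
    · exact .trans _ _ _ (r 0) (r 1)
  exact .trans _ _ _ (.symm _ _ (z v)) (z w)

lemma GB_low (j : ℝ) (h0 : 0 < j) (h1 : j < 2 * π / 3) : j ^ 2 ∉ GB.Spec 0 := by
  rintro ⟨f, hf⟩
  obtain ⟨u, B, -, hn, h2, h3⟩ := eig_data GB_pos h0 hf
  have e0 := h2 0
  have e1 := h2 1
  have e2 := h2 2
  have e3 := h2 3
  have e4 := h2 4
  have e5 := h2 5
  have v0 := h3 0
  have v1 := h3 1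
  have v2 := h3 2
  simp [Fin.sum_univ_six, h0.ne'] at e0 e1 e2 e3 e4 e5 v0 v1 v2
  have hs : 0 < sin j := sin_pos_of_pos_of_lt_pi h0 (by linarith [pi_pos])
  have hc : -(1 / 2) < cos j := by
    rw [← cos_pi_div_three, ← cos_pi_sub]
    exact cos_lt_cos_of_nonneg_of_le_pi h0.le (by linarith [pi_pos]) (by linarith)
  have p1 := sin_sq_add_cos_sq j
  have hc1 : cos j < 1 := by nlinarith [cos_le_one j]
  generalize sin j = s at *
  generalize cos j = c at *
  have q0 : u 1 + u 2 = 2 * c * u 0 := by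
    linear_combination (s * v0 + e0 + e3 - c * e2 - c * e5 - 2 * u 2 * p1) / 2
  have q1 : u 2 + u 0 = 2 * c * u 1 := by
    linear_combination (s * v1 + e1 + e4 - c * e0 - c * e3 - 2 * u 0 * p1) / 2
  have q2 : u 0 + u 1 = 2 * c * u 2 := by
    linear_combination (s * v2 + e2 + e5 - c * e1 - c * e4 - 2 * u 1 * p1) / 2
  have t : u 0 + u 1 + u 2 = 0 := by
    refine mul_left_cancel₀ (a := 2 - 2 * c) (by linarith) ?_
    linear_combination q0 + q1 + q2
  have hc2 : 1 + 2 * c ≠ 0 := by linarith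
  have u0 : u 0 = 0 := mul_left_cancel₀ hc2 (by linear_combination t - q0)
  have u1 : u 1 = 0 := mul_left_cancel₀ hc2 (by linear_combination t - q1)
  have u2 : u 2 = 0 := mul_left_cancel₀ hc2 (by linear_combination t - q2)
  simp [u0, u1, u2, hs.ne'] at e0 e1 e2 e3 e4 e5
  refine hn ⟨fun v => ?_, fun e => ?_⟩
  · fin_cases v <;> simp [*]
  · fin_cases e <;> simp [*]

lemma GB_eig (t : ℝ) (h : ∃ p ∈ GB.Pts,
      cos (2 * π / 3 * p.2 + (2 * π / 3 * (GB.src p.1).val + t)) ≠ 0) :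
    GB.IsEig 0 ((2 * π / 3) ^ 2) fun e x =>
      (1 : Fin 6 → ℝ) e * cos (2 * π / 3 * x + (2 * π / 3 * (GB.src e).val + t)) +
      (0 : Fin 6 → ℝ) e * sin (2 * π / 3 * x + (2 * π / 3 * (GB.src e).val + t)) := by
  have e1 : 2 * π / 3 + (2 * π / 3 + t) = 2 * π / 3 * 2 + t := by ring
  have e2 : 2 * π / 3 + (2 * π / 3 * 2 + t) = t + 2 * π := by ring
  refine eig_of GB 0 _ _ _ (fun e => 2 * π / 3 * (GB.src e).val + t)
    (fun v => cos (2 * π / 3 * v.val + t)) (by simpa using h) ?_ ?_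
  · intro e
    fin_cases e <;> simp [e1, e2]
  · intro v
    fin_cases v <;> simp [Fin.sum_univ_six, e1, e2]

lemma GB_all : GB.M 0 = GB.Pts := by
  have h2 : GB.Second 0 ((2 * π / 3) ^ 2) := second_std GB_pos 0 (by positivity)
    ⟨_, GB_eig 0 ⟨(0, 0), by simp [QG.Pts], by simp⟩⟩ GB_low
  refine Subset.antisymm (fun p hp => hp.1) fun p hp => ⟨hp, _, _, h2,
    GB_eig (-(2 * π / 3 * p.2 + 2 * π / 3 * (GB.src p.1).val)) ⟨p, hp, ?_⟩,
    Or.inl fun q _ => ?_⟩
  · simp
  · simp [cos_le_one]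

def QG.deg (G : QG) (v : Fin G.nv) : ℕ :=
  ∑ e, ((if G.src e = v then 1 else 0) + if G.tgt e = v then 1 else 0)

def QG.c4 (G : QG) : ℕ := ∑ v, if G.deg v = 4 then 1 else 0

lemma QG.Joins.cnt {G : QG} {e : Fin G.ne} {a b : Fin G.nv} (h : G.Joins e a b) (v : Fin G.nv) :
    ((if G.src e = v then 1 else 0) + if G.tgt e = v then 1 else 0 : ℕ) =
      (if a = v then 1 else 0) + if b = v then 1 else 0 := by
  rcases h with ⟨h1, h2⟩ | ⟨h1, h2⟩
  · rw [h1, h2]
  · rw [h1, h2, add_comm]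

lemma Insert.c4 {G H : QG} (h : Insert G H) : G.c4 = H.c4 := by
  obtain ⟨φ, ψ, e₀, h1, h2, h3, -⟩ := h
  have d : ∀ o, H.deg (φ o) = o.elim 2 G.deg := by
    intro o
    rw [QG.deg, ← ψ.sum_comp, Fintype.sum_option, h3.cnt,
      ← Finset.add_sum_erase _ _ (Finset.mem_univ e₀), h2.cnt,
      Finset.sum_congr rfl fun e he => ((h1 e (Finset.ne_of_mem_erase he)).1.cnt _)]
    cases o with
    | none => simp
    | some v =>
      simp only [Option.elim, QG.deg, EmbeddingLike.apply_eq_iff_eq, Option.some.injEq]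
      rw [← Finset.add_sum_erase _ _ (Finset.mem_univ e₀)]
      simp
      ring
  rw [QG.c4, QG.c4, ← φ.sum_comp, Fintype.sum_option]
  simp [d]

lemma c4_pumpkin {G : QG} (h : G.Pumpkin) : G.c4 ≠ 3 := by
  have : G.c4 ≤ ∑ _v : Fin G.nv, 1 := Finset.sum_le_sum fun v _ => by split_ifs <;> simp
  simp [h.1] at this
  omega

lemma c4_complete {G : QG} (h : G.Complete) : G.c4 ≠ 3 := by
  classical
  have d : ∀ v, G.deg v = G.nv - 1 := by
    intro v
    have a : ∀ e, ((if G.src e = v then 1 else 0) + if G.tgt e = v then 1 else 0 : ℕ) =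
        ∑ w ∈ Finset.univ.erase v, if G.Joins e v w then 1 else 0 := by
      intro e
      have hn := h.1 e
      by_cases h1 : G.src e = v
      · have h2 : G.tgt e ≠ v := fun h2 => hn (h1.trans h2.symm)
        simp [QG.Joins, h1, h2]
      · by_cases h2 : G.tgt e = v
        · simp [QG.Joins, h1, h2]
        · simp [QG.Joins, h1, h2]
    have b : ∀ w ∈ Finset.univ.erase v, (∑ e, if G.Joins e v w then 1 else 0 : ℕ) = 1 := by
      intro w hw
      obtain ⟨e, he, hu⟩ := h.2.1 v w (Finset.ne_of_mem_erase hw).symm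
      rw [Finset.sum_eq_single e (fun e' _ h' => if_neg fun h'' => h' (hu e' h'')) (by simp),
        if_pos he]
    rw [QG.deg, Finset.sum_congr rfl fun e _ => a e, Finset.sum_comm, Finset.sum_congr rfl b]
    simp
  simp only [QG.c4, d]
  split_ifs with h4
  · simp
    omega
  · simp

lemma GB_new (H : QG) (h : Relation.EqvGen Insert GB H) : ¬ H.Pumpkin ∧ ¬ H.Complete := by
  have : ∀ G H, Relation.EqvGen Insert G H → G.c4 = H.c4 := by
    intro G H h
    induction h with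
    | rel _ _ h => exact h.c4
    | refl => rfl
    | symm _ _ _ ih => exact ih.symm
    | trans _ _ _ _ _ i1 i2 => exact i1.trans i2
  have h3 : H.c4 = 3 := (this _ _ h).symm.trans (by decide)
  exact ⟨fun p => c4_pumpkin p h3, fun p => c4_complete p h3⟩

end Pool.Agent.H88.Hot
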