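import Pool.Agent.H88.Hot1

open Set Real

namespace Pool.Agent.H88.Hot

abbrev GC : QG := ⟨3, 4, ![0, 0, 0, 2], ![1, 1, 2, 1], ![2, 2, 1, 1]⟩

noncomputable def aC : Fin 3 → ℝ := ![0, 0, √3 * π]

lemma GC_pos : ∀ e, 0 < GC.len e := by
  intro e
  fin_cases e <;> simp

lemma aC_nn : ∀ v, 0 ≤ aC v := by
  intro v
  fin_cases v <;> simp [aC]
  positivity

lemma GC_good : GC.Good := by
  refine ⟨GC_pos, fun v w => ?_⟩
  have r : ∀ e, Relation.EqvGen (fun a b => ∃ e ∈ (univ : Set (Fin GC.ne)),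
      GC.src e = a ∧ GC.tgt e = b) (GC.src e) (GC.tgt e) := fun e =>
    .rel _ _ ⟨e, trivial, rfl, rfl⟩
  have z : ∀ v, Relation.EqvGen (fun a b => ∃ e ∈ (univ : Set (Fin GC.ne)),
      GC.src e = a ∧ GC.tgt e = b) 0 v := fun v => by
    fin_cases v
    · exact .refl _
    · exact r 0
    · exact r 2
  exact .trans _ _ _ (.symm _ _ (z v)) (z w)

lemma root (j : ℝ) (h0 : 0 < j) (h1 : j < π / 2)
    (h : 6 * j * sin j * cos j = √3 * π * (3 * cos j ^ 2 - 2)) : j = π / 6 := by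
  have hs : 0 < sin j := sin_pos_of_pos_of_lt_pi h0 (by linarith [pi_pos])
  have hc : 0 < cos j := cos_pos_of_mem_Ioo ⟨by linarith [pi_pos], h1⟩
  have s0 : 0 < √3 * π := by positivity
  have e : 6 * j * sin (2 * j) = √3 * π * (3 * cos (2 * j) - 1) := by
    rw [sin_two_mul, cos_two_mul]
    linear_combination 2 * h
  have hS : 0 < sin (2 * j) := sin_pos_of_pos_of_lt_pi (by linarith) (by linarith)
  have hC : 0 < cos (2 * j) := by
    have : 0 < √3 * π * (3 * cos (2 * j) - 1) := by rw [← e]; positivity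
    have := (mul_pos_iff_of_pos_left s0).1 this
    nlinarith
  have hj : 2 * j < π / 2 := by
    by_contra hn
    have := cos_nonpos_of_pi_div_two_le_of_le (not_lt.1 hn) (by linarith [pi_pos])
    linarith
  rcases lt_trichotomy j (π / 6) with l | l | l
  · have a1 : sin (2 * j) < √3 / 2 := by
      rw [← sin_pi_div_three]
      exact sin_lt_sin_of_lt_of_le_pi_div_two (by linarith [pi_pos]) (by linarith [pi_pos])
        (by linarith)
    have a2 : 1 / 2 < cos (2 * j) := by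
      rw [← cos_pi_div_three]
      exact cos_lt_cos_of_nonneg_of_le_pi (by linarith) (by linarith [pi_pos]) (by linarith)
    have : 6 * j * sin (2 * j) < π * (√3 / 2) :=
      mul_lt_mul'' (by linarith) a1 (by linarith) hS.le
    nlinarith
  · exact l
  · have a1 : √3 / 2 < sin (2 * j) := by
      rw [← sin_pi_div_three]
      exact sin_lt_sin_of_lt_of_le_pi_div_two (by linarith [pi_pos]) hj.le (by linarith)
    have a2 : cos (2 * j) < 1 / 2 := by
      rw [← cos_pi_div_three]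
      exact cos_lt_cos_of_nonneg_of_le_pi (by positivity) (by linarith [pi_pos]) (by linarith)
    have : π * (√3 / 2) < 6 * j * sin (2 * j) :=
      mul_lt_mul'' (by linarith) a1 pi_pos.le (by positivity)
    nlinarith

lemma GC_low (j : ℝ) (h0 : 0 < j) (h1 : j < π / 2) (h : j ^ 2 ∈ GC.Spec aC) : j = π / 6 := by
  obtain ⟨f, hf⟩ := h
  obtain ⟨u, B, -, hn, h2, h3⟩ := eig_data GC_pos h0 hf
  have e0 := h2 0
  have e1 := h2 1
  have e2 := h2 2
  have e3 := h2 3
  have v0 := h3 0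
  have v1 := h3 1
  have v2 := h3 2
  simp [Fin.sum_univ_four, h0.ne', aC, mul_comm j 2, sin_two_mul, cos_two_mul] at e0 e1 e2 e3 v0 v1 v2
  by_contra hne
  have hr := fun h => hne (root j h0 h1 h)
  have hs : 0 < sin j := sin_pos_of_pos_of_lt_pi h0 (by linarith [pi_pos])
  have hc : 0 < cos j := cos_pos_of_mem_Ioo ⟨by linarith [pi_pos], h1⟩
  have p1 := sin_sq_add_cos_sq j
  generalize sin j = s at *
  generalize cos j = c at *
  have q0 : 2 * (u 1 - u 0 * (2 * c ^ 2 - 1)) + 2 * c * (u 2 - u 0 * c) = 0 := by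
    linear_combination e0 + e1 + 2 * c * e2 + 2 * s * c * v0
  have q1 : 2 * (u 0 - u 1 * (2 * c ^ 2 - 1)) + 2 * c * (u 2 - u 1 * c) = 0 := by
    linear_combination -(2 * c ^ 2 - 1) * (e0 + e1) - 2 * c ^ 2 * e3 + 2 * s * c * v1 -
      (8 * c ^ 2 * u 0 + 2 * c * u 2) * p1
  have d : u 1 = u 0 := by
    refine mul_left_cancel₀ (a := 6 * c ^ 2) (by positivity) ?_
    linear_combination q0 - q1
  have q2 : j * (2 * u 0 - 2 * c * u 2) = √3 * π * u 2 * s := by
    linear_combination s * v2 + j * e3 - j * c * e2 - j * u 0 * p1 - j * d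
  have q3 : c * u 2 = u 0 * (3 * c ^ 2 - 2) := by
    rw [d] at q0
    linear_combination q0 / 2
  have u0 : u 0 = 0 := by
    by_contra hu
    refine hr (mul_left_cancel₀ (mul_ne_zero hu hs.ne') ?_)
    linear_combination c * q2 + (2 * j * c + √3 * π * s) * q3 + 6 * j * c * u 0 * p1
  have u1 : u 1 = 0 := d.trans u0
  have u2 : u 2 = 0 := by
    rw [u0, zero_mul] at q3
    exact (mul_eq_zero.1 q3).resolve_left hc.ne'
  simp [u0, u1, u2, hs.ne', hc.ne'] at e0 e1 e2 e3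
  refine hn ⟨fun v => ?_, fun e => ?_⟩
  · fin_cases v <;> simp [*]
  · fin_cases e <;> simp [*]

lemma GC_first : (π / 6) ^ 2 ∈ GC.Spec aC := by
  have s3 : √3 * √3 = 3 := mul_self_sqrt (by norm_num)
  have e2 : π / 6 * 2 = π / 3 := by ring
  refine ⟨_, eig_of GC aC (π / 6) ![3, 3, 3, √3 / 2] ![√3, √3, -(2 * √3), 9 / 2] 0
    ![3, 3, √3 / 2] ⟨(0, 0), by simp [QG.Pts], by simp⟩ ?_ ?_⟩
  · intro e
    fin_cases e <;> simp [e2] <;> linarith
  · intro v
    fin_cases v <;> simp [Fin.sum_univ_four, e2, aC]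
    · ring
    · ring
    · linear_combination (π / 6 - π / 2) * s3

lemma GC_eig (y : ℝ) : GC.IsEig aC ((π / 2) ^ 2) fun e x =>
    ![1, 1, cos (π / 2 * y), cos (π / 2 * y)] e *
      cos (π / 2 * x + ![-(π / 2 * y), π / 2 * y, 0, π / 2] e) +
      (0 : Fin 4 → ℝ) e * sin (π / 2 * x + ![-(π / 2 * y), π / 2 * y, 0, π / 2] e) := by
  refine eig_of GC aC (π / 2) _ _ _ ![cos (π / 2 * y), -cos (π / 2 * y), 0] ?_ ?_ ?_
  · by_cases h : cos (π / 2 * y) = 0
    · refine ⟨(0, 1), by simp [QG.Pts], ?_⟩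
      have h2 := sin_sq_add_cos_sq (π / 2 * y)
      simp [cos_add]
      intro h3
      simp [h, h3] at h2
    · exact ⟨(0, 0), by simp [QG.Pts], by simpa using h⟩
  · intro e
    fin_cases e <;> simp [cos_add]
  · intro v
    fin_cases v <;> simp [Fin.sum_univ_four, sin_add, aC]

lemma GC_second : GC.Second aC ((π / 2) ^ 2) := by
  refine ⟨⟨_, GC_eig 0⟩, _, GC_first, by nlinarith [pi_pos], fun μ hμ hlt => ?_⟩
  rcases le_or_gt μ 0 with h | h
  · obtain ⟨f, hf⟩ := hμ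
    obtain ⟨-, u, ⟨v, hv⟩, h1, h2⟩ := nonpos_data GC_pos aC_nn h hf
    have a2 := h2 2
    have a0 := h1 2
    have a1 := h1 0
    simp [aC, pi_ne_zero] at a0 a1 a2
    refine absurd ?_ hv
    fin_cases v <;> simp [← a0, a1, a2]
  · rw [← GC_low (√μ) (sqrt_pos.2 h) ((sqrt_lt' (by positivity)).2 hlt) (by rwa [sq_sqrt h.le]),
      sq_sqrt h.le]

lemma GC_inf : (GC.M aC).Infinite := by
  refine ((Icc_infinite (by norm_num : (0 : ℝ) < 2)).image
    (f := fun y => ((0 : Fin 4), y)) fun a _ b _ h => (Prod.ext_iff.1 h).2).mono ?_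
  rintro _ ⟨y, hy, rfl⟩
  refine ⟨hy, _, _, GC_second, GC_eig y, Or.inl fun q _ => ?_⟩
  have b : ∀ s t, cos s * cos t ≤ 1 := fun s t => by
    nlinarith [cos_sq_le_one s, cos_sq_le_one t, sq_nonneg (cos s - cos t)]
  obtain ⟨e, x⟩ := q
  fin_cases e <;> simp [b, cos_le_one]

lemma GC_ne : GC.M aC ≠ GC.Pts := by
  intro h
  have hp : ((2 : Fin 4), (1 : ℝ)) ∈ GC.Pts := by simp [QG.Pts]
  obtain ⟨-, lam, f, h1, h2, h3⟩ := h ▸ hp
  rw [second_unique h1 GC_second] at h2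
  obtain ⟨u, B, hf, hn, h2, h4⟩ := eig_data GC_pos (by positivity) h2
  have e0 := h2 0
  have e2 := h2 2
  have e3 := h2 3
  have v0 := h4 0
  have v2 := h4 2
  simp [Fin.sum_univ_four, pi_ne_zero, aC] at e0 e2 e3 v0 v2
  have u2 : u 2 = 0 := by
    rw [← e3, e0] at v2
    simpa [pi_ne_zero] using v2
  have z : f 2 1 = 0 := by
    rw [hf 2 _ hp]
    simp [← e2, u2]
  have ss := same_sign z h3
  have m1 := ss (0, 0) (by simp [QG.Pts]) (0, 2) (by simp [QG.Pts])
  have m2 := ss (0, 1) (by simp [QG.Pts]) (1, 1) (by simp [QG.Pts])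
  simp only at m1 m2
  rw [hf 0 0 (by simp), hf 0 2 (by simp)] at m1
  rw [hf 0 1 (by simp), hf 1 1 (by simp)] at m2
  simp at m1 m2
  have u0 : u 0 = 0 := by nlinarith
  have u1 : u 1 = 0 := by rw [e0, u0, neg_zero]
  have c2 : B 2 = 0 := by rw [← e2, u2]
  have c3 : B 3 = 0 := by rw [← e3, u1]
  have c1 : B 1 = -B 0 := by linarith
  have c0 : B 0 = 0 := by rw [c1] at m2; nlinarith
  refine hn ⟨fun v => ?_, fun e => ?_⟩
  · fin_cases v <;> simp [u0, u1, u2]
  · fin_cases e <;> simp [c0, c1, c2, c3]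

end Pool.Agent.H88.Hot
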