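import Mathlib

open Set

namespace Pool.Agent.H88.Hot

structure QG where
  nv : ℕ
  ne : ℕ
  src : Fin ne → Fin nv
  tgt : Fin ne → Fin nv
  len : Fin ne → ℝ

def QG.Conn (G : QG) (S : Set (Fin G.ne)) : Prop :=
  ∀ v w, Relation.EqvGen (fun a b => ∃ e ∈ S, G.src e = a ∧ G.tgt e = b) v w

def QG.Good (G : QG) : Prop := (∀ e, 0 < G.len e) ∧ G.Conn univ

def QG.Pts (G : QG) : Set (Fin G.ne × ℝ) := {p | p.2 ∈ Icc 0 (G.len p.1)}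

def Ode (lam L : ℝ) (f g : ℝ → ℝ) : Prop :=
  ∀ x ∈ Icc 0 L, HasDerivWithinAt f (g x) (Icc 0 L) x ∧
    HasDerivWithinAt g (-lam * f x) (Icc 0 L) x

def QG.IsEig (G : QG) (α : Fin G.nv → ℝ) (lam : ℝ) (f : Fin G.ne → ℝ → ℝ) : Prop :=
  (∃ p ∈ G.Pts, f p.1 p.2 ≠ 0) ∧ ∃ (g : Fin G.ne → ℝ → ℝ) (u : Fin G.nv → ℝ),
    (∀ e, Ode lam (G.len e) (f e) (g e)) ∧
    (∀ e, f e 0 = u (G.src e) ∧ f e (G.len e) = u (G.tgt e)) ∧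
    ∀ v, (∑ e, if G.src e = v then g e 0 else 0) -
      (∑ e, if G.tgt e = v then g e (G.len e) else 0) = α v * u v

def QG.Spec (G : QG) (α : Fin G.nv → ℝ) : Set ℝ := {lam | ∃ f, G.IsEig α lam f}

def QG.Second (G : QG) (α : Fin G.nv → ℝ) (lam : ℝ) : Prop :=
  lam ∈ G.Spec α ∧ ∃ l₁ ∈ G.Spec α, l₁ < lam ∧ ∀ μ ∈ G.Spec α, μ < lam → μ = l₁

def QG.M (G : QG) (α : Fin G.nv → ℝ) : Set (Fin G.ne × ℝ) :=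
  {p | p ∈ G.Pts ∧ ∃ lam f, G.Second α lam ∧ G.IsEig α lam f ∧
    ((∀ q ∈ G.Pts, f q.1 q.2 ≤ f p.1 p.2) ∨ ∀ q ∈ G.Pts, f p.1 p.2 ≤ f q.1 q.2)}

def QG.Joins (G : QG) (e : Fin G.ne) (v w : Fin G.nv) : Prop :=
  (G.src e = v ∧ G.tgt e = w) ∨ (G.src e = w ∧ G.tgt e = v)

def Insert (G H : QG) : Prop :=
  ∃ (φ : Option (Fin G.nv) ≃ Fin H.nv) (ψ : Option (Fin G.ne) ≃ Fin H.ne) (e₀ : Fin G.ne),
    (∀ e, e ≠ e₀ → H.Joins (ψ (some e)) (φ (some (G.src e))) (φ (some (G.tgt e))) ∧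
      H.len (ψ (some e)) = G.len e) ∧
    H.Joins (ψ (some e₀)) (φ (some (G.src e₀))) (φ none) ∧
    H.Joins (ψ none) (φ none) (φ (some (G.tgt e₀))) ∧
    H.len (ψ (some e₀)) + H.len (ψ none) = G.len e₀

def QG.Pumpkin (G : QG) : Prop :=
  G.nv = 2 ∧ 2 ≤ G.ne ∧ (∀ e, G.src e ≠ G.tgt e) ∧ ∀ e e', G.len e = G.len e'

def QG.Complete (G : QG) : Prop :=
  (∀ e, G.src e ≠ G.tgt e) ∧ (∀ v w, v ≠ w → ∃! e, G.Joins e v w) ∧ ∀ e e', G.len e = G.len e'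

end Pool.Agent.H88.Hot
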