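import Mathlib

namespace Pool.Agent.H88.Hx

open MeasureTheory

/-- Normalized Haar measure `m` on `𝕋 = ℝ/ℤ`. -/
noncomputable abbrev mT : Measure UnitAddCircle := AddCircle.haarAddCircle

/-- `L^∞(𝕋, m)`, complex scalars. -/
noncomputable abbrev Linf : Type := Lp ℂ ⊤ mT

/-- All negative Fourier coefficients of `g ∈ L^∞` vanish, i.e. `g ∈ H^∞`. -/
def InHinf (g : Linf) : Prop := ∀ k : ℤ, k < 0 → fourierCoeff (⇑g) k = 0

/-- `X_Φ = {f ∈ X : φ f = 0 for all φ ∈ Φ}`. -/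
def kerAll {X : Type} [NormedAddCommGroup X] [NormedSpace ℂ X] (Φ : Finset (StrongDual ℂ X)) :
    Submodule ℂ X where
  carrier := {f | ∀ φ ∈ Φ, φ f = 0}
  add_mem' := fun hf hg φ hφ => by rw [map_add, hf φ hφ, hg φ hφ, add_zero]
  zero_mem' := fun φ _ => map_zero φ
  smul_mem' := fun c _ hf φ hφ => by rw [map_smul, hf φ hφ, smul_zero]

/-- `x` is an exposed point of the closed unit ball of `X`. -/
def IsExposedPt {X : Type} [NormedAddCommGroup X] [NormedSpace ℂ X] (x : X) : Prop :=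
  ‖x‖ ≤ 1 ∧ ∃ φ : StrongDual ℂ X, ‖φ‖ = 1 ∧ {y : X | ‖y‖ ≤ 1 ∧ φ y = 1} = {x}

/-- `m({ζ : |f(ζ)| = 1})`. -/
noncomputable def unimod (f : Linf) : ENNReal := mT {t | ‖f t‖ = 1}

end Pool.Agent.H88.Hx
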