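import Mathlib
import Pool.Agent.H88.HxDefs

/-! Bounded functions on the circle with vanishing negative Fourier coefficients. -/

namespace Pool.Agent.H88.Hx

open MeasureTheory Filter Topology Complex
open scoped ComplexConjugate InnerProductSpace

abbrev TT := UnitAddCircle
noncomputable abbrev L2 := Lp ℂ 2 mT

structure An (u : TT → ℂ) (a : ℂ) : Prop where
  meas : AEStronglyMeasurable u mT
  bdd : ∃ C, ∀ᵐ t ∂mT, ‖u t‖ ≤ C
  neg : ∀ k : ℤ, k < 0 → fourierCoeff u k = 0
  zero : fourierCoeff u 0 = a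

lemma norm_four (k : ℤ) (t : TT) : ‖fourier k t‖ = 1 := by
  rw [fourier_apply]; exact Circle.norm_coe _

lemma coeff_zero (u : TT → ℂ) : fourierCoeff u 0 = ∫ t, u t ∂mT := by
  simp [fourierCoeff]

lemma An.memLp {u : TT → ℂ} {a : ℂ} (h : An u a) (p : ENNReal) : MemLp u p mT := by
  obtain ⟨C, hC⟩ := h.bdd
  exact MemLp.of_bound h.meas C hC

lemma An.int {u : TT → ℂ} {a : ℂ} (h : An u a) : Integrable u mT :=
  memLp_one_iff_integrable.1 (h.memLp 1)

lemma An.congr {u v : TT → ℂ} {a : ℂ} (h : An u a) (e : u =ᵐ[mT] v) : An v a := by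
  obtain ⟨C, hC⟩ := h.bdd
  refine ⟨h.meas.congr e, ⟨C, ?_⟩, fun k hk => ?_, ?_⟩
  · filter_upwards [hC, e] with t h1 h2
    rwa [← h2]
  · rw [← fourierCoeff_congr_ae e, h.neg k hk]
  · rw [← fourierCoeff_congr_ae e, h.zero]

lemma an_four (k : ℤ) (hk : 0 ≤ k) : An (fourier k) (if k = 0 then 1 else 0) := by
  refine ⟨(fourier k).continuous.aestronglyMeasurable,
    ⟨1, Eventually.of_forall fun t => (norm_four k t).le⟩, fun j hj => ?_, ?_⟩
  · rw [fourierCoeff_fourier, Pi.single_apply, if_neg (by omega)]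
  · rw [fourierCoeff_fourier, Pi.single_apply]
    simp [eq_comm]

lemma An.const_mul {u : TT → ℂ} {a : ℂ} (h : An u a) (c : ℂ) :
    An (fun t => c * u t) (c * a) := by
  obtain ⟨C, hC⟩ := h.bdd
  refine ⟨h.meas.const_mul c, ⟨‖c‖ * C, ?_⟩, fun k hk => ?_, ?_⟩
  · filter_upwards [hC] with t ht
    rw [norm_mul]; gcongr
  · rw [fourierCoeff.const_mul, h.neg k hk, mul_zero]
  · rw [fourierCoeff.const_mul, h.zero]

lemma an_const (c : ℂ) : An (fun _ => c) c := by
  have := (an_four 0 le_rfl).const_mul c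
  simpa using this

lemma An.add {u v : TT → ℂ} {a b : ℂ} (h : An u a) (h' : An v b) :
    An (fun t => u t + v t) (a + b) := by
  obtain ⟨C, hC⟩ := h.bdd
  obtain ⟨C', hC'⟩ := h'.bdd
  have e := fourierCoeff.add h.int h'.int
  refine ⟨h.meas.add h'.meas, ⟨C + C', ?_⟩, fun k hk => ?_, ?_⟩
  · filter_upwards [hC, hC'] with t h1 h2
    exact norm_add_le_of_le h1 h2
  · have := congrFun e k
    rw [Pi.add_apply, h.neg k hk, h'.neg k hk, add_zero] at this
    exact this
  · have := congrFun e 0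
    rw [Pi.add_apply, h.zero, h'.zero] at this
    exact this

lemma inner_four (x : L2) (i : ℤ) : ⟪(fourierBasis i : L2), x⟫_ℂ = fourierCoeff x i := by
  rw [← fourierBasis_repr, HilbertBasis.repr_apply_apply]

lemma coeff_mul {u v : TT → ℂ} (hu : MemLp u 2 mT) (hv : MemLp v 2 mT) (k : ℤ) :
    HasSum (fun i : ℤ => fourierCoeff u (k - i) * fourierCoeff v i)
      (fourierCoeff (fun t => u t * v t) k) := by
  have ha : MemLp (fun t => conj (fourier (-k) t * u t)) 2 mT := by
    refine hu.of_le ?_ (Eventually.of_forall fun t => ?_)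
    · exact Complex.continuous_conj.comp_aestronglyMeasurable
        ((fourier (-k)).continuous.aestronglyMeasurable.mul hu.1)
    · rw [RCLike.norm_conj, norm_mul, norm_four, one_mul]
  have h := (fourierBasis (T := 1)).hasSum_inner_mul_inner (ha.toLp _) (hv.toLp _)
  have e1 : ⟪ha.toLp _, hv.toLp _⟫_ℂ = fourierCoeff (fun t => u t * v t) k := by
    rw [L2.inner_def, fourierCoeff]
    refine integral_congr_ae ?_
    filter_upwards [ha.coeFn_toLp, hv.coeFn_toLp] with t h1 h2
    rw [h1, h2, RCLike.inner_apply, Complex.conj_conj, smul_eq_mul]; ring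
  have e2 : ∀ i : ℤ, ⟪ha.toLp _, (fourierBasis i : L2)⟫_ℂ = fourierCoeff u (k - i) := by
    intro i
    rw [L2.inner_def, fourierCoeff, coe_fourierBasis]
    refine integral_congr_ae ?_
    filter_upwards [ha.coeFn_toLp, coeFn_fourierLp (T := 1) 2 i] with t h1 h2
    rw [h1, h2, RCLike.inner_apply, Complex.conj_conj, smul_eq_mul, neg_sub, sub_eq_add_neg,
      fourier_add]
    ring
  have e3 : ∀ i : ℤ, ⟪(fourierBasis i : L2), hv.toLp _⟫_ℂ = fourierCoeff v i := by
    intro i
    rw [inner_four, fourierCoeff_congr_ae hv.coeFn_toLp]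
  simp only [e1, e2, e3] at h
  exact h

lemma An.mul {u v : TT → ℂ} {a b : ℂ} (h : An u a) (h' : An v b) :
    An (fun t => u t * v t) (a * b) := by
  obtain ⟨C, hC⟩ := h.bdd
  obtain ⟨C', hC'⟩ := h'.bdd
  refine ⟨h.meas.mul h'.meas, ⟨C * C', ?_⟩, fun k hk => ?_, ?_⟩
  · filter_upwards [hC, hC'] with t h1 h2
    exact norm_mul_le_of_le h1 h2
  · refine (coeff_mul (h.memLp 2) (h'.memLp 2) k).unique ?_
    have : (fun i : ℤ => fourierCoeff u (k - i) * fourierCoeff v i) = fun _ => 0 := by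
      funext i
      rcases lt_or_ge i 0 with hi | hi
      · rw [h'.neg i hi, mul_zero]
      · rw [h.neg _ (by omega), zero_mul]
    rw [this]
    exact hasSum_zero
  · refine (coeff_mul (h.memLp 2) (h'.memLp 2) 0).unique ?_
    have := hasSum_single (f := fun i : ℤ => fourierCoeff u (0 - i) * fourierCoeff v i) 0
      (fun i hi => by
        rcases lt_or_gt_of_ne hi with hi | hi
        · rw [h'.neg i hi, mul_zero]
        · rw [h.neg _ (by omega), zero_mul])
    rw [sub_zero, h.zero, h'.zero] at this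
    exact this

lemma An.pow {u : TT → ℂ} {a : ℂ} (h : An u a) (n : ℕ) : An (fun t => u t ^ n) (a ^ n) := by
  induction n with
  | zero => simpa using an_const 1
  | succ n ih => simpa only [pow_succ] using ih.mul h

lemma An.lim {u : ℕ → TT → ℂ} {a : ℕ → ℂ} (h : ∀ n, An (u n) (a n)) {C : ℝ}
    (hC : ∀ n, ∀ᵐ t ∂mT, ‖u n t‖ ≤ C) {v : TT → ℂ}
    (hv : ∀ᵐ t ∂mT, Tendsto (fun n => u n t) atTop (𝓝 (v t))) {b : ℂ}
    (hb : Tendsto a atTop (𝓝 b)) : An v b := by
  have hc : ∀ k : ℤ, Tendsto (fun n => fourierCoeff (u n) k) atTop (𝓝 (fourierCoeff v k)) := by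
    intro k
    refine tendsto_integral_of_dominated_convergence (fun _ => C)
      (fun n => (fourier (-k)).continuous.aestronglyMeasurable.smul (h n).meas)
      (integrable_const C) (fun n => ?_) ?_
    · filter_upwards [hC n] with t ht
      rwa [norm_smul, norm_four, one_mul]
    · filter_upwards [hv] with t ht
      exact ht.const_smul _
  refine ⟨aestronglyMeasurable_of_tendsto_ae atTop (fun n => (h n).meas) hv, ⟨C, ?_⟩,
    fun k hk => ?_, ?_⟩
  · filter_upwards [ae_all_iff.2 hC, hv] with t h1 h2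
    exact le_of_tendsto' h2.norm h1
  · have := hc k
    simp only [(h _).neg k hk] at this
    exact tendsto_nhds_unique this tendsto_const_nhds
  · have := hc 0
    simp only [(h _).zero] at this
    exact tendsto_nhds_unique this hb

lemma An.norm_le {u : TT → ℂ} {a : ℂ} (h : An u a) {C : ℝ} (hC : ∀ᵐ t ∂mT, ‖u t‖ ≤ C) :
    ‖a‖ ≤ C := by
  rw [← h.zero, coeff_zero]
  simpa using norm_integral_le_of_norm_le_const hC

lemma An.comp_ball {u : TT → ℂ} {a : ℂ} (h : An u a) {c : ℂ} {ρ R : ℝ} (hρ : 0 ≤ ρ)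
    (hR : ρ < R) (hu : ∀ᵐ t ∂mT, ‖u t - c‖ ≤ ρ) {φ : ℂ → ℂ}
    (hφ : DifferentiableOn ℂ φ (Metric.ball c R)) : An (fun t => φ (u t)) (φ a) := by
  obtain ⟨R', h1, h2⟩ := exists_between hR
  lift ρ to NNReal using hρ
  lift R' to NNReal using (ρ.2.trans h1.le)
  have h1' : ρ < R' := by exact_mod_cast h1
  have hp := (hφ.mono (Metric.closedBall_subset_ball h2)).hasFPowerSeriesOnBall
    (lt_of_le_of_lt (zero_le (a := ρ)) h1')
  set p := cauchyPowerSeries φ c R'
  have hsum := p.summable_norm_mul_pow (r := ρ)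
    (lt_of_lt_of_le (by exact_mod_cast h1') hp.r_le)
  have hc : An (fun t => u t - c) (a - c) := by
    simpa only [sub_eq_add_neg] using h.add (an_const (-c))
  have hS : ∀ n, An (fun t => ∑ i ∈ Finset.range n, p.coeff i * (u t - c) ^ i)
      (∑ i ∈ Finset.range n, p.coeff i * (a - c) ^ i) := by
    intro n
    induction n with
    | zero => simpa using an_const 0
    | succ n ih => simpa only [Finset.sum_range_succ] using ih.add ((hc.pow n).const_mul _)
  have hlim : ∀ z : ℂ, ‖z - c‖ ≤ ρ →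
      Tendsto (fun n => ∑ i ∈ Finset.range n, p.coeff i * (z - c) ^ i) atTop (𝓝 (φ z)) := by
    intro z hz
    have hm : z - c ∈ Metric.eball (0 : ℂ) R' := by
      rw [Metric.eball_coe, mem_ball_zero_iff]; exact hz.trans_lt h1
    have := (hp.hasSum hm).tendsto_sum_nat
    simp only [FormalMultilinearSeries.apply_eq_pow_smul_coeff, smul_eq_mul, add_sub_cancel]
      at this
    simpa only [mul_comm] using this
  refine An.lim hS (C := ∑' i, ‖p i‖ * (ρ : ℝ) ^ i) (fun n => ?_) ?_
    (hlim a (hc.norm_le hu))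
  · filter_upwards [hu] with t ht
    refine (norm_sum_le _ _).trans (le_trans (Finset.sum_le_sum fun i _ => ?_)
      (hsum.sum_le_tsum _ fun i _ => by positivity))
    rw [norm_mul, norm_pow, FormalMultilinearSeries.norm_apply_eq_norm_coef]
    gcongr
  · filter_upwards [hu] with t ht
    exact hlim _ ht

lemma An.comp_half {u : TT → ℂ} {a : ℂ} (h : An u a) (hu : ∀ᵐ t ∂mT, -1 / 2 ≤ (u t).re)
    {φ : ℂ → ℂ} (hφ : DifferentiableOn ℂ φ {z | -1 < z.re}) : An (fun t => φ (u t)) (φ a) := by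
  obtain ⟨M, hM⟩ := h.bdd
  refine h.comp_ball (c := (M ^ 2 : ℝ)) (ρ := √(M ^ 2 + M ^ 2 + (M ^ 2) ^ 2)) (R := M ^ 2 + 1)
    (Real.sqrt_nonneg _) ?_ ?_ (hφ.mono fun z hz => ?_)
  · rw [Real.sqrt_lt' (by positivity)]; nlinarith
  · filter_upwards [hu, hM] with t h1 h2
    refine Real.le_sqrt_of_sq_le ?_
    have h3 : ‖u t‖ ^ 2 ≤ M ^ 2 := pow_le_pow_left₀ (norm_nonneg _) h2 2
    rw [Complex.sq_norm, Complex.normSq_apply] at h3 ⊢
    simp only [sub_re, ofReal_re, sub_im, ofReal_im]
    nlinarith [sq_nonneg M]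
  · rw [Metric.mem_ball, dist_eq_norm] at hz
    have := (abs_le.1 ((Complex.abs_re_le_norm _).trans hz.le)).1
    have h4 := Complex.abs_re_le_norm (z - (M ^ 2 : ℝ))
    have h5 := (abs_lt.1 (h4.trans_lt hz)).1
    simp only [sub_re, ofReal_re] at h5
    show -1 < z.re
    linarith

end Pool.Agent.H88.Hx
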