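import Mathlib
import Pool.Agent.H88.Hx1

/-! Analytic completion of a nonnegative `L²` function; uniqueness theorem; peak functions. -/

namespace Pool.Agent.H88.Hx

open MeasureTheory Filter Topology Complex
open scoped ComplexConjugate InnerProductSpace

noncomputable def K0 : Submodule ℂ L2 :=
  (Submodule.span ℂ (Set.range fun n : ℕ => (fourierLp 2 (n : ℤ) : L2)))ᗮ

instance : K0.HasOrthogonalProjection := by
  unfold K0; infer_instance

noncomputable def cj : L2 →L[ℝ] L2 := (Complex.conjCLE : ℂ →L[ℝ] ℂ).compLpL 2 mT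

lemma cj_coe (x : L2) : cj x =ᵐ[mT] fun t => conj (x t) :=
  (Complex.conjCLE : ℂ →L[ℝ] ℂ).coeFn_compLpL x

noncomputable def AA (x : L2) : L2 := x - K0.starProjection x + cj (K0.starProjection x)

lemma AA_cont : Continuous AA := by unfold AA; fun_prop

lemma AA_add (x y : L2) : AA (x + y) = AA x + AA y := by
  simp only [AA, map_add]; abel

lemma AA_re (x : L2) : ∀ᵐ t ∂mT, (AA x t).re = (x t).re := by
  filter_upwards [Lp.coeFn_add (x - K0.starProjection x) (cj (K0.starProjection x)),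
    Lp.coeFn_sub x (K0.starProjection x), cj_coe (K0.starProjection x)] with t h1 h2 h3
  rw [AA, h1, Pi.add_apply, h2, h3]
  simp

lemma AA_four (c : ℂ) (k : ℤ) : ∃ a, An (AA (c • fourierLp 2 k)) a := by
  have hco : (c • fourierLp 2 k : L2) =ᵐ[mT] fun t => c * fourier k t := by
    filter_upwards [Lp.coeFn_smul c (fourierLp (T := 1) 2 k), coeFn_fourierLp (T := 1) 2 k]
      with t h1 h2
    rw [h1, Pi.smul_apply, h2, smul_eq_mul]
  rcases lt_or_ge k 0 with hk | hk
  · have hm : (c • fourierLp 2 k : L2) ∈ K0 := by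
      refine K0.smul_mem c ?_
      rw [K0, Submodule.mem_orthogonal]
      intro u hu
      refine Submodule.span_induction (p := fun u _ => ⟪u, (fourierLp 2 k : L2)⟫_ℂ = 0)
        ?_ (by simp) (fun x y _ _ hx hy => by rw [inner_add_left, hx, hy, add_zero])
        (fun a x _ hx => by rw [inner_smul_left, hx, mul_zero]) hu
      rintro _ ⟨n, rfl⟩
      exact orthonormal_fourier.inner_eq_zero (by omega)
    rw [AA, Submodule.starProjection_eq_self_iff.2 hm, sub_self, zero_add]
    refine ⟨_, ((an_four (-k) (by omega)).const_mul (conj c)).congr ?_⟩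
    filter_upwards [cj_coe (c • fourierLp 2 k), hco] with t h1 h2
    rw [h1, h2, map_mul, fourier_neg]
  · have hm : (c • fourierLp 2 k : L2) ∈ K0ᗮ := by
      refine Submodule.le_orthogonal_orthogonal _ (Submodule.smul_mem _ c ?_)
      refine Submodule.subset_span ⟨k.toNat, ?_⟩
      simp only [Int.toNat_of_nonneg hk]
    rw [AA, (Submodule.starProjection_apply_eq_zero_iff K0).2 hm, sub_zero, map_zero, add_zero]
    exact ⟨_, ((an_four k hk).const_mul c).congr hco.symm⟩

lemma AA_span {p : C(TT, ℂ)} (hp : p ∈ Submodule.span ℂ (Set.range (@fourier 1))) (c : ℂ) :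
    ∃ a, An (AA (c • ContinuousMap.toLp 2 mT ℂ p)) a := by
  induction hp using Submodule.span_induction generalizing c with
  | mem x hx =>
    obtain ⟨k, rfl⟩ := hx
    exact AA_four c k
  | zero =>
    refine ⟨0, (an_const 0).congr ?_⟩
    have : AA 0 = 0 := by simp [AA]
    rw [map_zero, smul_zero, this]
    exact (Lp.coeFn_zero ℂ 2 mT).symm
  | add x y _ _ hx hy =>
    obtain ⟨a, ha⟩ := hx c
    obtain ⟨b, hb⟩ := hy c
    rw [map_add, smul_add, AA_add]
    exact ⟨_, (ha.add hb).congr (Lp.coeFn_add _ _).symm⟩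
  | smul d x _ hx =>
    rw [map_smul, smul_smul]
    exact hx _

lemma approx (W : L2) (hW : ∀ᵐ t ∂mT, (W t).im = 0 ∧ 0 ≤ (W t).re) {ε : ℝ} (hε : 0 < ε) :
    ∃ x : L2, ‖x - W‖ ≤ ε ∧ (∀ᵐ t ∂mT, -1 / 2 ≤ (AA x t).re) ∧ ∃ a, An (AA x) a := by
  obtain ⟨g, hg⟩ := (ContinuousMap.toLp_denseRange ℂ mT ℂ (p := 2) (by simp)).exists_dist_lt W
    (half_pos hε)
  let g' : C(TT, ℂ) := ⟨fun t => (‖g t‖ : ℂ), by fun_prop⟩
  have h1 : ‖ContinuousMap.toLp 2 mT ℂ g' - W‖ ≤ ‖ContinuousMap.toLp 2 mT ℂ g - W‖ := by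
    refine Lp.norm_le_norm_of_ae_le ?_
    filter_upwards [Lp.coeFn_sub (ContinuousMap.toLp 2 mT ℂ g') W,
      Lp.coeFn_sub (ContinuousMap.toLp 2 mT ℂ g) W, ContinuousMap.coeFn_toLp (p := 2) mT (𝕜 := ℂ) g,
      ContinuousMap.coeFn_toLp (p := 2) mT (𝕜 := ℂ) g', hW] with t a1 a2 a3 a4 a5
    rw [a1, a2, Pi.sub_apply, Pi.sub_apply, a3, a4]
    have e : W t = ((‖W t‖ : ℝ) : ℂ) := by
      have : W t = ((W t).re : ℂ) := Complex.ext (by simp) (by simp [a5.1])
      rw [this, norm_real, Real.norm_of_nonneg a5.2]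
    have : g' t - W t = ((‖g t‖ - ‖W t‖ : ℝ) : ℂ) := by
      conv_lhs => rw [e]
      simp [g']
    rw [this, norm_real, Real.norm_eq_abs]
    exact abs_norm_sub_norm_le _ _
  have hd : g' ∈ closure (Submodule.span ℂ (Set.range (@fourier 1)) : Set C(TT, ℂ)) := by
    rw [← Submodule.topologicalClosure_coe, span_fourier_closure_eq_top]; trivial
  obtain ⟨p, hp, hpg⟩ := Metric.mem_closure_iff.1 hd (min (ε / 2) (1 / 2)) (by positivity)
  rw [dist_comm, dist_eq_norm] at hpg hg
  have hpt : ∀ t, ‖p t - g' t‖ ≤ min (ε / 2) (1 / 2) := fun t =>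
    ((p - g').norm_coe_le_norm t).trans hpg.le
  refine ⟨ContinuousMap.toLp 2 mT ℂ p, ?_, ?_, by simpa using AA_span hp 1⟩
  · have h2 : ‖ContinuousMap.toLp 2 mT ℂ p - ContinuousMap.toLp 2 mT ℂ g'‖ ≤ ε / 2 := by
      rw [← map_sub]
      have := Lp.norm_le_of_ae_bound (f := ContinuousMap.toLp 2 mT ℂ (p - g'))
        (half_pos hε).le (by
          filter_upwards [ContinuousMap.coeFn_toLp (p := 2) mT (𝕜 := ℂ) (p - g')] with t ht
          rw [ht]
          exact (hpt t).trans (min_le_left _ _))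
      simpa [measureUnivNNReal] using this
    have := norm_sub_le_norm_sub_add_norm_sub (ContinuousMap.toLp 2 mT ℂ p)
      (ContinuousMap.toLp 2 mT ℂ g') W
    linarith
  · filter_upwards [AA_re (ContinuousMap.toLp 2 mT ℂ p),
      ContinuousMap.coeFn_toLp (p := 2) mT (𝕜 := ℂ) p] with t h2 h3
    rw [h2, h3]
    have h4 := (abs_le.1 ((Complex.abs_re_le_norm _).trans ((hpt t).trans (min_le_right _ _)))).1
    simp only [sub_re, g', ContinuousMap.coe_mk, ofReal_re] at h4
    linarith [norm_nonneg (g t)]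

theorem comp2 {w : TT → ℝ} (hw : MemLp w 2 mT) (h0 : ∀ t, 0 ≤ w t) :
    ∃ (F : TT → ℂ) (a : ℂ), AEStronglyMeasurable F mT ∧ (∀ᵐ t ∂mT, (F t).re = w t) ∧
      a.re = ∫ t, w t ∂mT ∧ ∀ (φ : ℂ → ℂ) (C : ℝ), DifferentiableOn ℂ φ {z | -1 < z.re} →
        (∀ z : ℂ, -1 / 2 ≤ z.re → ‖φ z‖ ≤ C) → An (fun t => φ (F t)) (φ a) := by
  have hW : MemLp (fun t => (w t : ℂ)) 2 mT := hw.ofReal
  set W : L2 := hW.toLp _
  have hWc : W =ᵐ[mT] fun t => (w t : ℂ) := hW.coeFn_toLp
  have hre : ∀ᵐ t ∂mT, (AA W t).re = w t := by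
    filter_upwards [AA_re W, hWc] with t h1 h2
    rw [h1, h2, ofReal_re]
  choose x hx1 hx2 a ha using fun n : ℕ => approx W (by
    filter_upwards [hWc] with t ht
    rw [ht]; simpa using h0 t) (Nat.one_div_pos_of_nat (n := n))
  have hx : Tendsto x atTop (𝓝 W) := by
    rw [tendsto_iff_norm_sub_tendsto_zero]
    exact squeeze_zero (fun _ => norm_nonneg _) hx1 tendsto_one_div_add_atTop_nhds_zero_nat
  have hA : Tendsto (fun n => AA (x n)) atTop (𝓝 (AA W)) := (AA_cont.tendsto W).comp hx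
  obtain ⟨ns, hns, hae⟩ := (tendstoInMeasure_of_tendsto_Lp hA).exists_seq_tendsto_ae
  have hare : (fourierCoeff (AA W) 0).re = ∫ t, w t ∂mT := by
    rw [coeff_zero]
    have := reCLM.integral_comp_comm ((Lp.memLp (AA W)).integrable one_le_two)
    simp only [reCLM_apply] at this
    rw [← this]
    exact integral_congr_ae hre
  have halim : Tendsto a atTop (𝓝 (fourierCoeff (AA W) 0)) := by
    have : a = fun n => ⟪(fourierBasis 0 : L2), AA (x n)⟫_ℂ := by
      funext n; rw [inner_four, (ha n).zero]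
    rw [this, ← inner_four]
    exact tendsto_const_nhds.inner hA
  refine ⟨AA W, fourierCoeff (AA W) 0, Lp.aestronglyMeasurable _, hre, hare,
    fun φ C hφ hC => ?_⟩
  have hop : IsOpen {z : ℂ | -1 < z.re} := isOpen_lt continuous_const continuous_re
  have hca : ∀ z : ℂ, 0 ≤ z.re → ContinuousAt φ z := fun z hz =>
    hφ.continuousOn.continuousAt (hop.mem_nhds (by show -1 < z.re; linarith))
  refine An.lim (fun n => (ha (ns n)).comp_half (hx2 _) hφ) (C := C) (fun n => ?_) ?_ ?_
  · filter_upwards [hx2 (ns n)] with t ht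
    exact hC _ ht
  · filter_upwards [hae, hre] with t h1 h2
    exact (hca _ (h2 ▸ h0 t)).tendsto.comp h1
  · exact (hca _ (hare ▸ integral_nonneg h0)).tendsto.comp (halim.comp hns.tendsto_atTop)

lemma uniq0 {E : Set TT} (hE : MeasurableSet E) (hE0 : mT E ≠ 0) {g : TT → ℂ} {b : ℂ}
    (hg : An g b) (h0 : ∀ᵐ t ∂mT, t ∈ E → g t = 0) : b = 0 := by
  obtain ⟨F, a, -, h2, h3, h4⟩ := comp2 (w := Eᶜ.indicator fun _ => 1)
    ((memLp_const 1).indicator hE.compl) (fun t => Set.indicator_nonneg (fun _ _ => zero_le_one) t)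
  rw [integral_indicator_const _ hE.compl, smul_eq_mul, mul_one,
    probReal_compl_eq_one_sub hE] at h3
  obtain ⟨C, hC⟩ := hg.bdd
  have hp : 0 < mT.real E := ENNReal.toReal_pos hE0 (measure_ne_top _ _)
  have key : ∀ n : ℕ, ‖b‖ ≤ C * Real.exp (-mT.real E) ^ n := by
    intro n
    have h5 := hg.mul (h4 (fun z => exp (-(n * z))) (Real.exp (n / 2)) (by fun_prop)
      fun z hz => by
        rw [norm_exp, Real.exp_le_exp]
        simp only [neg_re, mul_re, natCast_re, natCast_im, zero_mul, sub_zero]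
        nlinarith [(Nat.cast_nonneg n : (0 : ℝ) ≤ n)])
    have h6 := h5.norm_le (C := C * Real.exp (-n)) (by
      filter_upwards [hC, h0, h2] with t a1 a2 a3
      by_cases ht : t ∈ E
      · rw [a2 ht, zero_mul, norm_zero]
        exact mul_nonneg ((norm_nonneg _).trans a1) (Real.exp_pos _).le
      · rw [Set.indicator_of_mem (Set.mem_compl ht)] at a3
        rw [norm_mul, norm_exp]
        simp only [neg_re, mul_re, natCast_re, natCast_im, zero_mul, sub_zero, a3, mul_one]
        gcongr)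
    rw [norm_mul, norm_exp] at h6
    simp only [neg_re, mul_re, natCast_re, natCast_im, zero_mul, sub_zero, h3] at h6
    rw [← Real.exp_nat_mul]
    have e : Real.exp (-n) = Real.exp (n * -mT.real E) * Real.exp (-(n * (1 - mT.real E))) := by
      rw [← Real.exp_add]; ring_nf
    rw [e, ← mul_assoc] at h6
    exact le_of_mul_le_mul_right h6 (Real.exp_pos _)
  have hl : Tendsto (fun n : ℕ => C * Real.exp (-mT.real E) ^ n) atTop (𝓝 (C * 0)) :=
    (tendsto_pow_atTop_nhds_zero_of_lt_one (Real.exp_pos _).le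
      ((Real.exp_lt_exp.2 (by linarith)).trans_eq Real.exp_zero)).const_mul C
  rw [mul_zero] at hl
  exact norm_le_zero_iff.1 (ge_of_tendsto' hl key)

theorem uniq {E : Set TT} (hE : MeasurableSet E) (hE0 : mT E ≠ 0) {g : TT → ℂ} {b : ℂ}
    (hg : An g b) (h0 : ∀ᵐ t ∂mT, t ∈ E → g t = 0) : g =ᵐ[mT] 0 := by
  have hsh : ∀ n k : ℤ, fourierCoeff (fun t => fourier (-n) t * g t) k =
      fourierCoeff g (k + n) := by
    intro n k
    simp only [fourierCoeff, smul_eq_mul]
    congr 1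
    funext t
    rw [neg_add, fourier_add, mul_assoc]
  have key : ∀ n : ℕ, ∀ k : ℤ, k < n → fourierCoeff g k = 0 := by
    intro n
    induction n with
    | zero => exact fun k hk => hg.neg k (by simpa using hk)
    | succ n ih =>
      intro k hk
      rcases lt_or_ge k n with h | h
      · exact ih k h
      obtain ⟨C, hC⟩ := hg.bdd
      have h1 : An (fun t => fourier (-(n : ℤ)) t * g t) (fourierCoeff g n) :=
        ⟨(fourier _).continuous.aestronglyMeasurable.mul hg.meas, ⟨C, by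
          filter_upwards [hC] with t ht
          rwa [norm_mul, norm_four, one_mul]⟩, fun j hj => by
          rw [hsh]; exact ih _ (by omega), by rw [hsh, zero_add]⟩
      have : k = n := by push_cast at hk; omega
      rw [this]
      refine uniq0 hE hE0 h1 ?_
      filter_upwards [h0] with t ht h
      rw [ht h, mul_zero]
  have h2 := hg.memLp 2
  have h3 : h2.toLp _ = 0 := by
    apply (fourierBasis (T := 1)).repr.injective
    ext i
    rw [fourierBasis_repr, fourierCoeff_congr_ae h2.coeFn_toLp, key (i.toNat + 1) i (by omega)]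
    simp
  have := h2.coeFn_toLp
  rw [h3] at this
  exact this.symm.trans (Lp.coeFn_zero ℂ 2 mT)

lemma weight (A : ℕ → Set TT) (hA : ∀ k, MeasurableSet (A k)) (anti : Antitone A)
    (h0 : Tendsto (fun k => mT (A k)) atTop (𝓝 0)) :
    ∃ w : TT → ℝ, MemLp w 2 mT ∧ (∀ t, 0 ≤ w t) ∧
      ∀ M : ℝ, ∃ k, ∀ᵐ t ∂mT, t ∈ A k → M ≤ w t := by
  have : ∀ j : ℕ, ∃ k, mT (A k) ≤ 2⁻¹ ^ j := fun j =>
    ((ENNReal.tendsto_nhds_zero.1 h0) _ (ENNReal.pow_pos (by simp) j)).exists
  choose k hk using this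
  let v : TT → ENNReal := fun t => ∑' j, (A (k j)).indicator 1 t
  have hm : ∀ j, Measurable fun t => (A (k j)).indicator (1 : TT → ENNReal) t := fun j =>
    measurable_one.indicator (hA _)
  have hv : Measurable v := Measurable.tsum hm
  have hfin : ∫⁻ t, v t ∂mT ≠ ⊤ := by
    rw [lintegral_tsum fun j => (hm j).aemeasurable]
    simp only [lintegral_indicator_one (hA _)]
    refine ne_top_of_le_ne_top ?_ (ENNReal.tsum_le_tsum hk)
    rw [ENNReal.tsum_geometric]; simp
  refine ⟨fun t => √(v t).toReal, ?_, fun t => Real.sqrt_nonneg _, fun M => ?_⟩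
  · rw [memLp_two_iff_integrable_sq hv.ennreal_toReal.sqrt.aestronglyMeasurable]
    simp only [Real.sq_sqrt ENNReal.toReal_nonneg]
    exact integrable_toReal_of_lintegral_ne_top hv.aemeasurable hfin
  · obtain ⟨J, hJ⟩ := exists_nat_ge (M ^ 2)
    refine ⟨(Finset.range J).sup k, ?_⟩
    filter_upwards [ae_lt_top hv hfin] with t ht htA
    refine (le_abs_self M).trans (Real.abs_le_sqrt (hJ.trans ?_))
    have h1 : (J : ENNReal) ≤ v t := by
      refine le_trans ?_ (ENNReal.sum_le_tsum (Finset.range J))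
      rw [Finset.sum_congr rfl fun j hj => Set.indicator_of_mem
        (anti (Finset.le_sup (f := k) hj) htA) _]
      simp
    simpa using ENNReal.toReal_mono ht.ne h1

theorem peak (A : ℕ → Set TT) (hA : ∀ k, MeasurableSet (A k)) (anti : Antitone A)
    (h0 : Tendsto (fun k => mT (A k)) atTop (𝓝 0)) :
    ∃ Lg : TT → ℂ, AEStronglyMeasurable Lg mT ∧ (∀ᵐ t ∂mT, 0 ≤ (Lg t).re ∧ |(Lg t).im| ≤ 2) ∧
      (∀ M : ℝ, ∃ k, ∀ᵐ t ∂mT, t ∈ A k → M ≤ (Lg t).re) ∧
      ∀ δ : ℝ, 0 ≤ δ → ∃ a, An (fun t => exp (-(δ * Lg t))) a := by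
  obtain ⟨w, hw, hw0, hwM⟩ := weight A hA anti h0
  obtain ⟨F, a, h1, h2, -, h4⟩ := comp2 hw hw0
  have hn : ∀ z : ℂ, 1 + z.re ≤ ‖1 + z‖ := fun z => by simpa using Complex.re_le_norm (1 + z)
  refine ⟨fun t => log (1 + F t), ?_, ?_, fun M => ?_, fun δ hδ =>
    ⟨_, h4 (fun z => exp (-(δ * log (1 + z)))) (Real.exp δ) ?_ fun z hz => ?_⟩⟩
  · exact (Complex.measurable_log.comp_aemeasurable
      (h1.aemeasurable.const_add 1)).aestronglyMeasurable
  · filter_upwards [h2] with t ht
    have := hw0 t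
    refine ⟨?_, ?_⟩
    · rw [log_re]; exact Real.log_nonneg (by linarith [hn (F t)])
    · rw [log_im]
      refine (abs_arg_le_pi_div_two_iff.2 ?_).trans (by linarith [Real.pi_le_four])
      simp only [add_re, one_re]; linarith
  · obtain ⟨k, hk⟩ := hwM (Real.exp M)
    refine ⟨k, ?_⟩
    filter_upwards [h2, hk] with t ht h htA
    rw [log_re, Real.le_log_iff_exp_le (by linarith [hn (F t), hw0 t])]
    linarith [hn (F t), h htA]
  · intro z hz
    refine DifferentiableAt.differentiableWithinAt ?_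
    have : DifferentiableAt ℂ (fun z => log (1 + z)) z :=
      DifferentiableAt.clog (by fun_prop) (Or.inl (by
        simp only [add_re, one_re]; linarith [show -1 < z.re from hz]))
    fun_prop
  · rw [norm_exp, Real.exp_le_exp]
    simp only [neg_re, re_ofReal_mul, log_re]
    have h5 : 1 / 2 ≤ ‖1 + z‖ := by linarith [hn z]
    have h6 := Real.one_sub_inv_le_log_of_pos (x := ‖1 + z‖) (by linarith)
    have h7 : ‖1 + z‖⁻¹ ≤ 2 := by
      rw [inv_le_comm₀ (by linarith) (by norm_num)]; linarith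
    nlinarith

end Pool.Agent.H88.Hx
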