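import Mathlib
import Pool.Agent.H88.Hx2

/-! Functionals on `L^∞`: variation on sets and a Yosida-Hewitt type lemma. -/

namespace Pool.Agent.H88.Hx

open MeasureTheory Filter Topology Complex

lemma linf_le {g : Linf} {C : ℝ} (hC : 0 ≤ C) (h : ∀ᵐ t ∂mT, ‖g t‖ ≤ C) : ‖g‖ ≤ C := by
  simpa using Lp.norm_le_of_ae_bound hC h

lemma linf_ae (g : Linf) : ∀ᵐ t ∂mT, ‖g t‖ ≤ ‖g‖ := by
  filter_upwards [ae_le_eLpNormEssSup (f := g) (μ := mT)] with t ht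
  rw [Lp.norm_def, eLpNorm_exponent_top, ← toReal_enorm]
  refine ENNReal.toReal_mono ?_ ht
  rw [← eLpNorm_exponent_top]
  exact Lp.eLpNorm_ne_top g

def SS (A : Set TT) : Set Linf := {g | ‖g‖ ≤ 1 ∧ ∀ᵐ t ∂mT, t ∉ A → g t = 0}

noncomputable def nu (μ : StrongDual ℂ Linf) (A : Set TT) : ℝ := sSup ((fun g => ‖μ g‖) '' SS A)

lemma zero_SS (A : Set TT) : (0 : Linf) ∈ SS A :=
  ⟨by simp, by filter_upwards [Lp.coeFn_zero ℂ ⊤ mT] with t ht _; exact ht⟩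

lemma nu_ub (μ : StrongDual ℂ Linf) (A : Set TT) :
    ∀ x ∈ (fun g => ‖μ g‖) '' SS A, x ≤ ‖μ‖ := by
  rintro _ ⟨g, hg, rfl⟩
  exact μ.unit_le_opNorm g hg.1

lemma le_nu (μ : StrongDual ℂ Linf) {A : Set TT} {g : Linf} (hg : g ∈ SS A) : ‖μ g‖ ≤ nu μ A :=
  le_csSup ⟨_, nu_ub μ A⟩ ⟨g, hg, rfl⟩

lemma nu_le_of (μ : StrongDual ℂ Linf) {A : Set TT} {c : ℝ} (h : ∀ g ∈ SS A, ‖μ g‖ ≤ c) :
    nu μ A ≤ c :=
  csSup_le ⟨_, 0, zero_SS A, rfl⟩ (by rintro _ ⟨g, hg, rfl⟩; exact h g hg)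

lemma nu_le (μ : StrongDual ℂ Linf) (A : Set TT) : nu μ A ≤ ‖μ‖ :=
  nu_le_of μ fun g hg => μ.unit_le_opNorm g hg.1

lemma nu_nonneg (μ : StrongDual ℂ Linf) (A : Set TT) : 0 ≤ nu μ A :=
  (norm_nonneg _).trans (le_nu μ (zero_SS A))

lemma nu_mono (μ : StrongDual ℂ Linf) {A B : Set TT} (h : A ⊆ B) : nu μ A ≤ nu μ B :=
  nu_le_of μ fun g hg => le_nu μ ⟨hg.1, by
    filter_upwards [hg.2] with t ht hB
    exact ht fun hA => hB (h hA)⟩

lemma nu_super (μ : StrongDual ℂ Linf) {A B : Set TT} (h : Disjoint A B) :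
    nu μ A + nu μ B ≤ nu μ (A ∪ B) := by
  have key : ∀ g1 ∈ SS A, ∀ g2 ∈ SS B, ‖μ g1‖ + ‖μ g2‖ ≤ nu μ (A ∪ B) := by
    intro g1 h1 g2 h2
    obtain ⟨c1, a1, b1⟩ := Complex.exists_norm_eq_mul_self (μ g1)
    obtain ⟨c2, a2, b2⟩ := Complex.exists_norm_eq_mul_self (μ g2)
    have hco : ∀ᵐ t ∂mT, (c1 • g1 + c2 • g2 : Linf) t = c1 * g1 t + c2 * g2 t := by
      filter_upwards [Lp.coeFn_add (c1 • g1) (c2 • g2), Lp.coeFn_smul c1 g1,
        Lp.coeFn_smul c2 g2] with t e1 e2 e3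
      rw [e1, Pi.add_apply, e2, e3]; rfl
    have hm : (c1 • g1 + c2 • g2 : Linf) ∈ SS (A ∪ B) := by
      refine ⟨linf_le zero_le_one ?_, ?_⟩
      · filter_upwards [hco, h1.2, h2.2, linf_ae g1, linf_ae g2] with t e1 e2 e3 e4 e5
        rw [e1]
        by_cases ht : t ∈ A
        · rw [e3 (Set.disjoint_left.1 h ht), mul_zero, add_zero, norm_mul, a1, one_mul]
          exact e4.trans h1.1
        · rw [e2 ht, mul_zero, zero_add, norm_mul, a2, one_mul]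
          exact e5.trans h2.1
      · filter_upwards [hco, h1.2, h2.2] with t e1 e2 e3 ht
        rw [e1, e2 fun h => ht (Or.inl h), e3 fun h => ht (Or.inr h)]; simp
    have := le_nu μ hm
    rw [map_add, map_smul, map_smul, smul_eq_mul, smul_eq_mul, ← b1, ← b2, ← ofReal_add,
      norm_real, Real.norm_of_nonneg (by positivity)] at this
    exact this
  have : nu μ A ≤ nu μ (A ∪ B) - nu μ B := nu_le_of μ fun g1 h1 => by
    have : nu μ B ≤ nu μ (A ∪ B) - ‖μ g1‖ := nu_le_of μ fun g2 h2 => by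
      linarith [key g1 h1 g2 h2]
    linarith
  linarith

lemma le_mul_nu (μ : StrongDual ℂ Linf) {A : Set TT} {g : Linf} {a : ℝ} (ha : 0 ≤ a)
    (h1 : ∀ᵐ t ∂mT, ‖g t‖ ≤ a) (h2 : ∀ᵐ t ∂mT, t ∉ A → g t = 0) : ‖μ g‖ ≤ a * nu μ A := by
  have hg := linf_le ha h1
  rcases ha.eq_or_lt with rfl | ha
  · rw [norm_le_zero_iff.1 hg]; simp
  have hm : ((a⁻¹ : ℝ) : ℂ) • g ∈ SS A := by
    refine ⟨?_, ?_⟩
    · rw [norm_smul, norm_real, Real.norm_of_nonneg (by positivity), inv_mul_le_iff₀ ha]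
      linarith
    · filter_upwards [Lp.coeFn_smul ((a⁻¹ : ℝ) : ℂ) g, h2] with t e1 e2 ht
      rw [e1, Pi.smul_apply, e2 ht, smul_zero]
  have := le_nu μ hm
  rw [map_smul, norm_smul, norm_real, Real.norm_of_nonneg (by positivity),
    inv_mul_le_iff₀ ha] at this
  exact this

lemma bound2 (μ : StrongDual ℂ Linf) {A : Set TT} (hA : MeasurableSet A) {g : Linf} {a b : ℝ}
    (ha : 0 ≤ a) (hb : 0 ≤ b) (h1 : ∀ᵐ t ∂mT, t ∈ A → ‖g t‖ ≤ a)
    (h2 : ∀ᵐ t ∂mT, t ∉ A → ‖g t‖ ≤ b) : ‖μ g‖ ≤ a * nu μ A + b * nu μ Aᶜ := by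
  have m1 := (Lp.memLp g).indicator hA
  set g1 : Linf := m1.toLp _
  have c1 : g1 =ᵐ[mT] A.indicator g := m1.coeFn_toLp
  have c2 := Lp.coeFn_sub g g1
  have e : μ g = μ g1 + μ (g - g1) := by rw [map_sub]; ring
  rw [e]
  refine norm_add_le_of_le (le_mul_nu μ ha ?_ ?_) (le_mul_nu μ hb ?_ ?_)
  · filter_upwards [c1, h1] with t e1 e2
    rw [e1]
    by_cases ht : t ∈ A
    · rw [Set.indicator_of_mem ht]; exact e2 ht
    · rw [Set.indicator_of_notMem ht, norm_zero]; exact ha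
  · filter_upwards [c1] with t e1 ht
    rw [e1, Set.indicator_of_notMem ht]
  · filter_upwards [c1, c2, h2] with t e1 e2 e3
    rw [e2, Pi.sub_apply, e1]
    by_cases ht : t ∈ A
    · rw [Set.indicator_of_mem ht, sub_self, norm_zero]; exact hb
    · rw [Set.indicator_of_notMem ht, sub_zero]; exact e3 ht
  · filter_upwards [c1, c2] with t e1 e2 ht
    rw [e2, Pi.sub_apply, e1, Set.indicator_of_mem (Set.notMem_compl_iff.1 ht), sub_self]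

lemma attain {ψ : StrongDual ℂ Linf} (hψ : ‖ψ‖ ≤ 1) {f : Linf} (hf : ‖f‖ ≤ 1) (h : ψ f = 1)
    {A : Set TT} (hA : MeasurableSet A) {θ : ℝ} (h0 : 0 ≤ θ) (h1 : θ < 1)
    (hθ : ∀ᵐ t ∂mT, t ∉ A → ‖f t‖ ≤ θ) : nu ψ Aᶜ = 0 := by
  have a1 := bound2 ψ hA zero_le_one h0 (g := f) (by
    filter_upwards [linf_ae f] with t ht _
    exact ht.trans hf) hθ
  have a2 := nu_super ψ (disjoint_compl_right (a := A))
  have a3 := nu_le ψ (A ∪ Aᶜ)
  have a4 := nu_nonneg ψ Aᶜ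
  rw [h, norm_one] at a1
  nlinarith

theorem yh (ν : Set TT → ℝ) (K : ℝ) (h0 : ∀ A, 0 ≤ ν A) (hK : ∀ A, ν A ≤ K)
    (hm : ∀ A B, A ⊆ B → ν A ≤ ν B) (hs : ∀ A B, Disjoint A B → ν A + ν B ≤ ν (A ∪ B)) :
    ∃ C : ℕ → Set TT, (∀ k, MeasurableSet (C k)) ∧ Antitone C ∧
      Tendsto (fun k => mT (C k)) atTop (𝓝 0) ∧ ∀ ε > 0, ∃ η > 0, ∀ D, MeasurableSet D →
        mT D ≤ η → ∀ k, ν (D \ C k) ≤ ε := by
  let S : ℕ → Set ℝ := fun n => ν '' {B | MeasurableSet B ∧ mT B ≤ 2⁻¹ ^ n}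
  have hne : ∀ n, (S n).Nonempty := fun n => ⟨_, ∅, ⟨MeasurableSet.empty, by simp⟩, rfl⟩
  have hbd : ∀ n, BddAbove (S n) := fun n => ⟨K, by rintro _ ⟨B, -, rfl⟩; exact hK B⟩
  let s : ℕ → ℝ := fun n => sSup (S n)
  have hs0 : BddBelow (Set.range s) := ⟨0, by
    rintro _ ⟨n, rfl⟩
    exact (h0 ∅).trans (le_csSup (hbd n) ⟨∅, ⟨MeasurableSet.empty, by simp⟩, rfl⟩)⟩
  set β := ⨅ n, s n
  have : ∀ n : ℕ, ∃ B, MeasurableSet B ∧ mT B ≤ 2⁻¹ ^ n ∧ β - 1 / (n + 1) ≤ ν B := by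
    intro n
    obtain ⟨_, ⟨B, hB, rfl⟩, h⟩ := exists_lt_of_lt_csSup (hne n)
      (sub_lt_self (s n) (Nat.one_div_pos_of_nat (n := n)))
    exact ⟨B, hB.1, hB.2, by linarith [ciInf_le hs0 n]⟩
  choose B hB1 hB2 hB3 using this
  let C : ℕ → Set TT := fun k => ⋃ n, B (n + k)
  have hC1 : ∀ k, MeasurableSet (C k) := fun k => MeasurableSet.iUnion fun n => hB1 _
  have hC2 : Antitone C := fun k k' hk => Set.iUnion_subset fun n =>
    Set.subset_iUnion_of_subset (n + (k' - k)) (by rw [add_assoc, Nat.sub_add_cancel hk])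
  have hC3 : Tendsto (fun k => mT (C k)) atTop (𝓝 0) := by
    have := ENNReal.tendsto_sum_nat_add (fun n => (2⁻¹ : ENNReal) ^ n) (by
      rw [ENNReal.tsum_geometric]; simp)
    exact tendsto_of_tendsto_of_tendsto_of_le_of_le tendsto_const_nhds this
      (fun _ => zero_le) fun k =>
        (measure_iUnion_le _).trans (ENNReal.tsum_le_tsum fun n => hB2 _)
  have hC4 : ∀ k, β ≤ ν (C k) := by
    intro k
    have h1 : Tendsto (fun n : ℕ => β - 1 / ((n + k : ℕ) + 1 : ℝ)) atTop (𝓝 (β - 0)) :=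
      tendsto_const_nhds.sub
        (tendsto_one_div_add_atTop_nhds_zero_nat.comp (tendsto_add_atTop_nat k))
    rw [sub_zero] at h1
    exact le_of_tendsto' h1 fun n =>
      (hB3 _).trans (hm _ _ (Set.subset_iUnion (fun n => B (n + k)) n))
  refine ⟨C, hC1, hC2, hC3, fun ε hε => ?_⟩
  obtain ⟨N, hN⟩ := exists_lt_of_ciInf_lt (lt_add_of_pos_right β hε)
  have hη : (0 : ENNReal) < 2⁻¹ ^ (N + 1) := ENNReal.pow_pos (by simp) _
  refine ⟨_, hη, fun D hD hD' k => ?_⟩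
  obtain ⟨k', h1, h2⟩ := (((ENNReal.tendsto_nhds_zero.1 hC3) _ hη).and
    (eventually_ge_atTop k)).exists
  have a1 := hs (D \ C k') (C k') Set.disjoint_sdiff_left
  have a2 : ν (D \ C k' ∪ C k') ≤ s N := le_csSup (hbd N) ⟨_, ⟨(hD.diff (hC1 _)).union (hC1 _), by
    refine (measure_union_le _ _).trans ((add_le_add
      ((measure_mono Set.sdiff_subset).trans hD') h1).trans_eq ?_)
    rw [pow_succ, ← mul_add, ENNReal.inv_two_add_inv_two, mul_one]⟩, rfl⟩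
  have a3 := hm _ _ (Set.sdiff_subset_sdiff_right (s := D) (hC2 h2))
  linarith [hC4 k']

end Pool.Agent.H88.Hx
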