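import Mathlib

/-! Abstract functional-analytic lemmas. -/

namespace Pool.Agent.H88.Hx

open Filter Topology

variable {X L : Type*} [NormedAddCommGroup X] [NormedSpace ℂ X] [NormedAddCommGroup L]
  [NormedSpace ℂ L]

lemma ext_dual (J : X →ₗᵢ[ℂ] L) (φ : StrongDual ℂ X) :
    ∃ ψ : StrongDual ℂ L, ‖ψ‖ ≤ ‖φ‖ ∧ ∀ x, ψ (J x) = φ x := by
  obtain ⟨g, h1, h2⟩ := exists_extension_norm_eq (LinearMap.range J.toLinearMap)
    (φ.comp J.equivRange.symm.toContinuousLinearEquiv.toContinuousLinearMap)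
  refine ⟨g, ?_, fun x => ?_⟩
  · rw [h2]
    refine ContinuousLinearMap.opNorm_le_bound _ (norm_nonneg _) fun y => ?_
    have := φ.le_opNorm (J.equivRange.symm y)
    rw [LinearIsometryEquiv.norm_map] at this
    exact this
  · have := h1 (J.equivRange x)
    simpa using this

lemma lift_op (J : X →ₗᵢ[ℂ] L) (B : L →L[ℂ] L) (h : ∀ x, ∃ y, J y = B (J x)) :
    ∃ M : X →L[ℂ] X, ∀ x, J (M x) = B (J x) := by
  choose m hm using h
  let M0 : X →ₗ[ℂ] X :=
    { toFun := m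
      map_add' := fun x y => J.injective (by rw [map_add, hm, hm, hm, map_add, map_add])
      map_smul' := fun c x => J.injective (by
        rw [map_smul, hm, hm, map_smul, map_smul]; rfl) }
  refine ⟨M0.mkContinuous ‖B‖ fun x => ?_, hm⟩
  have := B.le_opNorm (J x)
  rw [← hm, J.norm_map, J.norm_map] at this
  exact this

lemma cauchy_lim (P : ℝ → StrongDual ℂ L)
    (h : ∀ ε > 0, ∃ δ0 > 0, ∀ δ δ', 0 < δ → δ < δ0 → 0 < δ' → δ' < δ0 →
      ∀ g, ‖P δ g - P δ' g‖ ≤ ε * ‖g‖) :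
    ∃ μ0 : StrongDual ℂ L, ∀ ε > 0, ∃ δ0 > 0, ∀ δ, 0 < δ → δ < δ0 →
      ∀ g, ‖P δ g - μ0 g‖ ≤ ε * ‖g‖ := by
  have hev : ∀ δ0 > (0 : ℝ), ∀ᶠ n : ℕ in atTop, 1 / (n + 1 : ℝ) < δ0 := fun δ0 h0 =>
    tendsto_one_div_add_atTop_nhds_zero_nat.eventually (gt_mem_nhds h0)
  have hc : CauchySeq fun n : ℕ => P (1 / (n + 1)) := by
    refine Metric.cauchySeq_iff.2 fun ε hε => ?_
    obtain ⟨δ0, h0, h1⟩ := h (ε / 2) (half_pos hε)
    obtain ⟨N, hN⟩ := eventually_atTop.1 (hev δ0 h0)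
    refine ⟨N, fun m hm n hn => ?_⟩
    rw [dist_eq_norm]
    refine lt_of_le_of_lt (ContinuousLinearMap.opNorm_le_bound _ (half_pos hε).le fun g => ?_)
      (half_lt_self hε)
    exact h1 _ _ Nat.one_div_pos_of_nat (hN m hm) Nat.one_div_pos_of_nat (hN n hn) g
  obtain ⟨μ0, hμ⟩ := cauchySeq_tendsto_of_complete hc
  refine ⟨μ0, fun ε hε => ?_⟩
  obtain ⟨δ0, h0, h1⟩ := h ε hε
  refine ⟨δ0, h0, fun δ a1 a2 g => ?_⟩
  have hg : Tendsto (fun n : ℕ => P (1 / (n + 1)) g) atTop (𝓝 (μ0 g)) :=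
    ((ContinuousLinearMap.apply ℂ ℂ g).continuous.tendsto μ0).comp hμ
  refine le_of_tendsto (tendsto_const_nhds.sub hg).norm ?_
  filter_upwards [hev δ0 h0] with n hn
  exact h1 _ _ a1 a2 Nat.one_div_pos_of_nat hn g

lemma gen_inv [FiniteDimensional ℂ L] (T : X →L[ℂ] L) :
    ∃ S : L →L[ℂ] X, ∀ x, T (S (T x)) = T x := by
  obtain ⟨g, hg⟩ := LinearMap.exists_rightInverse_of_surjective
    (T : X →ₗ[ℂ] L).rangeRestrict (LinearMap.range_rangeRestrict _)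
  obtain ⟨p, hp⟩ := LinearMap.exists_leftInverse_of_injective
    (LinearMap.range (T : X →ₗ[ℂ] L)).subtype (Submodule.ker_subtype _)
  refine ⟨LinearMap.toContinuousLinearMap (g ∘ₗ p), fun x => ?_⟩
  have h1 := LinearMap.congr_fun hp ((T : X →ₗ[ℂ] L).rangeRestrict x)
  have h2 := congrArg Subtype.val (LinearMap.congr_fun hg ((T : X →ₗ[ℂ] L).rangeRestrict x))
  simp only [LinearMap.comp_apply, LinearMap.id_apply] at h1 h2
  have h3 : p (T x) = (T : X →ₗ[ℂ] L).rangeRestrict x := h1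
  simp only [LinearMap.coe_toContinuousLinearMap', LinearMap.comp_apply, h3]
  exact h2

theorem solve [FiniteDimensional ℂ L] (T : X →L[ℂ] L) (M : ℝ → X →L[ℂ] X) {f : X}
    (hf : ‖f‖ ≤ 1)
    (hT : ∀ ε > 0, ∃ δ0 > 0, ∀ δ, 0 < δ → δ < δ0 → ∀ x, ‖T (M δ x) - T x‖ ≤ ε * ‖x‖)
    (hψ : ∀ ψ : StrongDual ℂ X, ‖ψ‖ ≤ 1 → ψ f = 1 → ∀ δ, 0 < δ → ψ (M δ f) = 0) :
    ∃ ρ, 0 ≤ ρ ∧ ρ < 1 ∧ ∃ δ0 > 0, ∀ δ, 0 < δ → δ < δ0 →
      ∃ k, ‖k‖ ≤ ρ ∧ T (M δ (f - k)) = 0 := by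
  obtain ⟨S, hS⟩ := gen_inv T
  have hS0 := norm_nonneg S
  have step1 : ∃ k0, ‖k0‖ < 1 ∧ T k0 = T f := by
    by_contra hc
    push Not at hc
    let K := LinearMap.ker (T : X →ₗ[ℂ] L)
    obtain ⟨g, hg1, hg2⟩ := exists_dual_vector'' ℂ (Submodule.Quotient.mk (p := K) f)
    have hn : ‖Submodule.Quotient.mk (p := K) f‖ = 1 := by
      refine le_antisymm ((Submodule.Quotient.norm_mk_le K f).trans hf) ?_
      by_contra h
      push Not at h
      obtain ⟨k, h1, h2⟩ := Submodule.Quotient.norm_mk_lt (Submodule.Quotient.mk (p := K) f)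
        (sub_pos.2 h)
      refine hc k (by linarith) ?_
      have := (Submodule.Quotient.eq K).1 h1
      rw [LinearMap.mem_ker, map_sub, sub_eq_zero] at this
      exact this
    let ψ : StrongDual ℂ X := LinearMap.mkContinuous (g.toLinearMap ∘ₗ K.mkQ) 1 fun x => by
      have h1 := g.le_opNorm (Submodule.Quotient.mk (p := K) x)
      have h2 := Submodule.Quotient.norm_mk_le K x
      have h3 := norm_nonneg (Submodule.Quotient.mk (p := K) x)
      have h4 : ‖g‖ * ‖Submodule.Quotient.mk (p := K) x‖ ≤ 1 * ‖x‖ :=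
        mul_le_mul hg1 h2 h3 zero_le_one
      exact h1.trans h4
    have hψ1 : ‖ψ‖ ≤ 1 := LinearMap.mkContinuous_norm_le _ zero_le_one _
    have hψa : ∀ x, ψ x = g (Submodule.Quotient.mk (p := K) x) := fun _ => rfl
    have hψf : ψ f = 1 := by rw [hψa, hg2, hn]; simp
    have hψK : ∀ x, T x = 0 → ψ x = 0 := fun x hx => by
      rw [hψa, (Submodule.Quotient.mk_eq_zero K).2 hx, map_zero]
    obtain ⟨δ0, h0, h1⟩ := hT (1 / (2 * (‖S‖ + 1))) (by positivity)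
    have h2 := h1 (δ0 / 2) (half_pos h0) (half_lt_self h0) f
    have h3 := hψK (M (δ0 / 2) f - f - S (T (M (δ0 / 2) f - f))) (by rw [map_sub, hS, sub_self])
    rw [map_sub, map_sub, hψ ψ hψ1 hψf _ (half_pos h0), hψf, map_sub T] at h3
    have h4 : ‖ψ (S (T (M (δ0 / 2) f) - T f))‖ = 1 := by
      rw [show ψ (S (T (M (δ0 / 2) f) - T f)) = -1 by linear_combination -h3]; simp
    have h5 := (ψ.le_opNorm (S (T (M (δ0 / 2) f) - T f))).trans
      (mul_le_mul hψ1 (S.le_of_opNorm_le_of_le le_rfl (h2.trans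
        (mul_le_of_le_one_right (by positivity) hf))) (norm_nonneg _) zero_le_one)
    rw [h4, one_mul, mul_one_div, le_div_iff₀ (by positivity)] at h5
    linarith
  obtain ⟨k0, hk0, hk1⟩ := step1
  have hk2 := norm_nonneg k0
  set θ := (1 - ‖k0‖) / 2 with hθ
  have hθ0 : 0 < θ := by linarith
  obtain ⟨δ0, h0, h1⟩ := hT (θ / (4 * (‖S‖ + 1))) (by positivity)
  refine ⟨‖k0‖ + θ, by positivity, by linarith, δ0, h0, fun δ a1 a2 => ?_⟩
  set ε := θ / (4 * (‖S‖ + 1)) with hε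
  have hε0 : 0 < ε := by positivity
  have hε1 : ε * (4 * (‖S‖ + 1)) = θ := by rw [hε]; field_simp
  let R : L →ₗ[ℂ] L := LinearMap.id + ((T.comp (M δ) - T).comp S).toLinearMap
  have hR : ∀ v, R v = v + (T (M δ (S v)) - T (S v)) := fun _ => rfl
  have hlow : ∀ v, ‖v‖ ≤ 2 * ‖R v‖ := by
    intro v
    have b1 := h1 δ a1 a2 (S v)
    have b2 := S.le_opNorm v
    have b3 : ‖v‖ ≤ ‖R v‖ + ‖T (M δ (S v)) - T (S v)‖ := by
      have := norm_sub_le (R v) (T (M δ (S v)) - T (S v))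
      rwa [hR, add_sub_cancel_right, ← hR] at this
    have b4 : ε * ‖S‖ ≤ 1 / 2 := by nlinarith
    have b5 := norm_nonneg v
    nlinarith
  have hinj : Function.Injective R := by
    rw [← LinearMap.ker_eq_bot, LinearMap.ker_eq_bot']
    intro v hv
    have := hlow v
    rw [hv, norm_zero, mul_zero] at this
    exact norm_le_zero_iff.1 this
  obtain ⟨v, hv⟩ := LinearMap.surjective_of_injective hinj (T (M δ (f - k0)))
  have hvV : v = T (M δ (f - k0) - M δ (S v) + S v) := by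
    rw [map_add, map_sub, ← hv, hR]; abel
  have hTS : T (S v) = v := by
    conv_lhs => rw [hvV, hS]
    exact hvV.symm
  refine ⟨k0 + S v, ?_, ?_⟩
  · have b1 := h1 δ a1 a2 (f - k0)
    rw [map_sub T f k0, hk1, sub_self, sub_zero, ← hv] at b1
    have b2 : ‖f - k0‖ ≤ 2 := (norm_sub_le _ _).trans (by linarith)
    have b3 := S.le_opNorm v
    have b4 := hlow v
    have b5 : ‖v‖ ≤ 4 * ε := by nlinarith
    refine (norm_add_le _ _).trans ?_
    nlinarith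
  · rw [hR, hTS] at hv
    rw [← sub_sub, map_sub, map_sub T, ← hv]
    abel

end Pool.Agent.H88.Hx
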