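import Mathlib
import Pool.Agent.H88.Hx3
import Pool.Agent.H88.Hx4

/-! Exposed points of the unit ball of finite-codimensional subspaces of `H^∞`. -/

namespace Pool.Agent.H88.Hx

open MeasureTheory Filter Topology Complex
open scoped ComplexConjugate

lemma exists_mul {u : TT → ℂ} (hu : AEStronglyMeasurable u mT) (hb : ∀ᵐ t ∂mT, ‖u t‖ ≤ 1) :
    ∃ B : Linf →L[ℂ] Linf, ∀ g, B g =ᵐ[mT] fun t => u t * g t := by
  have hm : MemLp u ⊤ mT := MemLp.of_bound hu 1 hb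
  refine ⟨(ContinuousLinearMap.mul ℂ ℂ).holderL mT ⊤ ⊤ ⊤ (hm.toLp _), fun g => ?_⟩
  rw [ContinuousLinearMap.holderL_apply_apply]
  filter_upwards [(ContinuousLinearMap.mul ℂ ℂ).coeFn_holder (r := ⊤) (hm.toLp _) g,
    hm.coeFn_toLp] with t h1 h2
  rw [h1, h2]; rfl

lemma norm_ex (δ : ℝ) (z : ℂ) : ‖exp (-(δ * z))‖ = Real.exp (-(δ * z.re)) := by
  rw [norm_exp]; simp

lemma norm_ex_le {δ : ℝ} (hδ : 0 ≤ δ) {z : ℂ} (hz : 0 ≤ z.re) : ‖exp (-(δ * z))‖ ≤ 1 := by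
  rw [norm_ex, Real.exp_le_one_iff, neg_nonpos]; positivity

lemma norm_ex_sub {δ : ℝ} (hδ : 0 ≤ δ) {z : ℂ} (hz : 0 ≤ z.re) :
    ‖exp (-(δ * z)) - 1‖ ≤ 2 * (δ * ‖z‖) := by
  have e : ‖-(δ * z)‖ = δ * ‖z‖ := by
    rw [norm_neg, norm_mul, norm_real, Real.norm_of_nonneg hδ]
  rcases le_total ‖-(δ * z)‖ 1 with h | h
  · exact (norm_exp_sub_one_le h).trans_eq (by rw [e])
  · have := norm_sub_le (exp (-(δ * z))) 1
    rw [norm_one] at this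
    linarith [norm_ex_le hδ hz]

lemma small {C : ℕ → Set TT} {Lg : TT → ℂ}
    (hbig : ∀ M : ℝ, ∃ k, ∀ᵐ t ∂mT, t ∈ C k → M ≤ (Lg t).re) {δ κ : ℝ} (hδ : 0 < δ)
    (hκ : 0 < κ) : ∃ k, ∀ᵐ t ∂mT, t ∈ C k → ‖exp (-(δ * Lg t))‖ ≤ κ := by
  obtain ⟨k, hk⟩ := hbig (-Real.log κ / δ)
  refine ⟨k, ?_⟩
  filter_upwards [hk] with t ht h
  have := ht h
  rw [div_le_iff₀ hδ] at this
  rw [norm_ex, ← Real.le_log_iff_exp_le hκ]
  linarith

lemma cau (μ : StrongDual ℂ Linf) {C : ℕ → Set TT} (hC : ∀ k, MeasurableSet (C k))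
    (anti : Antitone C) {Lg : TT → ℂ} (hm : Measurable Lg)
    (hL : ∀ᵐ t ∂mT, 0 ≤ (Lg t).re ∧ |(Lg t).im| ≤ 2)
    (hbig : ∀ M : ℝ, ∃ k, ∀ᵐ t ∂mT, t ∈ C k → M ≤ (Lg t).re) {B : ℝ → Linf →L[ℂ] Linf}
    (hB : ∀ δ : ℝ, 0 ≤ δ → ∀ g, B δ g =ᵐ[mT] fun t => exp (-(δ * Lg t)) * g t)
    (hY : ∀ ε > 0, ∃ η > 0, ∀ D, MeasurableSet D → mT D ≤ η → ∀ k, nu μ (D \ C k) ≤ ε) :
    ∃ μ0 : StrongDual ℂ Linf, (∀ δ, 0 < δ → ∀ g, μ0 (B δ g) = μ (B δ g)) ∧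
      ∀ ε > 0, ∃ δ0 > 0, ∀ δ, 0 < δ → δ < δ0 → ∀ g, ‖μ (B δ g) - μ0 g‖ ≤ ε * ‖g‖ := by
  have hμ := norm_nonneg μ
  have hD : ∀ M : ℕ, MeasurableSet {t | (M : ℝ) < ‖Lg t‖} := fun M =>
    measurableSet_lt measurable_const hm.norm
  have hD0 : Tendsto (fun M : ℕ => mT {t | (M : ℝ) < ‖Lg t‖}) atTop (𝓝 0) := by
    have := tendsto_measure_iInter_atTop (μ := mT) (fun M => (hD M).nullMeasurableSet)
      (fun a b hab t (ht : (b : ℝ) < ‖Lg t‖) => lt_of_le_of_lt (Nat.cast_le.2 hab) ht)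
      ⟨0, measure_ne_top _ _⟩
    have e : ⋂ M : ℕ, {t | (M : ℝ) < ‖Lg t‖} = ∅ := by
      refine Set.eq_empty_of_forall_notMem fun t ht => ?_
      obtain ⟨n, hn⟩ := exists_nat_ge ‖Lg t‖
      exact not_lt.2 hn (Set.mem_iInter.1 ht n)
    rw [e, measure_empty] at this
    exact this
  obtain ⟨μ0, h0⟩ := cauchy_lim (fun δ => μ.comp (B δ)) (fun ε hε => by
    obtain ⟨η, hη, h1⟩ := hY (ε / 4) (by positivity)
    obtain ⟨M, hM⟩ := ((ENNReal.tendsto_nhds_zero.1 hD0) η hη).exists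
    set κ := ε / (2 * (‖μ‖ + 1)) with hκ
    have hκ0 : 0 < κ := by positivity
    have hκ1 : κ * (2 * (‖μ‖ + 1)) = ε := by rw [hκ]; field_simp
    have hM0 : (0 : ℝ) ≤ M := Nat.cast_nonneg _
    refine ⟨κ / (4 * (M + 1)), by positivity, fun δ δ' a1 a2 a3 a4 g => ?_⟩
    rw [lt_div_iff₀ (by positivity)] at a2 a4
    obtain ⟨k1, hk1⟩ := small hbig a1 (half_pos hκ0)
    obtain ⟨k2, hk2⟩ := small hbig a3 (half_pos hκ0)
    have hg := norm_nonneg g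
    have hco : ∀ᵐ t ∂mT, ‖(B δ g - B δ' g) t‖ ≤
        ‖exp (-(δ * Lg t)) - exp (-(δ' * Lg t))‖ * ‖g‖ := by
      filter_upwards [Lp.coeFn_sub (B δ g) (B δ' g), hB δ a1.le g, hB δ' a3.le g, linf_ae g]
        with t e1 e2 e3 e4
      rw [e1, Pi.sub_apply, e2, e3, ← sub_mul, norm_mul]
      gcongr
    have := bound2 μ ((hD M).diff (hC (max k1 k2))) (g := B δ g - B δ' g) (a := 2 * ‖g‖)
      (b := κ * ‖g‖) (by positivity) (by positivity) (by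
        filter_upwards [hco, hL] with t e1 e2 _
        refine e1.trans (mul_le_mul_of_nonneg_right ((norm_sub_le _ _).trans ?_) hg)
        linarith [norm_ex_le a1.le e2.1, norm_ex_le a3.le e2.1]) (by
        filter_upwards [hco, hL, hk1, hk2] with t e1 e2 e3 e4 ht
        refine e1.trans (mul_le_mul_of_nonneg_right ?_ hg)
        by_cases hc : t ∈ C (max k1 k2)
        · linarith [norm_sub_le (exp (-(δ * Lg t))) (exp (-(δ' * Lg t))),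
            e3 (anti (le_max_left _ _) hc), e4 (anti (le_max_right _ _) hc)]
        · have hM' : ‖Lg t‖ ≤ M := not_lt.1 fun h => ht ⟨h, hc⟩
          have b1 := norm_ex_sub a1.le e2.1
          have b2 := norm_ex_sub a3.le e2.1
          have b3 := norm_sub_le_norm_sub_add_norm_sub (exp (-(δ * Lg t))) 1
            (exp (-(δ' * Lg t)))
          rw [norm_sub_rev 1] at b3
          nlinarith)
    rw [map_sub] at this
    have b4 := h1 _ (hD M) hM (max k1 k2)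
    have b5 := nu_le μ ({t | (M : ℝ) < ‖Lg t‖} \ C (max k1 k2))ᶜ
    have b6 := mul_le_mul_of_nonneg_left b4 (show 0 ≤ 2 * ‖g‖ by positivity)
    have b7 := mul_le_mul_of_nonneg_left b5 (show 0 ≤ κ * ‖g‖ by positivity)
    have b8 : κ * ‖μ‖ ≤ ε / 2 := by nlinarith
    have b9 := mul_le_mul_of_nonneg_right b8 hg
    exact this.trans (by nlinarith))
  refine ⟨μ0, fun δ hδ g => ?_, h0⟩
  rw [← sub_eq_zero, ← norm_le_zero_iff]
  refine le_of_forall_pos_le_add fun ε hε => ?_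
  set G := B δ g
  have hG := norm_nonneg G
  have hg := norm_nonneg g
  obtain ⟨δ0, a0, a1⟩ := h0 (ε / (2 * (‖G‖ + 1))) (by positivity)
  set K := 2 * (1 / δ + 2) * ‖g‖ with hK
  have hK0 : 0 ≤ K := by positivity
  set δ' := min (δ0 / 2) (ε / (2 * (‖μ‖ * K + 1))) with hδ'
  have b0 : 0 < δ' := by positivity
  have b1 := a1 δ' b0 ((min_le_left _ _).trans_lt (half_lt_self a0)) G
  have b2 : ‖B δ' G - G‖ ≤ δ' * K := by
    refine linf_le (by positivity) ?_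
    filter_upwards [Lp.coeFn_sub (B δ' G) G, hB δ' b0.le G, hB δ hδ.le g, linf_ae g, hL]
      with t e1 e2 e3 e4 e5
    rw [e1, Pi.sub_apply, e2, e3, ← sub_one_mul, norm_mul, norm_mul, norm_ex]
    have c1 := norm_ex_sub b0.le e5.1
    have c2 : ‖Lg t‖ ≤ (Lg t).re + 2 := by
      have := Complex.norm_le_abs_re_add_abs_im (Lg t)
      rw [abs_of_nonneg e5.1] at this
      linarith [e5.2]
    have c3 : ((Lg t).re + 2) * Real.exp (-(δ * (Lg t).re)) ≤ 1 / δ + 2 := by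
      have d1 := Real.add_one_le_exp (δ * (Lg t).re)
      have d2 : Real.exp (δ * (Lg t).re) * Real.exp (-(δ * (Lg t).re)) = 1 := by
        rw [← Real.exp_add]; simp
      have d3 : Real.exp (-(δ * (Lg t).re)) ≤ 1 := by
        rw [Real.exp_le_one_iff, neg_nonpos]; exact mul_nonneg hδ.le e5.1
      have d4 := Real.exp_pos (-(δ * (Lg t).re))
      have d5 : (Lg t).re * Real.exp (-(δ * (Lg t).re)) ≤ 1 / δ := by
        rw [le_div_iff₀ hδ]; nlinarith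
      nlinarith
    calc _ ≤ 2 * (δ' * ((Lg t).re + 2)) * (Real.exp (-(δ * (Lg t).re)) * ‖g‖) := by
          gcongr
          · have := e5.1
            positivity
          · exact c1.trans (by gcongr)
      _ = 2 * δ' * ‖g‖ * (((Lg t).re + 2) * Real.exp (-(δ * (Lg t).re))) := by ring
      _ ≤ 2 * δ' * ‖g‖ * (1 / δ + 2) := by gcongr
      _ = δ' * K := by rw [hK]; ring
  have b3 := μ.le_of_opNorm_le_of_le le_rfl b2
  rw [map_sub] at b3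
  have b4 := norm_sub_le_norm_sub_add_norm_sub (μ0 G) (μ (B δ' G)) (μ G)
  rw [norm_sub_rev (μ0 G) (μ (B δ' G))] at b4
  have b5 : ε / (2 * (‖G‖ + 1)) * ‖G‖ ≤ ε / 2 := by
    rw [div_mul_eq_mul_div, div_le_div_iff₀ (by positivity) two_pos]; nlinarith
  have b6 : δ' * (2 * (‖μ‖ * K + 1)) ≤ ε := by
    rw [← le_div_iff₀ (by positivity)]; exact min_le_right _ _
  simp only [ContinuousLinearMap.comp_apply] at b1
  nlinarith

lemma disc {a b h : ℂ} {ρ : ℝ} (h0 : 0 ≤ ρ) (h1 : ρ < 1) (ha : ‖a‖ ≤ 1) (hb : ‖b‖ ≤ ρ)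
    (hh : ‖h‖ ≤ 1) (hre : (1 + ρ) / 2 * ‖h‖ ≤ h.re) :
    ‖a - (((1 - ρ) / 2 : ℝ) : ℂ) * (h * (a - b))‖ ≤ 1 := by
  set ε := (1 - ρ) / 2 with hε
  have hε0 : 0 < ε := by linarith
  have hn := norm_nonneg h
  have e : a - (ε : ℂ) * (h * (a - b)) = (1 - ε * h) * a + ε * h * b := by ring
  have b0 : 0 ≤ ρ * ‖h‖ := by positivity
  have b1 : ρ * ‖h‖ ≤ 1 := by nlinarith
  have b2 : ‖1 - ε * h‖ ≤ 1 - ε * ρ * ‖h‖ := by
    refine abs_le_of_sq_le_sq' ?_ (by nlinarith) |>.2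
    have c1 := Complex.sq_norm h
    rw [Complex.normSq_apply] at c1
    rw [Complex.sq_norm, Complex.normSq_apply]
    simp only [sub_re, one_re, re_ofReal_mul, sub_im, one_im, im_ofReal_mul]
    have c2 : ε * ‖h‖ ^ 2 ≤ ε * ‖h‖ := by gcongr; nlinarith
    have c3 : ε * ‖h‖ + ρ * ‖h‖ ≤ h.re := by rw [hε]; linarith
    have c4 := mul_le_mul_of_nonneg_left c3 hε0.le
    have c5 := mul_le_mul_of_nonneg_left c2 hε0.le
    have c6 : ε * (ε * ‖h‖ ^ 2) = ε * (ε * (h.re * h.re + h.im * h.im)) := by rw [c1]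
    have c7 : 0 ≤ ε * (ε * ‖h‖) := by positivity
    nlinarith [sq_nonneg (ε * ρ * ‖h‖)]
  rw [e]
  refine (norm_add_le _ _).trans ?_
  rw [norm_mul, norm_mul, norm_mul, norm_real, Real.norm_of_nonneg hε0.le]
  have b3 := mul_le_of_le_one_right (norm_nonneg (1 - ε * h)) ha
  have b4 : ε * ‖h‖ * ‖b‖ ≤ ε * ‖h‖ * ρ := by gcongr
  linarith

lemma re_ex {δ ρ : ℝ} (hδ : 0 ≤ δ) (h0 : 0 ≤ ρ) (h1 : δ ≤ (1 - ρ) / 4) {z : ℂ}
    (hz : |z.im| ≤ 2) : (1 + ρ) / 2 * ‖exp (-(δ * z))‖ ≤ (exp (-(δ * z))).re := by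
  rw [exp_re, norm_exp, mul_comm]
  refine mul_le_mul_of_nonneg_left ?_ (Real.exp_pos _).le
  refine le_trans ?_ Real.one_sub_sq_div_two_le_cos
  simp only [neg_im, im_ofReal_mul]
  have : z.im ^ 2 ≤ 4 := by nlinarith [abs_le.1 hz]
  have h2 : δ ^ 2 ≤ δ := by nlinarith
  nlinarith [mul_le_mul_of_nonneg_left this (sq_nonneg δ)]

end Pool.Agent.H88.Hx
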