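import Mathlib
import Pool.Agent.H88.Hx5

/-! Exposed points of the unit ball of finite-codimensional subspaces of `H^∞`: main theorems. -/

namespace Pool.Agent.H88.Hx

open MeasureTheory Filter Topology Complex
open scoped ComplexConjugate

lemma an_of {g : Linf} (hg : InHinf g) : An g (fourierCoeff g 0) :=
  ⟨Lp.aestronglyMeasurable g, ⟨_, linf_ae g⟩, hg, rfl⟩

lemma kill {ψ : StrongDual ℂ Linf} (hψ : ‖ψ‖ ≤ 1) {F : Linf} (hF : ‖F‖ ≤ 1) (h : ψ F = 1)
    {C : ℕ → Set TT} (hC : ∀ k, MeasurableSet (C k))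
    (hFC : ∀ k : ℕ, ∀ t, t ∉ C k → ‖F t‖ ≤ 1 - 1 / (k + 1 : ℝ)) {u : TT → ℂ}
    (hu : ∀ᵐ t ∂mT, ‖u t‖ ≤ 1) (hs : ∀ κ > 0, ∃ k, ∀ᵐ t ∂mT, t ∈ C k → ‖u t‖ ≤ κ)
    {g G : Linf} (hG : G =ᵐ[mT] fun t => u t * g t) : ψ G = 0 := by
  rw [← norm_le_zero_iff]
  refine le_of_forall_pos_le_add fun ε hε => ?_
  have hg := norm_nonneg g
  obtain ⟨k, hk⟩ := hs (ε / (‖g‖ + 1)) (by positivity)
  have h1 : (0 : ℝ) < 1 / (k + 1) := Nat.one_div_pos_of_nat
  have h2 : 1 / (k + 1 : ℝ) ≤ 1 := by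
    rw [div_le_one (by positivity)]; linarith [(Nat.cast_nonneg k : (0 : ℝ) ≤ k)]
  have h3 := attain hψ hF h (hC k) (θ := 1 - 1 / (k + 1 : ℝ)) (by linarith) (by linarith)
    (Eventually.of_forall (hFC k))
  have h4 := bound2 ψ (hC k) (g := G) (a := ε / (‖g‖ + 1) * ‖g‖) (b := 1 * ‖g‖) (by positivity)
    (by positivity) (by
      filter_upwards [hG, hk, linf_ae g] with t e1 e2 e3 ht
      rw [e1]; exact norm_mul_le_of_le (e2 ht) e3) (by
      filter_upwards [hG, hu, linf_ae g] with t e1 e2 e3 _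
      rw [e1]; exact norm_mul_le_of_le e2 e3)
  rw [h3, mul_zero, add_zero] at h4
  have h5 := (nu_le ψ (C k)).trans hψ
  have h6 : ε / (‖g‖ + 1) * ‖g‖ ≤ ε := by
    rw [div_mul_eq_mul_div, div_le_iff₀ (by positivity)]; nlinarith
  have h7 := mul_le_of_le_one_right (show 0 ≤ ε / (‖g‖ + 1) * ‖g‖ by positivity) h5
  linarith

variable {H : Type} [NormedAddCommGroup H] [NormedSpace ℂ H]

theorem only_if (J : H →ₗᵢ[ℂ] Linf) (hJ : ∀ g : Linf, (∃ h, J h = g) ↔ InHinf g)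
    (Φ : Finset (StrongDual ℂ H)) (f : kerAll Φ) (hf : IsExposedPt f) :
    ‖f‖ = 1 ∧ 0 < unimod (J f) := by
  obtain ⟨hf1, φ0, hφ0, hex⟩ := hf
  have hf2 : φ0 f = 1 := (hex.ge (Set.mem_singleton f)).2
  have hf3 : ‖f‖ = 1 := by
    refine le_antisymm hf1 ?_
    have := φ0.le_opNorm f
    rwa [hf2, hφ0, norm_one, one_mul] at this
  refine ⟨hf3, pos_iff_ne_zero.2 fun hE => ?_⟩
  set F : Linf := J f with hF
  have hF1 : ‖F‖ = 1 := by rw [hF, J.norm_map]; exact hf3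
  let A : ℕ → Set TT := fun k => {t | 1 - 1 / (k + 1 : ℝ) < ‖F t‖}
  have hA : ∀ k, MeasurableSet (A k) := fun k =>
    measurableSet_lt measurable_const (Lp.stronglyMeasurable F).measurable.norm
  have hAa : Antitone A := fun a b hab t (ht : 1 - 1 / (b + 1 : ℝ) < ‖F t‖) =>
    lt_of_le_of_lt (sub_le_sub_left (Nat.one_div_le_one_div hab) 1) ht
  have hA0 : Tendsto (fun k => mT (A k)) atTop (𝓝 0) := by
    have := tendsto_measure_iInter_atTop (μ := mT) (fun k => (hA k).nullMeasurableSet) hAa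
      ⟨0, measure_ne_top _ _⟩
    have e : mT (⋂ k, A k) = 0 := by
      rw [measure_eq_zero_iff_ae_notMem]
      filter_upwards [linf_ae F, measure_eq_zero_iff_ae_notMem.1 hE] with t h1 h2 h3
      refine h2 (le_antisymm (h1.trans hF1.le) ?_)
      have h4 : Tendsto (fun k : ℕ => 1 - 1 / (k + 1 : ℝ)) atTop (𝓝 (1 - 0)) :=
        tendsto_const_nhds.sub tendsto_one_div_add_atTop_nhds_zero_nat
      rw [sub_zero] at h4
      exact le_of_tendsto' h4 fun k => le_of_lt (Set.mem_iInter.1 h3 k)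
    rw [e] at this
    exact this
  choose e he1 he2 using fun φ : StrongDual ℂ H => ext_dual J φ
  obtain ⟨C0, c1, c2, c3, c4⟩ := yh (fun D => ∑ φ ∈ Φ, nu (e φ) D) (∑ φ ∈ Φ, ‖e φ‖)
    (fun D => Finset.sum_nonneg fun φ _ => nu_nonneg _ _)
    (fun D => Finset.sum_le_sum fun φ _ => nu_le _ _)
    (fun D D' h => Finset.sum_le_sum fun φ _ => nu_mono _ h)
    (fun D D' h => by
      rw [← Finset.sum_add_distrib]
      exact Finset.sum_le_sum fun φ _ => nu_super _ h)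
  let C : ℕ → Set TT := fun k => C0 k ∪ A k
  have hC : ∀ k, MeasurableSet (C k) := fun k => (c1 k).union (hA k)
  have hCa : Antitone C := fun a b hab => Set.union_subset_union (c2 hab) (hAa hab)
  have hC0 : Tendsto (fun k => mT (C k)) atTop (𝓝 0) := by
    have := c3.add hA0
    rw [add_zero] at this
    exact tendsto_of_tendsto_of_tendsto_of_le_of_le tendsto_const_nhds this
      (fun _ => zero_le) fun k => measure_union_le _ _
  have hFC : ∀ k : ℕ, ∀ t, t ∉ C k → ‖F t‖ ≤ 1 - 1 / (k + 1 : ℝ) := fun k t ht =>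
    not_lt.1 fun h => ht (Or.inr h)
  obtain ⟨L0, l1, l2, l3, l4⟩ := peak C hC hCa hC0
  set Lg := l1.mk L0
  have hm : Measurable Lg := l1.stronglyMeasurable_mk.measurable
  have hae : L0 =ᵐ[mT] Lg := l1.ae_eq_mk
  have hL : ∀ᵐ t ∂mT, 0 ≤ (Lg t).re ∧ |(Lg t).im| ≤ 2 := by
    filter_upwards [hae, l2] with t h1 h2
    rwa [← h1]
  have hbig : ∀ M : ℝ, ∃ k, ∀ᵐ t ∂mT, t ∈ C k → M ≤ (Lg t).re := fun M => by
    obtain ⟨k, hk⟩ := l3 M
    refine ⟨k, ?_⟩
    filter_upwards [hae, hk] with t h1 h2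
    rwa [← h1]
  have hAn : ∀ δ : ℝ, 0 ≤ δ → ∃ a, An (fun t => exp (-(δ * Lg t))) a := fun δ hδ => by
    obtain ⟨a, ha⟩ := l4 δ hδ
    refine ⟨a, ha.congr ?_⟩
    filter_upwards [hae] with t h1
    rw [h1]
  have hb1 : ∀ δ : ℝ, 0 ≤ δ → ∀ᵐ t ∂mT, ‖exp (-(δ * Lg t))‖ ≤ 1 := fun δ hδ => by
    filter_upwards [hL] with t ht
    exact norm_ex_le hδ ht.1
  choose! B hB using fun (δ : ℝ) (hδ : 0 ≤ δ) =>
    exists_mul (hAn δ hδ).choose_spec.meas (hb1 δ hδ)
  choose! M hM using fun (δ : ℝ) (hδ : 0 ≤ δ) => lift_op J (B δ) fun x => (hJ _).2 fun k hk => by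
    obtain ⟨a, ha⟩ := hAn δ hδ
    exact ((ha.mul (an_of ((hJ _).1 ⟨x, rfl⟩))).congr (hB δ hδ _).symm).neg k hk
  choose μ0 m1 m2 using fun φ : Φ => cau (e φ) hC hCa hm hL hbig hB fun ε hε => by
    obtain ⟨η, hη, h⟩ := c4 ε hε
    refine ⟨η, hη, fun D hD hD' k => le_trans ?_ (h D hD hD' k)⟩
    exact (nu_mono _ (Set.sdiff_subset_sdiff_right Set.subset_union_left)).trans
      (Finset.single_le_sum (f := fun φ => nu (e φ) (D \ C0 k)) (fun φ _ => nu_nonneg _ _) φ.2)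
  let T : H →L[ℂ] (Φ → ℂ) :=
    ContinuousLinearMap.pi fun φ => (μ0 φ).comp J.toContinuousLinearMap
  have hT : ∀ x φ, T x φ = μ0 φ (J x) := fun _ _ => rfl
  have hkill : ∀ ψ : StrongDual ℂ Linf, ‖ψ‖ ≤ 1 → ψ F = 1 → ∀ δ, 0 < δ → ∀ g, ψ (B δ g) = 0 :=
    fun ψ h1 h2 δ hδ g => kill h1 hF1.le h2 hC hFC (hb1 δ hδ.le)
      (fun κ hκ => small hbig hδ hκ) (hB δ hδ.le g)
  obtain ⟨ρ, r0, r1, δ0, d0, d1⟩ := solve T M (f := f.1) hf1 (fun ε hε => by
    have : ∀ᶠ δ in 𝓝[>] (0 : ℝ), ∀ φ : Φ, ∀ g, ‖e φ (B δ g) - μ0 φ g‖ ≤ ε * ‖g‖ :=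
      eventually_all.2 fun φ => by
        obtain ⟨δ0, h0, h⟩ := m2 φ ε hε
        filter_upwards [Ioo_mem_nhdsGT h0] with δ hδ
        exact h δ hδ.1 hδ.2
    obtain ⟨δ0, h0, h⟩ := mem_nhdsGT_iff_exists_Ioo_subset.1 this
    refine ⟨δ0, h0, fun δ a1 a2 x => ?_⟩
    refine (pi_norm_le_iff_of_nonneg (by positivity)).2 fun φ => ?_
    rw [Pi.sub_apply, hT, hT, hM δ a1.le, m1 φ δ a1, ← J.norm_map x]
    exact h ⟨a1, a2⟩ φ _) (fun ψ h1 h2 δ hδ => by
    rw [← he2, hM δ hδ.le]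
    exact hkill _ ((he1 ψ).trans h1) ((he2 ψ _).trans h2) δ hδ _)
  set δ := min (δ0 / 2) ((1 - ρ) / 4) with hδ
  have hδ0 : 0 < δ := lt_min (half_pos d0) (by linarith)
  obtain ⟨k, hk1, hk2⟩ := d1 δ hδ0 ((min_le_left _ _).trans_lt (half_lt_self d0))
  have hz : M δ (f.1 - k) ∈ kerAll Φ := fun φ hφ => by
    have := congrFun hk2 ⟨φ, hφ⟩
    rw [hT, hM δ hδ0.le, m1 _ δ hδ0, ← hM δ hδ0.le, he2] at this
    exact this
  set ε : ℂ := (((1 - ρ) / 2 : ℝ) : ℂ) with hε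
  let y : kerAll Φ := f - ε • ⟨_, hz⟩
  have hy : J y = F - ε • B δ (F - J k) := by
    show J (f.1 - ε • M δ (f.1 - k)) = _
    rw [map_sub, map_smul, hM δ hδ0.le, map_sub]
  have hy1 : ‖y‖ ≤ 1 := by
    show ‖y.1‖ ≤ 1
    rw [← J.norm_map, hy]
    refine linf_le zero_le_one ?_
    filter_upwards [Lp.coeFn_sub F (ε • B δ (F - J k)), Lp.coeFn_smul ε (B δ (F - J k)),
      hB δ hδ0.le (F - J k), Lp.coeFn_sub F (J k), linf_ae F, linf_ae (J k), hL]
      with t e1 e2 e3 e4 e5 e6 e7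
    rw [e1, Pi.sub_apply, e2, Pi.smul_apply, e3, e4, Pi.sub_apply, smul_eq_mul]
    rw [J.norm_map] at e6
    exact disc r0 r1 (e5.trans hF1.le) (e6.trans hk1) (norm_ex_le hδ0.le e7.1)
      (re_ex hδ0.le r0 (min_le_right _ _) e7.2)
  obtain ⟨ψ, p1, p2⟩ := ext_dual (J.comp (kerAll Φ).subtypeₗᵢ) φ0
  have p3 : ∀ x : kerAll Φ, ψ (J x) = φ0 x := p2
  have hy2 : φ0 y = 1 := by
    rw [← p3, hy, map_sub, map_smul, hkill ψ (p1.trans hφ0.le) ((p3 f).trans hf2) δ hδ0, hF,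
      p3, hf2]
    simp
  have hy3 : y = f := hex.le ⟨hy1, hy2⟩
  rw [hy3, ← hF, eq_comm, sub_eq_self, smul_eq_zero] at hy
  have hε0 : ε ≠ 0 := by
    rw [hε, ofReal_ne_zero]; linarith
  have h5 := hB δ hδ0.le (F - J k)
  rw [hy.resolve_left hε0] at h5
  have h6 : F - J k = 0 := by
    refine Lp.ext ?_
    filter_upwards [h5, Lp.coeFn_zero ℂ ⊤ mT] with t e1 e2
    rw [e2] at e1 ⊢
    exact (mul_eq_zero.1 e1.symm).resolve_left (exp_ne_zero _)
  rw [sub_eq_zero.1 h6, J.norm_map] at hF1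
  linarith

theorem if_dir (J : H →ₗᵢ[ℂ] Linf) (hJ : ∀ g : Linf, (∃ h, J h = g) ↔ InHinf g)
    (Φ : Finset (StrongDual ℂ H)) (f : kerAll Φ) (hf : ‖f‖ = 1) (hE : 0 < unimod (J f)) :
    IsExposedPt f := by
  set F : Linf := J f with hF
  have hF1 : ‖F‖ = 1 := by rw [hF, J.norm_map]; exact hf
  set E : Set TT := {t | ‖F t‖ = 1} with hEd
  have hEm : MeasurableSet E :=
    measurableSet_eq_fun (Lp.stronglyMeasurable F).measurable.norm measurable_const
  have hp : 0 < mT.real E := ENNReal.toReal_pos hE.ne' (measure_ne_top _ _)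
  have hint : ∀ g : Linf, Integrable (fun t => conj (F t) * g t) (mT.restrict E) := fun g => by
    refine Integrable.restrict (Integrable.of_bound ?_ (‖F‖ * ‖g‖) ?_)
    · exact (Complex.continuous_conj.comp_aestronglyMeasurable (Lp.aestronglyMeasurable F)).mul
        (Lp.aestronglyMeasurable g)
    · filter_upwards [linf_ae F, linf_ae g] with t h1 h2
      exact norm_mul_le_of_le (by rwa [RCLike.norm_conj]) h2
  have hbd : ∀ g : Linf, ∀ᵐ t ∂mT.restrict E, ‖conj (F t) * g t‖ ≤ ‖g‖ := fun g => by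
    filter_upwards [ae_restrict_of_ae (linf_ae g), ae_restrict_mem hEm] with t h1 h2
    rwa [norm_mul, RCLike.norm_conj, show ‖F t‖ = 1 from h2, one_mul]
  let l : Linf →ₗ[ℂ] ℂ :=
    { toFun := fun g => ((mT.real E)⁻¹ : ℝ) * ∫ t in E, conj (F t) * g t ∂mT
      map_add' := fun g h => by
        rw [← mul_add, ← integral_add (hint g) (hint h)]
        congr 1
        refine integral_congr_ae ?_
        filter_upwards [ae_restrict_of_ae (Lp.coeFn_add g h)] with t ht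
        rw [ht, Pi.add_apply, mul_add]
      map_smul' := fun c g => by
        rw [RingHom.id_apply, smul_eq_mul, mul_left_comm, ← integral_const_mul c]
        congr 1
        refine integral_congr_ae ?_
        filter_upwards [ae_restrict_of_ae (Lp.coeFn_smul c g)] with t ht
        rw [ht, Pi.smul_apply, smul_eq_mul]; ring }
  have hl : ∀ g, l g = ((mT.real E)⁻¹ : ℝ) * ∫ t in E, conj (F t) * g t ∂mT := fun _ => rfl
  have hl1 : ∀ g, ‖l g‖ ≤ ‖g‖ := fun g => by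
    have := norm_integral_le_of_norm_le_const (hbd g)
    rw [measureReal_restrict_apply_univ] at this
    rw [hl, norm_mul, norm_real, Real.norm_of_nonneg (by positivity), inv_mul_le_iff₀ hp,
      mul_comm]
    exact this
  let φ : StrongDual ℂ (kerAll Φ) :=
    LinearMap.mkContinuous (l ∘ₗ J.toLinearMap ∘ₗ (kerAll Φ).subtype) 1 fun x => by
      rw [one_mul]
      exact (hl1 _).trans_eq (J.norm_map x.1)
  have hφ : ∀ x : kerAll Φ, φ x = l (J x) := fun _ => rfl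
  have hone : ∀ᵐ t ∂mT.restrict E, conj (F t) * F t = 1 := by
    filter_upwards [ae_restrict_mem hEm] with t h2
    rw [conj_mul', show ‖F t‖ = 1 from h2]; simp
  have hφf : φ f = 1 := by
    rw [hφ, hl, ← hF, integral_congr_ae hone, integral_const, measureReal_restrict_apply_univ,
      real_smul, mul_one, ← ofReal_mul, inv_mul_cancel₀ hp.ne', ofReal_one]
  refine ⟨hf.le, φ, le_antisymm (LinearMap.mkContinuous_norm_le _ zero_le_one _) ?_, ?_⟩
  · have := φ.le_opNorm f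
    rwa [hφf, hf, norm_one, mul_one] at this
  refine Set.eq_singleton_iff_unique_mem.2 ⟨⟨hf.le, hφf⟩, fun y ⟨hy1, hy2⟩ => ?_⟩
  set Y : Linf := J y with hY
  have hY1 : ‖Y‖ ≤ 1 := by rw [hY, J.norm_map]; exact hy1
  have hI : ∫ t in E, conj (F t) * Y t ∂mT = (mT.real E : ℝ) := by
    rw [hφ, hl, ← hY, ofReal_inv, inv_mul_eq_one₀ (ofReal_ne_zero.2 hp.ne')] at hy2
    exact hy2.symm
  have hre : ∫ t in E, (conj (F t) * Y t).re ∂mT = mT.real E := by
    have := reCLM.integral_comp_comm (hint Y)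
    simp only [reCLM_apply] at this
    rw [this, hI, ofReal_re]
  have hle : ∀ᵐ t ∂mT.restrict E, (conj (F t) * Y t).re ≤ 1 := by
    filter_upwards [hbd Y] with t ht
    exact (re_le_norm _).trans (ht.trans hY1)
  have heq := (integral_eq_iff_of_ae_le (hint Y).re (integrable_const (1 : ℝ)) hle).1 (by
    rw [integral_const, measureReal_restrict_apply_univ, smul_eq_mul, mul_one]
    exact hre)
  have hYF : ∀ᵐ t ∂mT.restrict E, Y t = F t := by
    filter_upwards [heq, hbd Y, hone] with t e1 e2 e3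
    have e4 : conj (F t) * Y t = 1 := by
      have e5 : (conj (F t) * Y t).re = 1 := e1
      have e6 := Complex.sq_norm (conj (F t) * Y t)
      rw [Complex.normSq_apply, e5] at e6
      have e7 : ‖conj (F t) * Y t‖ ^ 2 ≤ 1 := pow_le_one₀ (norm_nonneg _) (e2.trans hY1)
      exact Complex.ext e5 (by
        have : (conj (F t) * Y t).im * (conj (F t) * Y t).im ≤ 0 := by linarith
        exact mul_self_eq_zero.1 (le_antisymm this (mul_self_nonneg _)))
    linear_combination F t * e4 - Y t * e3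
  have hin : InHinf (Y - F) := (hJ _).1 ⟨y.1 - f.1, map_sub J _ _⟩
  have hz := uniq hEm hE.ne' (an_of hin) (by
    filter_upwards [(ae_restrict_iff' hEm).1 hYF, Lp.coeFn_sub Y F] with t e1 e2 ht
    rw [e2, Pi.sub_apply, e1 ht, sub_self])
  have : Y - F = 0 := Lp.ext (hz.trans (Lp.coeFn_zero ℂ ⊤ mT).symm)
  exact Subtype.ext (J.injective (sub_eq_zero.1 this))

end Pool.Agent.H88.Hx
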