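import Mathlib

set_option autoImplicit false

namespace Pool.Agent.H88.Interp

/-- `g` is a bounded analytic function on the unit disc. -/
def IsHinf (g : ℂ → ℂ) : Prop :=
  DifferentiableOn ℂ g (Metric.ball 0 1) ∧ ∃ M : ℝ, ∀ z ∈ Metric.ball (0 : ℂ) 1, ‖g z‖ ≤ M

/-- The supremum norm over the unit disc. -/
noncomputable def supNorm (g : ℂ → ℂ) : ℝ := ⨆ z : Metric.ball (0 : ℂ) 1, ‖g z‖

/-- A Blaschke sequence: distinct points of the disc with `∑ (1 - |z n|) < ∞`. -/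
def IsBlaschkeSeq (z : ℕ → ℂ) : Prop :=
  Function.Injective z ∧ (∀ n, ‖z n‖ < 1) ∧ Summable fun n => 1 - ‖z n‖

/-- `g` is a minimal-norm interpolant of `f` at the nodes `z n`. -/
def IsMinInterp (f : ℂ → ℂ) (z : ℕ → ℂ) (g : ℂ → ℂ) : Prop :=
  IsHinf g ∧ (∀ n, g (z n) = f (z n)) ∧
    ∀ h : ℂ → ℂ, IsHinf h → (∀ n, h (z n) = f (z n)) → supNorm g ≤ supNorm h

/-- `g` is, on the disc, a constant multiple of a (finite or infinite) Blaschke product. -/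
def IsBlaschkeMultiple (g : ℂ → ℂ) : Prop :=
  ∃ (c : ℂ) (θ : ℝ) (k : ℕ) (J : Set ℕ) (a : ℕ → ℂ), (∀ j ∈ J, a j ≠ 0 ∧ ‖a j‖ < 1) ∧
    (Summable fun j : J => 1 - ‖a j‖) ∧
    ∀ z ∈ Metric.ball (0 : ℂ) 1, g z = c * (Complex.exp (θ * Complex.I) * z ^ k *
      ∏' j : J, ((‖a j‖ : ℂ) / a j * ((a j - z) / (1 - (starRingEnd ℂ) (a j) * z))))

end Pool.Agent.H88.Interp
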