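import Pool.Agent.H88.Blaschke
import Pool.Agent.H88.InterpDefs

set_option autoImplicit false

namespace Pool.Agent.H88.Interp

open Filter Complex Topology Metric Pool.Agent.H88.Blaschke

lemma key_id (g u : ℂ) : ‖u + 2 + g‖ ^ 2 - ‖g * (u - 2) - 1‖ ^ 2 =
    (1 - ‖g‖ ^ 2) * (‖u - 2‖ ^ 2 - 1) + 8 * u.re + 4 * u.re * g.re := by
  simp only [Complex.sq_norm, normSq_apply, sub_re, one_re, mul_re, sub_im, add_re, add_im,
    one_im, mul_im, re_ofNat, im_ofNat]
  ring

lemma N_le_D {g u : ℂ} (hg : ‖g‖ ≤ 1) (hu : 0 < u.re) : ‖g * (u - 2) - 1‖ ≤ ‖u + 2 + g‖ := by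
  have h1 := key_id g u
  have h2 : -1 ≤ g.re := by linarith [(abs_le.1 ((abs_re_le_norm g).trans hg)).1]
  have h3 : 0 ≤ 1 - ‖g‖ ^ 2 := by nlinarith [norm_nonneg g]
  have h4 : (u.re - 2) ^ 2 ≤ ‖u - 2‖ ^ 2 := by
    have := abs_re_le_norm (u - 2)
    rw [← sq_abs]
    simp only [sub_re, re_ofNat] at this
    gcongr
  have h5 : 0 ≤ (1 - ‖g‖ ^ 2) * (‖u - 2‖ ^ 2 - 1) + 4 * u.re := by
    rcases le_total u.re 1 with h | h
    · have : 0 ≤ ‖u - 2‖ ^ 2 - 1 := by nlinarith
      positivity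
    · nlinarith [sq_nonneg ‖g‖, sq_nonneg ‖u - 2‖, mul_nonneg h3 (sq_nonneg ‖u - 2‖)]
  apply le_of_sq_le_sq _ (norm_nonneg _) |> fun h => h
  nlinarith

lemma D_ne {g u : ℂ} (hg : ‖g‖ ≤ 1) (hu : 0 < u.re) : u + 2 + g ≠ 0 := by
  intro h
  have h1 := congrArg re h
  have h2 : -1 ≤ g.re := by linarith [(abs_le.1 ((abs_re_le_norm g).trans hg)).1]
  simp only [add_re, re_ofNat, zero_re] at h1
  linarith

lemma S_le {u : ℂ} (hu : 0 < u.re) : ‖exp (-u)‖ ≤ 1 := by
  rw [norm_exp, Real.exp_le_one_iff]; simp only [neg_re]; linarith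

lemma left_side {u : ℂ} (hu : 0 < u.re) :
    (1 - 20 * u.re) * ‖u + 2 + exp (-u)‖ ^ 2 ≤ ‖exp (-u) * (u - 2) - 1‖ ^ 2 := by
  have h1 := key_id (exp (-u)) u
  have hS := S_le hu
  have h2 : 1 - ‖exp (-u)‖ ^ 2 ≤ 2 * u.re := by
    rw [norm_exp, ← Real.exp_nat_mul]
    have := Real.add_one_le_exp ((2 : ℕ) * (-u).re)
    simp only [neg_re, Nat.cast_ofNat] at this ⊢
    linarith
  have h3 : (exp (-u)).re ≤ 1 := (re_le_norm _).trans hS
  have h4 : ‖u - 2‖ ^ 2 ≤ ‖u + 2‖ ^ 2 := by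
    simp only [Complex.sq_norm, normSq_apply, sub_re, sub_im, add_re, add_im, re_ofNat, im_ofNat]
    nlinarith
  have h5 : 2 ≤ ‖u + 2‖ := by
    have := re_le_norm (u + 2)
    simp only [add_re, re_ofNat] at this
    linarith
  have h6 : ‖u + 2‖ ≤ ‖u + 2 + exp (-u)‖ + 1 := by
    have := norm_sub_le (u + 2 + exp (-u)) (exp (-u))
    rw [add_sub_cancel_right] at this
    linarith
  generalize ‖u + 2 + exp (-u)‖ = D at *
  have h7 : ‖u + 2‖ ^ 2 ≤ 4 * D ^ 2 := by nlinarith
  have h8 : 1 ≤ D ^ 2 := by nlinarith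
  have h9 : (1 - ‖exp (-u)‖ ^ 2) * (‖u - 2‖ ^ 2 - 1) ≤ 2 * u.re * (4 * D ^ 2) := by
    have h0 : 0 ≤ 1 - ‖exp (-u)‖ ^ 2 := by nlinarith [norm_nonneg (exp (-u))]
    calc _ ≤ (1 - ‖exp (-u)‖ ^ 2) * (4 * D ^ 2) := by gcongr; linarith
      _ ≤ _ := by gcongr
  nlinarith

lemma horiz {u : ℂ} {k : ℕ} (hk : 1 ≤ k)
    (h : u.im = k * (2 * Real.pi) - Real.pi / 2 ∨ u.im = -(k * (2 * Real.pi) - Real.pi / 2)) :
    1 ≤ ‖exp (-u) * (u - 2) - 1‖ := by
  have h1 : (exp (-u) * (u - 2) - 1).re ≤ -1 := by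
    have hY : 0 ≤ k * (2 * Real.pi) - Real.pi / 2 := by
      have : (1 : ℝ) ≤ k := by exact_mod_cast hk
      nlinarith [Real.pi_pos]
    have hs : Real.sin (k * (2 * Real.pi) - Real.pi / 2) = -1 := by
      rw [Real.sin_nat_mul_two_pi_sub, Real.sin_pi_div_two]
    have hc : Real.cos (k * (2 * Real.pi) - Real.pi / 2) = 0 := by
      rw [Real.cos_nat_mul_two_pi_sub, Real.cos_pi_div_two]
    have hp := Real.exp_pos (-u.re)
    simp only [sub_re, mul_re, exp_re, exp_im, neg_re, neg_im, sub_im, im_ofNat, one_re,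
      Real.cos_neg, Real.sin_neg]
    rcases h with h | h
    · rw [h, hs, hc]; nlinarith
    · rw [h, Real.cos_neg, Real.sin_neg, hs, hc]; nlinarith
  have := abs_re_le_norm (exp (-u) * (u - 2) - 1)
  linarith [neg_abs_le (exp (-u) * (u - 2) - 1).re]

lemma right_side {u : ℂ} (h7 : 7 ≤ u.re) (h : |u.im| ≤ u.re) :
    1 / 2 ≤ ‖exp (-u) * (u - 2) - 1‖ := by
  have h1 : ‖exp (-u) * (u - 2)‖ ≤ 1 / 2 := by
    rw [norm_mul, norm_exp, neg_re, Real.exp_neg, ← div_eq_inv_mul, div_le_iff₀ (Real.exp_pos _)]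
    have h2 := Real.quadratic_le_exp_of_nonneg (show 0 ≤ u.re by linarith)
    have h3 := norm_le_abs_re_add_abs_im (u - 2)
    simp only [sub_re, re_ofNat, sub_im, im_ofNat, sub_zero] at h3
    rw [abs_of_nonneg (show 0 ≤ u.re - 2 by linarith)] at h3
    nlinarith
  have := norm_sub_norm_le 1 (exp (-u) * (u - 2))
  rw [norm_one, norm_sub_rev] at this
  linarith

lemma h_bound {h : ℂ → ℂ} (hd : DifferentiableOn ℂ h {u | 0 < u.re})
    (hb : ∀ u : ℂ, 0 < u.re → ‖h u‖ * ‖exp (-u) * (u - 2) - 1‖ ≤ ‖u + 2 + exp (-u)‖)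
    {u₀ : ℂ} (hu₀ : 0 < u₀.re) : ‖h u₀‖ ≤ 1 := by
  have main : ∀ t : ℝ, 0 < t → t ≤ 1 / 40 → t < u₀.re →
      ‖h u₀‖ ≤ (1 + 20 * t) * ‖1 + t * u₀‖ ^ 2 := by
    intro t ht0 ht1 ht2
    obtain ⟨k, hk⟩ := exists_nat_gt (max 7 (max (4 / t ^ 2) ‖u₀‖))
    have hk7 : (7 : ℝ) < k := lt_of_le_of_lt (le_max_left _ _) hk
    have hk1 : 1 ≤ k := by exact_mod_cast (show (1 : ℝ) ≤ k by linarith)
    obtain ⟨Y, hY⟩ : ∃ Y : ℝ, Y = k * (2 * Real.pi) - Real.pi / 2 := ⟨_, rfl⟩
    have hkY : (k : ℝ) ≤ Y := by rw [hY]; nlinarith [Real.pi_gt_three]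
    have hY1 : 4 / t ^ 2 < Y := by
      linarith [le_max_left (4 / t ^ 2) ‖u₀‖, le_max_right 7 (max (4 / t ^ 2) ‖u₀‖)]
    have hY2 : ‖u₀‖ < Y := by
      linarith [le_max_right (4 / t ^ 2) ‖u₀‖, le_max_right 7 (max (4 / t ^ 2) ‖u₀‖)]
    have hden : ∀ u : ℂ, 0 < u.re → 1 + t ^ 2 * ‖u‖ ^ 2 ≤ ‖1 + t * u‖ ^ 2 := by
      intro u hu
      simp only [Complex.sq_norm, normSq_apply, add_re, add_im, one_re, one_im, mul_re, mul_im,
        ofReal_re, ofReal_im]
      nlinarith [mul_pos ht0 hu]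
    have hden0 : ∀ u : ℂ, 0 < u.re → 1 + t * u ≠ 0 := by
      intro u hu h0
      have := hden u hu
      rw [h0, norm_zero] at this
      nlinarith [sq_nonneg (t * ‖u‖)]
    have hfar : ∀ u : ℂ, 0 < u.re → Y ≤ ‖u‖ → 1 / 2 ≤ ‖exp (-u) * (u - 2) - 1‖ →
        ‖h u / (1 + t * u) ^ 2‖ ≤ 1 + 20 * t := by
      intro u hu hYu hN
      have h1 := hb u hu
      have h2 : ‖u + 2 + exp (-u)‖ ≤ ‖u‖ + 3 := by
        have := norm_add₃_le (a := u) (b := 2) (c := exp (-u))
        rw [Complex.norm_two] at this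
        linarith [S_le hu]
      have h3 : ‖h u‖ ≤ 2 * ‖u‖ + 6 := by nlinarith [norm_nonneg (h u)]
      have h4 := hden u hu
      have h5 : 4 ≤ t ^ 2 * ‖u‖ := by
        rw [div_lt_iff₀ (by positivity)] at hY1
        nlinarith [sq_nonneg t]
      rw [norm_div, norm_pow, div_le_iff₀ (by nlinarith [sq_nonneg (t * ‖u‖)])]
      nlinarith [sq_nonneg ‖1 + t * u‖]
    have htY : t < Y := by linarith
    have hYY : -Y < Y := by linarith
    have hmax := Complex.norm_le_of_forall_mem_frontier_norm_le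
      (f := fun u => h u / (1 + t * u) ^ 2) (U := Set.Ioo t Y ×ℂ Set.Ioo (-Y) Y) (C := 1 + 20 * t)
      ((Metric.isBounded_Ioo _ _).reProdIm (Metric.isBounded_Ioo _ _)) (by
        apply DifferentiableOn.diffContOnCl
        rw [closure_reProdIm, closure_Ioo htY.ne]
        have hsub : Set.Icc t Y ×ℂ closure (Set.Ioo (-Y) Y) ⊆ {u | 0 < u.re} :=
          fun u hu => ht0.trans_le hu.1.1
        exact (hd.mono hsub).div (by fun_prop) fun u hu => pow_ne_zero 2 (hden0 u (hsub hu))) (by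
        intro u hu
        rw [frontier_reProdIm, frontier_Ioo hYY, frontier_Ioo htY, closure_Ioo htY.ne,
          closure_Ioo hYY.ne] at hu
        rcases hu with hu | hu
        · have h1 : 0 < u.re := ht0.trans_le hu.1.1
          have h2 : u.im = Y ∨ u.im = -Y := by
            rcases hu.2 with h | h
            · exact Or.inr h
            · exact Or.inl h
          refine hfar u h1 ?_ ((by norm_num : (1 / 2 : ℝ) ≤ 1).trans (horiz hk1 (hY ▸ h2)))
          refine le_trans ?_ (abs_im_le_norm u)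
          rcases h2 with h | h <;> rw [h]
          · exact le_abs_self _
          · rw [abs_neg]; exact le_abs_self _
        · rcases hu.1 with h1 | h1
          · have h2 : 0 < u.re := by rw [h1]; exact ht0
            have h3 := left_side h2
            have h4 := hb u h2
            have h5 := hden u h2
            have h6 := norm_pos_iff.2 (D_ne (S_le h2) h2)
            rw [h1] at h3
            have h7 : ‖h u‖ ≤ 1 + 20 * t := by
              by_contra hc
              rw [not_le] at hc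
              generalize ‖u + 2 + exp (-u)‖ = D at *
              have hN := norm_nonneg (exp (-u) * (u - 2) - 1)
              generalize ‖exp (-u) * (u - 2) - 1‖ = N at *
              have hNpos : 0 < N := by
                rcases hN.eq_or_lt with h | h
                · rw [← h] at h3; nlinarith [mul_pos h6 h6]
                · exact h
              have h8 : (1 + 20 * t) * N < D := by nlinarith
              have h9 : ((1 + 20 * t) * N) ^ 2 < D ^ 2 := by gcongr
              have h10 : (1 + 20 * t) ^ 2 * ((1 - 20 * t) * D ^ 2) ≤ (1 + 20 * t) ^ 2 * N ^ 2 := by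
                gcongr
              have h11 : 1 ≤ (1 + 20 * t) ^ 2 * (1 - 20 * t) := by nlinarith [mul_pos ht0 ht0]
              nlinarith [mul_pos h6 h6]
            rw [norm_div, norm_pow]
            refine (div_le_self (norm_nonneg _) ?_).trans h7
            nlinarith [sq_nonneg (t * ‖u‖)]
          · have h1' : u.re = Y := h1
            refine hfar u (by linarith) (h1' ▸ re_le_norm u) (right_side (by linarith) ?_)
            rw [h1']; exact abs_le.2 hu.2) (z := u₀) (subset_closure ⟨⟨ht2,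
              (re_le_norm _).trans_lt hY2⟩, abs_lt.1 ((abs_im_le_norm _).trans_lt hY2)⟩)
    rw [norm_div, norm_pow, div_le_iff₀ (pow_pos (norm_pos_iff.2 (hden0 _ hu₀)) 2)] at hmax
    exact hmax
  have hc : Continuous fun t : ℝ => (1 + 20 * t) * ‖1 + t * u₀‖ ^ 2 := by fun_prop
  have h1 := (hc.tendsto 0).mono_left (nhdsWithin_le_nhds (s := Set.Ioi 0))
  simp only [mul_zero, add_zero, ofReal_zero, zero_mul, norm_one, one_pow, mul_one] at h1
  refine ge_of_tendsto h1 ?_
  filter_upwards [Ioo_mem_nhdsGT (show 0 < min (1 / 40) u₀.re from lt_min (by norm_num) hu₀)]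
    with t ht
  exact main t ht.1 (ht.2.le.trans (min_le_left _ _)) (ht.2.trans_le (min_le_right _ _))

lemma unique_half {G : ℂ → ℂ} (hd : DifferentiableOn ℂ G {u | 0 < u.re})
    (hb : ∀ u : ℂ, 0 < u.re → ‖G u‖ ≤ 1)
    (hz : ∀ u : ℂ, 0 < u.re → exp (-u) * (u - 2) - 1 = 0 → G u = exp (-u))
    {u : ℂ} (hu : 0 < u.re) : G u = exp (-u) := by
  have hU : IsOpen {u : ℂ | 0 < u.re} := isOpen_lt continuous_const continuous_re
  obtain ⟨q, hq, hqe⟩ := exists_quot hU (A := fun u => G u * (u - 2) - 1)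
    (B := fun u => exp (-u) * (u - 2) - 1) ((hd.mul (by fun_prop)).sub (by fun_prop))
    (by fun_prop) (by
      intro w hw h0
      refine ⟨by rw [hz w hw h0]; exact h0, ?_⟩
      have d1 := ((((hasDerivAt_id w).neg.cexp).mul ((hasDerivAt_id w).sub_const 2)).sub_const 1)
      have d2 := d1.deriv
      simp only [id, Pi.neg_apply, Pi.mul_apply] at d2
      rw [d2]
      intro h1
      have h2 : exp (-w) = 1 := by linear_combination h1 + h0
      have h3 : w = 3 := by rw [h2] at h0; linear_combination h0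
      have h4 := congrArg norm h2
      rw [h3, norm_exp, norm_one, Real.exp_eq_one_iff] at h4
      norm_num at h4)
  set h : ℂ → ℂ := fun u => q u * (u + 2 + exp (-u)) / (u + 2 + G u) with hh
  have hhd : DifferentiableOn ℂ h {u | 0 < u.re} :=
    (hq.mul (by fun_prop)).div ((by fun_prop : DifferentiableOn ℂ (fun u : ℂ => u + 2) _).add hd)
      fun w hw => D_ne (hb w hw) hw
  have hid : ∀ w : ℂ, 0 < w.re → h w * (exp (-w) * (w - 2) - 1) * (w + 2 + G w) =
      (G w * (w - 2) - 1) * (w + 2 + exp (-w)) := by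
    intro w hw
    have h1 := D_ne (hb w hw) hw
    rw [hqe w hw]
    simp only [hh]
    field_simp
  have hle : ∀ w : ℂ, 0 < w.re → ‖h w‖ ≤ 1 := by
    intro w hw
    apply h_bound hhd _ hw
    intro v hv
    have h1 := congrArg norm (hid v hv)
    rw [norm_mul, norm_mul, norm_mul] at h1
    have h2 := N_le_D (hb v hv) hv
    have h3 := norm_pos_iff.2 (D_ne (hb v hv) hv)
    apply le_of_mul_le_mul_right _ h3
    rw [h1, mul_comm]
    gcongr
  have hs0 : 0 < (Real.sqrt 3 : ℂ).re := by simp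
  have hs2 : (Real.sqrt 3 : ℂ) ^ 2 = 3 := by
    rw [← ofReal_pow, Real.sq_sqrt (by norm_num)]; norm_num
  generalize (Real.sqrt 3 : ℂ) = s at hs0 hs2
  have hs1 : h s = 1 := by
    have h1 := hid s hs0
    have h2 : ∀ g : ℂ, g * (s - 2) - 1 = (s - 2) * (s + 2 + g) := by
      intro g; linear_combination -hs2
    rw [h2, h2] at h1
    have h3 := D_ne (hb s hs0) hs0
    have h4 := D_ne (S_le hs0) hs0
    have h5 : s - 2 ≠ 0 := by
      intro h
      have : s = 2 := by linear_combination h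
      rw [this] at hs2; norm_num at hs2
    apply mul_right_cancel₀ (mul_ne_zero h5 (mul_ne_zero h3 h4))
    linear_combination h1
  have hone := Complex.eqOn_of_isPreconnected_of_isMaxOn_norm
    (convex_halfSpace_re_gt 0).isPreconnected hU hhd hs0 (by
      intro w hw
      simp only [Set.mem_ofPred_eq, Function.comp_apply, hs1, norm_one]
      exact hle w hw)
  have hfac : ∀ w : ℂ, 0 < w.re → (G w - exp (-w)) * (w ^ 2 - 3) = 0 := by
    intro w hw
    have h1 := hid w hw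
    rw [hone hw, Function.const_apply, hs1] at h1
    linear_combination -h1
  by_cases hu3 : u ^ 2 - 3 = 0
  · have hc : ContinuousAt (fun w => G w - exp (-w)) u :=
      (hd.continuousOn.continuousAt (hU.mem_nhds hu)).sub (by fun_prop)
    have h1 : ∀ᶠ w in 𝓝[≠] u, G w - exp (-w) = 0 := by
      filter_upwards [self_mem_nhdsWithin, mem_nhdsWithin_of_mem_nhds (hU.mem_nhds hu)] with w hw hw'
      refine (mul_eq_zero.1 (hfac w hw')).resolve_right fun h0 => ?_
      have h2 : (w - u) * (w + u) = 0 := by linear_combination h0 - hu3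
      rcases mul_eq_zero.1 h2 with h | h
      · exact hw (sub_eq_zero.1 h)
      · have := congrArg re h
        simp only [add_re, zero_re] at this
        have : 0 < w.re := hw'
        linarith
    exact sub_eq_zero.1 (tendsto_nhds_unique_of_eventuallyEq
      (hc.tendsto.mono_left nhdsWithin_le_nhds) tendsto_const_nhds h1)
  · exact sub_eq_zero.1 ((mul_eq_zero.1 (hfac u hu)).resolve_right hu3)

/-- Cayley map -/
noncomputable def cay (z : ℂ) : ℂ := (1 + z) / (1 - z)

lemma one_sub_ne {z : ℂ} (hz : ‖z‖ < 1) : 1 - z ≠ 0 := by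
  intro h
  have : z = 1 := by linear_combination -h
  rw [this] at hz; simp at hz

lemma cay_re {z : ℂ} (hz : ‖z‖ < 1) : 4 * (cay z).re = (1 - ‖z‖ ^ 2) * ‖cay z + 1‖ ^ 2 := by
  have h1 := one_sub_ne hz
  have h2 : cay z + 1 = 2 / (1 - z) := by unfold cay; field_simp; ring
  have h3 : normSq (1 - z) ≠ 0 := by simpa using h1
  rw [h2, norm_div, div_pow, Complex.norm_two, Complex.sq_norm (1 - z), Complex.sq_norm, cay, div_re]
  field_simp
  simp only [add_re, one_re, sub_re, add_im, one_im, sub_im, normSq_apply]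
  ring

lemma cay_re_pos {z : ℂ} (hz : ‖z‖ < 1) : 0 < (cay z).re := by
  have h1 := cay_re hz
  have h2 : cay z + 1 = 2 / (1 - z) := by have := one_sub_ne hz; unfold cay; field_simp; ring
  have h3 : 0 < ‖cay z + 1‖ := by
    rw [h2]; exact norm_pos_iff.2 (div_ne_zero two_ne_zero (one_sub_ne hz))
  have h4 : 0 < 1 - ‖z‖ ^ 2 := by nlinarith [norm_nonneg z]
  have := mul_pos h4 (pow_pos h3 2)
  linarith

lemma diff_cay : DifferentiableOn ℂ cay (ball 0 1) :=
  DifferentiableOn.div (by fun_prop) (by fun_prop) fun _ hz => one_sub_ne (mem_ball_zero_iff.1 hz)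

/-- the singular inner function -/
noncomputable def S (z : ℂ) : ℂ := exp (-cay z)

lemma diff_S : DifferentiableOn ℂ S (ball 0 1) := diff_cay.neg.cexp

lemma S_le_one {z : ℂ} (hz : ‖z‖ < 1) : ‖S z‖ ≤ 1 := S_le (cay_re_pos hz)

lemma add_one_ne {u : ℂ} (hu : 0 < u.re) : u + 1 ≠ 0 := by
  intro h
  have := congrArg re h
  simp only [add_re, one_re, zero_re] at this
  linarith

lemma inv_cay_lt {u : ℂ} (hu : 0 < u.re) : ‖(u - 1) / (u + 1)‖ < 1 := by
  rw [norm_div, div_lt_one (norm_pos_iff.2 (add_one_ne hu))]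
  apply lt_of_pow_lt_pow_left₀ 2 (norm_nonneg _)
  simp only [Complex.sq_norm, normSq_apply, sub_re, sub_im, add_re, add_im, one_re, one_im]
  nlinarith

lemma cay_inv {u : ℂ} (hu : 0 < u.re) : cay ((u - 1) / (u + 1)) = u := by
  have h1 := add_one_ne hu
  have h2 := one_sub_ne (inv_cay_lt hu)
  rw [cay, div_eq_iff h2]
  field_simp
  ring

lemma inv_cay {z : ℂ} (hz : ‖z‖ < 1) : (cay z - 1) / (cay z + 1) = z := by
  have h1 := one_sub_ne hz
  rw [div_eq_iff (add_one_ne (cay_re_pos hz)), cay]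
  field_simp
  ring

lemma unique_disc {g : ℂ → ℂ} (hd : DifferentiableOn ℂ g (ball 0 1))
    (hb : ∀ z, ‖z‖ < 1 → ‖g z‖ ≤ 1)
    (hz : ∀ z, ‖z‖ < 1 → S z * (cay z - 2) - 1 = 0 → g z = S z) {z : ℂ} (h : ‖z‖ < 1) :
    g z = S z := by
  have := unique_half (G := fun u => g ((u - 1) / (u + 1)))
    (hd.comp (DifferentiableOn.div (by fun_prop) (by fun_prop) fun _ hu => add_one_ne hu)
      fun _ hu => mem_ball_zero_iff.2 (inv_cay_lt hu))
    (fun u hu => hb _ (inv_cay_lt hu)) (by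
      intro u hu h0
      have := hz _ (inv_cay_lt hu) (by rw [S, cay_inv hu]; exact h0)
      rw [this, S, cay_inv hu]) (cay_re_pos h)
  rwa [inv_cay h] at this

/-- the nodes -/
def nodes : Set ℂ := {z | ‖z‖ < 1 ∧ S z * (cay z - 2) - 1 = 0} ∪
  Set.range fun n : ℕ => ((1 - (1 / 2) ^ n : ℝ) : ℂ)

lemma norm_extra (n : ℕ) : ‖((1 - (1 / 2) ^ n : ℝ) : ℂ)‖ = 1 - (1 / 2) ^ n := by
  rw [norm_real, Real.norm_eq_abs, abs_of_nonneg]
  exact sub_nonneg.2 (pow_le_one₀ (by norm_num) (by norm_num))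

lemma extra_inj : Function.Injective fun n : ℕ => ((1 - (1 / 2) ^ n : ℝ) : ℂ) := by
  intro a b h
  have h1 : (1 - (1 / 2) ^ a : ℝ) = 1 - (1 / 2) ^ b := ofReal_injective h
  exact pow_right_injective₀ (a := (1 / 2 : ℝ)) (by norm_num) (by norm_num) (sub_right_injective h1)

lemma nodes_lt {z : ℂ} (hz : z ∈ nodes) : ‖z‖ < 1 := by
  rcases hz with h | ⟨n, rfl⟩
  · exact h.1
  · rw [norm_extra]
    have : (0 : ℝ) < (1 / 2) ^ n := by positivity
    linarith

lemma summable_nodes : Summable fun z : nodes => 1 - ‖(z : ℂ)‖ := by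
  have h1 : Summable fun z : {z : ℂ | ‖z‖ < 1 ∧ S z * (cay z - 2) - 1 = 0} => 1 - ‖(z : ℂ)‖ := by
    have h2 := summable_zeros (f := fun z => (S z * (cay z - 2) - 1) / (cay z + 2 + S z))
      (((diff_S.mul (diff_cay.sub_const 2)).sub_const 1).div ((diff_cay.add_const 2).add diff_S)
        fun z hz => D_ne (S_le_one (mem_ball_zero_iff.1 hz)) (cay_re_pos (mem_ball_zero_iff.1 hz)))
      (fun z hz => by
        rw [norm_div]
        exact div_le_one_of_le₀ (N_le_D (S_le_one hz) (cay_re_pos hz)) (norm_nonneg _)) (by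
        apply div_ne_zero _ (D_ne (S_le_one (by simp)) (cay_re_pos (by simp)))
        intro h
        have h3 := congrArg re h
        simp only [S, cay, add_zero, sub_zero, div_one, sub_re, mul_re, exp_re, exp_im, neg_re,
          one_re, neg_im, one_im, re_ofNat, neg_zero, Real.cos_zero, Real.sin_zero, sub_im,
          im_ofNat, zero_re] at h3
        nlinarith [Real.exp_pos (-1)])
    refine (Summable.subtype (f := Set.indicator _ fun z : ℂ => 1 - ‖z‖)
      (summable_subtype_iff_indicator.1 h2) _).congr fun z => ?_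
    simp only [Function.comp_apply]
    rw [Set.indicator_of_mem]
    exact ⟨z.2.1, by rw [z.2.2, zero_div]⟩
  have h2 : Summable fun z : Set.range fun n : ℕ => ((1 - (1 / 2) ^ n : ℝ) : ℂ) =>
      1 - ‖(z : ℂ)‖ := by
    rw [← (Equiv.ofInjective _ extra_inj).summable_iff]
    refine summable_geometric_two.congr fun n => ?_
    simp only [Function.comp_apply, Equiv.ofInjective_apply, norm_extra]
    ring
  refine (summable_subtype_iff_indicator (f := fun z : ℂ => 1 - ‖z‖)).2 (Summable.of_nonneg_of_le (fun z => ?_) (fun z => ?_)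
    (((summable_subtype_iff_indicator (f := fun z : ℂ => 1 - ‖z‖)).1 h1).add
      ((summable_subtype_iff_indicator (f := fun z : ℂ => 1 - ‖z‖)).1 h2)))
  · exact Set.indicator_nonneg (fun z hz => sub_nonneg.2 (nodes_lt hz).le) z
  · have a1 := Set.indicator_nonneg (f := fun z : ℂ => 1 - ‖z‖)
      (s := {z : ℂ | ‖z‖ < 1 ∧ S z * (cay z - 2) - 1 = 0})
      (fun z hz => sub_nonneg.2 (nodes_lt (Or.inl hz)).le) z
    have a2 := Set.indicator_nonneg (f := fun z : ℂ => 1 - ‖z‖)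
      (s := Set.range fun n : ℕ => ((1 - (1 / 2) ^ n : ℝ) : ℂ))
      (fun z hz => sub_nonneg.2 (nodes_lt (Or.inr hz)).le) z
    by_cases hz : z ∈ nodes
    · rw [Set.indicator_of_mem hz]
      rcases hz with h | h
      · rw [Set.indicator_of_mem h]; linarith
      · rw [Set.indicator_of_mem h]; linarith
    · rw [Set.indicator_of_notMem hz]; linarith

lemma S_small {z : ℂ} (hz : z ∈ nodes) : ‖S z‖ ^ 2 ≤ 32 * (1 - ‖z‖) := by
  have h1 := nodes_lt hz
  have h2 := cay_re h1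
  have h3 := cay_re_pos h1
  have h4 : 1 / 4 ≤ (cay z).re ∧ ‖S z‖ * ‖cay z + 1‖ ≤ 4 := by
    rcases hz with h | ⟨n, rfl⟩
    · have h5 : ‖S z‖ * ‖cay z - 2‖ = 1 := by
        rw [← norm_mul, sub_eq_zero.1 h.2, norm_one]
      constructor
      · by_contra hc
        rw [not_le] at hc
        have h6 : 1 - (cay z).re ≤ ‖S z‖ := by
          rw [S, norm_exp, neg_re]; linarith [Real.add_one_le_exp (-(cay z).re)]
        have h7 : 2 - (cay z).re ≤ ‖cay z - 2‖ := by
          have := re_le_norm (2 - cay z)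
          rwa [norm_sub_rev, sub_re, re_ofNat] at this
        nlinarith [mul_le_mul h6 h7 (by linarith) (norm_nonneg _)]
      · have h6 : ‖cay z + 1‖ ≤ ‖cay z - 2‖ + 3 := by
          have := norm_add_le (cay z - 2) 3
          rwa [show cay z - 2 + 3 = cay z + 1 by ring, Complex.norm_ofNat] at this
        nlinarith [S_le_one h1, norm_nonneg (S z)]
    · simp only at *
      have h5 : (0 : ℝ) < (1 / 2) ^ n := by positivity
      have h6 : ((1 : ℝ) / 2) ^ n ≤ 1 := pow_le_one₀ (by norm_num) (by norm_num)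
      generalize ((1 : ℝ) / 2) ^ n = t at *
      have h7 : cay ((1 - t : ℝ) : ℂ) = (((2 - t) / t : ℝ) : ℂ) := by
        unfold cay; push_cast; congr 1 <;> ring
      have h8 : 1 ≤ (2 - t) / t := by rw [le_div_iff₀ h5]; linarith
      rw [S, h7]
      generalize (2 - t) / t = x at *
      refine ⟨by rw [ofReal_re]; linarith, ?_⟩
      rw [norm_exp, neg_re, ofReal_re, ← ofReal_one, ← ofReal_add, norm_real, Real.norm_eq_abs,
        abs_of_pos (by linarith), Real.exp_neg, ← div_eq_inv_mul, div_le_iff₀ (Real.exp_pos _)]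
      linarith [Real.add_one_le_exp x]
  have h5 : (‖S z‖ * ‖cay z + 1‖) ^ 2 ≤ 4 ^ 2 := by gcongr; exact h4.2
  have h6 : 1 - ‖z‖ ^ 2 ≤ 2 * (1 - ‖z‖) := by nlinarith [sq_nonneg (1 - ‖z‖)]
  have h7 : 0 ≤ 1 - ‖z‖ ^ 2 := by nlinarith [norm_nonneg z]
  have h8 : ‖S z‖ ^ 2 * 1 ≤ ‖S z‖ ^ 2 * ((1 - ‖z‖ ^ 2) * ‖cay z + 1‖ ^ 2) := by
    gcongr; linarith [h4.1]
  nlinarith

lemma exists_seq : ∃ z : ℕ → ℂ, IsBlaschkeSeq z ∧ Set.range z = nodes ∧
    Tendsto (fun n => S (z n)) atTop (𝓝 0) := by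
  have hc : nodes.Countable := by
    have := summable_nodes.countable_support
    rw [← Set.countable_coe_iff, ← Set.countable_univ_iff]
    refine this.mono fun z _ => ?_
    exact (sub_pos.2 (nodes_lt z.2)).ne'
  have hi : nodes.Infinite :=
    (Set.infinite_range_of_injective extra_inj).mono Set.subset_union_right
  obtain ⟨d⟩ := Set.countable_infinite_iff_nonempty_denumerable.1 ⟨hc, hi⟩
  let e : ℕ ≃ nodes := (Denumerable.eqv nodes).symm
  have hs : Summable fun n => 1 - ‖(e n : ℂ)‖ := e.summable_iff.2 summable_nodes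
  refine ⟨fun n => e n, ⟨Subtype.val_injective.comp e.injective, fun n => nodes_lt (e n).2, hs⟩,
    ?_, ?_⟩
  · ext z
    constructor
    · rintro ⟨n, rfl⟩; exact (e n).2
    · intro hz; exact ⟨e.symm ⟨z, hz⟩, by simp⟩
  · rw [tendsto_zero_iff_norm_tendsto_zero]
    have h1 := (hs.tendsto_atTop_zero.const_mul 32).sqrt
    rw [mul_zero, Real.sqrt_zero] at h1
    exact squeeze_zero (fun _ => norm_nonneg _)
      (fun n => Real.le_sqrt_of_sq_le (S_small (e n).2)) h1

lemma le_supNorm {g : ℂ → ℂ} (hg : IsHinf g) {z : ℂ} (hz : ‖z‖ < 1) : ‖g z‖ ≤ supNorm g := by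
  obtain ⟨M, hM⟩ := hg.2
  exact le_ciSup (f := fun z : ball (0 : ℂ) 1 => ‖g z‖) ⟨M, by rintro _ ⟨w, rfl⟩; exact hM w w.2⟩
    ⟨z, mem_ball_zero_iff.2 hz⟩

lemma supNorm_S : supNorm S ≤ 1 :=
  Real.iSup_le (fun z => S_le_one (mem_ball_zero_iff.1 z.2)) zero_le_one

lemma isHinf_S : IsHinf S := ⟨diff_S, 1, fun _ hz => S_le_one (mem_ball_zero_iff.1 hz)⟩

lemma not_blaschke {g : ℂ → ℂ} (h0 : ∀ z, ‖z‖ < 1 → g z ≠ 0) {a b : ℂ} (ha : ‖a‖ < 1)
    (hb : ‖b‖ < 1) (hab : g a ≠ g b) : ¬ IsBlaschkeMultiple g := by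
  rintro ⟨c, θ, k, J, w, hw, -, hg⟩
  have hk : k = 0 := by
    by_contra hk
    apply h0 0 (by simp)
    rw [hg 0 (by simp), zero_pow hk]; simp
  have hJ : J = ∅ := by
    by_contra hJ
    obtain ⟨j, hj⟩ := Set.nonempty_iff_ne_empty.2 hJ
    apply h0 (w j) (hw j hj).2
    rw [hg _ (mem_ball_zero_iff.2 (hw j hj).2), tprod_of_exists_eq_zero ⟨⟨j, hj⟩, by simp⟩]
    simp
  subst hk hJ
  apply hab
  rw [hg a (mem_ball_zero_iff.2 ha), hg b (mem_ball_zero_iff.2 hb)]
  simp

lemma not_blaschke_S : ¬ IsBlaschkeMultiple S := by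
  apply not_blaschke (fun z _ => exp_ne_zero _) (a := 0) (b := 1 / 2) (by simp) (by norm_num)
  intro h
  have h1 := congrArg norm h
  simp only [S, norm_exp, Real.exp_eq_exp, cay] at h1
  norm_num at h1

end Pool.Agent.H88.Interp
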