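import Pool.Agent.H88.ItLagDefs

set_option autoImplicit false

namespace Pool.Agent.H88.ItLag

open Polynomial

theorem itd (p : ℝ[X]) (k : ℕ) :
    iteratedDeriv k (fun x => p.eval x) = fun x => (derivative^[k] p).eval x := by
  induction k with
  | zero => simp
  | succ k ih =>
    rw [iteratedDeriv_succ, ih, Function.iterate_succ_apply']
    funext x
    exact Polynomial.deriv _

theorem itd0 (p : ℝ[X]) (k : ℕ) :
    iteratedDeriv k (fun x => p.eval x) 0 = k.factorial * p.coeff k := by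
  rw [itd]
  simp only
  rw [← coeff_zero_eq_eval_zero, coeff_iterate_derivative, zero_add, Nat.descFactorial_self]
  simp

noncomputable def P : ℝ[X] := (X + C 1) ^ 2 * (X + C 251) ^ 33

theorem P_coeff (k : ℕ) : P.coeff (k + 2) =
    251 ^ (33 - k) * (Nat.choose 33 k : ℝ) + 2 * (251 ^ (33 - (k + 1)) * (Nat.choose 33 (k + 1) : ℝ))
      + 251 ^ (33 - (k + 2)) * (Nat.choose 33 (k + 2) : ℝ) := by
  have : P = X * (X * (X + C 251) ^ 33) + C 2 * (X * (X + C 251) ^ 33) + (X + C 251) ^ 33 := by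
    rw [P, C_1, show (C 2 : ℝ[X]) = 2 from rfl]; ring
  rw [this, coeff_add, coeff_add, coeff_X_mul, coeff_X_mul, coeff_C_mul, coeff_X_mul,
    coeff_X_add_C_pow, coeff_X_add_C_pow, coeff_X_add_C_pow]

theorem P_coeff0 : P.coeff 0 = 251 ^ 33 := by
  simp [P, coeff_zero_eq_eval_zero]

theorem P_coeff1 : P.coeff 1 = 2 * 251 ^ 33 + 251 ^ 32 * 33 := by
  have : P = X * (X * (X + C 251) ^ 33) + C 2 * (X * (X + C 251) ^ 33) + (X + C 251) ^ 33 := by
    rw [P, C_1, show (C 2 : ℝ[X]) = 2 from rfl]; ring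
  rw [this, coeff_add, coeff_add, coeff_X_mul, coeff_C_mul, coeff_X_mul,
    coeff_X_add_C_pow, coeff_X_add_C_pow]
  simp

theorem neg : T (fun x => P.eval x) 4 5 0 < 0 := by
  have h2 := P_coeff 0
  have h3 := P_coeff 1
  have h4 := P_coeff 2
  have h5 := P_coeff 3
  have h6 := P_coeff 4
  have h7 := P_coeff 5
  have h8 := P_coeff 6
  have h9 := P_coeff 7
  have h10 := P_coeff 8
  norm_num [Nat.choose] at h2 h3 h4 h5 h6 h7 h8 h9 h10
  simp only [T, itd0, Nat.reduceAdd, Nat.reduceSub, P_coeff0, P_coeff1, h2, h3, h4, h5, h6, h7,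
    h8, h9, h10]
  norm_num [Nat.factorial]

theorem P_monic : P.Monic := ((monic_X_add_C _).pow _).mul ((monic_X_add_C _).pow _)

theorem P_roots (z : ℂ) (hz : aeval z P = 0) : z.im = 0 ∧ z.re < 0 := by
  simp only [P, map_mul, map_pow, map_add, aeval_X, aeval_C] at hz
  rcases mul_eq_zero.1 hz with h | h
  · have := eq_neg_of_add_eq_zero_left (pow_eq_zero_iff'.1 h).1
    rw [this]; simp
  · have := eq_neg_of_add_eq_zero_left (pow_eq_zero_iff'.1 h).1
    rw [this]; simp

end Pool.Agent.H88.ItLag
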