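import Mathlib

set_option autoImplicit false

namespace Pool.Agent.H88.ItLag

/-- The iterated Laguerre expressions `T_k^{(n)}(φ(x))`. -/
noncomputable def T (φ : ℝ → ℝ) : ℕ → ℕ → ℝ → ℝ
  | 0, k, x => iteratedDeriv k φ x ^ 2 - iteratedDeriv (k - 1) φ x * iteratedDeriv (k + 1) φ x
  | n + 1, k, x => T φ n k x ^ 2 - T φ n (k - 1) x * T φ n (k + 1) x

end Pool.Agent.H88.ItLag
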