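import Mathlib

set_option autoImplicit false
open Filter Topology

namespace Pool.Agent.H88.L1Solve

theorem l1_hasSum {I : Type*} (f : lp (fun _ : I => ℂ) 1) : HasSum (fun i => ‖f i‖) ‖f‖ := by
  have := lp.hasSum_norm (p := 1) (by simp) f
  simpa using this

theorem mem_l1 {I : Type*} {f : I → ℂ} (hf : Summable fun i => ‖f i‖) :
    Memℓp (E := fun _ : I => ℂ) f 1 := by
  refine memℓp_gen ?_
  simpa using hf

theorem solve {I : Type*} (V : I → ℝ) (hV : ∀ t, 0 < V t) (e : I → I → ℂ) (θ : ℝ) (hθ0 : 0 ≤ θ)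
    (hθ : θ < 1) (he : ∀ t, Summable fun s => ‖e t s‖ * V s)
    (he' : ∀ t, ∑' s, ‖e t s‖ * V s ≤ θ * V t) (a : I → ℂ)
    (ha : Summable fun t => ‖a t‖ * V t) :
    ∃ g : I → ℂ, (Summable fun t => ‖g t‖ * V t) ∧
      ∀ s, HasSum (fun t => g t * e t s) (a s - g s) := by
  have hVc : ∀ t, (V t : ℂ) ≠ 0 := fun t => by exact_mod_cast (hV t).ne'
  have hn : ∀ (z : ℂ) t, ‖z * V t‖ = ‖z‖ * V t := fun z t => by
    rw [norm_mul, Complex.norm_real, Real.norm_of_nonneg (hV t).le]
  let col : I → lp (fun _ : I => ℂ) 1 := fun t =>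
    ⟨fun s => e t s * V s / V t, mem_l1 (by
      refine ((he t).div_const (V t)).congr fun s => ?_
      rw [norm_div, hn, Complex.norm_real, Real.norm_of_nonneg (hV t).le])⟩
  have hcol : ∀ t s, col t s = e t s * V s / V t := fun _ _ => rfl
  have hcoln : ∀ t, ‖col t‖ ≤ θ := by
    intro t
    rw [← (l1_hasSum (col t)).tsum_eq]
    have : ∀ s, ‖col t s‖ = ‖e t s‖ * V s / V t := fun s => by
      rw [hcol, norm_div, hn, Complex.norm_real, Real.norm_of_nonneg (hV t).le]
    simp_rw [this]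
    rw [tsum_div_const, div_le_iff₀ (hV t)]
    exact he' t
  have hbd : ∀ (f : lp (fun _ : I => ℂ) 1) t, ‖f t • col t‖ ≤ ‖f t‖ * θ := fun f t => by
    rw [norm_smul]
    exact mul_le_mul_of_nonneg_left (hcoln t) (norm_nonneg _)
  have hsum : ∀ f : lp (fun _ : I => ℂ) 1, Summable fun t => f t • col t := fun f =>
    Summable.of_norm_bounded ((l1_hasSum f).summable.mul_right θ) (hbd f)
  let A : lp (fun _ : I => ℂ) 1 := ⟨fun s => a s * V s, mem_l1 (by simpa only [hn] using ha)⟩
  let F : lp (fun _ : I => ℂ) 1 → lp (fun _ : I => ℂ) 1 := fun f => A - ∑' t, f t • col t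
  have hF : ContractingWith ⟨θ, hθ0⟩ F := by
    refine ⟨by exact_mod_cast hθ, LipschitzWith.of_dist_le_mul fun f f' => ?_⟩
    rw [dist_eq_norm, dist_eq_norm]
    have h1 : F f - F f' = ∑' t, (f' - f) t • col t := by
      have : ∀ t, (f' - f) t • col t = f' t • col t - f t • col t := fun t => by
        rw [lp.coeFn_sub, Pi.sub_apply, sub_smul]
      simp_rw [this]
      rw [(hsum f').tsum_sub (hsum f)]
      simp only [F]
      abel
    rw [h1]
    have h2 := tsum_of_norm_bounded ((l1_hasSum (f' - f)).mul_right θ) (hbd (f' - f))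
    rw [norm_sub_rev f' f, mul_comm] at h2
    exact h2
  obtain ⟨f, hf⟩ : ∃ f, F f = f := ⟨_, hF.fixedPoint_isFixedPt⟩
  refine ⟨fun t => f t / V t, ?_, fun s => ?_⟩
  · refine (l1_hasSum f).summable.congr fun t => ?_
    rw [← hn, div_mul_cancel₀ _ (hVc t)]
  · have h1 := (lp.evalCLM ℂ (fun _ : I => ℂ) 1 s).hasSum (hsum f).hasSum
    have h2 : ∑' t, f t • col t = A - f := by
      have h3 : A - ∑' t, f t • col t = f := hf
      exact (sub_sub_cancel A _).symm.trans (congrArg (fun y => A - y) h3)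
    rw [h2] at h1
    have h4 : (lp.evalCLM ℂ (fun _ : I => ℂ) 1 s) (A - f) = a s * V s - f s := rfl
    have h5 : ∀ t, (lp.evalCLM ℂ (fun _ : I => ℂ) 1 s) (f t • col t)
        = f t * (e t s * V s / V t) := fun _ => rfl
    simp_rw [h4, h5] at h1
    have h6 := h1.div_const (V s : ℂ)
    have e1 : (fun t => f t / V t * e t s) = fun t => f t * (e t s * V s / V t) / V s := by
      funext t
      have := hVc s
      have := hVc t
      field_simp
    have e2 : a s - f s / V s = (a s * V s - f s) / V s := by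
      have := hVc s
      field_simp
    rw [e1, e2]
    exact h6

end Pool.Agent.H88.L1Solve
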