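import Pool.Agent.H88.LcapDefs

open MeasureTheory Finset

namespace Pool.Agent.H88.Lcap

def Bd {Ω : Type} [MeasurableSpace Ω] (f : Ω → ℝ) : Prop := Measurable f ∧ ∃ C, ∀ ω, |f ω| ≤ C

section
variable {Ω Ω' : Type} [MeasurableSpace Ω] [MeasurableSpace Ω'] {f g : Ω → ℝ}

lemma Bd.const (c : ℝ) : Bd (fun _ : Ω => c) := ⟨measurable_const, |c|, fun _ => le_rfl⟩

lemma Bd.mul (hf : Bd f) (hg : Bd g) : Bd (fun ω => f ω * g ω) := by
  obtain ⟨m1, C, h1⟩ := hf
  obtain ⟨m2, D, h2⟩ := hg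
  refine ⟨m1.mul m2, C * D, fun ω => ?_⟩
  rw [abs_mul]
  exact mul_le_mul (h1 ω) (h2 ω) (abs_nonneg _) ((abs_nonneg _).trans (h1 ω))

lemma Bd.add (hf : Bd f) (hg : Bd g) : Bd (fun ω => f ω + g ω) := by
  obtain ⟨m1, C, h1⟩ := hf
  obtain ⟨m2, D, h2⟩ := hg
  exact ⟨m1.add m2, C + D, fun ω => (abs_add_le _ _).trans (add_le_add (h1 ω) (h2 ω))⟩

lemma Bd.pow (hf : Bd f) (n : ℕ) : Bd (fun ω => f ω ^ n) := by
  induction n with
  | zero => simpa using Bd.const 1
  | succ n ih => simpa [pow_succ] using ih.mul hf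

lemma Bd.sum {ι : Type} (s : Finset ι) {F : ι → Ω → ℝ} (h : ∀ i, Bd (F i)) :
    Bd (fun ω => ∑ i ∈ s, F i ω) := by
  classical
  induction s using Finset.induction_on with
  | empty => simpa using Bd.const 0
  | insert a s ha ih => simpa [sum_insert ha] using (h a).add ih

lemma Bd.comp (hf : Bd f) {u : Ω' → Ω} (hu : Measurable u) : Bd (fun ω => f (u ω)) := by
  obtain ⟨m1, C, h1⟩ := hf
  exact ⟨m1.comp hu, C, fun ω => h1 _⟩

lemma Bd.int (hf : Bd f) (P : Measure Ω) [IsFiniteMeasure P] : Integrable f P := by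
  obtain ⟨m1, C, h1⟩ := hf
  exact Integrable.of_bound m1.aestronglyMeasurable C (ae_of_all _ h1)

end

noncomputable def ee (n : ℕ) : ℕ → ℝ
  | 0 => 1
  | k + 1 => ee n k * (4 * k + 2 * n) / (k + 1)

lemma ee_nonneg (n k : ℕ) : 0 ≤ ee n k := by
  induction k with
  | zero => simp [ee]
  | succ k ih => rw [ee]; positivity

lemma ee_succ (n k : ℕ) : ((k : ℝ) + 1) * ee n (k + 1) = (4 * k + 2 * n) * ee n k := by
  rw [ee]; field_simp

lemma ee_one (k : ℕ) : ee 1 k = (Nat.centralBinom k : ℝ) := by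
  induction k with
  | zero => simp [ee]
  | succ k ih =>
    have h := congrArg (Nat.cast : ℕ → ℝ) (Nat.succ_mul_centralBinom_succ k)
    push_cast at h
    have h2 := ee_succ 1 k
    rw [ih] at h2
    have : ((k : ℝ) + 1) ≠ 0 := by positivity
    apply mul_left_cancel₀ this
    rw [h2, h]
    push_cast
    ring

lemma ee_conv (n k : ℕ) : ∑ p ∈ antidiagonal k, ee 1 p.1 * ee n p.2 = ee (n + 1) k := by
  induction k with
  | zero => simp [ee]
  | succ k ih =>
    have : ((k : ℝ) + 1) ≠ 0 := by positivity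
    apply mul_left_cancel₀ this
    rw [ee_succ, ← ih, mul_sum, mul_sum]
    have e : ∀ p ∈ antidiagonal (k + 1), ((k : ℝ) + 1) * (ee 1 p.1 * ee n p.2) =
        (p.1 * ee 1 p.1) * ee n p.2 + ee 1 p.1 * (p.2 * ee n p.2) := fun p hp => by
      have := congrArg (Nat.cast : ℕ → ℝ) (mem_antidiagonal.1 hp)
      push_cast at this
      rw [← this]
      ring
    rw [sum_congr rfl e, sum_add_distrib, Finset.Nat.sum_antidiagonal_succ,
      Finset.Nat.sum_antidiagonal_succ']
    simp only [Nat.cast_zero, zero_mul, mul_zero, zero_add, ← sum_add_distrib]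
    refine sum_congr rfl fun p hp => ?_
    have := congrArg (Nat.cast : ℕ → ℝ) (mem_antidiagonal.1 hp)
    push_cast at this ⊢
    rw [ee_succ, ee_succ, ← this]
    push_cast
    ring

lemma ee_one_pos (k : ℕ) : 0 < ee 1 k := by
  rw [ee_one]
  exact_mod_cast Nat.centralBinom_pos k

lemma choose_id (i j : ℕ) : (((i + j).choose i : ℕ) : ℝ) ^ 2 * ee 1 (i + j) =
    ((2 * (i + j)).choose (2 * i) : ℕ) * ee 1 i * ee 1 j := by
  simp only [ee_one, Nat.centralBinom_eq_two_mul_choose]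
  rw [Nat.cast_choose ℝ (by omega), Nat.cast_choose ℝ (by omega), Nat.cast_choose ℝ (by omega),
    Nat.cast_choose ℝ (by omega), Nat.cast_choose ℝ (by omega)]
  rw [show i + j - i = j by omega, show 2 * (i + j) - (i + j) = i + j by omega,
    show 2 * (i + j) - 2 * i = 2 * j by omega, show 2 * i - i = i by omega,
    show 2 * j - j = j by omega]
  field_simp

section
variable {Ω : Type} [MeasurableSpace Ω] (P : Measure Ω) [IsFiniteMeasure P]

noncomputable def BB {n : ℕ} (X : Fin n → Ω → ℝ) (f : Ω → ℝ) (m : ℕ) : ℝ :=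
  ∫ p : Ω × Ω, f p.1 * f p.2 * (∑ l, X l p.1 * X l p.2) ^ m ∂(P.prod P)

noncomputable def AA {n : ℕ} (X : Fin n → Ω → ℝ) (f : Ω → ℝ) (k : ℕ) : ℝ :=
  ∫ ω, f ω * (∑ l, X l ω ^ 2) ^ k ∂P

lemma BB_succ {n : ℕ} (X : Fin (n + 1) → Ω → ℝ) (hX : ∀ l, Bd (X l)) {f : Ω → ℝ} (hf : Bd f)
    (m : ℕ) : BB P X f m = ∑ p ∈ antidiagonal m,
      (m.choose p.1 : ℝ) * BB P (fun l => X l.succ) (fun ω => f ω * X 0 ω ^ p.1) p.2 := by
  simp only [BB, ← integral_const_mul]
  rw [← integral_finsetSum]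
  · congr 1
    funext p
    rw [Fin.sum_univ_succ, (Commute.all _ _).add_pow', mul_sum]
    refine sum_congr rfl fun q _ => ?_
    simp only [nsmul_eq_mul, mul_pow]
    ring
  · intro q _
    exact ((Bd.const _).mul ((((hf.mul ((hX 0).pow _)).comp measurable_fst).mul
      ((hf.mul ((hX 0).pow _)).comp measurable_snd)).mul ((Bd.sum _ fun l =>
        ((hX _).comp measurable_fst).mul ((hX _).comp measurable_snd)).pow _))).int _

lemma AA_succ {n : ℕ} (X : Fin (n + 1) → Ω → ℝ) (hX : ∀ l, Bd (X l)) {f : Ω → ℝ} (hf : Bd f)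
    (k : ℕ) : AA P X f k = ∑ p ∈ antidiagonal k,
      (k.choose p.1 : ℝ) * AA P (fun l => X l.succ) (fun ω => f ω * X 0 ω ^ (2 * p.1)) p.2 := by
  simp only [AA, ← integral_const_mul]
  rw [← integral_finsetSum]
  · congr 1
    funext p
    rw [Fin.sum_univ_succ, (Commute.all _ _).add_pow', mul_sum]
    refine sum_congr rfl fun q _ => ?_
    simp only [nsmul_eq_mul, pow_mul]
    ring
  · intro q _
    exact ((Bd.const _).mul ((hf.mul ((hX 0).pow _)).mul ((Bd.sum _ fun l =>
        (hX _).pow _).pow _))).int _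

lemma BB_nonneg (n : ℕ) : ∀ (X : Fin n → Ω → ℝ), (∀ l, Bd (X l)) → ∀ f : Ω → ℝ, Bd f →
    ∀ m, 0 ≤ BB P X f m := by
  induction n with
  | zero =>
    intro X _ f _ m
    simp only [BB, univ_eq_empty, sum_empty, integral_mul_const]
    rw [integral_prod_mul (f := f) (g := f)]
    exact mul_nonneg (mul_self_nonneg _) (by positivity)
  | succ n ih =>
    intro X hX f hf m
    rw [BB_succ P X hX hf]
    exact sum_nonneg fun p _ => mul_nonneg (Nat.cast_nonneg _)
      (ih _ (fun l => hX _) _ (hf.mul ((hX 0).pow _)) _)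

lemma sid (n : ℕ) : ∀ (X : Fin n → Ω → ℝ), (∀ l, Bd (X l)) → ∀ f : Ω → ℝ, Bd f →
    ∀ k, ee 1 k * AA P X f k ^ 2 ≤ ee n k * BB P X f (2 * k) := by
  induction n with
  | zero =>
    intro X _ f _ k
    simp only [AA, BB, univ_eq_empty, sum_empty, integral_mul_const]
    rw [integral_prod_mul (f := f) (g := f)]
    rcases k with _ | k
    · simp [ee, sq]
    · simp
  | succ n ih =>
    intro X hX f hf k
    have hb : ∀ i, Bd (fun ω => f ω * X 0 ω ^ i) := fun i => hf.mul ((hX 0).pow _)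
    have hv : ∀ i m, 0 ≤ BB P (fun l => X l.succ) (fun ω => f ω * X 0 ω ^ i) m :=
      fun i m => BB_nonneg P n _ (fun l => hX _) _ (hb i) m
    have h1 : ∑ p ∈ antidiagonal k, ((2 * k).choose (2 * p.1) : ℝ) *
        BB P (fun l => X l.succ) (fun ω => f ω * X 0 ω ^ (2 * p.1)) (2 * p.2) ≤
        BB P X f (2 * k) := by
      rw [BB_succ P X hX hf]
      have inj : Set.InjOn (fun p : ℕ × ℕ => (2 * p.1, 2 * p.2)) (antidiagonal k) :=
        fun a _ b _ h => by
          simp only [Prod.mk.injEq] at h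
          ext <;> omega
      refine le_trans (le_of_eq ?_) (sum_le_sum_of_subset_of_nonneg
        (s := (antidiagonal k).image fun p : ℕ × ℕ => (2 * p.1, 2 * p.2)) ?_ ?_)
      · rw [sum_image inj]
      · intro q hq
        obtain ⟨p, hp, rfl⟩ := mem_image.1 hq
        rw [HasAntidiagonal.mem_antidiagonal] at hp ⊢
        simp only
        omega
      · exact fun q _ _ => mul_nonneg (Nat.cast_nonneg _) (hv _ _)
    have pk := ee_one_pos k
    have h2 := sum_sq_le_sum_mul_sum_of_sq_le_mul (antidiagonal k)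
      (r := fun p => (k.choose p.1 : ℝ) *
        AA P (fun l => X l.succ) (fun ω => f ω * X 0 ω ^ (2 * p.1)) p.2)
      (f := fun p => ee 1 p.1 * ee n p.2 / ee 1 k)
      (g := fun p => ((2 * k).choose (2 * p.1) : ℝ) *
        BB P (fun l => X l.succ) (fun ω => f ω * X 0 ω ^ (2 * p.1)) (2 * p.2))
      (fun p _ => div_nonneg (mul_nonneg (ee_nonneg _ _) (ee_nonneg _ _)) pk.le)
      (fun p _ => mul_nonneg (Nat.cast_nonneg _) (hv _ _)) (fun p hp => by
        have hk := mem_antidiagonal.1 hp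
        have i1 := ih (fun l => X l.succ) (fun l => hX _) _ (hb (2 * p.1)) p.2
        have i2 := choose_id p.1 p.2
        rw [hk] at i2
        have pj := ee_one_pos p.2
        have pi := ee_one_pos p.1
        rw [div_mul_eq_mul_div, le_div_iff₀ pk, mul_pow]
        have i3 := mul_le_mul_of_nonneg_left i1
          (mul_nonneg (Nat.cast_nonneg (α := ℝ) ((2 * k).choose (2 * p.1))) pi.le)
        calc _ = ((k.choose p.1 : ℝ) ^ 2 * ee 1 k) *
            AA P (fun l => X l.succ) (fun ω => f ω * X 0 ω ^ (2 * p.1)) p.2 ^ 2 := by ring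
          _ ≤ _ := by rw [i2]; linarith)
    rw [← AA_succ P X hX hf, ← sum_div, ee_conv, div_mul_eq_mul_div, le_div_iff₀ pk] at h2
    have := mul_le_mul_of_nonneg_left h1 (ee_nonneg (n + 1) k)
    linarith

end

end Pool.Agent.H88.Lcap
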