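import Pool.Agent.H88.Lcap1

open MeasureTheory Finset Real Complex ComplexConjugate

namespace Pool.Agent.H88.Lcap

noncomputable def U : Measure ℝ :=
  (ENNReal.ofReal (2 * π))⁻¹ • volume.restrict (Set.Ioc 0 (2 * π))

instance : IsProbabilityMeasure U := ⟨by
  have : 0 < 2 * π := by positivity
  simp only [U, Measure.smul_apply, Measure.restrict_apply_univ, Real.volume_Ioc, sub_zero,
    smul_eq_mul]
  exact ENNReal.inv_mul_cancel (by simpa using Real.pi_pos) ENNReal.ofReal_ne_top⟩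

lemma U_null {s : Set ℝ} (hs : s.Countable) : U s = 0 := by
  simp only [U, Measure.smul_apply, smul_eq_mul]
  rw [hs.measure_zero, mul_zero]

lemma CA {R : ℝ} (hR : 0 < R) {a : ℂ} (ha : ‖a‖ ≤ R) :
    Integrable (fun θ => Real.log ‖circleMap 0 R θ - a‖) U ∧
      ∫ θ, Real.log ‖circleMap 0 R θ - a‖ ∂U = Real.log R := by
  have h2 : 0 ≤ 2 * π := by positivity
  constructor
  · have := circleIntegrable_log_norm_sub_const (a := a) (c := 0) R
    exact ((intervalIntegrable_iff_integrableOn_Ioc_of_le h2).1 this).smul_measure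
      (ENNReal.inv_ne_top.2 (by simpa using Real.pi_pos))
  · have := circleAverage_log_norm_sub_const_of_mem_closedBall (a := a) (c := 0) (R := R)
      (by simpa [abs_of_pos hR] using ha)
    rw [← this, circleAverage_def, U, integral_smul_measure, intervalIntegral.integral_of_le h2,
      ENNReal.toReal_inv, ENNReal.toReal_ofReal h2]

lemma CA3 {A β : ℝ} {c : ℂ} (hβ : 0 < β) (h : β ^ 2 - A * β + ‖c‖ ^ 2 ≤ 0) :
    Integrable (fun θ => Real.log (A + 2 * (c * circleMap 0 1 θ).re)) U ∧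
      Real.log β ≤ ∫ θ, Real.log (A + 2 * (c * circleMap 0 1 θ).re) ∂U := by
  have hA : 0 < A := by nlinarith [sq_nonneg ‖c‖]
  have hd : 0 ≤ A ^ 2 - 4 * ‖c‖ ^ 2 := by nlinarith [sq_nonneg (A - 2 * β)]
  obtain ⟨s, hs0, hs⟩ : ∃ s : ℝ, 0 ≤ s ∧ s ^ 2 = A ^ 2 - 4 * ‖c‖ ^ 2 :=
    ⟨√_, sqrt_nonneg _, sq_sqrt hd⟩
  obtain ⟨R, hR0, hR⟩ : ∃ R : ℝ, 0 < R ∧ R ^ 2 = (A + s) / 2 :=
    ⟨√_, sqrt_pos.2 (by positivity), sq_sqrt (by positivity)⟩
  have hβR : β ≤ R ^ 2 := by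
    rw [hR]
    have : 2 * β - A ≤ s := abs_le_of_sq_le_sq' (by nlinarith) hs0 |>.2
    linarith
  have hc : ‖c‖ ≤ R ^ 2 := by
    rw [hR]
    have : 2 * ‖c‖ ≤ A := abs_le_of_sq_le_sq' (by nlinarith) hA.le |>.2
    linarith
  have ha : ‖-conj c / R‖ ≤ R := by
    rw [norm_div, norm_neg, RCLike.norm_conj, Complex.norm_real, Real.norm_of_nonneg hR0.le,
      div_le_iff₀ hR0]
    linarith
  have e : ∀ θ, Real.log (A + 2 * (c * circleMap 0 1 θ).re) =
      2 * Real.log ‖circleMap 0 R θ - -conj c / R‖ := fun θ => by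
    have : ‖circleMap 0 R θ - -conj c / R‖ ^ 2 = A + 2 * (c * circleMap 0 1 θ).re := by
      have q : R ^ 4 - A * R ^ 2 + ‖c‖ ^ 2 = 0 := by
        rw [show R ^ 4 = (R ^ 2) ^ 2 by ring, hR]
        nlinarith
      rw [Complex.sq_norm, Complex.normSq_apply] at q ⊢
      simp only [circleMap, zero_add, sub_re, mul_re, ofReal_re, exp_ofReal_mul_I_re, ofReal_im,
        exp_ofReal_mul_I_im, zero_mul, sub_zero, div_ofReal_re, neg_re, conj_re, sub_im, mul_im,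
        add_zero, div_ofReal_im, neg_im, conj_im, neg_neg, ofReal_one, one_mul]
      have := Real.sin_sq_add_cos_sq θ
      field_simp
      linear_combination q + R ^ 4 * this
    rw [← this, Real.log_pow]
    norm_num
  obtain ⟨i1, i2⟩ := CA hR0 ha
  simp only [e]
  refine ⟨i1.const_mul 2, ?_⟩
  rw [integral_const_mul, i2]
  have := Real.log_le_log hβ hβR
  rw [Real.log_pow] at this
  exact_mod_cast this

noncomputable def mob (R : ℝ) (z : ℂ) (θ : ℝ) : ℂ :=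
  R * (R * circleMap 0 1 θ + z) / (R + conj z * circleMap 0 1 θ)

lemma den_norm (R : ℝ) (z : ℂ) (θ : ℝ) :
    ‖R + conj z * circleMap 0 1 θ‖ = ‖circleMap 0 R θ - -z‖ := by
  rw [← sq_eq_sq₀ (norm_nonneg _) (norm_nonneg _), Complex.sq_norm, Complex.sq_norm,
    Complex.normSq_apply, Complex.normSq_apply]
  simp only [circleMap, zero_add, sub_re, mul_re, ofReal_re, exp_ofReal_mul_I_re, ofReal_im,
    exp_ofReal_mul_I_im, zero_mul, sub_zero, neg_re, conj_re, sub_im, mul_im, add_re, add_im,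
    add_zero, neg_im, conj_im, ofReal_one, one_mul]
  have := Real.sin_sq_add_cos_sq θ
  linear_combination (z.re ^ 2 + z.im ^ 2 - R ^ 2) * this

lemma den_pos {R : ℝ} {z : ℂ} (hz : ‖z‖ < R) (θ : ℝ) : 0 < ‖R + conj z * circleMap 0 1 θ‖ := by
  rw [den_norm, norm_pos_iff, sub_ne_zero]
  intro h
  have := congrArg norm h
  rw [norm_circleMap_zero, norm_neg, abs_of_pos ((norm_nonneg _).trans_lt hz)] at this
  linarith

lemma mob_norm {R : ℝ} {z : ℂ} (hz : ‖z‖ < R) (θ : ℝ) : ‖mob R z θ‖ = R := by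
  have hR := (norm_nonneg _).trans_lt hz
  have := den_pos hz θ
  rw [mob, norm_div, norm_mul, div_eq_iff this.ne', den_norm, Complex.norm_real,
    Real.norm_of_nonneg hR.le]
  congr 2
  simp [circleMap]

lemma submean {R H : ℝ} {z p : ℂ} (hz : ‖z‖ < R) (hH : 0 < H) :
    Real.log (‖z - p‖ ^ 2 + H) ≤ ∫ θ, Real.log (‖mob R z θ - p‖ ^ 2 + H) ∂U := by
  have hR := (norm_nonneg _).trans_lt hz
  obtain ⟨h, h0, rfl⟩ : ∃ h : ℝ, 0 < h ∧ H = h ^ 2 := ⟨√H, sqrt_pos.2 hH, (sq_sqrt hH.le).symm⟩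
  obtain ⟨a1, ha1⟩ : ∃ a1 : ℂ, a1 = R * R - p * conj z := ⟨_, rfl⟩
  obtain ⟨b1, hb1⟩ : ∃ b1 : ℂ, b1 = R * (z - p) := ⟨_, rfl⟩
  obtain ⟨a2, ha2⟩ : ∃ a2 : ℂ, a2 = h * conj z := ⟨_, rfl⟩
  obtain ⟨b2, hb2⟩ : ∃ b2 : ℂ, b2 = h * R := ⟨_, rfl⟩
  have hβ : ‖b1‖ ^ 2 + ‖b2‖ ^ 2 = R ^ 2 * (‖z - p‖ ^ 2 + h ^ 2) := by
    rw [hb1, hb2, norm_mul, norm_mul, Complex.norm_real, Complex.norm_real,
      Real.norm_of_nonneg hR.le, Real.norm_of_nonneg h0.le]
    ring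
  obtain ⟨i1, i2⟩ := CA3 (A := ‖a1‖ ^ 2 + ‖a2‖ ^ 2 + (‖b1‖ ^ 2 + ‖b2‖ ^ 2))
    (β := ‖b1‖ ^ 2 + ‖b2‖ ^ 2) (c := a1 * conj b1 + a2 * conj b2) (by rw [hβ]; positivity) (by
      have t := norm_add_le (a1 * conj b1) (a2 * conj b2)
      rw [norm_mul, norm_mul, RCLike.norm_conj, RCLike.norm_conj] at t
      have := pow_le_pow_left₀ (norm_nonneg _) t 2
      nlinarith [sq_nonneg (‖a1‖ * ‖b2‖ - ‖a2‖ * ‖b1‖)])
  obtain ⟨j1, j2⟩ := CA hR (a := -z) (by rw [norm_neg]; exact hz.le)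
  have e : ∀ θ, Real.log (‖mob R z θ - p‖ ^ 2 + h ^ 2) =
      Real.log (‖a1‖ ^ 2 + ‖a2‖ ^ 2 + (‖b1‖ ^ 2 + ‖b2‖ ^ 2) +
        2 * ((a1 * conj b1 + a2 * conj b2) * circleMap 0 1 θ).re) -
        2 * Real.log ‖circleMap 0 R θ - -z‖ := fun θ => by
    have d := den_pos hz θ
    have d' := norm_pos_iff.1 d
    have e1 : mob R z θ - p = (a1 * circleMap 0 1 θ + b1) / (R + conj z * circleMap 0 1 θ) := by
      rw [mob, ha1, hb1, eq_div_iff d', sub_mul, div_mul_cancel₀ _ d']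
      ring
    have e2 : ‖a2 * circleMap 0 1 θ + b2‖ = h * ‖R + conj z * circleMap 0 1 θ‖ := by
      rw [ha2, hb2, show h * conj z * circleMap 0 1 θ + h * R =
        h * (R + conj z * circleMap 0 1 θ) by ring, norm_mul, Complex.norm_real,
        Real.norm_of_nonneg h0.le]
    have e3 : ‖a1‖ ^ 2 + ‖a2‖ ^ 2 + (‖b1‖ ^ 2 + ‖b2‖ ^ 2) +
        2 * ((a1 * conj b1 + a2 * conj b2) * circleMap 0 1 θ).re =
        ‖a1 * circleMap 0 1 θ + b1‖ ^ 2 + ‖a2 * circleMap 0 1 θ + b2‖ ^ 2 := by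
      simp only [Complex.sq_norm, Complex.normSq_apply, circleMap, zero_add, mul_re,
        exp_ofReal_mul_I_re, exp_ofReal_mul_I_im, conj_re, mul_im, add_re, add_im,
        conj_im, ofReal_one, one_mul]
      have := Real.sin_sq_add_cos_sq θ
      linear_combination (-(a1.re ^ 2 + a1.im ^ 2 + a2.re ^ 2 + a2.im ^ 2)) * this
    have e4 : ‖a1 * circleMap 0 1 θ + b1‖ ^ 2 + ‖a2 * circleMap 0 1 θ + b2‖ ^ 2 =
        (‖mob R z θ - p‖ ^ 2 + h ^ 2) * ‖R + conj z * circleMap 0 1 θ‖ ^ 2 := by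
      rw [e1, e2, norm_div, div_pow, add_mul, div_mul_cancel₀ _ (pow_pos d 2).ne', mul_pow]
    rw [e3, e4, ← den_norm, Real.log_mul (by positivity) (by positivity), Real.log_pow]
    push_cast
    ring
  simp only [e]
  rw [integral_sub i1 (j1.const_mul 2), integral_const_mul, j2]
  have : Real.log (‖b1‖ ^ 2 + ‖b2‖ ^ 2) = 2 * Real.log R + Real.log (‖z - p‖ ^ 2 + h ^ 2) := by
    rw [hβ, Real.log_mul (by positivity) (by positivity), Real.log_pow]
    norm_num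
  linarith

end Pool.Agent.H88.Lcap
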