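import Pool.Agent.H88.Lcap2

open MeasureTheory Finset Real Complex ComplexConjugate

namespace Pool.Agent.H88.Lcap

noncomputable def kk {n : ℕ} (ε : ℝ) (a b : Fin n → ℝ) : ℝ := Real.log (∑ l, (a l - b l) ^ 2 + ε)

lemma kk_symm {n : ℕ} (ε : ℝ) (a b : Fin n → ℝ) : kk ε a b = kk ε b a := by
  unfold kk
  congr 2
  exact sum_congr rfl fun l _ => by ring

lemma kk_bd {n : ℕ} {ε : ℝ} (hε : 0 < ε) {Ω : Type} [MeasurableSpace Ω] {u v : Ω → Fin n → ℝ}
    (hu : Measurable u) (hv : Measurable v) (bu : ∀ ω, ∑ l, u ω l ^ 2 ≤ 2)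
    (bv : ∀ ω, ∑ l, v ω l ^ 2 ≤ 2) : Bd (fun ω => kk ε (u ω) (v ω)) := by
  refine ⟨by unfold kk; fun_prop, |Real.log ε| + |Real.log (8 + ε)|, fun ω => ?_⟩
  have h0 : 0 ≤ ∑ l, (u ω l - v ω l) ^ 2 := sum_nonneg fun _ _ => sq_nonneg _
  have h1 : ∑ l, (u ω l - v ω l) ^ 2 ≤ 2 * ∑ l, u ω l ^ 2 + 2 * ∑ l, v ω l ^ 2 := by
    rw [mul_sum, mul_sum, ← sum_add_distrib]
    exact sum_le_sum fun l _ => by nlinarith [sq_nonneg (u ω l + v ω l)]
  have a1 : Real.log ε ≤ kk ε (u ω) (v ω) := Real.log_le_log hε (by linarith)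
  have a2 : kk ε (u ω) (v ω) ≤ Real.log (8 + ε) :=
    Real.log_le_log (by linarith) (by linarith [bu ω, bv ω])
  rw [abs_le]
  constructor
  · linarith [neg_abs_le (Real.log ε), abs_nonneg (Real.log (8 + ε))]
  · linarith [le_abs_self (Real.log (8 + ε)), abs_nonneg (Real.log ε)]

noncomputable def zc {d : ℕ} (a : Fin (d + 2) → ℝ) : ℂ := a 0 + a 1 * I

noncomputable def rad {d : ℕ} (ρ : ℝ) (a : Fin (d + 2) → ℝ) : ℝ :=
  √(ρ - ∑ l : Fin d, a l.succ.succ ^ 2)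

noncomputable def mk2 {d : ℕ} (z : ℂ) (h : Fin d → ℝ) : Fin (d + 2) → ℝ :=
  Fin.cons z.re (Fin.cons z.im h)

noncomputable def lft {d : ℕ} (ρ : ℝ) (a : Fin (d + 2) → ℝ) (θ : ℝ) : Fin (d + 2) → ℝ :=
  mk2 (mob (rad ρ a) (zc a) θ) fun l => a l.succ.succ

lemma zc_mk2 {d : ℕ} (z : ℂ) (h : Fin d → ℝ) : zc (mk2 z h) = z := by
  simp [zc, mk2]

lemma mk2_succ {d : ℕ} (z : ℂ) (h : Fin d → ℝ) (l : Fin d) : mk2 z h l.succ.succ = h l := by
  simp [mk2]

lemma split {d : ℕ} (a b : Fin (d + 2) → ℝ) : ∑ l, (a l - b l) ^ 2 =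
    ‖zc a - zc b‖ ^ 2 + ∑ l : Fin d, (a l.succ.succ - b l.succ.succ) ^ 2 := by
  rw [Fin.sum_univ_succ, Fin.sum_univ_succ, Complex.sq_norm, Complex.normSq_apply]
  simp [zc]
  ring

lemma split0 {d : ℕ} (a : Fin (d + 2) → ℝ) : ∑ l, a l ^ 2 =
    ‖zc a‖ ^ 2 + ∑ l : Fin d, a l.succ.succ ^ 2 := by
  simpa [zc] using split a 0

lemma rad_sq {d : ℕ} {ρ : ℝ} (hρ : 1 < ρ) {a : Fin (d + 2) → ℝ} (ha : ∑ l, a l ^ 2 ≤ 1) :
    rad ρ a ^ 2 = ρ - ∑ l : Fin d, a l.succ.succ ^ 2 := by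
  rw [split0] at ha
  exact sq_sqrt (by nlinarith [sq_nonneg ‖zc a‖])

lemma rad_gt {d : ℕ} {ρ : ℝ} (hρ : 1 < ρ) {a : Fin (d + 2) → ℝ} (ha : ∑ l, a l ^ 2 ≤ 1) :
    ‖zc a‖ < rad ρ a := by
  rw [split0] at ha
  exact Real.lt_sqrt_of_sq_lt (by linarith)

lemma lft_sq {d : ℕ} {ρ : ℝ} (hρ : 1 < ρ) {a : Fin (d + 2) → ℝ} (ha : ∑ l, a l ^ 2 ≤ 1) (θ : ℝ) :
    ∑ l, lft ρ a θ l ^ 2 = ρ := by
  rw [split0, lft, zc_mk2, mob_norm (rad_gt hρ ha), rad_sq hρ ha]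
  simp [mk2_succ]

lemma kk_sub {d : ℕ} {ρ ε : ℝ} (hρ : 1 < ρ) (hε : 0 < ε) {a : Fin (d + 2) → ℝ}
    (ha : ∑ l, a l ^ 2 ≤ 1) (b : Fin (d + 2) → ℝ) : kk ε a b ≤ ∫ θ, kk ε (lft ρ a θ) b ∂U := by
  simp only [kk, split, lft, zc_mk2, mk2_succ, add_assoc]
  exact submean (rad_gt hρ ha) (add_pos_of_nonneg_of_pos (sum_nonneg fun _ _ => sq_nonneg _) hε)

lemma meas_mk2 {d : ℕ} {Ω : Type} [MeasurableSpace Ω] {z : Ω → ℂ} {h : Ω → Fin d → ℝ}
    (hz : Measurable z) (hh : Measurable h) : Measurable fun ω => mk2 (z ω) (h ω) := by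
  refine measurable_pi_lambda _ fun l => ?_
  refine Fin.cases ?_ (fun l => Fin.cases ?_ (fun l => ?_) l) l
  · exact Complex.measurable_re.comp hz
  · exact Complex.measurable_im.comp hz
  · exact (measurable_pi_apply l).comp hh

lemma meas_lft {d : ℕ} (ρ : ℝ) {Ω : Type} [MeasurableSpace Ω] {x : Ω → Fin (d + 2) → ℝ}
    (hx : Measurable x) : Measurable fun ω : Ω × ℝ => lft ρ (x ω.1) ω.2 := by
  refine meas_mk2 ?_ (by fun_prop)
  have h1 : Measurable fun ω : Ω × ℝ => zc (x ω.1) := by unfold zc; fun_prop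
  have h2 : Measurable fun ω : Ω × ℝ => conj (zc (x ω.1)) :=
    Complex.continuous_conj.measurable.comp h1
  have h3 : Measurable fun ω : Ω × ℝ => circleMap 0 1 ω.2 :=
    (continuous_circleMap 0 1).measurable.comp measurable_snd
  have h4 : Measurable fun ω : Ω × ℝ => ((rad ρ (x ω.1) : ℝ) : ℂ) := by unfold rad; fun_prop
  exact (h4.mul ((h4.mul h3).add h1)).div (h4.add (h2.mul h3))

lemma step1 {d : ℕ} {ρ ε : ℝ} (hρ : 1 < ρ) (hρ2 : ρ ≤ 2) (hε : 0 < ε) {Ω Ω' : Type}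
    [MeasurableSpace Ω] [MeasurableSpace Ω'] (P : Measure Ω) (P' : Measure Ω')
    [IsProbabilityMeasure P] [IsProbabilityMeasure P'] {x : Ω → Fin (d + 2) → ℝ}
    {v : Ω' → Fin (d + 2) → ℝ} (hx : Measurable x) (hv : Measurable v)
    (bx : ∀ ω, ∑ l, x ω l ^ 2 ≤ 1) (bv : ∀ ω, ∑ l, v ω l ^ 2 ≤ 2) :
    ∫ p : Ω × Ω', kk ε (x p.1) (v p.2) ∂(P.prod P') ≤
      ∫ p : (Ω × ℝ) × Ω', kk ε (lft ρ (x p.1.1) p.1.2) (v p.2) ∂((P.prod U).prod P') := by
  have bx2 : ∀ ω, ∑ l, x ω l ^ 2 ≤ 2 := fun ω => (bx ω).trans one_le_two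
  have by2 : ∀ ω : Ω × ℝ, ∑ l, lft ρ (x ω.1) ω.2 l ^ 2 ≤ 2 := fun ω =>
    (lft_sq hρ (bx _) _).trans_le hρ2
  have i1 := (kk_bd hε (hx.comp measurable_fst) (hv.comp measurable_snd) (fun p : Ω × Ω' => bx2 _)
    (fun p => bv _)).int (P.prod P')
  have i2 := (kk_bd hε ((meas_lft ρ hx).comp measurable_fst) (hv.comp measurable_snd)
    (fun p : (Ω × ℝ) × Ω' => by2 _) (fun p => bv _)).int ((P.prod U).prod P')
  refine (integral_prod_symm _ i1).trans_le (le_trans ?_ (integral_prod_symm _ i2).ge)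
  refine integral_mono i1.integral_prod_right i2.integral_prod_right fun ω' => ?_
  have i3 := (kk_bd hε (meas_lft ρ hx) (measurable_const (a := v ω')) by2 (fun p => bv _)).int
    (P.prod U)
  refine le_trans ?_ (integral_prod _ i3).ge
  refine integral_mono ((kk_bd hε hx (measurable_const (a := v ω')) bx2 (fun p => bv _)).int P)
    i3.integral_prod_left fun ω => ?_
  exact kk_sub hρ hε (bx ω) _

lemma ee_pos {n : ℕ} (hn : 0 < n) (k : ℕ) : 0 < ee n k := by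
  induction k with
  | zero => simp [ee]
  | succ k ih => rw [ee]; positivity

lemma step2 {n : ℕ} (hn : 0 < n) {ρ ε : ℝ} (hρ : 0 < ρ) (hε : 0 < ε) {Ω : Type}
    [MeasurableSpace Ω] (Q : Measure Ω) [IsProbabilityMeasure Q] {y : Ω → Fin n → ℝ}
    (hy : Measurable y) (by' : ∀ ω, ∑ l, y ω l ^ 2 = ρ) (K : ℕ) :
    ∫ p : Ω × Ω, kk ε (y p.1) (y p.2) ∂(Q.prod Q) ≤ Real.log (2 * ρ + ε) -
      ∑ k ∈ range K, (2 * ρ / (2 * ρ + ε)) ^ (2 * (k + 1)) * (ee 1 (k + 1) / ee n (k + 1)) /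
        (2 * (k + 1)) := by
  obtain ⟨s, hs⟩ : ∃ s, s = 2 / (2 * ρ + ε) := ⟨_, rfl⟩
  have s0 : 0 < s := by rw [hs]; positivity
  have q1 : s * ρ < 1 := by rw [hs, div_mul_eq_mul_div, div_lt_one (by positivity)]; linarith
  have hX : ∀ l, Bd fun ω => y ω l := fun l => ⟨by fun_prop, 1 + ρ, fun ω => by
    have := single_le_sum (f := fun l => y ω l ^ 2) (fun _ _ => sq_nonneg _) (mem_univ l)
    rw [by'] at this
    exact abs_le_of_sq_le_sq' (by nlinarith) (by positivity) |> abs_le.2⟩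
  obtain ⟨t, ht⟩ : ∃ t : Ω × Ω → ℝ, t = fun p => s * ∑ l, y p.1 l * y p.2 l := ⟨_, rfl⟩
  have tb : Bd t := ht ▸ (Bd.const s).mul (Bd.sum _ fun l =>
    ((hX l).comp measurable_fst).mul ((hX l).comp measurable_snd))
  have e1 : ∀ (c : ℝ) (p : Ω × Ω), ∑ l, (y p.1 l - c * y p.2 l) ^ 2 =
      ρ + c ^ 2 * ρ - 2 * c * ∑ l, y p.1 l * y p.2 l := fun c p => by
    conv_rhs => rw [← by' p.1]; arg 1; arg 2; rw [by' p.1, ← by' p.2]
    rw [mul_sum, mul_sum, ← sum_add_distrib, ← sum_sub_distrib]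
    exact sum_congr rfl fun l _ => by ring
  have tq : ∀ p, |t p| ≤ s * ρ := fun p => by
    have a1 : 0 ≤ ∑ l, (y p.1 l - 1 * y p.2 l) ^ 2 := sum_nonneg fun _ _ => sq_nonneg _
    have a2 : 0 ≤ ∑ l, (y p.1 l - -1 * y p.2 l) ^ 2 := sum_nonneg fun _ _ => sq_nonneg _
    rw [e1] at a1 a2
    rw [ht, abs_mul, abs_of_pos s0]
    exact mul_le_mul_of_nonneg_left (abs_le.2 ⟨by linarith, by linarith⟩) s0.le
  have e2 : ∀ p : Ω × Ω, kk ε (y p.1) (y p.2) = Real.log (2 * ρ + ε) -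
      ∑' m : ℕ, t p ^ (m + 1) / (m + 1) := fun p => by
    have h1 := (tq p).trans_lt q1
    rw [(hasSum_pow_div_log_of_abs_lt_one h1).tsum_eq, sub_neg_eq_add,
      ← Real.log_mul (by positivity) (by linarith [le_abs_self (t p)]), kk]
    congr 1
    have := e1 1 p
    simp only [one_mul] at this
    rw [this, ht, hs]
    field_simp
    ring
  have hi : ∀ m : ℕ, Integrable (fun p => t p ^ (m + 1) / (m + 1)) (Q.prod Q) := fun m =>
    ((tb.pow _).int _).div_const _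
  have hsum := hasSum_integral_of_summable_integral_norm hi (by
    refine Summable.of_nonneg_of_le (fun m => integral_nonneg fun _ => norm_nonneg _)
      (fun m => ?_) (summable_geometric_of_lt_one (mul_pos s0 hρ).le q1)
    refine (integral_mono (hi m).norm (integrable_const ((s * ρ) ^ m)) fun p => ?_).trans (by simp)
    simp only [norm_div, norm_pow, Real.norm_eq_abs]
    rw [div_le_iff₀ (by positivity)]
    have a1 := pow_le_pow_left₀ (abs_nonneg _) (tq p) (m + 1)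
    have a2 : (1 : ℝ) ≤ |(m : ℝ) + 1| := by
      rw [abs_of_pos (by positivity)]; linarith [Nat.cast_nonneg (α := ℝ) m]
    have a3 := pow_pos (mul_pos s0 hρ) m
    rw [pow_succ (s * ρ)] at a1
    nlinarith)
  have hB : ∀ m : ℕ, ∫ p, t p ^ (m + 1) / (m + 1) ∂(Q.prod Q) =
      s ^ (m + 1) * BB Q (fun l ω => y ω l) (fun _ => 1) (m + 1) / (m + 1) := fun m => by
    rw [integral_div, BB, ← integral_const_mul]
    simp [ht, mul_pow]
  have ik : Integrable (fun p : Ω × Ω => ∑' m : ℕ, t p ^ (m + 1) / (m + 1)) (Q.prod Q) := by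
    have : Bd fun p : Ω × Ω => -Real.log (1 - t p) := by
      refine ⟨(measurable_const.sub tb.1).log.neg, |Real.log (1 - s * ρ)| + |Real.log 2|,
        fun p => ?_⟩
      have a0 := abs_le.1 (tq p)
      have a1 : Real.log (1 - s * ρ) ≤ Real.log (1 - t p) :=
        Real.log_le_log (by linarith) (by linarith)
      have a2 : Real.log (1 - t p) ≤ Real.log 2 := Real.log_le_log (by linarith) (by linarith)
      rw [abs_le]
      constructor
      · linarith [le_abs_self (Real.log 2), abs_nonneg (Real.log (1 - s * ρ))]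
      · linarith [neg_abs_le (Real.log (1 - s * ρ)), abs_nonneg (Real.log 2)]
    refine (this.int _).congr (ae_of_all _ fun p => ?_)
    exact (hasSum_pow_div_log_of_abs_lt_one ((tq p).trans_lt q1)).tsum_eq.symm
  simp only [e2]
  rw [integral_sub (integrable_const _) ik]
  simp only [integral_const, probReal_univ, one_smul]
  refine sub_le_sub_left (le_trans ?_ (sum_le_hasSum ((range K).image fun k => 2 * k + 1)
    (fun m _ => ?_) hsum)) _
  · rw [sum_image (fun a _ b _ h => by simpa using h)]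
    refine sum_le_sum fun k _ => ?_
    rw [hB, show 2 * k + 1 + 1 = 2 * (k + 1) by ring]
    have h1 := sid Q n _ hX _ (Bd.const 1) (k + 1)
    have h2 : AA Q (fun l ω => y ω l) (fun _ => 1) (k + 1) = ρ ^ (k + 1) := by simp [AA, by']
    rw [h2] at h1
    have h3 := ee_pos hn (k + 1)
    have e3 : ((2 * k + 1 : ℕ) : ℝ) + 1 = 2 * (k + 1) := by push_cast; ring
    rw [e3]
    refine div_le_div_of_nonneg_right ?_ (by positivity)
    rw [show 2 * ρ / (2 * ρ + ε) = s * ρ by rw [hs]; ring, mul_pow, mul_assoc]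
    refine mul_le_mul_of_nonneg_left ?_ (by positivity)
    rw [← mul_div_assoc, div_le_iff₀ h3, pow_mul']
    linarith
  · rw [hB]
    have := BB_nonneg Q n _ hX _ (Bd.const 1) (m + 1)
    positivity

lemma ball_bound {d : ℕ} {ρ ε : ℝ} (hρ : 1 < ρ) (hρ2 : ρ ≤ 2) (hε : 0 < ε) {Ω : Type}
    [MeasurableSpace Ω] (P : Measure Ω) [IsProbabilityMeasure P] {x : Ω → Fin (d + 2) → ℝ}
    (hx : Measurable x) (bx : ∀ ω, ∑ l, x ω l ^ 2 ≤ 1) (K : ℕ) :
    ∫ p : Ω × Ω, kk ε (x p.1) (x p.2) ∂(P.prod P) ≤ Real.log (2 * ρ + ε) -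
      ∑ k ∈ range K, (2 * ρ / (2 * ρ + ε)) ^ (2 * (k + 1)) * (ee 1 (k + 1) / ee (d + 2) (k + 1)) /
        (2 * (k + 1)) := by
  have h1 := step1 hρ hρ2 hε P P hx hx bx fun ω => (bx ω).trans one_le_two
  have h2 := step1 hρ hρ2 hε P (P.prod U) hx (meas_lft ρ hx) bx fun ω =>
    (lft_sq hρ (bx _) _).trans_le hρ2
  have h3 := step2 (n := d + 2) (by omega) (by linarith) hε (P.prod U) (meas_lft ρ hx)
    (fun ω => lft_sq hρ (bx _) _) K
  refine h1.trans (le_trans (le_of_eq ?_) (h2.trans h3))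
  rw [← integral_prod_swap]
  simp only [Prod.fst_swap, Prod.snd_swap, kk_symm ε (lft _ _ _)]

end Pool.Agent.H88.Lcap
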