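import Pool.Agent.H88.Lcap3

open MeasureTheory Finset Real Complex ComplexConjugate
open scoped ENNReal

namespace Pool.Agent.H88.Lcap

open Classical in
noncomputable def kJ {n : ℕ} (x y : EuclideanSpace ℝ (Fin n)) : ℝ≥0∞ :=
  if x = y then ⊤ else ENNReal.ofReal (Real.log 3 - Real.log ‖x - y‖)

noncomputable def JJ {n : ℕ} (μ : Measure (EuclideanSpace ℝ (Fin n))) : ℝ≥0∞ :=
  ∫⁻ p, kJ p.1 p.2 ∂(μ.prod μ)

lemma kJ_meas {n : ℕ} : Measurable fun p : EuclideanSpace ℝ (Fin n) × EuclideanSpace ℝ (Fin n) =>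
    kJ p.1 p.2 := by
  unfold kJ
  exact Measurable.ite (measurableSet_eq_fun measurable_fst measurable_snd) measurable_const
    (by fun_prop)

lemma kerNeg_meas {n : ℕ} :
    Measurable fun p : EuclideanSpace ℝ (Fin n) × EuclideanSpace ℝ (Fin n) => kerNeg p.1 p.2 := by
  unfold kerNeg
  fun_prop

lemma log23 {r : ℝ} (h0 : 0 ≤ r) (h : r ≤ 2) : Real.log r ≤ Real.log 3 := by
  rcases h0.eq_or_lt with rfl | h0
  · simpa using Real.log_nonneg (by norm_num)
  · exact Real.log_le_log h0 (by linarith)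

lemma energy_id {n : ℕ} (μ : Measure (EuclideanSpace ℝ (Fin n))) [IsProbabilityMeasure μ]
    (h : ∀ᵐ p ∂(μ.prod μ), ‖p.1 - p.2‖ ≤ 2) :
    energy μ = (JJ μ : EReal) - (Real.log 3 : ℝ) := by
  have l3 : 0 ≤ Real.log 3 := Real.log_nonneg (by norm_num)
  have h1 : (∫⁻ p, kerPos p.1 p.2 ∂(μ.prod μ)) + ENNReal.ofReal (Real.log 3) =
      (∫⁻ p, kerNeg p.1 p.2 ∂(μ.prod μ)) + JJ μ := by
    rw [JJ, ← lintegral_add_left kerNeg_meas]
    have : ENNReal.ofReal (Real.log 3) = ∫⁻ _, ENNReal.ofReal (Real.log 3) ∂(μ.prod μ) := by simp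
    rw [this, ← lintegral_add_right _ measurable_const]
    refine lintegral_congr_ae (h.mono fun p hp => ?_)
    simp only [kerPos, kerNeg, kJ]
    split_ifs with e
    · simp
    · have := log23 (norm_nonneg _) hp
      rw [one_div, Real.log_inv]
      rcases le_total 0 (Real.log ‖p.1 - p.2‖) with a | a
      · rw [ENNReal.ofReal_of_nonpos (neg_nonpos.2 a), ← ENNReal.ofReal_add a (by linarith)]
        simp
      · rw [ENNReal.ofReal_of_nonpos a, ← ENNReal.ofReal_add (neg_nonneg.2 a) l3, zero_add]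
        congr 1
        ring
  have h2 : (∫⁻ p, kerNeg p.1 p.2 ∂(μ.prod μ)) ≤ ENNReal.ofReal (Real.log 3) := by
    have : ENNReal.ofReal (Real.log 3) = ∫⁻ _, ENNReal.ofReal (Real.log 3) ∂(μ.prod μ) := by simp
    rw [this]
    exact lintegral_mono_ae (h.mono fun p hp => ENNReal.ofReal_le_ofReal (log23 (norm_nonneg _) hp))
  unfold energy
  generalize (∫⁻ p, kerPos p.1 p.2 ∂(μ.prod μ)) = A at *
  generalize (∫⁻ p, kerNeg p.1 p.2 ∂(μ.prod μ)) = B at *
  generalize JJ μ = J at *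
  lift B to NNReal using ne_top_of_le_ne_top ENNReal.ofReal_ne_top h2
  rcases eq_or_ne A ⊤ with rfl | hA
  · have : J = ⊤ := by simpa using h1.symm
    subst this
    simp only [EReal.coe_ennreal_top, EReal.coe_nnreal_eq_coe_real, EReal.top_sub_coe]
  · lift A to NNReal using hA
    have : J ≠ ⊤ := by
      rintro rfl
      simp at h1
    lift J to NNReal using this
    have := congrArg ENNReal.toReal h1
    rw [ENNReal.toReal_add (by simp) (by simp), ENNReal.toReal_add (by simp) (by simp),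
      ENNReal.toReal_ofReal l3] at this
    simp only [ENNReal.coe_toReal] at this
    simp only [EReal.coe_nnreal_eq_coe_real, ← EReal.coe_sub]
    congr 1
    linarith

lemma pair_ae {n : ℕ} {μ : Measure (EuclideanSpace ℝ (Fin n))} [IsProbabilityMeasure μ]
    {K : Set (EuclideanSpace ℝ (Fin n))} (h : μ Kᶜ = 0) :
    ∀ᵐ p ∂(μ.prod μ), p.1 ∈ K ∧ p.2 ∈ K := by
  have h' : ∀ᵐ x ∂μ, x ∈ K := h
  exact (Measure.quasiMeasurePreserving_fst.ae h').and (Measure.quasiMeasurePreserving_snd.ae h')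

open Classical in
noncomputable def cl {n : ℕ} (x : EuclideanSpace ℝ (Fin n)) : Fin n → ℝ :=
  if ‖x‖ ≤ 1 then fun l => x l else 0

lemma ball_energy {d : ℕ} {ρ ε : ℝ} (hρ : 1 < ρ) (hρ2 : ρ ≤ 2) (hε : 0 < ε) (hε1 : ε ≤ 1) (K : ℕ)
    (μ : Measure (EuclideanSpace ℝ (Fin (d + 2)))) [IsProbabilityMeasure μ]
    (h : μ (Metric.closedBall 0 1)ᶜ = 0) :
    ((-(Real.log (2 * ρ + ε) -
      ∑ k ∈ range K, (2 * ρ / (2 * ρ + ε)) ^ (2 * (k + 1)) * (ee 1 (k + 1) / ee (d + 2) (k + 1)) /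
        (2 * (k + 1))) / 2 : ℝ) : EReal) ≤ energy μ := by
  have hc : Measurable (cl (n := d + 2)) := by
    unfold cl
    exact Measurable.ite (measurableSet_le measurable_norm measurable_const) (by fun_prop)
      measurable_const
  have bc : ∀ x, ∑ l, cl (n := d + 2) x l ^ 2 ≤ 1 := fun x => by
    unfold cl
    split_ifs with e
    · rw [← EuclideanSpace.real_norm_sq_eq]
      exact pow_le_one₀ (norm_nonneg _) e
    · simp
  have h1 := ball_bound hρ hρ2 hε μ hc bc K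
  generalize Real.log (2 * ρ + ε) - _ = a at h1 ⊢
  have pa := pair_ae h
  have n2 : ∀ᵐ p ∂(μ.prod μ), ‖p.1 - p.2‖ ≤ 2 := pa.mono fun p hp => by
    have a1 := mem_closedBall_zero_iff.1 hp.1
    have a2 := mem_closedBall_zero_iff.1 hp.2
    linarith [norm_sub_le p.1 p.2]
  have ik : Integrable (fun p => kk ε (cl p.1) (cl p.2)) (μ.prod μ) := (kk_bd hε (hc.comp measurable_fst) (hc.comp measurable_snd)
    (fun p => (bc _).trans one_le_two) (fun p => (bc _).trans one_le_two)).int (μ.prod μ)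
  have ek : ∀ᵐ p ∂(μ.prod μ), kk ε (cl p.1) (cl p.2) = Real.log (‖p.1 - p.2‖ ^ 2 + ε) :=
    pa.mono fun p hp => by
      simp only [kk, cl, if_pos (mem_closedBall_zero_iff.1 hp.1),
        if_pos (mem_closedBall_zero_iff.1 hp.2), EuclideanSpace.real_norm_sq_eq, PiLp.sub_apply]
  have h2 : ENNReal.ofReal (∫ p, (Real.log 3 - kk ε (cl p.1) (cl p.2) / 2) ∂(μ.prod μ)) ≤ JJ μ := by
    rw [ofReal_integral_eq_lintegral_ofReal (by exact (integrable_const _).sub (ik.div_const 2))]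
    · refine lintegral_mono_ae (ek.mono fun p hp => ?_)
      simp only [hp, kJ]
      split_ifs with e
      · exact le_top
      · refine ENNReal.ofReal_le_ofReal ?_
        have := Real.log_le_log (pow_pos (norm_pos_iff.2 (sub_ne_zero.2 e)) 2)
          (le_add_of_nonneg_right hε.le)
        rw [Real.log_pow] at this
        push_cast at this
        linarith
    · filter_upwards [ek, n2] with p hp hp2
      simp only [Pi.zero_apply, hp]
      have : Real.log (‖p.1 - p.2‖ ^ 2 + ε) ≤ Real.log (3 ^ 2) :=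
        Real.log_le_log (by positivity) (by nlinarith [norm_nonneg (p.1 - p.2)])
      rw [Real.log_pow] at this
      push_cast at this
      linarith
  rw [integral_sub (integrable_const _) (ik.div_const 2), integral_div] at h2
  simp only [integral_const, probReal_univ, one_smul] at h2
  rw [energy_id μ n2]
  rcases eq_or_ne (JJ μ) ⊤ with e | e
  · rw [e]
    simp
  · rw [ENNReal.ofReal_le_iff_le_toReal e] at h2
    rw [← EReal.coe_ennreal_toReal e, ← EReal.coe_sub, EReal.coe_le_coe_iff]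
    linarith

noncomputable def cpt {d : ℕ} (r : ℝ) (h : Fin d → ℝ) (θ : ℝ) : EuclideanSpace ℝ (Fin (d + 2)) :=
  WithLp.toLp 2 (mk2 (circleMap 0 r θ) h)

lemma cpt_cont {d : ℕ} (r : ℝ) (h : Fin d → ℝ) : Continuous (cpt r h) := by
  refine (PiLp.continuous_toLp 2 _).comp (continuous_pi fun l => ?_)
  refine Fin.cases ?_ (fun l => Fin.cases ?_ (fun l => ?_) l) l
  · exact Complex.continuous_re.comp (continuous_circleMap 0 r)
  · exact Complex.continuous_im.comp (continuous_circleMap 0 r)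
  · exact continuous_const

lemma cpt_dist {d : ℕ} (r r' : ℝ) (h h' : Fin d → ℝ) (θ φ : ℝ) :
    ‖cpt r h θ - cpt r' h' φ‖ ^ 2 = (r ^ 2 + r' ^ 2 + ∑ l, (h l - h' l) ^ 2) +
      2 * ((-(r * r') * conj (circleMap 0 1 θ)) * circleMap 0 1 φ).re := by
  rw [EuclideanSpace.real_norm_sq_eq]
  simp only [cpt, PiLp.sub_apply, split, zc_mk2, mk2_succ, Complex.sq_norm, Complex.normSq_apply,
    circleMap, zero_add, sub_re, mul_re, ofReal_re, exp_ofReal_mul_I_re, ofReal_im,
    exp_ofReal_mul_I_im, zero_mul, sub_zero, neg_re, conj_re, sub_im, mul_im,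
    add_zero, neg_im, conj_im, ofReal_one, one_mul, mul_zero, neg_zero]
  have := Real.sin_sq_add_cos_sq θ
  have := Real.sin_sq_add_cos_sq φ
  linear_combination r ^ 2 * Real.sin_sq_add_cos_sq θ + r' ^ 2 * Real.sin_sq_add_cos_sq φ

lemma cpt_c (r r' θ : ℝ) : ‖(-(r * r') * conj (circleMap 0 1 θ) : ℂ)‖ ^ 2 = (r * r') ^ 2 := by
  rw [norm_mul, RCLike.norm_conj, norm_circleMap_zero, norm_neg, ← ofReal_mul, Complex.norm_real]
  simp [mul_pow]

lemma cpt_le {d : ℕ} {r r' : ℝ} (hr : 0 < r) (hr' : 0 < r') {h h' : Fin d → ℝ}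
    (H : (r + r') ^ 2 + ∑ l, (h l - h' l) ^ 2 ≤ 4) (θ φ : ℝ) : ‖cpt r h θ - cpt r' h' φ‖ ≤ 2 := by
  refine (abs_le_of_sq_le_sq' ?_ (by norm_num)).2
  rw [cpt_dist]
  have h1 := Complex.re_le_norm ((-(r * r') * conj (circleMap 0 1 θ)) * circleMap 0 1 φ)
  have h2 : ‖(-(r * r') * conj (circleMap 0 1 θ) : ℂ)‖ = r * r' :=
    (sq_eq_sq₀ (norm_nonneg _) (by positivity)).1 (cpt_c r r' θ)
  rw [norm_mul, h2, norm_circleMap_zero] at h1
  simp only [abs_one, mul_one] at h1
  nlinarith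

lemma cpt_inner {d : ℕ} {r r' β : ℝ} (hr : 0 < r) (hr' : 0 < r') {h h' : Fin d → ℝ}
    (H : (r + r') ^ 2 + ∑ l, (h l - h' l) ^ 2 ≤ 4) (hβ : 0 < β)
    (hb : β ^ 2 - (r ^ 2 + r' ^ 2 + ∑ l, (h l - h' l) ^ 2) * β + (r * r') ^ 2 ≤ 0) (θ : ℝ) :
    ∫⁻ φ, kJ (cpt r h θ) (cpt r' h' φ) ∂U ≤ ENNReal.ofReal (Real.log 3 - Real.log β / 2) := by
  obtain ⟨i1, i2⟩ := CA3 (c := -(r * r') * conj (circleMap 0 1 θ)) hβ (by rw [cpt_c]; exact hb)
  simp only [← cpt_dist r r' h h' θ, Real.log_pow, Nat.cast_ofNat] at i1 i2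
  rw [integral_const_mul] at i2
  have i3 : Integrable (fun φ => Real.log ‖cpt r h θ - cpt r' h' φ‖) U := by
    simpa using i1.const_mul 2⁻¹
  have ne : ∀ᵐ φ ∂U, cpt r h θ ≠ cpt r' h' φ := by
    rw [ae_iff]
    refine U_null (((Set.countable_singleton (circleMap 0 r θ)).preimage_circleMap 0 hr'.ne').mono
      fun φ hφ => ?_)
    have := congrArg (fun x => zc (WithLp.ofLp x)) (not_not.1 hφ)
    simpa [cpt, zc_mk2] using this.symm
  have : ∫⁻ φ, kJ (cpt r h θ) (cpt r' h' φ) ∂U =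
      ENNReal.ofReal (∫ φ, (Real.log 3 - Real.log ‖cpt r h θ - cpt r' h' φ‖) ∂U) := by
    rw [ofReal_integral_eq_lintegral_ofReal (by exact (integrable_const _).sub i3)
      (ae_of_all _ fun φ => sub_nonneg.2 (log23 (norm_nonneg _) (cpt_le hr hr' H θ φ)))]
    exact lintegral_congr_ae (ne.mono fun φ hφ => by simp only [kJ, if_neg hφ])
  rw [this, integral_sub (integrable_const _) i3]
  simp only [integral_const, probReal_univ, one_smul]
  exact ENNReal.ofReal_le_ofReal (by linarith)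

end Pool.Agent.H88.Lcap
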