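import Pool.Agent.H88.Lcap4

open MeasureTheory Finset Real
open scoped ENNReal

namespace Pool.Agent.H88.Lcap

lemma circ_energy {d N : ℕ} {r w : Fin N → ℝ} {h : Fin N → Fin d → ℝ} {β : Fin N → Fin N → ℝ}
    (hr : ∀ i, 0 < r i) (hw : ∀ i, 0 ≤ w i) (hs : ∑ i, w i = 1)
    (H : ∀ i j, (r i + r j) ^ 2 + ∑ l, (h i l - h j l) ^ 2 ≤ 4) (hβ : ∀ i j, 0 < β i j)
    (hβ4 : ∀ i j, β i j ≤ 4)
    (hb : ∀ i j, β i j ^ 2 - (r i ^ 2 + r j ^ 2 + ∑ l, (h i l - h j l) ^ 2) * β i j +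
      (r i * r j) ^ 2 ≤ 0) :
    ∃ μ : Measure (EuclideanSpace ℝ (Fin (d + 2))), IsProbabilityMeasure μ ∧
      μ (⋃ i, cpt (r i) (h i) '' Set.Icc 0 (2 * π))ᶜ = 0 ∧
      energy μ ≤ ((-(∑ i, ∑ j, w i * w j * Real.log (β i j)) / 2 : ℝ) : EReal) := by
  obtain ⟨μ, hμ⟩ : ∃ μ : Measure (EuclideanSpace ℝ (Fin (d + 2))),
    μ = ∑ i, ENNReal.ofReal (w i) • U.map (cpt (r i) (h i)) := ⟨_, rfl⟩
  have mc : ∀ i, Measurable (cpt (r i) (h i)) := fun i => (cpt_cont _ _).measurable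
  have li : ∀ f : EuclideanSpace ℝ (Fin (d + 2)) → ℝ≥0∞, Measurable f →
      ∫⁻ x, f x ∂μ = ∑ i, ENNReal.ofReal (w i) * ∫⁻ θ, f (cpt (r i) (h i) θ) ∂U := fun f hf => by
    rw [hμ, lintegral_finsetSum_measure]
    exact sum_congr rfl fun i _ => by rw [lintegral_smul_measure, lintegral_map hf (mc i)]; rfl
  have pm : IsProbabilityMeasure μ := ⟨by
    rw [← lintegral_one, li _ measurable_const]
    simp only [lintegral_const, measure_univ, mul_one]
    rw [← ENNReal.ofReal_sum_of_nonneg fun i _ => hw i, hs, ENNReal.ofReal_one]⟩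
  have kc : IsCompact (⋃ i, cpt (r i) (h i) '' Set.Icc 0 (2 * π)) :=
    isCompact_iUnion fun i => isCompact_Icc.image (cpt_cont _ _)
  have su : μ (⋃ i, cpt (r i) (h i) '' Set.Icc 0 (2 * π))ᶜ = 0 := by
    rw [hμ, Measure.finsetSum_apply]
    refine sum_eq_zero fun i _ => ?_
    rw [Measure.smul_apply, Measure.map_apply (mc i) kc.measurableSet.compl, U,
      Measure.smul_apply, Measure.restrict_apply' measurableSet_Ioc]
    have : cpt (r i) (h i) ⁻¹' (⋃ i, cpt (r i) (h i) '' Set.Icc 0 (2 * π))ᶜ ∩ Set.Ioc 0 (2 * π) =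
        ∅ := Set.eq_empty_of_forall_notMem fun θ hθ =>
      hθ.1 (Set.mem_iUnion.2 ⟨i, θ, Set.Ioc_subset_Icc_self hθ.2, rfl⟩)
    rw [this]
    simp
  refine ⟨μ, pm, su, ?_⟩
  have nn : ∀ i j, 0 ≤ Real.log 3 - Real.log (β i j) / 2 := fun i j => by
    have : Real.log (β i j) ≤ Real.log (3 ^ 2) :=
      Real.log_le_log (hβ i j) (by linarith [hβ4 i j])
    rw [Real.log_pow] at this
    push_cast at this
    linarith
  have hJ : JJ μ ≤ ENNReal.ofReal (∑ i, w i * ∑ j, w j * (Real.log 3 - Real.log (β i j) / 2)) := by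
    rw [JJ, lintegral_prod _ kJ_meas.aemeasurable, li _ kJ_meas.lintegral_prod_right',
      ENNReal.ofReal_sum_of_nonneg fun i _ =>
        mul_nonneg (hw i) (sum_nonneg fun j _ => mul_nonneg (hw j) (nn i j))]
    refine sum_le_sum fun i _ => ?_
    rw [ENNReal.ofReal_mul (hw i)]
    refine mul_le_mul_right ((lintegral_mono fun θ => ?_).trans (le_of_eq (by
      rw [lintegral_const, measure_univ, mul_one]))) _
    rw [li _ (by exact kJ_meas.comp measurable_prodMk_left),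
      ENNReal.ofReal_sum_of_nonneg fun j _ => mul_nonneg (hw j) (nn i j)]
    refine sum_le_sum fun j _ => ?_
    rw [ENNReal.ofReal_mul (hw j)]
    exact mul_le_mul_right (cpt_inner (hr i) (hr j) (H i j) (hβ i j) (hb i j) θ) _
  have e : ∑ i, w i * ∑ j, w j * (Real.log 3 - Real.log (β i j) / 2) =
      Real.log 3 - (∑ i, ∑ j, w i * w j * Real.log (β i j)) / 2 := by
    simp only [mul_sub, sum_sub_distrib, ← sum_mul, hs, one_mul, sum_div, mul_sum]
    congr 1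
    exact sum_congr rfl fun i _ => sum_congr rfl fun j _ => by ring
  rw [energy_id μ ((pair_ae su).mono fun p hp => by
    obtain ⟨i, θ, -, e1⟩ := Set.mem_iUnion.1 hp.1
    obtain ⟨j, φ, -, e2⟩ := Set.mem_iUnion.1 hp.2
    rw [← e1, ← e2]
    exact cpt_le (hr i) (hr j) (H i j) θ φ)]
  have f := ne_top_of_le_ne_top ENNReal.ofReal_ne_top hJ
  have := ENNReal.toReal_le_of_le_ofReal
    (sum_nonneg fun i _ => mul_nonneg (hw i) (sum_nonneg fun j _ => mul_nonneg (hw j) (nn i j))) hJ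
  rw [← EReal.coe_ennreal_toReal f, ← EReal.coe_sub, EReal.coe_le_coe_iff]
  linarith

def ser (b : ℚ) : ℚ := 2 * 0.6931471803 - ∑ i ∈ range 30, (1 - b / 4) ^ (i + 1) / (i + 1) -
  (1 - b / 4) ^ 31 / (1 - (1 - b / 4))

def lgQ : ℕ → ℚ → ℚ
  | 0, b => ser b
  | n + 1, b => if b < 2 then lgQ n (2 * b) - 0.6931471808 else ser b

lemma ser_le {b : ℚ} (h0 : 0 < b) (h4 : b ≤ 4) : (ser b : ℝ) ≤ Real.log b := by
  have h0' : (0 : ℝ) < b := by exact_mod_cast h0
  have h4' : (b : ℝ) ≤ 4 := by exact_mod_cast h4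
  have a : |1 - (b : ℝ) / 4| = 1 - b / 4 := abs_of_nonneg (by linarith)
  have := abs_log_sub_add_sum_range_le (x := 1 - (b : ℝ) / 4) (by rw [a]; linarith) 30
  rw [a, sub_sub_cancel, Real.log_div h0'.ne' (by norm_num),
    show (4 : ℝ) = 2 ^ 2 by norm_num, Real.log_pow] at this
  have l := Real.log_two_gt_d9
  have := (abs_le.1 this).1
  simp only [ser]
  push_cast at this ⊢
  rw [sub_sub_cancel]
  norm_num at this l ⊢
  linarith

lemma lgQ_le (n : ℕ) : ∀ b : ℚ, 0 < b → b ≤ 4 → (lgQ n b : ℝ) ≤ Real.log b := by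
  induction n with
  | zero => exact fun b => ser_le
  | succ n ih =>
    intro b h0 h4
    rw [lgQ]
    split_ifs with h
    · have := ih (2 * b) (by linarith) (by linarith)
      have h0' : (0 : ℝ) < b := by exact_mod_cast h0
      push_cast at this ⊢
      rw [Real.log_mul (by norm_num) h0'.ne'] at this
      have l := Real.log_two_lt_d9
      norm_num at l ⊢
      linarith
    · exact ser_le h0 h4

def eeQ (n : ℕ) : ℕ → ℚ
  | 0 => 1
  | k + 1 => eeQ n k * (4 * k + 2 * n) / (k + 1)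

lemma eeQ_cast (n k : ℕ) : (eeQ n k : ℝ) = ee n k := by
  induction k with
  | zero => simp [ee, eeQ]
  | succ k ih => rw [ee, eeQ, ← ih]; push_cast; rfl

def Ok {d N : ℕ} (r w : Fin N → ℚ) (h : Fin N → Fin d → ℚ) (β : Fin N → Fin N → ℚ) (K : ℕ) : Prop :=
  (∀ i, 0 < r i ∧ 0 ≤ w i) ∧ ∑ i, w i = 1 ∧ (∃ i, r i = 1) ∧
  (∀ i j, (r i + r j) ^ 2 + ∑ l, (h i l - h j l) ^ 2 ≤ 4 ∧ 0 < β i j ∧ β i j ≤ 4 ∧
    β i j ^ 2 - (r i ^ 2 + r j ^ 2 + ∑ l, (h i l - h j l) ^ 2) * β i j + (r i * r j) ^ 2 ≤ 0) ∧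
  0.6931471808 + 2 / 10 ^ 6 - ∑ k ∈ range K, (10 ^ 6 / (10 ^ 6 + 1) : ℚ) ^ (2 * (k + 1)) *
    (eeQ 1 (k + 1) / eeQ (d + 2) (k + 1)) / (2 * (k + 1)) < ∑ i, ∑ j, w i * w j * lgQ 10 (β i j)

theorem main {d N : ℕ} {r w : Fin N → ℚ} {h : Fin N → Fin d → ℚ} {β : Fin N → Fin N → ℚ} {K : ℕ}
    (ok : Ok r w h β K) : ∃ S : Set (EuclideanSpace ℝ (Fin (d + 2))), IsCompact S ∧
      Metric.diam S = 2 ∧
      capLog (Metric.closedBall (0 : EuclideanSpace ℝ (Fin (d + 2))) 1) < capLog S := by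
  obtain ⟨o1, o2, ⟨i0, o3⟩, o4, o5⟩ := ok
  have hr : ∀ i, (0 : ℝ) < r i := fun i => by exact_mod_cast (o1 i).1
  have hw : ∀ i, (0 : ℝ) ≤ w i := fun i => by exact_mod_cast (o1 i).2
  have H : ∀ i j, ((r i : ℝ) + r j) ^ 2 + ∑ l, ((h i l : ℝ) - h j l) ^ 2 ≤ 4 := fun i j => by
    exact_mod_cast (o4 i j).1
  obtain ⟨μ, pm, su, en⟩ := circ_energy (r := fun i => r i) (w := fun i => w i)
    (h := fun i l => h i l) (β := fun i j => β i j) hr hw (by exact_mod_cast o2) H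
    (fun i j => by exact_mod_cast (o4 i j).2.1) (fun i j => by exact_mod_cast (o4 i j).2.2.1)
    (fun i j => by exact_mod_cast (o4 i j).2.2.2)
  have kc : IsCompact (⋃ i, cpt (r i : ℝ) (fun l => (h i l : ℝ)) '' Set.Icc 0 (2 * π)) :=
    isCompact_iUnion fun i => isCompact_Icc.image (cpt_cont _ _)
  refine ⟨_, kc, le_antisymm (Metric.diam_le_of_forall_dist_le (by norm_num) fun x hx y hy => ?_)
    ?_, ?_⟩
  · obtain ⟨i, θ, -, rfl⟩ := Set.mem_iUnion.1 hx
    obtain ⟨j, φ, -, rfl⟩ := Set.mem_iUnion.1 hy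
    rw [dist_eq_norm]
    exact cpt_le (hr i) (hr j) (H i j) θ φ
  · have pp := Real.pi_pos
    refine le_trans (le_of_eq ?_) (Metric.dist_le_diam_of_mem kc.isBounded
      (Set.mem_iUnion.2 ⟨i0, 0, ⟨le_rfl, by positivity⟩, rfl⟩)
      (Set.mem_iUnion.2 ⟨i0, π, ⟨pp.le, by linarith⟩, rfl⟩))
    rw [dist_eq_norm, ← sq_eq_sq₀ (by norm_num) (norm_nonneg _), cpt_dist]
    simp [o3, circleMap]
    norm_num
  · unfold capLog
    rw [EReal.exp_lt_exp_iff, EReal.neg_lt_neg_iff]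
    refine lt_of_le_of_lt ((iInf_le_of_le μ (iInf_le_of_le pm (iInf_le _ su))).trans en)
      (lt_of_lt_of_le ?_ (le_iInf fun ν => le_iInf fun pν => le_iInf fun hν =>
        ball_energy (ρ := 1 + 1 / 10 ^ 6) (ε := 2 * (1 + 1 / 10 ^ 6) / 10 ^ 6) (by norm_num)
          (by norm_num) (by norm_num) (by norm_num) K ν hν))
    rw [EReal.coe_lt_coe_iff]
    have a1 : ((∑ i, ∑ j, w i * w j * lgQ 10 (β i j) : ℚ) : ℝ) ≤
        ∑ i, ∑ j, (w i : ℝ) * w j * Real.log (β i j) := by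
      push_cast
      exact sum_le_sum fun i _ => sum_le_sum fun j _ => mul_le_mul_of_nonneg_left
        (lgQ_le _ _ (o4 i j).2.1 (o4 i j).2.2.1) (mul_nonneg (hw i) (hw j))
    have a2 := (Rat.cast_lt (K := ℝ)).2 o5
    have a3 : Real.log (2 * (1 + 1 / 10 ^ 6) + 2 * (1 + 1 / 10 ^ 6) / 10 ^ 6) ≤
        0.6931471808 + 2 / 10 ^ 6 := by
      rw [show (2 * (1 + 1 / 10 ^ 6) + 2 * (1 + 1 / 10 ^ 6) / 10 ^ 6 : ℝ) =
        2 * (1 + 1 / 10 ^ 6) ^ 2 by norm_num, Real.log_mul (by norm_num) (by norm_num),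
        Real.log_pow]
      have := Real.log_le_sub_one_of_pos (x := 1 + 1 / 10 ^ 6) (by norm_num)
      have := Real.log_two_lt_d9
      push_cast
      linarith
    rw [show (2 * (1 + 1 / 10 ^ 6) / (2 * (1 + 1 / 10 ^ 6) + 2 * (1 + 1 / 10 ^ 6) / 10 ^ 6) : ℝ) =
      10 ^ 6 / (10 ^ 6 + 1) by norm_num]
    rw [Rat.cast_sub, Rat.cast_sum] at a2
    simp only [Rat.cast_div, Rat.cast_mul, Rat.cast_pow, eeQ_cast, Rat.cast_add, Rat.cast_ofNat,
      Rat.cast_natCast, Rat.cast_one, Rat.cast_ofScientific] at a2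
    linarith

def r3 : Fin 8 → ℚ := ![1, 241/250, 861/1000, 351/500, 251/500, 36/125, 101/1000, 34/125]
def h3 : Fin 8 → Fin 1 → ℚ := ![![0], ![47/125], ![73/100], ![131/125], ![1319/1000], ![1529/1000], ![1669/1000], ![-59/200]]
def w3 : Fin 8 → ℚ := ![523/1000, 19/200, 91/1000, 21/250, 37/500, 61/1000, 27/500, 9/500]
def b3 : Fin 8 → Fin 8 → ℚ :=
  ![![1, 141299/100000, 187987/100000, 238443/100000, 290501/100000, 84909/25000, 379307/100000, 54667/50000],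
    ![141299/100000, 58081/62500, 24813/20000, 158469/100000, 24381/12500, 9233/4000, 260771/100000, 140457/100000],
    ![187987/100000, 24813/20000, 741321/1000000, 23779/25000, 59111/50000, 70967/50000, 162859/100000, 36721/20000],
    ![238443/100000, 158469/100000, 23779/25000, 123201/250000, 12339/20000, 75281/100000, 17659/20000, 47099/20000],
    ![290501/100000, 24381/12500, 59111/50000, 12339/20000, 63001/250000, 15603/50000, 3779/10000, 14623/5000],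
    ![84909/25000, 9233/4000, 70967/50000, 75281/100000, 15603/50000, 1296/15625, 5233/50000, 174107/50000],
    ![379307/100000, 260771/100000, 162859/100000, 17659/20000, 3779/10000, 5233/50000, 10201/1000000, 24633/6250],
    ![54667/50000, 140457/100000, 36721/20000, 47099/20000, 14623/5000, 174107/50000, 24633/6250, 1156/15625]]
def r4 : Fin 3 → ℚ := ![1, 12/25, 12/25]
def h4 : Fin 3 → Fin 2 → ℚ := ![![0, 0], ![877/1000, 51/50], ![-877/1000, 51/50]]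
def w4 : Fin 3 → ℚ := ![13/25, 6/25, 6/25]
def b4 : Fin 3 → Fin 3 → ℚ :=
  ![![1, 148107/50000, 148107/50000],
    ![148107/50000, 144/625, 11007/3125],
    ![148107/50000, 11007/3125, 144/625]]

lemma ok3 : Ok r3 w3 h3 b3 200 := by
  unfold Ok
  decide +kernel

lemma ok4 : Ok r4 w4 h4 b4 30 := by
  unfold Ok
  decide +kernel

end Pool.Agent.H88.Lcap
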