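import Mathlib

open MeasureTheory
open scoped ENNReal

namespace Pool.Agent.H88.Lcap

open Classical in
noncomputable def kerPos {n : ℕ} (x y : EuclideanSpace ℝ (Fin n)) : ℝ≥0∞ :=
  if x = y then ⊤ else ENNReal.ofReal (Real.log (1 / ‖x - y‖))

noncomputable def kerNeg {n : ℕ} (x y : EuclideanSpace ℝ (Fin n)) : ℝ≥0∞ :=
  ENNReal.ofReal (Real.log ‖x - y‖)

noncomputable def energy {n : ℕ} (μ : Measure (EuclideanSpace ℝ (Fin n))) : EReal :=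
  ((∫⁻ p, kerPos p.1 p.2 ∂(μ.prod μ) : ℝ≥0∞) : EReal) -
    ((∫⁻ p, kerNeg p.1 p.2 ∂(μ.prod μ) : ℝ≥0∞) : EReal)

noncomputable def capLog {n : ℕ} (K : Set (EuclideanSpace ℝ (Fin n))) : ℝ≥0∞ :=
  EReal.exp (-⨅ (μ : Measure (EuclideanSpace ℝ (Fin n))) (_ : IsProbabilityMeasure μ)
    (_ : μ Kᶜ = 0), energy μ)

end Pool.Agent.H88.Lcap
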