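import Mathlib

set_option autoImplicit false

open Filter Topology Set TopologicalSpace
open scoped ENNReal

namespace Pool.Agent.H88.LpDyn

section comp
variable {𝕜 F ι κ : Type*} [NontriviallyNormedField 𝕜] [NormedAddCommGroup F] [NormedSpace 𝕜 F]
  {p : ℝ≥0∞}

lemma sum_comp_le (hp : 0 < p.toReal) (φ : ι → κ) (hφ : Function.Injective φ)
    (x : lp (fun _ : κ => F) p) (s : Finset ι) :
    ∑ i ∈ s, ‖x (φ i)‖ ^ p.toReal ≤ ‖x‖ ^ p.toReal := by
  classical
  have := lp.sum_rpow_le_norm_rpow hp x (s.image φ)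
  rwa [Finset.sum_image (fun a _ b _ h => hφ h)] at this

variable (𝕜) in
/-- composition with an injective map of the index set -/
noncomputable def cmp [Fact (1 ≤ p)] (hp : 0 < p.toReal) (φ : ι → κ) (hφ : Function.Injective φ) :
    lp (fun _ : κ => F) p →L[𝕜] lp (fun _ : ι => F) p :=
  LinearMap.mkContinuous
    { toFun := fun x => ⟨fun i => x (φ i), memℓp_gen' (sum_comp_le hp φ hφ x)⟩
      map_add' := fun _ _ => rfl
      map_smul' := fun _ _ => rfl } 1
    (fun x => by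
      rw [one_mul]
      exact lp.norm_le_of_forall_sum_le hp (norm_nonneg _) (sum_comp_le hp φ hφ x))

@[simp] lemma cmp_apply [Fact (1 ≤ p)] (hp : 0 < p.toReal) (φ : ι → κ) (hφ : Function.Injective φ)
    (x : lp (fun _ : κ => F) p) (i : ι) : cmp 𝕜 hp φ hφ x i = x (φ i) := rfl

lemma norm_cmp_le [Fact (1 ≤ p)] (hp : 0 < p.toReal) (φ : ι → κ) (hφ : Function.Injective φ)
    (x : lp (fun _ : κ => F) p) : ‖cmp 𝕜 hp φ hφ x‖ ≤ ‖x‖ :=
  lp.norm_le_of_forall_sum_le hp (norm_nonneg _) (sum_comp_le hp φ hφ x)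

end comp

/-- the space -/
noncomputable abbrev E := lp (fun _ : ℕ => ℂ) 2

lemma two_pos' : 0 < (2 : ℝ≥0∞).toReal := by norm_num

/-- truncation -/
noncomputable def fin (L : ℕ) (r : ℕ → ℂ) : E := ∑ k ∈ Finset.range L, lp.single 2 k (r k)

lemma fin_apply (L : ℕ) (r : ℕ → ℂ) (k : ℕ) : fin L r k = if k < L then r k else 0 := by
  unfold fin
  rw [lp.coeFn_sum, Finset.sum_apply]
  simp only [lp.single_apply, Pi.single_apply]
  rw [Finset.sum_ite_eq]
  simp

lemma tendsto_fin (x : E) : Tendsto (fun L => fin L x) atTop (𝓝 x) :=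
  (lp.hasSum_single (by norm_num) x).tendsto_sum_nat

lemma exists_fin (x : E) {ε : ℝ} (hε : 0 < ε) : ∃ L, ‖fin L x - x‖ < ε := by
  have := (Metric.tendsto_nhds.1 (tendsto_fin x) ε hε).exists
  simpa [dist_eq_norm] using this

instance : SeparableSpace E := by
  rw [← isSeparable_univ_iff]
  have h1 : IsSeparable (Set.range fun k : ℕ => (lp.single 2 k (1 : ℂ) : E)) :=
    (countable_range _).isSeparable
  refine (h1.span (R := ℂ)).closure.mono fun x _ => ?_
  refine mem_closure_of_tendsto (tendsto_fin x) (Eventually.of_forall fun L => ?_)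
  refine Submodule.sum_mem _ fun k _ => ?_
  have : (lp.single 2 k (x k) : E) = x k • lp.single 2 k (1 : ℂ) := by
    rw [← lp.single_smul]; simp
  rw [this]
  exact Submodule.smul_mem _ _ (Submodule.subset_span ⟨k, rfl⟩)

instance : Nontrivial E :=
  ⟨⟨lp.single 2 0 1, 0, fun h => by simpa using congrArg (fun x : E => x 0) h⟩⟩

instance (x : E) : NeBot (𝓝[≠] x) := Module.punctured_nhds_neBot ℂ E x

lemma mul_le (x y : E) (k : ℕ) : ‖x k * y k‖ ≤ ‖((‖x‖ : ℂ) • y) k‖ := by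
  rw [lp.coeFn_smul, Pi.smul_apply, smul_eq_mul, norm_mul, norm_mul, Complex.norm_real, norm_norm]
  exact mul_le_mul_of_nonneg_right (lp.norm_apply_le_norm (by norm_num) x k) (norm_nonneg _)

/-- the coordinatewise product -/
noncomputable def mul : E →L[ℂ] E →L[ℂ] E :=
  LinearMap.mkContinuous₂
    (LinearMap.mk₂ ℂ (fun x y : E => (⟨fun k => x k * y k, (lp.memℓp _).mono' (mul_le x y)⟩ : E))
      (fun _ _ _ => by ext k; exact add_mul _ _ _)
      (fun _ _ _ => by ext k; exact mul_assoc _ _ _)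
      (fun _ _ _ => by ext k; exact mul_add _ _ _)
      (fun _ _ _ => by ext k; exact mul_left_comm _ _ _)) 1
    (fun x y => by
      refine (lp.norm_mono (by norm_num) (y := (‖x‖ : ℂ) • y) (mul_le x y)).trans ?_
      rw [norm_smul, Complex.norm_real, norm_norm, one_mul])

@[simp] lemma mul_apply (x y : E) (k : ℕ) : mul x y k = x k * y k := rfl

/-- positive powers -/
noncomputable def pw (x : E) : ℕ → E
  | 0 => x
  | n + 1 => mul x (pw x n)

@[simp] lemma pw_apply (x : E) (n k : ℕ) : pw x n k = x k ^ (n + 1) := by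
  induction n with
  | zero => simp [pw]
  | succ n ih => rw [pw, mul_apply, ih]; ring

lemma continuous_pw (n : ℕ) : Continuous fun x => pw x n := by
  induction n with
  | zero => exact continuous_id
  | succ n ih => exact mul.continuous₂.comp (continuous_id.prodMk ih)

/-- twice the backward shift -/
noncomputable def B2 : E →L[ℂ] E := (2 : ℂ) • cmp ℂ two_pos' (fun k => k + 1) (add_left_injective 1)

lemma B2_apply (x : E) (k : ℕ) : B2 x k = 2 * x (k + 1) := rfl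

lemma B2_iter (n : ℕ) (x : E) (k : ℕ) : (B2 ^ n) x k = 2 ^ n * x (k + n) := by
  induction n generalizing k with
  | zero => simp
  | succ n ih =>
    rw [pow_succ', mul_apply_eq_comp, B2_apply, ih]
    rw [show k + 1 + n = k + (n + 1) by ring]; ring

lemma dense_step (m M : ℕ) (v : E) {ε : ℝ} (hε : 0 < ε) :
    Dense {u : E | ∃ N, ‖(B2 ^ N) (pw u m) - v‖ < ε ∧
      ∀ j < M, m < j → ‖(B2 ^ N) (pw u j)‖ < ε} := by
  rw [Metric.dense_iff]
  intro x δ hδ
  obtain ⟨L0, hL0⟩ := exists_fin x (half_pos hδ)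
  obtain ⟨L, hL⟩ := exists_fin v hε
  choose r hr using fun k => IsAlgClosed.exists_pow_nat_eq (v k) (Nat.succ_pos m)
  obtain ⟨a, ha0, ha⟩ : ∃ a : ℝ, 0 < a ∧ a ^ (m + 1) = 1 / 2 :=
    ⟨(1 / 2 : ℝ) ^ (((m + 1 : ℕ) : ℝ)⁻¹), by positivity,
      Real.rpow_inv_natCast_pow (by norm_num) (Nat.succ_ne_zero m)⟩
  have ha1 : a < 1 := by
    by_contra h
    have := one_le_pow₀ (n := m + 1) (not_lt.1 h)
    linarith
  have hlim : ∀ C : ℝ, ∀ η, 0 < η → ∀ᶠ N in atTop, a ^ N * C < η := by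
    intro C η hη
    have := (tendsto_pow_atTop_nhds_zero_of_lt_one ha0.le ha1).mul_const C
    rw [zero_mul] at this
    exact this.eventually (gt_mem_nhds hη)
  have h1 := hlim (∑ k ∈ Finset.range L, ‖r k‖) _ (half_pos hδ)
  have h2 : ∀ᶠ N in atTop, ∀ j ∈ Finset.range M, a ^ N * ‖pw (fin L r) j‖ < ε :=
    (Finset.eventually_all _).2 fun j _ => hlim _ _ hε
  obtain ⟨N, hN1, hN2, hN3⟩ := (h1.and (h2.and (eventually_ge_atTop L0))).exists
  obtain ⟨w, hw⟩ : ∃ w : E, w = ∑ k ∈ Finset.range L, lp.single 2 (k + N) ((a : ℂ) ^ N * r k) :=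
    ⟨_, rfl⟩
  have hwn : ‖w‖ < δ / 2 := by
    refine lt_of_le_of_lt ?_ hN1
    rw [hw, Finset.mul_sum]
    refine (norm_sum_le _ _).trans (Finset.sum_le_sum fun k _ => ?_)
    rw [lp.norm_single (by norm_num), norm_mul, norm_pow, Complex.norm_real, Real.norm_eq_abs,
      abs_of_pos ha0]
  have hcoord : ∀ k, (fin L0 x + w) (k + N) = (a : ℂ) ^ N * fin L r k := by
    intro k
    rw [lp.coeFn_add, Pi.add_apply, fin_apply, if_neg (by omega), zero_add, hw, lp.coeFn_sum,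
      Finset.sum_apply, fin_apply]
    simp only [lp.single_apply, Pi.single_apply, add_left_inj]
    rw [Finset.sum_ite_eq]
    simp
  have hiter : ∀ j, (B2 ^ N) (pw (fin L0 x + w) j)
      = (((2 * a ^ (j + 1)) ^ N : ℝ) : ℂ) • pw (fin L r) j := by
    intro j
    ext k
    rw [B2_iter, pw_apply, hcoord, lp.coeFn_smul, Pi.smul_apply, pw_apply, smul_eq_mul]
    push_cast
    ring
  refine ⟨fin L0 x + w, ?_, N, ?_, fun j hj hmj => ?_⟩
  · rw [mem_ball_iff_norm, add_sub_right_comm]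
    have := norm_add_le (fin L0 x - x) w
    linarith
  · rw [hiter, ha]
    have : pw (fin L r) m = fin L v := by
      ext k
      rw [pw_apply, fin_apply, fin_apply]
      split_ifs
      · exact hr k
      · simp
    rw [this]
    simpa using hL
  · rw [hiter, norm_smul, Complex.norm_real, Real.norm_eq_abs, abs_of_pos (by positivity)]
    refine lt_of_le_of_lt ?_ (hN2 j (Finset.mem_range.2 hj))
    gcongr
    obtain ⟨d, rfl⟩ : ∃ d, j = m + 1 + d := ⟨j - (m + 1), by omega⟩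
    have e1 : a ^ (m + 1 + d + 1) = a ^ (m + 1) * a ^ d * a := by ring
    have e2 : a ^ d ≤ 1 := pow_le_one₀ ha0.le ha1.le
    rw [e1, ha]
    nlinarith

lemma open_step (m M : ℕ) (v : E) (ε : ℝ) :
    IsOpen {u : E | ∃ N, ‖(B2 ^ N) (pw u m) - v‖ < ε ∧
      ∀ j < M, m < j → ‖(B2 ^ N) (pw u j)‖ < ε} := by
  rw [Set.ofPred_exists]
  refine isOpen_iUnion fun N => ?_
  have hc : ∀ j, Continuous fun u => (B2 ^ N) (pw u j) := fun j =>
    (B2 ^ N).continuous.comp (continuous_pw j)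
  refine IsOpen.inter (isOpen_lt ((hc m).sub continuous_const).norm continuous_const) ?_
  have : {u : E | ∀ j < M, m < j → ‖(B2 ^ N) (pw u j)‖ < ε}
      = ⋂ j ∈ Finset.Ioo m M, {u : E | ‖(B2 ^ N) (pw u j)‖ < ε} := by
    ext u
    simp only [mem_ofPred_eq, mem_iInter, Finset.mem_Ioo]
    exact ⟨fun h j hj => h j hj.2 hj.1, fun h j h1 h2 => h j ⟨h2, h1⟩⟩
  show IsOpen {u : E | ∀ j < M, m < j → ‖(B2 ^ N) (pw u j)‖ < ε}
  rw [this]
  exact isOpen_biInter_finset fun j _ => isOpen_lt (hc j).norm continuous_const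

/-- a vector all of whose non-zero polynomial images are hypercyclic for `B2` -/
lemma exists_gen : ∃ u : E, ∀ (M : ℕ) (b : ℕ → ℂ), (∃ j < M, b j ≠ 0) →
    Dense (Set.range fun N => (B2 ^ N) (∑ j ∈ Finset.range M, b j • pw u j)) := by
  classical
  have hd := dense_iInter_of_isOpen (ι := ℕ × ℕ × ℕ × ℕ)
    (fun i => open_step i.1 i.2.1 (denseSeq E i.2.2.1) (1 / ((i.2.2.2 : ℝ) + 1)))
    (fun i => dense_step i.1 i.2.1 (denseSeq E i.2.2.1) Nat.one_div_pos_of_nat)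
  obtain ⟨u, hu⟩ := hd.nonempty
  refine ⟨u, fun M b hb => ?_⟩
  have hex : ∃ j, b j ≠ 0 := let ⟨j, _, h⟩ := hb; ⟨j, h⟩
  obtain ⟨m, hm⟩ : ∃ m, m = Nat.find hex := ⟨_, rfl⟩
  have hbm : b m ≠ 0 := hm ▸ Nat.find_spec hex
  have hlow : ∀ j < m, b j = 0 := fun j hj => by
    have := Nat.find_min hex (hm ▸ hj); simpa using this
  have hmM : m < M := by
    obtain ⟨j, hj, h⟩ := hb
    have := Nat.find_min' hex h
    omega
  rw [Metric.dense_iff]
  intro x δ hδ
  obtain ⟨K, hK⟩ : ∃ K, K = 2 * ‖b m‖ + ∑ j ∈ Finset.range M, ‖b j‖ + 1 := ⟨_, rfl⟩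
  have hS : 0 ≤ ∑ j ∈ Finset.range M, ‖b j‖ := Finset.sum_nonneg fun _ _ => norm_nonneg _
  have hK0 : 0 < K := by rw [hK]; positivity
  obtain ⟨l, hl⟩ := exists_nat_one_div_lt (show 0 < δ / K by positivity)
  obtain ⟨ε, hε⟩ : ∃ ε : ℝ, ε = 1 / ((l : ℝ) + 1) := ⟨_, rfl⟩
  have hε0 : 0 < ε := hε ▸ Nat.one_div_pos_of_nat
  obtain ⟨i, hi⟩ := (denseRange_denseSeq E).exists_dist_lt ((b m)⁻¹ • x) hε0
  obtain ⟨N, h1, h2⟩ := mem_iInter.1 hu (m, M, i, l)
  simp only [← hε] at h1 h2 hl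
  refine ⟨_, ?_, N, rfl⟩
  rw [mem_ball_iff_norm]
  have e1 : (B2 ^ N) (∑ j ∈ Finset.range M, b j • pw u j) - x
      = b m • ((B2 ^ N) (pw u m) - denseSeq E i) + b m • (denseSeq E i - (b m)⁻¹ • x)
        + ∑ j ∈ (Finset.range M).erase m, b j • (B2 ^ N) (pw u j) := by
    rw [map_sum, ← Finset.add_sum_erase _ _ (Finset.mem_range.2 hmM)]
    simp only [map_smul, smul_sub, smul_inv_smul₀ hbm]
    abel
  have e2 : ‖∑ j ∈ (Finset.range M).erase m, b j • (B2 ^ N) (pw u j)‖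
      ≤ (∑ j ∈ Finset.range M, ‖b j‖) * ε := by
    refine (norm_sum_le _ _).trans ?_
    rw [Finset.sum_mul]
    refine le_trans (Finset.sum_le_sum fun j hj => ?_)
      (Finset.sum_le_sum_of_subset_of_nonneg (Finset.erase_subset m _) fun _ _ _ => by positivity)
    rw [Finset.mem_erase, Finset.mem_range] at hj
    rw [norm_smul]
    rcases lt_or_gt_of_ne hj.1 with h | h
    · simp [hlow j h]
    · exact mul_le_mul_of_nonneg_left (h2 j hj.2 h).le (norm_nonneg _)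
  rw [dist_comm, dist_eq_norm] at hi
  have e3 : ‖b m • ((B2 ^ N) (pw u m) - denseSeq E i)‖ ≤ ‖b m‖ * ε := by
    rw [norm_smul]; exact mul_le_mul_of_nonneg_left h1.le (norm_nonneg _)
  have e4 : ‖b m • (denseSeq E i - (b m)⁻¹ • x)‖ ≤ ‖b m‖ * ε := by
    rw [norm_smul]; exact mul_le_mul_of_nonneg_left hi.le (norm_nonneg _)
  rw [lt_div_iff₀ hK0, hK] at hl
  rw [e1]
  refine lt_of_le_of_lt (norm_add₃_le) ?_
  nlinarith

lemma dense_tail {X : Type*} [TopologicalSpace X] [T1Space X] [∀ x : X, NeBot (𝓝[≠] x)]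
    {f : ℕ → X} (h : Dense (Set.range f)) (N : ℕ) : Dense (Set.range fun n => f (n + N)) := by
  classical
  refine (h.sdiff_finset ((Finset.range N).image f)).mono ?_
  rintro _ ⟨⟨n, rfl⟩, hn⟩
  have : N ≤ n := by
    by_contra h
    exact hn (Finset.mem_coe.2 (Finset.mem_image_of_mem f (Finset.mem_range.2 (not_le.1 h))))
  exact ⟨n - N, by simp [Nat.sub_add_cancel this]⟩

lemma mem_inv : Memℓp (fun k : ℕ => ((k : ℂ))⁻¹) 2 := by
  apply memℓp_gen
  simp

/-- the slowly decaying vector -/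
noncomputable def ee : E := ⟨fun k : ℕ => ((k : ℂ))⁻¹, mem_inv⟩

lemma ee_apply (k : ℕ) : ee k = ((k : ℂ))⁻¹ := rfl

/-- a square plus a non-zero multiple of `ee` is not hypercyclic for `B2` -/
lemma not_dense (x z : E) (c : ℂ) (hc : c ≠ 0) (hz : ∀ k, z k = x k ^ 2 + c * ee k) :
    ¬ Dense (Set.range fun N => (B2 ^ N) z) := by
  intro hd
  have hc0 : 0 < ‖c‖ := norm_pos_iff.2 hc
  have hs : Summable fun k => ‖x k‖ ^ 2 := by
    simpa using (lp.memℓp x).summable two_pos'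
  have h1 := (tendsto_sum_nat_add fun k => ‖x k‖ ^ 2).eventually
    (gt_mem_nhds (show 0 < ‖c‖ / 4 by positivity))
  have h2 := (tendsto_self_mul_const_pow_of_lt_one (r := 1 / 2) (by norm_num) (by norm_num)).eventually
    (gt_mem_nhds (show 0 < ‖c‖ / 4 by positivity))
  obtain ⟨N, hN⟩ := eventually_atTop.1 (h1.and (h2.and (eventually_ge_atTop 1)))
  obtain ⟨_, hy, n', rfl⟩ := Metric.dense_iff.1 (dense_tail hd N) 0 1 one_pos
  obtain ⟨n, hn⟩ : ∃ n, n = n' + N := ⟨_, rfl⟩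
  simp only [← hn, mem_ball_zero_iff] at hy
  obtain ⟨e1, e2, e3⟩ := hN n (by omega)
  have hn0 : (0 : ℝ) < n := by exact_mod_cast e3
  have hk : ∀ k ∈ Finset.range n, ‖c‖ / (2 * n) - (1 / 2) ^ n ≤ ‖x (k + n)‖ ^ 2 := by
    intro k hk
    have a1 := (lp.norm_apply_le_norm (by norm_num) ((B2 ^ n) z) k).trans hy.le
    rw [B2_iter, norm_mul, norm_pow, Complex.norm_ofNat] at a1
    have a2 : ‖z (k + n)‖ ≤ (1 / 2) ^ n := by
      rw [one_div, inv_pow, ← one_div, le_div_iff₀ (by positivity)]; linarith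
    have a3 : c * ee (k + n) = z (k + n) - x (k + n) ^ 2 := by rw [hz]; ring
    have a4 : ‖c * ee (k + n)‖ ≤ ‖z (k + n)‖ + ‖x (k + n)‖ ^ 2 := by
      rw [a3, ← norm_pow]; exact norm_sub_le _ _
    rw [norm_mul, ee_apply, norm_inv, Complex.norm_natCast] at a4
    have a5 : ‖c‖ / (2 * n) ≤ ‖c‖ * ((k + n : ℕ) : ℝ)⁻¹ := by
      rw [← div_eq_mul_inv]
      have : ((k + n : ℕ) : ℝ) ≤ 2 * n := by
        have := Finset.mem_range.1 hk
        exact_mod_cast (by omega : k + n ≤ 2 * n)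
      have h0 : (0 : ℝ) < ((k + n : ℕ) : ℝ) := by exact_mod_cast (by omega : 0 < k + n)
      gcongr
    linarith
  have h3 := Finset.sum_le_sum hk
  have h4 : ∑ k ∈ Finset.range n, ‖x (k + n)‖ ^ 2 ≤ ∑' k, ‖x (k + n)‖ ^ 2 :=
    ((summable_nat_add_iff n).2 hs).sum_le_tsum _ fun _ _ => by positivity
  rw [Finset.sum_const, Finset.card_range, nsmul_eq_mul, mul_sub] at h3
  have h5 : (n : ℝ) * (‖c‖ / (2 * n)) = ‖c‖ / 2 := by field_simp
  linarith

end Pool.Agent.H88.LpDyn
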