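import Pool.Agent.H88.LpDyn

set_option autoImplicit false

open Filter Topology Set TopologicalSpace
open scoped ENNReal

namespace Pool.Agent.H88.LpDyn

section wcomp
variable {𝕜 ι κ : Type*} [RCLike 𝕜] {p : ℝ≥0∞} [Fact (1 ≤ p)]

lemma wcmp_le (hp : 0 < p.toReal) (φ : ι → κ) (hφ : Function.Injective φ) (w : ι → 𝕜) (C : ℝ)
    (hw : ∀ i, ‖w i‖ ≤ C) (x : lp (fun _ : κ => 𝕜) p) (i : ι) :
    ‖w i * x (φ i)‖ ≤ ‖((C : 𝕜) • cmp 𝕜 hp φ hφ x) i‖ := by
  rw [lp.coeFn_smul, Pi.smul_apply, cmp_apply, smul_eq_mul, norm_mul, norm_mul, RCLike.norm_ofReal]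
  exact mul_le_mul_of_nonneg_right ((hw i).trans (le_abs_self C)) (norm_nonneg _)

/-- weighted composition operator -/
noncomputable def wcmp (hp : 0 < p.toReal) (φ : ι → κ) (hφ : Function.Injective φ) (w : ι → 𝕜)
    (C : ℝ) (hw : ∀ i, ‖w i‖ ≤ C) : lp (fun _ : κ => 𝕜) p →L[𝕜] lp (fun _ : ι => 𝕜) p :=
  LinearMap.mkContinuous
    { toFun := fun x => ⟨fun i => w i * x (φ i), (lp.memℓp _).mono' (wcmp_le hp φ hφ w C hw x)⟩
      map_add' := fun _ _ => by ext i; exact mul_add _ _ _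
      map_smul' := fun _ _ => by ext i; exact mul_left_comm _ _ _ } |C|
    (fun x => by
      have hp0 : p ≠ 0 := by rintro rfl; simp at hp
      refine (lp.norm_mono hp0 (y := (C : 𝕜) • cmp 𝕜 hp φ hφ x) (wcmp_le hp φ hφ w C hw x)).trans ?_
      rw [norm_smul, RCLike.norm_ofReal]
      exact mul_le_mul_of_nonneg_left (norm_cmp_le hp φ hφ x) (abs_nonneg C))

@[simp] lemma wcmp_apply (hp : 0 < p.toReal) (φ : ι → κ) (hφ : Function.Injective φ) (w : ι → 𝕜)
    (C : ℝ) (hw : ∀ i, ‖w i‖ ≤ C) (x : lp (fun _ : κ => 𝕜) p) (i : ι) :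
    wcmp hp φ hφ w C hw x i = w i * x (φ i) := rfl

lemma separable_lp [Countable ι] (hp : p ≠ ∞) : SeparableSpace (lp (fun _ : ι => 𝕜) p) := by
  classical
  rw [← isSeparable_univ_iff]
  have h1 : IsSeparable (Set.range fun k : ι => (lp.single p k (1 : 𝕜) : lp (fun _ : ι => 𝕜) p)) :=
    (countable_range _).isSeparable
  refine (h1.span (R := 𝕜)).closure.mono fun x _ => ?_
  refine mem_closure_of_tendsto (lp.hasSum_single hp x) (Eventually.of_forall fun L => ?_)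
  refine Submodule.sum_mem _ fun k _ => ?_
  have : (lp.single p k (x k) : lp (fun _ : ι => 𝕜) p) = x k • lp.single p k (1 : 𝕜) := by
    rw [← lp.single_smul]; simp
  rw [this]
  exact Submodule.smul_mem _ _ (Submodule.subset_span ⟨k, rfl⟩)

end wcomp

/-- Birkhoff transitivity -/
lemma birkhoff {Z : Type*} [TopologicalSpace Z] [BaireSpace Z] [SecondCountableTopology Z]
    [Nonempty Z] {f : Z → Z} (hf : Continuous f)
    (h : ∀ O W : Set Z, IsOpen O → O.Nonempty → IsOpen W → W.Nonempty → ∀ N : ℕ,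
      ∃ n ≥ N, ∃ z ∈ O, f^[n] z ∈ W) :
    ∃ z, ∀ W : Set Z, IsOpen W → W.Nonempty → {n | f^[n] z ∈ W}.Infinite := by
  have : Countable (countableBasis Z) := (countable_countableBasis Z).to_subtype
  have hd := dense_iInter_of_isOpen (ι := countableBasis Z × ℕ)
    (f := fun i => ⋃ n ≥ i.2, f^[n] ⁻¹' i.1.1)
    (fun i => isOpen_biUnion fun n _ =>
      (isOpen_of_mem_countableBasis i.1.2).preimage (hf.iterate n))
    (fun i => dense_iff_inter_open.2 fun O hO hne => by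
      obtain ⟨n, hn, z, hz, hz'⟩ := h O i.1.1 hO hne (isOpen_of_mem_countableBasis i.1.2)
        (nonempty_of_mem_countableBasis i.1.2) i.2
      exact ⟨z, hz, mem_iUnion₂.2 ⟨n, hn, hz'⟩⟩)
  obtain ⟨z, hz⟩ := hd.nonempty
  refine ⟨z, fun W hW ⟨w, hw⟩ => ?_⟩
  obtain ⟨B, hB, -, hBW⟩ := (isBasis_countableBasis Z).exists_subset_of_mem_open hw hW
  refine Set.infinite_of_forall_exists_gt fun N => ?_
  obtain ⟨n, hn, h1⟩ := mem_iUnion₂.1 (mem_iInter.1 hz (⟨B, hB⟩, N + 1))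
  exact ⟨n, hBW h1, hn⟩

end Pool.Agent.H88.LpDyn
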