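import Mathlib

set_option autoImplicit false

namespace Pool.Agent.H88.LpDynDefs

/-- The complex Hilbert space of square-summable sequences. -/
noncomputable abbrev L2 : Type := lp (fun _ : ℕ => ℂ) 2

/-- Bounded operators on `L2`. -/
noncomputable abbrev Op : Type := L2 →L[ℂ] L2

/-- `y` is a hypercyclic vector for `T`: its orbit is dense. -/
def IsHC (T : Op) (y : L2) : Prop := Dense (Set.range fun n : ℕ => T^[n] y)

/-- The subalgebra generated by `x` for the coordinatewise product. -/
def Alg (x : L2) : Set L2 := {y | ∃ p : Polynomial ℂ, p.coeff 0 = 0 ∧ ∀ k, y k = p.eval (x k)}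

/-- The generators of hypercyclic algebras for `T`. -/
def Gen (T : Op) : Set L2 := {x | x ≠ 0 ∧ ∀ y ∈ Alg x, y ≠ 0 → IsHC T y}

end Pool.Agent.H88.LpDynDefs
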