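import Mathlib
import Pool.Agent.H88.Nb2
import Pool.Agent.H88.Tq2

/-! The Lorentz sequence space `ℓ_{1,q}`. -/

namespace Pool.Agent.H88.Lz

open Pool.Agent.H88.Nb Finset
open Finsupp hiding sum_le_sum sum_nonneg mul_sum sum_comm sum_congr sum_mul

variable {q : ℝ}

lemma incr (hq : 0 < q) (hq1 : q ≤ 1) {a b t : ℝ} (ha : 0 ≤ a) (h : a ≤ b) (ht : 0 ≤ t) :
    (b + t) ^ q - b ^ q ≤ (a + t) ^ q - a ^ q := by
  rcases (show 0 ≤ b + t - a by linarith).eq_or_lt with e | e
  · rw [show b = a by linarith]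
  have c := (Real.concaveOn_rpow hq.le hq1).2 (x := a) (y := b + t) ha
    (show 0 ≤ b + t by linarith)
  have c1 := c (a := t / (b + t - a)) (b := (b - a) / (b + t - a)) (by positivity)
    (div_nonneg (by linarith) e.le) (by field_simp; ring)
  have c2 := c (a := (b - a) / (b + t - a)) (b := t / (b + t - a))
    (div_nonneg (by linarith) e.le) (by positivity) (by field_simp; ring)
  simp only [smul_eq_mul] at c1 c2
  rw [show t / (b + t - a) * a + (b - a) / (b + t - a) * (b + t) = b by field_simp; ring] at c1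
  rw [show (b - a) / (b + t - a) * a + t / (b + t - a) * (b + t) = a + t by field_simp; ring] at c2
  have : t / (b + t - a) + (b - a) / (b + t - a) = 1 := by field_simp; ring
  linear_combination c1 + c2 - (a ^ q + (b + t) ^ q) * this

noncomputable def w (q : ℝ) (n : ℕ) : ℝ := ((n : ℝ) + 1) ^ q - (n : ℝ) ^ q

lemma w_nonneg (hq : 0 < q) (n : ℕ) : 0 ≤ w q n :=
  sub_nonneg.2 (Real.rpow_le_rpow n.cast_nonneg (by linarith) hq.le)

lemma w_anti (hq : 0 < q) (hq1 : q ≤ 1) {m n : ℕ} (h : m ≤ n) : w q n ≤ w q m :=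
  incr hq hq1 m.cast_nonneg (Nat.cast_le.2 h) zero_le_one

lemma w_le (hq : 0 < q) (hq1 : q ≤ 1) (n : ℕ) : w q n ≤ 1 := by
  simpa [w, hq.ne'] using w_anti hq hq1 n.zero_le

lemma w_sum (hq : 0 < q) (m : ℕ) : ∑ n ∈ range m, w q n = (m : ℝ) ^ q := by
  simpa [w, hq.ne'] using sum_range_sub (fun n : ℕ => (n : ℝ) ^ q) m

lemma w_set (hq : 0 < q) (hq1 : q ≤ 1) (B : Finset ℕ) : ∑ n ∈ B, w q n ≤ 2 * (B.card : ℝ) ^ q := by
  have a : ∑ n ∈ B, w q n ≤ ∑ n ∈ B, ((if n ∈ range B.card then w q n else 0) + w q B.card) :=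
    sum_le_sum fun n _ => by
      split_ifs with h
      · linarith [w_nonneg hq B.card]
      · simpa using w_anti hq hq1 (not_lt.1 (mem_range.not.1 h))
  have b := sum_le_sum_of_subset_of_nonneg (inter_subset_right (s₁ := B) (s₂ := range B.card))
    fun n _ _ => w_nonneg hq n
  have c := card_nsmul_le_sum (range B.card) (w q) _ fun n hn => w_anti hq hq1 (mem_range.1 hn).le
  rw [sum_add_distrib, sum_ite_mem, sum_const] at a
  rw [card_range] at c
  rw [w_sum hq] at b c
  linarith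

lemma w_shift (hq : 0 < q) (hq1 : q ≤ 1) (B : Finset ℕ) (N : ℕ) :
    ∑ n ∈ B, (w q n - w q (N + n)) ≤ N := by
  obtain ⟨M, hM⟩ := B.exists_nat_subset_range
  refine (sum_le_sum_of_subset_of_nonneg hM fun n _ _ =>
    sub_nonneg.2 (w_anti hq hq1 (by omega))).trans ?_
  have a := sum_range_add (w q) N M
  have b := sum_le_sum_of_subset_of_nonneg (range_mono (show M ≤ N + M by omega))
    fun n _ _ => w_nonneg hq n
  have c := sum_le_card_nsmul (range N) (w q) 1 fun n _ => w_le hq hq1 n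
  simp only [card_range, nsmul_eq_mul, mul_one] at c
  rw [sum_sub_distrib]
  linarith

noncomputable def D (q : ℝ) (x : ℕ →₀ ℝ) : ℝ :=
  ⨆ τ : ℕ ↪ ℕ, cst q (fun a => w q (τ a)) x

instance : Nonempty (ℕ ↪ ℕ) := ⟨.refl _⟩

lemma bdd (hq : 0 < q) (hq1 : q ≤ 1) (x : ℕ →₀ ℝ) :
    BddAbove (Set.range fun τ : ℕ ↪ ℕ => cst q (fun a => w q (τ a)) x) :=
  ⟨cst q (fun _ => 1) x, by rintro _ ⟨τ, rfl⟩; exact cst_mono fun e _ => w_le hq hq1 _⟩

lemma le_D (hq : 0 < q) (hq1 : q ≤ 1) (x : ℕ →₀ ℝ) {τ : ℕ → ℕ} (h : Set.InjOn τ x.support) :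
    cst q (fun a => w q (τ a)) x ≤ D q x := by
  obtain ⟨N, hN⟩ := (x.support.image τ).exists_nat_subset_range
  have k : ∀ a ∈ x.support, τ a < N := fun a ha => mem_range.1 (hN (mem_image_of_mem _ ha))
  refine le_trans (cst_mono fun e he => ?_) (le_ciSup (bdd hq hq1 x)
    ⟨fun a => if a ∈ x.support then τ a else N + a, fun a b hab => ?_⟩)
  · simp only [Function.Embedding.coeFn_mk, if_pos he, le_rfl]
  · simp only at hab
    split_ifs at hab with c d d
    exacts [h c d hab, by have := k a c; omega, by have := k b d; omega, by omega]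

lemma D_add (hq : 0 < q) (hq1 : q ≤ 1) (x y : ℕ →₀ ℝ) : D q (x + y) ≤ D q x + D q y :=
  ciSup_le fun τ => (cst_add hq hq1 (fun _ => w_nonneg hq _) x y).trans
    (add_le_add (le_ciSup (bdd hq hq1 x) τ) (le_ciSup (bdd hq hq1 y) τ))

lemma D_smul (hq : 0 < q) (c : ℝ) (x : ℕ →₀ ℝ) : D q (c • x) = ‖c‖ ^ q * D q x := by
  rw [D, D, Real.mul_iSup_of_nonneg (by positivity)]
  exact iSup_congr fun τ => cst_smul hq _ c x

lemma D_sup (hq : 0 < q) (hq1 : q ≤ 1) {x : ℕ →₀ ℝ} {A : Finset ℕ} (h : x.support ⊆ A) {η : ℝ}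
    (hη : ∀ n, |x n| ≤ η) : D q x ≤ η ^ q * (2 * (A.card : ℝ) ^ q) := ciSup_le fun τ => by
  have := (abs_nonneg _).trans (hη 0)
  rw [cst_eq hq _ h, ← card_map τ]
  refine le_trans ?_ (mul_le_mul_of_nonneg_left (w_set hq hq1 _) (by positivity))
  rw [sum_map, mul_sum]
  exact sum_le_sum fun a _ => mul_le_mul_of_nonneg_right
    (Real.rpow_le_rpow (abs_nonneg _) (hη a) hq.le) (w_nonneg hq _)

lemma D_l1 (hq : 0 < q) (hq1 : q ≤ 1) (x : ℕ →₀ ℝ) (A : Finset ℕ) :
    (∑ a ∈ A, |x a|) ^ q ≤ D q x := by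
  have : ∀ A : Finset ℕ, ∃ τ : ℕ → ℕ, Set.InjOn τ A ∧ (∀ a ∈ A, τ a < A.card) ∧
      (∑ a ∈ A, |x a|) ^ q ≤ ∑ a ∈ A, |x a| ^ q * w q (τ a) := fun A => by
    induction A using Finset.induction_on_min_value (f := fun a => |x a|) with
    | empty => exact ⟨id, by simp, by simp, by simp [hq.ne']⟩
    | insert a A ha hm ih =>
      obtain ⟨τ, t1, t2, t3⟩ := ih
      have e : ∀ b ∈ A, Function.update τ a A.card b = τ b := fun b hb =>
        Function.update_of_ne (ne_of_mem_of_not_mem hb ha) _ _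
      refine ⟨Function.update τ a A.card, ?_, ?_, ?_⟩
      · rw [coe_insert, Set.injOn_insert ha]
        refine ⟨t1.congr fun b hb => (e b hb).symm, ?_⟩
        rintro ⟨b, hb, h⟩
        rw [e b hb, Function.update_self] at h
        exact (t2 b hb).ne h
      · rw [card_insert_of_notMem ha, forall_mem_insert, Function.update_self]
        exact ⟨Nat.lt_succ_self _, fun b hb => e b hb ▸ (t2 b hb).trans (Nat.lt_succ_self _)⟩
      · rw [sum_insert ha, sum_insert ha, Function.update_self,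
          sum_congr (f := fun b => |x b| ^ q * w q (Function.update τ a A.card b)) rfl
            fun b hb => by rw [e b hb]]
        have := incr hq hq1 (a := A.card * |x a|) (by positivity)
          (by simpa using card_nsmul_le_sum A _ _ hm) (abs_nonneg (x a))
        rw [← add_one_mul, Real.mul_rpow (by positivity) (abs_nonneg _),
          Real.mul_rpow (by positivity) (abs_nonneg _), add_comm _ |x a|] at this
        rw [w]
        linarith
  obtain ⟨τ, t1, -, t3⟩ := this x.support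
  refine (Real.rpow_le_rpow (by positivity) ?_ hq.le).trans (t3.trans (le_D hq hq1 x t1))
  rw [← sum_filter_ne_zero]
  exact sum_le_sum_of_subset_of_nonneg (fun a h => mem_support_iff.2 (abs_ne_zero.1
    (mem_filter.1 h).2)) fun _ _ _ => abs_nonneg _

lemma D_cut (hq : 0 < q) (hq1 : q ≤ 1) (x : ℕ →₀ ℝ) {ε : ℝ} (hε : 0 < ε) :
    ∃ η > (0 : ℝ), ∀ v : ℕ →₀ ℝ, (∀ n, |v n| ≤ η) → D q x + D q v ≤ D q (x + v) + 4 * ε := by
  obtain ⟨τ, hτ⟩ := exists_lt_of_lt_ciSup (show D q x - ε < D q x by linarith)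
  obtain ⟨N, hN⟩ := (x.support.image τ).exists_nat_subset_range
  have k : ∀ a ∈ x.support, τ a < N := fun a ha => mem_range.1 (hN (mem_image_of_mem _ ha))
  obtain ⟨η, η0, hη⟩ : ∃ η > (0 : ℝ), η ^ q * (2 * (x.support.card : ℝ) ^ q + N + 1) = ε :=
    ⟨(ε / (2 * (x.support.card : ℝ) ^ q + N + 1)) ^ q⁻¹, by positivity, by
      rw [Real.rpow_inv_rpow (by positivity) hq.ne', div_mul_cancel₀ _ (by positivity)]⟩
  refine ⟨η, η0, fun v hv => ?_⟩
  have a := D_sup hq hq1 (x := v.filter (· ∈ x.support)) (A := x.support)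
    (fun n hn => (mem_filter.1 hn).2) (η := η) fun n => by
      rw [filter_apply]; split_ifs; exacts [hv n, by simpa using η0.le]
  have b : D q (v.filter (· ∉ x.support)) ≤ D q (x + v.filter (· ∉ x.support)) -
      cst q (fun a => w q (τ a)) x + η ^ q * N := ciSup_le fun σ => by
    obtain ⟨u, hu⟩ : ∃ u, u = v.filter (· ∉ x.support) := ⟨_, rfl⟩
    have d : Disjoint x.support u.support := disjoint_left.2 fun n h1 h2 =>
      (mem_filter.1 (hu ▸ h2 :)).2 h1
    have c := le_D hq hq1 (x + u) (τ := fun a => if a ∈ x.support then τ a else N + σ a)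
      fun a _ b _ hab => by
        simp only at hab
        split_ifs at hab with c d d
        exacts [τ.injective hab, by have := k a c; omega, by have := k b d; omega,
          σ.injective (by omega)]
    rw [cst_eq hq _ (support_add_eq d).subset, sum_union d, sum_congr rfl fun a ha => by
      rw [if_pos ha, Finsupp.add_apply, notMem_support_iff.1 (disjoint_left.1 d ha), add_zero],
      sum_congr (s₁ := u.support) rfl fun a ha => by
        rw [if_neg (disjoint_right.1 d ha), Finsupp.add_apply,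
          notMem_support_iff.1 (disjoint_right.1 d ha), zero_add]] at c
    have e := mul_le_mul_of_nonneg_left (w_shift hq hq1 (u.support.map σ) N)
      (show 0 ≤ η ^ q by positivity)
    rw [sum_map, mul_sum] at e
    have f := (sum_le_sum fun a (ha : a ∈ u.support) => mul_le_mul_of_nonneg_right
      (Real.rpow_le_rpow (abs_nonneg (u a)) (show _ ≤ η by
        rw [hu, filter_apply, if_pos (disjoint_right.1 d ha)]; exact hv a) hq.le)
      (sub_nonneg.2 (w_anti hq hq1 (Nat.le_add_left (σ a) N)))).trans e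
    simp only [mul_sub, sum_sub_distrib] at f
    rw [← hu, cst_eq hq _ subset_rfl, cst_eq hq _ subset_rfl]
    linarith
  have c := D_add hq hq1 (v.filter (· ∈ x.support)) (v.filter (· ∉ x.support))
  have d := D_add hq hq1 (x + v) ((-1 : ℝ) • v.filter (· ∈ x.support))
  rw [filter_add_filter_not] at c
  rw [D_smul hq, show x + v + (-1 : ℝ) • v.filter (· ∈ x.support) = x + v.filter (· ∉ x.support) by
    rw [← eq_sub_iff_add_eq'.2 (filter_add_filter_not v (· ∈ x.support)) |>.symm]
    module] at d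
  simp only [norm_neg, norm_one, Real.one_rpow, one_mul] at d
  nlinarith [show 0 ≤ η ^ q * (2 * (x.support.card : ℝ) ^ q) by positivity,
    show 0 ≤ η ^ q * N by positivity, show 0 ≤ η ^ q by positivity]

end Pool.Agent.H88.Lz
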