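import Mathlib
import Pool.Agent.H88.Nb3

/-! No infinite-dimensional Banach space embeds into a free `p`-space, `p < 1`. -/

namespace Pool.Agent.H88.Nb

open Finset Filter Topology Metric
open Finsupp hiding sum_le_sum sum_nonneg mul_sum sum_comm sum_congr sum_mul

variable {p : ℝ} {M : Type} [MetricSpace M]

omit [MetricSpace M] in
lemma lc_congr {f g : M → ℝ} {μ : M →₀ ℝ} (h : ∀ x ∈ μ.support, f x = g x) :
    linearCombination ℝ f μ = linearCombination ℝ g μ := by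
  simp only [linearCombination_apply]
  exact sum_congr rfl fun x hx => by simp only [h x hx]

lemma bumps {I : Type} [Fintype I] [Nonempty I] (s : ℕ → I → M) (μ : ℕ → M →₀ ℝ) (o : M)
    (hμ : ∀ n, ∀ x ∈ (μ n).support, x ∈ Set.range (s n)) {R θ : ℝ} (hθ : 0 < θ) (hR0 : 0 < R)
    (hR : ∀ n L f, 0 ≤ L → Lip L f → |linearCombination ℝ f (μ n)| ≤ L * R)
    (hs : ∀ a b, a ≠ b → ∃ f, Lip 1 f ∧ f o = 0 ∧
      θ < |linearCombination ℝ f (μ a) - linearCombination ℝ f (μ b)|) (k : ℕ) :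
    ∃ (J : Finset ℕ) (f : ℕ → M → ℝ), J.card = k ∧ (∀ j ∈ J, Lip 18 (f j)) ∧
      (∀ a ∈ J, ∀ b ∈ J, ∀ x, f a x ≠ 0 → f b x ≠ 0 → a = b) ∧
      ∀ j ∈ J, θ / 4 < |linearCombination ℝ (f j) (∑ i ∈ J, μ i)| := by
  classical
  obtain ⟨ρ, r1, r2, r3⟩ := rho s μ o hθ hR0 hR hs
  have hJ : ∀ k, ∃ J : Finset ℕ, J.card = k ∧ (∀ a ∈ J, ∃ φ, Lip 3 φ ∧ (∀ x, |φ x| ≤ 3 * ρ x) ∧
      θ / 4 < |linearCombination ℝ φ (μ a)|) ∧ ∀ a ∈ J, ∀ b ∈ J, ∀ x,
      5 * infDist x (Set.range (s a)) < ρ x → 5 * infDist x (Set.range (s b)) < ρ x → a = b := by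
    intro k
    induction k with
    | zero => exact ⟨∅, by simp⟩
    | succ k ih =>
      obtain ⟨J, j1, j2, j3⟩ := ih
      obtain ⟨b, b1, b2, b3⟩ := (r3.and ((J.eventually_cofinite_notMem.filter_mono
        hyperfilter_le_cofinite).and ((eventually_all_finset J).2 fun a _ =>
          eventually_all.2 fun i => r2 (s a i)))).exists
      have : ∀ a ∈ J, ∀ x, 5 * infDist x (Set.range (s a)) < ρ x →
          ¬5 * infDist x (Set.range (s b)) < ρ x := fun a ha x x1 x2 => by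
        obtain ⟨_, ⟨i, rfl⟩, y1⟩ := (infDist_lt_iff (Set.range_nonempty _)).1
          ((lt_div_iff₀' (by norm_num)).2 x1)
        obtain ⟨_, ⟨j, rfl⟩, y2⟩ := (infDist_lt_iff (Set.range_nonempty _)).1
          ((lt_div_iff₀' (by norm_num)).2 x2)
        linarith [b3 a ha i j, r1 x (s a i), dist_triangle_left (s a i) (s b j) x]
      refine ⟨insert b J, by rw [card_insert_of_notMem b2, j1], forall_mem_insert _ _ _ |>.2
        ⟨b1, j2⟩, fun a ha c hc x x1 x2 => ?_⟩
      rcases mem_insert.1 ha with y | y <;> rcases mem_insert.1 hc with z | z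
      exacts [y.trans z.symm, absurd (y ▸ x1) (this c z x x2), absurd (z ▸ x2) (this a y x x1),
        j3 a y c z x x1 x2]
  obtain ⟨J, j1, j2, j3⟩ := hJ k
  choose! φ f1 f2 f3 using j2
  let h : ℕ → M → ℝ := fun a x => max (3 * ρ x - 15 * infDist x (Set.range (s a))) 0
  have h1 : ∀ a, Lip 18 (h a) := fun a => Lip.max (fun x y => by
    linarith [r1 x y, infDist_le_infDist_add_dist (x := y) (y := x) (s := Set.range (s a)),
      dist_comm x y]) fun x y => by simp
  have h2 : ∀ a x, max (-h a x) (min (φ a x) (h a x)) ≠ 0 →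
      5 * infDist x (Set.range (s a)) < ρ x := fun a x hx => by
    by_contra hc
    exact hx (by simp [show h a x = 0 from max_eq_right (by linarith)])
  refine ⟨J, fun a x => max (-h a x) (min (φ a x) (h a x)), j1, fun a ha =>
    (h1 a).neg.max (((f1 a ha).mono (by norm_num)).min (h1 a)), fun a ha b hb x x1 x2 =>
    j3 a ha b hb x (h2 a x x1) (h2 b x x2), fun a ha => ?_⟩
  rw [map_sum, sum_eq_single_of_mem a ha fun b hb hab => ?_, lc_congr (g := φ a) fun x hx => ?_]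
  · exact f3 a ha
  · have := abs_le.1 ((f2 a ha x).trans (show _ ≤ h a x from le_max_of_le_left (by
      rw [infDist_zero_of_mem (hμ a x hx)]; simp)))
    simp only [min_eq_left this.2, max_eq_right this.1]
  · rw [lc_congr (g := 0) fun x hx => ?_]
    · simp
    by_contra hc
    have := h2 a x hc
    refine hab (j3 b hb a ha x ?_ this)
    rw [infDist_zero_of_mem (hμ b x hx)]
    linarith [infDist_nonneg (x := x) (s := Set.range (s a))]

lemma sep (hp : 0 < p) (hp1 : p < 1) (u : ℕ → M × M →₀ ℝ) {R θ : ℝ} (hθ : 0 < θ) (hR0 : 0 < R)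
    (hR : ∀ n, cost p (u n) ≤ R)
    (hs : ∀ a b, a ≠ b → ∃ f, Lip 1 f ∧ θ < |linearCombination ℝ f (bd (u a - u b))|) :
    ∃ c > (0 : ℝ), ∀ k, ∃ J : Finset ℕ, J.card = k ∧
      ∀ w, bd w = bd (∑ i ∈ J, u i) → c * k ≤ cost p w := by
  classical
  obtain ⟨o⟩ : Nonempty M := by
    by_contra h
    rw [not_nonempty_iff] at h
    obtain ⟨f, -, h⟩ := hs 0 1 (by simp)
    simp [Subsingleton.elim (u 0 - u 1) 0, hθ.not_gt] at h
  obtain ⟨τ, hτ, hτ'⟩ : ∃ τ > (0 : ℝ), τ ^ (1 - p) * R = θ / 2000 :=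
    ⟨(θ / 2000 / R) ^ (1 - p)⁻¹, by positivity, by
      rw [Real.rpow_inv_rpow (by positivity) (by linarith), div_mul_cancel₀ _ hR0.ne']⟩
  obtain ⟨A, B, hAB, hA, hA', hB⟩ : ∃ A B : ℕ → M × M →₀ ℝ, (∀ n, u n = A n + B n) ∧
      (∀ n, cost p (A n) ≤ R) ∧ (∀ n, (A n).support.card ≤ ⌈R / τ ^ p⌉₊) ∧
      ∀ n, cost 1 (B n) ≤ θ / 2000 := by
    refine ⟨fun n => (u n).filter fun e => τ ≤ wt (u n) e, fun n => (u n).filter fun e =>
      ¬τ ≤ wt (u n) e, fun n => (filter_add_filter_not _ _).symm, fun n => le_trans ?_ (hR n),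
      fun n => (Nat.cast_le (α := ℝ)).1 ((card_big hp _ hτ).trans
        ((div_le_div_of_nonneg_right (hR n) (by positivity)).trans (Nat.le_ceil _))),
      fun n => le_trans ?_ ((mul_le_mul_of_nonneg_left (hR n) (by positivity)).trans hτ'.le)⟩
    · rw [cost_filter hp, cost_eq]
      refine sum_le_sum fun e _ => ?_
      split_ifs
      exacts [le_rfl, Real.rpow_nonneg (wt_nonneg _ _) _]
    · rw [cost_filter one_pos, cost_eq, mul_sum]
      refine sum_le_sum fun e _ => ?_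
      have := wt_nonneg (u n) e
      split_ifs with h
      · positivity
      · exact (Real.rpow_one _).trans_le (le_split hp1 this (not_le.1 h).le)
  have hs' : ∀ n, ∃ s : Fin (2 * ⌈R / τ ^ p⌉₊ + 1) → M,
      ∀ x ∈ (bd (A n)).support, x ∈ Set.range s := fun n =>
    ⟨fun i => if h : i.1 < _ then ((bd (A n)).support.equivFin.symm ⟨i, h⟩).1 else o, fun x hx =>
      ⟨⟨(bd (A n)).support.equivFin ⟨x, hx⟩, by
        have := ((bd (A n)).support.equivFin ⟨x, hx⟩).2
        have := card_bd (A n)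
        have := hA' n
        omega⟩, by simp⟩⟩
  choose s hs' using hs'
  have one : ∀ n L f, 0 ≤ L → Lip L f → |linearCombination ℝ f (bd (B n))| ≤ L * (θ / 2000) :=
    fun n L f a b => le_trans (by simpa using b.pair one_pos le_rfl a (B n))
      (mul_le_mul_of_nonneg_left (hB n) a)
  refine ⟨(θ / 16) ^ p / 2 / (2 * 18 ^ p), by positivity, fun k => ?_⟩
  obtain ⟨J, f, j1, j2, j3, j4⟩ := bumps s (fun n => bd (A n)) o hs' (half_pos hθ)
    (Real.rpow_pos_of_pos hR0 p⁻¹) (fun n L f a b => by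
      rw [← Real.rpow_le_rpow_iff (abs_nonneg _) (by positivity) hp, Real.mul_rpow a
        (by positivity), Real.rpow_inv_rpow hR0.le hp.ne']
      exact (b.pair hp hp1.le a _).trans (mul_le_mul_of_nonneg_left (hA n) (by positivity)))
    (fun a b hab => by
      obtain ⟨f, f1, f2⟩ := hs a b hab
      refine ⟨f - fun _ => f o,
        fun x y => by simp only [Pi.sub_apply]; linarith [f1 x y], by simp, ?_⟩
      have x := abs_le.1 (one a 1 f zero_le_one f1)
      have y := abs_le.1 (one b 1 f zero_le_one f1)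
      simp only [lc_sub, bd_const, sub_zero, hAB a, hAB b, map_sub, map_add] at f2 ⊢
      by_contra hc
      have z := abs_le.1 (not_lt.1 hc)
      exact f2.not_ge (abs_le.2 ⟨by linarith, by linarith⟩)) k
  refine ⟨J, j1, fun w hw => ?_⟩
  have d1 := disj hp hp1.le J (by norm_num) j2 j3 w
  have d2 := disj one_pos le_rfl J (by norm_num) j2 j3 (∑ i ∈ J, B i)
  have d3 : cost 1 (∑ i ∈ J, B i) ≤ k * (θ / 2000) :=
    (cst_sum one_pos le_rfl (fun _ => by positivity) J B).trans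
      ((sum_le_card_nsmul _ _ _ fun i _ => hB i).trans (by rw [j1, nsmul_eq_mul]))
  simp only [Real.rpow_one] at d2
  have d4 : ∑ j ∈ J, (θ / 16) ^ p * (1 - 16 / θ * |linearCombination ℝ (f j) (bd (∑ i ∈ J, B i))|)
      ≤ ∑ j ∈ J, |linearCombination ℝ (f j) (bd w)| ^ p := sum_le_sum fun j hj => by
    have a := j4 j hj
    have b : linearCombination ℝ (f j) (∑ i ∈ J, bd (A i)) = linearCombination ℝ (f j) (bd w) -
        linearCombination ℝ (f j) (bd (∑ i ∈ J, B i)) := by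
      simp only [hw, hAB, sum_add_distrib, map_add, map_sum, add_sub_cancel_right]
    have c := b ▸ a |>.trans_le (abs_sub _ _)
    generalize linearCombination ℝ (f j) (bd (∑ i ∈ J, B i)) = e at c
    rcases le_total |e| (θ / 16) with h | h
    · exact (mul_le_of_le_one_right (by positivity) (sub_le_self _ (by positivity))).trans
        (Real.rpow_le_rpow (by positivity) (by linarith) hp.le)
    · refine le_trans (mul_nonpos_of_nonneg_of_nonpos (by positivity) ?_) (by positivity)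
      rw [sub_nonpos, div_mul_eq_mul_div, le_div_iff₀ hθ]
      linarith
  rw [← mul_sum, sum_sub_distrib, ← mul_sum, sum_const, j1, nsmul_eq_mul, mul_one] at d4
  have d5 : 16 / θ * ∑ j ∈ J, |linearCombination ℝ (f j) (bd (∑ i ∈ J, B i))| ≤ k / 2 := by
    rw [div_mul_eq_mul_div, div_le_iff₀ hθ]
    nlinarith [mul_nonneg (Nat.cast_nonneg (α := ℝ) k) hθ.le]
  rw [div_mul_eq_mul_div, div_le_iff₀' (by positivity)]
  nlinarith [mul_le_mul_of_nonneg_left d5 (show 0 ≤ (θ / 16) ^ p by positivity)]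

variable {F X : Type} [NormedAddCommGroup F] [Module ℝ F] {ι : (M →₀ ℝ) →ₗ[ℝ] F}
  [NormedAddCommGroup X] [NormedSpace ℝ X]

lemma grow (hp1 : p < 1) {c C : ℝ} (hc : 0 < c) : ∃ k : ℕ, C * (k : ℝ) ^ p + C < c * k := by
  have h1 := (tendsto_rpow_neg_atTop (sub_pos.2 hp1)).comp tendsto_natCast_atTop_atTop
  have h2 := (h1.const_mul C).add (tendsto_const_div_atTop_nhds_zero_nat C)
  obtain ⟨k, k1, k2⟩ := ((h2.eventually_lt_const (by simpa using hc)).and
    (eventually_gt_atTop 0)).exists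
  have k3 : (0 : ℝ) < k := Nat.cast_pos.2 k2
  refine ⟨k, lt_of_eq_of_lt ?_ (mul_lt_mul_of_pos_right k1 k3)⟩
  simp only [Function.comp, neg_sub, Real.rpow_sub_one k3.ne']
  field_simp

theorem FI.finite (h : FI p ι) (hd : ∀ z : F, ∀ ε > 0, ∃ u, ‖z - ι (bd u)‖ < ε) (T : X →ₗ[ℝ] F)
    {c C : ℝ} (hc : 0 < c) (h1 : ∀ x, c * ‖x‖ ^ p ≤ ‖T x‖) (h2 : ∀ x, ‖T x‖ ≤ C * ‖x‖ ^ p) :
    FiniteDimensional ℝ X := by
  by_contra hX
  have p0 := h.p0
  obtain ⟨R, x, R0, x1, x2⟩ := exists_seq_norm_le_one_le_norm_sub hX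
  replace R0 : 0 < R := by linarith
  have C0 : 0 ≤ C := by
    have := (norm_nonneg _).trans (h2 (x 0 - x 1))
    have := x2 (show 0 ≠ 1 by simp)
    exact nonneg_of_mul_nonneg_left ‹_› (Real.rpow_pos_of_pos (by linarith) p)
  have hu : ∀ n : ℕ, ∃ u, ‖T (x n) - ι (bd u)‖ < c / 8 / 2 / 2 ^ n ∧
      Nb.cost p u ≤ ‖ι (bd u)‖ + 1 := fun n => by
    obtain ⟨u, hu⟩ := hd (T (x n)) (c / 8 / 2 / 2 ^ n) (by positivity)
    obtain ⟨w, a, b⟩ := h.opt u 1 one_pos
    exact ⟨w, a ▸ hu, a ▸ b⟩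
  choose u u1 u2 using hu
  have u3 : ∀ J : Finset ℕ, ∑ n ∈ J, ‖T (x n) - ι (bd (u n))‖ ≤ c / 8 := fun J =>
    (sum_le_sum fun n _ => (u1 n).le).trans
      (sum_le_hasSum J (fun _ _ => by positivity) (hasSum_geometric_two' _))
  have u4 : ∀ n, ‖T (x n) - ι (bd (u n))‖ ≤ c / 8 := fun n => by simpa using u3 {n}
  have bT : ∀ (y : X) (k : ℝ), 0 ≤ k → ‖y‖ ≤ k * R → ‖T y‖ ≤ C * R ^ p * k ^ p := fun y k a b => by
    rw [mul_assoc, ← Real.mul_rpow R0.le a, mul_comm R]
    exact (h2 y).trans (mul_le_mul_of_nonneg_left (Real.rpow_le_rpow (norm_nonneg _) b p0.le) C0)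
  have u5 : ∀ n, ‖ι (bd (u n))‖ ≤ C * R ^ p + c / 8 := fun n => by
    have := bT (x n) 1 zero_le_one (by simpa using x1 n)
    rw [Real.one_rpow, mul_one] at this
    linarith [norm_le_insert (T (x n)) (ι (bd (u n))), u4 n]
  by_cases H : ∀ θ > 0, ∃ a b, a ≠ b ∧
      ∀ f, Lip 1 f → |linearCombination ℝ f (bd (u a - u b))| ≤ θ
  · have : ∀ k : ℕ, ∃ y w, ‖y‖ ≤ 2 * k * R ∧ ‖T y - ι (bd w)‖ ≤ k * (c / 4) ∧
        k * (c / 2 + c / 8) ≤ ‖ι (bd w)‖ := by
      intro k
      induction k with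
      | zero => exact ⟨0, 0, by simp⟩
      | succ k ih =>
        obtain ⟨y, w, a1, a2, a3⟩ := ih
        obtain ⟨θ, t1, t2⟩ := h.add w (R := 2 * (C * R ^ p + c / 8)) (ε := c / 72) (by positivity)
          (by positivity)
        obtain ⟨a, b, hab, t3⟩ := H θ t1
        have t4 := t2 _ (by
          rw [map_sub, map_sub]
          linarith [norm_sub_le (ι (bd (u a))) (ι (bd (u b))), u5 a, u5 b]) t3
        have t5 : ‖T (x a - x b) - ι (bd (u a - u b))‖ ≤ c / 4 := by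
          rw [map_sub, map_sub, map_sub, sub_sub_sub_comm]
          linarith [norm_sub_le (T (x a) - ι (bd (u a))) (T (x b) - ι (bd (u b))), u4 a, u4 b]
        have t6 := (le_mul_of_one_le_right hc.le (Real.one_le_rpow (x2 hab) p0.le)).trans
          (h1 (x a - x b))
        refine ⟨y + (x a - x b), w + (u a - u b), ?_, ?_, ?_⟩ <;> push_cast
        · linarith [norm_add_le y (x a - x b), norm_sub_le (x a) (x b), x1 a, x1 b]
        · rw [map_add, map_add, map_add, add_sub_add_comm]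
          linarith [norm_add_le (T y - ι (bd w)) (T (x a - x b) - ι (bd (u a - u b)))]
        · linarith [norm_le_insert' (T (x a - x b)) (ι (bd (u a - u b)))]
    obtain ⟨k, hk⟩ := grow h.p1 (c := c / 4) (C := C * R ^ p * 2 ^ p) (by positivity)
    obtain ⟨y, w, a1, a2, a3⟩ := this k
    have := bT y (2 * k) (by positivity) a1
    rw [Real.mul_rpow zero_le_two k.cast_nonneg] at this
    nlinarith [norm_le_insert (T y) (ι (bd w)), show 0 ≤ C * R ^ p * 2 ^ p by positivity,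
      mul_nonneg (Nat.cast_nonneg (α := ℝ) k) hc.le]
  · push Not at H
    obtain ⟨θ, t1, t2⟩ := H
    obtain ⟨e, e0, he⟩ := sep p0 h.p1 u (R := C * R ^ p + c / 8 + 1) t1 (by positivity)
      (fun n => by linarith [u2 n, u5 n]) t2
    obtain ⟨k, hk⟩ := grow h.p1 (C := C * R ^ p + c / 8 + 1) e0
    obtain ⟨J, j1, j2⟩ := he k
    obtain ⟨w, w1, w2⟩ := h.opt (∑ i ∈ J, u i) 1 one_pos
    have a := bT (∑ i ∈ J, x i) k k.cast_nonneg ((norm_sum_le _ _).trans
      ((sum_le_card_nsmul _ _ _ fun i _ => x1 i).trans (by rw [j1, nsmul_eq_mul])))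
    have b : ‖T (∑ i ∈ J, x i) - ι (bd (∑ i ∈ J, u i))‖ ≤ c / 8 := by
      rw [map_sum, map_sum, map_sum, ← sum_sub_distrib]
      exact (norm_sum_le _ _).trans (u3 J)
    nlinarith [norm_le_insert (T (∑ i ∈ J, x i)) (ι (bd (∑ i ∈ J, u i))), j2 w w1,
      show 0 ≤ C * R ^ p by positivity, show 0 ≤ (c / 8 + 1) * (k : ℝ) ^ p by positivity]

end Pool.Agent.H88.Nb
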