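import Mathlib
import Pool.Agent.H88.Lz1
import Pool.Agent.H88.Nb4

/-! Infinite-dimensional subspaces of `ℓ_{1,q}` are not `p`-convex for `p > q`. -/

namespace Pool.Agent.H88.Lz

open Pool.Agent.H88.Nb Pool.Agent.H88.Fp Finset Filter Topology
open Finsupp hiding sum_le_sum sum_nonneg mul_sum sum_comm sum_congr sum_mul

variable {q : ℝ} {X : Type} [NormedAddCommGroup X] [Module ℝ X]

lemma small (hq : 0 < q) (ps : PS ℝ q X) (c : ℕ → X →ₗ[ℝ] ℝ)
    (hc : ∀ (A : Finset ℕ) y, ∑ n ∈ A, |c n y| ≤ ‖y‖ ^ q⁻¹) (Y : Submodule ℝ X)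
    (hY : ¬FiniteDimensional ℝ Y) {η : ℝ} (hη : 0 < η) (hη1 : η ≤ 1) :
    ∃ y ∈ Y, ‖y‖ = 1 ∧ ∀ n, |c n y| ≤ η := by
  by_contra H
  push Not at H
  have nz : ∀ y : X, y ≠ 0 → ‖(‖y‖ ^ q⁻¹)⁻¹ • y‖ = 1 := fun y hy => by
    rw [ps, Real.norm_of_nonneg (by positivity), Real.inv_rpow (by positivity),
      Real.rpow_inv_rpow (norm_nonneg _) hq.ne', inv_mul_cancel₀ (norm_ne_zero_iff.2 hy)]
  have : ∀ m : ℕ, ∃ y ∈ Y, (∀ n, |c n y| ≤ 2) ∧ ∃ A : Finset ℕ, m * (η / 2) ≤ ∑ n ∈ A, |c n y| := by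
    intro m
    induction m with
    | zero => exact ⟨0, Y.zero_mem, by simp, ∅, by simp⟩
    | succ m ih =>
      obtain ⟨y, y1, y2, A, y3⟩ := ih
      have f : {n | η / 2 < |c n y|}.Finite := by
        by_contra f
        obtain ⟨B, b1, b2⟩ := Set.Infinite.exists_subset_card_eq f ⌈‖y‖ ^ q⁻¹ / (η / 2) + 1⌉₊
        have a := (card_nsmul_le_sum B _ _ fun n hn => (b1 hn).le).trans (hc B y)
        have b := Nat.le_ceil (‖y‖ ^ q⁻¹ / (η / 2) + 1)
        rw [b2, nsmul_eq_mul, ← le_div_iff₀ (by positivity)] at a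
        linarith
      obtain ⟨z, z0, z1⟩ : ∃ z : Y, z ≠ 0 ∧ ∀ n ∈ A ∪ f.toFinset, c n z = 0 := by
        by_contra k
        push Not at k
        refine hY (FiniteDimensional.of_injective (LinearMap.pi fun n : ↥(A ∪ f.toFinset) =>
          c n ∘ₗ Y.subtype) ((injective_iff_map_eq_zero _).2 fun z hz => ?_))
        by_contra z0
        obtain ⟨n, a, b⟩ := k z z0
        exact b (congrFun hz ⟨n, a⟩)
      obtain ⟨u, u1, u2, u3⟩ : ∃ u ∈ Y, ‖u‖ = 1 ∧ ∀ n ∈ A ∪ f.toFinset, c n u = 0 :=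
        ⟨_, Y.smul_mem _ z.2, nz z (by simpa using z0), fun n hn => by simp [z1 n hn]⟩
      obtain ⟨k, hk⟩ := H u u1 u2
      have k1 : k ∉ A ∪ f.toFinset := fun h => by simp [u3 k h, hη.not_gt] at hk
      refine ⟨y + u, Y.add_mem y1 u1, fun n => ?_, insert k A, ?_⟩
      · by_cases h : n ∈ A ∪ f.toFinset
        · simpa [u3 n h] using y2 n
        · have a : |c n u| ≤ 1 := by simpa [u2] using hc {n} u
          have b : |c n y| ≤ η / 2 := by simp_all
          rw [map_add]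
          linarith [abs_add_le (c n y) (c n u)]
      · have b : |c k y| ≤ η / 2 := by simp_all
        rw [sum_insert fun h => k1 (mem_union_left _ h), sum_congr rfl fun n hn => by
          rw [map_add, u3 n (mem_union_left _ hn), add_zero], map_add]
        push_cast
        linarith [abs_sub_abs_le_abs_sub (c k u) (-c k y), abs_neg (c k y),
          show |c k u - -c k y| = |c k y + c k u| by ring_nf]
  obtain ⟨m, hm⟩ := exists_nat_gt (2 / η / (η / 2))
  obtain ⟨y, y1, y2, A, y3⟩ := this m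
  have a := ((div_lt_iff₀ (by positivity)).1 hm).trans_le (y3.trans (hc A y))
  have b : 0 < ‖y‖ ^ q⁻¹ := lt_trans (by positivity) a
  obtain ⟨n, hn⟩ := H _ (Y.smul_mem _ y1) (nz y fun h => by simp [h, hq.ne'] at b)
  rw [map_smul, smul_eq_mul, abs_mul, abs_of_pos (inv_pos.2 b), lt_inv_mul_iff₀ b] at hn
  rw [div_lt_iff₀ hη] at a
  linarith [y2 n]

theorem lorentz (hq : 0 < q) (hq1 : q ≤ 1) :
    ∃ (X : Type) (_ : NormedAddCommGroup X) (_ : Module ℝ X) (e : ℕ → X) (c : ℕ → X →ₗ[ℝ] ℝ),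
      CompleteSpace X ∧ PS ℝ q X ∧ (∀ μ, μ ∈ closure (Submodule.span ℝ (e '' Set.univ) : Set X)) ∧
      (∀ k n, c k (e n) = if k = n then 1 else 0) ∧
      (∀ (A : Finset ℕ) y, ∑ n ∈ A, |c n y| ≤ ‖y‖ ^ q⁻¹) ∧
      (∀ A : Finset ℕ, ‖∑ n ∈ A, e n‖ ≤ 2 * (A.card : ℝ) ^ q) ∧
      ∀ Y : Submodule ℝ X, ¬FiniteDimensional ℝ Y → ∀ P : ℕ → X → Prop, P 0 0 →
        (∀ k y z, P k y → z ∈ Y → ‖z‖ = 1 → P (k + 1) (y + z)) →
        ∀ k, ∃ y, P k y ∧ (k : ℝ) / 4 ≤ ‖y‖ := by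
  obtain ⟨X, _, _, j, h1, h2, h3, h4, h5⟩ := exists_compl (𝕜 := ℝ) (p := q) (D q)
    (by simpa [hq.ne'] using D_smul hq 0 0) (D_add hq hq1) (D_smul hq)
  have l1 : ∀ (A : Finset ℕ) v, ∑ n ∈ A, |v n| ≤ D q v ^ q⁻¹ := fun A v =>
    (Real.le_rpow_inv_iff_of_pos (by positivity) (h4 v ▸ norm_nonneg _) hq).2 (D_l1 hq hq1 v A)
  have ω : Continuous fun t : ℝ => t ^ q⁻¹ := Real.continuous_rpow_const (by positivity)
  choose c c1 c2 using fun n => h5 ℝ (lapply n) (fun t => t ^ q⁻¹) ω (by simp [hq.ne'])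
    fun v => by simpa using l1 {n} v
  have cc : ∀ n, Continuous (c n) := fun n => continuous_of_continuousAt_zero (c n) (by
    rw [ContinuousAt, map_zero]
    exact squeeze_zero_norm (c2 n) (by
      simpa [hq.ne'] using! (ω.comp continuous_norm).tendsto (0 : X)))
  have l2 : ∀ (A : Finset ℕ) y, ∑ n ∈ A, |c n y| ≤ ‖y‖ ^ q⁻¹ := fun A y =>
    h3.induction_on y (isClosed_le (by fun_prop) (ω.comp continuous_norm)) fun v => by
      simpa [c1, h4] using l1 A v
  refine ⟨X, inferInstance, inferInstance, fun n => j (single n 1), c, h1, h2,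
    fun μ => closure_mono ?_ (h3 μ), fun k n => by simp [c1, single_apply, eq_comm], l2,
    fun A => ?_, fun Y hY P p0 p1 k => ?_⟩
  · rintro _ ⟨μ, rfl⟩
    induction μ using Finsupp.induction_linear with
    | zero => simp
    | add a b ha hb => exact map_add j a b ▸ add_mem ha hb
    | single e a =>
      rw [← smul_single_one, map_smul]
      exact Submodule.smul_mem _ _ (Submodule.subset_span ⟨_, trivial, rfl⟩)
  · rw [← map_sum, h4]
    have e : ∀ n, (∑ n ∈ A, single n (1 : ℝ)) n = if n ∈ A then 1 else 0 := fun n => by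
      simp [single_apply]
    simpa using D_sup hq hq1 (A := A) (η := 1) (fun n hn => by
      simpa [e] using mem_support_iff.1 hn) fun n => by rw [e]; split_ifs <;> simp
  have : ∃ y x, P k y ∧ ‖y - j x‖ ≤ k / 8 ∧ k / 4 + k / 8 ≤ D q x := by
    induction k with
    | zero => exact ⟨0, 0, p0, by simp, by simp [← h4]⟩
    | succ k ih =>
      obtain ⟨y, x, a1, a2, a3⟩ := ih
      obtain ⟨η, e0, he⟩ := D_cut hq hq1 x (ε := 1 / 8) (by norm_num)
      obtain ⟨z, z1, z2, z3⟩ := small hq h2 c l2 Y hY (η := min (η / 2) 1) (by positivity)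
        (min_le_right _ _)
      obtain ⟨v, hv⟩ := h3.exists_dist_lt z (show 0 < min (1 / 8) ((η / 2) ^ q) by positivity)
      rw [dist_eq_norm, lt_min_iff] at hv
      have := he v fun n => by
        have a := (c2 n _).trans ((Real.rpow_inv_le_iff_of_pos (norm_nonneg _) (by positivity) hq).2
          hv.2.le)
        rw [map_sub, c1, lapply_apply] at a
        linarith [(z3 n).trans (min_le_left _ _), abs_sub_abs_le_abs_sub (v n) (c n z),
          (abs_sub_comm _ _).trans_le a]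
      refine ⟨y + z, x + v, p1 k y z a1 z1 z2, ?_, ?_⟩ <;> push_cast
      · rw [map_add, add_sub_add_comm]
        linarith [norm_add_le (y - j x) (z - j v)]
      · linarith [norm_le_insert' z (j v), h4 v]
  obtain ⟨y, x, a1, a2, a3⟩ := this
  exact ⟨y, a1, by linarith [norm_le_insert y (j x), h4 x]⟩

end Pool.Agent.H88.Lz
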