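import Pool.Agent.H88.Wright3

set_option autoImplicit false

namespace Pool.Agent.H88.MSeq

open Filter Topology Finset Polynomial

/-- The polynomial with coefficients `c k`, `k < N`. -/
noncomputable def mk (N : ℕ) (c : ℕ → ℝ) : ℝ[X] := ∑ k ∈ range N, monomial k (c k)

theorem coeff_mk (N : ℕ) (c : ℕ → ℝ) (k : ℕ) : (mk N c).coeff k = if k < N then c k else 0 := by
  simp [mk, coeff_monomial]

theorem natDegree_mk (n : ℕ) (c : ℕ → ℝ) : (mk (n + 1) c).natDegree ≤ n := by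
  rw [natDegree_le_iff_coeff_eq_zero]
  intro k hk
  rw [coeff_mk, if_neg (by omega)]

theorem aeval_mk (N : ℕ) (c : ℕ → ℝ) (z : ℂ) :
    aeval z (mk N c) = ∑ k ∈ range N, (c k : ℂ) * z ^ k := by
  simp [mk, aeval_monomial]

theorem eval_mk (N : ℕ) (c : ℕ → ℝ) (x : ℝ) :
    eval x (mk N c) = ∑ k ∈ range N, c k * x ^ k := by
  simp [mk, eval_finsetSum]

/-- All complex zeros are real and negative. -/
def Neg (P : ℝ[X]) : Prop := ∀ z : ℂ, aeval z P = 0 → z.im = 0 ∧ z.re < 0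

theorem alt (P : ℝ[X]) (n : ℕ) (hd : P.natDegree ≤ n) (x : ℕ → ℝ)
    (hx : ∀ i j, j ≤ n → i < j → x j < x i) (h0 : x 0 ≤ 0)
    (hs : ∀ j ≤ n, 0 < (-1) ^ j * P.eval (x j)) : Neg P := by
  classical
  have hy : ∀ j, ∃ y, j < n → (x (j + 1) < y ∧ y < x j ∧ P.eval y = 0) := by
    intro j
    by_cases hj : j < n
    swap
    · exact ⟨0, fun h => absurd h hj⟩
    have h1 := hs j hj.le
    have h2 := hs (j + 1) hj
    have h3 := hx j (j + 1) hj (Nat.lt_succ_self _)
    have hc : ContinuousOn (fun y => (-1:ℝ) ^ j * P.eval y) (Set.Icc (x (j + 1)) (x j)) :=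
      (continuous_const.mul P.continuous).continuousOn
    have h4 : (-1:ℝ) ^ j * P.eval (x (j + 1)) < 0 := by rw [pow_succ] at h2; linarith
    obtain ⟨y, hy1, hy2⟩ := intermediate_value_Ioo h3.le hc ⟨h4, h1⟩
    refine ⟨y, fun _ => ⟨hy1.1, hy1.2, ?_⟩⟩
    simpa using hy2
  choose y hy using hy
  have hP : P ≠ 0 := by
    intro h; have := hs 0 (Nat.zero_le _); simp [h] at this
  have hlt : ∀ i j, j < n → i < j → y j < y i := by
    intro i j hj hij
    have h1 := (hy j hj).2.1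
    have h2 := (hy i (hij.trans hj)).1
    rcases Nat.lt_or_eq_of_le (Nat.succ_le_of_lt hij) with h | h
    · have := hx (i + 1) j hj.le h; linarith
    · have h' : i + 1 = j := h
      rw [h'] at h2; linarith
  have hinj : Set.InjOn (fun j => ((y j : ℝ) : ℂ)) (range n : Set ℕ) := by
    intro i hi j hj hij
    have hi' : i < n := by simpa using hi
    have hj' : j < n := by simpa using hj
    have e : y i = y j := Complex.ofReal_injective hij
    rcases lt_trichotomy i j with h | h | h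
    · exact absurd e (hlt i j hj' h).ne'
    · exact h
    · exact absurd e (hlt j i hi' h).ne
  intro z hz
  have hPc : P.map (algebraMap ℝ ℂ) ≠ 0 := by simpa using hP
  by_cases hmem : z ∈ (range n).image (fun j => ((y j : ℝ) : ℂ))
  · obtain ⟨j, hj, rfl⟩ := mem_image.1 hmem
    have hj' := mem_range.1 hj
    refine ⟨by simp, ?_⟩
    have h1 := (hy j hj').2.1
    rcases Nat.eq_zero_or_pos j with h | h
    · rw [h] at h1; simp only [Complex.ofReal_re, h]; linarith
    · have := hx 0 j hj'.le h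
      simp only [Complex.ofReal_re]; linarith
  · exfalso
    have hsub : (insert z ((range n).image (fun j => ((y j : ℝ) : ℂ)))).val ⊆
        (P.map (algebraMap ℝ ℂ)).roots := by
      intro w hw
      rw [mem_roots hPc, IsRoot, eval_map_algebraMap]
      rw [Finset.mem_val] at hw
      rcases mem_insert.1 hw with rfl | hw
      · exact hz
      · obtain ⟨j, hj, rfl⟩ := mem_image.1 hw
        have := (hy j (mem_range.1 hj)).2.2
        have e : ((y j : ℝ) : ℂ) = algebraMap ℝ ℂ (y j) := rfl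
        rw [e, aeval_algebraMap_apply, coe_aeval_eq_eval, this, map_zero]
    have h1 := card_le_degree_of_subset_roots hsub
    rw [card_insert_of_notMem hmem, card_image_of_injOn hinj, card_range,
      natDegree_map_eq_of_injective (algebraMap ℝ ℂ).injective] at h1
    omega

/-- Taylor coefficients of the rescaled Chebyshev polynomial. -/
noncomputable def tc (n k : ℕ) : ℝ :=
  (∏ l ∈ range k, (1 - (l:ℝ) ^ 2 / (n:ℝ) ^ 2)) / ((2 * k).factorial : ℝ)

theorem odd_prod (k : ℕ) : ((∏ l ∈ range k, (2 * l + 1) : ℕ) : ℝ) * k.factorial * 2 ^ k =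
    (2 * k).factorial := by
  induction k with
  | zero => simp
  | succ k ih =>
    rw [prod_range_succ, show 2 * (k + 1) = 2 * k + 1 + 1 by ring, Nat.factorial_succ,
      Nat.factorial_succ (2 * k + 1), Nat.factorial_succ (2 * k)]
    push_cast at ih ⊢
    rw [← ih]; ring

theorem cheb_eval (n : ℕ) (hn : 0 < n) (x : ℝ) :
    (Chebyshev.T ℝ n).eval (1 + x / (2 * (n:ℝ) ^ 2)) = ∑ k ∈ range (n + 1), tc n k * x ^ k := by
  have hn' : (n:ℝ) ≠ 0 := by positivity
  rw [add_comm, ← taylor_eval, eval_eq_sum_range' (n := n + 1)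
    (by rw [natDegree_taylor, Chebyshev.natDegree_T]; simp)]
  refine sum_congr rfl (fun k _ => ?_)
  have h1 : (k.factorial : ℝ) * (hasseDeriv k (Chebyshev.T ℝ n)).eval 1 =
      (derivative^[k] (Chebyshev.T ℝ n)).eval 1 := by
    rw [← factorial_smul_hasseDeriv]; simp
  have h2 := Chebyshev.iterate_derivative_T_eval_one (R := ℝ) n k
  have h3 := odd_prod k
  have h4 : ∏ l ∈ range k, (1 - (l:ℝ) ^ 2 / (n:ℝ) ^ 2) =
      (∏ l ∈ range k, ((n:ℝ) ^ 2 - (l:ℝ) ^ 2)) / ((n:ℝ) ^ 2) ^ k := by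
    have : ((n:ℝ) ^ 2) ^ k = ∏ _l ∈ range k, (n:ℝ) ^ 2 := by simp
    rw [this, ← prod_div_distrib]
    exact prod_congr rfl (fun l _ => by field_simp)
  rw [taylor_coeff, tc, h4, ← h3]
  push_cast at h2 ⊢
  rw [← h2, ← h1]
  have : (0:ℝ) < ∏ l ∈ range k, (2 * (l:ℝ) + 1) := prod_pos (fun l _ => by positivity)
  rw [div_pow, mul_pow]
  field_simp

theorem tc_bound (n k : ℕ) (hn : 0 < n) (hk : k < n + 1) :
    |tc n k| ≤ 1 / ((2 * k).factorial : ℝ) := by
  have hn' : (0:ℝ) < n := by exact_mod_cast hn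
  have h : ∀ l ∈ range k, 0 ≤ 1 - (l:ℝ) ^ 2 / (n:ℝ) ^ 2 := by
    intro l hl
    have : (l:ℝ) ≤ n := by have := mem_range.1 hl; exact_mod_cast (by omega : l ≤ n)
    rw [sub_nonneg, div_le_one (by positivity)]
    gcongr
  rw [tc, abs_div, abs_of_nonneg (prod_nonneg h), Nat.abs_cast]
  refine div_le_div_of_nonneg_right (prod_le_one h (fun l _ => ?_)) (by positivity)
  have : 0 ≤ (l:ℝ) ^ 2 / (n:ℝ) ^ 2 := by positivity
  linarith

theorem tc_lim (k : ℕ) :
    Tendsto (fun n : ℕ => tc (n + 1) k) atTop (𝓝 (1 / ((2 * k).factorial : ℝ))) := by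
  unfold tc
  refine Tendsto.div_const ?_ _
  have : (1:ℝ) = ∏ _l ∈ range k, (1 - 0 : ℝ) := by simp
  rw [this]
  refine tendsto_finsetProd _ (fun l _ => ?_)
  simp only [prod_const, sub_zero, one_pow]
  have h1 : Tendsto (fun n : ℕ => (l:ℝ) ^ 2 / ((n + 1 : ℕ):ℝ) ^ 2) atTop (𝓝 0) := by
    refine tendsto_const_nhds.div_atTop ?_
    exact (tendsto_pow_atTop two_ne_zero).comp
      (tendsto_natCast_atTop_atTop.comp (tendsto_add_atTop_nat 1))
  simpa using h1.const_sub 1

/-- The cone of sequences dominated at the right end point. -/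
def Cone (u : ℕ → ℝ) : Prop :=
  ∀ (N : ℕ) (p : ℕ → ℝ),
    (∀ t ∈ Set.Icc (0:ℝ) 1, |∑ k ∈ range N, p k * t ^ k| ≤ ∑ k ∈ range N, p k) →
    0 ≤ ∑ k ∈ range N, p k * u k

theorem Cone.neg {u : ℕ → ℝ} (hu : Cone u) (n : ℕ) (hn : 0 < n) {ε : ℝ} (hε : 0 < ε) :
    Neg (mk (n + 1) (fun k => tc n k * (u k + ε))) := by
  have hn' : (0:ℝ) < n := by exact_mod_cast hn
  refine alt _ n (natDegree_mk _ _) (fun j => 2 * (n:ℝ) ^ 2 * (Chebyshev.node n j - 1))
    (fun i j hj hij => ?_) (by simp [Chebyshev.node_eq_one]) (fun j hj => ?_)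
  · have := Chebyshev.node_lt hj hij
    have h2 : (0:ℝ) < 2 * (n:ℝ) ^ 2 := by positivity
    nlinarith
  · obtain ⟨x, hx⟩ : ∃ x, x = 2 * (n:ℝ) ^ 2 * (Chebyshev.node n j - 1) := ⟨_, rfl⟩
    rw [← hx, eval_mk]
    have hnode := Chebyshev.node_mem_Icc (n := n) (i := j)
    have e : ∀ t : ℝ, ∑ k ∈ range (n + 1), (-1) ^ j * (tc n k * x ^ k) * t ^ k =
        (-1) ^ j * (Chebyshev.T ℝ n).eval (1 + t * (Chebyshev.node n j - 1)) := by
      intro t
      have : 1 + t * (Chebyshev.node n j - 1) = 1 + (x * t) / (2 * (n:ℝ) ^ 2) := by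
        rw [hx]; field_simp
      rw [this, cheb_eval n hn, mul_sum]
      exact sum_congr rfl (fun k _ => by rw [mul_pow]; ring)
    have e1 : ∑ k ∈ range (n + 1), (-1) ^ j * (tc n k * x ^ k) = 1 := by
      have := e 1
      simp only [one_pow, mul_one, one_mul, add_sub_cancel] at this
      rw [this, Chebyshev.eval_T_real_node (by simpa using hj), ← mul_pow]
      simp
    have h := hu (n + 1) (fun k => (-1) ^ j * (tc n k * x ^ k)) (fun t ht => by
      rw [e, e1, abs_mul, abs_pow, abs_neg, abs_one, one_pow, one_mul]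
      refine Chebyshev.abs_eval_T_real_le_one _ (abs_le.2 ⟨?_, ?_⟩)
      · nlinarith [hnode.1, hnode.2, ht.1, ht.2]
      · nlinarith [hnode.1, hnode.2, ht.1, ht.2])
    have e2 : (-1) ^ j * ∑ k ∈ range (n + 1), tc n k * (u k + ε) * x ^ k =
        ∑ k ∈ range (n + 1), (-1) ^ j * (tc n k * x ^ k) * u k +
          ε * ∑ k ∈ range (n + 1), (-1) ^ j * (tc n k * x ^ k) := by
      rw [mul_sum, mul_sum, ← sum_add_distrib]
      exact sum_congr rfl (fun k _ => by ring)
    rw [e2, e1]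
    linarith

theorem lu (P : ℕ → ℝ[X]) (c B : ℕ → ℝ) (hc : ∀ k, Tendsto (fun n => (P n).coeff k) atTop (𝓝 (c k)))
    (hB : ∀ n k, |(P n).coeff k| ≤ B k) (hs : ∀ R : ℝ, 0 ≤ R → Summable (fun k => B k * R ^ k)) :
    TendstoLocallyUniformly (fun n (z : ℂ) => aeval z (P n))
      (fun z : ℂ => ∑' k : ℕ, ((c k : ℝ) : ℂ) * z ^ k) atTop := by
  have hcB : ∀ k, |c k| ≤ B k := fun k => le_of_tendsto' (hc k).abs (fun n => hB n k)
  rw [Metric.tendstoLocallyUniformly_iff]
  intro ε hε x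
  obtain ⟨R, hR⟩ : ∃ R, R = ‖x‖ + 1 := ⟨_, rfl⟩
  have hR0 : 0 ≤ R := by rw [hR]; positivity
  refine ⟨Metric.ball 0 R, Metric.isOpen_ball.mem_nhds (by simp [hR]), ?_⟩
  have hb : ∀ n k, |c k - (P n).coeff k| * R ^ k ≤ 2 * (B k * R ^ k) := by
    intro n k
    have h1 := abs_sub (c k) ((P n).coeff k)
    have h2 := hB n k
    have h3 := hcB k
    have : 0 ≤ R ^ k := by positivity
    nlinarith
  have h1 : Tendsto (fun n => ∑' k, |c k - (P n).coeff k| * R ^ k) atTop (𝓝 (∑' _k : ℕ, (0:ℝ))) := by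
    refine tendsto_tsum_of_dominated_convergence ((hs R hR0).mul_left 2) (fun k => ?_)
      (Eventually.of_forall (fun n k => ?_))
    · have := ((hc k).const_sub (c k)).abs.mul_const (R ^ k)
      simpa using this
    · rw [Real.norm_eq_abs, abs_of_nonneg (by positivity)]; exact hb n k
  rw [tsum_zero] at h1
  filter_upwards [h1.eventually (gt_mem_nhds hε)] with n hn y hy
  have hy' : ‖y‖ ≤ R := by simpa using (mem_ball_zero_iff.1 hy).le
  have s0 : ∀ d : ℕ → ℝ, (∀ k, |d k| ≤ B k) → Summable (fun k => ((d k : ℝ) : ℂ) * y ^ k) := by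
    intro d hd
    refine Summable.of_norm_bounded (hs R hR0) (fun k => ?_)
    rw [norm_mul, norm_pow, Complex.norm_real, Real.norm_eq_abs]
    exact mul_le_mul (hd k) (pow_le_pow_left₀ (norm_nonneg _) hy' k) (by positivity)
      ((abs_nonneg _).trans (hd k))
  have e : aeval y (P n) = ∑' k, (((P n).coeff k : ℝ) : ℂ) * y ^ k := by
    rw [aeval_eq_sum_range, tsum_eq_sum (s := range ((P n).natDegree + 1))]
    · simp
    · intro k hk
      rw [coeff_eq_zero_of_natDegree_lt (by simpa using hk)]; simp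
  rw [dist_eq_norm, e, ← (s0 c hcB).tsum_sub (s0 _ (hB n))]
  refine lt_of_le_of_lt (tsum_of_norm_bounded
    (Summable.of_nonneg_of_le (fun k => by positivity) (hb n) ((hs R hR0).mul_left 2)).hasSum
    (fun k => ?_)) hn
  rw [← sub_mul, norm_mul, norm_pow, ← Complex.ofReal_sub, Complex.norm_real, Real.norm_eq_abs]
  exact mul_le_mul_of_nonneg_left (pow_le_pow_left₀ (norm_nonneg _) hy' k) (abs_nonneg _)

/-- The approximating polynomials attached to a sequence in the cone, with scaling. -/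
noncomputable def appr (u : ℕ → ℝ) (ρ : ℝ) (n : ℕ) : ℝ[X] :=
  mk (n + 2) (fun k => tc (n + 1) k * (u k + 1 / ((n:ℝ) + 1)) * ρ ^ k)

theorem appr_neg {u : ℕ → ℝ} (hu : Cone u) {ρ : ℝ} (hρ : 0 < ρ) (n : ℕ) : Neg (appr u ρ n) := by
  intro z hz
  have h := hu.neg (n + 1) (Nat.succ_pos _) (ε := 1 / ((n:ℝ) + 1)) (by positivity) (ρ * z) (by
    rw [← hz, appr, aeval_mk, aeval_mk]
    refine sum_congr rfl (fun k _ => ?_)
    rw [mul_pow]; push_cast; ring)
  simp only [Complex.mul_im, Complex.ofReal_re, Complex.ofReal_im, zero_mul, add_zero,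
    Complex.mul_re, sub_zero] at h
  refine ⟨(mul_eq_zero.1 h.1).resolve_left hρ.ne', ?_⟩
  by_contra h2
  exact absurd h.2 (not_lt.2 (mul_nonneg hρ.le (not_lt.1 h2)))

theorem appr_lim (u : ℕ → ℝ) (ρ : ℝ) (k : ℕ) : Tendsto (fun n => (appr u ρ n).coeff k) atTop
    (𝓝 (u k * ρ ^ k / ((2 * k).factorial : ℝ))) := by
  have h := ((tc_lim k).mul
    ((tendsto_one_div_add_atTop_nhds_zero_nat (𝕜 := ℝ)).const_add (u k))).mul_const (ρ ^ k)
  have e : 1 / ((2 * k).factorial : ℝ) * (u k + 0) * ρ ^ k =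
      u k * ρ ^ k / ((2 * k).factorial : ℝ) := by ring
  rw [e] at h
  refine h.congr' ?_
  filter_upwards [eventually_ge_atTop k] with n hn
  rw [appr, coeff_mk, if_pos (by omega)]

theorem appr_bound (u : ℕ → ℝ) {ρ : ℝ} (hρ : 0 < ρ) (n k : ℕ) :
    |(appr u ρ n).coeff k| ≤ (|u k| + 1) * ρ ^ k / ((2 * k).factorial : ℝ) := by
  rw [appr, coeff_mk]
  split_ifs with h
  · rw [abs_mul, abs_mul, abs_of_pos (pow_pos hρ k)]
    have h1 := tc_bound (n + 1) k (Nat.succ_pos _) h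
    have h2 : |u k + 1 / ((n:ℝ) + 1)| ≤ |u k| + 1 := by
      refine (abs_add_le _ _).trans ?_
      rw [abs_of_pos (by positivity : 0 < 1 / ((n:ℝ) + 1))]
      have : 1 / ((n:ℝ) + 1) ≤ 1 := by
        rw [div_le_one (by positivity)]; have : (0:ℝ) ≤ n := Nat.cast_nonneg n; linarith
      linarith
    calc _ ≤ 1 / ((2 * k).factorial : ℝ) * (|u k| + 1) * ρ ^ k := by gcongr
      _ = _ := by ring
  · simp only [abs_zero]; positivity

end Pool.Agent.H88.MSeq
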