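import Pool.Agent.H88.MSeq1

set_option autoImplicit false

namespace Pool.Agent.H88.MSeq

open Filter Topology Finset MeasureTheory

noncomputable def Ψ (a : ℝ) : ℝ := a / √(Real.exp (a ^ 2) - 1)

theorem E_pos {a : ℝ} (ha : 0 < a) : 0 < Real.exp (a ^ 2) - 1 := by
  have := Real.add_one_le_exp (a ^ 2)
  have : 0 < a ^ 2 := by positivity
  linarith

theorem Ψ_pos {a : ℝ} (ha : 0 < a) : 0 < Ψ a := div_pos ha (Real.sqrt_pos.2 (E_pos ha))

theorem Ψ_le {a : ℝ} (ha : 0 < a) : Ψ a ≤ 1 := by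
  rw [Ψ, div_le_one (Real.sqrt_pos.2 (E_pos ha))]
  refine Real.le_sqrt_of_sq_le ?_
  have := Real.add_one_le_exp (a ^ 2)
  linarith

theorem Ψ_meas : Measurable Ψ := by unfold Ψ; fun_prop

theorem sq_deriv {a : ℝ} (ha : 0 < a) : HasDerivAt (fun a : ℝ => √(Real.exp (a ^ 2) - 1))
    (Real.exp (a ^ 2) * Ψ a) a := by
  have h1 : HasDerivAt (fun a : ℝ => Real.exp (a ^ 2) - 1) (Real.exp (a ^ 2) * (2 * a)) a := by
    have := ((hasDerivAt_pow 2 a).exp).sub_const 1
    simpa using this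
  have h2 := h1.sqrt (E_pos ha).ne'
  convert h2 using 1
  unfold Ψ
  have := Real.sqrt_pos.2 (E_pos ha)
  field_simp

noncomputable def Ψ' (a : ℝ) : ℝ :=
  (√(Real.exp (a ^ 2) - 1) - a * (Real.exp (a ^ 2) * Ψ a)) / √(Real.exp (a ^ 2) - 1) ^ 2

theorem Ψ_deriv {a : ℝ} (ha : 0 < a) : HasDerivAt Ψ (Ψ' a) a := by
  have h := (hasDerivAt_id a).div (sq_deriv ha) (Real.sqrt_pos.2 (E_pos ha)).ne'
  refine h.congr_deriv ?_
  simp [Ψ']

theorem Ψ'_nonpos {a : ℝ} (ha : 0 < a) : Ψ' a ≤ 0 := by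
  have hs := Real.sqrt_pos.2 (E_pos ha)
  refine div_nonpos_of_nonpos_of_nonneg ?_ (by positivity)
  have h1 : √(Real.exp (a ^ 2) - 1) * √(Real.exp (a ^ 2) - 1) = Real.exp (a ^ 2) - 1 :=
    Real.mul_self_sqrt (E_pos ha).le
  have h2 : (1 - a ^ 2) * Real.exp (a ^ 2) ≤ 1 := by
    have h3 := Real.add_one_le_exp (-a ^ 2)
    have h4 : Real.exp (-a ^ 2) * Real.exp (a ^ 2) = 1 := by rw [← Real.exp_add]; simp
    have h5 := Real.exp_pos (a ^ 2)
    nlinarith
  rw [sub_nonpos, Ψ, ← mul_div_assoc, ← mul_div_assoc, le_div_iff₀ hs, h1]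
  nlinarith

theorem Ψ_cont : ContinuousOn Ψ (Set.Ioi 0) :=
  fun _ ha => (Ψ_deriv ha).continuousAt.continuousWithinAt

theorem Ψ'_cont : ContinuousOn Ψ' (Set.Ioi 0) := by
  unfold Ψ'
  refine ContinuousOn.div (ContinuousOn.sub (by fun_prop)
    (continuousOn_id.mul (ContinuousOn.mul (by fun_prop) Ψ_cont))) (by fun_prop) (fun a ha => ?_)
  exact pow_ne_zero _ (Real.sqrt_pos.2 (E_pos ha)).ne'

theorem int_mul {f : ℝ → ℝ} (hf : IntegrableOn f (Set.Ioi 0)) :
    IntegrableOn (fun a => f a * Ψ a) (Set.Ioi 0) := by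
  refine Integrable.mono' hf.norm (hf.aestronglyMeasurable.mul Ψ_meas.aestronglyMeasurable) ?_
  filter_upwards [ae_restrict_mem measurableSet_Ioi] with a ha
  rw [norm_mul, Real.norm_eq_abs (Ψ a), abs_of_pos (Ψ_pos ha)]
  exact mul_le_of_le_one_right (norm_nonneg _) (Ψ_le ha)

theorem parts {G G' : ℝ → ℝ} (hG : ∀ a, HasDerivAt G (G' a) a) (hc : Continuous G')
    (h0 : G 0 = 0) (hp : ∀ a, 0 ≤ G a) (hi : IntegrableOn G' (Set.Ioi 0)) :
    0 ≤ ∫ a in Set.Ioi 0, G' a * Ψ a := by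
  have hi2 := int_mul hi
  have hGc : Continuous G := continuous_iff_continuousAt.2 (fun a => (hG a).continuousAt)
  have hII : ∀ s t : ℝ, 0 ≤ s → s ≤ t → IntervalIntegrable (fun a => G' a * Ψ a) volume s t :=
    fun s t hs hst => (intervalIntegrable_iff_integrableOn_Ioc_of_le hst).2
      (hi2.mono_set (fun x hx => lt_of_le_of_lt hs hx.1))
  refine ge_of_tendsto (intervalIntegral_tendsto_integral_Ioi 0 hi2 tendsto_id) ?_
  filter_upwards [eventually_gt_atTop 0] with R hR
  have key : ∀ ε, 0 < ε → ε < R →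
      -(∫ a in (0:ℝ)..ε, |G' a|) - G ε ≤ ∫ a in (0:ℝ)..R, G' a * Ψ a := by
    intro ε hε hεR
    have hsub : Set.uIcc ε R ⊆ Set.Ioi 0 := by
      rw [Set.uIcc_of_le hεR.le]; exact fun x hx => lt_of_lt_of_le hε hx.1
    have h1 := intervalIntegral.integral_mul_deriv_eq_deriv_mul (a := ε) (b := R)
      (u := G) (u' := G') (v := Ψ) (v' := Ψ') (fun x _ => hG x) (fun x hx => Ψ_deriv (hsub hx))
      (hc.intervalIntegrable _ _) ((Ψ'_cont.mono hsub).intervalIntegrable)
    have h2 : ∫ x in ε..R, G x * Ψ' x ≤ 0 := by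
      have := intervalIntegral.integral_nonneg (μ := volume) (f := fun x => -(G x * Ψ' x)) hεR.le
        (fun x hx => by
          have := mul_nonpos_of_nonneg_of_nonpos (hp x) (Ψ'_nonpos (lt_of_lt_of_le hε hx.1))
          linarith)
      rw [intervalIntegral.integral_neg] at this
      linarith
    have h3 := intervalIntegral.integral_add_adjacent_intervals (hII 0 ε le_rfl hε.le)
      (hII ε R hε.le hεR.le)
    have h4 : -(∫ a in (0:ℝ)..ε, |G' a|) ≤ ∫ a in (0:ℝ)..ε, G' a * Ψ a := by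
      rw [← intervalIntegral.integral_neg]
      refine intervalIntegral.integral_mono_on_of_le_Ioo hε.le
        (hc.abs.neg.intervalIntegrable _ _) (hII 0 ε le_rfl hε.le) (fun x hx => ?_)
      have g1 := Ψ_pos hx.1
      have g2 := Ψ_le hx.1
      have g3 := neg_abs_le (G' x)
      have g4 := abs_nonneg (G' x)
      nlinarith
    have h5 := mul_nonneg (hp R) (Ψ_pos hR).le
    have h6 := mul_le_of_le_one_right (hp ε) (Ψ_le hε)
    linarith
  have hl : Tendsto (fun ε => -(∫ a in (0:ℝ)..ε, |G' a|) - G ε) (𝓝[>] 0) (𝓝 0) := by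
    have g1 := (hc.abs.integral_hasStrictDerivAt 0 0).hasDerivAt.continuousAt
    have g2 : ContinuousAt (fun ε => -(∫ a in (0:ℝ)..ε, |G' a|) - G ε) 0 :=
      g1.neg.sub hGc.continuousAt
    have := g2.tendsto.mono_left (nhdsWithin_le_nhds (s := Set.Ioi 0))
    simpa [h0] using this
  refine le_of_tendsto hl ?_
  filter_upwards [Ioo_mem_nhdsGT hR] with ε hε
  exact key ε hε.1 hε.2

noncomputable def II (k : ℕ) : ℝ := ∫ a in Set.Ioi 0, Real.exp (-(k:ℝ) * a ^ 2) * Ψ a

theorem II_int {k : ℕ} (hk : 0 < k) :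
    IntegrableOn (fun a => Real.exp (-(k:ℝ) * a ^ 2) * Ψ a) (Set.Ioi 0) :=
  int_mul (integrable_exp_neg_mul_sq (by exact_mod_cast hk)).integrableOn

theorem II_pos {k : ℕ} (hk : 0 < k) : 0 < II k := by
  unfold II
  rw [setIntegral_pos_iff_support_of_nonneg_ae ?_ (II_int hk)]
  · have : Set.Ioi (0:ℝ) ⊆ Function.support (fun a => Real.exp (-(k:ℝ) * a ^ 2) * Ψ a) :=
      fun a ha => (mul_pos (Real.exp_pos _) (Ψ_pos ha)).ne'
    rw [Set.inter_eq_right.2 this]
    simp
  · filter_upwards [ae_restrict_mem measurableSet_Ioi] with a ha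
    exact (mul_pos (Real.exp_pos _) (Ψ_pos ha)).le

theorem II_step {k : ℕ} (hk : 0 < k) : (2 * k + 2) * II (k + 1) = (2 * k + 1) * II k := by
  have hk' : (0:ℝ) < k := by exact_mod_cast hk
  have h := integral_Ioi_of_hasDerivAt_of_tendsto (a := 0) (m := 0)
    (f := fun a => Real.exp (-((k:ℝ) + 1) * a ^ 2) * √(Real.exp (a ^ 2) - 1))
    (f' := fun a => (2 * k + 2) * (Real.exp (-((k + 1 : ℕ):ℝ) * a ^ 2) * Ψ a) -
      (2 * k + 1) * (Real.exp (-(k:ℝ) * a ^ 2) * Ψ a))
    (Continuous.continuousWithinAt (by fun_prop)) (fun a ha => ?_)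
    (((II_int (Nat.succ_pos k)).const_mul _).sub ((II_int hk).const_mul _)) ?_
  · rw [integral_sub ((II_int (Nat.succ_pos k)).const_mul _) ((II_int hk).const_mul _),
      integral_const_mul, integral_const_mul] at h
    simp only [ne_eq, OfNat.ofNat_ne_zero, not_false_eq_true, zero_pow, mul_zero, Real.exp_zero,
      sub_self, Real.sqrt_zero] at h
    unfold II
    linarith
  · have h1 : HasDerivAt (fun a : ℝ => Real.exp (-((k:ℝ) + 1) * a ^ 2))
        (Real.exp (-((k:ℝ) + 1) * a ^ 2) * (-((k:ℝ) + 1) * (2 * a))) a := by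
      have := ((hasDerivAt_pow 2 a).const_mul (-((k:ℝ) + 1))).exp
      simpa using this
    have h2 := h1.mul (sq_deriv ha)
    refine h2.congr_deriv (Eq.symm ?_)
    have hs := Real.sqrt_pos.2 (E_pos ha)
    have e1 : a * √(Real.exp (a ^ 2) - 1) = (Real.exp (a ^ 2) - 1) * Ψ a := by
      unfold Ψ
      rw [← mul_div_assoc, eq_div_iff hs.ne', mul_assoc, Real.mul_self_sqrt (E_pos ha).le]
      ring
    have e2 : Real.exp (-(k:ℝ) * a ^ 2) = Real.exp (-((k:ℝ) + 1) * a ^ 2) * Real.exp (a ^ 2) := by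
      rw [← Real.exp_add]; congr 1; ring
    push_cast
    rw [e2]
    linear_combination (2 * ((k:ℝ) + 1) * Real.exp (-((k:ℝ) + 1) * a ^ 2)) * e1
  · have h1 : Tendsto (fun a : ℝ => Real.exp (-(k:ℝ) * a ^ 2)) atTop (𝓝 0) := by
      refine Real.tendsto_exp_atBot.comp ?_
      exact (tendsto_pow_atTop two_ne_zero).const_mul_atTop_of_neg (by linarith)
    refine squeeze_zero (fun a => by positivity) (fun a => ?_) h1
    have e2 : Real.exp (-(k:ℝ) * a ^ 2) = Real.exp (-((k:ℝ) + 1) * a ^ 2) * Real.exp (a ^ 2) := by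
      rw [← Real.exp_add]; congr 1; ring
    rw [e2]
    refine mul_le_mul_of_nonneg_left ?_ (Real.exp_pos _).le
    refine Real.sqrt_le_iff.2 ⟨(Real.exp_pos _).le, ?_⟩
    have : 1 ≤ Real.exp (a ^ 2) := Real.one_le_exp (by positivity)
    nlinarith

noncomputable def ww (k : ℕ) : ℝ := (2 * k).factorial / ((k.factorial : ℝ) ^ 2 * 4 ^ k)

theorem II_eq (k : ℕ) : II (k + 1) = 2 * II 1 * ww (k + 1) := by
  induction k with
  | zero => simp [ww]; ring
  | succ k ih =>
    have h := II_step (Nat.succ_pos k)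
    have e : ww (k + 1 + 1) * (2 * (k + 1 : ℕ) + 2) = ww (k + 1) * (2 * (k + 1 : ℕ) + 1) := by
      obtain ⟨j, hj⟩ : ∃ j, j = k + 1 := ⟨_, rfl⟩
      rw [← hj]
      unfold ww
      rw [show 2 * (j + 1) = 2 * j + 1 + 1 by ring, Nat.factorial_succ (2 * j + 1),
        Nat.factorial_succ (2 * j), Nat.factorial_succ j]
      push_cast
      field_simp
      ring
    have h2 : (0:ℝ) < 2 * (k + 1 : ℕ) + 2 := by positivity
    refine mul_left_cancel₀ h2.ne' ?_
    rw [h, ih]
    linear_combination (-(2 * II 1)) * e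

noncomputable def ff (k : ℕ) (a y : ℝ) : ℝ :=
  2 * k * (a * Real.exp (-((k:ℝ) * (1 + y ^ 2)) * a ^ 2)) * Ψ a

theorem ff_eq (k : ℕ) (a y : ℝ) : ff k a y =
    (2 * k * a * Real.exp (-(k:ℝ) * a ^ 2) * Ψ a) * Real.exp (-((k:ℝ) * a ^ 2) * y ^ 2) := by
  have : Real.exp (-((k:ℝ) * (1 + y ^ 2)) * a ^ 2) =
      Real.exp (-(k:ℝ) * a ^ 2) * Real.exp (-((k:ℝ) * a ^ 2) * y ^ 2) := by
    rw [← Real.exp_add]; congr 1; ring
  rw [ff, this]; ring

theorem ff_y (k : ℕ) {a : ℝ} (ha : 0 < a) : ∫ y in Set.Ioi 0, ff k a y =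
    √(Real.pi * k) * (Real.exp (-(k:ℝ) * a ^ 2) * Ψ a) := by
  simp only [ff_eq]
  rw [integral_const_mul, integral_gaussian_Ioi]
  rcases Nat.eq_zero_or_pos k with rfl | hk
  · simp
  have hk' : (0:ℝ) < k := by exact_mod_cast hk
  have e : √(Real.pi * k) = k * a * √(Real.pi / (k * a ^ 2)) := by
    have h1 : (0:ℝ) ≤ k * a := by positivity
    rw [← Real.sqrt_sq h1, ← Real.sqrt_mul (by positivity)]
    congr 1
    field_simp
  rw [e]; ring

theorem ff_int (k : ℕ) : Integrable (Function.uncurry (ff k))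
    ((volume.restrict (Set.Ioi 0)).prod (volume.restrict (Set.Ioi 0))) := by
  rcases Nat.eq_zero_or_pos k with rfl | hk
  · have : Function.uncurry (ff 0) = fun _ => 0 := by funext x; simp [Function.uncurry, ff]
    rw [this]; exact integrable_zero _ _ _
  have hk' : (0:ℝ) < k := by exact_mod_cast hk
  have hm : Measurable (Function.uncurry (ff k)) := by
    have := Ψ_meas
    unfold Function.uncurry ff
    fun_prop
  rw [integrable_prod_iff hm.aestronglyMeasurable]
  constructor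
  · filter_upwards [ae_restrict_mem measurableSet_Ioi] with a ha
    have ha' : 0 < a := ha
    simp only [Function.uncurry, ff_eq]
    exact (integrable_exp_neg_mul_sq (by positivity)).integrableOn.const_mul _
  · refine Integrable.congr ((II_int hk).const_mul (√(Real.pi * k))) ?_
    filter_upwards [ae_restrict_mem measurableSet_Ioi] with a ha
    have ha' : 0 < a := ha
    rw [← ff_y k ha']
    congr 1
    funext y
    have := Ψ_pos ha'
    rw [Real.norm_eq_abs, abs_of_nonneg]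
    · rfl
    · simp only [Function.uncurry, ff]; positivity

theorem cone_sqrt : Cone (fun k => √(k:ℝ) * ww k) := by
  intro N p hp
  have h1 : ∀ k : ℕ, √(Real.pi * k) * II k =
      ∫ y in Set.Ioi 0, ∫ a in Set.Ioi 0, ff k a y := by
    intro k
    rw [← integral_integral_swap (ff_int k), II, ← integral_const_mul]
    exact setIntegral_congr_fun measurableSet_Ioi (fun a ha => (ff_y k ha).symm)
  have h2 : ∀ y : ℝ, 0 ≤ ∑ k ∈ range N, p k * ∫ a in Set.Ioi 0, ff k a y := by
    intro y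
    obtain ⟨c, hc⟩ : ∃ c, c = 1 + y ^ 2 := ⟨_, rfl⟩
    have hc0 : 0 < c := by rw [hc]; positivity
    have hi : ∀ k : ℕ, IntegrableOn
        (fun a : ℝ => 2 * k * (a * Real.exp (-((k:ℝ) * c) * a ^ 2))) (Set.Ioi 0) := by
      intro k
      rcases Nat.eq_zero_or_pos k with rfl | hk
      · simp
      have hk' : (0:ℝ) < k := by exact_mod_cast hk
      exact (integrable_mul_exp_neg_mul_sq (by positivity)).integrableOn.const_mul _
    have h := parts (G := fun a => ∑ k ∈ range N, p k * ((1 - Real.exp (-((k:ℝ) * c) * a ^ 2)) / c))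
      (G' := fun a => ∑ k ∈ range N, p k * (2 * k * (a * Real.exp (-((k:ℝ) * c) * a ^ 2))))
      (fun a => ?_) (by fun_prop) (by simp) (fun a => ?_)
      (integrable_finsetSum _ (fun k _ => (hi k).const_mul _))
    · simp only [sum_mul] at h
      rw [integral_finsetSum _ (fun k _ => int_mul ((hi k).const_mul _))] at h
      refine h.trans_eq (sum_congr rfl (fun k _ => ?_))
      rw [← integral_const_mul]
      congr 1
      funext a
      rw [ff, ← hc]; ring
    · refine HasDerivAt.fun_sum (fun k _ => HasDerivAt.const_mul _ ?_)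
      have := ((((hasDerivAt_pow 2 a).const_mul (-((k:ℝ) * c))).exp).const_sub 1).div_const c
      refine this.congr_deriv ?_
      field_simp
      push_cast
      ring
    · have ht : Real.exp (-c * a ^ 2) ∈ Set.Icc (0:ℝ) 1 :=
        ⟨(Real.exp_pos _).le, Real.exp_le_one_iff.2 (by nlinarith [sq_nonneg a])⟩
      have h3 := (le_abs_self _).trans (hp _ ht)
      have e : ∑ k ∈ range N, p k * ((1 - Real.exp (-((k:ℝ) * c) * a ^ 2)) / c) =
          (∑ k ∈ range N, p k - ∑ k ∈ range N, p k * Real.exp (-c * a ^ 2) ^ k) / c := by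
        rw [← sum_sub_distrib, sum_div]
        refine sum_congr rfl (fun k _ => ?_)
        rw [← Real.exp_nat_mul, show (k:ℝ) * (-c * a ^ 2) = -((k:ℝ) * c) * a ^ 2 by ring]
        ring
      rw [e]
      exact div_nonneg (by linarith) hc0.le
  have h3 : 0 ≤ ∑ k ∈ range N, p k * (√(Real.pi * k) * II k) := by
    have e : ∀ k, p k * (√(Real.pi * k) * II k) =
        ∫ y in Set.Ioi 0, p k * ∫ a in Set.Ioi 0, ff k a y := fun k => by
      rw [h1, ← integral_const_mul]
    simp only [e]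
    rw [← integral_finsetSum (f := fun k y => p k * ∫ a in Set.Ioi 0, ff k a y) _
      (fun k _ => ((ff_int k).integral_prod_right.const_mul _))]
    exact integral_nonneg h2
  have h4 : ∑ k ∈ range N, p k * (√(Real.pi * k) * II k) =
      (√Real.pi * (2 * II 1)) * ∑ k ∈ range N, p k * (√(k:ℝ) * ww k) := by
    rw [mul_sum]
    refine sum_congr rfl (fun k _ => ?_)
    rcases k with _ | k
    · simp
    · rw [II_eq, Real.sqrt_mul Real.pi_pos.le]; ring
  rw [h4] at h3
  have h5 : 0 < √Real.pi * (2 * II 1) :=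
    mul_pos (Real.sqrt_pos.2 Real.pi_pos) (by have := II_pos Nat.one_pos; linarith)
  exact nonneg_of_mul_nonneg_right h3 h5 |> fun h => h

theorem sqrt_coef (k : ℕ) : √(k:ℝ) * ww k * 4 ^ k / ((2 * k).factorial : ℝ) =
    √(k:ℝ) / (k.factorial : ℝ) ^ 2 := by
  unfold ww
  field_simp

theorem sqrt_lp : ∃ p : ℕ → Polynomial ℝ,
      (∀ n, ∀ z : ℂ, Polynomial.aeval z (p n) = 0 → z.im = 0 ∧ z.re ≤ 0) ∧
      TendstoLocallyUniformly (fun n (z : ℂ) => Polynomial.aeval z (p n))
        (fun z : ℂ => ∑' k : ℕ,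
          ((Real.sqrt (k : ℝ) / ((Nat.factorial k : ℝ) ^ 2) : ℝ) : ℂ) * z ^ k)
        Filter.atTop := by
  refine ⟨appr (fun k => √(k:ℝ) * ww k) 4, fun n z hz => ?_, ?_⟩
  · have := appr_neg cone_sqrt (by norm_num) n z hz
    exact ⟨this.1, this.2.le⟩
  · refine lu _ _ _ (fun k => ?_) (appr_bound _ (by norm_num)) (fun R hR => ?_)
    · rw [← sqrt_coef]; exact appr_lim _ _ k
    · refine Summable.of_nonneg_of_le (fun k => by positivity) (fun k => ?_)
        ((Real.summable_pow_div_factorial R).add (Real.summable_pow_div_factorial (4 * R)))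
      have h0 : 0 ≤ √(k:ℝ) * ww k := by unfold ww; positivity
      have hf : (0:ℝ) < k.factorial := by positivity
      rw [abs_of_nonneg h0, add_mul, add_div, sqrt_coef, add_mul]
      refine add_le_add ?_ ?_
      · have h1 : √(k:ℝ) ≤ k.factorial := by
          have h2 : (k:ℝ) ≤ k.factorial := by exact_mod_cast Nat.self_le_factorial k
          have h3 : (1:ℝ) ≤ k.factorial := by exact_mod_cast Nat.factorial_pos k
          refine Real.sqrt_le_iff.2 ⟨hf.le, ?_⟩
          nlinarith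
        calc √(k:ℝ) / (k.factorial : ℝ) ^ 2 * R ^ k
            ≤ k.factorial / (k.factorial : ℝ) ^ 2 * R ^ k := by gcongr
          _ = _ := by field_simp
      · have h1 : (k.factorial : ℝ) ≤ (2 * k).factorial := by
          exact_mod_cast Nat.factorial_le (by omega)
        rw [one_mul, mul_pow, div_mul_eq_mul_div]
        gcongr

end Pool.Agent.H88.MSeq
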