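import Mathlib

set_option autoImplicit false

namespace Pool.Agent.H88.MSeq

open Polynomial

/-- A real polynomial has only real zeros (the zero polynomial is allowed, as usual). -/
def RealRooted (p : ℝ[X]) : Prop := p = 0 ∨ ∀ z : ℂ, aeval z p = 0 → z.im = 0

/-- The diagonal operator sending `∑ a_k x^k` to `∑ γ_k a_k x^k`. -/
noncomputable def diag (γ : ℕ → ℝ) (p : ℝ[X]) : ℝ[X] := p.sum fun k a => monomial k (γ k * a)

/-- Multiplier sequence in the sense of Polya and Schur. -/
def IsMultSeq (γ : ℕ → ℝ) : Prop := ∀ p : ℝ[X], RealRooted p → RealRooted (diag γ p)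

/-- The power series with real coefficients `c` defines a function of the class LP+ :
the coefficients are nonnegative and the sum is a locally uniform limit on the plane of nonzero
real polynomials with only real zeros. -/
def IsLPplus (c : ℕ → ℝ) : Prop :=
  (∀ k, 0 ≤ c k) ∧ (∀ z : ℂ, Summable fun k => (c k : ℂ) * z ^ k) ∧
  ∃ p : ℕ → ℝ[X], (∀ n, ∀ z : ℂ, aeval z (p n) = 0 → z.im = 0) ∧
    TendstoLocallyUniformly (fun n (z : ℂ) => aeval z (p n))
      (fun z : ℂ => ∑' k : ℕ, (c k : ℂ) * z ^ k) Filter.atTop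

end Pool.Agent.H88.MSeq
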