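import Pool.Agent.H88.MSeq2
import Pool.Agent.H88.MSeqDefs

set_option autoImplicit false

namespace Pool.Agent.H88.MSeq

open Filter Topology Finset Polynomial

theorem coeff_diag (γ : ℕ → ℝ) (p : ℝ[X]) (k : ℕ) : (diag γ p).coeff k = γ k * p.coeff k := by
  rw [diag, coeff_sum, Polynomial.sum, sum_eq_single k]
  · simp
  · intro j _ hj; rw [coeff_monomial, if_neg hj]
  · intro h; simp [notMem_support_iff.1 h]

theorem natDegree_diag (γ : ℕ → ℝ) (p : ℝ[X]) : (diag γ p).natDegree ≤ p.natDegree := by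
  rw [natDegree_le_iff_coeff_eq_zero]
  intro k hk
  rw [coeff_diag, coeff_eq_zero_of_natDegree_lt hk, mul_zero]

theorem aeval_sum (p : ℝ[X]) {N : ℕ} (hN : p.natDegree < N) (z : ℂ) :
    aeval z p = ∑ k ∈ range N, (p.coeff k : ℂ) * z ^ k := by
  rw [aeval_eq_sum_range' hN]; simp

theorem aeval_diag (γ : ℕ → ℝ) (p : ℝ[X]) {N : ℕ} (hN : p.natDegree < N) (z : ℂ) :
    aeval z (diag γ p) = ∑ k ∈ range N, ((γ k * p.coeff k : ℝ) : ℂ) * z ^ k := by
  rw [aeval_sum _ ((natDegree_diag γ p).trans_lt hN)]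
  simp only [coeff_diag]

theorem hurwitz (N : ℕ) (c : ℕ → ℕ → ℂ) (d : ℕ → ℂ)
    (hc : ∀ k, Tendsto (fun n => c n k) atTop (𝓝 (d k)))
    (h : ∀ n z, 0 < z.im → ∑ k ∈ range N, c n k * z ^ k ≠ 0) :
    (∀ z, ∑ k ∈ range N, d k * z ^ k = 0) ∨
      ∀ z, 0 < z.im → ∑ k ∈ range N, d k * z ^ k ≠ 0 := by
  by_contra H
  push Not at H
  obtain ⟨⟨z1, hz1⟩, z0, hz0, hF⟩ := H
  obtain ⟨F, hFd⟩ : ∃ F : ℂ → ℂ, F = fun z => ∑ k ∈ range N, d k * z ^ k := ⟨_, rfl⟩
  have hFa : Differentiable ℂ F := by rw [hFd]; fun_prop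
  have hev : ∀ᶠ z in 𝓝[≠] z0, F z ≠ 0 := by
    refine (hFa.analyticAt z0).eventually_eq_zero_or_eventually_ne_zero.resolve_left (fun h0 => ?_)
    have := AnalyticOnNhd.eqOn_zero_of_preconnected_of_eventuallyEq_zero
      (U := Set.univ) (fun z _ => hFa.analyticAt z) isPreconnected_univ (Set.mem_univ z0) h0
      (Set.mem_univ z1)
    rw [hFd] at this
    exact hz1 this
  rw [eventually_nhdsWithin_iff, Metric.eventually_nhds_iff] at hev
  obtain ⟨ε, hε, hev⟩ := hev
  obtain ⟨r, hr0, hr1, hr2⟩ : ∃ r, 0 < r ∧ r < ε ∧ r < z0.im :=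
    ⟨min ε z0.im / 2, by positivity, by have := min_le_left ε z0.im; linarith,
      by have := min_le_right ε z0.im; linarith⟩
  obtain ⟨w, hw, hmin⟩ := (isCompact_sphere z0 r).exists_isMinOn
    (NormedSpace.sphere_nonempty.2 hr0.le) (hFa.continuous.norm.continuousOn)
  have hδ : 0 < ‖F w‖ := by
    refine norm_pos_iff.2 (hev (by rw [Metric.mem_sphere.1 hw]; exact hr1) ?_)
    intro h0
    rw [h0] at hw
    simp at hw
    exact hr0.ne hw
  obtain ⟨R, hR⟩ : ∃ R, R = ‖z0‖ + r := ⟨_, rfl⟩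
  have he : Tendsto (fun n => ∑ k ∈ range N, ‖c n k - d k‖ * R ^ k) atTop
      (𝓝 (∑ k ∈ range N, ‖d k - d k‖ * R ^ k)) :=
    tendsto_finsetSum _ (fun k _ => ((hc k).sub_const _).norm.mul_const _)
  simp only [sub_self, norm_zero, zero_mul, sum_const_zero] at he
  obtain ⟨n, hn⟩ := (he.eventually (gt_mem_nhds (half_pos hδ))).exists
  obtain ⟨G, hGd⟩ : ∃ G : ℂ → ℂ, G = fun z => ∑ k ∈ range N, c n k * z ^ k := ⟨_, rfl⟩
  have hGa : Differentiable ℂ G := by rw [hGd]; fun_prop
  have hcl : ∀ z ∈ Metric.closedBall z0 r, ‖G z - F z‖ < ‖F w‖ / 2 := by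
    intro z hz
    have hzR : ‖z‖ ≤ R := by
      have h1 := norm_sub_norm_le z z0
      rw [Metric.mem_closedBall, dist_eq_norm] at hz
      linarith
    refine lt_of_le_of_lt ?_ hn
    rw [hGd, hFd]
    simp only
    rw [← sum_sub_distrib]
    refine (norm_sum_le _ _).trans (sum_le_sum (fun k _ => ?_))
    rw [← sub_mul, norm_mul, norm_pow]
    gcongr
  have hne : ∀ z ∈ Metric.closedBall z0 r, G z ≠ 0 := by
    intro z hz
    rw [hGd]
    refine h n z ?_
    rw [Metric.mem_closedBall, dist_eq_norm] at hz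
    have h1 := (abs_le.1 ((Complex.abs_im_le_norm (z - z0)).trans hz)).1
    simp only [Complex.sub_im] at h1
    linarith
  have hmax := Complex.norm_le_of_forall_mem_frontier_norm_le (U := Metric.ball z0 r)
    (f := fun z => (G z)⁻¹) (C := (‖F w‖ / 2)⁻¹) Metric.isBounded_ball
    (DifferentiableOn.diffContOnCl (by
      rw [closure_ball z0 hr0.ne']
      exact hGa.differentiableOn.inv hne)) (fun z hz => by
      rw [frontier_ball z0 hr0.ne'] at hz
      have h1 := hcl z (Metric.sphere_subset_closedBall hz)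
      have h2 : ‖F w‖ ≤ ‖F z‖ := hmin hz
      have h3 := norm_sub_norm_le (F z) (G z)
      rw [norm_sub_rev] at h3
      rw [norm_inv]
      exact inv_anti₀ (half_pos hδ) (by linarith))
    (subset_closure (Metric.mem_ball_self hr0))
  have h1 := hcl z0 (Metric.mem_closedBall_self hr0.le)
  have h2 : F z0 = 0 := by rw [hFd]; exact hF
  rw [h2, sub_zero] at h1
  have h3 := norm_pos_iff.2 (hne z0 (Metric.mem_closedBall_self hr0.le))
  rw [norm_inv] at hmax
  have := (inv_le_inv₀ h3 (half_pos hδ)).1 hmax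
  linarith

theorem rr_of (p : ℝ[X]) (h : (∀ z : ℂ, aeval z p = 0) ∨ ∀ z : ℂ, 0 < z.im → aeval z p ≠ 0) :
    RealRooted p := by
  rcases h with h | h
  · left
    refine Polynomial.funext (fun x => ?_)
    have := h (algebraMap ℝ ℂ x)
    rw [aeval_algebraMap_apply, coe_aeval_eq_eval] at this
    simpa using this
  · right
    intro z hz
    rcases lt_trichotomy z.im 0 with h1 | h1 | h1
    · exfalso
      refine h (starRingEnd ℂ z) (by simpa using h1) ?_
      rw [aeval_conj, hz, map_zero]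
    · exact h1
    · exact absurd hz (h z h1)

def St (q : ℂ[X]) : Prop := ∀ y : ℂ, 0 < y.im → q.eval y ≠ 0

theorem St.logd {q : ℂ[X]} (hq : St q) {y : ℂ} (hy : 0 < y.im) :
    (q.derivative.eval y / q.eval y).im ≤ 0 := by
  rw [(IsAlgClosed.splits q).eval_derivative_div_eval_of_ne_zero (hq y hy)]
  have h : ∀ s : Multiset ℂ, (∀ r ∈ s, r.im ≤ 0) → ((s.map fun z => 1 / (y - z)).sum).im ≤ 0 := by
    intro s
    induction s using Multiset.induction_on with
    | empty => simp
    | cons a s ih =>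
      intro hs
      rw [Multiset.map_cons, Multiset.sum_cons, Complex.add_im]
      have h1 := ih (fun r hr => hs r (Multiset.mem_cons_of_mem hr))
      have h2 := hs a (Multiset.mem_cons_self _ _)
      have h3 : (1 / (y - a)).im ≤ 0 := by
        rw [one_div, Complex.inv_im]
        refine div_nonpos_of_nonpos_of_nonneg ?_ (Complex.normSq_nonneg _)
        simp only [Complex.sub_im]; linarith
      linarith
  refine h _ (fun r hr => ?_)
  by_contra h1
  exact hq r (not_le.1 h1) (isRoot_of_mem_roots hr)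

noncomputable def TT (x : ℂ) : Module.End ℂ ℂ[X] := x • (derivative : ℂ[X] →ₗ[ℂ] ℂ[X])

theorem St.step {q : ℂ[X]} (hq : St q) {x : ℂ} (hx : 0 < x.im) {r : ℂ} (h1 : r.im = 0)
    (h2 : r.re < 0) : St (aeval (TT x) (X - C r) q) := by
  intro y hy h0
  have h3 := hq.logd hy
  have hx0 : x ≠ 0 := by intro h; simp [h] at hx
  have h4 : x * q.derivative.eval y - r * q.eval y = 0 := by
    simpa [TT, Algebra.algebraMap_eq_smul_one] using h0
  have h5 : q.derivative.eval y / q.eval y = r / x := by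
    rw [div_eq_div_iff (hq y hy) hx0]; linear_combination h4
  rw [h5, Complex.div_im, h1] at h3
  have h6 := Complex.normSq_pos.2 hx0
  have h7 : 0 < -r.re * x.im / Complex.normSq x := div_pos (mul_pos (by linarith) hx) h6
  simp only [zero_mul, zero_div, zero_sub] at h3
  rw [neg_mul, neg_div] at h7
  linarith

theorem St.op {q : ℂ[X]} (hq : St q) {x : ℂ} (hx : 0 < x.im) {f : ℝ[X]} (hf : Neg f) :
    St (aeval (TT x) (f.map (algebraMap ℝ ℂ)) q) := by
  have hf0 : f ≠ 0 := by
    intro h; have := (hf 0 (by simp [h])).2; simp at this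
  have h : ∀ s : Multiset ℂ, (∀ r ∈ s, r.im = 0 ∧ r.re < 0) →
      St (aeval (TT x) (s.map (X - C ·)).prod q) := by
    intro s
    induction s using Multiset.induction_on with
    | empty => intro _; simpa using hq
    | cons a s ih =>
      intro hs
      rw [Multiset.map_cons, Multiset.prod_cons, map_mul, Module.End.mul_apply]
      have := hs a (Multiset.mem_cons_self _ _)
      exact (ih (fun r hr => hs r (Multiset.mem_cons_of_mem hr))).step hx this.1 this.2
  have h1 := h (f.map (algebraMap ℝ ℂ)).roots (fun r hr => hf r (by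
    have := isRoot_of_mem_roots hr
    rwa [IsRoot, eval_map_algebraMap] at this))
  rw [(IsAlgClosed.splits (f.map (algebraMap ℝ ℂ))).eq_prod_roots, map_mul, Module.End.mul_apply]
  intro y hy
  have h2 : (f.map (algebraMap ℝ ℂ)).leadingCoeff ≠ 0 := by simpa using hf0
  simpa [Algebra.algebraMap_eq_smul_one, h2] using ⟨hf0, h1 y hy⟩

theorem op_eval (q : ℂ[X]) (x y : ℂ) (f : ℝ[X]) {N : ℕ} (hN : q.natDegree < N) :
    (aeval (TT x) (f.map (algebraMap ℝ ℂ)) q).eval y =
      ∑ k ∈ range N, ((f.coeff k : ℂ) * (derivative^[k] q).eval y) * x ^ k := by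
  rw [aeval_eq_sum_range' (n := f.natDegree + 1 + N)
    (natDegree_map_le.trans_lt (by omega)), LinearMap.sum_apply, eval_finsetSum]
  symm
  refine (sum_subset (range_subset_range.2 (by omega)) (fun k _ hk => ?_)).trans
    (sum_congr rfl (fun k _ => ?_))
  · rw [iterate_derivative_eq_zero (hN.trans_le (by simpa using hk))]; simp
  · rw [TT, _root_.smul_pow, LinearMap.smul_apply, LinearMap.smul_apply, Module.End.pow_apply]
    simp
    ring

theorem ms_of_appr (P : ℕ → ℝ[X]) (hP : ∀ n, Neg (P n)) (c : ℕ → ℝ)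
    (hc : ∀ k, Tendsto (fun n => (P n).coeff k) atTop (𝓝 (c k))) :
    IsMultSeq (fun k => k.factorial * c k) := by
  intro p hp
  rcases hp with rfl | hp
  · left; simp [diag]
  obtain ⟨q, hq⟩ : ∃ q, q = p.map (algebraMap ℝ ℂ) := ⟨_, rfl⟩
  have hst : St q := fun y hy h => by
    rw [hq, eval_map_algebraMap] at h
    exact hy.ne' (hp y h)
  have hN : q.natDegree < p.natDegree + 1 := by rw [hq]; exact natDegree_map_le.trans_lt (by omega)
  obtain ⟨y, hy⟩ : ∃ y : ℕ → ℂ, y = fun n : ℕ => ((1 / ((n:ℝ) + 1) : ℝ) : ℂ) * Complex.I :=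
    ⟨_, rfl⟩
  have hy0 : Tendsto y atTop (𝓝 0) := by
    have := ((Complex.continuous_ofReal.tendsto 0).comp
      (tendsto_one_div_add_atTop_nhds_zero_nat (𝕜 := ℝ))).mul_const Complex.I
    rw [hy]
    simpa using this
  have hyi : ∀ n, 0 < (y n).im := fun n => by
    rw [hy]
    simp only [Complex.mul_im, Complex.ofReal_re, Complex.I_im, mul_one, Complex.ofReal_im,
      Complex.I_re, mul_zero, add_zero]
    positivity
  have h := hurwitz (p.natDegree + 1)
    (fun n k => (((P n).coeff k : ℝ) : ℂ) * (derivative^[k] q).eval (y n))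
    (fun k => ((k.factorial * c k * p.coeff k : ℝ) : ℂ)) (fun k => ?_) (fun n z hz => ?_)
  · refine rr_of _ ?_
    simp only [aeval_diag _ p (Nat.lt_succ_self _)]
    exact h
  · have h1 := ((Complex.continuous_ofReal.tendsto _).comp (hc k)).mul
      (((derivative^[k] q).continuous.tendsto 0).comp hy0)
    have e : (c k : ℂ) * (derivative^[k] q).eval 0 =
        ((k.factorial * c k * p.coeff k : ℝ) : ℂ) := by
      rw [← coeff_zero_eq_eval_zero, coeff_iterate_derivative, zero_add, Nat.descFactorial_self, hq]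
      simp
      ring
    rw [e] at h1
    exact h1
  · rw [← op_eval q z (y n) (P n) hN]
    exact hst.op hz (hP n) _ (hyi n)

theorem IsMultSeq.mul {γ β : ℕ → ℝ} (h1 : IsMultSeq γ) (h2 : IsMultSeq β) :
    IsMultSeq (fun k => γ k * β k) := by
  intro p hp
  have : diag (fun k => γ k * β k) p = diag γ (diag β p) := by
    ext k; simp only [coeff_diag]; ring
  rw [this]
  exact h1 _ (h2 _ hp)

theorem IsMultSeq.shift {γ : ℕ → ℝ} (h : IsMultSeq γ) : IsMultSeq (fun k => γ (k + 1)) := by
  intro p hp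
  have e : diag γ (X * p) = X * diag (fun k => γ (k + 1)) p := by
    ext k
    rcases k with _ | k
    · simp [coeff_diag]
    · simp [coeff_diag, coeff_X_mul]
  have h1 : RealRooted (X * p) := by
    rcases hp with rfl | hp
    · left; simp
    · right
      intro z hz
      rw [map_mul, aeval_X] at hz
      rcases mul_eq_zero.1 hz with h | h
      · simp [h]
      · exact hp z h
  rcases h _ h1 with h2 | h2
  · left
    rw [e] at h2
    exact (mul_eq_zero.1 h2).resolve_left X_ne_zero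
  · right
    intro z hz
    refine h2 z ?_
    rw [e, map_mul, hz, mul_zero]

theorem IsMultSeq.lim {γ : ℕ → ℕ → ℝ} {β : ℕ → ℝ} (h : ∀ n, IsMultSeq (γ n))
    (hpos : ∀ n k, γ n k ≠ 0)
    (hl : ∀ k, Tendsto (fun n => γ n k) atTop (𝓝 (β k))) : IsMultSeq β := by
  intro p hp
  by_cases hp0 : p = 0
  · left; simp [diag, hp0]
  have H := hurwitz (p.natDegree + 1) (fun n k => ((γ n k * p.coeff k : ℝ) : ℂ))
    (fun k => ((β k * p.coeff k : ℝ) : ℂ))
    (fun k => (Complex.continuous_ofReal.tendsto _).comp ((hl k).mul_const _)) (fun n z hz => ?_)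
  · refine rr_of _ ?_
    simp only [aeval_diag _ p (Nat.lt_succ_self _)]
    exact H
  · rw [← aeval_diag _ p (Nat.lt_succ_self _)]
    rcases h n p hp with h1 | h1
    · exfalso
      refine hp0 ?_
      ext k
      have := congrArg (fun q => coeff q k) h1
      simp only [coeff_diag, coeff_zero] at this
      simpa using (mul_eq_zero.1 this).resolve_left (hpos n k)
    · exact fun h2 => hz.ne' (h1 z h2)

theorem Cone.ms {u : ℕ → ℝ} (hu : Cone u) {ρ : ℝ} (hρ : 0 < ρ) :
    IsMultSeq (fun k => k.factorial * (u k * ρ ^ k / ((2 * k).factorial : ℝ))) :=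
  ms_of_appr _ (appr_neg hu hρ) _ (appr_lim u ρ)

theorem ms_sqrt : IsMultSeq (fun k => √(k:ℝ) / k.factorial) := by
  have h := cone_sqrt.ms (ρ := 4) (by norm_num)
  convert h using 2 with k
  rw [sqrt_coef]
  field_simp

end Pool.Agent.H88.MSeq
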