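import Pool.Agent.H88.MSeq3

set_option autoImplicit false

namespace Pool.Agent.H88.MSeq

open Filter Topology Finset Polynomial

theorem cone_of_q {u : ℕ → ℝ} {A : ℝ} (h : Wright.Q u A) (hA : A ≤ 2) : Cone u := by
  intro N p hp
  have h0 : 0 ≤ ∑ k ∈ range N, p k := (abs_nonneg _).trans (hp 0 ⟨le_rfl, zero_le_one⟩)
  have h1 := (abs_le.1 (h N p _ hp)).1
  simp only [mul_sub, mul_one, sum_sub_distrib] at h1
  nlinarith

theorem Cone.smul {u : ℕ → ℝ} (h : Cone u) {c : ℝ} (hc : 0 ≤ c) : Cone (fun k => c * u k) := by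
  intro N p hp
  have : ∑ k ∈ range N, p k * (c * u k) = c * ∑ k ∈ range N, p k * u k := by
    rw [mul_sum]; exact sum_congr rfl (fun k _ => by ring)
  rw [this]
  exact mul_nonneg hc (h N p hp)

theorem cone_rr (m : ℕ) (hm : 1 ≤ m) : Cone (Wright.rr m) := by
  have hm' : (0:ℝ) < m := by exact_mod_cast hm
  obtain ⟨A, hA⟩ : ∃ A, A = √(2 * (m:ℝ) / (m + 1)) := ⟨_, rfl⟩
  have hA0 : 0 < A := by rw [hA]; positivity
  have hA2 : A < 2 := by
    rw [hA, Real.sqrt_lt' (by norm_num), div_lt_iff₀ (by positivity)]; linarith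
  have hq : Wright.Q (fun k => Wright.rr m k / A) A :=
    Wright.q_lim (Wright.q_RR m hm) (by simp [Wright.rr]) (Wright.rr_step m hm)
      (Wright.rr_pos m hm) hA0.ne' (hA ▸ Wright.rr_lim m hm)
  have := (cone_of_q hq hA2.le).smul hA0.le
  convert this using 2 with k
  field_simp

theorem ms_wright (m : ℕ) (hm : 1 ≤ m) :
    IsMultSeq (fun k => ∏ i ∈ range k, ((m:ℝ) / (m * k + i + 1))) := by
  have hm' : (0:ℝ) < m := by exact_mod_cast hm
  have hC := Wright.CC_pos m hm
  have h := (cone_rr m hm).ms (ρ := Wright.CC m * m) (by positivity)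
  convert h using 2 with k
  have h1 := Wright.fact_add (m * k) k
  have h2 : (0:ℝ) < ∏ i ∈ range k, (((m * k : ℕ):ℝ) + i + 1) := prod_pos (fun i _ => by positivity)
  rw [Wright.rr, add_mul, one_mul, h1, prod_div_distrib, prod_const, card_range, mul_pow]
  push_cast at h2 ⊢
  field_simp

theorem ms_kk : IsMultSeq (fun k => 1 / (k:ℝ) ^ k) := by
  refine IsMultSeq.lim (fun n => ms_wright (n + 1) (by omega))
    (fun n k => (prod_pos (fun i _ => by positivity)).ne') (fun k => ?_)
  have : 1 / (k:ℝ) ^ k = ∏ _i ∈ range k, (1 / (k:ℝ)) := by simp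
  rw [this]
  refine tendsto_finsetProd _ (fun i hi => ?_)
  have hk : (0:ℝ) < k := by exact_mod_cast lt_of_le_of_lt (Nat.zero_le _) (mem_range.1 hi)
  have h1 := (((tendsto_one_div_add_atTop_nhds_zero_nat (𝕜 := ℝ)).const_mul ((i:ℝ) + 1)).const_add
    (k:ℝ)).inv₀ (by simpa using hk.ne')
  simp only [mul_zero, add_zero] at h1
  rw [one_div]
  refine h1.congr (fun n => ?_)
  push_cast
  field_simp
  ring

theorem neg_of {P : ℝ[X]} (h : RealRooted P) (h0 : ∀ k, 0 ≤ P.coeff k) (h1 : 0 < P.coeff 0) :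
    Neg P := by
  intro z hz
  have h2 := h.resolve_left (fun h => by simp [h] at h1) z hz
  refine ⟨h2, ?_⟩
  by_contra h3
  have e : z = algebraMap ℝ ℂ z.re := by apply Complex.ext <;> simp [h2]
  rw [e, aeval_algebraMap_apply, coe_aeval_eq_eval] at hz
  have h4 : P.eval z.re = 0 := by simpa using hz
  rw [eval_eq_sum_range, sum_range_succ'] at h4
  have h5 : 0 ≤ ∑ k ∈ range P.natDegree, P.coeff (k + 1) * z.re ^ (k + 1) :=
    sum_nonneg (fun k _ => mul_nonneg (h0 _) (pow_nonneg (not_lt.1 h3) _))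
  simp only [pow_zero, mul_one] at h4
  linarith

theorem ms_choose (n : ℕ) : IsMultSeq (fun k => k.factorial * (n.choose k : ℝ)) := by
  refine ms_of_appr (fun _ => (1 + X) ^ n) (fun _ z hz => ?_) _ (fun k => ?_)
  · simp only [map_pow, map_add, map_one, aeval_X] at hz
    have : z = -1 := by linear_combination (pow_eq_zero_iff'.1 hz).1
    simp [this]
  · simp [coeff_one_add_X_pow]

theorem RealRooted.reflect {p : ℝ[X]} (h : RealRooted p) {n : ℕ} (hn : p.natDegree ≤ n) :
    RealRooted (reflect n p) := by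
  rcases h with rfl | h
  · left; simp
  · right
    intro z hz
    by_cases hz0 : z = 0
    · simp [hz0]
    have := invertibleOfNonzero (inv_ne_zero hz0)
    have h1 := (eval₂_reflect_eq_zero_iff (algebraMap ℝ ℂ) z⁻¹ n p hn).1 (by
      rw [invOf_eq_inv, inv_inv]; exact hz)
    have h2 := h z⁻¹ h1
    rw [Complex.inv_im, div_eq_zero_iff] at h2
    rcases h2 with h2 | h2
    · linarith
    · exact absurd (Complex.normSq_eq_zero.1 h2) hz0

theorem ms_inv_fact : IsMultSeq (fun k => 1 / (k.factorial : ℝ)) := by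
  intro p hp
  obtain ⟨n, hn⟩ : ∃ n, n = p.natDegree := ⟨_, rfl⟩
  have h1 := (ms_choose n _ (hp.reflect hn.ge)).reflect (n := n)
    ((natDegree_diag _ _).trans (natDegree_reflect_le.trans (by simp [hn])))
  have e : reflect n (diag (fun k => k.factorial * (n.choose k : ℝ)) (reflect n p)) =
      C (n.factorial : ℝ) * diag (fun k => 1 / (k.factorial : ℝ)) p := by
    ext k
    rw [coeff_reflect, coeff_diag, coeff_reflect, coeff_C_mul, coeff_diag, revAt_invol]
    rcases le_or_gt k n with hk | hk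
    · rw [revAt_le hk, Nat.choose_symm hk, Nat.cast_choose ℝ hk]
      field_simp
    · rw [coeff_eq_zero_of_natDegree_lt (hn ▸ hk)]; simp
  rw [e] at h1
  have hf : (n.factorial : ℝ) ≠ 0 := by positivity
  rcases h1 with h1 | h1
  · left
    exact (mul_eq_zero.1 h1).resolve_left (by simpa using n.factorial_ne_zero)
  · right
    intro z hz
    exact h1 z (by rw [map_mul, hz, mul_zero])

theorem ms_38 : IsMultSeq (fun k => 1 / (((k:ℝ) + 1) ^ (k + 1) * k.factorial)) := by
  have h := ms_kk.shift.mul ms_inv_fact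
  convert h using 2 with k
  push_cast
  rw [one_div_mul_one_div]

theorem ms_add {ε : ℝ} (hε : 0 < ε) : IsMultSeq (fun k => (k:ℝ) + ε) := by
  intro p hp
  rcases hp with rfl | hp
  · left; simp [diag]
  obtain ⟨q, hq⟩ : ∃ q, q = p.map (algebraMap ℝ ℂ) := ⟨_, rfl⟩
  have hst : St q := fun y hy h => by
    rw [hq, eval_map_algebraMap] at h
    exact hy.ne' (hp y h)
  refine rr_of _ (Or.inr (fun z hz h0 => ?_))
  refine hst.step hz (r := -(ε:ℂ)) (by simp) (by simpa using hε) z hz ?_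
  have e : diag (fun k => (k:ℝ) + ε) p = X * derivative p + C ε * p := by
    ext k
    rcases k with _ | k
    · simp [coeff_diag]
    · simp only [coeff_diag, coeff_add, coeff_X_mul, coeff_derivative, coeff_C_mul]
      push_cast; ring
  rw [e] at h0
  simp only [map_add, map_mul, aeval_X, aeval_C] at h0
  simpa [TT, Algebra.algebraMap_eq_smul_one, hq, eval_map_algebraMap] using h0

theorem ms_id : IsMultSeq (fun k => (k:ℝ)) := by
  refine IsMultSeq.lim (γ := fun n k => (k:ℝ) + 1 / ((n:ℝ) + 1))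
    (fun n => ms_add (by positivity)) (fun n k => by positivity) (fun k => ?_)
  simpa using (tendsto_one_div_add_atTop_nhds_zero_nat (𝕜 := ℝ)).const_add (k:ℝ)

theorem ms_pow (j : ℕ) : IsMultSeq (fun k => (k:ℝ) ^ j) := by
  induction j with
  | zero =>
    intro p hp
    have : diag (fun k => (k:ℝ) ^ 0) p = p := by ext k; simp [coeff_diag]
    rwa [this]
  | succ j ih => simpa only [pow_succ] using ih.mul ms_id

/-- The polynomial `(1 + x/(n+1))^(n+1)`. -/
noncomputable def EE (n : ℕ) : ℝ[X] := C (1 / ((n + 1 : ℕ):ℝ) ^ (n + 1)) * (X + C ((n + 1 : ℕ):ℝ)) ^ (n + 1)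

theorem EE_rr (n : ℕ) : RealRooted (EE n) := by
  right
  intro z hz
  simp only [EE, map_mul, aeval_C, map_pow, map_add, aeval_X] at hz
  rcases mul_eq_zero.1 hz with h | h
  · exfalso
    have : (1 / ((n + 1 : ℕ):ℝ) ^ (n + 1)) ≠ 0 := by positivity
    exact this ((algebraMap ℝ ℂ).injective (h.trans (map_zero _).symm))
  · have := congrArg Complex.im (pow_eq_zero_iff'.1 h).1
    simpa using this

theorem EE_coeff (n k : ℕ) : (EE n).coeff k = ((n + 1).choose k : ℝ) / ((n + 1 : ℕ):ℝ) ^ k := by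
  rw [EE, coeff_C_mul, coeff_X_add_C_pow]
  rcases le_or_gt k (n + 1) with h | h
  · obtain ⟨j, hj⟩ := Nat.exists_eq_add_of_le h
    have : ((n + 1 : ℕ):ℝ) ≠ 0 := by positivity
    obtain ⟨a, ha⟩ : ∃ a, a = ((n + 1 : ℕ):ℝ) := ⟨_, rfl⟩
    rw [← ha] at this ⊢
    rw [show n + 1 - k = j by omega]
    have e : a ^ (n + 1) = a ^ k * a ^ j := by rw [hj, pow_add]
    rw [e]
    field_simp
  · simp [Nat.choose_eq_zero_of_lt h]

theorem EE_le (n k : ℕ) : |(EE n).coeff k| ≤ 1 / k.factorial := by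
  rw [EE_coeff, abs_of_nonneg (by positivity), div_le_iff₀ (by positivity)]
  refine (Nat.choose_le_pow_div k (n + 1)).trans_eq ?_
  ring

theorem EE_lim (k : ℕ) : Tendsto (fun n => (EE n).coeff k) atTop (𝓝 (1 / k.factorial)) := by
  simp only [EE_coeff]
  refine (tendsto_add_atTop_iff_nat (f := fun n : ℕ => (n.choose k : ℝ) / (n:ℝ) ^ k) 1).2 ?_
  have h := (isEquivalent_choose k).div (Asymptotics.IsEquivalent.refl
    (u := fun n : ℕ => (n:ℝ) ^ k))
  refine h.symm.tendsto_nhds (tendsto_const_nhds.congr' ?_)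
  filter_upwards [eventually_gt_atTop 0] with n hn
  have : (n:ℝ) ≠ 0 := by positivity
  simp only [Pi.div_apply]
  field_simp

theorem ms_central : IsMultSeq (fun k => ((2 * k).factorial : ℝ) / (k.factorial : ℝ) ^ 3) := by
  have hJ : ∀ n, Neg (diag (fun k => 1 / (k.factorial : ℝ)) (EE n)) := fun n =>
    neg_of (ms_inv_fact _ (EE_rr n)) (fun k => by rw [coeff_diag, EE_coeff]; positivity)
      (by rw [coeff_diag, EE_coeff]; simp)
  have h := ms_of_appr (fun n => diag (fun k => 1 / (k.factorial : ℝ)) (EE n) *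
      diag (fun k => 1 / (k.factorial : ℝ)) (EE n)) (fun n z hz => by
      rw [map_mul, mul_self_eq_zero] at hz; exact hJ n z hz)
    (fun k => ∑ x ∈ antidiagonal k, (1 / (x.1.factorial : ℝ) * (1 / x.1.factorial)) *
      (1 / (x.2.factorial : ℝ) * (1 / x.2.factorial))) (fun k => by
      simp only [coeff_mul, coeff_diag]
      exact tendsto_finsetSum _ (fun x _ =>
        ((EE_lim _).const_mul _).mul ((EE_lim _).const_mul _)))
  convert h using 2 with k
  have h1 : ((k + k).choose k : ℝ) =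
      ∑ x ∈ antidiagonal k, (k.choose x.1 : ℝ) * k.choose x.2 := by
    rw [Nat.add_choose_eq]; push_cast; rfl
  have h2 : ∑ x ∈ antidiagonal k, (1 / (x.1.factorial : ℝ) * (1 / x.1.factorial)) *
      (1 / (x.2.factorial : ℝ) * (1 / x.2.factorial)) =
      (∑ x ∈ antidiagonal k, (k.choose x.1 : ℝ) * k.choose x.2) / (k.factorial : ℝ) ^ 2 := by
    rw [sum_div]
    refine sum_congr rfl (fun x hx => ?_)
    obtain ⟨a, b⟩ := x
    have : a + b = k := by simpa using hx
    subst this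
    simp only
    rw [Nat.cast_add_choose, add_comm a b, Nat.cast_add_choose]
    field_simp
  rw [h2, ← h1, Nat.cast_add_choose, two_mul]
  field_simp

theorem cone_rpow {θ : ℝ} (hθ : θ ∈ Set.Ioo (0:ℝ) 1) : Cone (fun k => (k:ℝ) ^ θ) := by
  intro N p hp
  simp only [Real.rpow_eq_const_mul_integral hθ (Nat.cast_nonneg _)]
  have e : ∀ c : ℝ, ∀ I : ℕ → ℝ, ∑ k ∈ range N, p k * (c * I k) = c * ∑ k ∈ range N, p k * I k :=
    fun c I => by rw [mul_sum]; exact sum_congr rfl (fun k _ => by ring)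
  rw [e]
  refine mul_nonneg (inv_nonneg.2 (Real.integral_rpowIntegrand₀₁_one_pos hθ).le) ?_
  simp only [← MeasureTheory.integral_const_mul]
  rw [← MeasureTheory.integral_finsetSum _ (fun k _ =>
    (Real.integrableOn_rpowIntegrand₀₁_Ioi hθ (Nat.cast_nonneg k)).const_mul _)]
  refine MeasureTheory.setIntegral_nonneg measurableSet_Ioi (fun t ht => ?_)
  have ht' : 0 < t := ht
  have h1 := (abs_le.1 (Wright.bd_inv ht' N p _ hp)).2
  have e2 : ∑ k ∈ range N, p k * Real.rpowIntegrand₀₁ θ t k =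
      t ^ θ * (1 / t * ∑ k ∈ range N, p k - ∑ k ∈ range N, p k * (1 / ((k:ℝ) + t))) := by
    rw [mul_sum, ← sum_sub_distrib, mul_sum]
    refine sum_congr rfl (fun k _ => ?_)
    rw [Real.rpowIntegrand₀₁, add_comm t]
    ring
  rw [e2]
  exact mul_nonneg (Real.rpow_nonneg ht'.le _) (by linarith)

theorem ms_rpow {s : ℝ} (hs : 0 < s) : IsMultSeq (fun k => (k:ℝ) ^ s / (k.factorial : ℝ) ^ 2) := by
  obtain ⟨j, hj⟩ : ∃ j, j = ⌊s⌋₊ := ⟨_, rfl⟩
  have h1 : (j:ℝ) ≤ s := hj ▸ Nat.floor_le hs.le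
  have h2 : s < j + 1 := hj ▸ Nat.lt_floor_add_one s
  rcases h1.eq_or_lt with h | h
  · have := ((ms_pow j).mul ms_inv_fact).mul ms_inv_fact
    convert this using 2 with k
    rw [← h, Real.rpow_natCast]
    field_simp
  · have hθ : s - j ∈ Set.Ioo (0:ℝ) 1 := ⟨by linarith, by linarith⟩
    have := ((ms_pow j).mul ((cone_rpow hθ).ms one_pos)).mul ms_central
    convert this using 2 with k
    have e : (k:ℝ) ^ s = (k:ℝ) ^ j * (k:ℝ) ^ (s - j) := by
      rw [← Real.rpow_natCast, ← Real.rpow_add' (Nat.cast_nonneg k) (by linarith)]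
      congr 1; ring
    rw [e, one_pow]
    field_simp

theorem lp_of_ms {γ : ℕ → ℝ} (h : IsMultSeq γ) (h0 : ∀ k, 0 ≤ γ k) (h1 : γ 1 ≠ 0)
    (hs : ∀ R : ℝ, 0 ≤ R → Summable (fun k => γ k * (1 / k.factorial) * R ^ k)) :
    IsLPplus (fun k => γ k * (1 / k.factorial)) := by
  refine ⟨fun k => mul_nonneg (h0 k) (by positivity), fun z => ?_, fun n => diag γ (EE n),
    fun n => ?_, ?_⟩
  · refine Summable.of_norm_bounded (hs ‖z‖ (norm_nonneg _)) (fun k => ?_)
    rw [norm_mul, norm_pow, Complex.norm_real, Real.norm_eq_abs,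
      abs_of_nonneg (mul_nonneg (h0 k) (by positivity))]
  · refine (h _ (EE_rr n)).resolve_left (fun h2 => ?_)
    have := congrArg (fun q => coeff q 1) h2
    simp only [coeff_diag, EE_coeff, coeff_zero] at this
    rcases mul_eq_zero.1 this with h3 | h3
    · exact h1 h3
    · have : (0:ℝ) < ((n + 1).choose 1 : ℝ) / ((n + 1 : ℕ):ℝ) ^ 1 := by
        rw [Nat.choose_one_right]; positivity
      exact this.ne' h3
  · refine lu _ _ _ (fun k => ?_) (fun n k => ?_) hs
    · simp only [coeff_diag]; exact (EE_lim k).const_mul _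
    · rw [coeff_diag, abs_mul, abs_of_nonneg (h0 k)]
      exact mul_le_mul_of_nonneg_left (EE_le n k) (h0 k)

theorem lp_rpow {s : ℝ} (hs : 0 < s) : IsLPplus (fun k => (k:ℝ) ^ s / (k.factorial : ℝ) ^ 3) := by
  have h := lp_of_ms (ms_rpow hs) (fun k => by positivity) (by simp) (fun R hR => ?_)
  · convert h using 2 with k
    field_simp
  obtain ⟨J, hJ⟩ : ∃ J : ℕ, s ≤ J := ⟨_, Nat.le_ceil s⟩
  refine Summable.of_nonneg_of_le (fun k => by positivity) (fun k => ?_)
    ((Real.summable_pow_div_factorial (Real.exp 1 * R)).mul_left (J.factorial : ℝ))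
  have h1 : (k:ℝ) ^ s ≤ J.factorial * Real.exp 1 ^ k := by
    rcases Nat.eq_zero_or_pos k with rfl | hk
    · simp [Real.zero_rpow hs.ne']
    have h2 : (k:ℝ) ^ s ≤ (k:ℝ) ^ J := by
      rw [← Real.rpow_natCast]
      exact Real.rpow_le_rpow_of_exponent_le (by exact_mod_cast hk) hJ
    have h3 := Real.pow_div_factorial_le_exp (k:ℝ) (Nat.cast_nonneg k) J
    rw [div_le_iff₀ (by positivity)] at h3
    rw [← Real.exp_nat_mul, mul_one]
    linarith
  have h4 : (1:ℝ) ≤ (k.factorial : ℝ) ^ 2 := one_le_pow₀ (by exact_mod_cast Nat.factorial_pos k)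
  have h5 : (k:ℝ) ^ s / (k.factorial : ℝ) ^ 2 ≤ J.factorial * Real.exp 1 ^ k :=
    (div_le_self (by positivity) h4).trans h1
  calc _ ≤ J.factorial * Real.exp 1 ^ k * (1 / k.factorial) * R ^ k := by gcongr
    _ = _ := by rw [mul_pow]; ring

end Pool.Agent.H88.MSeq
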