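import Pool.Agent.H88.MShiftDefs
import Pool.Agent.H88.LpDyn

set_option autoImplicit false

open scoped ENNReal

namespace Pool.Agent.H88.MShift

open Pool.Agent.H88.LpDyn

variable {K : Type} [RCLike K] {p : ℝ≥0∞}

/-- the Jordan block as a linear equivalence -/
noncomputable def Jl (K : Type) [RCLike K] : Euc K 2 ≃ₗ[K] Euc K 2 where
  toFun v := !₂[v 0 + v 1, v 1]
  invFun v := !₂[v 0 - v 1, v 1]
  map_add' v w := by ext i; fin_cases i <;> simp; ring
  map_smul' c v := by ext i; fin_cases i <;> simp; ring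
  left_inv v := by ext i; fin_cases i <;> simp
  right_inv v := by ext i; fin_cases i <;> simp

/-- the Jordan block -/
noncomputable def J (K : Type) [RCLike K] : Euc K 2 ≃L[K] Euc K 2 := (Jl K).toContinuousLinearEquiv

lemma J0 (v : Euc K 2) : J K v 0 = v 0 + v 1 := rfl
lemma J1 (v : Euc K 2) : J K v 1 = v 1 := rfl

/-- the shift generated by a sequence of equivalences -/
def IsShift {d : ℕ} (S : ℤ → Euc K d ≃L[K] Euc K d)
    (σ : Lz (Euc K d) p → Lz (Euc K d) p) : Prop :=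
  ∀ (x : Lz (Euc K d) p) (n : ℤ), σ x n = S (n + 1) (x (n + 1))

lemma adm : AdmissibleM (fun _ : ℤ => (!![1, 1; 0, 1] : Matrix (Fin 2) (Fin 2) K)) := by
  have h : (!![1, 1; 0, 1] : Matrix (Fin 2) (Fin 2) K) * !![1, -1; 0, 1] = 1 := by
    ext i j; fin_cases i <;> fin_cases j <;> simp [Matrix.mul_apply, Fin.sum_univ_two]
  refine ⟨1, fun _ => ⟨IsUnit.of_mul_eq_one _ h, fun i j => ?_⟩⟩
  rw [Matrix.inv_eq_right_inv h]
  fin_cases i <;> fin_cases j <;> simp

lemma shiftM {σ : Lz (Euc K 2) p → Lz (Euc K 2) p} (h : IsShift (fun _ : ℤ => J K) σ) :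
    IsShiftM (fun _ : ℤ => (!![1, 1; 0, 1] : Matrix (Fin 2) (Fin 2) K)) σ := by
  intro x n i
  rw [h]
  fin_cases i
  · simp [Fin.sum_univ_two, J0]
  · simp [Fin.sum_univ_two, J1]

lemma exists_shift [Fact (1 ≤ p)] (hp : 0 < p.toReal) :
    ∃ σ : Lz (Euc K 2) p → Lz (Euc K 2) p, IsShift (fun _ : ℤ => J K) σ := by
  refine ⟨fun x => ⟨fun n => J K (x (n + 1)), ?_⟩, fun _ _ => rfl⟩
  refine (lp.memℓp (((‖(J K : Euc K 2 →L[K] Euc K 2)‖ : ℝ) : K) •
    cmp K hp (fun n : ℤ => n + 1) (add_left_injective 1) x)).mono' fun n => ?_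
  rw [lp.coeFn_smul, Pi.smul_apply, cmp_apply, norm_smul, RCLike.norm_ofReal, abs_norm]
  exact (J K : Euc K 2 →L[K] Euc K 2).le_opNorm _

/-- bounded forward orbit -/
def Bd {X : Type} [Norm X] (f : X → X) (x : X) : Prop := ∃ C : ℝ, ∀ m : ℕ, ‖f^[m] x‖ ≤ C

lemma shift_iter {σ : Lz (Euc K 2) p → Lz (Euc K 2) p} (h : IsShift (fun _ : ℤ => J K) σ) (m : ℕ)
    (x : Lz (Euc K 2) p) (n : ℤ) :
    σ^[m] x n 0 = x (n + m) 0 + m * x (n + m) 1 ∧ σ^[m] x n 1 = x (n + m) 1 := by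
  induction m generalizing n with
  | zero => simp
  | succ m ih =>
    rw [Function.iterate_succ_apply', h, J0, J1, (ih _).1, (ih _).2]
    push_cast
    rw [show n + 1 + m = n + (m + 1) by ring]
    exact ⟨by ring, rfl⟩

lemma bd_iff [Fact (1 ≤ p)] (hp : 0 < p.toReal) {σ : Lz (Euc K 2) p → Lz (Euc K 2) p}
    (h : IsShift (fun _ : ℤ => J K) σ) (x : Lz (Euc K 2) p) : Bd σ x ↔ ∀ n, x n 1 = 0 := by
  have hp0 : p ≠ 0 := by rintro rfl; simp at hp
  constructor
  · rintro ⟨C, hC⟩ n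
    by_contra hn
    have hpos : 0 < ‖x n 1‖ := norm_pos_iff.2 hn
    obtain ⟨m, hm⟩ := exists_nat_gt ((C + ‖x n 0‖) / ‖x n 1‖)
    rw [div_lt_iff₀ hpos] at hm
    have h1 := (shift_iter h m x (n - m)).1
    rw [sub_add_cancel] at h1
    have h2 := ((PiLp.norm_apply_le (σ^[m] x (n - m)) 0).trans
      (lp.norm_apply_le_norm hp0 _ _)).trans (hC m)
    rw [h1] at h2
    have h3 := norm_sub_le (x n 0 + m * x n 1) (x n 0)
    rw [add_sub_cancel_left, norm_mul, RCLike.norm_natCast] at h3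
    linarith
  · intro hx
    refine ⟨‖x‖, fun m => ?_⟩
    have : σ^[m] x = cmp K hp (fun n : ℤ => n + m) (add_left_injective _) x := by
      ext n i
      fin_cases i
      · simpa [hx] using (shift_iter h m x n).1
      · simpa using (shift_iter h m x n).2
    rw [this]
    exact norm_cmp_le hp _ _ x

lemma near [Fact (1 ≤ p)] (hp : 0 < p.toReal) {σ : Lz (Euc K 2) p → Lz (Euc K 2) p}
    (h : IsShift (fun _ : ℤ => J K) σ) (x : Lz (Euc K 2) p) (m : ℕ) :
    ∃ z, Bd σ z ∧ ‖σ^[m] x - z‖ ≤ ‖x‖ := by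
  have hp0 : p ≠ 0 := by rintro rfl; simp at hp
  have hle : ∀ n : ℤ, ‖(!₂[0, x (n + m) 1] : Euc K 2)‖
      ≤ ‖cmp K hp (fun n : ℤ => n + m) (add_left_injective _) x n‖ := by
    intro n
    rw [cmp_apply, EuclideanSpace.norm_eq, EuclideanSpace.norm_eq]
    apply Real.sqrt_le_sqrt
    simp [Fin.sum_univ_two]
  obtain ⟨r, hr⟩ : ∃ r : Lz (Euc K 2) p, ∀ n, r n = !₂[0, x (n + m) 1] :=
    ⟨⟨fun n => !₂[0, x (n + m) 1], (lp.memℓp _).mono' hle⟩, fun _ => rfl⟩
  refine ⟨σ^[m] x - r, (bd_iff hp h _).2 fun n => ?_, ?_⟩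
  · rw [lp.coeFn_sub, Pi.sub_apply, PiLp.sub_apply, (shift_iter h m x n).2, hr]; simp
  · rw [sub_sub_cancel]
    exact (lp.norm_mono hp0 fun n => by rw [hr]; exact hle n).trans (norm_cmp_le hp _ _ x)

lemma wshift_iter {B : Lz K p → Lz K p} {ω : ℤ → K}
    (h : ∀ (x : Lz K p) (n : ℤ), B x n = ω (n + 1) * x (n + 1)) (m : ℕ) (x : Lz K p) (n : ℤ) :
    B^[m] x n = (∏ j ∈ Finset.range m, ω (n + m - j)) * x (n + m) := by
  induction m generalizing x with
  | zero => simp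
  | succ m ih =>
    rw [Function.iterate_succ_apply, ih, h, Finset.prod_range_succ']
    push_cast
    simp only [sub_zero, ← add_assoc, add_sub_add_right_eq_sub]
    ring

/-- bounded partial products -/
def Q (ω : ℤ → K) (s : ℤ) : Prop := ∃ C : ℝ, ∀ m : ℕ, ‖∏ j ∈ Finset.range m, ω (s - j)‖ ≤ C

lemma Q_succ {ω : ℤ → K} (hω : ∀ n, ω n ≠ 0) (s : ℤ) : Q ω (s + 1) ↔ Q ω s := by
  have e : ∀ m : ℕ, ∏ j ∈ Finset.range (m + 1), ω (s + 1 - j)
      = (∏ j ∈ Finset.range m, ω (s - j)) * ω (s + 1) := by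
    intro m
    rw [Finset.prod_range_succ']
    push_cast
    simp only [sub_zero, add_sub_add_right_eq_sub]
  constructor
  · rintro ⟨C, hC⟩
    refine ⟨C / ‖ω (s + 1)‖, fun m => ?_⟩
    rw [le_div_iff₀ (norm_pos_iff.2 (hω _)), ← norm_mul, ← e]
    exact hC _
  · rintro ⟨C, hC⟩
    refine ⟨max 1 (C * ‖ω (s + 1)‖), fun m => ?_⟩
    cases m with
    | zero => simp
    | succ m =>
      rw [e, norm_mul]
      exact (mul_le_mul_of_nonneg_right (hC m) (norm_nonneg _)).trans (le_max_right _ _)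

lemma Q_iff {ω : ℤ → K} (hω : ∀ n, ω n ≠ 0) (s : ℤ) : Q ω s ↔ Q ω 0 := by
  induction s using Int.induction_on with
  | zero => rfl
  | succ n ih => rw [Q_succ hω, ih]
  | pred n ih => rw [← ih, ← Q_succ hω, sub_add_cancel]

theorem not_conj [Fact (1 ≤ p)] (hp' : p ≠ ∞) {σ : Lz (Euc K 2) p → Lz (Euc K 2) p}
    (h : IsShift (fun _ : ℤ => J K) σ) (k : ℕ) (B : Fin k → Lz K p → Lz K p)
    (hB : ∀ i, IsWShift (B i)) : ¬ LinConj K σ (prodMap B) := by
  classical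
  have hp0 : p ≠ 0 := (zero_lt_one.trans_le Fact.out).ne'
  have hp : 0 < p.toReal := ENNReal.toReal_pos hp0 hp'
  rintro ⟨H, hH⟩
  choose ω c C hc hω hBω using hB
  have hω0 : ∀ i n, ω i n ≠ 0 := fun i n h0 => by
    have := (hω i n).1
    rw [h0, norm_zero] at this
    exact absurd (hc i) (not_lt.2 this)
  have hit : ∀ (m : ℕ) x i, H (σ^[m] x) i = (B i)^[m] (H x i) := by
    intro m
    induction m with
    | zero => intro x i; rfl
    | succ m ih =>
      intro x i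
      rw [Function.iterate_succ_apply, ih, hH, Function.iterate_succ_apply]
      rfl
  have hcoef : ∀ (m : ℕ) x i s, H (σ^[m] x) i (s - m)
      = (∏ j ∈ Finset.range m, ω i (s - j)) * H x i s := by
    intro m x i s
    rw [hit, wshift_iter (hBω i), sub_add_cancel]
  have hle : ∀ x i s, ‖H x i s‖ ≤ ‖(H : Lz (Euc K 2) p →L[K] (Fin k → Lz K p))‖ * ‖x‖ :=
    fun x i s => ((lp.norm_apply_le_norm hp0 _ _).trans (norm_le_pi_norm _ i)).trans
      ((H : Lz (Euc K 2) p →L[K] (Fin k → Lz K p)).le_opNorm x)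
  obtain ⟨N, hN⟩ : ∃ N, N = ‖(H : Lz (Euc K 2) p →L[K] (Fin k → Lz K p))‖ := ⟨_, rfl⟩
  rw [← hN] at hle
  have hN0 : 0 ≤ N := hN ▸ norm_nonneg _
  have hQ : ∀ i, Q (ω i) 0 := by
    intro i
    by_contra hq
    have hz : ∀ z, Bd σ z → ∀ s, H z i s = 0 := by
      rintro z ⟨D, hD⟩ s
      by_contra hs
      refine hq ((Q_iff (hω0 i) s).1 ⟨N * D / ‖H z i s‖, fun m => ?_⟩)
      rw [le_div_iff₀ (norm_pos_iff.2 hs), ← norm_mul, ← hcoef]
      exact (hle _ _ _).trans (mul_le_mul_of_nonneg_left (hD m) hN0)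
    obtain ⟨x, hx⟩ : ∃ x, x = H.symm (Pi.single i (lp.single p 0 1)) := ⟨_, rfl⟩
    refine hq ⟨N * ‖x‖, fun m => ?_⟩
    obtain ⟨z, hz1, hz2⟩ := near hp h x m
    have e1 := (hle (σ^[m] x - z) i (0 - m)).trans (mul_le_mul_of_nonneg_left hz2 hN0)
    rw [map_sub, Pi.sub_apply, lp.coeFn_sub, Pi.sub_apply, hz z hz1, sub_zero, hcoef] at e1
    simpa [hx] using e1
  have hsingle : ∀ i s (a : K), H.symm (Pi.single i (lp.single p s a)) 0 1 = 0 := by
    intro i s a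
    refine (bd_iff hp h _).1 ?_ 0
    obtain ⟨D, hD⟩ := (Q_iff (hω0 i) s).2 (hQ i)
    have hD0 : 0 ≤ D := (norm_nonneg _).trans (hD 0)
    refine ⟨‖(H.symm : (Fin k → Lz K p) →L[K] Lz (Euc K 2) p)‖ * (D * ‖a‖), fun m => ?_⟩
    have e1 : σ^[m] (H.symm (Pi.single i (lp.single p s a)))
        = H.symm (Pi.single i (lp.single p (s - m) ((∏ j ∈ Finset.range m, ω i (s - j)) * a))) := by
      apply H.injective
      ext i' n
      obtain ⟨t, rfl⟩ : ∃ t, n = t - m := ⟨n + m, by ring⟩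
      rw [hcoef, H.apply_symm_apply, H.apply_symm_apply]
      by_cases hi : i' = i
      · subst hi
        by_cases ht : t = s
        · subst ht; simp
        · have : t - m ≠ s - m := fun h => ht (by linarith)
          simp [ht, this]
      · simp [hi]
    rw [e1]
    refine ((H.symm : (Fin k → Lz K p) →L[K] Lz (Euc K 2) p).le_opNorm _).trans ?_
    gcongr
    rw [Pi.norm_single, lp.norm_single (pos_iff_ne_zero.2 hp0), norm_mul]
    gcongr
    exact hD m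
  obtain ⟨φ, hφ⟩ : ∃ φ : (Fin k → Lz K p) →L[K] K, ∀ y, φ y = H.symm y 0 1 :=
    ⟨(EuclideanSpace.proj (1 : Fin 2)).comp ((lp.evalCLM K (fun _ : ℤ => Euc K 2) p 0).comp
      (H.symm : (Fin k → Lz K p) →L[K] Lz (Euc K 2) p)), fun _ => rfl⟩
  have hφ0 : ∀ y, φ y = 0 := by
    intro y
    rw [← Finset.univ_sum_single y, map_sum]
    refine Finset.sum_eq_zero fun i _ => ?_
    have h1 := (φ.comp (ContinuousLinearMap.single K (fun _ : Fin k => Lz K p) i)).hasSum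
      (lp.hasSum_single hp' (y i))
    have h2 : (fun s : ℤ => (φ.comp (ContinuousLinearMap.single K (fun _ : Fin k => Lz K p) i))
        (lp.single p s (y i s))) = fun _ => 0 := by
      ext s
      exact (hφ _).trans (hsingle i s _)
    rw [h2] at h1
    exact h1.unique hasSum_zero
  have := hφ0 (H (lp.single p 0 !₂[0, 1]))
  rw [hφ, H.symm_apply_apply] at this
  simp at this

end Pool.Agent.H88.MShift
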