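import Mathlib

set_option autoImplicit false

open scoped ENNReal

namespace Pool.Agent.H88.MShift

/-- Bilateral `p`-summable sequences with values in `X`. -/
noncomputable abbrev Lz (X : Type) [NormedAddCommGroup X] (p : ℝ≥0∞) : Type :=
  lp (fun _ : ℤ => X) p

/-- The Euclidean space `K ^ d`. -/
noncomputable abbrev Euc (K : Type) [RCLike K] (d : ℕ) : Type := EuclideanSpace K (Fin d)

/-- A sequence of invertible matrices, bounded together with the inverses. -/
def AdmissibleM {K : Type} [RCLike K] {d : ℕ} (S : ℤ → Matrix (Fin d) (Fin d) K) : Prop :=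
  ∃ C : ℝ, ∀ n : ℤ, IsUnit (S n) ∧ ∀ i j, ‖S n i j‖ ≤ C ∧ ‖(S n)⁻¹ i j‖ ≤ C

/-- `σ` is the shift operator generated by `S`. -/
def IsShiftM {K : Type} [RCLike K] {d : ℕ} {p : ℝ≥0∞} (S : ℤ → Matrix (Fin d) (Fin d) K)
    (σ : Lz (Euc K d) p → Lz (Euc K d) p) : Prop :=
  ∀ (x : Lz (Euc K d) p) (n : ℤ) (i : Fin d), σ x n i = ∑ j, S (n + 1) i j * x (n + 1) j

/-- `B` is a weighted backward shift whose weights are bounded and bounded away from zero. -/
def IsWShift {K : Type} [RCLike K] {p : ℝ≥0∞} (B : Lz K p → Lz K p) : Prop :=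
  ∃ (ω : ℤ → K) (c C : ℝ), 0 < c ∧ (∀ n, c ≤ ‖ω n‖ ∧ ‖ω n‖ ≤ C) ∧
    ∀ (x : Lz K p) (n : ℤ), B x n = ω (n + 1) * x (n + 1)

/-- Linear conjugacy of two self-maps of normed spaces. -/
def LinConj (K : Type) [RCLike K] {X Y : Type} [NormedAddCommGroup X] [NormedSpace K X]
    [NormedAddCommGroup Y] [NormedSpace K Y] (f : X → X) (g : Y → Y) : Prop :=
  ∃ H : X ≃L[K] Y, ∀ x, H (f x) = g (H x)

/-- The product of finitely many self-maps, acting coordinatewise. -/
def prodMap {X : Type} {k : ℕ} (B : Fin k → X → X) (y : Fin k → X) : Fin k → X := fun i => B i (y i)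

end Pool.Agent.H88.MShift
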