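import Pool.Agent.H88.MacLaneDefs

set_option autoImplicit false

namespace Pool.Agent.H88.MacLane

open Filter Complex Topology

lemma normal_of_tendsto (F : ℕ → ℂ → ℂ) (N : Set ℂ) (hd : ∀ n, DifferentiableOn ℂ (F n) N)
    (h : ∀ K ⊆ N, IsCompact K → ∀ M : ℝ, ∀ᶠ n in atTop, ∀ z ∈ K, M ≤ ‖F n z‖) :
    IsNormalOn (Set.range F) N := by
  intro u hu
  choose a ha using hu
  by_cases hc : ∃ c, ∃ᶠ n in atTop, a n = c
  · obtain ⟨c, hc⟩ := hc
    obtain ⟨φ, hφ, hφc⟩ := extraction_of_frequently_atTop hc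
    refine ⟨φ, hφ, Or.inl ⟨F c, hd c, fun K _ _ => ?_⟩⟩
    have : (fun n => u (φ n)) = fun _ => F c := by
      ext1 n; rw [← ha, hφc]
    rw [this]
    intro v hv
    exact Eventually.of_forall fun n x _ => refl_mem_uniformity hv
  · push Not at hc
    have ht : Tendsto a atTop atTop := by
      rw [tendsto_atTop]
      intro b
      have : ∀ᶠ n in atTop, ∀ c ∈ Finset.range b, a n ≠ c := by
        rw [eventually_all_finset]
        intro c _
        exact hc c
      filter_upwards [this] with n hn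
      by_contra hlt
      exact hn (a n) (Finset.mem_range.2 (not_le.1 hlt)) rfl
    refine ⟨id, strictMono_id, Or.inr fun K hK hKc M => ?_⟩
    filter_upwards [ht.eventually (h K hK hKc M)] with n hn z hz
    rw [id, ← ha]
    exact hn z hz

lemma not_normal (F : ℕ → ℂ → ℂ) (N : Set ℂ) (z₀ z₁ : ℂ) (h0 : z₀ ∈ N) (h1 : z₁ ∈ N)
    (a : ℕ → ℕ) (ha : Tendsto a atTop atTop) (hz : ∀ m, F (a m) z₀ = 0)
    (hi : Tendsto (fun m => ‖F m z₁‖) atTop atTop) : ¬ IsNormalOn (Set.range F) N := by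
  intro h
  obtain ⟨φ, hφ, h | h⟩ := h (fun m => F (a m)) (fun m => ⟨a m, rfl⟩)
  · obtain ⟨g, -, hg⟩ := h
    have h2 := (hg {z₁} (by simpa) isCompact_singleton).tendsto_at (Set.mem_singleton z₁)
    have h3 : Tendsto (fun m => ‖F (a (φ m)) z₁‖) atTop atTop :=
      hi.comp (ha.comp hφ.tendsto_atTop)
    exact not_tendsto_atTop_of_tendsto_nhds h2.norm h3
  · obtain ⟨n, hn⟩ := (h {z₀} (by simpa) isCompact_singleton 1).exists
    have := hn z₀ rfl
    rw [hz, norm_zero] at this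
    linarith

/-- first example -/
noncomputable def f₁ (z : ℂ) : ℂ := (1 / 2 - z)⁻¹ + (1 / 2 + z)⁻¹

lemma ne1 {z : ℂ} (hz : z ∈ Metric.ball (0 : ℂ) (1 / 2)) : 1 / 2 - z ≠ 0 ∧ 1 / 2 + z ≠ 0 := by
  rw [mem_ball_zero_iff] at hz
  constructor
  · intro h
    have : z = 1 / 2 := by linear_combination -h
    rw [this] at hz; norm_num at hz
  · intro h
    have : z = -(1 / 2) := by linear_combination h
    rw [this] at hz; norm_num at hz

lemma hasDeriv1 (n : ℕ) {z : ℂ} (hz : z ∈ Metric.ball (0 : ℂ) (1 / 2)) :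
    HasDerivAt (fun z : ℂ => (n.factorial : ℂ) *
      ((1 / 2 - z)⁻¹ ^ (n + 1) + (-1) ^ n * (1 / 2 + z)⁻¹ ^ (n + 1)))
      (((n + 1).factorial : ℂ) *
      ((1 / 2 - z)⁻¹ ^ (n + 1 + 1) + (-1) ^ (n + 1) * (1 / 2 + z)⁻¹ ^ (n + 1 + 1))) z := by
  obtain ⟨h1, h2⟩ := ne1 hz
  have d1 := (((hasDerivAt_id z).const_sub (1 / 2)).inv h1).pow (n + 1)
  have d2 := ((((hasDerivAt_id z).const_add (1 / 2)).inv h2).pow (n + 1)).const_mul ((-1) ^ n)
  have d3 := (d1.add d2).const_mul (n.factorial : ℂ)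
  refine d3.congr_deriv ?_
  simp only [id, Pi.inv_apply, Nat.factorial_succ, Nat.add_sub_cancel]
  generalize (1 / 2 - z) = a at *
  generalize (1 / 2 + z) = b at *
  push_cast
  simp only [div_eq_mul_inv, ← inv_pow]
  ring

lemma deriv1 (n : ℕ) : ∀ z ∈ Metric.ball (0 : ℂ) (1 / 2), iteratedDeriv n f₁ z =
    (n.factorial : ℂ) * ((1 / 2 - z)⁻¹ ^ (n + 1) + (-1) ^ n * (1 / 2 + z)⁻¹ ^ (n + 1)) := by
  induction n with
  | zero => intro z _; simp [f₁]
  | succ n ih =>
    intro z hz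
    rw [iteratedDeriv_succ, ← (hasDeriv1 n hz).deriv]
    apply EventuallyEq.deriv_eq
    filter_upwards [Metric.isOpen_ball.mem_nhds hz] with w hw using ih w hw

lemma diff1 (n : ℕ) : DifferentiableOn ℂ (iteratedDeriv n f₁) (Metric.ball (0 : ℂ) (1 / 2)) := by
  refine DifferentiableOn.congr ?_ (deriv1 n)
  intro z hz
  exact (hasDeriv1 n hz).differentiableAt.differentiableWithinAt

lemma pow_sub_ge {a b : ℝ} (hb : 1 ≤ b) (hab : b ≤ a) (n : ℕ) :
    a - b ≤ a ^ (n + 1) - b ^ (n + 1) := by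
  induction n with
  | zero => simp
  | succ n ih =>
    have h1 : b ^ (n + 1) ≤ a ^ (n + 1) := pow_le_pow_left₀ (by linarith) hab _
    have h2 : 0 ≤ a ^ (n + 1) := pow_nonneg (by linarith) _
    rw [pow_succ a (n + 1), pow_succ b (n + 1)]
    nlinarith

lemma lower1 (n : ℕ) {z : ℂ} (hz : z ∈ Metric.ball (0 : ℂ) (1 / 2)) :
    n * |‖1 / 2 - z‖⁻¹ - ‖1 / 2 + z‖⁻¹| ≤ ‖iteratedDeriv n f₁ z‖ := by
  obtain ⟨h1, h2⟩ := ne1 hz
  rw [deriv1 n z hz, norm_mul]
  rw [mem_ball_zero_iff] at hz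
  have hh : ‖(1 / 2 : ℂ)‖ = 1 / 2 := by simp
  have ha : 1 ≤ ‖1 / 2 - z‖⁻¹ := by
    apply one_le_inv₀ (norm_pos_iff.2 h1) |>.2
    linarith [norm_sub_le (1 / 2) z]
  have hb : 1 ≤ ‖1 / 2 + z‖⁻¹ := by
    apply one_le_inv₀ (norm_pos_iff.2 h2) |>.2
    linarith [norm_add_le (1 / 2) z]
  apply mul_le_mul _ _ (abs_nonneg _) (norm_nonneg _)
  · rw [Complex.norm_natCast]; exact_mod_cast Nat.self_le_factorial n
  · have h3 := abs_norm_sub_norm_le ((1 / 2 - z)⁻¹ ^ (n + 1))
      (-((-1) ^ n * (1 / 2 + z)⁻¹ ^ (n + 1)))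
    rw [sub_neg_eq_add] at h3
    refine le_trans ?_ h3
    simp only [norm_pow, norm_inv, norm_neg, norm_mul, norm_one, one_pow, one_mul]
    generalize ‖1 / 2 - z‖⁻¹ = a at *
    generalize ‖1 / 2 + z‖⁻¹ = b at *
    rcases le_total a b with h | h
    · have := pow_sub_ge ha h n
      rw [abs_sub_comm, abs_of_nonneg (by linarith), abs_sub_comm]
      exact this.trans (le_abs_self _)
    · have := pow_sub_ge hb h n
      rw [abs_of_nonneg (by linarith)]
      exact this.trans (le_abs_self _)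

lemma mem1 (c : ℂ) (hc : c = 1 / 4 ∨ c = -(1 / 4)) :
    c ∈ MacLaneSet (Metric.ball (0 : ℂ) (1 / 2)) f₁ := by
  have hsub : Metric.ball c (1 / 8) ⊆ Metric.ball (0 : ℂ) (1 / 2) := by
    apply Metric.ball_subset_ball'
    rcases hc with rfl | rfl <;> norm_num
  refine ⟨Metric.ball c (1 / 8), Metric.isOpen_ball, Metric.mem_ball_self (by norm_num), hsub, ?_⟩
  apply normal_of_tendsto _ _ (fun n => (diff1 n).mono hsub)
  intro K hK _ M
  filter_upwards [eventually_ge_atTop ⌈M⌉₊] with n hn z hz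
  have hzb := hK hz
  refine le_trans ?_ (lower1 n (hsub hzb))
  obtain ⟨h1, h2⟩ := ne1 (hsub hzb)
  have hM : M ≤ n := (Nat.le_ceil M).trans (by exact_mod_cast hn)
  have key : ∀ u v w : ℂ, u ≠ 0 → ‖w‖ < 1 / 8 → u = 1 / 4 + w → v = 3 / 4 - w →
      1 ≤ ‖u‖⁻¹ - ‖v‖⁻¹ := by
    intro u v w hu hw h3 h4
    have h5 : ‖u‖ ≤ 3 / 8 := by
      rw [h3]; have := norm_add_le (1 / 4) w
      have h : ‖(1 / 4 : ℂ)‖ = 1 / 4 := by simp
      linarith
    have h6 : 5 / 8 ≤ ‖v‖ := by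
      rw [h4]; have := norm_sub_norm_le (3 / 4) w
      have h : ‖(3 / 4 : ℂ)‖ = 3 / 4 := by simp
      linarith
    have h7 := inv_anti₀ (norm_pos_iff.2 hu) h5
    have h8 := inv_anti₀ (by norm_num) h6
    norm_num at h7 h8
    linarith
  have h3 : 1 ≤ |‖1 / 2 - z‖⁻¹ - ‖1 / 2 + z‖⁻¹| := by
    rw [mem_ball_iff_norm] at hzb
    rcases hc with rfl | rfl
    · refine (key _ _ (-(z - 1 / 4)) h1 (by rwa [norm_neg]) (by ring) (by ring)).trans
        (le_abs_self _)
    · rw [abs_sub_comm]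
      refine (key _ _ _ h2 hzb (by ring) (by ring)).trans (le_abs_self _)
  have : (0 : ℝ) ≤ n := Nat.cast_nonneg n
  nlinarith

lemma notMem1 (z : ℂ) (hz : z.re = 0) : z ∉ MacLaneSet (Metric.ball (0 : ℂ) (1 / 2)) f₁ := by
  rintro ⟨N, hNo, hzN, hNG, hN⟩
  obtain ⟨δ, hδ, hball⟩ := Metric.isOpen_iff.1 hNo z hzN
  have hpi := Real.pi_pos
  obtain ⟨r, hr1, hr2⟩ := exists_rat_btwn (show Real.arctan (2 * z.im - δ) / Real.pi <
    Real.arctan (2 * z.im + δ) / Real.pi by
      gcongr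
      linarith)
  rw [div_lt_iff₀ hpi] at hr1
  rw [lt_div_iff₀ hpi] at hr2
  set θ : ℝ := r * Real.pi with hθ
  have hθ1 : -(Real.pi / 2) < θ := (Real.neg_pi_div_two_lt_arctan _).trans hr1
  have hθ2 : θ < Real.pi / 2 := hr2.trans (Real.arctan_lt_pi_div_two _)
  have hat : Real.arctan (Real.tan θ) = θ := Real.arctan_tan hθ1 hθ2
  rw [← hat, Real.arctan_strictMono.lt_iff_lt] at hr1 hr2
  have hcos : 0 < Real.cos θ := Real.cos_pos_of_mem_Ioo ⟨hθ1, hθ2⟩
  have hz0 : (Real.tan θ / 2 : ℝ) * I ∈ N := by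
    apply hball
    rw [mem_ball_iff_norm]
    have : (Real.tan θ / 2 : ℝ) * I - z = ((Real.tan θ / 2 - z.im : ℝ) : ℂ) * I := by
      generalize Real.tan θ = t
      apply Complex.ext <;> simp [hz]
    rw [this, norm_mul, norm_I, mul_one, norm_real, Real.norm_eq_abs, abs_lt]
    constructor <;> linarith
  have hz1 : z + (δ / 2 : ℝ) ∈ N := by
    apply hball
    rw [mem_ball_iff_norm, add_sub_cancel_left, norm_real, Real.norm_eq_abs,
      abs_of_pos (by linarith)]
    linarith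
  refine not_normal _ N _ _ hz0 hz1 (fun m => 2 * r.den * m + (2 * r.den - 1)) ?_ ?_ ?_ hN
  · apply tendsto_atTop_mono (f := fun m => m) _ tendsto_id
    intro m
    have := r.den_pos
    nlinarith [Nat.zero_le (2 * r.den - 1)]
  · intro m
    have hd := r.den_pos
    rw [deriv1 _ _ (hNG hz0)]
    have h1 : 2 * r.den * m + (2 * r.den - 1) + 1 = 2 * r.den * (m + 1) := by
      rw [mul_add]; omega
    have h2 : Odd (2 * r.den * m + (2 * r.den - 1)) := by
      rw [← Nat.not_even_iff_odd, ← Nat.even_add_one, h1, mul_assoc]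
      exact even_two_mul _
    rw [h1, h2.neg_one_pow]
    have hc : (Real.cos θ : ℂ) ≠ 0 := by exact_mod_cast hcos.ne'
    have e1 : (1 / 2 + (Real.tan θ / 2 : ℝ) * I : ℂ) = exp (θ * I) / (2 * Real.cos θ) := by
      rw [exp_mul_I, ← ofReal_cos, ← ofReal_sin, Real.tan_eq_sin_div_cos, ofReal_div, ofReal_div]
      field_simp
      norm_num
      ring
    have e2 : (1 / 2 - (Real.tan θ / 2 : ℝ) * I : ℂ) = (exp (θ * I))⁻¹ / (2 * Real.cos θ) := by
      rw [← exp_neg, ← neg_mul, exp_mul_I, cos_neg, sin_neg, ← ofReal_cos, ← ofReal_sin,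
        Real.tan_eq_sin_div_cos, ofReal_div, ofReal_div]
      field_simp
      norm_num
      ring
    have e3 : exp (θ * I) ^ (2 * r.den * (m + 1)) = 1 := by
      rw [← exp_nat_mul]
      have : ((2 * r.den * (m + 1) : ℕ) : ℂ) * (θ * I) =
          ((r.num * (m + 1) : ℤ) : ℂ) * (2 * Real.pi * I) := by
        have h3 : (r : ℂ) * r.den = r.num := by exact_mod_cast Rat.mul_den_eq_num r
        rw [hθ]; push_cast
        linear_combination (2 * (m + 1) * Real.pi * I) * h3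
      rw [this, exp_int_mul_two_pi_mul_I]
    rw [e1, e2]
    simp only [inv_pow, div_pow, e3]
    simp
  · have hpos : 0 < |‖1 / 2 - (z + (δ / 2 : ℝ))‖⁻¹ - ‖1 / 2 + (z + (δ / 2 : ℝ))‖⁻¹| := by
      rw [abs_pos, sub_ne_zero]
      intro h
      have h1 := inv_injective h
      have h2 : ‖1 / 2 - (z + (δ / 2 : ℝ))‖ ^ 2 = ‖1 / 2 + (z + (δ / 2 : ℝ))‖ ^ 2 := by rw [h1]
      rw [Complex.sq_norm, Complex.sq_norm, normSq_apply, normSq_apply] at h2
      simp [hz] at h2
      nlinarith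
    exact tendsto_atTop_mono (fun n => lower1 n (hNG hz1))
      (tendsto_natCast_atTop_atTop.atTop_mul_const hpos)

lemma convex_sc {s : Set ℂ} (hs : Convex ℝ s) (hne : s.Nonempty) : IsSimplyConnected s := by
  have := hs.contractibleSpace hne
  unfold IsSimplyConnected
  infer_instance

theorem ex1 : ¬ IsPreconnected (MacLaneSet (Metric.ball (0 : ℂ) (1 / 2)) f₁) := by
  intro h
  have h1 := h.intermediate_value (mem1 _ (Or.inr rfl)) (mem1 _ (Or.inl rfl))
    continuous_re.continuousOn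
  obtain ⟨z, hz, hz0⟩ := h1 (show (0 : ℝ) ∈ _ by constructor <;> norm_num)
  exact notMem1 z hz0 hz

/-- second example -/
noncomputable def f₂ (z : ℂ) : ℂ := exp (2 * z) - exp (-(2 * z))

lemma deriv2 (n : ℕ) : iteratedDeriv n f₂ =
    fun z => 2 ^ n * (exp (2 * z) - (-1) ^ n * exp (-(2 * z))) := by
  induction n with
  | zero => ext z; simp [f₂]
  | succ n ih =>
    rw [iteratedDeriv_succ, ih]
    ext z
    have d1 := ((hasDerivAt_id z).const_mul 2).cexp
    have d2 := (((hasDerivAt_id z).const_mul 2).neg.cexp).const_mul ((-1) ^ n)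
    have d3 := (d1.sub d2).const_mul ((2 : ℂ) ^ n)
    refine d3.deriv.trans ?_
    simp only [id, Pi.neg_apply]
    ring

lemma prod2 (z : ℂ) : (exp (2 * z) - exp (-(2 * z))) * (exp (2 * z) + exp (-(2 * z))) *
    exp (4 * z) = exp (8 * z) - 1 := by
  have h1 : exp (4 * z) = exp (2 * z) ^ 2 := by rw [← exp_nat_mul]; congr 1; push_cast; ring
  have h2 : exp (8 * z) = exp (2 * z) ^ 4 := by rw [← exp_nat_mul]; congr 1; push_cast; ring
  rw [h1, h2, exp_neg]
  have := exp_ne_zero (2 * z)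
  field_simp
  ring

lemma lower2 (K : Set ℂ) (hK : K ⊆ {z | exp (8 * z) ≠ 1}) (hKc : IsCompact K) (M : ℝ) :
    ∀ᶠ n in atTop, ∀ z ∈ K, M ≤ ‖iteratedDeriv n f₂ z‖ := by
  obtain ⟨c, hc0, hc⟩ := hKc.exists_forall_le'
    (f := fun z => min ‖exp (2 * z) - exp (-(2 * z))‖ ‖exp (2 * z) + exp (-(2 * z))‖)
    (by fun_prop) (a := 0) (by
      intro z hz
      have h1 := hK hz
      have h2 := prod2 z
      rw [lt_min_iff, norm_pos_iff, norm_pos_iff]
      constructor
      · intro h; rw [h] at h2; apply h1; linear_combination -h2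
      · intro h; rw [h] at h2; apply h1; linear_combination -h2)
  have ht : Tendsto (fun n : ℕ => (2 : ℝ) ^ n * c) atTop atTop :=
    (tendsto_pow_atTop_atTop_of_one_lt one_lt_two).atTop_mul_const hc0
  filter_upwards [ht.eventually_ge_atTop M] with n hn z hz
  refine hn.trans ?_
  rw [deriv2, norm_mul, norm_pow, Complex.norm_two]
  gcongr
  refine (hc z hz).trans ?_
  rcases neg_one_pow_eq_or ℂ n with h | h
  · rw [h, one_mul]; exact min_le_left _ _
  · rw [h, neg_one_mul, sub_neg_eq_add]; exact min_le_right _ _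

lemma countable2 : {z : ℂ | exp (8 * z) = 1}.Countable := by
  apply (Set.countable_range (fun k : ℤ => (k : ℂ) * (2 * Real.pi * I) / 8)).mono
  intro z hz
  obtain ⟨k, hk⟩ := exp_eq_one_iff.1 hz
  exact ⟨k, by simp only; rw [← hk]; ring⟩

lemma eq2 : MacLaneSet Set.univ f₂ = {z : ℂ | exp (8 * z) = 1}ᶜ := by
  ext z
  constructor
  · rintro ⟨N, hNo, hzN, -, hN⟩ hz
    obtain ⟨z₁, hz1, hz1N⟩ : ∃ z₁ ∈ {z : ℂ | exp (8 * z) = 1}ᶜ, z₁ ∈ N :=
      (countable2.dense_compl ℂ).exists_mem_open hNo ⟨z, hzN⟩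
    have hi : Tendsto (fun m => ‖iteratedDeriv m f₂ z₁‖) atTop atTop := by
      rw [tendsto_atTop]
      intro M
      filter_upwards [lower2 {z₁} (by simpa using hz1) isCompact_singleton M] with n hn
      exact hn z₁ rfl
    have h2 := prod2 z
    have h3 : exp (8 * z) = 1 := hz
    rw [h3, sub_self, mul_eq_zero, mul_eq_zero] at h2
    rcases h2 with (h | h) | h
    · refine not_normal _ N _ _ hzN hz1N (fun m => 2 * m) ?_ ?_ hi hN
      · exact tendsto_atTop_mono (f := fun m => m) (fun m => by omega) tendsto_id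
      · intro m
        rw [deriv2]
        simp only [(even_two_mul m).neg_one_pow, one_mul, h, mul_zero]
    · refine not_normal _ N _ _ hzN hz1N (fun m => 2 * m + 1) ?_ ?_ hi hN
      · exact tendsto_atTop_mono (f := fun m => m) (fun m => by omega) tendsto_id
      · intro m
        rw [deriv2]
        simp only [(odd_two_mul_add_one m).neg_one_pow, neg_one_mul, sub_neg_eq_add, h, mul_zero]
    · exact exp_ne_zero _ h
  · intro hz
    refine ⟨{z | exp (8 * z) ≠ 1}, isOpen_ne_fun (by fun_prop) (by fun_prop), hz,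
      Set.subset_univ _, ?_⟩
    apply normal_of_tendsto _ _ _ lower2
    intro n
    rw [deriv2]
    fun_prop

theorem ex2a : IsConnected (MacLaneSet Set.univ f₂) := by
  rw [eq2]
  apply countable2.isConnected_compl_of_one_lt_rank
  rw [Complex.rank_real_complex]; norm_num

theorem ex2b : ¬ IsSimplyConnected (MacLaneSet Set.univ f₂) := by
  rw [eq2]
  intro h
  obtain ⟨L, hL, hLe⟩ := Complex.exists_continuousOn_eqOn_exp_comp h
    (isOpen_ne_fun (by fun_prop) (by fun_prop)) (g := id) continuousOn_id (by simp)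
  set γ : ℝ → ℂ := fun t => exp (Real.log (1 / 2) + t * I) with hγ
  have hγn : ∀ t, ‖γ t‖ = 1 / 2 := by
    intro t
    simp only [hγ]
    rw [norm_exp]
    simp only [add_re, ofReal_re, mul_re, I_re, mul_zero, ofReal_im, I_im, mul_one, sub_self,
      add_zero]
    exact Real.exp_log (by norm_num)
  have hγm : ∀ t, γ t ∈ {z : ℂ | exp (8 * z) = 1}ᶜ := by
    intro t ht
    obtain ⟨k, hk⟩ := exp_eq_one_iff.1 ht
    have h1 := congrArg norm hk
    simp only [norm_mul, hγn, Complex.norm_ofNat, norm_intCast, norm_real, norm_I,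
      Real.norm_eq_abs, abs_of_pos Real.pi_pos] at h1
    rcases eq_or_ne k 0 with h0 | h0
    · rw [h0] at h1; norm_num at h1
    · have : (1 : ℝ) ≤ |(k : ℝ)| := by exact_mod_cast Int.one_le_abs h0
      nlinarith [Real.pi_gt_three]
  have hγc : Continuous γ := by simp only [hγ]; fun_prop
  have hc : Continuous (fun t : ℝ => (L (γ t)).im - t) :=
    (continuous_im.comp (hL.comp_continuous hγc hγm)).sub continuous_id
  have hint : ∀ t : ℝ, ∃ k : ℤ, (L (γ t)).im - t = k * (2 * Real.pi) := by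
    intro t
    have h1 : exp (L (γ t)) = exp (Real.log (1 / 2) + t * I) := hLe (hγm t)
    obtain ⟨k, hk⟩ := exp_eq_exp_iff_exists_int.1 h1
    refine ⟨k, ?_⟩
    rw [hk]
    simp only [add_im, ofReal_im, mul_im, ofReal_re, I_im, I_re, mul_re, intCast_re, intCast_im,
      re_ofNat, im_ofNat]
    ring
  have hper : γ (2 * Real.pi) = γ 0 := by
    simp only [hγ]
    rw [exp_add, exp_add]
    congr 1
    push_cast
    rw [exp_two_pi_mul_I]; simp
  obtain ⟨k0, hk0⟩ := hint 0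
  have h1 := intermediate_value_univ (2 * Real.pi) 0 hc
  obtain ⟨t, ht⟩ := h1 (show k0 * (2 * Real.pi) - Real.pi ∈ _ by
    simp only [hper]
    constructor <;> linarith [Real.pi_pos])
  obtain ⟨k, hk⟩ := hint t
  simp only at ht
  have h2 : ((2 * k0 - 1 : ℤ) : ℝ) = (2 * k : ℤ) := by
    push_cast
    apply mul_right_cancel₀ Real.pi_pos.ne'
    linarith
  have h3 : 2 * k0 - 1 = 2 * k := by exact_mod_cast h2
  omega

end Pool.Agent.H88.MacLane
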