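import Mathlib

set_option autoImplicit false

namespace Pool.Agent.H88.MacLane

open Filter

/-- Montel normality of a family `F` on an open set `N`: every sequence in `F` has a subsequence
converging uniformly on compact subsets of `N` to an analytic function or to infinity. -/
def IsNormalOn (F : Set (ℂ → ℂ)) (N : Set ℂ) : Prop :=
  ∀ u : ℕ → ℂ → ℂ, (∀ n, u n ∈ F) → ∃ φ : ℕ → ℕ, StrictMono φ ∧
    ((∃ g : ℂ → ℂ, DifferentiableOn ℂ g N ∧
        ∀ K ⊆ N, IsCompact K → TendstoUniformlyOn (fun n => u (φ n)) g atTop K) ∨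
      ∀ K ⊆ N, IsCompact K → ∀ M : ℝ, ∀ᶠ n in atTop, ∀ z ∈ K, M ≤ ‖u (φ n) z‖)

/-- The set `M(f)` of MacLane points of `f` in `G`. -/
def MacLaneSet (G : Set ℂ) (f : ℂ → ℂ) : Set ℂ :=
  {z₀ | ∃ N : Set ℂ, IsOpen N ∧ z₀ ∈ N ∧ N ⊆ G ∧
    IsNormalOn (Set.range fun n : ℕ => iteratedDeriv n f) N}

end Pool.Agent.H88.MacLane
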