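import Pool.Agent.H88.MontDefs

open Finset Filter Topology MvPolynomial

namespace Pool.Agent.H88.Mont

@[simp] lemma ix0 (p : ℕ × ℕ) : ix p 0 = p.1 := by simp [ix]

@[simp] lemma ix1 (p : ℕ × ℕ) : ix p 1 = p.2 := by simp [ix]

lemma ix_le {p : ℕ × ℕ} {d : Fin 2 →₀ ℕ} : ix p ≤ d ↔ p.1 ≤ d 0 ∧ p.2 ≤ d 1 := by
  simp [Finsupp.le_def]

lemma ix_eq {p : ℕ × ℕ} {d : Fin 2 →₀ ℕ} : ix p = d ↔ p.1 = d 0 ∧ p.2 = d 1 := by
  simp [Finsupp.ext_iff]

lemma ix_deg (p : ℕ × ℕ) : (monomial (ix p) (1 : ℂ)).totalDegree = p.1 + p.2 := by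
  rw [totalDegree_monomial _ one_ne_zero, Finsupp.sum_fintype _ _ fun _ => rfl]
  simp

def Tri (n : ℕ) : Finset (ℕ × ℕ) := (range (n + 1)).biUnion antidiagonal

lemma mem_Tri {n : ℕ} {p : ℕ × ℕ} : p ∈ Tri n ↔ p.1 + p.2 ≤ n := by simp [Tri]

lemma card_Tri (n : ℕ) : (Tri n).card = (n + 1) * (n + 2) / 2 := by
  rw [Tri, card_biUnion fun i _ j _ h => disjoint_left.2 fun p a b =>
    h ((mem_antidiagonal.1 a).symm.trans (mem_antidiagonal.1 b))]
  simp only [Nat.card_antidiagonal]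
  have := sum_range_id_mul_two (n + 2)
  rw [sum_range_succ'] at this
  rw [mul_comm]
  simp only [Nat.add_succ_sub_one] at this
  omega

lemma miss {b t : ℕ} (hb : 0 < b) (ht : 0 < t) {S : Finset (ℕ × ℕ)}
    (h : IsInterp (b + 1) ((b + 1) * t) S) : ∃ a : ℕ × ℕ, a.1 + a.2 ≤ b + 1 ∧
      ∀ j, (a.1 + j, a.2 + b * j) ∈ S → a.1 + j + (a.2 + b * j) ≤ (b + 1) * t := by
  by_contra! hn
  choose! J h1 h2 using hn
  obtain ⟨hc, ha, hd⟩ := h
  have sub : Tri ((b + 1) * t) ⊆ S := fun p hp => ha _ _ (mem_Tri.1 hp)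
  have key : ∀ a : ℕ × ℕ, a.1 + a.2 ≤ b + 1 → ∀ x y j k, a.1 + j = x + k → a.2 + b * j = y + b * k →
      x + y ≤ b + 1 → a ≠ 0 → (x, y) ≠ 0 → a = (x, y) := by
    rintro ⟨u, v⟩ h x y j k e1 e2 h' n1 n2
    simp only [ne_eq, Prod.mk_eq_zero, Prod.mk.injEq] at *
    rcases lt_trichotomy j k with l | rfl | l
    · obtain ⟨i, rfl⟩ := Nat.exists_eq_add_of_lt l
      rw [mul_add, mul_add, mul_one] at e2
      omega
    · omega
    · obtain ⟨i, rfl⟩ := Nat.exists_eq_add_of_lt l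
      rw [mul_add, mul_add, mul_one] at e2
      omega
  obtain ⟨j, hj⟩ : ∃ j, j = J (b + 1, 0) := ⟨_, rfl⟩
  have a1 := h1 (b + 1, 0) le_rfl
  have a2 := h2 (b + 1, 0) le_rfl
  simp only [← hj, zero_add] at a1 a2
  have j0 : t ≤ j := by
    by_contra! l
    nlinarith
  have j1 : 0 < b * j := Nat.mul_pos hb (ht.trans_le j0)
  have j2 := Nat.mul_le_mul_left (b + 1) j0
  have := card_le_card_of_injOn (s := (Tri (b + 1)).erase 0)
    (t := (S \ Tri ((b + 1) * t)).erase (b + 1 + j, b * j - 1))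
    (fun a => (a.1 + J a, a.2 + b * J a)) (fun a h => by
      obtain ⟨-, h⟩ := mem_erase.1 h
      rw [mem_Tri] at h
      refine mem_erase.2 ⟨fun e => ?_, mem_sdiff.2 ⟨h1 a h, fun m => (h2 a h).not_ge (mem_Tri.1 m)⟩⟩
      obtain ⟨e1, e2⟩ := Prod.mk.inj e
      have : b * j ≤ b * J a := Nat.mul_le_mul_left _ (by omega)
      omega) (fun a h a' h' e => by
      obtain ⟨e1, e2⟩ := Prod.mk.inj e
      exact key a (mem_Tri.1 (mem_erase.1 h).2) _ _ _ _ e1 e2 (mem_Tri.1 (mem_erase.1 h').2)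
        (mem_erase.1 h).1 (mem_erase.1 h').1)
  rw [card_erase_of_mem (mem_Tri.2 (by simp)), card_erase_of_mem (mem_sdiff.2
    ⟨hd _ _ _ _ a1 le_rfl (Nat.sub_le _ _), fun m => by
      have := mem_Tri.1 m
      rw [add_mul b 1 j] at j2
      simp only at this
      omega⟩), card_sdiff_of_subset sub, hc, card_Tri, card_Tri] at this
  have : 6 ≤ (b + 1 + 1) * (b + 1 + 2) := by nlinarith
  omega

noncomputable def ff (b : ℕ) : MvPowerSeries (Fin 2) ℂ := fun d => if d 1 = b * d 0 then 1 else 0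

lemma co (b : ℕ) (a : ℕ × ℕ) (d : Fin 2 →₀ ℕ) :
    MvPowerSeries.coeff d (((monomial (ix a) (1 : ℂ) : MvPolynomial (Fin 2) ℂ) :
      MvPowerSeries (Fin 2) ℂ) * ff b) =
      if a.1 ≤ d 0 ∧ d 1 = a.2 + b * (d 0 - a.1) then 1 else 0 := by
  rw [coe_monomial, MvPowerSeries.coeff_monomial_mul, MvPowerSeries.coeff_apply]
  simp only [ix_le, ff, one_mul, Finsupp.coe_tsub, Pi.sub_apply, ix0, ix1, ← ite_and]
  exact if_congr (by omega) rfl rfl

noncomputable def GG (b : ℕ) : MvPolynomial (Fin 2) ℂ := 1 - monomial (ix (1, b)) 1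

lemma GG_mul (b : ℕ) : (GG b : MvPowerSeries (Fin 2) ℂ) * ff b = 1 := by
  ext d
  rw [GG, ← coeToMvPowerSeries.ringHom_apply, map_sub, map_one, coeToMvPowerSeries.ringHom_apply,
    sub_mul, map_sub, co, one_mul, MvPowerSeries.coeff_one, MvPowerSeries.coeff_apply]
  have : d = 0 ↔ d 0 = 0 ∧ d 1 = 0 := by simp [Finsupp.ext_iff]
  simp only [ff, this]
  rcases h : d 0 with _ | k
  · simp
  · simp [mul_add, add_comm]

lemma GG_deg (b : ℕ) : (GG b).totalDegree = b + 1 := by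
  rw [GG, sub_eq_add_neg, totalDegree_add_eq_right_of_totalDegree_lt (by
    rw [totalDegree_neg, ix_deg, totalDegree_one]
    omega),
    totalDegree_neg, ix_deg, add_comm]

lemma ev (a : ℕ × ℕ) : eval ![2, 1] (monomial (ix a) (1 : ℂ)) = 2 ^ a.1 := by
  simp [eval_monomial, Finsupp.prod_fintype]

lemma bad {b t : ℕ} (hb : 0 < b) (ht : 0 < t) {S : Finset (ℕ × ℕ)}
    (h : IsInterp (b + 1) ((b + 1) * t) S) : ∃ P Q, IsApprox (ff b) (b + 1) ((b + 1) * t) S P Q ∧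
      eval ![2, 1] Q ≠ 0 ∧ 0 ≤ (eval ![2, 1] P / eval ![2, 1] Q).re := by
  obtain ⟨a, h1, h2⟩ := miss hb ht h
  refine ⟨∑ j ∈ range ((b + 1) * t + 1) with a.1 + j + (a.2 + b * j) ≤ (b + 1) * t,
    monomial (ix (a.1 + j, a.2 + b * j)) 1, monomial (ix a) 1, ⟨by simp, ?_, by rwa [ix_deg],
      fun p hp => ?_⟩, by simp [ev], ?_⟩
  · exact totalDegree_finsetSum_le fun j hj => by rw [ix_deg]; exact (mem_filter.1 hj).2
  · rw [map_sub, co, coeff_coe, coeff_sum]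
    simp only [coeff_monomial, ix_eq, ix0, ix1]
    split_ifs with c
    · obtain ⟨j, e⟩ := Nat.exists_eq_add_of_le c.1
      have e2 := c.2
      rw [e, Nat.add_sub_cancel_left] at e2
      have := h2 j (by rwa [← e, ← e2])
      rw [sum_eq_single_of_mem j (mem_filter.2 ⟨mem_range.2 (by omega), this⟩)
        fun k _ hk => if_neg (by omega), if_pos ⟨e.symm, e2.symm⟩, sub_self]
    · rw [sum_eq_zero fun k _ => if_neg fun e => c ⟨by omega, by
        rw [← e.1, ← e.2, Nat.add_sub_cancel_left]⟩, sub_self]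
  · simp only [map_sum, ev, sum_div, Complex.re_sum, pow_add]
    refine sum_nonneg fun j _ => ?_
    rw [mul_div_cancel_left₀ _ (by simp)]
    norm_cast
    positivity

end Pool.Agent.H88.Mont
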