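import Mathlib

namespace Pool.Agent.H88.Mont

noncomputable def ix (p : ℕ × ℕ) : Fin 2 →₀ ℕ := Finsupp.single 0 p.1 + Finsupp.single 1 p.2

def IsInterp (ν n : ℕ) (S : Finset (ℕ × ℕ)) : Prop :=
  S.card = (n + 1) * (n + 2) / 2 + (ν + 1) * (ν + 2) / 2 - 1 ∧ (∀ j k, j + k ≤ n → (j, k) ∈ S) ∧
    ∀ j k l m, (j, k) ∈ S → l ≤ j → m ≤ k → (l, m) ∈ S

def IsApprox (f : MvPowerSeries (Fin 2) ℂ) (ν n : ℕ) (S : Finset (ℕ × ℕ))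
    (P Q : MvPolynomial (Fin 2) ℂ) : Prop :=
  Q ≠ 0 ∧ P.totalDegree ≤ n ∧ Q.totalDegree ≤ ν ∧
    ∀ p ∈ S, MvPowerSeries.coeff (ix p) ((Q : MvPowerSeries (Fin 2) ℂ) * f - (P : MvPowerSeries (Fin 2) ℂ)) = 0

end Pool.Agent.H88.Mont
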