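import Pool.Agent.H88.MultDefs

set_option autoImplicit false
set_option linter.unusedSectionVars false
set_option linter.deprecated false

namespace Pool.Agent.H88.Mult

open MeasureTheory Filter Topology Set

lemma permanence_of {A B : Type*} [NormedRing A] [NormedAlgebra ℂ A] [NormedRing B]
    [NormedAlgebra ℂ B]
    (h : ∀ x : A, (∃ C : ℝ, ∀ y : A, ‖y‖ ≤ C * ‖x * y‖ ∧ ‖y‖ ≤ C * ‖y * x‖) → IsUnit x)
    (ι : A →ₐ[ℂ] B) (hι : IsEmbedding ι) (x : A) : spectrum ℂ x = spectrum ℂ (ι x) := by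
  have key : ∀ a : A, IsUnit a ↔ IsUnit (ι a) := by
    intro a
    refine ⟨fun ha => ha.map ι, fun ha => h a ?_⟩
    let L : A →L[ℂ] B := ⟨ι.toLinearMap, hι.continuous⟩
    obtain ⟨K, hK⟩ := L.antilipschitz_of_isEmbedding hι
    obtain ⟨b, hb⟩ := ha
    have h1 : ∀ y, ‖y‖ ≤ K * ‖ι y‖ := fun y => ZeroHomClass.bound_of_antilipschitz L hK y
    have h2 : ∀ y z : A, (ι y = ↑b⁻¹ * ι z ∨ ι y = ι z * ↑b⁻¹) →
        ‖y‖ ≤ K * (‖(↑b⁻¹ : B)‖ * ‖L‖) * ‖z‖ := by
      intro y z hz
      refine (h1 y).trans ?_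
      have h4 : ‖ι z‖ ≤ ‖L‖ * ‖z‖ := L.le_opNorm z
      rw [mul_assoc, mul_assoc]
      gcongr
      rcases hz with h3 | h3 <;> rw [h3]
      · exact (norm_mul_le _ _).trans (by gcongr)
      · exact (norm_mul_le _ _).trans (by rw [mul_comm]; gcongr)
    exact ⟨K * (‖(↑b⁻¹ : B)‖ * ‖L‖), fun y =>
      ⟨h2 y _ (Or.inl (by rw [map_mul, ← hb, Units.inv_mul_cancel_left])),
       h2 y _ (Or.inr (by rw [map_mul, ← hb, Units.mul_inv_cancel_right]))⟩⟩
  ext c
  rw [spectrum.mem_iff, spectrum.mem_iff, key, map_sub, AlgHom.commutes]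

variable {G : Type*} [AddCommGroup G] [TopologicalSpace G] [IsTopologicalAddGroup G]
  [MeasurableSpace G] [BorelSpace G] {μ : Measure G} [μ.IsAddHaarMeasure]
  {p : ENNReal} [Fact (1 ≤ p)]

lemma norm_transl (a : G) (g : Lp ℂ p μ) : ‖transl μ p a g‖ = ‖g‖ :=
  Lp.norm_compMeasurePreserving g (measurePreserving_add_left μ a)

lemma coe_transl (a : G) (g : Lp ℂ p μ) : transl μ p a g =ᵐ[μ] fun x => g (a + x) :=
  Lp.coeFn_compMeasurePreserving g (measurePreserving_add_left μ a)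

lemma transl_transl (a b : G) (g : Lp ℂ p μ) :
    transl μ p a (transl μ p b g) = transl μ p (a + b) g := by
  apply Lp.ext
  have h1 := (measurePreserving_add_left μ a).quasiMeasurePreserving.ae_eq_comp (coe_transl b g)
  filter_upwards [coe_transl a (transl μ p b g), coe_transl (a + b) g, h1] with x h2 h3 h4
  rw [h2, h3]
  simp only [Function.comp_apply] at h4
  rw [h4]; congr 1; abel

lemma transl_zero (g : Lp ℂ p μ) : transl μ p 0 g = g := by
  apply Lp.ext
  filter_upwards [coe_transl 0 g] with x h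
  rw [h, zero_add]

lemma mem_iff {T : Lp ℂ p μ →L[ℂ] Lp ℂ p μ} :
    T ∈ multipliers μ p ↔ ∀ a g, transl μ p a (T g) = T (transl μ p a g) := by
  rw [multipliers, Subalgebra.mem_centralizer_iff]
  constructor
  · intro h a g
    exact DFunLike.congr_fun (h _ ⟨a, rfl⟩) g
  · rintro h _ ⟨a, rfl⟩
    exact ContinuousLinearMap.ext (h a)

variable [CompactSpace G]

lemma transl_toLp (a : G) (u : C(G, ℂ)) : transl μ p a (ContinuousMap.toLp p μ ℂ u) =
    ContinuousMap.toLp p μ ℂ (u.comp ⟨fun x => a + x, by fun_prop⟩) := by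
  apply Lp.ext
  have h1 := (measurePreserving_add_left μ a).quasiMeasurePreserving.ae_eq_comp
    (ContinuousMap.coeFn_toLp (p := p) (𝕜 := ℂ) μ u)
  filter_upwards [coe_transl a (ContinuousMap.toLp p μ ℂ u), h1, ContinuousMap.coeFn_toLp (p := p)
    (𝕜 := ℂ) μ (u.comp ⟨fun x => a + x, by fun_prop⟩)] with x h2 h3 h4
  rw [h2, h4]
  exact h3

lemma cont_transl (hp : p ≠ ⊤) (g : Lp ℂ p μ) : Continuous fun a => transl μ p a g := by
  have h1 : Continuous fun a : G => (⟨fun x => a + x, by fun_prop⟩ : C(G, G)) :=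
    ContinuousMap.continuous_of_continuous_uncurry _ continuous_add
  exact Continuous.compMeasurePreservingLp (continuous_const (y := g)) h1
    (fun a => measurePreserving_add_left μ a) hp

lemma integrable_cont {E : Type*} [NormedAddCommGroup E] {f : G → E} (hf : Continuous f) :
    Integrable f μ := hf.integrable_of_hasCompactSupport (HasCompactSupport.of_compactSpace f)

lemma integrable_conv (hp : p ≠ ⊤) (u : C(G, ℂ)) (g : Lp ℂ p μ) :
    Integrable (fun y => u y • transl μ p (-y) g) μ :=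
  integrable_cont (u.continuous.smul ((cont_transl hp g).comp continuous_neg))

lemma norm_conv_le (u : C(G, ℂ)) (g : Lp ℂ p μ) :
    ‖∫ y, u y • transl μ p (-y) g ∂μ‖ ≤ (∫ y, ‖u y‖ ∂μ) * ‖g‖ := by
  refine (norm_integral_le_integral_norm _).trans (le_of_eq ?_)
  simp only [norm_smul, norm_transl, integral_mul_const]

/-- convolution operator -/
noncomputable def conv (hp : p ≠ ⊤) (u : C(G, ℂ)) : Lp ℂ p μ →L[ℂ] Lp ℂ p μ :=
  LinearMap.mkContinuous
    { toFun := fun g => ∫ y, u y • transl μ p (-y) g ∂μ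
      map_add' := fun g h => by
        simp only [map_add, smul_add]
        exact integral_add (integrable_conv hp u g) (integrable_conv hp u h)
      map_smul' := fun c g => by
        simp only [map_smul, RingHom.id_apply, smul_comm (u _) c, integral_smul] }
    (∫ y, ‖u y‖ ∂μ) (norm_conv_le u)

lemma conv_apply (hp : p ≠ ⊤) (u : C(G, ℂ)) (g : Lp ℂ p μ) :
    conv hp u g = ∫ y, u y • transl μ p (-y) g ∂μ := rfl

lemma comm_conv (hp : p ≠ ⊤) (u : C(G, ℂ)) {T : Lp ℂ p μ →L[ℂ] Lp ℂ p μ}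
    (hT : T ∈ multipliers μ p) (g : Lp ℂ p μ) : T (conv hp u g) = conv hp u (T g) := by
  rw [conv_apply, conv_apply, ← T.integral_comp_comm (integrable_conv hp u g)]
  simp only [map_smul, mem_iff.1 hT]

lemma transl_mem (a : G) : transl μ p a ∈ multipliers μ p :=
  mem_iff.2 fun b g => by rw [transl_transl, transl_transl, add_comm]

lemma conv_mem (hp : p ≠ ⊤) (u : C(G, ℂ)) : conv hp u ∈ multipliers μ p :=
  mem_iff.2 fun a g => comm_conv hp u (transl_mem a) g

lemma conv_comm (hp : p ≠ ⊤) (u v : C(G, ℂ)) :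
    conv hp u (ContinuousMap.toLp p μ ℂ v) = conv hp v (ContinuousMap.toLp p μ ℂ u) := by
  have hint : ∀ u v : C(G, ℂ), Integrable
      (fun y => u y • v.comp (⟨fun x => -y + x, by fun_prop⟩ : C(G, G))) μ := by
    intro u v
    apply integrable_cont (u.continuous.smul _)
    exact ContinuousMap.continuous_of_continuous_uncurry _
      (v.continuous.comp (continuous_fst.neg.add continuous_snd))
  have key : ∀ u v : C(G, ℂ), conv hp u (ContinuousMap.toLp p μ ℂ v) = ContinuousMap.toLp p μ ℂ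
      (∫ y, u y • v.comp (⟨fun x => -y + x, by fun_prop⟩ : C(G, G)) ∂μ) := by
    intro u v
    rw [conv_apply, ← ContinuousLinearMap.integral_comp_comm _ (hint u v)]
    simp only [map_smul, transl_toLp]
  rw [key, key]
  congr 1
  ext x
  rw [ContinuousMap.integral_apply (hint u v), ContinuousMap.integral_apply (hint v u),
    ← integral_sub_left_eq_self _ μ x]
  congr 1
  ext y
  simp only [ContinuousMap.smul_apply, ContinuousMap.comp_apply, ContinuousMap.coe_mk, smul_eq_mul]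
  rw [mul_comm]
  congr 2 <;> abel

lemma exists_L1_bound : ∃ c : ℝ, 0 < c ∧ ∀ u : C(G, ℂ),
    ∫ y, ‖u y‖ ∂μ ≤ c * ‖ContinuousMap.toLp p μ ℂ u‖ := by
  refine ⟨(μ univ ^ (1 / (1 : ENNReal).toReal - 1 / p.toReal)).toReal + 1, by positivity,
    fun u => ?_⟩
  have h1 := eLpNorm_le_eLpNorm_mul_rpow_measure_univ (μ := μ) (f := u) (p := 1) (q := p) Fact.out
    u.continuous.aestronglyMeasurable
  have h2 : eLpNorm u p μ = eLpNorm (ContinuousMap.toLp p μ ℂ u) p μ :=
    eLpNorm_congr_ae (ContinuousMap.coeFn_toLp (p := p) (𝕜 := ℂ) μ u).symm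
  have h3 : μ univ ^ (1 / (1 : ENNReal).toReal - 1 / p.toReal) ≠ ⊤ :=
    ENNReal.rpow_ne_top_of_ne_zero (isOpen_univ.measure_ne_zero μ univ_nonempty) (measure_ne_top _ _)
  rw [integral_norm_eq_lintegral_enorm u.continuous.aestronglyMeasurable,
    ← eLpNorm_one_eq_lintegral_enorm]
  refine (ENNReal.toReal_mono (ENNReal.mul_ne_top (by rw [h2]; exact Lp.eLpNorm_ne_top _) h3)
    h1).trans ?_
  rw [ENNReal.toReal_mul, h2, ← Lp.norm_def, mul_comm]
  gcongr
  linarith

lemma exists_approx (hp : p ≠ ⊤) (g : Lp ℂ p μ) {ε : ℝ} (hε : 0 < ε) :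
    ∃ u : C(G, ℂ), ∫ y, ‖u y‖ ∂μ = 1 ∧ ‖conv hp u g - g‖ ≤ ε := by
  have hc : Continuous fun y => ‖transl μ p (-y) g - g‖ :=
    (((cont_transl hp g).comp continuous_neg).sub continuous_const).norm
  obtain ⟨f, hf1, hf0, hfc, hfb⟩ := exists_continuous_one_zero_of_isCompact
    (isCompact_singleton (x := (0 : G))) (isClosed_le continuous_const hc (f := fun _ => ε)) (by
      rw [disjoint_singleton_left]
      simp [transl_zero, hε])
  have hI : 0 < ∫ y, f y ∂μ := f.continuous.integral_pos_of_hasCompactSupport_nonneg_nonzero hfc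
    (fun y => (hfb y).1) (x := 0) (by rw [hf1 rfl]; simp)
  have hn : ∀ y, ‖((f y / ∫ y, f y ∂μ : ℝ) : ℂ)‖ = f y / ∫ y, f y ∂μ := fun y => by
    rw [Complex.norm_real, Real.norm_of_nonneg (div_nonneg (hfb y).1 hI.le)]
  have h1 : ∫ y, (f y / ∫ y, f y ∂μ) ∂μ = 1 := by rw [integral_div, div_self hI.ne']
  refine ⟨⟨fun y => ((f y / ∫ y, f y ∂μ : ℝ) : ℂ), by fun_prop⟩, by simpa only [ContinuousMap.coe_mk, hn], ?_⟩
  have h2 : g = ∫ y, ((f y / ∫ y, f y ∂μ : ℝ) : ℂ) • g ∂μ := by
    rw [integral_smul_const, integral_complex_ofReal, h1]; simp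
  rw [conv_apply]
  nth_rewrite 2 [h2]
  rw [← integral_sub (integrable_conv hp _ g) (integrable_cont (by fun_prop))]
  refine (norm_integral_le_of_norm_le (g := fun y => (f y / ∫ y, f y ∂μ) * ε)
    (integrable_cont (by fun_prop)) (Eventually.of_forall fun y => ?_)).trans ?_
  · simp only [ContinuousMap.coe_mk]
    rw [← smul_sub, norm_smul, hn]
    rcases le_total ε ‖transl μ p (-y) g - g‖ with h | h
    · rw [hf0 h]; simp
    · have := div_nonneg (hfb y).1 hI.le
      gcongr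
  · rw [integral_mul_const, h1, one_mul]

lemma dense_range (hp : p ≠ ⊤) {T : Lp ℂ p μ →L[ℂ] Lp ℂ p μ} (hT : T ∈ multipliers μ p)
    (h : ∀ S ∈ multipliers μ p, S * T = 0 → S = 0) : DenseRange T := by
  by_contra hc
  obtain ⟨g₀, hg₀⟩ : ∃ g₀, g₀ ∉ closure (range T) := by
    simpa [DenseRange, Dense] using hc
  obtain ⟨φ, c, h1, h2⟩ := RCLike.geometric_hahn_banach_closed_point (𝕜 := ℂ)
    (s := closure (range T)) ((T.range.restrictScalars ℝ).convex.closure) isClosed_closure hg₀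
  have h0 : ∀ g, φ (T g) = 0 := by
    intro g
    by_contra hne
    have h3 := h1 (T ((c / φ (T g)) • g)) (subset_closure ⟨_, rfl⟩)
    rw [map_smul, map_smul, smul_eq_mul, div_mul_cancel₀ _ hne] at h3
    simp at h3
  let F : Lp ℂ p μ → C(G, ℂ) := fun g =>
    ⟨fun x => φ (transl μ p x g), φ.continuous.comp (cont_transl hp g)⟩
  let L : Lp ℂ p μ →L[ℂ] C(G, ℂ) := LinearMap.mkContinuous
    { toFun := F
      map_add' := fun g h => by ext x; simp [F]
      map_smul' := fun c g => by ext x; simp [F] } ‖φ‖ fun g =>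
      (ContinuousMap.norm_le _ (by positivity)).2 fun x => by
        simpa [F, norm_transl] using φ.le_opNorm (transl μ p x g)
  have hS := h ((ContinuousMap.toLp p μ ℂ).comp L) (mem_iff.2 fun a g => by
    rw [ContinuousLinearMap.comp_apply, ContinuousLinearMap.comp_apply, transl_toLp]
    congr 1
    ext x
    change φ (transl μ p (a + x) g) = φ (transl μ p x (transl μ p a g))
    rw [transl_transl, add_comm]) (by
    ext1 g
    have : L (T g) = 0 := by
      ext x
      change φ (transl μ p x (T g)) = 0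
      rw [mem_iff.1 hT, h0]
    change ContinuousMap.toLp p μ ℂ (L (T g)) = 0
    rw [this, map_zero])
  have h3 : L g₀ = 0 := by
    apply ContinuousMap.toLp_injective (p := p) (𝕜 := ℂ) μ
    rw [map_zero]
    exact DFunLike.congr_fun hS g₀
  have h4 : φ (transl μ p 0 g₀) = 0 := DFunLike.congr_fun h3 0
  rw [transl_zero] at h4
  have h5 := h1 0 (subset_closure ⟨0, map_zero _⟩)
  rw [h4] at h2
  rw [map_zero] at h5
  linarith

theorem isUnit_of (hp : p ≠ ⊤) (T : multipliers μ p)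
    (h : ∃ C : ℝ, ∀ S : multipliers μ p, ‖S‖ ≤ C * ‖T * S‖ ∧ ‖S‖ ≤ C * ‖S * T‖) : IsUnit T := by
  obtain ⟨C', hC'⟩ := h
  obtain ⟨T, hT⟩ := T
  have hC : ∀ S ∈ multipliers μ p, ‖S‖ ≤ |C'| * ‖T * S‖ ∧ ‖S‖ ≤ |C'| * ‖S * T‖ := fun S hS =>
    ⟨(hC' ⟨S, hS⟩).1.trans (mul_le_mul_of_nonneg_right (le_abs_self _) (norm_nonneg _)),
     (hC' ⟨S, hS⟩).2.trans (mul_le_mul_of_nonneg_right (le_abs_self _) (norm_nonneg _))⟩
  have hC0 := abs_nonneg C'
  generalize |C'| = C at hC hC0
  have hd := dense_range hp hT fun S hS h0 => by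
    have := (hC S hS).2
    rwa [h0, norm_zero, mul_zero, norm_le_zero_iff] at this
  have hd0 := ContinuousMap.toLp_denseRange ℂ μ ℂ hp
  have hd2 := hd.comp hd0 T.continuous
  obtain ⟨c, hc0, hc⟩ := exists_L1_bound (μ := μ) (p := p)
  have hlow : ∀ g, ‖g‖ ≤ 4 * C * ‖T g‖ := by
    intro g
    rcases eq_or_ne g 0 with rfl | hg
    · simp
    have hg0 := norm_pos_iff.2 hg
    obtain ⟨u, hu1, hu2⟩ := exists_approx hp g (ε := ‖g‖ / 4) (by positivity)
    obtain ⟨v, hv⟩ := hd2.exists_dist_lt (ContinuousMap.toLp p μ ℂ u)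
      (show 0 < 1 / (4 * c) by positivity)
    rw [dist_comm, dist_eq_norm, Function.comp_apply] at hv
    have h1 : ‖T * conv hp v - conv hp u‖ ≤ 1 / 4 := by
      refine ContinuousLinearMap.opNorm_le_bound _ (by norm_num) fun w => ?_
      refine hd0.induction_on w (isClosed_le (by fun_prop) (by fun_prop)) fun w => ?_
      rw [ContinuousLinearMap.sub_apply, ContinuousLinearMap.mul_apply, conv_comm hp v,
        conv_comm hp u, comm_conv hp w hT, ← map_sub]
      refine (norm_conv_le w _).trans ?_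
      calc _ ≤ c * ‖ContinuousMap.toLp p μ ℂ w‖ * (1 / (4 * c)) := by gcongr; exact hc w
        _ = _ := by field_simp
    have h2 : ‖conv (μ := μ) hp u‖ ≤ 1 :=
      ContinuousLinearMap.opNorm_le_bound _ zero_le_one fun w => by
        rw [conv_apply, ← hu1]; exact norm_conv_le u w
    have h3 : ‖conv (μ := μ) hp v‖ ≤ C * 2 := by
      refine (hC _ (conv_mem hp v)).1.trans ?_
      gcongr
      have := norm_add_le (T * conv hp v - conv hp u) (conv hp u)
      rw [sub_add_cancel] at this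
      linarith
    have h4 : ‖conv hp v (T g)‖ ≤ C * 2 * ‖T g‖ := ((conv hp v).le_opNorm _).trans (by gcongr)
    have h5 : ‖(T * conv hp v - conv hp u : Lp ℂ p μ →L[ℂ] Lp ℂ p μ) g‖ ≤ 1 / 4 * ‖g‖ :=
      (ContinuousLinearMap.le_opNorm _ _).trans (by gcongr)
    rw [ContinuousLinearMap.sub_apply, ContinuousLinearMap.mul_apply, comm_conv hp v hT] at h5
    have h6 : g = conv hp v (T g) - (conv hp v (T g) - conv hp u g) - (conv hp u g - g) := by abel
    have h7 := norm_sub_le (conv hp v (T g) - (conv hp v (T g) - conv hp u g)) (conv hp u g - g)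
    have h8 := norm_sub_le (conv hp v (T g)) (conv hp v (T g) - conv hp u g)
    rw [← h6] at h7
    linarith
  have hu : IsUnit T := by
    rw [ContinuousLinearMap.isUnit_iff_bijective,
      ContinuousLinearMap.bijective_iff_dense_range_and_antilipschitz]
    refine ⟨?_, ⟨4 * C, by positivity⟩, T.antilipschitz_of_bound hlow⟩
    rw [← Submodule.dense_iff_topologicalClosure_eq_top]
    exact hd
  obtain ⟨U, rfl⟩ := hu
  have hU : ((U⁻¹ : (Lp ℂ p μ →L[ℂ] Lp ℂ p μ)ˣ) : Lp ℂ p μ →L[ℂ] Lp ℂ p μ) ∈ multipliers μ p := by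
    rw [multipliers, Subalgebra.mem_centralizer_iff] at hT ⊢
    intro τ hτ
    exact (Commute.units_inv_right (hT τ hτ)).eq
  exact ⟨⟨⟨U, hT⟩, ⟨_, hU⟩, Subtype.ext U.mul_inv, Subtype.ext U.inv_mul⟩, rfl⟩

end Pool.Agent.H88.Mult
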