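import Mathlib

set_option autoImplicit false

namespace Pool.Agent.H88.Mult

open MeasureTheory

variable {G : Type*} [AddCommGroup G] [TopologicalSpace G] [IsTopologicalAddGroup G]
  [MeasurableSpace G] [BorelSpace G] (μ : Measure G) [μ.IsAddHaarMeasure]
  (p : ENNReal) [Fact (1 ≤ p)]

/-- Translation `g ↦ g (a + ·)` as a bounded operator on `L^p(G)`. -/
noncomputable def transl (a : G) : Lp ℂ p μ →L[ℂ] Lp ℂ p μ :=
  (Lp.compMeasurePreservingₗᵢ ℂ (fun x => a + x)
    (measurePreserving_add_left μ a)).toContinuousLinearMap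

/-- The multiplier algebra `M(L^p(G))`: bounded operators commuting with all translations. -/
noncomputable def multipliers : Subalgebra ℂ (Lp ℂ p μ →L[ℂ] Lp ℂ p μ) :=
  Subalgebra.centralizer ℂ (Set.range (transl μ p))

end Pool.Agent.H88.Mult
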