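import Pool.Agent.H88.LpDyn

set_option autoImplicit false

open Filter Topology Set Polynomial

namespace Pool.Agent.H88.MultRec

open Pool.Agent.H88.LpDyn

/-- products of the weights -/
noncomputable def WW (w : ℕ → ℂ) (k : ℕ) : ℂ := ∏ i ∈ Finset.range k, w (i + 1)

lemma mem_aux (w : ℕ → ℂ) (p : ℂ[X]) :
    Memℓp (fun k : ℕ => (fwdDiff (1 : ℂ))^[k] p.eval 0 / WW w k) 2 := by
  refine (memℓp_zero ?_).of_exponent_ge zero_le
  refine (Set.finite_le_nat p.natDegree).subset fun k hk => ?_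
  by_contra h
  apply hk
  rw [Polynomial.fwdDiff_iter_eq_zero_of_degree_lt (not_le.1 h)]
  simp

/-- the Newton coefficients -/
noncomputable def Phi (w : ℕ → ℂ) : ℂ[X] →ₗ[ℂ] E where
  toFun p := ⟨fun k : ℕ => (fwdDiff (1 : ℂ))^[k] p.eval 0 / WW w k, mem_aux w p⟩
  map_add' p q := by
    ext k
    have : (p + q).eval = p.eval + q.eval := by ext t; simp
    show (fwdDiff (1 : ℂ))^[k] (p + q).eval 0 / WW w k
      = (fwdDiff (1 : ℂ))^[k] p.eval 0 / WW w k + (fwdDiff (1 : ℂ))^[k] q.eval 0 / WW w k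
    rw [this, fwdDiff_iter_add, Pi.add_apply, add_div]
  map_smul' c p := by
    ext k
    have : (c • p).eval = c • p.eval := by ext t; simp
    show (fwdDiff (1 : ℂ))^[k] (c • p).eval 0 / WW w k
      = c * ((fwdDiff (1 : ℂ))^[k] p.eval 0 / WW w k)
    rw [this, fwdDiff_iter_const_smul, Pi.smul_apply, smul_eq_mul, mul_div_assoc]

lemma Phi_apply (w : ℕ → ℂ) (p : ℂ[X]) (k : ℕ) :
    Phi w p k = (fwdDiff (1 : ℂ))^[k] p.eval 0 / WW w k := rfl

variable {w : ℕ → ℂ} {T : E →L[ℂ] E}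

lemma WW_ne (hw : ∀ k, w (k + 1) ≠ 0) (k : ℕ) : WW w k ≠ 0 :=
  Finset.prod_ne_zero_iff.2 fun i _ => hw i

lemma step (hw : ∀ k, w (k + 1) ≠ 0) (hT : ∀ (x : E) k, T x k = w (k + 1) * x (k + 1)) (p : ℂ[X]) :
    (1 + T) (Phi w p) = Phi w (taylor 1 p) := by
  ext k
  have e1 : (taylor 1 p).eval = fun r => p.eval (r + 1) := by ext t; rw [taylor_eval]
  rw [add_apply, lp.coeFn_add, Pi.add_apply, hT, one_apply_eq_self, Phi_apply, Phi_apply, Phi_apply,
    e1, fwdDiff_iter_comp_add 1 (fun x => eval x p) 1 k 0, Function.iterate_succ_apply', fwdDiff]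
  have e2 : WW w (k + 1) = WW w k * w (k + 1) := Finset.prod_range_succ _ _
  have := WW_ne hw k
  have := hw k
  rw [e2]; field_simp; ring

lemma iter (hw : ∀ k, w (k + 1) ≠ 0) (hT : ∀ (x : E) k, T x k = w (k + 1) * x (k + 1)) (n : ℕ)
    (p : ℂ[X]) : ((1 + T) ^ n) (Phi w p) = Phi w (taylor (n : ℂ) p) := by
  induction n with
  | zero => simp
  | succ n ih =>
    rw [pow_succ', mul_apply_eq_comp, ih, step hw hT, taylor_taylor]
    push_cast; rw [add_comm]

/-- vectors approximated simultaneously along the first multiples -/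
def Good (S : E →L[ℂ] E) (N : ℕ) : Submodule ℂ E where
  carrier := {u | ∃ x : ℕ → E, ∀ j ≤ N, Tendsto (fun k => (S ^ (j * (k + 1))) (x k)) atTop (𝓝 u)}
  add_mem' := by
    rintro a b ⟨x, hx⟩ ⟨y, hy⟩
    exact ⟨x + y, fun j hj => by simpa using (hx j hj).add (hy j hj)⟩
  zero_mem' := ⟨0, fun j _ => by simp⟩
  smul_mem' := by
    rintro c a ⟨x, hx⟩
    exact ⟨c • x, fun j hj => by simpa using (hx j hj).const_smul c⟩

lemma good_pow (hw : ∀ k, w (k + 1) ≠ 0) (hT : ∀ (x : E) k, T x k = w (k + 1) * x (k + 1))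
    (N a : ℕ) : Phi w (X ^ a) ∈ Good (1 + T) N := by
  obtain ⟨H, hH⟩ := Ideal.exists_forall_sub_mem_ideal (ι := Fin (N + 1))
    (I := fun j => Ideal.span {(X - C ((j : ℕ) : ℂ)) ^ (a + 1)})
    (fun i j hij => (Ideal.isCoprime_span_singleton_iff _ _).2
      (pairwise_coprime_X_sub_C (s := fun j : Fin (N + 1) => ((j : ℕ) : ℂ))
        (fun i j h => Fin.ext (Nat.cast_injective (R := ℂ) h)) hij).pow)
    (fun j => (X - C ((j : ℕ) : ℂ)) ^ a)
  refine ⟨fun k => Phi w (C (((k + 1 : ℕ) : ℂ) ^ a) * H.comp (C (((k + 1 : ℕ) : ℂ)⁻¹) * X)),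
    fun j hj => ?_⟩
  obtain ⟨Q, hQ⟩ := Ideal.mem_span_singleton.1 (hH ⟨j, by omega⟩)
  obtain ⟨R, hR⟩ : ∃ R, R = taylor (j : ℂ) Q := ⟨_, rfl⟩
  have hev : ∀ s : ℂ, H.eval (s + j) = s ^ a + s ^ (a + 1) * R.eval s := by
    intro s
    have := congrArg (eval (s + j)) hQ
    simp only [eval_sub, eval_pow, eval_X, eval_C, eval_mul, add_sub_cancel_right] at this
    rw [hR, taylor_eval]; linear_combination this
  have key : ∀ k : ℕ, ((1 + T) ^ (j * (k + 1)))
      (Phi w (C (((k + 1 : ℕ) : ℂ) ^ a) * H.comp (C (((k + 1 : ℕ) : ℂ)⁻¹) * X)))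
      = Phi w (X ^ a) + ∑ l ∈ Finset.range (R.natDegree + 1),
        (R.coeff l * (((k + 1 : ℕ) : ℂ)⁻¹) ^ (l + 1)) • Phi w (X ^ (a + 1 + l)) := by
    intro k
    rw [iter hw hT]
    simp only [← map_smul, ← map_sum, ← map_add]
    congr 1
    apply Polynomial.funext
    intro t
    have hk : ((k + 1 : ℕ) : ℂ) ≠ 0 := Nat.cast_ne_zero.2 (Nat.succ_ne_zero k)
    rw [Nat.cast_mul]
    obtain ⟨c, hc⟩ : ∃ c, c = ((k + 1 : ℕ) : ℂ) := ⟨_, rfl⟩
    rw [← hc] at hk ⊢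
    rw [taylor_eval, eval_mul, eval_C, eval_comp, eval_mul, eval_C, eval_X,
      show c⁻¹ * (t + j * c) = c⁻¹ * t + j by field_simp, hev, eval_eq_sum_range (p := R), eval_add,
      eval_finsetSum, mul_add, Finset.mul_sum, Finset.mul_sum]
    congr 1
    · simp [mul_pow, hk]
    · refine Finset.sum_congr rfl fun l _ => ?_
      simp only [eval_smul, eval_pow, eval_X, smul_eq_mul, mul_pow, inv_pow]
      field_simp
      ring
  simp only [key]
  have h0 : Tendsto (fun k : ℕ => (((k + 1 : ℕ) : ℂ)⁻¹)) atTop (𝓝 0) :=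
    (tendsto_inv_atTop_nhds_zero_nat (𝕜 := ℂ)).comp (tendsto_add_atTop_nat 1)
  have h1 : Tendsto (fun k : ℕ => ∑ l ∈ Finset.range (R.natDegree + 1),
      (R.coeff l * (((k + 1 : ℕ) : ℂ)⁻¹) ^ (l + 1)) • Phi w (X ^ (a + 1 + l))) atTop
      (𝓝 (∑ l ∈ Finset.range (R.natDegree + 1),
        (R.coeff l * (0 : ℂ) ^ (l + 1)) • Phi w (X ^ (a + 1 + l)))) :=
    tendsto_finsetSum _ fun l _ => ((h0.pow (l + 1)).const_mul _).smul_const _
  simpa using h1.const_add (Phi w (X ^ a))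

lemma fin_mem (hw : ∀ k, w (k + 1) ≠ 0) (G : Submodule ℂ E) (hG : ∀ a, Phi w (X ^ a) ∈ G) (L : ℕ) :
    ∀ r, fin L r ∈ G := by
  induction L with
  | zero => intro r; simp [fin]
  | succ L ih =>
    intro r
    have hL : Phi w (X ^ L) L ≠ 0 := by
      have e : (X ^ L : ℂ[X]).eval = fun r : ℂ => r ^ L := by ext t; simp
      rw [Phi_apply, e, fwdDiff_iter_eq_factorial]
      exact div_ne_zero (by simpa using Nat.factorial_ne_zero L) (WW_ne hw L)
    have h0 : ∀ k, L < k → Phi w (X ^ L) k = 0 := by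
      intro k hk
      rw [Phi_apply, Polynomial.fwdDiff_iter_eq_zero_of_degree_lt (by simpa using hk)]
      simp
    have : fin (L + 1) r = (r L / Phi w (X ^ L) L) • Phi w (X ^ L)
        + fin L (fun k => r k - r L / Phi w (X ^ L) L * Phi w (X ^ L) k) := by
      ext k
      rw [lp.coeFn_add, Pi.add_apply, lp.coeFn_smul, Pi.smul_apply, fin_apply, fin_apply, smul_eq_mul]
      rcases lt_trichotomy k L with h | h | h
      · rw [if_pos (by omega), if_pos h]; ring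
      · subst h
        rw [if_pos (by omega), if_neg (by omega)]; field_simp; ring
      · rw [if_neg (by omega), if_neg (by omega), h0 k h]; ring
    rw [this]
    exact G.add_mem (G.smul_mem _ (hG L)) (ih _)

theorem main (hw : ∀ k, w (k + 1) ≠ 0) (hT : ∀ (x : E) k, T x k = w (k + 1) * x (k + 1))
    (U : Set E) (hU : IsOpen U) (hne : U.Nonempty) (N : ℕ) :
    ∃ k0 : ℕ, ∀ k ≥ k0, ∃ x : E, ∀ j ≤ N, ((1 + T) ^ (j * k)) x ∈ U := by
  obtain ⟨u, hu⟩ := hne
  obtain ⟨L, hL⟩ := ((tendsto_fin u).eventually (hU.mem_nhds hu)).exists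
  obtain ⟨x, hx⟩ := fin_mem hw (Good (1 + T) N) (good_pow hw hT N) L u
  have h1 : ∀ᶠ k in atTop, ∀ j ∈ Finset.range (N + 1), ((1 + T) ^ (j * (k + 1))) (x k) ∈ U :=
    (Finset.eventually_all _).2 fun j hj =>
      (hx j (Nat.lt_succ_iff.1 (Finset.mem_range.1 hj))).eventually (hU.mem_nhds hL)
  obtain ⟨k0, hk0⟩ := eventually_atTop.1 h1
  refine ⟨k0 + 1, fun k hk => ⟨x (k - 1), fun j hj => ?_⟩⟩
  have := hk0 (k - 1) (by omega) j (Finset.mem_range.2 (by omega))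
  rwa [Nat.sub_add_cancel (by omega)] at this

end Pool.Agent.H88.MultRec
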