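import Mathlib
import Pool.Agent.H88.H2

namespace Pool.Agent.H88.NWco

open Set Filter Topology Complex Metric
open scoped InnerProductSpace ComplexConjugate

lemma const_of_cofinite {g : ℂ → ℂ} (hg : ContinuousOn g (ball 0 1)) {T : Set ℂ} (hT : T.Finite)
    {κ : ℂ} (h : ∀ z, ‖z‖ < 1 → z ∉ T → g z = κ) : ∀ z, ‖z‖ < 1 → g z = κ := by
  intro z hz
  have hz' : z ∈ ball (0:ℂ) 1 := mem_ball_zero_iff.2 hz
  have hd : Dense Tᶜ := hT.countable.dense_compl ℂ
  have hc : ContinuousAt g z := hg.continuousAt (isOpen_ball.mem_nhds hz')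
  have h1 : ∃ᶠ w in 𝓝 z, w ∈ Tᶜ := mem_closure_iff_frequently.1 (hd z)
  have h2 : ∃ᶠ w in 𝓝 z, g w = κ := by
    refine (h1.and_eventually (isOpen_ball.mem_nhds hz')).mono fun w hw => ?_
    exact h w (mem_ball_zero_iff.1 hw.2) hw.1
  exact tendsto_nhds_unique_of_frequently_eq hc tendsto_const_nhds h2

lemma exists_off {T : Set ℂ} (hT : T.Finite) : ∃ z : ℂ, ‖z‖ < 1 ∧ z ∉ T := by
  obtain ⟨z, h1, h2⟩ := (hT.countable.dense_compl ℂ).exists_mem_open
    (isOpen_ball (x := (0:ℂ)) (ε := 1)) ⟨0, by simp⟩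
  exact ⟨z, mem_ball_zero_iff.1 h2, h1⟩

/-- an entire function vanishing on the disc vanishes. -/
lemma entire_zero {g : ℂ → ℂ} (hg : Differentiable ℂ g) (h : ∀ z, ‖z‖ < 1 → g z = 0) (w : ℂ) :
    g w = 0 := by
  have := (hg.differentiableOn.analyticOnNhd isOpen_univ).eqOn_zero_of_preconnected_of_eventuallyEq_zero
    isPreconnected_univ (mem_univ (0:ℂ)) (by
      filter_upwards [ball_mem_nhds (0:ℂ) one_pos] with z hz
      exact h z (mem_ball_zero_iff.1 hz))
  exact this (mem_univ w)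

/-- the algebraic core. `A l` and `N l` are affine functions of `μ`. -/
theorem core {v F : ℂ → ℂ} (hv : ContinuousOn v (ball 0 1)) (A0 A1 N0 N1 s : ℂ → ℂ)
    (hs : ∀ l, s l = conj (F l))
    (E : ∀ l m, ‖l‖ < 1 → ‖m‖ < 1 → v m * (A0 l + A1 l * m) = (F m + s l) * (N0 l + N1 l * m))
    (hN : ∀ l m, ‖l‖ < 1 → ‖m‖ < 1 → N0 l + N1 l * m ≠ 0)
    (hind : ∀ l l', ‖l‖ < 1 → ‖l'‖ < 1 → l ≠ l' → N0 l * N1 l' - N1 l * N0 l' ≠ 0)
    (hA : ∀ l, ‖l‖ < 1 → v l ≠ 0 → A0 l ≠ 0 ∨ A1 l ≠ 0) :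
    ∃ C, ∀ m, ‖m‖ < 1 → v m = C := by
  have hT : {l : ℂ | ‖l‖ < 1 ∧ N1 l = 0}.Finite := by
    refine Set.Subsingleton.finite fun l hl l' hl' => ?_
    by_contra hne
    exact hind l l' hl.1 hl'.1 hne (by rw [hl.2, hl'.2]; ring)
  set T := {l : ℂ | ‖l‖ < 1 ∧ N1 l = 0} with hTd
  have hF : ContinuousOn F (ball 0 1) := by
    have h0 : ‖(0:ℂ)‖ < 1 := by simp
    have : ContinuousOn (fun m => v m * (A0 0 + A1 0 * m) / (N0 0 + N1 0 * m) - s 0) (ball 0 1) :=
      ((hv.mul (by fun_prop)).div (by fun_prop)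
        fun m hm => hN 0 m h0 (mem_ball_zero_iff.1 hm)).sub continuousOn_const
    refine this.congr fun m hm => ?_
    have hm' := mem_ball_zero_iff.1 hm
    beta_reduce
    rw [E 0 m h0 hm', mul_div_cancel_right₀ _ (hN 0 m h0 hm')]
    ring
  have root : ∀ l l', ‖l‖ < 1 → ‖l'‖ < 1 → l ≠ l' → N1 l ≠ 0 →
      N0 l' + N1 l' * (-N0 l / N1 l) ≠ 0 := by
    intro l l' h1 h2 hne h3 h4
    apply hind l l' h1 h2 hne
    field_simp at h4
    linear_combination -h4
  have prop : ∀ l, N1 l ≠ 0 → A0 l + A1 l * (-N0 l / N1 l) = 0 →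
      ∀ m, A0 l + A1 l * m = A1 l / N1 l * (N0 l + N1 l * m) := by
    intro l h1 h2 m
    field_simp at h2 ⊢
    linear_combination h2
  by_cases hc : ∃ κ, ∀ z, ‖z‖ < 1 → F z = κ
  · obtain ⟨κ, hκ⟩ := hc
    have E' : ∀ l m, ‖l‖ < 1 → ‖m‖ < 1 →
        v m * (A0 l + A1 l * m) = (κ + conj κ) * (N0 l + N1 l * m) := by
      intro l m h1 h2
      rw [E l m h1 h2, hs, hκ l h1, hκ m h2]
    by_cases h0 : κ + conj κ = 0
    · refine ⟨0, ?_⟩
      by_contra hne
      push Not at hne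
      obtain ⟨l, hl, hvl⟩ := hne
      have hfin : {m : ℂ | A0 l + A1 l * m = 0}.Finite := by
        refine Set.Subsingleton.finite fun m hm m' hm' => ?_
        have hm : A0 l + A1 l * m = 0 := hm
        have hm' : A0 l + A1 l * m' = 0 := hm'
        by_cases h1 : A1 l = 0
        · rw [h1] at hm
          rcases hA l hl hvl with h | h
          · exact absurd (by simpa using hm) h
          · exact absurd h1 h
        · exact mul_left_cancel₀ h1 (by linear_combination hm - hm')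
      refine hvl (const_of_cofinite hv hfin (fun z hz hzT => ?_) l hl)
      have := E' l z hl hz
      rw [h0, zero_mul] at this
      exact (mul_eq_zero.1 this).resolve_right hzT
    · obtain ⟨l, hl, hlT⟩ := exists_off hT
      obtain ⟨l', hl', hlT'⟩ := exists_off (finite_singleton l)
      have n1 : N1 l ≠ 0 := fun h => hlT ⟨hl, h⟩
      have hne : l ≠ l' := fun h => hlT' (by simp [h])
      have hz := entire_zero (g := fun m => (A0 l + A1 l * m) * (N0 l' + N1 l' * m) -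
        (A0 l' + A1 l' * m) * (N0 l + N1 l * m)) (by fun_prop) (fun m hm => by
          have e1 := E' l m hl hm
          have e2 := E' l' m hl' hm
          have hv0 : v m ≠ 0 := by
            intro h
            rw [h, zero_mul] at e1
            exact mul_ne_zero h0 (hN l m hl hm) e1.symm
          apply mul_left_cancel₀ hv0
          linear_combination (N0 l' + N1 l' * m) * e1 - (N0 l + N1 l * m) * e2) (-N0 l / N1 l)
      have r0 : N0 l + N1 l * (-N0 l / N1 l) = 0 := by field_simp; ring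
      simp only [r0, mul_zero, sub_zero] at hz
      have hp := prop l n1 ((mul_eq_zero.1 hz).resolve_right (root l l' hl hl' hne n1))
      refine ⟨(κ + conj κ) / (A1 l / N1 l), fun m hm => ?_⟩
      have e1 := E' l m hl hm
      rw [hp m, ← mul_assoc] at e1
      have e2 := mul_right_cancel₀ (hN l m hl hm) e1
      have : A1 l / N1 l ≠ 0 := by
        intro h; rw [h, mul_zero] at e2; exact h0 e2.symm
      rw [eq_div_iff this, e2]
  · have pick : ∀ U : Set ℂ, U.Finite → ∃ l l', ‖l‖ < 1 ∧ ‖l'‖ < 1 ∧ l ∉ U ∧ l' ∉ U ∧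
        s l ≠ s l' := by
      intro U hU
      obtain ⟨l, hl, hlU⟩ := exists_off hU
      by_contra hcon
      push Not at hcon
      refine hc ⟨F l, const_of_cofinite hF hU fun z hz hzU => ?_⟩
      have := hcon z l hz hl hzU hlU
      rw [hs, hs] at this
      exact (starRingEnd ℂ).injective this
    obtain ⟨l1, l2, h1, h2, t1, t2, s12⟩ := pick T hT
    obtain ⟨l3, l4, h3, h4, t3, t4, s34⟩ := pick {l1, l2} (toFinite _)
    simp only [mem_insert_iff, mem_singleton_iff, not_or] at t3 t4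
    have n1 : N1 l1 ≠ 0 := fun h => t1 ⟨h1, h⟩
    have n2 : N1 l2 ≠ 0 := fun h => t2 ⟨h2, h⟩
    have ne12 : l1 ≠ l2 := fun h => s12 (by rw [h])
    have pair : ∀ l l' m, ‖l‖ < 1 → ‖l'‖ < 1 → ‖m‖ < 1 →
        v m * ((A0 l + A1 l * m) * (N0 l' + N1 l' * m) - (A0 l' + A1 l' * m) * (N0 l + N1 l * m)) =
          (s l - s l') * ((N0 l + N1 l * m) * (N0 l' + N1 l' * m)) := by
      intro l l' m a b c
      linear_combination (N0 l' + N1 l' * m) * E l m a c - (N0 l + N1 l * m) * E l' m b c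
    have hz := entire_zero (g := fun m =>
      ((A0 l1 + A1 l1 * m) * (N0 l2 + N1 l2 * m) - (A0 l2 + A1 l2 * m) * (N0 l1 + N1 l1 * m)) *
        ((s l3 - s l4) * ((N0 l3 + N1 l3 * m) * (N0 l4 + N1 l4 * m))) -
      ((A0 l3 + A1 l3 * m) * (N0 l4 + N1 l4 * m) - (A0 l4 + A1 l4 * m) * (N0 l3 + N1 l3 * m)) *
        ((s l1 - s l2) * ((N0 l1 + N1 l1 * m) * (N0 l2 + N1 l2 * m)))) (by fun_prop)
      (fun m hm => by rw [← pair l1 l2 m h1 h2 hm, ← pair l3 l4 m h3 h4 hm]; ring)
    have r1 : N0 l1 + N1 l1 * (-N0 l1 / N1 l1) = 0 := by field_simp; ring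
    have r2 : N0 l2 + N1 l2 * (-N0 l2 / N1 l2) = 0 := by field_simp; ring
    have z1 := hz (-N0 l1 / N1 l1)
    have z2 := hz (-N0 l2 / N1 l2)
    simp only [r1, r2, mul_zero, zero_mul, sub_zero, zero_sub, neg_mul, neg_eq_zero] at z1 z2
    have s34' : s l3 - s l4 ≠ 0 := sub_ne_zero.2 s34
    have q1 := (mul_eq_zero.1 ((mul_eq_zero.1 z1).resolve_right (mul_ne_zero s34' (mul_ne_zero
      (root l1 l3 h1 h3 (Ne.symm t3.1) n1) (root l1 l4 h1 h4 (Ne.symm t4.1) n1))))).resolve_right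
      (root l1 l2 h1 h2 ne12 n1)
    have q2 := (mul_eq_zero.1 ((mul_eq_zero.1 z2).resolve_right (mul_ne_zero s34' (mul_ne_zero
      (root l2 l3 h2 h3 (Ne.symm t3.2) n2) (root l2 l4 h2 h4 (Ne.symm t4.2) n2))))).resolve_right
      (root l2 l1 h2 h1 ne12.symm n2)
    have p1 := prop l1 n1 q1
    have p2 := prop l2 n2 q2
    refine ⟨(s l1 - s l2) / (A1 l1 / N1 l1 - A1 l2 / N1 l2), fun m hm => ?_⟩
    have e := pair l1 l2 m h1 h2 hm
    rw [p1 m, p2 m] at e
    have e2 : v m * (A1 l1 / N1 l1 - A1 l2 / N1 l2) = s l1 - s l2 := by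
      apply mul_right_cancel₀ (mul_ne_zero (hN l1 m h1 hm) (hN l2 m h2 hm))
      linear_combination e
    have : A1 l1 / N1 l1 - A1 l2 / N1 l2 ≠ 0 := by
      intro h; rw [h, mul_zero] at e2; exact sub_ne_zero.2 s12 e2.symm
    rw [eq_div_iff this, e2]

open Pool.Agent.H88.H2 Pool.Agent.H88.PS

lemma exists_ker {z : ℂ} (hz : ‖z‖ < 1) : ∃ k : L2, (∀ f : L2, ⟪k, f⟫_ℂ = ps f z) ∧
    ∀ w, ‖w‖ < 1 → ps k w = (1 - conj z * w)⁻¹ := by
  have hs : Summable fun n : ℕ => ‖(conj z) ^ n‖ ^ 2 := by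
    have : Summable fun n : ℕ => (‖z‖ ^ 2) ^ n :=
      summable_geometric_of_lt_one (by positivity) (pow_lt_one₀ (norm_nonneg _) hz two_ne_zero)
    refine this.congr fun n => ?_
    rw [norm_pow, norm_conj, ← pow_mul, ← pow_mul, mul_comm]
  refine ⟨⟨fun n => (conj z) ^ n, mem_l2 hs⟩, fun f => ?_, fun w hw => ?_⟩
  · rw [inner_eq]
    simp [ps]
  · have : ‖conj z * w‖ < 1 := by
      rw [norm_mul, norm_conj]
      exact mul_lt_one_of_nonneg_of_lt_one_left (norm_nonneg _) hz hw.le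
    rw [← tsum_geometric_of_norm_lt_one this, ps]
    congr 1; ext n; rw [mul_pow]

lemma rep (f : L2) : Rep f (ps f) := rep_l2 (l2_hasSum f).summable

lemma l2_ext {f g : L2} (h : ∀ z, ‖z‖ < 1 → ps f z = ps g z) : f = g :=
  lp.ext ((rep f).unique (rep g) h)

def sh (f : ℕ → ℂ) : ℕ → ℂ
  | 0 => 0
  | n + 1 => f n

lemma sh_mem (f : L2) : Memℓp (E := fun _ : ℕ => ℂ) (sh f) 2 := by
  apply mem_l2
  rw [← summable_nat_add_iff 1]
  exact (l2_hasSum f).summable

noncomputable def S (f : L2) : L2 := ⟨sh f, sh_mem f⟩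

lemma ps_S (f : L2) {z : ℂ} (hz : ‖z‖ < 1) : ps (S f) z = z * ps f z := by
  have h1 := (rep f z hz).mul_left z
  have h2 : HasSum (fun n => (S f) n * z ^ n) (z * ps f z) := by
    rw [← hasSum_nat_add_iff' 1]
    have e : (fun n => (S f) (n + 1) * z ^ (n + 1)) = fun n => z * (f n * z ^ n) := by
      funext n
      change f n * _ = _
      ring
    have e0 : (S f) 0 = 0 := rfl
    simpa [e, e0] using h1
  exact h2.tsum_eq

lemma inner_S (f g : L2) : ⟪S f, S g⟫_ℂ = ⟪f, g⟫_ℂ := by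
  have h1 := lp.hasSum_inner (𝕜 := ℂ) f g
  have h2 := lp.hasSum_inner (𝕜 := ℂ) (S f) (S g)
  rw [← hasSum_nat_add_iff' 1] at h2
  have e0 : (S f) 0 = 0 := rfl
  simp only [Finset.range_one, Finset.sum_singleton, e0, inner_zero_left, sub_zero] at h2
  exact h2.unique h1

theorem main (a b c d : ℂ) (hdet : a * d - b * c ≠ 0) (hden : ∀ z : ℂ, ‖z‖ < 1 → c * z + d ≠ 0)
    (hself : ∀ z : ℂ, ‖z‖ < 1 → ‖(a * z + b) / (c * z + d)‖ < 1) (ψ : ℂ → ℂ) (W : L2 →L[ℂ] L2)
    (hW : ∀ (f : L2) (z : ℂ), ‖z‖ < 1 → ps (W f) z = ψ z * ps f ((a * z + b) / (c * z + d)))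
    (hN : W ∘L ContinuousLinearMap.adjoint W = ContinuousLinearMap.adjoint W ∘L W) :
    ∃ C : ℂ, ∀ z : ℂ, ‖z‖ < 1 → ψ z = C / (c * z + d) := by
  classical
  have hk : ∀ z : ℂ, ∃ k : L2, ‖z‖ < 1 → (∀ f : L2, ⟪k, f⟫_ℂ = ps f z) ∧
      ∀ w, ‖w‖ < 1 → ps k w = (1 - conj z * w)⁻¹ := by
    intro z
    by_cases hz : ‖z‖ < 1
    · obtain ⟨k, hk⟩ := exists_ker hz
      exact ⟨k, fun _ => hk⟩
    · exact ⟨0, fun h => absurd h hz⟩
  choose k hk using hk
  set φ : ℂ → ℂ := fun z => (a * z + b) / (c * z + d) with hφ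
  have hφ' : ∀ z, ‖z‖ < 1 → φ z * (c * z + d) = a * z + b := fun z hz =>
    div_mul_cancel₀ _ (hden z hz)
  have h0 : ‖(0:ℂ)‖ < 1 := by simp
  have one_sub : ∀ x y : ℂ, ‖x‖ < 1 → ‖y‖ < 1 → 1 - conj x * y ≠ 0 := by
    intro x y hx hy h
    have : ‖conj x * y‖ < 1 := by
      rw [norm_mul, norm_conj]
      exact mul_lt_one_of_nonneg_of_lt_one_left (norm_nonneg _) hx hy.le
    rw [← sub_eq_zero.1 h] at this
    simp at this
  have ps_lin : ∀ (x y : ℂ) (f g : L2) (z : ℂ), ‖z‖ < 1 →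
      ps (x • f + y • g : L2) z = x * ps f z + y * ps g z := by
    intro x y f g z hz
    rw [← (hk z hz).1, ← (hk z hz).1, ← (hk z hz).1, inner_add_right, inner_smul_right,
      inner_smul_right]
  have adj : ∀ z, ‖z‖ < 1 → ContinuousLinearMap.adjoint W (k z) = conj (ψ z) • k (φ z) := by
    intro z hz
    refine ext_inner_right ℂ fun f => ?_
    rw [ContinuousLinearMap.adjoint_inner_left, (hk z hz).1, hW f z hz, inner_smul_left,
      (hk _ (hself z hz)).1, conj_conj]
  have gram : ∀ l m, ‖l‖ < 1 → ‖m‖ < 1 →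
      ⟪W (k m), W (k l)⟫_ℂ = ψ m * conj (ψ l) * (1 - conj (φ l) * φ m)⁻¹ := by
    intro l m hl hm
    have e1 : ContinuousLinearMap.adjoint W (W (k l)) = W (ContinuousLinearMap.adjoint W (k l)) :=
      (congrArg (fun T : L2 →L[ℂ] L2 => T (k l)) hN).symm
    rw [← ContinuousLinearMap.adjoint_inner_right, e1, ← ContinuousLinearMap.adjoint_inner_left,
      adj l hl, adj m hm, inner_smul_left, inner_smul_right, (hk _ (hself m hm)).1,
      (hk _ (hself l hl)).2 _ (hself m hm), conj_conj, mul_assoc]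
  have psf : ∀ l z, ‖l‖ < 1 → ‖z‖ < 1 → ps (W (k l)) z = ψ z * (1 - conj l * φ z)⁻¹ := by
    intro l z hl hz
    rw [hW _ z hz, (hk l hl).2 _ (hself z hz)]
  set V : L2 := d • W (k 0) + c • S (W (k 0)) with hV
  have psV : ∀ z, ‖z‖ < 1 → ps V z = (c * z + d) * ψ z := by
    intro z hz
    rw [hV, ps_lin _ _ _ _ z hz, ps_S _ hz, psf 0 z h0 hz]
    simp; ring
  let p : ℂ → ℂ := fun l => d - conj l * b
  let q : ℂ → ℂ := fun l => conj l * a - c
  have key : ∀ l, ‖l‖ < 1 → p l • W (k l) - V = q l • S (W (k l)) := by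
    intro l hl
    have : p l • W (k l) + (-q l) • S (W (k l)) = V := by
      refine l2_ext fun z hz => ?_
      rw [ps_lin _ _ _ _ z hz, ps_S _ hz, psf l z hl hz, psV z hz]
      have h1 := one_sub l (φ z) hl (hself z hz)
      have h2 := hφ' z hz
      simp only [p, q]
      field_simp
      linear_combination (ψ z * conj l) * h2
    rw [← this, neg_smul]
    abel
  let F : ℂ → ℂ := fun m => conj (p m) * ⟪W (k m), V⟫_ℂ - ⟪V, V⟫_ℂ / 2
  have hF : ∀ l m, ‖l‖ < 1 → ‖m‖ < 1 →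
      (conj (p m) * p l - conj (q m) * q l) * ⟪W (k m), W (k l)⟫_ℂ = F m + conj (F l) := by
    intro l m hl hm
    have e : ⟪p m • W (k m) - V, p l • W (k l) - V⟫_ℂ =
        ⟪q m • S (W (k m)), q l • S (W (k l))⟫_ℂ := by rw [key l hl, key m hm]
    rw [inner_sub_left, inner_sub_right, inner_sub_right, inner_smul_left, inner_smul_left,
      inner_smul_right, inner_smul_right, inner_smul_left, inner_smul_right, inner_S] at e
    simp only [F, map_sub, map_mul, conj_conj, inner_conj_symm, map_div₀, conj_ofNat]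
    linear_combination e
  have hv : ContinuousOn (ps V) (ball 0 1) := (rep V).diff.continuousOn
  obtain ⟨C, hC⟩ := core (v := ps V) (F := F) hv
    (fun l => conj (ψ l) * (p l * conj d + q l * conj c))
    (fun l => conj (ψ l) * (-(p l * conj b) - q l * conj a))
    (fun l => d - conj (φ l) * b) (fun l => c - conj (φ l) * a) (fun l => conj (F l))
    (fun _ => rfl) (fun l m hl hm => by
      rw [← hF l m hl hm, gram l m hl hm, psV m hm]
      have h1 := one_sub (φ l) (φ m) (hself l hl) (hself m hm)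
      have h2 := hφ' m hm
      have h3 : d - conj (φ l) * b + (c - conj (φ l) * a) * m =
          (c * m + d) * (1 - conj (φ l) * φ m) := by linear_combination (conj (φ l)) * h2
      rw [h3]
      have h4 : conj (p m) = conj d - m * conj b := by simp [p]
      have h5 : conj (q m) = m * conj a - conj c := by simp [q]
      rw [h4, h5]
      field_simp
      ring)
    (fun l m hl hm => by
      have h1 := one_sub (φ l) (φ m) (hself l hl) (hself m hm)
      have h2 := hφ' m hm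
      have h3 : d - conj (φ l) * b + (c - conj (φ l) * a) * m =
          (c * m + d) * (1 - conj (φ l) * φ m) := by linear_combination (conj (φ l)) * h2
      rw [h3]
      exact mul_ne_zero (hden m hm) h1)
    (fun l l' hl hl' hne h => by
      have h1 : (conj (φ l) - conj (φ l')) * (a * d - b * c) = 0 := by linear_combination h
      have h2 : φ l = φ l' :=
        (starRingEnd ℂ).injective (sub_eq_zero.1 ((mul_eq_zero.1 h1).resolve_right hdet))
      have h3 := (div_eq_div_iff (hden l hl) (hden l' hl')).1 h2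
      have h4 : (l - l') * (a * d - b * c) = 0 := by linear_combination h3
      exact hne (sub_eq_zero.1 ((mul_eq_zero.1 h4).resolve_right hdet)))
    (fun l hl hvl => by
      by_contra hcon
      push Not at hcon
      have hψ : conj (ψ l) ≠ 0 := by
        rw [psV l hl] at hvl
        exact (map_ne_zero _).2 (right_ne_zero_of_mul hvl)
      have e1 := (mul_eq_zero.1 hcon.1).resolve_left hψ
      have e2 := (mul_eq_zero.1 hcon.2).resolve_left hψ
      have e3 : p l * conj (a * d - b * c) = 0 := by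
        simp only [map_sub, map_mul]
        linear_combination conj a * e1 + conj c * e2
      have e4 : p l = 0 := (mul_eq_zero.1 e3).resolve_right ((map_ne_zero _).2 hdet)
      have h1 := one_sub l (φ 0) hl (hself 0 h0)
      have h2 := hφ' 0 h0
      have h3 := hden 0 h0
      apply mul_ne_zero h3 h1
      simp only [p] at e4
      linear_combination e4 - conj l * h2)
  refine ⟨C, fun z hz => ?_⟩
  rw [eq_div_iff (hden z hz), ← hC z hz, psV z hz, mul_comm]

end Pool.Agent.H88.NWco
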