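import Mathlib

namespace Pool.Agent.H88.NWco

variable {H : Type} [NormedAddCommGroup H] [InnerProductSpace ℂ H]

/-- value at `z` of the function whose Taylor coefficients are the coordinates of `f` in the
orthonormal basis `e` (so `e n` is `z ^ n` and `H` is `H²(𝔻)`). -/
noncomputable def ev (e : HilbertBasis ℕ ℂ H) (f : H) (z : ℂ) : ℂ :=
  ∑' n : ℕ, inner ℂ (e n) f * z ^ n

/-- `W f = ψ · (f ∘ φ)` on the unit disc. -/
def IsWCO (e : HilbertBasis ℕ ℂ H) (W : H →L[ℂ] H) (ψ φ : ℂ → ℂ) : Prop :=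
  ∀ (f : H) (z : ℂ), ‖z‖ < 1 → ev e (W f) z = ψ z * ev e f (φ z)

/-- `W W* = W* W`. -/
def IsNormalOp [CompleteSpace H] (W : H →L[ℂ] H) : Prop :=
  ∀ f : H, W (ContinuousLinearMap.adjoint W f) = ContinuousLinearMap.adjoint W (W f)

end Pool.Agent.H88.NWco
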