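import Mathlib
import Pool.Agent.H88.Nb4

/-! The concrete model of the free `p`-space contains no infinite-dimensional normed space. -/

namespace Pool.Agent.H88.Nb

open Finset
open Finsupp hiding sum_le_sum sum_nonneg mul_sum sum_comm sum_congr sum_mul

theorem main {p : ℝ} (hp : 0 < p) (hp1 : p < 1) {M F : Type} [MetricSpace M] [AddCommGroup F]
    [Module ℝ F] (N : F → ℝ) (ι : (M →₀ ℝ) →ₗ[ℝ] F) (h0 : ∀ x, 0 ≤ N x)
    (h1 : ∀ x, N x = 0 ↔ x = 0) (hs : ∀ (c : ℝ) (x : F), N (c • x) = |c| * N x)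
    (ht : ∀ x y, N (x + y) ^ p ≤ N x ^ p + N y ^ p)
    (hg : ∀ μ : M →₀ ℝ, μ.sum (fun _ a => a) = 0 →
      IsGLB {t : ℝ | ∃ (n : ℕ) (b : Fin n → ℝ) (u v : Fin n → M),
        μ = ∑ j, b j • (Finsupp.single (u j) (1:ℝ) - Finsupp.single (v j) (1:ℝ)) ∧
        t = ∑ j, |b j| ^ p * dist (u j) (v j) ^ p} (N (ι μ) ^ p))
    (hd : ∀ z : F, ∀ ε > 0, ∃ μ : M →₀ ℝ, μ.sum (fun _ a => a) = 0 ∧ N (z - ι μ) < ε)
    {X : Type} [NormedAddCommGroup X] [NormedSpace ℝ X] (T : X →ₗ[ℝ] F) {c C : ℝ} (hc : 0 < c)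
    (hT : ∀ x, c * ‖x‖ ≤ N (T x) ∧ N (T x) ≤ C * ‖x‖) : FiniteDimensional ℝ X := by
  letI : NormedAddCommGroup F := AddGroupNorm.toNormedAddCommGroup
    { toFun := fun x => N x ^ p
      map_zero' := by simp [(h1 0).2 rfl, hp.ne']
      add_le' := ht
      neg' := fun x => by simpa using congrArg (· ^ p) (hs (-1) x)
      eq_zero_of_map_eq_zero' := fun x hx => (h1 x).1 ((Real.rpow_eq_zero (h0 x) hp.ne').1 hx) }
  have e : ∀ x : F, ‖x‖ = N x ^ p := fun _ => rfl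
  have z : ∀ u : M × M →₀ ℝ, (bd u).sum (fun _ a => a) = 0 := fun u => by
    simpa [linearCombination_apply] using bd_const u 1
  have o : ∀ μ : M →₀ ℝ, μ.sum (fun _ a => a) = 0 → ∀ ε > 0,
      ∃ w, bd w = μ ∧ cost p w ≤ ‖ι μ‖ + ε := fun μ hμ ε hε => by
    obtain ⟨_, ⟨n, b, u, v, a, rfl⟩, -, d⟩ := (hg μ hμ).exists_between_self_add hε
    refine ⟨∑ j, single (u j, v j) (b j), by simp [a, bd_single],
      ((cst_sum hp hp1.le (fun _ => by positivity) _ _).trans_eq ?_).trans d.le⟩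
    simp only [cst_single hp]
  refine FI.finite (ι := ι) ⟨hp, hp1, fun c y => ?_, fun x y => ?_, fun u => o _ (z u)⟩
    (fun y ε hε => ?_) T (C := |C| ^ p) (Real.rpow_pos_of_pos hc p) (fun x => ?_) fun x => ?_
  · rw [e, e, hs, Real.mul_rpow (abs_nonneg _) (h0 _)]
  · exact (hg _ (by simpa [bd_single] using z (single (x, y) 1))).1
      ⟨1, fun _ => 1, fun _ => x, fun _ => y, by simp, by simp⟩
  · obtain ⟨μ, a, b⟩ := hd y (ε ^ p⁻¹) (by positivity)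
    obtain ⟨w, rfl, -⟩ := o μ a 1 one_pos
    exact ⟨w, (Real.rpow_lt_rpow (h0 _) b hp).trans_eq (Real.rpow_inv_rpow hε.le hp.ne')⟩
  · rw [← Real.mul_rpow hc.le (norm_nonneg _)]
    exact Real.rpow_le_rpow (by positivity) (hT x).1 hp.le
  · rw [← Real.mul_rpow (abs_nonneg _) (norm_nonneg _)]
    exact Real.rpow_le_rpow (h0 _) ((hT x).2.trans
      (mul_le_mul_of_nonneg_right (le_abs_self _) (norm_nonneg _))) hp.le

end Pool.Agent.H88.Nb
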