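import Pool.Agent.H88.L1Solve

open Filter Topology

namespace Pool.Agent.H88.SgAlg

open L1Solve

structure Dat where
  D : Type
  v : D → ℕ → ℂ
  m : D → D → D
  le : ∀ d n, ‖v d n‖ ≤ 1
  mul : ∀ d e n, v (m d e) n = v d n * v e n

variable (S : Dat)

noncomputable abbrev L := lp (fun _ : S.D => ℂ) 1

lemma sb {J : Type} {f : J → ℂ} (hf : Summable fun j => ‖f j‖) (p : J → S.D) (n : ℕ) :
    Summable fun j => ‖f j * S.v (p j) n‖ :=
  Summable.of_nonneg_of_le (fun _ => norm_nonneg _) (fun j => by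
    rw [norm_mul]
    exact mul_le_of_le_one_right (norm_nonneg _) (S.le _ _)) hf

noncomputable def ev (n : ℕ) : L S →L[ℂ] ℂ :=
  LinearMap.mkContinuous
    { toFun := fun a => ∑' d, a d * S.v d n
      map_add' := fun a b => by
        rw [← (sb S (l1_hasSum a).summable (fun d => d) n).of_norm.tsum_add
          (sb S (l1_hasSum b).summable (fun d => d) n).of_norm]
        exact tsum_congr fun d => by simp [add_mul]
      map_smul' := fun c a => by
        simp only [RingHom.id_apply, smul_eq_mul, ← tsum_mul_left]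
        exact tsum_congr fun d => by simp [mul_assoc] } 1 fun a => by
    rw [one_mul]
    refine tsum_of_norm_bounded (l1_hasSum a) fun d => ?_
    rw [norm_mul]
    exact mul_le_of_le_one_right (norm_nonneg _) (S.le _ _)

lemma ev_ap (n : ℕ) (a : L S) : ev S n a = ∑' d, a d * S.v d n := rfl

noncomputable def T : L S →ₗ[ℂ] (ℕ → ℂ) := LinearMap.pi fun n => (ev S n).toLinearMap

instance closedK : IsClosed ((T S).ker : Set (L S)) := by
  have : ((T S).ker : Set (L S)) = ⋂ n, {a | ev S n a = 0} := by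
    ext a
    simp [T, funext_iff]
  rw [this]
  exact isClosed_iInter fun n => isClosed_eq (ev S n).continuous continuous_const

def A : Type := L S ⧸ (T S).ker

noncomputable instance : NormedAddCommGroup (A S) :=
  inferInstanceAs (NormedAddCommGroup (L S ⧸ (T S).ker))
noncomputable instance : NormedSpace ℂ (A S) := inferInstanceAs (NormedSpace ℂ (L S ⧸ (T S).ker))
instance : CompleteSpace (A S) := inferInstanceAs (CompleteSpace (L S ⧸ (T S).ker))

noncomputable def io : A S →ₗ[ℂ] (ℕ → ℂ) := (T S).ker.liftQ (T S) le_rfl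

noncomputable def q : L S →L[ℂ] A S :=
  LinearMap.mkContinuous (T S).ker.mkQ 1 fun a => by
    rw [one_mul]
    exact Submodule.Quotient.norm_mk_le _ a

lemma q_le (a : L S) : ‖q S a‖ ≤ ‖a‖ := Submodule.Quotient.norm_mk_le _ a

lemma io_q (a : L S) (n : ℕ) : io S (q S a) n = ev S n a := rfl

lemma io_inj : Function.Injective (io S) :=
  LinearMap.ker_eq_bot.1 (Submodule.ker_liftQ_eq_bot _ _ _ le_rfl)

lemma rep (f : A S) {ε : ℝ} (hε : 0 < ε) : ∃ a : L S, q S a = f ∧ ‖a‖ < ‖f‖ + ε :=
  Submodule.Quotient.norm_mk_lt (S := (T S).ker) f hε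

open Classical in
noncomputable def dl (d : S.D) : A S := q S (lp.single 1 d 1)

lemma dl_le (d : S.D) : ‖dl S d‖ ≤ 1 := (q_le S _).trans (by simp)

lemma io_dl (d : S.D) (n : ℕ) : io S (dl S d) n = S.v d n := by
  classical
  rw [dl, io_q, ev_ap, tsum_eq_single d fun e he => by simp [lp.single_apply, he]]
  simp

lemma hasSum_q (a : L S) : HasSum (fun d => a d • dl S d) (q S a) := by
  classical
  have := (q S).hasSum (lp.hasSum_single (by norm_num) a)
  refine (congrArg (fun F => HasSum F _) (funext fun d => ?_)).mp this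
  rw [dl, ← map_smul, ← lp.single_smul, smul_eq_mul, mul_one]

lemma io_le (f : A S) (n : ℕ) : ‖io S f n‖ ≤ ‖f‖ := by
  refine le_of_forall_pos_le_add fun ε hε => ?_
  obtain ⟨a, rfl, h⟩ := rep S f hε
  rw [io_q]
  refine le_trans ?_ h.le
  refine tsum_of_norm_bounded (l1_hasSum a) fun d => ?_
  rw [norm_mul]
  exact mul_le_of_le_one_right (norm_nonneg _) (S.le _ _)

noncomputable def pt (n : ℕ) : A S →L[ℂ] ℂ :=
  LinearMap.mkContinuous ((LinearMap.proj n).comp (io S)) 1 fun f => by
    rw [one_mul]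
    exact io_le S f n

lemma pt_ap (n : ℕ) (f : A S) : pt S n f = io S f n := rfl

lemma mk {J : Type} {h : J → ℂ} (hs : Summable fun j => ‖h j‖) (p : J → S.D) :
    ∃ f : A S, ‖f‖ ≤ ∑' j, ‖h j‖ ∧ ∀ n, io S f n = ∑' j, h j * S.v (p j) n := by
  have b : ∀ j, ‖h j • dl S (p j)‖ ≤ ‖h j‖ := fun j => by
    rw [norm_smul]
    exact mul_le_of_le_one_right (norm_nonneg _) (dl_le S _)
  refine ⟨∑' j, h j • dl S (p j), tsum_of_norm_bounded hs.hasSum b, fun n => ?_⟩
  rw [← pt_ap, (pt S n).map_tsum (Summable.of_norm_bounded hs b)]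
  simp [pt_ap, io_dl]

lemma ex_mul (a b : L S) : ∃ h : A S, ‖h‖ ≤ ‖a‖ * ‖b‖ ∧ io S h = io S (q S a) * io S (q S b) := by
  have ha := (l1_hasSum a).summable
  have hb := (l1_hasSum b).summable
  have hs : Summable fun p : S.D × S.D => ‖a p.1 * b p.2‖ := ha.mul_norm hb
  obtain ⟨h, h1, h2⟩ := mk S hs fun p => S.m p.1 p.2
  refine ⟨h, h1.trans (le_of_eq ?_), funext fun n => ?_⟩
  · rw [← (l1_hasSum a).tsum_eq, ← (l1_hasSum b).tsum_eq,
      tsum_mul_tsum_of_summable_norm (by simpa using ha) (by simpa using hb)]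
    simp
  · rw [h2, Pi.mul_apply, io_q, io_q, ev_ap, ev_ap,
      tsum_mul_tsum_of_summable_norm (sb S ha (fun d => d) n) (sb S hb (fun d => d) n)]
    exact tsum_congr fun p => by rw [S.mul]; ring

lemma ex_mul' (f g : A S) : ∃ h : A S, io S h = io S f * io S g := by
  obtain ⟨a, rfl, -⟩ := rep S f one_pos
  obtain ⟨b, rfl, -⟩ := rep S g one_pos
  exact (ex_mul S a b).imp fun _ h => h.2

noncomputable instance : Mul (A S) := ⟨fun f g => (ex_mul' S f g).choose⟩

lemma io_mul (f g : A S) : io S (f * g) = io S f * io S g := (ex_mul' S f g).choose_spec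

noncomputable instance ring : NonUnitalNormedCommRing (A S) :=
  { (inferInstance : NormedAddCommGroup (A S)), (inferInstance : Mul (A S)) with
    left_distrib := fun a b c => io_inj S (by simp only [io_mul, map_add, mul_add])
    right_distrib := fun a b c => io_inj S (by simp only [io_mul, map_add, add_mul])
    zero_mul := fun a => io_inj S (by simp only [io_mul, map_zero, zero_mul])
    mul_zero := fun a => io_inj S (by simp only [io_mul, map_zero, mul_zero])
    mul_assoc := fun a b c => io_inj S (by simp only [io_mul, mul_assoc])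
    mul_comm := fun a b => io_inj S (by simp only [io_mul, mul_comm])
    norm_mul_le := fun f g => by
      have key : ∀ ε > 0, ‖f * g‖ ≤ (‖f‖ + ε) * (‖g‖ + ε) := fun ε hε => by
        obtain ⟨a, rfl, ha⟩ := rep S f hε
        obtain ⟨b, rfl, hb⟩ := rep S g hε
        obtain ⟨h, h1, h2⟩ := ex_mul S a b
        rw [io_inj S ((io_mul S _ _).trans h2.symm)]
        exact h1.trans (mul_le_mul ha.le hb.le (norm_nonneg _) (by positivity))
      have t : Tendsto (fun ε : ℝ => (‖f‖ + ε) * (‖g‖ + ε)) (𝓝[>] 0)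
          (𝓝 ((‖f‖ + 0) * (‖g‖ + 0))) :=
        (Continuous.tendsto (by fun_prop) 0).mono_left nhdsWithin_le_nhds
      rw [add_zero, add_zero] at t
      exact ge_of_tendsto t (eventually_nhdsWithin_of_forall key) }

instance : IsScalarTower ℂ (A S) (A S) :=
  ⟨fun c f g => io_inj S (by simp only [smul_eq_mul, io_mul, map_smul, smul_mul_assoc])⟩

instance : SMulCommClass ℂ (A S) (A S) :=
  ⟨fun c f g => io_inj S (by simp only [smul_eq_mul, io_mul, map_smul, mul_smul_comm])⟩

end Pool.Agent.H88.SgAlg
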