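import Pool.Agent.H88.QFac2
import Pool.Agent.H88.SgAlg

open Filter Topology

namespace Pool.Agent.H88.NoBai

open QFac SgAlg L1Solve

noncomputable def y (q : ℚ) : ℝ := (8 : ℝ) ^ (-(q : ℝ))

noncomputable def x (q : ℚ) (n : ℕ) : ℂ := (y q : ℂ) ^ n

lemma y_pos (q : ℚ) : 0 < y q := Real.rpow_pos_of_pos (by norm_num) _

lemma y_lt {q : ℚ} (hq : 0 < q) : y q < 1 :=
  Real.rpow_lt_one_of_one_lt_of_neg (by norm_num) (by simpa using hq)

lemma y_add (s t : ℚ) : y (s + t) = y s * y t := by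
  rw [y, y, y, ← Real.rpow_add (by norm_num)]
  push_cast
  ring_nf

lemma y_one : y 1 = 1 / 8 := by simp [y, Real.rpow_neg_one]

lemma y_third : y (1 / 3) = 1 / 2 := by
  rw [y, show (8 : ℝ) = 2 ^ (3 : ℝ) by norm_num, ← Real.rpow_mul (by norm_num)]
  norm_num [Real.rpow_neg_one]

lemma y_inj : Function.Injective y := fun s t h => by
  have := (Real.rpow_right_inj (by norm_num) (by norm_num)).1 h
  exact_mod_cast neg_inj.1 this

lemma x_add (s t : ℚ) (n : ℕ) : x (s + t) n = x s n * x t n := by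
  simp [x, y_add, mul_pow]

lemma x_norm (q : ℚ) (n : ℕ) : ‖x q n‖ = y q ^ n := by
  rw [x, norm_pow, Complex.norm_real, Real.norm_of_nonneg (y_pos q).le]

lemma x_le {q : ℚ} (hq : 0 < q) (n : ℕ) : ‖x q n‖ ≤ 1 := by
  rw [x_norm]
  exact pow_le_one₀ (y_pos q).le (y_lt hq).le

lemma x_lim {q : ℚ} (hq : 0 < q) : Tendsto (x q) atTop (𝓝 0) :=
  tendsto_pow_atTop_nhds_zero_of_norm_lt_one (by
    rw [Complex.norm_real, Real.norm_of_nonneg (y_pos q).le]
    exact y_lt hq)

def Ball : Type := {η : ℕ → ℂ // (∀ n, ‖η n‖ ≤ 1) ∧ Tendsto η atTop (𝓝 0)}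

noncomputable def v : Qp ⊕ Ball → ℕ → ℂ
  | .inl t => x t.1
  | .inr η => x 1 * η.1

lemma v_le (d : Qp ⊕ Ball) (n : ℕ) : ‖v d n‖ ≤ 1 := by
  rcases d with t | η
  · exact x_le t.2 n
  · exact (norm_mul_le _ _).trans (mul_le_one₀ (x_le one_pos n) (norm_nonneg _) (η.2.1 n))

noncomputable def sm (d : Qp ⊕ Ball) (η : Ball) : Ball :=
  ⟨v d * η.1, fun n => (norm_mul_le _ _).trans (mul_le_one₀ (v_le d n) (norm_nonneg _) (η.2.1 n)),
    squeeze_zero_norm (fun n => (norm_mul_le _ _).trans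
      (mul_le_of_le_one_left (norm_nonneg _) (v_le d n))) (by simpa using η.2.2.norm)⟩

noncomputable def m : Qp ⊕ Ball → Qp ⊕ Ball → Qp ⊕ Ball
  | .inl s, .inl t => .inl ⟨s.1 + t.1, add_pos s.2 t.2⟩
  | .inr η, .inl t => .inr (sm (.inl t) η)
  | d, .inr η => .inr (sm d η)

noncomputable def S : Dat where
  D := Qp ⊕ Ball
  v := v
  m := m
  le := v_le
  mul d e n := by
    rcases d with s | η <;> rcases e with t | ζ
    · exact x_add _ _ _
    all_goals
      simp only [m, v, sm, Pi.mul_apply]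
      ring

lemma ideal (η : ℕ → ℂ) (r : ℝ) (hη : ∀ n, ‖η n‖ ≤ r) (hl : Tendsto η atTop (𝓝 0)) :
    ∃ f : A S, ‖f‖ ≤ r ∧ io S f = x 1 * η := by
  rcases ((norm_nonneg _).trans (hη 0)).eq_or_lt with h | h
  · refine ⟨0, by simp [← h], ?_⟩
    have : η = 0 := funext fun n => norm_le_zero_iff.1 (h ▸ hη n)
    simp [this]
  have hr : (r : ℂ) ≠ 0 := by exact_mod_cast h.ne'
  obtain ⟨b, hb⟩ : ∃ b : Ball, b.1 = fun n => η n / r :=
    ⟨⟨fun n => η n / r, fun n => by
      rw [norm_div, Complex.norm_real, Real.norm_of_nonneg h.le, div_le_one h]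
      exact hη n, by simpa using hl.div_const r⟩, rfl⟩
  refine ⟨(r : ℂ) • dl S (.inr b), ?_, funext fun n => ?_⟩
  · rw [norm_smul, Complex.norm_real, Real.norm_of_nonneg h.le]
    exact mul_le_of_le_one_right h.le (dl_le S _)
  · rw [map_smul, Pi.smul_apply, io_dl]
    simp only [S, v, Pi.mul_apply, smul_eq_mul, hb]
    field_simp

lemma split (f : A S) {ε : ℝ} (hε : 0 < ε) : ∃ (a : Qp → ℂ) (η : ℕ → ℂ) (r : ℝ),
    (Summable fun t => ‖a t‖) ∧ ∑' t, ‖a t‖ + r < ‖f‖ + ε ∧ (∀ n, ‖η n‖ ≤ r) ∧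
    Tendsto η atTop (𝓝 0) ∧ ∀ n, io S f n = ∑' t, a t * x t.1 n + x 1 n * η n := by
  obtain ⟨a, rfl, ha⟩ := rep S f hε
  have s0 := (l1_hasSum a).summable
  have s1 : Summable fun t : Qp => ‖a (.inl t)‖ := s0.comp_injective Sum.inl_injective
  have s2 : Summable fun b : Ball => ‖a (.inr b)‖ := s0.comp_injective Sum.inr_injective
  have bd : ∀ n (b : Ball), ‖a (.inr b) * b.1 n‖ ≤ ‖a (.inr b)‖ := fun n b => by
    rw [norm_mul]
    exact mul_le_of_le_one_right (norm_nonneg _) (b.2.1 n)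
  refine ⟨fun t => a (.inl t), fun n => ∑' b : Ball, a (.inr b) * b.1 n,
    ∑' b : Ball, ‖a (.inr b)‖, s1, ?_, fun n => tsum_of_norm_bounded s2.hasSum (bd n), ?_,
    fun n => ?_⟩
  · rwa [(HasSum.sum (f := fun d : Qp ⊕ Ball => ‖a d‖) s1.hasSum s2.hasSum).unique (l1_hasSum a)]
  · have := tendsto_tsum_of_dominated_convergence (𝓕 := atTop)
      (f := fun n (b : Ball) => a (.inr b) * b.1 n) (g := fun _ => 0) s2
      (fun b => by simpa using b.2.2.const_mul (a (.inr b))) (Eventually.of_forall bd)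
    simpa using this
  · rw [io_q, ev_ap, ← tsum_mul_left]
    refine (HasSum.sum (f := fun d : Qp ⊕ Ball => a d * v d n)
      (sb S s1 Sum.inl n).of_norm.hasSum ?_).tsum_eq
    have := ((Summable.of_norm_bounded s2 (bd n)).mul_left (x 1 n)).hasSum
    refine (congrArg (fun F => HasSum F _) (funext fun b => ?_)).mp this
    simp only [Function.comp, v, Pi.mul_apply]
    ring

noncomputable def Φ : (ℕ → ℂ) →ₗ[ℂ] (ℕ → ℂ) where
  toFun u n := 4 * u (n + 1) - 4 * u (n + 2)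
  map_add' u w := funext fun n => by simp only [Pi.add_apply]; ring
  map_smul' c u := funext fun n => by simp only [Pi.smul_apply, smul_eq_mul, RingHom.id_apply]; ring

lemma Φ_succ (k : ℕ) (u : ℕ → ℂ) (n : ℕ) :
    (Φ ^ (k + 1)) u n = 4 * (Φ ^ k) u (n + 1) - 4 * (Φ ^ k) u (n + 2) := by
  rw [pow_succ']
  rfl

def Lm (u : ℕ → ℂ) (c : ℂ) : Prop := Tendsto (fun k => (Φ ^ k) u 0) atTop (𝓝 c)

lemma Lm.add {u w : ℕ → ℂ} {c d : ℂ} (h1 : Lm u c) (h2 : Lm w d) : Lm (u + w) (c + d) := by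
  simpa [Lm] using Tendsto.add h1 h2

lemma Lm_small (η : ℕ → ℂ) (C : ℝ) (h : ∀ n, ‖η n‖ ≤ C) : Lm (x 1 * η) 0 := by
  have : ∀ k n, ‖(Φ ^ k) (x 1 * η) n‖ ≤ C * (1 / 8) ^ n * (9 / 16) ^ k := by
    intro k
    induction k with
    | zero =>
      intro n
      simp only [pow_zero, Module.End.one_apply, Pi.mul_apply, norm_mul, x_norm, y_one, mul_one]
      rw [mul_comm]
      exact mul_le_mul_of_nonneg_right (h n) (by positivity)
    | succ k ih =>
      intro n
      rw [Φ_succ]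
      refine (norm_sub_le _ _).trans ?_
      rw [norm_mul, norm_mul, Complex.norm_ofNat]
      have := ih (n + 1)
      have := ih (n + 2)
      calc _ ≤ 4 * (C * (1 / 8) ^ (n + 1) * (9 / 16) ^ k) +
            4 * (C * (1 / 8) ^ (n + 2) * (9 / 16) ^ k) := by linarith
        _ = _ := by ring
  refine squeeze_zero_norm (fun k => this k 0) ?_
  simpa using (tendsto_pow_atTop_nhds_zero_of_lt_one (r := 9 / 16) (by norm_num)
    (by norm_num)).const_mul C

lemma Lm_sum {J : Type} (h : J → ℂ) (hs : Summable fun j => ‖h j‖) (p : J → Qp) :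
    Lm (fun n => ∑' j, h j * x (p j).1 n) (∑' j, if (p j).1 = 1 / 3 then h j else 0) := by
  have r0 : ∀ j, 0 ≤ 4 * y (p j).1 * (1 - y (p j).1) := fun j => by
    have := y_pos (p j).1
    have := sub_pos.2 (y_lt (p j).2)
    positivity
  have bd : ∀ k n j, ‖h j * ((y (p j).1 ^ n * (4 * y (p j).1 * (1 - y (p j).1)) ^ k : ℝ) : ℂ)‖ ≤
      ‖h j‖ := fun k n j => by
    rw [norm_mul, Complex.norm_real,
      Real.norm_of_nonneg (mul_nonneg (pow_pos (y_pos _) _).le (pow_nonneg (r0 j) _))]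
    refine mul_le_of_le_one_right (norm_nonneg _) (mul_le_one₀
      (pow_le_one₀ (y_pos _).le (y_lt (p j).2).le) (pow_nonneg (r0 j) _) (pow_le_one₀ (r0 j) ?_))
    nlinarith [sq_nonneg (2 * y (p j).1 - 1)]
  have e : ∀ k n, (Φ ^ k) (fun n => ∑' j, h j * x (p j).1 n) n =
      ∑' j, h j * ((y (p j).1 ^ n * (4 * y (p j).1 * (1 - y (p j).1)) ^ k : ℝ) : ℂ) := by
    intro k
    induction k with
    | zero => simp [x]
    | succ k ih =>
      intro n
      rw [Φ_succ, ih, ih, ← tsum_mul_left, ← tsum_mul_left,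
        ← ((Summable.of_norm_bounded hs (bd k _)).mul_left 4).tsum_sub
          ((Summable.of_norm_bounded hs (bd k _)).mul_left 4)]
      refine tsum_congr fun j => ?_
      push_cast
      ring
  simp only [Lm, e]
  refine tendsto_tsum_of_dominated_convergence hs (fun j => ?_) (Eventually.of_forall (bd · 0))
  split_ifs with hj
  · rw [hj, y_third]
    norm_num
  · have h1 : 4 * y (p j).1 * (1 - y (p j).1) < 1 := by
      have : 2 * y (p j).1 - 1 ≠ 0 := fun h0 => hj (y_inj (by rw [y_third]; linarith))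
      nlinarith [sq_pos_of_ne_zero this]
    have := (Complex.continuous_ofReal.tendsto 0).comp
      (tendsto_pow_atTop_nhds_zero_of_lt_one (r0 j) h1)
    simpa using this.const_mul (h j)

def third : Qp := ⟨1 / 3, by norm_num⟩

lemma no_ai (e : A S) : 1 ≤ ‖dl S (.inl third) - e * dl S (.inl third)‖ := by
  by_contra hn
  obtain ⟨a, η, r, a1, a2, a3, -, a5⟩ := split (dl S (.inl third) - e * dl S (.inl third))
    (sub_pos.2 (not_le.1 hn))
  obtain ⟨b, ζ, r', b1, -, b3, -, b5⟩ := split e one_pos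
  have l1 := ((Lm_sum a a1 id).add (Lm_small η r a3)).add
    ((Lm_sum b b1 fun t => ⟨t.1 + 1 / 3, by linarith [t.2]⟩).add
      (Lm_small (fun n => ζ n * x (1 / 3) n) r' fun n => (norm_mul_le _ _).trans
        ((mul_le_of_le_one_right (norm_nonneg _) (x_le (by norm_num) n)).trans (b3 n))))
  have l2 := Lm_sum (fun _ : Unit => 1) Summable.of_finite fun _ => third
  have e1 : (fun n => ∑' _ : Unit, (1 : ℂ) * x third.1 n) =
      ((fun n => ∑' t, a t * x (id t).1 n) + x 1 * η) + ((fun n => ∑' t, b t * x (t.1 + 1 / 3) n) +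
        x 1 * fun n => ζ n * x (1 / 3) n) := by
    funext n
    have := a5 n
    rw [map_sub, io_mul, Pi.sub_apply, Pi.mul_apply, io_dl, b5] at this
    simp only [x_add, ← mul_assoc, tsum_mul_right, Pi.add_apply, Pi.mul_apply, id, tsum_fintype,
      Finset.univ_unique, Finset.sum_singleton]
    change x (1 / 3) n - _ * x (1 / 3) n = _ at this
    change 1 * x (1 / 3) n = _
    linear_combination this
  rw [e1] at l2
  have h := tendsto_nhds_unique l1 l2
  have n1 : ∀ t : Qp, ¬ t.1 + 1 / 3 = 1 / 3 := fun t h => by linarith [t.2]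
  have n2 : ∀ t : Qp, t.1 = 1 / 3 ↔ t = third := fun t => ⟨fun h => Subtype.ext h, fun h => h ▸ rfl⟩
  simp only [n1, n2, id, if_false, tsum_zero, add_zero, if_true, tsum_fintype, Finset.univ_unique,
    Finset.sum_singleton] at h
  rw [tsum_eq_single third fun t ht => if_neg ht, if_pos rfl] at h
  have h2 := a1.le_tsum third fun _ _ => norm_nonneg _
  have h3 := (norm_nonneg _).trans (a3 0)
  rw [h, norm_one] at h2
  linarith

end Pool.Agent.H88.NoBai
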