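import Pool.Agent.H88.NoBai

open Filter Topology

namespace Pool.Agent.H88.NoBai

open QFac SgAlg L1Solve

lemma bb_sum (i : ℕ) : (Summable fun j => ‖bb i j‖) ∧ ∑' j, ‖bb i j‖ ≤ 2 := by
  have s := Summable.of_nonneg_of_le (fun _ => norm_nonneg _) (bb_le i) summable_geometric_two
  exact ⟨s, (s.tsum_le_tsum (bb_le i) summable_geometric_two).trans tsum_geometric_two.le⟩

lemma beta_ge (σ : ℕ → Qp) (n k : ℕ) (h : ((σ (2 * k + 1)).1 : ℝ) * n ≤ 1 / 3) :
    (1 / 8 : ℝ) ^ (2 * k + 1) / 2 ≤ ‖∑' j, bb 1 j * x (σ j).1 n‖ := by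
  obtain ⟨u, hu⟩ : ∃ u : ℕ → ℝ, u = fun j => (if j % 2 = 1 then (1 / 8 : ℝ) ^ j else 0) *
    y (σ j).1 ^ n := ⟨_, rfl⟩
  have e : ∀ j, bb 1 j * x (σ j).1 n = (u j : ℂ) := fun j => by
    simp only [hu, bb, x]
    split_ifs <;> simp
  have u0 : ∀ j, 0 ≤ u j := fun j => by
    have := y_pos (σ j).1
    simp only [hu]
    split_ifs <;> positivity
  have su : Summable u := by
    have := sb S (bb_sum 1).1 (fun j => Sum.inl (σ j)) n
    refine this.congr fun j => ?_
    change ‖bb 1 j * x (σ j).1 n‖ = _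
    rw [e, Complex.norm_real, Real.norm_of_nonneg (u0 j)]
  simp only [e]
  rw [← Complex.ofReal_tsum, Complex.norm_real, Real.norm_of_nonneg (tsum_nonneg u0)]
  refine le_trans ?_ (su.le_tsum (2 * k + 1) fun j _ => u0 j)
  have h1 : 1 / 2 ≤ y (σ (2 * k + 1)).1 ^ n := by
    rw [← y_third, y, y, ← Real.rpow_mul_natCast (by norm_num)]
    refine Real.rpow_le_rpow_of_exponent_le (by norm_num) ?_
    push_cast
    linarith
  simp only [hu]
  rw [if_pos (by omega), div_eq_mul_one_div]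
  gcongr

lemma fac1 (f : A S) (hf : ‖f‖ < 1) : ∃ b c b' c' : A S, f = b * c + b' * c' ∧
    ‖b‖ * ‖c‖ + ‖b'‖ * ‖c'‖ ≤ 1184 := by
  obtain ⟨a, η, r, a1, a2, a3, a4, a5⟩ := split f (sub_pos.2 hf)
  have r0 := (norm_nonneg _).trans (a3 0)
  have s0 : 0 ≤ ∑' t, ‖a t‖ := tsum_nonneg fun _ => norm_nonneg _
  have hN : ∀ j : ℕ, ∃ N, ∀ n ≥ N, ‖η n‖ ≤ (1 / 64) ^ (j + 2) := fun j =>
    eventually_atTop.1 ((a4.norm.eventually (gt_mem_nhds (by simp))).mono fun _ h => h.le)
  choose N hN using hN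
  obtain ⟨σ, τ, G, h1, h2, h3⟩ := main2 a a1 (by linarith)
    (fun j => 1 / (3 * ((N j + j + 1 : ℕ) : ℝ))) fun j => by positivity
  obtain ⟨β, hβ⟩ : ∃ β : ℕ → ℂ, β = fun n => ∑' j, bb 1 j * x (σ j).1 n := ⟨_, rfl⟩
  have key : ∀ n, 0 < ‖β n‖ ∧ ‖η n‖ ≤ 256 * ‖β n‖ ^ 2 := fun n => by
    have ex : ∃ k, n ≤ N (2 * k + 1) + (2 * k + 1) + 1 := ⟨n, by omega⟩
    have g := beta_ge σ n (Nat.find ex) (by
      have b1 := h1 (2 * Nat.find ex)
      have b2 : (n : ℝ) ≤ (N (2 * Nat.find ex + 1) + (2 * Nat.find ex + 1) + 1 : ℕ) := by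
        exact_mod_cast Nat.find_spec ex
      refine (mul_le_mul b1 b2 (by positivity) (by positivity)).trans (le_of_eq ?_)
      field_simp)
    have g' : (1 / 8 : ℝ) ^ (2 * Nat.find ex + 1) / 2 ≤ ‖β n‖ := hβ ▸ g
    refine ⟨lt_of_lt_of_le (by positivity) g', ?_⟩
    have g2 := pow_le_pow_left₀ (by positivity) g' 2
    rcases hk : Nat.find ex with _ | k
    · rw [hk] at g2
      have := a3 n
      norm_num at g2
      linarith
    · have := hN (2 * k + 1) n (by
        have := Nat.find_min ex (show k < Nat.find ex by omega)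
        omega)
      rw [hk, div_pow, ← pow_mul, mul_comm _ 2, pow_mul] at g2
      have p : 0 < ‖β n‖ ^ 2 := lt_of_lt_of_le (by positivity) g2
      norm_num at g2 this
      rw [show 2 * (k + 1) + 1 = 2 * k + 1 + 2 by ring] at g2
      linarith
  have zb : ∀ n, ‖η n / β n‖ ≤ 16 * √‖η n‖ := fun n => by
    rw [norm_div, div_le_iff₀ (key n).1]
    have s1 := Real.sqrt_nonneg ‖η n‖
    have s2 := Real.mul_self_sqrt (norm_nonneg (η n))
    have s3 : √‖η n‖ ≤ 16 * ‖β n‖ := Real.sqrt_le_iff.2 ⟨by positivity, by linarith [(key n).2]⟩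
    nlinarith [mul_le_mul_of_nonneg_left s3 s1]
  obtain ⟨z, z1, z2⟩ := ideal (fun n => η n / β n) 16 (fun n => (zb n).trans (by
    have : √‖η n‖ ≤ 1 := Real.sqrt_le_one.2 ((a3 n).trans (by linarith))
    linarith)) (squeeze_zero_norm zb (by simpa using a4.norm.sqrt.const_mul 16))
  obtain ⟨b0, p0, q0⟩ := mk S (bb_sum 0).1 fun j => Sum.inl (σ j)
  obtain ⟨b1, p1, q1⟩ := mk S (bb_sum 1).1 fun j => Sum.inl (σ j)
  obtain ⟨c0, u0, w0⟩ := mk S (h2 0).1 fun j => Sum.inl (τ j)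
  obtain ⟨c1, u1, w1⟩ := mk S (h2 1).1 fun j => Sum.inl (τ j)
  refine ⟨b0, c0, b1, c1 + z, io_inj S (funext fun n => ?_), ?_⟩
  · have hb : β n ≠ 0 := norm_pos_iff.1 (key n).1
    have e := h3 (fun t => x t n) (fun t => x_le t.2 n) fun s t => x_add s t n
    have q1' : io S b1 n = β n := hβ ▸ q1 n
    have e2 : io S b1 n * io S z n = x 1 n * η n := by
      rw [q1', z2, Pi.mul_apply]
      field_simp
    simp only [map_add, io_mul, Pi.add_apply, Pi.mul_apply, mul_add]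
    rw [e2, a5, e, q0, q1, w0, w1, add_assoc]
    rfl
  · have := mul_le_mul (p0.trans (bb_sum 0).2) (u0.trans (h2 0).2) (norm_nonneg _) zero_le_two
    have := mul_le_mul (p1.trans (bb_sum 1).2)
      ((norm_add_le _ _).trans (add_le_add (u1.trans (h2 1).2) z1)) (norm_nonneg _) zero_le_two
    linarith

lemma fac (f : A S) : ∃ b c b' c' : A S, f = b * c + b' * c' ∧
    ‖b‖ * ‖c‖ + ‖b'‖ * ‖c'‖ ≤ 2368 * ‖f‖ := by
  rcases eq_or_ne f 0 with rfl | h
  · exact ⟨0, 0, 0, 0, by simp, by simp⟩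
  have p : 0 < 2 * ‖f‖ := mul_pos two_pos (norm_pos_iff.2 h)
  have p' : ((2 * ‖f‖ : ℝ) : ℂ) ≠ 0 := Complex.ofReal_ne_zero.2 p.ne'
  have hn : ‖((2 * ‖f‖ : ℝ) : ℂ)‖ = 2 * ‖f‖ := by
    rw [Complex.norm_real, Real.norm_of_nonneg p.le]
  obtain ⟨b, c, b', c', h1, h2⟩ := fac1 (((2 * ‖f‖ : ℝ) : ℂ)⁻¹ • f) (by
    rw [norm_smul, norm_inv, hn, inv_mul_lt_iff₀ p]
    linarith)
  refine ⟨((2 * ‖f‖ : ℝ) : ℂ) • b, c, ((2 * ‖f‖ : ℝ) : ℂ) • b', c', ?_, ?_⟩
  · rw [smul_mul_assoc, smul_mul_assoc, ← smul_add, ← h1, smul_inv_smul₀ p']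
  · rw [norm_smul, norm_smul, hn]
    nlinarith [mul_le_mul_of_nonneg_left h2 p.le]

lemma ex_e (n : ℕ) : ∃ e : A S, io S e = Pi.single n 1 := by
  have hx : x 1 n ≠ 0 := norm_pos_iff.1 (by rw [x_norm]; exact pow_pos (y_pos 1) n)
  obtain ⟨e, -, he⟩ := ideal (Pi.single n (x 1 n)⁻¹) ‖(x 1 n)⁻¹‖ (fun k => by
    rcases eq_or_ne k n with rfl | h
    · simp
    · simp [h]) (tendsto_const_nhds.congr' (by
      filter_upwards [eventually_gt_atTop n] with k hk
      simp [hk.ne']))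
  refine ⟨e, he.trans (funext fun k => ?_)⟩
  rcases eq_or_ne k n with rfl | h
  · simp [hx]
  · simp [h]

noncomputable def e (n : ℕ) : A S := (ex_e n).choose

lemma io_e (n : ℕ) : io S (e n) = Pi.single n 1 := (ex_e n).choose_spec

open WeakDual

lemma eq_pt (φ : characterSpace ℂ (A S)) {n : ℕ} (h : φ (e n) ≠ 0) (f : A S) :
    φ f = io S f n := by
  have : f * e n = io S f n • e n := io_inj S (funext fun k => by
    rw [io_mul, map_smul, io_e]
    rcases eq_or_ne k n with rfl | h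
    · simp
    · simp [h])
  have := congrArg φ this
  rw [map_mul, map_smul, smul_eq_mul] at this
  exact mul_right_cancel₀ h this

lemma ex_n (φ : characterSpace ℂ (A S)) : ∃ n, φ (e n) ≠ 0 := by
  by_contra! hn
  obtain ⟨ψ, hψ⟩ : ∃ ψ : A S →L[ℂ] ℂ, ∀ f, ψ f = φ f := ⟨CharacterSpace.toCLM φ, fun _ => rfl⟩
  have i0 : ∀ (f : A S) (η : ℕ → ℂ), Tendsto η atTop (𝓝 0) → io S f = x 1 * η → φ f = 0 := by
    intro f η h1 h2
    refine norm_le_zero_iff.1 (le_of_forall_pos_le_add fun ε hε => ?_)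
    obtain ⟨N, hN⟩ := eventually_atTop.1
      (h1.norm.eventually (gt_mem_nhds (show ‖(0:ℂ)‖ < ε / (‖ψ‖ + 1) by
        rw [norm_zero]; positivity)))
    obtain ⟨g, g1, g2⟩ := ideal (fun n => if n < N then 0 else η n) (ε / (‖ψ‖ + 1)) (fun n => by
      split_ifs with h
      · rw [norm_zero]; positivity
      · exact (hN n (not_lt.1 h)).le) (h1.congr' (by
        filter_upwards [eventually_ge_atTop N] with k hk
        rw [if_neg (not_lt.2 hk)]))
    have : f = g + ∑ n ∈ Finset.range N, io S f n • e n := io_inj S (funext fun k => by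
      simp only [map_add, map_sum, map_smul, io_e, Pi.add_apply, Finset.sum_apply, Pi.smul_apply,
        Pi.single_apply, smul_eq_mul, mul_ite, mul_one, mul_zero, Finset.sum_ite_eq,
        Finset.mem_range, g2, Pi.mul_apply]
      split_ifs <;> simp [h2])
    rw [this, map_add, map_sum, Finset.sum_eq_zero fun n _ => by rw [map_smul, hn, smul_zero],
      add_zero, zero_add, ← hψ]
    refine (ψ.le_opNorm g).trans ((mul_le_mul_of_nonneg_left g1 (norm_nonneg _)).trans ?_)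
    rw [mul_div_assoc', div_le_iff₀ (by positivity)]
    nlinarith
  have i1 : ∀ d, φ (dl S d) = 0 := by
    rintro (t | η)
    · have pw : ∀ k : ℕ, φ (dl S (.inl ⟨(k + 1) * t.1, mul_pos (by positivity) t.2⟩)) =
          φ (dl S (.inl t)) ^ (k + 1) := by
        intro k
        induction k with
        | zero => simp
        | succ k ih =>
          rw [pow_succ, ← ih, ← map_mul]
          refine congrArg φ (io_inj S (funext fun n => ?_))
          rw [io_mul, Pi.mul_apply, io_dl, io_dl, io_dl]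
          refine Eq.trans ?_ (x_add _ _ n)
          change x _ n = _
          congr 1
          push_cast
          ring
      obtain ⟨k, hk⟩ := exists_nat_gt (1 / t.1)
      have hk' : 0 < (k + 1) * t.1 - 1 := by
        have := (div_lt_iff₀ t.2).1 hk
        nlinarith [t.2]
      refine eq_zero_of_pow_eq_zero (n := k + 1) ((pw k).symm.trans (i0 _ _ (x_lim hk') ?_))
      funext n
      rw [io_dl, Pi.mul_apply, ← x_add, add_sub_cancel]
      rfl
    · exact i0 _ _ η.2.2 (funext fun n => io_dl S _ n)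
  refine φ.2.1 (DFunLike.ext _ _ fun f => ?_)
  obtain ⟨a, rfl, -⟩ := rep S f one_pos
  have := ψ.hasSum (hasSum_q S a)
  simp only [map_smul, hψ, i1, smul_zero] at this
  exact this.unique hasSum_zero

lemma uniq {φ ψ : characterSpace ℂ (A S)} {n : ℕ} (h : φ (e n) ≠ 0) (h' : ψ (e n) ≠ 0) : φ = ψ :=
  CharacterSpace.ext fun f => (eq_pt φ h f).trans (eq_pt ψ h' f).symm

lemma discrete : DiscreteTopology (characterSpace ℂ (A S)) := by
  refine discreteTopology_iff_isOpen_singleton.2 fun φ => ?_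
  obtain ⟨n, hn⟩ := ex_n φ
  have : {φ} = {ψ : characterSpace ℂ (A S) | ψ (e n) ≠ 0} :=
    Set.ext fun ψ => ⟨fun h => h ▸ hn, fun h => uniq h hn⟩
  rw [this]
  exact isOpen_ne_fun ((WeakDual.eval_continuous (e n)).comp continuous_subtype_val)
    continuous_const

lemma regular (F : Set (characterSpace ℂ (A S))) (φ : characterSpace ℂ (A S)) (h : φ ∉ F) :
    ∃ a : A S, (∀ ψ ∈ F, ψ a = 0) ∧ φ a ≠ 0 := by
  obtain ⟨n, hn⟩ := ex_n φ
  exact ⟨e n, fun ψ hψ => by_contra fun h' => h (uniq h' hn ▸ hψ), hn⟩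

lemma semi (f : A S) (h : ∀ φ : characterSpace ℂ (A S), φ f = 0) : f = 0 := by
  refine io_inj S (funext fun n => ?_)
  rw [map_zero]
  refine h ⟨StrongDual.toWeakDual (pt S n), fun h0 => ?_, fun a b => congrFun (io_mul S a b) n⟩
  have : io S (e n) n = 0 := DFunLike.congr_fun h0 (e n)
  simp [io_e] at this

end Pool.Agent.H88.NoBai
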