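import Mathlib

namespace Pool.Agent.H88.Om

open Set Filter Topology Metric
open scoped ENNReal

/-- A concave modulus of continuity on `[0,1]` with finite values. -/
structure ConcaveModulus (ω : ℝ → ℝ) : Prop where
  mono : MonotoneOn ω (Icc 0 1)
  pos : ∀ t ∈ Ioc (0:ℝ) 1, 0 < ω t
  zero : ω 0 = 0
  lim : Tendsto ω (𝓝[>] 0) (𝓝 0)
  concave : ConcaveOn ℝ (Icc 0 1) ω

/-- `[f]_ω`. -/
noncomputable def semi (ω : ℝ → ℝ) (f : unitInterval → ℝ) : ℝ≥0∞ :=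
  ⨆ (x : unitInterval) (y : unitInterval) (_ : x ≠ y),
    ENNReal.ofReal |f x - f y| / ENNReal.ofReal (ω |(x:ℝ) - y|)

/-- `‖f‖_ω = ‖f‖_∞ + [f]_ω`. -/
noncomputable def nrm (ω : ℝ → ℝ) (f : unitInterval → ℝ) : ℝ≥0∞ :=
  (⨆ x, ENNReal.ofReal |f x|) + semi ω f

/-- The space `C^ω[0,1]`. -/
def Cw (ω : ℝ → ℝ) : Type := {f : unitInterval → ℝ // semi ω f < ⊤}

theorem semi_add (ω : ℝ → ℝ) (f g : unitInterval → ℝ) : semi ω (f + g) ≤ semi ω f + semi ω g := by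
  refine iSup_le fun x => iSup_le fun y => iSup_le fun h => ?_
  refine le_trans ?_ (add_le_add (le_iSup_of_le x (le_iSup₂_of_le y h le_rfl))
    (le_iSup_of_le x (le_iSup₂_of_le y h le_rfl)))
  rw [← ENNReal.add_div, ← ENNReal.ofReal_add (abs_nonneg _) (abs_nonneg _)]
  refine ENNReal.div_le_div_right (ENNReal.ofReal_le_ofReal ?_) _
  rw [Pi.add_apply, Pi.add_apply, add_sub_add_comm]
  exact abs_add_le _ _

theorem nrm_add (ω : ℝ → ℝ) (f g : unitInterval → ℝ) : nrm ω (f + g) ≤ nrm ω f + nrm ω g := by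
  unfold nrm
  rw [add_add_add_comm]
  refine add_le_add (iSup_le fun x => ?_) (semi_add ω f g)
  refine le_trans ?_ (add_le_add (le_iSup _ x) (le_iSup _ x))
  rw [← ENNReal.ofReal_add (abs_nonneg _) (abs_nonneg _)]
  exact ENNReal.ofReal_le_ofReal (abs_add_le _ _)

theorem nrm_neg (ω : ℝ → ℝ) (f : unitInterval → ℝ) : nrm ω (-f) = nrm ω f := by
  simp only [nrm, semi, Pi.neg_apply, abs_neg, neg_sub_neg, abs_sub_comm]

/-- `C^ω[0,1]` carries the distance `‖f - g‖_ω`. -/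
noncomputable instance (ω : ℝ → ℝ) : PseudoEMetricSpace (Cw ω) where
  edist f g := nrm ω (f.1 - g.1)
  edist_self f := by simp [nrm, semi]
  edist_comm f g := by rw [← nrm_neg, neg_sub]
  edist_triangle f g h := by
    rw [← sub_add_sub_cancel f.1 g.1 h.1]
    exact nrm_add ω _ _

/-- The graph of `f` in the Euclidean plane. -/
def graph (f : unitInterval → ℝ) : Set (EuclideanSpace ℝ (Fin 2)) :=
  {p | ∃ x : unitInterval, p 0 = x ∧ p 1 = f x}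

/-- `N_r(E)`: the largest number of pairwise disjoint closed `r`-balls centred in `E`. -/
noncomputable def pack (r : ℝ) (E : Set (EuclideanSpace ℝ (Fin 2))) : ℝ≥0∞ :=
  ⨆ (s : Finset (EuclideanSpace ℝ (Fin 2))) (_ : ↑s ⊆ E)
    (_ : ∀ x ∈ s, ∀ y ∈ s, x ≠ y → Disjoint (closedBall x r) (closedBall y r)), (s.card : ℝ≥0∞)

/-- Assouad dimension. -/
noncomputable def dimA (F : Set (EuclideanSpace ℝ (Fin 2))) : ℝ :=
  sInf {β : ℝ | ∃ C : ℝ, 0 < C ∧ ∀ r R : ℝ, 0 < r → r < R → ∀ x ∈ F,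
    pack r (ball x R ∩ F) ≤ ENNReal.ofReal (C * (R / r) ^ β)}

/-- Assouad spectrum. -/
noncomputable def dimSpec (θ : ℝ) (F : Set (EuclideanSpace ℝ (Fin 2))) : ℝ :=
  sInf {β : ℝ | ∃ C : ℝ, 0 < C ∧ ∀ r : ℝ, 0 < r → r < 1 → ∀ x ∈ F,
    pack r (ball x (r ^ θ) ∩ F) ≤ ENNReal.ofReal (C * (r ^ (θ - 1)) ^ β)}

end Pool.Agent.H88.Om
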