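import Mathlib
import Pool.Agent.H88.OmDefs

namespace Pool.Agent.H88.Om

open Set Filter Topology Metric
open scoped ENNReal

lemma semi_le {f : unitInterval → ℝ} {K : ℝ} (hK : 0 ≤ K)
    (h : ∀ x y : unitInterval, |f x - f y| ≤ K * √|(x:ℝ) - y|) :
    semi Real.sqrt f ≤ ENNReal.ofReal K := by
  refine iSup_le fun x => iSup_le fun y => iSup_le fun _ => ?_
  apply ENNReal.div_le_of_le_mul
  rw [← ENNReal.ofReal_mul hK]
  exact ENNReal.ofReal_le_ofReal (h x y)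

lemma le_semi {f : unitInterval → ℝ} {K : ℝ} (hK : 0 ≤ K)
    (h : semi Real.sqrt f ≤ ENNReal.ofReal K) (x y : unitInterval) :
    |f x - f y| ≤ K * √|(x:ℝ) - y| := by
  by_cases hxy : x = y
  · simp [hxy]
  have h1 : ENNReal.ofReal |f x - f y| / ENNReal.ofReal (√|(x:ℝ) - y|) ≤ ENNReal.ofReal K :=
    le_trans (le_iSup_of_le x (le_iSup₂_of_le (f := fun (y : unitInterval) (_ : x ≠ y) =>
      ENNReal.ofReal |f x - f y| / ENNReal.ofReal (√|(x:ℝ) - y|)) y hxy le_rfl)) h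
  have h2 : 0 < √|(x:ℝ) - y| :=
    Real.sqrt_pos.2 (abs_pos.2 (sub_ne_zero.2 fun e => hxy (Subtype.ext e)))
  rw [ENNReal.div_le_iff (by simpa using h2) ENNReal.ofReal_ne_top, ← ENNReal.ofReal_mul hK,
    ENNReal.ofReal_le_ofReal_iff (by positivity)] at h1
  exact h1

lemma nrm_le {f : unitInterval → ℝ} {K : ℝ} (hK : 0 ≤ K) (h0 : ∀ x, |f x| ≤ K)
    (h : ∀ x y : unitInterval, |f x - f y| ≤ K * √|(x:ℝ) - y|) :
    nrm Real.sqrt f ≤ ENNReal.ofReal (2 * K) := by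
  rw [two_mul, ENNReal.ofReal_add hK hK]
  exact add_le_add (iSup_le fun x => ENNReal.ofReal_le_ofReal (h0 x)) (semi_le hK h)

lemma le_nrm {f : unitInterval → ℝ} {K : ℝ} (hK : 0 ≤ K)
    (h : nrm Real.sqrt f ≤ ENNReal.ofReal K) :
    (∀ x, |f x| ≤ K) ∧ ∀ x y : unitInterval, |f x - f y| ≤ K * √|(x:ℝ) - y| := by
  refine ⟨fun x => ?_, le_semi hK (le_add_self.trans h)⟩
  rw [← ENNReal.ofReal_le_ofReal_iff hK]
  exact (le_iSup (fun x => ENNReal.ofReal |f x|) x).trans (le_self_add.trans h)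

instance : CompleteSpace (Cw Real.sqrt) := by
  refine EMetric.complete_of_convergent_controlled_sequences
    (fun n => ENNReal.ofReal ((1 / 2 : ℝ) ^ n)) (fun n => by simp) fun u hu => ?_
  have hb : ∀ N n m, N ≤ n → N ≤ m → (∀ x, |(u n).1 x - (u m).1 x| ≤ (1 / 2 : ℝ) ^ N) ∧
      ∀ x y : unitInterval, |((u n).1 x - (u m).1 x) - ((u n).1 y - (u m).1 y)| ≤
        (1 / 2 : ℝ) ^ N * √|(x:ℝ) - y| :=
    fun N n m h1 h2 => le_nrm (by positivity) (hu N n m h1 h2).le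
  have h0 : Tendsto (fun N : ℕ => (1 / 2 : ℝ) ^ N) atTop (𝓝 0) :=
    tendsto_pow_atTop_nhds_zero_of_lt_one (by norm_num) (by norm_num)
  have hc : ∀ x, ∃ l, Tendsto (fun n => (u n).1 x) atTop (𝓝 l) := fun x =>
    cauchySeq_tendsto_of_complete (cauchySeq_of_le_tendsto_0 (fun N => (1 / 2 : ℝ) ^ N)
      (fun n m N h1 h2 => (hb N n m h1 h2).1 x) h0)
  choose f hf using hc
  have hl : ∀ n, nrm Real.sqrt ((u n).1 - f) ≤ ENNReal.ofReal (2 * (1 / 2 : ℝ) ^ n) := by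
    intro n
    refine nrm_le (by positivity) (fun x => ?_) fun x y => ?_
    · refine le_of_tendsto ((tendsto_const_nhds.sub (hf x)).abs) ?_
      filter_upwards [eventually_ge_atTop n] with m hm
      exact (hb n n m le_rfl hm).1 x
    · refine le_of_tendsto (((tendsto_const_nhds.sub (hf x)).sub
        (tendsto_const_nhds.sub (hf y))).abs) ?_
      filter_upwards [eventually_ge_atTop n] with m hm
      exact (hb n n m le_rfl hm).2 x y
  have hfm : semi Real.sqrt f < ⊤ := by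
    have e : f = (u 0).1 + -((u 0).1 - f) := by abel
    rw [e]
    refine (semi_add _ _ _).trans_lt (ENNReal.add_lt_top.2 ⟨(u 0).2, ?_⟩)
    have := hl 0
    rw [← nrm_neg] at this
    exact (le_add_self.trans this).trans_lt ENNReal.ofReal_lt_top
  refine ⟨⟨f, hfm⟩, ?_⟩
  rw [tendsto_iff_edist_tendsto_0]
  have h1 : Tendsto (fun n : ℕ => ENNReal.ofReal (2 * (1 / 2 : ℝ) ^ n)) atTop (𝓝 0) := by
    have := ENNReal.tendsto_ofReal (h0.const_mul 2)
    simpa using this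
  exact tendsto_of_tendsto_of_tendsto_of_le_of_le tendsto_const_nhds h1 (fun _ => zero_le) hl

/-- distance to the nearest integer. -/
noncomputable def ph (x : ℝ) : ℝ := ‖(x : UnitAddCircle)‖

lemma ph_nonneg (x : ℝ) : 0 ≤ ph x := norm_nonneg _

lemma ph_le (x : ℝ) : ph x ≤ 1 / 2 := by
  rw [ph, UnitAddCircle.norm_eq]; exact abs_sub_round x

lemma ph_lip (x y : ℝ) : |ph x - ph y| ≤ |x - y| := by
  refine (abs_norm_sub_norm_le _ _).trans ?_
  rw [← AddCircle.coe_sub]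
  exact QuotientAddGroup.norm_mk_le_norm

lemma ph_eq (m : ℤ) {x : ℝ} (h1 : (m:ℝ) ≤ x) (h2 : x ≤ m + 1) :
    ph x = min (x - m) (m + 1 - x) := by
  rw [ph, UnitAddCircle.norm_eq]
  rcases eq_or_lt_of_le h2 with h | h
  · rw [h]
    have : ((m:ℝ) + 1) = ((m + 1 : ℤ) : ℝ) := by push_cast; ring
    rw [this, round_intCast]
    push_cast
    simp
  · rw [abs_sub_round_eq_min, Int.fract, Int.floor_eq_iff.2 ⟨h1, h⟩]
    congr 1; ring

lemma ph_int (m : ℤ) : ph m = 0 := by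
  rw [ph_eq m le_rfl (by linarith)]; simp

noncomputable def tk (x : ℝ) : ℝ := ∑' n : ℕ, (1 / 4 : ℝ) ^ n * ph (16 ^ n * x)

lemma geo : HasSum (fun n : ℕ => (1 / 4 : ℝ) ^ n * (1 / 2)) (2 / 3) := by
  have := (hasSum_geometric_of_lt_one (r := (1 / 4 : ℝ)) (by norm_num) (by norm_num)).mul_right
    (1 / 2)
  rwa [show ((1 - 1 / 4 : ℝ)⁻¹ * (1 / 2)) = 2 / 3 by norm_num] at this

lemma tk_summ (x : ℝ) : Summable fun n : ℕ => (1 / 4 : ℝ) ^ n * ph (16 ^ n * x) :=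
  Summable.of_nonneg_of_le (fun n => mul_nonneg (by positivity) (ph_nonneg _))
    (fun n => mul_le_mul_of_nonneg_left (ph_le _) (by positivity)) geo.summable

lemma tk_nonneg (x : ℝ) : 0 ≤ tk x :=
  tsum_nonneg fun n => mul_nonneg (by positivity) (ph_nonneg _)

lemma tk_le (x : ℝ) : tk x ≤ 2 / 3 :=
  hasSum_le (fun n => mul_le_mul_of_nonneg_left (ph_le _) (by positivity)) (tk_summ x).hasSum geo

lemma tk_eq (x : ℝ) : tk x = ph x + tk (16 * x) / 4 := by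
  rw [tk, (tk_summ x).tsum_eq_zero_add, tk, ← tsum_div_const]
  simp only [pow_zero, one_mul]
  congr 2; ext n
  rw [pow_succ, pow_succ, mul_assoc (16 ^ n : ℝ)]; ring

lemma tk_int (m : ℤ) : tk m = 0 := by
  have : ∀ n : ℕ, (1 / 4 : ℝ) ^ n * ph (16 ^ n * m) = 0 := fun n => by
    have : (16 ^ n * m : ℝ) = ((16 ^ n * m : ℤ) : ℝ) := by push_cast; ring
    rw [this, ph_int, mul_zero]
  simp only [tk, this, tsum_zero]

lemma tk_hold_aux (k : ℕ) : ∀ x y : ℝ, (1 / 16 : ℝ) ^ k ≤ |x - y| → |x - y| ≤ 16 →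
    |tk x - tk y| ≤ 6 * √|x - y| - |x - y| / 3 := by
  have base : ∀ x y : ℝ, 1 ≤ |x - y| → |x - y| ≤ 16 →
      |tk x - tk y| ≤ 6 * √|x - y| - |x - y| / 3 := by
    intro x y h1 h2
    have h3 : 1 ≤ √|x - y| := Real.one_le_sqrt.2 h1
    have : |tk x - tk y| ≤ 2 / 3 := by
      rw [abs_le]; constructor <;> linarith [tk_nonneg x, tk_nonneg y, tk_le x, tk_le y]
    linarith
  induction k with
  | zero => intro x y h1 h2; exact base x y (by simpa using h1) h2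
  | succ k ih =>
    intro x y h1 h2
    by_cases h3 : 1 ≤ |x - y|
    · exact base x y h3 h2
    have e : |16 * x - 16 * y| = 16 * |x - y| := by
      rw [← mul_sub, abs_mul]; norm_num
    have h4 := ih (16 * x) (16 * y) (by rw [e]; rw [pow_succ] at h1; linarith) (by rw [e]; linarith)
    have e2 : √(16 * |x - y|) = 4 * √|x - y| := by
      rw [Real.sqrt_mul (by norm_num), show (16:ℝ) = 4 ^ 2 by norm_num, Real.sqrt_sq (by norm_num)]
    rw [e, e2] at h4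
    rw [tk_eq x, tk_eq y]
    have h5 := abs_le.1 (ph_lip x y)
    have h6 := abs_le.1 h4
    rw [abs_le]; constructor <;> linarith [h5.1, h5.2, h6.1, h6.2]

lemma tk_hold (x y : unitInterval) : |tk x - tk y| ≤ 6 * √|(x:ℝ) - y| := by
  by_cases h : (x:ℝ) = y
  · simp [h]
  obtain ⟨k, hk⟩ := exists_pow_lt_of_lt_one (abs_pos.2 (sub_ne_zero.2 h))
    (show (1 / 16 : ℝ) < 1 by norm_num)
  have h1 : |(x:ℝ) - y| ≤ 16 := by
    rw [abs_le]; constructor <;> linarith [x.2.1, x.2.2, y.2.1, y.2.2]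
  have := tk_hold_aux k x y hk.le h1
  linarith [abs_nonneg ((x:ℝ) - y)]

lemma tk_second (k : ℕ) : ∀ j : ℤ, (1 / 4 : ℝ) ^ k / 2 ≤
    tk ((j + 1 / 2) / 16 ^ k) - (tk (j / 16 ^ k) + tk ((j + 1) / 16 ^ k)) / 2 := by
  induction k with
  | zero =>
    intro j
    have e1 : ((j:ℝ) + 1) = ((j + 1 : ℤ) : ℝ) := by push_cast; ring
    have e2 : 16 * ((j:ℝ) + 1 / 2) = ((16 * j + 8 : ℤ) : ℝ) := by push_cast; ring
    simp only [pow_zero, div_one]
    rw [e1, tk_int, tk_int, tk_eq, e2, tk_int, ph_eq j (by linarith) (by linarith)]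
    norm_num
  | succ k ih =>
    intro j
    have hp : (0:ℝ) < 16 ^ (k + 1) := by positivity
    have e : ∀ t : ℝ, 16 * (t / 16 ^ (k + 1)) = t / 16 ^ k := fun t => by
      rw [pow_succ]; field_simp
    rw [tk_eq (((j:ℝ) + 1 / 2) / _), tk_eq ((j:ℝ) / _), tk_eq (((j:ℝ) + 1) / _), e, e, e]
    set m : ℤ := j / 16 ^ (k + 1) with hm
    have a1 : m * 16 ^ (k + 1) ≤ j := Int.ediv_mul_le j (by positivity)
    have a2 : j < (m + 1) * 16 ^ (k + 1) := Int.lt_ediv_add_one_mul_self j (by positivity)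
    have b1 : (m:ℝ) * 16 ^ (k + 1) ≤ j := by exact_mod_cast a1
    have b2 : (j:ℝ) + 1 ≤ (m + 1) * 16 ^ (k + 1) := by exact_mod_cast a2
    have c1 : (m:ℝ) ≤ j / 16 ^ (k + 1) := by rwa [le_div_iff₀ hp]
    have c2 : ((j:ℝ) + 1) / 16 ^ (k + 1) ≤ m + 1 := by rwa [div_le_iff₀ hp]
    have c3 : ((j:ℝ) + 1 / 2) / 16 ^ (k + 1) =
        ((j:ℝ) / 16 ^ (k + 1) + ((j:ℝ) + 1) / 16 ^ (k + 1)) / 2 := by ring
    have c4 : (j:ℝ) / 16 ^ (k + 1) ≤ ((j:ℝ) + 1) / 16 ^ (k + 1) := by gcongr; linarith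
    have := ih j
    rw [ph_eq m (x := ((j:ℝ) + 1 / 2) / 16 ^ (k + 1)) (by linarith) (by linarith),
      ph_eq m c1 (by linarith), ph_eq m (x := ((j:ℝ) + 1) / 16 ^ (k + 1)) (by linarith) c2]
    have d1 := min_le_left ((j:ℝ) / 16 ^ (k + 1) - m) (m + 1 - (j:ℝ) / 16 ^ (k + 1))
    have d2 := min_le_right ((j:ℝ) / 16 ^ (k + 1) - m) (m + 1 - (j:ℝ) / 16 ^ (k + 1))
    have d3 := min_le_left (((j:ℝ) + 1) / 16 ^ (k + 1) - m) (m + 1 - ((j:ℝ) + 1) / 16 ^ (k + 1))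
    have d4 := min_le_right (((j:ℝ) + 1) / 16 ^ (k + 1) - m) (m + 1 - ((j:ℝ) + 1) / 16 ^ (k + 1))
    have d5 : (min ((j:ℝ) / 16 ^ (k + 1) - m) (m + 1 - (j:ℝ) / 16 ^ (k + 1)) +
        min (((j:ℝ) + 1) / 16 ^ (k + 1) - m) (m + 1 - ((j:ℝ) + 1) / 16 ^ (k + 1))) / 2 ≤
        min (((j:ℝ) + 1 / 2) / 16 ^ (k + 1) - m) (m + 1 - ((j:ℝ) + 1 / 2) / 16 ^ (k + 1)) :=
      le_min (by linarith) (by linarith)
    rw [pow_succ (1 / 4 : ℝ)]
    linarith

lemma tk_osc {a l : ℝ} (hl : 0 < l) (hl1 : l ≤ 1) : ∃ u ∈ Icc a (a + l), ∃ v ∈ Icc a (a + l),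
    √l / 12 ≤ tk v - tk u := by
  obtain ⟨n, h1, h2⟩ := exists_nat_pow_near (x := 2 / l) (y := 16)
    (by rw [le_div_iff₀ hl]; linarith) (by norm_num)
  set k := n + 1 with hk
  have hp : (0:ℝ) < 16 ^ k := by positivity
  have a1 : 2 < 16 ^ k * l := by rwa [div_lt_iff₀ hl] at h2
  have a2 : 16 ^ k * l ≤ 32 := by
    rw [le_div_iff₀ hl] at h1
    rw [hk, pow_succ]; nlinarith
  set j : ℤ := ⌈a * 16 ^ k⌉ with hj
  have b1 : a * 16 ^ k ≤ j := Int.le_ceil _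
  have b2 : (j:ℝ) < a * 16 ^ k + 1 := Int.ceil_lt_add_one _
  have mem : ∀ t : ℝ, (j:ℝ) ≤ t → t ≤ j + 1 → t / 16 ^ k ∈ Icc a (a + l) := by
    intro t h3 h4
    constructor
    · rw [le_div_iff₀ hp]; linarith
    · rw [div_le_iff₀ hp]; nlinarith
  have c1 : √l ≤ 6 * (1 / 4 : ℝ) ^ k := by
    rw [Real.sqrt_le_left (by positivity), mul_pow, ← pow_mul, mul_comm k 2, pow_mul]
    have : ((1 / 4 : ℝ) ^ 2) ^ k = 1 / 16 ^ k := by rw [one_div_pow, one_div_pow]; norm_num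
    rw [this, mul_one_div, le_div_iff₀ hp]
    linarith
  have := tk_second k j
  by_cases h : tk (j / 16 ^ k) ≤ tk ((j + 1) / 16 ^ k)
  · exact ⟨_, mem j le_rfl (by linarith), _, mem (j + 1 / 2) (by linarith) (by linarith),
      by linarith⟩
  · exact ⟨_, mem (j + 1) (by linarith) le_rfl, _, mem (j + 1 / 2) (by linarith) (by linarith),
      by linarith⟩

end Pool.Agent.H88.Om
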