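import Mathlib
import Pool.Agent.H88.Om1

namespace Pool.Agent.H88.Om

open Set Filter Topology Metric
open scoped ENNReal

abbrev P := EuclideanSpace ℝ (Fin 2)

def sq (a b R : ℝ) : Set P := {p | p 0 ∈ Icc a (a + R) ∧ p 1 ∈ Icc b (b + R)}

lemma cell {a R t : ℝ} (hR : 0 < R) {L : ℕ} (hL : 0 < L) (ht : t ∈ Icc a (a + R)) :
    ∃ i < L, t ∈ Icc (a + i * (R / L)) (a + i * (R / L) + R / L) := by
  have hL' : (0:ℝ) < L := by exact_mod_cast hL
  have hw : 0 < R / L := by positivity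
  rcases eq_or_lt_of_le ht.2 with h | h
  · refine ⟨L - 1, by omega, ?_⟩
    have : ((L - 1 : ℕ) : ℝ) = L - 1 := by rw [Nat.cast_sub hL]; simp
    have e : (L:ℝ) * (R / L) = R := by field_simp
    rw [this, h]
    constructor <;> nlinarith
  · have h0 : 0 ≤ (t - a) / (R / L) := div_nonneg (by linarith [ht.1]) hw.le
    refine ⟨⌊(t - a) / (R / L)⌋₊, ?_, ?_, ?_⟩
    · rw [Nat.floor_lt h0, div_lt_iff₀ hw]
      have e : (L:ℝ) * (R / L) = R := by field_simp
      linarith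
    · have := Nat.floor_le h0
      rw [le_div_iff₀ hw] at this
      linarith
    · have := Nat.lt_floor_add_one ((t - a) / (R / L))
      rw [div_lt_iff₀ hw] at this
      linarith

/-- A set missing one cell of the `L × L` grid in every square. -/
def Porous (L : ℕ) (F : Set P) : Prop :=
  ∀ a b R : ℝ, 0 < R → ∃ i < L, ∃ j < L,
    ∀ p ∈ F, p ∉ sq (a + i * (R / L)) (b + j * (R / L)) (R / L)

lemma count {L : ℕ} (hL : 0 < L) {F : Set P} (hF : Porous L F) {r : ℝ} (j : ℕ) :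
    ∀ (a b R : ℝ) (s : Finset P), 0 < R → R ≤ L ^ j * (r / 2) → (∀ p ∈ s, p ∈ F ∧ p ∈ sq a b R) →
      (∀ x ∈ s, ∀ y ∈ s, x ≠ y → r < dist x y) → s.card ≤ (L ^ 2 - 1) ^ j := by
  classical
  induction j with
  | zero =>
    intro a b R s hR h1 h2 h3
    simp only [pow_zero, one_mul] at h1 ⊢
    rw [Finset.card_le_one]
    intro x hx y hy
    by_contra hne
    have h4 := h3 x hx y hy hne
    obtain ⟨-, ⟨x1, x2⟩, x3, x4⟩ := h2 x hx
    obtain ⟨-, ⟨y1, y2⟩, y3, y4⟩ := h2 y hy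
    rw [EuclideanSpace.dist_eq, Real.lt_sqrt (by linarith), Fin.sum_univ_two, Real.dist_eq,
      Real.dist_eq, sq_abs, sq_abs] at h4
    have e1 : (x 0 - y 0) ^ 2 ≤ R ^ 2 := sq_le_sq' (by linarith) (by linarith)
    have e2 : (x 1 - y 1) ^ 2 ≤ R ^ 2 := sq_le_sq' (by linarith) (by linarith)
    nlinarith
  | succ j ih =>
    intro a b R s hR h1 h2 h3
    have hL' : (0:ℝ) < L := by exact_mod_cast hL
    obtain ⟨i0, hi0, j0, hj0, hmiss⟩ := hF a b R hR
    let T : Finset (ℕ × ℕ) := (Finset.range L ×ˢ Finset.range L).erase (i0, j0)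
    have hT : T.card = L ^ 2 - 1 := by
      rw [Finset.card_erase_of_mem (by simp [hi0, hj0])]
      simp [pow_two]
    have hsub : s ⊆ T.biUnion fun c =>
        s.filter fun p => p ∈ sq (a + c.1 * (R / L)) (b + c.2 * (R / L)) (R / L) := by
      intro p hp
      obtain ⟨hpF, h4, h5⟩ := h2 p hp
      obtain ⟨i, hi, h6⟩ := cell hR hL h4
      obtain ⟨k, hk, h7⟩ := cell hR hL h5
      rw [Finset.mem_biUnion]
      refine ⟨(i, k), ?_, Finset.mem_filter.2 ⟨hp, h6, h7⟩⟩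
      rw [Finset.mem_erase]
      refine ⟨fun h => ?_, by simp [hi, hk]⟩
      obtain ⟨rfl, rfl⟩ := Prod.mk.inj h
      exact hmiss p hpF ⟨h6, h7⟩
    refine (Finset.card_le_card hsub).trans
      ((Finset.card_biUnion_le_card_mul _ _ ((L ^ 2 - 1) ^ j) fun c _ => ?_).trans ?_)
    · refine ih _ _ (R / L) _ (by positivity) ?_
        (fun p hp => ⟨(h2 p (Finset.mem_filter.1 hp).1).1, (Finset.mem_filter.1 hp).2⟩)
        fun x hx y hy => h3 x (Finset.mem_filter.1 hx).1 y (Finset.mem_filter.1 hy).1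
      rw [div_le_iff₀ hL']
      rw [pow_succ] at h1
      linarith
    · rw [hT, pow_succ (L ^ 2 - 1), mul_comm]

lemma pack_le {L : ℕ} (hL : 2 ≤ L) {F : Set P} (hF : Porous L F) :
    ∃ β C : ℝ, β < 2 ∧ 0 < C ∧ ∀ r R : ℝ, 0 < r → r < R → ∀ x : P,
      pack r (ball x R ∩ F) ≤ ENNReal.ofReal (C * (R / r) ^ β) := by
  have hL' : (2:ℝ) ≤ L := by exact_mod_cast hL
  have hM : (1:ℝ) ≤ L ^ 2 - 1 := by nlinarith
  set β := Real.logb L (L ^ 2 - 1) with hβ
  have hb0 : 0 ≤ β := Real.logb_nonneg (by linarith) hM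
  have hb1 : (L:ℝ) ^ β = L ^ 2 - 1 := Real.rpow_logb (by linarith) (by linarith) (by linarith)
  refine ⟨β, (4 * L) ^ β, ?_, by positivity, fun r R hr hrR x => ?_⟩
  · rw [hβ, Real.logb_lt_iff_lt_rpow (by linarith) (by linarith)]
    norm_num
  refine iSup_le fun s => iSup_le fun hs => iSup_le fun hd => ?_
  have hR : 0 < R := hr.trans hrR
  have h1 : 1 ≤ 4 * R / r := by rw [le_div_iff₀ hr]; linarith
  obtain ⟨n, h2, h3⟩ := exists_nat_pow_near (y := (L:ℝ)) h1 (by linarith)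
  have hc := count (by omega) hF (r := r) (n + 1) (x 0 - R) (x 1 - R) (2 * R) s (by positivity)
    (by rw [div_lt_iff₀ hr] at h3; linarith)
    (fun p hp => by
      have h4 := hs hp
      refine ⟨h4.2, ?_⟩
      have h5 : dist p x < R := h4.1
      have h6 := abs_lt.1 ((PiLp.dist_apply_le p x 0).trans_lt h5)
      have h7 := abs_lt.1 ((PiLp.dist_apply_le p x 1).trans_lt h5)
      exact ⟨⟨by linarith [h6.1], by linarith [h6.2]⟩, by linarith [h7.1], by linarith [h7.2]⟩)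
    (fun p hp q hq hne => by
      by_contra hle
      exact Set.disjoint_left.1 (hd p hp q hq hne) (mem_closedBall_self hr.le) (not_lt.1 hle))
  rw [← ENNReal.ofReal_natCast]
  apply ENNReal.ofReal_le_ofReal
  have h4 : (s.card : ℝ) ≤ ((L:ℝ) ^ 2 - 1) ^ (n + 1) := by
    have : ((L ^ 2 - 1 : ℕ) : ℝ) = (L:ℝ) ^ 2 - 1 := by
      rw [Nat.cast_sub (Nat.one_le_pow _ _ (by omega))]; simp
    rw [← this]; exact_mod_cast hc
  refine h4.trans ?_
  rw [← hb1, ← Real.rpow_natCast, ← Real.rpow_mul (by linarith), mul_comm β,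
    Real.rpow_mul (by linarith), Real.rpow_natCast, ← Real.mul_rpow (by positivity) (by positivity)]
  apply Real.rpow_le_rpow (by positivity) _ hb0
  rw [pow_succ]
  have : 4 * (L:ℝ) * (R / r) = 4 * R / r * L := by ring
  rw [this]
  gcongr

lemma porous_graph {h : unitInterval → ℝ}
    (h1 : ∀ x y : unitInterval, |h x - h y| ≤ 7 * √|(x:ℝ) - y|)
    (h2 : ∀ a l : ℝ, 0 < l → 0 ≤ a → a + l ≤ 1 → ∃ u v : unitInterval, (u:ℝ) ∈ Icc a (a + l) ∧
      (v:ℝ) ∈ Icc a (a + l) ∧ √l / 24 ≤ h v - h u) : Porous 1000000 (graph h) := by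
  intro a b R hR
  by_contra hcon
  push Not at hcon
  set w : ℝ := R / (1000000 : ℕ) with hw
  have hRw : R = 1000000 * w := by rw [hw]; push_cast; ring
  have hw0 : 0 < w := by positivity
  have hit : ∀ i : ℕ, i < 1000000 → ∃ s : unitInterval, (s:ℝ) ∈ Icc (a + i * w) (a + i * w + w) ∧
      h s ∈ Icc b (b + w) := by
    intro i hi
    obtain ⟨p, ⟨s, e1, e2⟩, q1, q2⟩ := hcon i hi 0 (by norm_num)
    refine ⟨s, e1 ▸ q1, ?_⟩
    rw [e2] at q2
    simpa using q2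
  obtain ⟨s0, ⟨-, t0⟩, -⟩ := hit 0 (by norm_num)
  obtain ⟨s1, ⟨t1, -⟩, -⟩ := hit 999999 (by norm_num)
  have a0 := s0.2.1
  have a1 := s1.2.2
  push_cast at t0 t1
  obtain ⟨u, v, hu, hv, huv⟩ := h2 (a + w) (999998 * w) (by positivity) (by linarith)
    (by linarith)
  obtain ⟨i, hi, ci⟩ := cell hR (L := 1000000) (by norm_num) (a := a) (t := u)
    ⟨by linarith [hu.1], by linarith [hu.2]⟩
  obtain ⟨j, hj, cj⟩ := cell hR (L := 1000000) (by norm_num) (a := a) (t := v)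
    ⟨by linarith [hv.1], by linarith [hv.2]⟩
  obtain ⟨s, hs, hs'⟩ := hit i hi
  obtain ⟨t, ht, ht'⟩ := hit j hj
  rw [← hw] at ci cj
  have b1 : √|(s:ℝ) - u| ≤ √w := Real.sqrt_le_sqrt (by
    rw [abs_le]; constructor <;> linarith [hs.1, hs.2, ci.1, ci.2])
  have b2 : √|(t:ℝ) - v| ≤ √w := Real.sqrt_le_sqrt (by
    rw [abs_le]; constructor <;> linarith [ht.1, ht.2, cj.1, cj.2])
  have b3 := abs_le.1 (h1 s u)
  have b4 := abs_le.1 (h1 t v)
  have b5 : w ≤ √w := by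
    rw [Real.le_sqrt hw0.le hw0.le]
    nlinarith
  have b6 : 999 * √w ≤ √(999998 * w) := by
    rw [Real.le_sqrt (by positivity) (by positivity), mul_pow, Real.sq_sqrt hw0.le]
    linarith
  have b7 : 0 < √w := Real.sqrt_pos.2 hw0
  linarith [hs'.1, hs'.2, ht'.1, ht'.2, b3.1, b3.2, b4.1, b4.2]

noncomputable def f0 : Cw Real.sqrt :=
  ⟨fun x => tk x, (semi_le (by norm_num) tk_hold).trans_lt ENNReal.ofReal_lt_top⟩

lemma porous_ball (g : Cw Real.sqrt) (hg : edist g f0 < ENNReal.ofReal (1 / 24)) :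
    Porous 1000000 (graph g.1) := by
  have h0 := (le_nrm (f := g.1 - f0.1) (by norm_num) hg.le).2
  have h1 : ∀ x y : unitInterval, |(g.1 x - tk x) - (g.1 y - tk y)| ≤ 1 / 24 * √|(x:ℝ) - y| := h0
  refine porous_graph (fun x y => ?_) fun a l hl ha hal => ?_
  · have a1 := abs_le.1 (h1 x y)
    have a2 := abs_le.1 (tk_hold x y)
    have a3 := Real.sqrt_nonneg |(x:ℝ) - y|
    rw [abs_le]; constructor <;> linarith [a1.1, a1.2, a2.1, a2.2]
  · obtain ⟨u, hu, v, hv, h⟩ := tk_osc (a := a) hl (by linarith)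
    refine ⟨⟨u, by linarith [hu.1], by linarith [hu.2]⟩, ⟨v, by linarith [hv.1],
      by linarith [hv.2]⟩, hu, hv, ?_⟩
    have a1 := abs_le.1 (h1 ⟨v, by linarith [hv.1], by linarith [hv.2]⟩
      ⟨u, by linarith [hu.1], by linarith [hu.2]⟩)
    have a2 : √|v - u| ≤ √l := Real.sqrt_le_sqrt (by
      rw [abs_le]; constructor <;> linarith [hu.1, hu.2, hv.1, hv.2])
    simp only at a1
    linarith [a1.1]

lemma sInf_lt {S : Set ℝ} {β : ℝ} (h : β ∈ S) (hβ : β < 2) : sInf S < 2 := by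
  by_cases hb : BddBelow S
  · exact (csInf_le hb h).trans_lt hβ
  · rw [Real.sInf_of_not_bddBelow hb]; norm_num

theorem dimA_ball (g : Cw Real.sqrt) (hg : edist g f0 < ENNReal.ofReal (1 / 24)) :
    dimA (graph g.1) < 2 := by
  obtain ⟨β, C, h1, h2, h3⟩ := pack_le (by norm_num) (porous_ball g hg)
  exact sInf_lt ⟨C, h2, fun r R hr hR x _ => h3 r R hr hR x⟩ h1

theorem dimSpec_ball (g : Cw Real.sqrt) (hg : edist g f0 < ENNReal.ofReal (1 / 24)) {θ : ℝ}
    (hθ : θ < 1) : dimSpec θ (graph g.1) < 2 := by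
  obtain ⟨β, C, h1, h2, h3⟩ := pack_le (by norm_num) (porous_ball g hg)
  refine sInf_lt ⟨C, h2, fun r hr hr1 x _ => ?_⟩ h1
  have := h3 r (r ^ θ) hr (by
    simpa using Real.rpow_lt_rpow_of_exponent_gt hr hr1 hθ) x
  rwa [← Real.rpow_sub_one hr.ne'] at this

theorem not_residual {S : Set (Cw Real.sqrt)}
    (h : ∀ g, edist g f0 < ENNReal.ofReal (1 / 24) → g ∉ S) : S ∉ residual (Cw Real.sqrt) := by
  intro hS
  obtain ⟨g, h1, h2⟩ := (dense_of_mem_residual hS).exists_mem_open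
    (U := Metric.eball f0 (ENNReal.ofReal (1 / 24))) Metric.isOpen_eball ⟨f0, Metric.mem_eball_self (by simp)⟩
  exact h g h2 h1

theorem sqrt_modulus : ConcaveModulus Real.sqrt where
  mono := fun _ _ _ _ h => Real.sqrt_le_sqrt h
  pos := fun _ ht => Real.sqrt_pos.2 ht.1
  zero := Real.sqrt_zero
  lim := by
    have := (Real.continuous_sqrt.tendsto 0).mono_left (nhdsWithin_le_nhds (s := Ioi 0))
    simpa using this
  concave := Real.strictConcaveOn_sqrt.concaveOn.subset Icc_subset_Ici_self (convex_Icc _ _)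

theorem sqrt_div : Tendsto (fun t : ℝ => √t / t) (𝓝[>] 0) atTop := by
  have h1 : Tendsto Real.sqrt (𝓝[>] 0) (𝓝[>] 0) := by
    refine tendsto_nhdsWithin_iff.2 ⟨sqrt_modulus.lim, ?_⟩
    filter_upwards [self_mem_nhdsWithin] with t ht
    exact Real.sqrt_pos.2 ht
  refine (tendsto_inv_nhdsGT_zero.comp h1).congr fun t => ?_
  simp [Real.sqrt_div_self]

theorem sqrt_log : Tendsto (fun t : ℝ => Real.log (√t) / Real.log t) (𝓝[>] 0) (𝓝 (1 / 2)) := by
  refine tendsto_const_nhds.congr' ?_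
  filter_upwards [Ioo_mem_nhdsGT (zero_lt_one' ℝ)] with t ht
  have := (Real.log_neg ht.1 ht.2).ne
  rw [Real.log_sqrt ht.1.le]
  field_simp

end Pool.Agent.H88.Om
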