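import Mathlib
import Pool.Agent.H88.Om2

namespace Pool.Agent.H88.Om

open Set Filter Topology Metric
open scoped ENNReal

lemma pack_le' {L : ℕ} (hL : 2 ≤ L) :
    ∃ β C : ℝ, 0 ≤ β ∧ β < 2 ∧ 0 < C ∧ ∀ F : Set P, Porous L F → ∀ r R : ℝ, 0 < r → r < R → ∀ x : P,
      pack r (ball x R ∩ F) ≤ ENNReal.ofReal (C * (R / r) ^ β) := by
  have hL' : (2:ℝ) ≤ L := by exact_mod_cast hL
  have hM : (1:ℝ) ≤ L ^ 2 - 1 := by nlinarith
  set β := Real.logb L (L ^ 2 - 1) with hβ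
  have hb0 : 0 ≤ β := Real.logb_nonneg (by linarith) hM
  have hb1 : (L:ℝ) ^ β = L ^ 2 - 1 := Real.rpow_logb (by linarith) (by linarith) (by linarith)
  refine ⟨β, (4 * L) ^ β, hb0, ?_, by positivity, fun F hF r R hr hrR x => ?_⟩
  · rw [hβ, Real.logb_lt_iff_lt_rpow (by linarith) (by linarith)]
    norm_num
  refine iSup_le fun s => iSup_le fun hs => iSup_le fun hd => ?_
  have hR : 0 < R := hr.trans hrR
  have h1 : 1 ≤ 4 * R / r := by rw [le_div_iff₀ hr]; linarith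
  obtain ⟨n, h2, h3⟩ := exists_nat_pow_near (y := (L:ℝ)) h1 (by linarith)
  have hc := count (by omega) hF (r := r) (n + 1) (x 0 - R) (x 1 - R) (2 * R) s (by positivity)
    (by rw [div_lt_iff₀ hr] at h3; linarith)
    (fun p hp => by
      have h4 := hs hp
      refine ⟨h4.2, ?_⟩
      have h5 : dist p x < R := h4.1
      have h6 := abs_lt.1 ((PiLp.dist_apply_le p x 0).trans_lt h5)
      have h7 := abs_lt.1 ((PiLp.dist_apply_le p x 1).trans_lt h5)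
      exact ⟨⟨by linarith [h6.1], by linarith [h6.2]⟩, by linarith [h7.1], by linarith [h7.2]⟩)
    (fun p hp q hq hne => by
      by_contra hle
      exact Set.disjoint_left.1 (hd p hp q hq hne) (mem_closedBall_self hr.le) (not_lt.1 hle))
  rw [← ENNReal.ofReal_natCast]
  apply ENNReal.ofReal_le_ofReal
  have h4 : (s.card : ℝ) ≤ ((L:ℝ) ^ 2 - 1) ^ (n + 1) := by
    have : ((L ^ 2 - 1 : ℕ) : ℝ) = (L:ℝ) ^ 2 - 1 := by
      rw [Nat.cast_sub (Nat.one_le_pow _ _ (by omega))]; simp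
    rw [← this]; exact_mod_cast hc
  refine h4.trans ?_
  rw [← hb1, ← Real.rpow_natCast, ← Real.rpow_mul (by linarith), mul_comm β,
    Real.rpow_mul (by linarith), Real.rpow_natCast, ← Real.mul_rpow (by positivity) (by positivity)]
  apply Real.rpow_le_rpow (by positivity) _ hb0
  rw [pow_succ]
  have : 4 * (L:ℝ) * (R / r) = 4 * R / r * L := by ring
  rw [this]
  gcongr

theorem dimSpec_unif : ∃ β : ℝ, β < 2 ∧ ∀ g : Cw Real.sqrt,
    edist g f0 < ENNReal.ofReal (1 / 24) → ∀ θ : ℝ, θ < 1 → dimSpec θ (graph g.1) ≤ β := by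
  obtain ⟨β, C, h0, h1, h2, h3⟩ := pack_le' (L := 1000000) (by norm_num)
  refine ⟨β, h1, fun g hg θ hθ => ?_⟩
  have hm : β ∈ {β : ℝ | ∃ C : ℝ, 0 < C ∧ ∀ r : ℝ, 0 < r → r < 1 → ∀ x ∈ graph g.1,
      pack r (ball x (r ^ θ) ∩ graph g.1) ≤ ENNReal.ofReal (C * (r ^ (θ - 1)) ^ β)} := by
    refine ⟨C, h2, fun r hr hr1 x _ => ?_⟩
    have := h3 _ (porous_ball g hg) r (r ^ θ) hr (by
      simpa using Real.rpow_lt_rpow_of_exponent_gt hr hr1 hθ) x
    rwa [← Real.rpow_sub_one hr.ne'] at this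
  unfold dimSpec
  by_cases hb : BddBelow {β : ℝ | ∃ C : ℝ, 0 < C ∧ ∀ r : ℝ, 0 < r → r < 1 → ∀ x ∈ graph g.1,
      pack r (ball x (r ^ θ) ∩ graph g.1) ≤ ENNReal.ofReal (C * (r ^ (θ - 1)) ^ β)}
  · exact csInf_le hb hm
  · rw [Real.sInf_of_not_bddBelow hb]; exact h0

theorem dimSpec_interval : ∃ θ₀ : ℝ, θ₀ < 1 / 2 ∧ ∀ g : Cw Real.sqrt,
    edist g f0 < ENNReal.ofReal (1 / 24) → ∀ θ ∈ Ioc θ₀ (1 / 2),
      dimSpec θ (graph g.1) < 2 - (1 / 2 - θ) / (1 - θ) := by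
  obtain ⟨β, h1, h2⟩ := dimSpec_unif
  refine ⟨1 / 2 - (2 - β) / 2, by linarith, fun g hg θ hθ => ?_⟩
  refine (h2 g hg θ (by linarith [hθ.2])).trans_lt ?_
  have : (1 / 2 - θ) / (1 - θ) < 2 - β := by
    rw [div_lt_iff₀ (by linarith [hθ.2])]
    nlinarith [hθ.1, hθ.2]
  linarith

end Pool.Agent.H88.Om
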