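import Mathlib

set_option autoImplicit false
open Filter Topology Metric Set Complex

namespace Pool.Agent.H88.OpenMul

theorem zero_dim {A : Type*} [NormedCommRing A] [NormedAlgebra ℂ A] [CompleteSpace A]
    (h : Dense (Submodule.span ℂ {e : A | IsIdempotentElem e} : Set A)) :
    TopologicalSpace.IsTopologicalBasis {s : Set (WeakDual.characterSpace ℂ A) | IsClopen s} := by
  have : TotallySeparatedSpace (WeakDual.characterSpace ℂ A) := by
    rw [totallySeparatedSpace_iff_exists_isClopen]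
    intro φ ψ hne
    have h1 : ∃ e : A, IsIdempotentElem e ∧ φ e ≠ ψ e := by
      by_contra! hc
      refine hne (Subtype.ext (ContinuousLinearMap.ext_on h fun e he => hc e he))
    obtain ⟨e, he, h2⟩ := h1
    have h3 : ∀ χ : WeakDual.characterSpace ℂ A, χ e = 0 ∨ χ e = 1 := fun χ =>
      IsIdempotentElem.iff_eq_zero_or_one.1 (he.map χ)
    have hc : Continuous fun χ : WeakDual.characterSpace ℂ A => χ e :=
      (WeakDual.eval_continuous e).comp continuous_subtype_val
    refine ⟨{χ | χ e = φ e}, ⟨isClosed_eq hc continuous_const, ?_⟩, rfl, h2.symm⟩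
    have e1 : {χ : WeakDual.characterSpace ℂ A | χ e = φ e} = {χ | χ e = ψ e}ᶜ := by
      ext χ
      rcases h3 χ with a | a <;> rcases h3 φ with b | b <;> rcases h3 ψ with c | c <;>
        simp_all
    rw [e1]
    exact (isClosed_eq hc continuous_const).isOpen_compl
  exact isTopologicalBasis_isClopen

section Idem

variable {B : Type*} [NormedCommRing B] [NormedAlgebra ℂ B]

def idem (C : Subalgebra ℂ B) : Submonoid B where
  carrier := {e | IsIdempotentElem e ∧ e ∈ C}
  one_mem' := ⟨IsIdempotentElem.one, C.one_mem⟩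
  mul_mem' := fun h h' => ⟨h.1.mul h'.1, C.mul_mem h.2 h'.2⟩

noncomputable def gen (C : Subalgebra ℂ B) : Subalgebra ℂ B :=
  (Algebra.adjoin ℂ (idem C : Set B)).topologicalClosure

theorem gen_le {C : Subalgebra ℂ B} (hC : IsClosed (C : Set B)) : gen C ≤ C :=
  Subalgebra.topologicalClosure_minimal (Algebra.adjoin_le fun _ h => h.2) hC

theorem gen_coe (C : Subalgebra ℂ B) :
    (gen C : Set B) = closure (Submodule.span ℂ (idem C : Set B) : Set B) := by
  have h := Algebra.adjoin_eq_span ℂ (idem C : Set B)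
  rw [Submonoid.closure_eq] at h
  rw [← h]
  rfl

theorem gen_dense (C : Subalgebra ℂ B) :
    Dense (Submodule.span ℂ {e : gen C | IsIdempotentElem e} : Set (gen C)) := by
  rw [Subtype.dense_iff]
  refine (gen_coe C).subset.trans (closure_mono fun x hx => ?_)
  have h1 : Submodule.span ℂ (idem C : Set B) ≤
      (Submodule.span ℂ {e : gen C | IsIdempotentElem e}).map (gen C).val.toLinearMap := by
    refine Submodule.span_le.2 fun e he => ?_
    have h2 : e ∈ gen C := Subalgebra.le_topologicalClosure _ (Algebra.subset_adjoin he)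
    exact ⟨⟨e, h2⟩, Submodule.subset_span (Subtype.ext he.1), rfl⟩
  exact h1 hx

end Idem

def Cl (x y : ℂ) : Prop := 0 < (y / x).re

theorem Cl.ne {x y : ℂ} (h : Cl x y) : x ≠ 0 ∧ y ≠ 0 := by
  constructor <;> rintro rfl <;> simp [Cl] at h

theorem Cl.add {x y z : ℂ} (h : Cl x y) (h' : Cl y z) :
    arg (y / x) + arg (z / y) = arg (z / x) := by
  have h1 := abs_lt.1 (abs_arg_lt_pi_div_two_iff.2 (Or.inl h))
  have h2 := abs_lt.1 (abs_arg_lt_pi_div_two_iff.2 (Or.inl h'))
  rw [← arg_mul (div_ne_zero h.ne.2 h.ne.1) (div_ne_zero h'.ne.2 h'.ne.1)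
    ⟨by linarith, by linarith⟩]
  congr 1
  have := h.ne.2
  field_simp

theorem wind (M : ℕ) (u v : ℕ → ℂ) (hu : ∀ j < M, Cl (u j) (u (j + 1)))
    (hv : ∀ j < M, Cl (v j) (v (j + 1))) (h : ∀ j ≤ M, Cl (u j) (v j)) (eu : u M = u 0)
    (ev : v M = v 0) :
    ∑ j ∈ Finset.range M, arg (u (j + 1) / u j) = ∑ j ∈ Finset.range M, arg (v (j + 1) / v j) := by
  have h1 := Finset.sum_range_sub (fun j => arg (v j / u j)) M
  rw [eu, ev, sub_self] at h1
  rw [← sub_eq_zero, ← Finset.sum_sub_distrib, ← neg_eq_zero, ← h1, ← Finset.sum_neg_distrib]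
  refine Finset.sum_congr rfl fun j hj => ?_
  have hj' := Finset.mem_range.1 hj
  have h2 := (hu j hj').add (h (j + 1) hj')
  have h3 := (h j hj'.le).add (hv j hj')
  linarith

theorem cl_of_norm {x y : ℂ} (h : ‖y - x‖ < ‖x‖) : Cl x y := by
  have hx : x ≠ 0 := by
    rintro rfl
    simp at h
    linarith [norm_nonneg y]
  have h1 : ‖y / x - 1‖ < 1 := by
    rw [div_sub_one hx, norm_div, div_lt_one (norm_pos_iff.2 hx)]
    exact h
  have h2 := (abs_le.1 (abs_re_le_norm (y / x - 1))).1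
  simp only [sub_re, one_re] at h2
  unfold Cl
  linarith

theorem cl_of_prod {x y x' y' : ℂ} {P Q s : ℝ} (h1 : x * x' = P) (h2 : y * y' = Q) (hQ : 0 < Q)
    (h3 : ‖y - x‖ ≤ s) (h4 : ‖y' - x'‖ ≤ s) (h5 : s ^ 2 < P) : Cl x y := by
  have hs : 0 ≤ s := (norm_nonneg _).trans h3
  have hP : 0 < P := (sq_nonneg s).trans_lt h5
  rcases lt_or_ge s ‖x‖ with h | h
  · exact cl_of_norm (h3.trans_lt h)
  have h6 : ‖x‖ * ‖x'‖ = P := by rw [← norm_mul, h1, norm_real, Real.norm_of_nonneg hP.le]
  have h7 : s < ‖x'‖ := by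
    by_contra! hc
    nlinarith [mul_le_mul h hc (norm_nonneg _) hs]
  have h8 := cl_of_norm (h4.trans_lt h7)
  have hx : x ≠ 0 := by
    rintro rfl
    simp at h6
    linarith
  have e : y / x = ((Q / P : ℝ) : ℂ) * (y' / x')⁻¹ := by
    have := h8.ne.1
    have := h8.ne.2
    push_cast
    rw [← h1, ← h2]
    field_simp
  unfold Cl at h8 ⊢
  rw [e, re_ofReal_mul, inv_re]
  exact mul_pos (div_pos hQ hP) (div_pos h8 (normSq_pos.2 fun h0 => by simp [h0] at h8))

end Pool.Agent.H88.OpenMul
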