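import Pool.Agent.H88.OpenMul1

set_option autoImplicit false
open Filter Topology Metric Set Complex
open scoped ENNReal

namespace Pool.Agent.H88.OpenMul

def Dw (_ : ℕ) : Type := ℂ × ℂ

noncomputable instance (n : ℕ) : CommRing (Dw n) := inferInstanceAs (CommRing (ℂ × ℂ))

noncomputable instance (n : ℕ) : Algebra ℂ (Dw n) := inferInstanceAs (Algebra ℂ (ℂ × ℂ))

noncomputable def p1 (n : ℕ) : Dw n →ₐ[ℂ] ℂ := AlgHom.fst ℂ ℂ ℂ

noncomputable def p2 (n : ℕ) : Dw n →ₐ[ℂ] ℂ := AlgHom.snd ℂ ℂ ℂ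

theorem Dw.ext {n : ℕ} {x y : Dw n} (h1 : p1 n x = p1 n y) (h2 : p2 n x = p2 n y) : x = y :=
  Prod.ext h1 h2

noncomputable def nrm (n : ℕ) : AddGroupNorm (Dw n) where
  toFun x := ‖p1 n x‖ + ‖p2 n x - p1 n x‖ * (n + 1) ^ 2
  map_zero' := by simp
  add_le' x y := by
    have h1 := norm_add_le (p1 n x) (p1 n y)
    have h2 := norm_add_le (p2 n x - p1 n x) (p2 n y - p1 n y)
    rw [map_add, map_add, add_sub_add_comm]
    nlinarith [mul_le_mul_of_nonneg_right h2 (sq_nonneg ((n:ℝ) + 1))]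
  neg' x := by rw [map_neg, map_neg, norm_neg, neg_sub_neg, norm_sub_rev]
  eq_zero_of_map_eq_zero' x h := by
    have h1 := norm_nonneg (p1 n x)
    have h2 : 0 ≤ ‖p2 n x - p1 n x‖ * ((n:ℝ) + 1) ^ 2 := by positivity
    have h3 : p1 n x = 0 := norm_eq_zero.1 (by linarith)
    have h4 : ‖p2 n x - p1 n x‖ * ((n:ℝ) + 1) ^ 2 = 0 := by linarith
    rw [mul_eq_zero, norm_eq_zero, h3, sub_zero] at h4
    exact Dw.ext (by rw [h3, map_zero]) (by rw [h4.resolve_right (by positivity), map_zero])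

noncomputable instance (n : ℕ) : NormedAddCommGroup (Dw n) := (nrm n).toNormedAddCommGroup

theorem Dw.norm_eq {n : ℕ} (x : Dw n) : ‖x‖ = ‖p1 n x‖ + ‖p2 n x - p1 n x‖ * (n + 1) ^ 2 := rfl

noncomputable instance (n : ℕ) : NormedCommRing (Dw n) where
  toNorm := inferInstance
  toRing := inferInstance
  toMetricSpace := inferInstance
  dist_eq := NormedAddCommGroup.dist_eq
  mul_comm := mul_comm
  norm_mul_le x y := by
    rw [Dw.norm_eq, Dw.norm_eq, Dw.norm_eq, map_mul, map_mul,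
      show p2 n x * p2 n y - p1 n x * p1 n y = p1 n x * (p2 n y - p1 n y)
        + (p2 n x - p1 n x) * p1 n y + (p2 n x - p1 n x) * (p2 n y - p1 n y) by ring]
    have h1 := norm_add₃_le (a := p1 n x * (p2 n y - p1 n y)) (b := (p2 n x - p1 n x) * p1 n y)
      (c := (p2 n x - p1 n x) * (p2 n y - p1 n y))
    simp only [norm_mul] at h1 ⊢
    have h2 : (1:ℝ) ≤ (n + 1) ^ 2 := one_le_pow₀ (by simp)
    generalize ((n:ℝ) + 1) ^ 2 = t at *
    have h3 := mul_nonneg (norm_nonneg (p2 n x - p1 n x)) (norm_nonneg (p2 n y - p1 n y))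
    nlinarith [mul_le_mul_of_nonneg_right h1 (zero_le_one.trans h2),
      mul_nonneg (mul_nonneg h3 (zero_le_one.trans h2)) (sub_nonneg.2 h2)]

noncomputable instance (n : ℕ) : NormedAlgebra ℂ (Dw n) where
  norm_smul_le c x := by
    rw [Dw.norm_eq, Dw.norm_eq, map_smul, map_smul, ← smul_sub, norm_smul, norm_smul]
    exact le_of_eq (by ring)

instance (n : ℕ) : NormOneClass (Dw n) := ⟨by simp [Dw.norm_eq]⟩

instance (n : ℕ) : CompleteSpace (Dw n) :=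
  have : FiniteDimensional ℂ (Dw n) := inferInstanceAs (FiniteDimensional ℂ (ℂ × ℂ))
  FiniteDimensional.complete ℂ _

noncomputable abbrev BB := lp (fun e : ℕ × ℕ × Bool => Dw e.1) ∞

noncomputable def ev (e : ℕ × ℕ × Bool) : BB →ₐ[ℂ] Dw e.1 where
  toFun x := x e
  map_one' := rfl
  map_mul' _ _ := rfl
  map_zero' := rfl
  map_add' _ _ := rfl
  commutes' _ := rfl

noncomputable def e1 (e : ℕ × ℕ × Bool) : BB →ₐ[ℂ] ℂ := (p1 e.1).comp (ev e)

noncomputable def e2 (e : ℕ × ℕ × Bool) : BB →ₐ[ℂ] ℂ := (p2 e.1).comp (ev e)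

theorem ev_le (x : BB) (e : ℕ × ℕ × Bool) :
    ‖e1 e x‖ + ‖e2 e x - e1 e x‖ * (e.1 + 1) ^ 2 ≤ ‖x‖ :=
  lp.norm_apply_le_norm ENNReal.top_ne_zero x e

theorem BB.ext {x y : BB} (h1 : ∀ e, e1 e x = e1 e y) (h2 : ∀ e, e2 e x = e2 e y) : x = y :=
  lp.ext (funext fun e => Dw.ext (h1 e) (h2 e))

def nx (e : ℕ × ℕ × Bool) : ℕ × ℕ := if e.2.2 then (e.1, e.2.1 + 1) else (e.1 + 1, e.2.1)

theorem nx_ge (e : ℕ × ℕ × Bool) : e.1 ≤ (nx e).1 := by
  unfold nx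
  split_ifs <;> simp

noncomputable def gv (v : ℕ × ℕ) : BB →ₐ[ℂ] ℂ := e1 (v.1, v.2, true)

noncomputable def CC : Subalgebra ℂ BB :=
  (⨅ e, AlgHom.equalizer (e1 e) (gv (e.1, e.2.1))) ⊓ (⨅ e, AlgHom.equalizer (e2 e) (gv (nx e)))
    ⊓ ⨅ v : {v : ℕ × ℕ // v.1 < v.2}, AlgHom.equalizer (gv v) (gv (v.1.1, 0))

theorem mem_CC {x : BB} : x ∈ CC ↔ (∀ e, e1 e x = gv (e.1, e.2.1) x) ∧ (∀ e, e2 e x = gv (nx e) x)
    ∧ ∀ n j, n < j → gv (n, j) x = gv (n, 0) x := by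
  simp only [CC, Algebra.mem_inf, Algebra.mem_iInf, AlgHom.mem_equalizer, and_assoc,
    Subtype.forall, Prod.forall]

theorem CC_closed : IsClosed (CC : Set BB) := by
  have e : (CC : Set BB) = (⋂ e, {x | e1 e x = gv (e.1, e.2.1) x}) ∩ ((⋂ e, {x | e2 e x = gv (nx e) x})
      ∩ ⋂ n, ⋂ j, ⋂ (_ : n < j), {x | gv (n, j) x = gv (n, 0) x}) := by
    ext x
    simp only [SetLike.mem_coe, mem_CC, mem_inter_iff, mem_iInter, mem_ofPred_eq]
  rw [e]
  exact (isClosed_iInter fun _ => isClosed_eq (map_continuous _) (map_continuous _)).inter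
    ((isClosed_iInter fun _ => isClosed_eq (map_continuous _) (map_continuous _)).inter
      (isClosed_iInter fun _ => isClosed_iInter fun _ => isClosed_iInter fun _ =>
        isClosed_eq (map_continuous _) (map_continuous _)))

theorem CC_ext {x y : BB} (hx : x ∈ CC) (hy : y ∈ CC) (h : ∀ v, gv v x = gv v y) : x = y :=
  BB.ext (fun e => by rw [(mem_CC.1 hx).1, (mem_CC.1 hy).1, h])
    fun e => by rw [(mem_CC.1 hx).2.1, (mem_CC.1 hy).2.1, h]

theorem gv_le (x : BB) (v : ℕ × ℕ) : ‖gv v x‖ ≤ ‖x‖ :=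
  le_trans (le_add_of_nonneg_right (by positivity)) (ev_le x _)

theorem edge_le {x : BB} (hx : x ∈ CC) (e : ℕ × ℕ × Bool) :
    ‖gv (nx e) x - gv (e.1, e.2.1) x‖ * (e.1 + 1) ^ 2 ≤ ‖x‖ := by
  rw [← (mem_CC.1 hx).1, ← (mem_CC.1 hx).2.1]
  exact le_trans (le_add_of_nonneg_left (norm_nonneg _)) (ev_le x e)

theorem exists_mk (f : ℕ × ℕ → ℂ) {K L : ℝ} (h1 : ∀ v, ‖f v‖ ≤ K)
    (h2 : ∀ e : ℕ × ℕ × Bool, ‖f (nx e) - f (e.1, e.2.1)‖ * (e.1 + 1) ^ 2 ≤ L)
    (h3 : ∀ n j, n < j → f (n, j) = f (n, 0)) :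
    ∃ x ∈ CC, (∀ v, gv v x = f v) ∧ ‖x‖ ≤ K + L := by
  let F : ∀ e : ℕ × ℕ × Bool, Dw e.1 := fun e => (f (e.1, e.2.1), f (nx e))
  have hF : ∀ e, ‖F e‖ ≤ K + L := fun e => add_le_add (h1 _) (h2 e)
  refine ⟨⟨F, memℓp_infty ⟨K + L, by rintro _ ⟨e, rfl⟩; exact hF e⟩⟩,
    mem_CC.2 ⟨fun _ => rfl, fun _ => rfl, h3⟩, fun _ => rfl, ?_⟩
  exact lp.norm_le_of_forall_le ((norm_nonneg _).trans (hF (0, 0, true))) hF

theorem fin_supp {x : BB} (hx : x ∈ CC) {m : ℕ} (h : ∀ n j, m ≤ n → gv (n, j) x = 0) :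
    x ∈ Submodule.span ℂ (idem CC : Set BB) := by
  classical
  have h1 : ∀ c : ℂ, ∃ y ∈ CC, ∀ v, gv v y = if gv v x = c then 1 else 0 := by
    intro c
    obtain ⟨y, hy, h2, -⟩ := exists_mk (fun v => if gv v x = c then 1 else 0) (K := 1)
      (L := 2 * (m:ℝ) ^ 2) (fun v => by split_ifs <;> simp) (fun e => by
        rcases le_or_gt m e.1 with h3 | h3
        · have h4 : gv (nx e) x = 0 := h _ _ (h3.trans (nx_ge e))
          rw [h4, h _ _ h3, sub_self, norm_zero, zero_mul]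
          positivity
        · have h4 : (e.1:ℝ) + 1 ≤ m := by exact_mod_cast h3
          refine mul_le_mul ((norm_sub_le _ _).trans ?_)
            (pow_le_pow_left₀ (by positivity) h4 2) (by positivity) (by norm_num)
          split_ifs <;> norm_num) fun n j hj => by rw [(mem_CC.1 hx).2.2 n j hj]
    exact ⟨y, hy, h2⟩
  choose y hy hy' using h1
  obtain ⟨s, hs⟩ : ∃ s : Finset ℂ, ∀ v, gv v x ≠ 0 → gv v x ∈ s := by
    refine ⟨(Finset.range m ×ˢ Finset.range m).image fun v => gv v x, fun v hv => ?_⟩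
    have h2 : v.1 < m := by
      by_contra! hc
      exact hv (h _ _ hc)
    rcases lt_or_ge v.1 v.2 with h3 | h3
    · exact Finset.mem_image.2 ⟨(v.1, 0), by simp; omega, ((mem_CC.1 hx).2.2 _ _ h3).symm⟩
    · exact Finset.mem_image.2 ⟨v, by simp; omega, rfl⟩
  have e : x = ∑ c ∈ s, c • y c := by
    refine CC_ext hx (CC.sum_mem fun c _ => CC.smul_mem (hy c) c) fun v => ?_
    simp only [map_sum, map_smul, hy', smul_eq_mul, mul_ite, mul_one, mul_zero, Finset.sum_ite_eq]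
    split_ifs with h2
    · rfl
    · by_contra hc
      exact h2 (hs v hc)
  rw [e]
  refine Submodule.sum_mem _ fun c _ => Submodule.smul_mem _ _ (Submodule.subset_span ⟨?_, hy c⟩)
  refine CC_ext (CC.mul_mem (hy c) (hy c)) (hy c) fun v => ?_
  rw [map_mul, hy']
  split_ifs <;> simp

end Pool.Agent.H88.OpenMul
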