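import Pool.Agent.H88.OpenMul2

set_option autoImplicit false
open Filter Topology Metric Set Complex

namespace Pool.Agent.H88.OpenMul

noncomputable def tt (n j : ℕ) : ℝ := (min j (n + 1) : ℕ) / (n + 1)

noncomputable def UU (σ : ℤ) (v : ℕ × ℕ) : ℂ := exp ((σ * (2 * Real.pi) * tt v.1 v.2 : ℝ) * I)

noncomputable def rr (m n : ℕ) : ℝ := 1 / ((max m n : ℕ) + 1) ^ 2

theorem tt_edge (e : ℕ × ℕ × Bool) : |tt (nx e).1 (nx e).2 - tt e.1 e.2.1| ≤ 1 / (e.1 + 1) := by
  obtain ⟨n, j, b⟩ := e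
  have h0 : (0:ℝ) < n + 1 := by positivity
  cases b
  · simp only [nx, Bool.false_eq_true, if_false, tt]
    rcases le_or_gt j (n + 1) with h | h
    · have h1 : (j:ℝ) ≤ n + 1 := by exact_mod_cast h
      rw [min_eq_left h, min_eq_left (by omega), abs_sub_comm]
      push_cast
      rw [div_sub_div _ _ h0.ne' (by positivity), abs_of_nonneg (div_nonneg (by nlinarith)
        (by positivity)), div_le_div_iff₀ (by positivity) h0]
      nlinarith
    · rw [min_eq_right h.le, min_eq_right h]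
      push_cast
      rw [div_self h0.ne', div_self (by positivity), sub_self, abs_zero]
      positivity
  · simp only [nx, if_true, tt]
    rw [← sub_div, abs_div, abs_of_pos h0]
    gcongr
    rcases le_or_gt j n with h | h
    · rw [min_eq_left (by omega), min_eq_left (by omega)]
      simp
    · rw [min_eq_right (by omega), min_eq_right (by omega)]
      simp

theorem UU_norm (σ : ℤ) (v : ℕ × ℕ) : ‖UU σ v‖ = 1 := norm_exp_ofReal_mul_I _

theorem exp_lip (x y : ℝ) : ‖exp (x * I) - exp (y * I)‖ ≤ |x - y| := by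
  have e : exp (x * I) - exp (y * I) = exp (y * I) * (exp (I * (x - y : ℝ)) - 1) := by
    rw [mul_sub, ← exp_add]
    push_cast
    ring_nf
  rw [e, norm_mul, norm_exp_ofReal_mul_I, one_mul]
  exact Real.norm_exp_I_mul_ofReal_sub_one_le

theorem UU_edge {σ : ℤ} (hσ : |(σ:ℝ)| = 1) (e : ℕ × ℕ × Bool) :
    ‖UU σ (nx e) - UU σ (e.1, e.2.1)‖ ≤ 8 / (e.1 + 1) := by
  refine (exp_lip _ _).trans ?_
  rw [← mul_sub, abs_mul, abs_mul, hσ, one_mul, abs_of_pos Real.two_pi_pos, div_eq_mul_one_div]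
  exact mul_le_mul (by linarith [Real.pi_le_four]) (tt_edge e) (abs_nonneg _) (by norm_num)

theorem UU_per (σ : ℤ) {n j : ℕ} (h : n < j) : UU σ (n, j) = UU σ (n, 0) := by
  have h0 : (0:ℝ) < n + 1 := by positivity
  simp only [UU, tt, min_eq_right (show n + 1 ≤ j from h), Nat.zero_min]
  push_cast
  rw [div_self (by exact_mod_cast h0.ne'), mul_one, mul_assoc, exp_int_mul_two_pi_mul_I]
  simp

theorem rr_pos (m n : ℕ) : 0 < rr m n := by
  unfold rr
  positivity

theorem rr_le (m n : ℕ) : rr m n ≤ 1 / (m + 1) := by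
  have h1 : (m:ℝ) ≤ (max m n : ℕ) := by exact_mod_cast le_max_left m n
  have h2 : (0:ℝ) ≤ m := by positivity
  exact one_div_le_one_div_of_le (by positivity) (by nlinarith)

theorem rr_key (m n : ℕ) : rr m n / (n + 1) * (n + 1) ^ 2 ≤ 1 / (m + 1) := by
  have h1 : (m:ℝ) ≤ (max m n : ℕ) := by exact_mod_cast le_max_left m n
  have h2 : (n:ℝ) ≤ (max m n : ℕ) := by exact_mod_cast le_max_right m n
  have h3 : (0:ℝ) ≤ m := by positivity
  have h4 : (0:ℝ) ≤ n := by positivity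
  unfold rr
  generalize ((max m n : ℕ) : ℝ) = k at *
  rw [show 1 / (k + 1) ^ 2 / (n + 1) * ((n:ℝ) + 1) ^ 2 = (n + 1) / (k + 1) ^ 2 by field_simp,
    div_le_div_iff₀ (by nlinarith) (by positivity)]
  nlinarith [mul_le_mul h1 h2 h4 (h3.trans h1)]

theorem rr_edge (m : ℕ) (e : ℕ × ℕ × Bool) :
    |rr m (nx e).1 - rr m e.1| ≤ 2 * (rr m e.1 / (e.1 + 1)) := by
  obtain ⟨n, j, b⟩ := e
  have h0 := rr_pos m n
  cases b
  · simp only [nx, Bool.false_eq_true, if_false]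
    rcases le_or_gt m n with h | h
    · have h4 : (0:ℝ) ≤ n := by positivity
      rw [rr, rr, max_eq_right h, max_eq_right (by omega), abs_sub_comm]
      push_cast
      rw [abs_of_nonneg (sub_nonneg.2 (one_div_le_one_div_of_le (by positivity) (by nlinarith))),
        ← sub_nonneg]
      field_simp
      ring_nf
      positivity
    · rw [show rr m (n + 1) = rr m n by rw [rr, rr, max_eq_left h, max_eq_left h.le], sub_self,
        abs_zero]
      positivity
  · simp only [nx, if_true, sub_self, abs_zero]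
    positivity

theorem exists_R {σ : ℤ} (hσ : |(σ:ℝ)| = 1) (m : ℕ) :
    ∃ x ∈ CC, (∀ v, gv v x = rr m v.1 * UU σ v) ∧ ‖x‖ ≤ 11 / (m + 1) := by
  obtain ⟨x, h1, h2, h3⟩ := exists_mk (fun v => rr m v.1 * UU σ v) (K := 1 / (m + 1))
    (L := 10 * (1 / (m + 1))) (fun v => by
      rw [norm_mul, UU_norm, mul_one, norm_real, Real.norm_of_nonneg (rr_pos _ _).le]
      exact rr_le _ _) (fun e => by
      have h1 : ‖rr m (nx e).1 * UU σ (nx e) - rr m e.1 * UU σ (e.1, e.2.1)‖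
          ≤ 10 * (rr m e.1 / (e.1 + 1)) := by
        rw [show rr m (nx e).1 * UU σ (nx e) - rr m e.1 * UU σ (e.1, e.2.1)
          = ((rr m (nx e).1 - rr m e.1 : ℝ) : ℂ) * UU σ (nx e)
            + rr m e.1 * (UU σ (nx e) - UU σ (e.1, e.2.1)) by push_cast; ring]
        refine (norm_add_le _ _).trans ?_
        rw [norm_mul, norm_mul, UU_norm, mul_one, norm_real, norm_real, Real.norm_eq_abs,
          Real.norm_of_nonneg (rr_pos _ _).le]
        have h2 := mul_le_mul_of_nonneg_left (UU_edge hσ e) (rr_pos m e.1).le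
        rw [show rr m e.1 * (8 / (e.1 + 1)) = 8 * (rr m e.1 / (e.1 + 1)) by ring] at h2
        linarith [rr_edge m e]
      refine (mul_le_mul_of_nonneg_right h1 (by positivity)).trans ?_
      rw [mul_assoc]
      exact mul_le_mul_of_nonneg_left (rr_key _ _) (by norm_num))
    fun n j h => by simp only [UU_per σ h]
  exact ⟨x, h1, h2, h3.trans (le_of_eq (by ring))⟩

theorem exists_a {σ : ℤ} (hσ : |(σ:ℝ)| = 1) :
    ∃ x ∈ gen CC, (∀ v, gv v x = rr 0 v.1 * UU σ v) ∧ ‖x‖ ≤ 11 := by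
  choose R h1 h2 h3 using exists_R hσ
  refine ⟨R 0, ?_, h2 0, by simpa using h3 0⟩
  rw [← SetLike.mem_coe, gen_coe]
  have h4 : Tendsto R atTop (𝓝 0) := by
    refine squeeze_zero_norm h3 ?_
    simpa [div_eq_mul_inv] using (tendsto_one_div_add_atTop_nhds_zero_nat (𝕜 := ℝ)).const_mul 11
  refine mem_closure_of_tendsto (by simpa using h4.const_sub (R 0))
    (Eventually.of_forall fun m => fin_supp (CC.sub_mem (h1 0) (h1 m)) (m := m) fun n j h => ?_)
  rw [map_sub, h2, h2, rr, rr, max_eq_right h, max_eq_right (Nat.zero_le _), sub_self]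

theorem near {σ : ℤ} (hσ : |(σ:ℝ)| = 1) {a x : BB} (ha : a ∈ CC)
    (ha' : ∀ v, gv v a = rr 0 v.1 * UU σ v) (hx : x ∈ CC) (h : ‖x - a‖ < 1 / 484)
    (e : ℕ × ℕ × Bool) (he : 21 ≤ e.1) :
    ‖gv (nx e) x - gv (e.1, e.2.1) x‖ ≤ rr 0 e.1 := by
  obtain ⟨R, h1, h2, h3⟩ := exists_R hσ 21
  have h4 : ∀ v : ℕ × ℕ, 21 ≤ v.1 → gv v x = gv v (x - a + R) := fun v hv => by
    rw [map_add, map_sub, ha', h2, rr, rr, max_eq_right hv, max_eq_right (Nat.zero_le _),
      sub_add_cancel]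
  have h5 := (edge_le (CC.add_mem (CC.sub_mem hx ha) h1) e).trans (norm_add_le _ _)
  rw [h4 _ (he.trans (nx_ge e)), h4 _ he, rr, max_eq_right (Nat.zero_le _),
    le_div_iff₀ (by positivity)]
  norm_num at h3
  linarith

theorem obstruct {a b x y : BB} (ha : a ∈ CC) (hb : b ∈ CC)
    (ha' : ∀ v, gv v a = rr 0 v.1 * UU 1 v) (hb' : ∀ v, gv v b = rr 0 v.1 * UU (-1) v)
    (hx : x ∈ CC) (hy : y ∈ CC) (h1 : ‖x - a‖ < 1 / 484) (h2 : ‖y - b‖ < 1 / 484) {δ : ℝ}
    (hδ : 0 < δ) (h : x * y = a * b + algebraMap ℂ BB δ) : False := by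
  have hP : ∀ v, gv v x * gv v y = (rr 0 v.1 ^ 2 + δ : ℝ) := fun v => by
    have e : UU 1 v * UU (-1) v = 1 := by
      rw [UU, UU, ← exp_add]
      simp
    rw [← map_mul, h, map_add, map_mul, ha', hb', AlgHom.commutes, mul_mul_mul_comm, e]
    simp [sq]
  have nx' := near (σ := 1) (by simp) ha ha' hx h1
  have ny' := near (σ := -1) (by simp) hb hb' hy h2
  have hc : ∀ e : ℕ × ℕ × Bool, 21 ≤ e.1 → Cl (gv (e.1, e.2.1) x) (gv (nx e) x) := fun e he =>
    cl_of_prod (hP _) (hP _) (by positivity) (nx' e he) (ny' e he) (by linarith)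
  obtain ⟨N, hN⟩ := exists_nat_gt (21 + 1 / δ)
  have hN1 : 21 ≤ N := by
    have : (0:ℝ) < 1 / δ := by positivity
    exact_mod_cast (show (21:ℝ) ≤ N by linarith)
  have per := (mem_CC.1 hx).2.2
  have w1 : ∀ n, 21 ≤ n → n ≤ N →
      ∑ j ∈ Finset.range (N + 1), arg (gv (21, j + 1) x / gv (21, j) x)
        = ∑ j ∈ Finset.range (N + 1), arg (gv (n, j + 1) x / gv (n, j) x) := by
    intro n hn
    induction n, hn using Nat.le_induction with
    | base => intro _; rfl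
    | succ n hn ih =>
      intro hn'
      rw [ih (by omega)]
      exact wind (N + 1) (fun j => gv (n, j) x) (fun j => gv (n + 1, j) x)
        (fun j _ => hc (n, j, true) hn) (fun j _ => hc (n + 1, j, true) (by omega))
        (fun j _ => hc (n, j, false) hn) (per _ _ (by omega)) (per _ _ (by omega))
  have var : ∀ z : BB, (∀ e : ℕ × ℕ × Bool, 21 ≤ e.1 →
      ‖gv (nx e) z - gv (e.1, e.2.1) z‖ ≤ rr 0 e.1) → ∀ j ≤ N + 1,
      ‖gv (N, 0) z - gv (N, j) z‖ ≤ 1 / (N + 1) := by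
    intro z hz j hj
    have h3 : ∀ j : ℕ, ‖gv (N, 0) z - gv (N, j) z‖ ≤ j * rr 0 N := by
      intro j
      induction j with
      | zero => simp
      | succ j ih =>
        have h4 := norm_sub_le_norm_sub_add_norm_sub (gv (N, 0) z) (gv (N, j) z) (gv (N, j + 1) z)
        have h5 : ‖gv (N, j + 1) z - gv (N, j) z‖ ≤ rr 0 N := hz (N, j, true) hN1
        rw [norm_sub_rev] at h5
        push_cast
        linarith
    refine (h3 j).trans ?_
    have h4 : (j:ℝ) ≤ N + 1 := by exact_mod_cast hj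
    refine (mul_le_mul_of_nonneg_right h4 (rr_pos _ _).le).trans (le_of_eq ?_)
    rw [rr, max_eq_right (Nat.zero_le _)]
    field_simp
  have small : (1 / ((N:ℝ) + 1)) ^ 2 < δ := by
    have h3 : (0:ℝ) ≤ N := by positivity
    have h4 : 1 / δ < (N + 1) ^ 2 := by nlinarith
    rw [one_div_pow]
    exact (one_div_lt (by positivity) hδ).2 h4
  have c0 : ∀ j ≤ N + 1, Cl (gv (N, j) x) (gv (N, 0) x) := fun j hj =>
    cl_of_prod (hP _) (hP _) (by positivity) (var x nx' j hj) (var y ny' j hj)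
      (by linarith [sq_nonneg (rr 0 N)])
  have w2 := wind (N + 1) (fun j => gv (N, j) x) (fun _ => gv (N, 0) x)
    (fun j _ => hc (N, j, true) hN1) (fun _ _ => c0 0 (by omega)) c0 (per _ _ (by omega)) rfl
  have na : ∀ j, ‖gv (21, j) a‖ = 1 / 484 := fun j => by
    rw [ha', norm_mul, UU_norm, mul_one, norm_real, Real.norm_of_nonneg (rr_pos _ _).le, rr]
    norm_num
  have w3 := wind (N + 1) (fun j => gv (21, j) a) (fun j => gv (21, j) x) (fun j _ => by
      refine cl_of_norm ?_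
      have h3 := UU_edge (σ := 1) (by simp) (21, j, true)
      rw [na, ha', ha', ← mul_sub, norm_mul, norm_real, Real.norm_of_nonneg (rr_pos _ _).le, rr]
      simp only [nx, if_true] at h3
      norm_num at h3 ⊢
      linarith) (fun j _ => hc (21, j, true) le_rfl)
    (fun j _ => cl_of_norm (by rw [na, ← map_sub]; exact (gv_le _ _).trans_lt h1))
    ((mem_CC.1 ha).2.2 _ _ (by omega)) (per _ _ (by omega))
  have w4 : ∀ j, arg (gv (21, j + 1) a / gv (21, j) a)
      = 2 * Real.pi * tt 21 (j + 1) - 2 * Real.pi * tt 21 j := by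
    intro j
    have h3 := abs_le.1 (tt_edge (21, j, true))
    simp only [nx, if_true] at h3
    norm_num at h3
    have h4 := Real.pi_pos
    rw [ha', ha', mul_div_mul_left _ _ (by exact_mod_cast (rr_pos _ _).ne'), UU, UU, ← exp_sub,
      ← sub_mul, ← ofReal_sub, arg_exp_mul_I, Int.cast_one, one_mul, toIocMod_eq_self]
    constructor <;> nlinarith [h3.1, h3.2]
  simp only [w4, Finset.sum_range_sub (fun j => 2 * Real.pi * tt 21 j)] at w3
  simp only [div_self (c0 0 (by omega)).ne.1, arg_one, Finset.sum_const_zero] at w2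
  rw [w1 N hN1 le_rfl, w2, tt, tt, min_eq_right (by omega)] at w3
  norm_num at w3

instance : CompleteSpace (gen CC) :=
  (Subalgebra.isClosed_topologicalClosure _).completeSpace_coe

theorem core : ∃ a b : gen CC, ‖a‖ ≤ 11 ∧ ‖b‖ ≤ 11 ∧ ∀ δ : ℝ, 0 < δ → ∀ x y : gen CC,
    ‖x - a‖ < 1 / 484 → ‖y - b‖ < 1 / 484 → x * y ≠ a * b + algebraMap ℂ (gen CC) δ := by
  obtain ⟨a, ha, ha1, ha2⟩ := exists_a (σ := 1) (by simp)
  obtain ⟨b, hb, hb1, hb2⟩ := exists_a (σ := -1) (by simp)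
  refine ⟨⟨a, ha⟩, ⟨b, hb⟩, ha2, hb2, fun δ hδ x y h1 h2 h => ?_⟩
  exact obstruct (gen_le CC_closed ha) (gen_le CC_closed hb) ha1 hb1 (gen_le CC_closed x.2)
    (gen_le CC_closed y.2) h1 h2 hδ (congrArg Subtype.val h)

theorem semisimple (x : gen CC) (h : ∀ χ : gen CC →ₐ[ℂ] ℂ, χ x = 0) : x = 0 :=
  Subtype.ext (CC_ext (gen_le CC_closed x.2) CC.zero_mem fun v =>
    (h ((gv v).comp (gen CC).val)).trans (map_zero _).symm)

variable {A : Type*} [NormedCommRing A] [NormedAlgebra ℂ A] [NormOneClass A]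

theorem not_open (hc : ∃ a b : A, ‖a‖ ≤ 11 ∧ ‖b‖ ≤ 11 ∧ ∀ δ : ℝ, 0 < δ → ∀ x y : A,
    ‖x - a‖ < 1 / 484 → ‖y - b‖ < 1 / 484 → x * y ≠ a * b + algebraMap ℂ A δ) :
    ¬ IsOpenMap fun p : A × A => p.1 * p.2 := by
  intro H
  obtain ⟨a, b, -, -, h⟩ := hc
  obtain ⟨δ, hδ, h1⟩ := Metric.isOpen_iff.1
    (H _ ((isOpen_ball (x := a) (ε := 1 / 484)).prod (isOpen_ball (x := b) (ε := 1 / 484))))
    (a * b) ⟨(a, b), ⟨mem_ball_self (by norm_num), mem_ball_self (by norm_num)⟩, rfl⟩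
  obtain ⟨⟨x, y⟩, ⟨hx, hy⟩, e⟩ := h1 (show a * b + algebraMap ℂ A (δ / 2 : ℝ) ∈ ball (a * b) δ by
    rw [mem_ball_iff_norm, add_sub_cancel_left, norm_algebraMap', norm_real,
      Real.norm_of_nonneg (by positivity)]
    linarith)
  exact h (δ / 2) (by positivity) x y (mem_ball_iff_norm.1 hx) (mem_ball_iff_norm.1 hy) e

open Pointwise in
theorem not_unif (hc : ∃ a b : A, ‖a‖ ≤ 11 ∧ ‖b‖ ≤ 11 ∧ ∀ δ : ℝ, 0 < δ → ∀ x y : A,
    ‖x - a‖ < 1 / 484 → ‖y - b‖ < 1 / 484 → x * y ≠ a * b + algebraMap ℂ A δ) :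
    ¬ ∀ ε : ℝ, 0 < ε → ∃ δ : ℝ, 0 < δ ∧ ∀ a b : A, ‖a‖ ≤ 1 → ‖b‖ ≤ 1 →
    ball (a * b) δ ⊆ ball a ε * ball b ε := by
  intro H
  obtain ⟨a, b, ha, hb, h⟩ := hc
  obtain ⟨δ, hδ, h1⟩ := H (1 / 484 / 11) (by norm_num)
  have n1 : ∀ z : A, ‖z‖ ≤ 11 → ‖(1 / 11 : ℂ) • z‖ ≤ 1 := fun z hz => by
    rw [norm_smul]
    norm_num
    linarith
  have n2 : ∀ x z : A, x ∈ ball ((1 / 11 : ℂ) • z) (1 / 484 / 11) →
      ‖(11:ℂ) • x - z‖ < 1 / 484 := fun x z hx => by
    rw [show (11:ℂ) • x - z = (11:ℂ) • (x - (1 / 11 : ℂ) • z) by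
      rw [smul_sub, smul_smul]; norm_num, norm_smul]
    have := mem_ball_iff_norm.1 hx
    norm_num at this ⊢
    linarith
  obtain ⟨x, hx, y, hy, e⟩ := h1 _ _ (n1 a ha) (n1 b hb)
    (show (1 / 11 : ℂ) • a * (1 / 11 : ℂ) • b + algebraMap ℂ A (δ / 2 : ℝ) ∈ ball _ δ by
      rw [mem_ball_iff_norm, add_sub_cancel_left, norm_algebraMap', norm_real,
        Real.norm_of_nonneg (by positivity)]
      linarith)
  refine h (121 * (δ / 2)) (by positivity) _ _ (n2 x a hx) (n2 y b hy) ?_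
  simp only at e
  rw [smul_mul_smul_comm, e, smul_mul_smul_comm, smul_add, smul_smul, Algebra.algebraMap_eq_smul_one,
    Algebra.algebraMap_eq_smul_one, smul_smul]
  push_cast
  norm_num

end Pool.Agent.H88.OpenMul
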