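import Mathlib

set_option autoImplicit false

namespace Pool.Agent.H88.PS

open Filter Complex Topology Metric

/-- Taylor coefficient at the origin. -/
noncomputable def coef (f : ℂ → ℂ) (n : ℕ) : ℂ := iteratedDeriv n f 0 / n.factorial

/-- Sum of a power series. -/
noncomputable def ps (a : ℕ → ℂ) (z : ℂ) : ℂ := ∑' n, a n * z ^ n

lemma hasSum_coef {f : ℂ → ℂ} {R : ℝ} (hf : DifferentiableOn ℂ f (ball 0 R)) {z : ℂ}
    (hz : ‖z‖ < R) : HasSum (fun n => coef f n * z ^ n) (f z) := by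
  have := Complex.hasSum_taylorSeries_on_ball hf (mem_ball_zero_iff.2 hz)
  have h : (fun n => coef f n * z ^ n) =
      fun n : ℕ => (n.factorial : ℂ)⁻¹ • (z - 0) ^ n • iteratedDeriv n f 0 := by
    ext n
    simp only [coef, sub_zero, smul_eq_mul]
    ring
  rw [h]; exact this

lemma summable_norm_of_summable {a : ℕ → ℂ} {w : ℂ} (h : Summable fun n => a n * w ^ n)
    {r : ℝ} (hr0 : 0 ≤ r) (hr : r < ‖w‖) : Summable fun n => ‖a n‖ * r ^ n := by
  obtain ⟨C, hC⟩ := h.tendsto_atTop_zero.norm.bddAbove_range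
  have hw : 0 < ‖w‖ := hr0.trans_lt hr
  refine Summable.of_nonneg_of_le (fun n => by positivity) (fun n => ?_)
    ((summable_geometric_of_lt_one (r := r / ‖w‖) (by positivity)
      ((div_lt_one hw).2 hr)).mul_left C)
  have h1 : ‖a n * w ^ n‖ ≤ C := hC ⟨n, rfl⟩
  rw [norm_mul, norm_pow] at h1
  calc ‖a n‖ * r ^ n = (‖a n‖ * ‖w‖ ^ n) * (r / ‖w‖) ^ n := by
        rw [div_pow]; field_simp
    _ ≤ C * (r / ‖w‖) ^ n := by gcongr

lemma summable_norm_coef {f : ℂ → ℂ} {R : ℝ} (hf : DifferentiableOn ℂ f (ball 0 R)) {r : ℝ}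
    (hr0 : 0 ≤ r) (hr : r < R) : Summable fun n => ‖coef f n‖ * r ^ n := by
  obtain ⟨s, hs1, hs2⟩ := exists_between hr
  have hs : ‖(s : ℂ)‖ = s := by rw [norm_real, Real.norm_eq_abs, abs_of_pos (by linarith)]
  exact summable_norm_of_summable (hasSum_coef hf (z := s) (by rwa [hs])).summable hr0
    (by rwa [hs])

lemma hasSum_ps {a : ℕ → ℂ} {R : ℝ} (h : ∀ r, 0 ≤ r → r < R → Summable fun n => ‖a n‖ * r ^ n)
    {z : ℂ} (hz : ‖z‖ < R) : HasSum (fun n => a n * z ^ n) (ps a z) := by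
  apply Summable.hasSum
  apply Summable.of_norm
  simpa only [norm_mul, norm_pow] using h _ (norm_nonneg z) hz

lemma hasFPS {a : ℕ → ℂ} {R : ℝ} (hR : 0 < R)
    (h : ∀ r, 0 ≤ r → r < R → Summable fun n => ‖a n‖ * r ^ n) :
    HasFPowerSeriesOnBall (ps a) (FormalMultilinearSeries.ofScalars ℂ a) 0 (ENNReal.ofReal R) := by
  have h1 : ENNReal.ofReal R ≤ (FormalMultilinearSeries.ofScalars ℂ a).radius := by
    apply ENNReal.le_of_forall_nnreal_lt
    intro r hr
    apply FormalMultilinearSeries.le_radius_of_summable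
    simp only [FormalMultilinearSeries.ofScalars_norm]
    apply h r r.2
    rwa [ENNReal.coe_lt_ofReal] at hr
  have h0 : 0 < ENNReal.ofReal R := ENNReal.ofReal_pos.2 hR
  have h2 := ((FormalMultilinearSeries.ofScalars ℂ a).hasFPowerSeriesOnBall (h0.trans_le h1)).mono
    h0 h1
  convert h2 using 1
  ext z
  exact (FormalMultilinearSeries.ofScalars_sum_eq a z).symm

lemma differentiableOn_ps {a : ℕ → ℂ} {R : ℝ}
    (h : ∀ r, 0 ≤ r → r < R → Summable fun n => ‖a n‖ * r ^ n) :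
    DifferentiableOn ℂ (ps a) (ball 0 R) := by
  rcases le_or_gt R 0 with hR | hR
  · rw [ball_eq_empty.2 hR]; exact differentiableOn_empty
  have := (hasFPS hR h).differentiableOn
  rwa [Metric.eball_ofReal] at this

lemma coef_ps {a : ℕ → ℂ} {R : ℝ} (hR : 0 < R)
    (h : ∀ r, 0 ≤ r → r < R → Summable fun n => ‖a n‖ * r ^ n) (n : ℕ) : coef (ps a) n = a n := by
  have h1 := (hasFPS hR h).factorial_smul 1 n
  rw [FormalMultilinearSeries.ofScalars_apply_eq] at h1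
  have h2 : (n.factorial : ℂ) ≠ 0 := by exact_mod_cast n.factorial_ne_zero
  rw [coef, iteratedDeriv_eq_iteratedFDeriv, ← h1]
  simp only [one_pow, smul_eq_mul, mul_one, nsmul_eq_mul]
  field_simp

lemma coef_congr {f g : ℂ → ℂ} {R : ℝ} (hR : 0 < R) (h : ∀ z, ‖z‖ < R → f z = g z) (n : ℕ) :
    coef f n = coef g n := by
  unfold coef
  congr 1
  apply EventuallyEq.iteratedDeriv_eq
  filter_upwards [ball_mem_nhds (0 : ℂ) hR] with z hz using h z (mem_ball_zero_iff.1 hz)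

lemma coef_of_hasSum {f : ℂ → ℂ} {a : ℕ → ℂ} {R : ℝ} (hR : 0 < R)
    (h : ∀ z : ℂ, ‖z‖ < R → HasSum (fun n => a n * z ^ n) (f z)) (n : ℕ) : coef f n = a n := by
  have hs : ∀ r, 0 ≤ r → r < R → Summable fun n => ‖a n‖ * r ^ n := by
    intro r hr0 hr
    obtain ⟨s, hs1, hs2⟩ := exists_between hr
    have hs : ‖(s : ℂ)‖ = s := by rw [norm_real, Real.norm_eq_abs, abs_of_pos (by linarith)]
    exact summable_norm_of_summable (h s (by rwa [hs])).summable hr0 (by rwa [hs])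
  rw [← coef_ps hR hs n]
  exact coef_congr hR (fun z hz => (h z hz).unique (hasSum_ps hs hz)) n

lemma contDiffAt_of {f : ℂ → ℂ} {R : ℝ} (hR : 0 < R) (hf : DifferentiableOn ℂ f (ball 0 R))
    (n : ℕ) : ContDiffAt ℂ n f 0 :=
  (hf.analyticAt (ball_mem_nhds _ hR)).contDiffAt

lemma coef_add {f g : ℂ → ℂ} {R : ℝ} (hR : 0 < R) (hf : DifferentiableOn ℂ f (ball 0 R))
    (hg : DifferentiableOn ℂ g (ball 0 R)) (n : ℕ) : coef (f + g) n = coef f n + coef g n := by
  unfold coef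
  rw [iteratedDeriv_add (contDiffAt_of hR hf n) (contDiffAt_of hR hg n), add_div]

lemma coef_smul {f : ℂ → ℂ} {R : ℝ} (hR : 0 < R) (hf : DifferentiableOn ℂ f (ball 0 R))
    (c : ℂ) (n : ℕ) : coef (c • f) n = c * coef f n := by
  unfold coef
  rw [iteratedDeriv_const_smul (contDiffAt_of hR hf n), smul_eq_mul, mul_div_assoc]

lemma tendstoLocallyUniformlyOn_iteratedDeriv {ι : Type*} {φ : Filter ι}
    {F : ι → ℂ → ℂ} {f : ℂ → ℂ} {U : Set ℂ} (hU : IsOpen U)
    (hf : TendstoLocallyUniformlyOn F f φ U) (hF : ∀ᶠ i in φ, DifferentiableOn ℂ (F i) U)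
    (n : ℕ) : TendstoLocallyUniformlyOn (fun i => iteratedDeriv n (F i)) (iteratedDeriv n f) φ U ∧
      ∀ᶠ i in φ, DifferentiableOn ℂ (iteratedDeriv n (F i)) U := by
  induction n with
  | zero => simpa using ⟨hf, hF⟩
  | succ n ih =>
    simp only [iteratedDeriv_succ]
    exact ⟨ih.1.deriv ih.2 hU, ih.2.mono fun i hi => hi.deriv hU⟩

lemma tendsto_coef {ι : Type*} {φ : Filter ι} {F : ι → ℂ → ℂ} {f : ℂ → ℂ} {R : ℝ} (hR : 0 < R)
    (hf : TendstoLocallyUniformlyOn F f φ (ball 0 R))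
    (hF : ∀ᶠ i in φ, DifferentiableOn ℂ (F i) (ball 0 R)) (n : ℕ) :
    Tendsto (fun i => coef (F i) n) φ (𝓝 (coef f n)) :=
  ((tendstoLocallyUniformlyOn_iteratedDeriv isOpen_ball hf hF n).1.tendsto_at
    (mem_ball_self hR)).div_const _

end Pool.Agent.H88.PS
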