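import Mathlib

set_option autoImplicit false
open Filter Topology Set

namespace Pool.Agent.H88.Pel

section Abstract

variable (W X Y Z : Type) [NormedAddCommGroup W] [NormedSpace ℝ W] [NormedAddCommGroup X]
  [NormedSpace ℝ X] [NormedAddCommGroup Y] [NormedSpace ℝ Y] [NormedAddCommGroup Z]
  [NormedSpace ℝ Z]

def Cpl : Prop := ∃ (i : Y →L[ℝ] Z) (p : Z →L[ℝ] Y), ∀ y, p (i y) = y

variable {W X Y Z}

theorem Cpl.trans (h : Cpl X Y) (h' : Cpl Y Z) : Cpl X Z := by
  obtain ⟨i, p, h⟩ := h
  obtain ⟨j, q, h'⟩ := h'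
  exact ⟨j.comp i, p.comp q, fun x => by simp [h, h']⟩

theorem Cpl.cont (A : Type) [TopologicalSpace A] [CompactSpace A] (h : Cpl Y Z) :
    Cpl C(A, Y) C(A, Z) := by
  obtain ⟨i, p, h⟩ := h
  exact ⟨i.compLeftContinuous ℝ A, p.compLeftContinuous ℝ A, fun y => by
    ext a
    exact h _⟩

theorem Cpl.absorb (h : Cpl W Z) (e : W ≃L[ℝ] Y × W) : Nonempty (Z ≃L[ℝ] Y × Z) := by
  obtain ⟨i, p, h⟩ := h
  have f := ContinuousLinearEquiv.equivOfRightInverse p i h
  exact ⟨f.trans ((e.prodCongr (.refl ℝ _)).trans ((ContinuousLinearEquiv.prodAssoc ℝ _ _ _).trans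
    ((ContinuousLinearEquiv.refl ℝ Y).prodCongr f.symm)))⟩

theorem pel (h : Cpl Z X) (e1 : Z ≃L[ℝ] Z × Z) (e2 : Z ≃L[ℝ] X × Z) : Nonempty (X ≃L[ℝ] Z) := by
  obtain ⟨f⟩ := h.absorb e1
  exact ⟨f.trans ((ContinuousLinearEquiv.prodComm ℝ _ _).trans e2.symm)⟩

end Abstract

def AA : Set (ℝ → Bool) := {z | ∀ r s, z r = true → z s = true → r = s}

theorem AA_closed : IsClosed AA := by
  have : AA = ⋂ r, ⋂ s, ⋂ (_ : r ≠ s), {z : ℝ → Bool | (z r && z s) = false} := by
    ext z
    simp only [AA, mem_ofPred_eq, mem_iInter, Bool.and_eq_false_imp]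
    refine forall₂_congr fun r s => ⟨fun h hne hr => ?_, fun h hr hs => ?_⟩
    · by_contra hs
      exact hne (h hr (by simpa using hs))
    · by_contra hne
      simp [h hne hr] at hs
  rw [this]
  exact isClosed_iInter fun r => isClosed_iInter fun s => isClosed_iInter fun _ =>
    isClosed_eq ((continuous_of_discreteTopology (f := fun p : Bool × Bool => p.1 && p.2)).comp'
      (f := fun z : ℝ → Bool => (z r, z s)) (by fun_prop)) continuous_const

instance : CompactSpace AA := isCompact_iff_compactSpace.1 AA_closed.isCompact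

theorem hotel (Y : Type) [NormedAddCommGroup Y] [NormedSpace ℝ Y] [CompleteSpace Y] :
    Nonempty (C(AA, Y) ≃L[ℝ] Y × C(AA, Y)) := by
  classical
  obtain ⟨e⟩ : Nonempty (Option ℝ ≃ ℝ) := Cardinal.eq.1 (by simp)
  let up : C(AA, AA) := ⟨fun z => ⟨fun r => (e.symm r).elim false z.1, fun r s hr hs => by
      rw [← e.symm.injective.eq_iff]
      beta_reduce at hr hs
      generalize e.symm r = a at hr ⊢
      generalize e.symm s = b at hs ⊢
      cases a <;> cases b <;> simp at hr hs ⊢
      exact z.2 _ _ hr hs⟩, Continuous.subtype_mk (continuous_pi fun r => by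
      cases e.symm r
      · exact continuous_const
      · exact (continuous_apply _).comp continuous_subtype_val) _⟩
  let dn : C(AA, AA) := ⟨fun z => ⟨fun r => z.1 (e (some r)), fun r s hr hs => by
      simpa using z.2 _ _ hr hs⟩, Continuous.subtype_mk (continuous_pi fun r => by
      exact (continuous_apply (e (some r))).comp continuous_subtype_val) _⟩
  let pt : AA := ⟨fun r => decide (r = e none), fun r s hr hs => by
    simp only [decide_eq_true_eq] at hr hs
    rw [hr, hs]⟩
  have h1 : ∀ z, dn (up z) = z := fun z => Subtype.ext (funext fun r => by simp [dn, up])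
  have h2 : ∀ z : AA, z.1 (e none) = false → up (dn z) = z := fun z hz =>
    Subtype.ext (funext fun r => by
      obtain ⟨a, rfl⟩ := e.surjective r
      cases a <;> simp [dn, up, hz])
  have h3 : ∀ z : AA, z.1 (e none) = true → z = pt := fun z hz =>
    Subtype.ext (funext fun r => by
      by_cases h : r = e none
      · simp [pt, h, hz]
      · simp only [pt, h, decide_false]
        by_contra hc
        exact h (z.2 _ _ (by simpa using hc) hz))
  refine ⟨ContinuousLinearEquiv.ofBijective
    ((ContinuousMap.evalCLM ℝ pt).prod (ContinuousMap.compCLM ℝ Y up))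
    (LinearMap.ker_eq_bot'.2 fun F hF => ?_) (LinearMap.range_eq_top.2 fun ⟨y, G⟩ => ?_)⟩
  · ext z
    rcases Bool.eq_false_or_eq_true (z.1 (e none)) with h | h
    · rw [h3 z h]
      exact congrArg Prod.fst hF
    · rw [← h2 z h]
      exact congrArg (fun p : Y × C(AA, Y) => p.2 (dn z)) hF
  · have hc : Continuous fun z : AA => (cond (z.1 (e none)) 1 0 : ℝ) :=
      (continuous_of_discreteTopology (f := fun b : Bool => (cond b 1 0 : ℝ))).comp
        ((continuous_apply _).comp continuous_subtype_val)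
    refine ⟨⟨fun z => (cond (z.1 (e none)) 1 0 : ℝ) • y
      + (1 - cond (z.1 (e none)) 1 0 : ℝ) • G (dn z), by fun_prop⟩, Prod.ext ?_ ?_⟩
    · simp [pt]
    · ext z
      have : (up z).1 (e none) = false := by simp [up]
      simp [this, h1]

end Pool.Agent.H88.Pel
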