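import Pool.Agent.H88.Pel1

set_option autoImplicit false
open Filter Topology Set

namespace Pool.Agent.H88.Pel

inductive Tr : Type
  | base : ℝ → Tr
  | nil : ℕ → Tr
  | cons : Tr → Tr → Tr

noncomputable instance : DecidableEq Tr := Classical.decEq _

theorem exists_ab : ∃ a b : ℕ → ℝ, (∀ i, 0 < a i ∧ a i < b i) ∧
    ∀ t s : ℝ, 0 ≤ t → t < s → ∃ i, t < a i ∧ b i < s := by
  obtain ⟨f, hf⟩ := exists_surjective_nat (ℚ × ℚ)
  refine ⟨fun i => if 0 < (f i).1 ∧ (f i).1 < (f i).2 then (f i).1 else 1,
    fun i => if 0 < (f i).1 ∧ (f i).1 < (f i).2 then (f i).2 else 2, fun i => ?_,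
    fun t s h0 h => ?_⟩
  · beta_reduce
    split_ifs with h
    · exact_mod_cast h
    · norm_num
  · obtain ⟨p, p1, p2⟩ := exists_rat_btwn h
    obtain ⟨q, q1, q2⟩ := exists_rat_btwn p2
    obtain ⟨i, hi⟩ := hf (p, q)
    have h1 : 0 < p ∧ p < q := ⟨by exact_mod_cast h0.trans_lt p1, by exact_mod_cast q1⟩
    exact ⟨i, by simp [hi, h1, p1], by simp [hi, h1, q2]⟩

noncomputable def aa : ℕ → ℝ := exists_ab.choose

noncomputable def bb : ℕ → ℝ := exists_ab.choose_spec.choose

theorem aa_pos (i : ℕ) : 0 < aa i := (exists_ab.choose_spec.choose_spec.1 i).1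

theorem aa_lt (i : ℕ) : aa i < bb i := (exists_ab.choose_spec.choose_spec.1 i).2

theorem ab_sep {t s : ℝ} (h0 : 0 ≤ t) (h : t < s) : ∃ i, t < aa i ∧ bb i < s :=
  exists_ab.choose_spec.choose_spec.2 t s h0 h

def isB : Tr → Bool
  | .base _ => true
  | _ => false

noncomputable def ent : Tr → Finset Tr
  | .cons a b => insert a (ent b)
  | _ => ∅

def flag : Tr → ℝ
  | .base _ => 0
  | .nil _ => 1
  | .cons _ b => flag b

def idx : Tr → ℕ
  | .base _ => 0
  | .nil i => i
  | .cons _ b => idx b

def size : Tr → ℕ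
  | .cons a b => size a + size b + 1
  | _ => 0

def re : Tr → ℕ → Tr
  | .base r, _ => .base r
  | .nil _, i => .nil i
  | .cons a b, i => .cons a (re b i)

def app : Tr → Tr → Tr
  | .base r, _ => .base r
  | .nil _, t => t
  | .cons a b, t => .cons a (app b t)

noncomputable def ww : Tr → ℝ
  | .base _ => 1
  | .nil i => (1 / 2) ^ i
  | .cons a b => (bif isB a then 1 / 4 else ww a * aa (idx a) / 16) * ww b

noncomputable def vv (a : Tr) : ℝ := bif isB a then 1 / 4 else ww a * aa (idx a) / 16

theorem ww_pos (t : Tr) : 0 < ww t := by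
  induction t with
  | base r => simp [ww]
  | nil i => simp [ww]
  | cons a b ha hb =>
    have := aa_pos (idx a)
    unfold ww
    cases isB a <;> simp only [cond] <;> positivity

theorem vv_pos (t : Tr) : 0 < vv t := by
  have := aa_pos (idx t)
  have := ww_pos t
  unfold vv
  cases isB t <;> simp only [cond] <;> positivity

noncomputable def ch (t : Tr) (q : Tr → ℝ) : ℝ := flag t * ∏ a ∈ ent t, q a

def io (y : Tr → Bool) (t : Tr) : ℝ := bif y t then 1 else 0

theorem io_nonneg (y : Tr → Bool) (t : Tr) : 0 ≤ io y t := by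
  unfold io
  cases y t <;> simp

theorem io_le (y : Tr → Bool) (t : Tr) : io y t ≤ 1 := by
  unfold io
  cases y t <;> simp

theorem io_cont (t : Tr) : Continuous fun y => io y t :=
  (continuous_of_discreteTopology (f := fun b : Bool => (cond b 1 0 : ℝ))).comp (continuous_apply t)

theorem ch_base (r : ℝ) (q : Tr → ℝ) : ch (.base r) q = 0 := by simp [ch, flag]

theorem ch_nil (i : ℕ) (q : Tr → ℝ) : ch (.nil i) q = 1 := by simp [ch, flag, ent]

theorem ch_cons (a b : Tr) (y : Tr → Bool) : ch (.cons a b) (io y) = io y a * ch b (io y) := by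
  simp only [ch, flag, ent]
  by_cases h : a ∈ ent b
  · rw [Finset.insert_eq_of_mem h, ← Finset.mul_prod_erase _ _ h]
    unfold io
    cases y a <;> simp
  · rw [Finset.prod_insert h]
    ring

theorem ch_mem (t : Tr) (y : Tr → Bool) : ch t (io y) ∈ Icc (0:ℝ) 1 := by
  induction t with
  | base r => simp [ch_base]
  | nil i => simp [ch_nil]
  | cons a b _ hb =>
    rw [ch_cons]
    exact ⟨mul_nonneg (io_nonneg _ _) hb.1, mul_le_one₀ (io_le _ _) hb.1 hb.2⟩

theorem ch_cont {α : Type*} [TopologicalSpace α] {q : α → Tr → ℝ} (h : ∀ t, Continuous fun x => q x t)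
    (t : Tr) : Continuous fun x => ch t (q x) :=
  continuous_const.mul (continuous_finsetProd _ fun a _ => h a)

theorem ch_app (t s : Tr) (y : Tr → Bool) : ch (app t s) (io y) = ch t (io y) * ch s (io y) := by
  induction t with
  | base r => simp [app, ch_base]
  | nil i => simp [app, ch_nil]
  | cons a b _ hb => rw [app, ch_cons, ch_cons, hb, mul_assoc]

theorem ch_re (t : Tr) (i : ℕ) (y : Tr → Bool) : ch (re t i) (io y) = ch t (io y) := by
  induction t with
  | base r => rfl
  | nil i => simp [re, ch_nil]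
  | cons a b _ hb => rw [re, ch_cons, ch_cons, hb]

theorem re_cases (t : Tr) : flag t = 0 ∨ ∀ i, idx (re t i) = i ∧ isB (re t i) = false := by
  induction t with
  | base r => exact Or.inl rfl
  | nil i => exact Or.inr fun _ => ⟨rfl, rfl⟩
  | cons a b _ hb => exact hb.imp id fun h i => ⟨(h i).1, rfl⟩

theorem ch_affine (t j : Tr) (q : Tr → ℝ) :
    ch t q = (1 - q j) * ch t (Function.update q j 0) + q j * ch t (Function.update q j 1) := by
  unfold ch
  by_cases h : j ∈ ent t
  · rw [Finset.prod_update_of_mem h, Finset.prod_update_of_mem h, ← Finset.mul_prod_erase _ _ h,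
      Finset.sdiff_singleton_eq_erase]
    ring
  · rw [Finset.prod_update_of_notMem h, Finset.prod_update_of_notMem h]
    ring

def Compat (q : Tr → ℝ) (y : Tr → Bool) : Prop :=
  ∀ j, (q j = 0 → y j = false) ∧ (q j = 1 → y j = true)

theorem multi_fin (Φ : (Tr → ℝ) → ℝ) (hΦ : ∀ j q,
    Φ q = (1 - q j) * Φ (Function.update q j 0) + q j * Φ (Function.update q j 1)) (M : ℝ)
    (s : Finset Tr) : ∀ q : Tr → ℝ, (∀ j, q j ∈ Icc (0:ℝ) 1) → (∀ j ∉ s, q j = 0 ∨ q j = 1) →
      (∀ y, Compat q y → |Φ (io y)| ≤ M) → |Φ q| ≤ M := by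
  induction s using Finset.induction_on with
  | empty =>
    intro q _ h1 h2
    have e : io (fun j => decide (q j = 1)) = q := funext fun j => by
      rcases h1 j (by simp) with h | h <;> simp [io, h]
    rw [← e]
    exact h2 _ fun j => ⟨fun h => by simp [h], fun h => by simp [h]⟩
  | insert j s _ ih =>
    intro q h0 h1 h2
    by_cases hj : q j = 0 ∨ q j = 1
    · refine ih q h0 (fun i hi => ?_) h2
      by_cases h : i = j
      · exact h ▸ hj
      · exact h1 i (by simp [h, hi])
    have key : ∀ c : ℝ, c = 0 ∨ c = 1 → |Φ (Function.update q j c)| ≤ M := fun c hc =>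
      ih _ (fun i => by
        by_cases h : i = j
        · rcases hc with rfl | rfl <;> simp [h]
        · simpa [h] using h0 i) (fun i hi => by
        by_cases h : i = j
        · simpa [h] using hc
        · simpa [h] using h1 i (by simp [h, hi])) fun y hy => h2 y fun i => by
        by_cases h : i = j
        · subst h
          exact ⟨fun h => absurd (Or.inl h) hj, fun h => absurd (Or.inr h) hj⟩
        · simpa [h] using hy i
    rw [hΦ j q]
    refine (abs_add_le _ _).trans ?_
    rw [abs_mul, abs_mul, abs_of_nonneg (h0 j).1, abs_of_nonneg (sub_nonneg.2 (h0 j).2)]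
    nlinarith [mul_le_mul_of_nonneg_left (key 0 (Or.inl rfl)) (sub_nonneg.2 (h0 j).2),
      mul_le_mul_of_nonneg_left (key 1 (Or.inr rfl)) (h0 j).1]

theorem multi (c : Tr →₀ ℝ) (d M : ℝ) (q : Tr → ℝ) (h0 : ∀ j, q j ∈ Icc (0:ℝ) 1)
    (h : ∀ y, Compat q y → |c.sum (fun t r => r * ch t (io y)) - d| ≤ M) :
    |c.sum (fun t r => r * ch t q) - d| ≤ M := by
  obtain ⟨s, hs⟩ : ∃ s, s = c.support.biUnion ent := ⟨_, rfl⟩
  have e : c.sum (fun t r => r * ch t q)
      = c.sum fun t r => r * ch t fun j => if j ∈ s then q j else if q j = 1 then 1 else 0 :=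
    Finsupp.sum_congr fun t ht => by
      unfold ch
      rw [Finset.prod_congr rfl fun j hj => (if_pos (show j ∈ s from
        hs ▸ Finset.mem_biUnion.2 ⟨t, ht, hj⟩)).symm]
  rw [e]
  refine multi_fin (fun q => c.sum (fun t r => r * ch t q) - d) (fun j q => ?_) M s _
    (fun j => ?_) (fun j hj => ?_) fun y hy => h y fun j => ?_
  · have : c.sum (fun t r => r * ch t q)
        = (1 - q j) * c.sum (fun t r => r * ch t (Function.update q j 0))
          + q j * c.sum fun t r => r * ch t (Function.update q j 1) := by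
      simp only [Finsupp.sum, Finset.mul_sum, ← Finset.sum_add_distrib]
      exact Finset.sum_congr rfl fun t _ => by rw [ch_affine t j q]; ring
    rw [this]
    ring
  · split_ifs
    · exact h0 j
    · simp
    · simp
  · rw [if_neg hj]
    split_ifs <;> simp
  · have := hy j
    constructor
    · intro h1
      exact this.1 (by simp [h1])
    · intro h1
      exact this.2 (by simp [h1])

end Pool.Agent.H88.Pel
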