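import Pool.Agent.H88.Pel2

set_option autoImplicit false
open Filter Topology Set

namespace Pool.Agent.H88.Pel

noncomputable def mom (y : Tr → Bool) (t : Tr) : ℝ := ch t (io y)

theorem mom_cont : Continuous mom := continuous_pi fun t => ch_cont io_cont t

def K0 (S : Set (Tr → Bool)) : Set (Tr → ℝ) := closure (convexHull ℝ (mom '' S))

variable {S : Set (Tr → Bool)}

theorem mom_mem {y : Tr → Bool} (h : y ∈ S) : mom y ∈ K0 S :=
  subset_closure (subset_convexHull ℝ _ (mem_image_of_mem _ h))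

theorem K0_lin {f : (Tr → ℝ) → ℝ} (hf : IsLinearMap ℝ f) (hc : Continuous f) {M : ℝ}
    (h : ∀ y ∈ S, f (mom y) ≤ M) : ∀ x ∈ K0 S, f x ≤ M :=
  closure_minimal (convexHull_min (forall_mem_image.2 h) (convex_halfSpace_le hf M))
    (isClosed_le hc continuous_const)

theorem K0_sum (T : Finset Tr) (c : Tr → ℝ) {M : ℝ} (h : ∀ y ∈ S, ∑ t ∈ T, c t * mom y t ≤ M) :
    ∀ x ∈ K0 S, ∑ t ∈ T, c t * x t ≤ M :=
  K0_lin ⟨fun x y => by simp [mul_add, Finset.sum_add_distrib], fun r x => by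
    simp [Finset.mul_sum, mul_left_comm]⟩ (by fun_prop) h

theorem K0_two (s t : Tr) (a b : ℝ) {M : ℝ} (h : ∀ y ∈ S, a * mom y s + b * mom y t ≤ M) :
    ∀ x ∈ K0 S, a * x s + b * x t ≤ M :=
  K0_lin ⟨fun x y => by simp only [Pi.add_apply]; ring, fun r x => by
    simp only [Pi.smul_apply, smul_eq_mul]; ring⟩ (by fun_prop) h

theorem K0_mem {x : Tr → ℝ} (hx : x ∈ K0 S) (t : Tr) : x t ∈ Icc (0:ℝ) 1 :=
  ⟨by linarith [K0_two t t (-1) 0 (M := 0) (fun y _ => by linarith [(ch_mem t y).1, show mom y t = ch t (io y) from rfl]) x hx],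
    by linarith [K0_two t t 1 0 (M := 1) (fun y _ => by linarith [(ch_mem t y).2, show mom y t = ch t (io y) from rfl]) x hx]⟩

theorem K0_compact : IsCompact (K0 S) :=
  (isCompact_univ_pi fun _ => isCompact_Icc).of_isClosed_subset isClosed_closure
    fun _ hx t _ => K0_mem hx t

instance : CompactSpace (K0 S) := isCompact_iff_compactSpace.1 K0_compact

def Con (x : Tr → ℝ) (y : Tr → Bool) : Prop :=
  ∀ t, isB t = false → (y t = true → aa (idx t) ≤ x t) ∧ (y t = false → x t ≤ bb (idx t))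

theorem Con_closed : IsClosed {p : (Tr → Bool) × (Tr → ℝ) | Con p.2 p.1} := by
  have e : {p : (Tr → Bool) × (Tr → ℝ) | Con p.2 p.1} = ⋂ t, ⋂ (_ : isB t = false),
      (({p | p.1 t = false} ∪ {p | aa (idx t) ≤ p.2 t}) ∩
        ({p | p.1 t = true} ∪ {p | p.2 t ≤ bb (idx t)})) := by
    ext p
    simp only [Con, mem_ofPred_eq, mem_iInter, mem_inter_iff, mem_union]
    refine forall₂_congr fun t _ => ?_
    cases p.1 t <;> simp
  rw [e]
  exact isClosed_iInter fun t => isClosed_iInter fun _ =>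
    ((isClosed_eq (by fun_prop) continuous_const).union
      (isClosed_le continuous_const (by fun_prop))).inter
    ((isClosed_eq (by fun_prop) continuous_const).union (isClosed_le (by fun_prop) continuous_const))

theorem Con_unique {x x' : Tr → ℝ} {y : Tr → Bool} (hx : x ∈ K0 S) (hx' : x' ∈ K0 S)
    (h : Con x y) (h' : Con x' y) : x = x' := by
  have key : ∀ {x x' : Tr → ℝ}, x ∈ K0 S → x' ∈ K0 S → Con x y → Con x' y → ∀ t, x' t ≤ x t := by
    intro x x' hx hx' h h' t
    rcases re_cases t with h0 | h0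
    · have := K0_two t t 1 0 (M := 0) (fun y _ => by simp [mom, ch, h0]) x' hx'
      linarith [(K0_mem hx t).1]
    by_contra! hc
    obtain ⟨i, h1, h2⟩ := ab_sep (K0_mem hx t).1 hc
    have h3 := K0_two (re t i) t 1 (-1) (M := 0) (fun y _ => by simp [mom, ch_re]) x hx
    have h4 := K0_two (re t i) t (-1) 1 (M := 0) (fun y _ => by simp [mom, ch_re]) x' hx'
    rcases Bool.eq_false_or_eq_true (y (re t i)) with h5 | h5
    · have := (h _ (h0 i).2).1 h5
      rw [(h0 i).1] at this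
      linarith
    · have := (h' _ (h0 i).2).2 h5
      rw [(h0 i).1] at this
      linarith
  exact funext fun t => le_antisymm (key hx' hx h' h t) (key hx hx' h h' t)

def FF (S : Set (Tr → Bool)) : Set (Tr → Bool) :=
  {y | (fun r => y (.base r)) ∈ AA ∧ ∃ x ∈ K0 S, Con x y}

theorem FF_mono {S T : Set (Tr → Bool)} (h : S ⊆ T) : FF S ⊆ FF T := fun _ ⟨h1, x, h2, h3⟩ =>
  ⟨h1, x, closure_mono (convexHull_mono (image_mono h)) h2, h3⟩

theorem proj_closed {C : Set (Tr → ℝ)} (hC : IsCompact C) : IsClosed {y | ∃ x ∈ C, Con x y} := by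
  have e : {y | ∃ x ∈ C, Con x y} = Prod.fst '' ((univ ×ˢ C) ∩ {p | Con p.2 p.1}) := by
    ext y
    simp
  rw [e]
  exact (((isCompact_univ.prod hC).inter_right Con_closed).image continuous_fst).isClosed

theorem FF_closed : IsClosed (FF S) :=
  (AA_closed.preimage (by fun_prop)).inter (proj_closed K0_compact)

def LL : Set (Tr → Bool) := ⋃₀ {S | S ⊆ FF S}

theorem LL_sub : LL ⊆ FF LL := fun _ ⟨_, hS, hy⟩ => FF_mono (subset_sUnion_of_mem hS) (hS hy)

theorem sub_LL : FF LL ⊆ LL := subset_sUnion_of_mem (FF_mono LL_sub)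

theorem LL_closed : IsClosed LL := Subset.antisymm LL_sub sub_LL ▸ FF_closed

instance : CompactSpace LL := isCompact_iff_compactSpace.1 LL_closed.isCompact

noncomputable def gg : Tr → ℝ
  | .base _ => 0
  | .nil _ => 1
  | .cons a b => (if bb (idx a) < gg a then 1 else 0) * gg b

theorem LL_nonempty : LL.Nonempty := by
  obtain ⟨y, hy⟩ : ∃ y : Tr → Bool, ∀ t, y t = decide (bb (idx t) < gg t) := ⟨_, fun _ => rfl⟩
  have h1 : ∀ t, mom y t = gg t := by
    intro t
    induction t with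
    | base r => exact ch_base _ _
    | nil i => exact ch_nil _ _
    | cons a b _ hb =>
      rw [mom, ch_cons, gg, ← hb, io, hy]
      split_ifs with h <;> simp [h, mom]
  refine ⟨y, {y}, singleton_subset_iff.2 ⟨fun r s hr _ => ?_, mom y, mom_mem rfl, fun t _ => ?_⟩, rfl⟩
  · simp only [hy, gg, decide_eq_true_eq] at hr
    linarith [aa_pos (idx (.base r)), aa_lt (idx (.base r))]
  · simp only [hy, h1, decide_eq_true_eq, decide_eq_false_iff_not, not_lt]
    exact ⟨fun h => by linarith [aa_lt (idx t)], id⟩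

theorem bits {n : ℕ} (h : ∀ y ∈ LL, ∀ T : Finset Tr, (∀ t ∈ T, size t < n) →
    ∑ t ∈ T, ww t * mom y t ≤ 4) {y : Tr → Bool} (hy : y ∈ LL) (T : Finset Tr)
    (hT : ∀ t ∈ T, size t < n) : ∑ t ∈ T, vv t * io y t ≤ 1 / 2 := by
  obtain ⟨h1, x, hx, h2⟩ := LL_sub hy
  have h3 := K0_sum T ww (fun y hy => h y hy T hT) x hx
  have h4 : ∑ t ∈ T, (if isB t = true ∧ y t = true then (1 / 4 : ℝ) else 0) ≤ 1 / 4 := by
    rw [← Finset.sum_filter, Finset.sum_const, nsmul_eq_mul]
    refine mul_le_of_le_one_left (by norm_num) ?_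
    exact_mod_cast Finset.card_le_one.2 fun a ha b hb => by
      obtain ⟨-, a1, a2⟩ := Finset.mem_filter.1 ha
      obtain ⟨-, b1, b2⟩ := Finset.mem_filter.1 hb
      cases a <;> cases b <;> simp [isB] at a1 b1 ⊢
      exact h1 _ _ a2 b2
  have h5 : ∑ t ∈ T, vv t * io y t ≤ ∑ t ∈ T, ((if isB t = true ∧ y t = true then (1 / 4 : ℝ) else 0)
      + 1 / 16 * (ww t * x t)) := Finset.sum_le_sum fun t _ => by
    have h6 := mul_nonneg (ww_pos t).le (K0_mem hx t).1
    have h7 := h2 t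
    unfold vv io
    cases h8 : isB t <;> cases h9 : y t <;> simp [h8, h9] at h7 ⊢ <;>
      nlinarith [ww_pos t]
  rw [Finset.sum_add_distrib, ← Finset.mul_sum] at h5
  linarith

theorem bound0 (n : ℕ) : ∀ y ∈ LL, ∀ T : Finset Tr, (∀ t ∈ T, size t < n) →
    ∑ t ∈ T, ww t * mom y t ≤ 4 := by
  induction n with
  | zero =>
    intro y _ T hT
    rw [Finset.eq_empty_of_forall_notMem (s := T) fun t ht => by simpa using hT t ht]
    simp
  | succ n ih =>
    intro y hy T hT
    obtain ⟨N, hN⟩ : ∃ N, ∀ i, Tr.nil i ∈ T → i < N :=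
      ⟨T.sup idx + 1, fun i hi => Nat.lt_succ_of_le (Finset.le_sup (f := idx) hi)⟩
    obtain ⟨U, hU, hU'⟩ : ∃ U : Finset Tr, (∀ t ∈ U, size t < n) ∧
        ∀ a b, Tr.cons a b ∈ T → a ∈ U ∧ b ∈ U := by
      refine ⟨T.biUnion fun t => match t with
        | .cons a b => {a, b}
        | _ => ∅, fun t ht => ?_, fun a b h =>
          ⟨Finset.mem_biUnion.2 ⟨_, h, by simp⟩, Finset.mem_biUnion.2 ⟨_, h, by simp⟩⟩⟩
      obtain ⟨s, hs, h⟩ := Finset.mem_biUnion.1 ht
      have := hT s hs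
      cases s <;> simp [size] at h this
      rcases h with rfl | rfl <;> omega
    have p0 : ∀ t, 0 ≤ ww t * mom y t := fun t => mul_nonneg (ww_pos t).le (ch_mem t y).1
    have h1 : ∑ t ∈ T, ww t * mom y t ≤ ∑ t ∈ (Finset.range N).image Tr.nil ∪
        (U ×ˢ U).image fun p => Tr.cons p.1 p.2, ww t * mom y t := by
      rw [← Finset.sum_filter_ne_zero]
      refine Finset.sum_le_sum_of_subset_of_nonneg (fun t ht => ?_) fun t _ _ => p0 t
      obtain ⟨ht, h0⟩ := Finset.mem_filter.1 ht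
      cases t with
      | base r => simp [mom, ch_base] at h0
      | nil i => simp [hN i ht]
      | cons a b => simp [hU' a b ht]
    rw [Finset.sum_union (by simp [Finset.disjoint_left]),
      Finset.sum_image fun _ _ _ _ h => Tr.nil.inj h,
      Finset.sum_image fun _ _ _ _ h => Prod.ext (Tr.cons.inj h).1 (Tr.cons.inj h).2,
      Finset.sum_product] at h1
    have h2 : ∑ i ∈ Finset.range N, ww (.nil i) * mom y (.nil i) ≤ 2 := by
      simpa [ww, mom, ch_nil] using sum_geometric_two_le N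
    have h3 : ∑ a ∈ U, ∑ b ∈ U, ww (.cons a b) * mom y (.cons a b)
        = (∑ a ∈ U, vv a * io y a) * ∑ b ∈ U, ww b * mom y b := by
      rw [Finset.sum_mul_sum]
      refine Finset.sum_congr rfl fun a _ => Finset.sum_congr rfl fun b _ => ?_
      rw [mom, ch_cons, ww, vv, mom]
      ring
    have h4 := mul_le_mul (bits ih hy U hU) (ih y hy U hU) (Finset.sum_nonneg fun t _ => p0 t)
      (by norm_num)
    simp only at h1
    linarith

theorem bound {x : Tr → ℝ} (hx : x ∈ K0 LL) (T : Finset Tr) : ∑ t ∈ T, ww t * x t ≤ 4 :=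
  K0_sum T ww (fun y hy => bound0 (T.sup size + 1) y hy T fun _ ht =>
    Nat.lt_succ_of_le (Finset.le_sup (f := size) ht)) x hx

end Pool.Agent.H88.Pel
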