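import Pool.Agent.H88.Pel3

set_option autoImplicit false
open Filter Topology Set

namespace Pool.Agent.H88.Pel

noncomputable def chL (t : Tr) : C(LL, ℝ) :=
  ⟨fun y => mom y t, (continuous_apply t).comp (mom_cont.comp continuous_subtype_val)⟩

noncomputable def eL : (Tr →₀ ℝ) →ₗ[ℝ] C(LL, ℝ) := Finsupp.linearCombination ℝ chL

theorem eL_apply (c : Tr →₀ ℝ) (y : LL) : eL c y = c.sum fun t r => r * ch t (io y) := by
  simp [eL, Finsupp.linearCombination_apply, Finsupp.sum, chL, mom]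

theorem eL_dense : DenseRange eL := by
  let M : Submonoid C(LL, ℝ) :=
    { carrier := range chL
      one_mem' := ⟨.nil 0, by ext y; exact ch_nil _ _⟩
      mul_mem' := by
        rintro _ _ ⟨s, rfl⟩ ⟨t, rfl⟩
        exact ⟨app s t, by ext y; exact ch_app _ _ _⟩ }
  have h1 := Algebra.adjoin_eq_span ℝ (M : Set C(LL, ℝ))
  rw [Submonoid.closure_eq] at h1
  have h2 := ContinuousMap.subalgebra_topologicalClosure_eq_top_of_separatesPoints
    (Algebra.adjoin ℝ (M : Set C(LL, ℝ))) fun y z hne => by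
      obtain ⟨t, ht⟩ := Function.ne_iff.1 (Subtype.coe_ne_coe.2 hne)
      refine ⟨_, ⟨chL (.cons t (.nil 0)), Algebra.subset_adjoin ⟨_, rfl⟩, rfl⟩, ?_⟩
      change ch _ (io y) ≠ ch _ (io z)
      rw [ch_cons, ch_cons, ch_nil, ch_nil, io, io]
      revert ht
      cases y.1 t <;> cases z.1 t <;> simp
  have h3 : range eL = (Algebra.adjoin ℝ (M : Set C(LL, ℝ)) : Set C(LL, ℝ)) := by
    rw [← LinearMap.coe_range, eL, Finsupp.range_linearCombination]
    exact (congrArg SetLike.coe h1).symm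
  rw [DenseRange, h3, dense_iff_closure_eq]
  exact congrArg SetLike.coe h2

theorem cpl1 : Cpl C(LL, ℝ) C(K0 LL, ℝ) := by
  let f : (Tr →₀ ℝ) →ₗ[ℝ] C(K0 LL, ℝ) := Finsupp.linearCombination ℝ fun t =>
    ⟨fun x => x.1 t, (continuous_apply t).comp continuous_subtype_val⟩
  have f1 : ∀ c x, f c x = ∑ t ∈ c.support, c t * x.1 t := fun c x => by
    simp [f, Finsupp.linearCombination_apply, Finsupp.sum]
  have hn : ∀ c, ‖f c‖ ≤ 1 * ‖eL c‖ := fun c => by
    rw [one_mul, ContinuousMap.norm_le _ (norm_nonneg _)]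
    intro x
    have h1 : ∀ y ∈ LL, |∑ t ∈ c.support, c t * mom y t| ≤ ‖eL c‖ := fun y hy => by
      have := (eL c).norm_coe_le_norm ⟨y, hy⟩
      rwa [eL_apply] at this
    have h2 := K0_sum c.support c (fun y hy => (abs_le.1 (h1 y hy)).2) x x.2
    have h3 := K0_sum c.support (fun t => -c t) (M := ‖eL c‖) (fun y hy => by
      simp only [neg_mul, Finset.sum_neg_distrib]
      linarith [(abs_le.1 (h1 y hy)).1]) x x.2
    simp only [neg_mul, Finset.sum_neg_distrib] at h3
    rw [f1, Real.norm_eq_abs, abs_le]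
    constructor <;> linarith
  let j : C(LL, K0 LL) := ⟨fun y => ⟨mom y, mom_mem y.2⟩,
    (mom_cont.comp continuous_subtype_val).subtype_mk _⟩
  refine ⟨f.extendOfNorm eL, ContinuousMap.compCLM ℝ ℝ j, fun g => ?_⟩
  refine eL_dense.induction_on g (isClosed_eq (by fun_prop) continuous_id) fun c => ?_
  rw [LinearMap.extendOfNorm_eq eL_dense ⟨1, hn⟩]
  ext y
  rw [eL_apply]
  exact f1 c (j y)

theorem exists_m : ∃ m : C(LL, K0 LL), ∀ (y : LL) (x : K0 LL), Con x y → m y = x := by
  choose m h1 h2 using fun y : LL => (LL_sub y.2).2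
  refine ⟨⟨fun y => ⟨m y, h1 y⟩, continuous_iff_isClosed.2 fun C hC => ?_⟩,
    fun y x h => Subtype.ext (Con_unique (h1 y) x.2 (h2 y) h)⟩
  have e : (fun y : LL => (⟨m y, h1 y⟩ : K0 LL)) ⁻¹' C
      = Subtype.val ⁻¹' {y | ∃ x ∈ Subtype.val '' C, Con x y} := by
    ext y
    refine ⟨fun h => ⟨_, ⟨_, h, rfl⟩, h2 y⟩, ?_⟩
    rintro ⟨_, ⟨x, hx, rfl⟩, h⟩
    have : (⟨m y, h1 y⟩ : K0 LL) = x := Subtype.ext (Con_unique (h1 y) x.2 (h2 y) h)
    rwa [mem_preimage, this]
  rw [e]
  exact (proj_closed (hC.isCompact.image continuous_subtype_val)).preimage continuous_subtype_val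

noncomputable def qq (x : Tr → ℝ) (j : Tr) : ℝ :=
  bif isB j then 0 else max 0 (min 1 ((x j - aa (idx j)) / (bb (idx j) - aa (idx j))))

theorem qq_mem (x : Tr → ℝ) (j : Tr) : qq x j ∈ Icc (0:ℝ) 1 := by
  unfold qq
  cases isB j <;> simp

theorem qq_cont (j : Tr) : Continuous fun x => qq x j := by
  unfold qq
  cases isB j <;> simp only [cond] <;> fun_prop

theorem compat {x : Tr → ℝ} (hx : x ∈ K0 LL) {y : Tr → Bool} (h : Compat (qq x) y) :
    y ∈ LL ∧ Con x y := by
  have h1 : Con x y := fun t ht => by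
    have h2 := h t
    have h3 := sub_pos.2 (aa_lt (idx t))
    simp only [qq, ht, cond] at h2
    refine ⟨fun h4 => ?_, fun h4 => ?_⟩
    · by_contra! hc
      rw [h2.1 (max_eq_left (min_le_of_right_le (div_nonpos_of_nonpos_of_nonneg (by linarith)
        h3.le)))] at h4
      exact Bool.noConfusion h4
    · by_contra! hc
      rw [h2.2 (by rw [min_eq_left ((one_le_div h3).2 (by linarith)), max_eq_right zero_le_one])]
        at h4
      exact Bool.noConfusion h4
  refine ⟨sub_LL ⟨fun r s hr _ => ?_, x, hx, h1⟩, h1⟩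
  exact Bool.noConfusion (((h (.base r)).1 rfl).symm.trans hr)

theorem exists_p : ∃ p : C(LL, ℝ) →L[ℝ] C(K0 LL, ℝ), ∀ (g : C(LL, ℝ)) (x : K0 LL) (d : ℝ),
    (∀ y : LL, Con x y → g y = d) → p g x = d := by
  let f : (Tr →₀ ℝ) →ₗ[ℝ] C(K0 LL, ℝ) := Finsupp.linearCombination ℝ fun t =>
    ⟨fun x => ch t (qq x), ch_cont (fun j => (qq_cont j).comp continuous_subtype_val) t⟩
  have f1 : ∀ c x, f c x = c.sum fun t r => r * ch t (qq x) := fun c x => by
    simp [f, Finsupp.linearCombination_apply, Finsupp.sum]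
  have f2 : ∀ (c : Tr →₀ ℝ) (x : K0 LL) (d M : ℝ), (∀ y : LL, Con x y → |eL c y - d| ≤ M) →
      |f c x - d| ≤ M := fun c x d M h => by
    rw [f1]
    refine multi c d M _ (qq_mem x) fun y hy => ?_
    have := h ⟨y, (compat x.2 hy).1⟩ (compat x.2 hy).2
    rwa [eL_apply] at this
  have hn : ∀ c, ‖f c‖ ≤ 1 * ‖eL c‖ := fun c => by
    rw [one_mul, ContinuousMap.norm_le _ (norm_nonneg _)]
    intro x
    simpa using f2 c x 0 ‖eL c‖ fun y _ => by simpa using (eL c).norm_coe_le_norm y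
  refine ⟨f.extendOfNorm eL, fun g x d h => ?_⟩
  rw [← sub_eq_zero, ← abs_nonpos_iff]
  refine le_of_forall_pos_le_add fun ε hε => ?_
  obtain ⟨c, hc⟩ := eL_dense.exists_dist_lt g (half_pos hε)
  rw [dist_eq_norm] at hc
  have h1 := f2 c x d (ε / 2) fun y hy => by
    rw [← h y hy, abs_sub_comm]
    exact ((g - eL c).norm_coe_le_norm y).trans hc.le
  have h2 := ((f.extendOfNorm eL (g - eL c)).norm_coe_le_norm x).trans
    (LinearMap.norm_extendOfNorm_apply_le eL_dense 1 hn _)
  rw [map_sub, LinearMap.extendOfNorm_eq eL_dense ⟨1, hn⟩, ContinuousMap.sub_apply,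
    Real.norm_eq_abs] at h2
  linarith [abs_sub_le (f.extendOfNorm eL g x) (f c x) d]

def setb (z : ℝ → Bool) (y : Tr → Bool) : Tr → Bool
  | .base r => z r
  | t => y t

theorem con_setb {x : Tr → ℝ} {y : Tr → Bool} (z : ℝ → Bool) (h : Con x y) : Con x (setb z y) :=
  fun t ht => by
    cases t with
    | base r => exact Bool.noConfusion ht
    | nil i => exact h _ ht
    | cons a b => exact h _ ht

theorem setb_mem (z : AA) (y : LL) : setb z y ∈ LL := by
  obtain ⟨-, x, hx, h⟩ := LL_sub y.2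
  exact sub_LL ⟨z.2, x, hx, con_setb _ h⟩

theorem cpl2 : Cpl C(AA, C(K0 LL, ℝ)) C(LL, ℝ) := by
  obtain ⟨m, hm⟩ := exists_m
  obtain ⟨p, hp⟩ := exists_p
  let σ : C(AA × LL, LL) := ⟨fun q => ⟨setb q.1 q.2, setb_mem _ _⟩,
    Continuous.subtype_mk (continuous_pi fun t => by
      cases t
      · exact (continuous_apply _).comp (continuous_subtype_val.comp continuous_fst)
      · exact (continuous_apply _).comp (continuous_subtype_val.comp continuous_snd)
      · exact (continuous_apply _).comp (continuous_subtype_val.comp continuous_snd)) _⟩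
  let β : C(LL, AA × K0 LL) := ⟨fun y => (⟨fun r => y.1 (.base r), (LL_sub y.2).1⟩, m y),
    (Continuous.subtype_mk (continuous_pi fun r => by
      exact (continuous_apply (Tr.base r)).comp continuous_subtype_val) _).prodMk m.continuous⟩
  let cu : C(AA × LL, ℝ) →L[ℝ] C(AA, C(LL, ℝ)) :=
    { toFun := ContinuousMap.curry
      map_add' := fun _ _ => rfl
      map_smul' := fun _ _ => rfl
      cont := ContinuousMap.continuous_curry }
  let uc : C(AA, C(K0 LL, ℝ)) →L[ℝ] C(AA × K0 LL, ℝ) :=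
    { toFun := ContinuousMap.uncurry
      map_add' := fun _ _ => rfl
      map_smul' := fun _ _ => rfl
      cont := ContinuousMap.continuous_uncurry }
  refine ⟨(ContinuousMap.compCLM ℝ ℝ β).comp uc,
    (p.compLeftContinuous ℝ AA).comp (cu.comp (ContinuousMap.compCLM ℝ ℝ σ)), fun G => ?_⟩
  ext z x
  refine hp _ x _ fun y hy => ?_
  change G z (m (σ (z, y))) = _
  rw [hm _ x (con_setb _ hy)]

theorem iso : Nonempty (C(K0 LL, ℝ) ≃L[ℝ] C(LL, ℝ)) := by
  obtain ⟨e1⟩ := hotel C(K0 LL, ℝ)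
  obtain ⟨e2⟩ := hotel C(LL, ℝ)
  obtain ⟨f1⟩ := cpl2.absorb e1
  obtain ⟨f2⟩ := ((cpl1.cont AA).trans cpl2).absorb e2
  exact pel cpl1 f2 f1

theorem not_sep : ¬ TopologicalSpace.SeparableSpace (K0 LL) := by
  classical
  intro _
  obtain ⟨y, hy⟩ := LL_nonempty
  have v : ∀ (r : ℝ) (y : Tr → Bool), mom y (.cons (.base r) (.nil 0)) = io y (.base r) :=
    fun r y => by rw [mom, ch_cons, ch_nil, mul_one]
  have := Pairwise.countable_of_isOpen_disjoint
    (s := fun r : ℝ => {x : K0 LL | 1 / 2 < x.1 (.cons (.base r) (.nil 0))})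
    (fun r s hne => Set.disjoint_left.2 fun x h1 h2 => by
      have := K0_two (.cons (.base r) (.nil 0)) (.cons (.base s) (.nil 0)) 1 1 (M := 1)
        (fun y hy => by
          have h3 : y (.base r) = true → y (.base s) = true → r = s := (LL_sub hy).1 r s
          rw [v, v, io, io]
          revert h3
          cases y (.base r) <;> cases y (.base s) <;> simp [hne]) x x.2
      simp only [mem_ofPred_eq] at h1 h2
      linarith)
    (fun r => isOpen_lt continuous_const
      ((continuous_apply _).comp continuous_subtype_val)) fun r =>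
      ⟨⟨_, mom_mem (setb_mem ⟨fun s => decide (s = r), fun a b ha hb => by
        simp only [decide_eq_true_eq] at ha hb
        rw [ha, hb]⟩ ⟨y, hy⟩)⟩, by norm_num [v, io, setb]⟩
  exact not_countable this

noncomputable abbrev EE := lp (fun _ : Tr => ℝ) 2

theorem sq_bound (x : K0 LL) (T : Finset Tr) : ∑ t ∈ T, ‖ww t * x.1 t‖ ^ (2:ℝ) ≤ 4 ^ (2:ℝ) := by
  have h0 : ∀ t, 0 ≤ ww t * x.1 t := fun t => mul_nonneg (ww_pos t).le (K0_mem x.2 t).1
  have h1 : ∑ t ∈ T, ‖ww t * x.1 t‖ ^ (2:ℝ) ≤ ∑ t ∈ T, 4 * (ww t * x.1 t) :=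
    Finset.sum_le_sum fun t _ => by
      have := bound x.2 {t}
      rw [Finset.sum_singleton] at this
      rw [Real.norm_of_nonneg (h0 t), Real.rpow_two]
      nlinarith [h0 t]
  rw [← Finset.mul_sum] at h1
  have := bound x.2 T
  rw [Real.rpow_two]
  linarith

noncomputable def TT (x : K0 LL) : EE :=
  ⟨fun t => ww t * x.1 t, memℓp_gen' (C := 4 ^ (2:ℝ)) fun T => by simpa using sq_bound x T⟩

theorem TT_norm (x : K0 LL) : ‖TT x‖ ≤ 4 :=
  lp.norm_le_of_forall_sum_le (by norm_num) (by norm_num) fun T => by simpa [TT] using sq_bound x T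

theorem TT_cont (φ : StrongDual ℝ EE) : Continuous fun x => φ (TT x) := by
  obtain ⟨h, rfl⟩ := (InnerProductSpace.toDual ℝ EE).surjective φ
  have h1 : Tendsto (fun F : Finset Tr => ∑ t ∈ F, lp.single 2 t (h t)) atTop (𝓝 h) :=
    lp.hasSum_single (by simp) h
  refine TendstoUniformly.continuous (p := atTop)
    (F := fun (F : Finset Tr) x => inner ℝ (∑ t ∈ F, lp.single 2 t (h t) : EE) (TT x))
    (Metric.tendstoUniformly_iff.2 fun ε hε => ?_) (Eventually.frequently (Eventually.of_forall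
      fun F => ?_))
  · filter_upwards [Metric.tendsto_nhds.1 h1 (ε / 5) (by positivity)] with F hF x
    rw [dist_comm, dist_eq_norm] at hF ⊢
    rw [InnerProductSpace.toDual_apply_apply, ← inner_sub_left]
    refine (norm_inner_le_norm _ _).trans_lt ?_
    rw [norm_sub_rev]
    nlinarith [TT_norm x, norm_nonneg (TT x), norm_nonneg (h - ∑ t ∈ F, lp.single 2 t (h t))]
  · simp only [sum_inner, lp.inner_single_left]
    exact continuous_finsetSum _ fun t _ => continuous_const.inner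
      (continuous_const.mul ((continuous_apply t).comp continuous_subtype_val))

theorem final : ∃ K : Set (WeakSpace ℝ EE), Convex ℝ K ∧ IsCompact K ∧ Nonempty (K0 LL ≃ₜ K) := by
  let T : K0 LL → WeakSpace ℝ EE := fun x => toWeakSpace ℝ EE (TT x)
  have h1 : Continuous T := WeakBilin.continuous_of_continuous_eval _ TT_cont
  have h2 : Function.Injective T := fun x y h => Subtype.ext (funext fun t =>
    mul_left_cancel₀ (ww_pos t).ne' (congrArg (fun v : EE => v t)
      ((toWeakSpace ℝ EE).injective h)))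
  refine ⟨range T, ?_, isCompact_range h1,
    ⟨(h1.isClosedEmbedding h2).isEmbedding.toHomeomorph⟩⟩
  rintro _ ⟨x, rfl⟩ _ ⟨y, rfl⟩ a b ha hb hab
  refine ⟨⟨a • x.1 + b • y.1, (convex_convexHull ℝ _).closure x.2 y.2 ha hb hab⟩, ?_⟩
  simp only [T, ← map_smul, ← map_add]
  congr 1
  ext t
  simp [TT]
  ring

end Pool.Agent.H88.Pel
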