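import Mathlib
import Pool.Agent.H88.Pex2

/-! The lower bound: as `p → 0` extensions become retractions. -/

namespace Pool.Agent.H88.Pex

open Filter Topology
open scoped ENNReal

variable {𝕜 : Type} [RCLike 𝕜] {p : ℝ}

noncomputable def nu (p : ℝ) (v : 𝕜 × 𝕜) : ℝ := (‖v.1 + v.2‖ ^ p + ‖v.1‖ ^ p + ‖v.2‖ ^ p) ^ p⁻¹

lemma nu_pow (hp : 0 < p) (v : 𝕜 × 𝕜) :
    nu p v ^ p = ‖v.1 + v.2‖ ^ p + ‖v.1‖ ^ p + ‖v.2‖ ^ p :=
  Real.rpow_inv_rpow (by positivity) hp.ne'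

lemma nu_nonneg (v : 𝕜 × 𝕜) : 0 ≤ nu p v := by unfold nu; positivity

lemma nu_ge (hp : 0 < p) {v : 𝕜 × 𝕜} {k s : ℝ} (hk : 0 ≤ k) (hs : 0 ≤ s)
    (h : k * s ^ p ≤ ‖v.1 + v.2‖ ^ p + ‖v.1‖ ^ p + ‖v.2‖ ^ p) : k ^ p⁻¹ * s ≤ nu p v := by
  have := Real.rpow_le_rpow (by positivity) h (inv_nonneg.2 hp.le)
  rwa [Real.mul_rpow hk (by positivity), Real.rpow_rpow_inv hs hp.ne'] at this

lemma nu_banach (hp : 0 < p) (hp1 : p ≤ 1) : IsPBanach 𝕜 p (nu (𝕜 := 𝕜) p) := by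
  have sub : ∀ a b : 𝕜, ‖a + b‖ ^ p ≤ ‖a‖ ^ p + ‖b‖ ^ p := fun a b =>
    (Real.rpow_le_rpow (norm_nonneg _) (norm_add_le a b) hp.le).trans
      (Real.rpow_add_le_add_rpow (norm_nonneg _) (norm_nonneg _) hp.le hp1)
  have pos : ∀ a : 𝕜, 0 ≤ ‖a‖ ^ p := fun a => by positivity
  refine ⟨nu_nonneg, fun v hv => ?_, fun a v => ?_, fun v w => ?_, fun u hu => ?_⟩
  · refine Real.rpow_pos_of_pos ?_ _
    by_cases h1 : v.1 = 0
    · have h2 : v.2 ≠ 0 := fun h2 => hv (Prod.ext h1 h2)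
      have := Real.rpow_pos_of_pos (norm_pos_iff.2 h2) p
      linarith [pos (v.1 + v.2), pos v.1]
    · have := Real.rpow_pos_of_pos (norm_pos_iff.2 h1) p
      linarith [pos (v.1 + v.2), pos v.2]
  · simp only [nu, Prod.smul_fst, Prod.smul_snd, ← smul_add, norm_smul]
    rw [Real.mul_rpow (norm_nonneg _) (norm_nonneg _), Real.mul_rpow (norm_nonneg _)
      (norm_nonneg _), Real.mul_rpow (norm_nonneg _) (norm_nonneg _), ← mul_add, ← mul_add,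
      Real.mul_rpow (pos _) (by positivity), Real.rpow_rpow_inv (norm_nonneg _) hp.ne']
  · rw [nu_pow hp, nu_pow hp, nu_pow hp, Prod.fst_add, Prod.snd_add, add_add_add_comm]
    linarith [sub (v.1 + v.2) (w.1 + w.2), sub v.1 w.1, sub v.2 w.2]
  · have hc : CauchySeq u := by
      refine Metric.cauchySeq_iff.2 fun ε hε => ?_
      obtain ⟨K, hK⟩ := hu (ε ^ p) (Real.rpow_pos_of_pos hε _)
      refine ⟨K, fun i hi j hj => ?_⟩
      have := hK i hi j hj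
      rw [nu_pow hp] at this
      rw [dist_eq_norm, Prod.norm_def, max_lt_iff]
      constructor
      · rw [← Real.rpow_lt_rpow_iff (norm_nonneg _) hε.le hp]
        linarith [pos ((u i - u j).1 + (u i - u j).2), pos (u i - u j).2]
      · rw [← Real.rpow_lt_rpow_iff (norm_nonneg _) hε.le hp]
        linarith [pos ((u i - u j).1 + (u i - u j).2), pos (u i - u j).1]
    obtain ⟨z, hz⟩ := cauchySeq_tendsto_of_complete hc
    refine ⟨z, ?_⟩
    have hco : Continuous fun v : 𝕜 × 𝕜 => ‖v.1 + v.2‖ ^ p + ‖v.1‖ ^ p + ‖v.2‖ ^ p := by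
      have := Real.continuous_rpow_const hp.le
      fun_prop
    have := (hco.tendsto 0).comp (tendsto_sub_nhds_zero_iff.2 hz)
    simp only [Prod.fst_zero, Prod.snd_zero, add_zero, norm_zero, Real.zero_rpow hp.ne'] at this
    simp only [nu_pow hp]
    exact this

lemma small (hp : 0 < p) {v : 𝕜 × 𝕜} {τ : ℝ} (hτ : 0 ≤ τ) (h : nu p v < 3 ^ p⁻¹ * τ) :
    ‖v.1 + v.2‖ < τ ∨ ‖v.1‖ < τ ∨ ‖v.2‖ < τ := by
  by_contra hc
  push Not at hc
  refine not_le.2 h (nu_ge hp (by norm_num) hτ ?_)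
  linarith [Real.rpow_le_rpow hτ hc.1 hp.le, Real.rpow_le_rpow hτ hc.2.1 hp.le,
    Real.rpow_le_rpow hτ hc.2.2 hp.le]

lemma tri3 {a b : 𝕜} {τ : ℝ} (hτ : τ ≤ 1 / 3)
    (h0 : ‖a + b‖ < τ ∨ ‖a‖ < τ ∨ ‖b‖ < τ)
    (h1 : ‖a - 1 + b‖ < τ ∨ ‖a - 1‖ < τ ∨ ‖b‖ < τ)
    (h2 : ‖a + (b - 1)‖ < τ ∨ ‖a‖ < τ ∨ ‖b - 1‖ < τ) :
    (‖a‖ < τ ∧ ‖b‖ < τ) ∨ (‖a - 1 + b‖ < τ ∧ (‖a‖ < τ ∨ ‖b‖ < τ)) := by
  have e : a + (b - 1) = a - 1 + b := by ring
  rw [e] at h2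
  have n1 : 1 ≤ ‖a‖ + ‖a - 1‖ := by simpa using norm_sub_le a (a - 1)
  have n2 : 1 ≤ ‖b‖ + ‖b - 1‖ := by simpa using norm_sub_le b (b - 1)
  have n3 : 1 ≤ ‖a + b‖ + ‖a - 1 + b‖ := by
    have := norm_sub_le (a + b) (a - 1 + b)
    rwa [show a + b - (a - 1 + b) = 1 by ring, norm_one] at this
  have n4 : 2 ≤ ‖a + b‖ + ‖a - 1‖ + ‖b - 1‖ := by
    have := (norm_sub_le (a + b - (a - 1)) (b - 1)).trans
      (add_le_add_left (norm_sub_le (a + b) (a - 1)) _)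
    rwa [show a + b - (a - 1) - (b - 1) = 2 by ring, RCLike.norm_two] at this
  have := norm_nonneg a
  rcases h0 with h0 | h0 | h0 <;> rcases h1 with h1 | h1 | h1 <;> rcases h2 with h2 | h2 | h2 <;>
    first
      | exact Or.inl ⟨by assumption, by assumption⟩
      | exact Or.inr ⟨by assumption, Or.inl (by assumption)⟩
      | exact Or.inr ⟨by assumption, Or.inr (by assumption)⟩
      | (exfalso; linarith)

lemma jump (hp : 0 < p) {a b a' b' : 𝕜} {τ : ℝ} (hτ : τ ≤ 1 / 3) (ha : ‖a‖ < τ) (hb : ‖b‖ < τ)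
    (h1 : ‖a' - 1 + b'‖ < τ) (h2 : ‖a'‖ < τ ∨ ‖b'‖ < τ) :
    2 ^ p⁻¹ * (1 - 3 * τ) ≤ nu p ((a', b') - (a, b)) := by
  have hs : 0 ≤ 1 - 3 * τ := by linarith
  have key : ∀ x y z w : 𝕜, x = 1 + y + z + w → ‖y‖ < τ → ‖z‖ < τ → ‖w‖ < τ →
      (1 - 3 * τ) ^ p ≤ ‖x‖ ^ p := by
    intro x y z w e hy hz hw
    refine Real.rpow_le_rpow hs ?_ hp.le
    have := (norm_sub_le (x - y - z) w).trans (add_le_add_left ((norm_sub_le (x - y) z).trans
      (add_le_add_left (norm_sub_le x y) _)) _)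
    rw [show x - y - z - w = 1 by rw [e]; ring, norm_one] at this
    linarith
  refine nu_ge hp zero_le_two hs ?_
  simp only [Prod.mk_sub_mk]
  have k1 := key (a' - a + (b' - b)) (a' - 1 + b') (-a) (-b) (by ring) h1 (by rwa [norm_neg])
    (by rwa [norm_neg])
  rcases h2 with h2 | h2
  · have k2 := key (b' - b) (a' - 1 + b') (-a') (-b) (by ring) h1 (by rwa [norm_neg])
      (by rwa [norm_neg])
    have : 0 ≤ ‖a' - a‖ ^ p := by positivity
    linarith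
  · have k2 := key (a' - a) (a' - 1 + b') (-a) (-b') (by ring) h1 (by rwa [norm_neg])
      (by rwa [norm_neg])
    have : 0 ≤ ‖b' - b‖ ^ p := by positivity
    linarith

abbrev N3 : Type := {x : ℝ // x = 0 ∨ x = 1 ∨ x = 3}

abbrev MM (m : ℕ) : Type := {x : ℝ // x = 3 ∨ ∃ k : ℕ, k ≤ m + 1 ∧ x = k / (m + 1)}

def io (m : ℕ) (x : N3) : MM m := ⟨x.1, by
  rcases x.2 with h | h | h
  · exact Or.inr ⟨0, by simp, by simp [h]⟩
  · exact Or.inr ⟨m + 1, le_rfl, by rw [h]; push_cast; field_simp⟩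
  · exact Or.inl h⟩

lemma io_iso (m : ℕ) : Isometry (io m) := Isometry.of_dist_eq fun _ _ => rfl

def n0 : N3 := ⟨0, Or.inl rfl⟩
def n1 : N3 := ⟨1, Or.inr (Or.inl rfl)⟩
def n3 : N3 := ⟨3, Or.inr (Or.inr rfl)⟩

lemma N3_cases (x : N3) : x = n0 ∨ x = n1 ∨ x = n3 := by
  rcases x with ⟨x, h | h | h⟩ <;> subst h <;> simp [n0, n1, n3]

noncomputable def ff (x : N3) : 𝕜 × 𝕜 :=
  if x.1 = 0 then (0, 0) else if x.1 = 1 then (1, 0) else (0, 1)

lemma ff0 : ff (𝕜 := 𝕜) n0 = (0, 0) := by simp [ff, n0]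
lemma ff1 : ff (𝕜 := 𝕜) n1 = (1, 0) := by simp [ff, n1]
lemma ff3 : ff (𝕜 := 𝕜) n3 = (0, 1) := by simp [ff, n3]

lemma ff_lip (hp : 0 < p) (x y : N3) : nu p (ff (𝕜 := 𝕜) x - ff y) ≤ 2 ^ p⁻¹ * dist x y := by
  have h2 : (0 : ℝ) < 2 ^ p⁻¹ := by positivity
  have e : (1 + 1 : ℝ) = 2 := by norm_num
  rcases N3_cases x with rfl | rfl | rfl <;> rcases N3_cases y with rfl | rfl | rfl <;>
    simp only [ff0, ff1, ff3, Subtype.dist_eq, Real.dist_eq] <;>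
    simp [nu, n0, n1, n3, hp.ne', e] <;> norm_num <;> linarith

theorem lower (m : ℕ) {τ : ℝ} (hτ0 : 0 < τ) (hτ : τ ≤ 1 / 3) :
    ∀ᶠ p in 𝓝[>] (0 : ℝ), ENNReal.ofReal ((1 - 3 * τ) * (m + 1)) ≤ tr 𝕜 p (io m) := by
  have h1 : Tendsto (fun p : ℝ => (3 / 2 : ℝ) ^ p⁻¹) (𝓝[>] 0) atTop :=
    (tendsto_rpow_atTop_of_base_gt_one _ (by norm_num)).comp tendsto_inv_nhdsGT_zero
  filter_upwards [h1.eventually_gt_atTop (3 * (m + 1) / τ), Ioo_mem_nhdsGT zero_lt_one]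
    with p hbig hp
  refine le_sInf fun C hC => ?_
  by_contra hlt
  push Not at hlt
  have hCt : C ≠ ⊤ := hlt.ne_top
  set c := C.toReal with hc
  have hc0 : 0 ≤ c := ENNReal.toReal_nonneg
  have hm : (0 : ℝ) < m + 1 := by positivity
  have hc1 : c < (1 - 3 * τ) * (m + 1) := by
    rw [← ENNReal.ofReal_toReal hCt] at hlt
    exact (ENNReal.ofReal_lt_ofReal_iff_of_nonneg hc0).1 hlt
  have hB := nu_banach (𝕜 := 𝕜) hp.1 hp.2.le
  have hl := lip_le (ff_lip (𝕜 := 𝕜) hp.1)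
  obtain ⟨g, g1, g2⟩ := hC.2 _ _ hB ff (hl.trans_lt ENNReal.ofReal_lt_top)
  have h2 : (0 : ℝ) < 2 ^ p⁻¹ := by positivity
  have g3 := le_of_lip hB.zero (c := c * 2 ^ p⁻¹) (by positivity) (g2.trans (by
    rw [ENNReal.ofReal_mul hc0, ENNReal.ofReal_toReal hCt]
    gcongr))
  let x : ℕ → MM m := fun k => ⟨min k (m + 1) / (m + 1), Or.inr ⟨min k (m + 1), min_le_right _ _,
    rfl⟩⟩
  have hx : ∀ k, 0 ≤ (x k).1 ∧ (x k).1 ≤ 1 := fun k => ⟨by simp only [x]; positivity, by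
    simp only [x]
    rw [div_le_one hm]
    exact_mod_cast min_le_right _ _⟩
  have hs : ∀ k (a : N3), nu p (g (x k) - ff a) < 3 ^ p⁻¹ * τ := by
    intro k a
    rw [← g1]
    refine (g3 _ _).trans_lt ?_
    have d : dist (x k) (io m a) ≤ 3 := by
      rw [Subtype.dist_eq, Real.dist_eq, abs_le]
      have : (io m a).1 = a.1 := rfl
      rcases a.2 with h | h | h <;> rw [this, h] <;> constructor <;> linarith [(hx k).1, (hx k).2]
    have e : (3 : ℝ) ^ p⁻¹ = (3 / 2) ^ p⁻¹ * 2 ^ p⁻¹ := by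
      rw [← Real.mul_rpow (by norm_num) (by norm_num)]; norm_num
    rw [div_lt_iff₀ hτ0] at hbig
    have c2 : c ≤ m + 1 := by nlinarith
    calc c * 2 ^ p⁻¹ * dist (x k) (io m a) ≤ (m + 1) * 2 ^ p⁻¹ * 3 := by gcongr
      _ < _ := by rw [e]; nlinarith
  have hP : ∀ k, ‖(g (x k)).1‖ < τ ∧ ‖(g (x k)).2‖ < τ := by
    intro k
    induction k with
    | zero =>
      have : x 0 = io m n0 := Subtype.ext (by simp [x, io, n0])
      rw [this, g1, ff0]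
      simpa using hτ0
    | succ k ih =>
      have a0 := small hp.1 hτ0.le (hs (k + 1) n0)
      have a1 := small hp.1 hτ0.le (hs (k + 1) n1)
      have a3 := small hp.1 hτ0.le (hs (k + 1) n3)
      simp only [ff0, ff1, ff3, Prod.fst_sub, Prod.snd_sub, sub_zero] at a0 a1 a3
      refine (tri3 hτ a0 a1 a3).resolve_right fun h => ?_
      have b1 := (jump hp.1 hτ ih.1 ih.2 h.1 h.2).trans (g3 (x (k + 1)) (x k))
      have b2 : dist (x (k + 1)) (x k) ≤ 1 / (m + 1) := by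
        rw [Subtype.dist_eq, Real.dist_eq]
        simp only [x]
        rw [← sub_div, abs_div, abs_of_pos hm]
        gcongr
        rw [abs_le]
        have c1 : min k (m + 1) ≤ min (k + 1) (m + 1) := by omega
        have c2 : min (k + 1) (m + 1) ≤ min k (m + 1) + 1 := by omega
        have c3 : ((min k (m + 1) : ℕ) : ℝ) ≤ (min (k + 1) (m + 1) : ℕ) := by exact_mod_cast c1
        have c4 : ((min (k + 1) (m + 1) : ℕ) : ℝ) ≤ (min k (m + 1) : ℕ) + 1 := by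
          exact_mod_cast c2
        constructor <;> linarith
      have b3 := b1.trans (mul_le_mul_of_nonneg_left b2 (by positivity))
      rw [mul_one_div, le_div_iff₀ hm] at b3
      nlinarith
  have : x (m + 1) = io m n1 := Subtype.ext (by simp [x, io, n1, hm.ne'])
  have h3 := (hP (m + 1)).1
  rw [this, g1, ff1, norm_one] at h3
  linarith

end Pool.Agent.H88.Pex
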