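import Mathlib
import Pool.Agent.H88.Pex3

/-! The three-point space `{0, 1, 3}` and the final statements. -/

namespace Pool.Agent.H88.Pex

open Filter Topology
open scoped ENNReal

variable {𝕜 : Type} [RCLike 𝕜]

instance : Nonempty N3 := ⟨n0⟩

lemma card_N3 {n : ℕ} (hn : 3 ≤ n) : ENat.card N3 ≤ n := by
  have s : Function.Surjective ![n0, n1, n3] := fun x => by
    rcases N3_cases x with rfl | rfl | rfl
    exacts [⟨0, rfl⟩, ⟨1, rfl⟩, ⟨2, rfl⟩]
  have h : ENat.card N3 ≤ ENat.card (Fin 3) :=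
    ENat.card_le_card_of_injective (Function.injective_surjInv s)
  refine h.trans ?_
  simpa using hn

lemma card_io (m : ℕ) : (Set.range (io m))ᶜ.encard ≤ m := by
  let y : Fin m → MM m := fun k => ⟨(k + 1 : ℕ) / (m + 1), Or.inr ⟨k + 1, by omega, rfl⟩⟩
  have h : (Set.range (io m))ᶜ ⊆ y '' Set.univ := by
    rintro ⟨x, h | ⟨k, hk, h⟩⟩ hx
    · exact absurd ⟨n3, Subtype.ext h.symm⟩ hx
    · have hm : (m + 1 : ℝ) ≠ 0 := by positivity
      have k0 : k ≠ 0 := by
        rintro rfl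
        exact hx ⟨n0, Subtype.ext (by simp [io, n0, h])⟩
      have k1 : k ≠ m + 1 := by
        rintro rfl
        exact hx ⟨n1, Subtype.ext (by simp [io, n1, h, hm])⟩
      refine ⟨⟨k - 1, by omega⟩, trivial, Subtype.ext ?_⟩
      simp only [y, h]
      rw [show k - 1 + 1 = k by omega]
  refine (Set.encard_le_encard h).trans ((Set.encard_image_le _ _).trans ?_)
  simp

lemma doubling_N3 {n : ℕ} (hn : 2 ≤ n) : Doubling N3 n := by
  classical
  intro x r hr
  have d1 : dist n1 n0 = 1 := by simp [Subtype.dist_eq, n0, n1]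
  by_cases h1 : 1 ≤ r
  · refine ⟨{n0, n3}, Finset.card_le_two.trans hn, fun y _ => ?_⟩
    rcases N3_cases y with rfl | rfl | rfl <;> simp [hr.le, d1, h1]
  · by_cases h3 : x = n3
    · refine ⟨{n3}, by simp; omega, fun y hy => ?_⟩
      rw [h3, Metric.mem_closedBall, Subtype.dist_eq, Real.dist_eq, abs_le] at hy
      rcases N3_cases y with rfl | rfl | rfl
      · simp only [n0, n3] at hy
        linarith [hy.1]
      · simp only [n1, n3] at hy
        linarith [hy.1]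
      · simp [hr.le]
    · refine ⟨{n0, n1}, Finset.card_le_two.trans hn, fun y hy => ?_⟩
      rw [Metric.mem_closedBall, Subtype.dist_eq, Real.dist_eq, abs_le] at hy
      rcases N3_cases y with rfl | rfl | rfl
      · simp [hr.le]
      · simp [hr.le]
      · rcases N3_cases x with rfl | rfl | rfl
        · simp only [n0, n3] at hy
          linarith [hy.2]
        · simp only [n1, n3] at hy
          linarith [hy.2]
        · exact absurd rfl h3

lemma ae_one : ae 𝕜 1 N3 ≤ ENNReal.ofReal 4 := by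
  refine iSup_le fun M => iSup_le fun _ => iSup_le fun ι => iSup_le fun hι => ?_
  refine tr_le_of (by norm_num) fun Z _ _ ν hν f L hL hf => ?_
  let φ : N3 → M → ℝ := fun a x => max 0 (1 - dist x (ι a))
  have hφ : ∀ a x y, |φ a x - φ a y| ≤ dist x y := fun a x y => by
    refine (abs_max_sub_max_le_max _ _ _ _).trans (max_le (by simp) ?_)
    rw [sub_sub_sub_cancel_left, abs_sub_comm]
    exact abs_dist_sub_le _ _ _
  have d1 : dist n1 n0 = 1 := by simp [Subtype.dist_eq, n0, n1]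
  have d3 : dist n3 n0 = 3 := by simp [Subtype.dist_eq, n0, n3]
  have d2 : dist n3 n1 = 2 := by norm_num [Subtype.dist_eq, n1, n3, Real.dist_eq]
  refine ⟨fun x => f n0 + (φ n1 x : 𝕜) • (f n1 - f n0) + (φ n3 x : 𝕜) • (f n3 - f n0),
    fun x => ?_, fun x y => ?_⟩
  · rcases N3_cases x with rfl | rfl | rfl <;>
      norm_num [φ, hι.dist_eq, d1, d2, d3, dist_comm n0, dist_comm n1 n3]
  · have e : f n0 + (φ n1 x : 𝕜) • (f n1 - f n0) + (φ n3 x : 𝕜) • (f n3 - f n0) -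
        (f n0 + (φ n1 y : 𝕜) • (f n1 - f n0) + (φ n3 y : 𝕜) • (f n3 - f n0)) =
        ((φ n1 x - φ n1 y : ℝ) : 𝕜) • (f n1 - f n0) +
          ((φ n3 x - φ n3 y : ℝ) : 𝕜) • (f n3 - f n0) := by
      push_cast
      module
    have t := hν.tri (((φ n1 x - φ n1 y : ℝ) : 𝕜) • (f n1 - f n0))
      (((φ n3 x - φ n3 y : ℝ) : 𝕜) • (f n3 - f n0))
    simp only [Real.rpow_one, hν.smul, RCLike.norm_ofReal] at t
    simp only [e]
    refine t.trans ?_
    have a1 := mul_le_mul (hφ n1 x y) (hf n1 n0) (hν.nonneg _) dist_nonneg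
    have a3 := mul_le_mul (hφ n3 x y) (hf n3 n0) (hν.nonneg _) dist_nonneg
    rw [d1] at a1
    rw [d3] at a3
    linarith

lemma tr_le_ae {p : ℝ} (m : ℕ) : tr 𝕜 p (io m) ≤ ae 𝕜 p N3 :=
  le_iSup₂_of_le (f := fun (M : Type) (_ : MetricSpace M) => ⨆ (ι : N3 → M) (_ : Isometry ι),
    tr 𝕜 p ι) (MM m) inferInstance
    (le_iSup₂_of_le (f := fun (ι : N3 → MM m) (_ : Isometry ι) => tr 𝕜 p ι) _ (io_iso m) le_rfl)

theorem ae_top : Tendsto (fun p => ae 𝕜 p N3) (𝓝[>] 0) (𝓝 ⊤) := by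
  refine ENNReal.tendsto_nhds_top fun k => ?_
  filter_upwards [lower (𝕜 := 𝕜) (2 * k) (τ := 1 / 6) (by norm_num) (by norm_num)] with p hp
  refine lt_of_lt_of_le ?_ (hp.trans (tr_le_ae _))
  rw [← ENNReal.ofReal_natCast, ENNReal.ofReal_lt_ofReal_iff (by positivity)]
  push_cast
  linarith

theorem aeN_top {n : ℕ} (hn : 3 ≤ n) : Tendsto (fun p => aeN p n) (𝓝[>] 0) (𝓝 ⊤) :=
  tendsto_nhds_top_mono' (ae_top (𝕜 := ℝ)) fun p =>
    le_iSup₂_of_le (f := fun (N : Type) (_ : MetricSpace N) => ⨆ (_ : Nonempty N)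
      (_ : ENat.card N ≤ n), ae ℝ p N) N3 inferInstance
      (le_iSup₂_of_le (f := fun (_ : Nonempty N3) (_ : ENat.card N3 ≤ n) => ae ℝ p N3)
        inferInstance (card_N3 hn) le_rfl)

lemma lim_io (m : ℕ) : (m + 1 : ℝ≥0∞) ≤ lim0 fun p => tr ℝ p (io m) := by
  have h : Tendsto (fun τ : ℝ => ENNReal.ofReal ((1 - 3 * τ) * (m + 1))) (𝓝[>] 0)
      (𝓝 (ENNReal.ofReal ((1 - 3 * 0) * (m + 1)))) :=
    ((ENNReal.continuous_ofReal.comp (by fun_prop)).tendsto 0).mono_left nhdsWithin_le_nhds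
  rw [mul_zero, sub_zero, one_mul, ENNReal.ofReal_add (by positivity) zero_le_one,
    ENNReal.ofReal_natCast, ENNReal.ofReal_one] at h
  refine le_of_tendsto h ?_
  filter_upwards [Ioo_mem_nhdsGT (show (0 : ℝ) < 1 / 3 by norm_num)] with τ hτ
  exact ge_of_tendsto (tr_tendsto _) (lower m hτ.1 hτ.2.le)

theorem SS_eq {n : ℕ} (hn : 3 ≤ n) (m : ℕ) : SS n m = m + 1 := by
  refine le_antisymm ?_ ?_
  · simp only [SS, iSup_le_iff]
    intro N M _ _ ι hι _ h1 h2
    exact le_of_tendsto' (tr_tendsto ι) fun p => tr_le_basso hι h1 h2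
  · refine (lim_io m).trans ?_
    rw [SS]
    refine le_iSup_of_le N3 (le_iSup_of_le (MM m) (le_iSup_of_le inferInstance
      (le_iSup_of_le inferInstance (le_iSup_of_le (io m) (le_iSup_of_le (io_iso m)
      (le_iSup_of_le inferInstance (le_iSup_of_le (card_N3 hn) ?_)))))))
    exact le_iSup (fun _ : (Set.range (io m))ᶜ.encard ≤ m => lim0 fun p => tr ℝ p (io m))
      (card_io m)

theorem q_top : Tendsto (fun p => ae 𝕜 p N3 / ae 𝕜 1 N3) (𝓝[>] 0) (𝓝 ⊤) := by
  have := ENNReal.Tendsto.div_const (b := ae 𝕜 1 N3) (ae_top (𝕜 := 𝕜)) (Or.inl ENNReal.top_ne_zero)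
  rwa [ENNReal.top_div_of_ne_top (ae_one.trans_lt ENNReal.ofReal_lt_top).ne] at this

theorem supQ_top {n : ℕ} (hn : 2 ≤ n) : supQ 𝕜 n = ⊤ := by
  refine top_le_iff.1 ?_
  rw [supQ]
  refine le_iSup_of_le N3 (le_iSup_of_le inferInstance (le_iSup_of_le (doubling_N3 hn) ?_))
  refine le_trans ?_ (le_iSup (fun _ : ae 𝕜 1 N3 < ⊤ => lim0 fun p => ae 𝕜 p N3 / ae 𝕜 1 N3)
    (ae_one.trans_lt ENNReal.ofReal_lt_top))
  exact q_top.limUnder_eq.ge

end Pool.Agent.H88.Pex
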