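import Mathlib

set_option autoImplicit false

namespace Pool.Agent.H88.Polya

open MeasureTheory Metric Set Module Pointwise

variable {E : Type*} [NormedAddCommGroup E] [NormedSpace ℝ E] [FiniteDimensional ℝ E]
  [MeasurableSpace E] [BorelSpace E] (μ : Measure E) [μ.IsAddHaarMeasure]

theorem young {g a p : ℝ} (hg : 0 ≤ g) (ha : 0 < a) (hp : 1 ≤ p) : g ≤ a + a ^ (1 - p) * g ^ p := by
  rcases le_or_gt g a with h | h
  · have : 0 ≤ a ^ (1 - p) * g ^ p := by positivity
    linarith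
  · have hg0 := ha.trans h
    have h1 : g ^ (1 - p) ≤ a ^ (1 - p) := Real.rpow_le_rpow_of_nonpos ha h.le (by linarith)
    have h2 : g ^ (1 - p) * g ^ p = g := by rw [← Real.rpow_add hg0]; simp
    have h3 := mul_le_mul_of_nonneg_right h1 (Real.rpow_nonneg hg p)
    linarith

theorem morrey {p : ℝ} (hp1 : 1 ≤ p) (hp : (finrank ℝ E : ℝ) < p) {f : E → ℝ} (hf : ContDiff ℝ 1 f)
    (x z : E) {r R A e : ℝ} (hr : 0 < r) (hA : 0 < A) (hU : closedBall z r ⊆ closedBall x R)
    (he : ∫ y in closedBall x R, ‖fderiv ℝ f y‖ ^ p ∂μ ≤ e) :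
    ∫ y in closedBall (0:E) r, |f (z + y) - f z| ∂μ ≤ r * (1 / (1 - finrank ℝ E / p)) *
      (A * (r ^ finrank ℝ E * μ.real (closedBall (0:E) 1)) + A ^ (1 - p) * e) := by
  have hp0 : 0 < p := by linarith
  have hD : Continuous (fun y => ‖fderiv ℝ f y‖) := (hf.continuous_fderiv one_ne_zero).norm
  have hDp : Continuous (fun y => ‖fderiv ℝ f y‖ ^ p) := hD.rpow_const (fun _ => Or.inr hp0.le)
  have hH : Continuous (fun q : E × ℝ => ‖fderiv ℝ f (z + q.2 • q.1)‖) := hD.comp (by fun_prop)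
  have hi : Integrable (Function.uncurry fun (y : E) (t : ℝ) => ‖fderiv ℝ f (z + t • y)‖)
      ((μ.restrict (closedBall 0 r)).prod (volume.restrict (Ioc 0 1))) := by
    rw [Measure.prod_restrict]
    exact (hH.continuousOn.integrableOn_compact ((isCompact_closedBall 0 r).prod
      (isCompact_Icc (a := (0:ℝ)) (b := 1)))).mono_set (prod_mono le_rfl Ioc_subset_Icc_self)
  have h1 : ∀ y ∈ closedBall (0:E) r,
      |f (z + y) - f z| ≤ r * ∫ t in Ioc (0:ℝ) 1, ‖fderiv ℝ f (z + t • y)‖ := by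
    intro y hy
    have hd : ∀ t : ℝ, HasDerivAt (fun t : ℝ => f (z + t • y)) (fderiv ℝ f (z + t • y) y) t := by
      intro t
      have h2 : HasDerivAt (fun t : ℝ => z + t • y) y t := by
        simpa using ((hasDerivAt_id t).smul_const y).const_add z
      exact (hf.differentiable one_ne_zero _).hasFDerivAt.comp_hasDerivAt t h2
    have hc : Continuous (fun t : ℝ => fderiv ℝ f (z + t • y)) :=
      (hf.continuous_fderiv one_ne_zero).comp (by fun_prop)
    have h3 := intervalIntegral.integral_eq_sub_of_hasDerivAt (a := 0) (b := 1) (fun t _ => hd t)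
      ((hc.clm_apply continuous_const).intervalIntegrable 0 1)
    simp only [one_smul, zero_smul, add_zero] at h3
    rw [← h3, ← intervalIntegral.integral_of_le zero_le_one, ← intervalIntegral.integral_const_mul]
    refine intervalIntegral.norm_integral_le_of_norm_le
      (f := fun t : ℝ => fderiv ℝ f (z + t • y) y) zero_le_one
      (Filter.Eventually.of_forall (fun t _ => ?_)) ((hc.norm.const_mul r).intervalIntegrable (μ := volume) 0 1)
    rw [mul_comm]
    exact ContinuousLinearMap.le_opNorm_of_le _ (mem_closedBall_zero_iff.1 hy)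
  have hq : -1 < -(finrank ℝ E / p) := by
    rw [neg_lt_neg_iff, div_lt_one hp0]; exact hp
  have h2 : ∀ t ∈ Ioc (0:ℝ) 1, ∫ y in closedBall (0:E) r, ‖fderiv ℝ f (z + t • y)‖ ∂μ ≤
      (A * (r ^ finrank ℝ E * μ.real (closedBall (0:E) 1)) + A ^ (1 - p) * e) *
        t ^ (-(finrank ℝ E / p)) := by
    intro t ht
    have ht0 := ht.1
    have c1 : Continuous (fun y : E => ‖fderiv ℝ f (z + t • y)‖) := hD.comp (by fun_prop)
    have c2 : Continuous (fun y : E => ‖fderiv ℝ f (z + t • y)‖ ^ p) := hDp.comp (by fun_prop)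
    have i2 := c2.continuousOn.integrableOn_compact (μ := μ) (isCompact_closedBall 0 r)
    have h3 : ∫ y in closedBall (0:E) r, ‖fderiv ℝ f (z + t • y)‖ ^ p ∂μ ≤
        (t ^ finrank ℝ E)⁻¹ * e := by
      have h4 := Measure.setIntegral_comp_smul_of_pos μ (fun y => ‖fderiv ℝ f (z + y)‖ ^ p)
        (closedBall (0:E) r) ht0
      rw [h4, smul_eq_mul]
      refine mul_le_mul_of_nonneg_left (le_trans ?_ he) (by positivity)
      rw [← integral_indicator measurableSet_closedBall, ← integral_add_left_eq_self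
        ((closedBall x R).indicator _) z, ← integral_indicator (by
          rw [smul_closedBall _ _ hr.le]; exact measurableSet_closedBall)]
      refine integral_mono_of_nonneg (Filter.Eventually.of_forall (fun y => ?_))
        (((integrable_indicator_iff measurableSet_closedBall).2
          (hDp.continuousOn.integrableOn_compact (isCompact_closedBall x R))).comp_add_left z)
        (Filter.Eventually.of_forall (fun y => ?_))
      · exact indicator_nonneg (fun _ _ => by positivity) _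
      · by_cases hy : y ∈ t • closedBall (0:E) r
        · have : z + y ∈ closedBall x R := hU (by
            rw [smul_closedBall _ _ hr.le, smul_zero, mem_closedBall_zero_iff,
              Real.norm_of_nonneg ht0.le] at hy
            simpa using hy.trans (mul_le_of_le_one_left hr.le ht.2))
          simp [hy, this]
        · simp only [hy, not_false_eq_true, indicator_of_notMem]
          exact indicator_nonneg (fun _ _ => by positivity) _
    have h5 := setIntegral_mono_on (c1.continuousOn.integrableOn_compact (μ := μ)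
      (isCompact_closedBall 0 r)) ((integrableOn_const (C := A * t ^ (-(finrank ℝ E / p)))
        measure_closedBall_lt_top.ne).add
        (i2.const_mul ((A * t ^ (-(finrank ℝ E / p))) ^ (1 - p)))) measurableSet_closedBall
      (fun y _ => young (norm_nonneg _) (by positivity) hp1)
    refine h5.trans ?_
    simp only [Pi.add_apply]
    rw [integral_add (integrableOn_const (C := A * t ^ (-(finrank ℝ E / p))) (μ := μ)
      (s := closedBall 0 r) measure_closedBall_lt_top.ne) (i2.const_mul _),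
      setIntegral_const, integral_const_mul, Measure.addHaar_real_closedBall' μ _ hr.le, smul_eq_mul]
    have h6 : (A * t ^ (-(finrank ℝ E / p))) ^ (1 - p) * (t ^ finrank ℝ E)⁻¹ =
        A ^ (1 - p) * t ^ (-(finrank ℝ E / p)) := by
      rw [Real.mul_rpow hA.le (by positivity), ← Real.rpow_mul ht0.le, ← Real.rpow_natCast,
        ← Real.rpow_neg ht0.le, mul_assoc, ← Real.rpow_add ht0]
      congr 2; field_simp; ring
    have h7 := mul_le_mul_of_nonneg_left h3
      (show 0 ≤ (A * t ^ (-(finrank ℝ E / p))) ^ (1 - p) by positivity)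
    rw [← mul_assoc, h6] at h7
    linarith
  have c3 : Continuous (fun y => |f (z + y) - f z|) :=
    ((hf.continuous.comp (by fun_prop)).sub continuous_const).abs
  refine (setIntegral_mono_on (c3.continuousOn.integrableOn_compact (isCompact_closedBall 0 r))
    (hi.integral_prod_left.const_mul r) measurableSet_closedBall h1).trans ?_
  rw [integral_const_mul, mul_assoc r]
  refine mul_le_mul_of_nonneg_left ?_ hr.le
  have h8 := integral_integral_swap hi
  simp only [Function.uncurry_apply_pair] at h8 ⊢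
  rw [h8]
  refine (setIntegral_mono_on hi.integral_prod_right (((intervalIntegral.intervalIntegrable_rpow' hq (a := 0)
    (b := 1)).1).const_mul _) measurableSet_Ioc h2).trans_eq ?_
  rw [integral_const_mul, ← intervalIntegral.integral_of_le zero_le_one, integral_rpow (Or.inl hq),
    Real.one_rpow, Real.zero_rpow (by linarith), mul_comm]
  congr 2 <;> ring

theorem loc {p K : ℝ} (hp1 : 1 ≤ p) (hp : (finrank ℝ E : ℝ) < p) (hK : 0 < K) :
    ∃ κ : ℝ, 0 < κ ∧ ∀ (ρ m : ℝ) (f : E → ℝ) (x z : E), 0 < ρ → 0 < m → ContDiff ℝ 1 f →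
      dist z x ≤ ρ → |f z| = m / 4 →
      ∫ y in closedBall x (3 * ρ), ‖fderiv ℝ f y‖ ^ p ∂μ ≤ K * m ^ p * ρ ^ finrank ℝ E / ρ ^ p →
      κ * ρ ^ finrank ℝ E ≤ μ.real ({y | f y ≠ 0 ∧ |f y| ≤ m / 2} ∩ closedBall x (2 * ρ)) := by
  have hp0 : 0 < p := by linarith
  obtain ⟨J, hJ⟩ : ∃ J, J = 1 / (1 - finrank ℝ E / p) := ⟨_, rfl⟩
  have hJ0 : 0 < J := by
    rw [hJ]; exact one_div_pos.2 (sub_pos.2 ((div_lt_one hp0).2 hp))
  obtain ⟨β, hβ⟩ : ∃ β, β = μ.real (closedBall (0:E) 1) := ⟨_, rfl⟩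
  have hβ0 : 0 < β := by
    rw [hβ]
    exact ENNReal.toReal_pos (measure_closedBall_pos μ _ one_pos).ne' measure_closedBall_lt_top.ne
  obtain ⟨δ, d0, d1, d2⟩ : ∃ δ : ℝ, 0 < δ ∧ δ ≤ 1 ∧
      (32 * J) ^ p * δ ^ p * K ≤ β * δ ^ finrank ℝ E := by
    obtain ⟨c, hc⟩ : ∃ c, c = min 1 (β / ((32 * J) ^ p * K)) := ⟨_, rfl⟩
    have c0 : 0 < c := by rw [hc]; positivity
    obtain ⟨δ, hδ⟩ : ∃ δ, δ = c ^ (p - finrank ℝ E)⁻¹ := ⟨_, rfl⟩
    have d0 : 0 < δ := by rw [hδ]; positivity
    have d1 : δ ^ (p - finrank ℝ E) = c := by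
      rw [hδ, Real.rpow_inv_rpow c0.le (sub_pos.2 hp).ne']
    refine ⟨δ, d0, hδ ▸ Real.rpow_le_one c0.le (hc ▸ min_le_left _ _)
      (inv_nonneg.2 (sub_pos.2 hp).le), ?_⟩
    have d2 : δ ^ p = c * δ ^ finrank ℝ E := by
      rw [← d1, ← Real.rpow_natCast, ← Real.rpow_add d0, sub_add_cancel]
    have d3 : c ≤ β / ((32 * J) ^ p * K) := hc ▸ min_le_right _ _
    rw [le_div_iff₀ (by positivity)] at d3
    rw [d2]
    nlinarith [mul_le_mul_of_nonneg_right d3 (show 0 ≤ δ ^ finrank ℝ E by positivity)]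
  refine ⟨β * δ ^ finrank ℝ E / 2, by positivity, fun ρ m f x z hρ hm hf hz hfz he => ?_⟩
  have hr : δ * ρ ≤ ρ := mul_le_of_le_one_left hρ.le d1
  have h1 := morrey μ hp1 hp hf x z (r := δ * ρ) (A := m / (32 * J * δ * ρ)) (by positivity)
    (by positivity) (closedBall_subset_closedBall' (by linarith)) he
  rw [← hJ, ← hβ] at h1
  have h2 : (m / (32 * J * δ * ρ)) ^ (1 - p) * (K * m ^ p * ρ ^ finrank ℝ E / ρ ^ p) =
      m / (32 * J * δ * ρ) * ((32 * J) ^ p * δ ^ p * K * ρ ^ finrank ℝ E) := by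
    rw [Real.rpow_sub (by positivity), Real.rpow_one, Real.div_rpow hm.le (by positivity),
      Real.mul_rpow (by positivity) hρ.le, Real.mul_rpow (by positivity) d0.le]
    field_simp
  rw [h2, mul_pow] at h1
  have h3 : ∫ y in closedBall (0:E) (δ * ρ), |f (z + y) - f z| ∂μ ≤
      m / 16 * (β * δ ^ finrank ℝ E * ρ ^ finrank ℝ E) := by
    refine h1.trans ?_
    have h4 := mul_le_mul_of_nonneg_right d2 (show 0 ≤ ρ ^ finrank ℝ E by positivity)
    rw [← mul_add, ← mul_assoc, show δ * ρ * J * (m / (32 * J * δ * ρ)) = m / 32 by field_simp]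
    nlinarith
  obtain ⟨T, hT⟩ : ∃ T, T = {y | f y ≠ 0 ∧ |f y| ≤ m / 2} ∩ closedBall x (2 * ρ) := ⟨_, rfl⟩
  have mT : MeasurableSet T := by
    rw [hT]
    exact ((isClosed_eq hf.continuous continuous_const).measurableSet.compl.inter
      (isClosed_le hf.continuous.abs continuous_const).measurableSet).inter measurableSet_closedBall
  have fT : μ T < ⊤ := by
    rw [hT]; exact (measure_mono inter_subset_right).trans_lt measure_closedBall_lt_top
  have iT : Integrable (fun y => T.indicator (fun _ => (1:ℝ)) (z + y)) μ :=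
    ((integrable_indicator_iff mT).2 (integrableOn_const fT.ne)).comp_add_left z
  have c3 : Continuous (fun y => |f (z + y) - f z|) :=
    ((hf.continuous.comp (by fun_prop)).sub continuous_const).abs
  have i3 := c3.continuousOn.integrableOn_compact (μ := μ) (isCompact_closedBall 0 (δ * ρ))
  have h5 := setIntegral_mono_on (integrableOn_const (C := (1:ℝ)) measure_closedBall_lt_top.ne)
    (iT.integrableOn.add (i3.const_mul (8 / m))) measurableSet_closedBall (fun y hy => by
      simp only [Pi.add_apply]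
      by_cases h : z + y ∈ T
      · rw [indicator_of_mem h]
        exact le_add_of_nonneg_right (by positivity)
      · rw [indicator_of_notMem h, zero_add, div_mul_eq_mul_div, le_div_iff₀ hm]
        by_contra h6
        refine h ?_
        have h7 := abs_le.1 (abs_abs_sub_abs_le_abs_sub (f (z + y)) (f z))
        rw [hT]
        refine ⟨⟨fun h8 => ?_, by linarith [h7.2]⟩, ?_⟩
        · rw [h8, abs_zero] at h7; rw [h8] at h6; linarith [h7.1]
        · have := dist_triangle (z + y) z x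
          rw [dist_self_add_left] at this
          rw [mem_closedBall]
          linarith [mem_closedBall_zero_iff.1 hy])
  simp only [Pi.add_apply] at h5
  rw [integral_add iT.integrableOn (i3.const_mul _), setIntegral_const, integral_const_mul,
    Measure.addHaar_real_closedBall' μ _ (by positivity), ← hβ, smul_eq_mul, mul_one, mul_pow] at h5
  have h6 : ∫ y in closedBall (0:E) (δ * ρ), T.indicator (fun _ => (1:ℝ)) (z + y) ∂μ ≤ μ.real T := by
    refine (setIntegral_le_integral iT (Filter.Eventually.of_forall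
      (fun y => indicator_nonneg (fun _ _ => zero_le_one) _))).trans_eq ?_
    rw [integral_add_left_eq_self (T.indicator (fun _ => (1:ℝ))) z, integral_indicator mT]
    simp
  have h7 := mul_le_mul_of_nonneg_left h3 (show 0 ≤ 8 / m by positivity)
  rw [← mul_assoc (8 / m), show 8 / m * (m / 16) = 1 / 2 by field_simp; norm_num] at h7
  rw [← hT]
  linarith

theorem conv {g : E → ℝ} (hg : Integrable g μ) {r : ℝ} (hr : 0 ≤ r) :
    Integrable (fun x => ∫ y in closedBall x r, g y ∂μ) μ ∧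
      ∫ x, (∫ y in closedBall x r, g y ∂μ) ∂μ =
        (∫ y, g y ∂μ) * (r ^ finrank ℝ E * μ.real (closedBall (0:E) 1)) := by
  have hχ : Integrable ((closedBall (0:E) r).indicator (fun _ => (1:ℝ))) μ :=
    (integrable_indicator_iff measurableSet_closedBall).2
      (integrableOn_const measure_closedBall_lt_top.ne)
  have e : (fun x => ∫ y in closedBall x r, g y ∂μ) = convolution g
      ((closedBall (0:E) r).indicator (fun _ => (1:ℝ))) (ContinuousLinearMap.mul ℝ ℝ) μ := by
    ext x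
    rw [convolution_def, ← integral_indicator measurableSet_closedBall]
    refine integral_congr_ae (Filter.Eventually.of_forall (fun y => ?_))
    by_cases h : y ∈ closedBall x r
    · have : x - y ∈ closedBall (0:E) r := by
        rw [mem_closedBall_zero_iff, ← dist_eq_norm, dist_comm]; exact h
      simp [h, this]
    · have : x - y ∉ closedBall (0:E) r := by
        rw [mem_closedBall_zero_iff, ← dist_eq_norm, dist_comm]; exact h
      simp [h, this]
  rw [e]
  refine ⟨hg.integrable_convolution _ hχ, ?_⟩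
  rw [integral_convolution _ hg hχ, integral_indicator measurableSet_closedBall, setIntegral_const,
    Measure.addHaar_real_closedBall' μ _ hr]
  simp

theorem bump {p : ℝ} : ∃ Λ : ℝ, 0 ≤ Λ ∧ ∀ (x : E) (ρ : ℝ), 0 < ρ → ∃ φ : E → ℝ,
    ContDiff ℝ (⊤ : ℕ∞) φ ∧ HasCompactSupport φ ∧ tsupport φ ⊆ closedBall x ρ ∧ φ ≠ 0 ∧
      (∫ y, ‖fderiv ℝ φ y‖ ^ p ∂μ) / (∫ y, |φ y| ^ p ∂μ) = Λ / ρ ^ p := by
  let b : ContDiffBump (0:E) := ⟨1 / 2, 1, by norm_num, by norm_num⟩
  refine ⟨(∫ y, ‖fderiv ℝ b y‖ ^ p ∂μ) / (∫ y, |b y| ^ p ∂μ), div_nonneg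
    (integral_nonneg (fun _ => by positivity)) (integral_nonneg (fun _ => by positivity)),
    fun x ρ hρ => ?_⟩
  have hs : tsupport (fun y => b (ρ⁻¹ • (y - x))) ⊆ closedBall x ρ := by
    refine closure_minimal (fun y hy => ?_) isClosed_closedBall
    have h1 : ρ⁻¹ • (y - x) ∈ Function.support b := hy
    rw [b.support_eq, mem_ball_zero_iff, norm_smul, norm_inv, Real.norm_of_nonneg hρ.le,
      inv_mul_lt_iff₀ hρ] at h1
    rw [mem_closedBall, dist_eq_norm]
    simpa [b] using h1.le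
  refine ⟨fun y => b (ρ⁻¹ • (y - x)), b.contDiff.comp (by fun_prop),
    (isCompact_closedBall x ρ).of_isClosed_subset (isClosed_tsupport _) hs, hs, fun h => ?_, ?_⟩
  · have := congrFun h x
    simp [b.one_of_mem_closedBall (mem_closedBall_self b.rIn_pos.le)] at this
  have h1 : ∀ y, ‖fderiv ℝ (fun y => b (ρ⁻¹ • (y - x))) y‖ ^ p =
      (ρ ^ p)⁻¹ * ‖fderiv ℝ b (ρ⁻¹ • (y - x))‖ ^ p := by
    intro y
    have h2 : HasFDerivAt (fun y : E => ρ⁻¹ • (y - x)) (ρ⁻¹ • ContinuousLinearMap.id ℝ E) y :=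
      ((hasFDerivAt_id y).sub_const x).const_smul ρ⁻¹
    have h3 := ((b.contDiff (n := 1)).differentiable one_ne_zero _).hasFDerivAt.comp y h2
    rw [show (fun y => b (ρ⁻¹ • (y - x))) = b ∘ (fun y : E => ρ⁻¹ • (y - x)) from rfl, h3.fderiv,
      ContinuousLinearMap.comp_smul, ContinuousLinearMap.comp_id, norm_smul, norm_inv,
      Real.norm_of_nonneg hρ.le, Real.mul_rpow (by positivity) (norm_nonneg _), Real.inv_rpow hρ.le]
  simp only [h1]
  rw [integral_const_mul, integral_sub_right_eq_self (fun y => ‖fderiv ℝ b (ρ⁻¹ • y)‖ ^ p) x,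
    integral_sub_right_eq_self (fun y => |b (ρ⁻¹ • y)| ^ p) x,
    Measure.integral_comp_inv_smul_of_nonneg μ (fun y => ‖fderiv ℝ b y‖ ^ p) hρ.le,
    Measure.integral_comp_inv_smul_of_nonneg μ (fun y => |b y| ^ p) hρ.le, smul_eq_mul, smul_eq_mul,
    mul_div_assoc, mul_div_mul_left _ _ (by positivity), mul_comm, ← div_eq_mul_inv]

theorem main {p : ℝ} (hp1 : 1 < p) (hp : (finrank ℝ E : ℝ) < p) : ∃ c : ℝ, c < 1 ∧
    ∀ Ω : Set E, IsOpen Ω → Bornology.IsBounded Ω → ∀ ψ : E → ℝ, ContDiff ℝ (⊤ : ℕ∞) ψ →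
      HasCompactSupport ψ → tsupport ψ ⊆ Ω → ψ ≠ 0 → ∀ l : ℝ,
      (∀ φ : E → ℝ, ContDiff ℝ (⊤ : ℕ∞) φ → HasCompactSupport φ → tsupport φ ⊆ Ω → φ ≠ 0 →
        l ≤ (∫ y, ‖fderiv ℝ φ y‖ ^ p ∂μ) / (∫ y, |φ y| ^ p ∂μ)) →
      l * ((∫ x, |ψ x| ∂μ) ^ p / (∫ x, ‖fderiv ℝ ψ x‖ ^ p ∂μ)) ≤ c * (μ.real Ω) ^ (p - 1) := by
  have hp0 : 0 < p := by linarith
  obtain ⟨Λ, hΛ, hb⟩ := bump μ (p := p)
  obtain ⟨β, hβ⟩ : ∃ β, β = μ.real (closedBall (0:E) 1) := ⟨_, rfl⟩
  have hβ0 : 0 < β := by
    rw [hβ]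
    exact ENNReal.toReal_pos (measure_closedBall_pos μ _ one_pos).ne' measure_closedBall_lt_top.ne
  obtain ⟨κ, hκ, hl⟩ := loc μ (K := 4 * (Λ + 1) * (3 ^ finrank ℝ E * β)) hp1.le hp (by positivity)
  obtain ⟨η, hη, hη'⟩ : ∃ η : ℝ, 0 < η ∧ ∀ t ∈ Icc (0:ℝ) (1 / 2), 1 + p * (t - 1) + η ≤ t ^ p := by
    have hc : Continuous (fun t : ℝ => t ^ p - (1 + p * (t - 1))) :=
      (continuous_id.rpow_const (fun _ => Or.inr hp0.le)).sub (by fun_prop)
    obtain ⟨t0, ht0, h⟩ := (isCompact_Icc (a := (0:ℝ)) (b := 1 / 2)).exists_isMinOn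
      ⟨0, by norm_num⟩ hc.continuousOn
    refine ⟨t0 ^ p - (1 + p * (t0 - 1)), ?_, fun t ht => by linarith [isMinOn_iff.1 h t ht]⟩
    have := one_add_mul_self_lt_rpow_one_add (s := t0 - 1) (by linarith [ht0.1])
      (by linarith [ht0.2]) hp1
    rw [add_sub_cancel] at this
    linarith
  obtain ⟨θ, hθ⟩ : ∃ θ, θ = 1 / (2 * (1 + 2 ^ finrank ℝ E * β / κ)) := ⟨_, rfl⟩
  have hθ0 : 0 < θ := by rw [hθ]; positivity
  refine ⟨max (1 / 2) (1 / (1 + η * θ)), max_lt (by norm_num) ((div_lt_one (by positivity)).2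
    (by nlinarith [mul_pos hη hθ0])), fun Ω hΩ hbd ψ h1 h2 h3 h4 l H => ?_⟩
  obtain ⟨c, hc⟩ : ∃ c, c = max (1 / 2) (1 / (1 + η * θ)) := ⟨_, rfl⟩
  have c1 : 1 / 2 ≤ c := hc ▸ le_max_left _ _
  have c2 : 1 ≤ c * (1 + η * θ) := by
    rw [← div_le_iff₀ (by positivity)]; exact hc ▸ le_max_right _ _
  rw [← hc]
  have fΩ : μ Ω < ⊤ := hbd.measure_lt_top
  have hz : ∀ x, x ∉ Ω → ψ x = 0 := fun x hx => image_eq_zero_of_notMem_tsupport (fun h => hx (h3 h))
  have hψ : ContDiff ℝ 1 ψ := h1.of_le (by exact_mod_cast le_top)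
  have a1 : Continuous (fun x => |ψ x|) := h1.continuous.abs
  have i1 : Integrable (fun x => |ψ x|) μ := (h1.continuous.integrable_of_hasCompactSupport h2).abs
  have ip : Integrable (fun x => |ψ x| ^ p) μ :=
    (a1.rpow_const (fun _ => Or.inr hp0.le)).integrable_of_hasCompactSupport
      (h2.comp_left (g := fun t : ℝ => |t| ^ p) (by simp [hp0.ne']))
  have iG : Integrable (fun x => ‖fderiv ℝ ψ x‖ ^ p) μ :=
    ((hψ.continuous_fderiv one_ne_zero).norm.rpow_const
      (fun _ => Or.inr hp0.le)).integrable_of_hasCompactSupport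
      ((h2.fderiv ℝ).comp_left (g := fun t : E →L[ℝ] ℝ => ‖t‖ ^ p) (by simp [hp0.ne']))
  obtain ⟨x0, hx0⟩ := Function.ne_iff.1 h4
  have hI : 0 < ∫ x, |ψ x| ∂μ := a1.integral_pos_of_hasCompactSupport_nonneg_nonzero
    (h2.comp_left (g := fun t : ℝ => |t|) abs_zero) (fun _ => abs_nonneg _) (x := x0) (by simpa using hx0)
  have hIp : 0 < ∫ x, |ψ x| ^ p ∂μ :=
    (a1.rpow_const (fun _ => Or.inr hp0.le)).integral_pos_of_hasCompactSupport_nonneg_nonzero
      (h2.comp_left (g := fun t : ℝ => |t| ^ p) (by simp [hp0.ne'])) (fun _ => by positivity) (x := x0)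
      (Real.rpow_pos_of_pos (abs_pos.2 hx0) p).ne'
  have hV : 0 < μ.real Ω := ENNReal.toReal_pos
    (hΩ.measure_pos μ ⟨x0, by by_contra h; exact hx0 (hz x0 h)⟩).ne' fΩ.ne
  obtain ⟨G, hG⟩ : ∃ G, G = ∫ x, ‖fderiv ℝ ψ x‖ ^ p ∂μ := ⟨_, rfl⟩
  have hG0 : 0 ≤ G := hG ▸ integral_nonneg (fun _ => by positivity)
  have hl1 := H ψ h1 h2 h3 h4
  rw [← hG, le_div_iff₀ hIp] at hl1
  rw [← hG]
  by_contra hcon
  have hpos : 0 < l * ((∫ x, |ψ x| ∂μ) ^ p / G) := lt_of_le_of_lt (by positivity) (not_le.1 hcon)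
  have hl0 : 0 < l := pos_of_mul_pos_left hpos (by positivity)
  have hG1 : 0 < G := hG0.lt_of_ne' (fun h => by simp [h] at hpos)
  obtain ⟨m, hm⟩ : ∃ m, m = (∫ x, |ψ x| ∂μ) / μ.real Ω := ⟨_, rfl⟩
  have hm0 : 0 < m := by rw [hm]; positivity
  have hmI : ∫ x, |ψ x| ∂μ = m * μ.real Ω := by rw [hm]; field_simp
  have key : c * G < l * (m ^ p * μ.real Ω) := by
    rw [not_le, hmI, Real.mul_rpow hm0.le hV.le, Real.rpow_sub_one hV.ne', ← mul_div_assoc,
      ← mul_div_assoc, div_lt_div_iff₀ hV hG1] at hcon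
    have := Real.rpow_pos_of_pos hV p
    refine lt_of_mul_lt_mul_right (a := μ.real Ω ^ p) ?_ this.le
    linarith
  obtain ⟨ρ, hρ, hρl⟩ : ∃ ρ : ℝ, 0 < ρ ∧ l = (Λ + 1) / ρ ^ p := by
    refine ⟨((Λ + 1) / l) ^ p⁻¹, by positivity, ?_⟩
    rw [Real.rpow_inv_rpow (by positivity) hp0.ne']; field_simp
  have hout : ∀ x, ∃ y ∈ closedBall x ρ, ψ y = 0 := by
    intro x
    by_contra h
    push Not at h
    obtain ⟨φ, b1, b2, b3, b4, b5⟩ := hb x ρ hρ
    have := H φ b1 b2 (b3.trans (fun y hy => by by_contra h5; exact h y hy (hz y h5))) b4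
    rw [b5, hρl, div_le_div_iff_of_pos_right (by positivity)] at this
    linarith
  obtain ⟨S, hS⟩ : ∃ S, S = Ω ∩ {y | |ψ y| ≤ m / 2} := ⟨_, rfl⟩
  have mS : MeasurableSet S := hS ▸ hΩ.measurableSet.inter
    (isClosed_le a1 continuous_const).measurableSet
  have fS : μ S < ⊤ := by rw [hS]; exact (measure_mono inter_subset_left).trans_lt fΩ
  have iS : Integrable (S.indicator (fun _ => (1:ℝ))) μ :=
    (integrable_indicator_iff mS).2 (integrableOn_const fS.ne)
  have iΩ : Integrable (Ω.indicator (fun _ => (1:ℝ))) μ :=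
    (integrable_indicator_iff hΩ.measurableSet).2 (integrableOn_const fΩ.ne)
  have eS : ∫ x, S.indicator (fun _ => (1:ℝ)) x ∂μ = μ.real S := by rw [integral_indicator mS]; simp
  have eΩ : ∫ x, Ω.indicator (fun _ => (1:ℝ)) x ∂μ = μ.real Ω := by
    rw [integral_indicator hΩ.measurableSet]; simp
  obtain ⟨v1, v2⟩ := conv μ iS (r := 2 * ρ) (by positivity)
  obtain ⟨v3, v4⟩ := conv μ iG (r := 3 * ρ) (by positivity)
  obtain ⟨E0, hE0⟩ : ∃ E0, E0 = 4 * (Λ + 1) * (3 ^ finrank ℝ E * β) * m ^ p * ρ ^ finrank ℝ E / ρ ^ p :=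
    ⟨_, rfl⟩
  have hE1 : 0 < E0 := by rw [hE0]; positivity
  have h5 := integral_mono iΩ ((iS.add (v1.div_const (κ * ρ ^ finrank ℝ E))).add (v3.div_const E0))
    (fun x => by
      have n1 : 0 ≤ S.indicator (fun _ => (1:ℝ)) x := indicator_nonneg (fun _ _ => zero_le_one) _
      have n2 : 0 ≤ (∫ y in closedBall x (2 * ρ), S.indicator (fun _ => (1:ℝ)) y ∂μ) /
          (κ * ρ ^ finrank ℝ E) := div_nonneg (integral_nonneg
            (fun _ => indicator_nonneg (fun _ _ => zero_le_one) _)) (by positivity)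
      have n3 : 0 ≤ (∫ y in closedBall x (3 * ρ), ‖fderiv ℝ ψ y‖ ^ p ∂μ) / E0 :=
        div_nonneg (integral_nonneg (fun _ => by positivity)) hE1.le
      simp only [Pi.add_apply]
      by_cases hx : x ∈ Ω
      swap
      · rw [indicator_of_notMem hx]; linarith
      rw [indicator_of_mem hx]
      by_cases hx1 : |ψ x| ≤ m / 2
      · rw [indicator_of_mem (show x ∈ S from hS ▸ ⟨hx, hx1⟩)]; linarith
      rcases le_total E0 (∫ y in closedBall x (3 * ρ), ‖fderiv ℝ ψ y‖ ^ p ∂μ) with h | h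
      · linarith [(one_le_div hE1).2 h]
      obtain ⟨y, hy, hy0⟩ := hout x
      obtain ⟨z, hz1, hz2⟩ := (convex_closedBall x ρ).isPreconnected.intermediate_value hy
        (mem_closedBall_self hρ.le) a1.continuousOn (show m / 4 ∈ _ from
          ⟨by simp [hy0]; positivity, by linarith⟩)
      have h6 := hl ρ m ψ x z hρ hm0 hψ hz1 hz2 (hE0 ▸ h)
      have h7 : μ.real ({y | ψ y ≠ 0 ∧ |ψ y| ≤ m / 2} ∩ closedBall x (2 * ρ)) ≤
          ∫ y in closedBall x (2 * ρ), S.indicator (fun _ => (1:ℝ)) y ∂μ := by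
        rw [setIntegral_indicator mS, setIntegral_const, smul_eq_mul, mul_one]
        refine measureReal_mono (fun y hy => ⟨hy.2, hS ▸ ⟨?_, hy.1.2⟩⟩)
          ((measure_mono inter_subset_right).trans_lt fS).ne
        by_contra h8; exact hy.1.1 (hz y h8)
      linarith [(one_le_div (show 0 < κ * ρ ^ finrank ℝ E by positivity)).2 (h6.trans h7)])
  rw [integral_add' (iS.add (v1.div_const _)) (v3.div_const _), integral_add' iS (v1.div_const _),
    integral_div, integral_div, v2, v4, eS, eΩ, ← hG, ← hβ] at h5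
  have h6 : G * ((3 * ρ) ^ finrank ℝ E * β) / E0 ≤ μ.real Ω / 2 := by
    have : G ≤ 2 * (l * (m ^ p * μ.real Ω)) := by nlinarith
    rw [div_le_iff₀ hE1]
    refine (mul_le_mul_of_nonneg_right this (by positivity)).trans_eq ?_
    rw [hE0, hρl, mul_pow]; field_simp; ring
  have h7 : θ * μ.real Ω ≤ μ.real S := by
    have : μ.real S * ((2 * ρ) ^ finrank ℝ E * β) / (κ * ρ ^ finrank ℝ E) =
        μ.real S * (2 ^ finrank ℝ E * β / κ) := by rw [mul_pow]; field_simp
    rw [hθ, one_div_mul_eq_div, div_le_iff₀ (by positivity)]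
    linarith
  have h8 := integral_mono (((iΩ.const_mul (1 - p)).add (i1.const_mul (p / m))).add (iS.const_mul η))
    (ip.div_const (m ^ p)) (fun x => by
      simp only [Pi.add_apply]
      rw [← Real.div_rpow (abs_nonneg _) hm0.le]
      by_cases hx : x ∈ Ω
      swap
      · rw [indicator_of_notMem hx, indicator_of_notMem (fun h => hx (hS ▸ h).1), hz x hx]
        simp [hp0.ne']
      rw [indicator_of_mem hx]
      have t0 : 0 ≤ |ψ x| / m := by positivity
      have e : p / m * |ψ x| = p * (|ψ x| / m) := by ring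
      by_cases hx1 : |ψ x| ≤ m / 2
      · rw [indicator_of_mem (show x ∈ S from hS ▸ ⟨hx, hx1⟩)]
        linarith [hη' (|ψ x| / m) ⟨t0, by rw [div_le_iff₀ hm0]; linarith⟩]
      · rw [indicator_of_notMem (fun h => hx1 (hS ▸ h).2)]
        have := one_add_mul_self_le_rpow_one_add (s := |ψ x| / m - 1) (by linarith) hp1.le
        rw [add_sub_cancel] at this
        linarith)
  rw [integral_add' ((iΩ.const_mul _).add (i1.const_mul _)) (iS.const_mul _),
    integral_add' (iΩ.const_mul _) (i1.const_mul _), integral_const_mul, integral_const_mul,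
    integral_const_mul, integral_div, eS, eΩ, hmI, le_div_iff₀ (by positivity),
    show p / m * (m * μ.real Ω) = p * μ.real Ω by field_simp] at h8
  have h9 : (1 + η * θ) * (m ^ p * μ.real Ω) ≤ ∫ x, |ψ x| ^ p ∂μ := by
    have := mul_le_mul_of_nonneg_left h7 (show 0 ≤ η * m ^ p by positivity)
    nlinarith
  have h10 := mul_le_mul_of_nonneg_left h9 (show 0 ≤ c * l by positivity)
  have h11 := mul_le_mul_of_nonneg_left hl1 (show 0 ≤ c by positivity)
  have h12 := mul_le_mul_of_nonneg_right c2 (show 0 ≤ l * (m ^ p * μ.real Ω) by positivity)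
  nlinarith

end Pool.Agent.H88.Polya
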