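import Mathlib

set_option autoImplicit false
open Filter Topology

namespace Pool.Agent.H88.QFac

structure Sig (σ : ℕ → ℚ) : Prop where
  pos : ∀ i, 0 < σ i
  le0 : σ 0 ≤ 1 / 3
  dec : ∀ i, (2 * 16384 : ℝ) ^ (i + 1) * σ (i + 1) ≤ σ i

theorem exists_sigma {I : Type*} (u ρ : I → ℝ) (hu : ∀ t, 0 ≤ u t) (hs : Summable u)
    (hρ : ∀ t, 0 < ρ t) :
    ∃ σ : ℕ → ℚ, Sig σ ∧
      ∀ i, ∑' t, u t * ((σ i : ℝ) / (σ i + ρ t)) ≤ (1 / (2 * 16384)) ^ i := by
  have hlim : Tendsto (fun x : ℝ => ∑' t, u t * (x / (x + ρ t))) (𝓝[>] 0) (𝓝 0) := by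
    have := tendsto_tsum_of_dominated_convergence (𝓕 := 𝓝[>] (0:ℝ))
      (f := fun (x : ℝ) t => u t * (x / (x + ρ t))) (g := fun _ => (0:ℝ)) hs (by
        intro t
        have h1 : ContinuousAt (fun x : ℝ => u t * (x / (x + ρ t))) 0 := by
          refine continuousAt_const.mul (continuousAt_id.div (by fun_prop) ?_)
          simpa using (hρ t).ne'
        have h2 := h1.tendsto.mono_left (nhdsWithin_le_nhds (s := Set.Ioi 0))
        simpa using h2) (by
        filter_upwards [self_mem_nhdsWithin] with x hx t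
        have hx' : 0 < x := hx
        have := hρ t
        rw [Real.norm_of_nonneg (mul_nonneg (hu t) (by positivity))]
        refine mul_le_of_le_one_right (hu t) ?_
        rw [div_le_one (by positivity)]
        linarith)
    simpa using this
  have hstep : ∀ (i : ℕ) (y : ℝ), 0 < y → ∃ q : ℚ, 0 < q ∧ (q : ℝ) ≤ y ∧
      ∑' t, u t * ((q : ℝ) / (q + ρ t)) ≤ (1 / (2 * 16384)) ^ i := by
    intro i y hy
    have h0 : (0:ℝ) < ((1:ℝ) / (2 * 16384)) ^ i := by positivity
    have h1 := hlim.eventually (ge_mem_nhds h0)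
    obtain ⟨δ, hδ, h2⟩ := (nhdsGT_basis (0:ℝ)).eventually_iff.1 h1
    obtain ⟨q, hq0, hq1⟩ := exists_rat_btwn (lt_min hy hδ)
    refine ⟨q, by exact_mod_cast hq0, (hq1.trans_le (min_le_left _ _)).le,
      h2 ⟨hq0, hq1.trans_le (min_le_right _ _)⟩⟩
  choose! nxt hn0 hn1 hn2 using hstep
  obtain ⟨σ, hσ0, hσs⟩ : ∃ σ : ℕ → ℚ, σ 0 = nxt 0 (1 / 3) ∧
      ∀ i : ℕ, σ (i + 1) = nxt (i + 1) (((σ i : ℚ) : ℝ) / (2 * 16384) ^ (i + 1)) :=
    ⟨fun n => Nat.rec (motive := fun _ => ℚ) (nxt 0 (1 / 3))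
      (fun i q => nxt (i + 1) ((q : ℝ) / (2 * 16384) ^ (i + 1))) n, rfl, fun _ => rfl⟩
  have hpos : ∀ i, 0 < σ i := by
    intro i
    induction i with
    | zero => exact hσ0 ▸ hn0 _ _ (by norm_num)
    | succ i ih =>
      rw [hσs]
      have : (0:ℝ) < σ i := by exact_mod_cast ih
      exact hn0 _ _ (by positivity)
  have hpos' : ∀ i, (0:ℝ) < σ i / (2 * 16384) ^ (i + 1) := fun i => by
    have : (0:ℝ) < σ i := by exact_mod_cast hpos i
    positivity
  refine ⟨σ, ⟨hpos, ?_, fun i => ?_⟩, fun i => ?_⟩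
  · have := hn1 0 (1 / 3) (by norm_num)
    rw [hσ0]
    have h3 : ((nxt 0 (1 / 3) : ℚ) : ℝ) ≤ ((1 / 3 : ℚ) : ℝ) := by
      push_cast
      exact this
    exact_mod_cast h3
  · have := hn1 (i + 1) _ (hpos' i)
    rw [← hσs, le_div_iff₀ (by positivity)] at this
    linarith
  · cases i with
    | zero => exact hσ0 ▸ hn2 _ _ (by norm_num)
    | succ i => exact hσs i ▸ hn2 _ _ (hpos' i)

variable {σ : ℕ → ℚ}

theorem Sig.posR (h : Sig σ) (i : ℕ) : (0:ℝ) < σ i := by exact_mod_cast h.pos i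

theorem Sig.half (h : Sig σ) (i : ℕ) : (σ (i + 1) : ℝ) ≤ σ i / 2 := by
  have h1 := h.dec i
  have h2 : (2:ℝ) ≤ (2 * 16384) ^ (i + 1) :=
    le_trans (by norm_num) (le_self_pow₀ (by norm_num) (by omega))
  have h3 := h.posR (i + 1)
  nlinarith

theorem Sig.strictAnti (h : Sig σ) : StrictAnti σ := by
  refine strictAnti_nat_of_succ_lt fun i => ?_
  have h1 := h.half i
  have h2 := h.posR i
  have : (σ (i + 1) : ℝ) < σ i := by linarith
  exact_mod_cast this

theorem Sig.antiR (h : Sig σ) {i j : ℕ} (hij : i ≤ j) : (σ j : ℝ) ≤ σ i := by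
  exact_mod_cast h.strictAnti.antitone hij

theorem Sig.le_third (h : Sig σ) (i : ℕ) : (σ i : ℝ) ≤ 1 / 3 := by
  refine (h.antiR (Nat.zero_le i)).trans ?_
  have : ((σ 0 : ℚ) : ℝ) ≤ ((1 / 3 : ℚ) : ℝ) := by exact_mod_cast h.le0
  simpa using this

theorem Sig.half' (h : Sig σ) {i j : ℕ} (hij : i < j) : (σ j : ℝ) ≤ σ i / 2 :=
  (h.antiR hij).trans (h.half i)

theorem Sig.ratio (h : Sig σ) {i j : ℕ} (hij : j < i) :
    (16384:ℝ) ^ i * σ i ≤ (1 / 2) ^ i * σ j := by
  obtain ⟨m, rfl⟩ : ∃ m, i = m + 1 := ⟨i - 1, by omega⟩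
  have h1 := (h.dec m).trans (h.antiR (show j ≤ m by omega))
  have h2 : (16384:ℝ) ^ (m + 1) = (1 / 2) ^ (m + 1) * (2 * 16384) ^ (m + 1) := by
    rw [← mul_pow]
    norm_num
  rw [h2, mul_assoc]
  exact mul_le_mul_of_nonneg_left h1 (by positivity)

theorem Sig.small (h : Sig σ) (i : ℕ) : (16384:ℝ) ^ i * σ i ≤ (1 / 2) ^ i := by
  rcases Nat.eq_zero_or_pos i with rfl | hi
  · have := h.le_third 0
    simp only [pow_zero, one_mul]
    linarith
  · refine (h.ratio hi).trans (mul_le_of_le_one_right (by positivity) ?_)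
    have := h.le_third 0
    linarith

theorem Sig.exists_lt (h : Sig σ) {r : ℝ} (hr : 0 < r) : ∃ k, 2 * (σ k : ℝ) < r := by
  obtain ⟨k, hk⟩ := exists_pow_lt_of_lt_one (show 0 < r / 2 by positivity)
    (show (1 / 2 : ℝ) < 1 by norm_num)
  refine ⟨k, ?_⟩
  have h1 := h.small k
  have h2 : (1:ℝ) ≤ 16384 ^ k := one_le_pow₀ (by norm_num)
  have h3 := h.posR k
  nlinarith

noncomputable def term (σ : ℕ → ℚ) (r : ℝ) (i : ℕ) : ℝ := 16384 ^ i * ((σ i : ℝ) / (σ i + r))

noncomputable def WW (σ : ℕ → ℚ) (r : ℝ) : ℝ := 1 + ∑' i, term σ r i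

theorem Sig.term_nonneg (h : Sig σ) {r : ℝ} (hr : 0 < r) (i : ℕ) : 0 ≤ term σ r i := by
  have := h.posR i
  unfold term
  positivity

theorem Sig.term_summable (h : Sig σ) {r : ℝ} (hr : 0 < r) : Summable (term σ r) := by
  refine Summable.of_nonneg_of_le (h.term_nonneg hr) (fun i => ?_)
    (summable_geometric_two.div_const r)
  have h1 := h.small i
  have h2 := h.posR i
  unfold term
  rw [← mul_div_assoc]
  exact div_le_div₀ (by positivity) h1 hr (by linarith)

theorem Sig.one_le_W (h : Sig σ) {r : ℝ} (hr : 0 < r) : 1 ≤ WW σ r := by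
  have : 0 ≤ ∑' i, term σ r i := tsum_nonneg (h.term_nonneg hr)
  unfold WW
  linarith

theorem Sig.W_double (h : Sig σ) {r r' : ℝ} (hr : 0 < r) (hrr : r / 2 ≤ r') :
    WW σ r' ≤ 2 * WW σ r := by
  have hr' : 0 < r' := by linarith
  have h1 : ∑' i, term σ r' i ≤ ∑' i, 2 * term σ r i := by
    refine (h.term_summable hr').tsum_le_tsum (fun i => ?_) ((h.term_summable hr).mul_left 2)
    have h2 := h.posR i
    unfold term
    rw [mul_left_comm]
    refine mul_le_mul_of_nonneg_left ?_ (by positivity)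
    rw [← mul_div_assoc, div_le_div_iff₀ (by positivity) (by positivity)]
    nlinarith
  rw [tsum_mul_left] at h1
  unfold WW
  linarith

theorem Sig.W_low (h : Sig σ) {r : ℝ} (hr : 0 < r) {k : ℕ} (hk : r ≤ 2 * σ k) :
    16384 ^ k ≤ 3 * WW σ r := by
  have h1 := (h.term_summable hr).le_tsum k fun j _ => h.term_nonneg hr j
  have h2 : (16384:ℝ) ^ k ≤ 3 * term σ r k := by
    have h2 := h.posR k
    unfold term
    rw [mul_left_comm]
    refine le_mul_of_one_le_right (by positivity) ?_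
    rw [← mul_div_assoc, le_div_iff₀ (by positivity)]
    linarith
  unfold WW
  linarith

theorem geo_le (j : ℕ) : ∑ i ∈ Finset.range (j + 1), (16384:ℝ) ^ i ≤ 2 * 16384 ^ j := by
  induction j with
  | zero => simp
  | succ j ih =>
    rw [Finset.sum_range_succ, pow_succ]
    have : (0:ℝ) < 16384 ^ j := by positivity
    linarith

theorem Sig.W_up (h : Sig σ) {r : ℝ} {j : ℕ} (hj : (σ j : ℝ) / 2 ≤ r) :
    WW σ r ≤ 7 * 16384 ^ j := by
  have hσj := h.posR j
  have hr : 0 < r := by linarith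
  have hfin : HasSum (fun i => if i ∈ Finset.range (j + 1) then (16384:ℝ) ^ i else 0)
      (∑ i ∈ Finset.range (j + 1), (16384:ℝ) ^ i) := by
    have := hasSum_sum_of_ne_finset_zero (L := SummationFilter.unconditional ℕ)
      (f := fun i => if i ∈ Finset.range (j + 1) then (16384:ℝ) ^ i else 0)
      (s := Finset.range (j + 1)) (fun b hb => if_neg hb)
    rwa [Finset.sum_congr rfl fun i hi => if_pos hi] at this
  have hs := hfin.add (hasSum_geometric_two.mul_left 2)
  have h1 := hasSum_le (fun i => ?_) (h.term_summable hr).hasSum hs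
  · have h2 := geo_le j
    have h3 : (1:ℝ) ≤ 16384 ^ j := one_le_pow₀ (by norm_num)
    unfold WW
    linarith
  · have h2 := h.posR i
    unfold term
    split_ifs with hi
    · have : (16384:ℝ) ^ i * ((σ i : ℝ) / (σ i + r)) ≤ 16384 ^ i := by
        refine mul_le_of_le_one_right (by positivity) ?_
        rw [div_le_one (by positivity)]
        linarith
      have h4 : (0:ℝ) ≤ 2 * (1 / 2) ^ i := by positivity
      linarith
    · have h3 := h.ratio (show j < i by simpa using hi)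
      rw [zero_add, ← mul_div_assoc, div_le_iff₀ (by positivity)]
      have h4 : (0:ℝ) < (1 / 2) ^ i := by positivity
      nlinarith

theorem Sig.summable_W (h : Sig σ) {I : Type*} (u ρ : I → ℝ) (hu : ∀ t, 0 ≤ u t)
    (hs : Summable u) (hρ : ∀ t, 0 < ρ t)
    (hb : ∀ i, ∑' t, u t * ((σ i : ℝ) / (σ i + ρ t)) ≤ (1 / (2 * 16384)) ^ i) :
    Summable fun t => u t * WW σ (ρ t) := by
  have hnn : ∀ p : ℕ × I, 0 ≤ u p.2 * term σ (ρ p.2) p.1 := fun p =>
    mul_nonneg (hu _) (h.term_nonneg (hρ _) _)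
  have hin : ∀ i, Summable fun t => u t * ((σ i : ℝ) / (σ i + ρ t)) := by
    intro i
    have h2 := h.posR i
    refine Summable.of_nonneg_of_le (fun t => ?_) (fun t => ?_) hs
    · have := hρ t
      have := hu t
      positivity
    · have := hρ t
      refine mul_le_of_le_one_right (hu t) ?_
      rw [div_le_one (by positivity)]
      linarith
  have he : ∀ i t, u t * term σ (ρ t) i = 16384 ^ i * (u t * ((σ i : ℝ) / (σ i + ρ t))) := by
    intro i t
    unfold term
    ring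
  have h1 : Summable fun p : ℕ × I => u p.2 * term σ (ρ p.2) p.1 := by
    rw [summable_prod_of_nonneg hnn]
    refine ⟨fun i => ?_, ?_⟩
    · simp_rw [he]
      exact (hin i).mul_left _
    · refine Summable.of_nonneg_of_le (fun i => tsum_nonneg fun t => hnn (i, t)) (fun i => ?_)
        summable_geometric_two
      simp_rw [he]
      rw [tsum_mul_left]
      refine (mul_le_mul_of_nonneg_left (hb i) (by positivity)).trans (le_of_eq ?_)
      rw [← mul_pow]
      norm_num
  have h2 := h1.prod_symm.prod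
  refine (hs.add h2).congr fun t => ?_
  simp only [Prod.swap]
  rw [tsum_mul_left]
  unfold WW
  ring

theorem sum_two_sided (k : ℕ) (c : ℝ) (hc : 0 ≤ c) (f : ℕ → ℝ) (h0 : ∀ j, 0 ≤ f j) (hk : f k = 0)
    (h1 : ∀ j, k < j → f j ≤ c * (1 / 2) ^ (j - k)) (h2 : ∀ j, j < k → f j ≤ c * (1 / 2) ^ (k - j)) :
    Summable f ∧ ∑' j, f j ≤ 2 * c := by
  have hg : HasSum (fun j : ℕ => c * (1 / 2) * (1 / 2 : ℝ) ^ j) (c * (1 / 2) * 2) :=
    hasSum_geometric_two.mul_left _
  have hle : ∀ j, f (j + (k + 1)) ≤ c * (1 / 2) * (1 / 2 : ℝ) ^ j := by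
    intro j
    refine (h1 _ (by omega)).trans (le_of_eq ?_)
    rw [show j + (k + 1) - k = j + 1 by omega]
    ring
  have hs' : Summable fun j => f (j + (k + 1)) :=
    Summable.of_nonneg_of_le (fun j => h0 _) hle hg.summable
  have hs : Summable f := (summable_nat_add_iff (k + 1)).1 hs'
  refine ⟨hs, ?_⟩
  rw [← hs.sum_add_tsum_nat_add (k + 1), Finset.sum_range_succ, hk, add_zero]
  have h3 := hasSum_le hle hs'.hasSum hg
  have h4 : ∑ j ∈ Finset.range k, f j ≤ c := by
    rw [← Finset.sum_range_reflect]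
    have h5 : ∑ j ∈ Finset.range k, f (k - 1 - j)
        ≤ ∑ j ∈ Finset.range k, c * (1 / 2) * (1 / 2 : ℝ) ^ j := by
      refine Finset.sum_le_sum fun j hj => ?_
      have := Finset.mem_range.1 hj
      refine (h2 _ (by omega)).trans (le_of_eq ?_)
      rw [show k - (k - 1 - j) = j + 1 by omega]
      ring
    have h6 := sum_le_hasSum (Finset.range k) (fun j _ => by positivity) hg
    linarith
  linarith

end Pool.Agent.H88.QFac
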