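import Pool.Agent.H88.QFacDefs
import Pool.Agent.H88.QFacW
import Pool.Agent.H88.L1Solve

set_option autoImplicit false
open Filter Topology

namespace Pool.Agent.H88.QFac

structure Adm (ω ρ : Qp → ℝ) : Prop where
  pos : ∀ t, 0 < ω t
  le1 : ∀ t, ω t ≤ 1
  anti : ∀ s t : Qp, s.1 ≤ t.1 → ω t ≤ ω s
  rpos : ∀ t, 0 < ρ t
  rle : ∀ t, ρ t ≤ t.1
  r2 : ∀ s t : Qp, s.1 ≤ t.1 → (t.1 : ℝ) - ρ t / 2 ≤ s.1 → ρ t / 2 ≤ ρ s ∧ ω s ≤ 3 * ω t
  r3 : ∀ s t : Qp, t.1 ≤ s.1 → (s.1 : ℝ) ≤ t.1 + 1 / 3 → ρ t ≤ 2 / 3 →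
    (s.1 - t.1 : ℝ) ≤ ρ s ∨ (ρ t / 2 ≤ ρ s ∧ ω s * (s.1 - t.1) ≤ ω t * ρ t)

theorem num_up {m : ℕ} (hm : 2 ≤ m) : 6 * (1 / 8 : ℝ) ^ m ≤ 3 / 8 * (1 / 2) ^ m := by
  have h1 : (1 / 8 : ℝ) ^ m = (1 / 2) ^ m * (1 / 4) ^ m := by
    rw [← mul_pow]
    norm_num
  have h2 : (1 / 4 : ℝ) ^ m ≤ (1 / 4) ^ 2 := pow_le_pow_of_le_one (by norm_num) (by norm_num) hm
  have h3 : (0:ℝ) < (1 / 2) ^ m := by positivity
  rw [h1]
  nlinarith

theorem num_down (n : ℕ) :
    21 * (8:ℝ) ^ (n + 2) ≤ 3 / 8 * (1 / 2) ^ (n + 2) * 16384 ^ (n + 1) := by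
  have h1 : (8:ℝ) ^ n ≤ (1 / 2) ^ n * 16384 ^ n := by
    rw [← mul_pow]
    exact pow_le_pow_left₀ (by norm_num) (by norm_num) n
  have h2 : (0:ℝ) < 8 ^ n := by positivity
  have e : 3 / 8 * (1 / 2 : ℝ) ^ (n + 2) * 16384 ^ (n + 1)
      = 1536 * ((1 / 2) ^ n * 16384 ^ n) := by ring
  rw [e, pow_add]
  linarith

theorem col_est {ω ρ : Qp → ℝ} (h : Adm ω ρ) {σ : ℕ → ℚ} (hσ : Sig σ) (t s : Qp) (k j : ℕ)
    (hk1 : 2 * (σ k : ℝ) < ρ t) (hk2 : ∀ i < k, ρ t ≤ 2 * σ i) (hs : s.1 = t.1 - σ k + σ j) :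
    (k + 2 ≤ j → (8:ℝ) ^ k / 8 ^ j * (WW σ (ρ s) * ω s)
      ≤ 3 / 8 * (WW σ (ρ t) * ω t) * (1 / 2) ^ (j - k)) ∧
    (j + 2 ≤ k → (8:ℝ) ^ k / 8 ^ j * (WW σ (ρ s) * ω s)
      ≤ 3 / 8 * (WW σ (ρ t) * ω t) * (1 / 2) ^ (k - j)) := by
  have hsR : (s.1 : ℝ) = t.1 - σ k + σ j := by exact_mod_cast hs
  have hWt := hσ.one_le_W (h.rpos t)
  have hWs := hσ.one_le_W (h.rpos s)
  have hωt := h.pos t
  have hωs := h.pos s
  have hj0 := hσ.posR j
  have hk0 := hσ.posR k
  constructor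
  · intro hj
    obtain ⟨m, rfl⟩ : ∃ m, j = k + m := ⟨j - k, by omega⟩
    have h1 := hσ.antiR (show k ≤ k + m by omega)
    have h2 := h.r2 s t (by
      have : (s.1 : ℝ) ≤ t.1 := by linarith
      exact_mod_cast this) (by linarith)
    have h3 := hσ.W_double (h.rpos t) h2.1
    have h4 : WW σ (ρ s) * ω s ≤ 6 * (WW σ (ρ t) * ω t) := by
      calc WW σ (ρ s) * ω s ≤ (2 * WW σ (ρ t)) * (3 * ω t) :=
            mul_le_mul h3 h2.2 hωs.le (by linarith)
        _ = _ := by ring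
    have h5 : (8:ℝ) ^ k / 8 ^ (k + m) = (1 / 8) ^ m := by
      rw [pow_add, one_div, inv_pow]
      field_simp
    have h6 := num_up (show 2 ≤ m by omega)
    have h7 : 0 ≤ WW σ (ρ t) * ω t := by positivity
    rw [h5, Nat.add_sub_cancel_left]
    calc (1 / 8 : ℝ) ^ m * (WW σ (ρ s) * ω s) ≤ (1 / 8) ^ m * (6 * (WW σ (ρ t) * ω t)) :=
          mul_le_mul_of_nonneg_left h4 (by positivity)
      _ = (6 * (1 / 8) ^ m) * (WW σ (ρ t) * ω t) := by ring
      _ ≤ (3 / 8 * (1 / 2) ^ m) * (WW σ (ρ t) * ω t) := mul_le_mul_of_nonneg_right h6 h7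
      _ = _ := by ring
  · intro hj
    obtain ⟨n, rfl⟩ : ∃ n, k = j + (n + 2) := ⟨k - j - 2, by omega⟩
    have h1 := hσ.half' (show j < j + (n + 2) by omega)
    have h1' := hk2 (j + n + 1) (by omega)
    have hts : t.1 ≤ s.1 := by
      have : (t.1 : ℝ) ≤ s.1 := by linarith
      exact_mod_cast this
    have h2 := h.r3 s t hts (by linarith [hσ.le_third j]) (by linarith [hσ.le_third (j + n + 1)])
    have h4 : WW σ (ρ s) * ω s * 16384 ^ (n + 1) ≤ 21 * (WW σ (ρ t) * ω t) := by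
      rcases h2 with h2 | h2
      · have h3 := hσ.W_up (r := ρ s) (j := j) (by linarith)
        have h5 := hσ.W_low (h.rpos t) h1'
        have h6 := h.anti t s hts
        calc WW σ (ρ s) * ω s * 16384 ^ (n + 1) ≤ (7 * 16384 ^ j) * ω t * 16384 ^ (n + 1) := by
              gcongr
          _ = 7 * ω t * 16384 ^ (j + n + 1) := by ring
          _ ≤ 7 * ω t * (3 * WW σ (ρ t)) := by gcongr
          _ = _ := by ring
      · have h3 := hσ.W_double (h.rpos t) h2.1
        have h5 := hσ.ratio (show j < j + n + 1 by omega)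
        have h6 : (1 / 2 : ℝ) ^ (j + n + 1) ≤ 1 := pow_le_one₀ (by norm_num) (by norm_num)
        have h7 : (16384:ℝ) ^ (n + 1) ≤ 16384 ^ (j + n + 1) :=
          pow_le_pow_right₀ (by norm_num) (by omega)
        have h8 : ω s * (σ j / 2) ≤ ω t * (2 * σ (j + n + 1)) := by
          calc ω s * (σ j / 2) ≤ ω s * (s.1 - t.1) := by
                refine mul_le_mul_of_nonneg_left ?_ hωs.le
                linarith
            _ ≤ ω t * ρ t := h2.2
            _ ≤ _ := mul_le_mul_of_nonneg_left h1' hωt.le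
        have h9 : (16384:ℝ) ^ (n + 1) * σ (j + n + 1) ≤ σ j := by
          have := hσ.posR (j + n + 1)
          calc (16384:ℝ) ^ (n + 1) * σ (j + n + 1) ≤ 16384 ^ (j + n + 1) * σ (j + n + 1) := by
                gcongr
            _ ≤ (1 / 2) ^ (j + n + 1) * σ j := h5
            _ ≤ σ j := mul_le_of_le_one_left hj0.le h6
        have h10 : ω s * 16384 ^ (n + 1) ≤ 4 * ω t := by
          have h11 : ω s * 16384 ^ (n + 1) * σ j ≤ 4 * ω t * σ j := by
            calc ω s * 16384 ^ (n + 1) * σ j = 2 * 16384 ^ (n + 1) * (ω s * (σ j / 2)) := by ring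
              _ ≤ 2 * 16384 ^ (n + 1) * (ω t * (2 * σ (j + n + 1))) := by gcongr
              _ = 4 * ω t * (16384 ^ (n + 1) * σ (j + n + 1)) := by ring
              _ ≤ 4 * ω t * σ j := by gcongr
          exact le_of_mul_le_mul_right h11 hj0
        calc WW σ (ρ s) * ω s * 16384 ^ (n + 1) = WW σ (ρ s) * (ω s * 16384 ^ (n + 1)) := by ring
          _ ≤ (2 * WW σ (ρ t)) * (4 * ω t) := mul_le_mul h3 h10 (by positivity) (by linarith)
          _ ≤ _ := by nlinarith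
    have h5 : (8:ℝ) ^ (j + (n + 2)) / 8 ^ j = 8 ^ (n + 2) := by
      rw [pow_add]
      field_simp
    have h6 := num_down n
    have h7 : 0 ≤ WW σ (ρ t) * ω t := by positivity
    rw [h5, Nat.add_sub_cancel_left]
    refine le_of_mul_le_mul_right ?_ (show (0:ℝ) < 16384 ^ (n + 1) by positivity)
    calc (8:ℝ) ^ (n + 2) * (WW σ (ρ s) * ω s) * 16384 ^ (n + 1)
        = 8 ^ (n + 2) * (WW σ (ρ s) * ω s * 16384 ^ (n + 1)) := by ring
      _ ≤ 8 ^ (n + 2) * (21 * (WW σ (ρ t) * ω t)) := by gcongr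
      _ = (21 * 8 ^ (n + 2)) * (WW σ (ρ t) * ω t) := by ring
      _ ≤ (3 / 8 * (1 / 2) ^ (n + 2) * 16384 ^ (n + 1)) * (WW σ (ρ t) * ω t) :=
          mul_le_mul_of_nonneg_right h6 h7
      _ = _ := by ring

theorem conv_eq (B : ℚ → ℂ) (hB : ∀ q ≤ 0, B q = 0) (c : Qp → ℂ) (s : Qp) (z : ℂ)
    (h : HasSum (fun u : Qp => B (s.1 - u.1) * c u) z) : conv (fun t => B t.1) c s = z := by
  let φ : {p : Qp × Qp // p.1.1 + p.2.1 = s.1} → Qp := fun p => p.1.2
  have hφ : Function.Injective φ := by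
    rintro ⟨⟨a, b⟩, hab⟩ ⟨⟨a', b'⟩, hab'⟩ he
    have h1 : b = b' := he
    subst h1
    have h2 : a = a' := Subtype.ext (add_right_cancel (hab.trans hab'.symm))
    subst h2
    rfl
  have h1 := (hφ.hasSum_iff (f := fun u : Qp => B (s.1 - u.1) * c u) (by
    intro u hu
    have : s.1 - u.1 ≤ 0 := by
      by_contra hc
      exact hu ⟨⟨(⟨s.1 - u.1, not_le.1 hc⟩, u), by simp⟩, rfl⟩
    simp only [hB _ this, zero_mul])).2 h
  unfold conv
  rw [← h1.tsum_eq]
  refine tsum_congr fun p => ?_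
  have : s.1 - p.1.2.1 = p.1.1.1 := by
    have h2 : p.1.1.1 + p.1.2.1 = s.1 := p.2
    linarith
  simp only [Function.comp, φ, this]

theorem main {ω ρ : Qp → ℝ} (h : Adm ω ρ) (a : Qp → ℂ) (ha : MemL1 ω a) :
    ∃ b c : ℕ → Qp → ℂ, (∀ i, MemL1 ω (b i) ∧ MemL1 ω (c i)) ∧
      ∀ t, a t = conv (b 0) (c 0) t + conv (b 1) (c 1) t := by
  classical
  have hu : ∀ t, 0 ≤ ‖a t‖ * ω t := fun t => mul_nonneg (norm_nonneg _) (h.pos t).le
  obtain ⟨σ, hσ, hb⟩ := exists_sigma (fun t => ‖a t‖ * ω t) ρ hu ha h.rpos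
  have haV := hσ.summable_W _ ρ hu ha h.rpos hb
  obtain ⟨k, hk1, hk2⟩ : ∃ k : Qp → ℕ, (∀ t, 2 * (σ (k t) : ℝ) < ρ t) ∧
      ∀ t, ∀ i < k t, ρ t ≤ 2 * σ i :=
    ⟨fun t => Nat.find (hσ.exists_lt (h.rpos t)), fun t => Nat.find_spec (hσ.exists_lt (h.rpos t)),
      fun t i hi => not_lt.1 (Nat.find_min (hσ.exists_lt (h.rpos t)) hi)⟩
  have hτ0 : ∀ t : Qp, 0 < t.1 - σ (k t) := by
    intro t
    have h1 := hk1 t
    have h2 := h.rle t
    have h3 := hσ.posR (k t)
    have : (0:ℝ) < t.1 - σ (k t) := by linarith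
    exact_mod_cast this
  obtain ⟨τ, hτ⟩ : ∃ τ : Qp → Qp, ∀ t, (τ t).1 = t.1 - σ (k t) :=
    ⟨fun t => ⟨_, hτ0 t⟩, fun _ => rfl⟩
  obtain ⟨pos, hpos⟩ : ∃ pos : Qp → ℕ → Qp, ∀ t j, (pos t j).1 = t.1 - σ (k t) + σ j :=
    ⟨fun t j => ⟨_, add_pos (hτ0 t) (hσ.pos j)⟩, fun _ _ => rfl⟩
  have hσi := hσ.strictAnti.injective
  have hinj : ∀ t, Function.Injective (pos t) := by
    intro t i j hij
    have := congrArg Subtype.val hij
    rw [hpos, hpos] at this
    exact hσi (add_left_cancel this)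
  obtain ⟨V, hV⟩ : ∃ V : Qp → ℝ, ∀ t, V t = WW σ (ρ t) * ω t := ⟨_, fun _ => rfl⟩
  have hV0 : ∀ t, 0 < V t := fun t => by
    have := hσ.one_le_W (h.rpos t)
    have := h.pos t
    rw [hV]
    positivity
  obtain ⟨w, hw⟩ : ∃ w : Qp → ℕ → ℂ, ∀ t j,
      w t j = if j % 2 = k t % 2 ∧ j ≠ k t then (8:ℂ) ^ (k t) / 8 ^ j else 0 :=
    ⟨_, fun _ _ => rfl⟩
  have hn8 : ∀ i j : ℕ, ‖(8:ℂ) ^ i / 8 ^ j‖ = (8:ℝ) ^ i / 8 ^ j := fun i j => by
    simp
  obtain ⟨e, he⟩ : ∃ e : Qp → Qp → ℂ, ∀ t, e t = Function.extend (pos t) (w t) 0 :=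
    ⟨_, fun _ => rfl⟩
  have hcol : ∀ t, (Summable fun s => ‖e t s‖ * V s) ∧ ∑' s, ‖e t s‖ * V s ≤ 3 / 4 * V t := by
    intro t
    have h1 := sum_two_sided (k t) (3 / 8 * V t) (by have := hV0 t; positivity)
      (fun j => ‖w t j‖ * V (pos t j))
      (fun j => mul_nonneg (norm_nonneg _) (hV0 _).le) (by simp [hw]) (by
        intro j hj
        rw [hw]
        split_ifs with hc
        · rw [hn8, hV, hV]
          exact (col_est h hσ t (pos t j) (k t) j (hk1 t) (hk2 t) (hpos t j)).1 (by omega)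
        · have := hV0 t
          rw [norm_zero, zero_mul]
          positivity) (by
        intro j hj
        rw [hw]
        split_ifs with hc
        · rw [hn8, hV, hV]
          exact (col_est h hσ t (pos t j) (k t) j (hk1 t) (hk2 t) (hpos t j)).2 (by omega)
        · have := hV0 t
          rw [norm_zero, zero_mul]
          positivity)
    have h2 : (fun s => ‖e t s‖ * V s)
        = Function.extend (pos t) (fun j => ‖w t j‖ * V (pos t j)) 0 := by
      funext s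
      rw [he]
      by_cases hs : ∃ j, pos t j = s
      · obtain ⟨j, rfl⟩ := hs
        rw [(hinj t).extend_apply, (hinj t).extend_apply]
      · rw [Function.extend_apply' _ _ _ hs, Function.extend_apply' _ _ _ hs]
        simp
    have h3 := (hasSum_extend_zero (hinj t)).2 h1.1.hasSum
    rw [h2]
    refine ⟨h3.summable, ?_⟩
    rw [h3.tsum_eq]
    linarith [h1.2]
  obtain ⟨g, hg, hge⟩ := L1Solve.solve V hV0 e (3 / 4) (by norm_num) (by norm_num)
    (fun t => (hcol t).1) (fun t => (hcol t).2) a (haV.congr fun t => by rw [hV]; ring)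
  obtain ⟨B, hB⟩ : ∃ B : ℕ → ℚ → ℂ, ∀ i,
      B i = Function.extend σ (fun j => if j % 2 = i then 1 / (8:ℂ) ^ j else 0) 0 :=
    ⟨_, fun _ => rfl⟩
  obtain ⟨G, hG⟩ : ∃ G : ℕ → Qp → ℂ, ∀ i t,
      G i t = if k t % 2 = i then (8:ℂ) ^ (k t) * g t else 0 := ⟨_, fun _ _ => rfl⟩
  have hBs : ∀ i, Summable fun q => ‖B i q‖ := by
    intro i
    have h1 : Summable fun j : ℕ => ‖if j % 2 = i then 1 / (8:ℂ) ^ j else 0‖ := by
      refine Summable.of_nonneg_of_le (fun _ => norm_nonneg _) (fun j => ?_)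
        (summable_geometric_of_lt_one (r := 1 / 8) (by norm_num) (by norm_num))
      split_ifs
      · simp
      · rw [norm_zero]
        positivity
    refine ((summable_extend_zero hσi).2 h1).congr fun q => ?_
    rw [hB]
    by_cases hq : ∃ j, σ j = q
    · obtain ⟨j, rfl⟩ := hq
      rw [hσi.extend_apply, hσi.extend_apply]
    · rw [Function.extend_apply' _ _ _ hq, Function.extend_apply' _ _ _ hq]
      simp
  have hB0 : ∀ i, ∀ q ≤ 0, B i q = 0 := by
    intro i q hq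
    rw [hB, Function.extend_apply']
    · rfl
    · rintro ⟨j, rfl⟩
      exact absurd (hσ.pos j) (not_lt.2 hq)
  have hB1 : ∀ i q, ‖B i q‖ ≤ 1 := by
    intro i q
    rw [hB]
    by_cases hq : ∃ j, σ j = q
    · obtain ⟨j, rfl⟩ := hq
      rw [hσi.extend_apply]
      split_ifs
      · rw [norm_div, norm_one, norm_pow, div_le_one (by simp)]
        exact one_le_pow₀ (by simp)
      · simp
    · rw [Function.extend_apply' _ _ _ hq]
      simp
  have hGs : ∀ i, Summable fun t => ‖G i t‖ * ω (τ t) := by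
    intro i
    refine Summable.of_nonneg_of_le (fun t => mul_nonneg (norm_nonneg _) (h.pos _).le)
      (fun t => ?_) (hg.mul_left 72)
    have hτR : ((τ t).1 : ℝ) = t.1 - σ (k t) := by exact_mod_cast hτ t
    have h0 := hσ.posR (k t)
    have h1 := (h.r2 (τ t) t (by rw [hτ]; linarith [hσ.pos (k t)]) (by linarith [hk1 t])).2
    have h2 : (8:ℝ) ^ (k t) ≤ 24 * WW σ (ρ t) := by
      have h3 := hσ.one_le_W (h.rpos t)
      rcases Nat.eq_zero_or_pos (k t) with h4 | h4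
      · rw [h4, pow_zero]
        linarith
      · obtain ⟨m, hm⟩ : ∃ m, k t = m + 1 := ⟨k t - 1, by omega⟩
        have h5 := hσ.W_low (h.rpos t) (hk2 t m (by omega))
        have h6 : (8:ℝ) ^ m ≤ 16384 ^ m := pow_le_pow_left₀ (by norm_num) (by norm_num) m
        rw [hm, pow_succ]
        linarith
    have h7 := hV0 t
    have h8 := h.pos (τ t)
    rw [hG]
    split_ifs
    · rw [norm_mul, norm_pow, hV]
      simp only [Complex.norm_ofNat]
      calc (8:ℝ) ^ k t * ‖g t‖ * ω (τ t) ≤ (24 * WW σ (ρ t)) * ‖g t‖ * (3 * ω t) := by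
            have := hσ.one_le_W (h.rpos t)
            gcongr
        _ = _ := by ring
    · rw [norm_zero, zero_mul]
      positivity
  have hfib : ∀ i u, Summable fun t : τ ⁻¹' {u} => ‖G i t‖ := by
    intro i u
    have h1 := ((hGs i).subtype (τ ⁻¹' {u})).div_const (ω u)
    refine h1.congr fun t => ?_
    have h2 : τ t = u := t.2
    have := (h.pos u).ne'
    simp only [Function.comp, h2]
    field_simp
  have hkey : ∀ t s, g t * e t s + (if t = s then g t else 0)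
      = B 0 (s.1 - (τ t).1) * G 0 t + B 1 (s.1 - (τ t).1) * G 1 t := by
    intro t s
    rw [he, hB, hB, hG, hG]
    have hpt : pos t (k t) = t := Subtype.ext (by rw [hpos]; ring)
    by_cases hs : ∃ j, pos t j = s
    · obtain ⟨j, rfl⟩ := hs
      have h1 : (pos t j).1 - (τ t).1 = σ j := by
        rw [hpos, hτ]
        ring
      rw [h1, (hinj t).extend_apply, hσi.extend_apply, hσi.extend_apply, hw]
      by_cases hj : j = k t
      · rw [hj, hpt]
        rcases Nat.mod_two_eq_zero_or_one (k t) with h2 | h2 <;> simp [h2]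
      · have h3 : t ≠ pos t j := fun hc => hj (hinj t (hc.symm.trans hpt.symm))
        rcases Nat.mod_two_eq_zero_or_one (k t) with h2 | h2 <;>
          rcases Nat.mod_two_eq_zero_or_one j with h4 | h4 <;> simp [h2, h4, h3, hj] <;> ring
    · have h1 : ¬ ∃ j, σ j = s.1 - (τ t).1 := by
        rintro ⟨j, hj⟩
        refine hs ⟨j, Subtype.ext ?_⟩
        rw [hpos, hj, hτ]
        ring
      have h3 : t ≠ s := fun hc => hs ⟨k t, hpt.trans hc⟩
      rw [Function.extend_apply' _ _ _ hs, Function.extend_apply' _ _ _ h1,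
        Function.extend_apply' _ _ _ h1]
      simp [h3]
  refine ⟨fun i t => B i t.1, fun i u => ∑' t : τ ⁻¹' {u}, G i t, fun i => ⟨?_, ?_⟩, fun s => ?_⟩
  · refine Summable.of_nonneg_of_le (fun t => mul_nonneg (norm_nonneg _) (h.pos _).le)
      (fun t => mul_le_of_le_one_right (norm_nonneg _) (h.le1 t)) ?_
    exact (hBs i).subtype _
  · refine Summable.of_nonneg_of_le (fun t => mul_nonneg (norm_nonneg _) (h.pos _).le)
      (fun u => ?_) ((hGs i).hasSum.tsum_fiberwise τ).summable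
    have h1 : ∑' t : τ ⁻¹' {u}, ‖G i t‖ * ω (τ t) = (∑' t : τ ⁻¹' {u}, ‖G i t‖) * ω u := by
      rw [← tsum_mul_right]
      refine tsum_congr fun t => ?_
      have h2 : τ t = u := t.2
      rw [h2]
    rw [h1]
    exact mul_le_mul_of_nonneg_right (norm_tsum_le_tsum_norm (hfib i u)) (h.pos u).le
  · have hsum : ∀ i, Summable fun t => B i (s.1 - (τ t).1) * G i t := by
      intro i
      refine Summable.of_norm_bounded ((hGs i).div_const (ω s)) fun t => ?_
      have h1 := h.pos s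
      have h2 := h.pos (τ t)
      by_cases hc : s.1 - (τ t).1 ≤ 0
      · rw [hB0 i _ hc, zero_mul, norm_zero]
        positivity
      · have h3 := h.anti (τ t) s (by linarith)
        rw [norm_mul, le_div_iff₀ h1]
        have h4 := hB1 i (s.1 - (τ t).1)
        calc ‖B i (s.1 - (τ t).1)‖ * ‖G i t‖ * ω s ≤ 1 * ‖G i t‖ * ω (τ t) := by gcongr
          _ = _ := by ring
    have hconv : ∀ i, conv (fun t => B i t.1) (fun u => ∑' t : τ ⁻¹' {u}, G i t) s
        = ∑' t, B i (s.1 - (τ t).1) * G i t := by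
      intro i
      refine conv_eq (B i) (hB0 i) _ s _ ?_
      have h1 := (hsum i).hasSum.tsum_fiberwise τ
      refine (congrArg (fun F => HasSum F _) ?_).mp h1
      funext u
      rw [← tsum_mul_left]
      refine tsum_congr fun t => ?_
      have h2 : τ t = u := t.2
      rw [h2]
    rw [hconv, hconv, ← (hsum 0).tsum_add (hsum 1)]
    have h1 := (hge s).add (hasSum_ite_eq s (g s))
    have h2 : (fun t => g t * e t s + if t = s then g s else 0)
        = fun t => B 0 (s.1 - (τ t).1) * G 0 t + B 1 (s.1 - (τ t).1) * G 1 t := by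
      funext t
      rw [← hkey]
      split_ifs with hc
      · rw [hc]
      · rfl
    rw [h2, sub_add_cancel] at h1
    exact h1.tsum_eq.symm

theorem adm_one : Adm (fun _ => 1) (fun t => t.1) where
  pos _ := one_pos
  le1 _ := le_rfl
  anti _ _ _ := le_rfl
  rpos t := by exact_mod_cast t.2
  rle _ := le_rfl
  r2 s t _ h2 := ⟨by linarith, by norm_num⟩
  r3 s t _ _ _ := Or.inl (by
    have : (0:ℝ) < t.1 := by exact_mod_cast t.2
    linarith)

theorem adm_gauss : Adm (fun t => Real.exp (-(t.1 : ℝ) ^ 2)) (fun t => min (t.1 : ℝ) (t.1 : ℝ)⁻¹) where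
  pos _ := Real.exp_pos _
  le1 t := Real.exp_le_one_iff.2 (neg_nonpos.2 (sq_nonneg _))
  anti s t hst := by
    have h1 : (0:ℝ) < s.1 := by exact_mod_cast s.2
    have h2 : (s.1 : ℝ) ≤ t.1 := by exact_mod_cast hst
    refine Real.exp_le_exp.2 ?_
    nlinarith
  rpos t := by
    have h1 : (0:ℝ) < t.1 := by exact_mod_cast t.2
    exact lt_min h1 (inv_pos.2 h1)
  rle _ := min_le_left _ _
  r2 s t hst h2 := by
    have h0 : (0:ℝ) < s.1 := by exact_mod_cast s.2
    have h1 : (s.1 : ℝ) ≤ t.1 := by exact_mod_cast hst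
    clear hst
    generalize ((s.1 : ℚ) : ℝ) = x at *
    generalize ((t.1 : ℚ) : ℝ) = y at *
    have hy0 : 0 < y := by linarith
    have h3 := min_le_left y y⁻¹
    have h4 := min_le_right y y⁻¹
    have h5 : 0 < min y y⁻¹ := lt_min hy0 (inv_pos.2 hy0)
    have h6 : y⁻¹ ≤ x⁻¹ := inv_anti₀ h0 h1
    refine ⟨le_min (by linarith) (by linarith), ?_⟩
    have h7 : min y y⁻¹ * y ≤ 1 := by
      calc min y y⁻¹ * y ≤ y⁻¹ * y := by gcongr
        _ = 1 := inv_mul_cancel₀ hy0.ne'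
    have h8 : -x ^ 2 ≤ 1 + -y ^ 2 := by nlinarith
    calc Real.exp (-x ^ 2) ≤ Real.exp (1 + -y ^ 2) := Real.exp_le_exp.2 h8
      _ = Real.exp 1 * Real.exp (-y ^ 2) := Real.exp_add _ _
      _ ≤ 3 * Real.exp (-y ^ 2) := by
        gcongr
        linarith [Real.exp_one_lt_d9]
  r3 s t hst h2 h3 := by
    have h0 : (0:ℝ) < t.1 := by exact_mod_cast t.2
    have h1 : (t.1 : ℝ) ≤ s.1 := by exact_mod_cast hst
    clear hst
    generalize ((s.1 : ℚ) : ℝ) = x at *
    generalize ((t.1 : ℚ) : ℝ) = y at *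
    have hx0 : 0 < x := by linarith
    rcases min_le_iff.1 h3 with h4 | h4
    · left
      have h5 : 1 ≤ x⁻¹ := (one_le_inv₀ hx0).2 (by linarith)
      exact le_min (by linarith) (by linarith)
    · right
      have h5 : 3 / 2 ≤ y := by
        rw [inv_le_comm₀ h0 (by norm_num)] at h4
        norm_num at h4
        exact h4
      have h6 : min y y⁻¹ = y⁻¹ := min_eq_right (by linarith)
      have h7 : 0 < y⁻¹ := inv_pos.2 h0
      rw [h6]
      refine ⟨le_min (by linarith) ?_, ?_⟩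
      · rw [← one_div, ← one_div, div_div, div_le_div_iff₀ (by positivity) hx0]
        linarith
      · have h8 : Real.exp (-x ^ 2) = Real.exp (-y ^ 2) * Real.exp (-(x ^ 2 - y ^ 2)) := by
          rw [← Real.exp_add]
          ring_nf
        rw [h8, mul_assoc]
        refine mul_le_mul_of_nonneg_left ?_ (Real.exp_pos _).le
        have h9 := Real.add_one_le_exp (x ^ 2 - y ^ 2)
        rw [Real.exp_neg, inv_mul_le_iff₀ (Real.exp_pos _), ← div_eq_mul_inv, le_div_iff₀ h0]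
        nlinarith

theorem trunc (a : Q1 → ℂ) (ha : MemL1T a) :
    ∃ b c : ℕ → Q1 → ℂ, (∀ i, MemL1T (b i) ∧ MemL1T (c i)) ∧
      ∀ t, a t = convT (b 0) (c 0) t + convT (b 1) (c 1) t := by
  let ι : Q1 → Qp := fun t => ⟨t.1, t.2.1⟩
  have hι : Function.Injective ι := fun s t hst => Subtype.ext (congrArg (fun q : Qp => q.1) hst)
  have ha' : MemL1 (fun _ => 1) (Function.extend ι a 0) := by
    refine ((summable_extend_zero hι).2 ha).congr fun q => ?_
    by_cases hq : ∃ j, ι j = q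
    · obtain ⟨j, rfl⟩ := hq
      rw [hι.extend_apply, hι.extend_apply, mul_one]
    · rw [Function.extend_apply' _ _ _ hq, Function.extend_apply' _ _ _ hq]
      simp
  obtain ⟨b, c, hbc, hs⟩ := main adm_one _ ha'
  have hres : ∀ f : Qp → ℂ, MemL1 (fun _ => 1) f → MemL1T (f ∘ ι) := by
    intro f hf
    have := Summable.comp_injective hf hι
    refine this.congr fun t => ?_
    simp
  have hconv : ∀ (f g : Qp → ℂ) (t : Q1), convT (f ∘ ι) (g ∘ ι) t = conv f g (ι t) := by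
    intro f g t
    let E : {p : Q1 × Q1 // p.1.1 + p.2.1 = t.1} ≃ {p : Qp × Qp // p.1.1 + p.2.1 = (ι t).1} :=
      { toFun := fun p => ⟨(ι p.1.1, ι p.1.2), p.2⟩
        invFun := fun p => ⟨(⟨p.1.1.1, p.1.1.2, by
            have h1 : p.1.1.1 + p.1.2.1 = t.1 := p.2
            linarith [p.1.2.2, t.2.2]⟩, ⟨p.1.2.1, p.1.2.2, by
            have h1 : p.1.1.1 + p.1.2.1 = t.1 := p.2
            linarith [p.1.1.2, t.2.2]⟩), p.2⟩
        left_inv := fun _ => rfl
        right_inv := fun _ => rfl }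
    unfold convT conv
    exact E.tsum_eq (fun p => f p.1.1 * g p.1.2)
  refine ⟨fun i => b i ∘ ι, fun i => c i ∘ ι, fun i => ⟨hres _ (hbc i).1, hres _ (hbc i).2⟩,
    fun t => ?_⟩
  rw [hconv, hconv, ← hs, hι.extend_apply]

end Pool.Agent.H88.QFac
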