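import Pool.Agent.H88.QFac

open Filter Topology

namespace Pool.Agent.H88.QFac

theorem Sig.tsum_W {σ : ℕ → ℚ} (h : Sig σ) {I : Type*} (u ρ : I → ℝ) (hu : ∀ t, 0 ≤ u t)
    (hs : Summable u) (hρ : ∀ t, 0 < ρ t)
    (hb : ∀ i, ∑' t, u t * ((σ i : ℝ) / (σ i + ρ t)) ≤ (1 / (2 * 16384)) ^ i) :
    ∑' t, u t * WW σ (ρ t) ≤ ∑' t, u t + 2 := by
  have hin : ∀ i, Summable fun t => u t * ((σ i : ℝ) / (σ i + ρ t)) := by
    intro i
    have h2 := h.posR i
    refine Summable.of_nonneg_of_le (fun t => ?_) (fun t => ?_) hs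
    · have := hρ t
      have := hu t
      positivity
    · have := hρ t
      refine mul_le_of_le_one_right (hu t) ?_
      rw [div_le_one (by positivity)]
      linarith
  refine (h.summable_W u ρ hu hs hρ hb).tsum_le_of_sum_le fun S => ?_
  have e : ∑ t ∈ S, u t * WW σ (ρ t) = ∑ t ∈ S, u t + ∑' i, ∑ t ∈ S, u t * term σ (ρ t) i := by
    rw [Summable.tsum_finsetSum fun t _ => (h.term_summable (hρ t)).mul_left _,
      ← Finset.sum_add_distrib]
    refine Finset.sum_congr rfl fun t _ => ?_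
    rw [tsum_mul_left, WW]
    ring
  rw [e]
  refine add_le_add (hs.sum_le_tsum S fun t _ => hu t) ?_
  rw [← tsum_geometric_two]
  refine (summable_sum fun t _ => (h.term_summable (hρ t)).mul_left _).tsum_le_tsum
    (fun i => ?_) summable_geometric_two
  have h1 := (hin i).sum_le_tsum S fun t _ => by
    have := hρ t
    have := hu t
    have := h.posR i
    positivity
  calc ∑ t ∈ S, u t * term σ (ρ t) i
      = 16384 ^ i * ∑ t ∈ S, u t * ((σ i : ℝ) / (σ i + ρ t)) := by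
        rw [Finset.mul_sum]
        refine Finset.sum_congr rfl fun t _ => ?_
        unfold term
        ring
    _ ≤ 16384 ^ i * (1 / (2 * 16384)) ^ i := by gcongr; exact h1.trans (hb i)
    _ = _ := by rw [← mul_pow]; norm_num

theorem exists_sigma2 (u : Qp → ℝ) (hu : ∀ t, 0 ≤ u t) (hs : Summable u) (ε : ℕ → ℝ)
    (hε : ∀ i, 0 < ε i) : ∃ σ : ℕ → ℚ, Sig σ ∧ (∀ i, (σ (i + 1) : ℝ) ≤ ε (i + 1)) ∧
      ∀ i, ∑' t, u t * ((σ i : ℝ) / (σ i + t.1)) ≤ (1 / (2 * 16384)) ^ i := by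
  have hu' : ∀ t, 0 ≤ Sum.elim u (fun j : ℕ => (1 / 2 : ℝ) ^ j) t := by
    rintro (t | j)
    · exact hu t
    · simp
  have hρ : ∀ t, 0 < Sum.elim (fun t : Qp => (t.1 : ℝ)) ε t := by
    rintro (t | j)
    · exact adm_one.rpos t
    · exact hε j
  have hs' : Summable (Sum.elim u fun j : ℕ => (1 / 2 : ℝ) ^ j) :=
    Summable.sum _ hs summable_geometric_two
  obtain ⟨σ, hσ, hb⟩ := exists_sigma _ _ hu' hs' hρ
  have nn : ∀ i t, 0 ≤ Sum.elim u (fun j : ℕ => (1 / 2 : ℝ) ^ j) t *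
      ((σ i : ℝ) / (σ i + Sum.elim (fun t : Qp => (t.1 : ℝ)) ε t)) := fun i t => by
    have := hu' t
    have := hρ t
    have := hσ.posR i
    positivity
  have sm : ∀ i, Summable fun t => Sum.elim u (fun j : ℕ => (1 / 2 : ℝ) ^ j) t *
      ((σ i : ℝ) / (σ i + Sum.elim (fun t : Qp => (t.1 : ℝ)) ε t)) := fun i => by
    refine Summable.of_nonneg_of_le (nn i) (fun t => mul_le_of_le_one_right (hu' t) ?_) hs'
    have := hρ t
    have := hσ.posR i
    rw [div_le_one (by positivity)]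
    linarith
  refine ⟨σ, hσ, fun i => ?_, fun i => le_trans ?_ (hb i)⟩
  · have h1 := ((sm (i + 1)).le_tsum (Sum.inr (i + 1)) fun t _ => nn _ t).trans (hb (i + 1))
    simp only [Sum.elim_inr] at h1
    have h2 : (1 / (2 * 16384) : ℝ) ^ (i + 1) ≤ (1 / 2) ^ (i + 1) * (1 / 2) := by
      rw [show (1 / (2 * 16384) : ℝ) = 1 / 2 * (1 / 16384) by norm_num, mul_pow]
      gcongr
      exact (pow_le_of_le_one (by norm_num) (by norm_num) (by omega)).trans (by norm_num)
    have h3 := le_of_mul_le_mul_left (h1.trans h2) (by positivity)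
    have := hσ.posR (i + 1)
    have := hε (i + 1)
    rw [div_le_iff₀ (by positivity)] at h3
    linarith
  · exact tsum_comp_le_tsum_of_inj (sm i) (nn i) Sum.inl_injective

noncomputable def bb (i j : ℕ) : ℂ := if j % 2 = i then 1 / (8:ℂ) ^ j else 0

theorem bb_le (i j : ℕ) : ‖bb i j‖ ≤ (1 / 2) ^ j := by
  unfold bb
  split_ifs
  · rw [← one_div_pow, norm_pow]
    gcongr
    norm_num
  · simp

theorem main2 (a : Qp → ℂ) (ha : Summable fun t => ‖a t‖) (ha1 : ∑' t, ‖a t‖ ≤ 1) (ε : ℕ → ℝ)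
    (hε : ∀ i, 0 < ε i) : ∃ (σ : ℕ → Qp) (τ : Qp → Qp) (G : ℕ → Qp → ℂ),
      (∀ i, ((σ (i + 1)).1 : ℝ) ≤ ε (i + 1)) ∧
      (∀ i, (Summable fun t => ‖G i t‖) ∧ ∑' t, ‖G i t‖ ≤ 288) ∧
      ∀ χ : ℚ → ℂ, (∀ t : Qp, ‖χ t.1‖ ≤ 1) → (∀ s t, χ (s + t) = χ s * χ t) →
        ∑' t, a t * χ t.1 = (∑' j, bb 0 j * χ (σ j).1) * (∑' t, G 0 t * χ (τ t).1) +
          (∑' j, bb 1 j * χ (σ j).1) * ∑' t, G 1 t * χ (τ t).1 := by
  classical
  have h := adm_one
  obtain ⟨σ, hσ, hσε, hb⟩ := exists_sigma2 (fun t => ‖a t‖) (fun _ => norm_nonneg _) ha ε hε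
  have haV := hσ.summable_W _ (fun t : Qp => (t.1 : ℝ)) (fun _ => norm_nonneg _) ha h.rpos hb
  have haV' := hσ.tsum_W _ (fun t : Qp => (t.1 : ℝ)) (fun _ => norm_nonneg _) ha h.rpos hb
  obtain ⟨k, hk1, hk2⟩ : ∃ k : Qp → ℕ, (∀ t, 2 * (σ (k t) : ℝ) < t.1) ∧
      ∀ t, ∀ i < k t, (t.1 : ℝ) ≤ 2 * σ i :=
    ⟨fun t => Nat.find (hσ.exists_lt (h.rpos t)), fun t => Nat.find_spec (hσ.exists_lt (h.rpos t)),
      fun t i hi => not_lt.1 (Nat.find_min (hσ.exists_lt (h.rpos t)) hi)⟩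
  have hτ0 : ∀ t : Qp, 0 < t.1 - σ (k t) := by
    intro t
    have h1 := hk1 t
    have h3 := hσ.posR (k t)
    have : (0:ℝ) < t.1 - σ (k t) := by linarith
    exact_mod_cast this
  obtain ⟨τ, hτ⟩ : ∃ τ : Qp → Qp, ∀ t, (τ t).1 = t.1 - σ (k t) :=
    ⟨fun t => ⟨_, hτ0 t⟩, fun _ => rfl⟩
  obtain ⟨pos, hpos⟩ : ∃ pos : Qp → ℕ → Qp, ∀ t j, (pos t j).1 = t.1 - σ (k t) + σ j :=
    ⟨fun t j => ⟨_, add_pos (hτ0 t) (hσ.pos j)⟩, fun _ _ => rfl⟩
  have hσi := hσ.strictAnti.injective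
  have hinj : ∀ t, Function.Injective (pos t) := by
    intro t i j hij
    have := congrArg Subtype.val hij
    rw [hpos, hpos] at this
    exact hσi (add_left_cancel this)
  obtain ⟨V, hV⟩ : ∃ V : Qp → ℝ, ∀ t, V t = WW σ t.1 := ⟨_, fun _ => rfl⟩
  have hV1 : ∀ t, 1 ≤ V t := fun t => hV t ▸ hσ.one_le_W (h.rpos t)
  have hV0 : ∀ t, 0 < V t := fun t => one_pos.trans_le (hV1 t)
  obtain ⟨w, hw⟩ : ∃ w : Qp → ℕ → ℂ, ∀ t j,
      w t j = if j % 2 = k t % 2 ∧ j ≠ k t then (8:ℂ) ^ (k t) / 8 ^ j else 0 :=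
    ⟨_, fun _ _ => rfl⟩
  have hn8 : ∀ i j : ℕ, ‖(8:ℂ) ^ i / 8 ^ j‖ = (8:ℝ) ^ i / 8 ^ j := fun i j => by
    simp
  obtain ⟨e, he⟩ : ∃ e : Qp → Qp → ℂ, ∀ t, e t = Function.extend (pos t) (w t) 0 :=
    ⟨_, fun _ => rfl⟩
  have ext : ∀ t (F : ℂ → Qp → ℂ), (∀ s, F 0 s = 0) → (fun s => F (e t s) s) =
      Function.extend (pos t) (fun j => F (w t j) (pos t j)) 0 := fun t F hF => by
    funext s
    rw [he]
    by_cases hs : ∃ j, pos t j = s
    · obtain ⟨j, rfl⟩ := hs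
      rw [(hinj t).extend_apply, (hinj t).extend_apply]
    · rw [Function.extend_apply' _ _ _ hs, Function.extend_apply' _ _ _ hs]
      exact hF s
  have hcol : ∀ t, (Summable fun s => ‖e t s‖ * V s) ∧ ∑' s, ‖e t s‖ * V s ≤ 3 / 4 * V t := by
    intro t
    have h1 := sum_two_sided (k t) (3 / 8 * V t) (by have := hV0 t; positivity)
      (fun j => ‖w t j‖ * V (pos t j))
      (fun j => mul_nonneg (norm_nonneg _) (hV0 _).le) (by simp [hw]) (by
        intro j hj
        rw [hw]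
        split_ifs with hc
        · rw [hn8, hV, hV]
          simpa only [mul_one] using
            (col_est h hσ t (pos t j) (k t) j (hk1 t) (hk2 t) (hpos t j)).1 (by omega)
        · have := hV0 t
          rw [norm_zero, zero_mul]
          positivity) (by
        intro j hj
        rw [hw]
        split_ifs with hc
        · rw [hn8, hV, hV]
          simpa only [mul_one] using
            (col_est h hσ t (pos t j) (k t) j (hk1 t) (hk2 t) (hpos t j)).2 (by omega)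
        · have := hV0 t
          rw [norm_zero, zero_mul]
          positivity)
    have h2 : (fun s => ‖e t s‖ * V s)
        = Function.extend (pos t) (fun j => ‖w t j‖ * V (pos t j)) 0 := by
      funext s
      rw [he]
      by_cases hs : ∃ j, pos t j = s
      · obtain ⟨j, rfl⟩ := hs
        rw [(hinj t).extend_apply, (hinj t).extend_apply]
      · rw [Function.extend_apply' _ _ _ hs, Function.extend_apply' _ _ _ hs]
        simp
    have h3 := (hasSum_extend_zero (hinj t)).2 h1.1.hasSum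
    rw [h2]
    refine ⟨h3.summable, ?_⟩
    rw [h3.tsum_eq]
    linarith [h1.2]
  simp only [← hV] at haV haV'
  obtain ⟨g, hg, hge⟩ := L1Solve.solve V hV0 e (3 / 4) (by norm_num) (by norm_num)
    (fun t => (hcol t).1) (fun t => (hcol t).2) a haV
  have nn : ∀ p : Qp × Qp, 0 ≤ ‖g p.1‖ * (‖e p.1 p.2‖ * V p.2) := fun p => by
    have := hV0 p.2
    positivity
  have row : ∀ t, ∑' s, ‖g t‖ * (‖e t s‖ * V s) ≤ 3 / 4 * (‖g t‖ * V t) := fun t => by
    rw [tsum_mul_left, mul_left_comm]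
    exact mul_le_mul_of_nonneg_left (hcol t).2 (norm_nonneg _)
  have dbl : Summable fun p : Qp × Qp => ‖g p.1‖ * (‖e p.1 p.2‖ * V p.2) := by
    rw [summable_prod_of_nonneg nn]
    exact ⟨fun t => (hcol t).1.mul_left ‖g t‖, Summable.of_nonneg_of_le
      (fun t => tsum_nonneg fun s => nn (t, s)) row (hg.mul_left _)⟩
  have gb : ∑' t, ‖g t‖ * V t ≤ 12 := by
    have h1 : ∀ s, ‖g s‖ * V s ≤ ‖a s‖ * V s + ∑' t, ‖g t‖ * (‖e t s‖ * V s) := fun s => by
      have h2 : Summable fun t => ‖g t‖ * (‖e t s‖ * V s) := dbl.prod_symm.prod_factor s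
      have h3 := ((hge s).mul_right (V s : ℂ)).norm_le_of_bounded h2.hasSum fun t => by
        rw [norm_mul, norm_mul, Complex.norm_real, Real.norm_of_nonneg (hV0 s).le, mul_assoc]
      rw [norm_mul, Complex.norm_real, Real.norm_of_nonneg (hV0 s).le] at h3
      have h4 := norm_sub_norm_le (g s) (a s)
      rw [norm_sub_rev] at h4
      nlinarith [hV0 s]
    have h0 : Summable fun s => ∑' t, ‖g t‖ * (‖e t s‖ * V s) := dbl.prod_symm.prod
    have h2 := hg.tsum_le_tsum h1 (haV.add h0)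
    rw [haV.tsum_add h0,
      Summable.tsum_comm (f := fun t s => ‖g t‖ * (‖e t s‖ * V s)) dbl] at h2
    have h3 := dbl.prod.tsum_le_tsum row (hg.mul_left _)
    rw [tsum_mul_left] at h3
    linarith
  obtain ⟨G, hG⟩ : ∃ G : ℕ → Qp → ℂ, ∀ i t,
      G i t = if k t % 2 = i then (8:ℂ) ^ (k t) * g t else 0 := ⟨_, fun _ _ => rfl⟩
  have hGl : ∀ i t, ‖G i t‖ ≤ 24 * (‖g t‖ * V t) := by
    intro i t
    have h2 : (8:ℝ) ^ (k t) ≤ 24 * V t := by
      have h3 := hV1 t
      rcases Nat.eq_zero_or_pos (k t) with h4 | h4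
      · rw [h4, pow_zero]
        linarith
      · obtain ⟨m, hm⟩ : ∃ m, k t = m + 1 := ⟨k t - 1, by omega⟩
        have h5 := hσ.W_low (h.rpos t) (hk2 t m (by omega))
        have h6 : (8:ℝ) ^ m ≤ 16384 ^ m := pow_le_pow_left₀ (by norm_num) (by norm_num) m
        rw [hm, pow_succ, hV]
        linarith
    have h7 := hV0 t
    rw [hG]
    split_ifs
    · rw [norm_mul, norm_pow]
      simp only [Complex.norm_ofNat]
      nlinarith [norm_nonneg (g t)]
    · rw [norm_zero]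
      positivity
  have hGs : ∀ i, Summable fun t => ‖G i t‖ := fun i =>
    Summable.of_nonneg_of_le (fun t => norm_nonneg _) (hGl i) (hg.mul_left 24)
  refine ⟨fun j => ⟨σ j, hσ.pos j⟩, τ, G, hσε, fun i => ⟨hGs i, ?_⟩, fun χ hχ hm => ?_⟩
  · have := (hGs i).tsum_le_tsum (hGl i) (hg.mul_left 24)
    rw [tsum_mul_left] at this
    linarith
  have sb : ∀ {J : Type} (f : J → ℂ) (p : J → Qp), (Summable fun j => ‖f j‖) →
      Summable fun j => f j * χ (p j).1 := fun f p hf =>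
    Summable.of_norm_bounded hf fun j => by
      rw [norm_mul]
      exact mul_le_of_le_one_right (norm_nonneg _) (hχ _)
  have hg1 : Summable fun t => ‖g t‖ := Summable.of_nonneg_of_le (fun _ => norm_nonneg _)
    (fun t => le_mul_of_one_le_right (norm_nonneg _) (hV1 t)) hg
  have dbl2 : Summable fun p : Qp × Qp => g p.1 * e p.1 p.2 * χ p.2.1 :=
    sb (fun p : Qp × Qp => g p.1 * e p.1 p.2) Prod.snd (Summable.of_nonneg_of_le
      (fun _ => norm_nonneg _) (fun p => by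
        rw [norm_mul]
        exact mul_le_mul_of_nonneg_left (le_mul_of_one_le_right (norm_nonneg _) (hV1 _))
          (norm_nonneg _)) dbl)
  have sbb : ∀ i, Summable fun j => bb i j * χ (σ j) := fun i =>
    sb (bb i) (fun j => ⟨σ j, hσ.pos j⟩) (Summable.of_nonneg_of_le (fun _ => norm_nonneg _)
      (bb_le i) summable_geometric_two)
  have e1 : ∀ s, a s * χ s.1 = g s * χ s.1 + ∑' t, g t * e t s * χ s.1 := fun s => by
    rw [tsum_mul_right, (hge s).tsum_eq]
    ring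
  have e2 : ∀ t, g t * χ t.1 + ∑' s, g t * e t s * χ s.1 =
      (∑' j, bb 0 j * χ (σ j)) * (G 0 t * χ (τ t).1) +
        (∑' j, bb 1 j * χ (σ j)) * (G 1 t * χ (τ t).1) := fun t => by
    have h0 := (((sbb (k t % 2)).hasSum.mul_left (8 ^ k t * g t * χ (τ t).1)).sub
      (hasSum_ite_eq (k t) (g t * χ t.1)))
    have h1 : (fun j => 8 ^ k t * g t * χ (τ t).1 * (bb (k t % 2) j * χ (σ j)) -
        if j = k t then g t * χ t.1 else 0) = fun j => g t * w t j * χ (pos t j).1 := by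
      funext j
      have h2 : χ (pos t j).1 = χ (τ t).1 * χ (σ j) := by rw [hpos, ← hτ, hm]
      have h3 : χ t.1 = χ (τ t).1 * χ (σ (k t)) := by rw [← hm, hτ, sub_add_cancel]
      rw [h2, hw, bb]
      by_cases hj : j = k t
      · rw [h3, hj]
        simp
        field_simp
        ring
      · by_cases hj2 : j % 2 = k t % 2 <;> simp [hj, hj2]
        ring
    rw [h1] at h0
    have h4 := (hasSum_extend_zero (hinj t)).2 h0
    rw [← ext t (fun z s => g t * z * χ s.1) (by simp)] at h4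
    rw [h4.tsum_eq, hG, hG]
    rcases Nat.mod_two_eq_zero_or_one (k t) with h2 | h2 <;> simp [h2] <;> ring
  have s0 : Summable fun t => g t * χ t.1 := sb g id hg1
  have s1 : Summable fun s => ∑' t, g t * e t s * χ s.1 := dbl2.prod_symm.prod
  have s2 : Summable fun t => ∑' s, g t * e t s * χ s.1 := dbl2.prod
  rw [tsum_congr e1, s0.tsum_add s1,
    Summable.tsum_comm (f := fun t s => g t * e t s * χ s.1) dbl2,
    ← s0.tsum_add s2, tsum_congr e2,
    ((sb _ τ (hGs 0)).mul_left _).tsum_add ((sb _ τ (hGs 1)).mul_left _), tsum_mul_left,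
    tsum_mul_left]

end Pool.Agent.H88.QFac
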