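import Mathlib

set_option autoImplicit false

namespace Pool.Agent.H88.QFac

abbrev Qp : Type := {q : ℚ // 0 < q}

abbrev Q1 : Type := {q : ℚ // 0 < q ∧ q ≤ 1}

def MemL1 (ω : Qp → ℝ) (f : Qp → ℂ) : Prop := Summable fun t => ‖f t‖ * ω t

noncomputable def conv (f g : Qp → ℂ) (t : Qp) : ℂ :=
  ∑' p : {p : Qp × Qp // p.1.1 + p.2.1 = t.1}, f p.1.1 * g p.1.2

def MemL1T (f : Q1 → ℂ) : Prop := Summable fun t => ‖f t‖

noncomputable def convT (f g : Q1 → ℂ) (t : Q1) : ℂ :=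
  ∑' p : {p : Q1 × Q1 // p.1.1 + p.2.1 = t.1}, f p.1.1 * g p.1.2

end Pool.Agent.H88.QFac
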