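import Mathlib

set_option autoImplicit false

open Filter Topology

namespace Pool.Agent.H88.QRigid

variable {K X : Type} [RCLike K] [NormedAddCommGroup X] [NormedSpace K X]

/-- The operators that are pointwise limits, on a dense set, of a subsequence of powers of `T`. -/
def Omega (T : X →L[K] X) : Set (X →L[K] X) :=
  {h | ∃ ω : ℕ → ℕ, StrictMono ω ∧ (∀ n, 1 ≤ ω n) ∧ ∃ D : Set X, Dense D ∧
    ∀ x ∈ D, Tendsto (fun n => T^[ω n] x) atTop (𝓝 (h x))}

/-- Quasi-rigid operators. -/
def QuasiRigid (T : X →L[K] X) : Prop :=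
  ∃ θ : ℕ → ℕ, StrictMono θ ∧ (∀ n, 1 ≤ θ n) ∧ ∃ D : Set X, Dense D ∧
    ∀ x ∈ D, Tendsto (fun n => T^[θ n] x) atTop (𝓝 x)

/-- Closure in the strong operator topology, the topology of pointwise convergence. -/
def sotClosure (A : Set (X →L[K] X)) : Set (X →L[K] X) :=
  {h | (h : X → X) ∈ closure ((fun S : X →L[K] X => (S : X → X)) '' A)}

/-- The orbit of `L` under left multiplication by `T`, over positive exponents. -/
def leftOrbit (T L : X →L[K] X) : Set (X →L[K] X) := {S | ∃ n : ℕ, 1 ≤ n ∧ S = T ^ n * L}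

end Pool.Agent.H88.QRigid
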