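import Pool.Agent.H88.LpDyn2
import Pool.Agent.H88.QRigidDefs

set_option autoImplicit false

open Filter Topology Set

namespace Pool.Agent.H88.QRigid

open Pool.Agent.H88.LpDyn

/-- the index set -/
abbrev Ix : Type := Σ k : ℕ, ZMod (k + 1)

/-- the space -/
noncomputable abbrev Y (K : Type) [RCLike K] : Type := lp (fun _ : Ix => K) 2

variable {K : Type} [RCLike K]

/-- the cyclic shift in each block -/
def nx (s : Ix) : Ix := ⟨s.1, s.2 + 1⟩

lemma nx_inj : Function.Injective nx := by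
  rintro ⟨k, i⟩ ⟨l, j⟩ h
  simp only [nx, Sigma.mk.injEq] at h
  obtain ⟨rfl, h⟩ := h
  rw [add_right_cancel (eq_of_heq h)]

lemma w_le (s : Ix) : ‖((2 : K) ^ (s.2 + 1).val / 2 ^ s.2.val)‖ ≤ 2 := by
  rw [norm_div, norm_pow, norm_pow, RCLike.norm_ofNat, div_le_iff₀ (by positivity), ← pow_succ']
  refine pow_le_pow_right₀ (by norm_num) ((ZMod.val_add_le _ _).trans ?_)
  have : (1 : ZMod (s.1 + 1)).val ≤ 1 := by
    rw [ZMod.val_one_eq_one_mod]; exact Nat.mod_le _ _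
  omega

/-- the operator -/
noncomputable def T (K : Type) [RCLike K] : Y K →L[K] Y K :=
  wcmp two_pos' nx nx_inj (fun s => (2 : K) ^ (s.2 + 1).val / 2 ^ s.2.val) 2 w_le

lemma T_iter (n : ℕ) (x : Y K) (k : ℕ) (i : ZMod (k + 1)) :
    (T K)^[n] x ⟨k, i⟩ = 2 ^ (i + n).val / 2 ^ i.val * x ⟨k, i + n⟩ := by
  induction n generalizing i with
  | zero => simp
  | succ n ih =>
    rw [Function.iterate_succ_apply', T, wcmp_apply, ← T, nx, ih]
    push_cast
    rw [show i + 1 + n = i + (n + 1) by ring]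
    field_simp

lemma one_mem : (1 : Y K →L[K] Y K) ∈ Omega (T K) := by
  classical
  refine ⟨fun n => (n + 1).factorial, strictMono_nat_of_lt_succ fun n =>
    (Nat.factorial_lt (Nat.succ_pos n)).2 (by omega), fun n => Nat.factorial_pos _,
    {x | ∃ M, ∀ s : Ix, M ≤ s.1 → x s = 0}, fun x => ?_, ?_⟩
  · refine mem_closure_of_tendsto (lp.hasSum_single (by norm_num) x) (Eventually.of_forall fun F => ?_)
    refine ⟨F.sup (fun s => s.1) + 1, fun s hs => ?_⟩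
    rw [lp.coeFn_sum, Finset.sum_apply]
    refine Finset.sum_eq_zero fun t ht => lp.single_apply_ne _ _ _ ?_
    rintro rfl
    have := Finset.le_sup (f := fun s : Ix => s.1) ht
    omega
  · rintro x ⟨M, hM⟩
    refine tendsto_const_nhds.congr' ?_
    filter_upwards [eventually_ge_atTop M] with n hn
    ext ⟨k, i⟩
    rw [T_iter]
    by_cases hk : M ≤ k
    · simp [hM ⟨k, _⟩ hk]
    · have : (((n + 1).factorial : ℕ) : ZMod (k + 1)) = 0 :=
        (ZMod.natCast_eq_zero_iff _ _).2 (Nat.dvd_factorial (Nat.succ_pos k) (by omega))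
      rw [this, add_zero]
      simp

lemma not_mem (L : Y K →L[K] Y K) : (1 : Y K →L[K] Y K) ∉ sotClosure (leftOrbit (T K) L) := by
  classical
  intro h
  have app : ∀ (x : Y K) (ε : ℝ), 0 < ε → ∃ n, 1 ≤ n ∧ ∀ s, ‖(T K)^[n] (L x) s - x s‖ < ε := by
    intro x ε hε
    have h1 := map_mem_closure (f := fun f : Y K → Y K => f x) (continuous_apply x) h
      (t := {y | ∃ n, 1 ≤ n ∧ y = (T K)^[n] (L x)}) (by
        rintro _ ⟨_, ⟨n, hn, rfl⟩, rfl⟩
        exact ⟨n, hn, by simp⟩)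
    obtain ⟨_, ⟨n, hn, rfl⟩, h2⟩ := Metric.mem_closure_iff.1 h1 ε hε
    refine ⟨n, hn, fun s => ?_⟩
    rw [dist_comm, dist_eq_norm] at h2
    exact (lp.norm_apply_le_norm (by norm_num) ((T K)^[n] (L x) - x) s).trans_lt h2
  obtain ⟨ee, hee⟩ : ∃ ee : ℕ → Y K, ∀ k, ee k = lp.single 2 ⟨k, (k : ZMod (k + 1))⟩ 1 :=
    ⟨_, fun _ => rfl⟩
  have hval : ∀ k : ℕ, (k : ZMod (k + 1)).val = k := fun k =>
    ZMod.val_natCast_of_lt (Nat.lt_succ_self k)
  have hnorm : ∀ k, ‖ee k‖ = 1 := fun k => by rw [hee, lp.norm_single (by norm_num), norm_one]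
  have off : ∀ k l (i : ZMod (l + 1)), l ≠ k → L (ee k) ⟨l, i⟩ = 0 := by
    intro k l i hlk
    rw [← norm_le_zero_iff]
    refine le_of_forall_pos_le_add fun ε hε => ?_
    obtain ⟨n, -, hn⟩ := app (ee k) (ε / 2 ^ l) (by positivity)
    have h1 := hn ⟨l, i - n⟩
    have h0 : ee k ⟨l, i - n⟩ = 0 := by
      rw [hee]
      exact lp.single_apply_ne _ _ _ (fun h => hlk (congrArg Sigma.fst h))
    rw [T_iter, sub_add_cancel, h0, sub_zero, norm_mul, norm_div, norm_pow, norm_pow,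
      RCLike.norm_ofNat, lt_div_iff₀ (by positivity)] at h1
    have h2 : (2 : ℝ) ^ (i - n).val ≤ 2 ^ i.val * 2 ^ l := by
      rw [← pow_add]
      have := ZMod.val_lt (i - (n : ZMod (l + 1)))
      exact pow_le_pow_right₀ (by norm_num) (by omega)
    have h3 : 1 ≤ (2 : ℝ) ^ i.val / 2 ^ (i - n).val * 2 ^ l := by
      rw [div_mul_eq_mul_div, le_div_iff₀ (by positivity)]; linarith
    nlinarith [norm_nonneg (L (ee k) ⟨l, i⟩)]
  have diag : ∀ k, ∃ i : ZMod (k + 1), (2 : ℝ) ^ k ≤ 2 * 2 ^ i.val * ‖L (ee k) ⟨k, i⟩‖ := by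
    intro k
    obtain ⟨n, -, hn⟩ := app (ee k) (1 / 2) (by positivity)
    have h1 := hn ⟨k, k⟩
    have h0 : ee k ⟨k, k⟩ = 1 := by rw [hee]; exact lp.single_apply_self _ _ _
    rw [T_iter, h0, hval] at h1
    refine ⟨k + n, ?_⟩
    have h2 := norm_sub_norm_le (1 : K)
      (2 ^ ((k : ZMod (k + 1)) + n).val / 2 ^ k * L (ee k) ⟨k, k + n⟩)
    rw [norm_sub_rev, norm_one, norm_mul, norm_div, norm_pow, norm_pow, RCLike.norm_ofNat] at h2
    have h3 : 1 / 2 ≤ (2 : ℝ) ^ ((k : ZMod (k + 1)) + n).val / 2 ^ k * ‖L (ee k) ⟨k, k + n⟩‖ := by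
      linarith
    rw [div_mul_eq_mul_div, le_div_iff₀ (by positivity)] at h3
    linarith
  obtain ⟨c, hc⟩ := pow_unbounded_of_one_lt (2 * ‖L‖) (show (1 : ℝ) < 2 by norm_num)
  have hsum : Summable fun k : ℕ => ((2 : K) ^ k)⁻¹ • ee k := by
    refine Summable.of_norm_bounded (summable_geometric_two) fun k => ?_
    rw [norm_smul, hnorm, norm_inv, norm_pow, RCLike.norm_ofNat, mul_one, one_div, inv_pow]
  obtain ⟨x, hx⟩ := hsum
  obtain ⟨n, hn1, hn⟩ := app x (1 / (2 * 2 ^ c)) (by positivity)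
  obtain ⟨i, hi⟩ := diag (n + c)
  have hLi : ‖L (ee (n + c)) ⟨n + c, i⟩‖ ≤ ‖L‖ := by
    refine (lp.norm_apply_le_norm (by norm_num) _ _).trans ((L.le_opNorm _).trans ?_)
    rw [hnorm, mul_one]
  have hni : n ≤ i.val := by
    by_contra h0
    have h1 : (2 : ℝ) ^ i.val ≤ 2 ^ n := pow_le_pow_right₀ (by norm_num) (by omega)
    have h2 : 2 * 2 ^ i.val * ‖L (ee (n + c)) ⟨n + c, i⟩‖ ≤ 2 * 2 ^ n * ‖L‖ := by gcongr
    have h3 : (0 : ℝ) < 2 ^ n := by positivity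
    rw [pow_add] at hi
    nlinarith
  have hil := ZMod.val_lt i
  obtain ⟨t, ht⟩ : ∃ t : ZMod (n + c + 1), t = ((i.val - n : ℕ) : ZMod (n + c + 1)) := ⟨_, rfl⟩
  have htv : t.val = i.val - n := by rw [ht]; exact ZMod.val_natCast_of_lt (by omega)
  have hti : t + n = i := by
    rw [ht, ← Nat.cast_add, Nat.sub_add_cancel hni, ZMod.natCast_zmod_val]
  have hx0 : x ⟨n + c, t⟩ = 0 := by
    have h1 := (lp.evalCLM K (fun _ : Ix => K) 2 ⟨n + c, t⟩).hasSum hx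
    refine h1.unique ?_
    convert hasSum_zero with k
    rw [map_smul, hee]
    refine smul_eq_zero_of_right _ (lp.single_apply_ne (E := fun _ : Ix => K) 2 _ _ fun h => ?_)
    have h2 : n + c = k := congrArg Sigma.fst h
    subst h2
    have h3 : t = ((n + c : ℕ) : ZMod (n + c + 1)) := eq_of_heq (Sigma.mk.inj h).2
    rw [h3, hval] at htv
    omega
  have hx1 : L x ⟨n + c, i⟩ = ((2 : K) ^ (n + c))⁻¹ * L (ee (n + c)) ⟨n + c, i⟩ := by
    have h1 := ((lp.evalCLM K (fun _ : Ix => K) 2 ⟨n + c, i⟩).comp L).hasSum hx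
    refine h1.unique ?_
    convert hasSum_single (n + c) ?_ using 1
    · rw [map_smul]; rfl
    · intro k hk
      rw [map_smul]
      exact smul_eq_zero_of_right _ (off k (n + c) i hk.symm)
  have h1 := hn ⟨n + c, t⟩
  rw [T_iter, hx0, sub_zero, hti, hx1, htv, norm_mul, norm_mul, norm_div, norm_inv, norm_pow,
    norm_pow, norm_pow, RCLike.norm_ofNat] at h1
  have h2 : (2 : ℝ) ^ i.val = 2 ^ (i.val - n) * 2 ^ n := by
    rw [← pow_add, Nat.sub_add_cancel hni]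
  have h3 : (2 : ℝ) ^ i.val ≤ 2 ^ (n + c) := pow_le_pow_right₀ (by norm_num) (by omega)
  have h4 : 1 ≤ 2 * ‖L (ee (n + c)) ⟨n + c, i⟩‖ := by
    have h5 : (0 : ℝ) < 2 ^ (n + c) := by positivity
    have h6 : 2 * 2 ^ i.val * ‖L (ee (n + c)) ⟨n + c, i⟩‖
      ≤ 2 * 2 ^ (n + c) * ‖L (ee (n + c)) ⟨n + c, i⟩‖ := by gcongr
    nlinarith
  rw [h2, mul_div_cancel_left₀ _ (by positivity), pow_add, lt_div_iff₀ (by positivity)] at h1
  have h7 : (2 : ℝ) ^ n * ((2 ^ n * 2 ^ c)⁻¹ * ‖L (ee (n + c)) ⟨n + c, i⟩‖) * (2 * 2 ^ c)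
      = 2 * ‖L (ee (n + c)) ⟨n + c, i⟩‖ := by field_simp
  linarith

end Pool.Agent.H88.QRigid
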