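import Pool.Agent.H88.QmDefs
import Pool.Agent.H84.Med

namespace Pool.Agent.H88.Qm
open BoundedContinuousFunction Filter Topology Set

noncomputable def cp (e : ℕ → ℕ) : (ℕ →ᵇ ℝ) →L[ℝ] (ℕ →ᵇ ℝ) :=
  LinearMap.mkContinuous
    { toFun := fun g => g.compContinuous ⟨e, continuous_of_discreteTopology⟩
      map_add' := fun _ _ => rfl
      map_smul' := fun _ _ => rfl } 1 fun g => by
    simpa using norm_compContinuous_le g _

theorem pos_bd {ν : (ℕ →ᵇ ℝ) →L[ℝ] ℝ} (h : ∀ g, 0 ≤ g → 0 ≤ ν g) (g : ℕ →ᵇ ℝ) (c : ℝ)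
    (hg : ∀ n, |g n| ≤ c) : |ν g| ≤ c * ν 1 := by
  have a := h (c • 1 - g) fun n => by simpa using (abs_le.mp (hg n)).2
  have b := h (c • 1 + g) fun n => by
    have := (abs_le.mp (hg n)).1
    show 0 ≤ c * 1 + g n
    linarith
  rw [map_sub, map_smul, smul_eq_mul] at a
  rw [map_add, map_smul, smul_eq_mul] at b
  exact abs_le.mpr ⟨by linarith, by linarith⟩

def val (k : ℕ) (i : Fin 3) : ℝ := if (i : ℕ) = k % 2 then -1 else 1

noncomputable def xx (k : ℕ) : C(ℕ → Fin 3, ℝ) :=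
  ⟨fun t => val k (t (k / 2)), (continuous_of_discreteTopology (f := val k)).comp (continuous_apply (k / 2))⟩

theorem xx_norm (k : ℕ) : ‖xx k‖ ≤ 1 := by
  rw [ContinuousMap.norm_le _ zero_le_one]
  intro t
  simp only [xx, val, ContinuousMap.coe_mk]
  split_ifs <;> simp

theorem xx_orth (y : C(ℕ → Fin 3, ℝ)) :
    Tendsto (fun n => ‖y + xx n‖) atTop (𝓝 (1 + ‖y‖)) := by
  obtain ⟨t, -, ht⟩ := isCompact_univ.exists_isMaxOn univ_nonempty y.continuous.abs.continuousOn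
  have h1 : ‖y‖ = |y t| := le_antisymm ((ContinuousMap.norm_le _ (abs_nonneg _)).mpr
    fun s => ht (mem_univ s)) (y.norm_coe_le_norm t)
  obtain ⟨σ, hσ, i, hi⟩ : ∃ σ : ℝ, |y t + σ| = 1 + |y t| ∧ ∃ i : ℕ → Fin 3, ∀ k, val k (i k) = σ := by
    rcases le_total 0 (y t) with h | h
    · refine ⟨1, by rw [abs_of_nonneg h, abs_of_nonneg (by linarith), add_comm], fun _ => 2,
        fun k => ?_⟩
      have : ¬ (2 = k % 2) := by omega
      simp [val, this]
    · refine ⟨-1, by rw [abs_of_nonpos h, abs_of_nonpos (by linarith)]; ring,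
        fun k => ⟨k % 2, by omega⟩, fun k => by simp [val]⟩
  have h2 : Tendsto (fun n => Function.update t (n / 2) (i n)) atTop (𝓝 t) := by
    rw [tendsto_pi_nhds]
    intro j
    apply tendsto_const_nhds.congr'
    filter_upwards [eventually_ge_atTop (2 * j + 2)] with n hn
    rw [Function.update_of_ne (by omega)]
  have h3 := (((y.continuous.tendsto t).comp h2).add_const σ).abs
  rw [hσ, ← h1] at h3
  refine tendsto_of_tendsto_of_tendsto_of_le_of_le h3 tendsto_const_nhds (fun n => ?_) fun n => ?_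
  · have := (y + xx n).norm_coe_le_norm (Function.update t (n / 2) (i n))
    simpa [xx, hi] using this
  · show _ ≤ 1 + ‖y‖
    linarith [norm_add_le y (xx n), xx_norm n]

theorem half {ε : ℝ} {ν : (ℕ →ᵇ ℝ) →L[ℝ] ℝ} (h : QM ε ν) : QM (ε / 2)
    ((1 / 2 : ℝ) • (ν ∘L cp (fun n => 2 * n) + ν ∘L cp (fun n => 2 * n + 1))) ∧ ε ≤ ν 1 := by
  obtain ⟨h1, h2, h3, h4⟩ := h
  set μ : (ℕ →ᵇ ℝ) →L[ℝ] ℝ :=
    (1 / 2 : ℝ) • (ν ∘L cp (fun n => 2 * n) + ν ∘L cp (fun n => 2 * n + 1))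
  have hμ : ∀ g, μ g = 1 / 2 * (ν (cp (fun n => 2 * n) g) + ν (cp (fun n => 2 * n + 1) g)) :=
    fun g => rfl
  have hm : ∀ A, meas μ A =
      1 / 2 * (meas ν ((fun n => 2 * n) ⁻¹' A) + meas ν ((fun n => 2 * n + 1) ⁻¹' A)) :=
    fun A => rfl
  have m0 : ∀ A, 0 ≤ meas ν A := fun A => h1 _ fun n => indicator_nonneg (fun _ _ => zero_le_one) n
  have c0 : ε ≤ ν 1 := by
    obtain ⟨A, -, hA⟩ := h4 id fun n => by simp
    have := h1 (1 - BoundedContinuousFunction.indicator A (isClopen_discrete A)) fun n => by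
      show 0 ≤ 1 - A.indicator 1 n
      by_cases hn : n ∈ A <;> simp [hn]
    rw [map_sub] at this
    exact hA.trans (sub_nonneg.mp this)
  refine ⟨⟨fun g hg => ?_, ?_, fun A hA => ?_, fun p hp => ?_⟩, c0⟩
  · have a := h1 (cp (fun n => 2 * n) g) fun n => hg (2 * n)
    have b := h1 (cp (fun n => 2 * n + 1) g) fun n => hg (2 * n + 1)
    rw [hμ]; linarith
  · show 1 / 2 * (ν 1 + ν 1) ≤ 1
    linarith
  · rw [hm, h3 _ (hA.preimage fun a _ b _ h => by omega),
      h3 _ (hA.preimage fun a _ b _ h => by omega)]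
    simp
  · obtain ⟨A, a1, a2⟩ := h4 (fun n => p (2 * n)) fun n =>
      (hp n).preimage (f := fun n => 2 * n) fun a _ b _ h => by simp only at h; omega
    refine ⟨(fun n => 2 * n) '' A, ?_, ?_⟩
    · rintro _ ⟨a, ha, rfl⟩ _ ⟨b, hb, rfl⟩ h
      rw [a1 ha hb h]
    · rw [hm, preimage_image_eq A fun a b h => by omega]
      linarith [m0 ((fun n => 2 * n + 1) ⁻¹' ((fun n => 2 * n) '' A))]

theorem core {ε : ℝ} {ν : (ℕ →ᵇ ℝ) →L[ℝ] ℝ} (hε : 0 < ε) (h : QM ε ν)
    {X : Type} [NormedAddCommGroup X] [NormedSpace ℝ X] [CompleteSpace X] (x : ℕ → X)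
    (hx : ∀ n, ‖x n‖ ≤ 1) (ho : ∀ y, Tendsto (fun n => ‖y + x n‖) atTop (𝓝 (1 + ‖y‖)))
    (u : X) (hu : ‖u‖ = 1) (he : ∀ n, ‖(1 / 2 : ℝ) • (x (2 * n) + x (2 * n + 1)) - u‖ ≤ 1)
    (φ : X →L[ℝ] ℝ) (hφ : ∀ y, ‖φ y‖ ≤ ‖y‖) (hφx : ∀ n, φ (x n) = 1) : ¬ Ineq := by
  intro H
  obtain ⟨hq, c0⟩ := half h
  obtain ⟨h1, h2, h3, h4⟩ := h
  set μ : (ℕ →ᵇ ℝ) →L[ℝ] ℝ :=
    (1 / 2 : ℝ) • (ν ∘L cp (fun n => 2 * n) + ν ∘L cp (fun n => 2 * n + 1))
  have hμ : ∀ g, μ g = 1 / 2 * (ν (cp (fun n => 2 * n) g) + ν (cp (fun n => 2 * n + 1) g)) :=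
    fun g => rfl
  have hb : ∀ (f : StrongDual ℝ X) n, ‖f (x n)‖ ≤ ‖f‖ := fun f n =>
    (f.le_opNorm _).trans (mul_le_of_le_one_right (norm_nonneg _) (hx n))
  let T : StrongDual ℝ X →L[ℝ] (ℕ →ᵇ ℝ) := LinearMap.mkContinuous
    { toFun := fun f => ofNormedAddCommGroupDiscrete (fun n => f (x n)) ‖f‖ (hb f)
      map_add' := fun _ _ => by ext; rfl
      map_smul' := fun _ _ => by ext; rfl } 1 fun f => by
    rw [one_mul]
    exact (BoundedContinuousFunction.norm_le (norm_nonneg f)).mpr fun n => hb f n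
  have hT : ∀ f n, T f n = f (x n) := fun f n => rfl
  let w : StrongDual ℝ (StrongDual ℝ X) := μ ∘L T
  have hw : ∀ f, w f = μ (T f) := fun _ => rfl
  have key := H (ε / 2) μ (by positivity) hq _ x hx ho w
    (fun f g hg => congrArg μ (by ext n; exact (hg n).symm)) (-u)
  have w1 : ν 1 ≤ ‖w‖ := by
    have e : T φ = 1 := by
      ext k
      exact hφx k
    have a := w.le_opNorm φ
    have b : ‖φ‖ ≤ 1 := ContinuousLinearMap.opNorm_le_bound _ zero_le_one fun f => by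
      simpa using hφ f
    rw [hw, e] at a
    have c : μ 1 = 1 / 2 * (ν 1 + ν 1) := rfl
    have d := le_abs_self (μ 1)
    rw [Real.norm_eq_abs] at a
    nlinarith [norm_nonneg w]
  have w2 : ‖NormedSpace.inclusionInDoubleDual ℝ X (-u) + w‖ ≤ 1 := by
    refine ContinuousLinearMap.opNorm_le_bound _ zero_le_one fun f => ?_
    have a := pos_bd h1 ((1 / 2 : ℝ) • (cp (fun n => 2 * n) (T f) + cp (fun n => 2 * n + 1) (T f))
      - f u • 1) ‖f‖ fun n => by
        have := (f.le_opNorm _).trans (mul_le_of_le_one_right (norm_nonneg _) (he n))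
        rw [map_sub, map_smul, map_add] at this
        show |1 / 2 * (f (x (2 * n)) + f (x (2 * n + 1))) - f u * 1| ≤ _
        rw [mul_one]
        exact this
    rw [map_sub, map_smul, map_add, map_smul, smul_eq_mul, smul_eq_mul, ← hμ] at a
    have b := (f.le_opNorm u).trans (mul_le_of_le_one_right (norm_nonneg _) hu.le)
    show |f (-u) + μ (T f)| ≤ _
    rw [map_neg, one_mul]
    rw [Real.norm_eq_abs] at b
    rw [abs_le] at a b ⊢
    constructor <;> nlinarith [a.1, a.2, b.1, b.2]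
  rw [norm_neg, hu] at key
  nlinarith

theorem not_ineq {ε : ℝ} {ν : (ℕ →ᵇ ℝ) →L[ℝ] ℝ} (hε : 0 < ε) (h : QM ε ν) : ¬ Ineq := by
  refine core hε h xx xx_norm xx_orth 1 norm_one (fun n => ?_)
    (ContinuousMap.evalCLM ℝ fun _ => 2) (fun f => f.norm_coe_le_norm _) fun k => ?_
  · rw [ContinuousMap.norm_le _ zero_le_one]
    intro t
    have e1 : (2 * n + 1) / 2 = n := by omega
    have e2 : (2 * n + 1) % 2 = 1 := by omega
    have e3 : (2 * n) / 2 = n := by omega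
    have e4 : (2 * n) % 2 = 0 := by omega
    simp only [xx, val, ContinuousMap.sub_apply, ContinuousMap.smul_apply,
      ContinuousMap.add_apply, ContinuousMap.coe_mk, e1, e2, e3, e4, ContinuousMap.one_apply]
    split_ifs <;> first | omega | norm_num
  · have : ¬ (2 = k % 2) := by omega
    show val k 2 = 1
    simp [val, this]

theorem of_ch (h : Cardinal.continuum.{0} = Cardinal.aleph 1) : ∃ ν, QM 1 ν := by
  obtain ⟨U, h1, h2⟩ := H84.Med.of_ch h
  have h3 : ∀ g : ℕ →ᵇ ℝ, ∃ r, Tendsto g U (𝓝 r) := fun g => by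
    obtain ⟨r, -, hr⟩ := (isCompact_closedBall (0 : ℝ) ‖g‖).ultrafilter_le_nhds (U.map g) (by
      rw [le_principal_iff]
      exact mem_map.mpr (univ_mem' fun n => by simpa using g.norm_coe_le_norm n))
    exact ⟨r, hr⟩
  choose L hL using h3
  let ν : (ℕ →ᵇ ℝ) →L[ℝ] ℝ := LinearMap.mkContinuous
    { toFun := L
      map_add' := fun a b => tendsto_nhds_unique (hL _) ((hL a).add (hL b))
      map_smul' := fun c a => tendsto_nhds_unique (hL _) ((hL a).const_mul c) } 1 fun g => by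
    rw [one_mul]
    exact le_of_tendsto' (hL g).norm fun n => g.norm_coe_le_norm n
  have h4 : ∀ (g : ℕ →ᵇ ℝ) (c : ℝ), (∀ᶠ n in (U : Filter ℕ), g n = c) → ν g = c := fun g c hg =>
    tendsto_nhds_unique (hL g) (tendsto_const_nhds.congr' (hg.mono fun _ h => h.symm))
  refine ⟨ν, fun g hg => ge_of_tendsto' (hL g) fun n => hg n,
    (h4 1 1 (Eventually.of_forall fun _ => rfl)).le, fun A hA => h4 _ _ ?_, fun p hp => ?_⟩
  · filter_upwards [h1 hA.compl_mem_cofinite] with n hn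
    exact indicator_of_notMem hn _
  · obtain ⟨A, a1, a2⟩ := h2 (fun k => (p ⁻¹' {p k})ᶜ) fun k => h1 (hp _).compl_mem_cofinite
    refine ⟨A, fun a ha b hb hab => ?_, (h4 _ _ ?_).ge⟩
    · rcases lt_trichotomy a b with h | h | h
      · exact absurd hab.symm (a2 a ha b hb h)
      · exact h
      · exact absurd hab (a2 b hb a ha h)
    · filter_upwards [a1] with n hn
      exact indicator_of_mem hn _

end Pool.Agent.H88.Qm
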