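import Mathlib

namespace Pool.Agent.H88.Qm
open BoundedContinuousFunction Filter Topology

/-- the value `μ(A)` of the measure given by a functional on `ℓ_∞` -/
noncomputable def meas (μ : (ℕ →ᵇ ℝ) →L[ℝ] ℝ) (A : Set ℕ) : ℝ :=
  μ (BoundedContinuousFunction.indicator A (isClopen_discrete A))

/-- `ε`-strong Q-measure -/
def QM (ε : ℝ) (μ : (ℕ →ᵇ ℝ) →L[ℝ] ℝ) : Prop :=
  (∀ g, 0 ≤ g → 0 ≤ μ g) ∧ μ 1 ≤ 1 ∧ (∀ A : Set ℕ, A.Finite → meas μ A = 0) ∧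
    ∀ p : ℕ → ℕ, (∀ n, (p ⁻¹' {n}).Finite) → ∃ A, Set.InjOn p A ∧ ε ≤ meas μ A

/-- the statement asked in the problem -/
def Ineq : Prop :=
  ∀ (ε : ℝ) (μ : (ℕ →ᵇ ℝ) →L[ℝ] ℝ), 0 < ε → QM ε μ →
    ∀ (X : Type) [NormedAddCommGroup X] [NormedSpace ℝ X] [CompleteSpace X] (x : ℕ → X),
      (∀ n, ‖x n‖ ≤ 1) → (∀ y, Tendsto (fun n => ‖y + x n‖) atTop (𝓝 (1 + ‖y‖))) →
      ∀ w : StrongDual ℝ (StrongDual ℝ X),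
        (∀ (f : StrongDual ℝ X) (g : ℕ →ᵇ ℝ), (∀ n, g n = f (x n)) → w f = μ g) →
        ∀ y, ‖y‖ + ε * ‖w‖ ≤ ‖NormedSpace.inclusionInDoubleDual ℝ X y + w‖

end Pool.Agent.H88.Qm
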