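import Pool.Agent.H88.QsumDefs

open Finset BoundedContinuousFunction

namespace Pool.Agent.H88.Qsum

variable {𝕜 : Type} [RCLike 𝕜]

lemma signs {V ι : Type} [NormedAddCommGroup V] [InnerProductSpace 𝕜 V] (v : ι → V)
    (s : Finset ι) : ∃ ε : ι → 𝕜, (∀ i, ‖ε i‖ ≤ 1) ∧
      ∑ i ∈ s, ‖v i‖ ^ 2 ≤ ‖∑ i ∈ s, ε i • v i‖ ^ 2 := by
  classical
  induction s using Finset.induction_on with
  | empty => exact ⟨fun _ => 1, by simp, by simp⟩
  | insert i s hi ih =>
    obtain ⟨ε, h1, h2⟩ := ih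
    have hp := parallelogram_law_with_norm 𝕜 (v i) (∑ j ∈ s, ε j • v j)
    have key : ∀ c : 𝕜, ∑ j ∈ insert i s, Function.update ε i c j • v j =
        c • v i + ∑ j ∈ s, ε j • v j := by
      intro c
      rw [sum_insert hi, Function.update_self]
      congr 1
      apply sum_congr rfl
      intro j hj
      rw [Function.update_of_ne (by rintro rfl; exact hi hj)]
    have hn : ∀ c : 𝕜, ‖c‖ ≤ 1 → ∀ j, ‖Function.update ε i c j‖ ≤ 1 := by
      intro c hc j
      by_cases h : j = i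
      · subst h; simpa using hc
      · rw [Function.update_of_ne h]; exact h1 j
    rcases le_total ‖v i - ∑ j ∈ s, ε j • v j‖ ‖v i + ∑ j ∈ s, ε j • v j‖ with h | h
    · refine ⟨Function.update ε i 1, hn 1 (by simp), ?_⟩
      rw [key, sum_insert hi, one_smul]
      nlinarith [norm_nonneg (v i - ∑ j ∈ s, ε j • v j)]
    · refine ⟨Function.update ε i (-1), hn (-1) (by simp), ?_⟩
      rw [key, sum_insert hi, neg_one_smul, ← norm_neg (-v i + _), neg_add, neg_neg,
        ← sub_eq_add_neg]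
      nlinarith [norm_nonneg (v i + ∑ j ∈ s, ε j • v j)]

abbrev Linf (𝕜 : Type) [RCLike 𝕜] := ℕ →ᵇ 𝕜

noncomputable def ee (j : ℕ) : Linf 𝕜 :=
  ofNormedAddCommGroupDiscrete (fun i => if i = j then 1 else 0) 1 (fun i => by
    split_ifs <;> simp)

lemma ee_apply (j i : ℕ) : ee (𝕜 := 𝕜) j i = if i = j then 1 else 0 := rfl

lemma norm_comb {m : ℕ} (ε : Fin m → 𝕜) (h : ∀ i, ‖ε i‖ ≤ 1) :
    ‖∑ j : Fin m, ε j • ee (𝕜 := 𝕜) j‖ ≤ 1 := by
  rw [norm_le zero_le_one]
  intro i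
  rw [BoundedContinuousFunction.sum_apply]
  simp only [BoundedContinuousFunction.coe_smul, ee_apply, smul_eq_mul, mul_ite, mul_one, mul_zero]
  by_cases hi : i < m
  · rw [Finset.sum_eq_single (⟨i, hi⟩ : Fin m)]
    · simpa using h _
    · intro b _ hb
      rw [if_neg]
      rintro rfl
      exact hb rfl
    · simp
  · rw [Finset.sum_eq_zero]
    · simp
    · intro b _
      rw [if_neg]
      rintro rfl
      exact hi b.2

lemma form_sq (φ : ContinuousMultilinearMap 𝕜 (fun _ : Fin 2 => Linf 𝕜) 𝕜) (hφ : ‖φ‖ ≤ 1) (m : ℕ) :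
    ∑ j : Fin m, ∑ k : Fin m, ‖φ ![ee j, ee k]‖ ^ 2 ≤ 1 := by
  have e0 : ∀ a b : Linf 𝕜, (![a, b] : Fin 2 → Linf 𝕜) = Function.update ![0, b] 0 a := by
    intro a b; ext1 i; fin_cases i <;> simp
  have e1 : ∀ a b : Linf 𝕜, (![a, b] : Fin 2 → Linf 𝕜) = Function.update ![a, 0] 1 b := by
    intro a b; ext1 i; fin_cases i <;> simp
  have l0 : ∀ (ε : Fin m → 𝕜) (b : Linf 𝕜),
      φ ![∑ j : Fin m, ε j • ee j, b] = ∑ j : Fin m, ε j • φ ![ee j, b] := by
    intro ε b
    rw [e0, ← ContinuousMultilinearMap.toContinuousLinearMap_apply, map_sum]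
    apply sum_congr rfl
    intro j _
    rw [map_smul, ContinuousMultilinearMap.toContinuousLinearMap_apply, ← e0]
  have l1 : ∀ (ε : Fin m → 𝕜) (a : Linf 𝕜),
      φ ![a, ∑ j : Fin m, ε j • ee j] = ∑ j : Fin m, ε j • φ ![a, ee j] := by
    intro ε a
    rw [e1, ← ContinuousMultilinearMap.toContinuousLinearMap_apply, map_sum]
    apply sum_congr rfl
    intro j _
    rw [map_smul, ContinuousMultilinearMap.toContinuousLinearMap_apply, ← e1]
  obtain ⟨ε, h1, h2⟩ := signs (𝕜 := 𝕜) (V := EuclideanSpace 𝕜 (Fin m))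
    (fun j : Fin m => WithLp.toLp 2 fun k : Fin m => φ ![ee j, ee k]) univ
  obtain ⟨η, h3, h4⟩ := signs (𝕜 := 𝕜) (V := 𝕜)
    (fun k : Fin m => φ ![∑ j : Fin m, ε j • ee j, ee k]) univ
  rw [← l1] at h4
  simp only [EuclideanSpace.norm_sq_eq] at h2
  refine h2.trans ((le_of_eq ?_).trans (h4.trans ?_))
  · apply sum_congr rfl
    intro k _
    rw [l0]
    simp
  · have := φ.le_opNorm ![∑ j : Fin m, ε j • ee j, ∑ j : Fin m, η j • ee j]
    rw [Fin.prod_univ_two] at this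
    simp only [Matrix.cons_val_zero, Matrix.cons_val_one] at this
    have a1 := norm_comb ε h1
    have a2 := norm_comb η h3
    have a3 : ‖φ ![∑ j : Fin m, ε j • ee j, ∑ j : Fin m, η j • ee j]‖ ≤ 1 :=
      this.trans (mul_le_one₀ hφ (by positivity) (mul_le_one₀ a1 (norm_nonneg _) a2))
    exact pow_le_one₀ (norm_nonneg _) a3

noncomputable def wt (p : ℝ) (q : ℕ × ℕ) : ℝ := ((max q.1 q.2 : ℕ) + 1 : ℝ) ^ (-(2 / p))

lemma wt_pos (p : ℝ) (q : ℕ × ℕ) : 0 < wt p q := by unfold wt; positivity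

lemma wt_le {p : ℝ} (hp : 0 < p) (q : ℕ × ℕ) (i : ℕ) (hi : i ≤ max q.1 q.2) :
    wt p q ≤ ((i : ℝ) + 1) ^ (-(2 / p)) := by
  unfold wt
  apply Real.rpow_le_rpow_of_nonpos (by positivity)
  · have : (i : ℝ) ≤ (max q.1 q.2 : ℕ) := by exact_mod_cast hi
    linarith
  · have : 0 < 2 / p := by positivity
    linarith

lemma wt_le_one {p : ℝ} (hp : 0 < p) (q : ℕ × ℕ) : wt p q ≤ 1 := by
  simpa using wt_le hp q 0 (Nat.zero_le _)

noncomputable def TT0 (p : ℝ) (hp : 0 < p) :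
    MultilinearMap 𝕜 (fun _ : Fin 2 => Linf 𝕜) (ℕ × ℕ →ᵇ 𝕜) :=
  MultilinearMap.mk' (fun x => ofNormedAddCommGroupDiscrete
      (fun q => (wt p q : 𝕜) * (x 0 q.1 * x 1 q.2)) (‖x 0‖ * ‖x 1‖) (fun q => by
        rw [norm_mul, norm_mul, RCLike.norm_ofReal, abs_of_pos (wt_pos p q)]
        refine (mul_le_of_le_one_left (by positivity) (wt_le_one hp q)).trans ?_
        exact mul_le_mul (norm_coe_le_norm _ _) (norm_coe_le_norm _ _) (norm_nonneg _)
          (norm_nonneg _)))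
    (fun x i a b => by
      ext q
      fin_cases i <;> simp <;> ring)
    (fun x i c a => by
      ext q
      fin_cases i <;> simp <;> ring)

lemma TT0_apply (p : ℝ) (hp : 0 < p) (x : Fin 2 → Linf 𝕜) (q : ℕ × ℕ) :
    TT0 p hp x q = (wt p q : 𝕜) * (x 0 q.1 * x 1 q.2) := rfl

noncomputable def TT (p : ℝ) (hp : 0 < p) :
    ContinuousMultilinearMap 𝕜 (fun _ : Fin 2 => Linf 𝕜) (ℕ × ℕ →ᵇ 𝕜) :=
  (TT0 p hp).mkContinuous 1 (fun x => by
    rw [one_mul, Fin.prod_univ_two, norm_le (by positivity)]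
    intro q
    rw [TT0_apply, norm_mul, norm_mul, RCLike.norm_ofReal, abs_of_pos (wt_pos p q)]
    refine (mul_le_of_le_one_left (by positivity) (wt_le_one hp q)).trans ?_
    exact mul_le_mul (norm_coe_le_norm _ _) (norm_coe_le_norm _ _) (norm_nonneg _) (norm_nonneg _))

lemma TT_apply (p : ℝ) (hp : 0 < p) (x : Fin 2 → Linf 𝕜) (q : ℕ × ℕ) :
    TT p hp x q = (wt p q : 𝕜) * (x 0 q.1 * x 1 q.2) := rfl

lemma summ : Summable fun i : ℕ => ((i : ℝ) + 1) ^ (-2 : ℝ) := by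
  have := (summable_nat_add_iff 1).2 (Real.summable_nat_rpow.2 (show (-2 : ℝ) < -1 by norm_num))
  simpa using this

lemma core {p : ℝ} (hp : 0 < p) (x : ℕ → Linf 𝕜) (W A : ℝ) (hA : 0 ≤ A) (hW : WeakLe 𝕜 p x W)
    (t : ℕ → ℝ) (ht0 : ∀ j, 0 ≤ t j)
    (ht : ∀ j c, 0 ≤ c → (∀ i : ℕ, ((i : ℝ) + 1) ^ (-(2 / p)) * ‖x j i‖ * A ≤ c) → t j ≤ c) :
    Summable (fun j => t j ^ p) ∧
      (∑' j, t j ^ p) ^ (1 / p) ≤ (∑' i : ℕ, ((i : ℝ) + 1) ^ (-2 : ℝ)) ^ (1 / p) * W * A := by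
  have hev : ∀ i : ℕ, Summable (fun j => ‖x j i‖ ^ p) ∧ (∑' j, ‖x j i‖ ^ p) ^ (1 / p) ≤ W :=
    fun i => hW (evalCLM 𝕜 i) (by
      apply ContinuousLinearMap.opNorm_le_bound _ zero_le_one
      intro f
      simpa using norm_coe_le_norm f i)
  have hW0 : 0 ≤ W := le_trans (by positivity) (hev 0).2
  have hev2 : ∀ i : ℕ, ∑' j, ‖x j i‖ ^ p ≤ W ^ p := by
    intro i
    have h0 : 0 ≤ ∑' j, ‖x j i‖ ^ p := tsum_nonneg fun j => by positivity
    have := Real.rpow_le_rpow (by positivity) (hev i).2 hp.le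
    rwa [← Real.rpow_mul h0, one_div_mul_cancel hp.ne', Real.rpow_one] at this
  set g : ℕ × ℕ → ℝ := fun q => ((q.1 : ℝ) + 1) ^ (-2 : ℝ) * A ^ p * ‖x q.2 q.1‖ ^ p with hg
  have hg0 : ∀ q, 0 ≤ g q := fun q => by simp only [hg]; positivity
  have hin : ∀ i, ∑' j, g (i, j) ≤ ((i : ℝ) + 1) ^ (-2 : ℝ) * (A ^ p * W ^ p) := by
    intro i
    simp only [hg]
    rw [tsum_mul_left, mul_assoc]
    have := hev2 i
    gcongr
  have hgs : Summable g := by
    rw [summable_prod_of_nonneg hg0]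
    refine ⟨fun i => by simp only [hg]; exact (hev i).1.mul_left _, ?_⟩
    exact Summable.of_nonneg_of_le (fun i => tsum_nonneg fun j => hg0 _) hin (summ.mul_right _)
  have hgs' : Summable fun q : ℕ × ℕ => g q.swap := hgs.prod_symm
  have hle : ∀ j, t j ^ p ≤ ∑' i, g (i, j) := by
    intro j
    have h0 : 0 ≤ ∑' i, g (i, j) := tsum_nonneg fun i => hg0 _
    have h1 : t j ≤ (∑' i, g (i, j)) ^ (1 / p) := by
      apply ht j _ (by positivity)
      intro i
      have h2 : g (i, j) ≤ ∑' i, g (i, j) :=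
        (hgs'.prod_factor j).le_tsum i (fun _ _ => hg0 _)
      have h3 := Real.rpow_le_rpow (hg0 _) h2 (show 0 ≤ 1 / p by positivity)
      refine le_trans (le_of_eq ?_) h3
      simp only [hg]
      rw [Real.mul_rpow (by positivity) (by positivity), Real.mul_rpow (by positivity) (by positivity),
        ← Real.rpow_mul (by positivity), ← Real.rpow_mul hA, ← Real.rpow_mul (norm_nonneg _),
        mul_one_div_cancel hp.ne', Real.rpow_one, Real.rpow_one]
      have : (-2 : ℝ) * (1 / p) = -(2 / p) := by ring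
      rw [this]; ring
    have := Real.rpow_le_rpow (ht0 j) h1 hp.le
    rwa [← Real.rpow_mul h0, one_div_mul_cancel hp.ne', Real.rpow_one] at this
  have hs : Summable fun j => t j ^ p :=
    Summable.of_nonneg_of_le (fun j => by have := ht0 j; positivity) hle hgs'.prod
  refine ⟨hs, ?_⟩
  have h5 : ∑' j, t j ^ p ≤ (∑' i : ℕ, ((i : ℝ) + 1) ^ (-2 : ℝ)) * (A ^ p * W ^ p) := by
    refine (hs.tsum_le_tsum hle hgs'.prod).trans ?_
    rw [← tsum_mul_right]
    have e : ∑' j, ∑' i, g (i, j) = ∑' i, ∑' j, g (i, j) :=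
      (Summable.tsum_comm (f := fun i j => g (i, j)) hgs)
    rw [e]
    exact hgs.prod.tsum_le_tsum hin (summ.mul_right _)
  have h6 := Real.rpow_le_rpow (tsum_nonneg fun j => by have := ht0 j; positivity) h5
    (show 0 ≤ 1 / p by positivity)
  refine h6.trans (le_of_eq ?_)
  have h7 : 0 ≤ ∑' i : ℕ, ((i : ℝ) + 1) ^ (-2 : ℝ) := tsum_nonneg fun i => by positivity
  rw [Real.mul_rpow h7 (by positivity), Real.mul_rpow (by positivity) (by positivity),
    ← Real.rpow_mul hA, ← Real.rpow_mul hW0, mul_one_div_cancel hp.ne', Real.rpow_one,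
    Real.rpow_one]
  ring

theorem quasi {p : ℝ} (hp : 0 < p) : QuasiSumming p (TT (𝕜 := 𝕜) p hp) := by
  intro k
  have h7 : 0 ≤ ∑' i : ℕ, ((i : ℝ) + 1) ^ (-2 : ℝ) := tsum_nonneg fun i => by positivity
  refine ⟨(∑' i : ℕ, ((i : ℝ) + 1) ^ (-2 : ℝ)) ^ (1 / p), by positivity, fun a x W hW => ?_⟩
  apply core hp x W _ (prod_nonneg fun _ _ => norm_nonneg _) hW _ (fun j => norm_nonneg _)
  intro j c hc h
  rw [norm_le hc]
  intro q
  rw [TT_apply, norm_mul, norm_mul, RCLike.norm_ofReal, abs_of_pos (wt_pos p q)]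
  fin_cases k
  · refine le_trans ?_ (h q.1)
    have e : ∏ i ∈ (univ : Finset (Fin 2)).erase 0, ‖a i‖ = ‖a 1‖ := by
      have : (univ : Finset (Fin 2)).erase 0 = {1} := by decide
      rw [this, prod_singleton]
    simp only [Fin.zero_eta, Function.update_self, e]
    rw [Function.update_of_ne (by decide), mul_assoc]
    have := wt_le hp q q.1 (le_max_left _ _)
    have := norm_coe_le_norm (a 1) q.2
    have := wt_pos p q
    gcongr
  · refine le_trans ?_ (h q.2)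
    have e : ∏ i ∈ (univ : Finset (Fin 2)).erase 1, ‖a i‖ = ‖a 0‖ := by
      have : (univ : Finset (Fin 2)).erase 1 = {0} := by decide
      rw [this, prod_singleton]
    simp only [Fin.mk_one, Function.update_self, e]
    rw [Function.update_of_ne (by decide), mul_assoc, mul_comm ‖x j q.2‖]
    have := wt_le hp q q.2 (le_max_right _ _)
    have := norm_coe_le_norm (a 0) q.1
    have := wt_pos p q
    gcongr

theorem not_strong {p : ℝ} (hp2 : 2 ≤ p) (hp : 0 < p) :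
    ¬ StronglyMultiple p (TT (𝕜 := 𝕜) p hp) := by
  rintro ⟨C, hC, h⟩
  have hsum : ∀ (m : ℕ) (u : (Fin 2 → Linf 𝕜) → ℝ),
      ∑ j : Fin 2 → Fin m, u (fun k => ee (j k)) = ∑ j : Fin m, ∑ k : Fin m, u ![ee j, ee k] := by
    intro m u
    rw [← Fintype.sum_prod_type', ← (piFinTwoEquiv fun _ => Fin m).symm.sum_comp]
    apply sum_congr rfl
    intro q _
    congr 1
    ext1 i; fin_cases i <;> simp
  have hb : ∀ m : ℕ, ∑ j ∈ range m, 1 / ((j : ℝ) + 1) ≤ C ^ p := by
    intro m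
    have h1 := h m (fun _ j => ee j) 1 (fun φ hφ => by
      apply Real.rpow_le_one (sum_nonneg fun _ _ => by positivity) _ (by positivity)
      rw [hsum m (fun v => ‖φ v‖ ^ p)]
      refine le_trans ?_ (form_sq φ hφ m)
      apply sum_le_sum; intro j _
      apply sum_le_sum; intro k _
      rw [← Real.rpow_two]
      apply Real.rpow_le_rpow_of_exponent_ge' (norm_nonneg _) _ (by norm_num) hp2
      have h2 := form_sq φ hφ m
      have h3 : ‖φ ![ee j, ee k]‖ ^ 2 ≤ 1 :=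
        le_trans (le_trans (single_le_sum (f := fun k : Fin m => ‖φ ![ee j, ee k]‖ ^ 2)
          (fun _ _ => by positivity) (mem_univ k))
          (single_le_sum (f := fun j : Fin m => ∑ k : Fin m, ‖φ ![ee j, ee k]‖ ^ 2)
          (fun _ _ => by positivity) (mem_univ j))) h2
      nlinarith [norm_nonneg (φ ![ee j, ee k])])
    rw [mul_one, hsum m (fun v => ‖TT p hp v‖ ^ p)] at h1
    have h0 : 0 ≤ ∑ j : Fin m, ∑ k : Fin m, ‖TT (𝕜 := 𝕜) p hp ![ee j, ee k]‖ ^ p :=
      sum_nonneg fun _ _ => sum_nonneg fun _ _ => by positivity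
    have h2 := Real.rpow_le_rpow (by positivity) h1 hp.le
    rw [← Real.rpow_mul h0, one_div_mul_cancel hp.ne', Real.rpow_one] at h2
    refine le_trans ?_ h2
    rw [← Fin.sum_univ_eq_sum_range (fun j => 1 / ((j : ℝ) + 1))]
    apply sum_le_sum
    intro j _
    have h3 : ∀ k : Fin m, k ∈ Iic j →
        (((j : ℕ) : ℝ) + 1) ^ (-2 : ℝ) ≤ ‖TT (𝕜 := 𝕜) p hp ![ee j, ee k]‖ ^ p := by
      intro k hk
      have h4 := norm_coe_le_norm (TT (𝕜 := 𝕜) p hp ![ee j, ee k]) (j, k)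
      rw [TT_apply] at h4
      simp only [Matrix.cons_val_zero, Matrix.cons_val_one, ee_apply, if_true, mul_one,
        RCLike.norm_ofReal, abs_of_pos (wt_pos p _)] at h4
      refine le_trans (le_of_eq ?_) (Real.rpow_le_rpow (wt_pos p _).le h4 hp.le)
      have hk' : (k : ℕ) ≤ j := Fin.le_def.1 (mem_Iic.1 hk)
      unfold wt
      rw [max_eq_left hk', ← Real.rpow_mul (by positivity)]
      congr 1
      field_simp
    refine le_trans ?_ (sum_le_sum_of_subset_of_nonneg (subset_univ (Iic j))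
      (fun _ _ _ => by positivity))
    refine le_trans (le_of_eq ?_) (sum_le_sum h3)
    rw [sum_const, Fin.card_Iic, nsmul_eq_mul, Real.rpow_neg (by positivity), Real.rpow_two]
    push_cast
    field_simp
  obtain ⟨m, hm⟩ := (Real.tendsto_sum_range_one_div_nat_succ_atTop.eventually_gt_atTop
    (C ^ p)).exists
  exact absurd (hb m) (not_le.2 hm)

end Pool.Agent.H88.Qsum
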