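import Mathlib

namespace Pool.Agent.H88.Qsum

variable {𝕜 : Type} [RCLike 𝕜] {n : ℕ} {E : Fin n → Type} [∀ i, NormedAddCommGroup (E i)]
  [∀ i, NormedSpace 𝕜 (E i)] {F : Type} [NormedAddCommGroup F] [NormedSpace 𝕜 F]

/-- `W` is an upper bound for the weak `p`-norm of the sequence `x`. -/
def WeakLe (𝕜 : Type) [RCLike 𝕜] {G : Type} [NormedAddCommGroup G] [NormedSpace 𝕜 G]
    (p : ℝ) (x : ℕ → G) (W : ℝ) : Prop :=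
  ∀ φ : StrongDual 𝕜 G, ‖φ‖ ≤ 1 →
    Summable (fun j => ‖φ (x j)‖ ^ p) ∧ (∑' j, ‖φ (x j)‖ ^ p) ^ (1 / p) ≤ W

/-- `T` is `k`-absolutely `p`-summing. -/
def KSumming (p : ℝ) (k : Fin n) (T : ContinuousMultilinearMap 𝕜 E F) : Prop :=
  ∃ C : ℝ, 0 ≤ C ∧ ∀ (a : ∀ i, E i) (x : ℕ → E k) (W : ℝ), WeakLe 𝕜 p x W →
    Summable (fun j => ‖T (Function.update a k (x j))‖ ^ p) ∧
      (∑' j, ‖T (Function.update a k (x j))‖ ^ p) ^ (1 / p) ≤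
        C * W * ∏ i ∈ Finset.univ.erase k, ‖a i‖

/-- `T` is quasi-absolutely `p`-summing. -/
def QuasiSumming (p : ℝ) (T : ContinuousMultilinearMap 𝕜 E F) : Prop :=
  ∀ k, KSumming p k T

/-- `T` is strongly multiple `p`-summing. -/
def StronglyMultiple (p : ℝ) (T : ContinuousMultilinearMap 𝕜 E F) : Prop :=
  ∃ C : ℝ, 0 ≤ C ∧ ∀ (m : ℕ) (x : ∀ k, Fin m → E k) (W : ℝ),
    (∀ φ : ContinuousMultilinearMap 𝕜 E 𝕜, ‖φ‖ ≤ 1 →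
      (∑ j : Fin n → Fin m, ‖φ (fun k => x k (j k))‖ ^ p) ^ (1 / p) ≤ W) →
    (∑ j : Fin n → Fin m, ‖T (fun k => x k (j k))‖ ^ p) ^ (1 / p) ≤ C * W

end Pool.Agent.H88.Qsum
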