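import Mathlib

set_option autoImplicit false

namespace Pool.Agent.H88.RTV

open Polynomial

noncomputable def co (j : ℕ) : ℂ :=
  (([1, 11, 54, 154, 275, 297, 132, -132, -297, -275, -154, -54, -11, -1] : List ℤ).getD j 0 : ℤ)

theorem co_zero (j : ℕ) (hj : j ∉ Finset.range 14) : co j = 0 := by
  have h : 14 ≤ j := by simpa using hj
  unfold co
  rw [List.getD_eq_default _ _ (by simpa using h)]
  simp

theorem summ : Summable (fun j => ‖co j‖) :=
  summable_of_ne_finset_zero (s := Finset.range 14) (fun j hj => by simp [co_zero j hj])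

theorem tsum_norm : (∑' j, ‖co j‖) = 1848 := by
  rw [tsum_eq_sum (s := Finset.range 14) (fun j hj => by simp [co_zero j hj])]
  simp [Finset.sum_range_succ, co]
  norm_num

theorem tsum_val (z : ℂ) : (∑' j, co j * z ^ j) = -((z + 1) ^ 12 * (z - 1)) := by
  rw [tsum_eq_sum (s := Finset.range 14) (fun j hj => by simp [co_zero j hj])]
  simp [Finset.sum_range_succ, co]
  ring

theorem mm_pow (n : ℕ) : ((X + C (1:ℂ)) ^ n).mahlerMeasure = 1 := by
  induction n with
  | zero => simp
  | succ n ih => rw [pow_succ, mahlerMeasure_mul, ih, mahlerMeasure_X_add_C]; simp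

theorem integ : (1 / (2 * Real.pi)) *
    (∫ θ in (0:ℝ)..(2 * Real.pi),
      Real.log ‖∑' j, co j * Complex.exp ((θ : ℂ) * Complex.I) ^ j‖) = 0 := by
  have h1 : ((X + C (1:ℂ)) ^ 12 * (X - C 1)).logMahlerMeasure = 0 := by
    rw [logMahlerMeasure_eq_log_MahlerMeasure, mahlerMeasure_mul, mm_pow, mahlerMeasure_X_sub_C]
    simp
  rw [logMahlerMeasure_def, Real.circleAverage_def, smul_eq_mul] at h1
  rw [one_div]
  refine Eq.trans ?_ h1
  congr 1
  refine intervalIntegral.integral_congr (fun θ _ => ?_)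
  simp only [tsum_val, norm_neg, circleMap]
  simp

theorem co_ne : co ≠ 0 := by
  intro h
  have := congrFun h 0
  simp [co] at this

theorem conc : (1 / 154 : ℝ) * (∑' j, ‖co j‖) ≤ ∑ j ∈ Finset.range (1 + 1), ‖co j‖ := by
  rw [tsum_norm]
  simp [Finset.sum_range_succ, co]
  norm_num

end Pool.Agent.H88.RTV
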