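import Mathlib

set_option autoImplicit false
open MeasureTheory Filter Topology Metric Set Complex Polynomial

namespace Pool.Agent.H88.Rad

def KK (γ : ℝ) : Set ℂ := {z | ‖z‖ ≤ 1 ∧ z.re ≤ γ * ‖z‖}

theorem KK_compact (γ : ℝ) : IsCompact (KK γ) :=
  (isCompact_closedBall (0:ℂ) 1).of_isClosed_subset
    ((isClosed_le continuous_norm continuous_const).inter
      (isClosed_le continuous_re (continuous_const.mul continuous_norm)))
    fun _ hz => mem_closedBall_zero_iff.2 hz.1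

instance (γ : ℝ) : CompactSpace (KK γ) := isCompact_iff_compactSpace.1 (KK_compact γ)

theorem dist_ge {γ c a : ℝ} (hc0 : 0 ≤ c) (hc : c ^ 2 ≤ 1 - γ ^ 2) (ha : 0 < a) {z : ℂ}
    (hz : z ∈ KK γ) : c * a ≤ ‖(a:ℂ) - z‖ := by
  refine (pow_le_pow_iff_left₀ (by positivity) (norm_nonneg _) two_ne_zero).1 ?_
  have h1 : ‖(a:ℂ) - z‖ ^ 2 = a ^ 2 - 2 * a * z.re + ‖z‖ ^ 2 := by
    simp only [Complex.sq_norm, normSq_apply, sub_re, ofReal_re, sub_im, ofReal_im]
    ring
  have h2 := mul_le_mul_of_nonneg_left hz.2 ha.le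
  rw [h1, mul_pow]
  nlinarith [sq_nonneg (‖z‖ - γ * a), mul_le_mul_of_nonneg_right hc (sq_nonneg a)]

theorem geom {K : Set ℂ} [CompactSpace K] (A : Subalgebra ℂ C(K, ℂ)) (hA : IsClosed (A : Set C(K, ℂ)))
    {x : C(K, ℂ)} (hx : x ∈ A) (h1 : ∀ z, ‖x z‖ ≤ 1 / 2) :
    ∃ w ∈ A, ∀ z, (1 - x z) * w z = 1 := by
  have h2 : ‖x‖ < 1 := lt_of_le_of_lt ((ContinuousMap.norm_le _ (by norm_num)).2 h1) (by norm_num)
  refine ⟨∑' i, x ^ i, hA.mem_of_tendsto
    (summable_geometric_of_norm_lt_one h2).hasSum.tendsto_sum_nat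
    (Eventually.of_forall fun n => A.sum_mem fun i _ => A.pow_mem hx i), fun z => ?_⟩
  have h3 := congrArg (fun f : C(K, ℂ) => f z) (mul_neg_geom_series x h2)
  simpa using h3

theorem res {γ c : ℝ} (hc0 : 0 < c) (hc1 : c ≤ 1) (hc : c ^ 2 ≤ 1 - γ ^ 2) (k : ℕ) :
    ∃ v ∈ (polynomialFunctions (KK γ)).topologicalClosure,
      ∀ z : KK γ, (((2 * (1 - c / 2) ^ k : ℝ) : ℂ) - z) * v z = 1 := by
  have hA := (polynomialFunctions (KK γ)).isClosed_topologicalClosure
  induction k with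
  | zero =>
    have h1 : (X : ℂ[X]).toContinuousMapOn (KK γ) ∈
        (polynomialFunctions (KK γ)).topologicalClosure :=
      Subalgebra.le_topologicalClosure _ ⟨X, trivial, rfl⟩
    obtain ⟨w, hw, hw'⟩ := geom _ hA (Subalgebra.smul_mem _ h1 (1 / 2 : ℂ)) fun z => by
      have := z.2.1
      simp [Polynomial.toContinuousMapOn]
      linarith
    refine ⟨(1 / 2 : ℂ) • w, Subalgebra.smul_mem _ hw _, fun z => ?_⟩
    have := hw' z
    simp [Polynomial.toContinuousMapOn] at this ⊢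
    linear_combination this
  | succ k ih =>
    obtain ⟨v, hv, hv'⟩ := ih
    obtain ⟨a, ha⟩ : ∃ a : ℝ, a = 2 * (1 - c / 2) ^ k := ⟨_, rfl⟩
    have ha0 : 0 < a := by
      have : 0 < 1 - c / 2 := by linarith
      rw [ha]
      positivity
    have hb : 2 * (1 - c / 2) ^ (k + 1) = a - c / 2 * a := by
      rw [ha]
      ring
    rw [← ha] at hv'
    obtain ⟨w, hw, hw'⟩ := geom _ hA (Subalgebra.smul_mem _ hv ((c / 2 * a : ℝ) : ℂ)) fun z => by
      have h1 := dist_ge hc0.le hc ha0 z.2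
      have h2 := congrArg norm (hv' z)
      rw [norm_mul, norm_one] at h2
      rw [ContinuousMap.smul_apply, norm_smul, norm_real, Real.norm_of_nonneg (by positivity)]
      have h3 := mul_le_mul_of_nonneg_right h1 (norm_nonneg (v z))
      linarith
    refine ⟨v * w, Subalgebra.mul_mem _ hv hw, fun z => ?_⟩
    have h1 := hw' z
    have h2 := hv' z
    rw [hb]
    simp only [ContinuousMap.smul_apply, smul_eq_mul, ContinuousMap.mul_apply] at h1 ⊢
    push_cast at h1 ⊢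
    linear_combination h1 + w z * h2

theorem exists_scales {γ c : ℝ} (hc0 : 0 < c) (hc1 : c ≤ 1) (hc : c ^ 2 ≤ 1 - γ ^ 2) {ε : ℝ}
    (hε : 0 < ε) : ∃ a : ℕ → ℝ, (∀ j, 0 < a j) ∧ (∀ j, a j ≤ ε) ∧ (∀ i j, i < j → 4 * a j ≤ a i) ∧
      ∀ j, ∃ v ∈ (polynomialFunctions (KK γ)).topologicalClosure,
        ∀ z : KK γ, ((a j : ℂ) - z) * v z = 1 := by
  have hq0 : 0 < 1 - c / 2 := by linarith
  have hq1 : 1 - c / 2 < 1 := by linarith
  obtain ⟨m, hm⟩ := exists_pow_lt_of_lt_one (show 0 < min (1 / 4) (ε / 2) by positivity) hq1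
  have h1 : (1 - c / 2) ^ m ≤ 1 / 4 := hm.le.trans (min_le_left _ _)
  have h2 : (1 - c / 2) ^ m ≤ ε / 2 := hm.le.trans (min_le_right _ _)
  refine ⟨fun j => 2 * (1 - c / 2) ^ (m * (j + 1)), fun j => by positivity, fun j => ?_,
    fun i j hij => ?_, fun j => res hc0 hc1 hc _⟩
  · have : (1 - c / 2) ^ (m * (j + 1)) ≤ (1 - c / 2) ^ m :=
      pow_le_pow_of_le_one hq0.le hq1.le (by nlinarith)
    linarith
  · have h3 : (1 - c / 2) ^ (m * (j + 1)) ≤ (1 - c / 2) ^ (m * (i + 1) + m) :=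
      pow_le_pow_of_le_one hq0.le hq1.le (by nlinarith)
    rw [pow_add] at h3
    have h4 : 0 < (1 - c / 2) ^ (m * (i + 1)) := by positivity
    nlinarith

theorem exists_Q {γ : ℝ} (hγ0 : 0 ≤ γ) (hγ : γ < 1) {ε : ℝ} (hε : 0 < ε) (hε1 : ε ≤ 1 / 2) :
    ∃ Q : ℂ[X], (∀ z ∈ KK γ, ‖z * Q.eval z‖ ≤ 5) ∧
      ∀ z ∈ KK γ, ‖z‖ = 1 → ‖z * Q.eval z - 1‖ ≤ ε := by
  obtain ⟨c, hc0, hc1, hc⟩ : ∃ c : ℝ, 0 < c ∧ c ≤ 1 ∧ c ^ 2 ≤ 1 - γ ^ 2 :=
    ⟨1 - γ, by linarith, by linarith, by nlinarith⟩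
  obtain ⟨a, ha0, ha1, ha2, hv⟩ := exists_scales hc0 hc1 hc (show 0 < ε / 4 by positivity)
  choose v hvA hv using hv
  obtain ⟨n, hn⟩ := exists_nat_gt (1 / c)
  have hn0 : (0:ℝ) < n := lt_trans (by positivity) hn
  have hmem : -(1 / n : ℂ) • ∑ j ∈ Finset.range n, v j ∈
      (polynomialFunctions (KK γ)).topologicalClosure :=
    Subalgebra.smul_mem _ (Subalgebra.sum_mem _ fun j _ => hvA j) _
  obtain ⟨_, ⟨Q, -, rfl⟩, hQ⟩ := Metric.mem_closure_iff.1 hmem (ε / 2) (by positivity)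
  have hQ' : ∀ z : KK γ, ‖(z:ℂ) * Q.eval (z:ℂ)
      - (1 - (1 / n : ℂ) * ∑ j ∈ Finset.range n, a j * v j z)‖ ≤ ε / 2 := by
    intro z
    have h1 := (ContinuousMap.dist_apply_le_dist z).trans hQ.le
    rw [dist_comm, dist_eq_norm] at h1
    have h2 : (z:ℂ) * Q.eval (z:ℂ) - (1 - (1 / n : ℂ) * ∑ j ∈ Finset.range n, a j * v j z)
        = z * (Q.eval (z:ℂ) - (-(1 / n : ℂ) • ∑ j ∈ Finset.range n, v j) z) := by
      have h3 : ∑ j ∈ Finset.range n, (a j : ℂ) * v j z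
          = n + z * ∑ j ∈ Finset.range n, v j z := by
        rw [Finset.mul_sum, show (n:ℂ) = ∑ _j ∈ Finset.range n, (1:ℂ) by simp,
          ← Finset.sum_add_distrib]
        refine Finset.sum_congr rfl fun j _ => ?_
        linear_combination hv j z
      have h4 : (n:ℂ) ≠ 0 := by exact_mod_cast hn0.ne'
      rw [h3]
      simp only [ContinuousMap.smul_apply, ContinuousMap.coe_sum, Finset.sum_apply, smul_eq_mul]
      field_simp
      ring
    rw [h2, norm_mul]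
    exact (mul_le_of_le_one_left (norm_nonneg _) z.2.1).trans h1
  have hav : ∀ j (z : KK γ), ‖(a j : ℂ) * v j z‖ * ‖(a j : ℂ) - z‖ = a j := by
    intro j z
    rw [← norm_mul, mul_assoc, mul_comm (v j z), hv j z, mul_one, norm_real,
      Real.norm_of_nonneg (ha0 j).le]
  have hnn : ‖(1 / n : ℂ)‖ = 1 / n := by simp
  refine ⟨Q, fun z hz => ?_, fun z hz hz1 => ?_⟩
  · have h1 := hQ' ⟨z, hz⟩
    have h2 : ∑ j ∈ Finset.range n, ‖(a j : ℂ) * v j ⟨z, hz⟩‖ ≤ 3 * n := by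
      classical
      have h3 : ∀ j ∈ Finset.range n, ‖(a j : ℂ) * v j ⟨z, hz⟩‖
          ≤ 2 + if a j / 2 < ‖z‖ ∧ ‖z‖ < 2 * a j then 1 / c else 0 := by
        intro j _
        have h4 := hav j ⟨z, hz⟩
        have h5 := ha0 j
        have h6 := norm_nonneg ((a j : ℂ) * v j ⟨z, hz⟩)
        have h7 := norm_sub_norm_le (a j : ℂ) z
        have h8 := norm_sub_norm_le z (a j : ℂ)
        rw [norm_sub_rev] at h8
        rw [norm_real, Real.norm_of_nonneg h5.le] at h7 h8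
        simp only at h4
        split_ifs with h9
        · have h10 := dist_ge hc0.le hc h5 hz
          have h11 : ‖(a j : ℂ) * v j ⟨z, hz⟩‖ ≤ 1 / c := by
            rw [le_div_iff₀ hc0]
            have := mul_le_mul_of_nonneg_left h10 h6
            nlinarith
          linarith
        · rw [add_zero]
          have h10 : a j / 2 ≤ ‖(a j : ℂ) - z‖ := by
            rcases not_and_or.1 h9 with h | h
            · linarith [not_lt.1 h]
            · linarith [not_lt.1 h]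
          have := mul_le_mul_of_nonneg_left h10 h6
          nlinarith
      refine (Finset.sum_le_sum h3).trans ?_
      rw [Finset.sum_add_distrib, ← Finset.sum_filter, Finset.sum_const, Finset.sum_const,
        Finset.card_range, nsmul_eq_mul, nsmul_eq_mul]
      have h4 : ((Finset.range n).filter fun j => a j / 2 < ‖z‖ ∧ ‖z‖ < 2 * a j).card ≤ 1 := by
        rw [Finset.card_le_one]
        intro i hi j hj
        have h5 := (Finset.mem_filter.1 hi).2
        have h6 := (Finset.mem_filter.1 hj).2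
        rcases lt_trichotomy i j with h | h | h
        · linarith [ha2 i j h, h5.1, h6.2]
        · exact h
        · linarith [ha2 j i h, h5.2, h6.1]
      have h5 : (((Finset.range n).filter fun j => a j / 2 < ‖z‖ ∧ ‖z‖ < 2 * a j).card : ℝ) ≤ 1 := by
        exact_mod_cast h4
      have h6 := mul_le_of_le_one_left (show 0 ≤ 1 / c by positivity) h5
      linarith
    have h3 : ‖(1 / n : ℂ) * ∑ j ∈ Finset.range n, a j * v j ⟨z, hz⟩‖ ≤ 3 := by
      rw [norm_mul, hnn, one_div, inv_mul_le_iff₀ hn0]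
      linarith [norm_sum_le (Finset.range n) fun j => (a j : ℂ) * v j ⟨z, hz⟩]
    have h4 := norm_sub_le 1 ((1 / n : ℂ) * ∑ j ∈ Finset.range n, a j * v j ⟨z, hz⟩)
    have h5 := norm_sub_norm_le (z * Q.eval z)
      (1 - (1 / n : ℂ) * ∑ j ∈ Finset.range n, a j * v j ⟨z, hz⟩)
    rw [norm_one] at h4
    simp only at h1
    linarith
  · have h1 := hQ' ⟨z, hz⟩
    have h2 : ∑ j ∈ Finset.range n, ‖(a j : ℂ) * v j ⟨z, hz⟩‖ ≤ ∑ _j ∈ Finset.range n, ε / 2 := by
      refine Finset.sum_le_sum fun j _ => ?_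
      have h4 := hav j ⟨z, hz⟩
      have h5 := ha0 j
      have h6 := norm_nonneg ((a j : ℂ) * v j ⟨z, hz⟩)
      have h8 := norm_sub_norm_le z (a j : ℂ)
      rw [norm_sub_rev, norm_real, Real.norm_of_nonneg h5.le, hz1] at h8
      have h9 := ha1 j
      have h10 : 1 / 2 ≤ ‖(a j : ℂ) - z‖ := by linarith
      have := mul_le_mul_of_nonneg_left h10 h6
      simp only at h4
      linarith
    rw [Finset.sum_const, Finset.card_range, nsmul_eq_mul] at h2
    have h3 : ‖(1 / n : ℂ) * ∑ j ∈ Finset.range n, a j * v j ⟨z, hz⟩‖ ≤ ε / 2 := by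
      rw [norm_mul, hnn, one_div, inv_mul_le_iff₀ hn0]
      linarith [norm_sum_le (Finset.range n) fun j => (a j : ℂ) * v j ⟨z, hz⟩]
    have h4 : z * Q.eval z - 1 = (z * Q.eval z
        - (1 - (1 / n : ℂ) * ∑ j ∈ Finset.range n, a j * v j ⟨z, hz⟩))
        - (1 / n : ℂ) * ∑ j ∈ Finset.range n, a j * v j ⟨z, hz⟩ := by ring
    rw [h4]
    simp only at h1
    exact (norm_sub_le _ _).trans (by linarith)

end Pool.Agent.H88.Rad
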