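import Pool.Agent.H88.Rad2

set_option autoImplicit false
open MeasureTheory Filter Topology Metric Set Complex Polynomial

namespace Pool.Agent.H88.Rad

theorem coeff_add_blk {P P' : ℂ[X]} {m : ℕ} (h1 : ∀ k, ‖P.coeff k‖ ≤ 1) (h2 : ∀ k, ‖P'.coeff k‖ ≤ 1)
    (hm : P.natDegree < m) (h3 : ∀ k < m, P'.coeff k = 0) (k : ℕ) : ‖(P + P').coeff k‖ ≤ 1 := by
  rw [coeff_add]
  rcases lt_or_ge k m with h | h
  · rw [h3 k h, add_zero]
    exact h1 k
  · rw [coeff_eq_zero_of_natDegree_lt (lt_of_lt_of_le hm h), zero_add]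
    exact h2 k

theorem step {h : ℝ → ℂ} (hh : Measurable h) {B : ℝ} (hB : ∀ θ, ‖h θ‖ ≤ B) {ε : ℝ} (hε : 0 < ε)
    (hε1 : ε ≤ 1) (m : ℕ) : ∃ (P : ℂ[X]) (Bad : Set ℝ), (∀ k < m, P.coeff k = 0) ∧
      (∀ k, ‖P.coeff k‖ ≤ 1) ∧ volume Bad ≤ ENNReal.ofReal ε ∧
      ∀ θ ∈ Ioc 0 (2 * Real.pi), θ ∉ Bad → ‖P.eval (exp (θ * I)) - h θ‖ ≤ ε ∧
        ∀ r : ℝ, 0 ≤ r → r ≤ 1 → ‖P.eval (r * exp (θ * I))‖ ≤ 5 * ‖h θ‖ + ε := by
  have hpi := Real.pi_gt_three
  have hpi' := Real.pi_lt_d2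
  have hB0 : 0 ≤ B := (norm_nonneg _).trans (hB 0)
  obtain ⟨δ, hδ⟩ : ∃ δ, δ = ε / 26 := ⟨_, rfl⟩
  have hδ0 : 0 < δ := by rw [hδ]; positivity
  have hγ0 : 0 ≤ Real.cos δ := Real.cos_nonneg_of_mem_Icc ⟨by linarith, by linarith⟩
  have hγ1 : Real.cos δ < 1 := by
    rw [← Real.cos_zero]
    exact Real.cos_lt_cos_of_nonneg_of_le_pi le_rfl (by linarith) hδ0
  obtain ⟨Q, hQ1, hQ2⟩ := exists_Q hγ0 hγ1 (show 0 < ε / (2 * (B + 1)) by positivity) (by
    rw [div_le_div_iff₀ (by positivity) (by norm_num)]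
    linarith)
  have hA := AA_nonneg Q
  obtain ⟨L, hL⟩ := exists_nat_gt (AA Q * B)
  have hL0 : (0:ℝ) < L := lt_of_le_of_lt (by positivity) hL
  have hL0' : 0 < L := by exact_mod_cast hL0
  obtain ⟨Δ, hΔ⟩ : ∃ Δ, Δ = 2 * Real.pi / L := ⟨_, rfl⟩
  have hΔ0 : 0 < Δ := by rw [hΔ]; positivity
  obtain ⟨η, hη⟩ : ∃ η, η = ε / (2 * L * (1 + AA Q)) := ⟨_, rfl⟩
  have hη0 : 0 < η := by rw [hη]; positivity
  have key : ∀ n : ℕ, ∃ (P : ℂ[X]) (Bad : Set ℝ), (∀ k < m, P.coeff k = 0) ∧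
      (∀ k, ‖P.coeff k‖ ≤ 1) ∧ volume Bad ≤ ENNReal.ofReal (n * (η + (Δ * δ + 6 * δ / L))) ∧
      ∀ θ ∈ Ioc 0 (2 * Real.pi), θ ∉ Bad → ∃ W : ℝ → ℂ, ‖W 1 - 1‖ ≤ ε / (2 * (B + 1)) ∧
        ∀ r : ℝ, 0 ≤ r → r ≤ 1 → ‖W r‖ ≤ 5 ∧ ‖P.eval (r * exp (θ * I))
          - (Ioc 0 (n * Δ)).indicator h θ * W r‖ ≤ n * (η * (1 + AA Q)) := by
    intro n
    induction n with
    | zero =>
      refine ⟨0, ∅, by simp, by simp, by simp, fun θ _ _ => ⟨fun _ => 1, ?_, fun r _ _ => ?_⟩⟩
      · rw [sub_self, norm_zero]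
        positivity
      · simp
    | succ n ih =>
      obtain ⟨P, Bad, hP1, hP2, hP3, hP4⟩ := ih
      have hFm : Measurable ((Ioc (n * Δ) (n * Δ + Δ)).indicator h) :=
        hh.indicator measurableSet_Ioc
      have hFb : ∀ θ, ‖(Ioc (n * Δ) (n * Δ + Δ)).indicator h θ‖ ≤ B := fun θ =>
        (norm_indicator_le_norm_self _ _).trans (hB θ)
      obtain ⟨d, U, hU1, hU2⟩ := trig_approx hFm hFb hη0
      have hint : ∫ θ in (0:ℝ)..2 * Real.pi, ‖(Ioc (n * Δ) (n * Δ + Δ)).indicator h θ‖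
          ≤ Δ * B := by
        have h1 : Integrable ((Ioc (n * Δ) (n * Δ + Δ)).indicator fun _ : ℝ => B) :=
          (integrableOn_const measure_Ioc_lt_top.ne).integrable_indicator measurableSet_Ioc
        rw [intervalIntegral.integral_of_le (by positivity)]
        calc ∫ θ in Ioc 0 (2 * Real.pi), ‖(Ioc (n * Δ) (n * Δ + Δ)).indicator h θ‖
            ≤ ∫ θ in Ioc 0 (2 * Real.pi), (Ioc (n * Δ) (n * Δ + Δ)).indicator (fun _ : ℝ => B) θ :=
              integral_mono_of_nonneg (Eventually.of_forall fun _ => norm_nonneg _)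
                h1.integrableOn (Eventually.of_forall fun θ => by
                  by_cases hθ : θ ∈ Ioc (n * Δ) (n * Δ + Δ)
                  · simpa [indicator_of_mem hθ] using hB θ
                  · simp [indicator_of_notMem hθ])
          _ ≤ ∫ θ, (Ioc (n * Δ) (n * Δ + Δ)).indicator (fun _ : ℝ => B) θ :=
              setIntegral_le_integral h1
                (Eventually.of_forall fun θ => indicator_nonneg (fun _ _ => hB0) θ)
          _ = Δ * B := by
              rw [integral_indicator_const _ measurableSet_Ioc]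
              simp [hΔ0.le]
      have hU3 : ∀ i, ‖U.coeff i‖ ≤ B / L := fun i => by
        refine (hU1 i).trans ((mul_le_mul_of_nonneg_left hint (by positivity)).trans (le_of_eq ?_))
        rw [hΔ]
        field_simp
      obtain ⟨N, P', hN, hP1', hP2', hP3'⟩ :=
        arc Q U d (max (max m L) (P.natDegree + 1)) hU3 hη0
      have hNL : L ≤ N := by omega
      have hP2'' : ∀ k, ‖P'.coeff k‖ ≤ 1 := fun k => (hP2' k).trans (by
        rw [← mul_div_assoc, div_le_one hL0]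
        exact hL.le)
      refine ⟨P + P', Bad ∪ ({θ | θ ∈ Ioc 0 (2 * Real.pi) ∧ η ≤ ‖(Ioc (n * Δ) (n * Δ + Δ)).indicator
          h θ - (exp (θ * I) ^ d)⁻¹ * U.eval (exp (θ * I))‖} ∪
          {θ : ℝ | θ ∈ Ioc (n * Δ) (n * Δ + Δ) ∧ Real.cos δ < Real.cos (N * θ)}),
        fun k hk => ?_, coeff_add_blk hP2 hP2'' (by omega) hP1', ?_, fun θ hθ hbad => ?_⟩
      · rw [coeff_add, hP1 k hk, hP1' k (by omega), add_zero]
      · refine (measure_union_le _ _).trans ((add_le_add hP3 ((measure_union_le _ _).trans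
          (add_le_add hU2 (badN hδ0 hΔ0.le (by omega))))).trans ?_)
        rw [← ENNReal.ofReal_add hη0.le (by positivity),
          ← ENNReal.ofReal_add (by positivity) (by positivity)]
        refine ENNReal.ofReal_le_ofReal ?_
        have h1 : 6 * δ / N ≤ 6 * δ / L := by
          have : (L:ℝ) ≤ N := by exact_mod_cast hNL
          gcongr
        push_cast
        linarith
      · simp only [mem_union, not_or] at hbad
        obtain ⟨hb1, hb2, hb3⟩ := hbad
        obtain ⟨W, hW1, hW2⟩ := hP4 θ hθ hb1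
        have hζ := norm_exp_ofReal_mul_I θ
        have hb2' : ‖(Ioc (n * Δ) (n * Δ + Δ)).indicator h θ
            - (exp (θ * I) ^ d)⁻¹ * U.eval (exp (θ * I))‖ ≤ η :=
          (not_le.1 fun hc => hb2 ⟨hθ, hc⟩).le
        have hnew : ∀ r : ℝ, 0 ≤ r → r ≤ 1 → ‖P'.eval (r * exp (θ * I))
            - (Ioc (n * Δ) (n * Δ + Δ)).indicator h θ * ((r * exp (θ * I)) ^ N
              * Q.eval ((r * exp (θ * I)) ^ N))‖ ≤ η * (1 + AA Q) := by
          intro r hr0 hr1
          have h1 := hP3' r hr0 hr1 _ hζ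
          have h2 : ‖((r:ℂ) * exp (θ * I)) ^ N‖ ≤ 1 := by
            rw [norm_pow, norm_mul, hζ, mul_one, norm_real, Real.norm_of_nonneg hr0]
            exact pow_le_one₀ hr0 hr1
          have h3 : ‖((r:ℂ) * exp (θ * I)) ^ N * Q.eval ((r * exp (θ * I)) ^ N)‖ ≤ AA Q := by
            rw [norm_mul]
            exact (mul_le_of_le_one_left (norm_nonneg _) h2).trans (eval_le Q h2)
          generalize ((r:ℂ) * exp (θ * I)) ^ N * Q.eval ((r * exp (θ * I)) ^ N) = w at *
          generalize (exp (θ * I) ^ d)⁻¹ * U.eval (exp (θ * I)) = t at *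
          generalize (Ioc (n * Δ) (n * Δ + Δ)).indicator h θ = f at *
          generalize P'.eval (r * exp (θ * I)) = p at *
          rw [show p - f * w = (p - t * w) - (f - t) * w by ring]
          refine (norm_sub_le _ _).trans ?_
          rw [norm_mul]
          have := mul_le_mul hb2' h3 (norm_nonneg _) hη0.le
          linarith
        have hcast : ((n + 1 : ℕ) : ℝ) * Δ = n * Δ + Δ := by push_cast; ring
        have hcast' : ((n + 1 : ℕ) : ℝ) * (η * (1 + AA Q))
            = n * (η * (1 + AA Q)) + η * (1 + AA Q) := by push_cast; ring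
        rw [hcast, hcast']
        by_cases hθn : θ ∈ Ioc (n * Δ) (n * Δ + Δ)
        · have hcos : Real.cos (N * θ) ≤ Real.cos δ := not_lt.1 fun hc => hb3 ⟨hθn, hc⟩
          have hK : ∀ r : ℝ, 0 ≤ r → r ≤ 1 → ((r:ℂ) * exp (θ * I)) ^ N ∈ KK (Real.cos δ) := by
            intro r hr0 hr1
            have e : ((r:ℂ) * exp (θ * I)) ^ N = ((r ^ N : ℝ) : ℂ) * exp ((N * θ : ℝ) * I) := by
              rw [mul_pow, ← exp_nat_mul]
              push_cast
              ring_nf
            have h1 : 0 ≤ r ^ N := by positivity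
            have h2 : ‖((r ^ N : ℝ) : ℂ) * exp ((N * θ : ℝ) * I)‖ = r ^ N := by
              rw [norm_mul, norm_exp_ofReal_mul_I, mul_one, norm_real, Real.norm_of_nonneg h1]
            rw [e]
            refine ⟨h2.trans_le (pow_le_one₀ hr0 hr1), ?_⟩
            rw [h2, re_ofReal_mul, exp_ofReal_mul_I_re, mul_comm]
            exact mul_le_mul_of_nonneg_right hcos h1
          refine ⟨fun r => (r * exp (θ * I)) ^ N * Q.eval ((r * exp (θ * I)) ^ N), ?_,
            fun r hr0 hr1 => ⟨hQ1 _ (hK r hr0 hr1), ?_⟩⟩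
          · exact hQ2 _ (hK 1 zero_le_one le_rfl) (by simp)
          · have h1 := (hW2 r hr0 hr1).2
            have h2 := hnew r hr0 hr1
            rw [indicator_of_notMem (fun hc => absurd hθn.1 (not_lt.2 hc.2)), zero_mul,
              sub_zero] at h1
            rw [indicator_of_mem hθn] at h2
            rw [indicator_of_mem (show θ ∈ Ioc 0 (n * Δ + Δ) from ⟨hθ.1, hθn.2⟩), eval_add, add_sub_assoc]
            exact (norm_add_le _ _).trans (add_le_add h1 h2)
        · refine ⟨W, hW1, fun r hr0 hr1 => ⟨(hW2 r hr0 hr1).1, ?_⟩⟩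
          have h1 := (hW2 r hr0 hr1).2
          have h2 := hnew r hr0 hr1
          rw [indicator_of_notMem hθn, zero_mul, sub_zero] at h2
          have h3 : (Ioc 0 (n * Δ + Δ)).indicator h θ = (Ioc 0 (n * Δ)).indicator h θ := by
            by_cases h4 : θ ∈ Ioc 0 (n * Δ)
            · rw [indicator_of_mem h4, indicator_of_mem
                (show θ ∈ Ioc 0 (n * Δ + Δ) from ⟨h4.1, by linarith [h4.2]⟩)]
            · rw [indicator_of_notMem h4, indicator_of_notMem]
              intro h5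
              exact hθn ⟨not_le.1 fun h6 => h4 ⟨h5.1, h6⟩, h5.2⟩
          rw [h3, eval_add, add_sub_right_comm]
          exact (norm_add_le _ _).trans (add_le_add h1 h2)
  obtain ⟨P, Bad, hP1, hP2, hP3, hP4⟩ := key L
  have e1 : (L:ℝ) * Δ = 2 * Real.pi := by
    rw [hΔ]
    field_simp
  have e2 : (L:ℝ) * (η * (1 + AA Q)) = ε / 2 := by
    rw [hη]
    field_simp
  refine ⟨P, Bad, hP1, hP2, hP3.trans (ENNReal.ofReal_le_ofReal ?_), fun θ hθ hbad => ?_⟩
  · have e3 : (L:ℝ) * (η + (Δ * δ + 6 * δ / L)) = L * η + L * Δ * δ + 6 * δ := by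
      field_simp
      ring
    have h1 : (L:ℝ) * η ≤ ε / 2 := by
      rw [← e2]
      have : 0 ≤ L * η * AA Q := by positivity
      linarith
    rw [e3, e1]
    nlinarith
  · obtain ⟨W, hW1, hW2⟩ := hP4 θ hθ hbad
    rw [e1, e2, indicator_of_mem hθ] at hW2
    refine ⟨?_, fun r hr0 hr1 => ?_⟩
    · have h1 := (hW2 1 zero_le_one le_rfl).2
      rw [ofReal_one, one_mul] at h1
      rw [show P.eval (exp (θ * I)) - h θ = (P.eval (exp (θ * I)) - h θ * W 1) + h θ * (W 1 - 1) by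
        ring]
      refine (norm_add_le _ _).trans ?_
      rw [norm_mul]
      have h2 := mul_le_mul (hB θ) hW1 (norm_nonneg _) hB0
      have h3 : B * (ε / (2 * (B + 1))) ≤ ε / 2 := by
        rw [← mul_div_assoc, div_le_div_iff₀ (by positivity) (by norm_num)]
        nlinarith
      linarith
    · obtain ⟨h1, h2⟩ := hW2 r hr0 hr1
      have h3 := norm_sub_norm_le (P.eval (r * exp (θ * I))) (h θ * W r)
      rw [norm_mul] at h3
      have h4 := mul_le_mul_of_nonneg_left h1 (norm_nonneg (h θ))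
      linarith

end Pool.Agent.H88.Rad
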