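import Pool.Agent.H88.Rad3

set_option autoImplicit false
open MeasureTheory Filter Topology Metric Set Complex Polynomial

namespace Pool.Agent.H88.Rad

theorem next (G : ℕ → ℝ → ℝ) (hG : ∀ j, Measurable (G j)) (hGb : ∀ j θ, |G j θ| ≤ j) (j : ℕ)
    (s : ℂ[X] × ℕ) : ∃ (ρ : ℝ) (m : ℕ) (P : ℂ[X]) (Bad : Set ℝ),
      (0 ≤ ρ ∧ ρ < 1 ∧ 1 - 1 / ((j:ℝ) + 1) ≤ ρ) ∧ (s.1.natDegree < m ∧ j < m ∧ s.2 ≤ m) ∧
      ρ ^ m * (1 - ρ)⁻¹ ≤ (1 / 2) ^ j ∧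
      (∀ r : ℝ, ρ ≤ r → r ≤ 1 → ∀ ζ : ℂ, ‖ζ‖ = 1 → ‖s.1.eval (r * ζ) - s.1.eval ζ‖ ≤ (1 / 2) ^ j) ∧
      (∀ k < m, P.coeff k = 0) ∧ (∀ k, ‖P.coeff k‖ ≤ 1) ∧
      volume Bad ≤ ENNReal.ofReal ((1 / 2) ^ j) ∧
      ∀ θ ∈ Ioc 0 (2 * Real.pi), θ ∉ Bad →
        ‖P.eval (exp (θ * I)) - (G (j + 1) θ - s.1.eval (exp (θ * I)))‖ ≤ (1 / 2) ^ j ∧
        ∀ r : ℝ, 0 ≤ r → r ≤ 1 → ‖P.eval (r * exp (θ * I))‖
          ≤ 5 * ‖G (j + 1) θ - s.1.eval (exp (θ * I))‖ + (1 / 2) ^ j := by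
  obtain ⟨S, m0⟩ := s
  have hε : (0:ℝ) < (1 / 2) ^ j := by positivity
  obtain ⟨ρ, hρ0, hρ1, hρ⟩ := unif (G := fun p => S.eval (p.1 * p.2) - S.eval p.2)
    (by fun_prop) (fun ζ _ => by simp) hε
  obtain ⟨ρ', hρ'0, hρ'1, hρ'2⟩ : ∃ ρ', ρ ≤ ρ' ∧ ρ' < 1 ∧ 1 - 1 / ((j:ℝ) + 1) ≤ ρ' :=
    ⟨max ρ (1 - 1 / ((j:ℝ) + 1)), le_max_left _ _, max_lt hρ1 (by
      have : (0:ℝ) < 1 / ((j:ℝ) + 1) := by positivity
      linarith), le_max_right _ _⟩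
  have h1 : 0 < 1 - ρ' := by linarith
  obtain ⟨n0, hn0⟩ := exists_pow_lt_of_lt_one (show 0 < (1 / 2) ^ j * (1 - ρ') by positivity) hρ'1
  obtain ⟨m, hm1, hm2, hm3, hm4⟩ : ∃ m, S.natDegree < m ∧ j < m ∧ m0 ≤ m ∧ n0 ≤ m :=
    ⟨S.natDegree + j + m0 + n0 + 1, by omega, by omega, by omega, by omega⟩
  obtain ⟨P, Bad, h2, h3, h4, h5⟩ := step (h := fun θ => G (j + 1) θ - S.eval (exp (θ * I)))
    ((measurable_ofReal.comp (hG _)).sub (Continuous.measurable (by fun_prop)))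
    (B := (j + 1 : ℕ) + AA S) (fun θ => (norm_sub_le _ _).trans (add_le_add
      (by rw [norm_real]; exact hGb _ _) (eval_le S (norm_exp_ofReal_mul_I θ).le))) hε
    (pow_le_one₀ (by norm_num) (by norm_num)) m
  refine ⟨ρ', m, P, Bad, ⟨hρ0.trans hρ'0, hρ'1, hρ'2⟩, ⟨hm1, hm2, hm3⟩, ?_,
    fun r hr0 hr1 ζ hζ => hρ r (hρ'0.trans hr0) hr1 ζ hζ, h2, h3, h4, h5⟩
  rw [← div_eq_mul_inv, div_le_iff₀ h1]
  exact (pow_le_pow_of_le_one (hρ0.trans hρ'0) hρ'1.le hm4).trans hn0.le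

theorem build (G : ℕ → ℝ → ℝ) (hG : ∀ j, Measurable (G j)) (hGb : ∀ j θ, |G j θ| ≤ j) :
    ∃ (a : ℕ → ℂ) (ρ : ℕ → ℝ), (∀ k, ‖a k‖ ≤ 1) ∧ (∀ j, ρ j < 1) ∧
      (∀ j : ℕ, 1 - 1 / ((j:ℝ) + 1) ≤ ρ j) ∧
      ∀ᵐ θ : ℝ, θ ∈ Ioc 0 (2 * Real.pi) → ∀ᶠ i in atTop, ∀ r : ℝ, ρ (i + 1) ≤ r → r ≤ ρ (i + 2) →
        ‖∑' k, a k * (r * exp (θ * I)) ^ k - G (i + 1) θ‖
          ≤ 5 * |G (i + 2) θ - G (i + 1) θ| + 8 * (1 / 2) ^ i := by
  choose ρ m P Bad h1 h2 h3 h4 h5 h6 h7 h8 using next G hG hGb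
  obtain ⟨σ, hσ0, hσ⟩ : ∃ σ : ℕ → ℂ[X] × ℕ, σ 0 = (0, 0) ∧
      ∀ j, σ (j + 1) = ((σ j).1 + P j (σ j), m j (σ j)) :=
    ⟨fun n => Nat.rec (motive := fun _ => ℂ[X] × ℕ) (0, 0)
      (fun j s => (s.1 + P j s, m j s)) n, rfl, fun _ => rfl⟩
  have hS : ∀ j, (σ (j + 1)).1 = (σ j).1 + P j (σ j) := fun j => by rw [hσ]
  have hmono : Monotone fun j => m j (σ j) := monotone_nat_of_le_succ fun j => by
    have := (h2 (j + 1) (σ (j + 1))).2.2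
    rwa [show (σ (j + 1)).2 = m j (σ j) by rw [hσ]] at this
  have hco : ∀ j k, ‖(σ j).1.coeff k‖ ≤ 1 := by
    intro j
    induction j with
    | zero => simp [hσ0]
    | succ j ih =>
      rw [hS]
      exact coeff_add_blk ih (h6 _ _) (h2 _ _).1 (h5 _ _)
  have hstab : ∀ j k, k < m j (σ j) → ∀ i, j ≤ i → (σ i).1.coeff k = (σ j).1.coeff k := by
    intro j k hk i hi
    induction i, hi using Nat.le_induction with
    | base => rfl
    | succ i hi ih => rw [hS, coeff_add, h5 _ _ k (lt_of_lt_of_le hk (hmono hi)), add_zero, ih]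
  have ha : ∀ j k, k < m j (σ j) → (σ k).1.coeff k = (σ j).1.coeff k := fun j k hk =>
    (hstab k k (h2 _ _).2.1 (max j k) (le_max_right _ _)).symm.trans
      (hstab j k hk (max j k) (le_max_left _ _))
  have htail : ∀ j (z : ℂ), ‖z‖ ≤ ρ j (σ j) →
      ‖∑' k, (σ k).1.coeff k * z ^ k - (σ j).1.eval z‖ ≤ (1 / 2) ^ j := by
    intro j z hz
    have hρ := h1 j (σ j)
    have hsum : Summable fun k => (σ k).1.coeff k * z ^ k := by
      refine Summable.of_norm_bounded (summable_geometric_of_lt_one hρ.1 hρ.2.1) fun k => ?_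
      rw [norm_mul, norm_pow]
      exact (mul_le_of_le_one_left (by positivity) (hco k k)).trans
        (pow_le_pow_left₀ (norm_nonneg _) hz k)
    rw [eval_eq_sum_range' (h2 j (σ j)).1, ← hsum.sum_add_tsum_nat_add (m j (σ j)),
      Finset.sum_congr rfl fun k hk => by rw [ha j k (Finset.mem_range.1 hk)], add_sub_cancel_left]
    refine le_trans ?_ (h3 j (σ j))
    refine tsum_of_norm_bounded ((hasSum_geometric_of_lt_one hρ.1 hρ.2.1).mul_left _) fun k => ?_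
    rw [norm_mul, norm_pow, ← pow_add, add_comm (m j (σ j))]
    exact (mul_le_of_le_one_left (by positivity) (hco _ _)).trans
      (pow_le_pow_left₀ (norm_nonneg _) hz _)
  refine ⟨fun k => (σ k).1.coeff k, fun j => ρ j (σ j), fun k => hco k k, fun j => (h1 _ _).2.1,
    fun j => (h1 _ _).2.2, ?_⟩
  have hBC : ∑' j, volume (Bad j (σ j)) ≠ ⊤ := by
    refine ne_top_of_le_ne_top ?_ (ENNReal.tsum_le_tsum fun j => h7 j (σ j))
    rw [← ENNReal.ofReal_tsum_of_nonneg (fun _ => by positivity) summable_geometric_two]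
    exact ENNReal.ofReal_ne_top
  filter_upwards [ae_eventually_notMem hBC] with θ hθ hθ'
  filter_upwards [hθ, (tendsto_add_atTop_nat 1).eventually hθ] with i hi hi' r hr0 hr1
  have hζ := norm_exp_ofReal_mul_I θ
  have hr2 : 0 ≤ r := (h1 _ _).1.trans hr0
  have hr3 : r ≤ 1 := hr1.trans (h1 _ _).2.1.le
  have e1 := htail (i + 2) (r * exp (θ * I)) (by
    rw [norm_mul, hζ, mul_one, norm_real, Real.norm_of_nonneg hr2]
    exact hr1)
  have e2 := h4 (i + 1) (σ (i + 1)) r hr0 hr3 _ hζ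
  have e3 := (h8 i (σ i) θ hθ' hi).1
  have e4 := (h8 (i + 1) (σ (i + 1)) θ hθ' hi').2 r hr2 hr3
  have e5 : ‖(σ (i + 1)).1.eval (exp (θ * I)) - G (i + 1) θ‖ ≤ (1 / 2) ^ i := by
    rw [hS, eval_add]
    refine le_trans (le_of_eq ?_) e3
    congr 1
    ring
  rw [show i + 2 = i + 1 + 1 by ring, hS (i + 1), eval_add] at e1
  have e6 : ‖(G (i + 1 + 1) θ : ℂ) - (σ (i + 1)).1.eval (exp (θ * I))‖
      ≤ |G (i + 2) θ - G (i + 1) θ| + (1 / 2) ^ i := by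
    rw [show (G (i + 1 + 1) θ : ℂ) - (σ (i + 1)).1.eval (exp (θ * I))
      = ((G (i + 2) θ - G (i + 1) θ : ℝ) : ℂ) - ((σ (i + 1)).1.eval (exp (θ * I)) - G (i + 1) θ) by
        push_cast; ring]
    refine (norm_sub_le _ _).trans (add_le_add ?_ e5)
    rw [norm_real, Real.norm_eq_abs]
  generalize ∑' k, (σ k).1.coeff k * (r * exp (θ * I)) ^ k = f at *
  generalize (σ (i + 1)).1.eval (r * exp (θ * I)) = s1 at *
  generalize (σ (i + 1)).1.eval (exp (θ * I)) = s0 at *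
  generalize (P (i + 1) (σ (i + 1))).eval (r * exp (θ * I)) = p at *
  rw [show f - (G (i + 1) θ : ℂ) = (f - (s1 + p)) + ((s1 - s0) + ((s0 - G (i + 1) θ) + p)) by ring]
  refine (norm_add_le _ _).trans ((add_le_add le_rfl ((norm_add_le _ _).trans
    (add_le_add le_rfl (norm_add_le _ _)))).trans ?_)
  rw [pow_succ, pow_succ] at e1
  rw [pow_succ] at e2 e4
  have : (0:ℝ) < (1 / 2) ^ i := by positivity
  linarith

theorem idx {ρ : ℕ → ℝ} (h1 : ∀ j, ρ j < 1) (h2 : ∀ j : ℕ, 1 - 1 / ((j:ℝ) + 1) ≤ ρ j)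
    {p : ℕ → ℝ → Prop} (hp : ∀ᶠ i in atTop, ∀ r : ℝ, ρ (i + 1) ≤ r → r ≤ ρ (i + 2) → p i r)
    (J : ℕ) : ∀ᶠ r in 𝓝[<] (1:ℝ), ∃ i, J ≤ i ∧ p i r := by
  classical
  obtain ⟨J0, hJ0⟩ := eventually_atTop.1 hp
  filter_upwards [Ico_mem_nhdsLT (h1 (max J J0 + 1))] with r hr
  have hex : ∃ n, r ≤ ρ (max J J0 + n + 2) := by
    obtain ⟨n, hn⟩ := exists_nat_one_div_lt (show 0 < 1 - r by linarith [hr.2])
    refine ⟨n, le_trans ?_ (h2 _)⟩
    have : 1 / (((max J J0 + n + 2 : ℕ) : ℝ) + 1) ≤ 1 / ((n:ℝ) + 1) := by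
      gcongr
      omega
    linarith
  refine ⟨max J J0 + Nat.find hex, by omega, hJ0 _ (by omega) r ?_ (Nat.find_spec hex)⟩
  rcases Nat.eq_zero_or_pos (Nat.find hex) with h | h
  · rw [h]
    exact hr.1
  · have := Nat.find_min hex (show Nat.find hex - 1 < Nat.find hex by omega)
    rw [show max J J0 + (Nat.find hex - 1) + 2 = max J J0 + Nat.find hex + 1 by omega] at this
    exact (not_le.1 this).le

theorem lim_inf {F : ℝ → ℂ} {l : Filter ℝ} {s : ℂ} (hs : ‖s‖ = 1)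
    (h : ∀ J : ℕ, ∀ᶠ r in l, ∃ t : ℝ, J ≤ t ∧ ‖F r - s * t‖ ≤ 13) :
    Tendsto (fun r => ‖F r‖) l atTop ∧ Tendsto (fun r => F r / ((‖F r‖ : ℝ) : ℂ)) l (𝓝 s) := by
  have h0 : ∀ r (t : ℝ), 0 ≤ t → ‖F r - s * t‖ ≤ 13 → |‖F r‖ - t| ≤ 13 := by
    intro r t ht h1
    have := abs_norm_sub_norm_le (F r) (s * t)
    rw [norm_mul, hs, one_mul, norm_real, Real.norm_of_nonneg ht] at this
    linarith
  have h1 : Tendsto (fun r => ‖F r‖) l atTop := by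
    rw [Filter.tendsto_atTop]
    intro b
    obtain ⟨J, hJ⟩ := exists_nat_ge (b + 13)
    filter_upwards [h J] with r ⟨t, ht1, ht2⟩
    have := abs_le.1 (h0 r t ((Nat.cast_nonneg J).trans ht1) ht2)
    linarith [this.1]
  refine ⟨h1, ?_⟩
  rw [tendsto_iff_norm_sub_tendsto_zero]
  refine squeeze_zero' (Eventually.of_forall fun _ => norm_nonneg _) ?_
    (tendsto_const_nhds.div_atTop h1 (a := 26))
  filter_upwards [h 0, h1.eventually_gt_atTop 0] with r ⟨t, ht1, ht2⟩ hr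
  have ht : 0 ≤ t := by simpa using ht1
  have h2 := h0 r t ht ht2
  have h3 : ((‖F r‖ : ℝ) : ℂ) ≠ 0 := by exact_mod_cast hr.ne'
  rw [show F r / ((‖F r‖ : ℝ) : ℂ) - s
    = ((F r - s * t) - s * ((‖F r‖ - t : ℝ) : ℂ)) / ((‖F r‖ : ℝ) : ℂ) by
      push_cast
      field_simp
      ring, norm_div, norm_real, norm_norm]
  refine div_le_div_of_nonneg_right ((norm_sub_le _ _).trans ?_) hr.le
  rw [norm_mul, hs, one_mul, norm_real, Real.norm_eq_abs]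
  linarith

theorem ae_periodic {p : ℂ → Prop} (h : ∀ᵐ θ : ℝ, θ ∈ Ioc 0 (2 * Real.pi) → p (exp (θ * I))) :
    ∀ᵐ θ : ℝ, p (exp (θ * I)) := by
  have h1 : ∀ k : ℤ, ∀ᵐ θ : ℝ, θ - k * (2 * Real.pi) ∈ Ioc 0 (2 * Real.pi) →
      p (exp ((θ - k * (2 * Real.pi) : ℝ) * I)) := fun k =>
    (measurePreserving_sub_right volume (k * (2 * Real.pi))).quasiMeasurePreserving.ae h
  filter_upwards [ae_all_iff.2 h1] with θ hθ
  have h2 := hθ (toIocDiv Real.two_pi_pos 0 θ) (by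
    have := sub_toIocDiv_zsmul_mem_Ioc Real.two_pi_pos 0 θ
    rwa [zero_add, zsmul_eq_mul] at this)
  have h3 := exp_int_mul_two_pi_mul_I (-toIocDiv Real.two_pi_pos 0 θ)
  rwa [show ((θ - (toIocDiv Real.two_pi_pos 0 θ) * (2 * Real.pi) : ℝ) : ℂ) * I
    = θ * I + ((-toIocDiv Real.two_pi_pos 0 θ : ℤ) : ℂ) * (2 * Real.pi * I) by push_cast; ring,
    exp_add, h3, mul_one] at h2

noncomputable def cl (j : ℕ) (y : EReal) : ℝ :=
  (max (((-(j:ℝ) : ℝ)) : EReal) (min (((j:ℝ)) : EReal) y) : EReal).toReal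

theorem cl_coe (j : ℕ) (x : ℝ) : cl j x = max (-(j:ℝ)) (min j x) := by
  unfold cl
  rw [← EReal.coe_strictMono.monotone.map_min, ← EReal.coe_strictMono.monotone.map_max,
    EReal.toReal_coe]

theorem cl_top (j : ℕ) : cl j ⊤ = j := by
  unfold cl
  rw [min_eq_left le_top, ← EReal.coe_strictMono.monotone.map_max, EReal.toReal_coe]
  exact max_eq_right (by linarith [Nat.cast_nonneg (α := ℝ) j])

theorem cl_bot (j : ℕ) : cl j ⊥ = -j := by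
  unfold cl
  rw [min_eq_right bot_le, max_eq_left bot_le, EReal.toReal_coe]

theorem cl_abs (j : ℕ) (y : EReal) : |cl j y| ≤ j := by
  have := Nat.cast_nonneg (α := ℝ) j
  induction y with
  | bot => rw [cl_bot, abs_neg, abs_of_nonneg this]
  | top => rw [cl_top, abs_of_nonneg this]
  | coe x =>
    rw [cl_coe, abs_le]
    exact ⟨le_max_left _ _, max_le (by linarith) (min_le_left _ _)⟩

theorem cl_meas (j : ℕ) : Measurable (cl j) := by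
  unfold cl
  exact (measurable_const.max (measurable_const.min measurable_id)).ereal_toReal

theorem main (g : ℂ → EReal) (hg : Measurable g) :
    ∃ a : ℕ → ℂ, (∀ n, ‖a n‖ ≤ 1) ∧ ∀ᵐ θ : ℝ,
      (∀ x : ℝ, g (exp (θ * I)) = x →
        Tendsto (fun r : ℝ => ∑' n, a n * (r * exp (θ * I)) ^ n) (𝓝[<] 1) (𝓝 (x : ℂ))) ∧
      (g (exp (θ * I)) = ⊤ →
        Tendsto (fun r : ℝ => ‖∑' n, a n * (r * exp (θ * I)) ^ n‖) (𝓝[<] 1) atTop ∧
        Tendsto (fun r : ℝ => (∑' n, a n * (r * exp (θ * I)) ^ n) /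
          ((‖∑' n, a n * (r * exp (θ * I)) ^ n‖ : ℝ) : ℂ)) (𝓝[<] 1) (𝓝 1)) ∧
      (g (exp (θ * I)) = ⊥ →
        Tendsto (fun r : ℝ => ‖∑' n, a n * (r * exp (θ * I)) ^ n‖) (𝓝[<] 1) atTop ∧
        Tendsto (fun r : ℝ => (∑' n, a n * (r * exp (θ * I)) ^ n) /
          ((‖∑' n, a n * (r * exp (θ * I)) ^ n‖ : ℝ) : ℂ)) (𝓝[<] 1) (𝓝 (-1))) := by
  obtain ⟨a, ρ, ha, hρ1, hρ2, hae⟩ := build (fun j θ => cl j (g (exp (θ * I))))
    (fun j => (cl_meas j).comp (hg.comp (Continuous.measurable (by fun_prop))))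
    (fun j θ => cl_abs j _)
  refine ⟨a, ha, ?_⟩
  have hae' := ae_periodic (p := fun ζ => ∀ᶠ i in atTop, ∀ r : ℝ, ρ (i + 1) ≤ r → r ≤ ρ (i + 2) →
    ‖∑' k, a k * (r * ζ) ^ k - cl (i + 1) (g ζ)‖
      ≤ 5 * |cl (i + 2) (g ζ) - cl (i + 1) (g ζ)| + 8 * (1 / 2) ^ i) hae
  filter_upwards [hae'] with θ hθ
  have hi := idx hρ1 hρ2 hθ
  have hp : ∀ i : ℕ, (1 / 2 : ℝ) ^ i ≤ 1 := fun i => pow_le_one₀ (by norm_num) (by norm_num)
  refine ⟨fun x hx => ?_, fun hx => lim_inf norm_one fun J => ?_,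
    fun hx => lim_inf (by simp) fun J => ?_⟩
  · rw [Metric.tendsto_nhds]
    intro ε hε
    obtain ⟨J0, hJ0⟩ := exists_nat_ge |x|
    obtain ⟨J1, hJ1⟩ := exists_pow_lt_of_lt_one (show 0 < ε / 8 by positivity)
      (show (1 / 2 : ℝ) < 1 by norm_num)
    have hc : ∀ j : ℕ, J0 ≤ j → cl j x = x := by
      intro j hj
      have h1 : (J0:ℝ) ≤ j := by exact_mod_cast hj
      have h2 := abs_le.1 (hJ0.trans h1)
      rw [cl_coe, min_eq_right h2.2, max_eq_right h2.1]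
    filter_upwards [hi (max J0 J1)] with r ⟨i, hi1, hi2⟩
    rw [hx, hc _ (by omega), hc _ (by omega), sub_self, abs_zero] at hi2
    have h3 : (1 / 2 : ℝ) ^ i ≤ (1 / 2) ^ J1 :=
      pow_le_pow_of_le_one (by norm_num) (by norm_num) (by omega)
    rw [dist_eq_norm]
    linarith
  · filter_upwards [hi J] with r ⟨i, hi1, hi2⟩
    rw [hx, cl_top, cl_top] at hi2
    refine ⟨((i + 1 : ℕ) : ℝ), by exact_mod_cast (by omega), ?_⟩
    rw [one_mul]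
    refine hi2.trans ?_
    push_cast
    rw [show (i:ℝ) + 2 - (i + 1) = 1 by ring, abs_one]
    linarith [hp i]
  · filter_upwards [hi J] with r ⟨i, hi1, hi2⟩
    rw [hx, cl_bot, cl_bot] at hi2
    refine ⟨((i + 1 : ℕ) : ℝ), by exact_mod_cast (by omega), ?_⟩
    rw [neg_one_mul, ← ofReal_neg]
    refine hi2.trans ?_
    push_cast
    rw [show -((i:ℝ) + 2) - -(i + 1) = -1 by ring, abs_neg, abs_one]
    linarith [hp i]

end Pool.Agent.H88.Rad
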