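import Mathlib

namespace Pool.Agent.H88.Rn
open Set Filter Topology MeasureTheory
open scoped ENNReal

variable {Ω : Type*} [MeasurableSpace Ω]

theorem exhaust (μ : Measure Ω) [IsFiniteMeasure μ] (P : Set Ω → Prop) (c : ℝ≥0∞) :
    ∃ 𝒜 : Set (Set Ω), 𝒜.Countable ∧ (∀ A ∈ 𝒜, MeasurableSet A ∧ P A) ∧ 𝒜.Pairwise Disjoint ∧
      μ (⋃₀ 𝒜) ≤ c ∧ ∀ B, MeasurableSet B → P B → 0 < μ B → Disjoint B (⋃₀ 𝒜) →
        c < μ (⋃₀ 𝒜) + μ B := by
  classical
  obtain ⟨𝒜, h𝒜⟩ := zorn_subset {𝒜 : Set (Set Ω) | (∀ A ∈ 𝒜, MeasurableSet A ∧ P A ∧ 0 < μ A) ∧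
      𝒜.Pairwise Disjoint ∧ ∀ t : Finset (Set Ω), ↑t ⊆ 𝒜 → ∑ A ∈ t, μ A ≤ c} (by
    intro ch hch hc
    refine ⟨⋃₀ ch, ⟨?_, ?_, ?_⟩, fun s hs => subset_sUnion_of_mem hs⟩
    · rintro A ⟨s, hs, hA⟩
      exact (hch hs).1 A hA
    · rintro A ⟨s, hs, hA⟩ B ⟨s', hs', hB⟩ hAB
      rcases hc.total hs hs' with h | h
      · exact (hch hs').2.1 (h hA) hB hAB
      · exact (hch hs).2.1 hA (h hB) hAB
    · intro t ht
      rcases ch.eq_empty_or_nonempty with rfl | hne
      · have : t = ∅ := by simpa using ht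
        simp [this]
      · obtain ⟨s, hs, h⟩ := DirectedOn.exists_mem_subset_of_finset_subset_biUnion
          (f := fun s : Set (Set Ω) => s) hne hc.directedOn (s := t) (by rwa [← sUnion_eq_biUnion])
        exact (hch hs).2.2 t h)
  obtain ⟨h1, h2, h3⟩ := h𝒜.prop
  have hc : 𝒜.Countable := by
    have := Measure.countable_meas_pos_of_disjoint_iUnion (μ := μ) (As := fun A : 𝒜 => A.1)
      (fun A => (h1 A.1 A.2).1) (fun A B hAB => h2 A.2 B.2 fun h => hAB (Subtype.ext h))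
    rw [eq_univ_of_forall (s := {i : 𝒜 | 0 < μ i.1}) fun A => (h1 A.1 A.2).2.2] at this
    exact countable_coe_iff.mp (countable_univ_iff.mp this)
  have hs : ∀ t : Finset (Set Ω), ↑t ⊆ 𝒜 → ∑ A ∈ t, μ A ≤ μ (⋃₀ 𝒜) := fun t ht => by
    rw [← measure_biUnion_finset (f := fun A => A) (h2.mono ht) fun A hA => (h1 A (ht hA)).1]
    exact measure_mono (iUnion₂_subset fun A hA => subset_sUnion_of_mem (ht hA))
  refine ⟨𝒜, hc, fun A hA => ⟨(h1 A hA).1, (h1 A hA).2.1⟩, h2, ?_, fun B b1 b2 b3 b4 => ?_⟩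
  · rw [measure_sUnion hc h2 fun A hA => (h1 A hA).1, ENNReal.tsum_eq_iSup_sum]
    refine iSup_le fun t => ?_
    have := h3 (t.map (Function.Embedding.subtype _)) (by
      intro A hA
      simp only [Finset.coe_map, mem_image] at hA
      obtain ⟨B, -, rfl⟩ := hA
      exact B.2)
    rwa [Finset.sum_map] at this
  · by_contra hn
    have hB : B ∉ 𝒜 := fun h => by
      have := b4.mono_right (subset_sUnion_of_mem h)
      rw [disjoint_self] at this
      rw [this] at b3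
      simp at b3
    refine hB (h𝒜.mem_of_prop_insert ⟨?_, ?_, fun t ht => ?_⟩)
    · rintro A (rfl | hA)
      · exact ⟨b1, b2, b3⟩
      · exact h1 A hA
    · exact h2.insert_of_notMem hB fun A hA => ⟨b4.mono_right (subset_sUnion_of_mem hA),
        (b4.mono_right (subset_sUnion_of_mem hA)).symm⟩
    · have h4 := hs (t.erase B) (by
        intro A hA
        simp only [Finset.coe_erase, Set.mem_sdiff, mem_singleton_iff] at hA
        exact (ht hA.1).resolve_left hA.2)
      refine le_trans ?_ (not_lt.mp hn)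
      by_cases h5 : B ∈ t
      · rw [← Finset.sum_erase_add _ _ h5]
        exact add_le_add_left h4 _
      · rw [Finset.erase_eq_of_notMem h5] at h4
        exact h4.trans le_self_add

/-- non-atomic -/
def NA (μ : Measure Ω) : Prop :=
  ∀ A, MeasurableSet A → 0 < μ A → ∃ B ⊆ A, MeasurableSet B ∧ 0 < μ B ∧ μ B < μ A

theorem small {μ : Measure Ω} [IsFiniteMeasure μ] (h : NA μ) {A : Set Ω} (hA : MeasurableSet A)
    (h0 : 0 < μ A) (n : ℕ) : ∃ B ⊆ A, MeasurableSet B ∧ 0 < μ B ∧ μ B ≤ μ A * 2⁻¹ ^ n := by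
  induction n with
  | zero => exact ⟨A, le_rfl, hA, h0, by simp⟩
  | succ n ih =>
    obtain ⟨B, a1, a2, a3, a4⟩ := ih
    obtain ⟨C, b1, b2, b3, b4⟩ := h B a2 a3
    have h1 : μ C + μ (B \ C) = μ B := by
      rw [measure_add_sdiff b2.nullMeasurableSet, union_eq_self_of_subset_left b1]
    have h2 : ∀ x, x + x ≤ μ B → x ≤ μ A * 2⁻¹ ^ (n + 1) := fun x hx => by
      rw [pow_succ, ← mul_assoc, ← div_eq_mul_inv, ENNReal.le_div_iff_mul_le (by simp) (by simp),
        mul_two]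
      exact hx.trans a4
    rcases le_total (μ C) (μ (B \ C)) with h3 | h3
    · exact ⟨C, b1.trans a1, b2, b3, h2 _ (h1 ▸ add_le_add_right h3 _)⟩
    · refine ⟨B \ C, sdiff_subset.trans a1, a2.diff b2, ?_, h2 _ (h1 ▸ add_le_add_left h3 _)⟩
      rw [pos_iff_ne_zero]
      intro h4
      rw [h4, add_zero] at h1
      exact b4.ne h1

theorem half {μ : Measure Ω} [IsFiniteMeasure μ] (h : NA μ) (A : Set Ω) :
    ∃ B, MeasurableSet A → B ⊆ A ∧ MeasurableSet B ∧ μ B = μ A / 2 ∧ μ (A \ B) = μ A / 2 := by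
  obtain ⟨𝒜, a1, a2, a3, a4, a5⟩ := exhaust μ (· ⊆ A) (μ A / 2)
  refine ⟨⋃₀ 𝒜, fun hA => ?_⟩
  have h1 : ⋃₀ 𝒜 ⊆ A := sUnion_subset fun B hB => (a2 B hB).2
  have h2 : MeasurableSet (⋃₀ 𝒜) := MeasurableSet.sUnion a1 fun B hB => (a2 B hB).1
  have h3 : μ (A \ ⋃₀ 𝒜) = μ A - μ (⋃₀ 𝒜) :=
    measure_sdiff h1 h2.nullMeasurableSet (measure_ne_top _ _)
  have h4 : μ (⋃₀ 𝒜) = μ A / 2 := by
    by_contra hn
    have h5 := lt_of_le_of_ne a4 hn
    have h6 : 0 < μ (A \ ⋃₀ 𝒜) := by
      rw [h3, tsub_pos_iff_lt]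
      exact h5.trans_le ENNReal.half_le_self
    have h7 : Tendsto (fun n : ℕ => μ (⋃₀ 𝒜) + μ (A \ ⋃₀ 𝒜) * 2⁻¹ ^ n) atTop (𝓝 (μ (⋃₀ 𝒜))) := by
      have := (ENNReal.Tendsto.const_mul (a := μ (A \ ⋃₀ 𝒜))
        (ENNReal.tendsto_pow_atTop_nhds_zero_of_lt_one (r := 2⁻¹) (by simp))
        (Or.inr (measure_ne_top _ _))).const_add (μ (⋃₀ 𝒜))
      simpa using this
    obtain ⟨n, hn⟩ := (h7.eventually (gt_mem_nhds h5)).exists
    obtain ⟨B, b1, b2, b3, b4⟩ := small h (hA.diff h2) h6 n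
    have := a5 B b2 (b1.trans sdiff_subset) b3 (disjoint_sdiff_left.mono_left b1)
    exact absurd (this.trans_le (add_le_add_right b4 _)) (not_lt.mpr hn.le)
  exact ⟨h1, h2, h4, by rw [h3, h4, ENNReal.sub_half (measure_ne_top _ _)]⟩

def sg (c : Bool) : ℝ := if c then 1 else -1

/-- signed sums along a node -/
def SS {V : Type*} [AddCommGroup V] [Module ℝ V] (x : List Bool → V) : List Bool → V
  | [] => 0
  | c :: s => SS x s + sg c • x s

theorem coins {μ : Measure Ω} [IsProbabilityMeasure μ] (h : NA μ) :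
    ∃ nd : ℕ → Ω → List Bool, (∀ n s, MeasurableSet (nd n ⁻¹' {s})) ∧
      (∀ ω, nd 0 ω = []) ∧ (∀ n ω, ∃ c, nd (n + 1) ω = c :: nd n ω) ∧
      ∀ (ψ : List Bool → ℝ) (M : ℝ), (∀ s, |ψ s| ≤ M) →
        ∀ᵐ ω ∂μ, Tendsto (fun k : ℕ => SS ψ (nd (2 ^ k) ω) / 2 ^ k) atTop (𝓝 0) := by
  classical
  choose hf hhf using half h
  let C : List Bool → Set Ω := fun s => List.rec univ
    (fun c _ A => if c then hf A else A \ hf A) s
  have C1 : ∀ s, C (true :: s) = hf (C s) := fun s => rfl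
  have C2 : ∀ s, C (false :: s) = C s \ hf (C s) := fun s => rfl
  have Cm : ∀ s, MeasurableSet (C s) := by
    intro s
    induction s with
    | nil => exact MeasurableSet.univ
    | cons c s ih =>
      cases c
      · exact ih.diff (hhf _ ih).2.1
      · exact (hhf _ ih).2.1
  let nd : ℕ → Ω → List Bool := fun n ω => Nat.rec [] (fun _ s => decide (ω ∈ hf (C s)) :: s) n
  have n1 : ∀ n ω, nd (n + 1) ω = decide (ω ∈ hf (C (nd n ω))) :: nd n ω := fun n ω => rfl
  have key : ∀ s n ω, nd n ω = s ↔ s.length = n ∧ ω ∈ C s := by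
    intro s
    induction s with
    | nil =>
      intro n ω
      cases n with
      | zero => exact ⟨fun _ => ⟨rfl, trivial⟩, fun _ => rfl⟩
      | succ n => simp [n1]
    | cons c s ih =>
      intro n ω
      cases n with
      | zero => exact ⟨fun h => (by cases h), fun h => (by simp at h)⟩
      | succ n =>
        rw [n1, List.cons.injEq, List.length_cons, Nat.succ_inj]
        constructor
        · rintro ⟨h1, h2⟩
          rw [h2] at h1
          have := (ih n ω).mp h2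
          refine ⟨this.1, ?_⟩
          cases c
          · exact ⟨this.2, by simpa using h1⟩
          · simpa [C1] using h1
        · rintro ⟨h1, h2⟩
          have h3 : ω ∈ C s := by
            cases c
            · exact h2.1
            · exact (hhf _ (Cm s)).1 h2
          have := (ih n ω).mpr ⟨h1, h3⟩
          refine ⟨?_, this⟩
          rw [this]
          cases c
          · simpa using h2.2
          · simpa [C1] using h2
  have hm : ∀ n s, MeasurableSet (nd n ⁻¹' {s}) := by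
    intro n s
    by_cases h1 : s.length = n
    · convert Cm s using 1
      ext ω; simp [key, h1]
    · convert MeasurableSet.empty (α := Ω) using 1
      ext ω; simp [key, h1]
  refine ⟨nd, hm, fun ω => rfl, fun n ω => ⟨_, n1 n ω⟩, fun ψ M hM => ?_⟩
  have h1 : ∀ k s, ∫⁻ ω in C s, ENNReal.ofReal (SS ψ (nd (s.length + k) ω) ^ 2) ∂μ ≤
      μ (C s) * ENNReal.ofReal (SS ψ s ^ 2 + k * M ^ 2) := by
    intro k
    induction k with
    | zero =>
      intro s
      rw [setLIntegral_congr_fun (Cm s) (g := fun _ => ENNReal.ofReal (SS ψ s ^ 2))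
        fun ω hω => by simp only [add_zero]; rw [(key s _ ω).mpr ⟨rfl, hω⟩]]
      simp [mul_comm]
    | succ k ih =>
      intro s
      have a := ih (true :: s)
      have b := ih (false :: s)
      have e : s.length + 1 + k = s.length + (k + 1) := by ring
      rw [List.length_cons, e] at a b
      have h2 := hhf _ (Cm s)
      rw [C1, h2.2.2.1] at a
      rw [C2, h2.2.2.2] at b
      rw [← lintegral_inter_add_sdiff _ _ h2.2.1, inter_eq_right.mpr h2.1]
      refine (add_le_add a b).trans ?_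
      rw [← mul_add, ← ENNReal.ofReal_add (by positivity) (by positivity), div_eq_mul_inv,
        mul_assoc]
      apply mul_le_mul_right
      rw [← ENNReal.div_eq_inv_mul, ENNReal.div_le_iff (by simp) (by simp),
        ← ENNReal.ofReal_ofNat 2, ← ENNReal.ofReal_mul (by positivity)]
      apply ENNReal.ofReal_le_ofReal
      have h3 : ψ s ^ 2 ≤ M ^ 2 := sq_le_sq' (abs_le.mp (hM s)).1 (abs_le.mp (hM s)).2
      simp only [SS, sg, smul_eq_mul]
      push_cast
      nlinarith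
  have h2 : ∀ k : ℕ, ∫⁻ ω, ENNReal.ofReal ((SS ψ (nd (2 ^ k) ω) / 2 ^ k) ^ 2) ∂μ ≤
      ENNReal.ofReal (M ^ 2 * (1 / 2) ^ k) := by
    intro k
    have h3 := h1 (2 ^ k) []
    have e : C [] = univ := rfl
    simp only [e, Measure.restrict_univ, List.length_nil, zero_add, measure_univ, one_mul,
      SS] at h3
    have e2 : ∀ ω, ENNReal.ofReal ((SS ψ (nd (2 ^ k) ω) / 2 ^ k) ^ 2) =
        ENNReal.ofReal ((1 / 2 ^ k) ^ 2) * ENNReal.ofReal (SS ψ (nd (2 ^ k) ω) ^ 2) := fun ω => by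
      rw [← ENNReal.ofReal_mul (by positivity)]; congr 1; ring
    simp only [e2]
    rw [lintegral_const_mul' _ _ ENNReal.ofReal_ne_top]
    refine (mul_le_mul_right h3 _).trans_eq ?_
    rw [← ENNReal.ofReal_mul (by positivity)]
    congr 1
    push_cast
    rw [one_div_pow 2 k]
    field_simp
    ring
  let _ : MeasurableSpace (List Bool) := ⊤
  have h3 : ∀ k : ℕ, Measurable fun ω => ENNReal.ofReal ((SS ψ (nd (2 ^ k) ω) / 2 ^ k) ^ 2) :=
    fun k => (measurable_from_top (f := fun s => ENNReal.ofReal ((SS ψ s / 2 ^ k) ^ 2))).comp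
      (measurable_to_countable' (hm _))
  have h4 : ∫⁻ ω, ∑' k : ℕ, ENNReal.ofReal ((SS ψ (nd (2 ^ k) ω) / 2 ^ k) ^ 2) ∂μ ≠ ∞ := by
    rw [lintegral_tsum fun k => (h3 k).aemeasurable]
    refine ne_top_of_le_ne_top ?_ (ENNReal.tsum_le_tsum h2)
    exact (summable_geometric_two.mul_left (M ^ 2)).tsum_ofReal_ne_top
  filter_upwards [ae_lt_top (Measurable.tsum h3) h4] with ω hω
  have h5 := (ENNReal.tendsto_toReal ENNReal.zero_ne_top).comp
    (ENNReal.tendsto_atTop_zero_of_tsum_ne_top hω.ne)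
  have h6 := (Real.continuous_sqrt.tendsto _).comp h5
  rw [tendsto_zero_iff_abs_tendsto_zero]
  simp only [ENNReal.toReal_zero, Real.sqrt_zero] at h6
  refine h6.congr fun k => ?_
  simp only [Function.comp]
  rw [ENNReal.toReal_ofReal (sq_nonneg _), Real.sqrt_sq_eq_abs]

end Pool.Agent.H88.Rn
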