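import Mathlib

namespace Pool.Agent.H88.Rn
open Set Filter Topology MeasureTheory
set_option linter.unusedSectionVars false

inductive Tr
  | leaf : ℕ → Tr
  | node : Tr → Tr → Tr
  deriving Countable

variable {Ω X : Type*} [MeasurableSpace Ω] [NormedAddCommGroup X] [NormedSpace ℝ X]

noncomputable def ev (z : ℕ → X) : Tr → X
  | .leaf j => z j
  | .node l r => (1 / 2 : ℝ) • (ev z l + ev z r)

def low : Tr → ℕ
  | .leaf j => j
  | .node l r => min (low l) (low r)

theorem ev_sm {z : ℕ → Ω → X} (hz : ∀ j, StronglyMeasurable (z j)) (t : Tr) :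
    StronglyMeasurable fun ω => ev (fun j => z j ω) t := by
  induction t with
  | leaf j => exact hz j
  | node l r a b => exact (a.add b).const_smul (1 / 2 : ℝ)

theorem ev_norm {z : ℕ → X} (hz : ∀ j, ‖z j‖ ≤ 1) (t : Tr) : ‖ev z t‖ ≤ 1 := by
  induction t with
  | leaf j => exact hz j
  | node l r a b =>
    rw [ev, norm_smul, Real.norm_eq_abs, abs_of_pos (by norm_num)]
    linarith [norm_add_le (ev z l) (ev z r)]

theorem ev_up {z : ℕ → X} (φ : X →L[ℝ] ℝ) (r : ℝ) (m : ℕ) (h : ∀ j, m ≤ j → φ (z j) ≤ r)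
    (t : Tr) (ht : m ≤ low t) : φ (ev z t) ≤ r := by
  induction t with
  | leaf j => exact h j ht
  | node l s a b =>
    have := a (ht.trans (min_le_left _ _))
    have := b (ht.trans (min_le_right _ _))
    rw [ev, map_smul, map_add, smul_eq_mul]
    linarith

theorem ev_low {z : ℕ → X} (r : ℝ) (t : Tr) :
    ∃ K, ∀ φ : X →L[ℝ] ℝ, (∀ j ≤ K, r ≤ φ (z j)) → r ≤ φ (ev z t) := by
  induction t with
  | leaf j => exact ⟨j, fun φ h => h j le_rfl⟩
  | node l s a b =>
    obtain ⟨K, a⟩ := a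
    obtain ⟨L, b⟩ := b
    refine ⟨max K L, fun φ h => ?_⟩
    have := a φ fun j hj => h j (hj.trans (le_max_left _ _))
    have := b φ fun j hj => h j (hj.trans (le_max_right _ _))
    rw [ev, map_smul, map_add, smul_eq_mul]
    linarith

theorem sm_pick {c : ℕ → Ω → X} (hc : ∀ n, StronglyMeasurable (c n)) {i : Ω → ℕ}
    (hi : Measurable i) : StronglyMeasurable fun ω => c (i ω) ω := by
  apply stronglyMeasurable_of_tendsto atTop
    (f := fun N ω => ∑ n ∈ Finset.range N, (i ⁻¹' {n}).indicator (c n) ω)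
  · intro N
    exact Finset.stronglyMeasurable_fun_sum _ fun n _ =>
      (hc n).indicator (hi (measurableSet_singleton n))
  · rw [tendsto_pi_nhds]
    intro ω
    apply tendsto_const_nhds.congr'
    filter_upwards [eventually_gt_atTop (i ω)] with N hN
    rw [Finset.sum_eq_single (i ω)]
    · rw [indicator_of_mem (by simp)]
    · intro n _ hn
      rw [indicator_of_notMem (by simpa using hn.symm)]
    · intro h; exact absurd (Finset.mem_range.mpr hN) h

theorem step {z : ℕ → Ω → X} (hz : ∀ j, StronglyMeasurable (z j)) (k : ℕ) {δ : ℝ} (hδ : 0 < δ)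
    (u : Ω → X) (hu : StronglyMeasurable u) : ∃ y : Ω → X, StronglyMeasurable y ∧ ∀ ω,
      (∃ t, k ≤ low t ∧ y ω = ev (fun j => z j ω) t) ∧
      ∀ t, k ≤ low t → ‖u ω + y ω‖ ≤ ‖u ω + ev (fun j => z j ω) t‖ + δ := by
  classical
  have : Nonempty {t // k ≤ low t} := ⟨⟨.leaf k, le_rfl⟩⟩
  obtain ⟨e, he⟩ := exists_surjective_nat {t // k ≤ low t}
  let c : ℕ → Ω → X := fun n ω => ev (fun j => z j ω) (e n).1
  have hc : ∀ n, StronglyMeasurable (c n) := fun n => ev_sm hz _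
  have h1 : ∀ ω, ∃ n, ∀ m, ‖u ω + c n ω‖ ≤ ‖u ω + c m ω‖ + δ := by
    intro ω
    obtain ⟨n, hn⟩ := exists_lt_of_ciInf_lt (f := fun n => ‖u ω + c n ω‖)
      (lt_add_of_pos_right _ hδ)
    refine ⟨n, fun m => hn.le.trans (add_le_add_left ?_ _)⟩
    exact ciInf_le ⟨0, by rintro _ ⟨n, rfl⟩; exact norm_nonneg _⟩ m
  have h2 : Measurable fun ω => Nat.find (h1 ω) := by
    apply measurable_find
    intro n
    rw [ofPred_forall]
    exact MeasurableSet.iInter fun m => measurableSet_le (hu.add (hc n)).norm.measurable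
      ((hu.add (hc m)).norm.measurable.add_const δ)
  refine ⟨fun ω => c (Nat.find (h1 ω)) ω, sm_pick hc h2, fun ω => ⟨⟨_, (e _).2, rfl⟩, ?_⟩⟩
  intro t ht
  obtain ⟨m, hm⟩ := he ⟨t, ht⟩
  have := Nat.find_spec (h1 ω) m
  simpa only [c, hm] using this

theorem simons [CompleteSpace X] {z : ℕ → Ω → X} (hz : ∀ j, StronglyMeasurable (z j))
    (hn : ∀ j ω, ‖z j ω‖ ≤ 1) {ε : ℝ} (hε : 0 < ε) :
    ∃ v : Ω → X, StronglyMeasurable v ∧ ∀ ω, ‖v ω‖ ≤ 1 ∧
      (∀ r, (∀ K, ∃ φ : X →L[ℝ] ℝ, (∀ x, φ x ≤ ‖x‖) ∧ ∀ j ≤ K, r ≤ φ (z j ω)) → r ≤ ‖v ω‖) ∧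
      ∀ φ : X →L[ℝ] ℝ, (∀ x, φ x ≤ ‖x‖) → φ (v ω) = ‖v ω‖ → ∀ m r, r < ‖v ω‖ - ε →
        ∃ j, m ≤ j ∧ r < φ (z j ω) := by
  choose Y hY hY' using fun k : ℕ => step hz k (δ := ε * (1 / 2) ^ (k + 1)) (by positivity)
  let U : ℕ → {u : Ω → X // StronglyMeasurable u} := fun n => Nat.rec ⟨0, stronglyMeasurable_zero⟩
    (fun k u => ⟨fun ω => (2 : ℝ) • u.1 ω + Y k u.1 u.2 ω,
      (u.2.const_smul (2 : ℝ)).add (hY k u.1 u.2)⟩) n
  let y : ℕ → Ω → X := fun k => Y k (U k).1 (U k).2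
  have hU : ∀ k ω, (U (k + 1)).1 ω = (2 : ℝ) • (U k).1 ω + y k ω := fun k ω => rfl
  have y1 : ∀ k ω, ∃ t, k ≤ low t ∧ y k ω = ev (fun j => z j ω) t := fun k ω => (hY' k _ _ ω).1
  have y2 : ∀ k ω, ‖y k ω‖ ≤ 1 := fun k ω => by
    obtain ⟨t, -, h⟩ := y1 k ω
    rw [h]; exact ev_norm (fun j => hn j ω) t
  have hs : ∀ k ω, Summable fun n => (1 / 2 : ℝ) ^ (n + 1) • y (k + n) ω := fun k ω => by
    refine Summable.of_norm_bounded summable_geometric_two fun n => ?_
    rw [norm_smul, Real.norm_eq_abs, abs_of_pos (by positivity)]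
    refine (mul_le_of_le_one_right (by positivity) (y2 _ _)).trans ?_
    exact pow_le_pow_of_le_one (by norm_num) (by norm_num) (Nat.le_succ n)
  let w : ℕ → Ω → X := fun k ω => ∑' n, (1 / 2 : ℝ) ^ (n + 1) • y (k + n) ω
  have w1 : ∀ k ω, (2 : ℝ) • w k ω = y k ω + w (k + 1) ω := fun k ω => by
    simp only [w]
    rw [(hs k ω).tsum_eq_zero_add, smul_add, ← ((summable_nat_add_iff 1).mpr (hs k ω)).tsum_const_smul]
    congr 1
    · simp [smul_smul]
    · congr 1
      ext n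
      rw [smul_smul, show k + (n + 1) = k + 1 + n by ring]
      congr 1
      ring
  have p1 : ∀ ω N k, ∃ t, k ≤ low t ∧ ∑ n ∈ Finset.range N, (1 / 2 : ℝ) ^ (n + 1) • y (k + n) ω +
      (1 / 2 : ℝ) ^ N • y (k + N) ω = ev (fun j => z j ω) t := by
    intro ω N
    induction N with
    | zero => intro k; simpa using y1 k ω
    | succ N ih =>
      intro k
      obtain ⟨t, a, b⟩ := ih (k + 1)
      obtain ⟨s, c, d⟩ := y1 k ω
      refine ⟨.node s t, le_min c (by omega), ?_⟩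
      rw [ev, ← b, ← d, Finset.sum_range_succ', smul_add, smul_add, Finset.smul_sum]
      simp only [smul_smul, show ∀ n, k + 1 + n = k + (n + 1) from fun n => by ring,
        ← pow_succ']
      simp only [zero_add, pow_one, add_zero]
      abel
  have p2 : ∀ k ω, Tendsto (fun N => ∑ n ∈ Finset.range N, (1 / 2 : ℝ) ^ (n + 1) • y (k + n) ω +
      (1 / 2 : ℝ) ^ N • y (k + N) ω) atTop (𝓝 (w k ω)) := fun k ω => by
    have : Tendsto (fun N => (1 / 2 : ℝ) ^ N • y (k + N) ω) atTop (𝓝 0) := by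
      refine squeeze_zero_norm (fun N => ?_)
        (tendsto_pow_atTop_nhds_zero_of_lt_one (r := (1 / 2 : ℝ)) (by norm_num) (by norm_num))
      rw [norm_smul, Real.norm_eq_abs, abs_of_pos (by positivity)]
      exact mul_le_of_le_one_right (by positivity) (y2 _ _)
    have h1 := (hs k ω).hasSum.tendsto_sum_nat.add this
    rwa [add_zero] at h1
  have w2 : ∀ k ω (S : Set X), IsClosed S → (∀ t, k ≤ low t → ev (fun j => z j ω) t ∈ S) →
      w k ω ∈ S := fun k ω S hS h => hS.mem_of_tendsto (p2 k ω) (Eventually.of_forall fun N => by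
        obtain ⟨t, a, b⟩ := p1 ω N k
        rw [b]; exact h t a)
  have w3 : ∀ ω k, (U k).1 ω + w k ω = (2 : ℝ) ^ k • w 0 ω := by
    intro ω k
    induction k with
    | zero => simp [U]
    | succ k ih => rw [hU, add_assoc, ← w1, ← smul_add, ih, smul_smul, pow_succ']
  have w4 : ∀ ω k, ‖(U k).1 ω‖ ≤ (2 ^ k - 1) * ‖w 0 ω‖ + ε * (1 - (1 / 2) ^ k) := by
    intro ω k
    induction k with
    | zero => simp [U]
    | succ k ih =>
      have h1 := w2 k ω {x | ‖(U k).1 ω + y k ω‖ ≤ ‖(U k).1 ω + x‖ + ε * (1 / 2) ^ (k + 1)}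
        (isClosed_le continuous_const (by fun_prop)) (hY' k _ _ ω).2
      simp only [mem_ofPred_eq] at h1
      rw [w3, norm_smul, Real.norm_eq_abs, abs_of_pos (by positivity)] at h1
      rw [hU, two_smul, add_assoc]
      refine (norm_add_le _ _).trans ?_
      rw [pow_succ, pow_succ] at *
      linarith
  refine ⟨w 0, ?_, fun ω => ⟨?_, fun r hr => ?_, fun φ h1 h2 m r hr => ?_⟩⟩
  · apply stronglyMeasurable_of_tendsto atTop
      (f := fun N ω => ∑ n ∈ Finset.range N, (1 / 2 : ℝ) ^ (n + 1) • y (0 + n) ω)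
    · intro N
      exact Finset.stronglyMeasurable_fun_sum _ fun n _ => (hY _ _ _).const_smul _
    · exact tendsto_pi_nhds.mpr fun ω => (hs 0 ω).hasSum.tendsto_sum_nat
  · exact w2 0 ω {x | ‖x‖ ≤ 1} (isClosed_le continuous_norm continuous_const)
      fun t _ => ev_norm (fun j => hn j ω) t
  · refine w2 0 ω {x | r ≤ ‖x‖} (isClosed_le continuous_const continuous_norm) fun t _ => ?_
    obtain ⟨K, hK⟩ := ev_low (z := fun j => z j ω) r t
    obtain ⟨φ, a, b⟩ := hr K
    exact (hK φ b).trans (a _)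
  · by_contra hc
    push Not at hc
    have h3 : φ (w m ω) ≤ r := w2 m ω {x | φ x ≤ r} (isClosed_le φ.continuous continuous_const)
      fun t ht => ev_up φ r m hc t ht
    have h4 := congrArg φ (w3 ω m)
    rw [map_add, map_smul, h2, smul_eq_mul] at h4
    have h5 := w4 ω m
    have h6 := h1 ((U m).1 ω)
    have h7 : 0 < ε * (1 / 2) ^ m := by positivity
    linarith

end Pool.Agent.H88.Rn
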