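import Pool.Agent.H88.Rn1

namespace Pool.Agent.H88.Rn
open Set Filter Topology MeasureTheory
open scoped ENNReal
set_option linter.unusedSectionVars false

variable {W Y X : Type*} [MeasurableSpace W] [NormedAddCommGroup Y] [NormedSpace ℝ Y]
  [CompleteSpace Y] [NormedAddCommGroup X] [NormedSpace ℝ X]
  {l : Measure W} [IsFiniteMeasure l] {F : VectorMeasure W Y}

theorem rpos {A : Set W} (h : 0 < l A) : 0 < l.real A :=
  ENNReal.toReal_pos h.ne' (measure_ne_top _ _)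

theorem approx (hF : ∀ A, ‖F A‖ ≤ l.real A) {ε : ℝ} (hε : 0 < ε)
    (H : ∀ E, MeasurableSet E → 0 < l E → ∃ A ⊆ E, MeasurableSet A ∧ 0 < l A ∧ ∃ y : Y,
      ∀ B ⊆ A, MeasurableSet B → ‖F B - l.real B • y‖ ≤ ε * l.real B) :
    ∃ φ : W → Y, Integrable φ l ∧ ∀ B, MeasurableSet B →
      ‖F B - ∫ ω in B, φ ω ∂l‖ ≤ ε * l.real B := by
  classical
  obtain ⟨𝒜, a1, a2, a3, -, a5⟩ := exhaust l (fun A => 0 < l A ∧ ∃ y : Y,
      ∀ B ⊆ A, MeasurableSet B → ‖F B - l.real B • y‖ ≤ ε * l.real B) ∞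
  have hU : MeasurableSet (⋃₀ 𝒜) := MeasurableSet.sUnion a1 fun B hB => (a2 B hB).1
  have hN : l (⋃₀ 𝒜)ᶜ = 0 := by
    by_contra hn
    obtain ⟨A, b1, b2, b3, b4⟩ := H _ hU.compl (pos_iff_ne_zero.mpr hn)
    exact not_top_lt (a5 A b2 ⟨b3, b4⟩ b3 (disjoint_compl_left.mono_left b1))
  have := a1.to_subtype
  choose y hy using fun A : 𝒜 => (a2 A.1 A.2).2.2
  let yy : Option 𝒜 → Y := fun i => i.elim 0 y
  let κ : W → Option 𝒜 := fun ω => if h : ∃ A : 𝒜, ω ∈ A.1 then some h.choose else none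
  have k1 : ∀ A : 𝒜, κ ⁻¹' {some A} = A.1 := by
    intro A
    ext ω
    simp only [mem_preimage, mem_singleton_iff, κ]
    constructor
    · intro h
      split_ifs at h with h'
      have := h'.choose_spec
      rwa [Option.some.inj h] at this
    · intro h
      have h' : ∃ A : 𝒜, ω ∈ A.1 := ⟨A, h⟩
      rw [dif_pos h']
      congr 1
      by_contra hn
      exact Set.disjoint_left.mp (a3 h'.choose.2 A.2 fun e => hn (Subtype.ext e)) h'.choose_spec h
  have k2 : κ ⁻¹' {none} = (⋃₀ 𝒜)ᶜ := by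
    ext ω
    simp [κ]
  have k3 : ∀ i, MeasurableSet (κ ⁻¹' {i}) := by
    rintro (_ | A)
    · rw [k2]; exact hU.compl
    · rw [k1]; exact (a2 A.1 A.2).1
  have k4 : ∀ i, ∀ B ⊆ κ ⁻¹' {i}, MeasurableSet B → ‖F B - l.real B • yy i‖ ≤ ε * l.real B := by
    rintro (_ | A) B h1 h2
    · rw [k2] at h1
      have h3 : l.real B = 0 := by rw [measureReal_def, measure_mono_null h1 hN]; simp
      simpa [h3] using hF B
    · rw [k1] at h1
      exact hy A B h1 h2
  have k5 : ∀ i, ‖yy i‖ ≤ 1 + ε := by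
    rintro (_ | A)
    · simp [yy]; positivity
    · have h1 := hy A A.1 le_rfl (a2 A.1 A.2).1
      have h2 := rpos (a2 A.1 A.2).2.1
      have h3 := norm_sub_norm_le (l.real A.1 • y A) (F A.1)
      rw [norm_sub_rev, norm_smul, Real.norm_eq_abs, abs_of_pos h2] at h3
      show ‖y A‖ ≤ 1 + ε
      nlinarith [hF A.1]
  let _ : MeasurableSpace (Option 𝒜) := ⊤
  have hm : StronglyMeasurable (yy ∘ κ) :=
    StronglyMeasurable.of_discrete.comp_measurable (measurable_to_countable' k3)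
  have hi : Integrable (yy ∘ κ) l :=
    Integrable.of_bound hm.aestronglyMeasurable (1 + ε) (Eventually.of_forall fun ω => k5 _)
  refine ⟨yy ∘ κ, hi, fun B hB => ?_⟩
  have d1 : ∀ i, MeasurableSet (B ∩ κ ⁻¹' {i}) := fun i => hB.inter (k3 i)
  have d2 : Pairwise (Function.onFun Disjoint fun i => B ∩ κ ⁻¹' {i}) := fun i j hij =>
    Set.disjoint_left.mpr fun ω a b => hij (a.2.symm.trans b.2)
  have d3 : ⋃ i, B ∩ κ ⁻¹' {i} = B := by
    ext ω; simp
  have s1 := (F - l.withDensityᵥ (yy ∘ κ)).hasSum_of_disjoint_iUnion d1 d2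
  have s2 := (l.toSignedMeasure.hasSum_of_disjoint_iUnion d1 d2).mul_left ε
  rw [d3] at s1 s2
  have := s1.norm_le_of_bounded s2 fun i => by
    rw [sub_apply, withDensityᵥ_apply hi (d1 i),
      setIntegral_congr_fun (d1 i) (f := yy ∘ κ) (g := fun _ => yy i) (fun ω hω => congrArg yy hω.2),
      setIntegral_const, Measure.toSignedMeasure_apply_measurable (d1 i)]
    exact k4 i _ inter_subset_right (d1 i)
  rwa [sub_apply, withDensityᵥ_apply hi hB,
    Measure.toSignedMeasure_apply_measurable hB] at this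

theorem l1_bound {ψ : W → Y} (hi : Integrable ψ l) {c : ℝ} (hc : 0 ≤ c)
    (h : ∀ B, MeasurableSet B → ‖∫ ω in B, ψ ω ∂l‖ ≤ c * l.real B) :
    ∫ ω, ‖ψ ω‖ ∂l ≤ c * l.real univ := by
  have h1 := VectorMeasure.variation_le_of_forall_enorm_le (μ := l.withDensityᵥ ψ)
    (m := ENNReal.ofReal c • l) fun B hB => by
      rw [withDensityᵥ_apply hi hB, Measure.smul_apply, smul_eq_mul, ← ofReal_norm,
        ← ofReal_measureReal (μ := l) (s := B), ← ENNReal.ofReal_mul hc]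
      exact ENNReal.ofReal_le_ofReal (h B hB)
  have h2 := h1 univ
  rw [Measure.variation_withDensityᵥ hi, withDensity_apply _ MeasurableSet.univ,
    Measure.restrict_univ, Measure.smul_apply, smul_eq_mul,
    ← ofReal_integral_norm_eq_lintegral_enorm hi,
    ← ofReal_measureReal (μ := l) (s := univ), ← ENNReal.ofReal_mul hc] at h2
  exact (ENNReal.ofReal_le_ofReal_iff (by positivity)).mp h2

theorem density (hF : ∀ A, ‖F A‖ ≤ l.real A)
    (H : ∀ ε : ℝ, 0 < ε → ∀ E, MeasurableSet E → 0 < l E → ∃ A ⊆ E, MeasurableSet A ∧ 0 < l A ∧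
      ∃ y : Y, ∀ B ⊆ A, MeasurableSet B → ‖F B - l.real B • y‖ ≤ ε * l.real B) :
    ∃ φ : W → Y, Integrable φ l ∧ ∀ B, MeasurableSet B → F B = ∫ ω in B, φ ω ∂l := by
  choose φ hφ hφ' using fun n : ℕ => approx hF (ε := (1 / 2) ^ n) (by positivity)
    (H _ (by positivity))
  let u : ℕ → W →₁[l] Y := fun n => (hφ n).toL1
  have hc : CauchySeq u := by
    apply cauchySeq_of_le_geometric (1 / 2) (2 * l.real univ) (by norm_num)
    intro n
    rw [dist_eq_norm, ← Integrable.toL1_sub, L1.norm_of_fun_eq_integral_norm]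
    refine (l1_bound ((hφ n).sub (hφ (n + 1))) (c := 2 * (1 / 2) ^ n) (by positivity)
      fun B hB => ?_).trans_eq (by ring)
    simp only [Pi.sub_apply]
    rw [integral_sub (hφ n).integrableOn (hφ (n + 1)).integrableOn]
    have a := hφ' n B hB
    have b := hφ' (n + 1) B hB
    have c := norm_sub_le (F B - ∫ ω in B, φ (n + 1) ω ∂l) (F B - ∫ ω in B, φ n ω ∂l)
    rw [sub_sub_sub_cancel_left] at c
    have d : 0 ≤ (1 / 2 : ℝ) ^ n * l.real B := by positivity
    rw [pow_succ] at b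
    linarith
  obtain ⟨v, hv⟩ := cauchySeq_tendsto_of_complete hc
  refine ⟨v, L1.integrable_coeFn v, fun B hB => ?_⟩
  refine tendsto_nhds_unique ?_ (((continuous_setIntegral B).tendsto v).comp hv)
  rw [tendsto_iff_norm_sub_tendsto_zero]
  have h0 := (tendsto_pow_atTop_nhds_zero_of_lt_one (r := (1 / 2 : ℝ)) (by norm_num)
    (by norm_num)).mul_const (l.real B)
  rw [zero_mul] at h0
  refine squeeze_zero (fun _ => norm_nonneg _) (fun n => ?_) h0
  simp only [Function.comp]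
  rw [norm_sub_rev, integral_congr_ae (ae_restrict_of_ae (hφ n).coeFn_toL1)]
  exact hφ' n B hB

theorem negset (b : Y →L[ℝ] X →L[ℝ] ℝ) (x : X) (c : ℝ) {B : Set W} (hB : MeasurableSet B)
    (h : b (F B) x < c * l.real B) (hF : ∀ A, ‖F A‖ ≤ l.real A) :
    ∃ A ⊆ B, MeasurableSet A ∧ 0 < l A ∧ ∀ C ⊆ A, MeasurableSet C → b (F C) x ≤ c * l.real C := by
  let s : SignedMeasure W := F.mapRange (b.flip x).toLinearMap.toAddMonoidHom (b.flip x).continuous
    - c • l.toSignedMeasure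
  have hs : ∀ C, MeasurableSet C → s C = b (F C) x - c * l.real C := fun C hC => by
    simp only [s, sub_apply, smul_apply,
      Measure.toSignedMeasure_apply_measurable hC, smul_eq_mul]
    rfl
  obtain ⟨A, a1, a2, a3, a4⟩ := s.exists_subset_restrict_nonpos (i := B)
    (by rw [hs B hB]; linarith)
  refine ⟨A, a2, a1, ?_, fun C h1 h2 => ?_⟩
  · rw [pos_iff_ne_zero]
    intro h0
    have h1 : l.real A = 0 := by rw [measureReal_def, h0]; simp
    have h2 : F A = 0 := norm_le_zero_iff.mp (h1 ▸ hF A)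
    rw [hs A a1, h1, h2] at a4
    simp at a4
  · have := (VectorMeasure.restrict_le_restrict_iff _ _ a1).mp a3 h2 h1
    rw [hs C h2] at this
    simpa using this

theorem tree (b : Y →L[ℝ] X →L[ℝ] ℝ) (hb1 : ∀ y x, b y x ≤ ‖y‖ * ‖x‖)
    (hb2 : ∀ y r, r < ‖y‖ → ∃ x, ‖x‖ ≤ 1 ∧ r < b y x) (hF : ∀ A, ‖F A‖ ≤ l.real A)
    (hn : ¬ ∃ φ : W → Y, Integrable φ l ∧ ∀ B, MeasurableSet B → F B = ∫ ω in B, φ ω ∂l) :
    ∃ (η M : ℝ) (x : List Bool → X) (a : List Bool → ℝ), 0 < η ∧ (∀ s, ‖x s‖ ≤ 1 ∧ |a s| ≤ M) ∧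
      ∀ s, ∃ d : Y, ‖d‖ ≤ 1 ∧ ∀ t, t <:+ s → η * t.length ≤ b d (SS x t) - SS a t := by
  have := mt (density hF) hn
  push Not at this
  obtain ⟨ε, hε, E, e1, e2, H⟩ := this
  have hd : ∀ A, 0 < l A → ‖(l.real A)⁻¹ • F A‖ ≤ 1 := fun A h => by
    rw [norm_smul, norm_inv, Real.norm_eq_abs, abs_of_pos (rpos h), inv_mul_le_iff₀ (rpos h)]
    simpa using hF A
  have st : ∀ A : {A // A ⊆ E ∧ MeasurableSet A ∧ 0 < l A}, ∃ (x : X) (a : ℝ),
      ‖x‖ ≤ 1 ∧ |a| ≤ 1 + ε ∧ ∀ c : Bool, ∃ A' : {A // A ⊆ E ∧ MeasurableSet A ∧ 0 < l A},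
        A'.1 ⊆ A.1 ∧ ∀ C ⊆ A'.1, MeasurableSet C →
          ε / 3 * l.real C ≤ sg c * (b (F C) x - a * l.real C) := by
    rintro ⟨A, a1, a2, a3⟩
    obtain ⟨B, b1, b2, b3⟩ := H A a1 a2 a3 ((l.real A)⁻¹ • F A)
    obtain ⟨x, x1, x2⟩ := hb2 _ _ b3
    set y := (l.real A)⁻¹ • F A with hy
    have y1 : ‖y‖ * ‖x‖ ≤ 1 := mul_le_one₀ (hd A a3) (norm_nonneg _) x1
    have y2 := hb1 y x
    have y3 := hb1 y (-x)
    rw [map_neg, norm_neg] at y3
    refine ⟨x, b y x + 2 * ε / 3, x1, abs_le.mpr ⟨by linarith, by linarith⟩, fun c => ?_⟩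
    cases c
    · obtain ⟨A', c1, c2, c3, c4⟩ := negset b x (b y x + ε / 3) a2 (by
        have := rpos a3
        have e : b y x * l.real A = b (F A) x := by
          rw [hy, map_smul, smul_apply, smul_eq_mul]; field_simp
        nlinarith) hF
      refine ⟨⟨A', c1.trans a1, c2, c3⟩, c1, fun C h1 h2 => ?_⟩
      have := c4 C h1 h2
      simp only [sg, Bool.false_eq_true, if_false]
      linarith
    · obtain ⟨A', c1, c2, c3, c4⟩ := negset b (-x) (-(b y x + ε)) b2 (by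
        rw [map_sub, map_smul, sub_apply, smul_apply,
          smul_eq_mul] at x2
        rw [map_neg]
        linarith) hF
      refine ⟨⟨A', (c1.trans b1).trans a1, c2, c3⟩, c1.trans b1, fun C h1 h2 => ?_⟩
      have := c4 C h1 h2
      rw [map_neg] at this
      simp only [sg, if_true]
      linarith
  choose x a h1 h2 ch h3 h4 using st
  let T : List Bool → {A // A ⊆ E ∧ MeasurableSet A ∧ 0 < l A} := fun s =>
    List.rec ⟨E, le_rfl, e1, e2⟩ (fun c _ A => ch A c) s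
  have hT : ∀ c s, T (c :: s) = ch (T s) c := fun c s => rfl
  have key : ∀ t, ∀ C ⊆ (T t).1, MeasurableSet C → ε / 3 * t.length * l.real C ≤
      b (F C) (SS (fun s => x (T s)) t) - SS (fun s => a (T s)) t * l.real C := by
    intro t
    induction t with
    | nil => intro C _ _; simp [SS]
    | cons c t ih =>
      intro C c1 c2
      have p1 := ih C (c1.trans (h3 _ _)) c2
      have p2 := h4 _ _ C c1 c2
      simp only [SS, map_add, map_smul, smul_eq_mul, List.length_cons]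
      push_cast
      linarith
  have sub : ∀ s t, t <:+ s → (T s).1 ⊆ (T t).1 := by
    intro s t h
    induction s with
    | nil => rw [List.suffix_nil.mp h]
    | cons c s ih =>
      rcases List.suffix_cons_iff.mp h with h | h
      · rw [h]
      · exact (h3 _ _).trans (ih h)
  refine ⟨ε / 3, 1 + ε, fun s => x (T s), fun s => a (T s), by positivity,
    fun s => ⟨h1 _, h2 _⟩, fun s => ⟨_, hd _ (T s).2.2.2, fun t ht => ?_⟩⟩
  have p1 := key t _ (sub s t ht) (T s).2.2.1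
  have p2 := rpos (T s).2.2.2
  rw [map_smul, smul_apply, smul_eq_mul, le_sub_iff_add_le,
    le_inv_mul_iff₀ p2]
  linarith

end Pool.Agent.H88.Rn
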