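import Mathlib

namespace Pool.Agent.H88.Rn
open MeasureTheory

universe u v

/-- Radon-Nikodym property -/
def RNP (Y : Type u) [NormedAddCommGroup Y] [NormedSpace ℝ Y] : Prop :=
  ∀ (W : Type v) [MeasurableSpace W] (ν : Measure W) [IsFiniteMeasure ν] (F : VectorMeasure W Y),
    (∀ A, MeasurableSet A → ν A = 0 → F A = 0) → F.variation Set.univ < ⊤ →
      ∃ φ : W → Y, Integrable φ ν ∧ ∀ B, MeasurableSet B → F B = ∫ ω in B, φ ω ∂ν

end Pool.Agent.H88.Rn
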