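import Pool.Agent.H88.Rn2
import Pool.Agent.H88.Rn3
import Pool.Agent.H88.RnDefs

namespace Pool.Agent.H88.Rn
open Set Filter Topology MeasureTheory
open scoped ENNReal
set_option linter.unusedSectionVars false

variable {Ω W Y X : Type*} [MeasurableSpace Ω] [MeasurableSpace W] [NormedAddCommGroup Y]
  [NormedSpace ℝ Y] [CompleteSpace Y] [NormedAddCommGroup X] [NormedSpace ℝ X] [CompleteSpace X]

theorem SS_norm {x : List Bool → X} (hx : ∀ s, ‖x s‖ ≤ 1) (s : List Bool) :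
    ‖SS x s‖ ≤ s.length := by
  induction s with
  | nil => simp [SS]
  | cons c s ih =>
    have : ‖sg c • x s‖ ≤ 1 := by cases c <;> simpa [sg] using hx s
    rw [SS, List.length_cons]
    push_cast
    linarith [norm_add_le (SS x s) (sg c • x s)]

theorem SS_map (φ : X →L[ℝ] ℝ) (x : List Bool → X) (s : List Bool) :
    φ (SS x s) = SS (fun t => φ (x t)) s := by
  induction s with
  | nil => simp [SS]
  | cons c s ih => simp [SS, ih]

theorem core {μ : Measure Ω} [IsProbabilityMeasure μ] (hμ : NA μ)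
    (b : Y →L[ℝ] X →L[ℝ] ℝ) (hb1 : ∀ y x, b y x ≤ ‖y‖ * ‖x‖)
    (hb2 : ∀ y r, r < ‖y‖ → ∃ x, ‖x‖ ≤ 1 ∧ r < b y x)
    (H : ∀ f : Ω → X, StronglyMeasurable f → (∀ ω, ‖f ω‖ ≤ 1) → ∃ g : Ω → Y,
      AEStronglyMeasurable g μ ∧ (∀ᵐ ω ∂μ, b (g ω) (f ω) = ‖g ω‖ * ‖f ω‖) ∧
      ((∀ᵐ ω ∂μ, g ω = 0 ∨ f ω = 0) → ∀ᵐ ω ∂μ, f ω = 0))
    {l : Measure W} [IsFiniteMeasure l] {F : VectorMeasure W Y} (hF : ∀ A, ‖F A‖ ≤ l.real A) :
    ∃ φ : W → Y, Integrable φ l ∧ ∀ B, MeasurableSet B → F B = ∫ ω in B, φ ω ∂l := by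
  by_contra hn
  obtain ⟨η, M, x, a, η0, h1, h2⟩ := tree b hb1 hb2 hF hn
  obtain ⟨nd, n1, n2, n3, n4⟩ := coins hμ
  have len : ∀ n ω, (nd n ω).length = n := by
    intro n ω
    induction n with
    | zero => simp [n2]
    | succ n ih => obtain ⟨c, hc⟩ := n3 n ω; simp [hc, ih]
  have suf : ∀ ω n m, n ≤ m → nd n ω <:+ nd m ω := by
    intro ω n m h
    induction h with
    | refl => exact List.suffix_refl _
    | step _ ih =>
      obtain ⟨c, hc⟩ := n3 _ ω
      rw [hc]; exact ih.trans (List.suffix_cons _ _)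
  let _ : MeasurableSpace (List Bool) := ⊤
  have mn : ∀ n, Measurable (nd n) := fun n => measurable_to_countable' (n1 n)
  let G : ℕ → Set Ω := fun k0 => ⋂ k, nd (2 ^ (k0 + k)) ⁻¹' {s | -(η / 2) ≤ SS a s / 2 ^ (k0 + k)}
  have hG : ∀ k, MeasurableSet (G k) := fun k => MeasurableSet.iInter fun j => mn _ trivial
  obtain ⟨k0, hk0⟩ : ∃ k0, ¬ ∀ᵐ ω ∂μ, ω ∉ G k0 := by
    by_contra hc
    push Not at hc
    obtain ⟨ω, p1, p2⟩ := ((ae_all_iff.mpr hc).and (n4 a M fun s => (h1 s).2)).exists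
    obtain ⟨k, hk⟩ := eventually_atTop.mp (p2.eventually (lt_mem_nhds
      (show -(η / 2) < 0 by linarith)))
    exact p1 k (mem_iInter.mpr fun j => (hk _ (Nat.le_add_right _ _)).le)
  let z : ℕ → Ω → X := fun j ω => (1 / 2 ^ (k0 + j) : ℝ) • SS x (nd (2 ^ (k0 + j)) ω)
  have z1 : ∀ j, StronglyMeasurable (z j) := fun j =>
    (StronglyMeasurable.of_discrete (f := fun s => (1 / 2 ^ (k0 + j) : ℝ) • SS x s)).comp_measurable
      (mn _)
  have z2 : ∀ j ω, ‖z j ω‖ ≤ 1 := fun j ω => by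
    have := SS_norm (fun s => (h1 s).1) (nd (2 ^ (k0 + j)) ω)
    rw [len] at this
    push_cast at this
    rw [norm_smul, Real.norm_eq_abs, abs_of_pos (by positivity), one_div,
      inv_mul_le_iff₀ (by positivity), mul_one]
    exact this
  obtain ⟨v, v1, v2⟩ := simons z1 z2 (ε := η / 8) (by positivity)
  have v3 : ∀ ω ∈ G k0, η / 2 ≤ ‖v ω‖ := by
    intro ω hω
    refine (v2 ω).2.1 _ fun K => ?_
    obtain ⟨d, d1, d2⟩ := h2 (nd (2 ^ (k0 + K)) ω)
    refine ⟨b d, fun y => (hb1 d y).trans (mul_le_of_le_one_left (norm_nonneg _) d1),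
      fun j hj => ?_⟩
    have p1 := d2 _ (suf ω (2 ^ (k0 + j)) _ (Nat.pow_le_pow_right two_pos (by omega)))
    have p2 : -(η / 2) ≤ SS a (nd (2 ^ (k0 + j)) ω) / 2 ^ (k0 + j) := mem_iInter.mp hω j
    rw [len] at p1
    push_cast at p1
    rw [le_div_iff₀ (by positivity)] at p2
    simp only [z, map_smul, smul_eq_mul]
    rw [one_div, le_inv_mul_iff₀ (by positivity)]
    linarith
  obtain ⟨g, g1, g2, g3⟩ := H ((G k0).indicator v) (v1.indicator (hG k0)) fun ω =>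
    (norm_indicator_le_norm_self _ _).trans (v2 ω).1
  obtain ⟨t, ⟨c, c1, c2⟩, t2⟩ := g1.isSeparable_ae_range
  have g4 : ∀ᵐ ω ∂μ, ∀ y ∈ c, Tendsto (fun j => b y (z j ω)) atTop (𝓝 0) := by
    rw [ae_ball_iff c1]
    intro y _
    filter_upwards [n4 (fun s => b y (x s)) ‖y‖ fun s => by
      have p1 := hb1 y (x s)
      have p2 := hb1 y (-x s)
      rw [map_neg, norm_neg] at p2
      have p3 := mul_le_of_le_one_right (norm_nonneg y) (h1 s).1
      exact abs_le.mpr ⟨by linarith, by linarith⟩] with ω hω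
    refine (hω.comp (tendsto_add_atTop_nat k0)).congr fun j => ?_
    simp only [z, Function.comp, map_smul, smul_eq_mul, SS_map, add_comm j k0]
    ring
  apply hk0
  filter_upwards [g3 (by
    filter_upwards [g2, t2, g4] with ω p1 p2 p3
    by_contra hc
    push Not at hc
    have p4 : ω ∈ G k0 := by
      by_contra h
      exact hc.2 (indicator_of_notMem h _)
    rw [indicator_of_mem p4] at p1
    have p5 := norm_pos_iff.mpr hc.1
    obtain ⟨y, y1, y2⟩ := Metric.mem_closure_iff.mp (c2 p2) (η / 8 * ‖g ω‖) (by positivity)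
    obtain ⟨m, hm⟩ := eventually_atTop.mp ((p3 y y1).eventually (gt_mem_nhds
      (show 0 < η / 8 * ‖g ω‖ by positivity)))
    obtain ⟨j, j1, j2⟩ := (v2 ω).2.2 (‖g ω‖⁻¹ • b (g ω)) (fun u => by
        rw [smul_apply, smul_eq_mul, inv_mul_le_iff₀ p5]; exact hb1 _ _)
      (by rw [smul_apply, smul_eq_mul, p1]; field_simp) m (η / 4) (by linarith [v3 ω p4])
    rw [smul_apply, smul_eq_mul, lt_inv_mul_iff₀ p5] at j2
    have q1 := hb1 (g ω - y) (z j ω)
    rw [map_sub, sub_apply, ← dist_eq_norm] at q1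
    have q2 := mul_le_of_le_one_right (dist_nonneg (x := g ω) (y := y)) (z2 j ω)
    linarith [hm j j1])] with ω hω h
  rw [indicator_of_mem h] at hω
  have := v3 ω h
  rw [hω, norm_zero] at this
  linarith

theorem core2 {μ : Measure Ω} [IsProbabilityMeasure μ] (hμ : NA μ)
    (b : Y →L[ℝ] X →L[ℝ] ℝ) (hb1 : ∀ y x, b y x ≤ ‖y‖ * ‖x‖)
    (hb2 : ∀ y r, r < ‖y‖ → ∃ x, ‖x‖ ≤ 1 ∧ r < b y x)
    (H : ∀ f : Ω → X, StronglyMeasurable f → (∀ ω, ‖f ω‖ ≤ 1) → ∃ g : Ω → Y,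
      AEStronglyMeasurable g μ ∧ (∀ᵐ ω ∂μ, b (g ω) (f ω) = ‖g ω‖ * ‖f ω‖) ∧
      ((∀ᵐ ω ∂μ, g ω = 0 ∨ f ω = 0) → ∀ᵐ ω ∂μ, f ω = 0)) : RNP Y := by
  intro W _ ν _ F h0 h1
  have : IsFiniteMeasure F.variation := ⟨h1⟩
  obtain ⟨φ, p1, p2⟩ := core hμ b hb1 hb2 H (l := F.variation) (F := F)
    fun A => VectorMeasure.norm_measure_le_variation
  have hac : F.variation ≪ ν := Measure.AbsolutelyContinuous.mk fun A hA h =>
    (VectorMeasure.variation_apply_eq_zero hA).mpr fun B h2 h3 => h0 B h3 (measure_mono_null h2 h)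
  exact ⟨_, (integrable_rnDeriv_smul_iff hac).mpr p1, fun B hB =>
    (p2 B hB).trans (setIntegral_rnDeriv_smul hac hB).symm⟩

theorem main {𝕜 X : Type*} [RCLike 𝕜] [NormedAddCommGroup X] [NormedSpace 𝕜 X] [CompleteSpace X]
    {μ : Measure Ω} [IsProbabilityMeasure μ] (hμ : NA μ) (p q : ℝ≥0∞) [p.HolderConjugate q]
    (H : ∀ f : Ω → X, MemLp f p μ → ∃ g : Ω → StrongDual 𝕜 X, MemLp g q μ ∧ eLpNorm g q μ ≤ 1 ∧
      ∫ ω, g ω (f ω) ∂μ = ((eLpNorm f p μ).toReal : 𝕜)) :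
    RNP (StrongDual 𝕜 X) := by
  let _ : NormedSpace ℝ X := NormedSpace.restrictScalars ℝ 𝕜 X
  have : IsScalarTower ℝ 𝕜 X := ⟨fun r c x => by
    show (r • c) • x = algebraMap ℝ 𝕜 r • c • x
    rw [smul_smul, Algebra.smul_def]⟩
  have hre : ∀ (y : StrongDual 𝕜 X) (x : X), RCLike.re (y x) ≤ ‖y‖ * ‖x‖ := fun y x =>
    (RCLike.re_le_norm _).trans (y.le_opNorm x)
  let b : StrongDual 𝕜 X →L[ℝ] X →L[ℝ] ℝ := LinearMap.mkContinuous₂
    (LinearMap.mk₂ ℝ (fun y x => RCLike.re (y x)) (by simp) (by simp [RCLike.smul_re]) (by simp)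
      (fun r y x => by rw [y.map_smul_of_tower]; simp [RCLike.smul_re])) 1
    (fun y x => by
      simpa using (RCLike.abs_re_le_norm (y x)).trans (y.le_opNorm x))
  have hb : ∀ y x, b y x = RCLike.re (y x) := fun y x => rfl
  exact core2 hμ b hre (fun y r hr => by
      rcases lt_or_ge r 0 with h | h
      · exact ⟨0, by simp, by simpa using h⟩
      · obtain ⟨x, x1, x2⟩ := y.exists_lt_apply_of_lt_opNorm hr
        have x3 : y x ≠ 0 := norm_pos_iff.mp (h.trans_lt x2)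
        refine ⟨((‖y x‖ : 𝕜) / y x) • x, ?_, ?_⟩
        · rw [norm_smul, norm_div, RCLike.norm_ofReal, abs_norm, div_self (norm_ne_zero_iff.mpr x3),
            one_mul]
          exact x1.le
        · rw [hb, map_smul, smul_eq_mul, div_mul_cancel₀ _ x3, RCLike.ofReal_re]
          exact x2)
    (fun f f1 f2 => by
      have f3 : MemLp f p μ := MemLp.of_bound f1.aestronglyMeasurable 1 (Eventually.of_forall f2)
      obtain ⟨g, g1, g2, g3⟩ := H f f3
      have i1 : Integrable (fun ω => ‖g ω‖ * ‖f ω‖) μ := g1.norm.integrable_mul f3.norm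
      have i2 : Integrable (fun ω => g ω (f ω)) μ :=
        i1.mono' (((ContinuousLinearMap.id 𝕜 (StrongDual 𝕜 X)).aestronglyMeasurable_comp₂
          g1.1 f3.1)) (Eventually.of_forall fun ω => (g ω).le_opNorm _)
      have i3 : ∫ ω, ‖g ω‖ * ‖f ω‖ ∂μ ≤ (eLpNorm f p μ).toReal := by
        have e1 := eLpNorm_smul_le_mul_eLpNorm (p := q) (q := p) (r := 1) f3.1.norm g1.1.norm
        rw [eLpNorm_norm, eLpNorm_norm, eLpNorm_one_eq_lintegral_enorm] at e1
        have e2 := (ofReal_integral_norm_eq_lintegral_enorm i1).trans_le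
          (e1.trans (mul_le_of_le_one_left' g2))
        refine le_trans (integral_mono i1 i1.norm fun ω => le_abs_self _) ?_
        exact (ENNReal.ofReal_le_iff_le_toReal f3.2.ne).mp e2
      have i4 : ∫ ω, RCLike.re (g ω (f ω)) ∂μ = (eLpNorm f p μ).toReal := by
        rw [integral_re i2, g3, RCLike.ofReal_re]
      have i5 : ∀ᵐ ω ∂μ, RCLike.re (g ω (f ω)) ≤ ‖g ω‖ * ‖f ω‖ :=
        Eventually.of_forall fun ω => hre _ _
      refine ⟨g, g1.1, (integral_eq_iff_of_ae_le i2.re i1 i5).mp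
        (le_antisymm (integral_mono_ae i2.re i1 i5) (i3.trans_eq i4.symm)), fun h => ?_⟩
      have i6 : ∫ ω, RCLike.re (g ω (f ω)) ∂μ = 0 := by
        apply integral_eq_zero_of_ae
        filter_upwards [h] with ω hω
        rcases hω with h | h <;> simp [h]
      rw [i6, eq_comm, ENNReal.toReal_eq_zero_iff, or_iff_left f3.2.ne,
        eLpNorm_eq_zero_iff f3.1 (ENNReal.HolderConjugate.ne_zero p q)] at i4
      exact i4)

end Pool.Agent.H88.Rn
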