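import Pool.Agent.H88.RvDefs

open Complex Set Filter Topology

namespace Pool.Agent.H88.Rv

noncomputable def T (lam : ℂ) (g : ℂ → ℂ) : ℂ → ℂ := iteratedDeriv 2 g - lam • g

lemma ell_two (f : ℂ → ℂ) : ell 2 0 f = iteratedDeriv 2 f := by
  funext z
  simp [ell]

lemma iter_add (m n : ℕ) (f : ℂ → ℂ) :
    iteratedDeriv m (iteratedDeriv n f) = iteratedDeriv (m + n) f := by
  rw [iteratedDeriv_eq_iterate, iteratedDeriv_eq_iterate, iteratedDeriv_eq_iterate,
    Function.iterate_add_apply]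

lemma ell_iter (q : ℕ) (f : ℂ → ℂ) : (ell 2 0)^[q] f = iteratedDeriv (2 * q) f := by
  induction q with
  | zero => simp
  | succ q ih =>
    rw [Function.iterate_succ_apply', ih, ell_two, iter_add]
    congr 1
    ring

lemma ext1 {Ω : Set ℂ} (ho : IsOpen Ω) (hc : IsPreconnected Ω) {f G : ℂ → ℂ} (μ : ℂ)
    (hf : DifferentiableOn ℂ f Ω) (hG : Differentiable ℂ G)
    (h : ∀ z ∈ Ω, deriv f z - μ * f z = G z) : ∃ F, Differentiable ℂ F ∧ EqOn f F Ω := by
  obtain ⟨H, hH⟩ := Differentiable.isExactOn_univ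
    (f := fun z => exp (-μ * z) * G z) (by fun_prop)
  have hd : ∀ z ∈ Ω, HasDerivAt (fun z => exp (-μ * z) * f z - H z) 0 z := fun z hz => by
    have h1 := (hf.differentiableAt (ho.mem_nhds hz)).hasDerivAt
    have h2 : HasDerivAt (fun z => exp (-μ * z)) (exp (-μ * z) * (-μ)) z := by
      simpa using ((hasDerivAt_id z).const_mul (-μ)).cexp
    refine ((h2.mul h1).sub (hH z trivial)).congr_deriv ?_
    simp only
    rw [← h z hz]
    ring
  obtain ⟨c, hc'⟩ := ho.exists_is_const_of_deriv_eq_zero hc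
    (fun z hz => (hd z hz).differentiableAt.differentiableWithinAt) (fun z hz => (hd z hz).deriv)
  have hHd : Differentiable ℂ H := fun z => (hH z trivial).differentiableAt
  refine ⟨fun z => exp (μ * z) * (H z + c), by fun_prop, fun z hz => ?_⟩
  have := hc' z hz
  have e : exp (μ * z) * exp (-μ * z) = 1 := by rw [← Complex.exp_add]; simp
  simp only
  rw [← this]
  linear_combination (-f z) * e

lemma T_diff {Ω : Set ℂ} (ho : IsOpen Ω) (lam : ℂ) {f : ℂ → ℂ} (hf : DifferentiableOn ℂ f Ω) :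
    DifferentiableOn ℂ (T lam f) Ω := by
  have : iteratedDeriv 2 f = deriv (deriv f) := by
    simp [iteratedDeriv_succ]
  unfold T
  rw [this]
  exact ((hf.deriv ho).deriv ho).sub (hf.const_smul lam)

lemma ext2 {Ω : Set ℂ} (ho : IsOpen Ω) (hc : IsPreconnected Ω) (lam : ℂ) (m : ℕ) :
    ∀ f : ℂ → ℂ, DifferentiableOn ℂ f Ω → (∀ z ∈ Ω, (T lam)^[m] f z = 0) →
      ∃ F, Differentiable ℂ F ∧ EqOn f F Ω := by
  induction m with
  | zero => exact fun f _ h => ⟨0, by fun_prop, fun z hz => h z hz⟩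
  | succ m ih =>
    intro f hf h
    obtain ⟨G, hG, e⟩ := ih (T lam f) (T_diff ho lam hf) h
    obtain ⟨μ, hμ⟩ : ∃ μ : ℂ, μ ^ 2 = lam := IsAlgClosed.exists_pow_nat_eq lam (by norm_num)
    obtain ⟨G1, hG1, e1⟩ := ext1 ho hc μ (f := fun z => deriv f z + μ * f z)
      ((hf.deriv ho).add (hf.const_mul μ)) hG (fun z hz => by
        have h1 := (hf.differentiableAt (ho.mem_nhds hz)).hasDerivAt
        have h2 := ((hf.deriv ho).differentiableAt (ho.mem_nhds hz)).hasDerivAt
        have h3 : HasDerivAt (fun z => deriv f z + μ * f z) _ z := h2.add (h1.const_mul μ)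
        rw [h3.deriv, ← e hz]
        simp only [T, iteratedDeriv_succ, iteratedDeriv_zero, Pi.sub_apply, Pi.smul_apply,
          smul_eq_mul, ← hμ]
        ring)
    exact ext1 ho hc (-μ) hf hG1 (fun z hz => by rw [← e1 hz]; ring)

lemma even_zero {Ω : Set ℂ} (ho : IsOpen Ω) (lam : ℂ) {w : ℂ} (hw : w ∈ Ω) (m : ℕ) :
    ∀ f : ℂ → ℂ, DifferentiableOn ℂ f Ω → (∀ q < m, iteratedDeriv (2 * q) f w = 0) →
      (∀ z ∈ Ω, (T lam)^[m] f z = 0) → ∀ q, iteratedDeriv (2 * q) f w = 0 := by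
  induction m with
  | zero =>
    intro f _ _ h q
    have : f =ᶠ[𝓝 w] fun _ => 0 := by
      filter_upwards [ho.mem_nhds hw] with z hz using h z hz
    rw [this.iteratedDeriv_eq]
    simp
  | succ m ih =>
    intro f hf h0 h
    have ha : AnalyticAt ℂ f w := hf.analyticAt (ho.mem_nhds hw)
    have key : ∀ q, iteratedDeriv (2 * q) (T lam f) w =
        iteratedDeriv (2 * (q + 1)) f w - lam * iteratedDeriv (2 * q) f w := fun q => by
      have h2 : AnalyticAt ℂ (iteratedDeriv 2 f) w := by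
        rw [iteratedDeriv_eq_iterate]
        exact ha.iterated_deriv 2
      unfold T
      rw [iteratedDeriv_sub (g := lam • f) h2.contDiffAt (ha.contDiffAt.const_smul lam), iter_add,
        iteratedDeriv_const_smul_field]
      rfl
    have := ih (T lam f) (T_diff ho lam hf) (fun q hq => by
      rw [key, h0 _ (by omega), h0 _ (by omega)]; simp) h
    intro q
    induction q with
    | zero => exact h0 0 (by omega)
    | succ q iq =>
      have e := this q
      rw [key, iq] at e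
      simpa using e

lemma odd_of {F : ℂ → ℂ} (hF : Differentiable ℂ F) (w : ℂ)
    (h : ∀ q, iteratedDeriv (2 * q) F w = 0) (z : ℂ) : F (w - z) = -F (w + z) := by
  have h1 := (hasSum_taylorSeries_of_entire hF w (w + z)).add
    (hasSum_taylorSeries_of_entire hF w (w - z))
  have : (fun n : ℕ => (n.factorial : ℂ)⁻¹ • (w + z - w) ^ n • iteratedDeriv n F w +
      (n.factorial : ℂ)⁻¹ • (w - z - w) ^ n • iteratedDeriv n F w) = fun _ => 0 := by
    funext n
    rcases Nat.even_or_odd' n with ⟨q, rfl | rfl⟩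
    · simp [h q]
    · have e1 : w + z - w = z := by ring
      have e2 : w - z - w = -z := by ring
      rw [e1, e2, Odd.neg_pow ⟨q, rfl⟩]
      simp
  rw [this] at h1
  have := h1.unique hasSum_zero
  linear_combination this

noncomputable def ph : Fin 2 → (ℂ → ℂ) →ₗ[ℂ] ℂ :=
  ![LinearMap.proj 0, LinearMap.proj (Real.pi : ℂ)]

lemma root_per {Ω : Set ℂ} (ho : IsOpen Ω) (hc : IsPreconnected Ω) (h0 : (0 : ℂ) ∈ Ω)
    (hp : (Real.pi : ℂ) ∈ Ω) {g : ℂ → ℂ} (hg : IsRoot Ω 2 0 ph g) {z : ℂ} (hz : z ∈ Ω)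
    (hz' : z - 2 * Real.pi ∈ Ω) : g z = g (z - 2 * Real.pi) := by
  obtain ⟨hd, lam, m, -, h1, h2⟩ := hg
  have hT : (fun g => ell 2 0 g - lam • g) = T lam := by
    funext g
    rw [ell_two]
    rfl
  rw [hT] at h2
  obtain ⟨F, hF, e⟩ := ext2 ho hc lam m g hd h2
  have a0 := even_zero ho lam h0 m g hd (fun q hq => by
    simpa [ph, ell_iter] using h1 q hq 0) h2
  have a1 := even_zero ho lam hp m g hd (fun q hq => by
    simpa [ph, ell_iter] using h1 q hq 1) h2
  have b0 := odd_of hF 0 (fun q => by rw [← e.iteratedDeriv_of_isOpen ho _ h0, a0])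
  have b1 := odd_of hF Real.pi (fun q => by rw [← e.iteratedDeriv_of_isOpen ho _ hp, a1])
  rw [e hz, e hz']
  have c0 := b0 (2 * Real.pi - z)
  have c1 := b1 (Real.pi - z)
  rw [show (0 : ℂ) - (2 * Real.pi - z) = z - 2 * Real.pi by ring,
    show (0 : ℂ) + (2 * Real.pi - z) = Real.pi + (Real.pi - z) by ring] at c0
  rw [show (Real.pi : ℂ) - (Real.pi - z) = z by ring] at c1
  rw [c0, c1]

end Pool.Agent.H88.Rv
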