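import Pool.Agent.H88.Rv1

open Complex Set Filter Topology

namespace Pool.Agent.H88.Rv

def Om : Set ℂ := {z | -1 / 2 < z.im} ∩ ({z | z.re - z.im < Real.pi + 1 / 2} ∩ {z | -1 / 2 < z.re + z.im})

lemma Om_open : IsOpen Om :=
  (isOpen_lt continuous_const continuous_im).inter
    ((isOpen_lt (continuous_re.sub continuous_im) continuous_const).inter
      (isOpen_lt continuous_const (continuous_re.add continuous_im)))

lemma Om_convex : Convex ℝ Om :=
  (convex_halfSpace_im_gt _).inter
    ((convex_halfSpace_lt (reLm - imLm).isLinear _).inter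
      (convex_halfSpace_gt (reLm + imLm).isLinear _))

noncomputable def w0 : ℂ := -I * exp (-1)

lemma w0_ne : w0 ≠ 0 := mul_ne_zero (neg_ne_zero.2 I_ne_zero) (exp_ne_zero _)

lemma slit1 {z : ℂ} (hz : z ∈ Om) : 1 - exp (I * z) / w0 ∈ slitPlane := by
  obtain ⟨h1, h2, h3⟩ := hz
  simp only [mem_ofPred_eq] at h1 h2 h3
  have e : exp (I * z) / w0 = I * exp (I * z + 1) := by
    rw [div_eq_iff w0_ne, w0, Complex.exp_add]
    have : exp (1 : ℂ) * exp (-1) = 1 := by rw [← Complex.exp_add]; simp
    linear_combination (exp (I * z) * I ^ 2) * this + exp (I * z) * I_sq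
  have hre : (1 - exp (I * z) / w0).re = 1 + Real.exp (1 - z.im) * Real.sin z.re := by
    rw [e]
    simp [exp_im]
    ring_nf
    simp
  have him : (1 - exp (I * z) / w0).im = -(Real.exp (1 - z.im) * Real.cos z.re) := by
    rw [e]
    simp [exp_re]
    ring_nf
    simp
  rw [mem_slitPlane_iff, hre, him]
  have hp := Real.exp_pos (1 - z.im)
  by_cases hy : 1 < z.im
  · left
    have : Real.exp (1 - z.im) < 1 := Real.exp_lt_one_iff.2 (by linarith)
    nlinarith [Real.neg_one_le_sin z.re]
  · by_cases hcos : Real.cos z.re = 0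
    · left
      have hpi := Real.pi_gt_three
      have : Real.sin (z.re - Real.pi / 2) = 0 := by rw [Real.sin_sub_pi_div_two, hcos]; simp
      rw [Real.sin_eq_zero_iff_of_lt_of_lt (by linarith) (by linarith)] at this
      rw [show z.re = Real.pi / 2 by linarith, Real.sin_pi_div_two]
      linarith
    · right
      exact neg_ne_zero.2 (mul_ne_zero hp.ne' hcos)

lemma slit2 {z : ℂ} (hz : z ∈ Om) : 1 - exp (I * z) * w0 ∈ slitPlane := by
  obtain ⟨h1, -, -⟩ := hz
  simp only [mem_ofPred_eq] at h1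
  have : ‖exp (I * z) * w0‖ < 1 := by
    rw [w0, norm_mul, norm_mul, norm_exp, norm_exp]
    simp only [norm_neg, norm_I, one_mul, ← Real.exp_add]
    apply Real.exp_lt_one_iff.2
    simp
    linarith
  left
  have := (abs_le.1 (abs_re_le_norm (exp (I * z) * w0))).2
  simp only [sub_re, one_re]
  linarith

noncomputable def L (z : ℂ) : ℂ :=
  -I * z + log (1 - exp (I * z) / w0) + log (1 - exp (I * z) * w0)

noncomputable def L' (w : ℂ) : ℂ := -I + -(w * I / w0) / (1 - w / w0) + -(w * I * w0) / (1 - w * w0)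

lemma L_deriv {z : ℂ} (hz : z ∈ Om) : HasDerivAt L (L' (exp (I * z))) z := by
  have h : HasDerivAt (fun z => exp (I * z)) (exp (I * z) * I) z := by
    simpa using ((hasDerivAt_id z).const_mul I).cexp
  have h1 := ((h.div_const w0).const_sub 1).clog (slit1 hz)
  have h2 := ((h.mul_const w0).const_sub 1).clog (slit2 hz)
  have h0 : HasDerivAt (fun z => -I * z) (-I) z := by
    simpa using (hasDerivAt_id z).const_mul (-I)
  exact (h0.add h1).add h2

lemma L'_odd {w v : ℂ} (h : w * v = 1) (h1 : 1 - w / w0 ≠ 0) (h2 : 1 - w * w0 ≠ 0) :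
    L' w + L' v = 0 := by
  have hw : w ≠ 0 := left_ne_zero_of_mul_eq_one h
  have hv : v = w⁻¹ := eq_inv_of_mul_eq_one_right h
  have := w0_ne
  have a1 : w0 - w ≠ 0 := fun e => h1 (by rw [← sub_eq_zero.1 e]; field_simp; ring)
  have a2 : w - w0 ≠ 0 := fun e => a1 (by linear_combination -e)
  have a3 : w * w0 - 1 ≠ 0 := fun e => h2 (by linear_combination -e)
  have e1 : 1 - w / w0 = (w0 - w) / w0 := by field_simp
  have e2 : 1 - w⁻¹ / w0 = (w * w0 - 1) / (w * w0) := by field_simp
  have e3 : 1 - w⁻¹ * w0 = (w - w0) / w := by field_simp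
  subst hv
  rw [L', L', e1, e2, e3]
  field_simp
  ring

noncomputable def ff (z : ℂ) : ℂ := sin z * L z

lemma ff_diff : DifferentiableOn ℂ ff Om := fun _ hz =>
  (differentiable_sin.differentiableAt.mul (L_deriv hz).differentiableAt).differentiableWithinAt

lemma ff_even {c : ℂ} (hc : c ∈ Om) (h1 : exp (I * (2 * c)) = 1) (h2 : ∀ z, sin (2 * c - z) = -sin z)
    (q : ℕ) : iteratedDeriv (2 * q) ff c = 0 := by
  obtain ⟨r, hr, hb⟩ := Metric.isOpen_iff.1 Om_open c hc
  have refl : ∀ z ∈ Metric.ball c r, 2 * c - z ∈ Om := fun z hz => hb (by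
    rw [mem_ball_iff_norm] at hz ⊢
    rw [show 2 * c - z - c = -(z - c) by ring, norm_neg]
    exact hz)
  have hd : ∀ z ∈ Metric.ball c r, HasDerivAt (fun z => L z - L (2 * c - z)) 0 z := fun z hz => by
    have := (L_deriv (hb hz)).sub
      ((L_deriv (refl z hz)).comp z ((hasDerivAt_id z).const_sub (2 * c)))
    refine this.congr_deriv ?_
    have e := L'_odd (w := exp (I * z)) (v := exp (I * (2 * c - z)))
      (by rw [← Complex.exp_add, ← h1]; congr 1; ring)
      (slitPlane_ne_zero (slit1 (hb hz))) (slitPlane_ne_zero (slit2 (hb hz)))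
    linear_combination e
  have ev : ff =ᶠ[𝓝 c] fun z => -ff (2 * c - z) := by
    filter_upwards [Metric.ball_mem_nhds c hr] with z hz
    have := Metric.isOpen_ball.is_const_of_deriv_eq_zero (convex_ball c r).isPreconnected
      (fun z hz => (hd z hz).differentiableAt.differentiableWithinAt)
      (fun z hz => (hd z hz).deriv) hz (Metric.mem_ball_self hr)
    simp only [show 2 * c - c = c by ring, sub_self] at this
    simp only [ff, h2]
    linear_combination (sin z) * this
  have := ev.iteratedDeriv_eq (2 * q)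
  rw [iteratedDeriv_fun_neg, iteratedDeriv_comp_const_sub] at this
  simp only [show 2 * c - c = c by ring, pow_mul, neg_one_sq, one_pow, one_smul] at this
  linear_combination this / 2

lemma zero_mem : (0 : ℂ) ∈ Om := by
  have := Real.pi_pos
  refine ⟨?_, ?_, ?_⟩ <;> simp <;> linarith

lemma pi_mem : (Real.pi : ℂ) ∈ Om := by
  have := Real.pi_pos
  refine ⟨?_, ?_, ?_⟩ <;> simp <;> linarith

lemma ff_dinf : InDinf Om 2 0 ph ff := by
  refine ⟨ff_diff, fun q k => ?_⟩
  rw [ell_iter]
  fin_cases k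
  · simpa [ph] using ff_even zero_mem (by simp) (by simp) q
  · simpa [ph] using ff_even pi_mem (by rw [← exp_two_pi_mul_I]; congr 1; ring)
      (fun z => sin_two_pi_sub z) q

noncomputable def z0 : ℂ := Real.pi + 4 * I

lemma z0_mem : z0 ∈ Om := by
  have := Real.pi_pos
  refine ⟨?_, ?_, ?_⟩ <;> simp [z0] <;> linarith

lemma z1_mem : z0 - 2 * Real.pi ∈ Om := by
  have := Real.pi_pos
  have := Real.pi_lt_four
  refine ⟨?_, ?_, ?_⟩ <;> simp [z0] <;> linarith

lemma ff_jump : ff z0 - ff (z0 - 2 * Real.pi) ≠ 0 := by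
  have e : exp (I * (z0 - 2 * Real.pi)) = exp (I * z0) := by
    rw [show I * (z0 - 2 * Real.pi) = I * z0 - 2 * Real.pi * I by ring, exp_sub, exp_two_pi_mul_I,
      div_one]
  have s : sin z0 ≠ 0 := by
    rw [Ne, Complex.sin_eq_zero_iff]
    rintro ⟨k, hk⟩
    have := congrArg Complex.im hk
    simp [z0] at this
  have : ff z0 - ff (z0 - 2 * Real.pi) = sin z0 * (-(2 * Real.pi * I)) := by
    simp only [ff, L, e, sin_sub_two_pi]
    ring
  rw [this]
  exact mul_ne_zero s (neg_ne_zero.2 two_pi_I_ne_zero)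

lemma ff_not_cl : ¬ InCl Om 2 0 ph ff := by
  rintro ⟨-, h⟩
  obtain ⟨g, hg, e⟩ := h {z0, z0 - 2 * Real.pi}
    (by rintro z (rfl | rfl); exacts [z0_mem, z1_mem]) (Set.toFinite _).isCompact
    (‖ff z0 - ff (z0 - 2 * Real.pi)‖ / 2) (half_pos (norm_pos_iff.2 ff_jump))
  have hp : g z0 = g (z0 - 2 * Real.pi) := by
    clear e
    induction hg using Submodule.span_induction with
    | mem g hg => exact root_per Om_open Om_convex.isPreconnected zero_mem pi_mem hg z0_mem z1_mem
    | zero => rfl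
    | add a b _ _ ha hb => simp [ha, hb]
    | smul c a _ ha => simp [ha]
  have e1 := e z0 (by simp)
  have e2 := e (z0 - 2 * Real.pi) (by simp)
  have := norm_sub_le (ff z0 - g z0) (ff (z0 - 2 * Real.pi) - g (z0 - 2 * Real.pi))
  rw [show ff z0 - g z0 - (ff (z0 - 2 * Real.pi) - g (z0 - 2 * Real.pi)) =
    ff z0 - ff (z0 - 2 * Real.pi) by rw [hp]; ring] at this
  linarith

end Pool.Agent.H88.Rv
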