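import Mathlib

namespace Pool.Agent.H88.Rv

noncomputable def ell (n : ℕ) (a : ℕ → ℂ → ℂ) (f : ℂ → ℂ) : ℂ → ℂ :=
  fun z => iteratedDeriv n f z + ∑ j ∈ Finset.range (n - 1), a j z * iteratedDeriv j f z

def IsFunctional (Ω : Set ℂ) (φ : (ℂ → ℂ) →ₗ[ℂ] ℂ) : Prop :=
  ∃ K ⊆ Ω, IsCompact K ∧ ∃ C : ℝ, ∀ f, DifferentiableOn ℂ f Ω →
    ∀ M : ℝ, 0 ≤ M → (∀ z ∈ K, ‖f z‖ ≤ M) → ‖φ f‖ ≤ C * M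

def DeltaNeZero (Ω : Set ℂ) (n : ℕ) (a : ℕ → ℂ → ℂ) (φ : Fin n → (ℂ → ℂ) →ₗ[ℂ] ℂ) : Prop :=
  ∃ (lam : ℂ) (y : Fin n → ℂ → ℂ),
    (∀ k, DifferentiableOn ℂ (y k) Ω ∧ (∀ z ∈ Ω, ell n a (y k) z = lam * y k z) ∧
      ∀ p : Fin n, iteratedDeriv p (y k) 0 = if k = p then 1 else 0) ∧
    (Matrix.of fun k j => φ j (y k)).det ≠ 0

def IsRoot (Ω : Set ℂ) (n : ℕ) (a : ℕ → ℂ → ℂ) (φ : Fin n → (ℂ → ℂ) →ₗ[ℂ] ℂ) (f : ℂ → ℂ) : Prop :=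
  DifferentiableOn ℂ f Ω ∧ ∃ (lam : ℂ) (m : ℕ), 1 ≤ m ∧
    (∀ q < m, ∀ k, φ k ((ell n a)^[q] f) = 0) ∧
    ∀ z ∈ Ω, (fun g => ell n a g - lam • g)^[m] f z = 0

def InCl (Ω : Set ℂ) (n : ℕ) (a : ℕ → ℂ → ℂ) (φ : Fin n → (ℂ → ℂ) →ₗ[ℂ] ℂ) (f : ℂ → ℂ) : Prop :=
  DifferentiableOn ℂ f Ω ∧ ∀ K ⊆ Ω, IsCompact K → ∀ ε > 0,
    ∃ g ∈ Submodule.span ℂ {g | IsRoot Ω n a φ g}, ∀ z ∈ K, ‖f z - g z‖ < ε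

def InDinf (Ω : Set ℂ) (n : ℕ) (a : ℕ → ℂ → ℂ) (φ : Fin n → (ℂ → ℂ) →ₗ[ℂ] ℂ) (f : ℂ → ℂ) : Prop :=
  DifferentiableOn ℂ f Ω ∧ ∀ q k, φ k ((ell n a)^[q] f) = 0

end Pool.Agent.H88.Rv
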