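import Pool.Agent.H88.RzDefs

open Filter Topology MeasureTheory Set

namespace Pool.Agent.H88.Rz

noncomputable abbrev hm : Measure T := AddCircle.haarAddCircle

lemma ig {E : Type} [NormedAddCommGroup E] {f : T → E} (hf : Continuous f) (μ : Measure T)
    [IsFiniteMeasure μ] : Integrable f μ :=
  hf.integrable_of_hasCompactSupport (HasCompactSupport.of_compactSpace f)

noncomputable def TP (n : ℕ) : Submodule ℂ (T → ℂ) :=
  Submodule.span ℂ {f | ∃ j : ℤ, j.natAbs ≤ n ∧ f = fourier j}

lemma TP_f {n : ℕ} {j : ℤ} (h : j.natAbs ≤ n) : (fourier j : T → ℂ) ∈ TP n :=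
  Submodule.subset_span ⟨j, h, rfl⟩

lemma TP_cont {n : ℕ} {f : T → ℂ} (h : f ∈ TP n) : Continuous f := by
  induction h using Submodule.span_induction with
  | mem f h => obtain ⟨j, -, rfl⟩ := h; exact (fourier j).continuous
  | zero => exact continuous_const
  | add f g _ _ a b => exact a.add b
  | smul c f _ a => exact a.const_smul c

lemma TP_mono {n k : ℕ} (h : n ≤ k) : TP n ≤ TP k :=
  Submodule.span_mono fun _ ⟨j, a, b⟩ => ⟨j, a.trans h, b⟩

lemma TP_mul {a b : ℕ} {f g : T → ℂ} (hf : f ∈ TP a) (hg : g ∈ TP b) : f * g ∈ TP (a + b) := by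
  have := Submodule.mul_mem_mul hf hg
  rw [TP, TP, Submodule.span_mul_span] at this
  refine Submodule.span_mono ?_ this
  rintro _ ⟨_, ⟨i, hi, rfl⟩, _, ⟨j, hj, rfl⟩, rfl⟩
  exact ⟨i + j, by omega, funext fun x => fourier_add.symm⟩

lemma f_dil (j : ℤ) (L : ℕ) (x : T) : fourier j (L • x) = fourier (j * L) x := by
  rw [fourier_apply, fourier_apply, mul_smul, natCast_zsmul]

lemma TP_dil {n : ℕ} {f : T → ℂ} (h : f ∈ TP n) (L : ℕ) : (fun x => f (L • x)) ∈ TP (n * L) := by
  induction h using Submodule.span_induction with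
  | mem f h =>
    obtain ⟨j, h, rfl⟩ := h
    rw [funext (f_dil j L)]
    exact TP_f (by rw [Int.natAbs_mul]; exact Nat.mul_le_mul_right _ h)
  | zero => exact zero_mem _
  | add f g _ _ a b => exact add_mem a b
  | smul c f _ a => exact Submodule.smul_mem _ c a

lemma int_f (j : ℤ) : ∫ x : T, fourier j x ∂hm = if j = 0 then 1 else 0 := by
  split_ifs with h
  · simp [h]
  · exact integral_eq_zero_of_add_right_eq_neg (fourier_add_half_inv_index h Real.two_pi_pos)

lemma TP_key {a n L : ℕ} {f g : T → ℂ} (hf : f ∈ TP a) (hg : g ∈ TP n) (h : a < L) :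
    ∫ x, f x * g (L • x) ∂hm = (∫ x, f x ∂hm) * ∫ x, g x ∂hm := by
  have cg : ∀ {g}, g ∈ TP n → Continuous fun x : T => g (L • x) := fun h => TP_cont (TP_dil h L)
  induction hf using Submodule.span_induction with
  | mem f hf =>
    obtain ⟨i, hi, rfl⟩ := hf
    induction hg using Submodule.span_induction with
    | mem g hg =>
      obtain ⟨j, -, rfl⟩ := hg
      simp only [f_dil, ← fourier_add, int_f]
      by_cases hj : j = 0
      · simp [hj]
      · have : (L : ℤ) ≤ |j * L| := by
          rw [abs_mul, Nat.abs_cast]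
          exact le_mul_of_one_le_left (by positivity) (Int.one_le_abs hj)
        rw [if_neg hj, mul_zero, if_neg]
        intro e
        rw [show j * L = -i by linarith, abs_neg, ← Int.natCast_natAbs] at this
        omega
    | zero => simp
    | add g k x y a b =>
      simp only [Pi.add_apply, mul_add]
      rw [integral_add (ig (by exact (fourier i).continuous.mul (cg x)) _)
        (ig (by exact (fourier i).continuous.mul (cg y)) _), a, b,
        integral_add (ig (TP_cont x) _) (ig (TP_cont y) _), mul_add]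
    | smul c g _ a =>
      simp only [Pi.smul_apply, smul_eq_mul, mul_left_comm _ c, integral_const_mul, a]
  | zero => simp
  | add f k x y a b =>
    simp only [Pi.add_apply, add_mul]
    rw [integral_add (ig (by exact (TP_cont x).mul (cg hg)) _)
      (ig (by exact (TP_cont y).mul (cg hg)) _), a, b,
      integral_add (ig (TP_cont x) _) (ig (TP_cont y) _), add_mul]
  | smul c f _ a => simp only [Pi.smul_apply, smul_eq_mul, mul_assoc, integral_const_mul, a]

def R (n : ℕ) (r : T → ℝ) : Prop := (fun x => (r x : ℂ)) ∈ TP n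

lemma R.cont {n : ℕ} {r : T → ℝ} (h : R n r) : Continuous r :=
  Complex.continuous_re.comp (TP_cont h)

lemma R.mono {n k : ℕ} {r : T → ℝ} (h : R n r) (e : n ≤ k) : R k r := TP_mono e h

lemma R.mul {a b : ℕ} {f g : T → ℝ} (hf : R a f) (hg : R b g) : R (a + b) fun x => f x * g x := by
  simp only [R, Complex.ofReal_mul]
  exact TP_mul hf hg

lemma R.add {a : ℕ} {f g : T → ℝ} (hf : R a f) (hg : R a g) : R a fun x => f x + g x := by
  simp only [R, Complex.ofReal_add]
  exact add_mem hf hg

lemma R.sub {a : ℕ} {f g : T → ℝ} (hf : R a f) (hg : R a g) : R a fun x => f x - g x := by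
  simp only [R, Complex.ofReal_sub]
  exact sub_mem hf hg

lemma R.const (n : ℕ) (c : ℝ) : R n fun _ => c := by
  have := Submodule.smul_mem _ (c : ℂ) (TP_f (n := n) (j := 0) (by simp))
  refine (congrArg (· ∈ TP n) (funext fun x => ?_)).mp this
  simp

lemma R.cmul {a : ℕ} {f : T → ℝ} (hf : R a f) (c : ℝ) : R a fun x => c * f x := by
  simpa using (R.const 0 c).mul hf

lemma R.dil {n : ℕ} {r : T → ℝ} (h : R n r) (L : ℕ) : R (n * L) fun x => r (L • x) := TP_dil h L

lemma R.key {a n L : ℕ} {f g : T → ℝ} (hf : R a f) (hg : R n g) (h : a < L) :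
    ∫ x, f x * g (L • x) ∂hm = (∫ x, f x ∂hm) * ∫ x, g x ∂hm := by
  have := TP_key hf hg h
  simp only [← Complex.ofReal_mul, integral_complex_ofReal] at this
  exact_mod_cast this

lemma R.re (c : ℂ) : R 1 fun x => (c * fourier 1 x).re := by
  have := add_mem (Submodule.smul_mem _ (c / 2) (TP_f (n := 1) (j := 1) (by simp)))
    (Submodule.smul_mem _ (starRingEnd ℂ c / 2) (TP_f (n := 1) (j := -1) (by simp)))
  refine (congrArg (· ∈ TP 1) (funext fun x => ?_)).mp this
  simp only [Pi.add_apply, Pi.smul_apply, smul_eq_mul, fourier_neg, Complex.re_eq_add_conj, map_mul]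
  ring

lemma int_re (c : ℂ) : ∫ x : T, (c * fourier 1 x).re ∂hm = 0 := by
  have := integral_re (f := fun x : T => c * fourier 1 x) (ig (by fun_prop) hm)
  rw [integral_const_mul, int_f] at this
  simpa using this

lemma f_norm (j : ℤ) (x : T) : ‖fourier j x‖ = 1 := by rw [fourier_apply, Circle.norm_coe]

lemma exist (l : ℕ → ℕ) (a : ℕ → ℂ) (φ : ℕ → ℝ) (h0 : 0 < l 0) (h3 : ∀ n, 3 * l n ≤ l (n + 1))
    (ha : ∀ n, ‖a n‖ ≤ 1) : ∃ μ, IsRiesz l a φ μ ∧ IsProbabilityMeasure μ := by
  obtain ⟨F, hF⟩ : ∃ F : ℕ → T → ℝ, F = fun n x =>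
    1 + (a n * Complex.exp (φ n * Complex.I) * fourier 1 x).re := ⟨_, rfl⟩
  have F1 : ∀ n, R 1 (F n) := fun n => hF ▸ (R.const 1 1).add (R.re _)
  have F2 : ∀ n, ∫ x, (F n x : ℂ) ∂hm = 1 := fun n => by
    rw [integral_complex_ofReal, hF, integral_add (by simp) (ig (R.re _).cont _), int_re]
    simp
  have st : ∀ N x, part l a φ (N + 1) x = part l a φ N x * F N (l N • x) := fun N x => by
    simp only [part, Finset.prod_range_succ, hF, f_dil, one_mul, mul_assoc, mul_comm (fourier _ x)]
  have p0 : ∀ N x, 0 ≤ part l a φ N x := fun N x => Finset.prod_nonneg fun n _ => by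
    have := (abs_le.1 (Complex.abs_re_le_norm (a n * (fourier (l n) x *
      Complex.exp (φ n * Complex.I))))).1
    rw [norm_mul, norm_mul, f_norm, Complex.norm_exp_ofReal_mul_I] at this
    linarith [ha n]
  have p1 : ∀ N, N < l N ∧ ∃ s, 2 * s < l N ∧ R s (part l a φ N) := by
    intro N
    induction N with
    | zero => exact ⟨h0, 0, h0, R.const 0 1⟩
    | succ N ih =>
      obtain ⟨a1, s, a2, a3⟩ := ih
      have := h3 N
      exact ⟨by omega, s + 1 * l N, by omega, funext (st N) ▸ a3.mul ((F1 N).dil _)⟩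
  have pc : ∀ N, Continuous (part l a φ N) := fun N => (p1 N).2.elim fun _ h => h.2.cont
  have cst : ∀ {A : ℕ} {f : T → ℂ}, f ∈ TP A → ∀ N, 2 * A ≤ N →
      ∫ x, f x * part l a φ N x ∂hm = ∫ x, f x * part l a φ (2 * A) x ∂hm := by
    intro A f hf N hN
    induction N, hN using Nat.le_induction with
    | base => rfl
    | succ N hN ih =>
      obtain ⟨a1, s, a2, a3⟩ := p1 N
      have := TP_key (TP_mul hf a3) (F1 N) (show A + s < l N by omega)
      simp only [F2, mul_one, Pi.mul_apply] at this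
      simp only [st, Complex.ofReal_mul, ← mul_assoc, this, ih]
  have p2 : ∀ N, ∫ x, part l a φ N x ∂hm = 1 := fun N => by
    have := cst (R.const 0 1) N (by omega)
    simp only [Complex.ofReal_one, one_mul, integral_complex_ofReal] at this
    simpa [part] using this
  obtain ⟨ν, hν⟩ : ∃ ν : ℕ → ProbabilityMeasure T, ∀ N,
      (ν N : Measure T) = hm.withDensity fun x => ENNReal.ofReal (part l a φ N x) :=
    ⟨fun N => ⟨hm.withDensity fun x => ENNReal.ofReal (part l a φ N x), ⟨by
      rw [withDensity_apply _ MeasurableSet.univ, Measure.restrict_univ,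
        ← ofReal_integral_eq_lintegral_ofReal (ig (pc N) _) (ae_of_all _ (p0 N)), p2]
      simp⟩⟩, fun _ => rfl⟩
  obtain ⟨μ, hμ⟩ := exists_clusterPt_of_compactSpace (map ν atTop)
  refine ⟨μ, ⟨inferInstance, fun f => ?_⟩, inferInstance⟩
  have e : ∀ N, ∫ x, f x ∂(ν N : Measure T) = ∫ x, f x * part l a φ N x ∂hm := fun N => by
    rw [hν, integral_withDensity_eq_integral_toReal_smul (pc N).measurable.ennreal_ofReal
      (by simp)]
    simp [ENNReal.toReal_ofReal (p0 N _), mul_comm]
  have cs : CauchySeq fun N => ∫ x, f x * part l a φ N x ∂hm := by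
    refine Metric.cauchySeq_iff'.2 fun ε hε => ?_
    obtain ⟨f', hf'⟩ : ∃ f' : C(T, ℂ), ∀ x, f' x = f x := ⟨⟨fun x => f x, by fun_prop⟩, fun _ => rfl⟩
    have : f' ∈ closure (Submodule.span ℂ (range (@fourier (2 * Real.pi))) : Set C(T, ℂ)) := by
      rw [← Submodule.topologicalClosure_coe, span_fourier_closure_eq_top]
      trivial
    obtain ⟨g, g1, g2⟩ := Metric.mem_closure_iff.1 this (ε / 3) (by positivity)
    obtain ⟨A, hA⟩ : ∃ A, ⇑g ∈ TP A := by
      clear g2
      induction g1 using Submodule.span_induction with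
      | mem g h => obtain ⟨j, rfl⟩ := h; exact ⟨_, TP_f le_rfl⟩
      | zero => exact ⟨0, zero_mem _⟩
      | add g k _ _ x y =>
        obtain ⟨A, x⟩ := x
        obtain ⟨B, y⟩ := y
        exact ⟨A + B, add_mem (TP_mono (by omega) x) (TP_mono (by omega) y)⟩
      | smul c g _ x => exact x.imp fun _ x => Submodule.smul_mem _ c x
    have b : ∀ N, ‖((∫ x, f x * part l a φ N x ∂hm : ℝ) : ℂ) - ∫ x, g x * part l a φ N x ∂hm‖ ≤
        ε / 3 := fun N => by
      have := pc N
      rw [← integral_complex_ofReal, ← integral_sub (ig (by fun_prop) _) (ig (by fun_prop) _),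
        ← mul_one (ε / 3), ← p2 N, ← integral_const_mul]
      refine norm_integral_le_of_norm_le (ig (by fun_prop) _) (ae_of_all _ fun x => ?_)
      rw [Complex.ofReal_mul, ← sub_mul, norm_mul, Complex.norm_real, Real.norm_of_nonneg (p0 N x),
        ← hf', ← dist_eq_norm]
      exact mul_le_mul_of_nonneg_right ((ContinuousMap.dist_apply_le_dist x).trans g2.le) (p0 N x)
    refine ⟨2 * A, fun N hN => ?_⟩
    have b1 := b N
    have b2 := b (2 * A)
    rw [cst hA N hN, ← dist_eq_norm] at b1
    rw [← dist_eq_norm] at b2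
    rw [← Complex.isometry_ofReal.dist_eq]
    linarith [dist_triangle_right ((∫ x, f x * part l a φ N x ∂hm : ℝ) : ℂ)
      ((∫ x, f x * part l a φ (2 * A) x ∂hm : ℝ) : ℂ) (∫ x, g x * part l a φ (2 * A) x ∂hm)]
  obtain ⟨L, hL⟩ := cauchySeq_tendsto_of_complete cs
  have c := (ProbabilityMeasure.continuous_integral_boundedContinuousFunction
    (BoundedContinuousFunction.mkOfCompact f)).continuousAt (x := μ)
  have h2 : ClusterPt (∫ x, f x ∂(μ : Measure T)) (𝓝 L) := by
    have h1 := MapClusterPt.continuousAt_comp c (show MapClusterPt μ atTop ν from hμ)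
    refine ClusterPt.mono h1 ?_
    refine le_trans (le_of_eq ?_) hL
    congr 1
    exact funext e
  rwa [eq_of_nhds_neBot h2]

end Pool.Agent.H88.Rz
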