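import Pool.Agent.H88.Rz1

open Filter Topology MeasureTheory Set Complex

namespace Pool.Agent.H88.Rz

lemma f_pow (j : ℕ) (x : T) : fourier 1 x ^ j = fourier j x := by
  induction j with
  | zero => simp
  | succ j ih => rw [pow_succ, ih, ← fourier_add]; simp

lemma TP_conj {n : ℕ} {f : T → ℂ} (h : f ∈ TP n) : (fun x => starRingEnd ℂ (f x)) ∈ TP n := by
  induction h using Submodule.span_induction with
  | mem f h =>
    obtain ⟨j, h, rfl⟩ := h
    rw [← funext fun x : T => fourier_neg (n := j) (x := x)]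
    exact TP_f (by simpa using h)
  | zero =>
    simp only [Pi.zero_apply, map_zero]
    exact zero_mem _
  | add f g _ _ a b =>
    simp only [Pi.add_apply, map_add]
    exact add_mem a b
  | smul c f _ a =>
    simp only [Pi.smul_apply, smul_eq_mul, map_mul]
    exact Submodule.smul_mem _ _ a

noncomputable def c (x : T) : ℝ := (fourier 1 x).re

lemma cR : R 1 c := by
  have := R.re 1
  simp only [one_mul] at this
  exact this

lemma c_int : ∫ x, c x ∂hm = 0 := by
  have := int_re 1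
  simp only [one_mul] at this
  exact this

lemma c_sq (x : T) : c x ^ 2 + (fourier 1 x).im ^ 2 = 1 := by
  have := f_norm 1 x
  rw [← sq_eq_sq₀ (norm_nonneg _) zero_le_one, Complex.sq_norm, normSq_apply] at this
  rw [c]
  linarith

lemma c_bd (x : T) : -1 ≤ c x ∧ c x ≤ 1 := abs_le.1 ((abs_re_le_norm _).trans (f_norm 1 x).le)

lemma c3 (x : T) : 1 + c (3 • x) = (1 + c x) * (2 * c x - 1) ^ 2 := by
  have := c_sq x
  rw [c, f_dil, one_mul, ← f_pow]
  simp only [c] at this ⊢
  generalize fourier 1 x = z at this ⊢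
  simp [pow_succ]
  linear_combination (-3 * z.re) * this

lemma c3' (x : T) : 0 ≤ 1 + c (3 • x) ∧ 1 + c (3 • x) ≤ 9 * (1 + c x) := by
  have := c_bd x
  refine ⟨by linarith [c_bd (3 • x)], ?_⟩
  rw [c3, mul_comm]
  exact mul_le_mul_of_nonneg_right (by nlinarith) (by linarith)

noncomputable def G (s σ : ℝ) (x : T) : ℝ := (1 + s * c x) * (1 + σ * c (3 • x))

lemma G1 (s : ℝ) : R 1 fun x => 1 + s * c x := (R.const 1 1).add (cR.cmul s)

lemma GR (s σ : ℝ) : R 4 (G s σ) := by
  have := (G1 s).mul ((G1 σ).dil 3)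
  exact this.mono le_rfl

lemma G1_int (s : ℝ) : ∫ x, 1 + s * c x ∂hm = 1 := by
  rw [integral_add (by simp) (ig (cR.cmul s).cont _), integral_const_mul, c_int]
  simp

lemma G_int (s σ : ℝ) : ∫ x, G s σ x ∂hm = 1 := by
  have := (G1 s).key (G1 σ) (show 1 < 3 by norm_num)
  rwa [G1_int, G1_int, mul_one] at this

noncomputable def D (m : ℕ) (x : T) : ℂ := ∑ j ∈ Finset.range m, (-fourier 1 x) ^ j

lemma D_eq (m : ℕ) (x : T) : D m x = ∑ j ∈ Finset.range m, (-1) ^ j * fourier j x :=
  Finset.sum_congr rfl fun j _ => by rw [neg_pow, f_pow]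

lemma DT (m : ℕ) : D m ∈ TP m := by
  have : D m = ∑ j ∈ Finset.range m, (-1 : ℂ) ^ j • (fourier j : T → ℂ) := by
    funext x
    simp only [D_eq, Finset.sum_apply, Pi.smul_apply, smul_eq_mul]
  rw [this]
  exact sum_mem fun j hj => Submodule.smul_mem _ _ (TP_f (by simpa using (Finset.mem_range.1 hj).le))

lemma DR (m : ℕ) : R (m + m) fun x => normSq (D m x) := by
  simp only [R, ← mul_conj]
  exact TP_mul (DT m) (TP_conj (DT m))

lemma D_int (m : ℕ) : ∫ x, normSq (D m x) ∂hm = m := by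
  induction m with
  | zero => simp [D]
  | succ m ih =>
    have c1 := TP_cont (DT m)
    have c2 := (DR m).cont
    have e : ∀ x, normSq (D (m + 1) x) = normSq (D m x) + 1 - 2 * (fourier 1 x * D m x).re :=
      fun x => by
        rw [D, geom_sum_succ, ← D, normSq_add, map_mul, normSq_neg, normSq_eq_norm_sq (fourier 1 x),
          f_norm]
        simp
        ring
    have z : ∫ x, fourier 1 x * D m x ∂hm = 0 := by
      simp only [D_eq, Finset.mul_sum, mul_left_comm (fourier 1 _), ← fourier_add]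
      rw [integral_finsetSum _ fun j _ => ig (by fun_prop) _]
      refine Finset.sum_eq_zero fun j _ => ?_
      rw [integral_const_mul, int_f, if_neg (by omega), mul_zero]
    have z' := integral_re (f := fun x : T => fourier 1 x * D m x) (ig (by fun_prop) hm)
    rw [z] at z'
    simp only [e]
    rw [integral_sub (ig (by fun_prop) _) (ig (by fun_prop) _), integral_add (ig c2 _) (by simp),
      ih, integral_const_mul]
    simp only [RCLike.re_to_complex, zero_re] at z'
    rw [z']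
    simp

noncomputable def u (m : ℕ) (x : T) : ℝ := (m : ℝ)⁻¹ * normSq (D m x)

lemma uR (m : ℕ) : R (m + m) (u m) := (DR m).cmul _

lemma u_int {m : ℕ} (h : 0 < m) : ∫ x, u m x ∂hm = 1 := by
  simp only [u]
  rw [integral_const_mul, D_int, inv_mul_cancel₀ (by positivity)]

lemma u0 (m : ℕ) (x : T) : 0 ≤ u m x := mul_nonneg (by positivity) (normSq_nonneg _)

lemma u_le {m : ℕ} (h : 0 < m) (x : T) : u m x ≤ m := by
  have : ‖D m x‖ ≤ m := (norm_sum_le _ _).trans (by simp)
  rw [u, normSq_eq_norm_sq, inv_mul_le_iff₀ (by positivity), ← sq]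
  exact pow_le_pow_left₀ (norm_nonneg _) this 2

lemma u_c {m : ℕ} (h : 0 < m) (x : T) : u m x * (1 + c x) ≤ 2 / m := by
  have e : D m x * (1 + fourier 1 x) = 1 - (-fourier 1 x) ^ m := by
    rw [← mul_neg_geom_sum, D]
    ring
  have a : normSq (1 + fourier 1 x) = 2 * (1 + c x) := by
    have := c_sq x
    rw [normSq_apply]
    simp only [add_re, one_re, add_im, one_im, c] at this ⊢
    linarith
  have b : ‖1 - (-fourier 1 x) ^ m‖ ≤ 2 := (norm_sub_le _ _).trans (by simp; norm_num)
  have := pow_le_pow_left₀ (norm_nonneg _) b 2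
  rw [← normSq_eq_norm_sq, ← e, map_mul, a] at this
  rw [u, mul_assoc, inv_mul_le_iff₀ (by positivity), mul_div_cancel₀ _ (by positivity)]
  linarith

lemma mean {m : ℕ} (h : 40 ≤ m) {δ e : ℝ} (s : ℝ) (hδ : 0 ≤ δ) (e0 : 0 ≤ e) (e1 : e ≤ 1) :
    δ / 2 ≤ ∫ x, u m x * G (s - δ) (-e) x ∂hm - ∫ x, u m x * G s (-e) x ∂hm := by
  have h0 : 0 < m := by omega
  have c1 := (uR m).cont
  have c2 := (GR (s - δ) (-e)).cont
  have c3 := (GR s (-e)).cont
  have h1 : (40 : ℝ) ≤ m := by exact_mod_cast h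
  have : ∫ x, δ * u m x - δ / 2 ∂hm = δ / 2 := by
    rw [integral_sub (ig (by fun_prop) _) (by simp), integral_const_mul, u_int h0]
    simp
    ring
  rw [← integral_sub (ig (by fun_prop) _) (ig (by fun_prop) _), ← this]
  refine integral_mono (ig (by fun_prop) _) (ig (by fun_prop) _) fun x => ?_
  have a := c_bd x
  have b := c3' x
  have b' := c_bd (3 • x)
  have k : 1 - 10 * (1 + c x) ≤ -c x * (1 + -e * c (3 • x)) := by
    rcases le_total (c x) 0 with h | h
    · have : 1 - 9 * (1 + c x) ≤ 1 + -e * c (3 • x) := by nlinarith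
      nlinarith
    · have : 1 + -e * c (3 • x) ≤ 2 := by nlinarith
      nlinarith
  have k2 : u m x * (1 + c x) ≤ 1 / 20 := (u_c h0 x).trans (by
    rw [div_le_iff₀ (by positivity)]
    linarith)
  have k3 := mul_le_mul_of_nonneg_left k (u0 m x)
  have k4 : u m x - 1 / 2 ≤ u m x * (-c x * (1 + -e * c (3 • x))) := by linarith
  simp only [G]
  nlinarith [mul_le_mul_of_nonneg_left k4 hδ]

lemma var {m : ℕ} (h0 : 0 < m) {s σ : ℝ} (s1 : s ≤ 1) (s2 : (1 - s) * m ≤ 2 / m)
    (σ1 : |σ| ≤ 1) : ∫ x, (u m x - ∫ y, u m y * G s σ y ∂hm) * (u m x - ∫ y, u m y * G s σ y ∂hm) *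
      G s σ x ∂hm ≤ 8 / m := by
  have c1 := (uR m).cont
  have c2 := (GR s σ).cont
  obtain ⟨M, hM⟩ : ∃ M, M = ∫ y, u m y * G s σ y ∂hm := ⟨_, rfl⟩
  have e : ∀ x, (u m x - M) * (u m x - M) * G s σ x =
      u m x * u m x * G s σ x - 2 * M * (u m x * G s σ x) + M ^ 2 * G s σ x := fun x => by ring
  simp only [← hM, e]
  rw [integral_add (ig (by fun_prop) _) (ig (by fun_prop) _), integral_sub (ig (by fun_prop) _)
    (ig (by fun_prop) _), integral_const_mul, integral_const_mul, G_int, ← hM]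
  have : ∫ x, u m x * u m x * G s σ x ∂hm ≤ ∫ x, 8 / m * u m x ∂hm := by
    refine integral_mono (ig (by fun_prop) _) (ig (by fun_prop) _) fun x => ?_
    have a := c_bd x
    have b := c_bd (3 • x)
    have k : 1 + σ * c (3 • x) ≤ 2 := by
      have := abs_le.1 σ1
      nlinarith
    have k1 := mul_le_mul_of_nonneg_left (u_le h0 x) (sub_nonneg.2 s1)
    have k2 := mul_le_mul s1 (u_c h0 x) (mul_nonneg (u0 m x) (by linarith)) zero_le_one
    have k3 : u m x * (1 + s * c x) ≤ 4 / m := by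
      rw [show (4 : ℝ) / m = 2 / m + 2 / m by ring]
      linarith
    have k4 := mul_le_mul k3 k (by nlinarith [abs_le.1 σ1]) (by positivity)
    have := mul_le_mul_of_nonneg_left k4 (u0 m x)
    simp only [G]
    rw [show (8 : ℝ) / m = 4 / m * 2 by ring]
    linarith
  rw [integral_const_mul, u_int h0] at this
  nlinarith

lemma chi {s δ : ℝ} (s0 : 0 ≤ s) (s1 : s < 1) (x : T) : 0 < G s s x ∧
    G (s - δ) s x ^ 2 ≤ G s s x * (2 * G (s - δ) s x - G s s x + 9 * δ ^ 2) := by
  have a := c_bd x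
  have b := c3' x
  have p : 0 < 1 + s * c x := by nlinarith
  have q : 0 < 1 + s * c (3 • x) := by nlinarith
  refine ⟨mul_pos p q, ?_⟩
  have k : c x ^ 2 * (1 + s * c (3 • x)) ≤ 9 * (1 + s * c x) := by
    have : c x ^ 2 ≤ 1 := by nlinarith
    nlinarith
  have := mul_le_mul_of_nonneg_left k (mul_nonneg (sq_nonneg δ) q.le)
  simp only [G]
  nlinarith

end Pool.Agent.H88.Rz
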