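import Pool.Agent.H88.Rz2

open Filter Topology MeasureTheory Set Complex Finset

namespace Pool.Agent.H88.Rz

def mm (k : ℕ) : ℕ := 40 * 4 ^ Nat.log 128 k

def Λ : ℕ → ℕ
  | 0 => 1
  | k + 1 => (4 * mm k + 9) * Λ k

def l (n : ℕ) : ℕ := if n % 2 = 0 then Λ (n / 2) else 3 * Λ (n / 2)

noncomputable def co (s e : ℕ → ℝ) (n : ℕ) : ℂ := if n % 2 = 0 then s (n / 2) else e (n / 2)

def ph (τ : ℝ) (n : ℕ) : ℝ := if n % 2 = 0 then 0 else τ

lemma l3 (n : ℕ) : 3 * l n ≤ l (n + 1) := by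
  obtain ⟨k, rfl | rfl⟩ := Nat.even_or_odd' n
  · rw [l, l, if_pos (by omega), if_neg (by omega), show (2 * k + 1) / 2 = 2 * k / 2 by omega]
  · rw [l, l, if_neg (by omega), if_pos (by omega), show (2 * k + 1 + 1) / 2 = k + 1 by omega,
      show (2 * k + 1) / 2 = k by omega, Λ]
    nlinarith

def H (μ : Measure T) (g : ℕ → T → ℝ) : Prop := ∀ f : T → ℝ, Continuous f →
  Tendsto (fun J => ∫ x, f x * ∏ j ∈ range J, g j (Λ j • x) ∂hm) atTop (𝓝 (∫ x, f x ∂μ))

lemma toH {s e : ℕ → ℝ} {τ ε : ℝ} (h : exp (τ * I) = ε) {μ : Measure T}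
    (hμ : IsRiesz l (co s e) (ph τ) μ) : H μ fun j => G (s j) (ε * e j) := by
  intro f hf
  refine ((hμ.2 ⟨f, hf⟩).comp (tendsto_id.const_mul_atTop' two_pos)).congr fun J => ?_
  refine integral_congr_ae (ae_of_all _ fun x => congrArg (f x * ·) ?_)
  induction J with
  | zero => rfl
  | succ J ih =>
    rw [prod_range_succ, ← ih]
    change part _ _ _ (2 * J + 1 + 1) x = part _ _ _ (2 * J) x * _
    rw [part, prod_range_succ, prod_range_succ, ← part, mul_assoc]
    congr 1
    simp only [G, c, f_dil, l, co, ph]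
    rw [if_pos (show 2 * J % 2 = 0 by omega), if_pos (show 2 * J % 2 = 0 by omega),
      if_pos (show 2 * J % 2 = 0 by omega), if_neg (show ¬ (2 * J + 1) % 2 = 0 by omega),
      if_neg (show ¬ (2 * J + 1) % 2 = 0 by omega), if_neg (show ¬ (2 * J + 1) % 2 = 0 by omega),
      show (2 * J + 1) / 2 = J by omega, show 2 * J / 2 = J by omega, h]
    simp only [ofReal_zero, zero_mul, exp_zero, mul_one, one_mul, re_ofReal_mul, re_mul_ofReal,
      Nat.cast_mul]
    ring

lemma prodf {f : ℕ → T → ℝ} (hf : ∀ j, R (4 * mm j + 4) (f j)) (J : ℕ) :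
    ∃ A < Λ J, R A (fun x => ∏ j ∈ range J, f j (Λ j • x)) ∧
      ∫ x, ∏ j ∈ range J, f j (Λ j • x) ∂hm = ∏ j ∈ range J, ∫ x, f j x ∂hm := by
  induction J with
  | zero => exact ⟨0, one_pos, R.const 0 1, by simp⟩
  | succ J ih =>
    obtain ⟨A, a, b, d⟩ := ih
    simp only [prod_range_succ]
    refine ⟨A + (4 * mm J + 4) * Λ J, ?_, b.mul ((hf J).dil _), by rw [b.key (hf J) a, d]⟩
    rw [Λ]
    nlinarith

noncomputable def X (s σ : ℕ → ℝ) (k : ℕ) (x : T) : ℝ :=
  u (mm k) x - ∫ y, u (mm k) y * G (s k) (σ k) y ∂hm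

lemma XR (s σ : ℕ → ℝ) (k : ℕ) : R (mm k + mm k) (X s σ k) := (uR _).sub (R.const _ _)

lemma cov {s σ : ℕ → ℝ} {μ : Measure T} (h : H μ fun j => G (s j) (σ j)) (k i : ℕ) :
    ∫ x, X s σ k (Λ k • x) * X s σ i (Λ i • x) ∂μ =
      if k = i then ∫ x, X s σ k x * X s σ k x * G (s k) (σ k) x ∂hm else 0 := by
  have r : ∀ j n, R (mm j + mm j) fun x => if j = n then X s σ j x else 1 := fun j n => by
    split_ifs
    exacts [XR s σ j, R.const _ 1]
  refine tendsto_nhds_unique (h _ (((XR s σ k).dil _).mul ((XR s σ i).dil _)).cont)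
    (tendsto_const_nhds.congr' ?_)
  filter_upwards [eventually_gt_atTop k, eventually_gt_atTop i] with J a b
  obtain ⟨-, -, -, e⟩ := prodf (fun j => (((r j k).mul (r j i)).mul (GR (s j) (σ j))).mono
    (by omega)) J
  simp only [prod_mul_distrib, prod_ite_eq', Finset.mem_range, a, b, if_true] at e
  rw [e]
  split_ifs with hk
  · subst hk
    rw [prod_eq_single k (fun j _ hj => by simp [hj, G_int]) (by simp [a])]
    simp
  · refine (prod_eq_zero (Finset.mem_range.2 a) ?_).symm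
    have c1 := (uR (mm k)).cont
    have c2 := (GR (s k) (σ k)).cont
    simp only [if_true, if_neg hk, mul_one, X, sub_mul]
    rw [integral_sub (ig (by fun_prop) _) (ig (by fun_prop) _), integral_const_mul, G_int]
    simp

noncomputable def dl (k : ℕ) : ℝ := 1 / (mm k : ℝ) ^ 2

lemma mm_ge (k : ℕ) : 40 ≤ mm k := Nat.le_mul_of_pos_right _ (by positivity)

lemma dl_bd (k : ℕ) : 0 < dl k ∧ dl k ≤ 1 / 4 := by
  have : (40 : ℝ) ≤ mm k := by exact_mod_cast mm_ge k
  exact ⟨by unfold dl; positivity, one_div_le_one_div_of_le (by norm_num) (by nlinarith)⟩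

def B (i : ℕ) : Finset ℕ := Finset.Ico (128 ^ i) (128 ^ (i + 1))

lemma mm_B {i k : ℕ} (h : k ∈ B i) : (mm k : ℝ) = 40 * 4 ^ i := by
  rw [mm, Nat.log_eq_of_pow_le_of_lt_pow (Finset.mem_Ico.1 h).1 (Finset.mem_Ico.1 h).2]
  simp

lemma card_B (i : ℕ) : ((B i).card : ℝ) = 127 * 128 ^ i := by
  rw [B, Nat.card_Ico, show 128 ^ (i + 1) - 128 ^ i = 127 * 128 ^ i by omega]
  simp

noncomputable def S (s σ : ℕ → ℝ) (i : ℕ) (x : T) : ℝ :=
  (∑ k ∈ B i, X s σ k (Λ k • x)) / (127 * 8 ^ i / 3200)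

lemma ae0 {s σ : ℕ → ℝ} {μ : Measure T} [IsFiniteMeasure μ] (h : H μ fun j => G (s j) (σ j))
    (s1 : ∀ k, s k ≤ 1) (s2 : ∀ k, 1 - s k ≤ 2 * dl k) (σ1 : ∀ k, |σ k| ≤ 1) :
    ∀ᵐ x ∂μ, Tendsto (fun i => S s σ i x ^ 2) atTop (𝓝 0) := by
  have cX : ∀ k, Continuous fun x : T => X s σ k (Λ k • x) := fun k => ((XR s σ k).dil _).cont
  have cS : ∀ i, Continuous fun x => S s σ i x ^ 2 := fun i => by
    unfold S
    fun_prop
  have b : ∀ i, ∫ x, S s σ i x ^ 2 ∂μ ≤ 20000 * (1 / 2) ^ i := fun i => by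
    simp only [S, div_pow, integral_div, sq (∑ k ∈ _, _), sum_mul_sum]
    rw [integral_finsetSum _ fun k _ => ig (by fun_prop) _, div_le_iff₀ (by positivity)]
    refine (sum_le_card_nsmul _ _ (8 / (40 * 4 ^ i)) fun k hk => ?_).trans ?_
    · rw [integral_finsetSum _ fun j _ => ig (by fun_prop) _]
      simp only [cov h, sum_ite_eq, hk, if_true, ← mm_B hk]
      have p : (0 : ℝ) < mm k := by rw [mm_B hk]; positivity
      refine var (by exact_mod_cast p) (s1 k) ((mul_le_mul_of_nonneg_right (s2 k) p.le).trans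
        (le_of_eq ?_)) (σ1 k)
      rw [dl]
      field_simp
    · rw [nsmul_eq_mul, card_B, show (128 : ℝ) = 2 ^ 7 by norm_num, show (4 : ℝ) = 2 ^ 2 by norm_num,
        show (8 : ℝ) ^ i = (2 ^ 3) ^ i by norm_num, one_pow, pow_right_comm _ 7, pow_right_comm _ 2,
        pow_right_comm _ 3]
      have : (0 : ℝ) < 2 ^ i := by positivity
      generalize (2 : ℝ) ^ i = t at this
      field_simp
      norm_num
  have f : ∫⁻ x, ∑' i, ENNReal.ofReal (S s σ i x ^ 2) ∂μ ≠ ⊤ := by
    rw [lintegral_tsum fun i => (cS i).measurable.ennreal_ofReal.aemeasurable]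
    refine ne_top_of_le_ne_top (Summable.tsum_ofReal_ne_top
      (summable_geometric_two.mul_left 20000)) (ENNReal.tsum_le_tsum fun i => ?_)
    rw [← ofReal_integral_eq_lintegral_ofReal (ig (cS i) _) (ae_of_all _ fun _ => sq_nonneg _)]
    exact ENNReal.ofReal_le_ofReal (b i)
  filter_upwards [ae_lt_top (Measurable.tsum fun i => (cS i).measurable.ennreal_ofReal) f]
    with x hx
  have := (ENNReal.tendsto_toReal ENNReal.zero_ne_top).comp
    (ENNReal.tendsto_atTop_zero_of_tsum_ne_top hx.ne)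
  simpa [Function.comp_def, ENNReal.toReal_ofReal (sq_nonneg _)] using this

lemma sing {μ ν : Measure T} [IsProbabilityMeasure μ] [IsFiniteMeasure ν]
    (h : H μ fun j => G (1 - dl j - dl j) (-(1 - dl j)))
    (h' : H ν fun j => G (1 - dl j) (-(1 - dl j))) : ¬ μ ≪ ν := by
  intro ac
  have σ1 : ∀ k, |-(1 - dl k)| ≤ 1 := fun k => abs_le.2 (by constructor <;> linarith [dl_bd k])
  obtain ⟨x, a, b⟩ := ((ae0 h (fun k => by linarith [dl_bd k]) (fun k => by linarith) σ1).and
    (ac.ae_le (ae0 h' (fun k => by linarith [dl_bd k]) (fun k => by linarith [dl_bd k]) σ1))).exists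
  have := ge_of_tendsto' (a.add b) (b := 1 / 2) fun i => by
    have : 1 ≤ S (fun j => 1 - dl j) (fun j => -(1 - dl j)) i x -
        S (fun j => 1 - dl j - dl j) (fun j => -(1 - dl j)) i x := by
      rw [S, S, ← sub_div, one_le_div (by positivity), ← sum_sub_distrib]
      refine le_trans (le_of_eq ?_) (card_nsmul_le_sum _ _ (1 / (40 * 4 ^ i) ^ 2 / 2) fun k hk => ?_)
      · rw [nsmul_eq_mul, card_B, show (128 : ℝ) = 8 * 4 ^ 2 by norm_num, mul_pow, ← pow_mul,
          mul_comm 2 i, pow_mul]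
        field_simp
        norm_num
      · have := mean (mm_ge k) (1 - dl k) (dl_bd k).1.le (e := 1 - dl k) (by linarith [dl_bd k])
          (by linarith [dl_bd k])
        rw [← mm_B hk, ← dl, X, X]
        linarith
    nlinarith [sq_nonneg (S (fun j => 1 - dl j) (fun j => -(1 - dl j)) i x +
        S (fun j => 1 - dl j - dl j) (fun j => -(1 - dl j)) i x)]
  linarith

lemma dl_sum : Summable fun k => 9 * dl k ^ 2 := by
  refine Summable.mul_left _ (Summable.of_nonneg_of_le (fun _ => sq_nonneg _) (fun k => ?_)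
    ((summable_nat_add_iff 1).2 (Real.summable_one_div_nat_rpow.2 (show 1 < 8 / 7 by norm_num))))
  rw [dl, one_div_pow, ← pow_mul]
  refine one_div_le_one_div_of_le (by positivity) ?_
  have : ((k + 1 : ℕ) : ℝ) ≤ 128 ^ (Nat.log 128 k + 1) := by
    exact_mod_cast Nat.lt_pow_succ_log_self (by norm_num) k
  refine (Real.rpow_le_rpow (by positivity) this (by norm_num)).trans ?_
  rw [← Real.rpow_pow_comm (by norm_num), show (128 : ℝ) = 2 ^ (7 : ℝ) by norm_num,
    ← Real.rpow_mul (by norm_num), mm]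
  push_cast
  rw [mul_pow, pow_right_comm, pow_succ']
  norm_num

lemma ac {μ ν : Measure T} [IsFiniteMeasure μ] [IsFiniteMeasure ν]
    (h : H μ fun j => G (1 - dl j - dl j) (1 - dl j))
    (h' : H ν fun j => G (1 - dl j) (1 - dl j)) : μ ≪ ν := by
  have ch := fun j => chi (s := 1 - dl j) (δ := dl j) (by linarith [dl_bd j]) (by linarith [dl_bd j])
  obtain ⟨C, hC⟩ : ∃ C, C = Real.exp (∑' k, 9 * dl k ^ 2) := ⟨_, rfl⟩
  have key : ∀ (f : T → ℝ) (t : ℝ), Continuous f →
      2 * t * ∫ x, f x ∂μ ≤ t ^ 2 * ∫ x, f x ^ 2 ∂ν + C := by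
    intro f t hf
    refine le_of_tendsto_of_tendsto' ((h f hf).const_mul (2 * t))
      (((h' _ (hf.pow 2)).const_mul (t ^ 2)).add_const C) fun J => ?_
    obtain ⟨_, -, r1, -⟩ := prodf (fun j => (GR (1 - dl j - dl j) (1 - dl j)).mono (by omega)) J
    obtain ⟨_, -, r2, -⟩ := prodf (fun j => (GR (1 - dl j) (1 - dl j)).mono (by omega)) J
    obtain ⟨_, -, r3, e⟩ := prodf (fun j => ((((GR (1 - dl j - dl j) (1 - dl j)).cmul 2).sub
      (GR (1 - dl j) (1 - dl j))).add (R.const 4 (9 * dl j ^ 2))).mono (by omega)) J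
    have c1 := r1.cont
    have c2 := r2.cont
    have b : ∫ x : T, ∏ j ∈ range J, (2 * G (1 - dl j - dl j) (1 - dl j) (Λ j • x) -
        G (1 - dl j) (1 - dl j) (Λ j • x) + 9 * dl j ^ 2) ∂hm ≤ C := by
      rw [e, hC]
      refine le_trans ?_ (Real.exp_le_exp.2 (dl_sum.sum_le_tsum (range J) fun _ _ => by positivity))
      rw [Real.exp_sum]
      have v : ∀ j, ∫ x : T, 2 * G (1 - dl j - dl j) (1 - dl j) x - G (1 - dl j) (1 - dl j) x +
          9 * dl j ^ 2 ∂hm = 9 * dl j ^ 2 + 1 := fun j => by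
        have := (GR (1 - dl j - dl j) (1 - dl j)).cont
        have := (GR (1 - dl j) (1 - dl j)).cont
        rw [integral_add (ig (by fun_prop) _) (integrable_const _), integral_sub (ig (by fun_prop) _)
          (ig (by fun_prop) _), integral_const_mul, G_int, G_int]
        simp
        ring
      simp only [v]
      exact prod_le_prod (fun _ _ => by positivity) fun _ _ => Real.add_one_le_exp _
    refine le_trans ?_ (add_le_add_right b _)
    rw [← integral_const_mul, ← integral_const_mul, ← integral_add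
      (ig (by exact continuous_const.mul ((hf.pow 2).mul c2)) _) (ig r3.cont _)]
    refine integral_mono (ig (by exact continuous_const.mul (hf.mul c1)) _)
      (ig (by exact (continuous_const.mul ((hf.pow 2).mul c2)).add r3.cont) _) fun x => ?_
    have p := prod_pos (s := range J) fun j _ => (ch j (Λ j • x)).1
    have q := prod_le_prod (s := range J) (fun j _ => sq_nonneg _) fun j _ => (ch j (Λ j • x)).2
    rw [Finset.prod_pow, prod_mul_distrib] at q
    refine le_of_mul_le_mul_left ?_ p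
    simp only [Pi.pow_apply]
    nlinarith [sq_nonneg (t * f x * ∏ j ∈ range J, G (1 - dl j) (1 - dl j) (Λ j • x) -
      ∏ j ∈ range J, G (1 - dl j - dl j) (1 - dl j) (Λ j • x))]
  refine Measure.AbsolutelyContinuous.mk fun s hs h0 => ?_
  rw [hs.measure_eq_iSup_isClosed_of_ne_top (measure_ne_top _ _)]
  simp only [ENNReal.iSup_eq_zero]
  intro K hK hc
  rw [← measureReal_eq_zero_iff]
  refine le_antisymm (le_of_forall_pos_le_add fun ε hε => ?_) measureReal_nonneg
  have C0 : 0 < C := hC ▸ Real.exp_pos _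
  obtain ⟨U, u1, u2, u3⟩ := K.exists_isOpen_lt_of_lt (μ := ν) (ENNReal.ofReal (ε ^ 2 / C)) (by
    rw [measure_mono_null hK h0]
    exact ENNReal.ofReal_pos.2 (by positivity))
  obtain ⟨f, f0, f1, f2⟩ := exists_continuous_zero_one_of_isClosed u2.isClosed_compl hc
    (disjoint_compl_left_iff_subset.2 u1)
  have a1 : μ.real K ≤ ∫ x, f x ∂μ := by
    rw [← integral_indicator_one hc.measurableSet]
    refine integral_mono ((integrable_const 1).indicator hc.measurableSet) (ig f.continuous _)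
      fun x => ?_
    by_cases hx : x ∈ K
    · simp [hx, f1 hx]
    · simp [hx, (f2 x).1]
  have a2 : ∫ x, f x ^ 2 ∂ν ≤ ε ^ 2 / C := by
    refine le_trans ?_ (ENNReal.toReal_le_of_le_ofReal (by positivity) u3.le)
    rw [← measureReal_def, ← integral_indicator_one u2.measurableSet]
    refine integral_mono (ig (by fun_prop) _) ((integrable_const 1).indicator u2.measurableSet)
      fun x => ?_
    by_cases hx : x ∈ U
    · simpa [hx] using abs_le.2 ⟨by linarith [(f2 x).1], (f2 x).2⟩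
    · simp [hx, f0 hx]
  have a3 := key f (C / ε) f.continuous
  have a4 := mul_le_mul_of_nonneg_left a2 (sq_nonneg (C / ε))
  rw [show (C / ε) ^ 2 * (ε ^ 2 / C) = C by field_simp] at a4
  have a5 : 2 * (C / ε) * μ.real K ≤ 2 * (C / ε) * ε := by
    rw [mul_assoc _ _ ε, div_mul_cancel₀ _ hε.ne']
    nlinarith [mul_le_mul_of_nonneg_left a1 (show 0 ≤ 2 * (C / ε) by positivity)]
  linarith [le_of_mul_le_mul_left a5 (by positivity)]

end Pool.Agent.H88.Rz
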