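import Mathlib

open Filter Topology MeasureTheory

namespace Pool.Agent.H88.Rz

instance twoPi : Fact (0 < 2 * Real.pi) := ⟨Real.two_pi_pos⟩

abbrev T : Type := AddCircle (2 * Real.pi)

noncomputable def part (l : ℕ → ℕ) (a : ℕ → ℂ) (φ : ℕ → ℝ) (N : ℕ) (x : T) : ℝ :=
  ∏ n ∈ Finset.range N, (1 + (a n * (fourier (l n) x * Complex.exp (φ n * Complex.I))).re)

def IsRiesz (l : ℕ → ℕ) (a : ℕ → ℂ) (φ : ℕ → ℝ) (μ : Measure T) : Prop :=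
  IsFiniteMeasure μ ∧ ∀ f : C(T, ℝ),
    Tendsto (fun N => ∫ x, f x * part l a φ N x ∂AddCircle.haarAddCircle) atTop (𝓝 (∫ x, f x ∂μ))

end Pool.Agent.H88.Rz
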