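import Mathlib

set_option autoImplicit false

open Complex Filter Topology Set

namespace Pool.Agent.H88.Satur1

lemma norm_cos_sq (w : ℂ) : ‖cos w‖ ^ 2 = Real.cos w.re ^ 2 + Real.sinh w.im ^ 2 := by
  have h : cos w = ((Real.cos w.re * Real.cosh w.im : ℝ) : ℂ)
      + ((-(Real.sin w.re * Real.sinh w.im) : ℝ) : ℂ) * I := by
    rw [Complex.cos_eq]; push_cast; ring
  rw [h, ← Complex.normSq_eq_norm_sq, Complex.normSq_add_mul_I]
  have h1 := Real.sin_sq_add_cos_sq w.re
  have h2 := Real.cosh_sq w.im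
  nlinarith

lemma sinh_sq_abs (y : ℝ) : Real.sinh y ^ 2 = Real.sinh |y| ^ 2 := by
  rcases abs_cases y with h | h
  · rw [h.1]
  · rw [h.1, Real.sinh_neg]; ring

lemma norm_cos_le (w : ℂ) : ‖cos w‖ ≤ Real.exp |w.im| := by
  have h := norm_cos_sq w
  rw [sinh_sq_abs] at h
  have h1 : Real.cos w.re ^ 2 ≤ 1 := Real.cos_sq_le_one _
  have h2 := Real.cosh_sq |w.im|
  have h3 := Real.cosh_add_sinh |w.im|
  have h4 : 0 ≤ Real.sinh |w.im| := Real.sinh_nonneg_iff.2 (abs_nonneg _)
  have h5 := Real.cosh_pos |w.im|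
  apply abs_le_of_sq_le_sq' _ (Real.exp_pos _).le |>.2
  rw [h, ← h3]; nlinarith

lemma norm_cos_ge (w : ℂ) (hw : 1 / 4 ≤ Real.cos w.re ^ 2 ∨ 1 ≤ |w.im|) :
    Real.exp |w.im| ≤ 4 * ‖cos w‖ := by
  have h := norm_cos_sq w
  rw [sinh_sq_abs] at h
  obtain ⟨t, ht⟩ : ∃ t, t = |w.im| := ⟨_, rfl⟩
  rw [← ht] at h hw ⊢
  have ht0 : 0 ≤ t := ht ▸ abs_nonneg _
  have h2 := Real.cosh_sq t
  have h3 := Real.cosh_add_sinh t
  have h4 : 0 ≤ Real.sinh t := Real.sinh_nonneg_iff.2 ht0
  have h5 := Real.cosh_pos t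
  have h6 : Real.cosh t ≤ 1 + Real.sinh t := by
    apply abs_le_of_sq_le_sq' _ (by positivity) |>.2
    nlinarith
  apply abs_le_of_sq_le_sq' _ (by positivity) |>.2
  rw [mul_pow, h, ← h3]
  rcases hw with hw | hw
  · nlinarith [sq_nonneg (Real.sinh t - 1/6)]
  · have h7 : t ≤ Real.sinh t := Real.self_le_sinh_iff.2 ht0
    nlinarith [sq_nonneg (Real.cos w.re)]

/-- an entire function vanishing at the zeros of the cosine is divisible by it -/
lemma div_cos (A : ℂ → ℂ) (hA : Differentiable ℂ A) (h0 : ∀ w, cos w = 0 → A w = 0) :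
    ∃ h : ℂ → ℂ, Differentiable ℂ h ∧ ∀ w, A w = h w * cos w := by
  classical
  refine ⟨fun w => if cos w = 0 then deriv A w / deriv cos w else A w / cos w, ?_, ?_⟩
  · intro c
    by_cases hc : cos c = 0
    · have hA' : AnalyticAt ℂ (dslope A c) c := by
        have := (hA.analyticAt c)
        obtain ⟨p, hp⟩ := this
        exact ⟨_, hp.has_fpower_series_dslope_fslope⟩
      have hC' : AnalyticAt ℂ (dslope cos c) c := by
        have := (Complex.differentiable_cos.analyticAt c)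
        obtain ⟨p, hp⟩ := this
        exact ⟨_, hp.has_fpower_series_dslope_fslope⟩
      have hne : dslope cos c c ≠ 0 := by
        rw [dslope_same, Complex.deriv_cos]
        intro hs
        have := Complex.sin_sq_add_cos_sq c
        rw [neg_eq_zero.1 hs, hc] at this
        simp at this
      have hev : ∀ᶠ w in 𝓝 c, dslope cos c w ≠ 0 := hC'.continuousAt.eventually_ne hne
      refine ((hA'.div hC' hne).differentiableAt).congr_of_eventuallyEq ?_
      filter_upwards [hev] with w hw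
      by_cases hwc : w = c
      · subst hwc
        simp only [hc, if_true, Pi.div_apply, dslope_same]
      · have e1 : dslope cos c w = (w - c)⁻¹ * cos w := by
          rw [dslope_of_ne _ hwc, slope_def_field, hc]; field_simp; ring
        have e2 : dslope A c w = (w - c)⁻¹ * A w := by
          rw [dslope_of_ne _ hwc, slope_def_field, h0 c hc]; field_simp; ring
        have hcw : cos w ≠ 0 := by
          intro h; apply hw; rw [e1, h, mul_zero]
        have hwc' : w - c ≠ 0 := sub_ne_zero.2 hwc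
        simp only [hcw, if_false, Pi.div_apply, e1, e2]
        field_simp
    · have hev : ∀ᶠ w in 𝓝 c, cos w ≠ 0 := Complex.continuous_cos.continuousAt.eventually_ne hc
      refine (((hA c).div (Complex.differentiable_cos c) hc)).congr_of_eventuallyEq ?_
      filter_upwards [hev] with w hw
      simp [hw]
  · intro w
    by_cases hw : cos w = 0
    · simp [hw, h0 w hw]
    · simp only [hw, if_false]; field_simp

lemma tri (h : ℂ → ℂ) (hh : Differentiable ℂ h) (R C : ℝ)
    (h1 : ∀ w : ℂ, |w.im| = w.re → ‖h w‖ ≤ C)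
    (h2 : ∀ w : ℂ, w.re = R → |w.im| ≤ w.re → ‖h w‖ ≤ C)
    (w : ℂ) (hw : |w.im| < w.re) (hR : w.re < R) : ‖h w‖ ≤ C := by
  have hUo : IsOpen {w : ℂ | |w.im| < w.re ∧ w.re < R} :=
    (isOpen_lt (f := fun w : ℂ => |w.im|) (g := fun w : ℂ => w.re) (by fun_prop) (by fun_prop)).inter
      (isOpen_lt (f := fun w : ℂ => w.re) (g := fun _ : ℂ => R) (by fun_prop) (by fun_prop))
  have hTc : IsClosed {w : ℂ | |w.im| ≤ w.re ∧ w.re ≤ R} :=
    (isClosed_le (f := fun w : ℂ => |w.im|) (g := fun w : ℂ => w.re) (by fun_prop) (by fun_prop)).inter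
      (isClosed_le (f := fun w : ℂ => w.re) (g := fun _ : ℂ => R) (by fun_prop) (by fun_prop))
  refine Complex.norm_le_of_forall_mem_frontier_norm_le
    (U := {w : ℂ | |w.im| < w.re ∧ w.re < R}) ?_ hh.diffContOnCl ?_ (subset_closure ⟨hw, hR⟩)
  · refine (Metric.isBounded_closedBall (x := (0 : ℂ)) (r := 2 * R)).subset ?_
    rintro v ⟨hv1, hv2⟩
    rw [mem_closedBall_zero_iff]
    have := Complex.norm_le_abs_re_add_abs_im v
    have h3 : |v.re| = v.re := abs_of_nonneg ((abs_nonneg _).trans hv1.le)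
    linarith
  · intro v hv
    have hv1 : v ∈ {w : ℂ | |w.im| ≤ w.re ∧ w.re ≤ R} :=
      closure_minimal (fun u hu => And.intro hu.1.le hu.2.le) hTc hv.1
    have hv2 : v ∉ {w : ℂ | |w.im| < w.re ∧ w.re < R} := by
      rw [← hUo.interior_eq]; exact hv.2
    obtain ⟨ha, hb⟩ := hv1
    rcases ha.eq_or_lt with ha' | ha'
    · exact h1 v ha'
    · rcases hb.eq_or_lt with hb' | hb'
      · exact h2 v hb' ha
      · exact absurd ⟨ha', hb'⟩ hv2

/-- the key estimate -/
lemma key (A : ℂ → ℂ) (hA : Differentiable ℂ A) (h0 : ∀ w, cos w = 0 → A w = 0)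
    (hb : ∀ w, ‖A w‖ ≤ Real.exp (2 * max w.re |w.im|)) (w : ℂ) (hw : |w.im| < w.re) :
    ‖A w‖ ≤ 4 * Real.exp (w.re + |w.im|) := by
  obtain ⟨h, hh, hAh⟩ := div_cos A hA h0
  have hlow : ∀ v : ℂ, |v.im| ≤ v.re → (1 / 4 ≤ Real.cos v.re ^ 2 ∨ 1 ≤ |v.im|) →
      ‖h v‖ ≤ 4 * Real.exp (2 * v.re - |v.im|) := by
    intro v hv hc
    have e1 := norm_cos_ge v hc
    have e2 := hb v
    rw [hAh, norm_mul, max_eq_left hv] at e2
    rw [Real.exp_sub, ← mul_div_assoc, le_div_iff₀ (Real.exp_pos _)]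
    nlinarith [norm_nonneg (h v)]
  have hnorm : ∀ (ε : ℝ) (v : ℂ), ‖h v * exp (-v - ε * v ^ 2)‖
      = ‖h v‖ * Real.exp (-v.re - ε * (v.re ^ 2 - v.im ^ 2)) := by
    intro ε v
    rw [norm_mul, Complex.norm_exp]
    congr 2
    simp [pow_two]
  have hε : ∀ ε : ℝ, 0 < ε → ‖h w‖ * Real.exp (-w.re - ε * (w.re ^ 2 - w.im ^ 2)) ≤ 4 := by
    intro ε hε
    obtain ⟨n, hn⟩ := exists_nat_gt (max w.re (1 / ε))
    have hn0 : (0 : ℝ) ≤ n := Nat.cast_nonneg n
    have hpi := Real.pi_gt_three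
    have hnpi : (n : ℝ) ≤ n * Real.pi := by nlinarith
    rw [← hnorm]
    refine tri (fun v => h v * exp (-v - ε * v ^ 2)) (by fun_prop) (n * Real.pi) 4 ?_ ?_ w hw
      (((le_max_left _ _).trans_lt hn).trans_le hnpi)
    · intro v hv
      rw [hnorm]
      have hv0 : 0 ≤ v.re := hv ▸ abs_nonneg _
      have hc : 1 / 4 ≤ Real.cos v.re ^ 2 ∨ 1 ≤ |v.im| := by
        by_cases h1 : 1 ≤ |v.im|
        · exact Or.inr h1
        · left
          have h2 : v.re ≤ 1 := by linarith [not_le.1 h1]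
          have h3 := Real.one_sub_sq_div_two_le_cos (x := v.re)
          have h4 : 1 / 2 ≤ Real.cos v.re := by nlinarith
          nlinarith
      have e1 := hlow v hv.le hc
      have e2 : v.re ^ 2 - v.im ^ 2 = 0 := by rw [← hv, sq_abs]; ring
      rw [e2, hv] at *
      calc ‖h v‖ * Real.exp (-v.re - ε * 0) ≤ 4 * Real.exp (2 * v.re - v.re) * Real.exp (-v.re - ε * 0) := by
            gcongr
        _ = 4 := by rw [mul_assoc, ← Real.exp_add]; simp; ring
    · intro v hv hv2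
      rw [hnorm]
      have hc : 1 / 4 ≤ Real.cos v.re ^ 2 := by
        rw [hv]
        have h1 := Real.sin_nat_mul_pi n
        have h2 := Real.sin_sq_add_cos_sq (n * Real.pi)
        rw [h1] at h2; nlinarith
      have e1 := hlow v hv2 (Or.inl hc)
      have e3 : 1 ≤ ε * v.re := by
        have : 1 / ε ≤ v.re := by rw [hv]; linarith [le_max_right w.re (1 / ε)]
        rw [div_le_iff₀ hε] at this; linarith
      have e4 : 2 * v.re - |v.im| + (-v.re - ε * (v.re ^ 2 - v.im ^ 2)) ≤ 0 := by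
        rw [← sq_abs v.im]
        have a0 := abs_nonneg v.im
        have : 0 ≤ (v.re - |v.im|) * (ε * v.re - 1) := mul_nonneg (by linarith) (by linarith)
        have : 0 ≤ (v.re - |v.im|) * (ε * |v.im|) := mul_nonneg (by linarith) (by positivity)
        nlinarith
      calc ‖h v‖ * Real.exp (-v.re - ε * (v.re ^ 2 - v.im ^ 2))
          ≤ 4 * Real.exp (2 * v.re - |v.im|) * Real.exp (-v.re - ε * (v.re ^ 2 - v.im ^ 2)) := by
            gcongr
        _ ≤ 4 := by
            rw [mul_assoc, ← Real.exp_add]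
            have := Real.exp_le_one_iff.2 e4
            linarith
  have hlim : ‖h w‖ * Real.exp (-w.re - 0 * (w.re ^ 2 - w.im ^ 2)) ≤ 4 := by
    have ht : Tendsto (fun ε : ℝ => ‖h w‖ * Real.exp (-w.re - ε * (w.re ^ 2 - w.im ^ 2)))
        (𝓝[>] 0) (𝓝 (‖h w‖ * Real.exp (-w.re - 0 * (w.re ^ 2 - w.im ^ 2)))) := by
      apply Tendsto.mono_left _ nhdsWithin_le_nhds
      apply Continuous.tendsto; fun_prop
    exact le_of_tendsto ht (eventually_nhdsWithin_of_forall fun ε h => hε ε h)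
  rw [zero_mul, sub_zero, Real.exp_neg, ← div_eq_mul_inv, div_le_iff₀ (Real.exp_pos _)] at hlim
  rw [hAh, norm_mul, Real.exp_add, ← mul_assoc]
  exact mul_le_mul hlim (norm_cos_le w) (norm_nonneg _) (by positivity)

end Pool.Agent.H88.Satur1
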