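import Pool.Agent.H88.Satur1

set_option autoImplicit false

open Complex Filter Topology Set Pointwise

namespace Pool.Agent.H88.Satur2

/-- the eight directions -/
noncomputable def om : Fin 8 → ℂ := ![1, I, -1, -I, 1 + I, 1 - I, -1 + I, -1 - I]

/-- the weight exponent -/
noncomputable def H (w : ℂ) : ℝ := 2 * max w.re |w.im|

/-- the weights -/
noncomputable def W (n : ℕ) (z : ℂ) (j : Fin 8) : ℝ := Real.exp (H (om j * z)) / (1 + ‖z‖) ^ n

lemma om_norm (j : Fin 8) : 1 ≤ ‖om j‖ ∧ ‖om j‖ ≤ 2 := by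
  have key : ∀ w : ℂ, 1 ≤ w.re ^ 2 + w.im ^ 2 → w.re ^ 2 + w.im ^ 2 ≤ 4 → 1 ≤ ‖w‖ ∧ ‖w‖ ≤ 2 := by
    intro w h1 h2
    have h : ‖w‖ ^ 2 = w.re ^ 2 + w.im ^ 2 := by
      rw [← Complex.normSq_eq_norm_sq, Complex.normSq_apply]; ring
    have := norm_nonneg w
    constructor <;> nlinarith
  apply key <;> fin_cases j <;> simp [om] <;> norm_num

lemma om_ne (j : Fin 8) : om j ≠ 0 := by
  intro h; have := (om_norm j).1; rw [h, norm_zero] at this; norm_num at this

lemma cover (z : ℂ) : ∃ j, 2 * |(om j * z).im| ≤ (om j * z).re := by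
  by_contra h
  push Not at h
  have h0 := h 0
  have h1 := h 1
  have h2 := h 2
  have h3 := h 3
  have h4 := h 4
  have h5 := h 5
  have h6 := h 6
  have h7 := h 7
  simp [om] at h0 h1 h2 h3 h4 h5 h6 h7
  rcases abs_cases z.re with a | a <;> rcases abs_cases z.im with b | b <;>
    rcases abs_cases (z.im + z.re) with c | c <;> rcases abs_cases (z.im + -z.re) with d | d <;>
    rcases abs_cases (-z.im + z.re) with e | e <;> rcases abs_cases (-z.im + -z.re) with f | f <;>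
    linarith

lemma W_pos (n : ℕ) (z : ℂ) (j : Fin 8) : 0 < W n z j := by unfold W; positivity

lemma W_succ (n : ℕ) (z : ℂ) (j : Fin 8) : (1 + ‖z‖) * W (n + 1) z j = W n z j := by
  unfold W; field_simp; ring

lemma W_add (n m : ℕ) (z : ℂ) (j : Fin 8) : (1 + ‖z‖) ^ m * W (n + m) z j = W n z j := by
  unfold W; field_simp; ring

lemma W_anti {n m : ℕ} (h : n ≤ m) (z : ℂ) (j : Fin 8) : W m z j ≤ W n z j := by
  unfold W
  gcongr
  linarith [norm_nonneg z]

lemma H_lip (v w : ℂ) : H v ≤ H w + 2 * ‖v - w‖ := by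
  unfold H
  have h1 : v.re ≤ w.re + ‖v - w‖ := by
    have := (abs_le.1 (Complex.abs_re_le_norm (v - w))).2
    simp at this; linarith
  have h2 : |v.im| ≤ |w.im| + ‖v - w‖ := by
    have := Complex.abs_im_le_norm (v - w)
    have h3 := abs_sub_abs_le_abs_sub v.im w.im
    simp at this; linarith
  have := max_le ((h1.trans (add_le_add_left (le_max_left w.re |w.im|) _)))
    (h2.trans (add_le_add_left (le_max_right w.re |w.im|) _))
  linarith

lemma W_loc (n : ℕ) (z z' : ℂ) (j : Fin 8) (h : ‖z' - z‖ ≤ 2) :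
    W n z' j ≤ (Real.exp 8 * 3 ^ n) * W n z j := by
  unfold W
  have h1 : H (om j * z') ≤ H (om j * z) + 8 := by
    have := H_lip (om j * z') (om j * z)
    rw [← mul_sub, norm_mul] at this
    have h2 := (om_norm j).2
    have : ‖om j‖ * ‖z' - z‖ ≤ 2 * 2 := by gcongr
    linarith
  have h2 : 1 + ‖z‖ ≤ 3 * (1 + ‖z'‖) := by
    have := norm_sub_norm_le z z'
    rw [norm_sub_rev] at this
    linarith [norm_nonneg z']
  have h3 : (1 + ‖z‖) ^ n ≤ 3 ^ n * (1 + ‖z'‖) ^ n := by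
    rw [← mul_pow]; gcongr
  have h4 : Real.exp (H (om j * z')) ≤ Real.exp 8 * Real.exp (H (om j * z)) := by
    rw [← Real.exp_add]; gcongr; linarith
  rw [← mul_div_assoc, div_le_div_iff₀ (by positivity) (by positivity)]
  calc _ ≤ (Real.exp 8 * Real.exp (H (om j * z))) * (3 ^ n * (1 + ‖z'‖) ^ n) := by gcongr
    _ = _ := by ring

/-- division estimate -/
lemma div_est (n : ℕ) (C : ℝ) (hC : 0 ≤ C) (c : ℂ) (x g : ℂ → Fin 8 → ℂ)
    (hg : Differentiable ℂ g) (hx : ∀ w, x w = (w - c) • g w)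
    (hb : ∀ z j, ‖x z j‖ ≤ C * W n z j) (z : ℂ) (j : Fin 8) :
    ‖g z j‖ ≤ C * (Real.exp 8 * 3 ^ n) * W n z j := by
  have far : ∀ w, 1 ≤ ‖w - c‖ → ‖g w j‖ ≤ C * W n w j := by
    intro w hw
    have := hb w j
    rw [hx, Pi.smul_apply, smul_eq_mul, norm_mul] at this
    nlinarith [norm_nonneg (g w j)]
  by_cases hz : 1 ≤ ‖z - c‖
  · refine (far z hz).trans ?_
    rw [mul_assoc]
    exact mul_le_mul_of_nonneg_left (W_loc n z z j (by simp)) hC
  · have hgj : Differentiable ℂ (fun w => g w j) := differentiable_pi.1 hg j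
    refine Complex.norm_le_of_forall_mem_frontier_norm_le (f := fun w => g w j)
      (U := Metric.ball c 1) Metric.isBounded_ball hgj.diffContOnCl ?_
      (subset_closure (by rw [mem_ball_iff_norm]; exact not_le.1 hz))
    intro v hv
    rw [frontier_ball c one_ne_zero, mem_sphere_iff_norm] at hv
    refine (far v hv.ge).trans ?_
    rw [mul_assoc]
    refine mul_le_mul_of_nonneg_left (W_loc n z v j ?_) hC
    have : v - z = (v - c) - (z - c) := by ring
    rw [this]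
    have := norm_sub_le (v - c) (z - c)
    linarith [not_le.1 hz]

/-- the module -/
def P : Submodule ℂ (ℂ → Fin 8 → ℂ) where
  carrier := {F | Differentiable ℂ F ∧ ∀ n, ∃ C, 0 ≤ C ∧ ∀ z j, ‖F z j‖ ≤ C * W n z j}
  add_mem' := by
    rintro a b ⟨ha, ha'⟩ ⟨hb, hb'⟩
    refine ⟨ha.add hb, fun n => ?_⟩
    obtain ⟨C, hC, h1⟩ := ha' n
    obtain ⟨D, hD, h2⟩ := hb' n
    refine ⟨C + D, by positivity, fun z j => ?_⟩
    have := norm_add_le (a z j) (b z j)
    have e1 := h1 z j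
    have e2 := h2 z j
    simp only [Pi.add_apply]
    linarith
  zero_mem' := ⟨differentiable_const _, fun n => ⟨0, le_rfl, fun z j => by simp⟩⟩
  smul_mem' := by
    rintro c a ⟨ha, ha'⟩
    refine ⟨ha.const_smul c, fun n => ?_⟩
    obtain ⟨C, hC, h1⟩ := ha' n
    refine ⟨‖c‖ * C, by positivity, fun z j => ?_⟩
    simp only [Pi.smul_apply, smul_eq_mul, norm_mul]
    rw [mul_assoc]
    exact mul_le_mul_of_nonneg_left (h1 z j) (norm_nonneg _)

lemma mem_P {F : ℂ → Fin 8 → ℂ} :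
    F ∈ P ↔ Differentiable ℂ F ∧ ∀ n, ∃ C, 0 ≤ C ∧ ∀ z j, ‖F z j‖ ≤ C * W n z j := Iff.rfl

/-- basic neighbourhoods -/
def B (n : ℕ) (r : ℝ) : Set P := {x | ∀ z j, ‖(x : ℂ → Fin 8 → ℂ) z j‖ ≤ r * W n z j}

lemma B_mono {n m : ℕ} {r s : ℝ} (h : n ≤ m) (hr : 0 ≤ s) (hrs : s ≤ r) : B m s ⊆ B n r := by
  intro x hx z j
  refine (hx z j).trans ?_
  exact mul_le_mul hrs (W_anti h z j) (W_pos _ _ _).le (hr.trans hrs)

lemma smul_B {n : ℕ} {r s : ℝ} {a : ℂ} {x : P} (hx : x ∈ B n r) (h : ‖a‖ * r ≤ s) :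
    a • x ∈ B n s := by
  intro z j
  simp only [SetLike.val_smul, Pi.smul_apply, smul_eq_mul, norm_mul]
  calc _ ≤ ‖a‖ * (r * W n z j) := mul_le_mul_of_nonneg_left (hx z j) (norm_nonneg _)
    _ = (‖a‖ * r) * W n z j := by ring
    _ ≤ _ := mul_le_mul_of_nonneg_right h (W_pos _ _ _).le

lemma add_B {n : ℕ} {r s : ℝ} {x y : P} (hx : x ∈ B n r) (hy : y ∈ B n s) :
    x + y ∈ B n (r + s) := by
  intro z j
  have := norm_add_le ((x : ℂ → Fin 8 → ℂ) z j) ((y : ℂ → Fin 8 → ℂ) z j)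
  have e1 := hx z j
  have e2 := hy z j
  simp only [Submodule.coe_add, Pi.add_apply]
  linarith

/-- the filter basis -/
noncomputable def FB : ModuleFilterBasis ℂ P where
  sets := {U | ∃ n r, 0 < r ∧ U = B n r}
  nonempty := ⟨B 0 1, 0, 1, one_pos, rfl⟩
  inter_sets := by
    rintro _ _ ⟨n, r, hr, rfl⟩ ⟨m, s, hs, rfl⟩
    refine ⟨B (max n m) (min r s), ⟨_, _, lt_min hr hs, rfl⟩, subset_inter ?_ ?_⟩
    · exact B_mono (le_max_left _ _) (lt_min hr hs).le (min_le_left _ _)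
    · exact B_mono (le_max_right _ _) (lt_min hr hs).le (min_le_right _ _)
  zero' := by
    rintro _ ⟨n, r, hr, rfl⟩ z j
    simpa using (mul_pos hr (W_pos n z j)).le
  add' := by
    rintro _ ⟨n, r, hr, rfl⟩
    refine ⟨B n (r / 2), ⟨_, _, half_pos hr, rfl⟩, ?_⟩
    rintro _ ⟨x, hx, y, hy, rfl⟩
    simpa using add_B hx hy
  neg' := by
    rintro _ ⟨n, r, hr, rfl⟩
    refine ⟨B n r, ⟨_, _, hr, rfl⟩, ?_⟩
    intro x hx z j
    simpa using hx z j
  conj' := by
    rintro x₀ _ ⟨n, r, hr, rfl⟩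
    refine ⟨B n r, ⟨_, _, hr, rfl⟩, ?_⟩
    intro x hx
    simpa using hx
  smul' := by
    rintro _ ⟨n, r, hr, rfl⟩
    refine ⟨Metric.closedBall 0 1, Metric.closedBall_mem_nhds _ one_pos, B n r, ⟨_, _, hr, rfl⟩, ?_⟩
    rintro _ ⟨a, ha, x, hx, rfl⟩
    rw [mem_closedBall_zero_iff] at ha
    exact smul_B hx (by nlinarith)
  smul_left' := by
    rintro a _ ⟨n, r, hr, rfl⟩
    refine ⟨B n (r / (‖a‖ + 1)), ⟨_, _, by positivity, rfl⟩, ?_⟩
    intro x hx
    refine smul_B hx ?_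
    rw [← mul_div_assoc, div_le_iff₀ (by positivity)]
    nlinarith
  smul_right' := by
    rintro x _ ⟨n, r, hr, rfl⟩
    obtain ⟨C, hC, h⟩ := x.2.2 n
    filter_upwards [Metric.closedBall_mem_nhds (0 : ℂ) (show 0 < r / (C + 1) by positivity)] with a ha
    rw [mem_closedBall_zero_iff, le_div_iff₀ (by positivity)] at ha
    exact smul_B (r := C) h (by nlinarith [norm_nonneg a])

lemma mem_nhds {V : Set P} : V ∈ @nhds P FB.topology 0 ↔ ∃ n r, 0 < r ∧ B n r ⊆ V := by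
  rw [FB.toAddGroupFilterBasis.nhds_zero_hasBasis.mem_iff]
  constructor
  · rintro ⟨_, ⟨n, r, hr, rfl⟩, h⟩
    exact ⟨n, r, hr, h⟩
  · rintro ⟨n, r, hr, h⟩
    exact ⟨B n r, ⟨n, r, hr, rfl⟩, h⟩

lemma B_mem (n : ℕ) {r : ℝ} (hr : 0 < r) : B n r ∈ @nhds P FB.topology 0 :=
  mem_nhds.2 ⟨n, r, hr, subset_rfl⟩

lemma t2 : @T2Space P FB.topology := by
  let := FB.topology
  rw [FB.toAddGroupFilterBasis.t2Space_iff_sInter_subset rfl]
  intro x hx
  rw [mem_singleton_iff]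
  ext z j
  have h : ∀ r, 0 < r → ‖(x : ℂ → Fin 8 → ℂ) z j‖ ≤ r * W 0 z j := fun r hr =>
    hx (B 0 r) ⟨0, r, hr, rfl⟩ z j
  have hW := W_pos 0 z j
  have : ‖(x : ℂ → Fin 8 → ℂ) z j‖ ≤ 0 := by
    apply le_of_forall_pos_le_add
    intro ε hε
    have := h (ε / W 0 z j) (by positivity)
    rwa [div_mul_cancel₀ _ hW.ne', ← zero_add ε] at this
  simpa using this

lemma poly_bound (p : Polynomial ℂ) : ∃ K m, 0 < K ∧ ∀ z : ℂ, ‖p.eval z‖ ≤ K * (1 + ‖z‖) ^ (m : ℕ) := by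
  induction p using Polynomial.induction_on' with
  | add p q hp hq =>
    obtain ⟨K, m, hK, h1⟩ := hp
    obtain ⟨L, l, hL, h2⟩ := hq
    refine ⟨K + L, max m l, by positivity, fun z => ?_⟩
    have e0 : 1 ≤ 1 + ‖z‖ := by linarith [norm_nonneg z]
    have e1 : (1 + ‖z‖) ^ m ≤ (1 + ‖z‖) ^ (max m l) := pow_le_pow_right₀ e0 (le_max_left _ _)
    have e2 : (1 + ‖z‖) ^ l ≤ (1 + ‖z‖) ^ (max m l) := pow_le_pow_right₀ e0 (le_max_right _ _)
    rw [Polynomial.eval_add]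
    have := norm_add_le (p.eval z) (q.eval z)
    nlinarith [h1 z, h2 z]
  | monomial n a =>
    refine ⟨‖a‖ + 1, n, by positivity, fun z => ?_⟩
    rw [Polynomial.eval_monomial, norm_mul, norm_pow]
    gcongr <;> linarith

lemma poly_est (p : Polynomial ℂ) : ∃ K m, 0 < K ∧ ∀ (n : ℕ) (C : ℝ) (F : ℂ → Fin 8 → ℂ),
    (∀ z j, ‖F z j‖ ≤ C * W (n + m) z j) → ∀ z j, ‖(p.eval z • F z) j‖ ≤ K * C * W n z j := by
  obtain ⟨K, m, hK, h⟩ := poly_bound p
  refine ⟨K, m, hK, fun n C F hF z j => ?_⟩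
  rw [Pi.smul_apply, smul_eq_mul, norm_mul, ← W_add n m z j]
  calc _ ≤ (K * (1 + ‖z‖) ^ m) * (C * W (n + m) z j) :=
        mul_le_mul (h z) (hF z j) (norm_nonneg _) (by positivity)
    _ = _ := by ring

lemma poly_mem (p : Polynomial ℂ) (f : ℂ → Fin 8 → ℂ) (hf : f ∈ P) :
    (fun w => p.eval w • f w) ∈ P := by
  obtain ⟨K, m, hK, h⟩ := poly_est p
  refine ⟨p.differentiable.smul hf.1, fun n => ?_⟩
  obtain ⟨C, hC, h1⟩ := hf.2 (n + m)
  exact ⟨K * C, by positivity, h n C f h1⟩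

lemma poly_cont (p : Polynomial ℂ) (g : P → P)
    (hg : ∀ x : P, ((g x : P) : ℂ → Fin 8 → ℂ) = fun w => p.eval w • (x : ℂ → Fin 8 → ℂ) w) :
    @Continuous P P FB.topology FB.topology g := by
  let := FB.topology
  have : IsTopologicalAddGroup P := FB.toAddGroupFilterBasis.isTopologicalAddGroup
  have hadd : ∀ x y, g (x + y) = g x + g y := by
    intro x y
    apply Subtype.ext
    rw [Submodule.coe_add, hg, hg, hg]
    ext w j
    simp [mul_add]
  refine continuous_of_continuousAt_zero (AddMonoidHom.mk' g hadd) ?_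
  rw [ContinuousAt, map_zero]
  intro V hV
  obtain ⟨n, r, hr, hB⟩ := mem_nhds.1 hV
  obtain ⟨K, m, hK, h⟩ := poly_est p
  refine mem_map.2 (mem_nhds.2 ⟨n + m, r / K, by positivity, fun x hx => hB ?_⟩)
  intro z j
  have := h n (r / K) x hx z j
  rw [mul_div_cancel₀ _ hK.ne'] at this
  simpa [hg] using this

lemma mem_of_decay (F : ℂ → Fin 8 → ℂ) (hF : Differentiable ℂ F)
    (hb : ∀ z j, ‖F z j‖ ≤ Real.exp (H (om j * z) - ‖z‖ / 8)) : F ∈ P := by
  refine ⟨hF, fun n => ⟨8 ^ n * n.factorial * Real.exp (1 / 8), by positivity, fun z j => ?_⟩⟩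
  refine (hb z j).trans ?_
  unfold W
  have h1 := Real.pow_div_factorial_le_exp ((1 + ‖z‖) / 8) (by positivity) n
  rw [div_pow, div_div, div_le_iff₀ (by positivity), add_div, Real.exp_add] at h1
  rw [Real.exp_sub, ← mul_div_assoc, div_le_div_iff₀ (by positivity) (by positivity)]
  calc _ ≤ Real.exp (H (om j * z)) * (Real.exp (1 / 8) * Real.exp (‖z‖ / 8) * (8 ^ n * n.factorial)) := by
        gcongr
    _ = _ := by ring

lemma norm_le_om (j : Fin 8) (z : ℂ) : ‖z‖ ≤ |(om j * z).re| + |(om j * z).im| := by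
  have h1 := Complex.norm_le_abs_re_add_abs_im (om j * z)
  rw [norm_mul] at h1
  nlinarith [(om_norm j).1, norm_nonneg z]

/-- the test function -/
noncomputable def f0 : ℂ → Fin 8 → ℂ := fun z j => exp ((7 / 4 : ℝ) * (om j * z))

lemma f0_norm (z : ℂ) (j : Fin 8) : ‖f0 z j‖ = Real.exp (7 / 4 * (om j * z).re) := by
  unfold f0; rw [Complex.norm_exp, Complex.re_ofReal_mul]

lemma f0_mem : f0 ∈ P := by
  refine mem_of_decay f0 (differentiable_pi.2 fun j => by unfold f0; fun_prop) fun z j => ?_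
  rw [f0_norm, Real.exp_le_exp]
  have h := norm_le_om j z
  unfold H
  obtain ⟨w, hw⟩ : ∃ w, w = om j * z := ⟨_, rfl⟩
  rw [← hw] at h ⊢
  have a1 := le_max_left w.re |w.im|
  have a2 := le_max_right w.re |w.im|
  have a3 := abs_nonneg w.im
  rcases abs_cases w.re with b | b <;> rcases le_total w.re |w.im| with c | c <;> linarith

/-- the diagonal elements -/
noncomputable def u0 (s : Fin 8) : ℂ → Fin 8 → ℂ := fun z j =>
  if j = s then cos (om j * z) * exp ((1 / 2 : ℝ) * (om j * z)) else 0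

lemma u0_mem (s : Fin 8) : u0 s ∈ P := by
  refine mem_of_decay _ (differentiable_pi.2 fun j => ?_) fun z j => ?_
  · unfold u0; split_ifs <;> fun_prop
  · unfold u0
    split_ifs
    · rw [norm_mul, Complex.norm_exp, Complex.re_ofReal_mul]
      have h := norm_le_om j z
      unfold H
      obtain ⟨w, hw⟩ : ∃ w, w = om j * z := ⟨_, rfl⟩
      rw [← hw] at h ⊢
      refine (mul_le_mul_of_nonneg_right (Satur1.norm_cos_le w) (Real.exp_pos _).le).trans ?_
      rw [← Real.exp_add, Real.exp_le_exp]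
      have a1 := le_max_left w.re |w.im|
      have a2 := le_max_right w.re |w.im|
      have a3 := abs_nonneg w.im
      rcases abs_cases w.re with b | b <;> rcases le_total w.re |w.im| with c | c <;> linarith
    · rw [norm_zero]; positivity

/-- the divisorial submodule -/
def I0 : Submodule ℂ (ℂ → Fin 8 → ℂ) where
  carrier := {F | F ∈ P ∧ ∀ z j, cos (om j * z) = 0 → F z j = 0}
  add_mem' := by
    rintro a b ⟨ha, ha'⟩ ⟨hb, hb'⟩
    exact ⟨P.add_mem ha hb, fun z j h => by simp [ha' z j h, hb' z j h]⟩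
  zero_mem' := ⟨P.zero_mem, fun _ _ _ => rfl⟩
  smul_mem' := by
    rintro c a ⟨ha, ha'⟩
    exact ⟨P.smul_mem c ha, fun z j h => by simp [ha' z j h]⟩

lemma I0_est (x : P) (hx : x ∈ B 0 1) (hI : (x : ℂ → Fin 8 → ℂ) ∈ I0) (z : ℂ) (j : Fin 8)
    (hz : |(om j * z).im| < (om j * z).re) :
    ‖(x : ℂ → Fin 8 → ℂ) z j‖ ≤ 4 * Real.exp ((om j * z).re + |(om j * z).im|) := by
  have hne := om_ne j
  have hd : Differentiable ℂ (fun w => (x : ℂ → Fin 8 → ℂ) w j) := differentiable_pi.1 x.2.1 j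
  have := Satur1.key (fun w => (x : ℂ → Fin 8 → ℂ) (w / om j) j)
    (hd.comp (by fun_prop)) (fun w hw => hI.2 _ j (by rwa [mul_div_cancel₀ _ hne])) ?_ (om j * z) hz
  · simpa [hne] using this
  · intro w
    have := hx (w / om j) j
    simpa [W, H, mul_div_cancel₀ _ hne] using this

lemma final (z : ℂ) (u : Fin 8 → P) (J : Fin 8 → Fin 8) (hV : ∀ s, u s ∈ B 0 1)
    (hI : ∀ s, (u s : ℂ → Fin 8 → ℂ) ∈ I0) (hJ : StrictMono J)
    (hdet : (Matrix.of fun r s => (u s : ℂ → Fin 8 → ℂ) z (J r)).det ≠ 0) :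
    ‖z / 32‖ ≤ 1 + ∑ s, ‖((Matrix.of fun r s' => (u s' : ℂ → Fin 8 → ℂ) z (J r)).updateCol s
       (fun r => f0 z (J r))).det / (Matrix.of fun r s' => (u s' : ℂ → Fin 8 → ℂ) z (J r)).det‖ := by
  obtain ⟨A, hA⟩ : ∃ A, A = (Matrix.of fun r s => (u s : ℂ → Fin 8 → ℂ) z (J r)) := ⟨_, rfl⟩
  rw [← hA] at hdet ⊢
  obtain ⟨S, hS⟩ : ∃ S, S = ∑ s, ‖(A.updateCol s (fun r => f0 z (J r))).det / A.det‖ := ⟨_, rfl⟩
  rw [← hS]
  have hS0 : 0 ≤ S := hS ▸ Finset.sum_nonneg fun _ _ => norm_nonneg _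
  obtain ⟨j, hj⟩ := cover z
  have hn := norm_le_om j z
  by_cases hz : |(om j * z).im| < (om j * z).re
  swap
  · have a0 := abs_nonneg (om j * z).im
    have a1 : (om j * z).re = 0 := by linarith [not_lt.1 hz]
    have a2 : |(om j * z).im| = 0 := by linarith
    rw [a1, a2] at hn
    rw [norm_div]
    simp only [abs_zero, add_zero] at hn
    have : ‖z‖ = 0 := le_antisymm hn (norm_nonneg _)
    rw [this, zero_div]; linarith
  obtain ⟨r, hr⟩ := (Finite.injective_iff_surjective.1 hJ.injective) j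
  have hc := congrFun (Matrix.mulVec_cramer A (fun r => f0 z (J r))) r
  simp only [Matrix.mulVec, dotProduct, Matrix.cramer_apply, Pi.smul_apply, smul_eq_mul, hr] at hc
  have hc' : f0 z j = ∑ s, A r s * ((A.updateCol s (fun r => f0 z (J r))).det / A.det) := by
    simp only [← mul_div_assoc]
    rw [← Finset.sum_div, hc]; field_simp
  have hb : ‖f0 z j‖ ≤ 4 * Real.exp ((om j * z).re + |(om j * z).im|) * S := by
    rw [hc', hS, Finset.mul_sum]
    refine (norm_sum_le _ _).trans (Finset.sum_le_sum fun s _ => ?_)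
    rw [norm_mul]
    refine mul_le_mul_of_nonneg_right ?_ (norm_nonneg _)
    rw [hA, Matrix.of_apply, hr]
    exact I0_est (u s) (hV s) (hI s) z j hz
  rw [f0_norm] at hb
  obtain ⟨w, hw⟩ : ∃ w, w = om j * z := ⟨_, rfl⟩
  rw [← hw] at hb hn hj hz
  have a0 := abs_nonneg w.im
  have a1 : |w.re| = w.re := abs_of_nonneg (by linarith)
  have e1 : Real.exp (w.re + |w.im|) * Real.exp (w.re / 4) ≤ Real.exp (7 / 4 * w.re) := by
    rw [← Real.exp_add, Real.exp_le_exp]; linarith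
  have e2 : Real.exp (w.re / 4) ≤ 4 * S := by
    have hp := Real.exp_pos (w.re + |w.im|)
    have : Real.exp (w.re + |w.im|) * Real.exp (w.re / 4) ≤ Real.exp (w.re + |w.im|) * (4 * S) := by
      linarith
    exact le_of_mul_le_mul_left this hp
  have e3 := Real.add_one_le_exp (w.re / 4)
  rw [norm_div]
  simp only [Complex.norm_ofNat]
  linarith

end Pool.Agent.H88.Satur2
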