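import Mathlib

set_option autoImplicit false
open MeasureTheory Filter Topology ProbabilityTheory Set
open scoped ENNReal

namespace Pool.Agent.H88.Scalar

noncomputable abbrev m0 : Measure ℝ := volume.restrict (Icc (0:ℝ) 1)

instance : IsProbabilityMeasure m0 := ⟨by simp⟩

theorem exists_iid : ∃ X : ℕ → ℝ → ℝ, (∀ n, MeasurePreserving (X n) m0 m0) ∧ iIndepFun X m0 := by
  obtain ⟨f, hf, hmap⟩ := Measure.exists_measurable_map_eq (Measure.infinitePi fun _ : ℕ => m0)
  have hp : MeasurePreserving (projIcc (0:ℝ) 1 zero_le_one) m0 (volume : Measure unitInterval) := by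
    have hm : Measurable (projIcc (0:ℝ) 1 zero_le_one) := continuous_projIcc.measurable
    refine ⟨hm, ?_⟩
    have h1 := unitInterval.measurePreserving_coe.map_eq
    have h2 : m0 = Measure.map ((↑) : unitInterval → ℝ) volume := h1.symm
    rw [h2, Measure.map_map hm measurable_subtype_coe]
    have : (projIcc (0:ℝ) 1 zero_le_one) ∘ ((↑) : unitInterval → ℝ) = id := by
      funext u
      simp
    rw [this, Measure.map_id]
  have hF : MeasurePreserving (f ∘ projIcc (0:ℝ) 1 zero_le_one) m0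
      (Measure.infinitePi fun _ : ℕ => m0) := MeasurePreserving.comp ⟨hf, hmap⟩ hp
  have hX : ∀ n, MeasurePreserving (fun t => (f ∘ projIcc (0:ℝ) 1 zero_le_one) t n) m0 m0 := by
    intro n
    have he : MeasurePreserving (fun g : ℕ → ℝ => g n) (Measure.infinitePi fun _ : ℕ => m0) m0 :=
      ⟨measurable_pi_apply n, Measure.infinitePi_map_eval _ n⟩
    exact he.comp hF
  refine ⟨fun n t => (f ∘ projIcc (0:ℝ) 1 zero_le_one) t n, hX, ?_⟩
  rw [iIndepFun_iff_map_fun_eq_infinitePi_map (fun n => (hX n).measurable)]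
  simp_rw [fun n => (hX n).map_eq]
  exact hF.map_eq

theorem weak_null {Ω : Type*} [MeasurableSpace Ω] (μ : Measure Ω) [IsProbabilityMeasure μ]
    (Y : ℕ → Ω → ℝ) (hY : ∀ n, MemLp (Y n) 2 μ)
    (hind : ∀ i j, i ≠ j → IndepFun (Y i) (Y j) μ) (h0 : ∀ n, ∫ s, Y n s ∂μ = 0)
    (V : ℝ) (hV : ∀ n, variance (Y n) μ ≤ V)
    (h : ℕ → Lp ℝ 1 μ) (hh : ∀ n, h n =ᵐ[μ] Y n) (x : Lp ℝ 1 μ →L[ℝ] ℝ) :
    Tendsto (fun n => x (h n)) atTop (𝓝 0) := by
  have hV0 : 0 ≤ V := (variance_nonneg _ _).trans (hV 0)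
  have key : ∀ N, ∑ n ∈ Finset.range N, (x (h n)) ^ 2 ≤ ‖x‖ ^ 2 * V := by
    intro N
    obtain ⟨A, hA⟩ : ∃ A, A = ∑ n ∈ Finset.range N, (x (h n)) ^ 2 := ⟨_, rfl⟩
    rw [← hA]
    have hA0 : 0 ≤ A := hA ▸ Finset.sum_nonneg fun _ _ => sq_nonneg _
    obtain ⟨S, hS⟩ : ∃ S : Lp ℝ 1 μ, S = ∑ n ∈ Finset.range N, x (h n) • h n := ⟨_, rfl⟩
    obtain ⟨Z, hZ⟩ : ∃ Z : Ω → ℝ, Z = ∑ n ∈ Finset.range N, x (h n) • Y n := ⟨_, rfl⟩
    have hxS : x S = A := by
      rw [hS, hA, map_sum]
      refine Finset.sum_congr rfl fun n _ => ?_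
      rw [map_smul, smul_eq_mul, sq]
    have hSZ : S =ᵐ[μ] Z := by
      rw [hS, hZ]
      refine (Lp.coeFn_finsetSum _ _).trans ?_
      have : ∀ n, (x (h n) • h n : Lp ℝ 1 μ) =ᵐ[μ] x (h n) • Y n := fun n =>
        (Lp.coeFn_smul _ _).trans ((hh n).const_smul _)
      filter_upwards [ae_all_iff.2 this] with s hs
      simp only [Finset.sum_apply]
      exact Finset.sum_congr rfl fun n _ => hs n
    have hZ2 : MemLp Z 2 μ := by
      rw [hZ]
      exact memLp_finsetSum' _ fun n _ => (hY n).const_smul _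
    have hZ0 : ∫ s, Z s ∂μ = 0 := by
      rw [hZ]
      simp only [Finset.sum_apply, Pi.smul_apply, smul_eq_mul]
      rw [integral_finsetSum _ fun n _ => ((hY n).integrable (by simp)).const_mul _]
      refine Finset.sum_eq_zero fun n _ => ?_
      rw [integral_const_mul, h0, mul_zero]
    have hvar : variance Z μ ≤ A * V := by
      rw [hZ, IndepFun.variance_sum (fun n _ => (hY n).const_smul _), hA, Finset.sum_mul]
      · refine Finset.sum_le_sum fun n _ => ?_
        rw [variance_smul]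
        exact mul_le_mul_of_nonneg_left (hV n) (sq_nonneg _)
      · intro i _ j _ hij
        exact (hind i j hij).comp (φ := fun y => x (h i) • y) (ψ := fun y => x (h j) • y)
          (by fun_prop) (by fun_prop)
    have hnorm : ‖S‖ = ∫ s, |Z s| ∂μ := by
      rw [L1.norm_eq_integral_norm]
      refine integral_congr_ae ?_
      filter_upwards [hSZ] with s hs
      rw [hs, Real.norm_eq_abs]
    have habs : (∫ s, |Z s| ∂μ) ^ 2 ≤ variance Z μ := by
      have h1 := variance_eq_sub (hZ2.abs)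
      have h2 := variance_nonneg (|Z|) μ
      rw [variance_of_integral_eq_zero hZ2.aemeasurable hZ0]
      have h3 : ∫ s, (|Z| ^ 2) s ∂μ = ∫ s, Z s ^ 2 ∂μ := by
        congr 1
        funext s
        simp
      have h4 : ∫ s, (|Z|) s ∂μ = ∫ s, |Z s| ∂μ := rfl
      rw [h3, h4] at h1
      linarith
    have h5 : A ≤ ‖x‖ * ‖S‖ := by
      rw [← hxS]
      exact (le_abs_self _).trans (x.le_opNorm S)
    have h6 : A ^ 2 ≤ ‖x‖ ^ 2 * (A * V) := by
      calc A ^ 2 ≤ (‖x‖ * ‖S‖) ^ 2 := pow_le_pow_left₀ hA0 h5 2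
        _ = ‖x‖ ^ 2 * ‖S‖ ^ 2 := mul_pow _ _ _
        _ ≤ ‖x‖ ^ 2 * (A * V) := by
          refine mul_le_mul_of_nonneg_left ?_ (sq_nonneg _)
          rw [hnorm]
          exact habs.trans hvar
    rcases hA0.eq_or_lt with h7 | h7
    · rw [← h7]
      positivity
    · have : A * A ≤ A * (‖x‖ ^ 2 * V) := by nlinarith
      exact le_of_mul_le_mul_left this h7
  have hs : Summable fun n => (x (h n)) ^ 2 := summable_of_sum_range_le (fun _ => sq_nonneg _) key
  have h1 := hs.tendsto_atTop_zero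
  have h2 := (Real.continuous_sqrt.tendsto 0).comp h1
  rw [Real.sqrt_zero] at h2
  rw [tendsto_zero_iff_abs_tendsto_zero]
  refine h2.congr fun n => ?_
  simp [Real.sqrt_sq_eq_abs]

theorem m0_Icc {p : ℝ} (hp1 : p ≤ 1) : m0 (Icc 0 p) = ENNReal.ofReal p := by
  rw [Measure.restrict_apply measurableSet_Icc, inter_eq_left.2 (Icc_subset_Icc_right hp1)]
  simp

theorem m0_Ioc {p : ℝ} (hp1 : p ≤ 1) : m0 (Ioc 0 p) = ENNReal.ofReal p := by
  rw [Measure.restrict_apply measurableSet_Ioc,
    inter_eq_left.2 (Ioc_subset_Icc_self.trans (Icc_subset_Icc_right hp1))]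
  simp

noncomputable def pp (j : ℕ) : ℝ := (1 / 2) ^ (j + 1)

theorem pp_pos (j : ℕ) : 0 < pp j := by unfold pp; positivity

theorem pp_le (j : ℕ) : pp j ≤ 1 := by
  unfold pp
  exact pow_le_one₀ (by norm_num) (by norm_num)

theorem pp_anti {i j : ℕ} (h : i ≤ j) : pp j ≤ pp i := by
  unfold pp
  exact pow_le_pow_of_le_one (by norm_num) (by norm_num) (by omega)

noncomputable def ind (j : ℕ) : ℝ → ℝ := (Icc 0 (pp j)).indicator fun _ => (pp j)⁻¹

noncomputable def gg (j : ℕ) (u : ℝ) : ℝ := ind j u - 1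

theorem ind_meas (j : ℕ) : Measurable (ind j) :=
  measurable_const.indicator measurableSet_Icc

theorem gg_meas (j : ℕ) : Measurable (gg j) := (ind_meas j).sub_const 1

theorem ind_memLp (j : ℕ) (p : ℝ≥0∞) : MemLp (ind j) p m0 :=
  (memLp_const _).indicator measurableSet_Icc

theorem gg_memLp (j : ℕ) (p : ℝ≥0∞) : MemLp (gg j) p m0 :=
  (ind_memLp j p).sub (memLp_const 1)

theorem ind_nonneg (j : ℕ) (u : ℝ) : 0 ≤ ind j u :=
  indicator_nonneg (fun _ _ => (inv_pos.2 (pp_pos j)).le) u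

theorem int_ind (j : ℕ) : ∫ u, ind j u ∂m0 = 1 := by
  unfold ind
  rw [integral_indicator_const _ measurableSet_Icc, measureReal_def, m0_Icc (pp_le j),
    ENNReal.toReal_ofReal (pp_pos j).le, smul_eq_mul, mul_inv_cancel₀ (pp_pos j).ne']

theorem int_gg (j : ℕ) : ∫ u, gg j u ∂m0 = 0 := by
  unfold gg
  rw [integral_sub ((ind_memLp j 1).integrable le_rfl) (integrable_const _), int_ind]
  simp

theorem int_abs_gg (j : ℕ) : ∫ u, |gg j u| ∂m0 ≤ 2 := by
  have h1 : ∫ u, |gg j u| ∂m0 ≤ ∫ u, (ind j u + 1) ∂m0 := by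
    refine integral_mono ((gg_memLp j 1).integrable le_rfl).abs
      (((ind_memLp j 1).integrable le_rfl).add (integrable_const _)) fun u => ?_
    have := ind_nonneg j u
    simp only [gg]
    rw [abs_le]
    constructor <;> linarith
  rw [integral_add ((ind_memLp j 1).integrable le_rfl) (integrable_const _), int_ind] at h1
  simp at h1
  linarith

noncomputable def JJ (u : ℝ) : ℕ := ⌊u⁻¹⌋₊

theorem JJ_meas : Measurable JJ := Measurable.nat_floor measurable_inv

theorem JJ_ge {k : ℕ} {u : ℝ} (hu : u ∈ Ioc (0:ℝ) (1 / ((k:ℝ) + 1))) : k + 1 ≤ JJ u := by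
  unfold JJ
  refine Nat.le_floor ?_
  push_cast
  rw [le_inv_comm₀ (by positivity) hu.1, ← one_div]
  exact hu.2

theorem JJ_lt {N : ℕ} {u : ℝ} (hu : N < JJ u) : u ∈ Icc (0:ℝ) (1 / ((N:ℝ) + 1)) := by
  unfold JJ at hu
  have h1 : ((N + 1 : ℕ) : ℝ) ≤ u⁻¹ := (Nat.le_floor_iff' (by omega)).1 hu
  push_cast at h1
  have h2 : 0 < u⁻¹ := lt_of_lt_of_le (by positivity) h1
  have h3 : 0 < u := inv_pos.1 h2
  refine ⟨h3.le, ?_⟩
  rw [one_div, le_inv_comm₀ h3 (by positivity)]
  exact h1

theorem main :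
    ¬ (∀ f : ℕ → ℝ → Lp ℝ 1 m0,
      (∀ n, AEStronglyMeasurable (f n) m0) →
      (∃ C : ℝ, ∀ n, ∀ᵐ t ∂m0, ‖f n t‖ ≤ C) →
      (∀ x : Lp ℝ 1 m0 →L[ℝ] ℝ,
          TendstoInMeasure m0 (fun n t => x (f n t)) atTop (fun _ => (0:ℝ))) →
      ∃ φ : ℕ → ℕ, StrictMono φ ∧
        ∀ x : Lp ℝ 1 m0 →L[ℝ] ℝ,
          ∀ᵐ t ∂m0, Tendsto (fun k => x (f (φ k) t)) atTop (𝓝 (0:ℝ))) := by
  intro H
  obtain ⟨X, hX, hind⟩ := exists_iid
  have hmem : ∀ n j p, MemLp (gg j ∘ X n) p m0 := fun n j p =>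
    (gg_memLp j p).comp_measurePreserving (hX n)
  obtain ⟨h, hh⟩ : ∃ h : ℕ → ℕ → Lp ℝ 1 m0, ∀ n j, h n j =ᵐ[m0] gg j ∘ X n :=
    ⟨fun n j => (hmem n j 1).toLp _, fun n j => MemLp.coeFn_toLp _⟩
  have hint : ∀ n (g : ℝ → ℝ), Measurable g → ∫ s, g (X n s) ∂m0 = ∫ u, g u ∂m0 := by
    intro n g hg
    rw [← integral_map (hX n).measurable.aemeasurable hg.aestronglyMeasurable, (hX n).map_eq]
  obtain ⟨φ, hφ, hconv⟩ := H (fun n t => h n (JJ (X n t))) (by
      intro n
      have h1 : StronglyMeasurable (h n) := StronglyMeasurable.of_discrete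
      exact (h1.comp_measurable (JJ_meas.comp (hX n).measurable)).aestronglyMeasurable)
    (by
      refine ⟨2, fun n => Eventually.of_forall fun t => ?_⟩
      rw [L1.norm_eq_integral_norm]
      have h1 : ∫ s, ‖h n (JJ (X n t)) s‖ ∂m0 = ∫ s, |gg (JJ (X n t)) (X n s)| ∂m0 := by
        refine integral_congr_ae ?_
        filter_upwards [hh n (JJ (X n t))] with s hs
        rw [hs, Real.norm_eq_abs]
        rfl
      rw [h1, hint n (fun u => |gg (JJ (X n t)) u|) (gg_meas _).abs]
      exact int_abs_gg _)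
    (by
      intro x
      have hw : ∀ j, Tendsto (fun n => x (h n j)) atTop (𝓝 0) := by
        intro j
        refine weak_null m0 (fun n => gg j ∘ X n) (fun n => hmem n j 2) ?_ ?_
          (variance (gg j) m0) ?_ (fun n => h n j) (fun n => hh n j) x
        · intro a b hab
          exact (hind.indepFun hab).comp (gg_meas j) (gg_meas j)
        · intro n
          exact (hint n _ (gg_meas j)).trans (int_gg j)
        · intro n
          exact ((hX n).variance_fun_comp (gg_meas j).aemeasurable).le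
      rw [tendstoInMeasure_iff_norm]
      intro ε hε
      rw [ENNReal.tendsto_nhds_zero]
      intro δ hδ
      have hlim : Tendsto (fun N : ℕ => ENNReal.ofReal (1 / ((N:ℝ) + 1))) atTop (𝓝 0) := by
        have := ENNReal.tendsto_ofReal (tendsto_one_div_add_atTop_nhds_zero_nat (𝕜 := ℝ))
        simpa using this
      obtain ⟨N, hN⟩ := ((ENNReal.tendsto_nhds_zero.1 hlim) δ hδ).exists
      have hev : ∀ᶠ n in atTop, ∀ j ∈ Finset.range (N + 1), ‖x (h n j)‖ < ε := by
        rw [eventually_all_finset]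
        intro j _
        have := (hw j).norm
        rw [norm_zero] at this
        exact this.eventually (gt_mem_nhds hε)
      filter_upwards [hev] with n hn
      refine le_trans (measure_mono (t := X n ⁻¹' Icc (0:ℝ) (1 / ((N:ℝ) + 1))) ?_) ?_
      · intro t ht
        simp only [sub_zero, mem_ofPred_eq] at ht
        refine JJ_lt ?_
        by_contra hc
        have := hn (JJ (X n t)) (Finset.mem_range.2 (by omega))
        linarith
      · rw [(hX n).measure_preimage measurableSet_Icc.nullMeasurableSet, m0_Icc]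
        · exact hN
        · rw [div_le_one (by positivity)]
          have : (0:ℝ) ≤ N := Nat.cast_nonneg N
          linarith)
  obtain ⟨P, hP⟩ : ∃ P : Set ℝ, P = ⋃ k, X (φ k) ⁻¹' Icc 0 (pp (k + 1)) := ⟨_, rfl⟩
  have hPm : MeasurableSet P := by
    rw [hP]
    exact MeasurableSet.iUnion fun k => (hX _).measurable measurableSet_Icc
  have hPle : m0.real P ≤ 1 / 2 := by
    have h1 : m0 P ≤ ∑' k, ENNReal.ofReal (pp (k + 1)) := by
      rw [hP]
      refine (measure_iUnion_le _).trans (le_of_eq ?_)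
      congr 1
      funext k
      rw [(hX _).measure_preimage measurableSet_Icc.nullMeasurableSet, m0_Icc (pp_le _)]
    have hs : HasSum (fun k => pp (k + 1)) (1 / 2) := by
      have := hasSum_geometric_two.mul_left (1 / 4 : ℝ)
      have e1 : (fun k => pp (k + 1)) = fun i : ℕ => (1 / 4 : ℝ) * (1 / 2) ^ i := by
        funext k
        unfold pp
        ring
      have e2 : (1 / 2 : ℝ) = 1 / 4 * 2 := by norm_num
      rw [e1]
      exact e2 ▸ this
    rw [← ENNReal.ofReal_tsum_of_nonneg (fun k => (pp_pos _).le) hs.summable, hs.tsum_eq] at h1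
    rw [measureReal_def]
    exact ENNReal.toReal_le_of_le_ofReal (by norm_num) h1
  let x : Lp ℝ 1 m0 →L[ℝ] ℝ :=
    { toFun := fun g => ∫ s in P, g s ∂m0
      map_add' := fun g₁ g₂ => by
        rw [← integral_add (L1.integrable_coeFn g₁).integrableOn
          (L1.integrable_coeFn g₂).integrableOn]
        exact integral_congr_ae (ae_restrict_of_ae (Lp.coeFn_add g₁ g₂))
      map_smul' := fun c g => by
        rw [RingHom.id_apply, ← integral_smul]
        exact integral_congr_ae (ae_restrict_of_ae (Lp.coeFn_smul c g))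
      cont := continuous_setIntegral P }
  have hx : ∀ k j, k + 1 ≤ j → 1 / 2 ≤ x (h (φ k) j) := by
    intro k j hj
    have h1 : x (h (φ k) j) = ∫ s in P, (ind j (X (φ k) s) - 1) ∂m0 :=
      integral_congr_ae (ae_restrict_of_ae (hh (φ k) j))
    have hi : Integrable (fun s => ind j (X (φ k) s)) m0 :=
      ((ind_memLp j 1).comp_measurePreserving (hX (φ k))).integrable le_rfl
    have h2 : ∫ s in P, ind j (X (φ k) s) ∂m0 = 1 := by
      rw [setIntegral_eq_integral_of_forall_compl_eq_zero, hint _ _ (ind_meas j), int_ind]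
      intro s hs
      unfold ind
      refine indicator_of_notMem (fun hc => hs ?_) _
      rw [hP]
      exact mem_iUnion.2 ⟨k, hc.1, hc.2.trans (pp_anti hj)⟩
    rw [h1, integral_sub hi.integrableOn (integrable_const _), h2, setIntegral_const]
    simp only [smul_eq_mul, mul_one]
    linarith
  obtain ⟨E, hE⟩ : ∃ E : ℕ → Set ℝ, E = fun k => X (φ k) ⁻¹' Ioc (0:ℝ) (1 / ((k:ℝ) + 1)) :=
    ⟨_, rfl⟩
  have hEm : ∀ k, MeasurableSet (E k) := fun k => by
    rw [hE]
    exact (hX _).measurable measurableSet_Ioc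
  have hEi : iIndepSet E m0 := by
    rw [iIndepSet_iff_meas_biInter hEm]
    intro s
    rw [hE]
    exact (hind.precomp hφ.injective).measure_inter_preimage_eq_mul s
      (sets := fun k => Ioc (0:ℝ) (1 / ((k:ℝ) + 1))) fun _ _ => measurableSet_Ioc
  have hEs : ∑' k, m0 (E k) = ∞ := by
    have h1 : ∀ k, m0 (E k) = ENNReal.ofReal (1 / ((k:ℝ) + 1)) := by
      intro k
      rw [hE]
      dsimp only
      rw [(hX _).measure_preimage measurableSet_Ioc.nullMeasurableSet, m0_Ioc]
      rw [div_le_one (by positivity)]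
      have : (0:ℝ) ≤ k := Nat.cast_nonneg k
      linarith
    simp_rw [h1]
    by_contra hne
    have h2 := ENNReal.summable_toReal hne
    have h3 : Summable fun k : ℕ => 1 / ((k:ℝ) + 1) := by
      refine h2.congr fun k => ?_
      rw [ENNReal.toReal_ofReal (by positivity)]
    have h4 : Summable fun k : ℕ => 1 / (k:ℝ) := by
      rw [← summable_nat_add_iff 1]
      simpa using h3
    exact Real.not_summable_one_div_natCast h4
  have hlimsup := measure_limsup_eq_one hEm hEi hEs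
  have hae : ∀ᵐ t ∂m0, t ∉ limsup E atTop := by
    filter_upwards [hconv x] with t ht hmem
    rw [mem_limsup_iff_frequently_mem] at hmem
    have h1 : ∀ᶠ k in atTop, x (h (φ k) (JJ (X (φ k) t))) < 1 / 2 :=
      ht.eventually (gt_mem_nhds (by norm_num))
    obtain ⟨k, hk1, hk2⟩ := (hmem.and_eventually h1).exists
    rw [hE] at hk1
    exact absurd (hx k _ (JJ_ge hk1)) (not_le.2 hk2)
  have h0 : m0 (limsup E atTop) = 0 := by
    rw [ae_iff] at hae
    simpa using hae
  rw [h0] at hlimsup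
  exact zero_ne_one hlimsup

end Pool.Agent.H88.Scalar
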