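import Pool.Agent.H88.Cp3

namespace Pool.Agent.H88.Sick
open Filter Topology Set Pool.Agent.H88.Cp
set_option linter.unusedSectionVars false

variable {K L : Type*} [TopologicalSpace K] [CompactSpace K] [T2Space K]
  [TopologicalSpace L] [CompactSpace L] [T2Space L]
  {E : Type*} [NormedAddCommGroup E] [Lattice E] [HasSolidNorm E] [IsOrderedAddMonoid E]
  [NormedSpace ℝ E] [CompleteSpace E]

theorem T_mono {T : C(K, ℝ) →ₗ[ℝ] E} (hsup : ∀ f g, T (f ⊔ g) = T f ⊔ T g) {f g : C(K, ℝ)}
    (h : f ≤ g) : T f ≤ T g := by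
  have := hsup f g
  rw [sup_eq_right.mpr h] at this
  rw [this]; exact le_sup_left

theorem T_abs {T : C(K, ℝ) →ₗ[ℝ] E} (hsup : ∀ f g, T (f ⊔ g) = T f ⊔ T g) (f : C(K, ℝ)) :
    T |f| = |T f| := by
  rw [abs, abs, hsup, map_neg]

theorem T_norm {T : C(K, ℝ) →ₗ[ℝ] E} (hsup : ∀ f g, T (f ⊔ g) = T f ⊔ T g) {f g : C(K, ℝ)}
    (h : |f| ≤ |g|) : ‖T f‖ ≤ ‖T g‖ := by
  apply HasSolidNorm.solid
  rw [← T_abs hsup, ← T_abs hsup]
  exact T_mono hsup h

theorem T_cont {T : C(K, ℝ) →ₗ[ℝ] E} (hsup : ∀ f g, T (f ⊔ g) = T f ⊔ T g) : Continuous T := by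
  apply AddMonoidHomClass.continuous_of_bound T ‖T 1‖
  intro f
  have := T_norm hsup (f := f) (g := ‖f‖ • (1 : C(K, ℝ))) (fun x => by
    simpa using f.norm_coe_le_norm x)
  rwa [map_smul, norm_smul, norm_norm, mul_comm] at this

theorem lower [Infinite L] (T : C(K × L, ℝ) →ₗ[ℝ] E) (hinj : Function.Injective T)
    (hsup : ∀ f g, T (f ⊔ g) = T f ⊔ T g) (hinf : ∀ f g, T (f ⊓ g) = T f ⊓ T g)
    (hcl : ∀ y, 0 ≤ y → y ≤ T 1 → y ∈ range T) :
    ∃ c : ℝ, 0 < c ∧ ∀ w : C(K, ℝ), c * ‖w‖ ≤ ‖T (w.comp ContinuousMap.fst)‖ := by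
  by_contra hc
  push Not at hc
  have hu : ∀ j : ℕ, ∃ u : C(K, ℝ), (∀ x, 0 ≤ u x) ∧ ‖u‖ = 1 ∧
      ‖T (u.comp ContinuousMap.fst)‖ ≤ (1 / 2) ^ j := by
    intro j
    obtain ⟨w, hw⟩ := hc ((1 / 2) ^ j) (by positivity)
    have h0 : 0 < ‖w‖ := by
      by_contra h
      have : ‖w‖ = 0 := le_antisymm (not_lt.mp h) (norm_nonneg _)
      rw [this, mul_zero] at hw
      exact absurd hw (not_lt.mpr (norm_nonneg _))
    refine ⟨‖w‖⁻¹ • |w|, fun x => ?_, ?_, ?_⟩
    · simp only [ContinuousMap.smul_apply, ContinuousMap.abs_apply, smul_eq_mul]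
      positivity
    · have e : ‖|w|‖ = ‖w‖ := by
        apply le_antisymm
        · rw [ContinuousMap.norm_le _ (norm_nonneg _)]
          intro x
          simpa using w.norm_coe_le_norm x
        · rw [ContinuousMap.norm_le _ (norm_nonneg _)]
          intro x
          simpa using |w|.norm_coe_le_norm x
      rw [norm_smul, e, norm_inv, norm_norm, inv_mul_cancel₀ h0.ne']
    · have : (‖w‖⁻¹ • |w|).comp (ContinuousMap.fst : C(K × L, K)) =
          ‖w‖⁻¹ • |w.comp ContinuousMap.fst| := by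
        ext; simp
      rw [this, map_smul, T_abs hsup, norm_smul, norm_abs_eq_norm, norm_inv, norm_norm,
        inv_mul_le_iff₀ h0]
      linarith
  choose u u0 u1 u2 using hu
  obtain ⟨U, hU1, hU2, hU3⟩ := exists_seq_infinite_isOpen_pairwise_disjoint L
  choose y hy using fun n => (hU1 n).nonempty
  have hv : ∀ j, ∃ v : C(L, ℝ), (∀ z, z ∉ U j → v z = 0) ∧ v (y j) = 1 ∧
      ∀ z, 0 ≤ v z ∧ v z ≤ 1 := by
    intro j
    obtain ⟨v, h1, h2, h3⟩ := exists_continuous_zero_one_of_isClosed (hU2 j).isClosed_compl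
      (isClosed_singleton (x := y j)) (disjoint_singleton_right.mpr fun h => h (hy j))
    exact ⟨v, fun z hz => h1 hz, h2 rfl, fun z => h3 z⟩
  choose v v0 v1 v2 using hv
  have hd : ∀ i j z, i ≠ j → v j z ≠ 0 → v i z = 0 := by
    intro i j z hij hz
    apply v0
    intro h
    exact hz (v0 j z fun h' => Set.disjoint_left.mp (hU3 hij) h h')
  let a : ℕ → C(K × L, ℝ) := fun j => (u j).comp ContinuousMap.fst * (v j).comp ContinuousMap.snd
  have ha : ∀ j p, a j p = u j p.1 * v j p.2 := fun j p => rfl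
  have a0 : ∀ j p, 0 ≤ a j p := fun j p => mul_nonneg (u0 j _) (v2 j _).1
  have ule : ∀ j x, u j x ≤ 1 := fun j x =>
    (le_abs_self _).trans (((u j).norm_coe_le_norm x).trans_eq (u1 j))
  have hs : Summable fun j => T (a j) := by
    refine Summable.of_norm_bounded summable_geometric_two fun j => le_trans ?_ (u2 j)
    apply T_norm hsup
    intro p
    show |u j p.1 * v j p.2| ≤ |u j p.1|
    rw [abs_of_nonneg (mul_nonneg (u0 j _) (v2 j _).1), abs_of_nonneg (u0 j _)]
    exact mul_le_of_le_one_right (u0 j _) (v2 j _).2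
  have ht : Tendsto (fun N => T (∑ j ∈ Finset.range N, a j)) atTop (𝓝 (∑' j, T (a j))) := by
    simpa only [map_sum] using hs.hasSum.tendsto_sum_nat
  have single : ∀ N j (p : K × L), j < N → v j p.2 ≠ 0 →
      (∑ i ∈ Finset.range N, a i) p = a j p := by
    intro N j p hj hp
    rw [ContinuousMap.sum_apply]
    apply Finset.sum_eq_single j
    · intro i _ hij
      rw [ha, hd i j _ hij hp, mul_zero]
    · intro h; exact absurd (Finset.mem_range.mpr hj) h
  have g0 : ∀ N, 0 ≤ ∑ j ∈ Finset.range N, a j := fun N =>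
    Finset.sum_nonneg fun j _ p => a0 j p
  have g1 : ∀ N, ∑ j ∈ Finset.range N, a j ≤ 1 := by
    intro N p
    show (∑ j ∈ Finset.range N, a j) p ≤ (1 : ℝ)
    by_cases h : ∃ j < N, v j p.2 ≠ 0
    · obtain ⟨j, hj, h⟩ := h
      rw [single N j p hj h, ha]
      exact mul_le_one₀ (ule j _) (v2 j _).1 (v2 j _).2
    · push Not at h
      rw [ContinuousMap.sum_apply, Finset.sum_eq_zero]
      · exact zero_le_one
      · intro j hj
        rw [ha, h j (Finset.mem_range.mp hj), mul_zero]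
  obtain ⟨h, hh⟩ := hcl (∑' j, T (a j))
    (ge_of_tendsto' ht fun N => by simpa using T_mono hsup (g0 N))
    (le_of_tendsto' ht fun N => T_mono hsup (g1 N))
  have key : ∀ j x, h (x, y j) = u j x := by
    intro j x
    have h1 : Tendsto (fun N => (T (∑ j ∈ Finset.range N, a j) - T (a j)) ⊓
        T ((v j).comp ContinuousMap.snd)) atTop
        (𝓝 ((T h - T (a j)) ⊓ T ((v j).comp ContinuousMap.snd))) := by
      rw [hh]
      exact (ht.sub_const _).inf_nhds tendsto_const_nhds
    have h2 : (T h - T (a j)) ⊓ T ((v j).comp ContinuousMap.snd) = 0 := by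
      refine tendsto_nhds_unique h1 (tendsto_const_nhds.congr' ?_)
      filter_upwards [eventually_gt_atTop j] with N hN
      rw [← map_sub, ← hinf, ← map_zero T]
      congr 1
      ext p
      simp only [ContinuousMap.zero_apply, ContinuousMap.inf_apply, ContinuousMap.sub_apply,
        ContinuousMap.comp_apply, ContinuousMap.snd_apply]
      by_cases hp : v j p.2 = 0
      · rw [hp, min_eq_right]
        rw [sub_nonneg, ContinuousMap.sum_apply]
        exact Finset.single_le_sum (f := fun i => a i p) (fun i _ => a0 i p)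
          (Finset.mem_range.mpr hN)
      · rw [single N j p hN hp, sub_self, min_eq_left (v2 j _).1]
    rw [← map_sub, ← hinf, ← map_zero T] at h2
    have h3 := DFunLike.congr_fun (hinj h2) (x, y j)
    simp only [ContinuousMap.zero_apply, ContinuousMap.inf_apply, ContinuousMap.sub_apply,
      ContinuousMap.comp_apply, ContinuousMap.snd_apply, ha, v1, mul_one] at h3
    rcases min_eq_iff.mp h3 with h4 | h4
    · linarith [h4.1]
    · exact absurd h4.1 one_ne_zero
  let H : C(L, C(K, ℝ)) := (h.comp ContinuousMap.prodSwap).curry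
  have hH : ∀ j, H (y j) = u j := fun j => by ext x; exact key j x
  have hS : IsCompact {z | ‖H z‖ = 1} :=
    (isClosed_eq H.continuous.norm continuous_const).isCompact
  have hφ : Continuous fun z => ‖T ((H z).comp (ContinuousMap.fst : C(K × L, K)))‖ :=
    ((T_cont hsup).comp ((ContinuousMap.continuous_precomp _).comp H.continuous)).norm
  obtain ⟨z, hz, hz'⟩ := hS.exists_isMinOn ⟨y 0, by simp [hH, u1]⟩ hφ.continuousOn
  have h1 : ‖T ((H z).comp (ContinuousMap.fst : C(K × L, K)))‖ ≤ 0 := by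
    apply ge_of_tendsto' (tendsto_pow_atTop_nhds_zero_of_lt_one (r := (1 / 2 : ℝ))
      (by norm_num) (by norm_num))
    intro j
    have := hz' (show y j ∈ {z | ‖H z‖ = 1} by simp [hH, u1])
    simp only [mem_ofPred_eq, hH] at this
    exact this.trans (u2 j)
  rw [norm_le_zero_iff, ← map_zero T] at h1
  have h2 : H z = 0 := by
    ext x
    exact DFunLike.congr_fun (hinj h1) (x, z)
  have : ‖H z‖ = 1 := hz
  rw [h2, norm_zero] at this
  exact zero_ne_one this

theorem metr [TopologicalSpace.SeparableSpace E] [Infinite L] (T : C(K × L, ℝ) →ₗ[ℝ] E)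
    (hinj : Function.Injective T)
    (hsup : ∀ f g, T (f ⊔ g) = T f ⊔ T g) (hinf : ∀ f g, T (f ⊓ g) = T f ⊓ T g)
    (hcl : ∀ y, 0 ≤ y → y ≤ T 1 → y ∈ range T) : TopologicalSpace.MetrizableSpace K := by
  obtain ⟨c, c0, hc⟩ := lower T hinj hsup hinf hcl
  have : SecondCountableTopology E := UniformSpace.secondCountable_of_separable E
  let φ : C(K, ℝ) → E := fun w => T (w.comp ContinuousMap.fst)
  have h1 : Continuous φ := (T_cont hsup).comp (ContinuousMap.continuous_precomp _)
  have h2 : AntilipschitzWith ⟨c⁻¹, by positivity⟩ φ := by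
    apply AntilipschitzWith.of_le_mul_dist
    intro f g
    rw [dist_eq_norm, dist_eq_norm]
    have := hc (f - g)
    have e : φ f - φ g = T ((f - g).comp ContinuousMap.fst) := by
      simp only [φ]; rw [← map_sub]; rfl
    rw [e]
    show _ ≤ c⁻¹ * _
    rwa [le_inv_mul_iff₀ c0]
  have : SecondCountableTopology C(K, ℝ) := (h2.isInducing h1).secondCountableTopology
  obtain ⟨D, hD, hD'⟩ := TopologicalSpace.exists_countable_dense C(K, ℝ)
  apply metr_of_sep D hD
  intro a b hr
  by_contra hab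
  obtain ⟨f, hf⟩ := urys hab
  have h2 : closure D ⊆ {f : C(K, ℝ) | f a = f b} :=
    closure_minimal (fun f hf => hr f hf)
      (isClosed_eq (continuous_eval_const a) (continuous_eval_const b))
  exact hf (h2 (hD' f))

theorem main [TopologicalSpace.SeparableSpace E] [Infinite K] [Infinite L]
    (T : C(K × L, ℝ) →ₗ[ℝ] E) (hinj : Function.Injective T)
    (hsup : ∀ f g, T (f ⊔ g) = T f ⊔ T g) (hinf : ∀ f g, T (f ⊓ g) = T f ⊓ T g)
    (hcl : ∀ y, 0 ≤ y → y ≤ T 1 → y ∈ range T) : TopologicalSpace.MetrizableSpace (K × L) := by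
  have h1 := metr T hinj hsup hinf hcl
  let S : C(L × K, ℝ) →ₗ[ℝ] C(K × L, ℝ) :=
    { toFun := fun f => f.comp ContinuousMap.prodSwap
      map_add' := fun _ _ => rfl
      map_smul' := fun _ _ => rfl }
  have h2 := metr (T ∘ₗ S) (hinj.comp fun f g h => by
      ext p; exact DFunLike.congr_fun h p.swap)
    (fun f g => hsup (S f) (S g)) (fun f g => hinf (S f) (S g)) (fun y a b => by
      obtain ⟨f, rfl⟩ := hcl y a b
      exact ⟨f.comp ContinuousMap.prodSwap, rfl⟩)
  infer_instance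

end Pool.Agent.H88.Sick
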