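import Pool.Agent.H88.Sick1

namespace Pool.Agent.H88.Sick
open Filter Topology Set
set_option linter.unusedSectionVars false

variable {K S : Type*} [TopologicalSpace K] [CompactSpace K] [T2Space K]
  [TopologicalSpace S] [CompactSpace S] [T2Space S] [TotallyDisconnectedSpace S]
  {E : Type*} [NormedAddCommGroup E] [Lattice E] [HasSolidNorm E] [IsOrderedAddMonoid E]
  [NormedSpace ℝ E] [CompleteSpace E]

theorem cut (h : C(S, ℝ)) {p q : ℝ} (hpq : p < q) : ∃ c : C(S, ℝ), ∀ z,
    (c z = 0 ∨ c z = 1) ∧ (h z ≤ p → c z = 1) ∧ (q ≤ h z → c z = 0) := by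
  obtain ⟨C, h1, h2, h3⟩ := exists_clopen_of_closed_subset_open
    (isClosed_le h.continuous (continuous_const (y := p)))
    (isOpen_lt h.continuous (continuous_const (y := q))) (fun z hz => lt_of_le_of_lt hz hpq)
  refine ⟨⟨C.indicator fun _ => 1, h1.continuous_indicator continuous_const⟩, fun z => ?_⟩
  simp only [ContinuousMap.coe_mk]
  refine ⟨?_, fun hz => indicator_of_mem (h2 hz) _, fun hz => indicator_of_notMem
    (fun hc => absurd (h3 hc) (not_lt.mpr hz)) _⟩
  by_cases hz : z ∈ C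
  · right; exact indicator_of_mem hz _
  · left; exact indicator_of_notMem hz _

theorem T_refl {T : C(K, ℝ) →ₗ[ℝ] E} (hinj : Function.Injective T)
    (hsup : ∀ f g, T (f ⊔ g) = T f ⊔ T g) {f g : C(K, ℝ)} (h : T f ≤ T g) : f ≤ g := by
  have := hsup f g
  rw [sup_eq_right.mpr h] at this
  exact sup_eq_right.mp (hinj this)

theorem sepa (π : C(K, S)) (T : C(K, ℝ) →ₗ[ℝ] E) (hinj : Function.Injective T)
    (hsup : ∀ f g, T (f ⊔ g) = T f ⊔ T g) (hinf : ∀ f g, T (f ⊓ g) = T f ⊓ T g)
    (hcl : ∀ y, 0 ≤ y → y ≤ T 1 → y ∈ range T) (f : C(K, ℝ))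
    (hf : T f ∈ closure (range fun g : C(S, ℝ) => T (g.comp π))) {x y : K} (hxy : f x < f y) :
    ∃ U : Set K, IsClopen U ∧ x ∈ U ∧ y ∉ U := by
  have hg : ∀ n : ℕ, ∃ g : C(S, ℝ), ‖T (g.comp π) - T f‖ < (1 / 4) ^ n := by
    intro n
    obtain ⟨_, ⟨g, rfl⟩, h⟩ := Metric.mem_closure_iff.mp hf ((1 / 4) ^ n) (by positivity)
    exact ⟨g, by rwa [dist_comm, dist_eq_norm] at h⟩
  choose g hg using hg
  obtain ⟨η, η0, hη⟩ : ∃ η : ℝ, 0 < η ∧ f y = f x + 5 * η := ⟨(f y - f x) / 5, by linarith, by ring⟩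
  choose v hv using fun n => cut (g n) (show f x + 2 * η < f x + 3 * η by linarith)
  choose γ hγ using fun n : ℕ => cut (-|g (n + 1) - g n|)
    (show -(η * (1 / 2) ^ (n + 1)) < -(η * (1 / 2) ^ (n + 1) / 2) by
      have : 0 < η * (1 / 2) ^ (n + 1) := by positivity
      linarith)
  let χ : ℕ → C(S, ℝ) := fun n => Nat.rec (v 0) (fun n c => c * (1 - γ n) + v (n + 1) * γ n) n
  have χs : ∀ n z, χ (n + 1) z = χ n z * (1 - γ n z) + v (n + 1) z * γ n z := fun n z => rfl
  have hχ : ∀ n z, (χ n z = 0 ∨ χ n z = 1) ∧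
      (g n z ≤ f x + 2 * η - η * (1 - (1 / 2) ^ n) → χ n z = 1) ∧
      (f x + 3 * η + η * (1 - (1 / 2) ^ n) ≤ g n z → χ n z = 0) := by
    intro n z
    induction n with
    | zero =>
      have e : χ 0 = v 0 := rfl
      simpa [e] using hv 0 z
    | succ n ih =>
      rw [χs]
      have p1 : (1 / 2 : ℝ) ^ (n + 1) ≤ 1 := pow_le_one₀ (by norm_num) (by norm_num)
      have p2 : 0 ≤ η * (1 - (1 / 2) ^ (n + 1)) := mul_nonneg η0.le (by linarith)
      rcases (hγ n z).1 with h | h
      · have h1 : |g (n + 1) z - g n z| < η * (1 / 2) ^ (n + 1) := by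
          by_contra hc
          have := (hγ n z).2.1 (by simpa using hc)
          rw [h] at this; exact zero_ne_one this
        rw [abs_lt] at h1
        have p3 : η * (1 / 2) ^ n = 2 * (η * (1 / 2) ^ (n + 1)) := by ring
        rw [h, sub_zero, mul_one, mul_zero, add_zero]
        exact ⟨ih.1, fun h2 => ih.2.1 (by linarith [h1.1]), fun h2 => ih.2.2 (by linarith [h1.2])⟩
      · rw [h, sub_self, mul_zero, mul_one, zero_add]
        exact ⟨(hv _ z).1, fun h2 => (hv _ z).2.1 (by linarith),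
          fun h2 => (hv _ z).2.2 (by linarith)⟩
  have hc : CauchySeq fun n => T ((χ n).comp π) := by
    apply cauchySeq_of_le_geometric (1 / 2) (8 / η) (by norm_num)
    intro n
    have e0 : 0 < η * (1 / 2) ^ (n + 1) := by positivity
    have h1 := T_norm hsup (f := (χ n).comp π - (χ (n + 1)).comp π)
      (g := (2 / (η * (1 / 2) ^ (n + 1))) • ((g (n + 1)).comp π - (g n).comp π)) (fun p => by
        show |χ n (π p) - χ (n + 1) (π p)| ≤
          |(2 / (η * (1 / 2) ^ (n + 1))) * (g (n + 1) (π p) - g n (π p))|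
        rw [χs]
        rcases (hγ n (π p)).1 with h | h
        · rw [h]; simp; positivity
        · have h1 : η * (1 / 2) ^ (n + 1) / 2 < |g (n + 1) (π p) - g n (π p)| := by
            by_contra hc
            have := (hγ n (π p)).2.2 (by simpa using hc)
            rw [h] at this; exact one_ne_zero this
          rw [h, sub_self, mul_zero, mul_one, zero_add, abs_mul, abs_of_pos (by positivity :
            0 < 2 / (η * (1 / 2) ^ (n + 1))), div_mul_eq_mul_div, le_div_iff₀ e0]
          have h2 : |χ n (π p) - v (n + 1) (π p)| ≤ 1 := by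
            rcases (hχ n (π p)).1 with a | a <;> rcases (hv (n + 1) (π p)).1 with b | b <;>
              rw [a, b] <;> norm_num
          nlinarith)
    rw [map_sub, map_smul, map_sub, norm_smul, Real.norm_eq_abs, abs_of_pos (by positivity)] at h1
    rw [dist_eq_norm]
    refine h1.trans ?_
    have h2 : ‖T ((g (n + 1)).comp π) - T ((g n).comp π)‖ ≤ 2 * (1 / 4) ^ n := by
      have := norm_sub_le (T ((g (n + 1)).comp π) - T f) (T ((g n).comp π) - T f)
      rw [sub_sub_sub_cancel_right] at this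
      have a := hg (n + 1)
      have b := hg n
      have c : (1 / 4 : ℝ) ^ (n + 1) ≤ (1 / 4) ^ n :=
        pow_le_pow_of_le_one (by norm_num) (by norm_num) (Nat.le_succ n)
      linarith
    refine (mul_le_mul_of_nonneg_left h2 (by positivity)).trans_eq ?_
    have : (1 / 4 : ℝ) ^ n = (1 / 2) ^ n * (1 / 2) ^ n := by rw [← mul_pow]; norm_num
    rw [this]
    field_simp
    ring
  obtain ⟨w, hw⟩ := cauchySeq_tendsto_of_complete hc
  have c01 : ∀ n z, 0 ≤ χ n z ∧ χ n z ≤ 1 := fun n z => by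
    rcases (hχ n z).1 with h | h <;> rw [h] <;> norm_num
  obtain ⟨c, rfl⟩ := hcl w
    (ge_of_tendsto' hw fun n => by
      simpa using T_mono hsup (f := 0) (g := (χ n).comp π) fun p => (c01 n (π p)).1)
    (le_of_tendsto' hw fun n => T_mono hsup fun p => (c01 n (π p)).2)
  have hgt : Tendsto (fun n => T ((g n).comp π)) atTop (𝓝 (T f)) := by
    rw [tendsto_iff_norm_sub_tendsto_zero]
    exact squeeze_zero (fun _ => norm_nonneg _) (fun n => (hg n).le)
      (tendsto_pow_atTop_nhds_zero_of_lt_one (by norm_num) (by norm_num))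
  have p0 : ∀ n : ℕ, η * (1 - (1 / 2) ^ n) ≤ η := fun n => by
    have : 0 < η * (1 / 2) ^ n := by positivity
    linarith
  have a1 : c ⊓ (1 - c) ≤ 0 := by
    apply T_refl hinj hsup
    rw [hinf, map_sub, map_zero]
    apply le_of_tendsto' (hw.inf_nhds (hw.const_sub (T 1)))
    intro n
    rw [← map_sub, ← hinf, ← map_zero T]
    apply T_mono hsup
    intro p
    show min (χ n (π p)) (1 - χ n (π p)) ≤ 0
    rcases (hχ n (π p)).1 with h | h <;> rw [h] <;> norm_num
  have a2 : ((f x + η) • (1 : C(K, ℝ)) - f) ⊓ 1 ≤ c := by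
    apply T_refl hinj hsup
    rw [hinf, map_sub]
    apply le_of_tendsto_of_tendsto' ((hgt.const_sub _).inf_nhds tendsto_const_nhds) hw
    intro n
    rw [← map_sub, ← hinf]
    apply T_mono hsup
    intro p
    show min ((f x + η) * 1 - g n (π p)) 1 ≤ χ n (π p)
    by_cases h : g n (π p) ≤ f x + η
    · rw [(hχ n (π p)).2.1 (by linarith [p0 n])]; exact min_le_right _ _
    · exact (min_le_left _ _).trans (by linarith [(c01 n (π p)).1, not_le.mp h])
  have a3 : (f - (f x + 4 * η) • (1 : C(K, ℝ))) ⊓ 1 ≤ 1 - c := by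
    apply T_refl hinj hsup
    rw [hinf, map_sub, map_sub]
    apply le_of_tendsto_of_tendsto' ((hgt.sub_const _).inf_nhds tendsto_const_nhds)
      (hw.const_sub (T 1))
    intro n
    rw [← map_sub, ← hinf, ← map_sub]
    apply T_mono hsup
    intro p
    show min (g n (π p) - (f x + 4 * η) * 1) 1 ≤ 1 - χ n (π p)
    by_cases h : f x + 4 * η ≤ g n (π p)
    · rw [(hχ n (π p)).2.2 (by linarith [p0 n]), sub_zero]; exact min_le_right _ _
    · exact (min_le_left _ _).trans (by linarith [(c01 n (π p)).2, not_le.mp h])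
  have b1 : ∀ p, c p ≤ 0 ∨ 1 ≤ c p := fun p => by
    have : min (c p) (1 - c p) ≤ 0 := a1 p
    rcases min_le_iff.mp this with h | h
    · exact Or.inl h
    · exact Or.inr (by linarith)
  have b2 : min ((f x + η) * 1 - f x) 1 ≤ c x := a2 x
  have b3 : min (f y - (f x + 4 * η) * 1) 1 ≤ 1 - c y := a3 y
  refine ⟨{p | 0 < c p}, ⟨?_, isOpen_lt continuous_const c.continuous⟩, ?_, ?_⟩
  · have : {p | 0 < c p} = {p | 1 ≤ c p} := by
      ext p
      simp only [mem_ofPred_eq]
      constructor
      · intro h; rcases b1 p with h' | h' <;> linarith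
      · intro h; linarith
    rw [this]
    exact isClosed_le continuous_const c.continuous
  · exact lt_of_lt_of_le (lt_min (by linarith) one_pos) b2
  · intro h
    have h1 : 0 < c y := h
    have h2 := lt_of_lt_of_le (lt_min (by linarith) one_pos) b3
    rcases b1 y with h' | h' <;> linarith

end Pool.Agent.H88.Sick
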