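import Pool.Agent.H88.Sick2
import Pool.Agent.H88.SickDefs

namespace Pool.Agent.H88.Sick
open Filter Topology Set TopologicalSpace
set_option linter.unusedSectionVars false

universe u v

variable {K : Type u} [TopologicalSpace K] [CompactSpace K] [T2Space K]

noncomputable def pi (K : Type u) [TopologicalSpace K] : C(K, {φ : Clopens K → Bool // IsUlt φ}) :=
  ⟨fun x => ⟨fun U => (U : Set K).boolIndicator x, by
      refine ⟨by simp [← mem_iff_boolIndicator], by simp [← notMem_iff_boolIndicator],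
        fun a b => ⟨?_, ?_⟩⟩
      · rw [Bool.eq_iff_iff]; simp [← mem_iff_boolIndicator]
      · rw [Bool.eq_iff_iff]; simp [← mem_iff_boolIndicator]⟩,
    Continuous.subtype_mk (continuous_pi fun U =>
      (continuous_boolIndicator_iff_isClopen _).mpr U.isClopen) _⟩

theorem pi_surj : Function.Surjective (pi K) := by
  rintro ⟨φ, h1, h2, h3⟩
  have : Nonempty {U : Clopens K // φ U = true} := ⟨⟨⊤, h1⟩⟩
  obtain ⟨x, hx⟩ := IsCompact.nonempty_iInter_of_directed_nonempty_isCompact_isClosed
    (fun U : {U : Clopens K // φ U = true} => (U.1 : Set K))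
    (fun a b => ⟨⟨a.1 ⊓ b.1, by rw [(h3 _ _).1, a.2, b.2]; rfl⟩, inter_subset_left,
      inter_subset_right⟩)
    (fun a => by
      rw [nonempty_iff_ne_empty]
      intro h
      have h4 : a.1 = ⊥ := Clopens.ext h
      have := a.2
      rw [h4, h2] at this
      exact Bool.false_ne_true this)
    (fun a => a.1.isClosed.isCompact) (fun a => a.1.isClosed)
  refine ⟨x, Subtype.ext (funext fun U => ?_)⟩
  show (U : Set K).boolIndicator x = φ U
  cases h : φ U
  · rw [← notMem_iff_boolIndicator]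
    have h4 := (h3 U Uᶜ).2
    rw [sup_compl_eq_top, h1, h, Bool.false_or] at h4
    exact mem_iInter.mp hx ⟨Uᶜ, h4.symm⟩
  · rw [← mem_iff_boolIndicator]
    exact mem_iInter.mp hx ⟨U, h⟩

theorem pi_sep {x y : K} (h : pi K x = pi K y) {U : Set K} (hU : IsClopen U) (hx : x ∈ U) :
    y ∈ U := by
  have : U.boolIndicator x = U.boolIndicator y := congrFun (congrArg Subtype.val h) ⟨U, hU⟩
  rw [mem_iff_boolIndicator] at hx ⊢
  rw [← this, hx]

theorem st_compact : CompactSpace {φ : Clopens K → Bool // IsUlt φ} :=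
  pi_surj.compactSpace (pi K).continuous

theorem stone (H : IsSick.{u, v} K) : IsSick.{u, v} {φ : Clopens K → Bool // IsUlt φ} := by
  obtain ⟨E, _, _, _, _, _, _, _, _, x, T, hx, hinj, hsup, hinf, hran, h1⟩ := H
  have := st_compact (K := K)
  have hcl : ∀ y, 0 ≤ y → y ≤ T 1 → y ∈ range T := fun y a b => by
    rw [hran]
    exact ⟨1, one_pos, by rwa [abs_of_nonneg a, one_smul, ← h1]⟩
  let R : C({φ : Clopens K → Bool // IsUlt φ}, ℝ) →ₗ[ℝ] E := T ∘ₗ
    { toFun := fun g => g.comp (pi K)
      map_add' := fun _ _ => rfl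
      map_smul' := fun _ _ => rfl }
  have hR : ∀ g, R g = T (g.comp (pi K)) := fun g => rfl
  have Rsup : ∀ f g, R (f ⊔ g) = R f ⊔ R g := fun f g => hsup (f.comp (pi K)) (g.comp (pi K))
  have Rinf : ∀ f g, R (f ⊓ g) = R f ⊓ R g := fun f g => hinf (f.comp (pi K)) (g.comp (pi K))
  let F : Submodule ℝ E := (LinearMap.range R).topologicalClosure
  have hF : ∀ y, y ∈ F ↔ y ∈ closure (range R) := fun y => Iff.rfl
  have Psup : ∀ ⦃a b : E⦄, a ∈ F → b ∈ F → a ⊔ b ∈ F := fun a b ha hb =>
    map_mem_closure₂ continuous_sup ha hb (by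
      rintro _ ⟨f, rfl⟩ _ ⟨g, rfl⟩
      exact ⟨f ⊔ g, Rsup f g⟩)
  have Pinf : ∀ ⦃a b : E⦄, a ∈ F → b ∈ F → a ⊓ b ∈ F := fun a b ha hb =>
    map_mem_closure₂ continuous_inf ha hb (by
      rintro _ ⟨f, rfl⟩ _ ⟨g, rfl⟩
      exact ⟨f ⊓ g, Rinf f g⟩)
  have hm : ∀ g, R g ∈ F := fun g => subset_closure ⟨g, rfl⟩
  have : SecondCountableTopology E := UniformSpace.secondCountable_of_separable E
  let : Lattice F := Subtype.lattice Psup Pinf
  have R1 : R 1 = x := h1
  refine ⟨F, inferInstance, inferInstance, ⟨fun a b h => HasSolidNorm.solid (α := E) h⟩,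
    { add_le_add_left := fun a b h c => add_le_add_left (α := E) h c.1 }, inferInstance,
    ⟨fun a ha b c h => smul_le_smul_of_nonneg_left (β := E) h ha⟩,
    (Submodule.isClosed_topologicalClosure _).completeSpace_coe, inferInstance,
    ⟨x, R1 ▸ hm 1⟩, R.codRestrict F hm, hx, fun f g h => ?_, fun f g => Subtype.ext (Rsup f g),
    fun f g => Subtype.ext (Rinf f g), ?_, Subtype.ext R1⟩
  · have h2 := hinj (congrArg Subtype.val h)
    ext z
    obtain ⟨p, rfl⟩ := pi_surj z
    exact DFunLike.congr_fun h2 p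
  · ext ⟨y, hy⟩
    constructor
    · rintro ⟨g, hg⟩
      have h2 : y ∈ range T := ⟨g.comp (pi K), congrArg Subtype.val hg⟩
      rw [hran] at h2
      exact h2
    · intro h
      have h2 : y ∈ range T := by rw [hran]; exact h
      obtain ⟨f, rfl⟩ := h2
      have h3 : Function.FactorsThrough f (pi K) := by
        intro a b hab
        by_contra hc
        rcases lt_or_gt_of_ne hc with h4 | h4
        · obtain ⟨U, a1, a2, a3⟩ := sepa (pi K) T hinj hsup hinf hcl f hy h4
          exact a3 (pi_sep hab a1 a2)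
        · obtain ⟨U, a1, a2, a3⟩ := sepa (pi K) T hinj hsup hinf hcl f hy h4
          exact a3 (pi_sep hab.symm a1 a2)
      have hq : IsQuotientMap (pi K) :=
        (pi K).continuous.isClosedMap.isQuotientMap (pi K).continuous pi_surj
      refine ⟨hq.lift f h3, Subtype.ext ?_⟩
      show T ((hq.lift f h3).comp (pi K)) = T f
      rw [hq.lift_comp]

end Pool.Agent.H88.Sick
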