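import Pool.Agent.H88.SkelDefs

namespace Pool.Agent.H88.Skel
open Set Filter Topology

theorem skel {X : Type} [NormedAddCommGroup X] [NormedSpace ℝ X]
    [TopologicalSpace.SeparableSpace X] (A : Submodule ℝ (StrongDual ℝ X)) (z : StrongDual ℝ X)
    (h : ∀ a ∈ A, (∀ x, z x = 0 → a x = 0) → a = 0) :
    ∃ (Γ : Type) (_ : PartialOrder Γ) (P : Γ → X →L[ℝ] X), IsSkel P ∧
      ∃ σ : StrongDual ℝ X → Γ, (∀ f, f ∘L P (σ f) = f) ∧ ∀ a ∈ A, ∀ x, z (P (σ a) x) = 0 := by
  classical
  have h1 : ∀ a : A, ∃ x, z x = 0 ∧ ∀ y, a.1 y * a.1 x = a.1 y := by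
    intro a
    by_cases h0 : a.1 = 0
    · exact ⟨0, map_zero _, fun y => by simp [h0]⟩
    · have := mt (h a.1 a.2) h0
      push Not at this
      obtain ⟨x, a1, a2⟩ := this
      exact ⟨(a.1 x)⁻¹ • x, by simp [a1], fun y => by simp [a2]⟩
  choose x hx hx' using h1
  let o : PartialOrder (Option A) :=
    { le := fun s t => s = t ∨ t = none
      le_refl := fun _ => Or.inl rfl
      le_trans := by
        rintro a b c (rfl | rfl) h2
        · exact h2
        · rcases h2 with h2 | h2
          · exact Or.inr h2.symm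
          · exact Or.inr h2
      le_antisymm := by
        rintro a b (rfl | rfl) h2
        · rfl
        · rcases h2 with h2 | h2
          · exact h2.symm
          · exact h2 }
  let P : Option A → X →L[ℝ] X := fun s =>
    s.elim (ContinuousLinearMap.id ℝ X) fun a => a.1.smulRight (x a)
  have hP : ∀ s t : Option A, s ≤ t → P s = P s ∘L P t ∧ P s = P t ∘L P s := by
    rintro s t (rfl | rfl)
    · have : P s = P s ∘L P s := by
        rcases s with _ | a
        · rfl
        · ext y; simp [P, smul_smul, hx']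
      exact ⟨this, this⟩
    · exact ⟨rfl, rfl⟩
  refine ⟨Option A, o, P, ⟨fun s t => ⟨none, Or.inr rfl, Or.inr rfl⟩,
    fun s => TopologicalSpace.IsSeparable.of_separableSpace _, hP, fun s hs => ?_, ?_⟩,
    fun f => if hf : f ∈ A then some ⟨f, hf⟩ else none, fun f => ?_, fun a ha y => ?_⟩
  · obtain ⟨m, hm⟩ : ∃ m, ∀ n, s n ≤ s m := by
      by_cases h2 : ∃ m, s m = none
      · obtain ⟨m, hm⟩ := h2
        exact ⟨m, fun n => Or.inr hm⟩
      · refine ⟨0, fun n => ?_⟩
        rcases hs (Nat.zero_le n) with h3 | h3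
        · exact Or.inl h3.symm
        · exact absurd ⟨n, h3⟩ h2
    refine ⟨s m, IsGreatest.isLUB ⟨⟨m, rfl⟩, by rintro _ ⟨n, rfl⟩; exact hm n⟩, ?_⟩
    have h2 : ⋃ n, range (P (s n)) = {y | P (s m) y = y} := by
      ext y
      simp only [mem_iUnion, mem_range, mem_ofPred_eq]
      constructor
      · rintro ⟨n, w, rfl⟩
        exact (DFunLike.congr_fun (hP _ _ (hm n)).2 w).symm
      · intro hy; exact ⟨m, y, hy⟩
    rw [h2, (isClosed_eq (P (s m)).continuous continuous_id').closure_eq]
    ext y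
    constructor
    · rintro ⟨w, rfl⟩
      exact (DFunLike.congr_fun (hP _ _ le_rfl).2 w).symm
    · intro hy; exact ⟨y, hy⟩
  · exact eq_univ_of_forall fun y => mem_iUnion.mpr ⟨none, y, rfl⟩
  · by_cases hf : f ∈ A
    · ext y
      simpa [P, hf] using hx' ⟨f, hf⟩ y
    · simp only [hf, dif_neg, not_false_eq_true]; rfl
  · simp [P, ha, hx]

theorem main : ∃ (X : Type) (_ : NormedAddCommGroup X) (_ : NormedSpace ℝ X) (_ : CompleteSpace X)
    (Γ : Type) (_ : PartialOrder Γ) (P : Γ → X →L[ℝ] X), IsSkel P ∧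
      ∃ σ : StrongDual ℝ X → Γ, (∀ f, f ∘L P (σ f) = f) ∧
        ∃ A : Submodule ℝ (StrongDual ℝ X), ∃ z : StrongDual ℝ X, z ≠ 0 ∧
          (∀ a ∈ A, ∀ x, z (P (σ a) x) = 0) ∧
          StrongDual.toWeakDual z ∈ closure (StrongDual.toWeakDual '' (A : Set (StrongDual ℝ X))) := by
  let g : ℕ → C(unitInterval, ℝ) := fun n => ⟨fun t => (1 - t.1) ^ n, by fun_prop⟩
  let A : Submodule ℝ (StrongDual ℝ C(unitInterval, ℝ)) :=
    { carrier := {a | Tendsto (fun n => a (g n)) atTop (𝓝 0)}
      add_mem' := fun {a b} ha hb => by simpa using Tendsto.add ha hb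
      zero_mem' := by simp
      smul_mem' := fun c a ha => by simpa using Tendsto.const_mul c ha }
  let z : StrongDual ℝ C(unitInterval, ℝ) := ContinuousMap.evalCLM ℝ 0
  obtain ⟨Γ, _, P, h1, σ, h2, h3⟩ := skel A z (fun a ha h => by
    have e : ∀ f : C(unitInterval, ℝ), a f = f 0 * a 1 := fun f => by
      have := h (f - f 0 • (1 : C(unitInterval, ℝ))) (by simp [z])
      rwa [map_sub, map_smul, smul_eq_mul, sub_eq_zero] at this
    have h4 : Tendsto (fun n => a (g n)) atTop (𝓝 0) := ha
    have h5 : a 1 = 0 := by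
      refine tendsto_nhds_unique (tendsto_const_nhds.congr fun n => ?_) h4
      rw [e (g n)]; simp [g]
    ext f
    rw [e, h5]; simp)
  refine ⟨_, inferInstance, inferInstance, inferInstance, Γ, inferInstance, P, h1, σ, h2, A, z,
    fun h => ?_, h3, ?_⟩
  · have := DFunLike.congr_fun h 1
    simp [z] at this
  · let t : ℕ → unitInterval := fun n => ⟨1 / ((n : ℝ) + 1), by positivity, by
      rw [div_le_one (by positivity)]; linarith [Nat.cast_nonneg (α := ℝ) n]⟩
    have ht : Tendsto t atTop (𝓝 0) := by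
      rw [tendsto_subtype_rng]
      exact tendsto_one_div_add_atTop_nhds_zero_nat
    apply mem_closure_of_tendsto (b := atTop)
      (f := fun n => StrongDual.toWeakDual (ContinuousMap.evalCLM ℝ (t n)))
    · rw [tendsto_iff_forall_eval_tendsto_topDualPairing]
      intro f
      exact (f.continuous.tendsto 0).comp ht
    · refine Eventually.of_forall fun n => ⟨_, ?_, rfl⟩
      have h4 : 0 < 1 / ((n : ℝ) + 1) := by positivity
      exact tendsto_pow_atTop_nhds_zero_of_lt_one (r := 1 - (t n).1) (sub_nonneg.mpr (t n).2.2)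
        (by simpa [t] using h4)

end Pool.Agent.H88.Skel
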