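import Mathlib

namespace Pool.Agent.H88.Skel
open Set

/-- projectional skeleton indexed by `Γ` -/
def IsSkel {X Γ : Type} [NormedAddCommGroup X] [NormedSpace ℝ X] [PartialOrder Γ]
    (P : Γ → X →L[ℝ] X) : Prop :=
  (∀ s t : Γ, ∃ u, s ≤ u ∧ t ≤ u) ∧ (∀ s, TopologicalSpace.IsSeparable (range (P s))) ∧
    (∀ s t, s ≤ t → P s = P s ∘L P t ∧ P s = P t ∘L P s) ∧
    (∀ s : ℕ → Γ, Monotone s →
      ∃ t, IsLUB (range s) t ∧ range (P t) = closure (⋃ n, range (P (s n)))) ∧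
    ⋃ s, range (P s) = univ

end Pool.Agent.H88.Skel
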