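import Mathlib

open Filter Topology Complex

namespace Pool.Agent.H88.Spi

lemma psi (r q : ℝ) (h1 : 1 / 2 ≤ r ^ 2) (h2 : r ^ 2 ≤ 2) (hq : 20 * r * q = 1 - r ^ 2) :
    ∀ᶠ θ in 𝓝 (0 : ℝ), 0 < (1 + r ^ 2) * Real.exp (-(θ / 10)) - (r ^ 2 + q ^ 2) ∧
      (r * (1 - q ^ 2) * Real.cos θ + q * (1 + r ^ 2) * Real.sin θ) ^ 2 ≤
        ((1 + r ^ 2) * Real.exp (-(θ / 10)) - (r ^ 2 + q ^ 2)) *
          ((1 + r ^ 2) * Real.exp (θ / 10) - (1 + q ^ 2 * r ^ 2)) := by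
  have q1 : q ^ 2 ≤ 1 / 200 := by
    have : 400 * r ^ 2 * q ^ 2 = (1 - r ^ 2) ^ 2 := by rw [← hq]; ring
    nlinarith [sq_nonneg q]
  have q0 := sq_nonneg q
  refine Eventually.and ?_ ?_
  · refine Continuous.continuousAt (by fun_prop) |>.eventually (lt_mem_nhds ?_)
    simp
    linarith
  obtain ⟨P, hP⟩ : ∃ P, P = 1 + r ^ 2 := ⟨_, rfl⟩
  obtain ⟨A, hA⟩ : ∃ A, A = r ^ 2 + q ^ 2 := ⟨_, rfl⟩
  obtain ⟨B, hB⟩ : ∃ B, B = 1 + q ^ 2 * r ^ 2 := ⟨_, rfl⟩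
  obtain ⟨C, hC⟩ : ∃ C, C = r * (1 - q ^ 2) := ⟨_, rfl⟩
  obtain ⟨S, hS⟩ : ∃ S, S = q * P := ⟨_, rfl⟩
  rw [← hP, ← hA, ← hB, ← hC, ← hS]
  have e1 : ∀ θ : ℝ, HasDerivAt (fun θ : ℝ => Real.exp (θ / 10)) (Real.exp (θ / 10) / 10) θ :=
    fun θ => ((hasDerivAt_id θ).div_const 10).exp.congr_deriv (by simp; ring)
  have e2 : ∀ θ : ℝ, HasDerivAt (fun θ : ℝ => Real.exp (-(θ / 10))) (-Real.exp (-(θ / 10)) / 10) θ :=
    fun θ => ((hasDerivAt_id θ).div_const 10).neg.exp.congr_deriv (by simp; ring)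
  have c1 : ∀ θ : ℝ, HasDerivAt (fun θ => C * Real.cos θ + S * Real.sin θ)
      (-C * Real.sin θ + S * Real.cos θ) θ := fun θ =>
    (((Real.hasDerivAt_cos θ).const_mul C).add ((Real.hasDerivAt_sin θ).const_mul S)).congr_deriv
      (by ring)
  have c2 : ∀ θ : ℝ, HasDerivAt (fun θ => -C * Real.sin θ + S * Real.cos θ)
      (-C * Real.cos θ - S * Real.sin θ) θ := fun θ =>
    (((Real.hasDerivAt_sin θ).const_mul (-C)).add ((Real.hasDerivAt_cos θ).const_mul S)).congr_deriv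
      (by ring)
  have d1 : ∀ θ : ℝ, HasDerivAt (fun θ => P ^ 2 + A * B - A * P * Real.exp (θ / 10) -
      B * P * Real.exp (-(θ / 10)) - (C * Real.cos θ + S * Real.sin θ) *
        (C * Real.cos θ + S * Real.sin θ))
      (B * P / 10 * Real.exp (-(θ / 10)) - A * P / 10 * Real.exp (θ / 10) -
        2 * ((C * Real.cos θ + S * Real.sin θ) * (-C * Real.sin θ + S * Real.cos θ))) θ := fun θ =>
    (((((e1 θ).const_mul (A * P)).const_sub (P ^ 2 + A * B)).sub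
      ((e2 θ).const_mul (B * P))).sub ((c1 θ).mul (c1 θ))).congr_deriv (by ring)
  have d2 := ((((e2 0).const_mul (B * P / 10)).sub ((e1 0).const_mul (A * P / 10))).sub
    (((c1 0).mul (c2 0)).const_mul 2)).deriv
  have m := isLocalMin_of_deriv_deriv_pos (x₀ := 0) (f := fun θ => P ^ 2 + A * B -
    A * P * Real.exp (θ / 10) - B * P * Real.exp (-(θ / 10)) - (C * Real.cos θ + S * Real.sin θ) *
      (C * Real.cos θ + S * Real.sin θ)) (by
      rw [funext fun θ => (d1 θ).deriv]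
      refine lt_of_lt_of_eq ?_ d2.symm
      simp only [zero_div, neg_zero, Real.exp_zero, Real.cos_zero, Real.sin_zero]
      have a1 : A * P ≤ 7 := by rw [hA, hP]; nlinarith
      have a2 : B * P ≤ 7 := by
        have : B ≤ 2 := by rw [hB]; nlinarith
        have : 0 ≤ B := by rw [hB]; positivity
        rw [hP]
        nlinarith
      have a3 : S ^ 2 ≤ 1 / 20 := by
        have : P ^ 2 ≤ 9 := by rw [hP]; nlinarith
        rw [hS, mul_pow]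
        nlinarith
      have a4 : 2 / 5 ≤ C ^ 2 := by
        have : 9 / 10 ≤ (1 - q ^ 2) ^ 2 := by nlinarith
        rw [hC, mul_pow]
        nlinarith
      nlinarith) (by
      rw [(d1 0).deriv]
      simp only [zero_div, neg_zero, Real.exp_zero, Real.cos_zero, Real.sin_zero, hA, hB, hC, hS]
      linear_combination (-(P * (1 - q ^ 2) / 10)) * hq) (d1 0).continuousAt
  filter_upwards [m] with θ h
  have x : Real.exp (-(θ / 10)) * Real.exp (θ / 10) = 1 := by rw [← Real.exp_add]; simp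
  simp only [zero_div, neg_zero, Real.exp_zero, Real.cos_zero, Real.sin_zero] at h
  have z : P ^ 2 + A * B - A * P * 1 - B * P * 1 - (C * 1 + S * 0) * (C * 1 + S * 0) = 0 := by
    rw [hP, hA, hB, hC]
    ring
  rw [z] at h
  have : (P * Real.exp (-(θ / 10)) - A) * (P * Real.exp (θ / 10) - B) = P ^ 2 + A * B -
      A * P * Real.exp (θ / 10) - B * P * Real.exp (-(θ / 10)) := by
    linear_combination P ^ 2 * x
  rw [this]
  nlinarith

lemma key (r q : ℝ) (h1 : 1 / 2 ≤ r ^ 2) (h2 : r ^ 2 ≤ 2) (hq : 20 * r * q = 1 - r ^ 2) :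
    ∀ᶠ θ : ℝ in 𝓝 0, ∀ x : ℝ, ‖((r : ℂ) - q * I) * x * exp (θ * I) + (1 + q * r * I)‖ ^ 2 ≤
      (1 + r ^ 2) * (Real.exp (θ / 10) + x ^ 2 * Real.exp (-(θ / 10))) := by
  filter_upwards [psi r q h1 h2 hq] with θ ⟨a, b⟩ x
  rw [Complex.sq_norm, normSq_apply, exp_mul_I, ← ofReal_cos, ← ofReal_sin]
  simp only [add_re, mul_re, sub_re, ofReal_re, I_re, ofReal_im, I_im, mul_im, sub_im, add_im,
    one_re, one_im]
  have t := Real.sin_sq_add_cos_sq θ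
  obtain ⟨c2, e2⟩ : ∃ c, c = (1 + r ^ 2) * Real.exp (-(θ / 10)) - (r ^ 2 + q ^ 2) := ⟨_, rfl⟩
  obtain ⟨c0, e0⟩ : ∃ c, c = (1 + r ^ 2) * Real.exp (θ / 10) - (1 + q ^ 2 * r ^ 2) := ⟨_, rfl⟩
  obtain ⟨c1, e1⟩ : ∃ c, c = r * (1 - q ^ 2) * Real.cos θ + q * (1 + r ^ 2) * Real.sin θ :=
    ⟨_, rfl⟩
  rw [← e2] at a
  rw [← e2, ← e1, ← e0] at b
  have : 0 ≤ c2 * x ^ 2 - 2 * c1 * x + c0 := by
    by_contra h
    nlinarith [sq_nonneg (c2 * x - c1)]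
  rw [e2, e1, e0] at this
  have u : (r ^ 2 + q ^ 2) * x ^ 2 * (Real.sin θ ^ 2 + Real.cos θ ^ 2) = (r ^ 2 + q ^ 2) * x ^ 2 := by
    rw [t, mul_one]
  nlinarith

end Pool.Agent.H88.Spi
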