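import Pool.Agent.H88.Spi1

open Filter Topology Complex Set Real

namespace Pool.Agent.H88.Spi

abbrev V := Fin 2 → ℂ

noncomputable def tau (z : ℂ) : ℂ := z * exp (((-10 * Real.log ‖z‖ : ℝ) : ℂ) * I)

def C : Set V := {y | tau (y 0 / y 1) ∈ slitPlane}

noncomputable def ch (y : V) : ℝ := Real.cosh (arg (tau (y 0 / y 1)) / 10)

noncomputable def h1 (y : V) : ℝ := √(2 * ‖y 0‖ * ‖y 1‖ * ch y)

noncomputable def H (y : V) : ℝ := ‖y 0‖ + ‖y 1‖ + h1 y

def D : Set V := {y | y ∈ C ∧ H y < 1}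

lemma tau_norm (z : ℂ) : ‖tau z‖ = ‖z‖ := by rw [tau, norm_mul, norm_exp_ofReal_mul_I, mul_one]

lemma tau_ne {z : ℂ} : tau z ≠ 0 ↔ z ≠ 0 := by rw [← norm_ne_zero_iff, tau_norm, norm_ne_zero_iff]

lemma C_ne {y : V} (h : y ∈ C) : y 0 ≠ 0 ∧ y 1 ≠ 0 :=
  div_ne_zero_iff.1 (tau_ne.1 (slitPlane_ne_zero h))

lemma tau_mul {z w : ℂ} (hz : z ≠ 0) (hw : w ≠ 0) : tau (z * w) = tau z * tau w := by
  simp only [tau, norm_mul, Real.log_mul (norm_ne_zero_iff.2 hz) (norm_ne_zero_iff.2 hw)]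
  rw [mul_mul_mul_comm, ← Complex.exp_add]
  push_cast
  ring_nf

lemma tau_cont {z : ℂ} (hz : z ≠ 0) : ContinuousAt tau z := by
  have := norm_ne_zero_iff.2 hz
  unfold tau
  fun_prop (disch := assumption)

lemma quot_cont {y : V} (h0 : y 0 ≠ 0) (h1 : y 1 ≠ 0) :
    ContinuousAt (fun y : V => tau (y 0 / y 1)) y :=
  ContinuousAt.comp (f := fun y : V => y 0 / y 1) (tau_cont (div_ne_zero h0 h1))
    (by fun_prop (disch := assumption))

lemma C_open : IsOpen C := isOpen_iff_mem_nhds.2 fun _ h =>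
  (quot_cont (C_ne h).1 (C_ne h).2).preimage_mem_nhds (isOpen_slitPlane.mem_nhds h)

lemma smul_quot {t : ℂ} (ht : t ≠ 0) (y : V) : (t • y) 0 / (t • y) 1 = y 0 / y 1 := by
  simp [mul_div_mul_left _ _ ht]

lemma C_smul {t : ℂ} (ht : t ≠ 0) {y : V} : t • y ∈ C ↔ y ∈ C := by
  simp only [C, mem_ofPred_eq, smul_quot ht]

lemma one_le_ch (y : V) : 1 ≤ ch y := Real.one_le_cosh _

lemma ch_le (y : V) : ch y ≤ Real.cosh (π / 10) := by
  refine Real.cosh_le_cosh.2 ?_
  rw [abs_div, abs_div, abs_of_pos pi_pos]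
  exact div_le_div_of_nonneg_right (abs_arg_le_pi _) (abs_nonneg _)

lemma ch_lt {y : V} (h : y ∈ C) : ch y < Real.cosh (π / 10) := by
  refine Real.cosh_lt_cosh.2 ?_
  rw [abs_div, abs_div, abs_of_pos pi_pos]
  exact div_lt_div_of_pos_right (abs_lt.2 ⟨neg_pi_lt_arg _,
    (arg_le_pi _).lt_of_ne (slitPlane_arg_ne_pi h)⟩) (by norm_num)

lemma H_smul (t : ℂ) (y : V) : H (t • y) = ‖t‖ * H y := by
  rcases eq_or_ne t 0 with rfl | ht
  · simp [H, h1]
  simp only [H, h1, ch, smul_quot ht]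
  simp only [Pi.smul_apply, smul_eq_mul, norm_mul]
  rw [show ∀ c : ℝ, 2 * (‖t‖ * ‖y 0‖) * (‖t‖ * ‖y 1‖) * c = ‖t‖ ^ 2 * (2 * ‖y 0‖ * ‖y 1‖ * c) from
    fun c => by ring, Real.sqrt_mul (sq_nonneg _), Real.sqrt_sq (norm_nonneg _)]
  ring

lemma h1_nn (y : V) : 0 ≤ h1 y := Real.sqrt_nonneg _

lemma H_pos {y : V} (h : y ∈ C) : 0 < H y := by
  have := norm_pos_iff.2 (C_ne h).1
  have := h1_nn y
  unfold H
  positivity

lemma H_cont : Continuous H := by
  refine Continuous.add (by fun_prop) (continuous_iff_continuousAt.2 fun y => ?_)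
  by_cases h : y 0 ≠ 0 ∧ y 1 ≠ 0
  · have c : ContinuousAt ch y := by
      have a := (InnerProductGeometry.continuousAt_angle (x := (tau (y 0 / y 1), (1 : ℂ)))
        (tau_ne.2 (div_ne_zero h.1 h.2)) one_ne_zero).comp
        (f := fun y : V => (tau (y 0 / y 1), (1 : ℂ))) ((quot_cont h.1 h.2).prodMk continuousAt_const)
      refine (Real.continuous_cosh.continuousAt.comp (a.div_const 10)).congr ?_
      filter_upwards [(quot_cont h.1 h.2).eventually_ne (tau_ne.2 (div_ne_zero h.1 h.2))] with w hw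
      simp only [Function.comp, angle_one_right hw, ch]
      rw [← Real.cosh_abs (arg _ / 10), abs_div, Nat.abs_ofNat]
    unfold h1
    fun_prop
  · have z : 2 * ‖y 0‖ * ‖y 1‖ = 0 := by
      rcases not_and_or.1 h with h | h <;> simp [not_not.1 h]
    have c : Continuous fun w : V => √(2 * ‖w 0‖ * ‖w 1‖ * Real.cosh (π / 10)) := by fun_prop
    have t := c.tendsto y
    rw [z, zero_mul, Real.sqrt_zero] at t
    rw [ContinuousAt, h1, z, zero_mul, Real.sqrt_zero]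
    exact squeeze_zero h1_nn (fun w => Real.sqrt_le_sqrt
      (mul_le_mul_of_nonneg_left (ch_le w) (by positivity))) t

lemma D_open : IsOpen D := C_open.inter (isOpen_lt H_cont continuous_const)

noncomputable def E (s φ : ℝ) : ℂ := exp (s + (10 * s + φ : ℝ) * I)

lemma E_norm (s φ : ℝ) : ‖E s φ‖ = Real.exp s := by simp [E, norm_exp]

lemma tau_E (s φ : ℝ) : tau (E s φ) = (Real.exp s : ℂ) * (Complex.cos φ + Complex.sin φ * I) := by
  rw [tau, E_norm, Real.log_exp, E, ← Complex.exp_add, ← exp_mul_I, ofReal_exp, ← Complex.exp_add]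
  push_cast
  ring_nf

lemma arg_E (s : ℝ) {φ : ℝ} (h : φ ∈ Ioc (-π) π) : arg (tau (E s φ)) = φ := by
  rw [tau_E]
  exact arg_mul_cos_add_sin_mul_I (Real.exp_pos s) h

lemma E_eq {z : ℂ} (hz : z ≠ 0) : E (Real.log ‖z‖) (arg (tau z)) = z := by
  have a := norm_mul_exp_arg_mul_I (tau z)
  have b : exp (((-10 * Real.log ‖z‖ : ℝ) : ℂ) * I) ≠ 0 := exp_ne_zero _
  refine mul_right_cancel₀ b (Eq.trans ?_ a)
  rw [tau_norm, E, ← Complex.exp_add]
  nth_rewrite 4 [← Real.exp_log (norm_pos_iff.2 hz)]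
  rw [ofReal_exp, ← Complex.exp_add]
  push_cast
  ring_nf

noncomputable def par (p : ℂ × ℝ × ℝ) : V := exp p.1 • ![E p.2.1 p.2.2, 1]

lemma par_cont : Continuous par := by
  unfold par E
  fun_prop

lemma par_quot (p : ℂ × ℝ × ℝ) : par p 0 / par p 1 = E p.2.1 p.2.2 := by
  rw [par, smul_quot (exp_ne_zero _)]
  simp

lemma par_eq {y : V} (h0 : y 0 ≠ 0) (h1 : y 1 ≠ 0) :
    par (log (y 1), Real.log ‖y 0 / y 1‖, arg (tau (y 0 / y 1))) = y := by
  rw [par, E_eq (div_ne_zero h0 h1), exp_log h1]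
  ext i
  fin_cases i
  · simp [mul_div_cancel₀, h1]
  · simp

lemma C_conn : IsConnected C := by
  have : C = par '' (univ ×ˢ univ ×ˢ Ioo (-π) π) := by
    ext y
    refine ⟨fun h => ⟨_, ⟨trivial, trivial, neg_pi_lt_arg _,
      (arg_le_pi _).lt_of_ne (slitPlane_arg_ne_pi h)⟩, par_eq (C_ne h).1 (C_ne h).2⟩, ?_⟩
    rintro ⟨p, ⟨-, -, h⟩, rfl⟩
    rw [C, mem_ofPred_eq, par_quot, mem_slitPlane_iff_arg, arg_E _ ⟨h.1, h.2.le⟩]
    exact ⟨h.2.ne, tau_ne.2 (exp_ne_zero _)⟩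
  rw [this]
  exact (isConnected_univ.prod (isConnected_univ.prod
    (isConnected_Ioo (by linarith [pi_pos])))).image _ par_cont.continuousOn

lemma D_conn : IsConnected D := by
  have : D = (fun p : V × ℝ => ((p.2 / H p.1 : ℝ) : ℂ) • p.1) '' (C ×ˢ Ioo 0 1) := by
    ext y
    refine ⟨fun h => ⟨(y, H y), ⟨h.1, H_pos h.1, h.2⟩, by simp [(H_pos h.1).ne']⟩, ?_⟩
    rintro ⟨p, ⟨h, a, b⟩, rfl⟩
    have := H_pos h
    refine ⟨(C_smul (ofReal_ne_zero.2 (div_pos a this).ne')).2 h, ?_⟩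
    rwa [H_smul, norm_real, Real.norm_of_nonneg (div_pos a this).le, div_mul_cancel₀ _ this.ne']
  rw [this]
  refine (C_conn.prod (isConnected_Ioo one_pos)).image _ (ContinuousOn.smul
    (continuous_ofReal.comp_continuousOn (continuous_snd.continuousOn.div
      (H_cont.comp continuous_fst).continuousOn fun p h => (H_pos h.1).ne')) (by fun_prop))

lemma N_conn : IsConnected {y : V | y ≠ 0 ∧ y ∉ C} := by
  have c : IsConnected (par '' (univ ×ˢ univ ×ˢ {π})) :=
    (isConnected_univ.prod (isConnected_univ.prod isConnected_singleton)).image _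
      par_cont.continuousOn
  refine c.subset_closure ?_ fun y ⟨h, hy⟩ => ?_
  · rintro _ ⟨p, ⟨-, -, h⟩, rfl⟩
    refine ⟨fun h0 => ?_, fun hc => slitPlane_arg_ne_pi hc ?_⟩
    · simpa [par] using congrFun h0 1
    · rw [par_quot, arg_E _ ⟨by rw [h]; linarith [pi_pos], h.le⟩, h]
  have lim : Tendsto (fun s => E s π) atBot (𝓝 0) := by
    rw [tendsto_zero_iff_norm_tendsto_zero]
    simpa only [E_norm] using Real.tendsto_exp_atBot
  have lim' : Tendsto (fun s => (E s π)⁻¹) atTop (𝓝 0) := by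
    rw [tendsto_zero_iff_norm_tendsto_zero]
    simp only [norm_inv, E_norm]
    exact Real.tendsto_exp_atTop.inv_tendsto_atTop
  by_cases h0 : y 0 = 0
  · have h1 : y 1 ≠ 0 := fun h1 => h (by ext i; fin_cases i <;> simp [h0, h1])
    refine mem_closure_of_tendsto (f := fun s => par (log (y 1), s, π)) (b := atBot) ?_
      (Eventually.of_forall fun s => mem_image_of_mem _ ⟨trivial, trivial, rfl⟩)
    refine tendsto_pi_nhds.2 fun i => ?_
    fin_cases i
    · simpa [par, h0] using lim.const_mul (exp (log (y 1)))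
    · simp [par, exp_log h1]
  by_cases h1 : y 1 = 0
  · refine mem_closure_of_tendsto (f := fun s => par (log (y 0 / E s π), s, π)) (b := atTop) ?_
      (Eventually.of_forall fun s => mem_image_of_mem _ ⟨trivial, trivial, rfl⟩)
    have e : ∀ s, E s π ≠ 0 := fun s => exp_ne_zero _
    refine tendsto_pi_nhds.2 fun i => ?_
    fin_cases i
    · simp [par, exp_log (div_ne_zero h0 (e _)), e]
    · simp only [par, exp_log (div_ne_zero h0 (e _))]
      simpa [h1, div_eq_mul_inv] using lim'.const_mul (y 0)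
  refine subset_closure ⟨_, ⟨trivial, trivial, ?_⟩, par_eq h0 h1⟩
  by_contra hc
  exact hy (mem_slitPlane_iff_arg.2 ⟨hc, tau_ne.2 (div_ne_zero h0 h1)⟩)

end Pool.Agent.H88.Spi
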