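import Pool.Agent.H88.Spi2

open Filter Topology Complex Set Real

namespace Pool.Agent.H88.Spi

def L (a y : V) : ℂ := a 0 * y 0 + a 1 * y 1

lemma sup1 {z : V} (hz : z ∈ C) : ∃ a : V, L a z = h1 z ∧ ∀ᶠ y in 𝓝 z, ‖L a y‖ ≤ h1 y := by
  obtain ⟨hu, hv⟩ := C_ne hz
  have nu := norm_pos_iff.2 hu
  have nv := norm_pos_iff.2 hv
  obtain ⟨φ, hφ⟩ : ∃ φ, φ = arg (tau (z 0 / z 1)) := ⟨_, rfl⟩
  have p1 : -π < φ := hφ ▸ neg_pi_lt_arg _
  have p2 : φ < π := hφ ▸ (arg_le_pi _).lt_of_ne (slitPlane_arg_ne_pi hz)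
  obtain ⟨r, hr⟩ : ∃ r, r = Real.exp (-(φ / 10)) := ⟨_, rfl⟩
  have r0 : 0 < r := hr ▸ Real.exp_pos _
  have l2 := Real.log_two_gt_d9
  have pi := Real.pi_lt_d2
  have rr : r ^ 2 = Real.exp (-(φ / 5)) := by rw [hr, sq, ← Real.exp_add]; ring_nf
  have r1 : 1 / 2 ≤ r ^ 2 := by
    rw [rr, one_div, ← Real.exp_log two_pos, ← Real.exp_neg]
    exact Real.exp_le_exp.2 (by linarith)
  have r2 : r ^ 2 ≤ 2 := by
    rw [rr, ← Real.exp_log two_pos]
    exact Real.exp_le_exp.2 (by linarith)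
  obtain ⟨q, hq⟩ : ∃ q, 20 * r * q = 1 - r ^ 2 := ⟨(1 - r ^ 2) / (20 * r), by field_simp⟩
  obtain ⟨k, k0, hk⟩ : ∃ k : ℝ, 0 ≤ k ∧ k ^ 2 * (r * (1 + r ^ 2)) = ‖z 0‖ * ‖z 1‖ :=
    ⟨√(‖z 0‖ * ‖z 1‖ / (r * (1 + r ^ 2))), Real.sqrt_nonneg _, by
      rw [Real.sq_sqrt (by positivity)]
      field_simp⟩
  obtain ⟨ζ, hζ⟩ : ∃ ζ : V → ℂ, ζ = fun y => y 0 / z 0 / (y 1 / z 1) := ⟨_, rfl⟩
  have ζ1 : ζ z = 1 := by simp [hζ, hu, hv]
  have cζ : ContinuousAt ζ z := by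
    have : z 1 / z 1 ≠ 0 := div_ne_zero hv hv
    rw [hζ]
    fun_prop (disch := assumption)
  have ca : Tendsto (fun y => arg (ζ y)) (𝓝 z) (𝓝 0) := by
    have := (continuousAt_arg (x := ζ z) (by simp [ζ1])).comp cζ
    rwa [ContinuousAt, Function.comp_apply, ζ1, arg_one] at this
  have cl : Tendsto (fun y => φ + arg (ζ y) - 10 * Real.log ‖ζ y‖) (𝓝 z) (𝓝 φ) := by
    have := cζ.norm.log (by simp [ζ1])
    rw [ContinuousAt, ζ1, norm_one, Real.log_one] at this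
    simpa using (ca.const_add φ).sub (this.const_mul 10)
  have chφ : 2 * r * Real.cosh (φ / 10) = 1 + r ^ 2 := by
    have : r * Real.exp (φ / 10) = 1 := by rw [hr, ← Real.exp_add]; simp
    rw [Real.cosh_eq, ← hr]
    linear_combination this
  refine ⟨![k * (r - q * I) * r / z 0, k * (1 + q * r * I) / z 1], ?_, ?_⟩
  · have : h1 z = k * (1 + r ^ 2) := by
      rw [h1, ch, ← hφ, Real.sqrt_eq_iff_mul_self_eq (by have := Real.cosh_pos (φ / 10); positivity)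
        (by positivity)]
      refine mul_left_cancel₀ r0.ne' ?_
      linear_combination ‖z 0‖ * ‖z 1‖ * chφ - (1 + r ^ 2) * hk
    rw [this]
    simp only [L, Matrix.cons_val_zero, Matrix.cons_val_one]
    push_cast
    field_simp
    ring
  filter_upwards [ca.eventually (key r q r1 r2 hq), cl.eventually (lt_mem_nhds p1),
    cl.eventually (gt_mem_nhds p2), C_open.mem_nhds hz] with y a b c hy
  obtain ⟨h0, h1'⟩ := C_ne hy
  have z0 : ζ y ≠ 0 := by simp [*]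
  have n0 := norm_pos_iff.2 z0
  have e0 : y 0 = ζ y * (z 0 * (y 1 / z 1)) := by
    rw [hζ]
    field_simp
  have e1 : arg (tau (y 0 / y 1)) = φ + arg (ζ y) - 10 * Real.log ‖ζ y‖ := by
    have : y 0 / y 1 = z 0 / z 1 * ζ y := by
      rw [hζ]
      field_simp
    rw [this, tau_mul (div_ne_zero hu hv) z0, ← norm_mul_exp_arg_mul_I (tau (z 0 / z 1)), ← hφ,
      show tau (ζ y) = ‖ζ y‖ * exp (arg (ζ y) * I) * exp ((-10 * Real.log ‖ζ y‖ : ℝ) * I) by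
        rw [norm_mul_exp_arg_mul_I, tau]]
    refine Eq.trans ?_ (arg_mul_cos_add_sin_mul_I (r := ‖tau (z 0 / z 1)‖ * ‖ζ y‖) (mul_pos
      (norm_pos_iff.2 (tau_ne.2 (div_ne_zero hu hv))) n0) ⟨b, c.le⟩)
    rw [← exp_mul_I]
    congr 1
    push_cast
    rw [show (φ + arg (ζ y) - 10 * Real.log ‖ζ y‖ : ℂ) * I =
      φ * I + arg (ζ y) * I + -10 * Real.log ‖ζ y‖ * I by ring, Complex.exp_add, Complex.exp_add]
    ring
  have e2 : L ![k * (r - q * I) * r / z 0, k * (1 + q * r * I) / z 1] y = k * (y 1 / z 1) *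
      ((r - q * I) * (r * ‖ζ y‖ : ℝ) * exp (arg (ζ y) * I) + (1 + q * r * I)) := by
    simp only [L, Matrix.cons_val_zero, Matrix.cons_val_one]
    push_cast
    rw [mul_assoc (r - q * I : ℂ), mul_assoc (r : ℂ), norm_mul_exp_arg_mul_I, e0]
    field_simp
  have e3 : 2 * (r * ‖ζ y‖) * ch y =
      Real.exp (arg (ζ y) / 10) + (r * ‖ζ y‖) ^ 2 * Real.exp (-(arg (ζ y) / 10)) := by
    have x1 : Real.exp ((φ + arg (ζ y) - 10 * Real.log ‖ζ y‖) / 10) * (r * ‖ζ y‖) =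
        Real.exp (arg (ζ y) / 10) := by
      nth_rewrite 2 [← Real.exp_log n0]
      rw [hr, ← Real.exp_add, ← Real.exp_add]
      ring_nf
    have x2 : Real.exp (-((φ + arg (ζ y) - 10 * Real.log ‖ζ y‖) / 10)) =
        (r * ‖ζ y‖) * Real.exp (-(arg (ζ y) / 10)) := by
      nth_rewrite 2 [← Real.exp_log n0]
      rw [hr, ← Real.exp_add, ← Real.exp_add]
      ring_nf
    rw [ch, e1, Real.cosh_eq, x2]
    linear_combination x1
  refine Real.le_sqrt_of_sq_le ?_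
  rw [e2, norm_mul, mul_pow]
  refine (mul_le_mul_of_nonneg_left (a (r * ‖ζ y‖)) (sq_nonneg _)).trans (le_of_eq ?_)
  rw [← e3, e0]
  simp only [norm_mul, norm_div, norm_real, Real.norm_of_nonneg k0]
  field_simp
  linear_combination ch y * hk

lemma sup {z : V} (hz : z ∈ C) : ∃ a : V, L a z = H z ∧ ∀ᶠ y in 𝓝 z, ‖L a y‖ ≤ H y := by
  obtain ⟨a, h, h'⟩ := sup1 hz
  obtain ⟨hu, hv⟩ := C_ne hz
  have e : ∀ y, L (a + ![‖z 0‖ / z 0, ‖z 1‖ / z 1]) y =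
      ‖z 0‖ / z 0 * y 0 + ‖z 1‖ / z 1 * y 1 + L a y := fun y => by
    simp [L]
    ring
  refine ⟨a + ![‖z 0‖ / z 0, ‖z 1‖ / z 1], ?_, h'.mono fun y hy => ?_⟩
  · rw [e, h, H]
    push_cast
    field_simp
  · rw [e]
    refine norm_add₃_le.trans ?_
    simp [H, hu, hv, hy]

lemma crease {z a : V} (h0 : z 0 ≠ 0) (h1' : z 1 ≠ 0) (hz : z ∉ C) (hH : H z ≤ 1) (ha : L a z ≠ 0) :
    ¬ ∀ᶠ y in 𝓝 z, y ∈ C → ‖L a y‖ ≤ ‖L a z‖ * H y := by
  intro h
  have tn := tau_ne.2 (div_ne_zero h0 h1')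
  have ar : arg (tau (z 0 / z 1)) = π := by
    by_contra hc
    exact hz (mem_slitPlane_iff_arg.2 ⟨hc, tn⟩)
  obtain ⟨Y, hY⟩ : ∃ Y : ℝ → V, Y = fun t : ℝ => ![(1 + t : ℝ) * z 0, z 1] := ⟨_, rfl⟩
  have cY : Tendsto Y (𝓝 0) (𝓝 z) := by
    have : Continuous Y := by
      rw [hY]
      fun_prop
    refine (this.tendsto 0).trans (le_of_eq (congrArg _ ?_))
    ext i
    fin_cases i <;> simp [hY]
  have cl : Tendsto (fun t : ℝ => |10 * Real.log (1 + t)|) (𝓝 0) (𝓝 0) := by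
    have : ContinuousAt (fun t : ℝ => |10 * Real.log (1 + t)|) 0 := by
      fun_prop (disch := norm_num)
    simpa [ContinuousAt] using this
  have ev : ∀ᶠ t in 𝓝 (0 : ℝ), t ≠ 0 → ‖L a (Y t)‖ < ‖L a z‖ * ((1 + t) * ‖z 0‖ + ‖z 1‖ +
      √(1 + t) * h1 z) := by
    filter_upwards [cY.eventually h, cl.eventually (gt_mem_nhds pi_pos),
      lt_mem_nhds (show (-1 : ℝ) < 0 by norm_num)] with t a1 a2 a3 a4
    have p : 0 < 1 + t := by linarith
    have p' : ((1 + t : ℝ) : ℂ) ≠ 0 := ofReal_ne_zero.2 p.ne'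
    have m : Y t ∈ C := by
      refine Or.inr ?_
      obtain ⟨re, im⟩ := arg_eq_pi_iff.1 ar
      have s : Real.sin (-10 * Real.log (1 + t)) ≠ 0 := fun hs => by
        have b := abs_lt.1 a2
        have := (Real.sin_eq_zero_iff_of_lt_of_lt (by linarith) (by linarith)).1 hs
        have := Real.eq_one_of_pos_of_log_eq_zero p (by linarith)
        exact a4 (by linarith)
      simp only [hY, Matrix.cons_val_zero, Matrix.cons_val_one]
      rw [mul_div_assoc, tau_mul p' (div_ne_zero h0 h1'), mul_im, im, tau, norm_real,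
        Real.norm_of_nonneg p.le, im_ofReal_mul, exp_ofReal_mul_I_im, mul_zero, zero_add]
      exact mul_ne_zero (mul_ne_zero p.ne' s) re.ne
    refine (a1 m).trans_lt (mul_lt_mul_of_pos_left ?_ (norm_pos_iff.2 ha))
    have n0 := norm_pos_iff.2 h0
    have n1 := norm_pos_iff.2 h1'
    have y0 : ‖Y t 0‖ = (1 + t) * ‖z 0‖ := by
      simp only [hY, Matrix.cons_val_zero]
      rw [norm_mul, norm_real, Real.norm_of_nonneg p.le]
    have y1 : Y t 1 = z 1 := by simp [hY]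
    rw [H, h1, y0, y1, h1, ← Real.sqrt_mul p.le, ch, ch, ar]
    refine add_lt_add_right (Real.sqrt_lt_sqrt (by
      have := Real.cosh_pos (arg (tau (Y t 0 / Y t 1)) / 10)
      positivity) ?_) _
    have := mul_lt_mul_of_pos_left (ch_lt m) (show 0 < 2 * ((1 + t) * ‖z 0‖) * ‖z 1‖ by positivity)
    rw [ch] at this
    linarith
  have ng : Tendsto (fun t : ℝ => -t) (𝓝 0) (𝓝 0) := by simpa using continuous_neg.tendsto (0 : ℝ)
  obtain ⟨t, ⟨⟨⟨a1, a2⟩, a3⟩, a4⟩, a5⟩ := (((((ev.and (ng.eventually ev)).and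
    (lt_mem_nhds (show (-1 : ℝ) < 0 by norm_num))).and (gt_mem_nhds one_pos)).filter_mono
      nhdsWithin_le_nhds).and (self_mem_nhdsWithin (s := {0}ᶜ))).exists
  have b1 := a1 a5
  have b2 := a2 (neg_ne_zero.2 a5)
  have e : L a (Y t) + L a (Y (-t)) = 2 * L a z := by
    simp [L, hY]
    ring
  have b3 := norm_add_le (L a (Y t)) (L a (Y (-t)))
  rw [e, norm_mul, Complex.norm_ofNat] at b3
  have s : √(1 + t) + √(1 + -t) ≤ 2 := by
    have := Real.sq_sqrt (show 0 ≤ 1 + t by linarith)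
    have := Real.sq_sqrt (show 0 ≤ 1 + -t by linarith)
    nlinarith [sq_nonneg (√(1 + t) - 1), sq_nonneg (√(1 + -t) - 1)]
  have b4 := mul_le_mul_of_nonneg_right s (h1_nn z)
  have b5 : (1 + t) * ‖z 0‖ + ‖z 1‖ + √(1 + t) * h1 z + ((1 + -t) * ‖z 0‖ + ‖z 1‖ +
      √(1 + -t) * h1 z) ≤ 2 := by
    rw [H] at hH
    linarith
  nlinarith [mul_le_mul_of_nonneg_left b5 (norm_nonneg (L a z))]

end Pool.Agent.H88.Spi
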