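import Mathlib

open Topology

namespace Pool.Agent.H88.Spi

def CConvex {n : ℕ} (D : Set (Fin n → ℂ)) : Prop :=
  ∀ p d : Fin n → ℂ, d ≠ 0 → {t : ℂ | p + t • d ∈ D} = ∅ ∨
    (IsConnected {t : ℂ | p + t • d ∈ D} ∧ IsSimplyConnected {t : ℂ | p + t • d ∈ D})

def Gam {n : ℕ} (D : Set (Fin n → ℂ)) (z : Fin n → ℂ) : Set (Projectivization ℂ (Fin n → ℂ)) :=
  {P | ∃ (a : Fin n → ℂ) (ha : a ≠ 0), Projectivization.mk ℂ a ha = P ∧
    ∃ U ∈ 𝓝 z, ∀ w ∈ U, ∑ i, a i * w i = ∑ i, a i * z i → w ∉ D}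

noncomputable abbrev top (n : ℕ) : TopologicalSpace (Projectivization ℂ (Fin n → ℂ)) :=
  TopologicalSpace.coinduced (Projectivization.mk' ℂ) inferInstance

end Pool.Agent.H88.Spi
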