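import Pool.Agent.H88.Spi3
import Pool.Agent.H88.SpiDefs

open Filter Topology Complex Set Real

namespace Pool.Agent.H88.Spi

def Gt (z : V) : Set V := {a | a ≠ 0 ∧ ∀ᶠ w in 𝓝 z, L a w = L a z → w ∉ D}

def Mt (z : V) : Set V := {a | L a z ≠ 0 ∧ ∀ᶠ y in 𝓝 z, y ∈ C → ‖L a y‖ ≤ ‖L a z‖ * H y}

lemma L_cont (a : V) : Continuous (L a) := by
  unfold L
  fun_prop

lemma L_smul (a y : V) (t : ℂ) : L a (t • y) = t * L a y := by
  simp [L]
  ring

lemma smul_L (a y : V) (t : ℂ) : L (t • a) y = t * L a y := by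
  simp [L]
  ring

lemma P1 {z a : V} (ha : L a z ≠ 0) : a ∈ Gt z ↔ a ∈ Mt z := by
  have p := norm_pos_iff.2 ha
  refine ⟨fun h => ⟨ha, ?_⟩, fun h => ⟨fun h0 => ha (by simp [h0, L]), ?_⟩⟩
  · have c : ContinuousAt (fun y => (L a z / L a y) • y) z :=
      (continuousAt_const.div (L_cont a).continuousAt ha).smul continuousAt_id
    rw [ContinuousAt, div_self ha, one_smul] at c
    filter_upwards [c.eventually h.2, (L_cont a).continuousAt.eventually_ne ha] with y h1 h2 hy
    have := h1 (by rw [L_smul, div_mul_cancel₀ _ h2])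
    have := not_lt.1 fun hh => this ⟨(C_smul (div_ne_zero ha h2)).2 hy, hh⟩
    rwa [H_smul, norm_div, div_mul_eq_mul_div, one_le_div (norm_pos_iff.2 h2)] at this
  · filter_upwards [h.2] with w h1 h2 hw
    have := h1 hw.1
    rw [h2] at this
    nlinarith [hw.2]

def d (a : V) : V := ![a 1, -a 0]

lemma par_d {a w : V} (ha : a ≠ 0) (h : L a w = 0) : ∃ t : ℂ, w = t • d a := by
  rw [L] at h
  by_cases h0 : a 0 = 0
  · have h1 : a 1 ≠ 0 := fun h1 => ha (by ext i; fin_cases i <;> simp [h0, h1])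
    refine ⟨w 0 / a 1, ?_⟩
    ext i
    fin_cases i
    · simp [d, h1]
    · simpa [d, h0, h1] using h
  · refine ⟨-w 1 / a 0, ?_⟩
    ext i
    fin_cases i
    · simp [d]
      field_simp
      linear_combination h
    · simp [d]
      field_simp

lemma not_C0 : (0 : V) ∉ C := fun h => (C_ne h).1 rfl

lemma P0 {z a : V} (ha : a ≠ 0) (h : L a z = 0) (hH : H z ≤ 1) : a ∈ Gt z ↔ d a ∉ C := by
  refine ⟨fun hg hd => ?_, fun hd => ⟨ha, Eventually.of_forall fun w hw hD => ?_⟩⟩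
  · obtain ⟨t, rfl⟩ := par_d ha h
    have p := H_pos hd
    rw [H_smul] at hH
    have c : Continuous fun s : ℂ => s • d a := by fun_prop
    have e := (c.tendsto t).eventually hg.2
    have cl : t ∈ closure (Metric.ball (0 : ℂ) (H (d a))⁻¹ ∩ {0}ᶜ) := by
      refine closure_minimal ((dense_compl_singleton 0).open_subset_closure_inter Metric.isOpen_ball)
        isClosed_closure ?_
      rw [closure_ball _ (inv_ne_zero p.ne'), mem_closedBall_zero_iff, ← one_div, le_div_iff₀ p]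
      exact hH
    obtain ⟨s, h1, h2, h3⟩ := (e.and_frequently (mem_closure_iff_frequently.1 cl)).exists
    refine h1 (by rw [h, L_smul]; simp [L, d]; right; ring) ⟨(C_smul h3).2 hd, ?_⟩
    rw [H_smul, ← lt_div_iff₀ p, one_div]
    simpa using h2
  · obtain ⟨t, rfl⟩ := par_d ha (hw.trans h)
    rcases eq_or_ne t 0 with rfl | ht
    · exact not_C0 (by simpa using hD.1)
    · exact hd ((C_smul ht).1 hD.1)

lemma Mt_conn {z : V} (h : (Mt z).Nonempty) : IsConnected (Mt z) := by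
  have cv : Convex ℝ {a : V | L a z = 1 ∧ ∀ᶠ y in 𝓝 z, y ∈ C → ‖L a y‖ ≤ H y} := by
    rintro a ⟨a1, a2⟩ b ⟨b1, b2⟩ s t hs ht e
    have l : ∀ y, L (s • a + t • b) y = s * L a y + t * L b y := fun y => by
      simp [L]
      ring
    refine ⟨by rw [l, a1, b1]; exact_mod_cast (by simpa using e), ?_⟩
    filter_upwards [a2, b2] with y h1 h2 hy
    rw [l]
    refine (norm_add_le _ _).trans ?_
    rw [norm_mul, norm_mul, norm_real, norm_real, Real.norm_of_nonneg hs, Real.norm_of_nonneg ht]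
    calc _ ≤ s * H y + t * H y := by gcongr <;> simp [*]
      _ = _ := by rw [← add_mul, e, one_mul]
  have : Mt z = (fun p : ℂ × V => exp p.1 • p.2) ''
      (univ ×ˢ {a : V | L a z = 1 ∧ ∀ᶠ y in 𝓝 z, y ∈ C → ‖L a y‖ ≤ H y}) := by
    ext a
    refine ⟨fun ⟨h1, h2⟩ => ⟨(log (L a z), (L a z)⁻¹ • a), ⟨trivial, ?_, ?_⟩, ?_⟩, ?_⟩
    · simp [smul_L, h1]
    · filter_upwards [h2] with y h3 hy
      rw [smul_L, norm_mul, norm_inv, inv_mul_le_iff₀ (norm_pos_iff.2 h1)]
      exact h3 hy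
    · simp [exp_log h1, h1]
    · rintro ⟨p, ⟨-, h1, h2⟩, rfl⟩
      refine ⟨by simp [smul_L, h1], ?_⟩
      filter_upwards [h2] with y h3 hy
      rw [smul_L, smul_L, h1, mul_one, norm_mul]
      exact mul_le_mul_of_nonneg_left (h3 hy) (norm_nonneg _)
  refine ⟨h, ?_⟩
  rw [this]
  exact (isPreconnected_univ.prod cv.isPreconnected).image _ (by fun_prop)

lemma axis {z a : V} {i j : Fin 2} (hij : i ≠ j) (hi : z i = 0) (hj : ‖z j‖ = 1)
    (ha : L a z ≠ 0) : a ∈ Mt z := by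
  have e : ∀ y, L a y = a i * y i + a j * y j ∧ H y = ‖y i‖ + ‖y j‖ + √(2 * ‖y i‖ * ‖y j‖ * ch y) :=
    fun y => by
      fin_cases i <;> fin_cases j
      · exact absurd rfl hij
      · exact ⟨rfl, rfl⟩
      · exact ⟨add_comm _ _, by simp only [H, h1]; rw [add_comm ‖y 0‖, mul_right_comm 2]; rfl⟩
      · exact absurd rfl hij
  have n : ‖L a z‖ = ‖a j‖ := by simp [(e z).1, hi, hj]
  have p : 0 < ‖a j‖ := n ▸ norm_pos_iff.2 ha
  have c : ContinuousAt (fun y : V => ‖a j‖ ^ 2 * ‖y j‖ - ‖a i‖ ^ 2 * ‖y i‖) z := by fun_prop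
  refine ⟨ha, (c.eventually (lt_mem_nhds (a := 0) (by simpa [hi, hj] using pow_pos p 2))).mono fun y hy _ => ?_⟩
  rw [n, (e y).1, (e y).2]
  refine (norm_add_le _ _).trans ?_
  have : ‖a i‖ * ‖y i‖ ≤ ‖a j‖ * √(2 * ‖y i‖ * ‖y j‖ * ch y) := by
    rw [← Real.sqrt_sq p.le, ← Real.sqrt_mul (sq_nonneg _)]
    refine Real.le_sqrt_of_sq_le ?_
    have := mul_le_mul_of_nonneg_left (one_le_ch y)
      (show 0 ≤ ‖a j‖ ^ 2 * (2 * ‖y i‖ * ‖y j‖) by positivity)
    have := mul_le_mul_of_nonneg_left (sub_pos.1 hy).le (norm_nonneg (y i))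
    have : 0 ≤ ‖a j‖ ^ 2 * ‖y i‖ * ‖y j‖ := by positivity
    nlinarith
  rw [norm_mul, norm_mul]
  nlinarith [mul_nonneg p.le (norm_nonneg (y i))]

lemma Gt_conn {z : V} (hz : z ∈ frontier D) : IsConnected (Gt z) := by
  rw [D_open.frontier_eq] at hz
  have hH : H z ≤ 1 := closure_minimal (fun y (h : y ∈ D) => h.2.le)
    (isClosed_le H_cont continuous_const) hz.1
  by_cases hC : z ∈ C
  · have h1 : H z = 1 := hH.antisymm (not_lt.1 fun h => hz.2 ⟨hC, h⟩)
    have : Gt z = Mt z := by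
      ext a
      refine ⟨fun h => (P1 fun h0 => ?_).1 h, fun h => (P1 h.1).2 h⟩
      obtain ⟨t, rfl⟩ := par_d h.1 h0
      refine (P0 h.1 h0 hH).1 h ((C_smul ?_).1 hC)
      rintro rfl
      exact not_C0 (by simpa using hC)
    obtain ⟨a, a1, a2⟩ := sup hC
    rw [this]
    exact Mt_conn ⟨a, by simp [a1, h1], a2.mono fun y h _ => by simpa [a1, h1] using h⟩
  rcases eq_or_ne z 0 with rfl | h0
  · have : Gt 0 = (fun y : V => ![-y 1, y 0]) '' {y : V | y ≠ 0 ∧ y ∉ C} := by
      ext a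
      refine ⟨fun h => ⟨d a, ⟨fun e => h.1 ?_, (P0 h.1 (by simp [L]) hH).1 h⟩, ?_⟩, ?_⟩
      · ext i
        fin_cases i
        · simpa [d] using congrFun e 1
        · simpa [d] using congrFun e 0
      · ext i
        fin_cases i <;> simp [d]
      · rintro ⟨y, ⟨h1, h2⟩, rfl⟩
        refine (P0 (fun e => h1 ?_) (by simp [L]) hH).2 (by convert h2; ext i; fin_cases i <;> simp [d])
        ext i
        fin_cases i
        · simpa using congrFun e 1
        · simpa using congrFun e 0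
    rw [this]
    exact N_conn.image _ (by fun_prop)
  have Z : ∀ a, a ≠ 0 → L a z = 0 → a ∈ Gt z := fun a ha h => (P0 ha h hH).2 fun hd => by
    obtain ⟨t, rfl⟩ := par_d ha h
    exact hC ((C_smul fun e => h0 (by simp [e])).2 hd)
  by_cases hM : ∃ a, a ∈ Mt z
  · obtain ⟨a, a1, a2⟩ := hM
    have h1 : H z = 1 := hH.antisymm (not_lt.1 fun h => by
      have c : ContinuousAt (fun y => ‖L a y‖ - ‖L a z‖ * H y) z :=
        ((L_cont a).norm.sub (continuous_const.mul H_cont)).continuousAt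
      obtain ⟨y, ⟨y1, y2⟩, y3⟩ := ((a2.and (c.eventually (lt_mem_nhds (a := 0) (by
        nlinarith [norm_pos_iff.2 a1])))).and_frequently (mem_closure_iff_frequently.1 hz.1)).exists
      linarith [y1 y3.1])
    have : Gt z = {0}ᶜ := by
      refine Subset.antisymm (fun b hb => hb.1) fun b hb => ?_
      by_cases hl : L b z = 0
      · exact Z b hb hl
      refine (P1 hl).2 ?_
      by_cases e0 : z 0 = 0
      · exact axis (i := 0) (j := 1) (by decide) e0 (by simpa [H, Spi.h1, e0] using h1) hl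
      by_cases e1 : z 1 = 0
      · exact axis (i := 1) (j := 0) (by decide) e1 (by simpa [H, Spi.h1, e1] using h1) hl
      exact (crease e0 e1 hC hH a1 a2).elim
    rw [this]
    refine isConnected_compl_singleton_of_one_lt_rank ?_ 0
    rw [← Module.finrank_eq_rank, Module.finrank_pi_fintype]
    simp
  · have : Gt z = range fun c : ℂ => exp c • d z := by
      ext a
      refine ⟨fun h => ?_, ?_⟩
      · have hl : L a z = 0 := by_contra fun hl => hM ⟨a, (P1 hl).1 h⟩
        obtain ⟨t, rfl⟩ := par_d (w := a) h0 (by rw [← hl]; simp [L, mul_comm])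
        exact ⟨log t, by simp only; rw [exp_log fun e => h.1 (by simp [e])]⟩
      · rintro ⟨c, rfl⟩
        refine Z _ (smul_ne_zero (exp_ne_zero _) fun e => h0 ?_) (by simp [L, d]; ring)
        ext i
        fin_cases i
        · simpa [d] using congrFun e 1
        · simpa [d] using congrFun e 0
    rw [this]
    exact isConnected_range (by fun_prop)

lemma Gam_conn {z : V} (hz : z ∈ frontier D) : @IsConnected _ (top 2) (Gam D z) := by
  let _ := top 2
  have : Gam D z = Projectivization.mk' ℂ '' (Subtype.val ⁻¹' Gt z) := by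
    ext P
    simp only [Gam, Fin.sum_univ_two]
    exact ⟨fun ⟨a, ha, e, U, hU, h⟩ => ⟨⟨a, ha⟩, ⟨ha, mem_of_superset hU h⟩, e⟩,
      fun ⟨a, h, e⟩ => ⟨a.1, a.2, e, _, h.2, fun _ hw => hw⟩⟩
  rw [this]
  refine IsConnected.image ?_ _ (continuous_coinduced_rng.continuousOn)
  have c := Gt_conn hz
  refine ⟨c.nonempty.elim fun a h => ⟨⟨a, h.1⟩, h⟩, IsInducing.subtypeVal.isPreconnected_image.1 ?_⟩
  exact (image_preimage_eq_of_subset (f := (Subtype.val : {v : V // v ≠ 0} → V))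
    (s := Gt z) fun a h => ⟨⟨a, h.1⟩, rfl⟩).symm ▸ c.2

lemma not_cc : ¬ CConvex D := by
  intro h
  have m : (![1, 1] : V) ∈ C := by simp [C, tau]
  have p := H_pos m
  obtain ⟨ρ, r0, r1⟩ : ∃ ρ : ℝ, 0 < ρ ∧ ρ ^ 2 * H ![1, 1] < 1 :=
    ⟨√(1 / (2 * H ![1, 1])), by positivity, by
      rw [Real.sq_sqrt (by positivity)]
      field_simp
      norm_num⟩
  have mem : ∀ θ : ℝ, (ρ * exp (θ * I)) ^ 2 ∈ {t : ℂ | (0 : V) + t • ![1, 1] ∈ D} := fun θ => by
    refine ⟨?_, ?_⟩ <;> rw [zero_add]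
    · exact (C_smul (by simp [r0.ne'])).2 m
    · rw [H_smul]
      simpa using r1
  rcases h 0 ![1, 1] (fun e => by simpa using congrFun e 0) with h | ⟨-, h⟩
  · exact (h ▸ mem 0 : _ ∈ (∅ : Set ℂ))
  obtain ⟨f, f1, f2⟩ := exists_continuousOn_pow_eq (g := id) h
    (D_open.preimage (by fun_prop)) continuousOn_id (by
      rintro ⟨t, ht, e⟩
      exact not_C0 (by simpa [show t = 0 from e] using ht.1)) two_ne_zero
  have := isPreconnected_univ.eq_or_eq_neg_of_sq_eq (f := fun θ : ℝ => f ((ρ * exp (θ * I)) ^ 2))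
    (g := fun θ : ℝ => ρ * exp (θ * I)) (f1.comp (by fun_prop) fun θ _ => mem θ) (by fun_prop)
    (fun θ _ => f2 _) (by simp [r0.ne'])
  have r : (ρ : ℂ) ≠ 0 := ofReal_ne_zero.2 r0.ne'
  rcases this with e | e
  · have a := e (mem_univ 0)
    have b := e (mem_univ π)
    simp at a b
    exact r (by linear_combination (b - a) / 2)
  · have a := e (mem_univ 0)
    have b := e (mem_univ π)
    simp at a b
    exact r (by linear_combination (a - b) / 2)

end Pool.Agent.H88.Spi
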