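import Mathlib

namespace Pool.Agent.H88.Tilf

/-- `C_E(𝕋)`: continuous functions on `𝕋 = ℝ/ℤ` whose Fourier coefficients vanish off `E`. -/
def CE (E : Set ℤ) : Submodule ℂ C(UnitAddCircle, ℂ) where
  carrier := {f | ∀ k ∉ E, fourierCoeff (⇑f) k = 0}
  add_mem' := by
    intro f g hf hg k hk
    have hi : ∀ u : C(UnitAddCircle, ℂ), MeasureTheory.Integrable u AddCircle.haarAddCircle :=
      fun u => u.continuous.integrable_of_hasCompactSupport (HasCompactSupport.of_compactSpace _)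
    rw [ContinuousMap.coe_add, fourierCoeff.add (hi f) (hi g), Pi.add_apply, hf k hk, hg k hk,
      add_zero]
  zero_mem' := by
    intro k _
    simp [fourierCoeff]
  smul_mem' := by
    intro c f hf k hk
    rw [ContinuousMap.coe_smul, fourierCoeff.const_smul, hf k hk, smul_zero]

/-- Every translation-invariant linear form on `C_E(𝕋)` is continuous for the sup norm. -/
def AutoCont (E : Set ℤ) : Prop :=
  ∀ Φ : CE E →ₗ[ℂ] ℂ,
    (∀ (a : UnitAddCircle) (f g : CE E), (∀ t, g.1 t = f.1 (t - a)) → Φ g = Φ f) → Continuous Φ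

/-- Sidon set: every `f ∈ C_E(𝕋)` has absolutely summable Fourier coefficients. -/
def IsSidon (E : Set ℤ) : Prop :=
  ∀ f ∈ CE E, Summable fun k : ℤ => ‖fourierCoeff (⇑f) k‖

/-- The Bohr neighbourhood `{k : |e(kθ_j) - 1| < δ for all j}` of `0` in `ℤ`. -/
def Bohr {n : ℕ} (θ : Fin n → UnitAddCircle) (δ : ℝ) : Set ℤ :=
  {k | ∀ j, ‖fourier k (θ j) - 1‖ < δ}

end Pool.Agent.H88.Tilf
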