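import Mathlib
import Pool.Agent.H88.TilfDefs

namespace Pool.Agent.H88.Tilf

open MeasureTheory Set Filter Topology Complex

lemma norm_coeffOn_le {u : ℝ → ℂ} {M : ℝ} (hM : ∀ t, ‖u t‖ ≤ M) (n : ℤ) :
    ‖fourierCoeffOn zero_lt_one u n‖ ≤ M := by
  rw [fourierCoeffOn_eq_integral]
  simp only [sub_zero, div_one, one_smul]
  have := intervalIntegral.norm_integral_le_of_norm_le_const (a := 0) (b := 1) (C := M)
    (f := fun x : ℝ => fourier (-n) (x : AddCircle (1 - 0 : ℝ)) • u x) (fun x _ => by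
      rw [norm_smul, fourier_apply, Circle.norm_coe, one_mul]; exact hM x)
  simpa using this

lemma coeffOn_deriv {u : ℝ → ℂ} (hu : ContDiff ℝ 1 u) (hp : Function.Periodic u 1) {n : ℤ}
    (hn : n ≠ 0) : ‖fourierCoeffOn zero_lt_one u n‖ ≤
      ‖fourierCoeffOn zero_lt_one (deriv u) n‖ / |(n:ℝ)| := by
  have hd : Differentiable ℝ u := hu.differentiable one_ne_zero
  have hc : Continuous (deriv u) := hu.continuous_deriv le_rfl
  rw [fourierCoeffOn_of_hasDerivAt zero_lt_one hn (fun x _ => (hd x).hasDerivAt)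
    (hc.intervalIntegrable _ _)]
  have e : u 1 = u 0 := by simpa using hp 0
  rw [e, sub_self, mul_zero, zero_sub, norm_mul, norm_neg, norm_mul]
  have h1 : ‖((1:ℝ):ℂ) - ((0:ℝ):ℂ)‖ = 1 := by simp
  rw [h1, one_mul, norm_div, norm_one]
  have h2 : ‖(-2 * (Real.pi:ℂ) * I * n)‖ = 2 * Real.pi * |(n:ℝ)| := by
    simp [abs_of_pos Real.pi_pos]
  rw [h2, div_mul_eq_mul_div, one_mul]
  have h3 : 0 < |(n:ℝ)| := abs_pos.2 (by exact_mod_cast hn)
  apply div_le_div_of_nonneg_left (norm_nonneg _) h3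
  nlinarith [Real.pi_gt_three]

lemma summable_smooth {u : ℝ → ℂ} (hu : ContDiff ℝ 2 u) (hp : Function.Periodic u 1) :
    Summable fun n : ℤ => ‖fourierCoeffOn zero_lt_one u n‖ := by
  have h1 : ContDiff ℝ 1 (deriv u) := by
    have := (contDiff_succ_iff_deriv (n := 1)).1 (by exact_mod_cast hu)
    exact this.2.2
  have p1 : Function.Periodic (deriv u) 1 := by
    intro x
    have : (fun y => u (y + 1)) = u := funext hp
    rw [← deriv_comp_add_const, this]
  have p2 : Function.Periodic (deriv (deriv u)) 1 := by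
    intro x
    have : (fun y => deriv u (y + 1)) = deriv u := funext p1
    rw [← deriv_comp_add_const, this]
  have c2 : Continuous (deriv (deriv u)) := h1.continuous_deriv le_rfl
  obtain ⟨M, hM⟩ : ∃ M, ∀ t, ‖deriv (deriv u) t‖ ≤ M := by
    have := (p2.isBounded_of_continuous one_ne_zero c2).exists_norm_le
    obtain ⟨M, hM⟩ := this
    exact ⟨M, fun t => hM _ (mem_range_self t)⟩
  have hs : Summable fun n : ℤ => M * (1 / (n:ℝ) ^ 2) :=
    (Real.summable_one_div_int_pow.2 one_lt_two).mul_left M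
  refine hs.of_norm_bounded_eventually ?_
  filter_upwards [(finite_singleton (0:ℤ)).compl_mem_cofinite] with n hn
  have hn' : n ≠ 0 := hn
  have h3 : 0 < |(n:ℝ)| := abs_pos.2 (by exact_mod_cast hn')
  rw [norm_norm]
  refine (coeffOn_deriv (hu.of_le (by norm_num)) hp hn').trans ?_
  have a1 := coeffOn_deriv h1 p1 hn'
  have a2 := norm_coeffOn_le hM n
  calc _ ≤ (M / |(n:ℝ)|) / |(n:ℝ)| := by
        gcongr
        exact a1.trans (by gcongr)
    _ = _ := by rw [div_div, abs_mul_abs_self]; ring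

/-- smooth function equal to `1/(1-z)` off the disc of radius `δ` about `1`. -/
noncomputable def G (δ : ℝ) (z : ℂ) : ℂ :=
  (starRingEnd ℂ) (1 - z) *
    (((‖1 - z‖ ^ 2 + expNegInvGlue (δ ^ 2 - ‖1 - z‖ ^ 2))⁻¹ : ℝ) : ℂ)

lemma G_smooth {δ : ℝ} (hδ : 0 < δ) : ContDiff ℝ 2 (G δ) := by
  have h1 : ContDiff ℝ 2 fun z : ℂ => ‖1 - z‖ ^ 2 :=
    (contDiff_norm_sq ℝ).comp (contDiff_const.sub contDiff_id)
  have h2 : ContDiff ℝ 2 fun z : ℂ => ‖1 - z‖ ^ 2 + expNegInvGlue (δ ^ 2 - ‖1 - z‖ ^ 2) :=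
    h1.add (expNegInvGlue.contDiff.comp (contDiff_const.sub h1))
  have h3 : ∀ z : ℂ, ‖1 - z‖ ^ 2 + expNegInvGlue (δ ^ 2 - ‖1 - z‖ ^ 2) ≠ 0 := by
    intro z
    rcases eq_or_lt_of_le (sq_nonneg ‖1 - z‖) with h | h
    · have := expNegInvGlue.pos_of_pos (x := δ ^ 2 - ‖1 - z‖ ^ 2) (by rw [← h, sub_zero]; positivity)
      rw [← h] at this ⊢
      linarith
    · have := expNegInvGlue.nonneg (δ ^ 2 - ‖1 - z‖ ^ 2)
      linarith
  refine ContDiff.mul ?_ (ofRealCLM.contDiff.comp (h2.inv h3))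
  exact conjCLE.contDiff.comp (contDiff_const.sub contDiff_id)

lemma G_mul {δ : ℝ} (hδ : 0 < δ) {z : ℂ} (hz : δ ≤ ‖1 - z‖) : (1 - z) * G δ z = 1 := by
  have h0 : 0 < ‖1 - z‖ := hδ.trans_le hz
  have h1 : expNegInvGlue (δ ^ 2 - ‖1 - z‖ ^ 2) = 0 :=
    expNegInvGlue.zero_of_nonpos (by nlinarith)
  rw [G, h1, add_zero, ← mul_assoc, mul_conj, normSq_eq_norm_sq, ← ofReal_mul,
    mul_inv_cancel₀ (by positivity), ofReal_one]

lemma exists_coeffs {δ : ℝ} (hδ : 0 < δ) : ∃ c : ℤ → ℂ, Summable (fun n => ‖c n‖) ∧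
    ∀ x : UnitAddCircle, HasSum (fun n => c n * fourier n x) (G δ (fourier 1 x)) := by
  let Q : C(UnitAddCircle, ℂ) :=
    ⟨fun x => G δ (fourier 1 x), (G_smooth hδ).continuous.comp (fourier 1).continuous⟩
  have e : ∀ n, fourierCoeff (⇑Q) n = fourierCoeffOn zero_lt_one (fun t : ℝ => Q t) n := by
    intro n
    rw [fourierCoeff_eq_intervalIntegral _ _ 0, fourierCoeffOn_eq_integral]
    simp only [zero_add, sub_zero, fourier_coe_apply, ofReal_one]
  have hq : ContDiff ℝ 2 fun t : ℝ => Q t := by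
    have : (fun t : ℝ => Q t) = fun t : ℝ => G δ (Complex.exp (2 * Real.pi * I * ofRealCLM t)) := by
      ext t
      change G δ (fourier 1 (t : UnitAddCircle)) = _
      rw [fourier_coe_apply]
      simp
    rw [this]
    exact (G_smooth hδ).comp (Complex.contDiff_exp.comp (contDiff_const.mul ofRealCLM.contDiff))
  have hp : Function.Periodic (fun t : ℝ => Q t) 1 := by
    intro t
    simp only [AddCircle.coe_add_period]
  have hs : Summable fun n => ‖fourierCoeff (⇑Q) n‖ := by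
    simp only [e]; exact summable_smooth hq hp
  refine ⟨fourierCoeff (⇑Q), hs, fun x => ?_⟩
  exact has_pointwise_sum_fourier_series_of_summable hs.of_norm x

end Pool.Agent.H88.Tilf
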