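import Mathlib
import Pool.Agent.H88.Tilf1
import Pool.Agent.H92.Sidon

namespace Pool.Agent.H88.Tilf

open MeasureTheory Set Filter Topology Complex

abbrev CT := C(UnitAddCircle, ℂ)

lemma integ (u : CT) : Integrable u AddCircle.haarAddCircle :=
  u.continuous.integrable_of_hasCompactSupport (HasCompactSupport.of_compactSpace _)

lemma norm_coeff_le (f : CT) (k : ℤ) : ‖fourierCoeff (⇑f) k‖ ≤ ‖f‖ := by
  unfold fourierCoeff
  have := norm_integral_le_of_norm_le_const (μ := AddCircle.haarAddCircle) (C := ‖f‖)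
    (f := fun t : UnitAddCircle => fourier (-k) t • f t) (Eventually.of_forall fun t => by
      rw [norm_smul, fourier_apply, Circle.norm_coe, one_mul]; exact f.norm_coe_le_norm t)
  simpa using this

noncomputable def co (k : ℤ) : CT →L[ℂ] ℂ :=
  LinearMap.mkContinuous
    { toFun := fun f => fourierCoeff (⇑f) k
      map_add' := fun f g => by
        rw [ContinuousMap.coe_add, fourierCoeff.add (integ f) (integ g), Pi.add_apply]
      map_smul' := fun c f => by
        rw [ContinuousMap.coe_smul, fourierCoeff.const_smul]; rfl }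
    1 (fun f => by rw [one_mul]; exact norm_coeff_le f k)

lemma co_apply (k : ℤ) (f : CT) : co k f = fourierCoeff (⇑f) k := rfl

lemma mem_CE {E : Set ℤ} {f : CT} : f ∈ CE E ↔ ∀ k ∉ E, co k f = 0 := Iff.rfl

lemma co_ext {f g : CT} (h : ∀ k, co k f = co k g) : f = g := by
  have hz : ∀ k, fourierCoeff (⇑(f - g)) k = 0 := fun k => by
    rw [← co_apply, map_sub, h, sub_self]
  have hs : Summable (fourierCoeff (⇑(f - g))) := by
    rw [show fourierCoeff (⇑(f - g)) = fun _ => 0 from funext hz]; exact summable_zero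
  have := hasSum_fourier_series_of_summable hs
  have e0 : (fun i => fourierCoeff (⇑(f - g)) i • (fourier i : CT)) = fun _ => 0 := by
    funext i; rw [hz]; ext x; simp
  rw [e0] at this
  exact sub_eq_zero.1 (this.unique hasSum_zero)

noncomputable def tr (a : UnitAddCircle) : CT →L[ℂ] CT :=
  LinearMap.mkContinuous
    { toFun := fun f => f.comp ⟨fun t => t - a, continuous_sub_right a⟩
      map_add' := fun _ _ => rfl
      map_smul' := fun _ _ => rfl }
    1 (fun f => by
      rw [one_mul]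
      exact (ContinuousMap.norm_le _ (norm_nonneg f)).2 fun t => f.norm_coe_le_norm _)

lemma tr_apply (a : UnitAddCircle) (f : CT) (t : UnitAddCircle) : tr a f t = f (t - a) := rfl

lemma norm_tr (a : UnitAddCircle) : ‖tr a‖ ≤ 1 :=
  LinearMap.mkContinuous_norm_le _ zero_le_one _

lemma co_tr (k : ℤ) (a : UnitAddCircle) (f : CT) :
    co k (tr a f) = fourier (-k) a * co k f := by
  simp only [co_apply]
  unfold fourierCoeff
  rw [← integral_add_right_eq_self (fun t => fourier (-k) t • tr a f t) a, ← integral_const_mul]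
  congr 1; ext t
  have e1 : fourier (-k) (t + a) = fourier (-k) t * fourier (-k) a := by
    simp [fourier_apply, AddCircle.toCircle_add, add_comm, mul_comm]
  simp only [tr_apply, add_sub_cancel_right, smul_eq_mul, e1]
  ring

lemma fourier_swap (k n : ℤ) (θ : UnitAddCircle) :
    fourier (-k) (n • θ) = fourier n ((-k) • θ) := by
  simp only [fourier_apply, smul_smul, mul_comm]

lemma gen_sum {X : Type*} [NormedAddCommGroup X] [NormedSpace ℂ X] [CompleteSpace X]
    (T : ℤ → X →L[ℂ] X) (hT : ∀ n, ‖T n‖ ≤ 1) (c : ℤ → ℂ) (hc : Summable fun n => ‖c n‖) :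
    ∃ S : X →L[ℂ] X, ∀ (φ : X →L[ℂ] ℂ) (f : X), HasSum (fun n => c n * φ (T n f)) (φ (S f)) := by
  have hs : Summable fun n : ℤ => c n • T n := by
    refine Summable.of_norm_bounded hc fun n => ?_
    rw [norm_smul]
    exact mul_le_of_le_one_right (norm_nonneg _) (hT _)
  refine ⟨∑' n, c n • T n, fun φ f => ?_⟩
  simpa using (φ.comp (ContinuousLinearMap.apply ℂ X f)).hasSum hs.hasSum

lemma gen_fin {X : Type*} [NormedAddCommGroup X] [NormedSpace ℂ X] (p : Submodule ℂ X)
    [FiniteDimensional ℂ p] (Φ : p →ₗ[ℂ] ℂ) : Continuous Φ :=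
  Φ.continuous_of_finiteDimensional

lemma gen_bs {X ι : Type*} [NormedAddCommGroup X] [NormedSpace ℂ X] [CompleteSpace X]
    (p : Submodule ℂ X) (hp : IsClosed (p : Set X)) (g : ι → X →L[ℂ] ℂ)
    (h : ∀ f ∈ p, ∃ C, ∀ i, ‖g i f‖ ≤ C) : ∃ C, 0 ≤ C ∧ ∀ f ∈ p, ∀ i, ‖g i f‖ ≤ C * ‖f‖ := by
  have : CompleteSpace p := hp.completeSpace_coe
  obtain ⟨C, hC⟩ := banach_steinhaus (g := fun i => (g i).comp p.subtypeL) fun f => h f.1 f.2
  refine ⟨max C 0, le_max_right _ _, fun f hf i => ?_⟩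
  exact (((g i).comp p.subtypeL).le_opNorm ⟨f, hf⟩).trans
    (mul_le_mul_of_nonneg_right ((hC i).trans (le_max_left _ _)) (norm_nonneg _))

/-- a bounded multiplier operator `S` inverting `1 - τ_θ` off the Bohr set. -/
lemma exists_S (θ : UnitAddCircle) {δ : ℝ} (hδ : 0 < δ) :
    ∃ (S : CT →L[ℂ] CT) (m : ℤ → ℂ), (∀ k f, co k (S f) = m k * co k f) ∧
      ∀ k, δ ≤ ‖fourier k θ - 1‖ → (1 - fourier (-k) θ) * m k = 1 := by
  obtain ⟨c, hc, hG⟩ := exists_coeffs hδ
  obtain ⟨S, hS⟩ := gen_sum (X := CT) (fun n => tr (n • θ)) (fun n => norm_tr _) c hc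
  refine ⟨S, fun k => G δ (fourier (-k) θ), fun k f => ?_, fun k hk => ?_⟩
  · have h1 := hS (co k) f
    have h2 := (hG ((-k) • θ)).mul_right (co k f)
    have e : fourier 1 ((-k) • θ) = fourier (-k) θ := by simp only [fourier_apply, one_smul]
    rw [e] at h2
    have e3 : (fun n => c n * co k (tr (n • θ) f)) =
        fun i => c i * fourier i ((-k) • θ) * co k f := by
      funext n
      rw [mul_assoc, ← fourier_swap, ← co_tr]
    rw [e3] at h1
    exact h1.unique h2
  · apply G_mul hδ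
    rw [fourier_neg, ← norm_conj, map_sub, map_one, conj_conj, norm_sub_rev]
    exact hk

lemma tr_mem {E : Set ℤ} (a : UnitAddCircle) {f : CT} (hf : f ∈ CE E) : tr a f ∈ CE E :=
  fun k hk => by rw [← co_apply, co_tr, mem_CE.1 hf k hk, mul_zero]

theorem germ_one (E : Set ℤ) (θ : UnitAddCircle) {δ : ℝ} (hδ : 0 < δ) :
    AutoCont E ↔ AutoCont (E ∩ {k | ‖fourier k θ - 1‖ < δ}) := by
  obtain ⟨S, m, hS, hm⟩ := exists_S θ hδ
  set E' := E ∩ {k | ‖fourier k θ - 1‖ < δ} with hE'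
  let R : CT →L[ℂ] CT := ContinuousLinearMap.id ℂ CT - (S - (tr θ).comp S)
  have hR : ∀ k f, co k (R f) = (1 - (1 - fourier (-k) θ) * m k) * co k f := by
    intro k f
    simp only [R, sub_apply, ContinuousLinearMap.id_apply, ContinuousLinearMap.comp_apply,
      map_sub, co_tr, hS]
    ring
  have Smem : ∀ {F : Set ℤ} {f : CT}, f ∈ CE F → S f ∈ CE F := fun {F f} hf k hk => by
    rw [← co_apply, hS, mem_CE.1 hf k hk, mul_zero]
  have Rmem : ∀ f : CE E, R f ∈ CE E' := by
    intro f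
    rw [mem_CE]
    intro k hk
    rw [hR]
    by_cases h1 : k ∈ E
    · have h2 : δ ≤ ‖fourier k θ - 1‖ := by
        by_contra h3
        exact hk ⟨h1, not_le.1 h3⟩
      rw [hm k h2, sub_self, zero_mul]
    · rw [mem_CE.1 f.2 k h1, mul_zero]
  have hle : CE E' ≤ CE E := fun f hf k hk => hf k fun h => hk h.1
  let R' : CE E →L[ℂ] CE E' := (R.comp (CE E).subtypeL).codRestrict _ Rmem
  have hR' : ∀ f, (R' f).1 = R f.1 := fun _ => rfl
  have hinv : ∀ (F : Set ℤ) (Φ : CE F →ₗ[ℂ] ℂ),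
      (∀ (a : UnitAddCircle) (f g : CE F), (∀ t, g.1 t = f.1 (t - a)) → Φ g = Φ f) →
      ∀ f g : CE F, g.1 = R f.1 → Φ g = Φ f := by
    intro F Φ hΦ f g hg
    have e : g + ⟨S f.1, Smem f.2⟩ = f + ⟨tr θ (S f.1), tr_mem θ (Smem f.2)⟩ := by
      apply Subtype.ext
      change g.1 + S f.1 = f.1 + tr θ (S f.1)
      rw [hg]
      change f.1 - (S f.1 - tr θ (S f.1)) + S f.1 = _
      abel
    have e2 := congrArg Φ e
    rw [map_add, map_add, hΦ θ ⟨S f.1, Smem f.2⟩ ⟨tr θ (S f.1), tr_mem θ (Smem f.2)⟩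
      (fun _ => rfl)] at e2
    exact add_right_cancel e2
  have hinc : Continuous (Submodule.inclusion hle) :=
    continuous_subtype_val.subtype_mk _
  constructor
  · intro h Φ hΦ
    have h1 : Continuous (Φ.comp R'.toLinearMap) := by
      refine h _ fun a f g hg => hΦ a (R' f) (R' g) fun t => ?_
      have e1 : g.1 = tr a f.1 := ContinuousMap.ext hg
      have e2 : R (tr a f.1) = tr a (R f.1) := co_ext fun k => by
        rw [hR, co_tr, co_tr, hR]; ring
      rw [hR', hR', e1, e2]; rfl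
    have h2 := h1.comp hinc
    convert h2 using 1
    ext f
    exact (hinv E' Φ hΦ f (R' (Submodule.inclusion hle f)) rfl).symm
  · intro h Φ hΦ
    have h1 : Continuous (Φ.comp (Submodule.inclusion hle)) :=
      h _ fun a f g hg => hΦ a _ _ hg
    have h2 := h1.comp R'.continuous
    convert h2 using 1
    ext f
    exact (hinv E Φ hΦ f (Submodule.inclusion hle (R' f)) rfl).symm

theorem germ : ∀ (n : ℕ) (E : Set ℤ) (θ : Fin n → UnitAddCircle) {δ : ℝ}, 0 < δ →
    (AutoCont E ↔ AutoCont (E ∩ Bohr θ δ)) := by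
  intro n
  induction n with
  | zero =>
    intro E θ δ _
    have : E ∩ Bohr θ δ = E := by ext k; simp [Bohr]
    rw [this]
  | succ n ih =>
    intro E θ δ hδ
    have : E ∩ Bohr θ δ = (E ∩ {k | ‖fourier k (θ 0) - 1‖ < δ}) ∩ Bohr (Fin.tail θ) δ := by
      ext k; simp only [Bohr, mem_inter_iff, mem_ofPred_eq, Fin.forall_fin_succ, and_assoc]; rfl
    rw [this, germ_one E (θ 0) hδ]
    exact ih _ _ hδ

theorem autoCont_finite {E : Set ℤ} (hE : E.Finite) : AutoCont E := by
  have := hE.to_subtype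
  let L : CE E →ₗ[ℂ] (E → ℂ) :=
    LinearMap.pi fun k => (co k.1).toLinearMap.comp (CE E).subtype
  have hL : Function.Injective L := by
    intro f g h
    apply Subtype.ext
    refine co_ext fun k => ?_
    by_cases hk : k ∈ E
    · exact congrFun h ⟨k, hk⟩
    · rw [mem_CE.1 f.2 k hk, mem_CE.1 g.2 k hk]
  have : FiniteDimensional ℂ (CE E) := FiniteDimensional.of_injective L hL
  intro Φ _
  exact gen_fin (X := CT) (CE E) Φ

lemma isClosed_CE (E : Set ℤ) : IsClosed (CE E : Set CT) := by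
  have : (CE E : Set CT) = ⋂ k ∈ Eᶜ, {f | co k f = 0} := by
    ext f; simp only [SetLike.mem_coe, mem_CE, mem_iInter, mem_ofPred_eq, mem_compl_iff]
  rw [this]
  exact isClosed_biInter fun k _ => isClosed_eq (co k).continuous continuous_const

lemma sidon_const {E : Set ℤ} (h : IsSidon E) :
    ∃ C : ℝ, 0 ≤ C ∧ ∀ f ∈ CE E, ∀ s : Finset ℤ, ∑ k ∈ s, ‖co k f‖ ≤ C * ‖f‖ := by
  let ι := Finset ℤ × {u : ℤ → ℂ // ∀ k, ‖u k‖ ≤ 1}
  let g : ι → CT →L[ℂ] ℂ := fun i => ∑ k ∈ i.1, i.2.1 k • co k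
  have hg : ∀ i f, g i f = ∑ k ∈ i.1, i.2.1 k * co k f := by
    intro i f
    simp [g]
  obtain ⟨C, hC0, hC⟩ := gen_bs (X := CT) (CE E) (isClosed_CE E) g
    (fun f hf => ⟨∑' k, ‖co k f‖, fun i => by
    have : ‖g i f‖ ≤ ∑' k, ‖co k f‖ := by
      rw [hg]
      refine (norm_sum_le _ _).trans (le_trans (Finset.sum_le_sum fun k _ => ?_)
        ((h f hf).sum_le_tsum i.1 fun _ _ => norm_nonneg _))
      rw [norm_mul]
      exact mul_le_of_le_one_left (norm_nonneg _) (i.2.2 k)
    exact this⟩)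
  refine ⟨C, hC0, fun f hf s => ?_⟩
  have hu : ∀ k, ∃ u : ℂ, ‖u‖ ≤ 1 ∧ u * co k f = ‖co k f‖ := by
    intro k
    by_cases h0 : co k f = 0
    · exact ⟨0, by simp, by simp [h0]⟩
    · refine ⟨(‖co k f‖ : ℂ) / co k f, ?_, div_mul_cancel₀ _ h0⟩
      rw [norm_div, norm_real, norm_norm, div_self (norm_ne_zero_iff.2 h0)]
  choose u hu1 hu2 using hu
  have h1 : ‖g (s, ⟨u, hu1⟩) f‖ ≤ C * ‖f‖ := hC f hf _
  rw [hg] at h1
  simp only [hu2] at h1
  rw [← ofReal_sum, norm_real, Real.norm_of_nonneg (Finset.sum_nonneg fun _ _ => norm_nonneg _)]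
    at h1
  exact h1

lemma co_fourier (k n : ℤ) : co k (fourier n : CT) = if k = n then 1 else 0 := by
  rw [co_apply, fourierCoeff_fourier, Pi.single_apply]

theorem not_sidon_of {E : Set ℤ}
    (h : ∀ N : ℕ, ∃ u v : ℕ → ℤ, (∀ i < N, ∀ j < N, u i + v j ∈ E) ∧
      ∀ i < N, ∀ j < N, ∀ k < N, ∀ l < N, u i + v j = u k + v l → i = k ∧ j = l) :
    ¬ IsSidon E := by
  intro hS
  obtain ⟨C, hC0, hC⟩ := sidon_const hS
  obtain ⟨s, c, M, hs, hM, hlt⟩ := Pool.Agent.H92.Sidon.not_sidon (T := 1) E h C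
  have hM0 : 0 ≤ M := (norm_nonneg _).trans (hM 0)
  set f : CT := ∑ n ∈ s, c n • (fourier n : CT) with hf
  have h1 : ‖f‖ ≤ M := (ContinuousMap.norm_le _ hM0).mpr fun x => by simpa [hf] using hM x
  have hco : ∀ k, co k f = if k ∈ s then c k else 0 := by
    intro k
    simp only [hf, map_sum, map_smul, co_fourier, smul_eq_mul, mul_ite, mul_one, mul_zero]
    exact Finset.sum_ite_eq s k c
  have hfE : f ∈ CE E := mem_CE.2 fun k hk => by
    rw [hco, if_neg fun h => hk (hs (Finset.mem_coe.2 h))]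
  have h2 := hC f hfE s
  have h3 : ∑ k ∈ s, ‖co k f‖ = ∑ k ∈ s, ‖c k‖ :=
    Finset.sum_congr rfl fun k hk => by rw [hco, if_pos hk]
  have h4 := mul_le_mul_of_nonneg_left h1 hC0
  linarith

theorem not_sidon_odd : ¬ IsSidon {n | Odd n} := not_sidon_of fun N =>
    ⟨fun i => 2 * (i * N) + 1, fun j => 2 * j, fun i _ j _ => ⟨i * N + j, by ring⟩, by
      intro i hi j hj k hk l hl he
      have e : i * N + j = k * N + l := by
        have : (i : ℤ) * N + j = k * N + l := by linarith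
        exact_mod_cast this
      have e1 : j = l := by
        have := congrArg (· % N) e
        simpa [Nat.mod_eq_of_lt hj, Nat.mod_eq_of_lt hl] using this
      subst e1
      exact ⟨Nat.eq_of_mul_eq_mul_right (by omega) (Nat.add_right_cancel e), rfl⟩⟩

theorem autoCont_odd : AutoCont {n | Odd n} := by
  rw [germ_one _ ((1 / 2 : ℝ) : UnitAddCircle) one_pos]
  apply autoCont_finite
  convert finite_empty
  rw [eq_empty_iff_forall_notMem]
  rintro n ⟨⟨k, rfl⟩, h⟩
  have : fourier (2 * k + 1) ((1 / 2 : ℝ) : UnitAddCircle) = -1 := by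
    rw [fourier_coe_apply]
    have : (2 * (Real.pi : ℂ) * I * ((2 * k + 1 : ℤ) : ℂ) * ((1 / 2 : ℝ) : ℂ) / ((1 : ℝ) : ℂ))
        = k * (2 * Real.pi * I) + Real.pi * I := by push_cast; ring
    rw [this, Complex.exp_add, exp_int_mul_two_pi_mul_I, exp_pi_mul_I]; simp
  rw [mem_ofPred_eq, this] at h
  norm_num at h

end Pool.Agent.H88.Tilf
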