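import Mathlib
import Pool.Agent.H88.Tilf2

namespace Pool.Agent.H88.Tilf

open MeasureTheory Set Filter Topology Complex

theorem not_sidon_nonmult {m : ℤ} (hm : 2 ≤ m) : ¬ IsSidon {k | ¬ m ∣ k} := not_sidon_of fun N =>
    ⟨fun i => m * (i * N) + 1, fun j => m * j, fun i _ j _ => by
      intro h
      have h1 : m ∣ m * (i * N + j) + 1 := by
        have e : m * (i * N + j) + 1 = m * (i * N) + 1 + m * j := by ring
        rw [e]; exact h
      have h2 : m ∣ 1 := (dvd_add_right (dvd_mul_right m _)).1 h1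
      have := Int.le_of_dvd one_pos h2
      omega, by
      intro i hi j hj k hk l hl he
      have e : i * N + j = k * N + l := by
        have h0 : m * ((i : ℤ) * N + j) = m * (k * N + l) := by linarith
        have : (i : ℤ) * N + j = k * N + l := mul_left_cancel₀ (by omega) h0
        exact_mod_cast this
      have e1 : j = l := by
        have := congrArg (· % N) e
        simpa [Nat.mod_eq_of_lt hj, Nat.mod_eq_of_lt hl] using this
      subst e1
      exact ⟨Nat.eq_of_mul_eq_mul_right (by omega) (Nat.add_right_cancel e), rfl⟩⟩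

theorem autoCont_nonmult {m : ℤ} (hm : 2 ≤ m) : AutoCont {k | ¬ m ∣ k} := by
  set θ : UnitAddCircle := ((1 / m : ℝ) : UnitAddCircle) with hθ
  have hm0 : (m : ℂ) ≠ 0 := by exact_mod_cast (show m ≠ 0 by omega)
  have hf : ∀ k : ℤ, fourier k θ = Complex.exp (k / m * (2 * Real.pi * I)) := by
    intro k
    rw [hθ, fourier_coe_apply]
    congr 1
    push_cast
    ring
  have h1 : ∀ k : ℤ, fourier k θ = 1 → m ∣ k := by
    intro k hk
    rw [hf, Complex.exp_eq_one_iff] at hk
    obtain ⟨n, hn⟩ := hk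
    have h2 := mul_right_cancel₀ Complex.two_pi_I_ne_zero hn
    rw [div_eq_iff hm0] at h2
    exact ⟨n, by exact_mod_cast h2.trans (mul_comm _ _)⟩
  have h2 : ∀ k : ℤ, fourier k θ = fourier (k % m) θ := by
    intro k
    have e : fourier (m * (k / m)) θ = 1 := by
      rw [hf, Complex.exp_eq_one_iff]
      exact ⟨k / m, by push_cast; field_simp⟩
    conv_lhs => rw [← Int.emod_add_mul_ediv k m, fourier_add, e, mul_one]
  obtain ⟨r, hr, hmin⟩ := Finset.exists_min_image (Finset.Ico (1:ℤ) m)
    (fun r => ‖fourier r θ - 1‖) ⟨1, by simp; omega⟩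
  have hr' := Finset.mem_Ico.1 hr
  have hpos : 0 < ‖fourier r θ - 1‖ := by
    rw [norm_pos_iff, sub_ne_zero]
    intro h
    have := Int.le_of_dvd (by omega) (h1 r h)
    omega
  rw [germ_one _ θ hpos]
  apply autoCont_finite
  convert finite_empty
  rw [eq_empty_iff_forall_notMem]
  rintro k ⟨hk, h⟩
  rw [mem_ofPred_eq, h2 k] at h
  have a1 := Int.emod_nonneg k (show m ≠ 0 by omega)
  have a2 := Int.emod_lt_of_pos k (show 0 < m by omega)
  have a3 : k % m ≠ 0 := fun h0 => hk (Int.dvd_of_emod_eq_zero h0)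
  exact absurd (hmin (k % m) (Finset.mem_Ico.2 ⟨by omega, a2⟩)) (not_le.2 h)

end Pool.Agent.H88.Tilf
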