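import Mathlib
import Pool.Agent.H88.Tq2
import Pool.Agent.H88.FpDefs3

/-! Trivial duals and Banach envelopes of tree quotients. -/

namespace Pool.Agent.H88.Fp

open Pool.Agent.H88.Pex Filter Topology Finset

variable {𝕜 : Type} [RCLike 𝕜] {p θ C : ℝ}

lemma Tree.dual {X : Type} [NormedAddCommGroup X] [Module 𝕜 X] {m : ℕ → ℕ → X}
    (h : Tree 𝕜 p θ C m) (hθ : 2 * θ < 1) (φ : X →ₗ[𝕜] 𝕜) {B : ℝ}
    (hφ : ∀ x, ‖φ x‖ ≤ B * ‖x‖ ^ p⁻¹) : φ = 0 := by
  have hp := h.p0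
  have t0 := h.t0
  have h1 : ∀ n l i, i < 2 ^ l → ‖φ (m l i)‖ ≤ (2 * θ) ^ n * |B| := by
    intro n
    induction n with
    | zero =>
      intro l i hi
      refine (hφ _).trans ((mul_le_mul_of_nonneg_right (le_abs_self B) (by positivity)).trans ?_)
      rw [pow_zero, one_mul]
      exact mul_le_of_le_one_right (abs_nonneg _)
        (Real.rpow_le_one (norm_nonneg _) (h.le l i hi) (by positivity))
    | succ n ih =>
      intro l i hi
      rw [h.rel l i hi, map_smul, map_add, norm_smul, RCLike.norm_ofReal, abs_of_pos t0]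
      refine (mul_le_mul_of_nonneg_left ((norm_add_le _ _).trans (add_le_add
        (ih _ _ (by rw [pow_succ]; omega)) (ih _ _ (by rw [pow_succ]; omega)))) t0.le).trans_eq ?_
      ring
  have h3 := (tendsto_pow_atTop_nhds_zero_of_lt_one (by positivity) hθ).mul_const |B|
  rw [zero_mul] at h3
  have h2 : ∀ l i, i < 2 ^ l → φ (m l i) = 0 := fun l i hi => norm_le_zero_iff.1
    (ge_of_tendsto' h3 fun n => h1 n l i hi)
  ext x
  have hc : Continuous fun η : ℝ => |B| * η ^ p⁻¹ := by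
    have := Real.continuous_rpow_const (inv_nonneg.2 hp.le)
    fun_prop
  refine norm_le_zero_iff.1 (ge_of_tendsto ((hc.tendsto' 0 0 (by simp [hp.ne'])).mono_left
    (nhdsWithin_le_nhds (s := Set.Ioi 0))) (eventually_nhdsWithin_of_forall fun η hη => ?_))
  obtain ⟨N, b, hb⟩ := h.dense x η hη
  have : φ (x - ∑ l ∈ range N, lev m l (b l)) = φ x := by
    rw [map_sub, map_sum, sum_eq_zero, sub_zero]
    intro l _
    rw [lev_apply, map_sum]
    exact sum_eq_zero fun i hi => by rw [map_smul, h2 l i (mem_range.1 hi), smul_zero]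
  rw [← this]
  refine (hφ _).trans (mul_le_mul (le_abs_self B) ?_ (by positivity) (abs_nonneg _))
  exact Real.rpow_le_rpow (norm_nonneg _) hb.le (by positivity)

theorem trivial_dual (hp : 0 < p) (hp1 : p < 1) :
    ∃ (X : Type) (_ : AddCommGroup X) (_ : Module 𝕜 X) (ν : X → ℝ), IsPBanach 𝕜 p ν ∧
      (∃ x : X, x ≠ 0) ∧ SchurP 𝕜 p ν ∧
      ∀ φ : X →ₗ[𝕜] 𝕜, (∃ B, ∀ x, ‖φ x‖ ≤ B * ν x) → φ = 0 := by
  have h1 : (1 / 2 : ℝ) ^ p⁻¹ < 1 / 2 :=
    Real.rpow_lt_self_of_lt_one (by norm_num) (by norm_num) ((one_lt_inv₀ hp).2 hp1)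
  obtain ⟨θ, h2, h3⟩ := exists_between h1
  have h4 := (Real.rpow_inv_lt_iff_of_pos (by norm_num) (le_trans (by positivity) h2.le) hp).1 h2
  obtain ⟨X, _, _, m, _, hT, h5, -⟩ := exists_tree (𝕜 := 𝕜) hp hp1.le
    (lt_trans (by positivity) h2) (by linarith)
  exact ⟨X, inferInstance, inferInstance, _, hT.ps.banach hp, ⟨_, h5⟩, schurP_of (hT.ps.banach hp)
    (fun x => (Real.rpow_inv_rpow (norm_nonneg _) hp.ne').symm) hT,
    fun φ ⟨B, hB⟩ => hT.dual (by linarith) φ hB⟩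

theorem exists_env {X : Type} [AddCommGroup X] [Module 𝕜 X] {ν : X → ℝ} (h : IsPBanach 𝕜 p ν) :
    ∃ (Y : Type) (_ : NormedAddCommGroup Y) (_ : NormedSpace 𝕜 Y) (J : X →ₗ[𝕜] Y),
      IsEnvelope 𝕜 ν J := by
  let q : X → ℝ := fun x => sInf ((fun s : Multiset X => (s.map ν).sum) '' {s | s.sum = x})
  have n0 : ∀ s : Multiset X, 0 ≤ (s.map ν).sum := fun s =>
    Multiset.sum_nonneg (by simpa using fun _ _ => h.nonneg _)
  have q_le : ∀ (s : Multiset X) x, s.sum = x → q x ≤ (s.map ν).sum := fun s x hs =>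
    csInf_le ⟨0, by rintro _ ⟨t, -, rfl⟩; exact n0 t⟩ ⟨s, hs, rfl⟩
  have le_q : ∀ x c, (∀ s : Multiset X, s.sum = x → c ≤ (s.map ν).sum) → c ≤ q x := fun x c hc =>
    le_csInf ⟨_, {x}, by simp, rfl⟩ (by rintro _ ⟨t, ht, rfl⟩; exact hc t ht)
  have qz : q 0 = 0 := le_antisymm (by simpa using q_le 0 0 rfl) (le_q _ _ fun s _ => n0 s)
  have qs : ∀ (a : 𝕜) u, a ≠ 0 → q (a • u) ≤ ‖a‖ * q u := fun a u ha => by
    rw [← div_le_iff₀' (by positivity)]
    refine le_q _ _ fun t ht => ?_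
    rw [div_le_iff₀' (by positivity)]
    refine (q_le (t.map (a • ·)) _ (by rw [← ht, Multiset.smul_sum])).trans_eq ?_
    simp [h.smul, Multiset.sum_map_mul_left]
  obtain ⟨Y, _, _, J, h1, h2, -, h4, h5⟩ := exists_compl (𝕜 := 𝕜) (p := 1) q qz
    (fun u v => by
      rw [← sub_le_iff_le_add']
      refine le_q _ _ fun t ht => ?_
      rw [sub_le_comm]
      refine le_q _ _ fun s hs => ?_
      rw [sub_le_iff_le_add]
      simpa using q_le (s + t) _ (by simp [hs, ht]))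
    (fun a u => by
      rw [Real.rpow_one]
      by_cases ha : a = 0
      · simp [ha, qz]
      refine le_antisymm (qs a u ha) ?_
      have := qs _ (a • u) (inv_ne_zero ha)
      rwa [inv_smul_smul₀ ha, norm_inv, le_inv_mul_iff₀ (by positivity)] at this)
  let : NormedSpace 𝕜 Y := ⟨fun a y => by simpa using (h2 a y).le⟩
  refine ⟨Y, inferInstance, this, J, h1, fun x => ?_, fun Z _ _ _ T hT => ?_⟩
  · simpa [h4] using q_le {x} x (by simp)
  · obtain ⟨S, s1, s2⟩ := h5 Z T id continuous_id rfl fun v => le_q _ _ fun s hs => by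
      rw [← hs, map_multiset_sum]
      refine (norm_multiset_sum_le _).trans ?_
      rw [Multiset.map_map]
      exact Multiset.sum_map_le_sum_map _ _ fun x _ => hT x
    exact ⟨S.mkContinuous 1 fun y => by simpa using s2 y,
      S.mkContinuous_norm_le zero_le_one _, s1⟩

lemma rad_null {ψ : ℕ → ℕ → 𝕜} {B : ℝ} (h1 : ∀ l i, i < 2 ^ l → ‖ψ l i‖ ≤ B)
    (h2 : ∀ l i, i < 2 ^ l → ψ l i = ((1 / 2 : ℝ) : 𝕜) • (ψ (l + 1) (2 * i) +
      ψ (l + 1) (2 * i + 1))) :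
    Tendsto (fun n => lev ψ (n + 1) fun i => (-1 : 𝕜) ^ i / 2 ^ (n + 1)) atTop (𝓝 0) := by
  let E : ℕ → ℝ := fun l => ∑ i ∈ range (2 ^ l), ‖ψ l i‖ ^ 2 / 2 ^ l
  have k1 : ∀ n, ‖lev ψ (n + 1) fun i => (-1 : 𝕜) ^ i / 2 ^ (n + 1)‖ ^ 2 ≤ E (n + 1) - E n := by
    intro n
    have e : E (n + 1) - E n = ∑ i ∈ range (2 ^ n),
        2 ^ n * (‖ψ (n + 1) (2 * i) - ψ (n + 1) (2 * i + 1)‖ / 2 ^ (n + 1)) ^ 2 := by
      simp only [E, pow_succ' 2 n, sum_two, ← sum_sub_distrib]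
      refine sum_congr rfl fun i hi => ?_
      have := parallelogram_law_with_norm 𝕜 (ψ (n + 1) (2 * i)) (ψ (n + 1) (2 * i + 1))
      rw [h2 n i (mem_range.1 hi), norm_smul, RCLike.norm_ofReal, abs_of_pos one_half_pos,
        pow_succ (2 : ℝ) n]
      field_simp
      linarith
    rw [e, ← mul_sum, lev_apply, pow_succ' 2 n, sum_two]
    refine le_trans (pow_le_pow_left₀ (norm_nonneg _) ((norm_sum_le _ _).trans (le_of_eq
      (sum_congr rfl fun i _ => ?_))) 2) (by simpa using (sq_sum_le_card_mul_sum_sq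
        (s := range (2 ^ n))
        (f := fun i => ‖ψ (n + 1) (2 * i) - ψ (n + 1) (2 * i + 1)‖ / 2 ^ (n + 1))))
    rw [show ((-1 : 𝕜) ^ (2 * i) / 2 ^ (n + 1)) • ψ (n + 1) (2 * i) + ((-1 : 𝕜) ^ (2 * i + 1) /
      2 ^ (n + 1)) • ψ (n + 1) (2 * i + 1) = (ψ (n + 1) (2 * i) - ψ (n + 1) (2 * i + 1)) /
      2 ^ (n + 1) by simp [pow_succ, pow_mul]; ring]
    simp
  have k2 : ∀ n, E n ≤ B ^ 2 := fun n => by
    refine (sum_le_card_nsmul _ _ (B ^ 2 / 2 ^ n) fun i hi => ?_).trans_eq ?_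
    · have := h1 n i (mem_range.1 hi)
      gcongr
    · simp [mul_div_cancel₀]
  have k3 := (summable_of_sum_range_le (fun n => sq_nonneg _) fun n =>
    (sum_le_sum fun i _ => k1 i).trans (by
      rw [sum_range_sub]
      exact (sub_le_self _ (sum_nonneg fun _ _ => by positivity)).trans (k2 n))).tendsto_atTop_zero
  rw [tendsto_zero_iff_norm_tendsto_zero]
  simpa using k3.sqrt

theorem env_not_schur (hp : 0 < p) (hp1 : p < 1) :
    ∃ (X : Type) (_ : AddCommGroup X) (_ : Module 𝕜 X) (ν : X → ℝ), IsPBanach 𝕜 p ν ∧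
      SchurP 𝕜 p ν ∧ (∃ (Y : Type) (_ : NormedAddCommGroup Y) (_ : NormedSpace 𝕜 Y)
        (J : X →ₗ[𝕜] Y), IsEnvelope 𝕜 ν J) ∧
      ∀ (Y : Type) [NormedAddCommGroup Y] [NormedSpace 𝕜 Y] (J : X →ₗ[𝕜] Y),
        IsEnvelope 𝕜 ν J → ¬Schur 𝕜 Y := by
  have h4 := Real.self_lt_rpow_of_lt_one (show (0 : ℝ) < 1 / 2 by norm_num) (by norm_num) hp1
  obtain ⟨X, _, _, m, _, hT, -, h5⟩ := exists_tree (𝕜 := 𝕜) hp hp1.le one_half_pos (by linarith)
  refine ⟨X, inferInstance, inferInstance, _, hT.ps.banach hp, schurP_of (hT.ps.banach hp)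
    (fun x => (Real.rpow_inv_rpow (norm_nonneg _) hp.ne').symm) hT, exists_env (hT.ps.banach hp),
    fun Y _ _ J hJ hS => ?_⟩
  have k1 := hS (fun n => J (lev m (n + 1) fun i => (-1 : 𝕜) ^ i / 2 ^ (n + 1))) fun g => by
    simpa [lev_apply] using rad_null (ψ := fun l i => g (J (m l i))) (B := ‖g‖)
      (fun l i hi => (g.le_opNorm _).trans (mul_le_of_le_one_right (norm_nonneg _)
        ((hJ.contr _).trans (Real.rpow_le_one (norm_nonneg _) (hT.le l i hi) (by positivity)))))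
      fun l i hi => by rw [hT.rel l i hi]; simp [mul_add]
  refine zero_lt_one.not_ge (ge_of_tendsto' k1 fun n => ?_)
  obtain ⟨φ, f1, f2⟩ := h5 (fun l i => if l ≤ n then 0 else (-1) ^ (i / 2 ^ (l - (n + 1))))
    (fun l i => by split_ifs <;> simp) fun l i _ => by
      rcases lt_trichotomy l n with h | rfl | h
      · simp [h.le, Nat.succ_le_of_lt h]
      · simp [pow_succ]
      · rw [if_neg h.not_ge, if_neg (by omega), if_neg (by omega),
          show l + 1 - (n + 1) = l - (n + 1) + 1 by omega, pow_succ', ← Nat.div_div_eq_div_mul,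
          ← Nat.div_div_eq_div_mul, show 2 * i / 2 = i by omega, show (2 * i + 1) / 2 = i by omega]
        rw [← two_mul, smul_eq_mul, ← mul_assoc, RCLike.ofReal_div, RCLike.ofReal_one,
          RCLike.ofReal_ofNat, div_mul_cancel₀ _ two_ne_zero, one_mul]
  obtain ⟨S, s1, s2⟩ := hJ.univ 𝕜 φ f2
  refine le_trans (le_of_eq ?_) ((S.le_opNorm _).trans
    (mul_le_of_le_one_left (norm_nonneg _) s1))
  rw [s2, f1, lev_apply, sum_congr rfl fun i _ => show _ = (1 : 𝕜) / 2 ^ (n + 1) by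
    simp [div_mul_eq_mul_div, ← mul_pow]]
  simp

end Pool.Agent.H88.Fp
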