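import Mathlib
import Pool.Agent.H88.Tq2

/-! The free `p`-space over `[0, 1]` is a tree quotient. -/

namespace Pool.Agent.H88.Fp

open Pool.Agent.H88.Pex Filter Topology Finset Submodule

variable {p C : ℝ} {X : Type} [NormedAddCommGroup X] [Module ℝ X]

def cl (t : ℝ) : ℝ := max 0 (min 1 t)

lemma cl_one {t : ℝ} (h : 1 ≤ t) : cl t = 1 := by simp [cl, h]
lemma cl_zero {t : ℝ} (h : t ≤ 0) : cl t = 0 := by simp [cl, h]
lemma cl_lip (s t : ℝ) : |cl s - cl t| ≤ |s - t| :=
  (abs_max_sub_max_le_max _ _ _ _).trans (max_le (by simp)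
    ((abs_min_sub_min_le_max _ _ _ _).trans (max_le (by simp) le_rfl)))
lemma cl_le (s t : ℝ) : |cl s - cl t| ≤ 1 := by
  have h : ∀ s, 0 ≤ cl s ∧ cl s ≤ 1 := fun s =>
    ⟨le_max_left _ _, max_le zero_le_one (min_le_left _ _)⟩
  exact abs_le.2 ⟨by linarith [h s, h t], by linarith [h s, h t]⟩

noncomputable def FF (l : ℕ) (s : ℝ) (i : ℕ) : ℝ := cl (s * 2 ^ l - i) / 2 ^ l

lemma W_le (hp : 0 < p) (l : ℕ) {b : ℕ → ℝ} {a : ℝ} (j k : ℕ) (h0 : ∀ i, i ≠ j → i ≠ k → b i = 0)
    (h1 : ∀ i, |b i| ≤ a) : W p l b ≤ 2 * a ^ p := by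
  have a0 : 0 ≤ a := (abs_nonneg _).trans (h1 0)
  rw [W, ← sum_filter_ne_zero]
  refine (sum_le_card_nsmul _ _ _ fun i _ =>
    Real.rpow_le_rpow (norm_nonneg _) (h1 i) hp.le).trans ?_
  rw [nsmul_eq_mul]
  refine mul_le_mul_of_nonneg_right ?_ (by positivity)
  exact_mod_cast (card_le_card (t := {j, k}) fun i hi => by
    by_contra hc
    simp only [mem_insert, mem_singleton, not_or] at hc
    simp [h0 i hc.1 hc.2, hp.ne'] at hi).trans card_le_two

lemma FF_up (l : ℕ) (s : ℝ) (i : ℕ) : (FF (l + 1) s - up (1 / 2) (FF l s)) i =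
    (cl (2 * (s * 2 ^ l) - i) - cl (s * 2 ^ l - (i / 2 : ℕ))) / 2 ^ (l + 1) := by
  simp only [FF, up, Pi.sub_apply, pow_succ, RCLike.ofReal_real_eq_id, id]
  rw [show s * (2 ^ l * 2) = 2 * (s * 2 ^ l) by ring]
  field_simp

lemma FF_zero (l : ℕ) (s : ℝ) (i : ℕ)
    (h : s * 2 ^ l ≤ (i / 2 : ℕ) ∨ ((i / 2 : ℕ) : ℝ) + 1 ≤ s * 2 ^ l) :
    (FF (l + 1) s - up (1 / 2) (FF l s)) i = 0 := by
  have h1 : 2 * ((i / 2 : ℕ) : ℝ) ≤ i := by exact_mod_cast Nat.mul_div_le i 2
  have h2 : (i : ℝ) ≤ 2 * (i / 2 : ℕ) + 1 := by exact_mod_cast (by omega : i ≤ 2 * (i / 2) + 1)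
  rw [FF_up]
  rcases h with h | h
  · rw [cl_zero (by linarith), cl_zero (by linarith)]; simp
  · rw [cl_one (by linarith), cl_one (by linarith)]; simp

theorem Tree.curve [CompleteSpace X] {m : ℕ → ℕ → X} (h : Tree ℝ p (1 / 2) C m) :
    ∃ (g : ℝ → X) (L : ℝ), 1 ≤ L ∧
      (∀ s t, 0 ≤ s → s ≤ t → t ≤ 1 → ‖g t - g s‖ ≤ L * (t - s) ^ p) ∧
      ∀ l i : ℕ, i < 2 ^ l → (2 : ℝ) ^ l • (g ((i + 1 : ℕ) / 2 ^ l) - g (i / 2 ^ l)) = m l i := by
  have hp := h.p0
  let G : ℕ → ℝ → X := fun l s => lev m l (FF l s)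
  have e : ∀ l s, G (l + 1) s - G l s = lev m (l + 1) (FF (l + 1) s - up (1 / 2) (FF l s)) := by
    intro l s
    have := h.tele (c := fun k => if k = l + 1 then FF l s else 0) (by simp) 0
      (Nat.le_succ (l + 1))
    simp only [Nat.Ico_succ_singleton, sum_singleton] at this
    simp at this
    simp [G, this]
  set r : ℝ := (1 / 2) ^ p with hr
  have r0 : 0 < r := by positivity
  have r1 : r < 1 := Real.rpow_lt_one (by norm_num) (by norm_num) hp
  have rl : ∀ l : ℕ, ((1 / 2 : ℝ) ^ l) ^ p = r ^ l := fun l => by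
    rw [← Real.rpow_natCast_mul (by norm_num), mul_comm, Real.rpow_mul_natCast (by norm_num)]
  have a : ∀ s, 0 ≤ s → ∀ l, dist (G l s) (G (l + 1) s) ≤ 2 * r * r ^ l := by
    intro s hs l
    rw [dist_comm, dist_eq_norm, e, mul_assoc, ← pow_succ', ← rl]
    refine (h.lev_le _ _).trans (W_le hp _ (2 * ⌊s * 2 ^ l⌋₊) (2 * ⌊s * 2 ^ l⌋₊ + 1)
      (fun i h1 h2 => FF_zero l s i ?_) fun i => ?_)
    · by_contra hc
      push Not at hc
      have : ⌊s * 2 ^ l⌋₊ = i / 2 := (Nat.floor_eq_iff (by positivity)).2 ⟨hc.1.le, hc.2⟩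
      omega
    · rw [FF_up, abs_div, one_div_pow, abs_of_pos (a := (2 : ℝ) ^ (l + 1)) (by positivity)]
      gcongr
      exact cl_le _ _
  choose! g hg using fun s hs =>
    cauchySeq_tendsto_of_complete (cauchySeq_of_le_geometric _ _ r1 (a s hs))
  have b := fun s hs => dist_le_of_le_geometric_of_tendsto _ _ r1 (a s hs) (hg s hs)
  have r2 : 0 < 1 - r := by linarith
  refine ⟨g, 2 + 4 / (1 - r), le_add_of_le_of_nonneg one_le_two (by positivity),
    fun s t h0 h1 h2 => ?_, fun l i hi => ?_⟩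
  · rcases h1.eq_or_lt with rfl | h1'
    · simp [hp.ne']
    obtain ⟨l, l1, l2⟩ := exists_nat_pow_near_of_lt_one (sub_pos.2 h1') (by linarith)
      one_half_pos one_half_lt_one
    have c1 : ‖G l t - G l s‖ ≤ 2 * (t - s) ^ p := by
      simp only [G, ← map_sub]
      have l3 : t * 2 ^ l ≤ s * 2 ^ l + 1 := by
        rw [one_div_pow, le_div_iff₀ (by positivity)] at l2
        linarith
      have l4 : s * 2 ^ l ≤ t * 2 ^ l := by gcongr
      refine (h.lev_le _ _).trans (W_le hp _ ⌊s * 2 ^ l⌋₊ (⌊s * 2 ^ l⌋₊ + 1)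
        (fun i h1 h2 => ?_) fun i => ?_)
      · simp only [FF, Pi.sub_apply]
        rcases lt_or_gt_of_ne h1 with h1 | h1
        · have := (Nat.le_floor_iff (by positivity : 0 ≤ s * 2 ^ l)).1 (Nat.succ_le_of_lt h1)
          push_cast at this
          rw [cl_one (by linarith), cl_one (by linarith), sub_self]
        · have h3 : ((⌊s * 2 ^ l⌋₊ + 2 : ℕ) : ℝ) ≤ i := Nat.cast_le.2 (by omega)
          push_cast at h3
          have := Nat.lt_floor_add_one (s * 2 ^ l)
          rw [cl_zero (by linarith), cl_zero (by linarith), sub_self]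
      · simp only [FF, Pi.sub_apply]
        rw [← sub_div, abs_div, abs_of_pos (a := (2 : ℝ) ^ l) (by positivity),
          div_le_iff₀ (by positivity)]
        refine (cl_lip _ _).trans_eq ?_
        rw [abs_of_nonneg (by linarith)]
        ring
    have c2 := Real.rpow_le_rpow (by positivity) l1.le hp.le
    rw [rl, pow_succ'] at c2
    have c3 : 2 * r * r ^ l / (1 - r) ≤ 2 / (1 - r) * (t - s) ^ p := by
      rw [div_mul_eq_mul_div, mul_assoc]
      gcongr
    have c4 := dist_triangle4 (g t) (G l t) (G l s) (g s)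
    rw [dist_comm (g t) (G l t), dist_eq_norm (G l t) (G l s), dist_eq_norm] at c4
    have c5 : (2 + 4 / (1 - r)) * (t - s) ^ p =
      2 * (t - s) ^ p + 2 * (2 / (1 - r) * (t - s) ^ p) := by ring
    linarith [b s h0 l, b t (h0.trans h1) l]
  · have d : ∀ k : ℕ, g (k / 2 ^ l) = G l (k / 2 ^ l) := fun k => by
      have : ∀ n, G (n + l) (k / 2 ^ l) = G l (k / 2 ^ l) := by
        intro n
        induction n with
        | zero => simp
        | succ n ih =>
          rw [← ih, ← sub_eq_zero, Nat.add_right_comm, e, show FF _ _ - _ = 0 from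
            funext fun i => FF_zero _ _ i ?_, map_zero]
          rw [show (k / 2 ^ l * 2 ^ (n + l) : ℝ) = (k * 2 ^ n : ℕ) by
            push_cast; rw [pow_add]; field_simp]
          exact_mod_cast le_or_gt (k * 2 ^ n) (i / 2)
      exact tendsto_nhds_unique ((tendsto_add_atTop_iff_nat l).2 (hg _ (by positivity)))
        (by simp only [this]; exact tendsto_const_nhds)
    rw [d, d]
    simp only [G, ← map_sub, ← map_smul]
    rw [lev_apply, sum_eq_single_of_mem i (mem_range.2 hi) fun j _ hj => ?_]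
    · simp [FF, cl]
    · simp only [FF, Pi.smul_apply, Pi.sub_apply,
        div_mul_cancel₀ _ (by positivity : (2 : ℝ) ^ l ≠ 0)]
      rcases lt_or_gt_of_ne hj with h1 | h1
      · have : ((j + 1 : ℕ) : ℝ) ≤ i := by exact_mod_cast h1
        push_cast at this ⊢
        rw [cl_one (by linarith), cl_one (by linarith)]; simp
      · have : ((i + 1 : ℕ) : ℝ) ≤ j := by exact_mod_cast h1
        push_cast at this ⊢
        rw [cl_zero (by linarith), cl_zero (by linarith)]; simp

theorem Fr.tree {o : Set.Icc (0 : ℝ) 1} {δ : Set.Icc (0 : ℝ) 1 → X} (h : Fr ℝ p o δ)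
    (hp1 : p < 1) : ∃ C m, Tree ℝ p (1 / 2) C (X := X) m := by
  have hp := h.p0
  have h4 := Real.self_lt_rpow_of_lt_one (show (0 : ℝ) < 1 / 2 by norm_num) (by norm_num) hp1
  obtain ⟨Y, _, _, m', _, hT, -, -⟩ := exists_tree (𝕜 := ℝ) hp hp1.le one_half_pos (by linarith)
  obtain ⟨g, L, L1, g1, g2⟩ := hT.curve
  obtain ⟨T, t1, t2⟩ := h.lift Y hT.ps (fun s => g s - g o) L (sub_self _) (by linarith)
    fun s t => by
      rw [sub_sub_sub_cancel_right, Subtype.dist_eq, Real.dist_eq]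
      rcases le_total s.1 t.1 with e | e
      · rw [norm_sub_rev, abs_sub_comm, abs_of_nonneg (sub_nonneg.2 e)]
        exact g1 _ _ s.2.1 e t.2.2
      · rw [abs_of_nonneg (sub_nonneg.2 e)]
        exact g1 _ _ t.2.1 e s.2.2
  let d : ℝ → X := fun s => δ (Set.projIcc 0 1 zero_le_one s)
  have d1 : ∀ s t, ‖d s - d t‖ ≤ |s - t| ^ p := fun s t => by
    rw [h.iso]
    exact Real.rpow_le_rpow dist_nonneg (Set.abs_projIcc_sub_projIcc _) hp.le
  let m : ℕ → ℕ → X := fun l i => (2 : ℝ) ^ l • (d ((i + 1 : ℕ) / 2 ^ l) - d (i / 2 ^ l))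
  have t3 : ∀ l (b : ℕ → ℝ), T (lev m l b) = lev m' l b := fun l b => by
    simp only [lev_apply, map_sum, map_smul, m, map_sub]
    refine sum_congr rfl fun i hi => ?_
    have a : ∀ k : ℕ, k ≤ 2 ^ l → T (d (k / 2 ^ l)) = g (k / 2 ^ l) - g o := fun k hk => by
      simp only [d, t1]
      rw [Set.projIcc_of_mem _ ⟨by positivity, (div_le_one (by positivity)).2
        (by exact_mod_cast hk)⟩]
    rw [← g2 l i (mem_range.1 hi), a (i + 1) (mem_range.1 hi),
      a _ (mem_range.1 hi).le, sub_sub_sub_cancel_right]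
  refine ⟨L, m, hp, hp1.le, h.ps, one_half_pos, by linarith, L1, fun l i _ => ?_,
    fun l i _ => ?_, fun x η hη => ?_, fun N u hu η hη => ?_⟩
  · rw [h.ps]
    refine (mul_le_mul_of_nonneg_left (d1 _ _) (by positivity)).trans_eq ?_
    rw [← Real.mul_rpow (norm_nonneg _) (abs_nonneg _), ← sub_div]
    simp
  · simp only [m, RCLike.ofReal_real_eq_id, id]
    rw [show (((2 * i + 1 + 1 : ℕ) : ℝ) / 2 ^ (l + 1)) = (i + 1 : ℕ) / 2 ^ l by
      push_cast; field_simp; ring, show (((2 * i : ℕ) : ℝ) / 2 ^ (l + 1)) = i / 2 ^ l by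
      push_cast; field_simp; ring, pow_succ]
    module
  · have := h.ps.cont
    let S := span ℝ {y | ∃ l i, i < 2 ^ l ∧ y = m l i}
    have s1 : ∀ s : Set.Icc (0 : ℝ) 1, δ s - d 0 ∈ S.topologicalClosure := fun s => by
      have e : d s = δ s := by simp [d]
      have hc : Continuous fun t : ℝ => |t - s| ^ p := by
        have := Real.continuous_rpow_const hp.le
        fun_prop
      have t : Tendsto (fun l : ℕ => d (⌊s.1 * 2 ^ l⌋₊ / 2 ^ l) - d 0) atTop (𝓝 (δ s - d 0)) := by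
        rw [← e]
        refine (tendsto_iff_norm_sub_tendsto_zero.2 (squeeze_zero (fun _ => norm_nonneg _)
          (fun l => d1 _ _) ?_)).sub_const _
        exact (hc.tendsto' s 0 (by simp [hp.ne'])).comp
          ((tendsto_nat_floor_mul_div_atTop s.2.1).comp
            (tendsto_pow_atTop_atTop_of_one_lt one_lt_two))
      refine mem_closure_of_tendsto t (Eventually.of_forall fun l => ?_)
      have := sum_range_sub (fun i : ℕ => d (i / 2 ^ l)) ⌊s.1 * 2 ^ l⌋₊
      simp only [Nat.cast_zero, zero_div] at this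
      rw [← this]
      refine sum_mem fun i hi => ?_
      have hi' : i < 2 ^ l := (mem_range.1 hi).trans_le (Nat.floor_le_of_le (by
        exact_mod_cast mul_le_of_le_one_left (by positivity) s.2.2))
      simpa [m] using S.smul_mem ((2 : ℝ) ^ l)⁻¹ (subset_span ⟨l, i, hi', rfl⟩)
    have s2 := map_mem (T := LinearMap.id) continuous_id (S := S.topologicalClosure)
      (fun s _ => by simpa [h.zero] using sub_mem (s1 s) (s1 o)) (h.dense x)
    rw [topologicalClosure_coe, closure_closure] at s2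
    obtain ⟨y, hy, h1⟩ := Metric.mem_closure_iff.1 s2 η hη
    have s3 : ∀ᶠ N in atTop, ∃ b : ℕ → ℕ → ℝ, y = ∑ l ∈ range N, lev m l (b l) := by
      clear h1
      induction hy using span_induction with
      | mem y hy =>
        obtain ⟨l, i, hi, rfl⟩ := hy
        filter_upwards [eventually_gt_atTop l] with N hN
        refine ⟨Pi.single l (Pi.single i 1), ?_⟩
        rw [sum_eq_single_of_mem l (mem_range.2 hN) fun k _ hk => by simp [hk]]
        simp [lev_apply, Pi.single_apply, hi]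
      | zero => exact Eventually.of_forall fun N => ⟨0, by simp⟩
      | add x y _ _ hx hy =>
        filter_upwards [hx, hy] with N ⟨a, ha⟩ ⟨b, hb⟩
        exact ⟨a + b, by simp [ha, hb, sum_add_distrib]⟩
      | smul a x _ hx => exact hx.mono fun N ⟨b, hb⟩ => ⟨a • b, by simp [hb, smul_sum]⟩
    obtain ⟨N, b, rfl⟩ := s3.exists
    exact ⟨N, b, by rwa [← dist_eq_norm]⟩
  · obtain ⟨N', h1, c, c0, c1, c2⟩ := hT.low N u hu η hη
    refine ⟨N', h1, c, c0, c1, c2.trans (add_le_add_left ?_ _)⟩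
    simpa [t3] using t2 (∑ l ∈ range N, lev m l (u l))

end Pool.Agent.H88.Fp
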