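import Mathlib

set_option autoImplicit false

open MeasureTheory Filter Topology

namespace Pool.Agent.H88.Transf

/-- The `n`-point diameter of a set. -/
noncomputable def rhoN {S : Type} [MetricSpace S] (A : Set S) (n : ℕ) : ENNReal :=
  ⨆ (p : Fin n → S) (_ : ∀ i, p i ∈ A),
    (∏ i, ∏ j with i < j, edist (p i) (p j)) ^ ((2 : ℝ) / (n * (n - 1)))

/-- The transfinite diameter, the infimum of the non-increasing sequence `rhoN A n`, `2 ≤ n`. -/
noncomputable def rho {S : Type} [MetricSpace S] (A : Set S) : ENNReal := ⨅ n : ℕ, rhoN A (n + 2)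

/-- The essential transfinite diameter. -/
noncomputable def essRho {S : Type} [MetricSpace S] [MeasurableSpace S] (P : Measure S)
    (A : Set S) : ENNReal :=
  ⨅ (B : Set S) (_ : B ⊆ A ∧ MeasurableSet B ∧ P B = P A), rho B

/-- A measure-preserving mixing map. -/
def Mixing {S : Type} [MeasurableSpace S] (P : Measure S) (ψ : S → S) : Prop :=
  MeasurePreserving ψ P P ∧ ∀ A B : Set S, MeasurableSet A → MeasurableSet B →
    Tendsto (fun n => P.real (ψ^[n] ⁻¹' A ∩ B)) atTop (𝓝 (P.real A * P.real B))

end Pool.Agent.H88.Transf
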