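import Pool.Agent.H88.BernMix
import Pool.Agent.H88.TransfDefs

set_option autoImplicit false

open MeasureTheory Filter Topology Set

namespace Pool.Agent.H88.Transf

open Pool.Agent.H88.BernMix

/-- an enumeration of the integers -/
noncomputable def en : ℕ ≃ ℤ := (Denumerable.eqv ℤ).symm

lemma ex_diff {x y : ℤ → ℕ} (h : x ≠ y) : ∃ k, x (en k) ≠ y (en k) := by
  by_contra h'
  push Not at h'
  exact h (funext fun i => by simpa using h' (en.symm i))

open Classical in
/-- the ultrametric with scales `θ` -/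
noncomputable def dd (θ : ℕ → ℝ) (x y : ℤ → ℕ) : ℝ :=
  if h : x = y then 0 else θ (Nat.find (ex_diff h))

variable {θ : ℕ → ℝ}

lemma dd_lt_iff (ha : Antitone θ) {x y : ℤ → ℕ} {r : ℝ} (hr : 0 < r) :
    dd θ x y < r ↔ ∀ j, r ≤ θ j → x (en j) = y (en j) := by
  classical
  unfold dd
  split_ifs with h
  · subst h; simp [hr]
  · constructor
    · intro h1 j hj
      by_contra h2
      have := ha (Nat.find_min' (ex_diff h) h2)
      linarith
    · intro h1
      by_contra h2
      exact Nat.find_spec (ex_diff h) (h1 _ (not_lt.1 h2))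

lemma dd_le (ha : Antitone θ) (hp : ∀ k, 0 < θ k) {x y : ℤ → ℕ} {k : ℕ}
    (h : ∀ j < k, x (en j) = y (en j)) : dd θ x y ≤ θ k := by
  classical
  unfold dd
  split_ifs with h0
  · exact (hp k).le
  · refine ha ?_
    by_contra h1
    exact Nat.find_spec (ex_diff h0) (h _ (not_le.1 h1))

lemma dd_nonneg (hp : ∀ k, 0 < θ k) (x y : ℤ → ℕ) : 0 ≤ dd θ x y := by
  unfold dd; split_ifs
  · exact le_rfl
  · exact (hp _).le

/-- the metric space structure -/
@[reducible] noncomputable def ms (ha : Antitone θ) (hp : ∀ k, 0 < θ k) : MetricSpace (ℤ → ℕ) where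
  dist := dd θ
  dist_self x := by simp [dd]
  dist_comm x y := by
    refine eq_of_forall_gt_iff fun r => ?_
    by_cases hr : 0 < r
    · rw [dd_lt_iff ha hr, dd_lt_iff ha hr]
      exact forall_congr' fun j => imp_congr_right fun _ => eq_comm
    · have h1 := dd_nonneg hp x y
      have h2 := dd_nonneg hp y x
      constructor <;> intro h <;> linarith [not_lt.1 hr]
  dist_triangle x y z := by
    refine le_of_forall_gt fun r hr => ?_
    have h1 := dd_nonneg hp x y
    have h2 := dd_nonneg hp y z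
    have hr0 : 0 < r := by linarith
    rw [dd_lt_iff ha hr0]
    intro j hj
    rw [(dd_lt_iff ha hr0).1 (by linarith : dd θ x y < r) j hj,
      (dd_lt_iff ha hr0).1 (by linarith : dd θ y z < r) j hj]
  eq_of_dist_eq_zero {x y} h := by
    by_contra h0
    have h1 : dd θ x y = 0 := h
    rw [dd, dif_neg h0] at h1
    exact (hp _).ne' h1

/-- number of classes -/
noncomputable def NN (f : ℤ → ℕ) (k n : ℕ) : ℕ := ∏ j : Fin k, (f (en j + n) + 1)

/-- the exponent of the scales -/
noncomputable def LL (f : ℤ → ℕ) (k : ℕ) : ℕ :=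
  ∑ l ∈ Finset.range (k + 1), l * ∑ n ∈ Finset.range (l + 1), (NN f l n + 1) * NN f l n

/-- the scales -/
noncomputable def th (f : ℤ → ℕ) (k : ℕ) : ℝ := (1 / 2) ^ LL f k

lemma th_anti (f : ℤ → ℕ) : Antitone (th f) := fun _ _ h =>
  pow_le_pow_of_le_one (by norm_num) (by norm_num)
    (Finset.sum_le_sum_of_subset (Finset.range_mono (Nat.succ_le_succ h)))

lemma th_pos (f : ℤ → ℕ) (k : ℕ) : 0 < th f k := by unfold th; positivity

lemma th_zero (f : ℤ → ℕ) : th f 0 = 1 := by simp [th, LL]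

lemma NN_pos (f : ℤ → ℕ) (k n : ℕ) : 0 < NN f k n := Finset.prod_pos fun _ _ => Nat.succ_pos _

lemma LL_ge (f : ℤ → ℕ) {k n : ℕ} (h : n ≤ k) : k * ((NN f k n + 1) * NN f k n) ≤ LL f k := by
  refine le_trans ?_ (Finset.single_le_sum (f := fun l => l * ∑ n ∈ Finset.range (l + 1),
    (NN f l n + 1) * NN f l n) (fun _ _ => Nat.zero_le _) (Finset.self_mem_range_succ k))
  exact Nat.mul_le_mul_left _ (Finset.single_le_sum (f := fun n => (NN f k n + 1) * NN f k n)
    (fun _ _ => Nat.zero_le _) (Finset.mem_range.2 (Nat.lt_succ_of_le h)))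

lemma rho_univ (f : ℤ → ℕ) : @rho _ (ms (th_anti f) (th_pos f)) univ = 1 := by
  let := ms (th_anti f) (th_pos f)
  have hle : ∀ x y : ℤ → ℕ, edist x y ≤ 1 := fun x y => by
    rw [edist_dist, ENNReal.ofReal_le_one, ← th_zero f]
    exact dd_le (th_anti f) (th_pos f) fun j hj => absurd hj (Nat.not_lt_zero j)
  have key : ∀ n, rhoN (univ : Set (ℤ → ℕ)) (n + 2) = 1 := by
    intro n
    apply le_antisymm
    · refine iSup₂_le fun p _ => ENNReal.rpow_le_one
        (Finset.prod_le_one' fun i _ => Finset.prod_le_one' fun j _ => hle _ _) ?_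
      push_cast
      have : (0 : ℝ) ≤ n := Nat.cast_nonneg n
      exact div_nonneg (by norm_num) (by nlinarith)
    · refine le_iSup₂_of_le (fun i _ => (i : ℕ)) (fun _ => trivial) (le_of_eq ?_)
      rw [Finset.prod_eq_one, ENNReal.one_rpow]
      refine fun i _ => Finset.prod_eq_one fun j hj => ?_
      have hij : (i : ℕ) ≠ j := (Fin.lt_def.1 (Finset.mem_filter.1 hj).2).ne
      refine le_antisymm (hle _ _) ?_
      rw [edist_dist, ENNReal.one_le_ofReal]
      by_contra h
      exact hij ((dd_lt_iff (th_anti f) one_pos).1 (not_le.1 h) 0 (th_zero f).ge)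
  simp [rho, key]

lemma prod_le_single {ι : Type*} {s : Finset ι} {g : ι → ENNReal} (h : ∀ i ∈ s, g i ≤ 1) {a : ι}
    (ha : a ∈ s) : ∏ i ∈ s, g i ≤ g a := by
  classical
  rw [← Finset.mul_prod_erase _ _ ha]
  exact mul_le_of_le_one_right' (Finset.prod_le_one' fun i hi => h i (Finset.mem_of_mem_erase hi))

lemma rho_zero (f : ℤ → ℕ) (n : ℕ) (A : Set (ℤ → ℕ)) (hA : ∀ y ∈ A, ∀ i, y i ≤ f (i + n)) :
    @rho _ (ms (th_anti f) (th_pos f)) A = 0 := by
  let := ms (th_anti f) (th_pos f)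
  have hle : ∀ x y : ℤ → ℕ, edist x y ≤ 1 := fun x y => by
    rw [edist_dist, ENNReal.ofReal_le_one, ← th_zero f]
    exact dd_le (th_anti f) (th_pos f) fun j hj => absurd hj (Nat.not_lt_zero j)
  have key : ∀ k ≥ n, rho A ≤ ENNReal.ofReal ((1 / 2) ^ k) := by
    intro k hk
    obtain ⟨m, hm⟩ : ∃ m, NN f k n = m + 1 := ⟨NN f k n - 1, by have := NN_pos f k n; omega⟩
    refine (iInf_le _ m).trans (iSup₂_le fun p hp => ?_)
    have hcard : Fintype.card ((j : Fin k) → Fin (f (en j + n) + 1)) < Fintype.card (Fin (m + 2)) := by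
      rw [Fintype.card_pi, Fintype.card_fin]
      simp only [Fintype.card_fin]
      exact lt_of_eq_of_lt hm (Nat.lt_succ_self _)
    have pig : ∃ a b : Fin (m + 2), a < b ∧ ∀ j < k, p a (en j) = p b (en j) := by
      obtain ⟨a, b, hab, h⟩ := Fintype.exists_ne_map_eq_of_card_lt
        (fun (a : Fin (m + 2)) (j : Fin k) =>
          (⟨p a (en j), Nat.lt_succ_of_le (hA _ (hp a) _)⟩ : Fin (f (en j + n) + 1))) hcard
      have h' : ∀ j < k, p a (en j) = p b (en j) := fun j hj =>
        congrArg Fin.val (congrFun h ⟨j, hj⟩)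
      rcases lt_or_gt_of_ne hab with h1 | h1
      · exact ⟨a, b, h1, h'⟩
      · exact ⟨b, a, h1, fun j hj => (h' j hj).symm⟩
    obtain ⟨a, b, hab, h⟩ := pig
    have h1 : ∏ i, ∏ j with i < j, edist (p i) (p j) ≤ ENNReal.ofReal (th f k) := by
      refine (prod_le_single (g := fun i => ∏ j with i < j, edist (p i) (p j))
        (fun i _ => Finset.prod_le_one' fun j _ => hle _ _) (Finset.mem_univ a)).trans ?_
      refine (prod_le_single (g := fun j => edist (p a) (p j))
        (fun j _ => hle _ _) (Finset.mem_filter.2 ⟨Finset.mem_univ b, hab⟩)).trans ?_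
      rw [edist_dist]
      exact ENNReal.ofReal_le_ofReal (dd_le (th_anti f) (th_pos f) h)
    have hm0 : (0 : ℝ) ≤ m := Nat.cast_nonneg m
    have hD : (0 : ℝ) < ((m + 2 : ℕ) : ℝ) * (((m + 2 : ℕ) : ℝ) - 1) := by push_cast; nlinarith
    refine (ENNReal.rpow_le_rpow h1 (by positivity)).trans ?_
    rw [ENNReal.ofReal_rpow_of_pos (th_pos f k)]
    refine ENNReal.ofReal_le_ofReal ?_
    rw [th, ← Real.rpow_natCast, ← Real.rpow_natCast, ← Real.rpow_mul (by norm_num)]
    refine Real.rpow_le_rpow_of_exponent_ge (by norm_num) (by norm_num) ?_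
    rw [← mul_div_assoc, le_div_iff₀ hD]
    have h2 := LL_ge f hk
    rw [hm] at h2
    have h3 : (k : ℝ) * (((m : ℝ) + 1 + 1) * (m + 1)) ≤ LL f k := by exact_mod_cast h2
    have h4 : (0 : ℝ) ≤ LL f k := Nat.cast_nonneg _
    push_cast
    nlinarith
  have ht : Tendsto (fun k : ℕ => ENNReal.ofReal ((1 / 2) ^ k)) atTop (𝓝 0) := by
    simpa using ENNReal.tendsto_ofReal
      (tendsto_pow_atTop_nhds_zero_of_lt_one (r := (1 / 2 : ℝ)) (by norm_num) (by norm_num))
  exact le_antisymm (ge_of_tendsto ht (eventually_atTop.2 ⟨n, key⟩)) zero_le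

lemma ball_ok (μ : Measure ℕ) [IsProbabilityMeasure μ] (hμ : ∀ k, μ {k} ≠ 0) (f : ℤ → ℕ)
    (x : ℤ → ℕ) (r : ℝ) (hr : 0 < r) :
    MeasurableSet {y | dd (th f) y x < r} ∧
      0 < Measure.infinitePi (fun _ : ℤ => μ) {y | dd (th f) y x < r} := by
  constructor
  · simp only [dd_lt_iff (th_anti f) hr]
    measurability
  · obtain ⟨k, hk⟩ := exists_pow_lt_of_lt_one hr (show (1 / 2 : ℝ) < 1 by norm_num)
    have h1 : th f k < r := by
      refine lt_of_le_of_lt (pow_le_pow_of_le_one (by norm_num) (by norm_num) ?_) hk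
      refine le_trans ?_ (LL_ge f (Nat.zero_le k))
      have := NN_pos f k 0
      exact Nat.le_mul_of_pos_right _ (by positivity)
    refine lt_of_lt_of_le ?_ (measure_mono (s := Set.pi (((Finset.range k).image en : Finset ℤ) : Set ℤ)
      fun i => {x i}) fun y hy => ?_)
    · rw [Measure.infinitePi_pi _ fun i _ => measurableSet_singleton _, pos_iff_ne_zero]
      exact Finset.prod_ne_zero_iff.2 fun i _ => hμ _
    · refine (dd_le (th_anti f) (th_pos f) fun j hj => ?_).trans_lt h1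
      exact hy (en j) (Finset.mem_coe.2 (Finset.mem_image_of_mem _ (Finset.mem_range.2 hj)))

lemma exists_f (μ : Measure ℕ) [IsProbabilityMeasure μ] : ∃ g : ℤ → ℕ,
    0 < Measure.infinitePi (fun _ : ℤ => μ) {x | ∀ i, x i ≤ g i} := by
  have h1 : Tendsto (fun m : ℕ => μ (Set.Ioi m)) atTop (𝓝 0) := by
    have := tendsto_measure_iInter_atTop (μ := μ) (s := fun m : ℕ => Set.Ioi m)
      (fun _ => (measurableSet_Ioi).nullMeasurableSet) (fun _ _ h => Set.Ioi_subset_Ioi h)
      ⟨0, measure_ne_top _ _⟩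
    have e : ⋂ m : ℕ, Set.Ioi m = ∅ := by
      ext k; simp only [mem_iInter, mem_Ioi, mem_empty_iff_false, iff_false, not_forall, not_lt]
      exact ⟨k, le_rfl⟩
    rwa [e, measure_empty] at this
  obtain ⟨ε, hε, hsum⟩ := ENNReal.exists_pos_sum_of_countable one_ne_zero ℤ
  choose g hg using fun i => (h1.eventually (gt_mem_nhds (ENNReal.coe_pos.2 (hε i)))).exists
  refine ⟨g, ?_⟩
  by_contra h0
  have hm : MeasurableSet {x : ℤ → ℕ | ∀ i, x i ≤ g i} := by measurability
  have h2 := prob_compl_eq_one_sub (μ := Measure.infinitePi (fun _ : ℤ => μ)) hm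
  rw [nonpos_iff_eq_zero.1 (not_lt.1 h0), tsub_zero] at h2
  have h3 : {x : ℤ → ℕ | ∀ i, x i ≤ g i}ᶜ = ⋃ i, (fun x => x i) ⁻¹' Set.Ioi (g i) := by
    ext x; simp
  rw [h3] at h2
  have h4 := measure_iUnion_le (μ := Measure.infinitePi (fun _ : ℤ => μ))
    fun i => (fun x : ℤ → ℕ => x i) ⁻¹' Set.Ioi (g i)
  rw [h2] at h4
  refine absurd (h4.trans_lt (lt_of_le_of_lt (ENNReal.tsum_le_tsum fun i => ?_) hsum)) (lt_irrefl _)
  rw [(measurePreserving_eval_infinitePi (fun _ : ℤ => μ) i).measure_preimage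
    measurableSet_Ioi.nullMeasurableSet]
  exact (hg i).le

end Pool.Agent.H88.Transf
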