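import Pool.Agent.H88.TubDefs

open Finset

namespace Pool.Agent.H88.Tub

abbrev Ix := Fin 3 × Fin 5

def xi (i : Ix) : ℤ := (i.1 : ℕ) - 1
def eta (i : Ix) : ℤ := (i.2 : ℕ) - 2

noncomputable def pw (i : Ix) : ℝ :=
  if i.2 = 2 then (if i.1 = 1 then 0 else 1 / 10) else (if i.1 = 1 then 1 / 12 else 7 / 120)

lemma pw_nonneg (i : Ix) : 0 ≤ pw i := by unfold pw; split_ifs <;> norm_num
lemma pw_le (i : Ix) : pw i ≤ 1 / 10 := by unfold pw; split_ifs <;> norm_num

noncomputable def E {V : Type} [AddCommMonoid V] (o : ℕ → Ix → V) : ℕ → (V → ℝ) → ℝ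
  | 0, φ => φ 0
  | k + 1, φ => E o k fun c => ∑ i, pw i * φ (c + o (k + 1) i)

section
variable {V : Type} [AddCommMonoid V] (o : ℕ → Ix → V)

lemma E_mono (k : ℕ) : ∀ {φ ψ : V → ℝ}, (∀ c, φ c ≤ ψ c) → E o k φ ≤ E o k ψ := by
  induction k with
  | zero => exact fun h => h 0
  | succ k ih =>
    exact fun h => ih fun c => sum_le_sum fun i _ => mul_le_mul_of_nonneg_left (h _) (pw_nonneg i)

lemma E_add (k : ℕ) : ∀ φ ψ : V → ℝ, E o k (fun c => φ c + ψ c) = E o k φ + E o k ψ := by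
  induction k with
  | zero => exact fun _ _ => rfl
  | succ k ih =>
    intro φ ψ
    simp only [E, mul_add, sum_add_distrib]
    exact ih _ _

lemma E_mul (k : ℕ) (r : ℝ) : ∀ φ : V → ℝ, E o k (fun c => r * φ c) = r * E o k φ := by
  induction k with
  | zero => exact fun _ => rfl
  | succ k ih =>
    intro φ
    simp only [E]
    rw [← ih]
    congr 1
    funext c
    rw [mul_sum]
    exact sum_congr rfl fun i _ => by ring

lemma E_sum {ι : Type} (s : Finset ι) (k : ℕ) (φ : ι → V → ℝ) :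
    E o k (fun c => ∑ j ∈ s, φ j c) = ∑ j ∈ s, E o k (φ j) := by
  classical
  induction s using Finset.induction_on with
  | empty => simpa using E_mul o k 0 fun _ => 0
  | insert a s ha ih => simp only [sum_insert ha, E_add, ih]

end

noncomputable def NN (a b u : ℝ) : ℝ :=
  |u + (a + b) / 2| - |u + (a - b) / 2| - |u - (a - b) / 2| + |u - (a + b) / 2|

noncomputable def D (a b u : ℝ) : ℝ := NN a b u / (2 * a * b)

lemma D_comm (a b u : ℝ) : D a b u = D b a u := by
  unfold D NN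
  rw [show u + (b - a) / 2 = u - (a - b) / 2 by ring, show u - (b - a) / 2 = u + (a - b) / 2 by ring,
    add_comm b a]
  ring

lemma D_nonneg {a b : ℝ} (ha : 0 < a) (hb : 0 < b) (u : ℝ) : 0 ≤ D a b u := by
  refine div_nonneg ?_ (by positivity)
  simp only [NN, abs_eq_max_neg, max_def]
  split_ifs <;> linarith

lemma D_le {a b : ℝ} (ha : 0 < a) (hb : 0 < b) (u : ℝ) : D a b u ≤ 1 / a := by
  have : NN a b u ≤ 2 * b := by
    simp only [NN, abs_eq_max_neg, max_def]
    split_ifs <;> linarith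
  rw [D, div_le_div_iff₀ (by positivity) ha]
  nlinarith

lemma D_half {a b u : ℝ} (hb : 0 < b) (hab : b ≤ a) (hu : |u| ≤ a / 2) : 1 ≤ 2 * a * D a b u := by
  have ha : 0 < a := by linarith
  have : b ≤ NN a b u := by
    rw [abs_le] at hu
    simp only [NN, abs_eq_max_neg, max_def]
    split_ifs <;> linarith
  rw [D, ← mul_div_assoc, le_div_iff₀ (by positivity)]
  nlinarith

lemma NN_hi {a b u : ℝ} (ha : 0 < a) (hb : 0 < b) (hu : (a + b) / 2 ≤ u) : NN a b u = 0 := by
  rw [NN, abs_of_nonneg (by linarith), abs_of_nonneg (by linarith), abs_of_nonneg (by linarith),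
    abs_of_nonneg (by linarith)]
  ring

lemma NN_lo {a b u : ℝ} (ha : 0 < a) (hb : 0 < b) (hu : u ≤ -((a + b) / 2)) : NN a b u = 0 := by
  rw [NN, abs_of_nonpos (by linarith), abs_of_nonpos (by linarith), abs_of_nonpos (by linarith),
    abs_of_nonpos (by linarith)]
  ring

lemma NN_mid {a b u : ℝ} (hb : 0 < b) (h1 : u ≤ (a - b) / 2) (h2 : -((a - b) / 2) ≤ u) :
    NN a b u = 2 * b := by
  rw [NN, abs_of_nonneg (by linarith), abs_of_nonneg (by linarith), abs_of_nonpos (by linarith),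
    abs_of_nonpos (by linarith)]
  ring

lemma D_shift {a b u s r : ℝ} (ha : 0 < a) (hb : 0 < b) (hs : |s| + b / 2 ≤ r)
    (h1 : ¬ |u - a / 2| < r) (h2 : ¬ |u + a / 2| < r) : D a b (u + s) = D a b u := by
  unfold D
  congr 1
  have := neg_abs_le s
  have := le_abs_self s
  have := abs_nonneg s
  rw [not_lt, le_abs] at h1 h2
  rcases h1 with h1 | h1
  · rw [NN_hi ha hb (by linarith), NN_hi ha hb (by linarith)]
  · rcases h2 with h2 | h2
    · rw [NN_mid hb (by linarith) (by linarith), NN_mid hb (by linarith) (by linarith)]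
    · rw [NN_lo ha hb (by linarith), NN_lo ha hb (by linarith)]

lemma D_sub {a b : ℝ} (ha : 0 < a) (hb : 0 < b) (u : ℝ) :
    D (3 * a) (5 * b) u = ∑ i : Ix, 1 / 15 * D a b (u + (a * xi i + b * eta i)) := by
  simp only [Fintype.sum_prod_type, Fin.sum_univ_succ, Fin.sum_univ_zero, xi, eta, D, NN]
  simp
  field_simp
  ring_nf

end Pool.Agent.H88.Tub
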