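import Pool.Agent.H88.Tub0

open Finset

namespace Pool.Agent.H88.Tub

open Classical in
noncomputable def ind (p : Prop) : ℝ := if p then 1 else 0

lemma ind_nonneg (p : Prop) : 0 ≤ ind p := by unfold ind; split_ifs <;> norm_num
lemma ind_pos {p : Prop} (h : p) : ind p = 1 := if_pos h
lemma ind_neg {p : Prop} (h : ¬ p) : ind p = 0 := if_neg h

structure Setup (a b : ℕ → ℝ) (m n : ℕ) (ξ η : Ix → ℤ) (o : ℕ → Ix → ℝ) : Prop where
  ha : ∀ k, 0 < a k
  hb : ∀ k, 0 < b k
  ham : ∀ k, a k = m * a (k + 1)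
  hbn : ∀ k, b k = n * b (k + 1)
  hξ : ∀ i, 2 * |ξ i| < m
  hη : ∀ i, 2 * |η i| < n
  m5 : m ≤ 5
  inj : ∀ i j, ξ i = ξ j → η i = η j → i = j
  ho : ∀ k i, o k i = a k * ξ i + b k * η i
  sub : ∀ k u, D (a k) (b k) u = ∑ i : Ix, 1 / 15 * D (a (k + 1)) (b (k + 1)) (u + o (k + 1) i)
  mar : ∀ F : ℤ → ℝ, ∑ i, (pw i - 1 / 15) * F (ξ i) = 0

section
variable {a b : ℕ → ℝ} {m n : ℕ} {ξ η : Ix → ℤ} {o : ℕ → Ix → ℝ} (h : Setup a b m n ξ η o)
include h

lemma Setup.apow (l L : ℕ) : a l = m ^ L * a (l + L) := by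
  induction L with
  | zero => simp
  | succ L ih => rw [ih, h.ham (l + L), pow_succ, mul_assoc]; rfl

lemma Setup.eta_le (i : Ix) : 2 * |(η i : ℝ)| + 1 ≤ n := by
  have : 2 * |η i| + 1 ≤ n := h.hη i
  exact_mod_cast this

lemma Setup.step {k L l : ℕ} (hk : l + 1 + L = k) (hba : b l ≤ a k) (t c : ℝ) :
    ∑ i, pw i * ind (∃ z : ℤ, 2 * |z| < m ^ L ∧ |c + o (l + 1) i - t + a k * z| < b (l + 1) / 2) ≤
      1 / 10 * ind (∃ z : ℤ, 2 * |z| < m ^ (L + 1) ∧ |c - t + a k * z| < b l / 2) := by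
  have e1 := h.apow (l + 1) L
  rw [hk] at e1
  have e2 := h.hbn l
  have b1 := h.hb (l + 1)
  have a1 := h.ha k
  have e3 : ∀ i (z : ℤ), c + o (l + 1) i - t + a k * z =
      c - t + a k * (z + m ^ L * ξ i : ℤ) + b (l + 1) * η i := fun i z => by
    rw [h.ho, e1]
    push_cast
    ring
  simp only [e3]
  by_cases ex : ∃ i, ∃ z : ℤ, 2 * |z| < m ^ L ∧
      |c - t + a k * (z + m ^ L * ξ i : ℤ) + b (l + 1) * η i| < b (l + 1) / 2
  · obtain ⟨i, z, hz, hw⟩ := ex
    have mp : (0 : ℤ) < m ^ L := lt_of_le_of_lt (by positivity) hz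
    have bi := h.eta_le i
    have g1 : 2 * |z + m ^ L * ξ i| < m ^ (L + 1) := by
      have := abs_add_le z (m ^ L * ξ i)
      rw [abs_mul, abs_of_pos mp] at this
      have : 2 * |ξ i| + 1 ≤ m := h.hξ i
      rw [pow_succ]
      nlinarith
    have g2 : |c - t + a k * (z + m ^ L * ξ i : ℤ)| < b l / 2 := by
      have := abs_sub (c - t + a k * (z + m ^ L * ξ i : ℤ) + b (l + 1) * η i) (b (l + 1) * η i)
      rw [add_sub_cancel_right, abs_mul, abs_of_pos b1] at this
      nlinarith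
    rw [sum_eq_single i, ind_pos ⟨z, hz, hw⟩, ind_pos ⟨z + m ^ L * ξ i, g1, g2⟩]
    · simpa using pw_le i
    · intro j _ hj
      rw [ind_neg, mul_zero]
      rintro ⟨z', hz', hw'⟩
      have bj := h.eta_le j
      obtain ⟨Z, hZ⟩ : ∃ Z : ℤ, Z = z + m ^ L * ξ i := ⟨_, rfl⟩
      obtain ⟨Z', hZ'⟩ : ∃ Z : ℤ, Z = z' + m ^ L * ξ j := ⟨_, rfl⟩
      rw [← hZ] at hw
      rw [← hZ'] at hw'
      rw [abs_lt] at hw hw'
      have i1 := abs_le.1 (le_refl |(η i : ℝ)|)
      have j1 := abs_le.1 (le_refl |(η j : ℝ)|)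
      have z1 : Z = Z' := by
        have u1 : (Z : ℝ) - Z' < 1 := lt_of_mul_lt_mul_left (a := a k) (by nlinarith) a1.le
        have u2 : (Z' : ℝ) - Z < 1 := lt_of_mul_lt_mul_left (a := a k) (by nlinarith) a1.le
        have u1' : Z - Z' < 1 := by exact_mod_cast u1
        have u2' : Z' - Z < 1 := by exact_mod_cast u2
        omega
      have y1 : η j = η i := by
        rw [z1] at hw
        have u1 : (η i : ℝ) - η j < 1 :=
          lt_of_mul_lt_mul_left (a := b (l + 1)) (by nlinarith) b1.le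
        have u2 : (η j : ℝ) - η i < 1 :=
          lt_of_mul_lt_mul_left (a := b (l + 1)) (by nlinarith) b1.le
        have u1' : η i - η j < 1 := by exact_mod_cast u1
        have u2' : η j - η i < 1 := by exact_mod_cast u2
        omega
      have x1 : ξ j = ξ i := by
        have p1 := abs_le.1 (le_refl |z|)
        have p2 := abs_le.1 (le_refl |z'|)
        have u1 : ξ i - ξ j < 1 := lt_of_mul_lt_mul_left (a := (m : ℤ) ^ L) (by nlinarith) mp.le
        have u2 : ξ j - ξ i < 1 := lt_of_mul_lt_mul_left (a := (m : ℤ) ^ L) (by nlinarith) mp.le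
        omega
      exact hj (h.inj _ _ x1 y1)
    · simp
  · rw [sum_eq_zero fun i _ => by rw [ind_neg fun h' => ex ⟨i, h'⟩, mul_zero]]
    exact mul_nonneg (by norm_num) (ind_nonneg _)

lemma Setup.n1 : (1 : ℝ) ≤ n := by
  have := h.eta_le default
  linarith [abs_nonneg (η default : ℝ)]

lemma Setup.m1 : (1 : ℝ) ≤ m := by
  have : 2 * |ξ default| + 1 ≤ m := h.hξ _
  have : (1 : ℤ) ≤ m := by linarith [abs_nonneg (ξ default)]
  exact_mod_cast this

lemma Setup.win (k : ℕ) (t : ℝ) (L : ℕ) : ∀ l, l + L = k → b l ≤ a k →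
    E o k (fun c => ind (|c - t| < b k / 2)) ≤ (1 / 10) ^ L *
      E o l fun c => ind (∃ z : ℤ, 2 * |z| < m ^ L ∧ |c - t + a k * z| < b l / 2) := by
  induction L with
  | zero =>
    rintro l rfl _
    rw [pow_zero, one_mul]
    refine E_mono o _ fun c => ?_
    by_cases e : |c - t| < b (l + 0) / 2
    · rw [ind_pos e, ind_pos ⟨0, by simp, by simpa using e⟩]
    · rw [ind_neg e]
      exact ind_nonneg _
  | succ L ih =>
    intro l hl hba
    have : b (l + 1) ≤ b l := by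
      have := h.hbn l
      have := h.n1
      have := h.hb (l + 1)
      nlinarith
    refine (ih (l + 1) (by omega) (this.trans hba)).trans ?_
    rw [pow_succ, mul_assoc, ← E_mul o l (1 / 10)]
    refine mul_le_mul_of_nonneg_left (E_mono o l fun c => ?_) (by positivity)
    exact h.step (by omega) hba t c

lemma Setup.win2 {k L l : ℕ} (hk : l + L = k) (hba : b l ≤ a k) {M : ℝ}
    (hM : ∀ t, E o l (fun c => D (a l) (b l) (c - t)) ≤ M) (t : ℝ) :
    E o k (fun c => ind (|c - t| < b k / 2)) ≤ (1 / 10) ^ L * (4 * a l * M) := by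
  have e1 := h.apow l L
  rw [hk] at e1
  have a1 := h.ha k
  have a2 := h.ha l
  have b1 := h.hb l
  have mL : (1 : ℝ) ≤ m ^ L := one_le_pow₀ h.m1
  have hba' : b l ≤ a l := by nlinarith
  refine (h.win k t L l hk hba).trans (mul_le_mul_of_nonneg_left ?_ (by positivity))
  refine (E_mono o l (ψ := fun c => 2 * a l * D (a l) (b l) (c - (t - a l / 2)) +
    2 * a l * D (a l) (b l) (c - (t + a l / 2))) fun c => ?_).trans ?_
  · have d1 := mul_nonneg (by positivity : 0 ≤ 2 * a l) (D_nonneg a2 b1 (c - (t - a l / 2)))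
    have d2 := mul_nonneg (by positivity : 0 ≤ 2 * a l) (D_nonneg a2 b1 (c - (t + a l / 2)))
    by_cases e : ∃ z : ℤ, 2 * |z| < m ^ L ∧ |c - t + a k * z| < b l / 2
    · rw [ind_pos e]
      obtain ⟨z, hz, hw⟩ := e
      have hz' : 2 * |(z : ℝ)| < m ^ L := by exact_mod_cast hz
      have p1 := abs_le.1 (le_refl |(z : ℝ)|)
      rw [abs_lt] at hw
      rcases le_total c t with g | g
      · have := D_half b1 hba' (u := c - (t - a l / 2)) (abs_le.2 ⟨by nlinarith, by linarith⟩)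
        linarith
      · have := D_half b1 hba' (u := c - (t + a l / 2)) (abs_le.2 ⟨by linarith, by nlinarith⟩)
        linarith
    · rw [ind_neg e]
      linarith
  · rw [E_add, E_mul, E_mul]
    have := hM (t - a l / 2)
    have := hM (t + a l / 2)
    nlinarith

lemma Setup.crude (k : ℕ) (t : ℝ) : E o (k + 1) (fun c => D (a (k + 1)) (b (k + 1)) (c - t)) ≤
    3 / 2 * E o k (fun c => D (a k) (b k) (c - t)) := by
  rw [← E_mul]
  refine E_mono o k fun c => ?_
  rw [h.sub, mul_sum]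
  refine sum_le_sum fun i _ => ?_
  simp only
  rw [show c + o (k + 1) i - t = c - t + o (k + 1) i by ring]
  have := D_nonneg (h.ha (k + 1)) (h.hb (k + 1)) (c - t + o (k + 1) i)
  have := pw_le i
  nlinarith

lemma Setup.fine {k L l : ℕ} (hk : l + L = k) (hba : b l ≤ a k) {M : ℝ} (M0 : 0 ≤ M)
    (hM : ∀ t, E o l (fun c => D (a l) (b l) (c - t)) ≤ M) (t : ℝ) :
    E o (k + 1) (fun c => D (a (k + 1)) (b (k + 1)) (c - t)) ≤
      E o k (fun c => D (a k) (b k) (c - t)) + 40 * (1 / 2) ^ L * M := by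
  have a1 := h.ha (k + 1)
  have b1 := h.hb (k + 1)
  have key : ∀ c, ∑ i, pw i * D (a (k + 1)) (b (k + 1)) (c + o (k + 1) i - t) ≤
      D (a k) (b k) (c - t) + ∑ i : Ix, 1 / (15 * a (k + 1)) *
        (ind (|c - (t - a (k + 1) * ξ i + a (k + 1) / 2)| < b k / 2) +
          ind (|c - (t - a (k + 1) * ξ i - a (k + 1) / 2)| < b k / 2)) := fun c => by
    have m0 := h.mar fun x => D (a (k + 1)) (b (k + 1)) (c - t + a (k + 1) * x)
    rw [h.sub, ← sub_zero (∑ i, pw i * _), ← m0, ← sum_sub_distrib, ← sum_add_distrib]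
    refine sum_le_sum fun i _ => ?_
    rw [show c + o (k + 1) i - t = c - t + a (k + 1) * ξ i + b (k + 1) * η i by rw [h.ho]; ring,
      show c - t + o (k + 1) i = c - t + a (k + 1) * ξ i + b (k + 1) * η i by rw [h.ho]; ring,
      show c - (t - a (k + 1) * ξ i + a (k + 1) / 2) = c - t + a (k + 1) * ξ i - a (k + 1) / 2 by
        ring,
      show c - (t - a (k + 1) * ξ i - a (k + 1) / 2) = c - t + a (k + 1) * ξ i + a (k + 1) / 2 by
        ring]
    generalize c - t + a (k + 1) * ξ i = u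
    have i1 := ind_nonneg (|u - a (k + 1) / 2| < b k / 2)
    have i2 := ind_nonneg (|u + a (k + 1) / 2| < b k / 2)
    have p0 := pw_nonneg i
    have p1 := pw_le i
    have d1 := D_nonneg a1 b1 u
    have d2 := D_le a1 b1 u
    have d3 := D_nonneg a1 b1 (u + b (k + 1) * η i)
    have d4 := D_le a1 b1 (u + b (k + 1) * η i)
    have e : 1 / (15 * a (k + 1)) = 1 / 15 * (1 / a (k + 1)) := by field_simp
    have q : 0 < 1 / a (k + 1) := by positivity
    rw [e]
    by_cases c1 : |u - a (k + 1) / 2| < b k / 2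
    · rw [ind_pos c1]
      nlinarith [mul_nonneg q.le i2]
    · by_cases c2 : |u + a (k + 1) / 2| < b k / 2
      · rw [ind_pos c2]
        nlinarith [mul_nonneg q.le i1]
      · rw [D_shift a1 b1 (by
          rw [abs_mul, abs_of_pos b1, h.hbn k]
          nlinarith [h.eta_le i]) c1 c2, ind_neg c1, ind_neg c2]
        linarith
  refine (E_mono o k key).trans ?_
  rw [E_add, E_sum]
  refine add_le_add le_rfl ((sum_le_card_nsmul _ _ (40 * (1 / 2) ^ L * M / 15)
    fun i _ => ?_).trans (le_of_eq (by simp; ring)))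
  rw [E_mul, E_add]
  have w1 := h.win2 hk hba hM (t - a (k + 1) * ξ i + a (k + 1) / 2)
  have w2 := h.win2 hk hba hM (t - a (k + 1) * ξ i - a (k + 1) / 2)
  have e1 := h.apow l (L + 1)
  rw [show l + (L + 1) = k + 1 by omega] at e1
  have m5 : (m : ℝ) ≤ 5 := by exact_mod_cast h.m5
  have e2 : (m : ℝ) ^ (L + 1) ≤ 5 ^ (L + 1) := pow_le_pow_left₀ (by positivity) m5 _
  have e3 : (1 / 10 : ℝ) ^ L * 5 ^ (L + 1) = 5 * (1 / 2) ^ L := by
    rw [pow_succ, ← mul_assoc, ← mul_pow]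
    norm_num
    ring
  refine (mul_le_mul_of_nonneg_left (add_le_add w1 w2) (by positivity)).trans ?_
  rw [e1]
  calc _ = 8 / 15 * ((1 / 10) ^ L * (m : ℝ) ^ (L + 1)) * M := by field_simp; ring
    _ ≤ 8 / 15 * ((1 / 10) ^ L * 5 ^ (L + 1)) * M := by gcongr
    _ = _ := by rw [e3]; ring

end

end Pool.Agent.H88.Tub
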