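import Pool.Agent.H88.Tub1

open Finset

namespace Pool.Agent.H88.Tub

noncomputable def off (α β : ℝ) (k : ℕ) (i : Ix) : ℝ := α / 3 ^ k * xi i + β / 5 ^ k * eta i

lemma xi_lt : ∀ i, 2 * |xi i| < (3 : ℕ) := by decide
lemma eta_lt : ∀ i, 2 * |eta i| < (5 : ℕ) := by decide
lemma xe_inj : ∀ i j, xi i = xi j → eta i = eta j → i = j := by decide

lemma sub_c {α β : ℝ} (hα : 0 < α) (hβ : 0 < β) (k : ℕ) (u : ℝ) : D (α / 3 ^ k) (β / 5 ^ k) u =
    ∑ i : Ix, 1 / 15 * D (α / 3 ^ (k + 1)) (β / 5 ^ (k + 1)) (u + off α β (k + 1) i) := by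
  unfold off
  rw [← D_sub (by positivity) (by positivity)]
  congr 1 <;> field_simp <;> ring

lemma setup1 {α β : ℝ} (hα : 0 < α) (hβ : 0 < β) :
    Setup (fun k => α / 3 ^ k) (fun k => β / 5 ^ k) 3 5 xi eta (off α β) where
  ha k := by positivity
  hb k := by positivity
  ham k := by push_cast; field_simp; ring
  hbn k := by push_cast; field_simp; ring
  hξ := xi_lt
  hη := eta_lt
  m5 := by norm_num
  inj := xe_inj
  ho _ _ := rfl
  sub := sub_c hα hβ
  mar F := by
    simp [Fintype.sum_prod_type, Fin.sum_univ_succ, pw, xi]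
    ring

lemma setup2 {α β : ℝ} (hα : 0 < α) (hβ : 0 < β) :
    Setup (fun k => β / 5 ^ k) (fun k => α / 3 ^ k) 5 3 eta xi (off α β) where
  ha k := by positivity
  hb k := by positivity
  ham k := by push_cast; field_simp; ring
  hbn k := by push_cast; field_simp; ring
  hξ := eta_lt
  hη := xi_lt
  m5 := by norm_num
  inj i j h1 h2 := xe_inj i j h2 h1
  ho _ _ := add_comm _ _
  sub k u := by simpa only [D_comm (β / _)] using sub_c hα hβ k u
  mar F := by
    simp [Fintype.sum_prod_type, Fin.sum_univ_succ, pw, eta]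
    ring

lemma half_le (j : ℕ) : (1 / 2 : ℝ) ^ (j / 4) ≤ 2 * (17 / 20) ^ j := by
  have h1 : (1 / 2 : ℝ) ^ (j / 4) ≤ ((17 / 20) ^ 4) ^ (j / 4) :=
    pow_le_pow_left₀ (by norm_num) (by norm_num) _
  have h2 : ((17 / 20 : ℝ)) ^ (4 * (j / 4) + 3) ≤ (17 / 20) ^ j :=
    pow_le_pow_of_le_one (by norm_num) (by norm_num) (by omega)
  rw [pow_add] at h2
  rw [← pow_mul] at h1
  have : 0 < (17 / 20 : ℝ) ^ (4 * (j / 4)) := by positivity
  nlinarith

noncomputable def ek (k0 k : ℕ) : ℝ :=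
  (17 / 20) ^ k + if k0 ≤ k then (17 / 20) ^ (k - k0) else (17 / 20) ^ (k0 - 1 - k)

lemma ek_sum (k0 K : ℕ) : ∑ k ∈ range K, ek k0 k ≤ 20 := by
  have : ∑ k ∈ range K, ek k0 k ≤ 20 / 3 * (1 - (17 / 20) ^ K) + 20 / 3 * (1 - (17 / 20) ^ (K - k0)) +
      20 / 3 * (17 / 20) ^ (k0 - K) := by
    induction K with
    | zero => simp; positivity
    | succ K ih =>
      rw [sum_range_succ, ek]
      split_ifs with h
      · rw [show K + 1 - k0 = K - k0 + 1 by omega, show k0 - (K + 1) = k0 - K by omega, pow_succ,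
          pow_succ]
        linarith
      · rw [show K + 1 - k0 = K - k0 by omega, show k0 - (K + 1) = k0 - 1 - K by omega, pow_succ]
        rw [show k0 - K = k0 - 1 - K + 1 by omega, pow_succ] at ih
        linarith
  have h1 : (0 : ℝ) ≤ (17 / 20) ^ K := by positivity
  have h2 : (0 : ℝ) ≤ (17 / 20) ^ (K - k0) := by positivity
  have h3 : (17 / 20 : ℝ) ^ (k0 - K) ≤ 1 := pow_le_one₀ (by norm_num) (by norm_num)
  linarith

lemma ek_pos (k0 k : ℕ) : 0 ≤ ek k0 k := by
  unfold ek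
  split_ifs <;> positivity

lemma dens {α β : ℝ} (hα : 0 < α) (hβ : 0 < β) (k : ℕ) (t : ℝ) :
    E (off α β) k (fun c => D (α / 3 ^ k) (β / 5 ^ k) (c - t)) ≤ Real.exp 1600 / max α β := by
  have ex : ∃ k : ℕ, β / 5 ^ k ≤ α / 3 ^ k := by
    obtain ⟨k, hk⟩ := pow_unbounded_of_one_lt (β / α) (by norm_num : (1 : ℝ) < 5 / 3)
    refine ⟨k, ?_⟩
    rw [div_pow, div_lt_div_iff₀ hα (by positivity)] at hk
    rw [div_le_div_iff₀ (by positivity) (by positivity)]
    linarith
  obtain ⟨k0, h0, h1⟩ : ∃ k0 : ℕ, β / 5 ^ k0 ≤ α / 3 ^ k0 ∧ ∀ k < k0, α / 3 ^ k ≤ β / 5 ^ k :=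
    ⟨Nat.find ex, Nat.find_spec ex, fun k hk => (not_le.1 (Nat.find_min ex hk)).le⟩
  have mx : 0 < max α β := lt_max_of_lt_left hα
  obtain ⟨M, hM⟩ : ∃ M : ℕ → ℝ, M = fun k => Real.exp (80 * ∑ j ∈ range k, ek k0 j) / max α β :=
    ⟨_, rfl⟩
  have M0 : ∀ k, 0 < M k := fun k => by rw [hM]; positivity
  have Ms : ∀ k, (1 + 80 * ek k0 k) * M k ≤ M (k + 1) := fun k => by
    simp only [hM, sum_range_succ, mul_add, Real.exp_add, ← mul_div_assoc]
    refine div_le_div_of_nonneg_right ?_ mx.le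
    rw [mul_comm]
    exact mul_le_mul_of_nonneg_left (by linarith [Real.add_one_le_exp (80 * ek k0 k)])
      (Real.exp_pos _).le
  have Mm : Monotone M := monotone_nat_of_le_succ fun k => by
    nlinarith [Ms k, M0 k, mul_nonneg (ek_pos k0 k) (M0 k).le]
  have main : ∀ k, ∀ t, E (off α β) k (fun c => D (α / 3 ^ k) (β / 5 ^ k) (c - t)) ≤ M k := by
    intro k
    induction k using Nat.strong_induction_on with
    | _ k ih =>
    intro t
    rcases k with _ | k
    · simp only [E, hM, pow_zero, div_one, range_zero, sum_empty, mul_zero, Real.exp_zero]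
      rcases le_total α β with g | g
      · rw [max_eq_right g, D_comm]
        exact D_le hβ hα _
      · rw [max_eq_left g]
        exact D_le hα hβ _
    · refine le_trans ?_ (Ms k)
      have ik := ih k (by omega) t
      have fin : ∀ L : ℕ, (1 / 2 : ℝ) ^ L ≤ 2 * ek k0 k →
          E (off α β) k (fun c => D (α / 3 ^ k) (β / 5 ^ k) (c - t)) + 40 * (1 / 2) ^ L * M k ≤
            (1 + 80 * ek k0 k) * M k := fun L hL => by nlinarith [M0 k]
      have p0 : (0 : ℝ) ≤ (17 / 20) ^ k := by positivity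
      by_cases c : k0 ≤ k
      · obtain ⟨L, hL⟩ : ∃ L, L = (k - k0) / 4 := ⟨_, rfl⟩
        refine ((setup1 hα hβ).fine (k := k) (L := L) (l := k - L) (by omega) ?_ (M0 k).le
          (fun t => (ih _ (by omega) t).trans (Mm (by omega))) t).trans (fin L ?_)
        · obtain ⟨j, rfl⟩ : ∃ j, k = k0 + j := ⟨k - k0, by omega⟩
          have e1 : (5 : ℝ) ^ L * 3 ^ j ≤ 5 ^ j := by
            have a1 : (5 : ℝ) ^ L ≤ ((5 / 3) ^ 4) ^ L := pow_le_pow_left₀ (by norm_num) (by norm_num) _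
            have a2 : (5 / 3 : ℝ) ^ (4 * L) ≤ (5 / 3) ^ j :=
              pow_le_pow_right₀ (by norm_num) (by omega)
            rw [← pow_mul] at a1
            have := a1.trans a2
            rwa [div_pow, le_div_iff₀ (by positivity)] at this
          have e2 : (5 : ℝ) ^ (k0 + j - L) * 5 ^ L = 5 ^ k0 * 5 ^ j := by
            rw [← pow_add, ← pow_add]; congr 1; omega
          rw [div_le_div_iff₀ (by positivity) (by positivity)] at h0 ⊢
          refine le_of_mul_le_mul_right ?_ (show (0 : ℝ) < 5 ^ L by positivity)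
          rw [mul_assoc α, e2, pow_add]
          calc β * (3 ^ k0 * 3 ^ j) * 5 ^ L = (β * 3 ^ k0) * (5 ^ L * 3 ^ j) := by ring
            _ ≤ (α * 5 ^ k0) * 5 ^ j := by gcongr
            _ = _ := by ring
        · have := half_le (k - k0)
          rw [ek, if_pos c, hL]
          linarith
      · obtain ⟨L, hL⟩ : ∃ L, L = min k ((k0 - 1 - k) / 4) := ⟨_, rfl⟩
        have := (setup2 hα hβ).fine (k := k) (L := L) (l := k - L) (by omega) ?_ (M0 k).le
          (fun t => by
            simpa only [D_comm (β / _)] using (ih _ (by omega) t).trans (Mm (by omega))) t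
        · simp only [D_comm (β / _)] at this
          refine this.trans (fin L ?_)
          have h4 := half_le (k0 - 1 - k)
          rw [ek, if_neg c]
          have p1 : (0 : ℝ) ≤ (17 / 20) ^ (k0 - 1 - k) := by positivity
          rcases le_total k ((k0 - 1 - k) / 4) with g | g
          · rw [hL, min_eq_left g]
            have : (1 / 2 : ℝ) ^ k ≤ (17 / 20) ^ k := pow_le_pow_left₀ (by norm_num) (by norm_num) _
            linarith
          · rw [hL, min_eq_right g]
            linarith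
        · obtain ⟨j, hj⟩ : ∃ j, k0 = k + j + 1 := ⟨k0 - 1 - k, by omega⟩
          have h2 := h1 (k + j) (by omega)
          have e1 : (3 : ℝ) ^ L * 3 ^ j ≤ 5 ^ j := by
            have a1 : (3 : ℝ) ^ L ≤ ((5 / 3) ^ 4) ^ L := pow_le_pow_left₀ (by norm_num) (by norm_num) _
            have a2 : (5 / 3 : ℝ) ^ (4 * L) ≤ (5 / 3) ^ j :=
              pow_le_pow_right₀ (by norm_num) (by omega)
            rw [← pow_mul] at a1
            have := a1.trans a2
            rwa [div_pow, le_div_iff₀ (by positivity)] at this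
          have e2 : (3 : ℝ) ^ (k - L) * 3 ^ L = 3 ^ k := by
            rw [← pow_add]; congr 1; omega
          rw [div_le_div_iff₀ (by positivity) (by positivity)] at h2 ⊢
          rw [pow_add, pow_add, ← e2] at h2
          refine le_of_mul_le_mul_right ?_ (show (0 : ℝ) < 5 ^ j by positivity)
          calc α * 5 ^ k * 5 ^ j = α * (5 ^ k * 5 ^ j) := by ring
            _ ≤ β * (3 ^ (k - L) * 3 ^ L * 3 ^ j) := h2
            _ = β * 3 ^ (k - L) * (3 ^ L * 3 ^ j) := by ring
            _ ≤ _ := by gcongr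
  refine (main k t).trans ?_
  rw [hM]
  exact div_le_div_of_nonneg_right (Real.exp_le_exp.2 (by linarith [ek_sum k0 k])) mx.le

lemma strip {α β ε : ℝ} (hα : 0 < α) (hβ : 0 < β) (k : ℕ) (h1 : α / 3 ^ k ≤ ε) (h2 : β / 5 ^ k ≤ ε)
    (t : ℝ) : E (off α β) k (fun c => ind (|c - t| < ε)) ≤ 6 * ε * (Real.exp 1600 / max α β) := by
  obtain ⟨a, ha⟩ : ∃ a, a = α / 3 ^ k := ⟨_, rfl⟩
  obtain ⟨b, hb⟩ : ∃ b, b = β / 5 ^ k := ⟨_, rfl⟩
  have a0 : 0 < a := by rw [ha]; positivity
  have b0 : 0 < b := by rw [hb]; positivity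
  have hd := dens hα hβ k
  rw [← ha] at h1 hd
  rw [← hb] at h2 hd
  obtain ⟨μ, hμ0, hμ, hh⟩ : ∃ μ, 0 < μ ∧ μ ≤ ε ∧ ∀ u, |u| ≤ μ / 2 → 1 ≤ 2 * μ * D a b u := by
    rcases le_total a b with g | g
    · exact ⟨b, b0, h2, fun u hu => by rw [D_comm]; exact D_half a0 g hu⟩
    · exact ⟨a, a0, h1, fun u hu => D_half b0 g hu⟩
  have e0 : 0 < ε := by linarith
  refine (E_mono _ k (ψ := fun c => ∑ j ∈ range (⌊2 * ε / μ⌋₊ + 1),
    2 * μ * D a b (c - (t - ε + (j + 1 / 2) * μ))) fun c => ?_).trans ?_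
  · have nn : ∀ j ∈ range (⌊2 * ε / μ⌋₊ + 1), 0 ≤ 2 * μ * D a b (c - (t - ε + ((j : ℕ) + 1 / 2) * μ)) :=
      fun j _ => mul_nonneg (by positivity) (D_nonneg a0 b0 _)
    by_cases e : |c - t| < ε
    · rw [ind_pos e]
      rw [abs_lt] at e
      have p : 0 ≤ (c - t + ε) / μ := div_nonneg (by linarith) hμ0.le
      refine le_trans (hh _ ?_) (single_le_sum nn (a := ⌊(c - t + ε) / μ⌋₊) (mem_range.2
        (Nat.lt_succ_of_le (Nat.floor_mono (div_le_div_of_nonneg_right (by linarith) hμ0.le)))))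
      have f1 := Nat.floor_le p
      have f2 := Nat.lt_floor_add_one ((c - t + ε) / μ)
      rw [le_div_iff₀ hμ0] at f1
      rw [div_lt_iff₀ hμ0] at f2
      rw [abs_le]
      constructor <;> nlinarith
    · rw [ind_neg e]
      exact sum_nonneg nn
  · rw [E_sum]
    have X0 : 0 ≤ Real.exp 1600 / max α β := div_nonneg (Real.exp_pos _).le (le_max_of_le_left hα.le)
    refine (sum_le_card_nsmul _ _ (2 * μ * (Real.exp 1600 / max α β)) fun j _ => ?_).trans ?_
    · rw [E_mul]
      exact mul_le_mul_of_nonneg_left (hd _) (by positivity)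
    · have f1 := Nat.floor_le (show 0 ≤ 2 * ε / μ by positivity)
      rw [le_div_iff₀ hμ0] at f1
      rw [card_range, nsmul_eq_mul, ← mul_assoc]
      push_cast
      exact mul_le_mul_of_nonneg_right (by nlinarith) X0

lemma E_abs (α β : ℝ) (k : ℕ) : ∀ φ, E (off α β) k φ = E (off |α| |β|) k φ := by
  induction k with
  | zero => exact fun _ => rfl
  | succ k ih =>
    intro φ
    simp only [E]
    rw [ih]
    congr 1
    funext c
    rcases abs_choice α with h1 | h1 <;> rcases abs_choice β with h2 | h2 <;> rw [h1, h2] <;>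
      simp [Fintype.sum_prod_type, Fin.sum_univ_succ, pw, xi, eta, off, neg_div] <;> ring_nf

end Pool.Agent.H88.Tub
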