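import Pool.Agent.H88.Tub2

open Finset MeasureTheory

namespace Pool.Agent.H88.Tub

def DD : Finset (Fin 3 × Fin 5) := univ.erase (1, 2)

noncomputable def off2 (k : ℕ) (i : Ix) : ℝ × ℝ := (1 / 3 ^ k * xi i, 1 / 5 ^ k * eta i)

lemma E_map (α β : ℝ) (k : ℕ) : ∀ φ : ℝ → ℝ,
    E off2 k (fun c => φ (α * c.1 + β * c.2)) = E (off α β) k φ := by
  induction k with
  | zero => intro φ; simp [E]
  | succ k ih =>
    intro φ
    simp only [E]
    rw [← ih]
    congr 1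
    funext c
    refine sum_congr rfl fun i _ => ?_
    congr 2
    simp only [off2, off, Prod.fst_add, Prod.snd_add]
    ring

noncomputable def pt (k : ℕ) (c : ℝ × ℝ) (z : EuclideanSpace ℝ (Fin 2)) : EuclideanSpace ℝ (Fin 2) :=
  !₂[1 / 2 + c.1 + (z 0 - 1 / 2) / 3 ^ k, 1 / 2 + c.2 + (z 1 - 1 / 2) / 5 ^ k]

lemma pw_sum : ∑ i, pw i = 1 := by
  simp [Fintype.sum_prod_type, Fin.sum_univ_succ, pw]
  norm_num

lemma supp {F : Set (EuclideanSpace ℝ (Fin 2))} (hF : ∀ d ∈ DD, ∀ z ∈ F, cmap 3 5 d z ∈ F) (k : ℕ) :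
    ∀ Φ : ℝ × ℝ → ℝ, (∀ c, (∀ z ∈ F, pt k c z ∈ F) → 1 ≤ Φ c) → 1 ≤ E off2 k Φ := by
  induction k with
  | zero =>
    refine fun Φ h => h 0 fun z hz => ?_
    convert hz
    ext i
    fin_cases i <;> simp [pt]
  | succ k ih =>
    refine fun Φ h => ih _ fun c hc => ?_
    rw [← pw_sum]
    refine sum_le_sum fun i _ => ?_
    by_cases hi : i = (1, 2)
    · simp [hi, pw]
    · refine le_mul_of_one_le_right (pw_nonneg i) (h _ fun z hz => ?_)
      convert hc _ (hF i (by simp [DD, hi]) z hz) using 1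
      ext j
      fin_cases j <;> simp [pt, cmap, off2, xi, eta] <;> field_simp <;> ring

lemma tube_vol {l ε : ℝ} (hl : 0 < l) (hε : 0 < ε) {a b : EuclideanSpace ℝ (Fin 2)}
    (h : l ≤ dist a b) :
    ENNReal.ofReal (l * ε) ≤ volume (Metric.thickening ε (segment ℝ a b)) := by
  have hd : 0 < ‖b - a‖ := by rw [← dist_eq_norm, dist_comm]; linarith
  have hl' : l ≤ ‖b - a‖ := by rwa [← dist_eq_norm, dist_comm]
  obtain ⟨c, hc⟩ : ∃ c : ℕ → EuclideanSpace ℝ (Fin 2),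
    c = fun j : ℕ => a + (2 * ε * j / ‖b - a‖) • (b - a) := ⟨_, rfl⟩
  have sub : (⋃ j ∈ range (⌊l / (2 * ε)⌋₊ + 1), Metric.ball (c j) ε) ⊆
      Metric.thickening ε (segment ℝ a b) := by
    refine Set.iUnion₂_subset fun j hj => Metric.ball_subset_thickening ?_ _
    rw [segment_eq_image']
    refine ⟨2 * ε * j / ‖b - a‖, ⟨by positivity, ?_⟩, by rw [hc]⟩
    have : (j : ℝ) ≤ l / (2 * ε) :=
      (Nat.le_floor_iff (by positivity)).1 (Nat.lt_succ_iff.1 (mem_range.1 hj))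
    rw [le_div_iff₀ (by positivity)] at this
    rw [div_le_one hd]
    linarith
  refine le_trans ?_ (measure_mono sub)
  rw [measure_biUnion_finset ?_ fun _ _ => Metric.isOpen_ball.measurableSet]
  · simp only [EuclideanSpace.volume_ball_fin_two, sum_const, card_range, nsmul_eq_mul]
    rw [← ENNReal.ofReal_pow hε.le, ← ENNReal.ofReal_mul (by positivity), ← ENNReal.ofReal_natCast,
      ← ENNReal.ofReal_mul (by positivity)]
    refine ENNReal.ofReal_le_ofReal ?_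
    have f2 := Nat.lt_floor_add_one (l / (2 * ε))
    rw [div_lt_iff₀ (by positivity)] at f2
    push_cast
    have := Real.pi_gt_three
    have p : (0 : ℝ) ≤ ⌊l / (2 * ε)⌋₊ + 1 := by positivity
    nlinarith [mul_nonneg p (sq_nonneg ε)]
  · intro i _ j _ hij
    refine Metric.ball_disjoint_ball ?_
    have : c i - c j = (2 * ε * ((i : ℝ) - j) / ‖b - a‖) • (b - a) := by
      simp only [hc, add_sub_add_left_eq_sub, ← sub_smul]
      congr 1
      ring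
    rw [dist_eq_norm, this, norm_smul, Real.norm_eq_abs, abs_div, abs_norm,
      div_mul_cancel₀ _ hd.ne', abs_mul, abs_of_pos (by positivity)]
    have : (1 : ℤ) ≤ |(i : ℤ) - j| := Int.one_le_abs (by omega)
    have : (1 : ℝ) ≤ |(i : ℝ) - j| := by exact_mod_cast this
    nlinarith

lemma tube_strip {ε R : ℝ} (hε : 0 < ε) (hR : 0 < R) {a b : EuclideanSpace ℝ (Fin 2)} (h : a ≠ b) :
    ∃ α β γ : ℝ, α ≠ 0 ∧ β ≠ 0 ∧ 1 / 2 ≤ max |α| |β| ∧
      ∀ z ∈ Metric.thickening ε (segment ℝ a b), ‖z‖ ≤ R → |α * z 0 + β * z 1 - γ| < 3 * ε := by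
  have hd : 0 < ‖b - a‖ := norm_pos_iff.2 (sub_ne_zero.2 h.symm)
  have hn := EuclideanSpace.real_norm_sq_eq (b - a)
  simp only [Fin.sum_univ_two, PiLp.sub_apply] at hn
  obtain ⟨α, hα⟩ : ∃ α, α = -(b 1 - a 1) / ‖b - a‖ := ⟨_, rfl⟩
  obtain ⟨β, hβ⟩ : ∃ β, β = (b 0 - a 0) / ‖b - a‖ := ⟨_, rfl⟩
  have u : α ^ 2 + β ^ 2 = 1 := by
    rw [hα, hβ]
    field_simp
    linarith
  have o : α * (b 0 - a 0) + β * (b 1 - a 1) = 0 := by
    rw [hα, hβ]
    ring
  have per : ∀ x : ℝ, ∃ x' : ℝ, x' ≠ 0 ∧ |x| ≤ |x'| ∧ ∀ y : ℝ, |y| ≤ R → |x' * y - x * y| ≤ ε :=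
    fun x => by
      by_cases e : x = 0
      · refine ⟨ε / R, by positivity, by simp [e], fun y hy => ?_⟩
        rw [e, zero_mul, sub_zero, abs_mul, abs_of_pos (by positivity), div_mul_eq_mul_div,
          div_le_iff₀ hR]
        exact mul_le_mul_of_nonneg_left hy hε.le
      · exact ⟨x, e, le_rfl, fun y _ => by simp [hε.le]⟩
  obtain ⟨α', a1, a2, a3⟩ := per α
  obtain ⟨β', b1, b2, b3⟩ := per β
  refine ⟨α', β', α * a 0 + β * a 1, a1, b1, ?_, fun z hz hzR => ?_⟩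
  · by_contra hc
    rw [not_le, max_lt_iff] at hc
    nlinarith [sq_abs α, sq_abs β, abs_nonneg α, abs_nonneg β]
  · obtain ⟨s, hs, hzs⟩ := Metric.mem_thickening_iff.1 hz
    rw [segment_eq_image'] at hs
    obtain ⟨τ, -, rfl⟩ := hs
    have n2 := EuclideanSpace.real_norm_sq_eq (z - (a + τ • (b - a)))
    simp only [Fin.sum_univ_two, PiLp.sub_apply, PiLp.add_apply, PiLp.smul_apply,
      smul_eq_mul] at n2
    rw [dist_eq_norm] at hzs
    have c1 : |α * z 0 + β * z 1 - (α * a 0 + β * a 1)| < ε := by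
      refine abs_lt_of_sq_lt_sq ?_ hε.le
      have := pow_lt_pow_left₀ hzs (norm_nonneg _) two_ne_zero
      simp only at this
      rw [n2] at this
      obtain ⟨p, hp⟩ : ∃ p, p = z 0 - (a 0 + τ * (b 0 - a 0)) := ⟨_, rfl⟩
      obtain ⟨q, hq⟩ : ∃ q, q = z 1 - (a 1 + τ * (b 1 - a 1)) := ⟨_, rfl⟩
      have e : α * z 0 + β * z 1 - (α * a 0 + β * a 1) = α * p + β * q := by
        rw [hp, hq]
        linear_combination τ * o
      rw [← hp, ← hq] at this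
      rw [e]
      have : (α * p + β * q) ^ 2 + (α * q - β * p) ^ 2 = p ^ 2 + q ^ 2 := by
        linear_combination (p ^ 2 + q ^ 2) * u
      nlinarith [sq_nonneg (α * q - β * p)]
    have z0 := a3 (z 0) ((PiLp.norm_apply_le z 0).trans hzR)
    have z1 := b3 (z 1) ((PiLp.norm_apply_le z 1).trans hzR)
    rw [abs_le] at z0 z1
    rw [abs_lt] at c1 ⊢
    constructor <;> linarith

theorem not_null {F : Set (EuclideanSpace ℝ (Fin 2))} (hF : IsCarpet 3 5 DD F) {l : ℝ} (hl : 0 < l) :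
    ¬ TubeNull l F := by
  intro hn
  obtain ⟨hc, ⟨z0, hz0⟩, he⟩ := hF
  obtain ⟨𝒯, h1, h2, h3⟩ := hn (l / (36 * Real.exp 1600)) (by positivity)
  obtain ⟨R, hR, hb⟩ := hc.isBounded.exists_pos_norm_le
  choose a b ε e0 e1 e2 using fun T : 𝒯 => h1 T T.2
  choose α β γ s1 s2 s3 s4 using fun T : 𝒯 => tube_strip (e0 T) hR (a := a T) (b := b T)
    (dist_pos.1 (hl.trans_le (e1 T)))
  obtain ⟨s, hs⟩ := hc.elim_finite_subcover (fun T : 𝒯 => (T : Set _))
    (fun T => by rw [e2 T]; exact Metric.isOpen_thickening) (by rwa [← Set.sUnion_eq_iUnion])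
  have ev : ∀ᶠ k : ℕ in Filter.atTop, ∀ T ∈ s, |α T| / 3 ^ k ≤ 3 * ε T ∧ |β T| / 5 ^ k ≤ 3 * ε T := by
    rw [Filter.eventually_all_finset]
    intro T _
    have p : 0 < 3 * ε T := by linarith [e0 T]
    exact ((Filter.Tendsto.const_div_atTop (tendsto_pow_atTop_atTop_of_one_lt (by norm_num))
      _).eventually (ge_mem_nhds p)).and ((Filter.Tendsto.const_div_atTop
        (tendsto_pow_atTop_atTop_of_one_lt (by norm_num)) _).eventually (ge_mem_nhds p))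
  obtain ⟨k, hk⟩ := ev.exists
  obtain ⟨t, ht⟩ : ∃ t : 𝒯 → ℝ, t = fun T => γ T - α T * (1 / 2 + (z0 0 - 1 / 2) / 3 ^ k) -
    β T * (1 / 2 + (z0 1 - 1 / 2) / 5 ^ k) := ⟨_, rfl⟩
  have h4 := supp (F := F) (fun d hd z hz => by
      rw [he]
      exact Set.mem_iUnion₂.2 ⟨d, hd, z, hz, rfl⟩) k
    (fun c => ∑ T ∈ s, ind (|α T * c.1 + β T * c.2 - t T| < 3 * ε T)) fun c hc => by
      have m := hc z0 hz0
      obtain ⟨T, hT, m2⟩ := Set.mem_iUnion₂.1 (hs m)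
      refine le_trans (ind_pos ?_).ge (single_le_sum (fun T _ => ind_nonneg _) hT)
      have := s4 T _ (e2 T ▸ m2) (hb _ m)
      convert this using 2
      simp [ht, pt]
      ring
  rw [E_sum] at h4
  have h5 : ∀ T ∈ s, E off2 k (fun c => ind (|α T * c.1 + β T * c.2 - t T| < 3 * ε T)) ≤
      36 * Real.exp 1600 * ε T := fun T hT => by
    rw [E_map (α T) (β T) k fun u => ind (|u - t T| < 3 * ε T), E_abs]
    refine (strip (abs_pos.2 (s1 T)) (abs_pos.2 (s2 T)) k (hk T hT).1 (hk T hT).2 _).trans ?_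
    have : Real.exp 1600 / max |α T| |β T| ≤ Real.exp 1600 / (1 / 2) :=
      div_le_div_of_nonneg_left (Real.exp_pos _).le (by norm_num) (s3 T)
    nlinarith [e0 T]
  have h6 := h4.trans (sum_le_sum h5)
  rw [← mul_sum] at h6
  have h7 : ENNReal.ofReal (∑ T ∈ s, l * ε T) ≤
      ∑' T : 𝒯, volume (T : Set (EuclideanSpace ℝ (Fin 2))) := by
    rw [ENNReal.ofReal_sum_of_nonneg fun T _ => (mul_pos hl (e0 T)).le]
    refine le_trans (sum_le_sum fun T _ => ?_) (ENNReal.sum_le_tsum s)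
    rw [e2 T]
    exact tube_vol hl (e0 T) (e1 T)
  have h8 := (ENNReal.ofReal_lt_ofReal_iff (by positivity)).1 (h7.trans_lt h3)
  rw [← mul_sum, lt_div_iff₀ (by positivity)] at h8
  nlinarith

noncomputable def cod (r : ℝ) (x : ℕ → ℝ) : ℝ := ∑' i, x i / r ^ (i + 1)

lemma cod_bd {r : ℝ} (hr : 1 < r) : Summable fun i : ℕ => 5 / r ^ (i + 1) := by
  have := (summable_geometric_of_lt_one (r := r⁻¹) (by positivity)
    (inv_lt_one_of_one_lt₀ hr)).mul_left (5 / r)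
  refine this.congr fun i => ?_
  rw [inv_pow]
  field_simp
  ring

lemma cod_le {r y : ℝ} (hr : 1 < r) (h0 : 0 ≤ y) (h5 : y ≤ 5) (i : ℕ) :
    ‖y / r ^ (i + 1)‖ ≤ 5 / r ^ (i + 1) := by
  rw [Real.norm_of_nonneg (by positivity)]
  gcongr

lemma cod_succ {r : ℝ} (hr : 1 < r) {x : ℕ → ℝ} (h : ∀ i, 0 ≤ x i ∧ x i ≤ 5) :
    cod r x = (cod r (fun i => x (i + 1)) + x 0) / r := by
  have s := Summable.of_norm_bounded (cod_bd hr) fun i => cod_le hr (h i).1 (h i).2 i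
  rw [cod, s.tsum_eq_zero_add, cod, add_div, ← tsum_div_const, add_comm]
  congr 1
  · exact tsum_congr fun i => by rw [div_div, ← pow_succ]
  · simp

noncomputable def code (ω : ℕ → DD) : EuclideanSpace ℝ (Fin 2) :=
  !₂[cod 3 fun i => ((ω i).1.1 : ℕ), cod 5 fun i => ((ω i).1.2 : ℕ)]

lemma bd1 (d : DD) : (0 : ℝ) ≤ (d.1.1 : ℕ) ∧ ((d.1.1 : ℕ) : ℝ) ≤ 5 :=
  ⟨Nat.cast_nonneg _, by exact_mod_cast (by omega : (d.1.1 : ℕ) ≤ 5)⟩

lemma bd2 (d : DD) : (0 : ℝ) ≤ (d.1.2 : ℕ) ∧ ((d.1.2 : ℕ) : ℝ) ≤ 5 :=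
  ⟨Nat.cast_nonneg _, by exact_mod_cast (by omega : (d.1.2 : ℕ) ≤ 5)⟩

lemma code_succ (ω : ℕ → DD) : code ω = cmap 3 5 (ω 0) (code fun i => ω (i + 1)) := by
  ext j
  fin_cases j
  · simpa [code, cmap] using cod_succ (r := 3) (by norm_num) fun i => bd1 (ω i)
  · simpa [code, cmap] using cod_succ (r := 5) (by norm_num) fun i => bd2 (ω i)

lemma code_cont : Continuous code := by
  have c : ∀ (g : DD → ℝ) (r : ℝ), 1 < r → (∀ d, 0 ≤ g d ∧ g d ≤ 5) →
      Continuous fun ω : ℕ → DD => cod r fun i => g (ω i) := fun g r hr h =>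
    continuous_tsum (fun i => ((continuous_of_discreteTopology (f := g)).comp
      (continuous_apply i)).div_const _) (cod_bd hr) fun i ω => cod_le hr (h _).1 (h _).2 i
  refine (PiLp.continuous_toLp 2 _).comp (continuous_pi fun j => ?_)
  fin_cases j
  · exact c (fun d => (d.1.1 : ℕ)) 3 (by norm_num) bd1
  · exact c (fun d => (d.1.2 : ℕ)) 5 (by norm_num) bd2

theorem carpet : IsCarpet 3 5 DD (Set.range code) := by
  refine ⟨isCompact_range code_cont, ⟨_, fun _ => ⟨(0, 0), by decide⟩, rfl⟩, ?_⟩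
  ext z
  simp only [Set.mem_iUnion]
  constructor
  · rintro ⟨ω, rfl⟩
    exact ⟨ω 0, (ω 0).2, _, ⟨_, rfl⟩, (code_succ ω).symm⟩
  · rintro ⟨d, hd, _, ⟨ω, rfl⟩, rfl⟩
    refine ⟨fun i => Nat.casesOn i ⟨d, hd⟩ ω, ?_⟩
    rw [code_succ]
    rfl

end Pool.Agent.H88.Tub
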