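import Mathlib

open MeasureTheory

namespace Pool.Agent.H88.Tub

noncomputable def cmap (m n : ℕ) (d : Fin m × Fin n) (z : EuclideanSpace ℝ (Fin 2)) :
    EuclideanSpace ℝ (Fin 2) :=
  !₂[(z 0 + (d.1 : ℕ)) / m, (z 1 + (d.2 : ℕ)) / n]

def IsCarpet (m n : ℕ) (D : Finset (Fin m × Fin n)) (F : Set (EuclideanSpace ℝ (Fin 2))) : Prop :=
  IsCompact F ∧ F.Nonempty ∧ F = ⋃ d ∈ D, cmap m n d '' F

def IsTube (l : ℝ) (T : Set (EuclideanSpace ℝ (Fin 2))) : Prop :=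
  ∃ (a b : EuclideanSpace ℝ (Fin 2)) (ε : ℝ), 0 < ε ∧ l ≤ dist a b ∧
    T = Metric.thickening ε (segment ℝ a b)

def TubeNull (l : ℝ) (F : Set (EuclideanSpace ℝ (Fin 2))) : Prop :=
  ∀ δ : ℝ, 0 < δ → ∃ 𝒯 : Set (Set (EuclideanSpace ℝ (Fin 2))), (∀ T ∈ 𝒯, IsTube l T) ∧
    F ⊆ ⋃₀ 𝒯 ∧ ∑' T : 𝒯, volume (T : Set (EuclideanSpace ℝ (Fin 2))) < ENNReal.ofReal δ

end Pool.Agent.H88.Tub
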