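import Mathlib

/-! Two explicit polynomial inequalities on `[-1,1]` (Bernstein-form certificates). -/

namespace Pool.Agent.H88.Tur

lemma cert1 (x : ℝ) (h0 : -1 ≤ x) (h1 : x ≤ 1) :
    0 ≤ 5 / 4 - (7 * x ^ 2 - 2 * x - 1) * (1 + x) * (1 - x ^ 2) := by
  rcases le_total x (-1/2:ℝ) with hb | hb0
  · obtain ⟨s, hs, rfl⟩ : ∃ s, 0 ≤ s ∧ x = (-1:ℝ) + s := ⟨x - (-1:ℝ), by linarith, by ring⟩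
    have hr : 0 ≤ (1/2:ℝ) - s := by linarith
    have key : ∀ r : ℝ, 0 ≤ r → 0 ≤ (40:ℝ) * s ^ 0 * r ^ 5 + (200:ℝ) * s ^ 1 * r ^ 4 + (272:ℝ) * s ^ 2 * r ^ 3 + (176:ℝ) * s ^ 3 * r ^ 2 + (76:ℝ) * s ^ 4 * r ^ 1 + (19:ℝ) * s ^ 5 * r ^ 0 := fun r hr => by positivity
    have := key _ hr
    refine this.trans_eq ?_
    ring
  rcases le_total x (0:ℝ) with hb | hb1
  · obtain ⟨s, hs, rfl⟩ : ∃ s, 0 ≤ s ∧ x = (-1/2:ℝ) + s := ⟨x - (-1/2:ℝ), by linarith, by ring⟩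
    have hr : 0 ≤ (1/2:ℝ) - s := by linarith
    have key : ∀ r : ℝ, 0 ≤ r → 0 ≤ (19:ℝ) * s ^ 0 * r ^ 5 + (114:ℝ) * s ^ 1 * r ^ 4 + (328:ℝ) * s ^ 2 * r ^ 3 + (480:ℝ) * s ^ 3 * r ^ 2 + (312:ℝ) * s ^ 4 * r ^ 1 + (72:ℝ) * s ^ 5 * r ^ 0 := fun r hr => by positivity
    have := key _ hr
    refine this.trans_eq ?_
    ring
  rcases le_total x (1/2:ℝ) with hb | hb2
  · obtain ⟨s, hs, rfl⟩ : ∃ s, 0 ≤ s ∧ x = (0:ℝ) + s := ⟨x - (0:ℝ), by linarith, by ring⟩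
    have hr : 0 ≤ (1/2:ℝ) - s := by linarith
    have key : ∀ r : ℝ, 0 ≤ r → 0 ≤ (72:ℝ) * s ^ 0 * r ^ 5 + (408:ℝ) * s ^ 1 * r ^ 4 + (864:ℝ) * s ^ 2 * r ^ 3 + (824:ℝ) * s ^ 3 * r ^ 2 + (338:ℝ) * s ^ 4 * r ^ 1 + (49:ℝ) * s ^ 5 * r ^ 0 := fun r hr => by positivity
    have := key _ hr
    refine this.trans_eq ?_
    ring
  rcases le_total x (3/4:ℝ) with hb | hb3
  · obtain ⟨s, hs, rfl⟩ : ∃ s, 0 ≤ s ∧ x = (1/2:ℝ) + s := ⟨x - (1/2:ℝ), by linarith, by ring⟩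
    have hr : 0 ≤ (1/4:ℝ) - s := by linarith
    have key : ∀ r : ℝ, 0 ≤ r → 0 ≤ (1568:ℝ) * s ^ 0 * r ^ 5 + (6352:ℝ) * s ^ 1 * r ^ 4 + (9424:ℝ) * s ^ 2 * r ^ 3 + (6120:ℝ) * s ^ 3 * r ^ 2 + (1626:ℝ) * s ^ 4 * r ^ 1 + (153:ℝ) * s ^ 5 * r ^ 0 := fun r hr => by positivity
    have := key _ hr
    refine this.trans_eq ?_
    ring
  rcases le_total x (13/16:ℝ) with hb | hb4
  · obtain ⟨s, hs, rfl⟩ : ∃ s, 0 ≤ s ∧ x = (3/4:ℝ) + s := ⟨x - (3/4:ℝ), by linarith, by ring⟩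
    have hr : 0 ≤ (1/16:ℝ) - s := by linarith
    have key : ∀ r : ℝ, 0 ≤ r → 0 ≤ (156672:ℝ) * s ^ 0 * r ^ 5 + (562944:ℝ) * s ^ 1 * r ^ 4 + (758400:ℝ) * s ^ 2 * r ^ 3 + (475616:ℝ) * s ^ 3 * r ^ 2 + (144948:ℝ) * s ^ 4 * r ^ 1 + (21467:ℝ) * s ^ 5 * r ^ 0 := fun r hr => by positivity
    have := key _ hr
    refine this.trans_eq ?_
    ring
  rcases le_total x (7/8:ℝ) with hb | hb5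
  · obtain ⟨s, hs, rfl⟩ : ∃ s, 0 ≤ s ∧ x = (13/16:ℝ) + s := ⟨x - (13/16:ℝ), by linarith, by ring⟩
    have hr : 0 ≤ (1/16:ℝ) - s := by linarith
    have key : ∀ r : ℝ, 0 ≤ r → 0 ≤ (21467:ℝ) * s ^ 0 * r ^ 5 + (69722:ℝ) * s ^ 1 * r ^ 4 + (174712:ℝ) * s ^ 2 * r ^ 3 + (333904:ℝ) * s ^ 3 * r ^ 2 + (315760:ℝ) * s ^ 4 * r ^ 1 + (108320:ℝ) * s ^ 5 * r ^ 0 := fun r hr => by positivity
    have := key _ hr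
    refine this.trans_eq ?_
    ring
  obtain ⟨s, hs, rfl⟩ : ∃ s, 0 ≤ s ∧ x = (7/8:ℝ) + s := ⟨x - (7/8:ℝ), by linarith, by ring⟩
  have hr : 0 ≤ (1/8:ℝ) - s := by linarith
  have key : ∀ r : ℝ, 0 ≤ r → 0 ≤ (3385:ℝ) * s ^ 0 * r ^ 5 + (31040:ℝ) * s ^ 1 * r ^ 4 + (109568:ℝ) * s ^ 2 * r ^ 3 + (180224:ℝ) * s ^ 3 * r ^ 2 + (139264:ℝ) * s ^ 4 * r ^ 1 + (40960:ℝ) * s ^ 5 * r ^ 0 := fun r hr => by positivity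
  have := key _ hr
  refine this.trans_eq ?_
  ring

lemma cert2 (x : ℝ) (h0 : -1 ≤ x) (h1 : x ≤ 1) :
    0 ≤ 2 * (1 - (9 * x ^ 2 - 2 * x - 1) * ((1 + x) * (1 - x ^ 2) ^ 2)) - (2 * ((1 + x) * (1 - x ^ 2) ^ 2) - 1) ^ 2 := by
  rcases le_total x (-1/2:ℝ) with hb | hb0
  · obtain ⟨s, hs, rfl⟩ : ∃ s, 0 ≤ s ∧ x = (-1:ℝ) + s := ⟨x - (-1:ℝ), by linarith, by ring⟩
    have hr : 0 ≤ (1/2:ℝ) - s := by linarith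
    have key : ∀ r : ℝ, 0 ≤ r → 0 ≤ (1024:ℝ) * s ^ 0 * r ^ 10 + (10240:ℝ) * s ^ 1 * r ^ 9 + (46080:ℝ) * s ^ 2 * r ^ 8 + (114688:ℝ) * s ^ 3 * r ^ 7 + (172032:ℝ) * s ^ 4 * r ^ 6 + (164096:ℝ) * s ^ 5 * r ^ 5 + (104448:ℝ) * s ^ 6 * r ^ 4 + (47472:ℝ) * s ^ 7 * r ^ 3 + (16592:ℝ) * s ^ 8 * r ^ 2 + (4240:ℝ) * s ^ 9 * r ^ 1 + (556:ℝ) * s ^ 10 * r ^ 0 := fun r hr => by positivity
    have := key _ hr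
    refine this.trans_eq ?_
    ring
  rcases le_total x (0:ℝ) with hb | hb1
  · obtain ⟨s, hs, rfl⟩ : ∃ s, 0 ≤ s ∧ x = (-1/2:ℝ) + s := ⟨x - (-1/2:ℝ), by linarith, by ring⟩
    have hr : 0 ≤ (1/2:ℝ) - s := by linarith
    have key : ∀ r : ℝ, 0 ≤ r → 0 ≤ (556:ℝ) * s ^ 0 * r ^ 10 + (6880:ℝ) * s ^ 1 * r ^ 9 + (40352:ℝ) * s ^ 2 * r ^ 8 + (141200:ℝ) * s ^ 3 * r ^ 7 + (317024:ℝ) * s ^ 4 * r ^ 6 + (470592:ℝ) * s ^ 5 * r ^ 5 + (465792:ℝ) * s ^ 6 * r ^ 4 + (303872:ℝ) * s ^ 7 * r ^ 3 + (125440:ℝ) * s ^ 8 * r ^ 2 + (29696:ℝ) * s ^ 9 * r ^ 1 + (3072:ℝ) * s ^ 10 * r ^ 0 := fun r hr => by positivity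
    have := key _ hr
    refine this.trans_eq ?_
    ring
  rcases le_total x (1/2:ℝ) with hb | hb2
  · obtain ⟨s, hs, rfl⟩ : ∃ s, 0 ≤ s ∧ x = (0:ℝ) + s := ⟨x - (0:ℝ), by linarith, by ring⟩
    have hr : 0 ≤ (1/2:ℝ) - s := by linarith
    have key : ∀ r : ℝ, 0 ≤ r → 0 ≤ (3072:ℝ) * s ^ 0 * r ^ 10 + (31744:ℝ) * s ^ 1 * r ^ 9 + (143872:ℝ) * s ^ 2 * r ^ 8 + (376064:ℝ) * s ^ 3 * r ^ 7 + (627072:ℝ) * s ^ 4 * r ^ 6 + (696256:ℝ) * s ^ 5 * r ^ 5 + (520672:ℝ) * s ^ 6 * r ^ 4 + (258416:ℝ) * s ^ 7 * r ^ 3 + (81216:ℝ) * s ^ 8 * r ^ 2 + (14560:ℝ) * s ^ 9 * r ^ 1 + (1132:ℝ) * s ^ 10 * r ^ 0 := fun r hr => by positivity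
    have := key _ hr
    refine this.trans_eq ?_
    ring
  obtain ⟨s, hs, rfl⟩ : ∃ s, 0 ≤ s ∧ x = (1/2:ℝ) + s := ⟨x - (1/2:ℝ), by linarith, by ring⟩
  have hr : 0 ≤ (1/2:ℝ) - s := by linarith
  have key : ∀ r : ℝ, 0 ≤ r → 0 ≤ (1132:ℝ) * s ^ 0 * r ^ 10 + (8080:ℝ) * s ^ 1 * r ^ 9 + (22896:ℝ) * s ^ 2 * r ^ 8 + (31120:ℝ) * s ^ 3 * r ^ 7 + (18240:ℝ) * s ^ 4 * r ^ 6 + (5120:ℝ) * s ^ 5 * r ^ 5 + (18432:ℝ) * s ^ 6 * r ^ 4 + (36864:ℝ) * s ^ 7 * r ^ 3 + (29696:ℝ) * s ^ 8 * r ^ 2 + (10240:ℝ) * s ^ 9 * r ^ 1 + (1024:ℝ) * s ^ 10 * r ^ 0 := fun r hr => by positivity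
  have := key _ hr
  refine this.trans_eq ?_
  ring

end Pool.Agent.H88.Tur
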