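import Mathlib

namespace Pool.Agent.H88.Tur

open Polynomial

/-- `‖P‖ = max_{x ∈ [-1,1]} |P x|`. -/
noncomputable def nrm (P : ℝ[X]) : ℝ := sSup ((fun x => |P.eval x|) '' Set.Icc (-1) 1)

/-- Real polynomials of degree exactly `n` all of whose `n` zeros (with multiplicity) lie in
`[-1,1]`. -/
def Cls (n : ℕ) : Set ℝ[X] :=
  {P | P.degree = n ∧ Multiset.card P.roots = n ∧ ∀ x ∈ P.roots, x ∈ Set.Icc (-1 : ℝ) 1}

/-- The second derivative. -/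
noncomputable def d2 (P : ℝ[X]) : ℝ[X] := derivative (derivative P)

/-- `C_n = inf {‖P''‖ / ‖P‖ : P ∈ 𝒫_n}`. -/
noncomputable def Cn (n : ℕ) : ℝ := sInf ((fun P => nrm (d2 P) / nrm P) '' Cls n)

/-- `Q_m = (1-x)^m (1+x)^(m+1)`. -/
noncomputable def Q (m : ℕ) : ℝ[X] := (1 - X) ^ m * (1 + X) ^ (m + 1)

/-- The reflection `Q_m(-x) = (1+x)^m (1-x)^(m+1)`. -/
noncomputable def Qr (m : ℕ) : ℝ[X] := (1 + X) ^ m * (1 - X) ^ (m + 1)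

/-- The cubic `n(n-2)x³ - 3(n-2)x² - 3(n-2)x + 3` (the non-trivial factor of `Q_m'''`). -/
def cub (n x : ℝ) : ℝ := n * (n - 2) * x ^ 3 - 3 * (n - 2) * x ^ 2 - 3 * (n - 2) * x + 3

/-- `-Q_m''(x) / Q_m(1/n)` written out, `n = 2m+1`. -/
noncomputable def val (m : ℕ) (x : ℝ) : ℝ :=
  2 * m * ((1 + 2 * x - (2 * m + 1) * x ^ 2) * (1 + x) * (1 - x ^ 2) ^ (m - 2)) /
    ((1 - 1 / (2 * m + 1)) ^ m * (1 + 1 / (2 * m + 1)) ^ (m + 1))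

end Pool.Agent.H88.Tur
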