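import Mathlib
import Pool.Agent.H88.TurDefs

/-! Products `∏ (1 + w t)` and a mixing-variables inequality for their second derivative. -/

namespace Pool.Agent.H88.Tur

open Polynomial

noncomputable def pw (W : Multiset ℝ) : ℝ[X] := (W.map fun w => 1 + C w * X).prod

noncomputable def e0 (W : Multiset ℝ) (t : ℝ) : ℝ := (pw W).eval t
noncomputable def e1 (W : Multiset ℝ) (t : ℝ) : ℝ := (derivative (pw W)).eval t
noncomputable def e2 (W : Multiset ℝ) (t : ℝ) : ℝ := (d2 (pw W)).eval t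

lemma pw_zero : pw 0 = 1 := by simp [pw]
lemma pw_cons (w : ℝ) (W : Multiset ℝ) : pw (w ::ₘ W) = (1 + C w * X) * pw W := by simp [pw]
lemma pw_add (U V : Multiset ℝ) : pw (U + V) = pw U * pw V := by simp [pw]
lemma pw_replicate (k : ℕ) (c : ℝ) : pw (Multiset.replicate k c) = (1 + C c * X) ^ k := by
  simp [pw]

lemma e0_zero (t : ℝ) : e0 0 t = 1 := by simp [e0, pw_zero]
lemma e1_zero (t : ℝ) : e1 0 t = 0 := by simp [e1, pw_zero]
lemma e2_zero (t : ℝ) : e2 0 t = 0 := by simp [e2, d2, pw_zero]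

lemma e0_cons (w : ℝ) (W : Multiset ℝ) (t : ℝ) : e0 (w ::ₘ W) t = (1 + w * t) * e0 W t := by
  simp [e0, pw_cons]
lemma e1_cons (w : ℝ) (W : Multiset ℝ) (t : ℝ) :
    e1 (w ::ₘ W) t = w * e0 W t + (1 + w * t) * e1 W t := by
  simp [e0, e1, pw_cons]
lemma e2_cons (w : ℝ) (W : Multiset ℝ) (t : ℝ) :
    e2 (w ::ₘ W) t = 2 * w * e1 W t + (1 + w * t) * e2 W t := by
  simp [e1, e2, d2, pw_cons]; ring

/-- absolute sum -/
noncomputable def asum (W : Multiset ℝ) (t : ℝ) : ℝ := (W.map fun w => |w * t|).sum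

lemma asum_cons (w : ℝ) (W : Multiset ℝ) (t : ℝ) : asum (w ::ₘ W) t = |w * t| + asum W t := by
  simp [asum]
lemma asum_add (U V : Multiset ℝ) (t : ℝ) : asum (U + V) t = asum U t + asum V t := by
  simp [asum]
lemma asum_nonneg (W : Multiset ℝ) (t : ℝ) : 0 ≤ asum W t :=
  Multiset.sum_nonneg fun x hx => by
    obtain ⟨w, -, rfl⟩ := Multiset.mem_map.1 hx
    exact abs_nonneg _

lemma inv (t : ℝ) (W : Multiset ℝ) (h : ∀ w ∈ W, |w * t| ≤ 1 / 5) :
    ∃ A B : ℝ, 0 < e0 W t ∧ t * e1 W t = A * e0 W t ∧ t ^ 2 * e2 W t = B * e0 W t ∧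
      |A| ≤ 5 / 4 * asum W t ∧ A ^ 2 - (5 / 4 * asum W t) ^ 2 ≤ B := by
  induction W using Multiset.induction_on with
  | empty => exact ⟨0, 0, by simp [e0_zero], by simp [e1_zero], by simp [e2_zero],
      by simp [asum], by simp [asum]⟩
  | cons w W ih =>
    obtain ⟨A, B, h0, h1, h2, h3, h4⟩ := ih fun u hu => h u (Multiset.mem_cons_of_mem hu)
    have hz := h w (Multiset.mem_cons_self _ _)
    set z := w * t with hzdef
    have hz1 : 4 / 5 ≤ 1 + z := by linarith [(abs_le.1 hz).1]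
    have hpos : 0 < 1 + z := by linarith
    set a := z / (1 + z) with ha
    have haz : a * (1 + z) = z := by rw [ha]; field_simp
    have habs : |a| ≤ 5 / 4 * |z| := by
      rw [ha, abs_div, abs_of_pos hpos, div_le_iff₀ hpos]
      nlinarith [abs_nonneg z]
    have hs := asum_nonneg W t
    refine ⟨a + A, 2 * a * A + B, ?_, ?_, ?_, ?_, ?_⟩
    · rw [e0_cons]; positivity
    · rw [e1_cons, e0_cons, ← hzdef]
      have : t * (w * e0 W t + (1 + z) * e1 W t) = z * e0 W t + (1 + z) * (t * e1 W t) := by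
        rw [hzdef]; ring
      rw [this, h1]
      linear_combination (-(e0 W t)) * haz
    · rw [e2_cons, e0_cons, ← hzdef]
      have : t ^ 2 * (2 * w * e1 W t + (1 + z) * e2 W t) =
          2 * z * (t * e1 W t) + (1 + z) * (t ^ 2 * e2 W t) := by
        rw [hzdef]; ring
      rw [this, h1, h2]
      linear_combination (-(2 * A * e0 W t)) * haz
    · rw [asum_cons, ← hzdef]
      linarith [abs_add_le a A]
    · rw [asum_cons, ← hzdef]
      have ha2 : a ^ 2 ≤ (5 / 4 * |z|) ^ 2 := by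
        rw [← sq_abs a]; exact pow_le_pow_left₀ (abs_nonneg _) habs 2
      nlinarith [abs_nonneg z, mul_nonneg (abs_nonneg z) hs]

lemma Dpos (t : ℝ) (W : Multiset ℝ) (h : ∀ w ∈ W, |w * t| ≤ 1 / 5) (hs : asum W t ≤ 2 / 5) :
    0 ≤ 2 * e0 W t + 4 * (t * e1 W t) + t ^ 2 * e2 W t := by
  obtain ⟨A, B, h0, h1, h2, h3, h4⟩ := inv t W h
  rw [h1, h2]
  have hs0 := asum_nonneg W t
  set s := 5 / 4 * asum W t
  have hs1 : s ≤ 1 / 2 := by simp only [s]; linarith
  have hs2 : 0 ≤ s := by simp only [s]; linarith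
  have hA := (abs_le.1 h3).1
  have : 0 ≤ 2 + 4 * A + B := by nlinarith
  nlinarith

lemma e2_pair (a b : ℝ) (W : Multiset ℝ) (t : ℝ) :
    e2 (a ::ₘ b ::ₘ W) t = e2 W t + (a + b) * (2 * e1 W t + t * e2 W t) +
      a * b * (2 * e0 W t + 4 * (t * e1 W t) + t ^ 2 * e2 W t) := by
  rw [e2_cons, e1_cons, e2_cons]; ring

lemma abs_major {a b c : ℝ} (h1 : a ≤ c) (h2 : c ≤ b) (t : ℝ) :
    |c * t| + |(a + b - c) * t| ≤ |a * t| + |b * t| := by
  simp only [abs_mul, ← add_mul]
  refine mul_le_mul_of_nonneg_right ?_ (abs_nonneg _)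
  rcases abs_cases a with ha | ha <;> rcases abs_cases b with hb | hb <;>
    rcases abs_cases c with hc | hc <;> rcases abs_cases (a + b - c) with hd | hd <;> linarith

lemma abs_between {a b c : ℝ} (h1 : a ≤ c) (h2 : c ≤ b) {t M : ℝ} (ha : |a * t| ≤ M)
    (hb : |b * t| ≤ M) : |c * t| ≤ M := by
  rw [abs_mul] at *
  rcases le_max_iff.1 (abs_le_max_abs_abs h1 h2) with h | h
  · exact (mul_le_mul_of_nonneg_right h (abs_nonneg _)).trans ha
  · exact (mul_le_mul_of_nonneg_right h (abs_nonneg _)).trans hb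

lemma exists_le_avg (U : Multiset ℝ) (c : ℝ) (hU : U ≠ 0) (h : U.sum = Multiset.card U * c) :
    (∃ a ∈ U, a ≤ c) ∧ ∃ b ∈ U, c ≤ b := by
  constructor
  · by_contra hc
    push Not at hc
    have := Multiset.sum_lt_sum_of_nonempty (s := U) (f := fun _ => c) (g := id) hU hc
    simp at this
    linarith
  · by_contra hc
    push Not at hc
    have := Multiset.sum_lt_sum_of_nonempty (s := U) (f := id) (g := fun _ => c) hU hc
    simp at this
    linarith

lemma mix (t c : ℝ) (k : ℕ) : ∀ U V : Multiset ℝ, Multiset.card U = k → U.sum = k * c →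
    (∀ w ∈ U + V, |w * t| ≤ 1 / 5) → asum (U + V) t ≤ 2 / 5 →
    e2 (U + V) t ≤ e2 (Multiset.replicate k c + V) t ∧
      (∀ w ∈ Multiset.replicate k c + V, |w * t| ≤ 1 / 5) ∧
      asum (Multiset.replicate k c + V) t ≤ 2 / 5 := by
  induction k with
  | zero =>
    intro U V hk _ h1 h2
    rw [Multiset.card_eq_zero] at hk
    subst hk
    simpa using ⟨by simpa using h1, by simpa using h2⟩
  | succ k ih =>
    intro U V hk hsum h1 h2
    have hrep : Multiset.replicate (k + 1) c + V = Multiset.replicate k c + c ::ₘ V := by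
      rw [Multiset.replicate_succ, Multiset.cons_add, Multiset.add_cons]
    rw [hrep]
    by_cases hc : c ∈ U
    · obtain ⟨U', rfl⟩ := Multiset.exists_cons_of_mem hc
      have he : c ::ₘ U' + V = U' + c ::ₘ V := by rw [Multiset.cons_add, Multiset.add_cons]
      rw [he] at h1 h2 ⊢
      refine ih U' (c ::ₘ V) (by simpa using hk) ?_ h1 h2
      rw [Multiset.sum_cons] at hsum
      push_cast at hsum
      linarith
    · have hU : U ≠ 0 := by rintro rfl; simp at hk
      obtain ⟨⟨a, ha, hac⟩, ⟨b, hb, hbc⟩⟩ := exists_le_avg U c hU (by rw [hk]; exact hsum)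
      have hab : b ≠ a := by
        rintro rfl
        exact hc (le_antisymm hac hbc ▸ ha)
      obtain ⟨U1, rfl⟩ := Multiset.exists_cons_of_mem ha
      have hb' : b ∈ U1 := (Multiset.mem_cons.1 hb).resolve_left hab
      obtain ⟨U2, rfl⟩ := Multiset.exists_cons_of_mem hb'
      have he : a ::ₘ b ::ₘ U2 + V = a ::ₘ b ::ₘ (U2 + V) := by
        rw [Multiset.cons_add, Multiset.cons_add]
      have he' : (a + b - c) ::ₘ U2 + c ::ₘ V = c ::ₘ (a + b - c) ::ₘ (U2 + V) := by
        rw [Multiset.cons_add, Multiset.add_cons, Multiset.cons_swap]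
      rw [he] at h1 h2 ⊢
      have ha5 := h1 a (Multiset.mem_cons_self _ _)
      have hb5 := h1 b (Multiset.mem_cons_of_mem (Multiset.mem_cons_self _ _))
      have hR : ∀ w ∈ U2 + V, |w * t| ≤ 1 / 5 := fun w hw =>
        h1 w (Multiset.mem_cons_of_mem (Multiset.mem_cons_of_mem hw))
      rw [asum_cons, asum_cons] at h2
      have hD := Dpos t (U2 + V) hR (by linarith [abs_nonneg (a * t), abs_nonneg (b * t)])
      have hstep : e2 (a ::ₘ b ::ₘ (U2 + V)) t ≤ e2 (c ::ₘ (a + b - c) ::ₘ (U2 + V)) t := by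
        rw [e2_pair, e2_pair]
        have : 0 ≤ (c - a) * (b - c) := mul_nonneg (by linarith) (by linarith)
        nlinarith [mul_nonneg this hD]
      obtain ⟨i1, i2, i3⟩ := ih ((a + b - c) ::ₘ U2) (c ::ₘ V) (by simpa using hk) (by
        simp only [Multiset.sum_cons] at hsum ⊢
        push_cast at hsum
        linarith) (by
        rw [he']
        intro w hw
        rcases Multiset.mem_cons.1 hw with rfl | hw
        · exact abs_between hac hbc ha5 hb5
        rcases Multiset.mem_cons.1 hw with rfl | hw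
        · exact abs_between (by linarith) (by linarith) ha5 hb5
        · exact hR w hw) (by
        rw [he', asum_cons, asum_cons]
        linarith [abs_major hac hbc t])
      rw [he'] at i1
      exact ⟨hstep.trans i1, i2, i3⟩

lemma mix2 (t a b : ℝ) (U V : Multiset ℝ) (hU : U.sum = Multiset.card U * a)
    (hV : V.sum = Multiset.card V * b) (h1 : ∀ w ∈ U + V, |w * t| ≤ 1 / 5)
    (h2 : asum (U + V) t ≤ 2 / 5) :
    e2 (U + V) t ≤
      e2 (Multiset.replicate (Multiset.card U) a + Multiset.replicate (Multiset.card V) b) t := by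
  obtain ⟨i1, i2, i3⟩ := mix t a _ U V rfl hU h1 h2
  rw [add_comm] at i2 i3
  obtain ⟨j1, -, -⟩ := mix t b _ V _ rfl hV i2 i3
  rw [add_comm V, add_comm (Multiset.replicate _ b)] at j1
  exact i1.trans j1

lemma at_zero (W : Multiset ℝ) : e0 W 0 = 1 ∧ e1 W 0 = W.sum ∧
    e2 W 0 = W.sum ^ 2 - (W.map fun w => w ^ 2).sum := by
  induction W using Multiset.induction_on with
  | empty => simp [e0_zero, e1_zero, e2_zero]
  | cons w W ih =>
    obtain ⟨h0, h1, h2⟩ := ih
    rw [e0_cons, e1_cons, e2_cons, h0, h1, h2]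
    simp only [Multiset.sum_cons, Multiset.map_cons]
    refine ⟨by ring, by ring, by ring⟩

lemma endpoint (σ : ℝ) (hσ : σ ^ 2 = 1) (W : Multiset ℝ) (h : ∀ w ∈ W, 1 / 2 ≤ σ * w) :
    (Multiset.card W : ℝ) / 2 ≤ σ * e1 W 0 ∧
      (Multiset.card W : ℝ) * (Multiset.card W - 1) / 4 ≤ e2 W 0 := by
  induction W using Multiset.induction_on with
  | empty => simp [e1_zero, e2_zero]
  | cons w W ih =>
    obtain ⟨h1, h2⟩ := ih fun u hu => h u (Multiset.mem_cons_of_mem hu)
    have hw := h w (Multiset.mem_cons_self _ _)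
    rw [e1_cons, e2_cons, (at_zero W).1]
    simp only [Multiset.card_cons]
    push_cast
    have hc : (0 : ℝ) ≤ Multiset.card W := Nat.cast_nonneg _
    have hm : 1 / 2 * ((Multiset.card W : ℝ) / 2) ≤ (σ * w) * (σ * e1 W 0) :=
      mul_le_mul hw h1 (by linarith) (by linarith)
    have : (σ * w) * (σ * e1 W 0) = w * e1 W 0 := by linear_combination (w * e1 W 0) * hσ
    constructor <;> nlinarith

lemma d2_comp (p : ℝ[X]) (a b t : ℝ) :
    (d2 (p.comp (C a * X + C b))).eval t = a ^ 2 * (d2 p).eval (a * t + b) := by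
  simp [d2, derivative_comp, eval_comp]; ring

lemma d1_comp (p : ℝ[X]) (a b t : ℝ) :
    (derivative (p.comp (C a * X + C b))).eval t = a * (derivative p).eval (a * t + b) := by
  simp [derivative_comp, eval_comp]

lemma e2_neg (W : Multiset ℝ) (t : ℝ) : e2 (W.map fun w => -w) t = e2 W (-t) := by
  have : pw (W.map fun w => -w) = (pw W).comp (C (-1) * X + C 0) := by
    induction W using Multiset.induction_on with
    | empty => simp [pw]
    | cons w W ih => rw [Multiset.map_cons, pw_cons, pw_cons, ih, mul_comp]; simp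
  rw [e2, this, d2_comp, e2]; simp

end Pool.Agent.H88.Tur
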