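import Mathlib
import Pool.Agent.H88.Tur0
import Pool.Agent.H88.TurDefs

/-! Analysis of `Q_m''` on `[-1,1]`. -/

namespace Pool.Agent.H88.Tur

open Polynomial

noncomputable def g (k : ℕ) (x : ℝ) : ℝ :=
  (1 + 2 * x - (2 * k + 7) * x ^ 2) * (1 + x) * (1 - x ^ 2) ^ (k + 1)

lemma d2Q (k : ℕ) (x : ℝ) : (d2 (Q (k + 3))).eval x = -(2 * k + 6) * g k x := by
  have h1 : derivative (Q (k + 3)) =
      (1 - X) ^ (k + 2) * (1 + X) ^ (k + 3) * (1 - C (2 * k + 7 : ℝ) * X) := by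
    apply Polynomial.funext
    intro y
    simp [Q, derivative_pow]
    ring
  have h2 : (1 - x ^ 2) ^ (k + 1) = (1 - x) ^ (k + 1) * (1 + x) ^ (k + 1) := by
    rw [← mul_pow]; ring
  rw [d2, h1, g, h2]
  simp [derivative_pow]
  ring

lemma g_deriv (k : ℕ) (x : ℝ) :
    HasDerivAt (g k) ((1 - x ^ 2) ^ k * (1 + x) * cub (2 * k + 7) x) x := by
  have h1 : HasDerivAt (fun x : ℝ => 1 + 2 * x - (2 * k + 7) * x ^ 2)
      (2 - (2 * k + 7) * (2 * x)) x := by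
    have := (((hasDerivAt_id x).const_mul 2).const_add 1).sub
      ((hasDerivAt_pow 2 x).const_mul (2 * k + 7 : ℝ))
    refine HasDerivAt.congr_deriv this ?_
    simp
  have h2 : HasDerivAt (fun x : ℝ => 1 + x) 1 x := (hasDerivAt_id x).const_add 1
  have h3 : HasDerivAt (fun x : ℝ => (1 - x ^ 2) ^ (k + 1))
      (((k + 1 : ℕ) : ℝ) * (1 - x ^ 2) ^ k * (-(2 * x))) x := by
    have := ((hasDerivAt_pow 2 x).const_sub 1).pow (k + 1)
    refine HasDerivAt.congr_deriv this ?_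
    simp
  have := (h1.mul h2).mul h3
  refine HasDerivAt.congr_deriv this ?_
  simp only [cub, Pi.mul_apply]
  push_cast
  ring

lemma g_cont (k : ℕ) : Continuous (g k) := by unfold g; fun_prop

lemma g_one_div (k : ℕ) : g k (1 / (2 * k + 7)) =
    (1 + 1 / (2 * k + 7)) ^ 2 * (1 - (1 / (2 * k + 7)) ^ 2) ^ (k + 1) := by
  have : (0 : ℝ) < 2 * k + 7 := by positivity
  rw [g]
  congr 1
  field_simp
  ring

lemma one_lt_g (k : ℕ) : 1 < g k (1 / (2 * k + 7)) := by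
  rw [g_one_div]
  have hN : (0 : ℝ) < 2 * k + 7 := by positivity
  set u : ℝ := 1 / (2 * k + 7) with hu
  have hk : (0 : ℝ) ≤ k := Nat.cast_nonneg _
  have hu1 : u * (2 * k + 7) = 1 := by rw [hu]; field_simp
  have hu0 : 0 < u := by positivity
  have hu7 : u ≤ 1 / 7 := by nlinarith
  have hb := one_add_mul_le_pow (a := -(u ^ 2)) (by nlinarith) (k + 1)
  push_cast at hb
  have hb2 : 1 - u / 2 ≤ (1 - u ^ 2) ^ (k + 1) := by
    have : (1 + -u ^ 2) = 1 - u ^ 2 := by ring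
    rw [this] at hb
    nlinarith
  have : (1 + u) ^ 2 * (1 - u / 2) ≤ (1 + u) ^ 2 * (1 - u ^ 2) ^ (k + 1) :=
    mul_le_mul_of_nonneg_left hb2 (by positivity)
  nlinarith

lemma neg_g_le (k : ℕ) (x : ℝ) (h0 : -1 ≤ x) (h1 : x ≤ 1) : -g k x ≤ g k (1 / (2 * k + 7)) := by
  rcases k with _ | j
  · have := cert1 x h0 h1
    simp only [g]
    norm_num
    nlinarith
  · refine le_trans ?_ (one_lt_g _).le
    have hc := cert2 x h0 h1
    set A := (1 + x) * (1 - x ^ 2) ^ 2 with hA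
    set B := (9 * x ^ 2 - 2 * x - 1) * A with hB
    set z : ℝ := j * x ^ 2 with hz
    have hz0 : 0 ≤ z := by positivity
    have hy : 0 ≤ 1 - x ^ 2 := by nlinarith
    have e : -g (j + 1) x = (2 * z * A + B) * (1 - x ^ 2) ^ j := by
      simp only [g, hA, hB, hz]
      push_cast
      ring
    have h3 : 2 * z * A + B ≤ 1 + z + z ^ 2 / 2 := by nlinarith [sq_nonneg (z - (2 * A - 1))]
    have h4 : (1 - x ^ 2) ^ j ≤ Real.exp (-z) := by
      have : 1 - x ^ 2 ≤ Real.exp (-(x ^ 2)) := by linarith [Real.add_one_le_exp (-(x ^ 2))]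
      refine (pow_le_pow_left₀ hy this j).trans_eq ?_
      rw [← Real.exp_nat_mul, hz]; ring_nf
    have h5 := Real.quadratic_le_exp_of_nonneg hz0
    have h6 : Real.exp z * Real.exp (-z) = 1 := by rw [← Real.exp_add]; simp
    rw [e]
    calc (2 * z * A + B) * (1 - x ^ 2) ^ j ≤ Real.exp z * (1 - x ^ 2) ^ j :=
          mul_le_mul_of_nonneg_right (h3.trans h5) (pow_nonneg hy _)
      _ ≤ Real.exp z * Real.exp (-z) := mul_le_mul_of_nonneg_left h4 (Real.exp_pos _).le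
      _ = 1 := h6

lemma g_le_one (k : ℕ) (x : ℝ) (h0 : -1 ≤ x) (h1 : x ≤ 1)
    (h : x ≤ 0 ∨ 3 ≤ (2 * k + 7) * x) : g k x ≤ 1 := by
  have hy : 0 ≤ 1 - x ^ 2 := by nlinarith
  have hp0 : 0 ≤ (1 - x ^ 2) ^ (k + 1) := pow_nonneg hy _
  have hp1 : (1 - x ^ 2) ^ (k + 1) ≤ 1 := pow_le_one₀ hy (by nlinarith)
  have hk : (0 : ℝ) ≤ k := Nat.cast_nonneg _
  have : (1 + 2 * x - (2 * k + 7) * x ^ 2) * (1 + x) ≤ 1 := by
    rcases h with h | h
    · have : 1 + 2 * x - (2 * k + 7) * x ^ 2 ≤ 1 := by nlinarith [sq_nonneg x]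
      nlinarith
    · have hx : 0 < x := by
        by_contra hx
        push Not at hx
        nlinarith
      have : 1 + 2 * x - (2 * k + 7) * x ^ 2 ≤ 1 - x := by nlinarith
      nlinarith
  rw [g]
  nlinarith

lemma exists_xi (k : ℕ) : ∃ ξ : ℝ, 1 / (2 * k + 7) ≤ ξ ∧ ξ ≤ 1 / (2 * k + 5) ∧
    cub (2 * k + 7) ξ = 0 ∧ 1 < g k ξ ∧ ∀ x ∈ Set.Icc (-1 : ℝ) 1, |g k x| ≤ g k ξ := by
  have hk : (0 : ℝ) ≤ k := Nat.cast_nonneg _
  have hN : (0 : ℝ) < 2 * k + 7 := by positivity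
  obtain ⟨ξ, hξ, hmax⟩ := (isCompact_Icc (a := (-1 : ℝ)) (b := 1)).exists_isMaxOn
    ⟨0, by norm_num⟩ (g_cont k).continuousOn
  have hmem : (1 / (2 * k + 7) : ℝ) ∈ Set.Icc (-1 : ℝ) 1 := by
    constructor
    · have : (0 : ℝ) < 1 / (2 * k + 7) := by positivity
      linarith
    · rw [div_le_one hN]; linarith
  have hge : g k (1 / (2 * k + 7)) ≤ g k ξ := hmax hmem
  have h1 : 1 < g k ξ := (one_lt_g k).trans_le hge
  have hx0 : 0 < ξ := by
    by_contra h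
    push Not at h
    linarith [g_le_one k ξ hξ.1 hξ.2 (Or.inl h)]
  have hx3 : (2 * k + 7) * ξ < 3 := by
    by_contra h
    push Not at h
    linarith [g_le_one k ξ hξ.1 hξ.2 (Or.inr h)]
  have hx1 : ξ < 1 := by nlinarith
  have hloc : IsLocalMax (g k) ξ := hmax.isLocalMax (Icc_mem_nhds (by linarith) hx1)
  have hd := hloc.hasDerivAt_eq_zero (g_deriv k ξ)
  have hc : cub (2 * k + 7) ξ = 0 := by
    have : (0 : ℝ) < (1 - ξ ^ 2) ^ k * (1 + ξ) := by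
      have : 0 < 1 - ξ ^ 2 := by nlinarith
      positivity
    exact (mul_eq_zero.1 hd).resolve_left this.ne'
  refine ⟨ξ, ?_, ?_, hc, h1, fun x hx => abs_le.2 ⟨?_, hmax hx⟩⟩
  · rw [div_le_iff₀ hN]
    by_contra h
    push Not at h
    simp only [cub] at hc
    have h3 : 0 ≤ (2 * k + 7) * (2 * k + 7 - 2) * ξ ^ 3 := by
      have : (0 : ℝ) ≤ 2 * k + 7 - 2 := by linarith
      positivity
    have h4 : (2 * k + 7 - 2) * ξ ^ 2 ≤ ξ := by nlinarith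
    nlinarith
  · rw [le_div_iff₀ (by positivity)]
    by_contra h
    push Not at h
    simp only [cub] at hc
    have h3 : (2 * k + 7) * ξ ^ 3 ≤ 3 * ξ ^ 2 := by nlinarith [sq_nonneg ξ]
    have h4 : (2 * k + 5) * ((2 * k + 7) * ξ ^ 3) ≤ (2 * k + 5) * (3 * ξ ^ 2) :=
      mul_le_mul_of_nonneg_left h3 (by positivity)
    nlinarith
  · linarith [neg_g_le k x hx.1 hx.2]

lemma cub_unique (k : ℕ) {x y : ℝ} (hx0 : 1 / (2 * k + 7) ≤ x) (hx1 : x ≤ 1 / (2 * k + 5))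
    (hy0 : 1 / (2 * k + 7) ≤ y) (hy1 : y ≤ 1 / (2 * k + 5))
    (hx : cub (2 * k + 7) x = 0) (hy : cub (2 * k + 7) y = 0) : x = y := by
  have hk : (0 : ℝ) ≤ k := Nat.cast_nonneg _
  have hp : (0 : ℝ) < 1 / (2 * k + 7) := by positivity
  rw [le_div_iff₀ (by positivity)] at hx1 hy1
  simp only [cub] at hx hy
  have h : (x - y) * ((2 * k + 5) * ((2 * k + 7) * (x ^ 2 + x * y + y ^ 2) - 3 * (x + y) - 3)) = 0 := by
    linear_combination hx - hy
  rcases mul_eq_zero.1 h with h | h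
  · linarith
  · exfalso
    have hx' : 0 < x := by linarith
    have hy' : 0 < y := by linarith
    have hx5 : x ≤ 1 / 5 := by nlinarith
    have hy5 : y ≤ 1 / 5 := by nlinarith
    have a1 : (2 * k + 7) * x ≤ 7 / 5 := by nlinarith
    have a2 : (2 * k + 7) * y ≤ 7 / 5 := by nlinarith
    have : (2 * k + 7) * (x ^ 2 + x * y + y ^ 2) - 3 * (x + y) - 3 < 0 := by nlinarith
    have : (2 * k + 5 : ℝ) > 0 := by positivity
    nlinarith

/-- `Q(1/n)`. -/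
noncomputable def q0 (k : ℕ) : ℝ :=
  (1 - 1 / (2 * k + 7)) ^ (k + 3) * (1 + 1 / (2 * k + 7)) ^ (k + 4)

lemma q0_pos (k : ℕ) : 0 < q0 k := by
  have hk : (0 : ℝ) ≤ k := Nat.cast_nonneg _
  have : (0 : ℝ) < 1 - 1 / (2 * k + 7) := by
    rw [sub_pos, div_lt_one (by positivity)]; linarith
  unfold q0; positivity

lemma Q_eval (k : ℕ) : (Q (k + 3)).eval (1 / (2 * k + 7) : ℝ) = q0 k := by
  simp [Q, q0]

lemma M_lt (k : ℕ) {ξ : ℝ} (h0 : 1 / (2 * k + 7) ≤ ξ) (h1 : ξ ≤ 1 / (2 * k + 5)) :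
    (2 * k + 6) * g k ξ / q0 k * ((2 * k + 7) ^ 2 - 9) < (2 * k + 7) ^ 3 := by
  have hk : (0 : ℝ) ≤ k := Nat.cast_nonneg _
  have hN : (0 : ℝ) < 2 * k + 7 := by positivity
  set u : ℝ := 1 / (2 * k + 7) with hu
  have hu1 : u * (2 * k + 7) = 1 := by rw [hu]; field_simp
  have hu0 : 0 < u := by positivity
  have hu7 : u ≤ 1 / 7 := by nlinarith
  have h1' := h1
  rw [le_div_iff₀ (by positivity)] at h1'
  have hξ5 : ξ ≤ 1 / 5 := by nlinarith
  have hy : 0 ≤ 1 - ξ ^ 2 := by nlinarith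
  have a1 : (1 - ξ ^ 2) ^ (k + 1) ≤ (1 - u ^ 2) ^ (k + 1) :=
    pow_le_pow_left₀ hy (by nlinarith) _
  have a2 : 1 + 2 * ξ - (2 * k + 7) * ξ ^ 2 ≤ 1 + u := by
    have : (2 * k + 7) * (ξ - u) ^ 2 ≥ 0 := by positivity
    nlinarith
  have hE : 0 < (1 - u ^ 2) ^ (k + 1) := pow_pos (by nlinarith) _
  have a3 : g k ξ ≤ (1 + u) * (1 + 1 / (2 * k + 5)) * (1 - u ^ 2) ^ (k + 1) := by
    rw [g]
    refine mul_le_mul (mul_le_mul a2 (by linarith) (by linarith) (by linarith)) a1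
      (pow_nonneg hy _) (by positivity)
  have a4 : q0 k = (1 - u ^ 2) ^ (k + 1) * ((1 - u) ^ 2 * (1 + u) ^ 3) := by
    rw [q0, ← hu, show 1 - u ^ 2 = (1 - u) * (1 + u) by ring, mul_pow]; ring
  rw [div_mul_eq_mul_div, div_lt_iff₀ (q0_pos k), a4]
  have a5 : (2 * k + 6) * ((1 + u) * (1 + 1 / (2 * k + 5))) * ((2 * k + 7) ^ 2 - 9) <
      (2 * k + 7) ^ 3 * ((1 - u) ^ 2 * (1 + u) ^ 3) := by
    rw [hu]
    field_simp
    nlinarith [mul_nonneg hk hk, mul_nonneg hk (mul_nonneg hk hk),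
      mul_nonneg (mul_nonneg hk hk) (mul_nonneg hk hk)]
  have a6 : (0 : ℝ) ≤ (2 * k + 6) * ((2 * k + 7) ^ 2 - 9) := by
    have : (0 : ℝ) ≤ (2 * k + 7) ^ 2 - 9 := by nlinarith
    positivity
  nlinarith [mul_le_mul_of_nonneg_left a3 a6, mul_lt_mul_of_pos_left a5 hE]

end Pool.Agent.H88.Tur
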