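import Mathlib
import Pool.Agent.H88.Tur1
import Pool.Agent.H88.Tur2

/-! The Turan-type inequality for the second derivative, odd degree. -/

namespace Pool.Agent.H88.Tur

open Polynomial

lemma all_eq_of_sum (U : Multiset ℝ) (α : ℝ) (h : ∀ u ∈ U, α ≤ u)
    (hs : U.sum ≤ Multiset.card U * α) : ∀ u ∈ U, u = α := by
  intro u hu
  obtain ⟨U', rfl⟩ := Multiset.exists_cons_of_mem hu
  have h1 : (Multiset.card U') • α ≤ U'.sum :=
    Multiset.card_nsmul_le_sum fun x hx => h x (Multiset.mem_cons_of_mem hx)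
  rw [nsmul_eq_mul] at h1
  rw [Multiset.sum_cons, Multiset.card_cons] at hs
  push_cast at hs
  linarith [h u (Multiset.mem_cons_self _ _)]

lemma sum_bounds (x0 : ℝ) (h0 : -1 < x0) (h1 : x0 < 1) (U V : Multiset ℝ)
    (hU : ∀ u ∈ U, 1 / (1 + x0) ≤ u) (hV : ∀ v ∈ V, v ≤ -(1 / (1 - x0)))
    (hs : U.sum + V.sum = 0) :
    (Multiset.card U : ℝ) ≤ U.sum * (1 + x0) ∧ (Multiset.card V : ℝ) ≤ U.sum * (1 - x0) := by
  have a1 : (Multiset.card U) • (1 / (1 + x0)) ≤ U.sum := Multiset.card_nsmul_le_sum hU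
  have a2 : V.sum ≤ (Multiset.card V) • (-(1 / (1 - x0))) := Multiset.sum_le_card_nsmul _ _ hV
  rw [nsmul_eq_mul] at a1 a2
  constructor
  · rw [← div_le_iff₀ (by linarith), div_eq_mul_one_div]; exact a1
  · rw [← div_le_iff₀ (by linarith), div_eq_mul_one_div]; linarith

lemma asum_pos (t : ℝ) (ht : 0 ≤ t) (U : Multiset ℝ) (hU : ∀ u ∈ U, 0 ≤ u) :
    asum U t = U.sum * t := by
  induction U using Multiset.induction_on with
  | empty => simp [asum]
  | cons u U ih =>
    rw [asum_cons, ih fun x hx => hU x (Multiset.mem_cons_of_mem hx), Multiset.sum_cons,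
      abs_of_nonneg (mul_nonneg (hU u (Multiset.mem_cons_self _ _)) ht)]
    ring

lemma asum_neg (t : ℝ) (ht : 0 ≤ t) (U : Multiset ℝ) (hU : ∀ u ∈ U, u ≤ 0) :
    asum U t = -U.sum * t := by
  induction U using Multiset.induction_on with
  | empty => simp [asum]
  | cons u U ih =>
    rw [asum_cons, ih fun x hx => hU x (Multiset.mem_cons_of_mem hx), Multiset.sum_cons,
      abs_of_nonpos (mul_nonpos_of_nonpos_of_nonneg (hU u (Multiset.mem_cons_self _ _)) ht)]
    ring

lemma le_asum (t : ℝ) (U : Multiset ℝ) {u : ℝ} (hu : u ∈ U) : |u * t| ≤ asum U t := by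
  obtain ⟨U', rfl⟩ := Multiset.exists_cons_of_mem hu
  rw [asum_cons]
  linarith [asum_nonneg U' t]

lemma rep_eq (k : ℕ) (l t : ℝ) :
    e2 (Multiset.replicate (k + 4) (l / (1 + 1 / (2 * k + 7))) +
      Multiset.replicate (k + 3) (-(l / (1 - 1 / (2 * k + 7))))) t =
      -(l ^ 2 * ((2 * k + 6) * g k (l * t + 1 / (2 * k + 7)) / q0 k)) := by
  have hk : (0 : ℝ) ≤ k := Nat.cast_nonneg _
  have hq := q0_pos k
  have hm : (0 : ℝ) < 1 - 1 / (2 * k + 7) := by
    rw [sub_pos, div_lt_one (by positivity)]; linarith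
  have hp : (0 : ℝ) < 1 + 1 / (2 * k + 7) := by positivity
  have : pw (Multiset.replicate (k + 4) (l / (1 + 1 / (2 * k + 7))) +
      Multiset.replicate (k + 3) (-(l / (1 - 1 / (2 * k + 7))))) =
      C (q0 k)⁻¹ * (Q (k + 3)).comp (C l * X + C (1 / (2 * k + 7) : ℝ)) := by
    apply Polynomial.funext
    intro y
    rw [pw_add, pw_replicate, pw_replicate]
    simp only [Q, eval_mul, eval_pow, eval_add, eval_one, eval_C, eval_X, eval_comp, eval_sub]
    rw [q0]
    generalize (1 / (2 * k + 7) : ℝ) = u at hm hp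
    have e1 : 1 + l / (1 + u) * y = (1 + (l * y + u)) / (1 + u) := by field_simp; ring
    have e2 : 1 + -(l / (1 - u)) * y = (1 - (l * y + u)) / (1 - u) := by field_simp; ring
    rw [e1, e2, div_pow, div_pow]
    field_simp
  rw [e2, this]
  have h2 : d2 (C (q0 k)⁻¹ * (Q (k + 3)).comp (C l * X + C (1 / (2 * k + 7) : ℝ))) =
      C (q0 k)⁻¹ * d2 ((Q (k + 3)).comp (C l * X + C (1 / (2 * k + 7) : ℝ))) := by
    simp only [d2, derivative_C_mul]
  rw [h2, eval_mul, eval_C, d2_comp, d2Q]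
  field_simp

lemma core1 (k : ℕ) {ξ : ℝ} (hξ0 : 1 / (2 * k + 7) ≤ ξ) (hξ1 : ξ ≤ 1 / (2 * k + 5))
    (hg : 0 < g k ξ) (x0 : ℝ) (h0 : -1 < x0) (h1 : x0 < 1) (U V : Multiset ℝ)
    (hcU : Multiset.card U = k + 4) (hcV : Multiset.card V = k + 3)
    (hU : ∀ u ∈ U, 1 / (1 + x0) ≤ u) (hV : ∀ v ∈ V, v ≤ -(1 / (1 - x0)))
    (hs : U.sum + V.sum = 0) :
    ∃ t, x0 + t ∈ Set.Icc (-1 : ℝ) 1 ∧ (2 * k + 6) * g k ξ / q0 k ≤ -e2 (U + V) t ∧
      (-e2 (U + V) t ≤ (2 * k + 6) * g k ξ / q0 k →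
        (∀ u ∈ U, u = 1 / (1 + x0)) ∧ ∀ v ∈ V, v = -(1 / (1 - x0))) := by
  have hk : (0 : ℝ) ≤ k := Nat.cast_nonneg _
  have hN : (0 : ℝ) < 2 * k + 7 := by positivity
  obtain ⟨b1, b2⟩ := sum_bounds x0 h0 h1 U V hU hV hs
  rw [hcU] at b1
  rw [hcV] at b2
  push_cast at b1 b2
  set S := U.sum with hS
  have hS2 : 2 * k + 7 ≤ 2 * S := by linarith
  set l : ℝ := 2 * S / (2 * k + 7) with hl
  have hl1 : 1 ≤ l := by rw [hl, le_div_iff₀ hN]; linarith
  have hlS : l * (2 * k + 7) = 2 * S := by rw [hl]; field_simp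
  set τ := ξ - 1 / (2 * k + 7) with hτ
  have hτ0 : 0 ≤ τ := by linarith
  have hτ1 : (2 * k + 7) * τ ≤ 2 / 5 := by
    have e : (2 * k + 7) * τ = (2 * k + 7) * ξ - 1 := by rw [hτ]; field_simp
    rw [le_div_iff₀ (by positivity)] at hξ1
    have : ξ ≤ 1 / 5 := by
      have : (0 : ℝ) < 1 / (2 * k + 7) := by positivity
      nlinarith
    rw [e]; nlinarith
  set t := τ / l with ht
  have ht0 : 0 ≤ t := by positivity
  have hlt : l * t = τ := by rw [ht]; field_simp
  have hSt : S * t ≤ 1 / 5 := by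
    have : 2 * S * t = (2 * k + 7) * τ := by rw [← hlS, ← hlt]; ring
    linarith
  have hα : 0 < 1 / (1 + x0) := by apply one_div_pos.2; linarith
  have hβ : 0 < 1 / (1 - x0) := by apply one_div_pos.2; linarith
  have aU := asum_pos t ht0 U fun u hu => by linarith [hU u hu]
  have aV := asum_neg t ht0 V fun u hu => by linarith [hV u hu]
  have hVS : -V.sum = S := by linarith
  rw [hVS] at aV
  have hm : (0 : ℝ) < 1 - 1 / (2 * k + 7) := by
    rw [sub_pos, div_lt_one (by positivity)]; linarith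
  have hmix := mix2 t (l / (1 + 1 / (2 * k + 7))) (-(l / (1 - 1 / (2 * k + 7)))) U V
    (by
      rw [hcU, ← hS, hl]
      push_cast
      field_simp
      ring)
    (by
      have : (1 - 1 / (2 * k + 7) : ℝ) = (2 * k + 6) / (2 * k + 7) := by field_simp; ring
      rw [hcV, show V.sum = -S by linarith, hl, this]
      push_cast
      field_simp
      ring)
    (fun w hw => by
      rcases Multiset.mem_add.1 hw with hw | hw
      · linarith [le_asum t U hw]
      · linarith [le_asum t V hw])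
    (by rw [asum_add]; linarith)
  rw [hcU, hcV, rep_eq, hlt, show τ + 1 / (2 * k + 7) = ξ by rw [hτ]; ring] at hmix
  set M := (2 * k + 6) * g k ξ / q0 k with hM
  have hM0 : 0 < M := by have := q0_pos k; positivity
  have hS0 : 0 < S := by linarith
  have hl4 : 1 * M ≤ l ^ 2 * M := mul_le_mul_of_nonneg_right (by nlinarith) hM0.le
  refine ⟨t, ⟨by linarith, ?_⟩, by linarith, fun h => ?_⟩
  · have : S * t ≤ S * (1 - x0) := by linarith
    linarith [le_of_mul_le_mul_left this hS0]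
  · have hl2 : l ^ 2 ≤ 1 := by
      by_contra hc
      push Not at hc
      nlinarith
    have hl3 : l = 1 := by nlinarith
    have hS3 : 2 * S = 2 * k + 7 := by rw [← hlS, hl3, one_mul]
    have c1 : S * (1 + x0) = k + 4 := by linarith
    have c2 : S * (1 - x0) = k + 3 := by linarith
    constructor
    · refine all_eq_of_sum U _ hU ?_
      rw [hcU, ← hS, ← div_eq_mul_one_div, le_div_iff₀ (by linarith)]
      push_cast; linarith
    · intro v hv
      have := all_eq_of_sum (V.map fun w => -w) (1 / (1 - x0)) (fun u hu => by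
        obtain ⟨w, hw, rfl⟩ := Multiset.mem_map.1 hu
        linarith [hV w hw]) (by
        rw [Multiset.sum_map_neg, Multiset.map_id', hVS, Multiset.card_map, hcV,
          ← div_eq_mul_one_div, le_div_iff₀ (by linarith)]
        push_cast; linarith) (-v) (Multiset.mem_map_of_mem _ hv)
      linarith

lemma core0 (k : ℕ) {M : ℝ} (hM : M * ((2 * k + 7) ^ 2 - 9) < (2 * k + 7) ^ 3)
    (x0 : ℝ) (h0 : -1 < x0) (h1 : x0 < 1) (U V : Multiset ℝ)
    (hc : Multiset.card U + Multiset.card V = 2 * k + 7)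
    (hc1 : Multiset.card U ≠ k + 4) (hc2 : Multiset.card U ≠ k + 3)
    (hU : ∀ u ∈ U, 1 / (1 + x0) ≤ u) (hV : ∀ v ∈ V, v ≤ -(1 / (1 - x0)))
    (hs : U.sum + V.sum = 0) : M < -e2 (U + V) 0 := by
  have hk : (0 : ℝ) ≤ k := Nat.cast_nonneg _
  obtain ⟨b1, b2⟩ := sum_bounds x0 h0 h1 U V hU hV hs
  have hcR : (Multiset.card U : ℝ) + Multiset.card V = 2 * k + 7 := by exact_mod_cast hc
  set S := U.sum with hS
  have hS2 : 2 * k + 7 ≤ 2 * S := by linarith
  have hU0 : Multiset.card U ≠ 0 := by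
    intro h
    rw [Multiset.card_eq_zero] at h
    rw [h] at hS
    simp at hS
    linarith
  have hV0 : Multiset.card V ≠ 0 := by
    intro h
    rw [Multiset.card_eq_zero] at h
    rw [h] at hs
    simp at hs
    linarith
  have pU : (0 : ℝ) < Multiset.card U := by positivity
  have pV : (0 : ℝ) < Multiset.card V := by positivity
  have hmix := mix2 0 (S / Multiset.card U) (-S / Multiset.card V) U V (by field_simp; rfl)
    (by field_simp; linarith) (by simp) (by simp [asum]; norm_num)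
  rw [(at_zero (_ + Multiset.replicate _ _)).2.2] at hmix
  simp only [Multiset.sum_add, Multiset.map_add, Multiset.map_replicate, Multiset.sum_replicate,
    nsmul_eq_mul] at hmix
  set a : ℝ := ((Multiset.card U : ℕ) : ℝ) with ha
  set b : ℝ := ((Multiset.card V : ℕ) : ℝ) with hb
  have e : (a * (S / a) + b * (-S / b)) ^ 2 - (a * (S / a) ^ 2 + b * (-S / b) ^ 2) =
      -(S ^ 2 * (a + b) / (a * b)) := by field_simp; ring
  rw [e, hcR] at hmix
  have hab : 4 * (a * b) ≤ (2 * k + 7) ^ 2 - 9 := by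
    have : Multiset.card U + 3 ≤ Multiset.card V ∨ Multiset.card V + 3 ≤ Multiset.card U := by
      omega
    rw [← hcR]
    rcases this with h | h
    · have : a + 3 ≤ b := by rw [ha, hb]; exact_mod_cast h
      nlinarith
    · have : b + 3 ≤ a := by rw [ha, hb]; exact_mod_cast h
      nlinarith
  have hab0 : 0 < a * b := by positivity
  have : M < S ^ 2 * (2 * k + 7) / (a * b) := by
    rw [lt_div_iff₀ hab0]
    have h3 : (2 * k + 7) ^ 3 ≤ 4 * (S ^ 2 * (2 * k + 7)) := by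
      have : (2 * k + 7) ^ 2 ≤ (2 * S) ^ 2 := pow_le_pow_left₀ (by positivity) hS2 2
      nlinarith
    rcases le_total M 0 with hM0 | hM0
    · have : 0 < S ^ 2 * (2 * k + 7) := by
        have : 0 < S := by linarith
        positivity
      nlinarith
    · nlinarith
  linarith

lemma core (k : ℕ) {ξ : ℝ} (hξ0 : 1 / (2 * k + 7) ≤ ξ) (hξ1 : ξ ≤ 1 / (2 * k + 5))
    (hg : 0 < g k ξ) (x0 : ℝ) (h0 : -1 < x0) (h1 : x0 < 1) (U V : Multiset ℝ)
    (hc : Multiset.card U + Multiset.card V = 2 * k + 7)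
    (hU : ∀ u ∈ U, 1 / (1 + x0) ≤ u) (hV : ∀ v ∈ V, v ≤ -(1 / (1 - x0)))
    (hs : U.sum + V.sum = 0) :
    ∃ t, x0 + t ∈ Set.Icc (-1 : ℝ) 1 ∧ (2 * k + 6) * g k ξ / q0 k ≤ -e2 (U + V) t ∧
      (-e2 (U + V) t ≤ (2 * k + 6) * g k ξ / q0 k →
        (Multiset.card U = k + 4 ∨ Multiset.card U = k + 3) ∧
        (∀ u ∈ U, u = 1 / (1 + x0)) ∧ ∀ v ∈ V, v = -(1 / (1 - x0))) := by
  by_cases hc1 : Multiset.card U = k + 4
  · obtain ⟨t, a1, a2, a3⟩ := core1 k hξ0 hξ1 hg x0 h0 h1 U V hc1 (by omega) hU hV hs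
    exact ⟨t, a1, a2, fun h => ⟨Or.inl hc1, a3 h⟩⟩
  by_cases hc2 : Multiset.card U = k + 3
  · obtain ⟨t, a1, a2, a3⟩ := core1 k hξ0 hξ1 hg (-x0) (by linarith) (by linarith)
      (V.map fun w => -w) (U.map fun w => -w) (by rw [Multiset.card_map]; omega)
      (by rw [Multiset.card_map]; omega)
      (fun u hu => by
        obtain ⟨w, hw, rfl⟩ := Multiset.mem_map.1 hu
        have := hV w hw
        rw [← sub_eq_add_neg]; linarith)
      (fun u hu => by
        obtain ⟨w, hw, rfl⟩ := Multiset.mem_map.1 hu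
        have := hU w hw
        rw [sub_neg_eq_add]; linarith)
      (by rw [Multiset.sum_map_neg, Multiset.sum_map_neg, Multiset.map_id', Multiset.map_id']
          linarith)
    rw [← Multiset.map_add, e2_neg, add_comm V U] at a2 a3
    refine ⟨-t, ⟨by linarith [a1.2], by linarith [a1.1]⟩, a2, fun h => ⟨Or.inr hc2, ?_, ?_⟩⟩
    · intro u hu
      have := (a3 h).2 (-u) (Multiset.mem_map_of_mem _ hu)
      rw [sub_neg_eq_add] at this
      linarith
    · intro u hu
      have := (a3 h).1 (-u) (Multiset.mem_map_of_mem _ hu)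
      rw [← sub_eq_add_neg] at this
      linarith
  · have := core0 k (M_lt k hξ0 hξ1) x0 h0 h1 U V hc hc1 hc2 hU hV hs
    exact ⟨0, ⟨by linarith, by linarith⟩, this.le, fun h => absurd h (not_le.2 this)⟩

end Pool.Agent.H88.Tur
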