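import Mathlib
import Pool.Agent.H88.Tur3

/-! The Turan-type inequality for the second derivative, odd degree: polynomial form. -/

namespace Pool.Agent.H88.Tur

open Polynomial

lemma le_nrm (P : ℝ[X]) {x : ℝ} (hx : x ∈ Set.Icc (-1 : ℝ) 1) : |P.eval x| ≤ nrm P :=
  le_csSup ((isCompact_Icc.image (by fun_prop : Continuous fun x => |P.eval x|)).bddAbove)
    ⟨x, hx, rfl⟩

lemma nrm_eq (P : ℝ[X]) {x : ℝ} (hx : x ∈ Set.Icc (-1 : ℝ) 1)
    (h : ∀ y ∈ Set.Icc (-1 : ℝ) 1, |P.eval y| ≤ |P.eval x|) : nrm P = |P.eval x| :=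
  IsGreatest.csSup_eq ⟨⟨x, hx, rfl⟩, by rintro _ ⟨y, hy, rfl⟩; exact h y hy⟩

lemma exists_max (P : ℝ[X]) : ∃ x ∈ Set.Icc (-1 : ℝ) 1,
    ∀ y ∈ Set.Icc (-1 : ℝ) 1, |P.eval y| ≤ |P.eval x| := by
  obtain ⟨x, hx, h⟩ := (isCompact_Icc (a := (-1 : ℝ)) (b := 1)).exists_isMaxOn
    ⟨0, by norm_num⟩ (by fun_prop : Continuous fun x => |P.eval x|).continuousOn
  exact ⟨x, hx, fun y hy => h hy⟩

lemma nrm_pos {P : ℝ[X]} (hP : P ≠ 0) : 0 < nrm P := by
  by_contra h
  push Not at h
  refine hP (Polynomial.eq_zero_of_infinite_isRoot P ?_)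
  refine (Set.Icc_infinite (by norm_num : (-1 : ℝ) < 1)).mono fun x hx => ?_
  exact abs_nonpos_iff.1 ((le_nrm P hx).trans h)

lemma nrm_of_eq {P R : ℝ[X]} {c : ℝ} (hc : 0 ≤ c) (σ : ℝ) (hσ : σ = 1 ∨ σ = -1)
    (h : ∀ x, |P.eval x| = c * |R.eval (σ * x)|) : nrm P = c * nrm R := by
  obtain ⟨y, hy, hmax⟩ := exists_max R
  have hm : ∀ x ∈ Set.Icc (-1 : ℝ) 1, σ * x ∈ Set.Icc (-1 : ℝ) 1 := by
    intro x hx
    rcases hσ with rfl | rfl <;> constructor <;> linarith [hx.1, hx.2]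
  have hσσ : σ * (σ * y) = y := by rcases hσ with rfl | rfl <;> ring
  rw [nrm_eq R hy hmax, nrm_eq P (hm y hy), h, hσσ]
  intro z hz
  rw [h, h, hσσ]
  exact mul_le_mul_of_nonneg_left (hmax _ (hm z hz)) hc

lemma prod_shift (x0 : ℝ) (R : Multiset ℝ) (h : x0 ∉ R) (y : ℝ) :
    (R.map fun r => X - C r).prod.eval y = (R.map fun r => X - C r).prod.eval x0 *
      e0 (R.map fun r => 1 / (x0 - r)) (y - x0) := by
  induction R using Multiset.induction_on with
  | empty => simp [e0_zero]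
  | cons r R ih =>
    have h1 : x0 - r ≠ 0 := fun e => h (by
      rw [sub_eq_zero.1 e]; exact Multiset.mem_cons_self _ _)
    simp only [Multiset.map_cons, Multiset.prod_cons, eval_mul, eval_sub, eval_X, eval_C]
    rw [ih fun hx => h (Multiset.mem_cons_of_mem hx), e0_cons]
    field_simp
    ring

lemma factor {n : ℕ} {P : ℝ[X]} (hP : P ∈ Cls n) :
    P ≠ 0 ∧ C P.leadingCoeff * (P.roots.map fun r => X - C r).prod = P := by
  have h0 : P ≠ 0 := by
    rintro rfl
    have := hP.1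
    simp at this
  exact ⟨h0, C_leadingCoeff_mul_prod_multiset_X_sub_C
    (by rw [hP.2.1, natDegree_eq_of_degree_eq_some hP.1])⟩

lemma shift_eq {n : ℕ} {P : ℝ[X]} (hP : P ∈ Cls n) {x0 : ℝ} (h : P.eval x0 ≠ 0) :
    P = C (P.eval x0) * (pw (P.roots.map fun r => 1 / (x0 - r))).comp (C 1 * X + C (-x0)) := by
  obtain ⟨h0, hf⟩ := factor hP
  have hx : x0 ∉ P.roots := fun hx => h ((mem_roots h0).1 hx)
  apply Polynomial.funext
  intro y
  have e1 := congrArg (eval y) hf
  have e2 := congrArg (eval x0) hf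
  rw [eval_mul, eval_C] at e1 e2
  rw [prod_shift x0 _ hx y, ← mul_assoc, e2] at e1
  rw [← e1, eval_mul, eval_C, eval_comp, e0]
  simp [sub_eq_add_neg]

lemma main (k : ℕ) {ξ : ℝ} (hξ0 : 1 / (2 * k + 7) ≤ ξ) (hξ1 : ξ ≤ 1 / (2 * k + 5))
    (hg : 0 < g k ξ) {P : ℝ[X]} (hP : P ∈ Cls (2 * k + 7)) :
    (2 * k + 6) * g k ξ / q0 k * nrm P ≤ nrm (d2 P) ∧
      (nrm (d2 P) ≤ (2 * k + 6) * g k ξ / q0 k * nrm P →
        ∃ a : ℝ, a ≠ 0 ∧ (P = C a * Q (k + 3) ∨ P = C a * Qr (k + 3))) := by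
  have hk : (0 : ℝ) ≤ k := Nat.cast_nonneg _
  obtain ⟨h0, hf⟩ := factor hP
  obtain ⟨x0, hx0, hmax⟩ := exists_max P
  have hn := nrm_eq P hx0 hmax
  have hpos := nrm_pos h0
  have hne : P.eval x0 ≠ 0 := by
    intro e
    rw [hn, e] at hpos
    simp at hpos
  have hx : x0 ∉ P.roots := fun hx => hne ((mem_roots h0).1 hx)
  set W := P.roots.map fun r => 1 / (x0 - r) with hW
  have hsh := shift_eq hP hne
  rw [← hW] at hsh
  have hd2 : ∀ t, (d2 P).eval (x0 + t) = P.eval x0 * e2 W t := by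
    intro t
    conv_lhs => rw [hsh]
    have : ∀ (c : ℝ) (p : ℝ[X]), d2 (C c * p) = C c * d2 p := fun c p => by
      simp only [d2, derivative_C_mul]
    rw [this, eval_mul, eval_C, d2_comp, e2]
    simp
  have hd1 : (derivative P).eval x0 = P.eval x0 * W.sum := by
    conv_lhs => rw [hsh]
    rw [derivative_C_mul, eval_mul, eval_C, d1_comp, ← (at_zero W).2.1, e1]
    simp
  have hlow : ∀ t, x0 + t ∈ Set.Icc (-1 : ℝ) 1 → |e2 W t| * nrm P ≤ nrm (d2 P) := by
    intro t ht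
    have := le_nrm (d2 P) ht
    rw [hd2, abs_mul, ← hn, mul_comm] at this
    exact this
  set M := (2 * k + 6) * g k ξ / q0 k with hM
  have hcW : Multiset.card W = 2 * k + 7 := by rw [hW, Multiset.card_map, hP.2.1]
  have hend : ∀ σ : ℝ, σ ^ 2 = 1 → (∀ w ∈ W, 1 / 2 ≤ σ * w) → M * nrm P < nrm (d2 P) := by
    intro σ hσ h
    have h1 := (endpoint σ hσ W h).2
    rw [hcW] at h1
    push_cast at h1
    have h2 := M_lt k hξ0 hξ1
    rw [← hM] at h2
    have h3 : M < e2 W 0 := by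
      by_contra hc
      push Not at hc
      have h4 : (0 : ℝ) ≤ (2 * k + 7) ^ 2 - 9 := by nlinarith
      have := mul_le_mul_of_nonneg_right (h1.trans hc) h4
      nlinarith [mul_nonneg hk hk, mul_nonneg hk (mul_nonneg hk hk),
        mul_nonneg (mul_nonneg hk hk) (mul_nonneg hk hk)]
    have h5 := hlow 0 (by simpa using hx0)
    exact (mul_lt_mul_of_pos_right (h3.trans_le (le_abs_self _)) hpos).trans_le h5
  have hroot : ∀ r ∈ P.roots, -1 ≤ r ∧ r ≤ 1 ∧ r ≠ x0 := fun r hr =>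
    ⟨(hP.2.2 r hr).1, (hP.2.2 r hr).2, fun e => hx (e ▸ hr)⟩
  rcases eq_or_lt_of_le hx0.1 with e | h1
  · have := hend (-1) (by norm_num) fun w hw => by
      obtain ⟨r, hr, rfl⟩ := Multiset.mem_map.1 hw
      obtain ⟨a1, a2, a3⟩ := hroot r hr
      have : 0 < r - x0 := sub_pos.2 (lt_of_le_of_ne (e ▸ a1) a3.symm)
      rw [show -1 * (1 / (x0 - r)) = 1 / (r - x0) by
        rw [← neg_sub r x0, one_div_neg_eq_neg_one_div]; ring]
      exact one_div_le_one_div_of_le this (by linarith)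
    exact ⟨this.le, fun h => absurd h (not_le.2 this)⟩
  rcases eq_or_lt_of_le hx0.2 with e | h2
  · have := hend 1 (by norm_num) fun w hw => by
      obtain ⟨r, hr, rfl⟩ := Multiset.mem_map.1 hw
      obtain ⟨a1, a2, a3⟩ := hroot r hr
      have : 0 < x0 - r := sub_pos.2 (lt_of_le_of_ne (e ▸ a2) a3)
      rw [one_mul]
      exact one_div_le_one_div_of_le this (by linarith)
    exact ⟨this.le, fun h => absurd h (not_le.2 this)⟩
  have hder : (derivative P).eval x0 = 0 := by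
    have hnh := Icc_mem_nhds h1 h2
    rcases lt_or_gt_of_ne hne with hs | hs
    · have : IsLocalMin (fun x => P.eval x) x0 := by
        filter_upwards [hnh] with y hy
        have := hmax y hy
        rw [abs_of_neg hs] at this
        linarith [neg_abs_le (P.eval y)]
      exact this.hasDerivAt_eq_zero (P.hasDerivAt x0)
    · have : IsLocalMax (fun x => P.eval x) x0 := by
        filter_upwards [hnh] with y hy
        have := hmax y hy
        rw [abs_of_pos hs] at this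
        linarith [le_abs_self (P.eval y)]
      exact this.hasDerivAt_eq_zero (P.hasDerivAt x0)
  have hsum : W.sum = 0 := by
    rw [hder] at hd1
    exact (mul_eq_zero.1 hd1.symm).resolve_left hne
  set A := P.roots.filter fun r => r < x0 with hA
  set B := P.roots.filter fun r => ¬ r < x0 with hB
  have hAB : A + B = P.roots := Multiset.filter_add_not _ _
  have hWAB : W = (A.map fun r => 1 / (x0 - r)) + B.map fun r => 1 / (x0 - r) := by
    rw [hW, ← hAB, Multiset.map_add]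
  have hAm : ∀ r ∈ A, -1 ≤ r ∧ r < x0 := fun r hr =>
    ⟨(hroot r (Multiset.mem_filter.1 hr).1).1, (Multiset.mem_filter.1 hr).2⟩
  have hBm : ∀ r ∈ B, r ≤ 1 ∧ x0 < r := fun r hr =>
    ⟨(hroot r (Multiset.mem_filter.1 hr).1).2.1, lt_of_le_of_ne
      (not_lt.1 (Multiset.mem_filter.1 hr).2) (hroot r (Multiset.mem_filter.1 hr).1).2.2.symm⟩
  have hneg : ∀ r, 1 / (x0 - r) = -(1 / (r - x0)) := fun r => by
    rw [← neg_sub r x0, one_div_neg_eq_neg_one_div]
  obtain ⟨t, c1, c2, c3⟩ := core k hξ0 hξ1 hg x0 h1 h2 (A.map fun r => 1 / (x0 - r))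
    (B.map fun r => 1 / (x0 - r)) (by rw [← Multiset.card_add, ← hWAB, hcW])
    (fun u hu => by
      obtain ⟨r, hr, rfl⟩ := Multiset.mem_map.1 hu
      exact one_div_le_one_div_of_le (by linarith [(hAm r hr).2]) (by linarith [(hAm r hr).1]))
    (fun u hu => by
      obtain ⟨r, hr, rfl⟩ := Multiset.mem_map.1 hu
      rw [hneg, neg_le_neg_iff]
      exact one_div_le_one_div_of_le (by linarith [(hBm r hr).2]) (by linarith [(hBm r hr).1]))
    (by rw [← Multiset.sum_add, ← hWAB, hsum])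
  rw [← hWAB, ← hM] at c2 c3
  have c4 := hlow t c1
  have c5 : -e2 W t * nrm P ≤ nrm (d2 P) :=
    (mul_le_mul_of_nonneg_right (neg_le_abs _) hpos.le).trans c4
  refine ⟨(mul_le_mul_of_nonneg_right c2 hpos.le).trans c5, fun h => ?_⟩
  obtain ⟨d1, d2', d3⟩ := c3 (le_of_mul_le_mul_right (c5.trans h) hpos)
  have eA : A = Multiset.replicate (Multiset.card A) (-1) :=
    Multiset.eq_replicate_of_mem fun r hr => by
      have := d2' _ (Multiset.mem_map_of_mem _ hr)
      rw [one_div, one_div, inv_inj] at this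
      linarith
  have eB : B = Multiset.replicate (Multiset.card B) 1 :=
    Multiset.eq_replicate_of_mem fun r hr => by
      have := d3 _ (Multiset.mem_map_of_mem _ hr)
      rw [hneg, neg_inj, one_div, one_div, inv_inj] at this
      linarith
  have hcAB : Multiset.card A + Multiset.card B = 2 * k + 7 := by
    rw [← Multiset.card_add, hAB, hP.2.1]
  rw [Multiset.card_map] at d1
  rw [← hAB, eA, eB] at hf
  simp only [Multiset.map_add, Multiset.prod_add, Multiset.map_replicate,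
    Multiset.prod_replicate] at hf
  have hlc : P.leadingCoeff ≠ 0 := leadingCoeff_ne_zero.2 h0
  have hX : ∀ j : ℕ, (X - C (1 : ℝ)) ^ j = C ((-1) ^ j) * (1 - X) ^ j := fun j => by
    rw [C_pow, ← mul_pow]; congr 1; simp
  have hX' : (X - C (-1 : ℝ)) = 1 + X := by simp [add_comm]
  rw [hX, hX'] at hf
  refine ⟨P.leadingCoeff * (-1) ^ Multiset.card B, by positivity, ?_⟩
  rcases d1 with d1 | d1
  · left
    have : Multiset.card B = k + 3 := by omega
    rw [d1, this] at hf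
    rw [this, C_mul, Q]
    linear_combination -hf
  · right
    have : Multiset.card B = k + 4 := by omega
    rw [d1, this] at hf
    rw [this, C_mul, Qr]
    linear_combination -hf

lemma Q_mem (m : ℕ) : Q m ∈ Cls (2 * m + 1) := by
  have e : Q m = C ((-1) ^ m) * ((X - C 1) ^ m * (X - C (-1)) ^ (m + 1)) := by
    rw [Q, ← mul_assoc, C_pow, ← mul_pow]
    congr 2 <;> simp [add_comm]
  have hm : ((X - C (1 : ℝ)) ^ m * (X - C (-1)) ^ (m + 1)).Monic :=
    ((monic_X_sub_C _).pow _).mul ((monic_X_sub_C _).pow _)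
  have hr : (Q m).roots = m • ({1} : Multiset ℝ) + (m + 1) • ({-1} : Multiset ℝ) := by
    rw [e, roots_C_mul _ (by positivity), roots_mul hm.ne_zero, roots_pow, roots_pow,
      roots_X_sub_C, roots_X_sub_C]
  refine ⟨?_, ?_, ?_⟩
  · rw [e, degree_C_mul (by positivity), degree_mul, degree_pow, degree_pow, degree_X_sub_C,
      degree_X_sub_C]
    simp only [nsmul_one]
    norm_cast
    ring
  · rw [hr]; simp; ring
  · intro x hx
    rw [hr] at hx
    rcases Multiset.mem_add.1 hx with hx | hx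
    · rw [Multiset.mem_singleton.1 (Multiset.mem_of_mem_nsmul hx)]; norm_num
    · rw [Multiset.mem_singleton.1 (Multiset.mem_of_mem_nsmul hx)]; norm_num

end Pool.Agent.H88.Tur
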