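import Mathlib

namespace Pool.Agent.H88.US

open scoped ENNReal

/-- `U_X(x,y;a) = sup_{‖z‖ ≤ a} | ‖x+z‖ - ‖y+z‖ |`, valued in `[0,∞]`. -/
noncomputable def Upt {X : Type*} [NormedAddCommGroup X] (x y : X) (a : ℝ) : ℝ≥0∞ :=
  ⨆ (z : X) (_ : ‖z‖ ≤ a), ENNReal.ofReal |‖x + z‖ - ‖y + z‖|

/-- `U_X(d;a) = inf { U_X(x,y;a) : ‖x‖ = ‖y‖ = 1, ‖x-y‖ ≥ d }`. -/
noncomputable def Umod (X : Type*) [NormedAddCommGroup X] (d a : ℝ) : ℝ≥0∞ :=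
  ⨅ (x : X) (y : X) (_ : ‖x‖ = 1) (_ : ‖y‖ = 1) (_ : d ≤ ‖x - y‖), Upt x y a

/-- Uniform property (S). -/
def UniformS (X : Type*) [NormedAddCommGroup X] : Prop :=
  ∀ d : ℝ, 0 < d → d < 2 → ∀ a : ℝ, 0 < a → 0 < Umod X d a

end Pool.Agent.H88.US
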