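import Mathlib
import Pool.Agent.H88.USDefs

namespace Pool.Agent.H88.US

open MeasureTheory Set Filter Topology
open scoped ENNReal

section Part1

variable {μ : Measure ℝ} [NullSingletonClass μ]

lemma piece {u h : ℝ → ℝ} (hu : Integrable u μ) (hh : Integrable h μ) 
    (hh0 : ∀ t, 0 ≤ h t) {a : ℝ} (ha : 0 < a) (N : ℕ) :
    ∀ b : ℝ, 0 ≤ b → ∫ t in (0:ℝ)..b, u t ∂μ ≤ (N + 1) * a →
      ∃ c e : ℝ, c ≤ e ∧ ∫ t in c..e, u t ∂μ ≤ a ∧
        (∫ t in (0:ℝ)..b, h t ∂μ) / (N + 1) ≤ ∫ t in c..e, h t ∂μ := by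
  induction N with
  | zero =>
    intro b hb hN
    exact ⟨0, b, hb, by simpa using hN, by simp⟩
  | succ N ih =>
    intro b hb hN
    have hH : 0 ≤ ∫ t in (0:ℝ)..b, h t ∂μ :=
      intervalIntegral.integral_nonneg hb (fun t _ => hh0 t)
    by_cases h1 : ∫ t in (0:ℝ)..b, u t ∂μ ≤ a
    · refine ⟨0, b, hb, h1, ?_⟩
      apply div_le_self hH
      push_cast
      have : (0:ℝ) ≤ N := Nat.cast_nonneg N
      linarith
    · push Not at h1
      have hc : Continuous fun c => ∫ t in (0:ℝ)..c, u t ∂μ := hu.continuous_primitive 0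
      have hiv := intermediate_value_Icc hb hc.continuousOn
      have hmem : (∫ t in (0:ℝ)..b, u t ∂μ) - a ∈
          Icc (∫ t in (0:ℝ)..0, u t ∂μ) (∫ t in (0:ℝ)..b, u t ∂μ) := by
        constructor
        · simp; linarith
        · linarith
      obtain ⟨c, ⟨hc0, hcb⟩, hce⟩ := hiv hmem
      have hce : ∫ t in (0:ℝ)..c, u t ∂μ = (∫ t in (0:ℝ)..b, u t ∂μ) - a := hce
      have e1 := intervalIntegral.integral_add_adjacent_intervals (μ := μ) (f := u) (a := 0) (b := c)
        (c := b) hu.intervalIntegrable hu.intervalIntegrable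
      have e2 := intervalIntegral.integral_add_adjacent_intervals (μ := μ) (f := h) (a := 0) (b := c)
        (c := b) hh.intervalIntegrable hh.intervalIntegrable
      have hN1 : (0:ℝ) < N + 1 := by positivity
      by_cases h2 : (∫ t in (0:ℝ)..b, h t ∂μ) / ((N + 1 : ℕ) + 1) ≤ ∫ t in c..b, h t ∂μ
      · exact ⟨c, b, hcb, by linarith, h2⟩
      · push Not at h2
        obtain ⟨c', e', h3, h4, h5⟩ := ih c hc0 (by push_cast at hN; linarith)
        refine ⟨c', e', h3, h4, le_trans ?_ h5⟩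
        push_cast at h2 ⊢
        rw [lt_div_iff₀ (by positivity)] at h2
        rw [div_le_div_iff₀ (by positivity) hN1]
        nlinarith

end Part1

/-- Lebesgue measure on `[0,1]`. -/
noncomputable abbrev m01 : Measure ℝ := volume.restrict (Icc (0:ℝ) 1)

lemma int01 (u : ℝ → ℝ) : ∫ t in (0:ℝ)..1, u t ∂m01 = ∫ t, u t ∂m01 := by
  rw [intervalIntegral.integral_of_le zero_le_one, Measure.restrict_eq_self_of_ae_mem]
  have : (Ioc (0:ℝ) 1 : Set ℝ) =ᵐ[volume] (Icc (0:ℝ) 1 : Set ℝ) := Ioc_ae_eq_Icc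
  rw [m01, ← Measure.restrict_congr_set this]
  exact ae_restrict_mem measurableSet_Ioc

lemma norm_L1 {α : Type*} [MeasurableSpace α] {μ : Measure α} (x : Lp ℝ 1 μ) :
    ‖x‖ = ∫ t, |x t| ∂μ := by
  rw [L1.norm_eq_integral_norm]; rfl

theorem uniformS_L1 : UniformS (Lp ℝ 1 m01) := by
  intro d hd _ a ha
  obtain ⟨N, hN⟩ := exists_nat_gt (1 / a)
  have hN' : 1 ≤ ((N:ℝ) + 1) * a := by
    rw [div_lt_iff₀ ha] at hN; nlinarith
  have hpos : 0 < ENNReal.ofReal (d / (N + 1)) := by
    rw [ENNReal.ofReal_pos]; positivity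
  refine lt_of_lt_of_le hpos ?_
  unfold Umod
  refine le_iInf fun x => le_iInf fun y => le_iInf fun hx => le_iInf fun hy => le_iInf fun hxy => ?_
  have ix : Integrable x m01 := L1.integrable_coeFn x
  have iy : Integrable y m01 := L1.integrable_coeFn y
  have ixy : Integrable (fun t => |x t - y t|) m01 := (ix.sub iy).abs
  have ixmy : Integrable (fun t => |x t| - |y t|) m01 := ix.abs.sub iy.abs
  have ih : Integrable (fun t => |x t| - |y t| + |x t - y t|) m01 := (ix.abs.sub iy.abs).add ixy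
  have hh0 : ∀ t, 0 ≤ |x t| - |y t| + |x t - y t| := by
    intro t
    have := abs_sub_abs_le_abs_sub (y t) (x t)
    rw [abs_sub_comm] at this
    linarith
  obtain ⟨c, e, hce, h1, h2⟩ := piece (μ := m01) ix.abs ih hh0 ha N 1
    zero_le_one (by rw [int01, ← norm_L1, hx]; exact hN')
  rw [intervalIntegral.integral_of_le hce] at h1 h2
  have hH : ∫ t in (0:ℝ)..1, (|x t| - |y t| + |x t - y t|) ∂m01 = ‖x - y‖ := by
    rw [int01, integral_add ixmy ixy, integral_sub ix.abs iy.abs, ← norm_L1,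
      ← norm_L1, hx, hy, norm_L1]
    simp only [sub_self, zero_add]
    apply integral_congr_ae
    filter_upwards [Lp.coeFn_sub x y] with t ht
    rw [ht]; rfl
  rw [hH] at h2
  set A : Set ℝ := Ioc c e with hA
  have mA : MeasurableSet A := measurableSet_Ioc
  have iz : Integrable (A.indicator fun t => - x t) m01 := ix.neg.indicator mA
  let z : Lp ℝ 1 m01 := iz.toL1 _
  have hz : z =ᵐ[m01] A.indicator fun t => - x t := Integrable.coeFn_toL1 iz
  have nz : ‖z‖ ≤ a := by
    rw [norm_L1]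
    refine le_trans (le_of_eq ?_) h1
    rw [← integral_indicator mA]
    apply integral_congr_ae
    filter_upwards [hz] with t ht
    rw [ht]
    by_cases h : t ∈ A <;> simp [h]
  have key : ‖y + z‖ - ‖x + z‖ = ∫ t in A, (|x t| - |y t| + |x t - y t|) ∂m01 := by
    have e1 : ‖y + z‖ - ‖x + z‖ = (‖y + z‖ - ‖x + z‖) + (‖x‖ - ‖y‖) := by rw [hx, hy]; ring
    have i2 : Integrable (fun t => |(y + z) t| - |(x + z) t|) m01 :=
      (L1.integrable_coeFn _).abs.sub (L1.integrable_coeFn _).abs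
    rw [e1, norm_L1, norm_L1, norm_L1, norm_L1,
      ← integral_sub (L1.integrable_coeFn _).abs (L1.integrable_coeFn _).abs,
      ← integral_sub ix.abs iy.abs,
      ← integral_add i2 ixmy, ← integral_indicator mA]
    apply integral_congr_ae
    filter_upwards [hz, Lp.coeFn_add y z, Lp.coeFn_add x z] with t ht h3 h4
    simp only [h3, h4, Pi.add_apply, ht]
    by_cases h : t ∈ A
    · simp only [indicator_of_mem h]
      rw [← sub_eq_add_neg, abs_sub_comm (y t)]
      simp
      ring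
    · simp [indicator_of_notMem h]
  unfold Upt
  refine le_iSup₂_of_le z nz (ENNReal.ofReal_le_ofReal ?_)
  rw [abs_sub_comm]
  refine le_trans ?_ (le_abs_self _)
  rw [key]
  refine le_trans ?_ h2
  gcongr

end Pool.Agent.H88.US
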