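import Mathlib
import Pool.Agent.H88.US1

namespace Pool.Agent.H88.US

open MeasureTheory Set Filter Topology
open scoped ENNReal

variable {α : Type*} [MeasurableSpace α] {μ : Measure α}

/-- `f` is integration against the bounded measurable function `g`. -/
def Rep (μ : Measure α) (f : StrongDual ℝ (Lp ℝ 1 μ)) (g : α → ℝ) : Prop :=
  Measurable g ∧ (∃ C : ℝ, ∀ᵐ t ∂μ, |g t| ≤ C) ∧ ∀ x : Lp ℝ 1 μ, f x = ∫ t, g t * x t ∂μ

lemma int_mul {g : α → ℝ} (hg : Measurable g) {C : ℝ} (hC : ∀ᵐ t ∂μ, |g t| ≤ C)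
    {x : α → ℝ} (hx : Integrable x μ) : Integrable (fun t => g t * x t) μ :=
  hx.bdd_mul hg.aestronglyMeasurable hC

lemma abs_int_le {g : α → ℝ} {C : ℝ} (hC : ∀ᵐ t ∂μ, |g t| ≤ C) (x : Lp ℝ 1 μ) :
    |∫ t, g t * x t ∂μ| ≤ C * ‖x‖ := by
  rw [norm_L1, ← integral_const_mul, ← Real.norm_eq_abs]
  apply norm_integral_le_of_norm_le ((L1.integrable_coeFn x).abs.const_mul C)
  filter_upwards [hC] with t ht
  rw [Real.norm_eq_abs, abs_mul]
  exact mul_le_mul_of_nonneg_right ht (abs_nonneg _)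

lemma Rep.norm_le {f : StrongDual ℝ (Lp ℝ 1 μ)} {g : α → ℝ} (h : Rep μ f g) {C : ℝ} (h0 : 0 ≤ C)
    (hC : ∀ᵐ t ∂μ, |g t| ≤ C) : ‖f‖ ≤ C := by
  refine ContinuousLinearMap.opNorm_le_bound _ h0 fun x => ?_
  rw [h.2.2 x, Real.norm_eq_abs]
  exact abs_int_le hC x

lemma exists_rep {g : α → ℝ} (hg : Measurable g) {C : ℝ} (hC : ∀ᵐ t ∂μ, |g t| ≤ C) :
    ∃ f, Rep μ f g := by
  let L : Lp ℝ 1 μ →ₗ[ℝ] ℝ :=
    { toFun := fun x => ∫ t, g t * x t ∂μ
      map_add' := by
        intro x y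
        rw [← integral_add (int_mul hg hC (L1.integrable_coeFn x))
          (int_mul hg hC (L1.integrable_coeFn y))]
        apply integral_congr_ae
        filter_upwards [Lp.coeFn_add x y] with t ht
        rw [ht, Pi.add_apply, mul_add]
      map_smul' := by
        intro c x
        simp only [RingHom.id_apply, smul_eq_mul]
        rw [← integral_const_mul]
        apply integral_congr_ae
        filter_upwards [Lp.coeFn_smul c x] with t ht
        rw [ht, Pi.smul_apply, smul_eq_mul]; ring }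
  refine ⟨L.mkContinuous C fun x => ?_, hg, ⟨C, hC⟩, fun x => rfl⟩
  rw [Real.norm_eq_abs]
  exact abs_int_le hC x

lemma Rep.add {f f' : StrongDual ℝ (Lp ℝ 1 μ)} {g g' : α → ℝ} (h : Rep μ f g) (h' : Rep μ f' g') :
    Rep μ (f + f') (fun t => g t + g' t) := by
  obtain ⟨hg, ⟨C, hC⟩, e⟩ := h
  obtain ⟨hg', ⟨C', hC'⟩, e'⟩ := h'
  refine ⟨hg.add hg', ⟨C + C', ?_⟩, fun x => ?_⟩
  · filter_upwards [hC, hC'] with t h1 h2
    exact (abs_add_le _ _).trans (add_le_add h1 h2)
  · rw [add_apply, e, e', ← integral_add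
      (int_mul hg hC (L1.integrable_coeFn x)) (int_mul hg' hC' (L1.integrable_coeFn x))]
    congr 1; ext t; ring

lemma Rep.smul {f : StrongDual ℝ (Lp ℝ 1 μ)} {g : α → ℝ} (h : Rep μ f g) (c : ℝ) :
    Rep μ (c • f) (fun t => c * g t) := by
  obtain ⟨hg, ⟨C, hC⟩, e⟩ := h
  refine ⟨hg.const_mul c, ⟨|c| * C, ?_⟩, fun x => ?_⟩
  · filter_upwards [hC] with t h1
    rw [abs_mul]
    exact mul_le_mul_of_nonneg_left h1 (abs_nonneg _)
  · rw [smul_apply, e, smul_eq_mul, ← integral_const_mul]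
    congr 1; ext t; ring

variable [IsFiniteMeasure μ]

lemma int_ind (g : α → ℝ) {A : Set α} (hA : MeasurableSet A) :
    ∫ t, g t * (indicatorConstLp 1 hA (measure_ne_top μ A) (1:ℝ)) t ∂μ = ∫ t in A, g t ∂μ := by
  rw [← integral_indicator hA]
  apply integral_congr_ae
  filter_upwards [indicatorConstLp_coeFn (p := 1) (hs := hA) (hμs := measure_ne_top μ A)
    (c := (1:ℝ))] with t ht
  rw [ht]
  by_cases h : t ∈ A <;> simp [h]

lemma Rep.unique {f : StrongDual ℝ (Lp ℝ 1 μ)} {g g' : α → ℝ} (h : Rep μ f g) (h' : Rep μ f g') :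
    g =ᵐ[μ] g' := by
  obtain ⟨hg, ⟨C, hC⟩, e⟩ := h
  obtain ⟨hg', ⟨C', hC'⟩, e'⟩ := h'
  have i1 : Integrable g μ := by simpa using int_mul hg hC (integrable_const (1:ℝ))
  have i2 : Integrable g' μ := by simpa using int_mul hg' hC' (integrable_const (1:ℝ))
  refine Integrable.ae_eq_of_forall_setIntegral_eq g g' i1 i2 fun A hA _ => ?_
  rw [← int_ind g hA, ← int_ind g' hA, ← e, ← e']

lemma norm_ind {A : Set α} (hA : MeasurableSet A) :
    ‖indicatorConstLp 1 hA (measure_ne_top μ A) (1:ℝ)‖ = μ.real A := by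
  rw [norm_indicatorConstLp one_ne_zero ENNReal.one_ne_top]
  simp

/-- Radon–Nikodym representation of functionals on `L¹` of a probability measure. -/
theorem rep_exists {μ : Measure α} [IsProbabilityMeasure μ] (f : StrongDual ℝ (Lp ℝ 1 μ)) :
    ∃ g, Rep μ f g ∧ ∀ᵐ t ∂μ, |g t| ≤ ‖f‖ := by
  have hm : ∀ u : Lp ℝ 2 μ, MemLp u 1 μ := fun u => (Lp.memLp u).mono_exponent one_le_two
  let L : Lp ℝ 2 μ →ₗ[ℝ] ℝ :=
    { toFun := fun u => f ((hm u).toLp u)
      map_add' := by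
        intro u v
        rw [← map_add, ← MemLp.toLp_add]
        congr 1
        exact MemLp.toLp_congr _ _ (Lp.coeFn_add u v)
      map_smul' := by
        intro c u
        simp only [RingHom.id_apply]
        rw [← map_smul, ← MemLp.toLp_const_smul]
        congr 1
        exact MemLp.toLp_congr _ _ (Lp.coeFn_smul c u) }
  have hL : ∀ u, ‖L u‖ ≤ ‖f‖ * ‖u‖ := by
    intro u
    refine (f.le_opNorm _).trans (mul_le_mul_of_nonneg_left ?_ (norm_nonneg _))
    rw [Lp.norm_toLp, Lp.norm_def]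
    exact ENNReal.toReal_mono (Lp.eLpNorm_ne_top u)
      (eLpNorm_le_eLpNorm_of_exponent_le one_le_two (Lp.aestronglyMeasurable u))
  let F : StrongDual ℝ (Lp ℝ 2 μ) := L.mkContinuous _ hL
  let g0 : Lp ℝ 2 μ := (InnerProductSpace.toDual ℝ _).symm F
  have hg0 : ∀ u : Lp ℝ 2 μ, f ((hm u).toLp u) = ∫ t, g0 t * u t ∂μ := by
    intro u
    have : inner ℝ g0 u = F u := InnerProductSpace.toDual_symm_apply
    change F u = _
    rw [← this, L2.inner_def]
    congr 1; ext t; simp [mul_comm]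
  have hgm : Measurable (g0 : α → ℝ) := (Lp.stronglyMeasurable g0).measurable
  have ig : Integrable g0 μ := memLp_one_iff_integrable.1 (hm g0)
  have hset : ∀ A (hA : MeasurableSet A),
      f (indicatorConstLp 1 hA (measure_ne_top μ A) (1:ℝ)) = ∫ t in A, g0 t ∂μ := by
    intro A hA
    have e1 : indicatorConstLp 1 hA (measure_ne_top μ A) (1:ℝ) =
        (hm (indicatorConstLp 2 hA (measure_ne_top μ A) (1:ℝ))).toLp _ := by
      apply Lp.ext
      filter_upwards [indicatorConstLp_coeFn (p := 1) (hs := hA) (hμs := measure_ne_top μ A)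
        (c := (1:ℝ)), indicatorConstLp_coeFn (p := 2) (hs := hA) (hμs := measure_ne_top μ A)
        (c := (1:ℝ)), MemLp.coeFn_toLp (hm (indicatorConstLp 2 hA (measure_ne_top μ A) (1:ℝ)))]
        with t h1 h2 h3
      rw [h1, h3, h2]
    rw [e1, hg0, ← integral_indicator hA]
    apply integral_congr_ae
    filter_upwards [indicatorConstLp_coeFn (p := 2) (hs := hA) (hμs := measure_ne_top μ A)
      (c := (1:ℝ))] with t ht
    rw [ht]
    by_cases h : t ∈ A <;> simp [h]
  have hbd : ∀ A (hA : MeasurableSet A), |∫ t in A, g0 t ∂μ| ≤ ‖f‖ * μ.real A := by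
    intro A hA
    rw [← hset A hA, ← norm_ind hA, ← Real.norm_eq_abs]
    exact f.le_opNorm _
  have hb : ∀ᵐ t ∂μ, |g0 t| ≤ ‖f‖ := by
    have h1 : (g0 : α → ℝ) ≤ᵐ[μ] fun _ => ‖f‖ := by
      refine ae_le_of_forall_setIntegral_le ig (integrable_const _) fun A hA _ => ?_
      rw [setIntegral_const, smul_eq_mul, mul_comm]
      exact (le_abs_self _).trans (hbd A hA)
    have h2 : (fun _ => -‖f‖) ≤ᵐ[μ] (g0 : α → ℝ) := by
      refine ae_le_of_forall_setIntegral_le (integrable_const _) ig fun A hA _ => ?_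
      rw [setIntegral_const, smul_eq_mul, mul_comm]
      have := (abs_le.1 (hbd A hA)).1
      linarith
    filter_upwards [h1, h2] with t a b
    exact abs_le.2 ⟨b, a⟩
  obtain ⟨f', hf'⟩ := exists_rep hgm hb
  have : f = f' := by
    ext x
    refine Lp.induction (p := 1) ENNReal.one_ne_top (fun x => f x = f' x) ?_ ?_ ?_ x
    · intro c A hA hμA
      have e1 : (Lp.simpleFunc.indicatorConst 1 hA hμA.ne c : Lp ℝ 1 μ) =
          c • indicatorConstLp 1 hA (measure_ne_top μ A) (1:ℝ) := by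
        rw [Lp.simpleFunc.coe_indicatorConst]
        apply Lp.ext
        filter_upwards [indicatorConstLp_coeFn (p := 1) (hs := hA) (hμs := measure_ne_top μ A)
          (c := (1:ℝ)), indicatorConstLp_coeFn (p := 1) (hs := hA) (hμs := hμA.ne) (c := c),
          Lp.coeFn_smul c (indicatorConstLp 1 hA (measure_ne_top μ A) (1:ℝ))] with t h1 h2 h3
        rw [h3, h2, Pi.smul_apply, h1]
        by_cases h : t ∈ A <;> simp [h]
      rw [e1, map_smul, map_smul, hset A hA, hf'.2.2, int_ind]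
    · intro u v hu hv _ e1 e2
      rw [map_add, map_add, e1, e2]
    · exact isClosed_eq f.continuous f'.continuous
  exact ⟨g0, this ▸ hf', hb⟩

/-- The atom of the bidual attached to an ultrafilter finer than the a.e. filter. -/
theorem atom {μ : Measure α} [IsProbabilityMeasure μ] (U : Ultrafilter α) (hU : (U : Filter α) ≤ ae μ) :
    ∃ φ : StrongDual ℝ (StrongDual ℝ (Lp ℝ 1 μ)), ‖φ‖ ≤ 1 ∧
      ∀ f g, Rep μ f g → Tendsto g U (𝓝 (φ f)) := by
  have h1 : ∀ f : StrongDual ℝ (Lp ℝ 1 μ), ∃ c, |c| ≤ ‖f‖ ∧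
      ∀ g, Rep μ f g → Tendsto g U (𝓝 c) := by
    intro f
    obtain ⟨g, hg, hb⟩ := rep_exists f
    have hle : (↑(U.map g) : Filter ℝ) ≤ 𝓟 (Icc (-‖f‖) ‖f‖) := by
      rw [le_principal_iff, Ultrafilter.coe_map, mem_map]
      filter_upwards [hU hb] with t ht
      exact abs_le.1 ht
    obtain ⟨c, hc, hlim⟩ := isCompact_Icc.ultrafilter_le_nhds (U.map g) hle
    refine ⟨c, abs_le.2 hc, fun g' hg' => ?_⟩
    have : Tendsto g U (𝓝 c) := hlim
    exact this.congr' (hU (hg.unique hg'))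
  choose c hc1 hc2 using h1
  let L : StrongDual ℝ (Lp ℝ 1 μ) →ₗ[ℝ] ℝ :=
    { toFun := c
      map_add' := by
        intro f f'
        obtain ⟨g, hg, -⟩ := rep_exists f
        obtain ⟨g', hg', -⟩ := rep_exists f'
        exact tendsto_nhds_unique (hc2 _ _ (hg.add hg')) ((hc2 _ _ hg).add (hc2 _ _ hg'))
      map_smul' := by
        intro a f
        obtain ⟨g, hg, -⟩ := rep_exists f
        exact tendsto_nhds_unique (hc2 _ _ (hg.smul a)) ((hc2 _ _ hg).const_mul a) }
  refine ⟨L.mkContinuous 1 fun f => by rw [one_mul]; exact hc1 f, ?_, fun f g h => hc2 f g h⟩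
  exact LinearMap.mkContinuous_norm_le _ zero_le_one _

end Pool.Agent.H88.US
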