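import Mathlib
import Pool.Agent.H88.US2

namespace Pool.Agent.H88.US

open MeasureTheory Set Filter Topology
open scoped ENNReal

variable {α : Type*} [MeasurableSpace α] {μ : Measure α} [IsProbabilityMeasure μ]

omit [IsProbabilityMeasure μ] in
lemma rep_ind {A : Set α} (hA : MeasurableSet A) :
    ∃ e : StrongDual ℝ (Lp ℝ 1 μ), Rep μ e (A.indicator fun _ => (1:ℝ)) ∧ ‖e‖ ≤ 1 := by
  have hb : ∀ᵐ t ∂μ, |A.indicator (fun _ => (1:ℝ)) t| ≤ 1 := by
    refine Eventually.of_forall fun t => ?_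
    by_cases h : t ∈ A <;> simp [h]
  obtain ⟨e, he⟩ := exists_rep (measurable_const.indicator hA) hb
  exact ⟨e, he, he.norm_le zero_le_one hb⟩

omit [MeasurableSpace α] in
lemma lim_ind_mem {U : Ultrafilter α} {A : Set α} (hA : A ∈ U) {c : ℝ}
    (h : Tendsto (A.indicator fun _ => (1:ℝ)) U (𝓝 c)) : c = 1 := by
  refine tendsto_nhds_unique h (tendsto_const_nhds.congr' ?_)
  filter_upwards [hA] with t ht
  simp [ht]

omit [MeasurableSpace α] in
lemma lim_ind_notMem {U : Ultrafilter α} {A : Set α} (hA : Aᶜ ∈ U) {c : ℝ}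
    (h : Tendsto (A.indicator fun _ => (1:ℝ)) U (𝓝 c)) : c = 0 := by
  refine tendsto_nhds_unique h (tendsto_const_nhds.congr' ?_)
  filter_upwards [hA] with t ht
  have : t ∉ A := ht
  simp [this]

lemma two_atoms {U V : Ultrafilter α} {S : Set α} (hS : MeasurableSet S) (hSU : S ∈ U)
    (hSV : Sᶜ ∈ V) {φ ψ : StrongDual ℝ (StrongDual ℝ (Lp ℝ 1 μ))} (nφ : ‖φ‖ ≤ 1) (nψ : ‖ψ‖ ≤ 1)
    (hφ : ∀ f g, Rep μ f g → Tendsto g U (𝓝 (φ f)))
    (hψ : ∀ f g, Rep μ f g → Tendsto g V (𝓝 (ψ f)))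
    (z : StrongDual ℝ (StrongDual ℝ (Lp ℝ 1 μ))) {s t s' t' : ℝ} (hs : ‖z‖ ≤ s) (ht : ‖z‖ ≤ t)
    (hst : s + t = s' + t') : ‖s • φ + t • ψ + z‖ ≤ ‖s' • φ + t' • ψ + z‖ := by
  set N := ‖s' • φ + t' • ψ + z‖ with hN
  have hN0 : 0 ≤ N := ContinuousLinearMap.opNorm_nonneg _
  have key : ∀ f : StrongDual ℝ (Lp ℝ 1 μ), ‖f‖ ≤ 1 → (s • φ + t • ψ + z) f ≤ N := by
    intro f hf
    refine le_of_forall_pos_le_add fun δ hδ => ?_
    obtain ⟨ε, hε, hεδ⟩ : ∃ ε : ℝ, 0 < ε ∧ N * ε ≤ δ :=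
      ⟨δ / (N + 1), by positivity, by
        rw [mul_div_assoc', div_le_iff₀ (by positivity)]; nlinarith⟩
    obtain ⟨g, hg, hb⟩ := rep_exists f
    have hp : |φ f| ≤ 1 := by
      have := φ.le_opNorm f
      rw [Real.norm_eq_abs] at this
      nlinarith [φ.opNorm_nonneg, norm_nonneg f]
    have hq : |ψ f| ≤ 1 := by
      have := ψ.le_opNorm f
      rw [Real.norm_eq_abs] at this
      nlinarith [ψ.opNorm_nonneg, norm_nonneg f]
    set p := φ f with hpd
    set q := ψ f with hqd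
    let A : Set α := S ∩ g ⁻¹' Icc (p - ε) (p + ε)
    let B : Set α := Sᶜ ∩ g ⁻¹' Icc (q - ε) (q + ε)
    have mA : MeasurableSet A := hS.inter (hg.1 measurableSet_Icc)
    have mB : MeasurableSet B := hS.compl.inter (hg.1 measurableSet_Icc)
    have hAU : A ∈ U := inter_mem hSU (hφ f g hg (Icc_mem_nhds (by linarith) (by linarith)))
    have hBV : B ∈ V := inter_mem hSV (hψ f g hg (Icc_mem_nhds (by linarith) (by linarith)))
    have hAV : Aᶜ ∈ V := mem_of_superset hSV (compl_subset_compl.2 inter_subset_left)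
    have hBU : Bᶜ ∈ U := mem_of_superset hSU (fun x hx h => h.1 hx)
    obtain ⟨eA, rA, nA⟩ := rep_ind (μ := μ) mA
    obtain ⟨eB, rB, nB⟩ := rep_ind (μ := μ) mB
    have a1 : φ eA = 1 := lim_ind_mem hAU (hφ _ _ rA)
    have a2 : ψ eA = 0 := lim_ind_notMem hAV (hψ _ _ rA)
    have b1 : φ eB = 0 := lim_ind_notMem hBU (hφ _ _ rB)
    have b2 : ψ eB = 1 := lim_ind_mem hBV (hψ _ _ rB)
    have r' := (hg.add (rA.smul (1 - p))).add (rB.smul (1 - q))
    have n' : ‖f + (1 - p) • eA + (1 - q) • eB‖ ≤ 1 + ε := by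
      refine r'.norm_le (by positivity) ?_
      filter_upwards [hb] with x hx
      have hx1 := abs_le.1 (hx.trans hf)
      have hp' := abs_le.1 hp
      have hq' := abs_le.1 hq
      by_cases h1 : x ∈ A
      · have h2 : x ∉ B := fun h => h.1 h1.1
        have h3 : g x ∈ Icc (p - ε) (p + ε) := h1.2
        simp only [indicator_of_mem h1, indicator_of_notMem h2]
        rw [abs_le]; constructor <;> linarith [h3.1, h3.2]
      · by_cases h2 : x ∈ B
        · have h3 : g x ∈ Icc (q - ε) (q + ε) := h2.2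
          simp only [indicator_of_mem h2, indicator_of_notMem h1]
          rw [abs_le]; constructor <;> linarith [h3.1, h3.2]
        · simp only [indicator_of_notMem h2, indicator_of_notMem h1]
          rw [abs_le]; constructor <;> linarith
    have zA : -‖z‖ ≤ z eA := by
      have := z.le_opNorm eA
      rw [Real.norm_eq_abs] at this
      have h2 := (abs_le.1 this).1
      nlinarith [z.opNorm_nonneg]
    have zB : -‖z‖ ≤ z eB := by
      have := z.le_opNorm eB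
      rw [Real.norm_eq_abs] at this
      have h2 := (abs_le.1 this).1
      nlinarith [z.opNorm_nonneg]
    have h1 : (s' • φ + t' • ψ + z) (f + (1 - p) • eA + (1 - q) • eB) ≤ N * (1 + ε) := by
      have := (s' • φ + t' • ψ + z).le_opNorm (f + (1 - p) • eA + (1 - q) • eB)
      rw [Real.norm_eq_abs] at this
      exact (le_abs_self _).trans (this.trans (mul_le_mul_of_nonneg_left n' hN0))
    simp only [add_apply, smul_apply, map_add, map_smul, smul_eq_mul, a1, a2, b1, b2, ← hpd,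
      ← hqd] at h1 ⊢
    have hp' := abs_le.1 hp
    have hq' := abs_le.1 hq
    have c1 : 0 ≤ (1 - p) * (z eA + s) := mul_nonneg (by linarith) (by linarith)
    have c2 : 0 ≤ (1 - q) * (z eB + t) := mul_nonneg (by linarith) (by linarith)
    nlinarith
  refine ContinuousLinearMap.opNorm_le_of_unit_norm hN0 fun f hf => ?_
  rw [Real.norm_eq_abs, abs_le]
  refine ⟨?_, key f hf.le⟩
  have := key (-f) (by rw [norm_neg]; exact hf.le)
  rw [map_neg] at this
  linarith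

theorem not_uniformS {S : Set α} (hS : MeasurableSet S) (h1 : μ S ≠ 0) (h2 : μ Sᶜ ≠ 0) :
    Umod (StrongDual ℝ (StrongDual ℝ (Lp ℝ 1 μ))) 1 (1 / 4) = 0 := by
  have n1 : (ae μ ⊓ 𝓟 S).NeBot := by
    rw [← frequently_mem_iff_neBot, frequently_ae_mem_iff]; exact h1
  have n2 : (ae μ ⊓ 𝓟 Sᶜ).NeBot := by
    rw [← frequently_mem_iff_neBot, frequently_ae_mem_iff]; exact h2
  obtain ⟨U, hU⟩ := Ultrafilter.exists_le (ae μ ⊓ 𝓟 S)
  obtain ⟨V, hV⟩ := Ultrafilter.exists_le (ae μ ⊓ 𝓟 Sᶜ)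
  have hSU : S ∈ U := (hU.trans inf_le_right) (mem_principal_self _)
  have hSV : Sᶜ ∈ V := (hV.trans inf_le_right) (mem_principal_self _)
  obtain ⟨φ, nφ, hφ⟩ := atom U (hU.trans inf_le_left)
  obtain ⟨ψ, nψ, hψ⟩ := atom V (hV.trans inf_le_left)
  obtain ⟨e, re, ne⟩ := rep_ind (μ := μ) MeasurableSet.univ
  obtain ⟨eA, rA, -⟩ := rep_ind (μ := μ) hS
  obtain ⟨eB, rB, -⟩ := rep_ind (μ := μ) hS.compl
  have e1 : φ e = 1 := lim_ind_mem univ_mem (hφ _ _ re)
  have e2 : ψ e = 1 := lim_ind_mem univ_mem (hψ _ _ re)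
  have a1 : φ eA = 1 := lim_ind_mem hSU (hφ _ _ rA)
  have a2 : ψ eA = 0 := lim_ind_notMem hSV (hψ _ _ rA)
  have b1 : φ eB = 0 := lim_ind_notMem (by rw [compl_compl]; exact hSU) (hφ _ _ rB)
  have b2 : ψ eB = 1 := lim_ind_mem hSV (hψ _ _ rB)
  have nAB : ‖eA + (-1:ℝ) • eB‖ ≤ 1 := by
    refine (rA.add (rB.smul (-1))).norm_le zero_le_one (Eventually.of_forall fun t => ?_)
    by_cases h : t ∈ S <;> simp [h]
  have unit : ∀ s t : ℝ, 0 ≤ s → 0 ≤ t → s + t = 1 → ‖s • φ + t • ψ‖ = 1 := by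
    intro s t hs ht hst
    apply le_antisymm
    · refine (ContinuousLinearMap.opNorm_add_le _ _).trans ?_
      have c1 := ContinuousLinearMap.opNorm_smul_le s φ
      have c2 := ContinuousLinearMap.opNorm_smul_le t ψ
      rw [Real.norm_of_nonneg hs] at c1
      rw [Real.norm_of_nonneg ht] at c2
      nlinarith
    · have := (s • φ + t • ψ).le_opNorm e
      simp only [add_apply, smul_apply, e1, e2, smul_eq_mul, mul_one, hst, norm_one] at this
      nlinarith [(s • φ + t • ψ).opNorm_nonneg]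
  have hd : 1 ≤ ‖((3 / 4 : ℝ) • φ + (1 / 4 : ℝ) • ψ) - ((1 / 4 : ℝ) • φ + (3 / 4 : ℝ) • ψ)‖ := by
    set w := ((3 / 4 : ℝ) • φ + (1 / 4 : ℝ) • ψ) - ((1 / 4 : ℝ) • φ + (3 / 4 : ℝ) • ψ) with hw
    have := w.le_opNorm (eA + (-1:ℝ) • eB)
    have e3 : w (eA + (-1:ℝ) • eB) = 1 := by
      simp only [hw, sub_apply, add_apply, smul_apply, map_add, map_smul, a1, a2, b1, b2,
        smul_eq_mul]
      norm_num
    rw [e3, norm_one] at this
    nlinarith [w.opNorm_nonneg]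
  refine le_antisymm ?_ zero_le
  unfold Umod
  refine iInf_le_of_le ((3 / 4 : ℝ) • φ + (1 / 4 : ℝ) • ψ) (iInf_le_of_le
    ((1 / 4 : ℝ) • φ + (3 / 4 : ℝ) • ψ) (iInf_le_of_le (unit _ _ (by norm_num) (by norm_num)
    (by norm_num)) (iInf_le_of_le (unit _ _ (by norm_num) (by norm_num) (by norm_num))
    (iInf_le_of_le hd ?_))))
  unfold Upt
  refine iSup₂_le fun z hz => ?_
  have q1 := two_atoms hS hSU hSV nφ nψ hφ hψ z (s := 3 / 4) (t := 1 / 4) (s' := 1 / 4)
    (t' := 3 / 4) (by linarith) hz (by norm_num)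
  have q2 := two_atoms hS hSU hSV nφ nψ hφ hψ z (s := 1 / 4) (t := 3 / 4) (s' := 3 / 4)
    (t' := 1 / 4) hz (by linarith) (by norm_num)
  rw [le_antisymm q1 q2]
  simp

instance : IsProbabilityMeasure m01 := ⟨by simp⟩

theorem bidual_L1 : Umod (StrongDual ℝ (StrongDual ℝ (Lp ℝ 1 m01))) 1 (1 / 4) = 0 := by
  refine not_uniformS (S := Iic (1 / 2 : ℝ)) measurableSet_Iic ?_ ?_
  · rw [m01, Measure.restrict_apply measurableSet_Iic]
    refine ne_of_gt (lt_of_lt_of_le ?_ (measure_mono (s := Icc 0 (1 / 2)) ?_))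
    · simp
    · intro t ht
      exact ⟨ht.2, ht.1, by linarith [ht.2]⟩
  · rw [m01, Measure.restrict_apply measurableSet_Iic.compl]
    refine ne_of_gt (lt_of_lt_of_le ?_ (measure_mono (s := Icc (3 / 4) 1) ?_))
    · simp; norm_num
    · intro t ht
      refine ⟨?_, by linarith [ht.1], ht.2⟩
      simp only [mem_compl_iff, mem_Iic, not_le]
      linarith [ht.1]

end Pool.Agent.H88.US
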