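import Mathlib

set_option autoImplicit false

namespace Pool.Agent.H88.Wilm

open Polynomial

noncomputable def T : ℂ[X] := C (-83231059509 / 62500000000) * X ^ 2 + C (-22779519061 / 15625000000) * X ^ 3 + C (-5780619689 / 3750000000) * X ^ 4 + C (-20814313 / 15625000) * X ^ 5 + C (-402961 / 468750) * X ^ 6 + C (-312 / 875) * X ^ 7 + C (-13 / 175) * X ^ 8

noncomputable def Tf (u : ℂ) : ℂ := (-83231059509 / 62500000000) * u ^ 2 + (-22779519061 / 15625000000) * u ^ 3 + (-5780619689 / 3750000000) * u ^ 4 + (-20814313 / 15625000) * u ^ 5 + (-402961 / 468750) * u ^ 6 + (-312 / 875) * u ^ 7 + (-13 / 175) * u ^ 8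

noncomputable def Pf (u : ℂ) : ℂ := (-83231059509 / 31250000000) * u ^ 1 + (-68338557183 / 15625000000) * u ^ 2 + (-5780619689 / 937500000) * u ^ 3 + (-20814313 / 3125000) * u ^ 4 + (-402961 / 78125) * u ^ 5 + (-312 / 125) * u ^ 6 + (-104 / 175) * u ^ 7

theorem T_eval (u : ℂ) : T.eval u = Tf u := by simp [T, Tf]

theorem P_eval (u : ℂ) : (derivative T).eval u = Pf u := by
  simp [T, Pf]
  ring

theorem quad (u a b : ℂ) : (u - (a + b * Complex.I)) * (u - (a + -b * Complex.I)) =
    (u - a) ^ 2 + b ^ 2 := by
  linear_combination (-b ^ 2) * Complex.I_mul_I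

theorem D_eval (u : ℂ) : (derivative (derivative T)).eval u = (-104 / 25) * (((u - ((-2 / 25) + (69 / 100) * Complex.I)) * (u - ((-2 / 25) + (-69 / 100) * Complex.I))) * ((u - ((-7 / 10) + (19 / 25) * Complex.I)) * (u - ((-7 / 10) + (-19 / 25) * Complex.I))) * ((u - ((-51 / 50) + (9 / 20) * Complex.I)) * (u - ((-51 / 50) + (-9 / 20) * Complex.I)))) := by
  have h1 := quad u (-2 / 25) (69 / 100)
  have h2 := quad u (-7 / 10) (19 / 25)
  have h3 := quad u (-51 / 50) (9 / 20)
  simp only [neg_div] at *
  rw [h1, h2, h3]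
  simp [T]
  ring

theorem crit (u : ℂ) (h : (derivative (derivative T)).eval u = 0) : 1 ≤ ‖Pf u‖ := by
  rw [D_eval] at h
  have h0 := (mul_eq_zero.1 h).resolve_left (by norm_num)
  simp only [mul_eq_zero, sub_eq_zero] at h0
  rcases h0 with ((h | h) | (h | h)) | (h | h)
  · have e : Pf (((-2 / 25) : ℂ) + (69 / 100) * Complex.I) = (((26745013929785801 / 32812500000000000) : ℝ) : ℂ) + (((-50389071195177 / 85449218750000) : ℝ) : ℂ) * Complex.I := by
      apply Complex.ext <;> simp [Pf, pow_succ] <;> norm_num
    rw [h, e, Complex.norm_add_mul_I]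
    refine Real.le_sqrt_of_sq_le ?_
    norm_num
  · have e : Pf (((-2 / 25) : ℂ) + (-69 / 100) * Complex.I) = (((26745013929785801 / 32812500000000000) : ℝ) : ℂ) + (((50389071195177 / 85449218750000) : ℝ) : ℂ) * Complex.I := by
      apply Complex.ext <;> simp [Pf, pow_succ] <;> norm_num
    rw [h, e, Complex.norm_add_mul_I]
    refine Real.le_sqrt_of_sq_le ?_
    norm_num
  · have e : Pf (((-7 / 10) : ℂ) + (19 / 25) * Complex.I) = (((112402863251653 / 117187500000000) : ℝ) : ℂ) + (((-77400783671809 / 256347656250000) : ℝ) : ℂ) * Complex.I := by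
      apply Complex.ext <;> simp [Pf, pow_succ] <;> norm_num
    rw [h, e, Complex.norm_add_mul_I]
    refine Real.le_sqrt_of_sq_le ?_
    norm_num
  · have e : Pf (((-7 / 10) : ℂ) + (-19 / 25) * Complex.I) = (((112402863251653 / 117187500000000) : ℝ) : ℂ) + (((77400783671809 / 256347656250000) : ℝ) : ℂ) * Complex.I := by
      apply Complex.ext <;> simp [Pf, pow_succ] <;> norm_num
    rw [h, e, Complex.norm_add_mul_I]
    refine Real.le_sqrt_of_sq_le ?_
    norm_num
  · have e : Pf (((-51 / 50) : ℂ) + (9 / 20) * Complex.I) = (((10742628713108643 / 10937500000000000) : ℝ) : ℂ) + (((-22023811953 / 109375000000) : ℝ) : ℂ) * Complex.I := by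
      apply Complex.ext <;> simp [Pf, pow_succ] <;> norm_num
    rw [h, e, Complex.norm_add_mul_I]
    refine Real.le_sqrt_of_sq_le ?_
    norm_num
  · have e : Pf (((-51 / 50) : ℂ) + (-9 / 20) * Complex.I) = (((10742628713108643 / 10937500000000000) : ℝ) : ℂ) + (((22023811953 / 109375000000) : ℝ) : ℂ) * Complex.I := by
      apply Complex.ext <;> simp [Pf, pow_succ] <;> norm_num
    rw [h, e, Complex.norm_add_mul_I]
    refine Real.le_sqrt_of_sq_le ?_
    norm_num

noncomputable def z1 : ℂ := ((-191 / 200) : ℂ) + (9 / 25) * Complex.I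

theorem seg (t : ℝ) (h0 : 0 ≤ t) (h1 : t ≤ 1) : ‖Pf (t * z1)‖ < 1 := by
  have e : Pf (t * z1) = (((15897132366219 / 6250000000000) * t ^ 1 + (-2138791824156351 / 625000000000000) * t ^ 2 + (23107674588976471 / 7500000000000000) * t ^ 3 + (-4642261874178409 / 5000000000000000) * t ^ 4 + (-32782891433296849 / 25000000000000000) * t ^ 5 + (1574439579850137 / 1000000000000000) * t ^ 6 + (-156413111829336973 / 280000000000000000) * t ^ 7 : ℝ) : ℂ) + (((-749079535581 / 781250000000) * t ^ 1 + (117473979797577 / 39062500000000) * t ^ 2 + (-1808044884466353 / 312500000000000) * t ^ 3 + (1119800527258959 / 156250000000000) * t ^ 4 + (-17371705361884029 / 3125000000000000) * t ^ 5 + (146285916438051 / 62500000000000) * t ^ 6 + (-13903754620228083 / 35000000000000000) * t ^ 7 : ℝ) : ℂ) * Complex.I := by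
    apply Complex.ext <;> simp [Pf, z1, pow_succ] <;> ring
  rw [e, Complex.norm_add_mul_I, Real.sqrt_lt' one_pos]
  obtain ⟨s, hs⟩ : ∃ s, s = 1 - t := ⟨_, rfl⟩
  have hs0 : 0 ≤ s := by linarith
  have e2 : 1 - (((15897132366219 / 6250000000000) * t ^ 1 + (-2138791824156351 / 625000000000000) * t ^ 2 + (23107674588976471 / 7500000000000000) * t ^ 3 + (-4642261874178409 / 5000000000000000) * t ^ 4 + (-32782891433296849 / 25000000000000000) * t ^ 5 + (1574439579850137 / 1000000000000000) * t ^ 6 + (-156413111829336973 / 280000000000000000) * t ^ 7) ^ 2 + ((-749079535581 / 781250000000) * t ^ 1 + (117473979797577 / 39062500000000) * t ^ 2 + (-1808044884466353 / 312500000000000) * t ^ 3 + (1119800527258959 / 156250000000000) * t ^ 4 + (-17371705361884029 / 3125000000000000) * t ^ 5 + (146285916438051 / 62500000000000) * t ^ 6 + (-13903754620228083 / 35000000000000000) * t ^ 7) ^ 2) = (1) * t ^ 0 * s ^ 14 + (14) * t ^ 1 * s ^ 13 + (653211398578166502557432027 / 7812500000000000000000000) * t ^ 2 * s ^ 12 + (116604702761658293583725190841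 / 390625000000000000000000000) * t ^ 3 * s ^ 11 + (11261492531736870844058974465649 / 15625000000000000000000000000) * t ^ 4 * s ^ 10 + (39068707868928310885064505449541 / 31250000000000000000000000000) * t ^ 5 * s ^ 9 + (3608155924404754918010557501680947 / 2250000000000000000000000000000) * t ^ 6 * s ^ 8 + (17325069314019500133328550475853973 / 11250000000000000000000000000000) * t ^ 7 * s ^ 7 + (49778047949720650290861963293903299 / 45000000000000000000000000000000) * t ^ 8 * s ^ 6 + (92404270333406648289744375653909677 / 157500000000000000000000000000000) * t ^ 9 * s ^ 5 + (28048899765865886001244219327060933 / 126000000000000000000000000000000) * t ^ 10 * s ^ 4 + (14325470317956930291523604515357771 / 252000000000000000000000000000000) * t ^ 11 * s ^ 3 + (2707251970144564312570492242178549 / 315000000000000000000000000000000) * t ^ 12 * s ^ 2 + (91187093562248178646746099210259 / 157500000000000000000000000000000) * t ^ 13 * s ^ 1 + (1099908181090136325087931785211507 / 141120000000000000000000000000000000) * t ^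 14 * s ^ 0 := by
    rw [hs]; ring
  have h3 : 0 < (1) * t ^ 0 * s ^ 14 + (14) * t ^ 1 * s ^ 13 + (653211398578166502557432027 / 7812500000000000000000000) * t ^ 2 * s ^ 12 + (116604702761658293583725190841 / 390625000000000000000000000) * t ^ 3 * s ^ 11 + (11261492531736870844058974465649 / 15625000000000000000000000000) * t ^ 4 * s ^ 10 + (39068707868928310885064505449541 / 31250000000000000000000000000) * t ^ 5 * s ^ 9 + (3608155924404754918010557501680947 / 2250000000000000000000000000000) * t ^ 6 * s ^ 8 + (17325069314019500133328550475853973 / 11250000000000000000000000000000) * t ^ 7 * s ^ 7 + (49778047949720650290861963293903299 / 45000000000000000000000000000000) * t ^ 8 * s ^ 6 + (92404270333406648289744375653909677 / 157500000000000000000000000000000) * t ^ 9 * s ^ 5 + (28048899765865886001244219327060933 / 126000000000000000000000000000000) * t ^ 10 * s ^ 4 + (14325470317956930291523604515357771 / 252000000000000000000000000000000) * t ^ 11 * s ^ 3 + (2707251970144564312570492242178549 / 315000000000000000000000000000000)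 * t ^ 12 * s ^ 2 + (91187093562248178646746099210259 / 157500000000000000000000000000000) * t ^ 13 * s ^ 1 + (1099908181090136325087931785211507 / 141120000000000000000000000000000000) * t ^ 14 * s ^ 0 := by
    rcases h0.eq_or_lt with h | h
    · have : 0 < s := by linarith
      positivity
    · positivity
  linarith

theorem im_T (t : ℝ) : (Tf (t * z1)).im = (143074191295971 / 156250000000000) * t ^ 2 + (-21374728900027191 / 15625000000000000) * t ^ 3 + (103664899175000709 / 62500000000000000) * t ^ 4 + (-897307959693450357 / 625000000000000000) * t ^ 5 + (503824950203362983 / 625000000000000000) * t ^ 6 + (-41711263860684249 / 175000000000000000) * t ^ 7 + (22283912964277341 / 1000000000000000000) * t ^ 8 := by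
  simp [Tf, z1, pow_succ]
  ring

theorem Pf_conj (u : ℂ) : Pf (starRingEnd ℂ u) = starRingEnd ℂ (Pf u) := by
  simp [Pf, map_ofNat]

theorem Tf_conj (u : ℂ) : Tf (starRingEnd ℂ u) = starRingEnd ℂ (Tf u) := by
  simp [Tf, map_ofNat]

theorem main : ∃ z w : ℂ, z ≠ starRingEnd ℂ z ∧
    z ∈ connectedComponentIn {u : ℂ | ‖(derivative T).eval u‖ < 1} 0 ∧
    starRingEnd ℂ z ∈ connectedComponentIn {u : ℂ | ‖(derivative T).eval u‖ < 1} 0 ∧
    starRingEnd ℂ z + T.eval z = w ∧
    starRingEnd ℂ (starRingEnd ℂ z) + T.eval (starRingEnd ℂ z) = w := by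
  have hc : ContinuousOn (fun t : ℝ => (143074191295971 / 156250000000000) * t ^ 2 + (-21374728900027191 / 15625000000000000) * t ^ 3 + (103664899175000709 / 62500000000000000) * t ^ 4 + (-897307959693450357 / 625000000000000000) * t ^ 5 + (503824950203362983 / 625000000000000000) * t ^ 6 + (-41711263860684249 / 175000000000000000) * t ^ 7 + (22283912964277341 / 1000000000000000000) * t ^ 8 - t * (9 / 25)) (Set.Icc (1 / 2) 1) := by fun_prop
  obtain ⟨t, ht, hg⟩ := intermediate_value_Icc (by norm_num) hc (show (0:ℝ) ∈ _ by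
    constructor <;> norm_num)
  have ht0 : 0 ≤ t := by linarith [ht.1]
  have him : (t * z1).im = t * (9 / 25) := by simp [z1]
  have key : ∀ c : ℂ, (∀ s : ℝ, 0 ≤ s → s ≤ 1 → ‖Pf (s * c)‖ < 1) →
      (t * c) ∈ connectedComponentIn {u : ℂ | ‖(derivative T).eval u‖ < 1} 0 := by
    intro c hc
    have hp : IsPreconnected ((fun s : ℝ => (s:ℂ) * c) '' Set.Icc 0 1) :=
      isPreconnected_Icc.image _ (by fun_prop)
    refine hp.subset_connectedComponentIn ⟨0, by simp, by simp⟩ ?_ ⟨t, ⟨ht0, ht.2⟩, rfl⟩
    rintro _ ⟨s, hs, rfl⟩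
    simp only [Set.mem_ofPred_eq, P_eval]
    exact hc s hs.1 hs.2
  have hreal : (starRingEnd ℂ (t * z1) + Tf (t * z1)).im = 0 := by
    rw [Complex.add_im, Complex.conj_im, im_T, him]
    simp only at hg
    linarith
  refine ⟨t * z1, starRingEnd ℂ (t * z1) + Tf (t * z1), fun h => ?_, key z1 seg, ?_,
    by rw [T_eval], ?_⟩
  · have := congrArg Complex.im h
    rw [Complex.conj_im, him] at this
    linarith [ht.1]
  · have e : ∀ s : ℝ, (s:ℂ) * starRingEnd ℂ z1 = starRingEnd ℂ (s * z1) := fun s => by simp
    rw [← e]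
    refine key _ (fun s h0 h1 => ?_)
    rw [e, Pf_conj, Complex.norm_conj]
    exact seg s h0 h1
  · rw [T_eval, Tf_conj, ← map_add]
    exact Complex.conj_eq_iff_im.2 hreal

end Pool.Agent.H88.Wilm
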