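import Mathlib

set_option autoImplicit false

namespace Pool.Agent.H88.Wright

open Filter Topology Finset

/-- Hausdorff moment bound. -/
def Bd (a : ℕ → ℝ) (T : ℝ) : Prop :=
  ∀ (N : ℕ) (p : ℕ → ℝ) (M : ℝ),
    (∀ t ∈ Set.Icc (0:ℝ) 1, |∑ k ∈ range N, p k * t ^ k| ≤ M) →
    |∑ k ∈ range N, p k * a k| ≤ T * M

theorem Bd.mono {a : ℕ → ℝ} {T S : ℝ} (h : Bd a T) (hT : T ≤ S) : Bd a S := by
  intro N p M hM
  have h0 : 0 ≤ M := (abs_nonneg _).trans (hM 0 ⟨le_rfl, zero_le_one⟩)
  exact (h N p M hM).trans (mul_le_mul_of_nonneg_right hT h0)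

theorem Bd.add {a b : ℕ → ℝ} {T S : ℝ} (ha : Bd a T) (hb : Bd b S) :
    Bd (fun k => a k + b k) (T + S) := by
  intro N p M hM
  have h1 := ha N p M hM
  have h2 := hb N p M hM
  simp only [mul_add, sum_add_distrib, add_mul]
  exact (abs_add_le _ _).trans (add_le_add h1 h2)

theorem Bd.smul {a : ℕ → ℝ} {T : ℝ} (ha : Bd a T) (c : ℝ) :
    Bd (fun k => c * a k) (|c| * T) := by
  intro N p M hM
  have h1 := ha N p M hM
  have : ∑ k ∈ range N, p k * (c * a k) = c * ∑ k ∈ range N, p k * a k := by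
    rw [mul_sum]; exact sum_congr rfl (fun k _ => by ring)
  rw [this, abs_mul, mul_assoc]
  exact mul_le_mul_of_nonneg_left h1 (abs_nonneg _)

theorem Bd.mul {a b : ℕ → ℝ} {T S : ℝ} (ha : Bd a T) (hb : Bd b S) :
    Bd (fun k => a k * b k) (T * S) := by
  intro N p M hM
  have h := hb N (fun k => p k * a k) (T * M) (fun t ht => by
    have h2 := ha N (fun k => p k * t ^ k) M (fun s hs => by
      have h3 := hM (t * s) ⟨mul_nonneg ht.1 hs.1, mul_le_one₀ ht.2 hs.1 hs.2⟩
      have : ∑ k ∈ range N, p k * t ^ k * s ^ k = ∑ k ∈ range N, p k * (t * s) ^ k :=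
        sum_congr rfl (fun k _ => by rw [mul_pow]; ring)
      rw [this]; exact h3)
    have : ∑ k ∈ range N, p k * a k * t ^ k = ∑ k ∈ range N, p k * t ^ k * a k :=
      sum_congr rfl (fun k _ => by ring)
    rw [this]; exact h2)
  have : ∑ k ∈ range N, p k * (a k * b k) = ∑ k ∈ range N, p k * a k * b k :=
    sum_congr rfl (fun k _ => by ring)
  rw [this]
  calc _ ≤ _ := h
    _ = _ := by ring

theorem bd_inv {α : ℝ} (hα : 0 < α) : Bd (fun k => 1 / ((k:ℝ) + α)) (1 / α) := by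
  intro N p M hM
  have hc : Continuous (fun s : ℝ => s ^ (1 / α)) := Real.continuous_rpow_const (by positivity)
  have h1 : ∀ k : ℕ, ∫ s in (0:ℝ)..1, (s ^ (1 / α)) ^ k = α / (k + α) := by
    intro k
    have : ∫ s in (0:ℝ)..1, (s ^ (1 / α)) ^ k = ∫ s in (0:ℝ)..1, s ^ ((1 / α) * k) := by
      refine intervalIntegral.integral_congr (fun s hs => ?_)
      have hs0 : 0 ≤ s := by
        rw [Set.uIcc_of_le zero_le_one] at hs; exact hs.1
      rw [Real.rpow_mul hs0, Real.rpow_natCast]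
    have hk : (0:ℝ) ≤ 1 / α * k := by positivity
    rw [this, integral_rpow (Or.inl (by linarith)), Real.one_rpow,
      Real.zero_rpow (by linarith)]
    field_simp
    ring
  have h2 : ∑ k ∈ range N, p k * (1 / ((k:ℝ) + α)) =
      (1 / α) * ∫ s in (0:ℝ)..1, ∑ k ∈ range N, p k * (s ^ (1 / α)) ^ k := by
    rw [intervalIntegral.integral_finsetSum (f := fun k s => p k * (s ^ (1 / α)) ^ k) (fun k _ =>
      (continuous_const.mul (hc.pow k)).intervalIntegrable _ _), mul_sum]
    refine sum_congr rfl (fun k _ => ?_)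
    rw [intervalIntegral.integral_const_mul, h1]
    field_simp
  rw [h2, abs_mul, abs_of_pos (by positivity : 0 < 1 / α)]
  refine mul_le_mul_of_nonneg_left ?_ (by positivity)
  have h3 := intervalIntegral.norm_integral_le_of_norm_le_const (a := 0) (b := 1) (C := M)
    (f := fun s : ℝ => ∑ k ∈ range N, p k * (s ^ (1 / α)) ^ k) (fun s hs => by
      rw [Set.uIoc_of_le zero_le_one] at hs
      exact hM _ ⟨Real.rpow_nonneg hs.1.le _, Real.rpow_le_one hs.1.le hs.2 (by positivity)⟩)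
  simpa using h3

theorem Bd.lim {a : ℕ → ℕ → ℝ} {T : ℕ → ℝ} {b : ℕ → ℝ} {S : ℝ} (h : ∀ n, Bd (a n) (T n))
    (ha : ∀ k, Tendsto (fun n => a n k) atTop (𝓝 (b k))) (hT : Tendsto T atTop (𝓝 S)) :
    Bd b S := by
  intro N p M hM
  refine le_of_tendsto_of_tendsto' ?_ (hT.mul_const M) (fun n => h n N p M hM)
  exact (tendsto_finsetSum _ (fun k _ => (ha k).const_mul (p k))).abs

/-- `a` is within `U - 1` of the constant sequence one. -/
def Q (a : ℕ → ℝ) (U : ℝ) : Prop := Bd (fun k => a k - 1) (U - 1)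

theorem q_one : Q (fun _ => 1) 1 := by
  intro N p M _
  simp

theorem Q.mul {a b : ℕ → ℝ} {U V : ℝ} (ha : Q a U) (hb : Q b V) :
    Q (fun k => a k * b k) (U * V) := by
  have h := ((Bd.mul ha hb).add ha).add hb
  unfold Q
  convert h using 1
  · funext k; ring
  · ring

theorem q_prod {ι : Type} (s : Finset ι) (a : ι → ℕ → ℝ) (U : ι → ℝ)
    (h : ∀ i ∈ s, Q (a i) (U i)) : Q (fun k => ∏ i ∈ s, a i k) (∏ i ∈ s, U i) := by
  classical
  induction s using Finset.induction_on with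
  | empty => simpa using q_one
  | insert i s hi ih =>
    simp only [prod_insert hi]
    exact (h i (mem_insert_self _ _)).mul (ih (fun j hj => h j (mem_insert_of_mem hj)))

/-- The elementary factor. -/
noncomputable def fac (a b x : ℝ) : ℝ := ((x + b) * (x + (1 - b))) / ((x + a) * (x + (1 - a)))

theorem q_fac {a b : ℝ} (hb : 0 < b) (hba : b ≤ a) (ha : a ≤ 1 / 2) (n : ℕ) :
    Q (fun k => fac a b ((k + n : ℕ) : ℝ)) (1 / fac a b n) := by
  have hn : (0:ℝ) ≤ n := Nat.cast_nonneg n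
  have h1 : 0 < (n:ℝ) + a := by linarith
  have h2 : 0 < (n:ℝ) + (1 - a) := by linarith
  have h3 : 0 < (n:ℝ) + b := by linarith
  have h4 : 0 < (n:ℝ) + (1 - b) := by linarith
  obtain ⟨δ, hδ⟩ : ∃ δ, δ = a * (1 - a) - b * (1 - b) := ⟨_, rfl⟩
  have hδ0 : 0 ≤ δ := by rw [hδ]; nlinarith
  have h := ((bd_inv h1).mul (bd_inv h2)).smul (-δ)
  unfold Q
  have e1 : (fun k : ℕ => fac a b ((k + n : ℕ) : ℝ) - 1) =
      fun k : ℕ => -δ * (1 / ((k:ℝ) + (n + a)) * (1 / ((k:ℝ) + (n + (1 - a))))) := by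
    funext k
    have hk : (0:ℝ) ≤ k := Nat.cast_nonneg k
    have g1 : 0 < (k:ℝ) + (n + a) := by linarith
    have g2 : 0 < (k:ℝ) + (n + (1 - a)) := by linarith
    have g3 : (k:ℝ) + n + a ≠ 0 := by linarith
    have g4 : (k:ℝ) + n + (1 - a) ≠ 0 := by linarith
    unfold fac
    push_cast
    rw [hδ]
    field_simp
    ring
  rw [e1]
  refine h.mono ?_
  rw [abs_neg, abs_of_nonneg hδ0]
  have e2 : 1 / fac a b n - 1 = δ * (1 / (((n:ℝ) + b) * (n + (1 - b)))) := by
    unfold fac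
    rw [hδ]
    field_simp
    ring
  rw [e2]
  refine mul_le_mul_of_nonneg_left ?_ hδ0
  rw [one_div_mul_one_div]
  refine one_div_le_one_div_of_le (by positivity) ?_
  nlinarith

theorem q_lim {R r : ℕ → ℝ} {A : ℝ} (hR : ∀ n, Q (fun k => R (k + n)) (1 / R n))
    (h0 : r 0 = 1) (hr : ∀ k, r k = r (k + 1) * R k) (hp : ∀ k, 0 < r k) (hA : A ≠ 0)
    (hl : Tendsto r atTop (𝓝 A)) : Q (fun k => r k / A) A := by
  have hRp : ∀ k, R k ≠ 0 := fun k h => by
    have := hr k; rw [h, mul_zero] at this; exact (hp k).ne' this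
  have h1 : ∀ N, Q (fun k => r k / r (k + N)) (r N) := by
    intro N
    induction N with
    | zero =>
      have : (fun k => r k / r (k + 0)) = fun _ => 1 := by
        funext k; simp [(hp k).ne']
      rw [this, h0]; exact q_one
    | succ N ih =>
      have h2 := ih.mul (hR N)
      convert h2 using 1
      · funext k
        rw [hr (k + N), ← add_assoc]
        have := (hp (k + N + 1)).ne'
        have := hRp (k + N)
        field_simp
      · rw [hr N]
        have := hRp N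
        field_simp
  refine Bd.lim h1 (fun k => ?_) (hl.sub_const 1)
  refine Tendsto.sub_const (tendsto_const_nhds.div ?_ hA) 1
  have := (tendsto_add_atTop_iff_nat k).2 hl
  simpa [add_comm] using this

end Pool.Agent.H88.Wright
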