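import Pool.Agent.H88.Wright1

set_option autoImplicit false

namespace Pool.Agent.H88.Wright

open Filter Topology Finset

theorem Bd.hasSum {a p : ℕ → ℝ} {T M s : ℝ} (h : Bd a T) (hp : Summable p) (g : ℝ → ℝ)
    (hg : ∀ t ∈ Set.Icc (0:ℝ) 1, HasSum (fun k => p k * t ^ k) (g t))
    (hM : ∀ t ∈ Set.Icc (0:ℝ) 1, |g t| ≤ M) (hs : HasSum (fun k => p k * a k) s) :
    |s| ≤ T * M := by
  have hp' : Summable (fun k => |p k|) := hp.abs
  have h1 : ∀ N, |∑ k ∈ range N, p k * a k| ≤ T * (M + ∑' k, |p (k + N)|) := by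
    intro N
    refine h N p _ (fun t ht => ?_)
    have h2 := (hg t ht).summable.sum_add_tsum_nat_add N
    rw [(hg t ht).tsum_eq] at h2
    have h3 : ‖∑' k, p (k + N) * t ^ (k + N)‖ ≤ ∑' k, |p (k + N)| := by
      refine tsum_of_norm_bounded ((summable_nat_add_iff N).2 hp').hasSum (fun k => ?_)
      rw [Real.norm_eq_abs, abs_mul, abs_pow, abs_of_nonneg ht.1]
      exact mul_le_of_le_one_right (abs_nonneg _) (pow_le_one₀ ht.1 ht.2)
    rw [Real.norm_eq_abs] at h3
    have h4 := hM t ht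
    rw [← h2] at h4
    have h5 := abs_le.1 h3
    have h6 := abs_le.1 h4
    rw [abs_le]; constructor <;> linarith
  have h7 : Tendsto (fun N => T * (M + ∑' k, |p (k + N)|)) atTop (𝓝 (T * (M + 0))) :=
    ((tendsto_sum_nat_add (fun k => |p k|)).const_add M).const_mul T
  rw [add_zero] at h7
  exact le_of_tendsto_of_tendsto' hs.tendsto_sum_nat.abs h7 h1

theorem ellipse {w : ℂ} (hw : w.im ≠ 0) : ∃ c d : ℝ,
    c * (Complex.cos w).re + d * (Complex.cos w).im = 1 ∧
    ∀ s ∈ Set.Icc (0:ℝ) 1, |c * (Complex.cos (w * s)).re + d * (Complex.cos (w * s)).im| ≤ 1 := by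
  have hre : ∀ z : ℂ, (Complex.cos z).re = Real.cos z.re * Real.cosh z.im := by
    intro z
    rw [Complex.cos_eq z]
    simp [← Complex.ofReal_cos, ← Complex.ofReal_cosh, ← Complex.ofReal_sin, ← Complex.ofReal_sinh]
  have him : ∀ z : ℂ, (Complex.cos z).im = -(Real.sin z.re * Real.sinh z.im) := by
    intro z
    rw [Complex.cos_eq z]
    simp [← Complex.ofReal_cos, ← Complex.ofReal_cosh, ← Complex.ofReal_sin, ← Complex.ofReal_sinh]
  obtain ⟨x, hx⟩ : ∃ x, x = w.re := ⟨_, rfl⟩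
  obtain ⟨y, hy⟩ : ∃ y, y = w.im := ⟨_, rfl⟩
  have hc : 0 < Real.cosh y := Real.cosh_pos y
  have hs : Real.sinh y ≠ 0 := by rw [hy]; simpa using hw
  refine ⟨Real.cos x / Real.cosh y, -(Real.sin x / Real.sinh y), ?_, fun s hs01 => ?_⟩
  · rw [hre, him, ← hx, ← hy]
    field_simp
    nlinarith [Real.sin_sq_add_cos_sq x]
  · rw [hre, him]
    have e1 : (w * s).re = x * s := by simp [hx]
    have e2 : (w * s).im = y * s := by simp [hy]
    rw [e1, e2]
    have hab : |y * s| ≤ |y| := by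
      rw [abs_mul, abs_of_nonneg hs01.1]
      exact mul_le_of_le_one_right (abs_nonneg _) hs01.2
    obtain ⟨α, hα⟩ : ∃ α, α = Real.cosh (y * s) / Real.cosh y := ⟨_, rfl⟩
    obtain ⟨β, hβ⟩ : ∃ β, β = Real.sinh (y * s) / Real.sinh y := ⟨_, rfl⟩
    have hα1 : |α| ≤ 1 := by
      rw [hα, abs_div, abs_of_pos hc, abs_of_pos (Real.cosh_pos _), div_le_one hc]
      exact Real.cosh_le_cosh.2 hab
    have hβ1 : |β| ≤ 1 := by
      rw [hβ, abs_div, div_le_one (abs_pos.2 hs), Real.abs_sinh, Real.abs_sinh]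
      exact Real.sinh_le_sinh.2 hab
    have e3 : Real.cos x / Real.cosh y * (Real.cos (x * s) * Real.cosh (y * s)) +
        -(Real.sin x / Real.sinh y) * -(Real.sin (x * s) * Real.sinh (y * s)) =
        Real.cos x * (Real.cos (x * s) * α) + Real.sin x * (Real.sin (x * s) * β) := by
      rw [hα, hβ]; ring
    rw [e3]
    have a2 : α ^ 2 ≤ 1 := by rw [← sq_abs]; exact pow_le_one₀ (abs_nonneg _) hα1
    have b2 : β ^ 2 ≤ 1 := by rw [← sq_abs]; exact pow_le_one₀ (abs_nonneg _) hβ1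
    have t1 := Real.sin_sq_add_cos_sq x
    have t2 := Real.sin_sq_add_cos_sq (x * s)
    have u1 : (Real.cos (x * s) * α) ^ 2 ≤ Real.cos (x * s) ^ 2 := by
      rw [mul_pow]; exact mul_le_of_le_one_right (sq_nonneg _) a2
    have u2 : (Real.sin (x * s) * β) ^ 2 ≤ Real.sin (x * s) ^ 2 := by
      rw [mul_pow]; exact mul_le_of_le_one_right (sq_nonneg _) b2
    rw [abs_le]
    constructor
    · nlinarith [sq_nonneg (Real.cos x + Real.cos (x * s) * α),
        sq_nonneg (Real.sin x + Real.sin (x * s) * β)]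
    · nlinarith [sq_nonneg (Real.cos x - Real.cos (x * s) * α),
        sq_nonneg (Real.sin x - Real.sin (x * s) * β)]

theorem no_zero {u : ℕ → ℝ} {A : ℝ} (hu : Q u A) (hA : A < 2) {w : ℂ} (hw : w.im ≠ 0) :
    ¬ HasSum (fun k : ℕ => (u k : ℂ) * ((-1) ^ k * w ^ (2 * k) / ((2 * k).factorial : ℂ))) 0 := by
  intro H
  obtain ⟨c, d, h1, h2⟩ := ellipse hw
  obtain ⟨e, he⟩ : ∃ e : ℕ → ℂ, ∀ k, (-1) ^ k * w ^ (2 * k) / ((2 * k).factorial : ℂ) = e k :=
    ⟨_, fun _ => rfl⟩
  have lin : ∀ (f : ℕ → ℂ) (z : ℂ), HasSum f z →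
      HasSum (fun k => c * (f k).re + d * (f k).im) (c * z.re + d * z.im) := fun f z hf =>
    ((Complex.hasSum_re hf).mul_left c).add ((Complex.hasSum_im hf).mul_left d)
  obtain ⟨p, hp⟩ : ∃ p : ℕ → ℝ, ∀ k, c * (e k).re + d * (e k).im = p k := ⟨_, fun _ => rfl⟩
  have hp1 : HasSum p 1 := by
    have := lin _ _ (Complex.hasSum_cos w)
    simp only [he, hp, h1] at this
    exact this
  have hp2 : HasSum (fun k => p k * u k) 0 := by
    simp only [he] at H
    have := lin _ _ H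
    simp only [Complex.zero_re, Complex.zero_im, mul_zero, add_zero] at this
    refine (congrArg (fun f => HasSum f (0:ℝ)) ?_).mp this
    funext k
    rw [← hp k]
    simp
    ring
  have hp3 : HasSum (fun k => p k * (u k - 1)) (0 - 1) := by
    refine (congrArg (fun f => HasSum f ((0:ℝ) - 1)) ?_).mp (hp2.sub hp1)
    funext k; ring
  have h := Bd.hasSum hu hp1.summable
    (fun t => c * (Complex.cos (w * √t)).re + d * (Complex.cos (w * √t)).im) (M := 1)
    (fun t ht => by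
      have := lin _ _ (Complex.hasSum_cos (w * √t))
      refine (congrArg (fun f => HasSum f _) ?_).mp this
      funext k
      have e1 : (-1) ^ k * (w * √t) ^ (2 * k) / ((2 * k).factorial : ℂ) =
          ((t ^ k : ℝ) : ℂ) * e k := by
        rw [← he k, mul_pow, pow_mul ((√t : ℝ) : ℂ), ← Complex.ofReal_pow, Real.sq_sqrt ht.1]
        push_cast
        ring
      rw [e1, ← hp k, Complex.re_ofReal_mul, Complex.im_ofReal_mul]
      ring)
    (fun t ht => h2 _ ⟨Real.sqrt_nonneg _, Real.sqrt_le_one.2 ht.2⟩) hp3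
  norm_num at h
  linarith

end Pool.Agent.H88.Wright
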