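import Pool.Agent.H88.Wright2

set_option autoImplicit false

namespace Pool.Agent.H88.Wright

open Filter Topology Finset

noncomputable def G (M : ℕ) (x : ℝ) : ℝ := ∏ i ∈ range M, (x + ((i:ℝ) + 1) / M)

noncomputable def gg (c x : ℝ) : ℝ := (x + c) * (x + (1 - c))

theorem fact_add (n M : ℕ) : ((n + M).factorial : ℝ) =
    n.factorial * ∏ i ∈ range M, ((n:ℝ) + i + 1) := by
  induction M with
  | zero => simp
  | succ M ih =>
    rw [← add_assoc, Nat.factorial_succ, prod_range_succ]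
    push_cast
    rw [ih]; ring

theorem fact_step (M k : ℕ) (hM : 0 < M) : ((M * (k + 1)).factorial : ℝ) =
    (M * k).factorial * ((M:ℝ) ^ M * G M k) := by
  have hM' : (M:ℝ) ≠ 0 := by positivity
  rw [mul_add, mul_one, fact_add, G]
  congr 1
  have : (M:ℝ) ^ M = ∏ _i ∈ range M, (M:ℝ) := by simp
  rw [this, ← prod_mul_distrib]
  refine prod_congr rfl (fun i _ => ?_)
  push_cast
  field_simp
  ring

theorem G_odd (l : ℕ) (x : ℝ) :
    G (2 * l + 1) x = (x + 1) * ∏ j ∈ range l, gg (((j:ℝ) + 1) / (2 * l + 1 : ℕ)) x := by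
  have hM : ((2 * l + 1 : ℕ) : ℝ) ≠ 0 := by positivity
  obtain ⟨M, hM2⟩ : ∃ M : ℝ, M = ((2 * l + 1 : ℕ) : ℝ) := ⟨_, rfl⟩
  unfold G gg
  rw [← hM2] at hM ⊢
  rw [prod_range_succ, two_mul, prod_range_add, prod_mul_distrib,
    ← prod_range_reflect (fun i => x + (((l + i : ℕ) : ℝ) + 1) / M) l]
  have e1 : (((l + l : ℕ) : ℝ) + 1) / M = 1 := by
    rw [div_eq_one_iff_eq hM, hM2]; push_cast; ring
  have e2 : ∏ j ∈ range l, (x + (((l + (l - 1 - j) : ℕ) : ℝ) + 1) / M) =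
      ∏ j ∈ range l, (x + (1 - ((j:ℝ) + 1) / M)) := by
    refine prod_congr rfl (fun j hj => ?_)
    have hj' : j < l := mem_range.1 hj
    obtain ⟨i, rfl⟩ : ∃ i, l = j + 1 + i := ⟨l - (j + 1), by omega⟩
    have : j + 1 + i - 1 - j = i := by omega
    rw [this]
    congr 1
    rw [eq_sub_iff_add_eq, ← add_div, div_eq_one_iff_eq hM, hM2]; push_cast; ring
  rw [e1, e2]; ring

theorem G_even (l : ℕ) (x : ℝ) :
    G (2 * l + 2) x =
      (x + 1) * (x + 1 / 2) * ∏ j ∈ range l, gg (((j:ℝ) + 1) / (2 * l + 2 : ℕ)) x := by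
  have hM : ((2 * l + 2 : ℕ) : ℝ) ≠ 0 := by positivity
  obtain ⟨M, hM2⟩ : ∃ M : ℝ, M = ((2 * l + 2 : ℕ) : ℝ) := ⟨_, rfl⟩
  unfold G gg
  rw [← hM2] at hM ⊢
  have e0 : 2 * l + 2 = (l + 1 + l) + 1 := by ring
  rw [e0, prod_range_succ, prod_range_add, prod_range_succ, prod_mul_distrib,
    ← prod_range_reflect (fun i => x + (((l + 1 + i : ℕ) : ℝ) + 1) / M) l]
  have e1 : (((l + 1 + l : ℕ) : ℝ) + 1) / M = 1 := by
    rw [div_eq_one_iff_eq hM, hM2]; push_cast; ring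
  have e3 : ((l:ℝ) + 1) / M = 1 / 2 := by
    rw [div_eq_iff hM, hM2]; push_cast; ring
  have e2 : ∏ j ∈ range l, (x + (((l + 1 + (l - 1 - j) : ℕ) : ℝ) + 1) / M) =
      ∏ j ∈ range l, (x + (1 - ((j:ℝ) + 1) / M)) := by
    refine prod_congr rfl (fun j hj => ?_)
    have hj' : j < l := mem_range.1 hj
    obtain ⟨i, rfl⟩ : ∃ i, l = j + 1 + i := ⟨l - (j + 1), by omega⟩
    have : j + 1 + i - 1 - j = i := by omega
    rw [this]
    congr 1
    rw [eq_sub_iff_add_eq, ← add_div, div_eq_one_iff_eq hM, hM2]; push_cast; ring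
  rw [e1, e2, e3]; ring

theorem G_pos (M : ℕ) (k : ℕ) : 0 < G M k := by
  unfold G
  refine prod_pos (fun i hi => ?_)
  have : 0 < M := lt_of_le_of_lt (Nat.zero_le _) (mem_range.1 hi)
  positivity

noncomputable def RR (m : ℕ) (k : ℕ) : ℝ := G (m + 1) k / ((k + 1 / 2) * G m k)

theorem RR_eq (m : ℕ) (hm : 1 ≤ m) (k : ℕ) : RR m k =
    ∏ j ∈ range (m / 2), fac (((j:ℝ) + 1) / m) (((j:ℝ) + 1) / (m + 1 : ℕ)) k := by
  have hk : (0:ℝ) ≤ k := Nat.cast_nonneg k
  have hf : ∀ a b x : ℝ, fac a b x = gg b x / gg a x := fun _ _ _ => rfl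
  simp only [hf, prod_div_distrib]
  rcases Nat.even_or_odd' m with ⟨l, rfl | rfl⟩
  · obtain ⟨l, rfl⟩ : ∃ i, l = i + 1 := ⟨l - 1, by omega⟩
    have e0 : 2 * (l + 1) / 2 = l + 1 := by omega
    have e1 : 2 * (l + 1) = 2 * l + 2 := by ring
    unfold RR
    rw [e0, G_odd, e1, G_even, prod_range_succ (fun j => gg (((j:ℝ) + 1) / (2 * l + 2 : ℕ)) k)]
    have e3 : ((l:ℝ) + 1) / (2 * l + 2 : ℕ) = 1 / 2 := by
      rw [div_eq_iff (by positivity)]; push_cast; ring
    rw [e3]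
    have e4 : gg (1 / 2) k = (k + 1 / 2) * (k + 1 / 2) := by unfold gg; ring
    rw [e4]
    have h1 : (k:ℝ) + 1 ≠ 0 := by positivity
    rw [show ∀ a b P : ℝ, a * (b * a * P) = b * (P * (a * a)) from fun _ _ _ => by ring,
      mul_div_mul_left _ _ h1]
  · have e0 : (2 * l + 1) / 2 = l := by omega
    have e1 : 2 * l + 1 + 1 = 2 * l + 2 := by ring
    unfold RR
    rw [e0, e1, G_odd, G_even]
    have h1 : ((k:ℝ) + 1) * (k + 1 / 2) ≠ 0 := by positivity
    rw [show ∀ a b P : ℝ, a * (b * P) = b * a * P from fun _ _ _ => by ring,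
      mul_div_mul_left _ _ h1]

theorem q_RR (m : ℕ) (hm : 1 ≤ m) (n : ℕ) : Q (fun k => RR m (k + n)) (1 / RR m n) := by
  simp only [RR_eq m hm]
  have hm' : (0:ℝ) < m := by exact_mod_cast hm
  have h := q_prod (range (m / 2))
    (fun j k => fac (((j:ℝ) + 1) / m) (((j:ℝ) + 1) / (m + 1 : ℕ)) ((k + n : ℕ) : ℝ))
    (fun j => 1 / fac (((j:ℝ) + 1) / m) (((j:ℝ) + 1) / (m + 1 : ℕ)) n) (fun j hj => by
      refine q_fac (by positivity) ?_ ?_ n
      · exact div_le_div_of_nonneg_left (by positivity) hm' (by push_cast; linarith)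
      · have : 2 * (j + 1) ≤ m := by have := mem_range.1 hj; omega
        have h2 : (2:ℝ) * (j + 1) ≤ m := by exact_mod_cast this
        rw [div_le_iff₀ hm']; linarith)
  rw [prod_div_distrib, prod_const_one] at h
  exact h

noncomputable def CC (m : ℕ) : ℝ := 4 * (m:ℝ) ^ m / ((m + 1 : ℕ) : ℝ) ^ (m + 1)

noncomputable def rr (m k : ℕ) : ℝ :=
  ((2 * k).factorial * (m * k).factorial) / (((m + 1) * k).factorial * k.factorial) / CC m ^ k

theorem CC_pos (m : ℕ) (hm : 1 ≤ m) : 0 < CC m := by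
  have hm' : (0:ℝ) < m := by exact_mod_cast hm
  unfold CC; positivity

theorem rr_pos (m : ℕ) (hm : 1 ≤ m) (k : ℕ) : 0 < rr m k := by
  have := CC_pos m hm
  unfold rr; positivity

theorem rr_step (m : ℕ) (hm : 1 ≤ m) (k : ℕ) : rr m k = rr m (k + 1) * RR m k := by
  have hC := CC_pos m hm
  have hm' : (0:ℝ) < m := by exact_mod_cast hm
  have g1 := G_pos m k
  have g2 := G_pos (m + 1) k
  have e1 : ((2 * (k + 1)).factorial : ℝ) = (2 * k).factorial * ((2 * k + 1) * (2 * k + 2)) := by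
    rw [show 2 * (k + 1) = 2 * k + 1 + 1 by ring, Nat.factorial_succ, Nat.factorial_succ]
    push_cast; ring
  have e2 : ((k + 1).factorial : ℝ) = k.factorial * (k + 1) := by
    rw [Nat.factorial_succ]; push_cast; ring
  have e3 : CC m * ((m + 1 : ℕ) : ℝ) ^ (m + 1) = 4 * (m:ℝ) ^ m := by
    unfold CC; field_simp
  unfold rr RR
  rw [e1, e2, fact_step m k hm, fact_step (m + 1) k (by omega), pow_succ (CC m)]
  obtain ⟨a, ha⟩ : ∃ a, a = ((m + 1 : ℕ) : ℝ) ^ (m + 1) := ⟨_, rfl⟩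
  have ha0 : 0 < a := by rw [ha]; positivity
  rw [← ha] at e3 ⊢
  have e4 : (m:ℝ) ^ m = CC m * a / 4 := by linarith
  rw [e4]
  field_simp
  ring

theorem rr_lim (m : ℕ) (hm : 1 ≤ m) :
    Tendsto (rr m) atTop (𝓝 (√(2 * m / (m + 1)))) := by
  have hm' : (0:ℝ) < m := by exact_mod_cast hm
  have hS := Stirling.tendsto_stirlingSeq_sqrt_pi
  have hT : ∀ c : ℕ, 0 < c → Tendsto (fun k => Stirling.stirlingSeq (c * k)) atTop (𝓝 √Real.pi) :=
    fun c hc => hS.comp (tendsto_id.const_mul_atTop' hc)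
  have hpi : √Real.pi ≠ 0 := by have := Real.pi_pos; positivity
  have h1 := (((hT 2 (by norm_num)).mul (hT m hm)).div ((hT (m + 1) (by omega)).mul hS)
    (mul_ne_zero hpi hpi)).mul_const (√(2 * m / (m + 1)))
  rw [div_self (mul_ne_zero hpi hpi), one_mul] at h1
  refine h1.congr' ?_
  filter_upwards [eventually_gt_atTop 0] with k hk
  have hk' : (0:ℝ) < k := by exact_mod_cast hk
  simp only [Pi.div_apply, Stirling.stirlingSeq, rr, CC]
  push_cast
  have s1 : √(2 * (2 * (k:ℝ))) = √2 * √2 * √k := by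
    rw [Real.sqrt_mul (by norm_num), Real.sqrt_mul (by norm_num)]; ring
  have s2 : √(2 * ((m:ℝ) * k)) = √2 * √m * √k := by
    rw [Real.sqrt_mul (by norm_num), Real.sqrt_mul hm'.le]; ring
  have s3 : √(2 * (((m:ℝ) + 1) * k)) = √2 * √(m + 1) * √k := by
    rw [Real.sqrt_mul (by norm_num), Real.sqrt_mul (by positivity)]; ring
  have s4 : √(2 * (k:ℝ)) = √2 * √k := Real.sqrt_mul (by norm_num) _
  have s5 : √(2 * (m:ℝ) / (m + 1)) = √2 * √m / √(m + 1) := by
    rw [Real.sqrt_div (by positivity), Real.sqrt_mul (by norm_num)]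
  obtain ⟨q, hq⟩ : ∃ q : ℝ, q = (k:ℝ) / Real.exp 1 := ⟨_, rfl⟩
  have hq0 : 0 < q := by rw [hq]; positivity
  have p1 : (2 * (k:ℝ) / Real.exp 1) ^ (2 * k) = 4 ^ k * (q ^ k * q ^ k) := by
    rw [mul_div_assoc, ← hq, mul_pow, pow_mul, two_mul k, pow_add]; norm_num
  have p2 : ((m:ℝ) * k / Real.exp 1) ^ (m * k) = ((m:ℝ) ^ m) ^ k * q ^ (m * k) := by
    rw [mul_div_assoc, ← hq, mul_pow, pow_mul]
  have p3 : (((m:ℝ) + 1) * k / Real.exp 1) ^ ((m + 1) * k) =
      (((m:ℝ) + 1) ^ (m + 1)) ^ k * (q ^ (m * k) * q ^ k) := by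
    rw [mul_div_assoc, ← hq, mul_pow, pow_mul, add_mul m 1 k, pow_add q, one_mul]
  rw [s1, s2, s3, s4, s5, p1, p2, p3, ← hq, div_pow, mul_pow]
  have : 0 < √(2:ℝ) := by positivity
  have : 0 < √(m:ℝ) := by positivity
  have : 0 < √((m:ℝ) + 1) := by positivity
  have : 0 < √(k:ℝ) := by positivity
  field_simp

theorem main (m : ℕ) (hm : 1 ≤ m) (z : ℂ)
    (h : (∑' k : ℕ, ((Nat.factorial (m * k) : ℂ) /
          ((Nat.factorial ((m + 1) * k) : ℂ) * (Nat.factorial k : ℂ))) * z ^ k) = 0) :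
    z.im = 0 := by
  have hm' : (0:ℝ) < m := by exact_mod_cast hm
  have hC := CC_pos m hm
  obtain ⟨A, hA⟩ : ∃ A, A = √(2 * (m:ℝ) / (m + 1)) := ⟨_, rfl⟩
  have hA0 : 0 < A := by rw [hA]; positivity
  have hA2 : A < 2 := by
    rw [hA, Real.sqrt_lt' (by norm_num), div_lt_iff₀ (by positivity)]; linarith
  have hq : Q (fun k => rr m k / A) A :=
    q_lim (q_RR m hm) (by simp [rr]) (rr_step m hm) (rr_pos m hm) hA0.ne' (hA ▸ rr_lim m hm)
  obtain ⟨w, hw⟩ := IsAlgClosed.exists_pow_nat_eq (-((CC m : ℂ) * z)) (n := 2) (by norm_num)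
  by_contra hz
  have hwi : w.im ≠ 0 := by
    intro h0
    have := congrArg Complex.im hw
    simp [pow_two, h0] at this
    rcases this with h1 | h1
    · exact hC.ne' h1
    · exact hz h1
  refine no_zero hq hA2 hwi ?_
  have hterm : ∀ k : ℕ, ((rr m k / A : ℝ) : ℂ) * ((-1) ^ k * w ^ (2 * k) / ((2 * k).factorial : ℂ)) =
      (1 / (A:ℂ)) * (((Nat.factorial (m * k) : ℂ) /
          ((Nat.factorial ((m + 1) * k) : ℂ) * (Nat.factorial k : ℂ))) * z ^ k) := by
    intro k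
    have c1 : (CC m : ℂ) ≠ 0 := by exact_mod_cast hC.ne'
    have c2 : (A : ℂ) ≠ 0 := by exact_mod_cast hA0.ne'
    have c3 : ∀ n : ℕ, (n.factorial : ℂ) ≠ 0 := fun n => by exact_mod_cast n.factorial_ne_zero
    have := c3 (2 * k)
    have := c3 ((m + 1) * k)
    have := c3 k
    rw [pow_mul, hw, ← mul_pow, neg_mul_neg, one_mul, mul_pow]
    unfold rr
    push_cast
    field_simp
  simp only [hterm]
  have hs : Summable (fun k : ℕ => ((Nat.factorial (m * k) : ℂ) /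
          ((Nat.factorial ((m + 1) * k) : ℂ) * (Nat.factorial k : ℂ))) * z ^ k) := by
    refine Summable.of_norm_bounded (Real.summable_pow_div_factorial ‖z‖) (fun k => ?_)
    rw [norm_mul, norm_div, norm_mul, norm_pow, Complex.norm_natCast, Complex.norm_natCast,
      Complex.norm_natCast]
    have h1 : ((m * k).factorial : ℝ) ≤ ((m + 1) * k).factorial := by
      exact_mod_cast Nat.factorial_le (by nlinarith)
    have h2 : (0:ℝ) < ((m + 1) * k).factorial := by positivity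
    have h3 : (0:ℝ) < k.factorial := by positivity
    rw [← div_div, div_mul_eq_mul_div]
    refine div_le_div_of_nonneg_right ?_ h3.le
    exact mul_le_of_le_one_left (by positivity) ((div_le_one h2).2 h1)
  have := hs.hasSum.mul_left (1 / (A:ℂ))
  rw [h, mul_zero] at this
  exact this

end Pool.Agent.H88.Wright
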