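import Pool.Agent.H88.XiDefs

set_option autoImplicit false

namespace Pool.Agent.H88.Xi

open Finset

/-! Gaussian rationals as pairs. -/

def gm (x y : ℚ × ℚ) : ℚ × ℚ := (x.1 * y.1 - x.2 * y.2, x.1 * y.2 + x.2 * y.1)
def ga (x y : ℚ × ℚ) : ℚ × ℚ := (x.1 + y.1, x.2 + y.2)
def gs (c : ℚ) (x : ℚ × ℚ) : ℚ × ℚ := (c * x.1, c * x.2)
def gi (x : ℚ × ℚ) : ℚ × ℚ := (x.1 / (x.1 * x.1 + x.2 * x.2), -x.2 / (x.1 * x.1 + x.2 * x.2))
def gn (x : ℚ × ℚ) : ℚ := x.1 * x.1 + x.2 * x.2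
def gsum (f : ℕ → ℚ × ℚ) : ℕ → ℚ × ℚ
  | 0 => (0, 0)
  | n + 1 => ga (gsum f n) (f n)
def gp (x : ℚ × ℚ) : ℕ → ℚ × ℚ
  | 0 => (1, 0)
  | n + 1 => gm (gp x n) x
def qsum (f : ℕ → ℚ) : ℕ → ℚ
  | 0 => 0
  | n + 1 => qsum f n + f n

noncomputable def toC (x : ℚ × ℚ) : ℂ := ⟨x.1, x.2⟩

theorem toC_gm (x y : ℚ × ℚ) : toC (gm x y) = toC x * toC y := by
  apply Complex.ext <;> simp [toC, gm]
theorem toC_ga (x y : ℚ × ℚ) : toC (ga x y) = toC x + toC y := by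
  apply Complex.ext <;> simp [toC, ga]
theorem toC_gs (c : ℚ) (x : ℚ × ℚ) : toC (gs c x) = (c : ℂ) * toC x := by
  apply Complex.ext <;> simp [toC, gs]
theorem toC_gi (x : ℚ × ℚ) : toC (gi x) = (toC x)⁻¹ := by
  apply Complex.ext <;> simp [toC, gi, Complex.inv_re, Complex.inv_im, Complex.normSq_apply]
theorem toC_real (c : ℚ) : toC (c, 0) = (c : ℂ) := by
  apply Complex.ext <;> simp [toC]
theorem toC_eq (x y : ℚ) : toC (x, y) = (x : ℂ) + (y : ℂ) * Complex.I := by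
  apply Complex.ext <;> simp [toC]
theorem toC_gsum (f : ℕ → ℚ × ℚ) (n : ℕ) : toC (gsum f n) = ∑ m ∈ range n, toC (f m) := by
  induction n with
  | zero => simp [gsum, toC_real]
  | succ n ih => rw [gsum, toC_ga, ih, sum_range_succ]
theorem toC_gp (x : ℚ × ℚ) (n : ℕ) : toC (gp x n) = toC x ^ n := by
  induction n with
  | zero => simp [gp, toC_real]
  | succ n ih => rw [gp, toC_gm, ih, pow_succ]
theorem qsum_eq (f : ℕ → ℚ) (n : ℕ) : qsum f n = ∑ m ∈ range n, f m := by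
  induction n with
  | zero => simp [qsum]
  | succ n ih => rw [qsum, ih, sum_range_succ]
theorem norm_toC_le {x : ℚ × ℚ} {c : ℚ} (hc : 0 ≤ c) (h : gn x ≤ c * c) : ‖toC x‖ ≤ c := by
  have hc' : (0:ℝ) ≤ c := by exact_mod_cast hc
  rw [← Real.sqrt_mul_self hc', Complex.norm_def]
  refine Real.sqrt_le_sqrt ?_
  simp only [toC, Complex.normSq_apply]
  exact_mod_cast h
theorem le_norm_toC {x : ℚ × ℚ} {c : ℚ} (hc : 0 ≤ c) (h : c * c ≤ gn x) : (c:ℝ) ≤ ‖toC x‖ := by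
  have hc' : (0:ℝ) ≤ c := by exact_mod_cast hc
  rw [← Real.sqrt_mul_self hc', Complex.norm_def]
  refine Real.sqrt_le_sqrt ?_
  simp only [toC, Complex.normSq_apply]
  exact_mod_cast h

/-! The constants. -/

def qq : ℚ := 91 / 69
def x0 : ℚ := 109 / 4
def pp : ℚ := 314159265359 / 100000000000
def at' : ℚ := 13837650095979533 / 50000000000000000
def w1 : ℚ := 384253337978301 / 1250000000000000
def w2 : ℚ := 951579528069841 / 1000000000000000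
def cf (m : ℕ) : ℚ := (-pp) ^ m / (m.factorial : ℚ)

def PQ (ν : ℚ × ℚ) (t : ℚ) : ℕ → ℚ × ℚ
  | 0 => ν
  | k + 1 => gm ν (ga (t ^ (k + 1), 0) (gs (-((k:ℚ) + 1)) (PQ ν t k)))

def termQ (l : ℕ) (s : ℚ) (k : ℕ) : ℚ × ℚ :=
  ga (gs (qq ^ l) (gm (w1, s * w2) (PQ (gi (l, s * x0)) at' k))) (gs (-1) (PQ (gi (l, s * x0)) 0 k))

def JQ (l : ℕ) (s : ℚ) (k : ℕ) : ℚ × ℚ :=
  gsum (fun m => ga (gs (cf m * (2 * pp ^ 2)) (termQ (4 * m + 4 + l) s k))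
    (gs (-(cf m * (3 * pp))) (termQ (4 * m + l) s k))) 42

def GQ (k : ℕ) : ℚ × ℚ :=
  gs (1 / 2) (ga (gm (gp (0, 1) k) (JQ 2 1 k)) (gm (gp (0, -1) k) (JQ 8 (-1) k)))

def SQ (l : ℕ) : ℚ :=
  qsum (fun m => |cf m * (2 * pp ^ 2)| * qq ^ (4 * m + 4 + l) + |cf m * (3 * pp)| * qq ^ (4 * m + l)) 42

theorem GQ0 : gn (GQ 0) ≤ (1 / 10 ^ 6) * (1 / 10 ^ 6) := by decide +kernel
theorem GQ1 : (1685 / 10 ^ 7) * (1685 / 10 ^ 7) ≤ gn (GQ 1) := by decide +kernel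
theorem GQ2 : gn (GQ 2) ≤ (977 / 10 ^ 7) * (977 / 10 ^ 7) := by decide +kernel
theorem GQ3 : gn (GQ 3) ≤ (378 / 10 ^ 7) * (378 / 10 ^ 7) := by decide +kernel
theorem SQ2 : SQ 2 ≤ 10 ^ 7 := by decide +kernel
theorem SQ8 : SQ 8 ≤ 10 ^ 7 := by decide +kernel
theorem at_near : |qsum (fun i => (22 / 91) ^ (i + 1) / ((i:ℚ) + 1)) 30 - at'| ≤ 1 / 10 ^ 17 := by
  decide +kernel
theorem w_near : gn (ga (gsum (fun m => gs (1 / (m.factorial : ℚ)) (gp (0, x0 * at') m)) 44)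
    (-w1, -w2)) ≤ (2 / 10 ^ 16) * (2 / 10 ^ 16) := by decide +kernel

end Pool.Agent.H88.Xi
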