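import Pool.Agent.H88.Xi1

set_option autoImplicit false

namespace Pool.Agent.H88.Xi

open Finset

noncomputable def aa : ℝ := Real.log (91 / 69)

theorem exp_aa : Real.exp aa = 91 / 69 := Real.exp_log (by norm_num)

theorem aa_near : |aa - at'| ≤ 1 / 10 ^ 16 := by
  have h1 := Real.abs_log_sub_add_sum_range_le (x := 22 / 91) (by rw [abs_of_pos] <;> norm_num) 30
  have h2 : Real.log (1 - 22 / 91) = -aa := by
    rw [aa, ← Real.log_inv]; norm_num
  have h3 : |(∑ i ∈ range 30, (22 / 91 : ℝ) ^ (i + 1) / ((i:ℝ) + 1)) - at'| ≤ 1 / 10 ^ 17 := by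
    have := at_near
    rw [qsum_eq] at this
    have h4 := (Rat.cast_le (K := ℝ)).2 this
    push_cast at h4
    exact h4
  rw [h2, abs_of_pos (by norm_num : (0:ℝ) < 22 / 91)] at h1
  have h5 : (22 / 91 : ℝ) ^ (30 + 1) / (1 - 22 / 91) ≤ 1 / 10 ^ 17 := by norm_num
  rw [abs_le] at h1 h3 ⊢
  constructor <;> norm_num at * <;> linarith [h1.1, h1.2, h3.1, h3.2]

theorem at_val : (at' : ℝ) = 13837650095979533 / 50000000000000000 := by simp [at']

theorem aa_pos : 0 < aa := by have := (abs_le.1 aa_near).1; rw [at_val] at this; linarith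
theorem aa_le : aa ≤ 0.28 := by have := (abs_le.1 aa_near).2; rw [at_val] at this; linarith

theorem om_near : ‖Complex.exp ((x0 : ℂ) * aa * Complex.I) - toC (w1, w2)‖ ≤ 4 / 10 ^ 15 := by
  obtain ⟨θ, hθ⟩ : ∃ θ : ℂ, θ = toC (0, x0 * at') := ⟨_, rfl⟩
  have hθ2 : θ = (x0 : ℂ) * at' * Complex.I := by rw [hθ, toC_eq]; push_cast; ring
  have hn : ‖θ‖ ≤ 7.6 := by
    have := norm_toC_le (x := (0, x0 * at')) (c := 76 / 10) (by norm_num)
      (by norm_num [gn, x0, at'])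
    rw [hθ]; refine this.trans (by norm_num)
  have h1 := Complex.exp_bound' (x := θ) (n := 44) (by
    rw [div_le_iff₀ (by positivity)]; push_cast; linarith)
  have h2 : ‖θ‖ ^ 44 / (Nat.factorial 44 : ℝ) * 2 ≤ 7.6 ^ 44 / (Nat.factorial 44 : ℝ) * 2 := by
    gcongr
  have h3 : (7.6:ℝ) ^ 44 / (Nat.factorial 44 : ℝ) * 2 ≤ 5 / 10 ^ 16 := by
    norm_num [Nat.factorial]
  have h4 := norm_toC_le (by norm_num) w_near
  rw [toC_ga, toC_gsum] at h4
  simp only [toC_gs, toC_gp, ← hθ] at h4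
  have e : ∑ m ∈ range 44, ((1 / (m.factorial : ℚ) : ℚ) : ℂ) * θ ^ m + toC (-w1, -w2) =
      ∑ m ∈ range 44, θ ^ m / m.factorial - toC (w1, w2) := by
    rw [toC_eq, toC_eq, sub_eq_add_neg]
    congr 1
    · exact sum_congr rfl (fun m _ => by push_cast; ring)
    · push_cast; ring
  rw [e] at h4
  have h5 : ‖Complex.exp ((x0 : ℂ) * aa * Complex.I) - Complex.exp θ‖ ≤ 3 / 10 ^ 15 := by
    have e2 : Complex.exp ((x0 : ℂ) * aa * Complex.I) - Complex.exp θ =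
        Complex.exp θ * (Complex.exp (Complex.I * ((x0 * (aa - at') : ℝ) : ℂ)) - 1) := by
      rw [mul_sub, ← Complex.exp_add, mul_one, hθ2]
      congr 2
      push_cast; ring
    have e3 : ‖Complex.exp θ‖ = 1 := by
      rw [Complex.norm_exp, hθ2]; simp
    rw [e2, norm_mul, e3, one_mul]
    refine Real.norm_exp_I_mul_ofReal_sub_one_le.trans ?_
    rw [Real.norm_eq_abs, abs_mul]
    have := aa_near
    have e4 : |(x0:ℝ)| = 109 / 4 := by rw [abs_of_pos] <;> norm_num [x0]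
    rw [e4]
    norm_num at *
    linarith
  have h6 := norm_sub_le_norm_sub_add_norm_sub (Complex.exp ((x0 : ℂ) * aa * Complex.I))
    (Complex.exp θ) (toC (w1, w2))
  have h7 := norm_sub_le_norm_sub_add_norm_sub (Complex.exp θ)
    (∑ m ∈ range 44, θ ^ m / m.factorial) (toC (w1, w2))
  norm_num at *
  linarith

theorem om_near' {s : ℚ} (hs : s = 1 ∨ s = -1) :
    ‖Complex.exp ((s * x0 : ℂ) * aa * Complex.I) - toC (w1, s * w2)‖ ≤ 4 / 10 ^ 15 := by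
  rcases hs with rfl | rfl
  · simpa using om_near
  · have h := om_near
    rw [← Complex.norm_conj, map_sub, ← Complex.exp_conj] at h
    convert h using 3
    · simp
    · rw [toC_eq, toC_eq]; simp

noncomputable def PP (ν t : ℂ) : ℕ → ℂ
  | 0 => ν
  | k + 1 => ν * (t ^ (k + 1) - ((k:ℂ) + 1) * PP ν t k)

theorem toC_PQ (ν : ℚ × ℚ) (t : ℚ) (k : ℕ) : toC (PQ ν t k) = PP (toC ν) t k := by
  induction k with
  | zero => rfl
  | succ k ih =>
    rw [PQ, PP, toC_gm, toC_ga, toC_gs, ih, toC_real]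
    push_cast; ring

theorem PP_deriv {μ : ℂ} (hμ : μ ≠ 0) (k : ℕ) (t : ℂ) :
    HasDerivAt (fun t => Complex.exp (μ * t) * PP μ⁻¹ t k) (t ^ k * Complex.exp (μ * t)) t := by
  have he : HasDerivAt (fun t => Complex.exp (μ * t)) (Complex.exp (μ * t) * μ) t := by
    simpa using ((hasDerivAt_id t).const_mul μ).cexp
  induction k with
  | zero =>
    refine (he.mul_const μ⁻¹).congr_deriv ?_
    field_simp
  | succ k ih =>
    have h := ((he.mul (hasDerivAt_pow (k + 1) t)).sub (ih.const_mul ((k:ℂ) + 1))).const_mul μ⁻¹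
    refine HasDerivAt.congr_deriv (h.congr_of_eventuallyEq (Filter.Eventually.of_forall
      (fun x => ?_))) ?_
    · simp only [PP, Pi.sub_apply, Pi.mul_apply]; ring
    · simp only [Nat.add_sub_cancel]
      push_cast
      field_simp
      ring

theorem int_pow_exp {μ : ℂ} (hμ : μ ≠ 0) (k : ℕ) (a : ℝ) :
    ∫ t in (0:ℝ)..a, (t:ℂ) ^ k * Complex.exp (μ * t) =
      Complex.exp (μ * a) * PP μ⁻¹ a k - PP μ⁻¹ 0 k := by
  rw [intervalIntegral.integral_eq_sub_of_hasDerivAt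
    (f := fun t : ℝ => Complex.exp (μ * t) * PP μ⁻¹ t k)
    (fun t _ => (PP_deriv hμ k t).comp_ofReal) (Continuous.intervalIntegrable (by fun_prop) _ _)]
  simp

theorem PP_le {ν t : ℂ} (hν : ‖ν‖ ≤ 1 / 10) (ht : ‖t‖ ≤ 1) (k : ℕ) (hk : k ≤ 4) :
    ‖PP ν t k‖ ≤ 1 := by
  induction k with
  | zero => exact hν.trans (by norm_num)
  | succ k ih =>
    have h1 := ih (by omega)
    have h2 : ‖t ^ (k + 1)‖ ≤ 1 := by rw [norm_pow]; exact pow_le_one₀ (norm_nonneg _) ht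
    have h3 : ‖(k:ℂ) + 1‖ ≤ 4 := by
      have : ((k:ℂ) + 1) = ((k + 1 : ℕ) : ℂ) := by push_cast; ring
      rw [this, Complex.norm_natCast]; exact_mod_cast hk
    have h4 : ‖((k:ℂ) + 1) * PP ν t k‖ ≤ 4 * 1 := by
      rw [norm_mul]; gcongr
    rw [PP, norm_mul]
    have h5 := norm_sub_le (t ^ (k + 1)) (((k:ℂ) + 1) * PP ν t k)
    have h6 : ‖t ^ (k + 1) - ((k:ℂ) + 1) * PP ν t k‖ ≤ 5 := by linarith
    have := mul_le_mul hν h6 (norm_nonneg _) (by norm_num)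
    linarith

theorem pow_lip {t u : ℂ} (ht : ‖t‖ ≤ 1) (hu : ‖u‖ ≤ 1) (k : ℕ) :
    ‖t ^ k - u ^ k‖ ≤ k * ‖t - u‖ := by
  induction k with
  | zero => simp
  | succ k ih =>
    have e : t ^ (k + 1) - u ^ (k + 1) = t * (t ^ k - u ^ k) + (t - u) * u ^ k := by ring
    rw [e]
    refine (norm_add_le _ _).trans ?_
    rw [norm_mul, norm_mul, norm_pow]
    have h1 : ‖u‖ ^ k ≤ 1 := pow_le_one₀ (norm_nonneg _) hu
    have h2 := mul_le_mul ht ih (norm_nonneg _) zero_le_one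
    have h3 := mul_le_mul_of_nonneg_left h1 (norm_nonneg (t - u))
    push_cast
    linarith

theorem PP_lip {ν t u : ℂ} (hν : ‖ν‖ ≤ 1 / 10) (ht : ‖t‖ ≤ 1) (hu : ‖u‖ ≤ 1) (k : ℕ)
    (hk : k ≤ 4) : ‖PP ν t k - PP ν u k‖ ≤ ‖t - u‖ := by
  induction k with
  | zero => simp [PP]
  | succ k ih =>
    have h1 := ih (by omega)
    have h2 := pow_lip ht hu (k + 1)
    have hk' : ((k + 1 : ℕ) : ℝ) ≤ 4 := by exact_mod_cast hk
    have h3 : ‖(k:ℂ) + 1‖ ≤ 4 := by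
      have : ((k:ℂ) + 1) = ((k + 1 : ℕ) : ℂ) := by push_cast; ring
      rw [this, Complex.norm_natCast]; exact hk'
    have e : PP ν t (k + 1) - PP ν u (k + 1) =
        ν * ((t ^ (k + 1) - u ^ (k + 1)) - ((k:ℂ) + 1) * (PP ν t k - PP ν u k)) := by
      simp only [PP]; ring
    have h4 : ‖((k:ℂ) + 1) * (PP ν t k - PP ν u k)‖ ≤ 4 * ‖t - u‖ := by
      rw [norm_mul]; gcongr
    have h5 := norm_sub_le (t ^ (k + 1) - u ^ (k + 1)) (((k:ℂ) + 1) * (PP ν t k - PP ν u k))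
    have h6 := mul_le_mul_of_nonneg_right hk' (norm_nonneg (t - u))
    rw [e, norm_mul]
    calc _ ≤ 1 / 10 * (8 * ‖t - u‖) := by gcongr; linarith
      _ ≤ _ := by linarith [norm_nonneg (t - u)]

theorem term_err (l : ℕ) {s : ℚ} (hs : s = 1 ∨ s = -1) (k : ℕ) (hk : k ≤ 4) :
    ‖(∫ t in (0:ℝ)..aa, (t:ℂ) ^ k * Complex.exp (toC (l, s * x0) * t)) - toC (termQ l s k)‖ ≤
      (qq:ℝ) ^ l * (5 / 10 ^ 15) := by
  obtain ⟨μ, hμ⟩ : ∃ μ, μ = toC (l, s * x0) := ⟨_, rfl⟩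
  have h10 : 10 ≤ ‖μ‖ := by
    refine le_trans ?_ (Complex.abs_im_le_norm μ)
    rw [hμ]
    rcases hs with rfl | rfl <;> norm_num [toC, x0, abs_of_pos]
  have hμ0 : μ ≠ 0 := by intro h; rw [h] at h10; norm_num at h10
  have hν : ‖μ⁻¹‖ ≤ 1 / 10 := by
    rw [norm_inv, one_div]; exact inv_anti₀ (by norm_num) h10
  have ha : ‖(aa : ℂ)‖ ≤ 1 := by
    rw [Complex.norm_real, Real.norm_eq_abs, abs_of_pos aa_pos]; linarith [aa_le]
  have hat : ‖((at' : ℚ) : ℂ)‖ ≤ 1 := by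
    rw [← toC_real]
    exact_mod_cast norm_toC_le (x := (at', 0)) (c := 1) (by norm_num) (by norm_num [gn, at'])
  have hd : ‖(aa : ℂ) - ((at' : ℚ) : ℂ)‖ ≤ 1 / 10 ^ 16 := by
    have : (aa : ℂ) - ((at' : ℚ) : ℂ) = ((aa - at' : ℝ) : ℂ) := by push_cast; ring
    rw [this, Complex.norm_real, Real.norm_eq_abs]; exact aa_near
  have hw : ‖toC (w1, s * w2)‖ ≤ 2 := by
    exact_mod_cast norm_toC_le (x := (w1, s * w2)) (c := 2) (by norm_num)
      (by rcases hs with rfl | rfl <;> norm_num [gn, w1, w2])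
  have he : Complex.exp (μ * aa) =
      ((qq ^ l : ℚ) : ℂ) * Complex.exp ((s * x0 : ℂ) * aa * Complex.I) := by
    have e1 : ((qq ^ l : ℚ) : ℂ) = Complex.exp (l * aa) := by
      rw [Complex.exp_nat_mul, ← Complex.ofReal_exp, exp_aa]; simp [qq]
    rw [e1, ← Complex.exp_add, hμ, toC_eq]
    congr 1
    push_cast; ring
  rw [← hμ, int_pow_exp hμ0, termQ, toC_ga, toC_gs, toC_gs, toC_gm, toC_PQ, toC_PQ, toC_gi, ← hμ,
    he]
  obtain ⟨ω, hω⟩ : ∃ ω, ω = Complex.exp ((s * x0 : ℂ) * aa * Complex.I) := ⟨_, rfl⟩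
  have h1 := om_near' hs
  rw [← hω] at h1 ⊢
  have e : ((qq ^ l : ℚ) : ℂ) * ω * PP μ⁻¹ aa k - PP μ⁻¹ 0 k -
      (((qq ^ l : ℚ) : ℂ) * (toC (w1, s * w2) * PP μ⁻¹ ((at' : ℚ) : ℂ) k) +
        ((-1 : ℚ) : ℂ) * PP μ⁻¹ ((0 : ℚ) : ℂ) k) =
      ((qq ^ l : ℚ) : ℂ) * ((ω - toC (w1, s * w2)) * PP μ⁻¹ aa k +
        toC (w1, s * w2) * (PP μ⁻¹ aa k - PP μ⁻¹ ((at' : ℚ) : ℂ) k)) := by
    push_cast; ring
  rw [e, norm_mul]
  have e2 : ‖((qq ^ l : ℚ) : ℂ)‖ = (qq:ℝ) ^ l := by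
    push_cast
    rw [norm_pow, Complex.norm_ratCast, abs_of_pos (by norm_num [qq])]
  rw [e2]
  refine mul_le_mul_of_nonneg_left ((norm_add_le _ _).trans ?_) (by unfold qq; positivity)
  rw [norm_mul, norm_mul]
  have g1 := mul_le_mul h1 (PP_le hν ha k hk) (norm_nonneg _) (by norm_num)
  have g2 := mul_le_mul hw ((PP_lip hν ha hat k hk).trans hd) (norm_nonneg _) (by norm_num)
  norm_num at *
  linarith

/-- The exponential sum approximating the first term of the kernel, times an exponential. -/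
noncomputable def Ex (l : ℕ) (s : ℚ) (k : ℕ) (t : ℝ) : ℂ :=
  ∑ m ∈ range 42, (((cf m * (2 * pp ^ 2) : ℚ) : ℂ) *
      ((t:ℂ) ^ k * Complex.exp (toC ((4 * m + 4 + l : ℕ), s * x0) * t)) +
    ((-(cf m * (3 * pp)) : ℚ) : ℂ) * ((t:ℂ) ^ k * Complex.exp (toC ((4 * m + l : ℕ), s * x0) * t)))

theorem Ex_cont (l : ℕ) (s : ℚ) (k : ℕ) : Continuous (Ex l s k) := by
  unfold Ex; fun_prop

theorem J_err (l : ℕ) (hl : SQ l ≤ 10 ^ 7) {s : ℚ} (hs : s = 1 ∨ s = -1) (k : ℕ) (hk : k ≤ 4) :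
    ‖(∫ t in (0:ℝ)..aa, Ex l s k t) - toC (JQ l s k)‖ ≤ 1 / 10 ^ 7 := by
  have hi : ∀ (c μ : ℂ), IntervalIntegrable (fun t : ℝ => c * ((t:ℂ) ^ k * Complex.exp (μ * t)))
      MeasureTheory.volume 0 aa := fun c μ => Continuous.intervalIntegrable (by fun_prop) _ _
  unfold Ex
  rw [intervalIntegral.integral_finsetSum (fun m _ => (hi _ _).add (hi _ _)), JQ, toC_gsum,
    ← sum_sub_distrib]
  refine (norm_sum_le _ _).trans ?_
  have h1 : (SQ l : ℝ) * (5 / 10 ^ 15) ≤ 1 / 10 ^ 7 := by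
    have : (SQ l : ℝ) ≤ 10 ^ 7 := by exact_mod_cast hl
    norm_num at *
    linarith
  refine le_trans ?_ h1
  rw [SQ, qsum_eq, Rat.cast_sum, sum_mul]
  refine sum_le_sum (fun m _ => ?_)
  rw [intervalIntegral.integral_add (hi _ _) (hi _ _), intervalIntegral.integral_const_mul,
    intervalIntegral.integral_const_mul, toC_ga, toC_gs, toC_gs]
  have g1 := term_err (4 * m + 4 + l) hs k hk
  have g2 := term_err (4 * m + l) hs k hk
  rw [show ∀ a b c d e f : ℂ, a * b + c * d - (a * e + c * f) = a * (b - e) + c * (d - f) from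
    fun _ _ _ _ _ _ => by ring]
  refine (norm_add_le _ _).trans ?_
  rw [norm_mul, norm_mul, Complex.norm_ratCast, Complex.norm_ratCast]
  have g3 := mul_le_mul_of_nonneg_left g1 (abs_nonneg ((cf m * (2 * pp ^ 2) : ℚ) : ℝ))
  have g4 := mul_le_mul_of_nonneg_left g2 (abs_nonneg ((-(cf m * (3 * pp)) : ℚ) : ℝ))
  refine (add_le_add g3 g4).trans_eq ?_
  simp only [Rat.cast_add, Rat.cast_mul, Rat.cast_abs, Rat.cast_pow, Rat.cast_neg, abs_neg]
  ring

end Pool.Agent.H88.Xi
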