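import Pool.Agent.H88.Xi2

set_option autoImplicit false

namespace Pool.Agent.H88.Xi

open Finset

noncomputable def ph (n : ℕ) (t : ℝ) : ℝ :=
  (2 * ((n:ℝ) + 1) ^ 4 * Real.pi ^ 2 * Real.exp (9 * t)
      - 3 * ((n:ℝ) + 1) ^ 2 * Real.pi * Real.exp (5 * t)) *
    Real.exp (-(((n:ℝ) + 1) ^ 2 * Real.pi * Real.exp (4 * t)))

theorem ph_bound (n : ℕ) {t : ℝ} (ht : 0 ≤ t) : |ph n t| ≤
    2 * ((n:ℝ) + 1) ^ 4 * Real.pi ^ 2 * Real.exp (9 * t) *
      Real.exp (-(((n:ℝ) + 1) ^ 2 * Real.pi * (1 + 4 * t))) := by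
  have hn : (1:ℝ) ≤ ((n:ℝ) + 1) ^ 2 := one_le_pow₀ (by have : (0:ℝ) ≤ n := n.cast_nonneg; linarith)
  have hpi := Real.pi_gt_three
  have h1 : Real.exp (5 * t) ≤ Real.exp (9 * t) := Real.exp_le_exp.2 (by linarith)
  have h2 : 0 ≤ 3 * ((n:ℝ) + 1) ^ 2 * Real.pi * Real.exp (5 * t) := by positivity
  have h3 : 3 * ((n:ℝ) + 1) ^ 2 * Real.pi * Real.exp (5 * t) ≤
      2 * ((n:ℝ) + 1) ^ 4 * Real.pi ^ 2 * Real.exp (9 * t) := by
    have : 3 * ((n:ℝ) + 1) ^ 2 * Real.pi ≤ 2 * ((n:ℝ) + 1) ^ 4 * Real.pi ^ 2 := by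
      have e : 2 * ((n:ℝ) + 1) ^ 4 * Real.pi ^ 2 =
          (2 * ((n:ℝ) + 1) ^ 2 * Real.pi) * (((n:ℝ) + 1) ^ 2 * Real.pi) := by ring
      rw [e, mul_assoc 3]
      refine mul_le_mul_of_nonneg_right ?_ (by positivity)
      nlinarith
    exact mul_le_mul this h1 (Real.exp_pos _).le (by positivity)
  rw [ph, abs_mul, abs_of_nonneg (by linarith), abs_of_pos (Real.exp_pos _)]
  refine mul_le_mul (by linarith) (Real.exp_le_exp.2 (neg_le_neg ?_)) (Real.exp_pos _).le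
    (by positivity)
  refine mul_le_mul_of_nonneg_left ?_ (by positivity)
  linarith [Real.add_one_le_exp (4 * t)]

theorem pi_sq : Real.pi ^ 2 ≤ 9.87 := by
  have := Real.pi_lt_d4
  have := Real.pi_pos
  nlinarith

theorem ph0_le {t : ℝ} (ht : 0 ≤ t) : |ph 0 t| ≤ 0.865 := by
  refine (ph_bound 0 ht).trans ?_
  have hpi := Real.pi_gt_d2
  have h1 : Real.exp (9 * t) * Real.exp (-(Real.pi * (1 + 4 * t))) ≤ Real.exp (-3.14) := by
    rw [← Real.exp_add]; exact Real.exp_le_exp.2 (by nlinarith)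
  have h2 : 22.89 ≤ Real.exp 3.14 := by
    have := Real.sum_le_exp_of_nonneg (x := 3.14) (by norm_num) 10
    norm_num [sum_range_succ, Nat.factorial] at this ⊢
    linarith
  have h3 : Real.exp (-3.14) ≤ 22.89⁻¹ := by
    rw [Real.exp_neg]; exact inv_anti₀ (by norm_num) h2
  have h4 := mul_le_mul pi_sq (h1.trans h3) (by positivity) (by norm_num)
  simp only [Nat.cast_zero, zero_add, one_pow, mul_one, one_mul]
  norm_num at h4 ⊢
  nlinarith

theorem ph_tail (m : ℕ) {t : ℝ} (ht : 0 ≤ t) :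
    |ph (m + 1) t| ≤ 0.001106 * Real.exp (-41 * t) * (1 / 1000) ^ m := by
  refine (ph_bound (m + 1) ht).trans ?_
  have hm : (0:ℝ) ≤ m := m.cast_nonneg
  have hpi := Real.pi_gt_d4
  have h1 : (((m + 1 : ℕ):ℝ) + 1) ^ 4 ≤ 16 * Real.exp (2 * m) := by
    have g1 : ((m + 1 : ℕ):ℝ) + 1 ≤ 2 * Real.exp (m / 2) := by
      have := Real.add_one_le_exp ((m:ℝ) / 2)
      push_cast; linarith
    have g2 : Real.exp (2 * m) = Real.exp (m / 2) ^ 4 := by
      rw [← Real.exp_nat_mul]; congr 1; push_cast; ring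
    rw [g2]
    calc _ ≤ (2 * Real.exp (m / 2)) ^ 4 := by gcongr
      _ = _ := by ring
  have h2 : Real.exp (2 * m) * (Real.exp (9 * t) *
      Real.exp (-((((m + 1 : ℕ):ℝ) + 1) ^ 2 * Real.pi * (1 + 4 * t)))) ≤
      Real.exp (-12.566) * (Real.exp (-41 * t) * Real.exp (-10) ^ m) := by
    rw [← Real.exp_nat_mul, ← Real.exp_add, ← Real.exp_add, ← Real.exp_add, ← Real.exp_add]
    refine Real.exp_le_exp.2 ?_
    push_cast
    have g1 : (4 + 4 * m + 16 * t) ≤ ((m:ℝ) + 1 + 1) ^ 2 * (1 + 4 * t) := by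
      nlinarith [mul_nonneg hm ht, mul_nonneg (mul_nonneg hm hm) ht, mul_nonneg hm hm]
    have g2 : 3.1415 * (4 + 4 * m + 16 * t) ≤ Real.pi * (((m:ℝ) + 1 + 1) ^ 2 * (1 + 4 * t)) :=
      mul_le_mul hpi.le g1 (by positivity) Real.pi_pos.le
    nlinarith
  have h3 : Real.exp (-12.566) ≤ 285700⁻¹ := by
    rw [Real.exp_neg]
    refine inv_anti₀ (by norm_num) ?_
    have := Real.sum_le_exp_of_nonneg (x := 12.566) (by norm_num) 30
    norm_num [sum_range_succ, Nat.factorial] at this ⊢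
    linarith
  have h4 : Real.exp (-10) ≤ 1 / 1000 := by
    rw [Real.exp_neg, one_div]
    refine inv_anti₀ (by norm_num) ?_
    have := Real.sum_le_exp_of_nonneg (x := 10) (by norm_num) 6
    norm_num [sum_range_succ, Nat.factorial] at this ⊢
    linarith
  have h5 : Real.exp (-12.566) * (Real.exp (-41 * t) * Real.exp (-10) ^ m) ≤
      285700⁻¹ * (Real.exp (-41 * t) * (1 / 1000) ^ m) := by gcongr
  have h6 := pi_sq
  obtain ⟨Y, hY⟩ : ∃ Y, Y = Real.exp (9 * t) *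
      Real.exp (-((((m + 1 : ℕ):ℝ) + 1) ^ 2 * Real.pi * (1 + 4 * t))) := ⟨_, rfl⟩
  have hY0 : 0 ≤ Y := by rw [hY]; positivity
  rw [← hY] at h2
  obtain ⟨Z, hZ⟩ : ∃ Z, Z = Real.exp (-41 * t) * (1 / 1000) ^ m := ⟨_, rfl⟩
  have hZ0 : 0 ≤ Z := by rw [hZ]; positivity
  rw [← hZ] at h5
  rw [mul_assoc _ (Real.exp (9 * t)), ← hY, mul_assoc 0.001106, ← hZ]
  calc _ ≤ 2 * (16 * Real.exp (2 * m)) * 9.87 * Y := by gcongr
    _ = 315.84 * (Real.exp (2 * m) * Y) := by ring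
    _ ≤ 315.84 * (285700⁻¹ * Z) := mul_le_mul_of_nonneg_left (h2.trans h5) (by norm_num)
    _ ≤ _ := by nlinarith

theorem geo : HasSum (fun m : ℕ => (1 / 1000 : ℝ) ^ m) (1 - 1 / 1000)⁻¹ :=
  hasSum_geometric_of_lt_one (by norm_num) (by norm_num)

theorem Phi_split {t : ℝ} (ht : 0 ≤ t) : Phi t = ph 0 t + ∑' m, ph (m + 1) t := by
  have : Summable (fun n => ph n t) := (summable_nat_add_iff 1).1
    (Summable.of_norm_bounded (geo.summable.mul_left _) (fun m => ph_tail m ht))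
  exact this.tsum_eq_zero_add

theorem tail_le {t : ℝ} (ht : 0 ≤ t) : |∑' m, ph (m + 1) t| ≤ 0.00111 * Real.exp (-41 * t) := by
  refine (tsum_of_norm_bounded (f := fun m => ph (m + 1) t) (geo.mul_left (0.001106 * Real.exp (-41 * t)))
    (fun m => ph_tail m ht)).trans ?_
  have := Real.exp_pos (-41 * t)
  norm_num at this ⊢
  nlinarith

theorem Phi_cont : ContinuousOn Phi (Set.Ici 0) := by
  have h1 : ContinuousOn (fun t => ∑' m, ph (m + 1) t) (Set.Ici 0) := by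
    refine continuousOn_tsum (fun m => Continuous.continuousOn (by unfold ph; fun_prop))
      (geo.summable.mul_left 0.001106) (fun m t ht => (ph_tail m ht).trans ?_)
    have : Real.exp (-41 * t) ≤ 1 := Real.exp_le_one_iff.2 (by have : 0 ≤ t := ht; linarith)
    gcongr
    linarith
  have h2 : Continuous (ph 0) := by unfold ph; fun_prop
  exact (h2.continuousOn.add h1).congr (fun t ht => Phi_split ht)

noncomputable def EE (t : ℝ) : ℝ := ∑ m ∈ range 42, (cf m : ℝ) *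
  (2 * (pp:ℝ) ^ 2 * Real.exp ((4 * m + 9) * t) - 3 * pp * Real.exp ((4 * m + 5) * t))

theorem EE_near {t : ℝ} (ht : t ∈ Set.Icc 0 aa) : |ph 0 t - EE t| ≤ 1 / 10 ^ 6 := by
  obtain ⟨H, hH⟩ : ∃ H : ℝ → ℝ, H = fun v => (2 * v ^ 2 - 3 * v) * Real.exp (-v) := ⟨_, rfl⟩
  obtain ⟨u, hu⟩ : ∃ u, u = Real.exp (4 * t) := ⟨_, rfl⟩
  have he1 : Real.exp t ≤ 91 / 69 := by rw [← exp_aa]; exact Real.exp_le_exp.2 ht.2
  have hu4 : u = Real.exp t ^ 4 := by rw [hu, ← Real.exp_nat_mul]; norm_num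
  have hu0 : 0 < u := by rw [hu]; exact Real.exp_pos _
  have hu1 : u ≤ 3.03 := by
    rw [hu4]
    calc _ ≤ (91 / 69 : ℝ) ^ 4 := by gcongr
      _ ≤ _ := by norm_num
  have hp : (pp:ℝ) = 3.14159265359 := by norm_num [pp]
  have hpi1 := Real.pi_gt_d20
  have hpi2 := Real.pi_lt_d20
  have e9 : Real.exp (9 * t) = Real.exp t * u ^ 2 := by
    rw [hu, ← Real.exp_nat_mul, ← Real.exp_add]; congr 1; push_cast; ring
  have e5 : Real.exp (5 * t) = Real.exp t * u := by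
    rw [hu, ← Real.exp_add]; congr 1; ring
  have e0 : ph 0 t = Real.exp t * H (Real.pi * u) := by
    rw [ph, hH, e9, e5, ← hu]; simp only [Nat.cast_zero, zero_add, one_pow, mul_one, one_mul]; ring
  obtain ⟨v, hv⟩ : ∃ v, v = (pp:ℝ) * u := ⟨_, rfl⟩
  have hv0 : 0 ≤ v := by rw [hv, hp]; positivity
  have hv1 : v ≤ 9.6 := by rw [hv, hp]; nlinarith
  have e1 : EE t = Real.exp t * ((2 * v ^ 2 - 3 * v) *
      ∑ m ∈ range 42, (-v) ^ m / m.factorial) := by
    rw [EE, mul_sum, mul_sum]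
    refine sum_congr rfl (fun m _ => ?_)
    have g : ∀ c : ℝ, Real.exp ((4 * m + c) * t) = u ^ m * Real.exp (c * t) := fun c => by
      rw [hu, ← Real.exp_nat_mul, ← Real.exp_add]; congr 1; ring
    rw [g, g, e9, e5, hv, cf, neg_mul_eq_neg_mul, mul_pow (-(pp:ℝ))]
    push_cast
    ring
  have h1 : |H (Real.pi * u) - H v| ≤ 300 * |Real.pi * u - v| := by
    refine Convex.norm_image_sub_le_of_norm_hasDerivWithin_le (s := Set.Icc 0 10)
      (f' := fun v => (-2 * v ^ 2 + 7 * v - 3) * Real.exp (-v)) (fun x _ => ?_) (fun x hx => ?_)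
      (convex_Icc _ _) ⟨hv0, by linarith⟩ ⟨(mul_pos Real.pi_pos hu0).le, by nlinarith⟩
    · rw [hH]
      have g1 := (((hasDerivAt_pow 2 x).const_mul 2).sub ((hasDerivAt_id x).const_mul 3)).mul
        (hasDerivAt_neg x).exp
      refine (g1.congr_deriv ?_).hasDerivWithinAt
      simp
      ring
    · rw [Real.norm_eq_abs, abs_mul, abs_of_pos (Real.exp_pos _)]
      have g1 : Real.exp (-x) ≤ 1 := Real.exp_le_one_iff.2 (by linarith [hx.1])
      have g2 : |-2 * x ^ 2 + 7 * x - 3| ≤ 300 := by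
        rw [abs_le]; constructor <;> nlinarith [hx.1, hx.2]
      have := mul_le_mul g2 g1 (Real.exp_pos _).le (by norm_num)
      linarith
  have h2 : |Real.pi * u - v| ≤ 1 / 10 ^ 11 := by
    rw [hv, hp, abs_le]; constructor <;> nlinarith
  have h3 : |Real.exp (-v) - ∑ m ∈ range 42, (-v) ^ m / m.factorial| ≤ 1 / 10 ^ 9 := by
    have g0 : ‖((-v : ℝ) : ℂ)‖ = v := by
      rw [Complex.norm_real, Real.norm_eq_abs, abs_neg, abs_of_nonneg hv0]
    have g1 := Complex.exp_bound' (x := ((-v : ℝ) : ℂ)) (n := 42) (by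
      rw [g0, div_le_iff₀ (by positivity)]; push_cast; linarith)
    have g2 : Complex.exp ((-v : ℝ) : ℂ) - ∑ m ∈ range 42, ((-v : ℝ) : ℂ) ^ m / m.factorial =
        ((Real.exp (-v) - ∑ m ∈ range 42, (-v) ^ m / m.factorial : ℝ) : ℂ) := by push_cast; rfl
    rw [g2, Complex.norm_real, Real.norm_eq_abs, g0] at g1
    refine g1.trans ?_
    calc _ ≤ (9.6:ℝ) ^ 42 / (Nat.factorial 42 : ℝ) * 2 := by gcongr
      _ ≤ _ := by norm_num [Nat.factorial]
  have h4 : |2 * v ^ 2 - 3 * v| ≤ 220 := by rw [abs_le]; constructor <;> nlinarith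
  have h5 := mul_le_mul h4 h3 (abs_nonneg _) (by norm_num)
  rw [← abs_mul] at h5
  have e2 : ph 0 t - EE t = Real.exp t * ((H (Real.pi * u) - H v) + (2 * v ^ 2 - 3 * v) *
      (Real.exp (-v) - ∑ m ∈ range 42, (-v) ^ m / m.factorial)) := by
    rw [e0, e1, hH]; ring
  rw [e2, abs_mul, abs_of_pos (Real.exp_pos _)]
  have h6 := (abs_add_le _ _).trans (add_le_add (h1.trans
    (mul_le_mul_of_nonneg_left h2 (by norm_num))) h5)
  have := mul_le_mul he1 h6 (abs_nonneg _) (by norm_num)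
  norm_num at this ⊢
  linarith

noncomputable def z0 : ℂ := toC (x0, 3)

theorem Ex_plus (k : ℕ) (t : ℝ) :
    Ex 2 1 k t = (EE t : ℂ) * ((t:ℂ) ^ k * Complex.exp (z0 * t * Complex.I)) := by
  rw [Ex, EE]
  push_cast
  rw [sum_mul]
  refine sum_congr rfl (fun m _ => ?_)
  have g : ∀ (l : ℚ) (c : ℂ), (l:ℂ) + 3 = c → Complex.exp (toC (l, 1 * x0) * t) =
      Complex.exp (c * t) * Complex.exp (z0 * t * Complex.I) := by
    intro l c h
    rw [← Complex.exp_add, z0, toC_eq, toC_eq, ← h]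
    congr 1
    push_cast
    linear_combination (-3 * (t:ℂ)) * Complex.I_mul_I
  rw [g _ (4 * m + 9) (by push_cast; ring), g _ (4 * m + 5) (by push_cast; ring)]
  ring

theorem Ex_minus (k : ℕ) (t : ℝ) :
    Ex 8 (-1) k t = (EE t : ℂ) * ((t:ℂ) ^ k * Complex.exp (-(z0 * t) * Complex.I)) := by
  rw [Ex, EE]
  push_cast
  rw [sum_mul]
  refine sum_congr rfl (fun m _ => ?_)
  have g : ∀ (l : ℚ) (c : ℂ), (l:ℂ) - 3 = c → Complex.exp (toC (l, -1 * x0) * t) =
      Complex.exp (c * t) * Complex.exp (-(z0 * t) * Complex.I) := by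
    intro l c h
    rw [← Complex.exp_add, z0, toC_eq, toC_eq, ← h]
    congr 1
    push_cast
    linear_combination (3 * (t:ℂ)) * Complex.I_mul_I
  rw [g _ (4 * m + 9) (by push_cast; ring), g _ (4 * m + 5) (by push_cast; ring)]
  ring

end Pool.Agent.H88.Xi
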