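import Pool.Agent.H88.Xi3

set_option autoImplicit false

namespace Pool.Agent.H88.Xi

open Finset

theorem norm_cos_le (z : ℂ) : ‖Complex.cos z‖ ≤ Real.exp |z.im| := by
  rw [Complex.cos, norm_div]
  have h1 := norm_add_le (Complex.exp (z * Complex.I)) (Complex.exp (-z * Complex.I))
  rw [Complex.norm_exp, Complex.norm_exp] at h1
  have h2 : Real.exp (z * Complex.I).re ≤ Real.exp |z.im| :=
    Real.exp_le_exp.2 (by simpa using neg_le_abs z.im)
  have h3 : Real.exp (-z * Complex.I).re ≤ Real.exp |z.im| :=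
    Real.exp_le_exp.2 (by simpa using le_abs_self z.im)
  rw [div_le_iff₀ (by norm_num), Complex.norm_two]
  linarith

theorem F_diff {a : ℝ} (ha : 0 ≤ a) : Differentiable ℂ (F a) := by
  intro z
  have hc : ContinuousOn (fun t : ℝ => (Phi t : ℂ)) (Set.uIcc 0 a) := by
    rw [Set.uIcc_of_le ha]
    exact Complex.continuous_ofReal.comp_continuousOn (Phi_cont.mono Set.Icc_subset_Ici_self)
  have hm : ∀ g : ℝ → ℂ, Continuous g → IntervalIntegrable (fun t => (Phi t : ℂ) * g t)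
      MeasureTheory.volume 0 a := fun g hg => (hc.mul hg.continuousOn).intervalIntegrable
  obtain ⟨C, hC⟩ := ((isCompact_closedBall z 1).prod (isCompact_uIcc (a := (0:ℝ)) (b := a))
    ).exists_bound_of_continuousOn
    (f := fun x : ℂ × ℝ => (Phi x.2 : ℂ) * (-Complex.sin (x.1 * x.2) * x.2))
    ((hc.comp continuousOn_snd (fun x hx => hx.2)).mul (by fun_prop))
  refine (intervalIntegral.hasDerivAt_integral_of_dominated_loc_of_deriv_le
    (μ := MeasureTheory.volume) (a := 0) (b := a)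
    (F := fun z (t : ℝ) => (Phi t : ℂ) * Complex.cos (z * t))
    (F' := fun z (t : ℝ) => (Phi t : ℂ) * (-Complex.sin (z * t) * t))
    (bound := fun _ => C) (Metric.closedBall_mem_nhds z one_pos)
    (Filter.Eventually.of_forall (fun x => (hm _ (by fun_prop)).def'.aestronglyMeasurable))
    (hm _ (by fun_prop)) (hm _ (by fun_prop)).def'.aestronglyMeasurable
    (Filter.Eventually.of_forall (fun t ht x hx => hC (x, t) ⟨hx, Set.uIoc_subset_uIcc ht⟩))
    intervalIntegrable_const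
    (Filter.Eventually.of_forall (fun t _ x _ => ?_))).2.differentiableAt
  refine HasDerivAt.const_mul _ ?_
  simpa using ((hasDerivAt_id x).mul_const (t:ℂ)).ccos

noncomputable def gk (k : ℕ) (t : ℝ) : ℂ :=
  (Complex.I ^ k * Ex 2 1 k t + (-Complex.I) ^ k * Ex 8 (-1) k t) / 2

theorem gk_cont (k : ℕ) : Continuous (gk k) := by
  have := Ex_cont 2 1 k
  have := Ex_cont 8 (-1) k
  unfold gk; fun_prop

theorem gk_err (k : ℕ) (hk : k ≤ 4) :
    ‖(∫ t in (0:ℝ)..aa, gk k t) - toC (GQ k)‖ ≤ 1 / 10 ^ 7 := by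
  have h1 := J_err 2 SQ2 (Or.inl rfl) k hk
  have h2 := J_err 8 SQ8 (Or.inr rfl) k hk
  unfold gk
  rw [intervalIntegral.integral_div, intervalIntegral.integral_add
    (((Ex_cont _ _ _).intervalIntegrable _ _).const_mul _)
    (((Ex_cont _ _ _).intervalIntegrable _ _).const_mul _),
    intervalIntegral.integral_const_mul, intervalIntegral.integral_const_mul, GQ, toC_gs, toC_ga,
    toC_gm, toC_gm, toC_gp, toC_gp]
  have e1 : toC (0, 1) = Complex.I := by rw [toC_eq]; simp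
  have e2 : toC (0, -1) = -Complex.I := by rw [toC_eq]; simp
  rw [e1, e2]
  push_cast
  rw [show ∀ a b c d e f : ℂ, (a * b + c * d) / 2 - 1 / 2 * (a * e + c * f) =
    (a * (b - e) + c * (d - f)) / 2 from fun _ _ _ _ _ _ => by ring, norm_div]
  have h3 := norm_add_le (Complex.I ^ k * ((∫ t in (0:ℝ)..aa, Ex 2 1 k t) - toC (JQ 2 1 k)))
    ((-Complex.I) ^ k * ((∫ t in (0:ℝ)..aa, Ex 8 (-1) k t) - toC (JQ 8 (-1) k)))
  simp only [norm_mul, norm_pow, norm_neg, Complex.norm_I, one_pow, one_mul] at h3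
  rw [div_le_iff₀ (by norm_num)]
  norm_num at *
  linarith

theorem pointwise {w : ℂ} (hw : ‖w‖ ≤ 1) {t : ℝ} (ht : t ∈ Set.Icc 0 aa) :
    ‖(Phi t : ℂ) * Complex.cos ((z0 + w) * t) - ∑ k ∈ range 4, w ^ k / k.factorial * gk k t‖ ≤
      4 / 10 ^ 6 + 0.00111 * Real.exp (-37 * t) + 0.075 * ‖w‖ ^ 4 * t ^ 4 := by
  have ht0 := ht.1
  have ht1 : t ≤ 1 := by linarith [ht.2, aa_le]
  have he1 : Real.exp t ≤ 91 / 69 := by rw [← exp_aa]; exact Real.exp_le_exp.2 ht.2
  obtain ⟨x, hx⟩ : ∃ x, x = w * t * Complex.I := ⟨_, rfl⟩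
  have hxn : ‖x‖ = ‖w‖ * t := by rw [hx]; simp [abs_of_nonneg ht0]
  have hx1 : ‖x‖ ≤ 1 := by rw [hxn]; exact mul_le_one₀ hw ht0 ht1
  have b1 := Complex.exp_bound hx1 (n := 4) (by norm_num)
  have b2 := Complex.exp_bound (x := -x) (by rwa [norm_neg]) (n := 4) (by norm_num)
  rw [norm_neg] at b2
  rw [hxn] at b1 b2
  obtain ⟨A, hA⟩ : ∃ A, A = Complex.exp (z0 * t * Complex.I) := ⟨_, rfl⟩
  obtain ⟨B, hB⟩ : ∃ B, B = Complex.exp (-(z0 * t) * Complex.I) := ⟨_, rfl⟩
  have hAn : ‖A‖ ≤ 1 := by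
    rw [hA, Complex.norm_exp]
    exact Real.exp_le_one_iff.2 (by simp [z0, toC]; linarith)
  have hBn : ‖B‖ ≤ 2.3 := by
    have : ‖B‖ = Real.exp t ^ 3 := by
      rw [hB, Complex.norm_exp, ← Real.exp_nat_mul]; congr 1; simp [z0, toC]
    rw [this]
    calc _ ≤ (91 / 69 : ℝ) ^ 3 := by gcongr
      _ ≤ _ := by norm_num
  have ec : Complex.cos ((z0 + w) * t) = (A * Complex.exp x + B * Complex.exp (-x)) / 2 := by
    rw [Complex.cos, hA, hB, ← Complex.exp_add, ← Complex.exp_add, hx]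
    congr 3 <;> ring
  have es : ∑ k ∈ range 4, w ^ k / k.factorial * gk k t = (EE t : ℂ) *
      ((A * ∑ k ∈ range 4, x ^ k / k.factorial + B * ∑ k ∈ range 4, (-x) ^ k / k.factorial) / 2) := by
    rw [mul_sum, mul_sum, ← sum_add_distrib, sum_div, mul_sum]
    refine sum_congr rfl (fun k _ => ?_)
    rw [gk, Ex_plus, Ex_minus, ← hA, ← hB, hx, ← mul_neg, mul_pow, mul_pow, mul_pow, mul_pow]
    ring
  have hcos : ‖Complex.cos ((z0 + w) * t)‖ ≤ Real.exp (4 * t) := by
    refine (norm_cos_le _).trans (Real.exp_le_exp.2 ?_)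
    have h1 := abs_le.1 ((Complex.abs_im_le_norm w).trans hw)
    have e : ((z0 + w) * t).im = (3 + w.im) * t := by simp [z0, toC]
    rw [e, abs_le]
    constructor <;> nlinarith
  have hE4 : Real.exp (4 * t) ≤ 3.1 := by
    have : Real.exp (4 * t) = Real.exp t ^ 4 := by rw [← Real.exp_nat_mul]; norm_num
    rw [this]
    calc _ ≤ (91 / 69 : ℝ) ^ 4 := by gcongr
      _ ≤ _ := by norm_num
  have hD : |Phi t - EE t| ≤ 1 / 10 ^ 6 + 0.00111 * Real.exp (-41 * t) := by
    rw [Phi_split ht0, add_sub_right_comm]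
    exact (abs_add_le _ _).trans (add_le_add (EE_near ht) (tail_le ht0))
  have hE : |EE t| ≤ 0.866 := by
    have h1 := abs_le.1 (EE_near ht)
    have h2 := abs_le.1 (ph0_le ht0)
    rw [abs_le]; norm_num at *; constructor <;> linarith
  obtain ⟨r1, hr1⟩ : ∃ r, r = Complex.exp x - ∑ k ∈ range 4, x ^ k / k.factorial := ⟨_, rfl⟩
  obtain ⟨r2, hr2⟩ : ∃ r, r = Complex.exp (-x) - ∑ k ∈ range 4, (-x) ^ k / k.factorial := ⟨_, rfl⟩
  have e : (Phi t : ℂ) * Complex.cos ((z0 + w) * t) - ∑ k ∈ range 4, w ^ k / k.factorial * gk k t =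
      ((Phi t - EE t : ℝ) : ℂ) * Complex.cos ((z0 + w) * t) + (EE t : ℂ) * ((A * r1 + B * r2) / 2) := by
    rw [es, hr1, hr2]
    push_cast
    rw [ec]; ring
  rw [← hr1] at b1
  rw [← hr2] at b2
  rw [e]
  refine (norm_add_le _ _).trans ?_
  rw [norm_mul, norm_mul, Complex.norm_real, Complex.norm_real, Real.norm_eq_abs, Real.norm_eq_abs,
    norm_div]
  obtain ⟨y, hy⟩ : ∃ y, y = ‖w‖ ^ 4 * t ^ 4 := ⟨_, rfl⟩
  have hy0 : 0 ≤ y := by rw [hy]; positivity
  rw [mul_pow, ← hy] at b1 b2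
  have c1 : ‖r1‖ ≤ y * (5 / 96) := b1.trans_eq (by norm_num [Nat.factorial])
  have c2 : ‖r2‖ ≤ y * (5 / 96) := b2.trans_eq (by norm_num [Nat.factorial])
  have c3 : ‖A * r1 + B * r2‖ ≤ 1 * (y * (5 / 96)) + 2.3 * (y * (5 / 96)) := by
    refine (norm_add_le _ _).trans ?_
    rw [norm_mul, norm_mul]
    gcongr
  have c4 : ‖A * r1 + B * r2‖ / ‖(2:ℂ)‖ ≤ y * 0.086 := by
    rw [div_le_iff₀ (by norm_num)]; norm_num at c3 ⊢; linarith
  have c5 := mul_le_mul hE c4 (by positivity) (by norm_num)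
  have c6 := mul_le_mul hD hcos (norm_nonneg _) (by positivity)
  have c7 : Real.exp (-41 * t) * Real.exp (4 * t) = Real.exp (-37 * t) := by
    rw [← Real.exp_add]; congr 1; ring
  rw [add_mul (1 / 10 ^ 6 : ℝ), mul_assoc 0.00111, c7] at c6
  rw [mul_assoc 0.075, ← hy]
  refine (add_le_add c6 c5).trans ?_
  norm_num at hE4 ⊢
  linarith

theorem main_est {w : ℂ} (hw : ‖w‖ ≤ 1) :
    ‖F aa (z0 + w) - ∑ k ∈ range 4, w ^ k / k.factorial * toC (GQ k)‖ ≤
      32 / 10 ^ 6 + 26 / 10 ^ 6 * ‖w‖ ^ 4 := by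
  have ha0 := aa_pos
  have ha1 := aa_le
  have hc : ContinuousOn (fun t : ℝ => (Phi t : ℂ)) (Set.uIcc 0 aa) := by
    rw [Set.uIcc_of_le ha0.le]
    exact Complex.continuous_ofReal.comp_continuousOn (Phi_cont.mono Set.Icc_subset_Ici_self)
  have hi : ∀ k, IntervalIntegrable (fun t => w ^ k / k.factorial * gk k t) MeasureTheory.volume
      0 aa := fun k => ((gk_cont k).intervalIntegrable _ _).const_mul _
  have h1 := intervalIntegral.norm_integral_le_of_norm_le (μ := MeasureTheory.volume) ha0.le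
    (Filter.Eventually.of_forall (fun t ht => pointwise hw (Set.Ioc_subset_Icc_self ht)))
    (Continuous.intervalIntegrable (by fun_prop) _ _)
  rw [intervalIntegral.integral_sub (f := fun t : ℝ => (Phi t : ℂ) * Complex.cos ((z0 + w) * t))
    (g := fun t : ℝ => ∑ k ∈ range 4, w ^ k / k.factorial * gk k t)
    ((hc.mul (Continuous.continuousOn (by fun_prop))).intervalIntegrable)
    (Continuous.intervalIntegrable (continuous_finsetSum _ (fun k _ =>
      continuous_const.mul (gk_cont k))) _ _),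
    intervalIntegral.integral_finsetSum (fun k _ => hi k)] at h1
  simp only [intervalIntegral.integral_const_mul] at h1
  have h2 : ∫ t in (0:ℝ)..aa, (4 / 10 ^ 6 + 0.00111 * Real.exp (-37 * t) +
      0.075 * ‖w‖ ^ 4 * t ^ 4) = (4 / 10 ^ 6 * aa - 0.00111 / 37 * Real.exp (-37 * aa) +
        0.075 * ‖w‖ ^ 4 * aa ^ 5 / 5) + 0.00111 / 37 := by
    rw [intervalIntegral.integral_eq_sub_of_hasDerivAt
      (f := fun t : ℝ => 4 / 10 ^ 6 * t - 0.00111 / 37 * Real.exp (-37 * t) +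
        0.075 * ‖w‖ ^ 4 * t ^ 5 / 5) (fun t _ => ?_)
      (Continuous.intervalIntegrable (by fun_prop) _ _)]
    · simp
    · refine ((((hasDerivAt_id t).const_mul (4 / 10 ^ 6)).sub
        ((((hasDerivAt_id t).const_mul (-37)).exp).const_mul (0.00111 / 37))).add
        (((hasDerivAt_pow 5 t).const_mul (0.075 * ‖w‖ ^ 4)).div_const 5)).congr_deriv ?_
      simp
      ring
  rw [h2] at h1
  have h3 : ‖∑ k ∈ range 4, w ^ k / k.factorial * (∫ t in (0:ℝ)..aa, gk k t) -
      ∑ k ∈ range 4, w ^ k / k.factorial * toC (GQ k)‖ ≤ 4 / 10 ^ 7 := by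
    rw [← sum_sub_distrib]
    refine (norm_sum_le _ _).trans ((sum_le_sum (g := fun _ => (1:ℝ) / 10 ^ 7)
      (fun k hk => ?_)).trans (by norm_num))
    rw [← mul_sub, norm_mul]
    have g1 : ‖w ^ k / k.factorial‖ ≤ 1 := by
      rw [norm_div, norm_pow, Complex.norm_natCast]
      refine div_le_one_of_le₀ ((pow_le_one₀ (norm_nonneg _) hw).trans ?_) (by positivity)
      exact_mod_cast Nat.factorial_pos k
    have g2 := gk_err k (by have := mem_range.1 hk; omega)
    simpa using mul_le_mul g1 g2 (norm_nonneg _) zero_le_one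
  have h4 := norm_sub_le_norm_sub_add_norm_sub (F aa (z0 + w))
    (∑ k ∈ range 4, w ^ k / k.factorial * (∫ t in (0:ℝ)..aa, gk k t))
    (∑ k ∈ range 4, w ^ k / k.factorial * toC (GQ k))
  have h5 : aa ^ 5 ≤ 0.28 ^ 5 := by gcongr
  have h6 := mul_le_mul_of_nonneg_left h5 (pow_nonneg (norm_nonneg w) 4)
  have h7 := Real.exp_pos (-37 * aa)
  have h8 := pow_nonneg (norm_nonneg w) 4
  unfold F at h4 ⊢
  norm_num at h1 h3 h4 h6 h7 ha1 ⊢
  linarith

theorem exists_zero : ∃ z : ℂ, z.im ≠ 0 ∧ F aa z = 0 := by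
  by_contra H
  push Not at H
  have hne : ∀ z ∈ Metric.closedBall z0 1, F aa z ≠ 0 := by
    intro z hz
    refine H z ?_
    rw [Metric.mem_closedBall, dist_eq_norm] at hz
    have h1 := (abs_le.1 ((Complex.abs_im_le_norm (z - z0)).trans hz)).1
    have : z0.im = 3 := by simp [z0, toC]
    simp only [Complex.sub_im] at h1
    linarith
  have g0 := norm_toC_le (by norm_num) GQ0
  have g1 := le_norm_toC (by norm_num) GQ1
  have g2 := norm_toC_le (by norm_num) GQ2
  have g3 := norm_toC_le (by norm_num) GQ3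
  have hmax := Complex.norm_le_of_forall_mem_frontier_norm_le (U := Metric.ball z0 1)
    (f := fun z => (F aa z)⁻¹) (C := (5 / 10 ^ 5)⁻¹) Metric.isBounded_ball
    (DifferentiableOn.diffContOnCl (by
      rw [closure_ball z0 one_ne_zero]
      exact (F_diff aa_pos.le).differentiableOn.inv hne)) (fun z hz => by
      rw [frontier_ball z0 one_ne_zero, mem_sphere_iff_norm] at hz
      obtain ⟨w, hw⟩ : ∃ w, w = z - z0 := ⟨_, rfl⟩
      rw [← hw] at hz
      have h1 := main_est hz.le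
      rw [show z0 + w = z by rw [hw]; ring, hz] at h1
      rw [norm_inv]
      refine inv_anti₀ (by norm_num) ?_
      have e : w * toC (GQ 1) = F aa z - (F aa z - ∑ k ∈ range 4, w ^ k / k.factorial * toC (GQ k))
          - toC (GQ 0) - w ^ 2 / 2 * toC (GQ 2) - w ^ 3 / 6 * toC (GQ 3) := by
        simp only [sum_range_succ, sum_range_zero, Nat.factorial]
        push_cast; ring
      have h2 : ‖w * toC (GQ 1)‖ ≤ ‖F aa z‖ +
          ‖F aa z - ∑ k ∈ range 4, w ^ k / k.factorial * toC (GQ k)‖ + ‖toC (GQ 0)‖ +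
          ‖w ^ 2 / 2 * toC (GQ 2)‖ + ‖w ^ 3 / 6 * toC (GQ 3)‖ := by
        rw [e]
        refine (norm_sub_le _ _).trans (add_le_add_left ((norm_sub_le _ _).trans
          (add_le_add_left ((norm_sub_le _ _).trans (add_le_add_left (norm_sub_le _ _) _)) _)) _)
      simp only [norm_mul, norm_div, norm_pow, hz] at h2
      norm_num at h1 h2 g0 g1 g2 g3 ⊢
      linarith)
    (subset_closure (Metric.mem_ball_self one_pos))
  have h1 := main_est (w := 0) (by simp)
  have e : ∑ k ∈ range 4, (0:ℂ) ^ k / k.factorial * toC (GQ k) = toC (GQ 0) := by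
    simp [sum_range_succ]
  rw [e, add_zero] at h1
  have h2 := norm_sub_norm_le (F aa z0) (toC (GQ 0))
  have h3 := norm_pos_iff.2 (hne z0 (Metric.mem_closedBall_self zero_le_one))
  rw [norm_inv] at hmax
  have := (inv_le_inv₀ h3 (by norm_num)).1 hmax
  norm_num at h1 g0 this
  linarith

end Pool.Agent.H88.Xi
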