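import Mathlib

set_option autoImplicit false

namespace Pool.Agent.H88.Xi

/-- The Riemann kernel `Φ(t)`; the index `n + 1` runs over the positive integers. -/
noncomputable def Phi (t : ℝ) : ℝ :=
  ∑' n : ℕ, (2 * ((n:ℝ) + 1) ^ 4 * Real.pi ^ 2 * Real.exp (9 * t)
      - 3 * ((n:ℝ) + 1) ^ 2 * Real.pi * Real.exp (5 * t)) *
    Real.exp (-(((n:ℝ) + 1) ^ 2 * Real.pi * Real.exp (4 * t)))

/-- The truncated cosine transform `F_a(z)`. -/
noncomputable def F (a : ℝ) (z : ℂ) : ℂ :=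
  ∫ t in (0:ℝ)..a, (Phi t : ℂ) * Complex.cos (z * t)

end Pool.Agent.H88.Xi
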