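import Mathlib

open MeasureTheory Set Filter Topology Finset

namespace Pool.Agent.H88.Zon

structure CMSeq (f : ℕ → ℝ → ℝ) : Prop where
  nonneg : ∀ n y, 0 ≤ y → 0 ≤ f n y
  cont : ∀ n, ContinuousOn (f n) (Set.Ici 0)
  deriv : ∀ n y, 0 < y → HasDerivAt (f n) (-f (n + 1) y) y

lemma CMSeq.anti {f : ℕ → ℝ → ℝ} (h : CMSeq f) (n : ℕ) : AntitoneOn (f n) (Set.Ici 0) := by
  apply antitoneOn_of_deriv_nonpos (convex_Ici 0) (h.cont n)
  · intro y hy
    rw [interior_Ici] at hy
    exact (h.deriv n y hy).differentiableAt.differentiableWithinAt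
  · intro y hy
    rw [interior_Ici] at hy
    rw [(h.deriv n y hy).deriv]
    have := h.nonneg (n + 1) y (le_of_lt hy)
    linarith

lemma CMSeq.contw {f : ℕ → ℝ → ℝ} (h : CMSeq f) (n : ℕ) {T s : ℝ} (hs : 0 ≤ s) (hT : s ≤ T) :
    ContinuousOn (fun w : ℝ => f n (T - s * w)) (Set.Icc 0 1) := by
  apply (h.cont n).comp (by fun_prop)
  intro w hw
  simp only [Set.mem_Ici]
  have := hw.2
  nlinarith

lemma CMSeq.taylor {f : ℕ → ℝ → ℝ} (h : CMSeq f) (n : ℕ) {T s : ℝ} (hs : 0 ≤ s) (hT : s ≤ T)
    (hT0 : 0 < T) :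
    f 0 (T - s) - ∑ k ∈ range (n + 1), f k T * s ^ k / k.factorial =
      s ^ (n + 1) * ∫ w in (0:ℝ)..1, (1 - w) ^ n / n.factorial * f (n + 1) (T - s * w) := by
  have key : ∀ m : ℕ, ∀ w ∈ Set.Ioo (0:ℝ) 1,
      HasDerivAt (fun w : ℝ => ∑ k ∈ range (m + 1), f k (T - s * w) * (s * (1 - w)) ^ k / k.factorial)
        (s ^ (m + 1) * ((1 - w) ^ m / m.factorial * f (m + 1) (T - s * w))) w := by
    intro m w hw
    have hpos : 0 < T - s * w := by
      have := hw.1; have := hw.2
      rcases eq_or_lt_of_le hs with h0 | h0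
      · rw [← h0]; simpa using hT0
      · nlinarith
    have hin : HasDerivAt (fun w : ℝ => T - s * w) (-s) w := by
      simpa using ((hasDerivAt_id w).const_mul s).const_sub T
    have hf : ∀ k, HasDerivAt (fun w : ℝ => f k (T - s * w)) (f (k + 1) (T - s * w) * s) w := by
      intro k
      exact ((h.deriv k _ hpos).comp w hin).congr_deriv (by ring)
    have hp : HasDerivAt (fun w : ℝ => s * (1 - w)) (-s) w := by
      simpa using ((hasDerivAt_id w).const_sub 1).const_mul s
    induction m with
    | zero =>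
      simp only [zero_add, range_one, sum_singleton, pow_zero, Nat.factorial_zero, Nat.cast_one,
        div_one, mul_one, pow_one, one_mul]
      exact (hf 0).congr_deriv (by ring)
    | succ m ih =>
      simp only [sum_range_succ _ (m + 1)]
      have h2 := (((hf (m + 1)).mul (hp.pow (m + 1))).div_const ((m + 1).factorial : ℝ))
      refine (ih.add h2).congr_deriv ?_
      simp only [Nat.factorial_succ, Nat.cast_mul, Nat.cast_add, Nat.cast_one, Nat.add_sub_cancel,
        Pi.pow_apply, mul_pow]
      have h1 : (m.factorial : ℝ) ≠ 0 := by positivity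
      have h3 : ((m:ℝ) + 1) ≠ 0 := by positivity
      field_simp
      ring
  have hcont : ContinuousOn
      (fun w : ℝ => ∑ k ∈ range (n + 1), f k (T - s * w) * (s * (1 - w)) ^ k / k.factorial)
      (Set.Icc 0 1) := by
    apply continuousOn_finsetSum
    intro k _
    exact ((h.contw k hs hT).mul (by fun_prop)).div_const _
  have hint : IntervalIntegrable
      (fun w : ℝ => s ^ (n + 1) * ((1 - w) ^ n / n.factorial * f (n + 1) (T - s * w))) volume 0 1 := by
    apply ContinuousOn.intervalIntegrable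
    rw [Set.uIcc_of_le zero_le_one]
    exact continuousOn_const.mul (ContinuousOn.mul (by fun_prop) (h.contw _ hs hT))
  have := intervalIntegral.integral_eq_sub_of_hasDerivAt_of_le zero_le_one hcont (key n) hint
  rw [intervalIntegral.integral_const_mul] at this
  rw [this]
  congr 1
  · rw [sum_range_succ']
    simp
  · simp

lemma CMSeq.taylor_bound {f : ℕ → ℝ → ℝ} (h : CMSeq f) (n : ℕ) {T s : ℝ} (hs : 0 ≤ s) (hT : s ≤ T)
    (hT0 : 0 < T) :
    0 ≤ f 0 (T - s) - ∑ k ∈ range (n + 1), f k T * s ^ k / k.factorial ∧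
    f 0 (T - s) - ∑ k ∈ range (n + 1), f k T * s ^ k / k.factorial ≤ (s / T) ^ (n + 1) * f 0 0 := by
  have hI : ∀ {s : ℝ}, 0 ≤ s → s ≤ T → IntervalIntegrable
      (fun w : ℝ => (1 - w) ^ n / n.factorial * f (n + 1) (T - s * w)) volume 0 1 := by
    intro s hs hT
    apply ContinuousOn.intervalIntegrable
    rw [Set.uIcc_of_le zero_le_one]
    exact ContinuousOn.mul (by fun_prop) (h.contw _ hs hT)
  rw [h.taylor n hs hT hT0]
  constructor
  · apply mul_nonneg (by positivity)
    apply intervalIntegral.integral_nonneg zero_le_one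
    intro w hw
    have h1 : 0 ≤ 1 - w := by linarith [hw.2]
    apply mul_nonneg (by positivity)
    apply h.nonneg
    nlinarith [hw.2]
  · have hTT := h.taylor n hT0.le le_rfl hT0
    have hmono : (∫ w in (0:ℝ)..1, (1 - w) ^ n / n.factorial * f (n + 1) (T - s * w)) ≤
        ∫ w in (0:ℝ)..1, (1 - w) ^ n / n.factorial * f (n + 1) (T - T * w) := by
      apply intervalIntegral.integral_mono_on zero_le_one (hI hs hT) (hI hT0.le le_rfl)
      intro w hw
      have h1 : 0 ≤ 1 - w := by linarith [hw.2]
      apply mul_le_mul_of_nonneg_left _ (by positivity)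
      apply h.anti
      · simp only [Set.mem_Ici]; nlinarith [hw.2]
      · simp only [Set.mem_Ici]; nlinarith [hw.2]
      · nlinarith [hw.1]
    have hsum : 0 ≤ ∑ k ∈ range (n + 1), f k T * T ^ k / k.factorial := by
      apply sum_nonneg
      intro k _
      have := h.nonneg k T hT0.le
      positivity
    rw [sub_self] at hTT
    have h2 : T ^ (n + 1) * (∫ w in (0:ℝ)..1, (1 - w) ^ n / n.factorial * f (n + 1) (T - T * w))
        ≤ f 0 0 := by linarith
    calc s ^ (n + 1) * (∫ w in (0:ℝ)..1, (1 - w) ^ n / n.factorial * f (n + 1) (T - s * w))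
        ≤ s ^ (n + 1) * (∫ w in (0:ℝ)..1, (1 - w) ^ n / n.factorial * f (n + 1) (T - T * w)) :=
          mul_le_mul_of_nonneg_left hmono (by positivity)
      _ = (s / T) ^ (n + 1) * (T ^ (n + 1) *
            (∫ w in (0:ℝ)..1, (1 - w) ^ n / n.factorial * f (n + 1) (T - T * w))) := by
          rw [div_pow, ← mul_assoc, div_mul_cancel₀ _ (by positivity)]
      _ ≤ _ := mul_le_mul_of_nonneg_left h2 (by positivity)

noncomputable def pt (T : ℝ) (k : ℕ) : unitInterval :=
  ⟨Real.exp (-(k / |T|)), (Real.exp_pos _).le, Real.exp_le_one_iff.2 (by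
    have : 0 ≤ (k:ℝ) / |T| := by positivity
    linarith)⟩

noncomputable def approx (c : ℕ → ℝ) (T : ℝ) (n : ℕ) : FiniteMeasure unitInterval :=
  ⟨∑ k ∈ range (n + 1), (Real.toNNReal (c k)) • Measure.dirac (pt T k), inferInstance⟩

lemma integral_approx (c : ℕ → ℝ) (hc : ∀ k, 0 ≤ c k) (T : ℝ) (n : ℕ) (g : C(unitInterval, ℝ)) :
    ∫ v, g v ∂(approx c T n : Measure unitInterval) = ∑ k ∈ range (n + 1), c k * g (pt T k) := by
  have : (approx c T n : Measure unitInterval) =
      ∑ k ∈ range (n + 1), (Real.toNNReal (c k)) • Measure.dirac (pt T k) := rfl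
  rw [this, integral_finsetSum_measure]
  · apply sum_congr rfl
    intro k _
    rw [integral_smul_nnreal_measure, integral_dirac]
    simp [NNReal.smul_def, hc k]
  · intro k _
    exact (BoundedContinuousFunction.mkOfCompact g).integrable _

noncomputable def powC (y : ℝ) (hy : 0 < y) : C(unitInterval, ℝ) :=
  ⟨fun v => (v : ℝ) ^ y, continuous_subtype_val.rpow_const (fun _ => Or.inr hy.le)⟩

theorem CMSeq.exists_unit {f : ℕ → ℝ → ℝ} (h : CMSeq f) :
    ∃ ρ : FiniteMeasure unitInterval, ∀ y : ℝ, 0 < y →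
      ∫ v, (v : ℝ) ^ y ∂(ρ : Measure unitInterval) = f 0 y := by
  set T : ℕ → ℝ := fun m => (m : ℝ) + 1 with hTdef
  have hT : ∀ m, 0 < T m := fun m => by simp only [hTdef]; positivity
  set c : ℕ → ℕ → ℝ := fun m k => f k (T m) * T m ^ k / k.factorial with hcdef
  have hc : ∀ m k, 0 ≤ c m k := fun m k => by
    have := h.nonneg k (T m) (hT m).le
    have := hT m
    simp only [hcdef]; positivity
  set ρ : ℕ → FiniteMeasure unitInterval := fun m => approx (c m) (T m) ((m + 1) ^ 2) with hρ
  have hmass : ∀ m, ρ m ∈ {μ : FiniteMeasure unitInterval | μ.mass ≤ Real.toNNReal (f 0 0)} := by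
    intro m
    have h1 := integral_approx (c m) (hc m) (T m) ((m + 1) ^ 2) (ContinuousMap.const _ 1)
    simp only [ContinuousMap.const_apply, integral_const, smul_eq_mul, mul_one] at h1
    have h2 := (h.taylor_bound ((m + 1) ^ 2) (hT m).le le_rfl (hT m)).1
    rw [sub_self] at h2
    show (ρ m).mass ≤ _
    rw [← NNReal.coe_le_coe, Real.coe_toNNReal _ (h.nonneg 0 0 le_rfl)]
    have h3 : ((ρ m).mass : ℝ) = (ρ m : Measure unitInterval).real Set.univ := by
      rfl
    rw [h3]
    simp only [hρ]
    rw [h1]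
    simp only [hcdef]
    linarith
  have hK := isCompact_setOfPred_finiteMeasure_le_of_compactSpace unitInterval
    (Real.toNNReal (f 0 0))
  set U : Ultrafilter ℕ := Ultrafilter.of atTop with hU
  have hUle : (U : Filter ℕ) ≤ atTop := Ultrafilter.of_le _
  obtain ⟨ρ0, -, hρ0⟩ := isCompact_iff_ultrafilter_le_nhds.1 hK (U.map ρ) (by
    rw [Ultrafilter.coe_map, le_principal_iff, Filter.mem_map]
    exact univ_mem' hmass)
  refine ⟨ρ0, fun y hy => ?_⟩
  have h1 : Tendsto (fun m => ∫ v, powC y hy v ∂(ρ m : Measure unitInterval)) U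
      (𝓝 (∫ v, powC y hy v ∂(ρ0 : Measure unitInterval))) :=
    ((FiniteMeasure.continuous_integral_continuousMap (powC y hy)).tendsto ρ0).comp hρ0
  have h2 : Tendsto (fun m => ∫ v, powC y hy v ∂(ρ m : Measure unitInterval)) atTop
      (𝓝 (f 0 y)) := by
    have hform : ∀ m, ∫ v, powC y hy v ∂(ρ m : Measure unitInterval) =
        ∑ k ∈ range ((m + 1) ^ 2 + 1),
          f k (T m) * (T m * Real.exp (-(y / T m))) ^ k / k.factorial := by
      intro m
      simp only [hρ]
      rw [integral_approx _ (hc m)]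
      apply sum_congr rfl
      intro k _
      simp only [powC, pt, ContinuousMap.coe_mk, hcdef, abs_of_pos (hT m)]
      rw [← Real.exp_mul, mul_pow, ← Real.exp_nat_mul]
      have : -((k:ℝ) / T m) * y = k * -(y / T m) := by ring
      rw [this]; ring
    simp_rw [hform]
    have hTt : Tendsto T atTop atTop :=
      tendsto_atTop_add_const_right _ _ tendsto_natCast_atTop_atTop
    have harg : Tendsto (fun m => T m - T m * Real.exp (-(y / T m))) atTop (𝓝 y) := by
      have hd : HasDerivAt (fun x : ℝ => -Real.exp (-(y * x))) y 0 := by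
        exact (((hasDerivAt_id (0:ℝ)).const_mul y).neg.exp).neg.congr_deriv (by simp)
      have h3 := hd.tendsto_slope_zero_right
      have h4 : Tendsto (fun m => (T m)⁻¹) atTop (𝓝[>] 0) := tendsto_inv_atTop_nhdsGT_zero.comp hTt
      refine (h3.comp h4).congr fun m => ?_
      simp only [Function.comp, zero_add, inv_inv, mul_zero, neg_zero, Real.exp_zero, smul_eq_mul,
        div_eq_mul_inv]
      ring
    have hf0 : Tendsto (fun m => f 0 (T m - T m * Real.exp (-(y / T m)))) atTop (𝓝 (f 0 y)) :=
      (h.deriv 0 y hy).continuousAt.tendsto.comp harg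
    have herr : Tendsto (fun m => Real.exp (-(y * T m)) * f 0 0) atTop (𝓝 0) := by
      have := (Real.tendsto_exp_neg_atTop_nhds_zero.comp (hTt.const_mul_atTop hy)).mul_const (f 0 0)
      simpa using this
    have hlow := hf0.sub herr
    rw [sub_zero] at hlow
    refine tendsto_of_tendsto_of_tendsto_of_le_of_le hlow hf0 (fun m => ?_) (fun m => ?_)
    · have he : Real.exp (-(y / T m)) ≤ 1 := Real.exp_le_one_iff.2 (by
        have : 0 ≤ y / T m := by have := hT m; positivity
        linarith)
      have hb := (h.taylor_bound ((m + 1) ^ 2) (s := T m * Real.exp (-(y / T m)))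
        (by have := hT m; positivity) (by have := hT m; nlinarith) (hT m)).2
      have h5 : (T m * Real.exp (-(y / T m)) / T m) ^ ((m + 1) ^ 2 + 1) ≤ Real.exp (-(y * T m)) := by
        rw [mul_div_cancel_left₀ _ (hT m).ne', ← Real.exp_nat_mul]
        apply Real.exp_le_exp.2
        have h6 : (((m + 1) ^ 2 + 1 : ℕ) : ℝ) = T m ^ 2 + 1 := by simp [hTdef]
        rw [h6]
        have h7 : y * T m = T m ^ 2 * (y / T m) := by have := (hT m).ne'; field_simp
        have : 0 ≤ y / T m := by have := hT m; positivity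
        rw [h7]; nlinarith
      have h8 := mul_le_mul_of_nonneg_right h5 (h.nonneg 0 0 le_rfl)
      simp only
      linarith
    · have he : Real.exp (-(y / T m)) ≤ 1 := Real.exp_le_one_iff.2 (by
        have : 0 ≤ y / T m := by have := hT m; positivity
        linarith)
      have hb := (h.taylor_bound ((m + 1) ^ 2) (s := T m * Real.exp (-(y / T m)))
        (by have := hT m; positivity) (by have := hT m; nlinarith) (hT m)).1
      simp only
      linarith
  exact tendsto_nhds_unique h1 (h2.mono_left hUle)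

theorem CMSeq.exists_laplace {f : ℕ → ℝ → ℝ} (h : CMSeq f) :
    ∃ ν : Measure ℝ, IsFiniteMeasure ν ∧ (∀ᵐ u ∂ν, 0 ≤ u) ∧
      ∀ y : ℝ, 0 < y → ∫ u, Real.exp (-(u * y)) ∂ν = f 0 y := by
  obtain ⟨ρ, hρ⟩ := h.exists_unit
  have hS : MeasurableSet {v : unitInterval | 0 < (v : ℝ)} :=
    measurableSet_lt measurable_const measurable_subtype_coe
  have hm : Measurable fun v : unitInterval => -Real.log v :=
    (Real.measurable_log.comp measurable_subtype_coe).neg
  refine ⟨((ρ : Measure unitInterval).restrict {v | 0 < (v : ℝ)}).map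
    (fun v : unitInterval => -Real.log v), inferInstance, ?_, fun y hy => ?_⟩
  · rw [ae_map_iff hm.aemeasurable (by exact measurableSet_le measurable_const measurable_id)]
    refine Eventually.of_forall fun v => ?_
    have := Real.log_nonpos v.2.1 v.2.2
    linarith
  · rw [integral_map hm.aemeasurable (by fun_prop), ← hρ y hy,
      ← setIntegral_eq_integral_of_forall_compl_eq_zero (s := {v : unitInterval | 0 < (v : ℝ)})
        (f := fun v : unitInterval => (v : ℝ) ^ y)]
    · apply setIntegral_congr_fun hS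
      intro v hv
      simp only
      rw [Real.rpow_def_of_pos hv]
      congr 1; ring
    · intro v hv
      have : (v : ℝ) = 0 := le_antisymm (not_lt.1 hv) v.2.1
      rw [this, Real.zero_rpow hy.ne']

end Pool.Agent.H88.Zon
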