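import Pool.Agent.H88.Zon1

open MeasureTheory Set Filter Topology ProbabilityTheory

namespace Pool.Agent.H88.Zon

noncomputable def bell (v : ℝ) : ℝ := Real.exp (-(1 / 2) * v ^ 2)

lemma bell_int : Integrable bell := integrable_exp_neg_mul_sq (by norm_num)

lemma mul_bell_int : Integrable fun v => v * bell v := integrable_mul_exp_neg_mul_sq (by norm_num)

lemma bell_cont : Continuous bell := by unfold bell; fun_prop

lemma bell_neg (v : ℝ) : bell (-v) = bell v := by simp [bell]

lemma bell_deriv (v : ℝ) : HasDerivAt (fun v => -bell v) (v * bell v) v := by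
  unfold bell
  exact ((((hasDerivAt_id v).pow 2).const_mul (-(1 / 2))).exp).neg.congr_deriv (by simp; ring)

lemma bell_top : Tendsto (fun v => -bell v) atTop (𝓝 0) := by
  have h1 : Tendsto (fun v : ℝ => (1 / 2) * v ^ 2) atTop atTop :=
    (tendsto_pow_atTop two_ne_zero).const_mul_atTop (by norm_num)
  have := (Real.tendsto_exp_neg_atTop_nhds_zero.comp h1).neg
  rw [neg_zero] at this
  refine this.congr fun v => ?_
  simp [bell]

lemma bell_bot : Tendsto (fun v => -bell v) atBot (𝓝 0) := by
  have := bell_top.comp tendsto_neg_atBot_atTop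
  refine this.congr fun v => ?_
  simp [bell_neg]

lemma abs_bell (b : ℝ) :
    ∫ z, |b + z| * bell z = 2 * (bell b + b * ∫ v in (0:ℝ)..b, bell v) := by
  have hI : Integrable fun z => (b + z) * bell z := by
    simp_rw [add_mul]
    exact (bell_int.const_mul b).add mul_bell_int
  have hA : Integrable fun z => |b + z| * bell z := by
    refine hI.abs.congr (Eventually.of_forall fun z => ?_)
    simp only [abs_mul]
    rw [abs_of_pos (a := bell z) (Real.exp_pos _)]
  rw [← intervalIntegral.integral_Iic_add_Ioi (b := -b) hA.integrableOn hA.integrableOn]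
  have h1 : ∫ z in Iic (-b), |b + z| * bell z =
      -(b * ∫ z in Iic (-b), bell z) - ∫ z in Iic (-b), z * bell z := by
    rw [← integral_const_mul, ← integral_neg, ← integral_sub
      (by exact (bell_int.const_mul b).neg.integrableOn) mul_bell_int.integrableOn]
    apply setIntegral_congr_fun measurableSet_Iic
    intro z hz
    simp only
    rw [abs_of_nonpos (by have : z ≤ -b := hz; linarith)]
    ring
  have h2 : ∫ z in Ioi (-b), |b + z| * bell z =
      (b * ∫ z in Ioi (-b), bell z) + ∫ z in Ioi (-b), z * bell z := by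
    rw [← integral_const_mul, ← integral_add
      (by exact (bell_int.const_mul b).integrableOn) mul_bell_int.integrableOn]
    apply setIntegral_congr_fun measurableSet_Ioi
    intro z hz
    simp only
    rw [abs_of_pos (by have : -b < z := hz; linarith)]
    ring
  have h3 := integral_Iic_of_hasDerivAt_of_tendsto' (a := -b) (fun x _ => bell_deriv x)
    mul_bell_int.integrableOn bell_bot
  have h4 := integral_Ioi_of_hasDerivAt_of_tendsto' (a := -b) (fun x _ => bell_deriv x)
    mul_bell_int.integrableOn bell_top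
  have h5 : ∫ z in Iic (-b), bell z = ∫ z in Ioi b, bell z := by
    have := integral_comp_neg_Iic (-b) bell
    simp only [bell_neg, neg_neg] at this
    exact this
  have h6 := intervalIntegral.integral_Ioi_sub_Ioi' (a := -b) (b := b) bell_int.integrableOn
    bell_int.integrableOn
  have h7 : ∫ x in (-b)..b, bell x = 2 * ∫ v in (0:ℝ)..b, bell v := by
    rw [← intervalIntegral.integral_add_adjacent_intervals (b := 0)
      (bell_cont.intervalIntegrable _ _) (bell_cont.intervalIntegrable _ _)]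
    have := intervalIntegral.integral_comp_neg (a := 0) (b := b) bell
    simp only [bell_neg, neg_zero] at this
    rw [← this]; ring
  rw [h1, h2, h3, h4, h5, bell_neg]
  have : ∫ z in Ioi (-b), bell z = (∫ z in Ioi b, bell z) + 2 * ∫ v in (0:ℝ)..b, bell v := by
    linarith
  rw [this]; ring

noncomputable def ee (b : ℝ) : ℝ := ∫ z, |b + z| ∂(gaussianReal 0 1)

noncomputable def cg : ℝ := 2 * (√(2 * Real.pi))⁻¹

lemma cg_pos : 0 < cg := by unfold cg; have := Real.pi_pos; positivity

lemma ee_eq (b : ℝ) : ee b = cg * (bell b + b * ∫ v in (0:ℝ)..b, bell v) := by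
  unfold ee
  rw [integral_gaussianReal_eq_integral_smul one_ne_zero]
  have : ∀ z, gaussianPDFReal 0 1 z • |b + z| = (√(2 * Real.pi))⁻¹ * (|b + z| * bell z) := by
    intro z
    simp only [gaussianPDFReal, bell, NNReal.coe_one, mul_one, sub_zero, smul_eq_mul]
    have : -z ^ 2 / 2 = -(1 / 2) * z ^ 2 := by ring
    rw [this]; ring
  simp_rw [this]
  rw [integral_const_mul, abs_bell, cg]; ring

lemma laplace_deriv {f : ℕ → ℝ → ℝ} (h : CMSeq f) {ν : Measure ℝ} [IsFiniteMeasure ν]
    (hpos : ∀ᵐ u ∂ν, 0 ≤ u) (hν : ∀ y : ℝ, 0 < y → ∫ u, Real.exp (-(u * y)) ∂ν = f 0 y)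
    {y : ℝ} (hy : 0 < y) :
    Integrable (fun u => u * Real.exp (-(u * y))) ν ∧
      ∫ u, u * Real.exp (-(u * y)) ∂ν = f 1 y := by
  have hs : Ioi (y / 2) ∈ 𝓝 y := Ioi_mem_nhds (by linarith)
  have := hasDerivAt_integral_of_dominated_loc_of_deriv_le (μ := ν) (x₀ := y)
    (F := fun y u => Real.exp (-(u * y))) (F' := fun y u => -(u * Real.exp (-(u * y))))
    (bound := fun _ => 2 / y) hs
    (Eventually.of_forall fun x => by fun_prop)
    (by
      refine Integrable.mono' (integrable_const (1:ℝ)) (by fun_prop) ?_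
      filter_upwards [hpos] with u hu
      rw [Real.norm_eq_abs, abs_of_pos (Real.exp_pos _)]
      apply Real.exp_le_one_iff.2
      have := mul_nonneg hu hy.le
      linarith)
    (by fun_prop)
    (by
      filter_upwards [hpos] with u hu x hx
      have hx : y / 2 < x := hx
      rw [norm_neg, Real.norm_eq_abs, abs_of_nonneg (by positivity), Real.exp_neg,
        ← div_eq_mul_inv, div_le_div_iff₀ (Real.exp_pos _) hy]
      have h1 := Real.add_one_le_exp (u * x)
      nlinarith)
    (integrable_const _)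
    (Eventually.of_forall fun u x _ =>
      (((hasDerivAt_id x).const_mul u).neg.exp).congr_deriv (by simp; ring))
  obtain ⟨h1, h2⟩ := this
  refine ⟨by simpa using h1.neg, ?_⟩
  have h3 : HasDerivAt (f 0) (∫ u, -(u * Real.exp (-(u * y))) ∂ν) y := by
    refine h2.congr_of_eventuallyEq ?_
    filter_upwards [Ioi_mem_nhds hy] with x hx
    exact (hν x hx).symm
  have h4 := h3.unique (h.deriv 0 y hy)
  rw [integral_neg] at h4
  linarith

lemma laplace_int {f : ℕ → ℝ → ℝ} (h : CMSeq f) {ν : Measure ℝ} [IsFiniteMeasure ν]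
    (hpos : ∀ᵐ u ∂ν, 0 ≤ u) (hν : ∀ y : ℝ, 0 < y → ∫ u, Real.exp (-(u * y)) ∂ν = f 0 y) :
    Integrable (fun u => u) ν := by
  refine ⟨by fun_prop, ?_⟩
  have hy : ∀ n : ℕ, (0:ℝ) < 1 / ((n:ℝ) + 1) := fun n => by positivity
  have h1 : ∀ᵐ u ∂ν, Tendsto (fun n : ℕ => ‖u * Real.exp (-(u * (1 / ((n:ℝ) + 1))))‖ₑ) atTop
      (𝓝 ‖u‖ₑ) := by
    refine Eventually.of_forall fun u => ?_
    have h2 : Continuous fun y : ℝ => ‖u * Real.exp (-(u * y))‖ₑ := by fun_prop
    have h3 := (h2.tendsto 0).comp tendsto_one_div_add_atTop_nhds_zero_nat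
    simpa [Function.comp_def] using h3
  have h2 : ∫⁻ u, ‖u‖ₑ ∂ν = ∫⁻ u, liminf
      (fun n : ℕ => ‖u * Real.exp (-(u * (1 / ((n:ℝ) + 1))))‖ₑ) atTop ∂ν := by
    apply lintegral_congr_ae
    filter_upwards [h1] with u hu
    exact hu.liminf_eq.symm
  rw [HasFiniteIntegral, h2]
  refine lt_of_le_of_lt (lintegral_liminf_le (fun n => by fun_prop)) ?_
  refine lt_of_le_of_lt (liminf_le_of_frequently_le' (x := ENNReal.ofReal (f 1 0))
    (Frequently.of_forall fun n => ?_)) ENNReal.ofReal_lt_top
  obtain ⟨h3, h4⟩ := laplace_deriv h hpos hν (hy n)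
  rw [← ofReal_integral_norm_eq_lintegral_enorm h3]
  apply ENNReal.ofReal_le_ofReal
  have h5 : ∫ u, ‖u * Real.exp (-(u * (1 / ((n:ℝ) + 1))))‖ ∂ν =
      ∫ u, u * Real.exp (-(u * (1 / ((n:ℝ) + 1)))) ∂ν := by
    apply integral_congr_ae
    filter_upwards [hpos] with u hu
    rw [Real.norm_eq_abs, abs_of_nonneg (by positivity)]
  rw [h5, h4]
  exact h.anti 1 (by simp) (hy n).le (hy n).le

lemma laplace_zero {f : ℕ → ℝ → ℝ} (h : CMSeq f) {ν : Measure ℝ} [IsFiniteMeasure ν]
    (hpos : ∀ᵐ u ∂ν, 0 ≤ u) (hν : ∀ y : ℝ, 0 < y → ∫ u, Real.exp (-(u * y)) ∂ν = f 0 y)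
    {y : ℝ} (hy : 0 ≤ y) : ∫ u, Real.exp (-(u * y)) ∂ν = f 0 y := by
  rcases eq_or_lt_of_le hy with h0 | h0
  swap
  · exact hν y h0
  subst h0
  have hy : ∀ n : ℕ, (0:ℝ) < 1 / ((n:ℝ) + 1) := fun n => by positivity
  have h1 : Tendsto (fun n : ℕ => ∫ u, Real.exp (-(u * (1 / ((n:ℝ) + 1)))) ∂ν) atTop
      (𝓝 (∫ u, Real.exp (-(u * 0)) ∂ν)) := by
    apply tendsto_integral_of_dominated_convergence (fun _ => (1:ℝ)) (fun n => by fun_prop)
      (integrable_const _)
    · intro n
      filter_upwards [hpos] with u hu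
      rw [Real.norm_eq_abs, abs_of_pos (Real.exp_pos _)]
      apply Real.exp_le_one_iff.2
      have := mul_nonneg hu (hy n).le
      linarith
    · refine Eventually.of_forall fun u => ?_
      have h2 : Continuous fun y : ℝ => Real.exp (-(u * y)) := by fun_prop
      exact (h2.tendsto 0).comp tendsto_one_div_add_atTop_nhds_zero_nat
  have h2 : Tendsto (fun n : ℕ => f 0 (1 / ((n:ℝ) + 1))) atTop (𝓝 (f 0 0)) := by
    apply (h.cont 0 0 (by simp)).tendsto.comp
    exact tendsto_nhdsWithin_iff.2 ⟨tendsto_one_div_add_atTop_nhds_zero_nat,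
      Eventually.of_forall fun n => (hy n).le⟩
  exact tendsto_nhds_unique h1 (h2.congr fun n => (hν _ (hy n)).symm)

lemma ee_sqrt {u : ℝ} (hu : 0 ≤ u) (ξ : ℝ) :
    ee (√(2 * u) * ξ) = cg * (Real.exp (-(u * ξ ^ 2)) +
      ξ * ∫ w in (0:ℝ)..ξ, 2 * (u * Real.exp (-(u * w ^ 2)))) := by
  rw [ee_eq]
  have hs : √(2 * u) ^ 2 = 2 * u := Real.sq_sqrt (by positivity)
  have hb : ∀ w, bell (√(2 * u) * w) = Real.exp (-(u * w ^ 2)) := by
    intro w
    unfold bell
    rw [mul_pow, hs]; congr 1; ring
  have h1 := intervalIntegral.mul_integral_comp_mul_left (a := 0) (b := ξ) (f := bell) (√(2 * u))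
  rw [mul_zero] at h1
  rw [← h1, hb]
  simp_rw [hb, ← mul_assoc]
  rw [intervalIntegral.integral_const_mul]
  congr 2
  linear_combination (ξ * ∫ x in (0:ℝ)..ξ, Real.exp (-(u * x ^ 2))) * hs

theorem rep {f : ℕ → ℝ → ℝ} (h : CMSeq f) (h0 : 0 < f 0 0) {A : ℝ → ℝ} (hA0 : A 0 = 0)
    (hA : ∀ w, HasDerivAt A (2 * f 1 (w ^ 2)) w) :
    ∃ (μ : Measure ℝ) (c : ℝ), IsProbabilityMeasure μ ∧ 0 < c ∧ Integrable (fun a => a) μ ∧
      ∀ ξ, c * ∫ a, ee (a * ξ) ∂μ = f 0 (ξ ^ 2) + ξ * A ξ := by
  obtain ⟨ν, hfin, hpos, hν⟩ := h.exists_laplace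
  have hint := laplace_int h hpos hν
  have hmass : ν.real univ = f 0 0 := by
    have := laplace_zero h hpos hν le_rfl
    simpa using this
  have hm : Measurable fun u : ℝ => √(2 * u) := by fun_prop
  have hne : ν univ ≠ 0 := by
    intro h1
    rw [Measure.real, h1] at hmass
    simp at hmass
    linarith
  have hne' : NeZero ν := ⟨fun h1 => hne (by simp [h1])⟩
  have hee : Continuous ee := by
    have : ee = fun b => cg * (bell b + b * ∫ v in (0:ℝ)..b, bell v) := funext ee_eq
    rw [this]
    have h1 := intervalIntegral.continuous_primitive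
      (fun a b => bell_cont.intervalIntegrable a b (μ := volume)) 0
    have := bell_cont
    fun_prop
  refine ⟨((ν univ)⁻¹ • ν).map (fun u => √(2 * u)), f 0 0 / cg,
    Measure.isProbabilityMeasure_map hm.aemeasurable, div_pos h0 cg_pos, ?_, fun ξ => ?_⟩
  · rw [integrable_map_measure (by fun_prop) hm.aemeasurable]
    apply Integrable.smul_measure _ (by simpa using hne)
    refine Integrable.mono' ((integrable_const (1:ℝ)).add hint) (by fun_prop) ?_
    filter_upwards [hpos] with u hu
    simp only [Function.comp, Pi.add_apply]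
    rw [Real.norm_eq_abs, abs_of_nonneg (Real.sqrt_nonneg _)]
    apply Real.sqrt_le_iff.2
    constructor <;> nlinarith
  · rw [integral_map hm.aemeasurable (by fun_prop), integral_smul_measure]
    have h1 : ∫ u, ee (√(2 * u) * ξ) ∂ν = ∫ u, cg * (Real.exp (-(u * ξ ^ 2)) +
        ξ * ∫ w in (0:ℝ)..ξ, 2 * (u * Real.exp (-(u * w ^ 2)))) ∂ν := by
      apply integral_congr_ae
      filter_upwards [hpos] with u hu
      exact ee_sqrt hu ξ
    have hprod : Integrable (Function.uncurry fun w u : ℝ => 2 * (u * Real.exp (-(u * w ^ 2))))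
        ((volume.restrict (uIoc 0 ξ)).prod ν) := by
      have : IsFiniteMeasure (volume.restrict (uIoc 0 ξ)) :=
        isFiniteMeasure_restrict.2 (by simp [Real.volume_uIoc])
      refine Integrable.mono' ((hint.const_mul 2).comp_snd _) (by fun_prop) ?_
      have hq := (Measure.quasiMeasurePreserving_snd (μ := volume.restrict (uIoc 0 ξ))
        (ν := ν)).ae hpos
      filter_upwards [hq] with p hp
      simp only [Function.uncurry]
      rw [Real.norm_eq_abs, abs_of_nonneg (by positivity)]
      have : Real.exp (-(p.2 * p.1 ^ 2)) ≤ 1 := by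
        apply Real.exp_le_one_iff.2
        have : 0 ≤ p.2 * p.1 ^ 2 := by positivity
        linarith
      nlinarith
    have hswap := intervalIntegral_integral_swap hprod
    have hI1 : Integrable (fun u => Real.exp (-(u * ξ ^ 2))) ν := by
      refine Integrable.mono' (integrable_const (1:ℝ)) (by fun_prop) ?_
      filter_upwards [hpos] with u hu
      rw [Real.norm_eq_abs, abs_of_pos (Real.exp_pos _)]
      apply Real.exp_le_one_iff.2
      have : 0 ≤ u * ξ ^ 2 := by positivity
      linarith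
    have hI2 : Integrable (fun u => ∫ w in (0:ℝ)..ξ, 2 * (u * Real.exp (-(u * w ^ 2)))) ν := by
      have := hprod.integral_prod_right
      simp only [Function.uncurry] at this
      simp_rw [intervalIntegral.intervalIntegral_eq_integral_uIoc]
      exact this.const_mul (if (0:ℝ) ≤ ξ then 1 else -1)
    have h2 : ∫ w in (0:ℝ)..ξ, ∫ u, 2 * (u * Real.exp (-(u * w ^ 2))) ∂ν = A ξ := by
      have h3 : ∫ w in (0:ℝ)..ξ, 2 * f 1 (w ^ 2) = A ξ - A 0 := by
        apply intervalIntegral.integral_eq_sub_of_hasDerivAt (fun w _ => hA w)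
        apply Continuous.intervalIntegrable
        refine continuous_const.mul ?_
        exact (h.cont 1).comp_continuous (by fun_prop) (fun w => sq_nonneg w)
      rw [hA0, sub_zero] at h3
      rw [← h3]
      apply intervalIntegral.integral_congr_ae
      have : ∀ᵐ w : ℝ, w ≠ 0 := by simp [ae_iff]
      filter_upwards [this] with w hw _
      rw [integral_const_mul, (laplace_deriv h hpos hν (by positivity)).2]
    rw [h1, integral_const_mul, integral_add hI1 (hI2.const_mul ξ), integral_const_mul, ← hswap, h2,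
      laplace_zero h hpos hν (sq_nonneg ξ), ENNReal.toReal_inv, smul_eq_mul]
    have h4 : (ν univ).toReal = f 0 0 := hmass
    rw [h4]
    have := cg_pos
    field_simp

end Pool.Agent.H88.Zon
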