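import Pool.Agent.H88.Zon2

open MeasureTheory Set Filter Topology ProbabilityTheory

namespace Pool.Agent.H88.Zon

inductive Cone (S : Set (ℝ → ℝ)) : (ℝ → ℝ) → Prop
  | const (k : ℝ) (hk : 0 ≤ k) : Cone S (fun _ => k)
  | base (g : ℝ → ℝ) (hg : g ∈ S) : Cone S g
  | add (g h : ℝ → ℝ) : Cone S g → Cone S h → Cone S (fun y => g y + h y)
  | mul (g h : ℝ → ℝ) : Cone S g → Cone S h → Cone S (fun y => g y * h y)

def Good (S : Set (ℝ → ℝ)) (g : ℝ → ℝ) : Prop :=
  (∀ y, 0 ≤ y → 0 ≤ g y) ∧ ContinuousOn g (Ici 0) ∧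
    ∃ g', Cone S g' ∧ ∀ y, 0 < y → HasDerivAt g (-g' y) y

lemma Cone.good {S : Set (ℝ → ℝ)} (hS : ∀ g ∈ S, Good S g) {g : ℝ → ℝ} (hg : Cone S g) :
    Good S g := by
  induction hg with
  | const k hk =>
    exact ⟨fun _ _ => hk, continuousOn_const, fun _ => 0, Cone.const 0 le_rfl,
      fun y _ => (hasDerivAt_const y k).congr_deriv (by simp)⟩
  | base g hg => exact hS g hg
  | add g h _ _ ihg ihh =>
    obtain ⟨a1, a2, g', a3, a4⟩ := ihg
    obtain ⟨b1, b2, h', b3, b4⟩ := ihh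
    exact ⟨fun y hy => add_nonneg (a1 y hy) (b1 y hy), a2.add b2, _, Cone.add _ _ a3 b3,
      fun y hy => ((a4 y hy).add (b4 y hy)).congr_deriv (by ring)⟩
  | mul g h hg hh ihg ihh =>
    obtain ⟨a1, a2, g', a3, a4⟩ := ihg
    obtain ⟨b1, b2, h', b3, b4⟩ := ihh
    exact ⟨fun y hy => mul_nonneg (a1 y hy) (b1 y hy), a2.mul b2, _,
      Cone.add _ _ (Cone.mul _ _ a3 hh) (Cone.mul _ _ hg b3),
      fun y hy => ((a4 y hy).mul (b4 y hy)).congr_deriv (by ring)⟩

lemma exists_cmseq {S : Set (ℝ → ℝ)} (hS : ∀ g ∈ S, Good S g) {g0 g1 : ℝ → ℝ} (h0 : Cone S g0)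
    (h1 : Cone S g1) (hd : ∀ y, 0 < y → HasDerivAt g0 (-g1 y) y) :
    ∃ f, CMSeq f ∧ f 0 = g0 ∧ f 1 = g1 := by
  have hnext : ∀ g : {g // Cone S g}, ∃ g' : {g // Cone S g},
      ∀ y, 0 < y → HasDerivAt g.1 (-g'.1 y) y := by
    intro g
    obtain ⟨-, -, g', a3, a4⟩ := g.2.good hS
    exact ⟨⟨g', a3⟩, a4⟩
  choose nx hnx using hnext
  let sq : ℕ → {g // Cone S g} := fun n => Nat.rec ⟨g1, h1⟩ (fun _ g => nx g) n
  let f : ℕ → ℝ → ℝ := fun n => Nat.casesOn n g0 (fun m => (sq m).1)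
  have hc : ∀ n, Cone S (f n) := by
    intro n
    cases n with
    | zero => exact h0
    | succ m => exact (sq m).2
  refine ⟨f, ⟨fun n => ((hc n).good hS).1, fun n => ((hc n).good hS).2.1, fun n => ?_⟩, rfl, rfl⟩
  cases n with
  | zero => exact hd
  | succ m => exact hnx (sq m)

lemma hasDerivAt_inv_sqrt {W : ℝ} (hW : 0 < W) :
    HasDerivAt (fun W => (√W)⁻¹) (-(1 / 2 * ((√W)⁻¹ * (√W)⁻¹ * (√W)⁻¹))) W := by
  have h1 : 0 < √W := Real.sqrt_pos.2 hW
  refine ((Real.hasDerivAt_sqrt hW.ne').inv h1.ne').congr_deriv ?_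
  field_simp

theorem rep1 : ∃ (μ : Measure ℝ) (c : ℝ), IsProbabilityMeasure μ ∧ 0 < c ∧
    Integrable (fun a => a) μ ∧
      ∀ ξ, c * ∫ a, ee (a * ξ) ∂μ = (ξ ^ 2 + 1 / 2) / √(ξ ^ 2 + 1) := by
  set α : ℝ → ℝ := fun t => (√(t + 1))⁻¹ with hα
  have hαd : ∀ t, -1 < t → HasDerivAt α (-(1 / 2 * (α t * α t * α t))) t := by
    intro t ht
    have := (hasDerivAt_inv_sqrt (W := t + 1) (by linarith)).comp t
      ((hasDerivAt_id t).add_const 1)
    rw [mul_one] at this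
    exact this
  have hb : Cone {α} α := Cone.base _ rfl
  have hS : ∀ g ∈ ({α} : Set (ℝ → ℝ)), Good {α} g := by
    intro g hg
    rw [mem_singleton_iff] at hg
    subst hg
    refine ⟨fun y _ => by simp only [hα]; positivity, fun y hy =>
      (hαd y (by have : 0 ≤ y := hy; linarith)).continuousAt.continuousWithinAt, _,
      Cone.mul _ _ (Cone.const (1 / 2) (by norm_num)) (Cone.mul _ _ (Cone.mul _ _ hb hb) hb),
      fun y hy => hαd y (by linarith)⟩
  have h3 := Cone.mul _ _ (Cone.mul _ _ hb hb) hb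
  obtain ⟨f, hf, hf0, hf1⟩ := exists_cmseq hS (Cone.mul _ _ (Cone.const (1 / 2) (by norm_num)) h3)
    (Cone.mul _ _ (Cone.const (3 / 4) (by norm_num)) (Cone.mul _ _ (Cone.mul _ _ h3 hb) hb))
    (fun y hy => by
      have := hαd y (by linarith)
      exact (((this.mul this).mul this).const_mul (1 / 2)).congr_deriv (by simp only [Pi.mul_apply]; ring))
  obtain ⟨μ, c, h1, h2, h4, h5⟩ := rep hf (by rw [hf0]; simp [hα])
    (A := fun w => w * (w ^ 2 + 3 / 2) * (α (w ^ 2) * α (w ^ 2) * α (w ^ 2))) (by simp) (by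
      intro w
      have h6 : HasDerivAt (fun w => α (w ^ 2))
          (-(1 / 2 * (α (w ^ 2) * α (w ^ 2) * α (w ^ 2))) * (2 * w)) w := by
        have h0 : HasDerivAt (fun w : ℝ => w ^ 2) (2 * w) w :=
          (hasDerivAt_pow 2 w).congr_deriv (by simp)
        have h00 : -1 < w ^ 2 := by nlinarith
        exact HasDerivAt.comp (h₂ := α) (h := fun w : ℝ => w ^ 2) w (hαd (w ^ 2) h00) h0
      have h7 : HasDerivAt (fun w : ℝ => w * (w ^ 2 + 3 / 2)) (3 * w ^ 2 + 3 / 2) w :=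
        ((hasDerivAt_id w).mul ((hasDerivAt_pow 2 w).add_const (3 / 2))).congr_deriv
          (by simp; ring)
      refine (h7.mul ((h6.mul h6).mul h6)).congr_deriv ?_
      rw [hf1]
      simp only [Pi.mul_apply]
      have h8 : α (w ^ 2) ^ 2 * (w ^ 2 + 1) = 1 := by
        simp only [hα, inv_pow]
        rw [Real.sq_sqrt (by positivity)]
        field_simp
      linear_combination (-(3 * w ^ 2 + 3 / 2) * α (w ^ 2) ^ 3) * h8)
  refine ⟨μ, c, h1, h2, h4, fun ξ => ?_⟩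
  rw [h5, hf0]
  have h8 : α (ξ ^ 2) ^ 2 * (ξ ^ 2 + 1) = 1 := by
    simp only [hα, inv_pow]
    rw [Real.sq_sqrt (by positivity)]
    field_simp
  have h9 : (ξ ^ 2 + 1 / 2) / √(ξ ^ 2 + 1) = (ξ ^ 2 + 1 / 2) * α (ξ ^ 2) := by
    simp only [hα, div_eq_mul_inv]
  rw [h9]
  linear_combination ((ξ ^ 2 + 1 / 2) * α (ξ ^ 2)) * h8

lemma cub_mono : StrictMono fun X : ℝ => 2 * X ^ 3 + 3 * X := by
  intro a b hab
  have : a ^ 3 < b ^ 3 := (Odd.strictMono_pow (by decide : Odd 3)) hab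
  simp only; linarith

lemma cub_surj : Function.Surjective fun X : ℝ => 2 * X ^ 3 + 3 * X := by
  apply Continuous.surjective (by fun_prop)
  · refine tendsto_atTop_mono' _ ?_ tendsto_id
    filter_upwards [eventually_ge_atTop 0] with x hx
    have : 0 ≤ x ^ 3 := by positivity
    simp only [id]; linarith
  · refine tendsto_atBot_mono' _ ?_ tendsto_id
    filter_upwards [eventually_le_atBot 0] with x hx
    have : x ^ 3 ≤ 0 := Odd.pow_nonpos (by decide) hx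
    simp only [id]; linarith

noncomputable def Xf : ℝ → ℝ := (cub_mono.orderIsoOfSurjective _ cub_surj).symm

lemma Xf_cont : Continuous Xf := (cub_mono.orderIsoOfSurjective _ cub_surj).symm.continuous

lemma cub_Xf (ξ : ℝ) : 2 * Xf ξ ^ 3 + 3 * Xf ξ = ξ :=
  StrictMono.orderIsoOfSurjective_self_symm_apply _ cub_mono cub_surj ξ

lemma Xf_cub (X : ℝ) : Xf (2 * X ^ 3 + 3 * X) = X :=
  StrictMono.orderIsoOfSurjective_symm_apply_self _ cub_mono cub_surj X

lemma Xf_neg (ξ : ℝ) : Xf (-ξ) = -Xf ξ := by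
  have := Xf_cub (-Xf ξ)
  rw [← this]
  congr 1
  have := cub_Xf ξ
  linarith

lemma Xf_deriv (ξ : ℝ) : HasDerivAt Xf (6 * Xf ξ ^ 2 + 3)⁻¹ ξ := by
  apply HasDerivAt.of_local_left_inverse (f := fun X : ℝ => 2 * X ^ 3 + 3 * X)
    Xf_cont.continuousAt
  · exact (((hasDerivAt_pow 3 _).const_mul 2).add ((hasDerivAt_id _).const_mul 3)).congr_deriv
      (by simp; ring)
  · positivity
  · exact Eventually.of_forall cub_Xf

noncomputable def Wf (τ : ℝ) : ℝ := 1 + Xf (√τ) ^ 2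

lemma Wf_ge (τ : ℝ) : 1 ≤ Wf τ := by unfold Wf; nlinarith [sq_nonneg (Xf (√τ))]

lemma Wf_cont : Continuous Wf := by unfold Wf; have := Xf_cont; fun_prop

lemma Wf_sq (ξ : ℝ) : Wf (ξ ^ 2) = 1 + Xf ξ ^ 2 := by
  unfold Wf
  rw [Real.sqrt_sq_eq_abs]
  rcases abs_cases ξ with h | h
  · rw [h.1]
  · rw [h.1, Xf_neg]; ring

lemma Wf_deriv {τ : ℝ} (hτ : 0 < τ) :
    HasDerivAt Wf (1 / 12 * ((Wf τ - 1 / 2)⁻¹ * (Wf τ + 1 / 2)⁻¹)) τ := by
  have h1 := Wf_ge τ
  have h2 : 0 < Wf τ - 1 / 2 := by linarith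
  have := HasDerivAt.of_local_left_inverse (f := fun W : ℝ => (W - 1) * (2 * W + 1) ^ 2)
    (g := Wf) (a := τ) (f' := 12 * ((Wf τ - 1 / 2) * (Wf τ + 1 / 2))) Wf_cont.continuousAt
    ((((hasDerivAt_id _).sub_const 1).mul
      ((((hasDerivAt_id _).const_mul 2).add_const 1).pow 2)).congr_deriv (by simp; ring))
    (by positivity) (by
      filter_upwards [Ioi_mem_nhds hτ] with t ht
      have h3 := cub_Xf (√t)
      have h4 : √t ^ 2 = t := Real.sq_sqrt (le_of_lt ht)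
      unfold Wf
      conv_rhs => rw [← h4, ← h3]
      ring)
  refine this.congr_deriv ?_
  field_simp

theorem rep2 : ∃ (μ : Measure ℝ) (c : ℝ), IsProbabilityMeasure μ ∧ 0 < c ∧
    Integrable (fun a => a) μ ∧
      ∀ X, c * ∫ a, ee (a * (2 * X ^ 3 + 3 * X)) ∂μ = 2 * √(X ^ 2 + 1) ^ 3 := by
  set α : ℝ → ℝ := fun t => (√(Wf t))⁻¹ with hα
  set β : ℝ → ℝ := fun t => (Wf t - 1 / 2)⁻¹ with hβ
  set γ : ℝ → ℝ := fun t => (Wf t + 1 / 2)⁻¹ with hγ
  have hW0 : ∀ t, 0 < Wf t := fun t => by linarith [Wf_ge t]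
  have hW1 : ∀ t, 0 < Wf t - 1 / 2 := fun t => by linarith [Wf_ge t]
  have hW2 : ∀ t, 0 < Wf t + 1 / 2 := fun t => by linarith [Wf_ge t]
  have hαd : ∀ t, 0 < t → HasDerivAt α
      (-(1 / 24 * (α t * α t * α t * β t * γ t))) t := by
    intro t ht
    exact ((hasDerivAt_inv_sqrt (hW0 t)).comp t (Wf_deriv ht)).congr_deriv
      (by simp only [hα, hβ, hγ]; ring)
  have hβd : ∀ t, 0 < t → HasDerivAt β (-(1 / 12 * (β t * β t * β t * γ t))) t := by
    intro t ht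
    refine (((Wf_deriv ht).sub_const (1 / 2)).inv (hW1 t).ne').congr_deriv ?_
    simp only [hβ, hγ]
    have := hW1 t; have := hW2 t
    field_simp
  have hγd : ∀ t, 0 < t → HasDerivAt γ (-(1 / 12 * (γ t * γ t * β t * γ t))) t := by
    intro t ht
    refine (((Wf_deriv ht).add_const (1 / 2)).inv (hW2 t).ne').congr_deriv ?_
    simp only [hβ, hγ]
    have := hW1 t; have := hW2 t
    field_simp
  have ha : Cone {α, β, γ} α := Cone.base _ (by simp)
  have hb : Cone {α, β, γ} β := Cone.base _ (by simp)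
  have hc : Cone {α, β, γ} γ := Cone.base _ (by simp)
  have hS : ∀ g ∈ ({α, β, γ} : Set (ℝ → ℝ)), Good {α, β, γ} g := by
    intro g hg
    have hWc := Wf_cont
    rcases hg with rfl | rfl | rfl
    · refine ⟨fun y _ => by simp only [hα]; positivity, Continuous.continuousOn ?_, _,
        Cone.mul _ _ (Cone.const (1 / 24) (by norm_num))
          (Cone.mul _ _ (Cone.mul _ _ (Cone.mul _ _ (Cone.mul _ _ ha ha) ha) hb) hc), hαd⟩
      exact Continuous.inv₀ (by fun_prop) (fun t => (Real.sqrt_pos.2 (hW0 t)).ne')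
    · refine ⟨fun y _ => (inv_pos.2 (hW1 y)).le, Continuous.continuousOn ?_, _,
        Cone.mul _ _ (Cone.const (1 / 12) (by norm_num))
          (Cone.mul _ _ (Cone.mul _ _ (Cone.mul _ _ hb hb) hb) hc), hβd⟩
      exact Continuous.inv₀ (by fun_prop) (fun t => (hW1 t).ne')
    · refine ⟨fun y _ => (inv_pos.2 (hW2 y)).le, Continuous.continuousOn ?_, _,
        Cone.mul _ _ (Cone.const (1 / 12) (by norm_num))
          (Cone.mul _ _ (Cone.mul _ _ (Cone.mul _ _ hc hc) hb) hc), hγd⟩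
      exact Continuous.inv₀ (by fun_prop) (fun t => (hW2 t).ne')
  have hα2 : ∀ t, α t ^ 2 * Wf t = 1 := by
    intro t
    simp only [hα, inv_pow]
    rw [Real.sq_sqrt (hW0 t).le]
    exact inv_mul_cancel₀ (hW0 t).ne'
  have hβ1 : ∀ t, β t * (Wf t - 1 / 2) = 1 := fun t => inv_mul_cancel₀ (hW1 t).ne'
  have hγ1 : ∀ t, γ t * (Wf t + 1 / 2) = 1 := fun t => inv_mul_cancel₀ (hW2 t).ne'
  obtain ⟨f, hf, hf0, hf1⟩ := exists_cmseq hS
    (Cone.add _ _ ha (Cone.mul _ _ (Cone.const (1 / 2) (by norm_num)) (Cone.mul _ _ ha hb)))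
    (Cone.mul _ _ (Cone.const (1 / 24) (by norm_num))
      (Cone.mul _ _ (Cone.mul _ _ (Cone.mul _ _ ha hb) hb) hb))
    (fun y hy => by
      refine ((hαd y hy).add (((hαd y hy).mul (hβd y hy)).const_mul (1 / 2))).congr_deriv ?_
      have e1 := hα2 y
      have e2 := hβ1 y
      have e3 := hγ1 y
      have hs : √(Wf y) ^ 2 = Wf y := Real.sq_sqrt (hW0 y).le
      have hs0 : 0 < √(Wf y) := Real.sqrt_pos.2 (hW0 y)
      simp only [hα, hβ, hγ]
      have := hW1 y; have := hW2 y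
      generalize √(Wf y) = r at *
      generalize Wf y = W at *
      subst hs
      field_simp
      ring)
  obtain ⟨μ, c, h1, h2, h4, h5⟩ := rep hf (by
      rw [hf0]
      have := inv_pos.2 (Real.sqrt_pos.2 (hW0 0))
      have := inv_pos.2 (hW1 0)
      simp only [hα, hβ]
      positivity)
    (A := fun w => Xf w * √(Xf w ^ 2 + 1) / (Xf w ^ 2 + 1 / 2))
    (by have := Xf_cub 0; simp only [ne_eq, OfNat.ofNat_ne_zero, not_false_eq_true, zero_pow,
          mul_zero, add_zero] at this; simp [this]) (by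
      intro w
      have hX := Xf_deriv w
      have hr := ((hX.pow 2).add_const 1).sqrt (by simp only [Pi.pow_apply]; positivity)
      refine ((hX.mul hr).div ((hX.pow 2).add_const (1 / 2))
        (by simp only [Pi.pow_apply]; positivity)).congr_deriv ?_
      rw [hf1]
      simp only [hα, hβ, Wf_sq, Pi.mul_apply, Pi.pow_apply]
      have hs : √(Xf w ^ 2 + 1) ^ 2 = Xf w ^ 2 + 1 := Real.sq_sqrt (by positivity)
      have hs0 : 0 < √(Xf w ^ 2 + 1) := Real.sqrt_pos.2 (by positivity)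
      rw [add_comm 1 (Xf w ^ 2)]
      generalize √(Xf w ^ 2 + 1) = r at *
      generalize Xf w = X at *
      have e : X ^ 2 + 1 - 1 / 2 = X ^ 2 + 1 / 2 := by ring
      have e' : 6 * X ^ 2 + 3 = 6 * (X ^ 2 + 1 / 2) := by ring
      rw [e, e']
      have hp : 0 < X ^ 2 + 1 / 2 := by positivity
      generalize hq : X ^ 2 + 1 / 2 = q at *
      field_simp
      subst hq
      norm_num
      linear_combination (1 - 2 * X ^ 2) * hs)
  refine ⟨μ, c, h1, h2, h4, fun X => ?_⟩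
  rw [h5, hf0]
  simp only [hα, hβ, Wf_sq, Xf_cub]
  have hs : √(X ^ 2 + 1) ^ 2 = X ^ 2 + 1 := Real.sq_sqrt (by positivity)
  have hs0 : 0 < √(X ^ 2 + 1) := Real.sqrt_pos.2 (by positivity)
  rw [add_comm 1 (X ^ 2)]
  generalize √(X ^ 2 + 1) = r at *
  have e : X ^ 2 + 1 - 1 / 2 = X ^ 2 + 1 / 2 := by ring
  rw [e]
  have hp : 0 < X ^ 2 + 1 / 2 := by positivity
  generalize hq : X ^ 2 + 1 / 2 = q at *
  field_simp
  subst hq
  have : X ^ 2 = r ^ 2 - 1 := by linarith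
  have e4 : X ^ 4 = (r ^ 2 - 1) ^ 2 := by rw [← this]; ring
  ring_nf
  rw [this, e4]
  ring

end Pool.Agent.H88.Zon
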