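import Pool.Agent.H88.Zon3

open MeasureTheory Set Filter Topology ProbabilityTheory

namespace Pool.Agent.H88.Zon

noncomputable def PP : Measure (ℕ → ℝ) := Measure.infinitePi (fun _ => gaussianReal 0 1)

instance : IsProbabilityMeasure PP := by unfold PP; infer_instance

lemma mp_eval (i : ℕ) : MeasurePreserving (fun ω : ℕ → ℝ => ω i) PP (gaussianReal 0 1) :=
  measurePreserving_eval_infinitePi (fun _ => gaussianReal 0 1) i

lemma indep_eval : iIndepFun (fun (i : ℕ) (ω : ℕ → ℝ) => ω i) PP :=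
  iIndepFun_infinitePi (X := fun _ x => x) (fun _ => measurable_id)

lemma memLp_eval (i : ℕ) : MemLp (fun ω : ℕ → ℝ => ω i) 2 PP :=
  (memLp_id_gaussianReal' (μ := 0) (v := 1) 2 (by simp)).comp_measurePreserving (mp_eval i)

lemma int_eval (i : ℕ) : ∫ ω, ω i ∂PP = 0 := by
  have := (mp_eval i).hasLaw.integral_eq
  rw [this]
  simp

lemma int_eval_sq (i : ℕ) : ∫ ω, ω i * ω i ∂PP = 1 := by
  have h1 := (mp_eval i).hasLaw.variance_eq
  rw [variance_id_gaussianReal, 
    variance_of_integral_eq_zero (measurable_pi_apply i).aemeasurable (int_eval i)] at h1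
  simp only [NNReal.coe_one] at h1
  rw [← h1]
  congr 1; ext ω; ring

noncomputable def gv (i : ℕ) : Lp ℝ 2 PP := (memLp_eval i).toLp _

lemma gv_ae (i : ℕ) : gv i =ᵐ[PP] fun ω => ω i := MemLp.coeFn_toLp _

lemma gv_orth : Orthonormal ℝ gv := by
  rw [orthonormal_iff_ite]
  intro i j
  have h1 : inner ℝ (gv i) (gv j) = ∫ ω, ω i * ω j ∂PP := by
    rw [L2.inner_def]
    apply integral_congr_ae
    filter_upwards [gv_ae i, gv_ae j] with ω h1 h2
    rw [h1, h2]; simp [mul_comm]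
  rw [h1]
  split_ifs with h
  · subst h; exact int_eval_sq i
  · rw [(indep_eval.indepFun h).integral_fun_mul_eq_mul_integral
      (measurable_pi_apply i).aestronglyMeasurable (measurable_pi_apply j).aestronglyMeasurable]
    simp [int_eval]

noncomputable def KK (b σ : ℝ) : ℝ := ∫ z, |b + σ * z| ∂(gaussianReal 0 1)

lemma int_id : Integrable (fun z : ℝ => z) (gaussianReal 0 1) :=
  memLp_one_iff_integrable.1 (memLp_id_gaussianReal' (μ := 0) (v := 1) 1 (by simp))

lemma KK_cont (b : ℝ) : Continuous (KK b) := by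
  have hI : ∀ σ : ℝ, Integrable (fun z => |b + σ * z|) (gaussianReal 0 1) := fun σ =>
    ((integrable_const b).add (int_id.const_mul σ)).abs
  have : LipschitzWith (Real.toNNReal (∫ z, |z| ∂(gaussianReal 0 1))) (KK b) := by
    apply LipschitzWith.of_dist_le'
    intro σ τ
    rw [Real.dist_eq, Real.dist_eq, KK, KK, ← integral_sub (hI σ) (hI τ), ← integral_mul_const]
    rw [← Real.norm_eq_abs]
    apply norm_integral_le_of_norm_le (int_id.abs.mul_const _)
    refine Eventually.of_forall fun z => ?_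
    rw [Real.norm_eq_abs, ← abs_mul]
    refine (abs_abs_sub_abs_le_abs_sub _ _).trans (le_of_eq ?_)
    congr 1; ring
  exact this.continuous

lemma KK_eq (b : ℝ) {σ : ℝ} (hσ : 0 < σ) : KK b σ = σ * ee (b / σ) := by
  rw [KK, ee, ← integral_const_mul]
  congr 1; ext z
  rw [← abs_of_pos hσ, ← abs_mul, abs_of_pos hσ]
  congr 1; field_simp

lemma law_span {y : Lp ℝ 2 PP} (hy : y ∈ Submodule.span ℝ (range gv)) (b : ℝ) :
    ∫ ω, |b + y ω| ∂PP = KK b ‖y‖ := by
  obtain ⟨c, rfl⟩ := Finsupp.mem_span_range_iff_exists_finsupp.1 hy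
  set y := c.sum fun i a => a • gv i with hy'
  have hae : y =ᵐ[PP] fun ω => ∑ i ∈ c.support, c i * ω i := by
    have : ∀ s : Finset ℕ, ((∑ i ∈ s, c i • gv i : Lp ℝ 2 PP) : (ℕ → ℝ) → ℝ) =ᵐ[PP]
        fun ω => ∑ i ∈ s, c i * ω i := by
      intro s
      induction s using Finset.induction_on with
      | empty =>
        simp only [Finset.sum_empty]
        exact Lp.coeFn_zero ℝ 2 PP
      | insert i s hi ih =>
        rw [Finset.sum_insert hi]
        filter_upwards [Lp.coeFn_add (c i • gv i) (∑ i ∈ s, c i • gv i), Lp.coeFn_smul (c i) (gv i),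
          gv_ae i, ih] with ω h1 h2 h3 h4
        rw [h1, Pi.add_apply, h2, h4, Finset.sum_insert hi, Pi.smul_apply, h3, smul_eq_mul]
    exact this _
  have hG : HasGaussianLaw y PP := by
    have h1 : iIndepFun (fun (i : c.support) (ω : ℕ → ℝ) => c i * ω i) PP :=
      (indep_eval.comp (fun i x => c i * x) (fun i => by fun_prop)).precomp
        (g := (Subtype.val : c.support → ℕ)) Subtype.val_injective
    have h2 : ∀ i : c.support, HasGaussianLaw (fun ω : ℕ → ℝ => c i * ω i) PP := fun i =>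
      ((mp_eval i).hasLaw.hasGaussianLaw).fun_smul (c i)
    have h3 := iIndepFun.hasGaussianLaw_fun_sum h2 h1
    refine h3.congr ?_
    filter_upwards [hae] with ω h
    rw [h, Finset.sum_coe_sort c.support (fun i => c i * ω i)]
  have hm : ∫ ω, y ω ∂PP = 0 := by
    rw [integral_congr_ae hae, integral_finsetSum]
    · simp [integral_const_mul, int_eval]
    · intro i _
      exact ((memLp_eval i).integrable (by norm_num)).const_mul _
  have hv : Var[y; PP] = ‖y‖ ^ 2 := by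
    rw [variance_of_integral_eq_zero hG.aemeasurable hm, ← real_inner_self_eq_norm_sq, L2.inner_def]
    congr 1; ext ω; simp
  have hlaw := hG.map_eq_gaussianReal
  rw [hm, hv] at hlaw
  have h5 : gaussianReal 0 (‖y‖ ^ 2).toNNReal = (gaussianReal 0 1).map (‖y‖ * ·) := by
    rw [gaussianReal_map_const_mul, mul_zero, mul_one]
    congr 1
    ext
    simp
  rw [KK, ← integral_map (φ := (‖y‖ * ·)) (f := fun x => |b + x|) (by fun_prop) (by fun_prop), ← h5,
    ← hlaw, integral_map hG.aemeasurable (by fun_prop)]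

noncomputable def incl : Lp ℝ 2 PP →L[ℝ] Lp ℝ 1 PP :=
  LinearMap.mkContinuous
    { toFun := fun y => ⟨y.1, Lp.antitone (by norm_num) y.2⟩
      map_add' := fun _ _ => rfl
      map_smul' := fun _ _ => rfl } 1 (fun y => by
    rw [one_mul, Lp.norm_def, Lp.norm_def]
    exact ENNReal.toReal_mono (Lp.eLpNorm_ne_top y)
      (eLpNorm_le_eLpNorm_of_exponent_le (by norm_num) (Lp.aestronglyMeasurable y)))

lemma incl_coe (y : Lp ℝ 2 PP) : (incl y : (ℕ → ℝ) → ℝ) = y := rfl

noncomputable def HH : Submodule ℝ (Lp ℝ 2 PP) := (Submodule.span ℝ (range gv)).topologicalClosure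

instance : CompleteSpace HH := (Submodule.isClosed_topologicalClosure _).completeSpace_coe

lemma law_HH (y : HH) (b : ℝ) : ∫ ω, |b + (y : Lp ℝ 2 PP) ω| ∂PP = KK b ‖y‖ := by
  have hform : ∀ y : Lp ℝ 2 PP, ∫ ω, |b + y ω| ∂PP = ‖Lp.const 1 PP b + incl y‖ := by
    intro y
    rw [L1.norm_eq_integral_norm]
    apply integral_congr_ae
    filter_upwards [Lp.coeFn_add (Lp.const 1 PP b) (incl y), Lp.coeFn_const 1 PP b] with ω h1 h2
    rw [h1, Pi.add_apply, h2, incl_coe]
    simp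
  have hcl : IsClosed {y : Lp ℝ 2 PP | ∫ ω, |b + y ω| ∂PP = KK b ‖y‖} := by
    simp_rw [hform]
    exact isClosed_eq (by fun_prop) ((KK_cont b).comp continuous_norm)
  have : closure (Submodule.span ℝ (range gv) : Set (Lp ℝ 2 PP)) ⊆ _ :=
    closure_minimal (fun y hy => law_span hy b) hcl
  exact this y.2

noncomputable def gH (i : ℕ) : HH :=
  ⟨gv i, Submodule.le_topologicalClosure _ (Submodule.subset_span ⟨i, rfl⟩)⟩

lemma gH_norm (i : ℕ) : ‖gH i‖ = 1 := gv_orth.1 i

lemma HH_inf : ¬ FiniteDimensional ℝ HH := by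
  intro h
  have h1 : LinearIndependent ℝ gH :=
    LinearIndependent.of_comp HH.subtype gv_orth.linearIndependent
  exact Module.Finite.not_linearIndependent_of_infinite _ h1

noncomputable abbrev L1I := Lp ℝ 1 (volume : Measure unitInterval)

theorem embed (μ : Measure ℝ) [IsProbabilityMeasure μ] (hμ : Integrable (fun a => a) μ) {c : ℝ}
    (hc : 0 < c) :
    ∃ J : (ℝ × HH) →L[ℝ] L1I, ∀ ξ y, y ≠ 0 →
      ‖J (ξ, y)‖ = ‖y‖ * (c * ∫ a, ee (a * (ξ / ‖y‖)) ∂μ) := by
  obtain ⟨φ, hφm, hφ⟩ := (μ.prod PP).exists_measurable_map_eq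
  have hφp : MeasurePreserving φ volume (μ.prod PP) := ⟨hφm, hφ⟩
  have ha : Integrable (fun p : ℝ × (ℕ → ℝ) => p.1) (μ.prod PP) := hμ.comp_fst PP
  set a0 : Lp ℝ 1 (μ.prod PP) := ha.toL1 _ with ha0
  set T : Lp ℝ 1 PP →ₗᵢ[ℝ] Lp ℝ 1 (μ.prod PP) :=
    Lp.compMeasurePreservingₗᵢ ℝ Prod.snd measurePreserving_snd with hT
  set J0 : (ℝ × HH) →L[ℝ] Lp ℝ 1 (μ.prod PP) :=
    (ContinuousLinearMap.toSpanSingleton ℝ a0).coprod
      (T.toContinuousLinearMap.comp (incl.comp HH.subtypeL)) with hJ0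
  refine ⟨c • (Lp.compMeasurePreservingₗᵢ ℝ φ hφp).toContinuousLinearMap.comp J0, fun ξ y hy => ?_⟩
  have hσ : 0 < ‖y‖ := norm_pos_iff.2 hy
  have h1 : J0 (ξ, y) =ᵐ[μ.prod PP] fun p => p.1 * ξ + (y : Lp ℝ 2 PP) p.2 := by
    have e : J0 (ξ, y) = ξ • a0 + T (incl y) := by simp [hJ0]
    rw [e]
    filter_upwards [Lp.coeFn_add (ξ • a0) (T (incl y)), Lp.coeFn_smul ξ a0, ha.coeFn_toL1,
      Lp.coeFn_compMeasurePreserving (incl y) (measurePreserving_snd (μ := μ) (ν := PP))]
      with p h1 h2 h3 h4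
    rw [h1, Pi.add_apply, h2, Pi.smul_apply, ha0, h3, smul_eq_mul, mul_comm]
    congr 1
  have h2 : ‖J0 (ξ, y)‖ = ∫ a, KK (a * ξ) ‖y‖ ∂μ := by
    rw [L1.norm_eq_integral_norm, integral_congr_ae (g := fun p => |p.1 * ξ + (y : Lp ℝ 2 PP) p.2|)
      (by filter_upwards [h1] with p hp; rw [hp, Real.norm_eq_abs]), integral_prod]
    · simp_rw [law_HH]
    · exact ((L1.integrable_coeFn (J0 (ξ, y))).congr h1).abs
  rw [smul_apply, norm_smul, ContinuousLinearMap.comp_apply,
    LinearIsometry.coe_toContinuousLinearMap, LinearIsometry.norm_map, h2, Real.norm_eq_abs,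
    abs_of_pos hc]
  simp_rw [KK_eq _ hσ, mul_div_assoc]
  rw [integral_const_mul]; ring

end Pool.Agent.H88.Zon
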