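import Pool.Agent.H88.Zon4

open MeasureTheory Set Filter Topology ProbabilityTheory

namespace Pool.Agent.H88.Zon

noncomputable def FF (x s : ℝ) : ℝ := (x ^ 2 + s ^ 2 / 2) / √(x ^ 2 + s ^ 2)

lemma FF_neg (x s : ℝ) : FF (-x) s = FF x s := by simp [FF]

lemma FF_ge (x s : ℝ) : √(x ^ 2 + s ^ 2) / 2 ≤ FF x s := by
  unfold FF
  rcases eq_or_lt_of_le (Real.sqrt_nonneg (x ^ 2 + s ^ 2)) with h | h
  · rw [← h]; simp
  · rw [le_div_iff₀ h]
    have := Real.sq_sqrt (show 0 ≤ x ^ 2 + s ^ 2 by positivity)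
    nlinarith [sq_nonneg x]

lemma key_ineq (X x s : ℝ) :
    (2 * X ^ 3 + 3 * X) * x + s ≤ 2 * √(X ^ 2 + 1) ^ 3 * FF x s := by
  unfold FF
  have hr2 := Real.sq_sqrt (show 0 ≤ X ^ 2 + 1 by positivity)
  have hρ2 := Real.sq_sqrt (show 0 ≤ x ^ 2 + s ^ 2 by positivity)
  have hr : 0 < √(X ^ 2 + 1) := Real.sqrt_pos.2 (by positivity)
  rcases eq_or_lt_of_le (Real.sqrt_nonneg (x ^ 2 + s ^ 2)) with h | h
  · rw [← h] at hρ2 ⊢
    have hx : x = 0 := by nlinarith [sq_nonneg x, sq_nonneg s]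
    have hs : s = 0 := by nlinarith [sq_nonneg x, sq_nonneg s]
    simp [hx, hs]
  · rw [← mul_div_assoc, le_div_iff₀ h]
    generalize √(X ^ 2 + 1) = r at *
    generalize √(x ^ 2 + s ^ 2) = ρ at *
    have ha : X * x + s ≤ r * ρ := by
      apply abs_le_of_sq_le_sq' _ (by positivity) |>.2
      rw [mul_pow, hr2, hρ2]
      nlinarith [sq_nonneg (X * s - x)]
    have hb : X * x - s ≤ r * ρ := by
      apply abs_le_of_sq_le_sq' _ (by positivity) |>.2
      rw [mul_pow, hr2, hρ2]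
      nlinarith [sq_nonneg (X * s + x)]
    have h2 : 0 ≤ ρ * (r ^ 2 + 1) - r * (X * x - s) := by nlinarith
    have h3 : 2 * r ^ 3 * (x ^ 2 + s ^ 2 / 2) - ((2 * X ^ 3 + 3 * X) * x + s) * ρ =
        (r * ρ - (X * x + s)) * (ρ * (r ^ 2 + 1) - r * (X * x - s)) := by
      linear_combination (r * x ^ 2 + 2 * X * x * ρ) * hr2 - r * (r ^ 2 + 1) * hρ2
    nlinarith [mul_nonneg (sub_nonneg.2 ha) h2]

lemma gH_ne : gH 0 ≠ 0 := by
  intro h
  have := gH_norm 0
  rw [h, norm_zero] at this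
  exact zero_ne_one this

theorem emb1 : ∃ J : (ℝ × HH) →L[ℝ] L1I, ∀ x y, ‖J (x, y)‖ = FF x ‖y‖ := by
  obtain ⟨μ, c, h1, h2, h3, h4⟩ := rep1
  obtain ⟨J, hJ⟩ := embed μ h3 h2
  have hA : ∀ x y, y ≠ 0 → ‖J (x, y)‖ = FF x ‖y‖ := by
    intro x y hy
    have hσ : 0 < ‖y‖ := norm_pos_iff.2 hy
    rw [hJ x y hy, h4, FF]
    have e : √(x ^ 2 + ‖y‖ ^ 2) = ‖y‖ * √((x / ‖y‖) ^ 2 + 1) := by
      rw [← Real.sqrt_sq hσ.le, ← Real.sqrt_mul (by positivity), Real.sqrt_sq hσ.le]
      congr 1; field_simp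
    rw [e]
    have : 0 < √((x / ‖y‖) ^ 2 + 1) := Real.sqrt_pos.2 (by positivity)
    field_simp
  refine ⟨J, fun x y => ?_⟩
  by_cases hy : y = 0
  swap
  · exact hA x y hy
  subst hy
  by_cases hx : x = 0
  · subst hx
    have : ((0, 0) : ℝ × HH) = 0 := rfl
    rw [this]
    simp [FF]
  have c1 : Continuous fun t : ℝ => ‖J (x, t • gH 0)‖ := by fun_prop
  have c2 : Continuous fun t : ℝ => FF x ‖t • gH 0‖ := by
    unfold FF
    refine Continuous.div (by fun_prop) (by fun_prop) fun t => ?_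
    exact (Real.sqrt_pos.2 (by positivity)).ne'
  have := Continuous.ext_on (dense_compl_singleton (0:ℝ)) c1 c2
    (fun t ht => hA x _ (smul_ne_zero ht gH_ne))
  simpa using congrFun this 0

theorem emb2 : ∃ J : (ℝ × HH) →L[ℝ] L1I, ∀ X y, y ≠ 0 →
    ‖J (‖y‖ * (2 * X ^ 3 + 3 * X), y)‖ = ‖y‖ * (2 * √(X ^ 2 + 1) ^ 3) := by
  obtain ⟨μ, c, h1, h2, h3, h4⟩ := rep2
  obtain ⟨J, hJ⟩ := embed μ h3 h2
  refine ⟨J, fun X y hy => ?_⟩
  have hσ : 0 < ‖y‖ := norm_pos_iff.2 hy
  rw [hJ _ y hy, mul_div_cancel_left₀ _ hσ.ne', h4]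

lemma cont_line {E : Type*} [NormedAddCommGroup E] [NormedSpace ℝ E] (f g : StrongDual ℝ E) :
    Continuous fun t : ℝ => ‖f + t • g‖ := by fun_prop

universe u

theorem main : ∃ (X : Type) (_ : NormedAddCommGroup X) (_ : NormedSpace ℝ X) (_ : CompleteSpace X),
    ¬ FiniteDimensional ℝ X ∧
    Nonempty (X →ₗᵢ[ℝ] Lp ℝ 1 (volume : Measure unitInterval)) ∧
    Nonempty (StrongDual ℝ X →ₗᵢ[ℝ] Lp ℝ 1 (volume : Measure unitInterval)) ∧
    ∀ (H : Type u) [NormedAddCommGroup H] [InnerProductSpace ℝ H], IsEmpty (X →ₗᵢ[ℝ] H) := by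
  obtain ⟨J, hJ⟩ := emb1
  obtain ⟨J2, hJ2⟩ := emb2
  have hlow : ∀ v : ℝ × HH, ‖v‖ ≤ (2 : NNReal) * ‖J v‖ := by
    rintro ⟨x, y⟩
    rw [hJ, Prod.norm_def]
    have h1 := FF_ge x ‖y‖
    have h2 : ‖x‖ ≤ √(x ^ 2 + ‖y‖ ^ 2) := by
      rw [Real.norm_eq_abs]
      apply Real.abs_le_sqrt
      nlinarith [sq_nonneg ‖y‖]
    have h3 : ‖y‖ ≤ √(x ^ 2 + ‖y‖ ^ 2) := by
      apply Real.le_sqrt_of_sq_le
      nlinarith [sq_nonneg x]
    simp only [NNReal.coe_ofNat]
    apply max_le <;> linarith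
  have hanti := J.antilipschitz_of_bound hlow
  have hcl : IsClosed (range J) := hanti.isClosed_range J.uniformContinuous
  set X : Submodule ℝ L1I := LinearMap.range (J : (ℝ × HH) →ₗ[ℝ] L1I) with hX
  have hcX : CompleteSpace X := IsClosed.completeSpace_coe (s := (X : Set L1I)) (hs := hcl)
  set j : (ℝ × HH) →L[ℝ] X := J.codRestrict X (fun v => ⟨v, rfl⟩) with hj
  have hjn : ∀ x y, ‖j (x, y)‖ = FF x ‖y‖ := fun x y => hJ x y
  have hjs : ∀ w : X, ∃ x y, j (x, y) = w := by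
    rintro ⟨w, ⟨x, y⟩, rfl⟩
    exact ⟨x, y, rfl⟩
  have hji : Function.Injective j := fun a b hab => hanti.injective (congrArg Subtype.val hab)
  refine ⟨X, inferInstance, inferInstance, hcX, ?_, ⟨X.subtypeₗᵢ⟩, ?_, ?_⟩
  · intro hfin
    apply HH_inf
    refine FiniteDimensional.of_injective
      ((j : (ℝ × HH) →ₗ[ℝ] X).comp (LinearMap.inr ℝ ℝ HH)) ?_
    exact hji.comp LinearMap.inr_injective
  · set η : StrongDual ℝ X → HH := fun f =>
      (InnerProductSpace.toDual ℝ HH).symm (f.comp (j.comp (ContinuousLinearMap.inr ℝ ℝ HH)))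
      with hη
    have hηi : ∀ f y, inner ℝ (η f) y = f (j (0, y)) := by
      intro f y
      simp only [hη]
      rw [InnerProductSpace.toDual_symm_apply]
      rfl
    set R : StrongDual ℝ X →ₗ[ℝ] ℝ × HH :=
      { toFun := fun f => (f (j (1, 0)), η f)
        map_add' := fun f g => by
          refine Prod.ext rfl ?_
          apply ext_inner_right ℝ
          intro y
          simp only [Prod.snd_add, inner_add_left, hηi]
          rfl
        map_smul' := fun t f => by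
          refine Prod.ext rfl ?_
          apply ext_inner_right ℝ
          intro y
          simp only [RingHom.id_apply, Prod.smul_snd, real_inner_smul_left, hηi]
          rfl } with hR
    have hf : ∀ (f : StrongDual ℝ X) x y, f (j (x, y)) = f (j (1, 0)) * x + inner ℝ (η f) y := by
      intro f x y
      have : ((x, y) : ℝ × HH) = x • ((1, 0) : ℝ × HH) + (0, y) := by simp
      rw [this, map_add, map_add, map_smul, map_smul, hηi, smul_eq_mul, mul_comm]
    have hA : ∀ f : StrongDual ℝ X, η f ≠ 0 → ‖J2 (R f)‖ = ‖f‖ := by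
      intro f h0
      have hσ : 0 < ‖η f‖ := norm_pos_iff.2 h0
      obtain ⟨Y, hY⟩ := cub_surj (f (j (1, 0)) / ‖η f‖)
      have hξ : f (j (1, 0)) = ‖η f‖ * (2 * Y ^ 3 + 3 * Y) := by
        simp only at hY
        rw [hY]; field_simp
      have h1 : ‖J2 (R f)‖ = ‖η f‖ * (2 * √(Y ^ 2 + 1) ^ 3) := by
        rw [← hJ2 Y _ h0, ← hξ]; rfl
      rw [h1]
      apply le_antisymm
      · have h2 := f.le_opNorm (j (Y, ‖η f‖⁻¹ • η f))
        have h3 : ‖‖η f‖⁻¹ • η f‖ = 1 := by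
          rw [norm_smul, norm_inv, norm_norm, inv_mul_cancel₀ hσ.ne']
        have h3' : inner ℝ (η f) (‖η f‖⁻¹ • η f) = ‖η f‖⁻¹ * ‖η f‖ ^ 2 := by
          rw [← real_inner_self_eq_norm_sq]
          exact real_inner_smul_right (η f) (η f) _
        rw [hjn, h3, hf, hξ, h3'] at h2
        have h4 := (le_abs_self _).trans h2
        have hr2 := Real.sq_sqrt (show 0 ≤ Y ^ 2 + 1 by positivity)
        have hr : 0 < √(Y ^ 2 + 1) := Real.sqrt_pos.2 (by positivity)
        have h5 : FF Y 1 = (Y ^ 2 + 1 / 2) / √(Y ^ 2 + 1) := by simp [FF]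
        have h6 : 0 < FF Y 1 := by rw [h5]; positivity
        refine le_of_mul_le_mul_right (le_of_eq_of_le ?_ h4) h6
        rw [h5]
        generalize √(Y ^ 2 + 1) = r at *
        field_simp
        rw [hr2]; ring
      · apply ContinuousLinearMap.opNorm_le_bound _ (by positivity)
        intro w
        obtain ⟨x, y, rfl⟩ := hjs w
        rw [hjn, hf, hξ, Real.norm_eq_abs, abs_le]
        have k1 := mul_le_mul_of_nonneg_left (key_ineq Y x ‖y‖) hσ.le
        have k2 := mul_le_mul_of_nonneg_left (key_ineq Y (-x) ‖y‖) hσ.le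
        rw [FF_neg] at k2
        have k3 := abs_le.1 (abs_real_inner_le_norm (η f) y)
        constructor <;> nlinarith [k3.1, k3.2]
    have hne : j (0, gH 0) ≠ 0 := by
      intro h
      have := hji (h.trans (map_zero j).symm)
      exact gH_ne (congrArg Prod.snd this)
    obtain ⟨f0, -, hf0⟩ := exists_dual_vector ℝ (j (0, gH 0)) (norm_ne_zero_iff.2 hne)
    have hη0 : η f0 ≠ 0 := by
      intro h
      have := hηi f0 (gH 0)
      rw [h, inner_zero_left, hf0] at this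
      exact hne (norm_eq_zero.1 (by exact_mod_cast this.symm))
    refine ⟨⟨(J2 : (ℝ × HH) →ₗ[ℝ] L1I).comp R, fun f => ?_⟩⟩
    show ‖J2 (R f)‖ = ‖f‖
    by_cases h0 : η f = 0
    swap
    · exact hA f h0
    have c1 : Continuous fun t : ℝ => ‖J2 (R f + t • R f0)‖ := by fun_prop
    have c2 : Continuous fun t : ℝ => ‖f + t • f0‖ := cont_line f f0
    have := Continuous.ext_on (dense_compl_singleton (0:ℝ)) c1 c2 (fun t ht => by
      show ‖J2 (R f + t • R f0)‖ = ‖f + t • f0‖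
      rw [← map_smul, ← map_add]
      apply hA
      have e : η (f + t • f0) = η f + t • η f0 := by
        have := congrArg Prod.snd (show R (f + t • f0) = R f + t • R f0 by rw [map_add, map_smul])
        exact this
      rw [e, h0, zero_add]
      exact smul_ne_zero ht hη0)
    simpa using congrFun this 0
  · intro H _ _
    refine ⟨fun T => ?_⟩
    have h := parallelogram_law_with_norm ℝ (T (j (1, 0))) (T (j (0, gH 0)))
    rw [← map_add, ← map_sub, ← map_add, ← map_sub] at h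
    simp only [LinearIsometry.norm_map, Prod.mk_add_mk, Prod.mk_sub_mk, add_zero, zero_add,
      sub_zero, zero_sub, hjn, norm_neg, gH_norm, norm_zero, FF] at h
    have h2 : √2 ^ 2 = 2 := Real.sq_sqrt (by norm_num)
    have h3 : 0 < √2 := by positivity
    norm_num at h
    field_simp at h
    nlinarith

end Pool.Agent.H88.Zon
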