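import Pool.Agent.H88.Zon5

open MeasureTheory Set Filter Topology

namespace Pool.Agent.H88.Zon

variable {E : Type} [NormedAddCommGroup E] [InnerProductSpace ℝ E] [FiniteDimensional ℝ E]

lemma near {K : Set E} (hne : K.Nonempty) (hc : IsClosed K) (hv : Convex ℝ K) {x : E} {δ : ℝ}
    (hδ : 0 ≤ δ) (h : ∀ u, ∃ q ∈ K, inner ℝ u x ≤ inner ℝ u q + δ * ‖u‖) :
    ∃ p ∈ K, dist x p ≤ δ := by
  have : CompleteSpace E := FiniteDimensional.complete ℝ E
  obtain ⟨p, hp, h1⟩ := exists_norm_eq_iInf_of_complete_convex hne hc.isComplete hv x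
  have h2 := (norm_eq_iInf_iff_real_inner_le_zero hv hp).1 h1
  obtain ⟨q, hq, h3⟩ := h (x - p)
  have h4 := h2 q hq
  refine ⟨p, hp, ?_⟩
  rw [dist_eq_norm]
  have h5 : ‖x - p‖ ^ 2 = inner ℝ (x - p) x - inner ℝ (x - p) p := by
    rw [← inner_sub_right, real_inner_self_eq_norm_sq]
  rw [inner_sub_right] at h4
  by_contra hlt
  push Not at hlt
  nlinarith

def body (h : E → ℝ) : Set E := {x | ∀ u, inner ℝ u x ≤ h u}

lemma body_convex (h : E → ℝ) : Convex ℝ (body h) := by
  intro x hx y hy a b ha hb hab u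
  rw [inner_add_right, real_inner_smul_right, real_inner_smul_right]
  have h1 := mul_le_mul_of_nonneg_left (hx u) ha
  have h2 := mul_le_mul_of_nonneg_left (hy u) hb
  have : a * h u + b * h u = h u := by rw [← add_mul, hab, one_mul]
  linarith

lemma body_closed (h : E → ℝ) : IsClosed (body h) := by
  have : body h = ⋂ u, {x | inner ℝ u x ≤ h u} := by ext x; simp [body]
  rw [this]
  exact isClosed_iInter fun u => isClosed_le (by fun_prop) continuous_const

def zonotope {m : ℕ} (v : Fin m → E) : Set E :=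
  {x | ∃ t : Fin m → ℝ, (∀ i, |t i| ≤ 1) ∧ x = ∑ i, t i • v i}

lemma zonotope_eq {m : ℕ} (v : Fin m → E) :
    zonotope v = (Fintype.linearCombination ℝ v) '' (Set.pi univ fun _ => Icc (-1) 1) := by
  ext x
  simp only [zonotope, mem_ofPred_eq, mem_image, Set.mem_pi, mem_univ, true_implies, mem_Icc,
    Fintype.linearCombination_apply, abs_le]
  constructor
  · rintro ⟨t, h1, h2⟩; exact ⟨t, h1, h2.symm⟩
  · rintro ⟨t, h1, h2⟩; exact ⟨t, h1, h2.symm⟩

lemma zonotope_closed {m : ℕ} (v : Fin m → E) : IsClosed (zonotope v) := by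
  rw [zonotope_eq]
  exact ((isCompact_univ_pi fun _ => isCompact_Icc).image
    (LinearMap.continuous_of_finiteDimensional _)).isClosed

lemma zonotope_convex {m : ℕ} (v : Fin m → E) : Convex ℝ (zonotope v) := by
  rw [zonotope_eq]
  exact (convex_pi fun _ _ => convex_Icc _ _).linear_image _

lemma zonotope_le {m : ℕ} (v : Fin m → E) {x : E} (hx : x ∈ zonotope v) (u : E) :
    inner ℝ u x ≤ ∑ i, |inner ℝ u (v i)| := by
  obtain ⟨t, h1, rfl⟩ := hx
  rw [inner_sum]
  apply Finset.sum_le_sum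
  intro i _
  rw [real_inner_smul_right]
  refine (le_abs_self _).trans ?_
  rw [abs_mul]
  exact mul_le_of_le_one_left (abs_nonneg _) (h1 i)

lemma zonotope_att {m : ℕ} (v : Fin m → E) (u : E) :
    ∃ x ∈ zonotope v, inner ℝ u x = ∑ i, |inner ℝ u (v i)| := by
  refine ⟨_, ⟨fun i => if 0 ≤ inner ℝ u (v i) then 1 else -1, fun i => ?_, rfl⟩, ?_⟩
  · beta_reduce
    split_ifs <;> simp
  · rw [inner_sum]
    apply Finset.sum_congr rfl
    intro i _
    rw [real_inner_smul_right]
    beta_reduce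
    split_ifs with h
    · rw [abs_of_nonneg h, one_mul]
    · rw [abs_of_neg (not_le.1 h)]; ring

variable {Ω : Type} [MeasurableSpace Ω] {μ : Measure Ω}

lemma body_att {W : Ω → E} (hW : Integrable W μ) (u : E) :
    ∃ x ∈ body (fun u => ∫ t, |inner ℝ u (W t)| ∂μ), inner ℝ u x = ∫ t, |inner ℝ u (W t)| ∂μ := by
  have : CompleteSpace E := FiniteDimensional.complete ℝ E
  set W' := hW.1.mk W with hW'
  have hae : W =ᵐ[μ] W' := hW.1.ae_eq_mk
  have hsm : StronglyMeasurable W' := hW.1.stronglyMeasurable_mk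
  have hW2 : Integrable W' μ := hW.congr hae
  have hs : MeasurableSet {t | 0 ≤ inner ℝ u (W' t)} :=
    measurableSet_le measurable_const (stronglyMeasurable_const.inner hsm).measurable
  have hS : Integrable (fun t => if 0 ≤ inner ℝ u (W' t) then W' t else -W' t) μ := by
    classical
    have := Integrable.piecewise (μ := μ) hs hW2.integrableOn hW2.neg.integrableOn
    refine this.congr (Eventually.of_forall fun t => ?_)
    simp only [Set.piecewise, mem_ofPred_eq, Pi.neg_apply]
  have hh : ∀ v : E, ∫ t, |inner ℝ v (W t)| ∂μ = ∫ t, |inner ℝ v (W' t)| ∂μ := fun v =>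
    integral_congr_ae (by filter_upwards [hae] with t ht; rw [ht])
  refine ⟨∫ t, (if 0 ≤ inner ℝ u (W' t) then W' t else -W' t) ∂μ, fun v => ?_, ?_⟩
  · simp only
    rw [← integral_inner hS, hh]
    apply integral_mono (hS.const_inner v) (hW2.const_inner v).abs
    intro t
    simp only
    split_ifs
    · exact le_abs_self _
    · rw [inner_neg_right]; exact neg_le_abs _
  · rw [← integral_inner hS, hh]
    congr 1; ext t
    split_ifs with h
    · rw [abs_of_nonneg h]
    · rw [inner_neg_right, abs_of_neg (not_le.1 h)]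

lemma body_zonoid {W : Ω → E} (hW : Integrable W μ) :
    (body (fun u => ∫ t, |inner ℝ u (W t)| ∂μ)).Nonempty ∧
    IsCompact (body (fun u => ∫ t, |inner ℝ u (W t)| ∂μ)) ∧
    ∀ δ : ℝ, 0 < δ → ∃ m : ℕ, ∃ v : Fin m → E,
      Metric.hausdorffDist (body (fun u => ∫ t, |inner ℝ u (W t)| ∂μ)) (zonotope v) < δ := by
  have : ProperSpace E := FiniteDimensional.proper_real E
  have hne : (body (fun u => ∫ t, |inner ℝ u (W t)| ∂μ)).Nonempty :=
    ⟨0, fun u => by
      rw [inner_zero_right]
      exact integral_nonneg fun t => abs_nonneg _⟩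
  refine ⟨hne, ?_, fun δ hδ => ?_⟩
  · refine Metric.isCompact_of_isClosed_isBounded (body_closed _) ?_
    refine (Metric.isBounded_closedBall (x := (0:E)) (r := ∫ t, ‖W t‖ ∂μ)).subset fun x hx => ?_
    have h1 := hx x
    have h2 : ∫ t, |inner ℝ x (W t)| ∂μ ≤ ‖x‖ * ∫ t, ‖W t‖ ∂μ := by
      rw [← integral_const_mul]
      exact integral_mono (hW.const_inner x).abs (hW.norm.const_mul _)
        fun t => abs_real_inner_le_norm _ _
    rw [real_inner_self_eq_norm_sq] at h1
    have h3 : 0 ≤ ∫ t, ‖W t‖ ∂μ := integral_nonneg fun t => norm_nonneg _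
    rw [mem_closedBall_zero_iff]
    by_contra hlt
    push Not at hlt
    simp only at h1
    nlinarith
  obtain ⟨s, hs, hsm⟩ := (memLp_one_iff_integrable.2 hW).exists_simpleFunc_eLpNorm_sub_lt
    (by simp) (ε := ENNReal.ofReal (δ / 2)) (by simpa using hδ)
  have hsi : Integrable s μ := memLp_one_iff_integrable.1 hsm
  have hd : ∫ t, ‖W t - s t‖ ∂μ ≤ δ / 2 := by
    rw [eLpNorm_one_eq_lintegral_enorm, ← ofReal_integral_norm_eq_lintegral_enorm (hW.sub hsi),
      ENNReal.ofReal_lt_ofReal_iff (by linarith)] at hs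
    exact hs.le
  set v : Fin s.range.card → E := fun i =>
    μ.real (s ⁻¹' {(s.range.equivFin.symm i : E)}) • (s.range.equivFin.symm i : E) with hv
  have hsum : ∀ u : E, ∑ i, |inner ℝ u (v i)| = ∫ t, |inner ℝ u (s t)| ∂μ := by
    intro u
    have h1 := SimpleFunc.map_integral s (fun y => |inner ℝ u y|) hsi (by simp)
    rw [SimpleFunc.integral_eq_integral _ (by exact (hsi.const_inner u).abs)] at h1
    have h2 : ∫ t, |inner ℝ u (s t)| ∂μ = _ := h1
    rw [h2, ← Finset.sum_coe_sort s.range, ← Equiv.sum_comp s.range.equivFin.symm]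
    apply Finset.sum_congr rfl
    intro i _
    simp only [hv]
    rw [real_inner_smul_right, abs_mul, abs_of_nonneg measureReal_nonneg, smul_eq_mul]
  have hcmp : ∀ u : E, |(∫ t, |inner ℝ u (W t)| ∂μ) - ∫ t, |inner ℝ u (s t)| ∂μ| ≤ δ / 2 * ‖u‖ := by
    intro u
    rw [← integral_sub (hW.const_inner u).abs (hsi.const_inner u).abs, ← Real.norm_eq_abs]
    refine (norm_integral_le_of_norm_le ((hW.sub hsi).norm.mul_const ‖u‖)
      (Eventually.of_forall fun t => ?_)).trans ?_
    · rw [Real.norm_eq_abs]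
      refine (abs_abs_sub_abs_le_abs_sub _ _).trans ?_
      rw [← inner_sub_right, mul_comm]
      exact abs_real_inner_le_norm _ _
    · rw [integral_mul_const]
      exact mul_le_mul_of_nonneg_right hd (norm_nonneg _)
  refine ⟨_, v, lt_of_le_of_lt (Metric.hausdorffDist_le_of_mem_dist (r := δ / 2) (by linarith)
    (fun x hx => ?_) (fun x hx => ?_)) (by linarith)⟩
  · refine near (K := zonotope v) ⟨_, ⟨0, by simp, rfl⟩⟩ (zonotope_closed v) (zonotope_convex v) (by linarith)
      fun u => ?_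
    obtain ⟨q, hq, h1⟩ := zonotope_att v u
    refine ⟨q, hq, ?_⟩
    have h2 := hx u
    have h3 := (abs_le.1 (hcmp u)).2
    rw [h1, hsum]
    simp only at h2
    linarith
  · refine near hne (body_closed _) (body_convex _) (by linarith) fun u => ?_
    obtain ⟨q, hq, h1⟩ := body_att hW u
    refine ⟨q, hq, ?_⟩
    have h2 := zonotope_le v hx u
    have h3 := (abs_le.1 (hcmp u)).1
    rw [h1]
    rw [hsum] at h2
    linarith

lemma exists_vec {n : ℕ} (T : EuclideanSpace ℝ (Fin n) →ₗ[ℝ] Lp ℝ 1 μ) :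
    ∃ W : Ω → EuclideanSpace ℝ (Fin n), Integrable W μ ∧
      ∀ u, ‖T u‖ = ∫ t, |inner ℝ u (W t)| ∂μ := by
  set b := EuclideanSpace.basisFun (Fin n) ℝ with hb
  refine ⟨fun t => ∑ i, (T (b i) t) • b i, ?_, fun u => ?_⟩
  · exact integrable_finsetSum _ fun i _ => (L1.integrable_coeFn (T (b i))).smul_const _
  · rw [L1.norm_eq_integral_norm]
    apply integral_congr_ae
    have : ∀ s : Finset (Fin n), ((∑ i ∈ s, inner ℝ (b i) u • T (b i) : Lp ℝ 1 μ) : Ω → ℝ) =ᵐ[μ]
        fun t => ∑ i ∈ s, inner ℝ (b i) u * T (b i) t := by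
      intro s
      induction s using Finset.induction_on with
      | empty =>
        simp only [Finset.sum_empty]
        exact Lp.coeFn_zero ℝ 1 μ
      | insert i s hi ih =>
        rw [Finset.sum_insert hi]
        filter_upwards [Lp.coeFn_add (inner ℝ (b i) u • T (b i))
          (∑ i ∈ s, inner ℝ (b i) u • T (b i)), Lp.coeFn_smul (inner ℝ (b i) u) (T (b i)), ih]
          with ω h1 h2 h4
        rw [h1, Pi.add_apply, h2, h4, Finset.sum_insert hi, Pi.smul_apply, smul_eq_mul]
    have e : T u = ∑ i, inner ℝ (b i) u • T (b i) := by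
      conv_lhs => rw [← b.sum_repr' u]
      simp only [map_sum, map_smul]
    rw [e]
    filter_upwards [this Finset.univ] with t ht
    rw [ht, Real.norm_eq_abs, inner_sum]
    congr 1
    apply Finset.sum_congr rfl
    intro i _
    rw [real_inner_smul_right, real_inner_comm, mul_comm]

end Pool.Agent.H88.Zon
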