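import Pool.Agent.H88.Zon6

open MeasureTheory Set Filter Topology

namespace Pool.Agent.H88.Zon

noncomputable def VV (n : ℕ) : EuclideanSpace ℝ (Fin n) →ₗ[ℝ] HH where
  toFun u := ∑ i, u i • gH i
  map_add' u v := by simp [add_smul, Finset.sum_add_distrib]
  map_smul' c u := by simp [Finset.smul_sum, smul_smul]

lemma gH_orth : Orthonormal ℝ gH := by
  have := gv_orth
  rw [orthonormal_iff_ite] at this ⊢
  intro i j
  exact this i j

lemma VV_norm {n : ℕ} (u : EuclideanSpace ℝ (Fin n)) : ‖VV n u‖ = ‖u‖ := by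
  have h1 : Orthonormal ℝ (fun i : Fin n => gH i) := gH_orth.comp _ Fin.val_injective
  have h2 := h1.inner_sum (fun i => u i) (fun i => u i) Finset.univ
  have h3 : ‖VV n u‖ ^ 2 = ‖u‖ ^ 2 := by
    rw [← real_inner_self_eq_norm_sq, EuclideanSpace.real_norm_sq_eq]
    refine Eq.trans h2 ?_
    simp [sq]
  exact (pow_left_inj₀ (norm_nonneg _) (norm_nonneg _) two_ne_zero).1 h3

theorem bodies {n : ℕ} (e e' : EuclideanSpace ℝ (Fin n)) (he : ‖e‖ = 1) (he' : ‖e'‖ = 1)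
    (hee : inner ℝ e e' = 0) :
    ∃ T1 T2 : EuclideanSpace ℝ (Fin n) →ₗ[ℝ] L1I,
      (∀ u, ‖T1 u‖ = FF (inner ℝ e u) ‖u - inner ℝ e u • e‖) ∧
      {x | ‖T1 x‖ ≤ 1} = body (fun u => ‖T2 u‖) ∧
      {y | ∀ x ∈ {x | ‖T1 x‖ ≤ 1}, inner ℝ x y ≤ (1:ℝ)} = body (fun u => ‖T1 u‖) := by
  obtain ⟨J, hJ⟩ := emb1
  obtain ⟨J2, hJ2⟩ := emb2
  set P : EuclideanSpace ℝ (Fin n) →ₗ[ℝ] EuclideanSpace ℝ (Fin n) :=
    LinearMap.id - (innerₛₗ ℝ e).smulRight e with hP
  have hPa : ∀ u, P u = u - inner ℝ e u • e := fun u => by simp [hP]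
  set ι : EuclideanSpace ℝ (Fin n) →ₗ[ℝ] ℝ × HH := (innerₛₗ ℝ e).prod ((VV n).comp P) with hι
  have hιa : ∀ u, ι u = (inner ℝ e u, VV n (P u)) := fun u => rfl
  have hee1 : inner ℝ e e = (1:ℝ) := by rw [real_inner_self_eq_norm_sq, he]; norm_num
  have hdec : ∀ u x, inner ℝ u x = inner ℝ e u * inner ℝ e x + inner ℝ (P u) (P x) := by
    intro u x
    rw [hPa, hPa, inner_sub_left, inner_sub_right, inner_sub_right, real_inner_smul_left,
      real_inner_smul_right, real_inner_smul_left, real_inner_smul_right, hee1,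
      real_inner_comm e u]
    ring
  have heP : ∀ u, inner ℝ e (P u) = 0 := by
    intro u
    rw [hPa, inner_sub_right, real_inner_smul_right, hee1]; ring
  have hPP : ∀ u, P (P u) = P u := by
    intro u
    rw [hPa (P u), heP]; simp
  have hPe : P e = 0 := by rw [hPa, hee1]; simp
  have hPe' : P e' = e' := by rw [hPa, hee]; simp
  set T1 := (J : (ℝ × HH) →ₗ[ℝ] L1I).comp ι with hT1
  set T2 := (J2 : (ℝ × HH) →ₗ[ℝ] L1I).comp ι with hT2
  have h1 : ∀ u, ‖T1 u‖ = FF (inner ℝ e u) ‖P u‖ := by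
    intro u
    have := hJ (inner ℝ e u) (VV n (P u))
    rw [VV_norm] at this
    exact this
  have hlow : ∀ u, ‖u‖ / 2 ≤ ‖T1 u‖ := by
    intro u
    rw [h1]
    refine le_trans (le_of_eq ?_) (FF_ge _ _)
    have := hdec u u
    rw [real_inner_self_eq_norm_sq, real_inner_self_eq_norm_sq, ← sq] at this
    rw [← this, Real.sqrt_sq (norm_nonneg _)]
  have h2 : ∀ u, P u ≠ 0 → ∃ Y : ℝ, inner ℝ e u = ‖P u‖ * (2 * Y ^ 3 + 3 * Y) ∧
      ‖T2 u‖ = ‖P u‖ * (2 * √(Y ^ 2 + 1) ^ 3) := by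
    intro u h0
    have hσ : 0 < ‖P u‖ := norm_pos_iff.2 h0
    obtain ⟨Y, hY⟩ := cub_surj (inner ℝ e u / ‖P u‖)
    have hξ : inner ℝ e u = ‖P u‖ * (2 * Y ^ 3 + 3 * Y) := by
      simp only at hY
      rw [hY]; field_simp
    refine ⟨Y, hξ, ?_⟩
    have h3 := hJ2 Y (VV n (P u)) (by rw [← norm_pos_iff, VV_norm]; exact hσ)
    rw [VV_norm, ← hξ] at h3
    exact h3
  have hT2c : Continuous T2 := LinearMap.continuous_of_finiteDimensional _
  have he'0 : e' ≠ 0 := by rw [← norm_pos_iff, he']; norm_num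
  have hA : ∀ u x, inner ℝ u x ≤ ‖T2 u‖ * ‖T1 x‖ := by
    have hA0 : ∀ u x, P u ≠ 0 → inner ℝ u x ≤ ‖T2 u‖ * ‖T1 x‖ := by
      intro u x h0
      obtain ⟨Y, hξ, h3⟩ := h2 u h0
      rw [h3, h1, hdec, hξ]
      have k1 := mul_le_mul_of_nonneg_left (key_ineq Y (inner ℝ e x) ‖P x‖) (norm_nonneg (P u))
      have k3 := real_inner_le_norm (P u) (P x)
      nlinarith
    intro u x
    by_cases h0 : P u = 0
    swap
    · exact hA0 u x h0
    have hcl : IsClosed {t : ℝ | inner ℝ (u + t • e') x ≤ ‖T2 (u + t • e')‖ * ‖T1 x‖} :=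
      isClosed_le (by fun_prop) (by fun_prop)
    have hsub : ({0}ᶜ : Set ℝ) ⊆ {t : ℝ | inner ℝ (u + t • e') x ≤ ‖T2 (u + t • e')‖ * ‖T1 x‖} := by
      intro t ht
      apply hA0
      rw [map_add, map_smul, h0, hPe', zero_add]
      exact smul_ne_zero ht he'0
    have := closure_minimal hsub hcl ((dense_compl_singleton (0:ℝ)) 0)
    simpa using this
  have hB : ∀ y ∈ body (fun u => ‖T1 u‖), ‖T2 y‖ ≤ 1 := by
    have hB0 : ∀ y ∈ body (fun u => ‖T1 u‖), P y ≠ 0 → ‖T2 y‖ ≤ 1 := by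
      intro y hy h0
      obtain ⟨Y, hξ, h3⟩ := h2 y h0
      have hσ : 0 < ‖P y‖ := norm_pos_iff.2 h0
      have h4 := hy (Y • e + ‖P y‖⁻¹ • P y)
      have a1 : inner ℝ e (Y • e + ‖P y‖⁻¹ • P y) = Y := by
        rw [inner_add_right, real_inner_smul_right, real_inner_smul_right, hee1, heP]; ring
      have a2 : P (Y • e + ‖P y‖⁻¹ • P y) = ‖P y‖⁻¹ • P y := by
        rw [map_add, map_smul, map_smul, hPe, hPP]; simp
      have a3 : ‖‖P y‖⁻¹ • P y‖ = 1 := by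
        rw [norm_smul, norm_inv, norm_norm, inv_mul_cancel₀ hσ.ne']
      simp only at h4
      rw [h1, hdec, a1, a2, a3, hξ, real_inner_smul_left, real_inner_self_eq_norm_sq] at h4
      have hr2 := Real.sq_sqrt (show 0 ≤ Y ^ 2 + 1 by positivity)
      have hr : 0 < √(Y ^ 2 + 1) := Real.sqrt_pos.2 (by positivity)
      have h5 : FF Y 1 = (Y ^ 2 + 1 / 2) / √(Y ^ 2 + 1) := by simp [FF]
      have h6 : 0 < FF Y 1 := by rw [h5]; positivity
      rw [h3]
      refine le_of_mul_le_mul_right (le_of_eq_of_le ?_ (h4.trans (one_mul _).ge)) h6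
      rw [h5]
      generalize √(Y ^ 2 + 1) = r at *
      field_simp
      rw [hr2]; ring
    intro y hy
    by_cases h0 : P y = 0
    swap
    · exact hB0 y hy h0
    have hy0 : (1 / 2 : ℝ) • e' ∈ body (fun u => ‖T1 u‖) := by
      intro u
      have := real_inner_le_norm u e'
      rw [real_inner_smul_right]
      rw [he'] at this
      have := hlow u
      simp only
      linarith
    have hcl : IsClosed {t : ℝ | ‖T2 ((1 - t) • y + t • (1 / 2 : ℝ) • e')‖ ≤ 1} :=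
      isClosed_le (by fun_prop) continuous_const
    have hsub : Ioc (0:ℝ) 1 ⊆ {t : ℝ | ‖T2 ((1 - t) • y + t • (1 / 2 : ℝ) • e')‖ ≤ 1} := by
      intro t ht
      apply hB0
      · exact body_convex _ hy hy0 (by linarith [ht.2]) ht.1.le (by ring)
      · rw [map_add, map_smul, map_smul, map_smul, h0, hPe', smul_zero, zero_add]
        exact smul_ne_zero ht.1.ne' (smul_ne_zero (by norm_num) he'0)
    have := closure_minimal hsub hcl (show (0:ℝ) ∈ closure (Ioc (0:ℝ) 1) by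
      rw [closure_Ioc zero_ne_one]; simp)
    simpa using this
  refine ⟨T1, T2, fun u => by rw [h1, hPa], ?_, ?_⟩
  · ext x
    constructor
    · intro hx u
      exact (hA u x).trans (mul_le_of_le_one_right (norm_nonneg _) hx)
    · intro hx
      obtain ⟨W, hW, hW1⟩ := exists_vec T1
      obtain ⟨y, hy, hy1⟩ := body_att hW x
      simp only [← hW1] at hy hy1
      have h3 := hx y
      have h4 := hB y hy
      show ‖T1 x‖ ≤ 1
      rw [← hy1, real_inner_comm]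
      simp only at h3
      linarith
  · ext y
    constructor
    · intro hy u
      by_cases hu : u = 0
      · simp [hu]
      have h3 : 0 < ‖T1 u‖ := lt_of_lt_of_le (by have := norm_pos_iff.2 hu; positivity) (hlow u)
      have h4 := hy (‖T1 u‖⁻¹ • u) (by
        show ‖T1 (‖T1 u‖⁻¹ • u)‖ ≤ 1
        rw [map_smul, norm_smul, norm_inv, norm_norm, inv_mul_cancel₀ h3.ne'])
      rw [real_inner_smul_left, inv_mul_le_iff₀ h3, mul_one] at h4
      exact h4
    · intro hy x hx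
      exact (hy x).trans hx

theorem far {n : ℕ} (e e' : EuclideanSpace ℝ (Fin n)) (he : ‖e‖ = 1) (he' : ‖e'‖ = 1)
    (hee : inner ℝ e e' = 0) (T1 : EuclideanSpace ℝ (Fin n) →ₗ[ℝ] L1I)
    (h1 : ∀ u, ‖T1 u‖ = FF (inner ℝ e u) ‖u - inner ℝ e u • e‖)
    (T : EuclideanSpace ℝ (Fin n) ≃ₗ[ℝ] EuclideanSpace ℝ (Fin n))
    (hl : Metric.closedBall 0 1 ⊆ T '' {x | ‖T1 x‖ ≤ 1})
    (hu : T '' {x | ‖T1 x‖ ≤ 1} ⊆ Metric.closedBall 0 (1 + 1 / 20)) : False := by
  have hee1 : inner ℝ e e = (1:ℝ) := by rw [real_inner_self_eq_norm_sq, he]; norm_num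
  have a1 : ∀ x, ‖T1 x‖ ≤ ‖T x‖ := by
    intro x
    by_cases hx : x = 0
    · simp [hx]
    have h3 : 0 < ‖T x‖ := norm_pos_iff.2 (by simpa using hx)
    obtain ⟨z, hz, hz'⟩ := hl (show ‖T x‖⁻¹ • T x ∈ Metric.closedBall 0 1 by
      rw [mem_closedBall_zero_iff, norm_smul, norm_inv, norm_norm, inv_mul_cancel₀ h3.ne'])
    rw [← map_smul] at hz'
    have := T.injective hz'
    subst this
    have hz : ‖T1 (‖T x‖⁻¹ • x)‖ ≤ 1 := hz
    rwa [map_smul, norm_smul, norm_inv, norm_norm, inv_mul_le_iff₀ h3, mul_one] at hz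
  have a2 : ∀ x, 0 < ‖T1 x‖ → ‖T x‖ ≤ (1 + 1 / 20) * ‖T1 x‖ := by
    intro x h3
    have := hu ⟨‖T1 x‖⁻¹ • x, by
      show ‖T1 (‖T1 x‖⁻¹ • x)‖ ≤ 1
      rw [map_smul, norm_smul, norm_inv, norm_norm, inv_mul_cancel₀ h3.ne'], rfl⟩
    rwa [mem_closedBall_zero_iff, map_smul, norm_smul, norm_inv, norm_norm, inv_mul_le_iff₀ h3,
      mul_comm] at this
  have b1 : ‖T1 e‖ = 1 := by rw [h1, hee1]; simp [FF]
  have b2 : ‖T1 e'‖ = 1 / 2 := by rw [h1, hee]; simp [FF, he']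
  have b3 : ‖T1 (e + e')‖ = 3 / 2 / √2 := by
    rw [h1, inner_add_right, hee1, hee]; simp [FF, he']; norm_num
  have b4 : ‖T1 (e - e')‖ = 3 / 2 / √2 := by
    rw [h1, inner_sub_right, hee1, hee]; simp [FF, he']; norm_num
  have h := parallelogram_law_with_norm ℝ (T e) (T e')
  rw [← map_add, ← map_sub] at h
  have c1 := a1 e
  have c2 := a1 e'
  have c3 := a2 (e + e') (by rw [b3]; positivity)
  have c4 := a2 (e - e') (by rw [b4]; positivity)
  rw [b1] at c1; rw [b2] at c2; rw [b3] at c3; rw [b4] at c4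
  have h2 : (3 / 2 / √2) ^ 2 = 9 / 8 := by
    rw [div_pow, Real.sq_sqrt (by norm_num)]; norm_num
  have d3 := pow_le_pow_left₀ (norm_nonneg _) c3 2
  have d4 := pow_le_pow_left₀ (norm_nonneg _) c4 2
  rw [mul_pow, h2] at d3 d4
  nlinarith

end Pool.Agent.H88.Zon
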